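import Mathlib

/-! Free groups and right-angled Artin groups are residually finite. -/

namespace Pool.Agent.H65.Raag

open Group Subgroup

theorem rf_of_inj {G H : Type} [Group G] [Group H] [ResiduallyFinite H] (f : G →* H)
    (hf : Function.Injective f) : ResiduallyFinite G := by
  rw [residuallyFinite_iff_forall_finiteIndexNormalSubgroup]
  intro g hg
  exact hf ((eq_one_iff_forall_finiteIndexNormalSubroup (f g) fun K => hg (K.comap f)).trans
    (map_one f).symm)

instance freeRF (Ω : Type) : ResiduallyFinite (FreeGroup Ω) := by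
  refine residuallyFinite_of_forall_exists_finite_monoidHom fun g hg => ?_
  obtain ⟨l⟩ := g
  let S := {g : FreeGroup Ω // g ∈ l.tails.map FreeGroup.mk}
  have : Finite S := (List.finite_toSet _).to_subtype
  have h : ∀ x : Ω, ∃ σ : Equiv.Perm S, ∀ g g' : S, g'.1 = FreeGroup.of x * g.1 → σ g = g' := by
    intro x
    obtain ⟨σ, hσ⟩ := Equiv.Perm.exists_extending_pair
      (α := {g : S // FreeGroup.of x * g.1 ∈ l.tails.map FreeGroup.mk})
      (f := fun g => g.1) (g := fun g => (⟨_, g.2⟩ : S)) Subtype.val_injective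
      fun a b e => Subtype.ext (Subtype.ext (mul_left_cancel (congrArg Subtype.val e)))
    exact ⟨σ, fun g g' e => (hσ ⟨g, e ▸ g'.2⟩).trans (Subtype.ext e.symm)⟩
  choose σ hσ using h
  have key : ∀ t (ht : t <:+ l), FreeGroup.lift σ (FreeGroup.mk t)
      ⟨1, List.mem_map.2 ⟨[], by simp, rfl⟩⟩ = ⟨_, List.mem_map_of_mem ((List.mem_tails _ _).2 ht)⟩ := by
    intro t ht
    induction t with
    | nil => rfl
    | cons x t ih =>
      have e : FreeGroup.mk (x :: t) = FreeGroup.mk [x] * FreeGroup.mk t := rfl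
      conv_lhs => rw [e, map_mul, Equiv.Perm.mul_apply, ih ((List.suffix_cons x t).trans ht)]
      obtain ⟨x, _ | _⟩ := x
      · have e2 : FreeGroup.mk [(x, false)] = (FreeGroup.of x)⁻¹ := rfl
        rw [e2, map_inv, FreeGroup.lift_apply_of, Equiv.Perm.inv_eq_iff_eq]
        exact (hσ x _ _ (by simp only [e, e2, mul_inv_cancel_left])).symm
      · rw [show FreeGroup.mk [(x, true)] = FreeGroup.of x from rfl, FreeGroup.lift_apply_of]
        exact hσ x _ _ rfl
  refine ⟨Equiv.Perm S, inferInstance, inferInstance, FreeGroup.lift σ, fun e => hg ?_⟩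
  have := congrArg Subtype.val (key l (List.suffix_refl l))
  rw [show FreeGroup.lift σ (FreeGroup.mk l) = 1 from e] at this
  exact this.symm

/-- a permutation action on the basis of a free group -/
def pact (B Ω : Type) [Group B] [MulAction B Ω] : B →* MulAut (FreeGroup Ω) :=
  MonoidHom.mk' (fun g => FreeGroup.freeGroupCongr (MulAction.toPerm g)) fun g h => by
    refine MulEquiv.toMonoidHom_injective (FreeGroup.ext_hom _ _ fun x => ?_)
    simp [mul_smul]

@[simp] theorem pact_of {B Ω : Type} [Group B] [MulAction B Ω] (g : B) (x : Ω) :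
    pact B Ω g (FreeGroup.of x) = FreeGroup.of (g • x) := by simp [pact]

theorem sd_rf {B Ω : Type} [Group B] [MulAction B Ω] [ResiduallyFinite B]
    (hsep : ∀ x y : Ω, x ≠ y → ∃ N : Subgroup B, N.FiniteIndex ∧ ∀ n ∈ N, n • x ≠ y) :
    ResiduallyFinite (FreeGroup Ω ⋊[pact B Ω] B) := by
  classical
  have fi : ∀ N : Subgroup B, N.FiniteIndex →
      (N.comap (SemidirectProduct.rightHom (φ := pact B Ω))).FiniteIndex := fun N hN =>
    ⟨by rw [index_comap_of_surjective _ SemidirectProduct.rightHom_surjective]; exact hN.1⟩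
  rw [residuallyFinite_iff_exists_finiteIndex]
  rintro ⟨⟨l⟩, b⟩ hg
  by_cases hb : b = 1
  swap
  · obtain ⟨N, h1, h2⟩ := residuallyFinite_iff_exists_finiteIndex.1 inferInstance b hb
    exact ⟨_, fi N h1, h2⟩
  subst hb
  choose! N0 h1 h2 using hsep
  let Y : Finset Ω := (l.map Prod.fst).toFinset
  let N : Subgroup B := ⨅ p ∈ Y.offDiag, N0 p.1 p.2
  have hN : N.FiniteIndex := finiteIndex_iInf' _ fun p hp => h1 _ _ (Finset.mem_offDiag.1 hp).2.2
  let p : Ω → MulAction.orbitRel.Quotient N Ω := Quotient.mk _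
  have hp : Set.InjOn p Y := fun x hx y hy e => by
    by_contra hn
    obtain ⟨n, hn'⟩ := Quotient.exact e.symm
    exact h2 x y hn n.1 (mem_iInf.1 (mem_iInf.1 n.2 (x, y)) (Finset.mem_offDiag.2 ⟨hx, hy, hn⟩)) hn'
  have hw : FreeGroup.map p (FreeGroup.mk l) ≠ 1 := fun e => hg (by
    rcases l with _ | ⟨y, l⟩
    · rfl
    have : Nonempty Ω := ⟨y.1⟩
    have h3 := congrArg (FreeGroup.map (Function.invFunOn p Y)) e
    rw [FreeGroup.map.comp, map_one, FreeGroup.map.mk, List.map_congr_left (g := id), List.map_id]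
      at h3
    · exact SemidirectProduct.ext h3 rfl
    · intro x hx
      exact Prod.ext (hp.leftInvOn_invFunOn (List.mem_toFinset.2 (List.mem_map_of_mem hx))) rfl)
  obtain ⟨M, hM⟩ := exists_finiteIndexNormalSubgroup_notMem _ hw
  have inv : ∀ n ∈ N, ∀ u, FreeGroup.map p (pact B Ω n u) = FreeGroup.map p u := fun n hn u => by
    change ((FreeGroup.map p).comp (pact B Ω n).toMonoidHom) u = _
    congr 1
    ext x
    simpa using congrArg FreeGroup.of (Quotient.sound ⟨⟨n, hn⟩, rfl⟩ : p (n • x) = p x)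
  let χ : N.comap (SemidirectProduct.rightHom (φ := pact B Ω)) →* FreeGroup _ :=
    MonoidHom.mk' (fun g => FreeGroup.map p g.1.left) fun g h => by
      simp only [coe_mul, SemidirectProduct.mul_left, map_mul]
      exact congrArg _ (inv _ g.2 _)
  have := fi N hN
  refine ⟨((M.comap χ).toSubgroup).map (Subgroup.subtype _), ⟨?_⟩, ?_⟩
  · rw [index_map_subtype]
    exact mul_ne_zero FiniteIndex.index_ne_zero FiniteIndex.index_ne_zero
  · rintro ⟨g, h3, h4⟩
    apply hM
    have h5 : FreeGroup.map p g.1.left ∈ M := h3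
    rwa [show g.1 = _ from h4] at h5

theorem retract_sep {B : Type} [Group B] [ResiduallyFinite B] (ρ : B →* B)
    (hρ : ∀ g, ρ (ρ g) = ρ g) (x y : B ⧸ ρ.range) (h : x ≠ y) :
    ∃ N : Subgroup B, N.FiniteIndex ∧ ∀ n ∈ N, n • x ≠ y := by
  obtain ⟨g, rfl⟩ := QuotientGroup.mk_surjective x
  obtain ⟨g', rfl⟩ := QuotientGroup.mk_surjective y
  obtain ⟨M, hM⟩ := exists_finiteIndexNormalSubgroup_notMem ((g'⁻¹ * g)⁻¹ * ρ (g'⁻¹ * g)) fun e =>
    h (QuotientGroup.eq.2 (MonoidHom.mem_range.2 ⟨_, (inv_mul_eq_one.1 e).symm⟩)).symm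
  refine ⟨M.toSubgroup ⊓ (M.comap ρ).toSubgroup, inferInstance, fun n hn e => hM ?_⟩
  obtain ⟨k, hk⟩ := QuotientGroup.eq.1 (show ((g' : B) : B ⧸ ρ.range) = (n * g : B) from e.symm)
  have h1 := hρ k
  rw [hk] at h1
  have h2 : (g'⁻¹ * g)⁻¹ * ρ (g'⁻¹ * g) = g⁻¹ * n * g⁻¹⁻¹ * ((ρ g)⁻¹ * ρ n * (ρ g)⁻¹⁻¹)⁻¹ := by
    simp only [map_mul, map_inv] at h1 ⊢
    calc _ = g⁻¹ * g' * ((ρ g')⁻¹ * (ρ n * ρ g)) * ((ρ g)⁻¹ * ρ n * (ρ g)⁻¹⁻¹)⁻¹ := by group
      _ = _ := by rw [h1]; group
  rw [h2]
  exact mul_mem (M.isNormal'.conj_mem _ hn.1 _) (inv_mem (M.isNormal'.conj_mem _ hn.2 _))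

variable {V : Type} (Γ : SimpleGraph V)

abbrev A : Type := PresentedGroup {r : FreeGroup V | ∃ s t, Γ.Adj s t ∧
  r = FreeGroup.of s * FreeGroup.of t * (FreeGroup.of s)⁻¹ * (FreeGroup.of t)⁻¹}

variable {Γ}

theorem comm {s t : V} (h : Γ.Adj s t) :
    Commute (PresentedGroup.of s : A Γ) (PresentedGroup.of t) := by
  have := PresentedGroup.one_of_mem (rels := {r : FreeGroup V | ∃ s t, Γ.Adj s t ∧
    r = FreeGroup.of s * FreeGroup.of t * (FreeGroup.of s)⁻¹ * (FreeGroup.of t)⁻¹}) ⟨s, t, h, rfl⟩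
  exact commutatorElement_eq_one_iff_commute.1 this

def lift {G : Type} [Group G] (f : V → G) (h : ∀ s t, Γ.Adj s t → Commute (f s) (f t)) :
    A Γ →* G :=
  PresentedGroup.toGroup (f := f) (by
    rintro _ ⟨s, t, hst, rfl⟩
    simp only [map_mul, map_inv, FreeGroup.lift_apply_of]
    exact commutatorElement_eq_one_iff_commute.2 (h s t hst))

@[simp] theorem lift_of {G : Type} [Group G] (f : V → G) (h : ∀ s t, Γ.Adj s t → Commute (f s) (f t))
    (v : V) : lift f h (PresentedGroup.of v) = f v := PresentedGroup.toGroup.of _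

open Classical in
noncomputable def r (S : Set V) : A Γ →* A Γ :=
  lift (fun v => if v ∈ S then PresentedGroup.of v else 1) fun s t h => by
    split_ifs
    exacts [comm h, .one_right _, .one_left _, .one_left _]

open Classical in
theorem r_of (S : Set V) (v : V) :
    r (Γ := Γ) S (PresentedGroup.of v) = if v ∈ S then PresentedGroup.of v else 1 := lift_of _ _ _

theorem r_r (S T : Set V) (g : A Γ) : r S (r T g) = r (S ∩ T) g := by
  change ((r S).comp (r T)) g = _
  congr 1
  ext v
  by_cases h1 : v ∈ S <;> by_cases h2 : v ∈ T <;> simp [r_of, h1, h2]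

theorem ind {P : A Γ → Prop} (h1 : P 1) (h2 : ∀ v, P (PresentedGroup.of v))
    (h3 : ∀ g g', P g → P g' → P (g * g')) (h4 : ∀ g, P g → P g⁻¹) (g : A Γ) : P g := by
  have hg : g ∈ closure (Set.range PresentedGroup.of) := by
    rw [PresentedGroup.closure_range_of]; trivial
  induction hg using closure_induction with
  | mem x hx => exact hx.elim fun v e => e ▸ h2 v
  | one => exact h1
  | mul x y _ _ hx hy => exact h3 x y hx hy
  | inv x _ hx => exact h4 x hx

theorem range_rf (S : Finset V) : ResiduallyFinite (r (Γ := Γ) (S : Set V)).range := by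
  classical
  induction S using Finset.induction_on with
  | empty =>
    have : (r (Γ := Γ) ((∅ : Finset V) : Set V)) = 1 := by
      ext v
      simp [r_of]
    rw [this, MonoidHom.range_one]
    infer_instance
  | insert v T hv ih =>
    let B := (r (Γ := Γ) (T : Set V)).range
    let ρ : B →* B := ((r (Γ.neighborSet v)).comp B.subtype).codRestrict B (by
      rintro ⟨_, g, rfl⟩
      exact ⟨r (Γ.neighborSet v) g, by simp [r_r, Set.inter_comm]⟩)
    have hρ : ∀ g, ρ (ρ g) = ρ g := fun g => Subtype.ext (by simp [ρ, r_r])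
    have := sd_rf (retract_sep ρ hρ)
    have hc : ∀ g : A Γ, Commute (r (Γ.neighborSet v) g) (PresentedGroup.of v) := by
      refine ind (by simp) (fun u => ?_) (fun g g' h h' => by simpa using h.mul_left h')
        fun g h => by simpa using h.inv_left
      rw [r_of]
      split_ifs with h
      exacts [(comm h).symm, .one_left _]
    have h1 : ∀ t, Γ.Adj v t → Commute (SemidirectProduct.inl (φ := pact B (B ⧸ ρ.range))
        (FreeGroup.of ((1 : B) : B ⧸ ρ.range)))
        (SemidirectProduct.inr ⟨r T (PresentedGroup.of t), _, rfl⟩) := fun t ht => by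
      refine (mul_inv_eq_iff_eq_mul.1 ?_).symm
      rw [← map_inv, ← SemidirectProduct.inl_aut, pact_of]
      congr 2
      refine (QuotientGroup.eq.2 (MonoidHom.mem_range.2
        ⟨⟨r T (PresentedGroup.of t), _, rfl⟩, Subtype.ext ?_⟩)).symm
      by_cases h : t ∈ T <;> simp [ρ, r_of, h, ht]
    let Φ : A Γ →* FreeGroup (B ⧸ ρ.range) ⋊[pact B (B ⧸ ρ.range)] B :=
      lift (fun u => if u = v then SemidirectProduct.inl (FreeGroup.of ((1 : B) : B ⧸ ρ.range))
        else SemidirectProduct.inr ⟨r T (PresentedGroup.of u), _, rfl⟩) fun s t h => by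
        split_ifs with hs ht ht
        · exact .refl _
        · exact h1 t (hs ▸ h)
        · exact (h1 s (ht ▸ h.symm)).symm
        · refine Commute.map (Subtype.ext ?_) _
          exact ((comm h).map (r (T : Set V))).eq
    let f : B ⧸ ρ.range → A Γ := Quotient.lift (fun x : B => x.1 * PresentedGroup.of v * x.1⁻¹)
      fun x y h => by
        obtain ⟨k, hk⟩ := QuotientGroup.leftRel_apply.1 h
        have e : y.1 = x.1 * r (Γ.neighborSet v) k.1 := by
          rw [show r (Γ.neighborSet v) k.1 = (x⁻¹ * y).1 from congrArg Subtype.val hk]; simp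
        rw [e, mul_assoc x.1 _ (PresentedGroup.of v), (hc _).eq]
        group
    let Ψ : FreeGroup (B ⧸ ρ.range) ⋊[pact B (B ⧸ ρ.range)] B →* A Γ :=
      SemidirectProduct.lift (FreeGroup.lift f) B.subtype fun g => by
        ext ⟨x⟩
        simp only [MulEquiv.toMonoidHom_eq_coe, MonoidHom.comp_apply, MonoidHom.coe_coe, pact_of,
          FreeGroup.lift_apply_of, MulAut.conj_apply]
        change (g * x).1 * _ * (g * x).1⁻¹ = g.1 * (x.1 * _ * x.1⁻¹) * g.1⁻¹
        simp [mul_assoc]
    have key : Ψ.comp Φ = r ((insert v T : Finset V) : Set V) := by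
      ext u
      by_cases h : u = v
      · subst h
        simp only [MonoidHom.comp_apply, Φ, Ψ, lift_of, if_true, SemidirectProduct.lift_inl,
          FreeGroup.lift_apply_of, r_of, Finset.coe_insert, Set.mem_insert_iff, true_or]
        change (1 : B).1 * _ * (1 : B).1⁻¹ = _
        simp
      · simp [Φ, Ψ, h, r_of]
    refine rf_of_inj (Φ.comp (Subgroup.subtype _)) ((injective_iff_map_eq_one _).2 ?_)
    rintro ⟨_, g, rfl⟩ h
    have h2 := congrArg Ψ h
    rw [map_one] at h2
    change (Ψ.comp Φ) _ = 1 at h2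
    rw [key, subtype_apply, r_r, Set.inter_self] at h2
    exact Subtype.ext h2

instance raagRF : ResiduallyFinite (A Γ) := by
  classical
  rw [residuallyFinite_iff_forall_finiteIndexNormalSubgroup]
  intro g hg
  obtain ⟨S, hS⟩ : ∃ S : Finset V, r (S : Set V) g = g := by
    clear hg
    have mono : ∀ (S T : Finset V) (g : A Γ), S ⊆ T → r (S : Set V) g = g → r (T : Set V) g = g :=
      fun S T g h e => by rw [← e, r_r, Set.inter_eq_right.2 (by exact_mod_cast h)]
    refine ind (P := fun g => ∃ S : Finset V, r (S : Set V) g = g) ⟨∅, map_one _⟩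
      (fun v => ⟨{v}, by simp [r_of]⟩) ?_ (fun g h => h.imp fun S e => by rw [map_inv, e]) g
    rintro g g' ⟨S, h⟩ ⟨T, h'⟩
    exact ⟨S ∪ T, by rw [map_mul, mono S _ g Finset.subset_union_left h,
      mono T _ g' Finset.subset_union_right h']⟩
  have := range_rf (Γ := Γ) S
  have h := eq_one_iff_forall_finiteIndexNormalSubroup ((r (S : Set V)).rangeRestrict g)
    fun K => hg (K.comap _)
  exact hS.symm.trans (congrArg Subtype.val h)

end Pool.Agent.H65.Raag
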