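import Pool.Agent.H65.Dprm1

/-! The Davis-Putnam-Robinson-Matiyasevich theorem: recursively enumerable sets are Diophantine.
A fixed finite system of equations over the integers with an undecidable parameter set. -/

namespace Pool.Agent.H65.Dprm

open Dioph Finset

theorem exists_code (s : ℕ → ℕ) (n : ℕ) : ∃ U Q : ℕ, ∀ k ≤ n, U / Q ^ k % Q = s k := by
  have h := fun k => digit (u := (range (n + 1)).sup s + 1) k (fun i => if i ≤ n then s i else 0)
    (n + 1) fun i => by
      split_ifs with h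
      · exact Nat.lt_succ_of_le (le_sup (f := s) (mem_range.2 (by omega)))
      · omega
  exact ⟨_, _, fun k hk => by rw [h k, if_pos (by omega), if_pos hk]⟩

theorem rec_iff (a : ℕ) (g : ℕ → ℕ → ℕ) (n r : ℕ) :
    (Nat.rec (motive := fun _ => ℕ) a g n = r) ↔ ∃ U Q : ℕ, U / Q ^ 0 % Q = a ∧
      U / Q ^ n % Q = r ∧ ∀ y < n, U / Q ^ (y + 1) % Q = g y (U / Q ^ y % Q) := by
  constructor
  · rintro rfl
    obtain ⟨U, Q, h⟩ := exists_code (fun k => Nat.rec (motive := fun _ => ℕ) a g k) n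
    exact ⟨U, Q, h 0 (by omega), h n le_rfl, fun y hy => by rw [h _ hy, h y hy.le]⟩
  · rintro ⟨U, Q, h0, rfl, h⟩
    induction n with
    | zero => exact h0.symm
    | succ n ih => rw [h n (by omega), ← ih fun y hy => h y (by omega)]

theorem ofFn_cons {n : ℕ} (a : ℕ) (g : Fin n → ℕ) :
    List.Vector.ofFn (Fin.cons a g : Fin (n + 1) → ℕ) = a ::ᵥ List.Vector.ofFn g := by
  simp [List.Vector.ofFn]

theorem prim_dioph {n : ℕ} {F : List.Vector ℕ n → ℕ} (hF : Nat.Primrec' F) :
    ∀ {α : Type} (h : Fin n → (α → ℕ) → ℕ), (∀ i, DiophFn (h i)) →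
      DiophFn fun v => F (List.Vector.ofFn fun i => h i v) := by
  induction hF with
  | zero => exact fun _ _ => cst 0
  | succ => exact fun h dh => by simpa using add_dioph (dh 0) (cst 1)
  | get i => exact fun h dh => by simpa using dh i
  | comp g _ _ ih1 ih2 => exact fun h dh => ih1 _ fun i => ih2 i h dh
  | @prec n f g _ _ ih1 ih2 =>
    intro α h dh
    have dU := proj_dioph (α := Option α ⊕ Bool) (.inr false)
    have dQ := proj_dioph (α := Option α ⊕ Bool) (.inr true)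
    have dh' : ∀ i, DiophFn fun u : Option α ⊕ Bool → ℕ => h i (u ∘ Sum.inl ∘ some) :=
      fun i => reindex_diophFn _ (dh i)
    have d1 := eq_dioph (mod_dioph (div_dioph dU (pow_dioph dQ (cst 0))) dQ)
      (ih1 _ fun i => dh' i.succ)
    have d2 := eq_dioph (mod_dioph (div_dioph dU (pow_dioph dQ (dh' 0))) dQ)
      (proj_dioph (.inl none))
    have eU := proj_dioph (α := Option (Option α ⊕ Bool)) (some (.inr false))
    have eQ := proj_dioph (α := Option (Option α ⊕ Bool)) (some (.inr true))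
    have ey := proj_dioph (α := Option (Option α ⊕ Bool)) none
    have d3 := ball_dioph (eq_dioph (mod_dioph (div_dioph eU (pow_dioph eQ (add_dioph ey (cst 1))))
      eQ) (ih2 (Fin.cons (fun u => u none) (Fin.cons (fun u => u (some (.inr false)) /
        u (some (.inr true)) ^ u none % u (some (.inr true)))
        fun i (u : Option (Option α ⊕ Bool) → ℕ) => h i.succ (u ∘ some ∘ Sum.inl ∘ some)))
      (Fin.cases ey (Fin.cases (mod_dioph (div_dioph eU (pow_dioph eQ ey)) eQ)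
        fun i => reindex_diophFn (some ∘ Sum.inl ∘ some) (dh i.succ))))) (dh' 0)
    refine (ex_dioph (d1.inter (d2.inter d3))).ext fun v => ?_
    have e : ∀ (a b : (Option (Option α ⊕ Bool) → ℕ) → ℕ) (c : Fin n → _ → ℕ) u,
        (List.Vector.ofFn fun i => (Fin.cons a (Fin.cons b c : Fin (n + 1) → _ → ℕ) :
          Fin (n + 2) → _ → ℕ) i u) = a u ::ᵥ b u ::ᵥ List.Vector.ofFn fun i => c i u := by
      intro a b c u
      simp [List.Vector.ofFn]
    simp only [Set.mem_ofPred_eq, Set.mem_inter_iff, e, rec_iff, List.Vector.head_ofFn,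
      List.Vector.tail_ofFn]
    constructor
    · rintro ⟨x, h1, h2, h3⟩
      exact ⟨x false, x true, h1, h2, h3⟩
    · rintro ⟨U, Q, h1, h2, h3⟩
      exact ⟨fun c => cond c Q U, h1, h2, h3⟩

theorem search_dioph (φ : ℕ → ℕ → ℕ) (hφ : Primrec₂ φ) :
    Dioph {v : Unit → ℕ | ∃ k, φ (v ()) k = 1} := by
  have h := prim_dioph (Nat.Primrec'.prim_iff₂.2 hφ) (α := Option Unit)
    ![fun u => u (some ()), fun u => u none]
    (fun i => by fin_cases i <;> exact proj_dioph _)
  refine (ex1_dioph (eq_dioph h (cst 1))).ext fun v => ?_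
  simp [List.Vector.ofFn]

open Nat.Partrec.Code in
/-- DPRM -/
theorem re_dioph {P : ℕ → Prop} (hP : REPred P) : Dioph {v : Unit → ℕ | P (v ())} := by
  obtain ⟨c, hc⟩ := Nat.Partrec.Code.exists_code.1 (Partrec.nat_iff.1
    (hP.map (g := fun _ _ => (0 : ℕ)) (Computable.const 0).to₂))
  refine (search_dioph (fun x k => cond (evaln k c x).isSome 1 0) ?_).ext fun v => ?_
  · refine Primrec.cond (Primrec.option_isSome.comp ?_) (Primrec.const 1) (Primrec.const 0)
    exact primrec_evaln.comp ((Primrec.snd.pair (Primrec.const c)).pair Primrec.fst)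
  · simp only [Set.mem_ofPred_eq]
    constructor
    · rintro ⟨k, hk⟩
      cases h : evaln k c (v ()) with
      | none => simp [h] at hk
      | some y =>
        have := evaln_sound (show y ∈ evaln k c (v ()) from h)
        rw [hc] at this
        simp at this
        exact this.1
    · intro h
      obtain ⟨k, hk⟩ := evaln_complete.1 (show 0 ∈ eval c (v ()) by rw [hc]; simp [h])
      exact ⟨k, by rw [show evaln k c (v ()) = some 0 from hk]; rfl⟩

inductive Tm (γ : Type) : Type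
  | var (i : γ) | cst (c : ℤ) | add (a b : Tm γ) | mul (a b : Tm γ)

def Tm.eval {γ : Type} (w : γ → ℤ) : Tm γ → ℤ
  | .var i => w i
  | .cst c => c
  | .add a b => a.eval w + b.eval w
  | .mul a b => a.eval w * b.eval w

def Tm.bind {γ δ : Type} (σ : γ → Tm δ) : Tm γ → Tm δ
  | .var i => σ i
  | .cst c => .cst c
  | .add a b => .add (a.bind σ) (b.bind σ)
  | .mul a b => .mul (a.bind σ) (b.bind σ)

theorem Tm.eval_bind {γ δ : Type} (σ : γ → Tm δ) (w : δ → ℤ) (t : Tm γ) :
    (t.bind σ).eval w = t.eval fun i => (σ i).eval w := by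
  induction t <;> simp_all [Tm.bind, Tm.eval]

theorem exists_tm {γ : Type} {p : (γ → ℕ) → ℤ} (hp : IsPoly p) :
    ∃ t : Tm γ, ∀ v : γ → ℕ, p v = t.eval fun i => v i := by
  induction hp with
  | proj i => exact ⟨.var i, fun _ => rfl⟩
  | const n => exact ⟨.cst n, fun _ => rfl⟩
  | sub _ _ ih1 ih2 =>
    obtain ⟨a, ha⟩ := ih1
    obtain ⟨b, hb⟩ := ih2
    exact ⟨.add a (.mul (.cst (-1)) b), fun v => by simp [Tm.eval, ha, hb, sub_eq_add_neg]⟩
  | mul _ _ ih1 ih2 =>
    obtain ⟨a, ha⟩ := ih1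
    obtain ⟨b, hb⟩ := ih2
    exact ⟨.mul a b, fun v => by simp [Tm.eval, ha, hb]⟩

/-- elementary equations -/
inductive Eqn (κ : Type) : Type
  | add (i j k : κ) | mul (i j k : κ) | cst (i : κ) (c : ℤ)

def Eqn.Sat {κ : Type} (x : κ → ℤ) : Eqn κ → Prop
  | .add i j k => x i + x j = x k
  | .mul i j k => x i * x j = x k
  | .cst i c => x i = c

def Eqn.map {κ μ : Type} (e : κ → μ) : Eqn κ → Eqn μ
  | .add i j k => .add (e i) (e j) (e k)
  | .mul i j k => .mul (e i) (e j) (e k)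
  | .cst i c => .cst (e i) c

def Eqn.vars {κ : Type} : Eqn κ → List κ
  | .add i j k => [i, j, k]
  | .mul i j k => [i, j, k]
  | .cst i _ => [i]

theorem Eqn.sat_map {κ μ : Type} (e : κ → μ) (x : μ → ℤ) (q : Eqn κ) :
    (q.map e).Sat x ↔ q.Sat (x ∘ e) := by cases q <;> rfl

theorem Eqn.sat_congr {κ : Type} {x y : κ → ℤ} (q : Eqn κ) (h : ∀ i ∈ q.vars, x i = y i) :
    q.Sat x ↔ q.Sat y := by
  cases q <;> simp_all [Eqn.Sat, Eqn.vars]

def Tm.sys {γ : Type} : Tm γ → List (Eqn (Tm γ))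
  | .var _ => []
  | .cst c => [.cst (.cst c) c]
  | .add a b => .add a b (.add a b) :: (a.sys ++ b.sys)
  | .mul a b => .mul a b (.mul a b) :: (a.sys ++ b.sys)

theorem Tm.sys_complete {γ : Type} (w : γ → ℤ) (t : Tm γ) :
    ∀ q ∈ t.sys, q.Sat fun s => s.eval w := by
  induction t <;> simp_all [Tm.sys, Eqn.Sat, Tm.eval, or_imp, forall_and]

theorem Tm.sys_sound {γ : Type} (x : Tm γ → ℤ) (t : Tm γ) (h : ∀ q ∈ t.sys, q.Sat x) :
    x t = t.eval fun i => x (.var i) := by
  induction t with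
  | var => rfl
  | cst c => exact h (.cst (.cst c) c) (by simp [Tm.sys])
  | add a b ih1 ih2 =>
    rw [Tm.eval, ← ih1 fun q hq => h q (by simp [Tm.sys, hq]),
      ← ih2 fun q hq => h q (by simp [Tm.sys, hq])]
    exact (h (.add a b (.add a b)) (by simp [Tm.sys])).symm
  | mul a b ih1 ih2 =>
    rw [Tm.eval, ← ih1 fun q hq => h q (by simp [Tm.sys, hq]),
      ← ih2 fun q hq => h q (by simp [Tm.sys, hq])]
    exact (h (.mul a b (.mul a b)) (by simp [Tm.sys])).symm

theorem dioph_tm {P : ℕ → Prop} (hP : Dioph {v : Unit → ℕ | P (v ())}) :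
    ∃ (γ : Type) (i : γ) (t : Tm γ), ∀ m : ℕ, P m ↔ ∃ w : γ → ℤ, w i = m ∧ t.eval w = 0 := by
  obtain ⟨β, p, hp⟩ := hP
  obtain ⟨t, ht⟩ := exists_tm p.isPoly
  let sq : β → Fin 4 → Tm (Unit ⊕ β × Fin 4) := fun j k => .mul (.var (.inr (j, k))) (.var (.inr (j, k)))
  refine ⟨Unit ⊕ β × Fin 4, .inl (), t.bind (Sum.elim (fun _ => .var (.inl ()))
    fun j => .add (.add (.add (sq j 0) (sq j 1)) (sq j 2)) (sq j 3)), fun m => ?_⟩
  refine (hp fun _ => m).trans ⟨?_, ?_⟩
  · rintro ⟨y, hy⟩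
    choose a b c d h using fun j => Nat.sum_four_squares (y j)
    refine ⟨Sum.elim (fun _ => m) fun z => ![a z.1, b z.1, c z.1, d z.1] z.2, rfl, ?_⟩
    rw [Tm.eval_bind, ← hy, ht]
    congr 1
    funext i
    rcases i with i | j
    · rfl
    · simp [Tm.eval, sq, ← h j, pow_two]
  · rintro ⟨w, h1, h2⟩
    refine ⟨fun j => (w (.inr (j, 0)) * w (.inr (j, 0)) + w (.inr (j, 1)) * w (.inr (j, 1)) +
      w (.inr (j, 2)) * w (.inr (j, 2)) + w (.inr (j, 3)) * w (.inr (j, 3))).toNat, ?_⟩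
    rw [Tm.eval_bind] at h2
    rw [← h2, ht]
    congr 1
    funext i
    rcases i with i | j
    · exact h1.symm
    · exact Int.toNat_of_nonneg (add_nonneg (add_nonneg (add_nonneg (mul_self_nonneg _)
        (mul_self_nonneg _)) (mul_self_nonneg _)) (mul_self_nonneg _))

theorem dioph_sys {P : ℕ → Prop} (hP : Dioph {v : Unit → ℕ | P (v ())}) :
    ∃ (i : ℕ) (S : List (Eqn ℕ)), ∀ m : ℕ, P m ↔ ∃ x : ℕ → ℤ, x i = m ∧ ∀ q ∈ S, q.Sat x := by
  classical
  obtain ⟨γ, i, t, ht⟩ := dioph_tm hP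
  let S : List (Eqn (Tm γ)) := .cst t 0 :: t.sys
  let L : List (Tm γ) := .var i :: S.flatMap Eqn.vars
  obtain ⟨e, he⟩ := Set.countable_iff_exists_injOn.1 L.finite_toSet.countable
  refine ⟨e (.var i), S.map (Eqn.map e), fun m => (ht m).trans ⟨?_, ?_⟩⟩
  · rintro ⟨w, h1, h2⟩
    let x : ℕ → ℤ := fun n => if h : ∃ s ∈ L, e s = n then h.choose.eval w else 0
    have hx : ∀ s ∈ L, x (e s) = s.eval w := fun s hs => by
      have h : ∃ s' ∈ L, e s' = e s := ⟨s, hs, rfl⟩
      simp only [x, dif_pos h]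
      rw [he h.choose_spec.1 hs h.choose_spec.2]
    refine ⟨x, (hx _ (by simp [L])).trans h1, fun q' hq' => ?_⟩
    obtain ⟨q, hq, rfl⟩ := List.mem_map.1 hq'
    rw [Eqn.sat_map, Eqn.sat_congr q (x := x ∘ e) (y := fun s => s.eval w) fun s hs =>
      hx s (List.mem_cons_of_mem _ (List.mem_flatMap.2 ⟨q, hq, hs⟩))]
    rcases List.mem_cons.1 hq with rfl | hq
    · exact h2
    · exact t.sys_complete w q hq
  · rintro ⟨x, h1, h2⟩
    have h3 : ∀ q ∈ S, q.Sat (x ∘ e) := fun q hq =>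
      (Eqn.sat_map e x q).1 (h2 _ (List.mem_map_of_mem hq))
    refine ⟨fun j => x (e (.var j)), h1, ?_⟩
    exact (t.sys_sound (x ∘ e) fun q hq => h3 q (List.mem_cons_of_mem _ hq)).symm.trans
      (h3 _ List.mem_cons_self)

/-- Hilbert's tenth problem: a fixed system with an undecidable set of good parameters. -/
theorem h10 : ∃ (i : ℕ) (S : List (Eqn ℕ)),
    ¬ ComputablePred fun m : ℕ => ∃ x : ℕ → ℤ, x i = m ∧ ∀ q ∈ S, q.Sat x := by
  have h1 : REPred fun m : ℕ => ((Denumerable.ofNat Nat.Partrec.Code m).eval 0).Dom :=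
    (ComputablePred.halting_problem_re 0).comp (Computable.ofNat _)
  obtain ⟨i, S, h⟩ := dioph_sys (re_dioph h1)
  refine ⟨i, S, fun h2 => ComputablePred.halting_problem 0 ?_⟩
  obtain ⟨d, hd⟩ := h2.of_eq fun m => (h m).symm
  have h3 : ComputablePred fun c : Nat.Partrec.Code =>
      ((Denumerable.ofNat Nat.Partrec.Code (Encodable.encode c)).eval 0).Dom :=
    ⟨fun c => d _, hd.comp Computable.encode⟩
  exact h3.of_eq fun c => by simp

end Pool.Agent.H65.Dprm
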