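import Pool.Agent.H65.Blocking

set_option autoImplicit false

namespace Pool.Agent.H65.Avoid
open FreeGroup hiding map_mul map_one map_inv IsReduced
open Pool.Agent.H65.Words Pool.Agent.H65.Cyclic Pool.Agent.H65.Blocking

variable {α : Type*} [DecidableEq α] [Fintype α]

def Av (u : List (α × Bool)) (n : ℕ) : Set (List (α × Bool)) :=
  {L | FreeGroup.IsReduced L ∧ L.length = n ∧ ¬ u <:+: L}

omit [DecidableEq α] in
lemma fin_len (n : ℕ) : {L : List (α × Bool) | L.length = n}.Finite := List.finite_length_eq _ n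

omit [DecidableEq α] in
lemma card_len (n : ℕ) : {L : List (α × Bool) | L.length = n}.ncard = (2 * Fintype.card α) ^ n := by
  have : {L : List (α × Bool) | L.length = n}.ncard = Nat.card (List.Vector (α × Bool) n) := rfl
  rw [this, Nat.card_eq_fintype_card, card_vector]
  simp [mul_comm]

omit [DecidableEq α] in
lemma Av_fin (u : List (α × Bool)) (n : ℕ) : (Av u n).Finite :=
  (fin_len n).subset fun _ h => h.2.1

lemma Av_step (h2 : 2 ≤ Fintype.card α) (u : List (α × Bool)) (hu : FreeGroup.IsReduced u)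
    (n : ℕ) : (Av u (n + 1 + (u.length + 1))).ncard ≤
      (Av u (n + 1)).ncard * ((2 * Fintype.card α - 1) ^ (u.length + 1) - 1) := by
  have hz : ∀ l : α × Bool, ∃ z, FreeGroup.IsReduced (l :: z :: u) := by
    intro l
    have : ({linv l, linv (u.headD l)} : Finset _).card ≤ 2 := Finset.card_le_two
    obtain ⟨z, _, hz⟩ := Finset.exists_mem_notMem_of_card_lt_card
      (s := ({linv l, linv (u.headD l)} : Finset _)) (t := Finset.univ) (by
        simp only [Finset.card_univ, Fintype.card_prod, Fintype.card_bool]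
        omega)
    simp only [Finset.mem_insert, Finset.mem_singleton, not_or] at hz
    refine ⟨z, ?_⟩
    rw [isReduced_cons_iff, isReduced_cons_iff]
    refine ⟨⟨hu, ?_⟩, by simpa using hz.1⟩
    intro h
    apply hz.2
    cases u with
    | nil => simp at h
    | cons b u => simp at h; simp [h]
  choose z hz using hz
  have : Nonempty α := Fintype.card_pos_iff.1 (by omega)
  let d : α × Bool := (Classical.arbitrary α, true)
  let Bl : List (α × Bool) → Finset (List (α × Bool)) := fun p =>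
    ((T (u.length + 1) (p.getLastD d)).erase (p.getLastD d :: z (p.getLastD d) :: u)).image
      (fun s => p ++ s.tail)
  have hB : ∀ p, (Bl p).card ≤ (2 * Fintype.card α - 1) ^ (u.length + 1) - 1 := by
    intro p
    refine Finset.card_image_le.trans ?_
    rw [Finset.card_erase_of_mem ((mem_T (u.length + 1) _ _).2 ⟨hz _, rfl, rfl⟩), card_T]
  have hsub : Av u (n + 1 + (u.length + 1)) ⊆ ((Av_fin u (n + 1)).toFinset.biUnion Bl : Finset _) := by
    rintro L ⟨h1, h2, h3⟩
    obtain ⟨p, s, rfl, hp⟩ : ∃ p s, L = p ++ s ∧ p.length = n + 1 :=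
      ⟨L.take (n+1), L.drop (n+1), by simp, by simp; omega⟩
    obtain ⟨p, l, rfl⟩ : ∃ p' l, p = p' ++ [l] := by
      rcases List.eq_nil_or_concat p with h | ⟨p', l, h⟩
      · simp [h] at hp
      · exact ⟨p', l, by simpa using h⟩
    simp only [Finset.coe_biUnion, Set.Finite.coe_toFinset, Set.mem_iUnion, Finset.mem_coe]
    refine ⟨p ++ [l], ⟨red_sub h1 ⟨[], s, by simp⟩, hp, fun h => h3 (h.trans ⟨[], s, by simp⟩)⟩, ?_⟩
    simp only [Bl, List.getLastD_concat, Finset.mem_image, Finset.mem_erase]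
    refine ⟨l :: s, ⟨?_, (mem_T _ _ _).2 ⟨red_sub h1 ⟨p, [], by simp⟩, ?_, rfl⟩⟩, rfl⟩
    · intro e
      apply h3
      rw [(List.cons.inj e).2]
      exact ⟨p ++ [l, z l], [], by simp⟩
    · simp at h2 hp ⊢; omega
  refine (Set.ncard_le_ncard hsub (Finset.finite_toSet _)).trans ?_
  rw [Set.ncard_coe_finset, Set.ncard_eq_toFinset_card _ (Av_fin u (n+1))]
  exact Finset.card_biUnion_le_card_mul _ _ _ fun p _ => hB p

theorem Av_bound (h2 : 2 ≤ Fintype.card α) (u : List (α × Bool)) (hu : FreeGroup.IsReduced u) :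
    ∃ b C : ℝ, 2 * (Fintype.card α : ℝ) - 3 / 2 ≤ b ∧ b < 2 * Fintype.card α - 1 ∧ 0 ≤ C ∧
      ∀ n, ((Av u n).ncard : ℝ) ≤ C * b ^ n := by
  set K := u.length + 1 with hK
  set D : ℕ := 2 * Fintype.card α - 1 with hD
  have hD3 : 3 ≤ D := by omega
  have hDr : (D : ℝ) = 2 * Fintype.card α - 1 := by
    rw [hD, Nat.cast_sub (by omega)]; simp
  have h2r : (2 : ℝ) ≤ Fintype.card α := by exact_mod_cast h2
  have hE : 1 ≤ D ^ K := Nat.one_le_pow _ _ (by omega)
  let b0 : ℝ := ((D ^ K - 1 : ℕ) : ℝ) ^ ((K : ℝ)⁻¹)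
  have hb0 : b0 ^ K = ((D ^ K - 1 : ℕ) : ℝ) := Real.rpow_inv_natCast_pow (by positivity) (by omega)
  have hb0' : 0 ≤ b0 := by positivity
  have hb0D : b0 < D := by
    apply lt_of_pow_lt_pow_left₀ K (by positivity)
    rw [hb0]
    exact_mod_cast (by omega)
  let b := max b0 (2 * (Fintype.card α : ℝ) - 3 / 2)
  have hb1 : 1 ≤ b := le_trans (by linarith) (le_max_right _ _)
  refine ⟨b, (2 * Fintype.card α) ^ K, le_max_right _ _, ?_, by positivity, ?_⟩
  · rw [← hDr]; exact max_lt hb0D (by rw [hDr]; linarith)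
  intro n
  induction n using Nat.strong_induction_on with
  | _ n ih =>
    by_cases hn : n ≤ K
    · have h1 : (Av u n).ncard ≤ (2 * Fintype.card α) ^ K := by
        refine (Set.ncard_le_ncard (fun _ h => h.2.1) (fin_len n)).trans ?_
        rw [card_len]
        exact Nat.pow_le_pow_right (by omega) hn
      have h3 : ((Av u n).ncard : ℝ) ≤ (2 * Fintype.card α) ^ K := by exact_mod_cast h1
      exact h3.trans (le_mul_of_one_le_right (by positivity) (one_le_pow₀ hb1))
    · obtain ⟨m, rfl⟩ : ∃ m, n = m + 1 + K := ⟨n - 1 - K, by omega⟩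
      have h1 := Av_step h2 u hu m
      have h3 : ((Av u (m + 1 + K)).ncard : ℝ) ≤ (Av u (m + 1)).ncard * ((D ^ K - 1 : ℕ) : ℝ) := by
        exact_mod_cast h1
      refine h3.trans ?_
      rw [← hb0, pow_add b, ← mul_assoc]
      exact mul_le_mul (ih _ (by omega)) (pow_le_pow_left₀ hb0' (le_max_left _ _) _)
        (by positivity) (by positivity)

theorem potpos (r : ℕ) (hr : 2 ≤ r) : ∃ b C : ℝ, b < 2 * r - 1 ∧ ∀ n : ℕ,
    ({u : FreeGroup (Fin r) | u.norm = n ∧ ∃ φ : MulAut (FreeGroup (Fin r)), ∃ a : Fin r,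
      (a, false) ∉ (φ u).toWord}.ncard : ℝ) ≤ C * b ^ n := by
  obtain ⟨U, U1, U2⟩ := exists_all_turns (α := Fin r) (by simpa using hr)
  obtain ⟨b, C, b1, b2, hC, hb⟩ := Av_bound (α := Fin r) (by simpa using hr) U U1
  rw [Fintype.card_fin] at b1 b2
  have h2r : (2 : ℝ) ≤ r := by exact_mod_cast hr
  have hb0 : 0 < b := by linarith
  set ρ : ℝ := 2 * r / b ^ 2 with hρ
  have hρ1 : ρ < 1 := by
    rw [hρ, div_lt_one (by positivity)]
    nlinarith
  have hρ0 : 0 ≤ ρ := by positivity
  refine ⟨b, C * (1 - ρ)⁻¹, b2, fun n => ?_⟩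
  let S : ℕ → Finset (FreeGroup (Fin r)) := fun j =>
    ((fin_len (α := Fin r) j).toFinset ×ˢ (Av_fin U (n - 2 * j)).toFinset).image
      (fun p => mk p.1 * mk p.2 * (mk p.1)⁻¹)
  have hsub : {u : FreeGroup (Fin r) | u.norm = n ∧ ∃ φ : MulAut (FreeGroup (Fin r)), ∃ a : Fin r,
      (a, false) ∉ (φ u).toWord} ⊆ ((Finset.range (n / 2 + 1)).biUnion S : Finset _) := by
    rintro u ⟨h1, φ, a, h2⟩
    have e := reduceCyclically.conj_conjugator_reduceCyclically u.toWord
    have hc := reduceCyclically.isCyclicallyReduced (isReduced_toWord (x := u))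
    generalize reduceCyclically u.toWord = W at *
    generalize reduceCyclically.conjugator u.toWord = P at *
    have e2 : u = mk P * mk W * (mk P)⁻¹ := by rw [inv_mk, mul_mk, mul_mk, e, mk_toWord]
    have hl : 2 * P.length + W.length = n := by
      have := congrArg List.length e
      simp at this
      unfold FreeGroup.norm at h1
      omega
    simp only [Finset.coe_biUnion, Finset.coe_range, Set.mem_iUnion, Finset.mem_coe]
    refine ⟨P.length, by simp; omega, Finset.mem_image.2 ⟨(P, W), ?_, e2.symm⟩⟩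
    simp only [Finset.mem_product, Set.Finite.mem_toFinset, Set.mem_ofPred_eq, true_and]
    refine ⟨hc.1, by show W.length = _; omega, fun h => ?_⟩
    obtain ⟨x, y, hxy, k⟩ := turn (MulAut.conj (mk P)⁻¹ * φ⁻¹) a
    have e3 : (MulAut.conj (mk P)⁻¹ * φ⁻¹) (φ u) = mk W := by
      simp only [MulAut.mul_apply, MulAut.inv_apply_self, MulAut.conj_apply]
      rw [e2]; group
    have := k (φ u) h2
    rw [e3, toWord_mk_red hc.1] at this
    exact this hc ((U2 x y hxy).trans h)
  have h1 := (Set.ncard_le_ncard hsub (Finset.finite_toSet _))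
  rw [Set.ncard_coe_finset] at h1
  have h2 := h1.trans Finset.card_biUnion_le
  have h3 : ∀ j ∈ Finset.range (n / 2 + 1), ((S j).card : ℝ) ≤ C * b ^ n * ρ ^ j := by
    intro j hj
    have hj' : 2 * j ≤ n := by simp at hj; omega
    have k1 : (S j).card ≤ (2 * r) ^ j * (Av U (n - 2 * j)).ncard := by
      refine Finset.card_image_le.trans ?_
      rw [Finset.card_product, ← Set.ncard_eq_toFinset_card _ (fin_len j),
        ← Set.ncard_eq_toFinset_card _ (Av_fin _ _),
        card_len, Fintype.card_fin]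
    have k2 : ((S j).card : ℝ) ≤ (2 * r) ^ j * (Av U (n - 2 * j)).ncard := by exact_mod_cast k1
    refine k2.trans ((mul_le_mul_of_nonneg_left (hb _) (by positivity)).trans (le_of_eq ?_))
    obtain ⟨m, rfl⟩ : ∃ m, n = m + 2 * j := ⟨n - 2 * j, by omega⟩
    rw [Nat.add_sub_cancel, hρ, div_pow, pow_add, pow_mul]
    field_simp
  have h4 : (((Finset.range (n / 2 + 1)).sum fun j => (S j).card : ℕ) : ℝ) ≤
      C * (1 - ρ)⁻¹ * b ^ n := by
    push_cast
    refine (Finset.sum_le_sum h3).trans ?_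
    rw [← Finset.mul_sum, mul_right_comm]
    rw [mul_right_comm C, mul_assoc C, mul_assoc C, mul_comm (b ^ n)]
    apply mul_le_mul_of_nonneg_left _ hC
    apply mul_le_mul_of_nonneg_right _ (by positivity)
    rw [← tsum_geometric_of_lt_one hρ0 hρ1]
    exact (summable_geometric_of_lt_one hρ0 hρ1).sum_le_tsum _ (fun _ _ => by positivity)
  exact le_trans (by exact_mod_cast h2) h4

theorem potpos' (r : ℕ) (hr : 2 ≤ r) : ∃ b C : ℝ, b < 2 * r - 1 ∧ ∀ n : ℕ,
    ({u : FreeGroup (Fin r) | u.norm = n ∧ ∃ φ : MulAut (FreeGroup (Fin r)),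
      ∀ l ∈ (φ u).toWord, l.2 = true}.ncard : ℝ) ≤ C * b ^ n := by
  obtain ⟨b, C, h1, h2⟩ := potpos r hr
  refine ⟨b, C, h1, fun n => le_trans ?_ (h2 n)⟩
  norm_cast
  apply Set.ncard_le_ncard
  · rintro u ⟨k1, φ, k2⟩
    exact ⟨k1, φ, ⟨0, by omega⟩, fun h => by simpa using k2 _ h⟩
  · exact (finite_ball n).subset fun g hg => hg.1.le

end Pool.Agent.H65.Avoid
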