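import Pool.Agent.H65.Words

set_option autoImplicit false

namespace Pool.Agent.H65.Cyclic
open FreeGroup hiding map_mul map_one map_inv IsReduced
open Pool.Agent.H65.Words

variable {α : Type*}

lemma cyc_iff (L : List (α × Bool)) : IsCyclicallyReduced L ↔ FreeGroup.IsReduced L ∧
    ∀ x ∈ L.getLast?, ∀ y ∈ L.head?, y ≠ linv x := by
  simp only [isCyclicallyReduced_iff, rel_iff]

lemma cyc_append_comm {A B : List (α × Bool)} (h : IsCyclicallyReduced (A ++ B)) :
    IsCyclicallyReduced (B ++ A) := by
  rcases eq_or_ne A [] with rfl | hA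
  · simpa using h
  rcases eq_or_ne B [] with rfl | hB
  · simpa using h
  rw [cyc_iff, isReduced_append_iff] at *
  obtain ⟨⟨h1, h2, h3⟩, h4⟩ := h
  rw [List.getLast?_append_of_ne_nil _ hB, List.head?_append_of_ne_nil _ hA] at h4
  rw [List.getLast?_append_of_ne_nil _ hA, List.head?_append_of_ne_nil _ hB]
  exact ⟨⟨h2, h1, h4⟩, h3⟩

variable [DecidableEq α]

lemma rot_of_conj_list (P : List (α × Bool)) (hP : FreeGroup.IsReduced P) (L M : List (α × Bool))
    (hL : IsCyclicallyReduced L) (hM : IsCyclicallyReduced M)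
    (h : mk L = mk P * mk M * (mk P)⁻¹) : L ~r M := by
  induction P using List.reverseRecOn generalizing M with
  | nil =>
    have : mk L = mk M := by rw [h, mk_nil]; simp
    rw [mk_inj_red hL.1 hM.1 this]
  | append_singleton P z ih =>
    have hP' : FreeGroup.IsReduced P := ((isReduced_append_iff _ _).1 hP).1
    rcases eq_or_ne M [] with rfl | hne
    · have : mk L = mk [] := by rw [h, mk_nil, mul_one, mul_inv_cancel]
      rw [mk_inj_red hL.1 hM.1 this]
    by_cases h1 : M.head? = some (linv z)
    · obtain ⟨M', rfl⟩ : ∃ M', M = linv z :: M' := by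
        cases M with
        | nil => simp at h1
        | cons m M => simp at h1; exact ⟨M, by rw [h1]⟩
      refine (ih hP' (M' ++ [linv z]) (cyc_append_comm (A := [linv z]) hM) ?_).trans
        (List.isRotated_concat _ _)
      rw [h, ← mul_mk, ← mul_mk, mk_cons (linv z) M', mk_linv]; group
    by_cases h2 : M.getLast? = some z
    · obtain ⟨M', rfl⟩ : ∃ M', M = M' ++ [z] := by
        rw [List.getLast?_eq_some_iff] at h2; exact h2
      refine (ih hP' (z :: M') (cyc_append_comm (B := [z]) hM) ?_).trans
        (List.isRotated_concat _ _).symm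
      rw [h, ← mul_mk, ← mul_mk, mk_cons z M']; group
    exfalso
    have hr : FreeGroup.IsReduced ((P ++ [z]) ++ M ++ invRev (P ++ [z])) := by
      rw [isReduced_append_iff, isReduced_append_iff]
      refine ⟨⟨hP, hM.1, ?_⟩, isReduced_invRev hP, ?_⟩
      · intro x hx y hy e
        simp at hx
        subst hx
        exact h1 (e ▸ hy)
      · intro x hx y hy e
        rw [List.getLast?_append_of_ne_nil _ hne] at hx
        rw [head?_invRev] at hy
        simp at hy
        rw [← hy] at e
        exact h2 (linv_inj e ▸ hx)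
    have e : L = (P ++ [z]) ++ M ++ invRev (P ++ [z]) := by
      apply mk_inj_red hL.1 hr
      rw [h, inv_mk, mul_mk, mul_mk]
    rw [e, cyc_iff] at hL
    obtain ⟨y, Q, hQ⟩ := List.exists_cons_of_ne_nil (show P ++ [z] ≠ [] by simp)
    rw [hQ] at hL
    refine hL.2 (linv y) ?_ y (by simp) (by simp)
    rw [invRev_cons', ← List.append_assoc, List.getLast?_concat]
    rfl

lemma rot_of_conj {L M : List (α × Bool)} (hL : IsCyclicallyReduced L)
    (hM : IsCyclicallyReduced M) (h : IsConj (mk L) (mk M)) : L ~r M := by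
  obtain ⟨g, hg⟩ := isConj_iff.1 h.symm
  exact rot_of_conj_list g.toWord isReduced_toWord L M hL hM (by rw [mk_toWord, hg])

omit [DecidableEq α] in
lemma rot_split {β : Type*} {L M : List β} (h : L ~r M) : ∃ A B, L = A ++ B ∧ M = B ++ A := by
  obtain ⟨n, hn, rfl⟩ := List.isRotated_iff_mod.1 h
  exact ⟨L.take n, L.drop n, by simp, List.rotate_eq_drop_append_take hn⟩

omit [DecidableEq α] in
lemma lift_fix {G : Type*} [Group G] (f g : α → G) (L : List (α × Bool))
    (h : ∀ l ∈ L, f l.1 = g l.1) : FreeGroup.lift f (mk L) = FreeGroup.lift g (mk L) := by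
  rw [lift_mk, lift_mk]
  congr 1
  apply List.map_congr_left
  intro l hl
  rw [h l hl]

end Pool.Agent.H65.Cyclic
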