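import Pool.Agent.H65.Palin
import Pool.Agent.H65.Cyclic

set_option autoImplicit false

namespace Pool.Agent.H65.Blocking
open FreeGroup hiding map_mul map_one map_inv IsReduced
open Pool.Agent.H65.Words Pool.Agent.H65.Cyclic

lemma red_sub {α : Type*} {L M : List (α × Bool)} (h : FreeGroup.IsReduced M) (h' : L <:+: M) :
    FreeGroup.IsReduced L := by
  obtain ⟨A, B, rfl⟩ := h'
  exact ((isReduced_append_iff _ _).1 ((isReduced_append_iff _ _).1 h).1).2.1

variable {α : Type*} [DecidableEq α]

lemma head_of_norm (g h : FreeGroup α) (hn : h.norm < g.norm) :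
    (g * h).toWord.head? = g.toWord.head? := by
  obtain ⟨P, C, Q, h1, h2, h3⟩ := Palin.cancel_split g.toWord isReduced_toWord h
  rw [mk_toWord] at h3
  unfold FreeGroup.norm at hn
  cases P with
  | nil => rw [h1, h2] at hn; simp at hn
  | cons p P => rw [h3, h1]; rfl

lemma head_of_pos (g h : FreeGroup α) (l : α × Bool) (hg : g.toWord.head? = some l)
    (hh : linv l ∉ h.toWord) : (g * h).toWord.head? = some l := by
  obtain ⟨P, C, Q, h1, h2, h3⟩ := Palin.cancel_split g.toWord isReduced_toWord h
  rw [mk_toWord] at h3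
  cases P with
  | nil =>
    exfalso
    rw [h1] at hg
    cases C with
    | nil => simp at hg
    | cons c C =>
      simp at hg
      subst hg
      apply hh
      rw [h2, invRev_cons']; simp
  | cons p P => rw [h3]; rw [h1] at hg; exact hg

variable [Fintype α]

lemma finite_ball (N : ℕ) : {g : FreeGroup α | g.norm ≤ N}.Finite :=
  (ball N).finite_toSet.subset fun g hg => by simpa [mem_ball] using hg

lemma exists_N (φ : MulAut (FreeGroup α)) : ∃ N : ℕ, ∀ g : FreeGroup α, N ≤ g.norm →
    ∀ l : α × Bool, (φ.symm (g * mk [l])).toWord.head? = (φ.symm g).toWord.head? := by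
  let K := Finset.univ.sup fun l : α × Bool => (φ.symm (mk [l])).norm
  refine ⟨(ball K).sup (fun g => (φ g).norm) + 1, fun g hg l => ?_⟩
  rw [map_mul]
  apply head_of_norm
  by_contra hc
  have h1 : (φ.symm (mk [l])).norm ≤ K :=
    Finset.le_sup (f := fun l : α × Bool => (φ.symm (mk [l])).norm) (Finset.mem_univ l)
  have h2 : φ.symm g ∈ ball K := (mem_ball _ _).2 (by omega)
  have h3 := Finset.le_sup (f := fun g => (φ g).norm) h2
  simp at h3
  omega

lemma exists_long (φ : MulAut (FreeGroup α)) (l : α × Bool) (N : ℕ) :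
    ∃ g : FreeGroup α, N ≤ g.norm ∧ (φ.symm g).toWord.head? = some l := by
  by_contra hc
  push Not at hc
  have hr : ∀ n, (mk (List.replicate n l)).toWord = List.replicate n l := fun n => by
    rw [toWord_mk, reduce_replicate]
  apply (finite_ball (α := α) N).not_infinite
  apply Set.infinite_of_injective_forall_mem (f := fun n : ℕ => φ (mk (List.replicate (n+1) l)))
  · intro n m h
    have := congrArg (fun g => g.toWord.length) (φ.injective h)
    simpa [hr] using this
  · intro n
    by_contra h
    apply hc _ (not_le.1 h).le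
    rw [MulEquiv.symm_apply_apply, hr]; rfl

/-- the key lemma: a forbidden turn -/
theorem turn (φ : MulAut (FreeGroup α)) (a : α) : ∃ x y : α × Bool, y ≠ linv x ∧
    ∀ v : FreeGroup α, (a, false) ∉ v.toWord → IsCyclicallyReduced (φ v).toWord →
      ¬ [x, y] <:+: (φ v).toWord := by
  obtain ⟨N, hN⟩ := exists_N φ
  let f : FreeGroup α → Prop := fun g => (φ.symm g).toWord.head? = some (a, true)
  have c3 : ∀ S T : List (α × Bool), N ≤ S.length → FreeGroup.IsReduced (S ++ T) →
      (f (mk (S ++ T)) ↔ f (mk S)) := by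
    intro S T hS
    induction T using List.reverseRecOn with
    | nil => simp
    | append_singleton T l ih =>
      intro h
      rw [← List.append_assoc] at h
      have h' := ((isReduced_append_iff _ _).1 h).1
      rw [← ih h', ← List.append_assoc, ← mul_mk]
      simp only [f]
      rw [hN _ (by rw [norm_mk_red h']; simp; omega)]
  let mixed : List (α × Bool) → Prop := fun S => ∃ T T', FreeGroup.IsReduced (S ++ T) ∧
    FreeGroup.IsReduced (S ++ T') ∧ N ≤ (S ++ T).length ∧ N ≤ (S ++ T').length ∧
    f (mk (S ++ T)) ∧ ¬ f (mk (S ++ T'))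
  have m0 : mixed [] := by
    obtain ⟨g, g1, g2⟩ := exists_long φ (a, true) N
    obtain ⟨k, k1, k2⟩ := exists_long φ (a, false) N
    refine ⟨g.toWord, k.toWord, isReduced_toWord, isReduced_toWord, g1, k1, ?_, ?_⟩
    · simpa [f, mk_toWord] using g2
    · simp [f, mk_toWord, k2]
  have m1 : ∀ S, N ≤ S.length → ¬ mixed S := by
    rintro S hS ⟨T, T', h1, h2, _, _, h5, h6⟩
    rw [c3 _ _ hS h1] at h5
    rw [c3 _ _ hS h2] at h6
    exact h6 h5
  obtain ⟨S, hS, hS'⟩ : ∃ S, mixed S ∧ ∀ l, ¬ mixed (S ++ [l]) := by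
    by_contra hc
    push Not at hc
    have : ∀ n, ∃ S, mixed S ∧ S.length = n := by
      intro n
      induction n with
      | zero => exact ⟨[], m0, rfl⟩
      | succ n ih =>
        obtain ⟨S, h1, h2⟩ := ih
        obtain ⟨l, hl⟩ := hc S h1
        exact ⟨_, hl, by simp [h2]⟩
    obtain ⟨S, h1, h2⟩ := this N
    exact m1 S h2.ge h1
  have hlt : S.length < N := by
    by_contra h
    exact m1 S (not_lt.1 h) hS
  obtain ⟨T, T', h1, h2, h3, h4, h5, h6⟩ := hS
  obtain ⟨x, T, rfl⟩ := List.exists_cons_of_ne_nil (l := T) (by rintro rfl; simp at h3; omega)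
  obtain ⟨y, T', rfl⟩ := List.exists_cons_of_ne_nil (l := T') (by rintro rfl; simp at h4; omega)
  have hx : ∀ U, FreeGroup.IsReduced (S ++ x :: U) → N ≤ (S ++ x :: U).length →
      f (mk (S ++ x :: U)) := by
    intro U u1 u2
    by_contra hc
    exact hS' x ⟨T, U, by simpa using h1, by simpa using u1, by simpa using h3, by simpa using u2,
      by simpa using h5, by simpa using hc⟩
  have hy : ∀ U, FreeGroup.IsReduced (S ++ y :: U) → N ≤ (S ++ y :: U).length →
      ¬ f (mk (S ++ y :: U)) := by
    intro U u1 u2 hc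
    exact hS' y ⟨U, T', by simpa using u1, by simpa using h2, by simpa using u2, by simpa using h4,
      by simpa using hc, by simpa using h6⟩
  refine ⟨linv x, y, ?_, ?_⟩
  · rw [linv_linv]
    rintro rfl
    exact hy T h1 h3 h5
  rintro v hv hc ⟨A, B, hAB⟩
  have step : ∀ k : ℕ, ∀ g, f g → f (g * φ v ^ k) := by
    intro k
    induction k with
    | zero => simp
    | succ k ih =>
      intro g hg
      have := head_of_pos _ v _ (ih g hg) hv
      simp only [f]
      rw [pow_succ, ← mul_assoc, map_mul, MulEquiv.symm_apply_apply]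
      exact this
  set W := (φ v).toWord with hW
  let R := (List.replicate N W).flatten
  have hR : mk R = φ v ^ N := by rw [← pow_mk, hW, mk_toWord]
  have hRl : N ≤ R.length := by
    have : 2 ≤ W.length := by rw [← hAB]; simp; omega
    simp [R]; nlinarith
  have hred : FreeGroup.IsReduced (R ++ (W ++ R)) := by
    have := (hc.flatten_replicate (N + (1 + N))).isReduced
    rwa [List.replicate_add, List.replicate_add, List.flatten_append, List.flatten_append,
      List.replicate_one, List.flatten_singleton] at this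
  have r1 : FreeGroup.IsReduced (R ++ A ++ [linv x]) :=
    red_sub hred ⟨[], y :: B ++ R, by rw [← hAB]; simp⟩
  have r2 : FreeGroup.IsReduced (y :: (B ++ R)) :=
    red_sub hred ⟨R ++ A ++ [linv x], [], by rw [← hAB]; simp⟩
  have r3 := isReduced_invRev r1
  rw [invRev_append, invRev_singleton, linv_linv] at r3
  rw [isReduced_append_iff] at h1 h2
  have k1 := hx (invRev (R ++ A)) ((isReduced_append_iff _ _).2 ⟨h1.1, r3, h1.2.2⟩)
    (by simp; omega)
  have k2 := hy (B ++ R) ((isReduced_append_iff _ _).2 ⟨h2.1, r2, h2.2.2⟩) (by simp; omega)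
  apply k2
  have := step (N + (1 + N)) _ k1
  convert this using 1
  have e : φ v = mk A * (mk [x])⁻¹ * mk [y] * mk B := by
    rw [← mk_toWord (x := φ v), ← hW, ← hAB, ← mk_linv, mul_mk, mul_mk, mul_mk]; simp
  rw [pow_add, pow_add, pow_one, ← hR, ← mul_mk, ← mul_mk, mk_cons x, mk_cons y, ← inv_mk,
    ← mul_mk, ← mul_mk, e]
  group

lemma exists_all_turns (h2 : 2 ≤ Fintype.card α) : ∃ u : List (α × Bool),
    FreeGroup.IsReduced u ∧ ∀ x y : α × Bool, y ≠ linv x → [x, y] <:+: u := by
  have key : ∀ s : Finset ((α × Bool) × (α × Bool)), ∃ u : List (α × Bool),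
      FreeGroup.IsReduced u ∧ ∀ p ∈ s, p.2 ≠ linv p.1 → [p.1, p.2] <:+: u := by
    intro s
    induction s using Finset.induction_on with
    | empty => exact ⟨[], by simp, by simp⟩
    | insert p s _ ih =>
      obtain ⟨u, u1, u2⟩ := ih
      by_cases hp : p.2 = linv p.1
      · refine ⟨u, u1, fun q hq hq' => ?_⟩
        rcases Finset.mem_insert.1 hq with rfl | hq
        · exact absurd hp hq'
        · exact u2 q hq hq'
      obtain ⟨z, hz⟩ : ∃ z : α × Bool, z ∉ ({linv p.2, linv (u.headD p.1)} : Finset _) := by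
        have : ({linv p.2, linv (u.headD p.1)} : Finset _).card ≤ 2 := Finset.card_le_two
        obtain ⟨z, _, hz⟩ := Finset.exists_mem_notMem_of_card_lt_card
          (s := ({linv p.2, linv (u.headD p.1)} : Finset _)) (t := Finset.univ) (by
            simp only [Finset.card_univ, Fintype.card_prod, Fintype.card_bool]
            omega)
        exact ⟨z, hz⟩
      simp only [Finset.mem_insert, Finset.mem_singleton, not_or] at hz
      refine ⟨p.1 :: p.2 :: z :: u, ?_, fun q hq hq' => ?_⟩
      · rw [isReduced_cons_iff, isReduced_cons_iff, isReduced_cons_iff]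
        refine ⟨⟨⟨u1, ?_⟩, by simpa using hz.1⟩, by simpa using hp⟩
        intro h
        apply hz.2
        cases u with
        | nil => simp at h
        | cons b u => simp at h; simp [h]
      · rcases Finset.mem_insert.1 hq with rfl | hq
        · exact ⟨[], z :: u, rfl⟩
        · exact (u2 q hq hq').trans ⟨[p.1, p.2, z], [], by simp⟩
  obtain ⟨u, u1, u2⟩ := key Finset.univ
  exact ⟨u, u1, fun x y h => u2 (x, y) (Finset.mem_univ _) h⟩

theorem blocking (r : ℕ) (hr : 2 ≤ r) : ∃ u : FreeGroup (Fin r), ∀ w : FreeGroup (Fin r),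
    IsCyclicallyReduced w.toWord →
    (∃ (φ : MulAut (FreeGroup (Fin r))) (v : FreeGroup (Fin r)),
      (∃ a : Fin r, (a, true) ∈ v.toWord ∧ (a, false) ∉ v.toWord) ∧ w = φ v) →
    ¬ u.toWord <:+: w.toWord := by
  obtain ⟨u, u1, u2⟩ := exists_all_turns (α := Fin r) (by simpa using hr)
  refine ⟨mk u, ?_⟩
  rintro w hw ⟨φ, v, ⟨a, _, ha⟩, rfl⟩ h
  obtain ⟨x, y, hxy, k⟩ := turn φ a
  rw [toWord_mk_red u1] at h
  exact k v ha hw ((u2 x y hxy).trans h)

end Pool.Agent.H65.Blocking
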