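import Pool.Agent.H65.SquierF

/-! Reduction and left-to-right sorting of diagrams keep the hyperplane classes of the cells. -/

namespace Pool.Agent.H65.Squier

variable {A : Type} {R : Set (List A × List A)} {E : Tr A → Prop} {w : List A}

inductive Rq (R : Set (List A × List A)) (E : Tr A → Prop) (w : List A) :
    ℕ → List (Wi A) → U R → Prop
  | init : Rq R E w 0 (w.map .top) 1
  | step {n : ℕ} {g : U R} (sa i sb : List (Wi A)) (r : List A × List A) (c : Bool) : r ∈ R →
      lab i = sd r c → (∀ i', i ≠ outs r (!c) i') → E (lab sa, r, lab sb) →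
      Rq R E w n (sa ++ i ++ sb) g →
      Rq R E w (n + 1) (sa ++ outs r c i ++ sb) (sv R (lab sa, r, lab sb, c) * g)

theorem Rq.rp {n : ℕ} {s : List (Wi A)} {g : U R} (h : Rq R E w n s g) : Rp R w n s g := by
  induction h with
  | init => exact .init
  | step sa i sb r c hr h1 h2 _ _ ih => exact .step sa i sb r c hr h1 h2 ih

theorem Rq.list {n : ℕ} {s : List (Wi A)} {g : U R} (h : Rq R E w n s g) : ∃ l,
    TP R w (lab s) l ∧ ev R l = g ∧ l.length = n ∧ ∀ t ∈ l, E (tr t) := by
  induction h with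
  | init => exact ⟨[], (lab_top w).symm ▸ .nil _, rfl, rfl, by simp⟩
  | step sa i sb r c hr h1 h2 h5 _ ih =>
    obtain ⟨l, h3, rfl, rfl, h4⟩ := ih
    refine ⟨l ++ [(lab sa, r, lab sb, c)], h3.append (.cons hr (by simp [src_eq, h1]) ?_),
      by simp [ev_append, ev], by simp, List.forall_mem_append.2 ⟨h4, by simpa [tr] using h5⟩⟩
    simpa [tgt_eq, lab_outs] using TP.nil _

variable (hR : ∀ r ∈ R, r.1 ≠ [] ∧ r.2 ≠ [])
  (hE : ∀ {a a' b b' r α β}, Pth R a a' α → Pth R b b' β → E (a, r, b) → E (a', r, b'))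

include hR hE

theorem Rq.pull {n : ℕ} {s : List (Wi A)} {g : U R} (h : Rq R E w n s g) :
    ∀ {sa i sb : List (Wi A)} {r : List A × List A} {c : Bool}, r ∈ R →
      s = sa ++ outs r c i ++ sb → ∃ m, n = m + 1 ∧ lab i = sd r c ∧
        Rq R E w m (sa ++ i ++ sb) ((sv R (lab sa, r, lab sb, c))⁻¹ * g) := by
  induction h with
  | init => exact fun hr h => (not_top (sd_ne hR hr _) h).elim
  | @step n g ta i' tb r' c' hr' h1 h2 he h3 ih =>
    intro sa i sb r c hr h
    simp only [List.append_assoc] at h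
    rcases List.append_eq_append_iff.1 h with ⟨m, h4, h5⟩ | ⟨m, h4, h5⟩
    · rcases overlap' (sd_ne hR hr _) h5 with ⟨rfl, rfl, rfl, rfl, rfl⟩ | ⟨k, rfl, rfl⟩
      · obtain rfl : sa = ta := by simpa using h4
        exact ⟨n, rfl, h1, by simpa using h3⟩
      subst h4
      obtain ⟨m, rfl, h4, h6⟩ := ih (sa := ta ++ i' ++ k) (i := i) (c := c) (sb := sb) hr (by simp)
      have := Rq.step ta i' (k ++ i ++ sb) r' c' hr' h1 h2 (hE (.one _) (by
        simpa [h4] using (pth_sv (lab k) (lab sb) hr c).inv) he) (by simpa using h6)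
      have h7 := inter (pth_sv (lab ta) (lab k) hr' c') (pth_sv [] (lab sb) hr c)
      refine ⟨m + 1, rfl, h4, ?_⟩
      convert this using 1
      · simp
      · simp only [Lw_sv, Rw_sv, lab_append, lab_outs, h1, h4, List.append_assoc,
          List.append_nil, List.nil_append] at h7 ⊢
        rw [← mul_assoc, ← mul_assoc, mul_left_inj, inv_mul_eq_iff_eq_mul, ← mul_assoc, ← h7,
          mul_inv_cancel_right]
    · rcases overlap' (sd_ne hR hr' _) h5 with ⟨rfl, rfl, rfl, rfl, rfl⟩ | ⟨k, rfl, rfl⟩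
      · obtain rfl : ta = sa := by simpa using h4
        exact ⟨n, rfl, h1, by simpa using h3⟩
      subst h4
      obtain ⟨m, rfl, h4, h6⟩ := ih (sa := sa) (i := i) (c := c) (sb := k ++ i' ++ tb) hr
        (by simp)
      have := Rq.step (sa ++ i ++ k) i' tb r' c' hr' h1 h2 (hE (by
        simpa [h4] using (pth_sv (lab sa) (lab k) hr c).inv) (.one _) he) (by simpa using h6)
      have h7 := inter (pth_sv (lab sa) (lab k) hr c) (pth_sv [] (lab tb) hr' c')
      refine ⟨m + 1, rfl, h4, ?_⟩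
      convert this using 1
      · simp
      · simp only [Lw_sv, Rw_sv, lab_append, lab_outs, h1, h4, List.append_assoc,
          List.append_nil, List.nil_append] at h7 ⊢
        rw [← mul_assoc, ← mul_assoc, mul_left_inj, inv_mul_eq_iff_eq_mul, ← mul_assoc, h7,
          mul_inv_cancel_right]

theorem Rq.run {x y : List A} {l : List (SE A)} (hl : TP R x y l) (he : ∀ t ∈ l, E (tr t)) :
    ∀ {n : ℕ} {s : List (Wi A)} {g : U R}, Rq R E w n s g → lab s = x →
      ∃ n' s', lab s' = y ∧ Rq R E w n' s' (ev R l * g) := by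
  induction hl with
  | nil => exact fun h e => ⟨_, _, e, by simpa [ev] using h⟩
  | @cons x y t l h1 h2 _ ih =>
    intro n s g h e
    obtain ⟨a, r, b, c⟩ := t
    obtain ⟨sa, m, sb, rfl, rfl, h3, rfl⟩ := dec3 (e.trans h2.symm)
    rw [ev, mul_assoc]
    by_cases hc : ∃ i, m = outs r (!c) i
    · obtain ⟨i, rfl⟩ := hc
      obtain ⟨k, rfl, h4, h5⟩ := h.pull hR hE h1 rfl
      rw [sv_not, inv_inv] at h5
      exact ih (fun t ht => he t (by simp [ht])) h5 (by simp [tgt_eq, h4])
    · exact ih (fun t ht => he t (by simp [ht])) (.step sa m sb r c h1 h3 (not_exists.1 hc)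
        (he _ List.mem_cons_self) h) (by simp [tgt_eq])

theorem shortE {y : List A} {g : U R} (h : Pr R E w y g) {k : List (SE A)} (hk : TP R w y k)
    (e : ev R k = g) : ∃ l, TP R w y l ∧ ev R l = g ∧ l.length ≤ k.length ∧ ∀ t ∈ l, E (tr t) := by
  obtain ⟨l, h1, h2, rfl⟩ := h
  obtain ⟨n, s, rfl, h3⟩ := Rq.run hR hE h1 h2 (.init (R := R)) (lab_top w)
  obtain ⟨h4, m, h5, h6⟩ := Rp.run hR hk (.init (R := R)) (lab_top w)
  rw [e] at h6
  have := h3.rp.det hR h6 h4.symm
  obtain ⟨l', h7, h8, h9, h10⟩ := h3.list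
  exact ⟨l', h7, by simpa using h8, by omega, h10⟩

omit hR hE in
def en (t : SE A) : ℕ := t.1.length + (sd t.2.1 t.2.2.2).length

theorem ins {y : List A} {l : List (SE A)} (h1 : l.IsChain fun s t => s.1.length < en t)
    (h2 : ∀ t ∈ l, E (tr t)) : ∀ s : SE A, s.2.1 ∈ R → E (tr s) → TP R (tgt s) y l → ∃ k,
      TP R (src s) y k ∧ ev R k = ev R l * sv R s ∧ k.length = l.length + 1 ∧ (∀ t ∈ k, E (tr t)) ∧
      (k.IsChain fun s t => s.1.length < en t) ∧
      ∀ p, p < en s → (∀ t ∈ l.head?, p < en t) → ∀ t ∈ k.head?, p < en t := by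
  induction l with
  | nil => exact fun s hr hs h => ⟨[s], .cons hr rfl h, rfl, rfl, by simpa using hs, by simp,
      by simp⟩
  | cons t l ih =>
    intro s hr hs h
    by_cases hc : s.1.length < en t
    · exact ⟨s :: t :: l, .cons hr rfl h, rfl, rfl, List.forall_mem_cons.2 ⟨hs, h2⟩,
        .cons_cons hc h1, by simp +contextual⟩
    obtain ⟨a, r, b, c⟩ := s
    obtain ⟨a', r', b', c'⟩ := t
    cases h with
    | cons h3 h4 h5 =>
    rw [src_eq, tgt_eq, List.append_assoc a] at h4
    obtain ⟨m, rfl, rfl⟩ : ∃ m, a = a' ++ sd r' c' ++ m ∧ b' = m ++ (sd r (!c) ++ b) := by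
      rcases List.append_eq_append_iff.1 h4 with h | ⟨m, h6, h7⟩
      · exact h
      · obtain rfl : m = [] := by
          have := congrArg List.length h6
          simp only [en, List.length_append] at this hc
          exact List.length_eq_zero_iff.1 (by omega)
        exact ⟨[], by simpa using h6.symm, h7.symm⟩
    obtain ⟨k, k1, k2, k3, k4, k5, k6⟩ := ih h1.tail (fun t ht => h2 t (by simp [ht]))
      (a' ++ sd r' (!c') ++ m, r, b, c) hr (hE (pth_sv a' m h3 c') (.one _) hs)
      (by simpa [tgt_eq] using h5)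
    refine ⟨(a', r', m ++ (sd r c ++ b), c') :: k, .cons h3 (by simp [src_eq])
      (by simpa [tgt_eq, src_eq] using k1), ?_, by simp [k3], List.forall_mem_cons.2 ⟨hE (b := m ++ (sd r (!c) ++ b)) (.one _)
        (by simpa using (pth_sv m b hr c).inv) (h2 (a', r', m ++ (sd r (!c) ++ b), c') (by simp)), k4⟩,
      k5.cons (k6 a'.length ?_ (List.isChain_cons.1 h1).1), fun p _ h => by simpa [en] using h⟩
    · have := inter (pth_sv a' m h3 c') (pth_sv [] b hr c)
      simp only [Rw_sv, Lw_sv, List.nil_append, List.append_nil, List.append_assoc] at this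
      simp only [ev, k2, mul_assoc, List.append_assoc, this]
    · have : 0 < (sd r c).length := List.length_pos_iff.2 (sd_ne hR hr c)
      simp only [en, List.length_append]
      omega

theorem sort {x y : List A} {l : List (SE A)} (h : TP R x y l) (h2 : ∀ t ∈ l, E (tr t)) : ∃ k,
    TP R x y k ∧ ev R k = ev R l ∧ k.length = l.length ∧ (∀ t ∈ k, E (tr t)) ∧
      k.IsChain fun s t => s.1.length < en t := by
  induction h with
  | nil => exact ⟨[], .nil _, rfl, rfl, h2, .nil⟩
  | @cons x y s l h3 h4 _ ih =>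
    subst h4
    obtain ⟨k, k1, k2, k3, k4, k5⟩ := ih fun t ht => h2 t (by simp [ht])
    obtain ⟨m, m1, m2, m3, m4, m5, -⟩ := ins hR hE k5 k4 s h3 (h2 s (by simp)) k1
    exact ⟨m, m1, by rw [m2, k2, ev], by simp [m3, k3], m4, m5⟩

end Pool.Agent.H65.Squier
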