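import Pool.Agent.H65.SquierU

/-! The abelianisation of a diagram group is torsion free. -/

namespace Pool.Agent.H65.Squier

variable {A : Type} (R : Set (List A × List A))

def eqv : Setoid (List A) where
  r x y := ∃ g, Pth R x y g
  iseqv := ⟨fun x => ⟨1, .one x⟩, fun ⟨_, h⟩ => ⟨_, h.inv⟩, fun ⟨_, h⟩ ⟨_, h'⟩ => ⟨_, h'.mul h⟩⟩

open Classical in
noncomputable def nf (x : List A) : List A :=
  if eqv R [] x then [] else (Quotient.mk (eqv R) x).out

theorem nf_eqv (x : List A) : eqv R (nf R x) x := by
  unfold nf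
  split_ifs with h
  exacts [h, Quotient.mk_out (s := eqv R) x]

theorem nf_nil : nf R [] = [] := if_pos ((eqv R).refl _)

noncomputable def hp (x : List A) : U R := (nf_eqv R x).choose

theorem hp_spec (x : List A) : Pth R (nf R x) x (hp R x) := (nf_eqv R x).choose_spec

variable {R}

theorem nf_congr {x y : List A} {g : U R} (h : Pth R x y g) : nf R x = nf R y := by
  classical
  have h' : eqv R x y := ⟨g, h⟩
  unfold nf
  rw [Quotient.sound h']
  exact if_congr ⟨fun k => (eqv R).trans k h', fun k => (eqv R).trans k ((eqv R).symm h')⟩ rfl rfl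

theorem nf_nf (x : List A) : nf R (nf R x) = nf R x := nf_congr (hp_spec R x)

def ab (g : U R) : Additive (Abelianization (U R)) := Additive.ofMul (Abelianization.of g)

theorem ab_mul (g h : U R) : ab (g * h) = ab g + ab h := congrArg Additive.ofMul (map_mul _ g h)

theorem abK {x x' y y' : List A} {g q : U R} (h1 : Pth R x x' g) (h2 : Pth R y y' q) :
    ab (Lw x q) - ab (Lw x' q) = ab (Rw y g) - ab (Rw y' g) := by
  have := congrArg ab (inter h1 h2)
  rw [ab_mul, ab_mul] at this
  rw [sub_eq_sub_iff_add_eq_add, add_comm, this, add_comm]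

variable (R) in
noncomputable def sg : List A → List A → Additive (Abelianization (U R))
  | _, [] => 0
  | t, x :: v => ab (Lw (t ++ [x]) (hp R v)) - ab (Lw (nf R (t ++ [x])) (hp R v)) +
      sg (nf R (t ++ [x])) v

theorem tele {c c' : List A} {q : U R} (h : Pth R c' c q) (y : List A) : ∀ t, nf R t = t →
    sg R t (y ++ c) - sg R t (y ++ c') = ab (Lw (t ++ y) q) - ab (Lw (nf R (t ++ y)) q) +
      (sg R (nf R (t ++ y)) c - sg R (nf R (t ++ y)) c') := by
  induction y with
  | nil => intro t ht; simp [ht]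
  | cons x y ih =>
    intro t ht
    have h1 := hp_spec R (t ++ [x])
    have h2 := abK h1 (hp_spec R (y ++ c))
    have h3 := abK h1 ((h.L y).mul (hp_spec R (y ++ c')))
    have h4 := ih _ (nf_nf (t ++ [x]))
    rw [nf_congr (h.L y), ← h2, map_mul, map_mul, ab_mul, ab_mul, Lw_Lw, Lw_Lw] at h3
    rw [nf_congr (h1.R' y)] at h4
    simp only [List.cons_append, sg, List.append_assoc, List.nil_append] at h3 h4 ⊢
    linear_combination (norm := abel) h4 + h3

variable (R) in
noncomputable def ph (t : Tr A) : Additive (Abelianization (U R)) :=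
  ab (e R t) - (sg R [] (t.1 ++ t.2.1.2 ++ t.2.2) - sg R [] (t.1 ++ t.2.1.1 ++ t.2.2))

theorem ph_eq (a b : List A) {r : List A × List A} (hr : r ∈ R) : ph R (a, r, b) =
    ab (e R (nf R a, r, b)) - (sg R (nf R a) (r.2 ++ b) - sg R (nf R a) (r.1 ++ b)) := by
  have := tele (Pth.edge [] b hr) a [] (nf_nil R)
  simp only [List.nil_append, Lw_e, List.append_nil] at this
  simp only [ph, List.append_assoc, this]
  abel

theorem ph_nf (a b : List A) {r : List A × List A} (hr : r ∈ R) :
    ph R (nf R a, r, nf R b) = ph R (a, r, b) := by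
  have h1 := tele (hp_spec R b) r.1 _ (nf_nf a)
  have h2 := tele (hp_spec R b) r.2 _ (nf_nf a)
  have h0 := Pth.edge (nf R a) [] hr
  have h3 := abK h0 (hp_spec R b)
  have h4 := nf_congr h0
  simp only [List.append_nil, Rw_e, List.nil_append] at h3 h4
  rw [ph_eq _ _ hr, ph_eq _ _ hr, nf_nf]
  rw [h4] at h1
  linear_combination (norm := abel) h2 - h1 - h3

open Classical in
noncomputable def Th : U R →* Multiplicative (FreeAbelianGroup (List A ⊕ Tr A)) :=
  ulift (fun t => Multiplicative.ofAdd (.of (.inl (t.1 ++ t.2.1.2 ++ t.2.2)) -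
    .of (.inl (t.1 ++ t.2.1.1 ++ t.2.2)) +
    .of (.inr (if t.2.1 ∈ R then (nf R t.1, t.2.1, nf R t.2.2) else t)))) fun a b c r hr s hs => by
    rw [← ofAdd_add, ← ofAdd_add]
    simp only [hr, hs, if_true, nf_congr (Pth.edge a b hr), nf_congr (Pth.edge b c hs)]
    simp only [List.append_assoc]
    congr 1
    abel

theorem ab_eq (g : U R) :
    FreeAbelianGroup.lift (Sum.elim (sg R []) (ph R)) (Th g).toAdd = ab g := by
  let F : U R →* Abelianization (U R) :=
    (AddMonoidHom.toMultiplicativeLeft (FreeAbelianGroup.lift (Sum.elim (sg R []) (ph R)))).comp Th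
  have : F = Abelianization.of := by
    ext t
    change Additive.toMul (FreeAbelianGroup.lift _ (Th (e R t)).toAdd) = Additive.toMul (ab (e R t))
    congr 1
    simp only [Th, ulift_e, toAdd_ofAdd, map_add, map_sub, FreeAbelianGroup.lift_apply_of,
      Sum.elim_inl, Sum.elim_inr]
    split_ifs with h
    · rw [ph_nf _ _ h, ph]; abel
    · rw [ph]; abel
  exact congrArg (fun f : U R →* _ => Additive.ofMul (f g)) this

theorem ab_tf (hR : ∀ r ∈ R, r.1 ≠ [] ∧ r.2 ≠ []) {w : Vtx R} {g : DiagramGroup R w} {n : ℕ}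
    (hn : n ≠ 0) (h : g ^ n ∈ commutator _) : g ∈ commutator _ := by
  obtain ⟨ρ, c, H⟩ := exists_retr hR w
  have h1 : Th (iota w (g ^ n)) = 1 := Abelianization.commutator_subset_ker (Th.comp (iota w)) h
  rw [map_pow, map_pow] at h1
  have h2 : (n : ℤ) • (Th (iota w g)).toAdd = 0 := by simpa using congrArg Multiplicative.toAdd h1
  have h3 := ab_eq (iota w g)
  rw [(smul_eq_zero.1 h2).resolve_left (by simpa using hn), map_zero] at h3
  have h4 := congrArg (Abelianization.map ρ) (congrArg Additive.toMul h3)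
  change Abelianization.map ρ 1 = Abelianization.map ρ (Abelianization.of _) at h4
  rw [map_one, Abelianization.map_of, H, map_mul, map_mul, map_inv, inv_mul_cancel_comm] at h4
  exact (QuotientGroup.eq_one_iff _).1 h4.symm

end Pool.Agent.H65.Squier
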