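import Pool.Agent.H65.Bur1
import Pool.Agent.H65.SquierAb

/-! Word length is bounded linearly by diagram length. -/

namespace Pool.Agent.H65.Squier

open Pointwise Filter

variable {A : Type} {R : Set (List A × List A)}

theorem ex_tau : ∃ τ : List A → U R, (∀ a, Pth R a (nf R a) (τ a)) ∧ ∀ a a', nf R a = nf R a' →
    ∀ m, τ (a ++ m) = τ (a' ++ m) * Rw m ((τ a')⁻¹ * τ a) := by
  let τ : List A → U R := fun a => List.reverseRecOn a 1
    fun a x t => (hp R (nf R a ++ [x]))⁻¹ * Rw [x] t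
  have h : ∀ a x, τ (a ++ [x]) = (hp R (nf R a ++ [x]))⁻¹ * Rw [x] (τ a) := fun a x =>
    List.reverseRecOn_concat _ _ _ _
  have h1 : ∀ a, Pth R a (nf R a) (τ a) := fun a => by
    induction a using List.reverseRecOn with
    | nil => simpa [nf_nil, τ] using Pth.one (R := R) []
    | append_singleton a x ih =>
      rw [h, nf_congr (ih.R' [x])]
      exact (hp_spec R _).inv.mul (ih.R' _)
  refine ⟨τ, h1, fun a a' e m => ?_⟩
  have r0 : ∀ g : U R, Rw [] g = g := fun g => by
    change _ = MonoidHom.id _ g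
    congr 1
    ext t
    exact (Rw_e [] t).trans (by simp; rfl)
  induction m using List.reverseRecOn with
  | nil => simp [r0]
  | append_singleton m x ih =>
    rw [← List.append_assoc, ← List.append_assoc, h, h, ih, map_mul, Rw_Rw, mul_assoc,
      nf_congr ((h1 a).R' m), nf_congr ((h1 a').R' m), e]

theorem ex_sig : ∃ σ : List A → U R, (∀ b, Pth R b (nf R b) (σ b)) ∧ ∀ b b', nf R b = nf R b' →
    ∀ m, σ (m ++ b) = σ (m ++ b') * Lw m ((σ b')⁻¹ * σ b) := by
  let σ : List A → U R := fun b => List.rec 1 (fun x b t => (hp R ([x] ++ nf R b))⁻¹ * Lw [x] t) b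
  have h : ∀ x b, σ ([x] ++ b) = (hp R ([x] ++ nf R b))⁻¹ * Lw [x] (σ b) := fun _ _ => rfl
  have h1 : ∀ b, Pth R b (nf R b) (σ b) := fun b => by
    induction b with
    | nil => simpa [nf_nil, σ] using Pth.one (R := R) []
    | cons x b ih =>
      rw [← List.singleton_append, h, nf_congr (ih.L [x])]
      exact (hp_spec R _).inv.mul (ih.L _)
  refine ⟨σ, h1, fun b b' e m => ?_⟩
  have r0 : ∀ g : U R, Lw [] g = g := fun g => by
    change _ = MonoidHom.id _ g
    congr 1
    ext t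
    exact (Lw_e [] t).trans (by simp; rfl)
  induction m with
  | nil => simp [r0]
  | cons x m ih =>
    rw [← List.singleton_append, List.append_assoc, List.append_assoc, h, h, ih, map_mul, Lw_Lw,
      mul_assoc, nf_congr ((h1 b).L m), nf_congr ((h1 b').L m), e]

theorem exQ (w : List A) : ∃ Q : List A → List A → U R,
    (∀ {a b g}, Pth R w (a ++ b) g → Pth R (a ++ b) w (Q a b)) ∧
    ∀ {a a' b b' α β}, Pth R a a' α → Pth R b b' β → ∃ α β, Pth R a a' α ∧ Pth R b b' β ∧
      ∀ m m', Q (a ++ m) (m' ++ b) = Q (a' ++ m) (m' ++ b') *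
        (Lw (a' ++ (m ++ m')) β * Rw (m ++ m' ++ b) α) := by
  classical
  obtain ⟨τ, t1, t2⟩ := ex_tau (R := R)
  obtain ⟨σ, s1, s2⟩ := ex_sig (R := R)
  refine ⟨fun a b => (if h : ∃ g, Pth R (nf R a ++ nf R b) w g then h.choose else 1) *
    (Lw (nf R a) (σ b) * Rw b (τ a)), fun {a b g} h => ?_, fun {a a' b b' α β} h h' =>
      ⟨_, _, (t1 a').inv.mul (nf_congr h ▸ t1 a), (s1 b').inv.mul (nf_congr h' ▸ s1 b),
        fun m m' => ?_⟩⟩
  · have k := ((s1 b).L (nf R a)).mul ((t1 a).R' b)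
    have e : ∃ g, Pth R (nf R a ++ nf R b) w g := ⟨_, (k.mul h).inv⟩
    dsimp only
    rw [dif_pos e]
    exact e.choose_spec.mul k
  · have := inter' (t1 (a' ++ m)) ((s1 b').inv.mul (nf_congr h' ▸ s1 b)) m'
    dsimp only
    rw [nf_congr (h.R' m), nf_congr (h'.L m'), t2 a a' (nf_congr h), s2 b b' (nf_congr h'),
      map_mul, map_mul (Rw _), Lw_Lw, Rw_Rw, mul_assoc, mul_assoc, mul_assoc, ← mul_assoc (Rw _ _),
      ← List.append_assoc a', this]
    simp only [mul_assoc, List.append_assoc]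

variable (hR : ∀ r ∈ R, r.1 ≠ [] ∧ r.2 ≠ [])

include hR in
theorem window {T : Set (U R)} (T1 : 1 ∈ T) (Ti : T⁻¹ = T) (Q : List A → List A → U R) (C : ℕ)
    (Lt : List A → A → List A → Prop)
    (L1 : ∀ {a x b}, Lt a x b → Q (a ++ [x]) b * (Q a (x :: b))⁻¹ ∈ T ^ C)
    (L2 : ∀ {a a' b b' x α β}, Pth R a a' α → Pth R b b' β → Lt a x b → Lt a' x b')
    {x y : List A} {l : List (SE A)} (h : TP R x y l) (h1 : l.IsChain fun s t => s.1.length < en t)
    (h2 : ∀ t ∈ l, Q t.1 (sd t.2.1 (!t.2.2.2) ++ t.2.2.1) * sv R t *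
      (Q t.1 (sd t.2.1 t.2.2.2 ++ t.2.2.1))⁻¹ ∈ T ^ C ∧ (sd t.2.1 t.2.2.2).length ≤ C ∧
      ∀ m x m', sd t.2.1 (!t.2.2.2) = m ++ x :: m' → Lt (t.1 ++ m) x (m' ++ t.2.2.1))
    (h3 : ∀ a z b, x = a ++ z :: b → Lt a z b) : ∀ a b, x = a ++ b →
    (∀ t ∈ l.head?, a.length < en t) → ∃ j, j + a.length ≤ 2 * y.length + (2 * C + 1) * l.length ∧
      Q [] y * ev R l * (Q a b)⁻¹ ∈ T ^ (C * j) := by
  have iv : ∀ {n g}, g ∈ T ^ n → g⁻¹ ∈ T ^ n := fun h => by rwa [← Ti, inv_pow, Set.inv_mem_inv]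
  have mu : ∀ {n m g k}, g ∈ T ^ (C * n) → k ∈ T ^ (C * m) → g * k ∈ T ^ (C * (n + m)) :=
    fun h h' => by rw [mul_add, pow_add]; exact Set.mul_mem_mul h h'
  have mv : ∀ m a b, (∀ a' z b', a ++ (m ++ b) = a' ++ z :: b' → Lt a' z b') →
      Q (a ++ m) b * (Q a (m ++ b))⁻¹ ∈ T ^ (C * m.length) := fun m => by
    induction m with
    | nil => simp
    | cons z m ih =>
      intro a b h
      have := mu (m := 1) (ih (a ++ [z]) b (by simpa using h))
        ((mul_one C).symm ▸ L1 (h a z (m ++ b) rfl))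
      rw [mul_assoc, inv_mul_cancel_left] at this
      simpa using this
  induction h with
  | nil x =>
    rintro a b rfl -
    exact ⟨a.length, by simp; omega, by simpa [ev] using iv (mv a [] b h3)⟩
  | @cons x y s l hr h4 _ ih =>
    subst h4
    obtain ⟨a', r, b', c⟩ := s
    intro a b e h5
    obtain ⟨k1, k2, k3⟩ := h2 _ List.mem_cons_self
    dsimp only at k1 k2 k3
    obtain ⟨j, k4, k5⟩ := ih h1.tail (fun t ht => h2 t (by simp [ht])) (fun p z q e => by
      rw [tgt_eq, List.append_assoc] at e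
      rcases List.append_eq_append_iff.1 e with ⟨m, rfl, e'⟩ | ⟨_ | ⟨z', m⟩, rfl, e'⟩
      · rcases List.append_eq_append_iff.1 e' with ⟨n, rfl, rfl⟩ | ⟨_ | ⟨z', n⟩, e'', e3⟩
        · exact L2 (by simpa using pth_sv a' n hr c) (.one _)
            (h3 (a' ++ sd r c ++ n) z q (by simp [src_eq]))
        · obtain rfl : m = sd r !c := by simpa using e''.symm
          exact L2 (by simpa using pth_sv a' [] hr c) (.one _)
            (h3 (a' ++ sd r c) z q (by simp [src_eq, show b' = z :: q from e3.symm]))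
        · obtain ⟨rfl, rfl⟩ := List.cons.inj e3
          exact k3 _ _ _ e''
      · obtain ⟨z', n, e''⟩ := List.exists_cons_of_ne_nil (sd_ne hR hr !c)
        rw [e''] at e'
        obtain ⟨rfl, rfl⟩ := List.cons.inj e'
        simpa using k3 [] _ _ e''
      · obtain ⟨rfl, rfl⟩ := List.cons.inj e'
        exact L2 (.one _) (by simpa using pth_sv m b' hr c)
          (h3 p z (m ++ sd r c ++ b') (by simp [src_eq]))) a' (sd r (!c) ++ b')
      (by simp [tgt_eq]) (List.isChain_cons.1 h1).1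
    have k6 := mu (m := 1) k5 ((mul_one C).symm ▸ k1)
    have k7 := h5 _ rfl
    rw [src_eq, List.append_assoc] at e h3
    simp only [en, List.length_cons, mul_add] at k2 k7 k4 ⊢
    rcases List.append_eq_append_iff.1 e with ⟨m, rfl, e'⟩ | ⟨m, rfl, rfl⟩
    · refine ⟨_, ?_, by simpa [ev, e', mul_assoc] using mu k6 (iv (mv m a' b (e' ▸ h3)))⟩
      simp only [List.length_append] at k7 ⊢
      omega
    · have := mu k6 (mv m a (sd r c ++ b') (by simpa using h3))
      simp only [mul_assoc, inv_mul_cancel_left] at this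
      refine ⟨_, ?_, by simpa [ev, mul_assoc] using this⟩
      simp only [List.length_append] at k4 ⊢
      omega

include hR in
theorem burillo {w : List A} {S : Set (U R)} (hS : S.Finite) (h : Subgroup.closure S = Loop R w) :
    ∃ C, ∀ l, TP R w w l → ev R l ∈ insert 1 (S ∪ S⁻¹) ^ (C * (l.length + 1)) := by
  set T := insert 1 (S ∪ S⁻¹)
  have T1 : 1 ∈ T := .inl rfl
  have Ti : T⁻¹ = T := by simp [T, Set.union_comm]
  have iv : ∀ {n g}, g ∈ T ^ n → g⁻¹ ∈ T ^ n := fun h => by rwa [← Ti, inv_pow, Set.inv_mem_inv]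
  have bd : ∀ {g}, Pth R w w g → ∀ᶠ C in atTop, g ∈ T ^ C := fun {g} hg => by
    have : ∃ n, g ∈ T ^ n := by
      replace hg : g ∈ Subgroup.closure S := h ▸ hg
      induction hg using Subgroup.closure_induction with
      | mem x hx => exact ⟨1, by simp [T, hx]⟩
      | one => exact ⟨0, by simp⟩
      | mul x y _ _ h h' => exact ⟨_, pow_add T _ _ ▸ Set.mul_mem_mul h.choose_spec h'.choose_spec⟩
      | inv x _ h => exact h.imp fun _ => iv
    exact (eventually_ge_atTop _).mono fun _ h => Set.pow_subset_pow_right T1 h this.choose_spec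
  obtain ⟨Q, q1, q2⟩ := exQ (R := R) w
  let Lt : ℕ → List A → A → List A → Prop := fun C a x b => Q (a ++ [x]) b * (Q a (x :: b))⁻¹ ∈ T ^ C
  have L2 : ∀ {C a a' b b' x α β}, Pth R a a' α → Pth R b b' β → Lt C a x b → Lt C a' x b' := by
    intro C a a' b b' x α β h h' k
    obtain ⟨α, β, -, -, e⟩ := q2 h h'
    have e1 := e [x] []
    have e2 := e [] [x]
    simp only [List.append_nil, List.nil_append, List.singleton_append] at e1 e2
    simpa [Lt, e1, e2, mul_assoc] using k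
  let E : ℕ → Tr A → Prop := fun C t => t.2.1 ∈ R ∧ ∀ c, Q t.1 (sd t.2.1 (!c) ++ t.2.2) *
    sv R (t.1, t.2.1, t.2.2, c) * (Q t.1 (sd t.2.1 c ++ t.2.2))⁻¹ ∈ T ^ C ∧ (sd t.2.1 c).length ≤ C ∧
      ∀ m x m', sd t.2.1 (!c) = m ++ x :: m' → Lt C (t.1 ++ m) x (m' ++ t.2.2)
  have hE : ∀ {C a a' b b' r α β}, Pth R a a' α → Pth R b b' β → E C (a, r, b) → E C (a', r, b') := by
    refine fun {C a a' b b' r α β} h h' k => ⟨k.1, fun c => ⟨?_, (k.2 c).2.1, fun m x m' e =>
      L2 (h.R' m) (h'.L m') ((k.2 c).2.2 m x m' e)⟩⟩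
    obtain ⟨α, β, h, h', e⟩ := q2 h h'
    have e1 := e [] (sd r c)
    have e2 := e [] (sd r !c)
    have e3 := (k.2 c).1
    simp only [List.append_nil, List.nil_append] at e1 e2 e3
    rw [e1, e2, mul_assoc (Q _ _), ← par k.1 c h h'] at e3
    simpa [mul_assoc] using e3
  have wd : ∀ u a b g, Pth R w (a ++ u ++ b) g →
      ∀ᶠ C in atTop, ∀ m x m', u = m ++ x :: m' → Lt C (a ++ m) x (m' ++ b) := fun u => by
    induction u with
    | nil => simp
    | cons y u ih =>
      intro a b g hg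
      filter_upwards [ih (a ++ [y]) b g (by simpa using hg), bd ((q1 (a := a ++ [y]) (b := u ++ b)
        (by simpa using hg)).mul (by simpa using (q1 (a := a) (b := y :: (u ++ b))
          (by simpa using hg)).inv))] with C h1 h2
      rintro (_ | ⟨z, m⟩) x m' e <;> obtain ⟨rfl, rfl⟩ := List.cons.inj e
      exacts [by simpa using h2, by simpa using h1 m x m' rfl]
  have ed : ∀ a r b g, r ∈ R → ∀ d, Pth R w (a ++ sd r d ++ b) g → ∀ᶠ C in atTop, E C (a, r, b) := by
    intro a r b g hr d hg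
    have k : ∀ c, ∃ g, Pth R w (a ++ sd r c ++ b) g := fun c => by
      by_cases e : c = d
      exacts [⟨g, e ▸ hg⟩, ⟨_, Bool.eq_not_iff.2 e ▸ (pth_sv a b hr d).mul hg⟩]
    refine (eventually_all.2 fun c => ?_).mono fun C h => ⟨hr, h⟩
    obtain ⟨g, h1⟩ := k c
    obtain ⟨g', h2⟩ := k !c
    refine (bd ?_).and ((eventually_ge_atTop _).and (wd _ _ _ _ h2))
    rw [List.append_assoc] at h1 h2
    exact ((q1 h2).mul (by simpa using pth_sv a b hr c)).mul (q1 h1).inv
  have pa : ∀ {x y l}, TP R x y l → ∀ g, Pth R w x g → ∀ᶠ C in atTop, ∀ t ∈ l, E C (tr t) :=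
    fun h => by
      induction h with
      | nil => simp
      | @cons x y s l h1 h2 _ ih =>
        intro g hg
        subst h2
        simpa only [List.forall_mem_cons, eventually_and, tr] using And.intro
          (ed s.1 s.2.1 s.2.2.1 g h1 s.2.2.2 hg) (ih _ ((TP.cons h1 rfl (.nil _)).pth.mul hg))
  obtain ⟨C, c1, c2, c3⟩ := (((eventually_all_finite hS).2 fun s hs => show ∀ᶠ C in atTop,
    s ∈ PL R (E C) w by
      obtain ⟨l, h1, rfl⟩ := Pth.tp (show s ∈ Loop R w from h ▸ Subgroup.subset_closure hs)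
      exact (pa h1 1 (.one _)).mono fun C h => ⟨l, h1, h, rfl⟩).and ((wd w [] [] 1
        (by simpa using Pth.one w)).and (bd (q1 (a := []) (.one w))))).exists
  refine ⟨C * (2 * w.length + 2 * C + 3), fun l hl => ?_⟩
  obtain ⟨k, k1, k2, k3, k4⟩ := shortE hR hE ((Subgroup.closure_le _).2 c1 (h.ge hl.pth)) hl rfl
  obtain ⟨m, m1, m2, m3, m4, m5⟩ := sort hR hE k1 k4
  obtain ⟨j, j1, j2⟩ := window hR T1 Ti Q C (Lt C) id L2 m1 m5 (fun t ht => (m4 t ht).2 _)
    (by simpa using c2) [] w rfl fun t ht => by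
      have := List.length_pos_iff.2 (sd_ne hR (m4 t (List.mem_of_mem_head? ht)).1 t.2.2.2)
      exact this.trans_le (Nat.le_add_left _ _)
  have := Set.mul_mem_mul (Set.mul_mem_mul (iv c3) j2) c3
  rw [← pow_add, ← pow_add, m2, k2] at this
  refine Set.pow_subset_pow_right T1 ?_ (by simpa [mul_assoc] using this)
  have : j + 2 ≤ (2 * w.length + 2 * C + 3) * (l.length + 1) := by
    simp only [List.length_nil] at j1
    nlinarith
  nlinarith

end Pool.Agent.H65.Squier
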