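import Pool.Agent.H65.SquierDefs

/-! Diagram length and word length. -/

namespace Pool.Agent.H65.Squier

open CategoryTheory

variable {A : Type} {R : Set (List A × List A)}

/-- `Steps x n y f`: the morphism `f` is a composite of `n` edges and inverse edges of the Squier
complex, leading from `x` to `y`. -/
inductive Steps (x : Vtx R) : ℕ → ∀ y : Vtx R, ((Quiver.FreeGroupoid.of (Vtx R)).obj x ⟶
    (Quiver.FreeGroupoid.of (Vtx R)).obj y) → Prop
  | nil : Steps x 0 x (𝟙 _)
  | fwd {n y z f} (e : y ⟶ z) : Steps x n y f →
      Steps x (n + 1) z (f ≫ (Quiver.FreeGroupoid.of (Vtx R)).map e)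
  | bwd {n y z f} (e : z ⟶ y) : Steps x n y f →
      Steps x (n + 1) z (f ≫ Groupoid.inv ((Quiver.FreeGroupoid.of (Vtx R)).map e))

/-- The diagram length: the least number of cells of a diagram (edges of a loop in the Squier
complex) representing `g`; this is the number of cells of the reduced diagram. -/
noncomputable def dlen {w : Vtx R} (g : DiagramGroup R w) : ℕ :=
  sInf {n | ∃ f, Steps w n w f ∧ (Quotient.functor (Square R)).map f = g.hom}

/-- The word length with respect to `S`. -/
noncomputable def wlen {G : Type} [Group G] (S : Set G) (g : G) : ℕ :=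
  sInf {n | ∃ l : List G, l.length = n ∧ (∀ s ∈ l, s ∈ S ∨ s⁻¹ ∈ S) ∧ l.prod = g}

end Pool.Agent.H65.Squier
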