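import Pool.Agent.H65.Bur2
import Pool.Agent.H65.BurDefs

/-! Comparison of the two lengths with the list models. -/

namespace Pool.Agent.H65.Squier

open Pointwise CategoryTheory

variable {A : Type} {R : Set (List A × List A)}

theorem Steps.tp {x y : Vtx R} {n : ℕ} {f} (h : Steps x n y f) :
    ∃ l, TP R x.word y.word l ∧ l.length = n ∧ ev R l = uf f := by
  induction h with
  | nil => exact ⟨[], .nil _, rfl, (uf_id _).symm⟩
  | fwd e _ ih =>
    obtain ⟨l, h1, rfl, h2⟩ := ih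
    obtain ⟨⟨a, r, b⟩, h3, h4, h5⟩ := e
    exact ⟨l ++ [(a, r, b, true)], h1.append (.cons h3 h4.symm (h5 ▸ .nil _)), by simp,
      by rw [ev_append, h2, uF_comp, uf_map]; simp [ev, sv]⟩
  | bwd e _ ih =>
    obtain ⟨l, h1, rfl, h2⟩ := ih
    obtain ⟨⟨a, r, b⟩, h3, h4, h5⟩ := e
    exact ⟨l ++ [(a, r, b, false)], h1.append (.cons h3 h5.symm (h4 ▸ .nil _)), by simp,
      by rw [ev_append, h2, uF_comp, uF_inv, uf_map]; simp [ev, sv]⟩

variable (hR : ∀ r ∈ R, r.1 ≠ [] ∧ r.2 ≠ [])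

include hR

theorem TP.steps {w : Vtx R} {x y : List A} {l : List (SE A)} (h : TP R x y l) (hy : y ≠ []) :
    ∀ (hx : x ≠ []) n f, Steps w n ⟨x, hx⟩ f →
      ∃ g, Steps w (n + l.length) ⟨y, hy⟩ g ∧ uf g = ev R l * uf f := by
  induction h with
  | nil => exact fun _ n f h => ⟨f, h, by simp [ev]⟩
  | @cons x y s l h1 h2 _ ih =>
    intro hx n f h
    subst h2
    obtain ⟨a, r, b, _ | _⟩ := s
    · obtain ⟨g, h3, h4⟩ := ih hy (by simp [tgt, (hR r h1).1]) _ _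
        (h.bwd ⟨(a, r, b), h1, rfl, rfl⟩)
      exact ⟨g, by simpa [add_assoc, add_comm 1] using h3,
        by rw [h4, uF_comp, uF_inv, uf_map, ev, mul_assoc]; rfl⟩
    · obtain ⟨g, h3, h4⟩ := ih hy (by simp [tgt, (hR r h1).2]) _ _
        (h.fwd ⟨(a, r, b), h1, rfl, rfl⟩)
      exact ⟨g, by simpa [add_assoc, add_comm 1] using h3,
        by rw [h4, uF_comp, uf_map, ev, mul_assoc]; rfl⟩

theorem dlen_eq {w : Vtx R} (g : DiagramGroup R w) :
    dlen g = sInf {n | ∃ l, TP R w.word w.word l ∧ l.length = n ∧ ev R l = iota w g} := by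
  refine congrArg sInf (Set.ext fun n => ⟨?_, ?_⟩)
  · rintro ⟨f, h1, h2⟩
    obtain ⟨l, h3, h4, h5⟩ := h1.tp
    exact ⟨l, h3, h4, h5.trans (congrArg (uQ R).map h2)⟩
  · rintro ⟨l, h1, rfl, h2⟩
    obtain ⟨f, h3, h4⟩ := h1.steps hR w.ne w.ne 0 _ .nil
    rw [uf_id, mul_one, h2] at h4
    exact ⟨f, by simpa using h3, congrArg Iso.hom (iota_inj hR w (a₁ := (Quotient.functor
      (Square R)).mapIso ((Groupoid.isoEquivHom _ _).symm f)) h4)⟩

theorem dlen_spec {w : Vtx R} (g : DiagramGroup R w) :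
    ∃ l, TP R w.word w.word l ∧ l.length = dlen g ∧ ev R l = iota w g := by
  obtain ⟨l, h1, h2⟩ := (iota_pth g).tp
  rw [dlen_eq hR]
  exact Nat.sInf_mem (s := {n | ∃ l, TP R w.word w.word l ∧ l.length = n ∧ ev R l = iota w g})
    ⟨_, l, h1, rfl, h2⟩

theorem dlen_le {w : Vtx R} {g : DiagramGroup R w} {l : List (SE A)} (h : TP R w.word w.word l)
    (h' : ev R l = iota w g) : dlen g ≤ l.length := dlen_eq hR g ▸ Nat.sInf_le ⟨l, h, rfl, h'⟩

omit hR in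
theorem wlen_le {G H : Type} [Group G] [Group H] {f : G →* H} (hf : Function.Injective f)
    (S : Set G) {n : ℕ} : ∀ {g : G}, f g ∈ insert 1 (f '' S ∪ (f '' S)⁻¹) ^ n → wlen S g ≤ n := by
  have : ∀ k ∈ insert 1 (f '' S ∪ (f '' S)⁻¹) ^ n, ∃ l : List G, l.length ≤ n ∧
      (∀ s ∈ l, s ∈ S ∨ s⁻¹ ∈ S) ∧ f l.prod = k := by
    induction n with
    | zero => exact fun k h => ⟨[], le_rfl, by simp, by simpa [eq_comm] using h⟩
    | succ n ih =>
      intro k h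
      rw [pow_succ'] at h
      obtain ⟨s, hs, v, hv, rfl⟩ := h
      obtain ⟨l, h1, h2, rfl⟩ := ih v hv
      rcases hs with rfl | ⟨s, hs, rfl⟩ | ⟨s', hs, e⟩
      · exact ⟨l, by omega, h2, by simp⟩
      · exact ⟨s :: l, by simpa, List.forall_mem_cons.2 ⟨.inl hs, h2⟩, by simp⟩
      · exact ⟨s'⁻¹ :: l, by simpa, List.forall_mem_cons.2 ⟨.inr (by simpa), h2⟩, by simp [e]⟩
  intro g h
  obtain ⟨l, h1, h2, h3⟩ := this _ h
  exact le_trans (Nat.sInf_le (s := {n | ∃ l : List G, l.length = n ∧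
    (∀ s ∈ l, s ∈ S ∨ s⁻¹ ∈ S) ∧ l.prod = g}) ⟨l, rfl, h2, hf h3⟩) h1

end Pool.Agent.H65.Squier
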