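import Mathlib

/-! Cohomological dimension: groups acting on trees, and free abelian groups. -/

namespace Pool.Agent.H65.Coh

open CategoryTheory Limits inhomogeneousCochains

variable {K G : Type} [CommRing K] [Group G]

theorem van_iff (A : Rep.{0} K G) (k : ℕ) : IsZero (groupCohomology A (k + 1)) ↔
    ∀ f : (Fin (k + 1) → G) → A, d A (k + 1) f = 0 → ∃ h, d A k h = f := by
  rw [groupCohomology, ← HomologicalComplex.exactAt_iff_isZero_homology,
    HomologicalComplex.exactAt_iff' _ k (k + 1) (k + 1 + 1) (by simp) (by simp),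
    ShortComplex.moduleCat_exact_iff, ← groupCohomology.inhomogeneousCochains.d_def,
    ← groupCohomology.inhomogeneousCochains.d_def]
  rfl

def CD (K : Type) [CommRing K] (n : ℕ) (G : Type) [Group G] : Prop :=
  ∀ (A : Rep.{0} K G) (k : ℕ), n < k → IsZero (groupCohomology A k)

theorem CD.of_equiv {H : Type} [Group H] {n : ℕ} (h : CD K n H) (e : G ≃* H) : CD K n G :=
  fun B k hk => (h (Rep.res e.symm.toMonoidHom B) k hk).of_iso
    (groupCohomology.mapIso e (LinearEquiv.refl _ _) (fun g => by ext; simp) k)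

theorem CD.triv [Subsingleton G] (n : ℕ) : CD K n G := fun A k hk => by
  obtain ⟨k, rfl⟩ := Nat.exists_eq_add_one_of_ne_zero (Nat.ne_zero_of_lt hk)
  exact isZero_groupCohomology_succ_of_subsingleton A k

theorem d_nat {A B : Rep.{0} K G} (φ : A ⟶ B) (k : ℕ) (f : (Fin k → G) → A) :
    d B k (φ.hom ∘ f) = φ.hom ∘ d A k f := by
  ext g
  simp [d_hom_apply, Rep.hom_comm_apply]

theorem van_pi {I : Type} {A : Rep.{0} K G} {B : I → Rep.{0} K G} (φ : ∀ i, A ⟶ B i)
    (h : Function.Bijective fun (x : A) i => (φ i).hom x) (k : ℕ)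
    (hB : ∀ i, IsZero (groupCohomology (B i) (k + 1))) : IsZero (groupCohomology A (k + 1)) := by
  simp only [van_iff] at hB ⊢
  intro f hf
  choose u hu using fun i => hB i ((φ i).hom ∘ f) (by
    rw [d_nat, hf]
    exact funext fun _ => map_zero _)
  choose v hv using fun g => h.2 fun i => u i g
  refine ⟨v, funext fun g => h.1 (funext fun i => ?_)⟩
  have : (φ i).hom ∘ v = u i := funext fun g => congrFun (hv g) i
  exact (congrFun (d_nat (φ i) k v) g).symm.trans (by rw [this, hu]; rfl)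

variable (Y : Type) [MulAction G Y] (M : Rep.{0} K G)

def fnρ : Representation K G (Y → M) where
  toFun g := (M.ρ g).compLeft Y ∘ₗ LinearMap.funLeft K M fun y => g⁻¹ • y
  map_one' := by ext; simp
  map_mul' g h := by ext; simp [mul_smul]

abbrev Fn : Rep.{0} K G := Rep.of (fnρ Y M)

theorem fn_apply (g : G) (F : Y → M) (y : Y) : fnρ Y M g F y = M.ρ g (F (g⁻¹ • y)) := rfl

theorem perm {n : ℕ} (h : ∀ y : Y, CD K n (MulAction.stabilizer G y)) (k : ℕ) (hk : n < k) :
    IsZero (groupCohomology (Fn Y M) k) := by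
  obtain ⟨k, rfl⟩ := Nat.exists_eq_add_one_of_ne_zero (Nat.ne_zero_of_lt hk)
  refine van_pi (I := MulAction.orbitRel.Quotient G Y)
    (B := fun i => Rep.coind (MulAction.stabilizer G i.out).subtype (Rep.res (Subgroup.subtype _) M))
    (fun i => Rep.ofHom ⟨LinearMap.codRestrict _ (LinearMap.pi fun g =>
      M.ρ g ∘ₗ LinearMap.proj (g⁻¹ • i.out)) fun F s g => ?_, fun g => ?_⟩) ⟨fun F F' e => ?_, ?_⟩ k
    fun i => (h i.out _ _ hk).of_iso (groupCohomology.coindIso _ _)
  · have : (s : G)⁻¹ • i.out = i.out := (s⁻¹).2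
    simp [mul_smul, this]
  · ext F x
    simp [fn_apply, mul_smul]
  · ext y
    obtain ⟨g, hg⟩ := Quotient.mk_out (s := MulAction.orbitRel G Y) y
    have : M.ρ g (F (g⁻¹ • _)) = M.ρ g (F' (g⁻¹ • _)) :=
      congrFun (congrArg Subtype.val (congrFun e ⟦y⟧)) g
    simpa [← hg] using congrArg (M.ρ g⁻¹) this
  · intro u
    choose c hc using fun y => Quotient.mk_out (s := MulAction.orbitRel G Y) y
    refine ⟨fun y => M.ρ (c y)⁻¹ ((u ⟦y⟧).1 (c y)), funext fun i => Subtype.ext (funext fun g => ?_)⟩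
    change M.ρ g (M.ρ (c _)⁻¹ ((u _).1 (c _))) = _
    have h1 : (⟦g⁻¹ • i.out⟧ : MulAction.orbitRel.Quotient G Y) = i :=
      (Quotient.sound (s := MulAction.orbitRel G Y) ⟨g⁻¹, rfl⟩).trans i.out_eq
    have h2 := hc (g⁻¹ • i.out)
    generalize c _ = x at h2 ⊢
    rw [h1] at h2 ⊢
    have h3 := (u i).2 ⟨g * x⁻¹, by
      rw [MulAction.mem_stabilizer_iff, mul_smul, ← eq_inv_smul_iff, inv_smul_eq_iff]
      exact h2.symm⟩ x
    simpa using h3.symm

theorem tree {V E : Type} [MulAction G V] [MulAction G E] (s t : E → V)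
    (hs : ∀ (g : G) ε, s (g • ε) = g • s ε) (ht : ∀ (g : G) ε, t (g • ε) = g • t ε) (v₀ : V)
    (conn : ∀ P : V → Prop, (∀ ε, P (t ε) ↔ P (s ε)) → P v₀ → ∀ v, P v) (h : V → E →₀ ℤ)
    (hh : ∀ ε, h (t ε) = h (s ε) + Finsupp.single ε 1) {n : ℕ}
    (hV : ∀ y : V, CD K n (MulAction.stabilizer G y))
    (hE : ∀ y : E, CD K n (MulAction.stabilizer G y)) : CD K (n + 1) G := fun M k hk => by
  obtain ⟨k, rfl⟩ := Nat.exists_eq_add_one_of_ne_zero (Nat.ne_zero_of_lt hk)
  let X : ShortComplex (Rep.{0} K G) := ShortComplex.mk (X₁ := M) (X₂ := Fn V M) (X₃ := Fn E M)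
    (Rep.ofHom ⟨LinearMap.pi fun _ => LinearMap.id, fun g => by ext; simp [fn_apply]⟩)
    (Rep.ofHom ⟨LinearMap.funLeft K M t - LinearMap.funLeft K M s, fun g => by
      ext; simp [fn_apply, hs, ht]⟩) (by ext; simp)
  have hX : X.ShortExact :=
    { exact := (forget₂ (Rep K G) (ModuleCat K)).reflects_exact_of_faithful _ <|
        (ShortComplex.moduleCat_exact_iff _).2 fun F hF => ⟨F v₀, funext fun v =>
          conn (fun v => F v₀ = F v) (fun ε => by
            rw [sub_eq_zero.1 (show F (t ε) - F (s ε) = 0 from congrFun hF ε)]) rfl v⟩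
      mono_f := (Rep.mono_iff_injective _).2 fun x y e => congrFun e v₀
      epi_g := (Rep.epi_iff_surjective _).2 fun φ =>
        ⟨fun v => Finsupp.linearCombination ℤ φ (h v), funext fun ε => by
          change Finsupp.linearCombination ℤ φ (h _) - Finsupp.linearCombination ℤ φ (h _) = _
          simp [hh]⟩ }
  exact (groupCohomology.mapShortComplex₁_exact hX (rfl : k + 1 = k + 1)).isZero_of_both_isZero
    (perm E M hE k (by omega)) (perm V M hV (k + 1) (by omega))

/-- product of the coordinate functions -/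
def cup : ∀ (n : ℕ) (χ : Fin n → G →* Multiplicative K), (Fin n → G) → K :=
  fun _ χ g => ∏ i, (χ i (g i)).toAdd

theorem cup_cocycle (n : ℕ) (χ : Fin n → G →* Multiplicative K) (g : Fin (n + 1) → G) :
    cup n χ (fun i => g i.succ) + ∑ j : Fin (n + 1), (-1 : K) ^ ((j : ℕ) + 1) *
      cup n χ (Fin.contractNth j (· * ·) g) = 0 := by
  induction n with
  | zero => simp [cup]
  | succ n ih =>
    have h0 : ∀ (χ : Fin (n + 1) → G →* Multiplicative K) g, cup (n + 1) χ g =
        (χ 0 (g 0)).toAdd * cup n (fun i => χ i.succ) fun i => g i.succ := fun χ g =>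
      Fin.prod_univ_succ _
    have h1 : ∀ j : Fin (n + 1), Fin.contractNth j.succ (· * ·) g 0 = g 0 := fun j =>
      Fin.contractNth_apply_of_lt _ _ _ _ (by simp)
    have h2 : ∀ j : Fin (n + 1), (fun i : Fin n => Fin.contractNth j.succ (· * ·) g i.succ) =
        Fin.contractNth j (· * ·) fun i => g i.succ := fun j => by
      ext i
      simp only [Fin.contractNth, Fin.val_succ, add_lt_add_iff_right, add_left_inj,
        Fin.succ_castSucc]
    have h3 : (fun i : Fin n => Fin.contractNth 0 (· * ·) g i.succ) = fun i => g i.succ.succ :=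
      funext fun i => Fin.contractNth_apply_of_gt _ _ _ _ (by simp)
    have h4 : Fin.contractNth 0 (· * ·) g 0 = g 0 * g (Fin.succ 0) :=
      Fin.contractNth_apply_of_eq _ _ _ _ rfl
    have := ih (fun i => χ i.succ) fun i => g i.succ
    rw [Fin.sum_univ_succ]
    simp only [h0, h1, h2, h3, h4, map_mul, toAdd_mul, Fin.val_succ, pow_succ (-1 : K) (_ + 1),
      Fin.val_zero, zero_add, pow_one, mul_left_comm _ (χ 0 (g 0)).toAdd, mul_neg_one, neg_mul,
      mul_neg, Finset.sum_neg_distrib, ← Finset.mul_sum]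
    linear_combination (norm := skip) -(χ 0 (g 0)).toAdd * this
    ring_nf

theorem alt_sum {G : Type} [CommGroup G] {n : ℕ} (e : Fin (n + 1) → G) (h : (Fin n → G) → K) :
    ∑ σ : Equiv.Perm (Fin (n + 1)), ((Equiv.Perm.sign σ : ℤ) : K) * (h (fun i => e (σ i.succ)) +
      ∑ j : Fin (n + 1), (-1 : K) ^ ((j : ℕ) + 1) * h (Fin.contractNth j (· * ·) (e ∘ σ))) = 0 := by
  simp only [mul_add, Finset.sum_add_distrib, Fin.sum_univ_castSucc, Finset.mul_sum]
  have h1 : ∀ j : Fin n, ∑ σ : Equiv.Perm (Fin (n + 1)), ((Equiv.Perm.sign σ : ℤ) : K) *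
      ((-1 : K) ^ ((j.castSucc : ℕ) + 1) * h (Fin.contractNth j.castSucc (· * ·) (e ∘ σ))) = 0 := by
    intro j
    have hj : j.castSucc ≠ j.succ := (Fin.castSucc_lt_succ (i := j)).ne
    refine Finset.sum_involution (fun σ _ => σ * Equiv.swap j.castSucc j.succ) (fun σ _ => ?_)
      (fun σ _ _ => by simpa using hj) (by simp) (by simp)
    have : Fin.contractNth j.castSucc (· * ·) (e ∘ (σ * Equiv.swap j.castSucc j.succ :)) =
        Fin.contractNth j.castSucc (· * ·) (e ∘ σ) := by
      ext i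
      rcases lt_trichotomy i j with h | rfl | h
      · rw [Fin.contractNth_apply_of_lt _ _ _ _ h, Fin.contractNth_apply_of_lt _ _ _ _ h]
        simp [Equiv.swap_apply_of_ne_of_ne, h.ne, (h.trans_le le_rfl |> Fin.castSucc_lt_castSucc_iff.2
          |>.trans (Fin.castSucc_lt_succ (i := j))).ne]
      · rw [Fin.contractNth_apply_of_eq _ _ _ _ rfl, Fin.contractNth_apply_of_eq _ _ _ _ rfl]
        simp [mul_comm]
      · rw [Fin.contractNth_apply_of_gt _ _ _ _ h, Fin.contractNth_apply_of_gt _ _ _ _ h]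
        simp [Equiv.swap_apply_of_ne_of_ne, h.ne', ((Fin.castSucc_lt_succ (i := j)).trans
          (Fin.succ_lt_succ_iff.2 h)).ne']
    rw [this]
    simp [Equiv.Perm.sign_swap hj]
  rw [Finset.sum_comm, Finset.sum_eq_zero fun j _ => h1 j, zero_add,
    ← Equiv.sum_comp (Equiv.mulRight (finRotate (n + 1))) fun σ => _ * (_ * _),
    ← Finset.sum_add_distrib]
  refine Finset.sum_eq_zero fun σ _ => ?_
  have : Fin.contractNth (Fin.last n) (· * ·) (e ∘ (σ * finRotate (n + 1) :)) =
      fun i => e (σ i.succ) := by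
    ext i
    rw [Fin.contractNth_apply_of_lt _ _ _ _ (by simp)]
    simp
  simp only [Equiv.coe_mulRight, this, map_mul, sign_finRotate, Fin.val_last]
  push_cast
  rcases neg_one_pow_eq_or K n with h | h <;> simp [pow_succ, h]

theorem top_ne [Nontrivial K] (n : ℕ) : Nontrivial
    (groupCohomology (Rep.trivial K (Multiplicative (Fin n → ℤ)) K) n) := by
  rw [← not_subsingleton_iff_nontrivial, ← ModuleCat.isZero_iff_subsingleton]
  rcases n with _ | n
  · intro h
    exact not_subsingleton K (ModuleCat.isZero_iff_subsingleton.1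
      (h.of_iso (groupCohomology.H0IsoOfIsTrivial _).symm))
  let χ : Fin (n + 1) → Multiplicative (Fin (n + 1) → ℤ) →* Multiplicative K := fun i =>
    AddMonoidHom.toMultiplicative ((Int.castAddHom K).comp (Pi.evalAddMonoidHom _ i))
  rw [van_iff]
  intro H
  obtain ⟨h, hh⟩ := H (cup _ χ) (funext fun g => Eq.trans (by
    simp [d_hom_apply]) (cup_cocycle (n + 1) χ g))
  let e : Fin (n + 1) → Multiplicative (Fin (n + 1) → ℤ) := fun i => .ofAdd (Pi.single i 1)
  have h1 := alt_sum e h
  have h2 : ∀ σ : Equiv.Perm (Fin (n + 1)), h (fun i => e (σ i.succ)) + ∑ j : Fin (n + 1),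
      (-1 : K) ^ ((j : ℕ) + 1) * h (Fin.contractNth j (· * ·) (e ∘ σ)) =
      ∏ i, (1 : Matrix _ _ K) (σ i) i := fun σ => by
    have := congrFun hh (e ∘ σ)
    simp only [d_hom_apply, Representation.isTrivial_apply, smul_eq_mul] at this
    refine this.trans (Finset.prod_congr rfl fun i _ => ?_)
    simp [χ, e, Matrix.one_apply, Pi.single_apply, eq_comm]
  simp only [h2] at h1
  rw [← Matrix.det_apply', Matrix.det_one] at h1
  exact one_ne_zero h1

theorem of_inj [Nontrivial K] {n : ℕ} (f : Multiplicative (Fin n → ℤ) →* G)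
    (hf : Function.Injective f) : ∃ M : Rep.{0} K G, Nontrivial (groupCohomology M n) := by
  let e := MonoidHom.ofInjective hf
  let B : Rep.{0} K f.range := Rep.trivial K _ K
  refine ⟨Rep.coind f.range.subtype B, ?_⟩
  have := top_ne (K := K) n
  exact ((groupCohomology.coindIso B n ≪≫ (groupCohomology.mapIso (B := Rep.trivial K _ K) (A := B)
    e (LinearEquiv.refl _ _) (fun g => rfl) n).symm).toLinearEquiv.toEquiv).nontrivial


end Pool.Agent.H65.Coh
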