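import Mathlib

/-! Structure of the greedy chi sequence. -/

namespace Pool.Agent.H65.Chi

structure IsChi (p : ℕ → ℤ) : Prop where
  zero : p 0 = 0
  one : p 1 = 1
  le : ∀ i j : ℕ, 2 ≤ i → 1 ≤ j → j < i → ((j : ℤ) + 1) * (i - p j) ≤ p i
  ex : ∀ i : ℕ, 2 ≤ i → ∃ j : ℕ, 1 ≤ j ∧ j < i ∧ p i = ((j : ℤ) + 1) * (i - p j)

variable {p : ℕ → ℤ}

def d (p : ℕ → ℤ) (i : ℕ) : ℤ := p (i + 1) - p i

def t (p : ℕ → ℤ) (m : ℕ) : ℤ := p (m + 1) + ((m : ℤ) + 1) * d p m

namespace IsChi

theorem ge (h : IsChi p) (i : ℕ) : (i : ℤ) ≤ p i := by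
  rcases Nat.lt_or_ge i 2 with hi | hi
  · interval_cases i
    · simp [h.zero]
    · simp [h.one]
  · have := h.le i 1 hi le_rfl (by omega)
    rw [h.one] at this
    have h2 : (2 : ℤ) ≤ i := by exact_mod_cast hi
    push_cast at this
    linarith

theorem le' (h : IsChi p) (i j : ℕ) : ((j : ℤ) + 1) * (i - p j) ≤ p i := by
  rcases Nat.lt_or_ge j i with hj | hj
  · rcases Nat.eq_zero_or_pos j with rfl | hj0
    · simpa [h.zero] using h.ge i
    · exact h.le i j (by omega) hj0 hj
  · have h1 := h.ge j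
    have h2 := h.ge i
    have h3 : (i : ℤ) ≤ j := by exact_mod_cast hj
    have h4 : (0 : ℤ) ≤ i := by positivity
    have : ((j : ℤ) + 1) * (i - p j) ≤ 0 :=
      mul_nonpos_of_nonneg_of_nonpos (by positivity) (by linarith)
    linarith

theorem ex' (h : IsChi p) (i : ℕ) : ∃ j : ℕ, j ≤ i ∧ p i = ((j : ℤ) + 1) * (i - p j) := by
  rcases Nat.lt_or_ge i 2 with hi | hi
  · interval_cases i
    · exact ⟨0, le_rfl, by simp [h.zero]⟩
    · exact ⟨0, by norm_num, by simp [h.zero, h.one]⟩
  · obtain ⟨j, -, hj, e⟩ := h.ex i hi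
    exact ⟨j, hj.le, e⟩

theorem d_succ (h : IsChi p) (i : ℕ) : d p i ≤ d p (i + 1) := by
  obtain ⟨j, -, e⟩ := h.ex' (i + 1)
  have h1 := h.le' i j
  have h2 := h.le' (i + 2) j
  unfold d
  push_cast at *
  have : p (i + 1 + 1) = p (i + 2) := rfl
  nlinarith

theorem d_mono (h : IsChi p) : Monotone (d p) := monotone_nat_of_le_succ h.d_succ

theorem d_zero (h : IsChi p) : d p 0 = 1 := by simp [d, h.zero, h.one]

theorem d_pos (h : IsChi p) (i : ℕ) : 1 ≤ d p i := by
  have := h.d_mono (Nat.zero_le i)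
  rwa [h.d_zero] at this

theorem t_step (h : IsChi p) (m : ℕ) : t p m + 2 * d p (m + 1) ≤ t p (m + 1) := by
  have h1 := h.d_succ m
  have e : p (m + 1 + 1) = p (m + 1) + d p (m + 1) := by simp [d]
  unfold t
  rw [e]
  push_cast
  have : (0 : ℤ) ≤ m := by positivity
  nlinarith

theorem t_strict (h : IsChi p) : StrictMono (t p) :=
  strictMono_nat_of_lt_succ fun m => by
    have := h.t_step m
    have := h.d_pos (m + 1)
    linarith

theorem t_zero (h : IsChi p) : t p 0 = 2 := by simp [t, h.d_zero, h.one]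

theorem f_step (i : ℤ) (j : ℕ) :
    (((j + 1 : ℕ) : ℤ) + 1) * (i - p (j + 1)) = ((j : ℤ) + 1) * (i - p j) + (i - t p j) := by
  unfold t d
  push_cast
  ring

theorem seg (h : IsChi p) (m i : ℕ) (h1 : ∀ j < m, t p j ≤ i) (h2 : (i : ℤ) ≤ t p m) :
    p i = ((m : ℤ) + 1) * (i - p m) := by
  apply le_antisymm _ (h.le' i m)
  obtain ⟨j, -, e⟩ := h.ex' i
  rw [e]
  rcases le_total j m with hj | hj
  · have key : ∀ n, j ≤ n → n ≤ m →
        ((j : ℤ) + 1) * (i - p j) ≤ ((n : ℤ) + 1) * (i - p n) := by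
      intro n hn
      induction n, hn using Nat.le_induction with
      | base => intro _; exact le_rfl
      | succ n hn ih =>
        intro hm
        rw [f_step]
        have := h1 n (by omega)
        have := ih (by omega)
        linarith
    exact key m hj le_rfl
  · induction j, hj using Nat.le_induction with
    | base => exact le_rfl
    | succ n hn ih =>
      have h3 := h.t_strict.monotone hn
      have key : ∀ n, m ≤ n → ((n : ℤ) + 1) * (i - p n) ≤ ((m : ℤ) + 1) * (i - p m) := by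
        intro n hn
        induction n, hn using Nat.le_induction with
        | base => exact le_rfl
        | succ n hn ih =>
          rw [f_step]
          have := h.t_strict.monotone hn
          linarith
      exact key _ (by omega)

theorem seg' (h : IsChi p) (m i : ℕ) (h1 : t p m ≤ i) (h2 : (i : ℤ) ≤ t p (m + 1)) :
    p i = ((m : ℤ) + 2) * (i - p (m + 1)) := by
  have := h.seg (m + 1) i (fun j hj => (h.t_strict.monotone (by omega)).trans h1) h2
  rw [this]; push_cast; ring

theorem dseg (h : IsChi p) (m i : ℕ) (h1 : t p m ≤ i) (h2 : (i : ℤ) < t p (m + 1)) :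
    d p i = m + 2 := by
  have e1 := h.seg' m i h1 h2.le
  have e2 := h.seg' m (i + 1) (by push_cast; linarith) (by push_cast; linarith)
  unfold d
  rw [e1, e2]; push_cast; ring

theorem t_ge (h : IsChi p) (m : ℕ) : (m : ℤ) ≤ t p m := by
  have := h.ge (m + 1)
  have := h.d_pos m
  unfold t
  push_cast at *
  nlinarith

theorem ex_m (h : IsChi p) (i : ℕ) (hi : 2 ≤ i) :
    ∃ m : ℕ, t p m ≤ i ∧ (i : ℤ) < t p (m + 1) := by
  have hex : ∃ m : ℕ, (i : ℤ) < t p m := ⟨i + 1, by have := h.t_ge (i + 1); push_cast at this; linarith⟩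
  classical
  have h1 := Nat.find_spec hex
  have h0 : Nat.find hex ≠ 0 := by
    intro h0
    rw [h0, h.t_zero] at h1
    have : (2 : ℤ) ≤ i := by exact_mod_cast hi
    linarith
  obtain ⟨m, hm⟩ := Nat.exists_eq_succ_of_ne_zero h0
  refine ⟨m, ?_, by rw [hm] at h1; exact h1⟩
  have := Nat.find_min hex (m := m) (by omega)
  linarith

theorem d_two (h : IsChi p) (i : ℕ) (hi : 2 ≤ i) : 2 ≤ d p i := by
  obtain ⟨m, h1, h2⟩ := h.ex_m i hi
  rw [h.dseg m i h1 h2]
  have : (0 : ℤ) ≤ m := by positivity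
  linarith

theorem jump (h : IsChi p) (i : ℕ) (hi : 2 ≤ i) : d p (i + 3) ≤ d p i + 1 := by
  obtain ⟨m, h1, h2⟩ := h.ex_m i hi
  obtain ⟨n, h3, h4⟩ := h.ex_m (i + 3) (by omega)
  rw [h.dseg m i h1 h2, h.dseg n _ h3 h4]
  by_contra hc
  have hn : m + 2 ≤ n := by omega
  have h5 := h.t_strict.monotone hn
  have h6 := h.t_step (m + 1)
  have h7 := h.d_two (m + 1 + 1) (by omega)
  have : t p (m + 2) = t p (m + 1 + 1) := rfl
  push_cast at *
  linarith

theorem le_mul_d (h : IsChi p) (n : ℕ) : p (n + 1) ≤ ((n : ℤ) + 1) * d p n := by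
  induction n with
  | zero => simp [h.d_zero, h.one]
  | succ n ih =>
    have e : p (n + 1 + 1) = p (n + 1) + d p (n + 1) := by simp [d]
    have := h.d_succ n
    rw [e]; push_cast
    have : (0 : ℤ) ≤ n := by positivity
    nlinarith

theorem half (h : IsChi p) (k : ℕ) (hk : 2 ≤ k) : (k : ℤ) * d p k ≤ 2 * p k := by
  obtain ⟨m, h1, h2⟩ := h.ex_m k hk
  rw [h.dseg m k h1 h2, h.seg' m k h1 h2.le]
  have h3 := h.le_mul_d m
  unfold t at h1
  have : (0 : ℤ) ≤ m := by positivity
  nlinarith

theorem strict (h : IsChi p) : StrictMono p :=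
  strictMono_nat_of_lt_succ fun i => by have := h.d_pos i; unfold d at this; linarith

end IsChi

/-- Table lookup of the sequence from an initial part of it. -/
def find : ℕ → List ℕ → ℕ → ℕ
  | m, u :: v :: rest, i =>
      if i ≤ v + (m + 1) * (v - u) then (m + 1) * (i - u) else find (m + 1) (v :: rest) i
  | _, _, _ => 0

theorem find_spec (h : IsChi p) (i : ℕ) : ∀ (l : List ℕ) (m : ℕ),
    (∀ j, j < l.length → p (m + j) = (l.getD j 0 : ℕ)) → (∀ j < m, t p j ≤ i) →
    find m l i ≠ 0 → p i = find m l i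
  | [], m, _, _, h0 => by simp [find] at h0
  | [_], m, _, _, h0 => by simp [find] at h0
  | u :: v :: rest, m, hl, ht, h0 => by
    have hu : p m = u := hl 0 (by simp)
    have hv : p (m + 1) = v := hl 1 (by simp)
    have huv : u ≤ v := by
      have := h.strict.monotone (Nat.le_succ m)
      rw [hu, hv] at this
      exact_mod_cast this
    have e : t p m = ((v + (m + 1) * (v - u) : ℕ) : ℤ) := by
      unfold t d
      rw [hu, hv]; push_cast [huv]; ring
    unfold find at h0 ⊢
    split_ifs at h0 ⊢ with hc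
    · have h2 := h.seg m i ht (by rw [e]; exact_mod_cast hc)
      have hiu : u ≤ i := by
        by_contra hlt
        apply h0
        have : i - u = 0 := by omega
        simp [this]
      rw [h2, hu]; push_cast [hiu]; ring
    · refine find_spec h i (v :: rest) (m + 1) (fun j hj => ?_) (fun j hj => ?_) h0
      · have := hl (j + 1) (by simp at hj ⊢; omega)
        rw [show m + 1 + j = m + (j + 1) by omega]
        exact this
      · rcases Nat.lt_or_ge j m with h1 | h1
        · exact ht j h1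
        · have : j = m := by omega
          subst this
          rw [e]; push Not at hc; exact_mod_cast hc.le

end Pool.Agent.H65.Chi
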