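import Pool.Agent.H65.Chi1

/-! Telescoping estimates. -/

namespace Pool.Agent.H65.Chi

open Finset

noncomputable def om (x : ℕ) : ℝ := 1 / ((x : ℝ) * (x + 1))

theorem om_nonneg (x : ℕ) : 0 ≤ om x := by unfold om; positivity

theorem om_eq (x : ℕ) (hx : 1 ≤ x) : om x = 1 / (x : ℝ) - 1 / (x + 1) := by
  have : (0 : ℝ) < x := by exact_mod_cast hx
  unfold om; field_simp; ring

theorem tele (f Ψ : ℕ → ℝ) (h : ∀ x, f x ≤ Ψ (x + 1) - Ψ x) (n : ℕ) :
    ∑ x ∈ range n, f x ≤ Ψ n - Ψ 0 := by
  rw [← Finset.sum_range_sub]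
  exact Finset.sum_le_sum fun x _ => h x

noncomputable def cl (α β v : ℝ) : ℝ := max α (min v β)

theorem cl_ge (α β v : ℝ) : α ≤ cl α β v := le_max_left _ _

theorem cl_le {α β : ℝ} (h : α ≤ β) (v : ℝ) : cl α β v ≤ β := max_le h (min_le_right _ _)

theorem cl_mono (α β : ℝ) {v w : ℝ} (h : v ≤ w) : cl α β v ≤ cl α β w :=
  max_le_max le_rfl (min_le_min h le_rfl)

theorem cl_eq {α β v : ℝ} (h1 : α ≤ v) (h2 : v ≤ β) : cl α β v = v := by
  unfold cl; rw [min_eq_left h2, max_eq_right h1]

theorem cl_low {α β v : ℝ} (h1 : v ≤ α) : cl α β v = α := by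
  unfold cl; exact max_eq_left ((min_le_left _ _).trans h1)

theorem block (α β : ℝ) (hα : 0 < α) (hαβ : α ≤ β + 1) (n : ℕ) :
    ∑ x ∈ range n, (if α ≤ x ∧ (x : ℝ) ≤ β then om x else 0) ≤ 1 / α - 1 / (β + 1) := by
  have pos : ∀ v, 0 < cl α (β + 1) v := fun v => hα.trans_le (cl_ge _ _ _)
  refine (tele _ (fun x => -(1 / cl α (β + 1) x)) (fun x => ?_) n).trans ?_
  · split_ifs with hc
    · have hx : 1 ≤ x := by
        have : (0 : ℝ) < x := hα.trans_le hc.1
        exact_mod_cast this
      rw [cl_eq hc.1 (by linarith [hc.2]), cl_eq (by push_cast; linarith [hc.1])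
        (by push_cast; linarith [hc.2]), om_eq x hx]
      push_cast; linarith
    · have := one_div_le_one_div_of_le (pos x)
        (cl_mono α (β + 1) (show (x : ℝ) ≤ ((x + 1 : ℕ) : ℝ) by push_cast; linarith))
      linarith
  · have h1 := one_div_le_one_div_of_le (pos n) (cl_le hαβ n)
    have h2 : cl α (β + 1) ((0 : ℕ) : ℝ) = α := cl_low (by simpa using hα.le)
    rw [h2]; linarith

theorem log_step {c c' : ℝ} (hc : 0 < c) (h : c ≤ c') : (c' - c) / c' ≤ Real.log c' - Real.log c := by
  have hc' : 0 < c' := hc.trans_le h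
  have := Real.one_sub_inv_le_log_of_pos (div_pos hc' hc)
  rw [Real.log_div hc'.ne' hc.ne'] at this
  have e : (c' - c) / c' = 1 - (c' / c)⁻¹ := by field_simp
  linarith

theorem strip1 (z K x0 : ℝ) (hz : 0 ≤ z) (hK : 0 < K) (hx : 0 < x0) (n : ℕ) :
    ∑ x ∈ range n, max 0 (min z (((x : ℝ) - x0) / K)) * om x ≤ Real.log (1 + z * K / x0) / K := by
  set x2 := x0 + z * K with hx2
  have h02 : x0 ≤ x2 := by have := mul_nonneg hz hK.le; linarith
  have pos : ∀ v, 0 < cl x0 x2 v := fun v => hx.trans_le (cl_ge _ _ _)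
  have hg : ∀ v : ℝ, max 0 (min z ((v - x0) / K)) ≤ (cl x0 x2 v - x0) / K := by
    intro v
    apply max_le (div_nonneg (by linarith [cl_ge x0 x2 v]) hK.le)
    rcases le_total v x2 with h | h
    · refine (min_le_right _ _).trans (div_le_div_of_nonneg_right ?_ hK.le)
      have : v ≤ cl x0 x2 v := by unfold cl; rw [min_eq_left h]; exact le_max_right _ _
      linarith
    · refine (min_le_left _ _).trans ?_
      have : cl x0 x2 v = x2 := by unfold cl; rw [min_eq_right h]; exact max_eq_right h02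
      rw [this, le_div_iff₀ hK]; linarith
  have h0 : cl x0 x2 ((0 : ℕ) : ℝ) = x0 := cl_low (by simpa using hx.le)
  refine (tele _ (fun x => Real.log (cl x0 x2 x) / K - (cl x0 x2 x - x0) / K / x)
    (fun x => ?_) n).trans ?_
  · refine (mul_le_mul_of_nonneg_right (hg x) (om_nonneg x)).trans ?_
    set c := cl x0 x2 x with hc
    set c' := cl x0 x2 ((x + 1 : ℕ) : ℝ) with hc'
    have hcc : c ≤ c' := cl_mono _ _ (by push_cast; linarith)
    have e1 : (c - x0) / K * om x = (c - x0) / K / x - (c - x0) / K / (x + 1) := by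
      rcases Nat.eq_zero_or_pos x with rfl | hx1
      · rw [hc, h0]; simp
      · rw [om_eq x hx1]; ring
    have hx1 : (0 : ℝ) < x + 1 := by positivity
    have key : (c' - c) / (x + 1) ≤ Real.log c' - Real.log c := by
      rcases le_total ((x : ℝ) + 1) x0 with h | h
      · have e2 : c' = x0 := by rw [hc']; exact cl_low (by push_cast; linarith)
        have e3 : c = x0 := by rw [hc]; exact cl_low (by linarith)
        rw [e2, e3]; simp
      · refine le_trans ?_ (log_step (pos x) hcc)
        apply div_le_div_of_nonneg_left (by linarith) (pos _)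
        unfold cl
        push_cast
        exact max_le h (min_le_left _ _)
    have key2 := div_le_div_of_nonneg_right key hK.le
    rw [e1]
    push_cast
    have e4 : (c' - c) / (x + 1) / K = (c' - x0) / K / (x + 1) - (c - x0) / K / (x + 1) := by
      field_simp; ring
    have e5 : (Real.log c' - Real.log c) / K = Real.log c' / K - Real.log c / K := by ring
    linarith
  · rw [h0]
    have h1 : Real.log (cl x0 x2 n) ≤ Real.log x2 := Real.log_le_log (pos n) (cl_le h02 n)
    have h2 : 0 ≤ (cl x0 x2 n - x0) / K / n :=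
      div_nonneg (div_nonneg (by linarith [cl_ge x0 x2 n]) hK.le) (by positivity)
    have e : 1 + z * K / x0 = x2 / x0 := by rw [hx2]; field_simp
    rw [e, Real.log_div (by linarith) hx.ne']
    have h3 := div_le_div_of_nonneg_right h1 hK.le
    have e5 : (Real.log x2 - Real.log x0) / K = Real.log x2 / K - Real.log x0 / K := by ring
    simp only [sub_self, zero_div]
    linarith

theorem strip2 (x0 : ℕ) (hx : 1 ≤ x0) (R : ℝ) (hR : 1 ≤ R) (n : ℕ) :
    ∑ x ∈ range n, (if x0 ≤ x ∧ (x : ℝ) + 1 ≤ R * x0 then 1 / ((x : ℝ) + 1) else 0) ≤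
      Real.log R := by
  have hx' : (0 : ℝ) < x0 := by exact_mod_cast hx
  have h02 : (x0 : ℝ) ≤ R * x0 := by nlinarith
  have pos : ∀ v, 0 < cl x0 (R * x0) v := fun v => hx'.trans_le (cl_ge _ _ _)
  refine (tele _ (fun x => Real.log (cl x0 (R * x0) x)) (fun x => ?_) n).trans ?_
  · split_ifs with hc
    · have h1 : (x0 : ℝ) ≤ x := by exact_mod_cast hc.1
      rw [cl_eq h1 (by linarith [hc.2]), cl_eq (by push_cast; linarith)
        (by push_cast; linarith [hc.2])]
      have := log_step (c := (x : ℝ)) (c' := (x : ℝ) + 1) (by linarith) (by linarith)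
      push_cast
      simpa using this
    · have := Real.log_le_log (pos x)
        (cl_mono x0 (R * x0) (show (x : ℝ) ≤ ((x + 1 : ℕ) : ℝ) by push_cast; linarith))
      linarith
  · have h2 : cl x0 (R * x0) ((0 : ℕ) : ℝ) = x0 := cl_low (by simp)
    have h1 := Real.log_le_log (pos n) (cl_le h02 n)
    rw [Real.log_mul (by linarith) hx'.ne'] at h1
    rw [h2]; linarith

theorem sum_Ico_om (a b : ℕ) (ha : 1 ≤ a) (hab : a ≤ b) :
    ∑ x ∈ Ico a b, om x = 1 / (a : ℝ) - 1 / b := by
  induction b, hab using Nat.le_induction with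
  | base => simp
  | succ b hb ih =>
    rw [Finset.sum_Ico_succ_top hb, ih, om_eq b (by omega)]
    push_cast; ring

noncomputable def ln (u : ℕ → ℝ) (k : ℕ) (x : ℝ) : ℝ := u k + x / (k + 1)

noncomputable def al (u : ℕ → ℝ) (k : ℕ) : ℝ := ((k : ℝ) + 1) * ((k : ℝ) + 2) * (u (k + 1) - u k)

theorem argmin (u : ℕ → ℝ) (h0 : u 0 = 0) (n x : ℕ) (hn : (n : ℝ) ≤ u n) (hx : x < n) :
    ∃ j < n, (∀ i ≤ n, ln u j x ≤ ln u i x) ∧
      ∀ k, j = k + 1 → al u k ≤ x ∧ (x : ℝ) ≤ al u (k + 1) := by
  obtain ⟨j, hj, hmin⟩ := Finset.exists_min_image (range (n + 1)) (fun j => ln u j x)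
    ⟨0, by simp⟩
  have hmin' : ∀ i ≤ n, ln u j x ≤ ln u i x := fun i hi => hmin i (by simp; omega)
  have hjn : j < n := by
    have : j ≤ n := by simp at hj; omega
    rcases this.lt_or_eq with h | h
    · exact h
    · exfalso
      subst h
      have h1 := hmin' 0 (Nat.zero_le _)
      unfold ln at h1
      rw [h0] at h1
      have h2 : (x : ℝ) < j := by exact_mod_cast hx
      have h3 : (0 : ℝ) ≤ x / (j + 1) := by positivity
      simp at h1
      linarith
  refine ⟨j, hjn, hmin', fun k hk => ?_⟩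
  subst hk
  have h1 := hmin' k (by omega)
  have h2 := hmin' (k + 1 + 1) (by omega)
  unfold ln at h1 h2
  unfold al
  push_cast at *
  have hk : (0 : ℝ) ≤ k := by positivity
  constructor
  · have e : (x : ℝ) / (k + 1) - x / (k + 1 + 1) = x / ((k + 1) * (k + 2)) := by
      field_simp; ring
    have : u (k + 1) - u k ≤ x / ((k + 1) * (k + 2)) := by linarith
    rw [le_div_iff₀ (by positivity)] at this
    linarith
  · have e : (x : ℝ) / (k + 1 + 1) - x / (k + 1 + 1 + 1) = x / ((k + 1 + 1) * (k + 1 + 2)) := by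
      field_simp; ring
    have : x / (((k : ℝ) + 1 + 1) * (k + 1 + 2)) ≤ u (k + 1 + 1) - u (k + 1) := by linarith
    rw [div_le_iff₀ (by positivity)] at this
    linarith

theorem deep (l : ℕ → ℝ) (y : ℝ) (h0 : y ≤ l 0) (n : ℕ) :
    ∀ j ≤ n, y - ∑ k ∈ range n, max 0 (min y (l k) - l (k + 1)) ≤ min y (l j) := by
  induction n with
  | zero => intro j hj; obtain rfl : j = 0 := by omega
            simpa using h0
  | succ n ih =>
    intro j hj
    rw [Finset.sum_range_succ]
    have h1 := le_max_left 0 (min y (l n) - l (n + 1))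
    have h2 := le_max_right 0 (min y (l n) - l (n + 1))
    rcases Nat.lt_or_ge j (n + 1) with h | h
    · have := ih j (by omega); linarith
    · obtain rfl : j = n + 1 := by omega
      have h3 := ih n le_rfl
      have h4 := min_le_left y (l n)
      apply le_min <;> linarith

end Pool.Agent.H65.Chi
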