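import Pool.Agent.H65.Chi2

/-! The charging argument. -/

namespace Pool.Agent.H65.Chi

open Finset

structure Seq (a : ℕ → ℕ) : Prop where
  zero : a 0 = 0
  ge : ∀ i, i ≤ a i
  chi : ∀ i j : ℕ, (j + 1) * i ≤ (j + 1) * a j + a i

def cnt (a : ℕ → ℕ) (x : ℕ) : ℕ := Nat.findGreatest (fun i => a i ≤ x) x

variable {a : ℕ → ℕ}

theorem Seq.cnt_spec (h : Seq a) (x : ℕ) : a (cnt a x) ≤ x :=
  Nat.findGreatest_spec (P := fun i => a i ≤ x) (Nat.zero_le x) (by simp [h.zero])

theorem Seq.le_cnt (h : Seq a) {i x : ℕ} (hi : a i ≤ x) : i ≤ cnt a x :=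
  Nat.le_findGreatest (P := fun i => a i ≤ x) ((h.ge i).trans hi) hi

theorem Seq.cnt_le (h : Seq a) (x j : ℕ) : cnt a x ≤ a j + x / (j + 1) := by
  have h1 := h.chi (cnt a x) j
  have h2 := h.cnt_spec x
  have : cnt a x - a j ≤ x / (j + 1) := by
    rw [Nat.le_div_iff_mul_le (by omega)]
    rcases le_total (a j) (cnt a x) with h3 | h3
    · obtain ⟨c, hc⟩ := Nat.exists_eq_add_of_le h3
      rw [hc] at h1 ⊢
      rw [Nat.add_sub_cancel_left]
      rw [hc] at h2
      nlinarith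
    · simp [Nat.sub_eq_zero_of_le h3]
  omega

noncomputable def fr (m x : ℕ) : ℝ := ((x % m : ℕ) : ℝ) / m

theorem fr_nonneg (m x : ℕ) : 0 ≤ fr m x := by unfold fr; positivity

theorem div_fr (j x : ℕ) : (x : ℝ) / (j + 1) = ((x / (j + 1) : ℕ) : ℝ) + fr (j + 1) x := by
  have := Nat.div_add_mod x (j + 1)
  have h2 : (x : ℝ) = ((j : ℝ) + 1) * ((x / (j + 1) : ℕ) : ℝ) + ((x % (j + 1) : ℕ) : ℝ) := by
    exact_mod_cast this.symm
  unfold fr
  push_cast
  field_simp
  linarith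

theorem fr_le (j x : ℕ) : fr (j + 1) x ≤ (j : ℝ) / (j + 1) := by
  unfold fr
  have : x % (j + 1) ≤ j := Nat.lt_succ_iff.mp (Nat.mod_lt _ (by omega))
  push_cast
  apply div_le_div_of_nonneg_right _ (by positivity)
  exact_mod_cast this

theorem Seq.cnt_le' (h : Seq a) (x j : ℕ) : (cnt a x : ℝ) ≤ a j + x / (j + 1) := by
  have h1 : (cnt a x : ℝ) ≤ a j + ((x / (j + 1) : ℕ) : ℝ) := by exact_mod_cast h.cnt_le x j
  rw [div_fr]
  linarith [fr_nonneg (j + 1) x]

noncomputable def W (u : ℕ → ℝ) (k : ℕ) : ℝ := 1 / al u k - 1 / (al u (k + 1) + 1)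

noncomputable def Rr (k : ℕ) (D Q : ℝ) : ℝ :=
  ((k : ℝ) + 2) / (1 - ((k : ℝ) + 2) / (((k : ℝ) + 1) * D + Q + 1))

/-- The numerical condition for row `k + 1`. -/
structure RowOK (p s q : ℕ → ℝ) (k : ℕ) : Prop where
  ps : p (k + 1) ≤ s (k + 1)
  sq : s (k + 1) ≤ q (k + 1)
  qq : q k < q (k + 1)
  a1 : 0 < al s k
  a2 : al s k ≤ al s (k + 1) + 1
  hM : (k : ℝ) + 2 < ((k : ℝ) + 1) * (q (k + 1) - q k) + q (k + 1) + 1
  main : ∃ F : ℝ, (∀ n, ∑ x ∈ range n,
      (if al p k ≤ x ∧ (x : ℝ) ≤ al p (k + 1) then fr (k + 2) x * om x else 0) ≤ F) ∧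
    ∀ (b : ℕ) (T : ℝ), p (k + 1) + 1 ≤ b → ((b : ℝ) ≤ q (k + 1) → T ≤ 0) →
      (q (k + 1) < b →
        T ≤ Real.log (1 + (b - q (k + 1)) / (q (k + 1) - q k)) / (((k : ℝ) + 1) * (k + 2)) ∧
        T ≤ (b - q (k + 1)) / ((q (k + 1) - q k) + (b - q (k + 1))) *
          Real.log (Rr k (q (k + 1) - q k) (q (k + 1))) / (((k : ℝ) + 1) * (k + 2))) →
      min ((b - p (k + 1)) * W p k) ((s (k + 1) - p (k + 1)) * W p k + F) +
        max 0 (min (b : ℝ) (q (k + 1)) - s (k + 1)) * W s k + T ≤ 1 / p (k + 1) - 1 / b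

noncomputable def strip (a : ℕ → ℕ) (q : ℕ → ℝ) (k x : ℕ) : ℝ :=
  max 0 (min (cnt a x : ℝ) (ln q k x) - ln q (k + 1) x)

theorem strip_le (h : Seq a) (q : ℕ → ℝ) (k x : ℕ) :
    strip a q k x ≤ max 0 (min (a (k + 1) - q (k + 1))
      ((x - ((k : ℝ) + 1) * (k + 2) * (q (k + 1) - q k)) / (((k : ℝ) + 1) * (k + 2)))) := by
  unfold strip
  apply max_le_max le_rfl
  have h1 := h.cnt_le' x (k + 1)
  have h2 := min_le_left (cnt a x : ℝ) (ln q k x)
  have h3 := min_le_right (cnt a x : ℝ) (ln q k x)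
  unfold ln at *
  push_cast at *
  apply le_min
  · linarith
  · have e : (x - ((k : ℝ) + 1) * (k + 2) * (q (k + 1) - q k)) / (((k : ℝ) + 1) * (k + 2)) =
        q k + x / (k + 1) - (q (k + 1) + x / (k + 1 + 1)) := by
      field_simp; ring
    rw [e]; linarith

theorem strip_B1 (h : Seq a) (q : ℕ → ℝ) (k n : ℕ) (hq : q k < q (k + 1))
    (hb : q (k + 1) < a (k + 1)) :
    ∑ x ∈ range n, strip a q k x * om x ≤
      Real.log (1 + (a (k + 1) - q (k + 1)) / (q (k + 1) - q k)) / (((k : ℝ) + 1) * (k + 2)) := by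
  have hK : (0 : ℝ) < ((k : ℝ) + 1) * (k + 2) := by positivity
  have hD : 0 < q (k + 1) - q k := by linarith
  have := strip1 (a (k + 1) - q (k + 1)) _ (((k : ℝ) + 1) * (k + 2) * (q (k + 1) - q k))
    (by linarith) hK (by positivity) n
  have e : (a (k + 1) - q (k + 1)) * (((k : ℝ) + 1) * (k + 2)) /
      (((k : ℝ) + 1) * (k + 2) * (q (k + 1) - q k)) =
      (a (k + 1) - q (k + 1)) / (q (k + 1) - q k) := by field_simp
  rw [e] at this
  exact (Finset.sum_le_sum fun x _ =>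
    mul_le_mul_of_nonneg_right (strip_le h q k x) (om_nonneg x)).trans this

theorem strip_zero (h : Seq a) (q : ℕ → ℝ) (k n : ℕ) (hb : (a (k + 1) : ℝ) ≤ q (k + 1)) :
    ∑ x ∈ range n, strip a q k x * om x ≤ 0 := by
  apply Finset.sum_nonpos
  intro x _
  apply mul_nonpos_of_nonpos_of_nonneg _ (om_nonneg x)
  refine (strip_le h q k x).trans (max_le le_rfl ((min_le_left _ _).trans (by linarith)))

theorem strip_B5 (h : Seq a) (q : ℕ → ℝ) (k n : ℕ) (hq : q k < q (k + 1))
    (hb : q (k + 1) < a (k + 1)) (hq1 : 1 ≤ q (k + 1))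
    (hM : (k : ℝ) + 2 < ((k : ℝ) + 1) * (q (k + 1) - q k) + q (k + 1) + 1) :
    ∑ x ∈ range n, strip a q k x * om x ≤
      (a (k + 1) - q (k + 1)) / ((q (k + 1) - q k) + (a (k + 1) - q (k + 1))) *
        Real.log (Rr k (q (k + 1) - q k) (q (k + 1))) / (((k : ℝ) + 1) * (k + 2)) := by
  set D := q (k + 1) - q k with hDd
  set z := (a (k + 1) : ℝ) - q (k + 1) with hzd
  set K := ((k : ℝ) + 1) * (k + 2) with hKd
  set M := ((k : ℝ) + 1) * D + q (k + 1) + 1 with hMd
  have hK : 0 < K := by positivity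
  have hD : 0 < D := by linarith
  have hz : 0 < z := by linarith
  have hk : (0 : ℝ) ≤ k := by positivity
  have hM0 : 0 < M := by linarith
  have hc : 0 < 1 - ((k : ℝ) + 2) / M := by
    have : ((k : ℝ) + 2) / M < 1 := by rw [div_lt_one hM0]; exact hM
    linarith
  have hc1 : 0 ≤ ((k : ℝ) + 2) / M := by positivity
  have hR : 1 ≤ Rr k D (q (k + 1)) := by
    unfold Rr
    rw [← hMd, le_div_iff₀ hc]; linarith
  have hlog := Real.log_nonneg hR
  set θ := z / (D + z) / K with hθ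
  have hθ0 : 0 ≤ θ := by positivity
  have efin : z / (D + z) * Real.log (Rr k D (q (k + 1))) / K =
      θ * Real.log (Rr k D (q (k + 1))) := by rw [hθ]; ring
  rw [efin]
  by_cases hex : ∃ x, 0 < strip a q k x
  swap
  · push Not at hex
    refine le_trans (Finset.sum_nonpos fun x _ =>
      mul_nonpos_of_nonpos_of_nonneg (hex x) (om_nonneg x)) (by positivity)
  classical
  set x0 := Nat.find hex with hx0
  have hs0 : 0 < strip a q k x0 := Nat.find_spec hex
  have pos_facts : ∀ x, 0 < strip a q k x →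
      q (k + 1) + x / (k + 2) < cnt a x ∧ K * D < x := by
    intro x hx
    have h1 := strip_le h q k x
    constructor
    · unfold strip at hx
      rcases lt_max_iff.mp hx with h2 | h2
      · exact absurd h2 (lt_irrefl _)
      · have := min_le_left (cnt a x : ℝ) (ln q k x)
        unfold ln at *
        push_cast at *
        have e : (x : ℝ) / (k + 2) = x / (k + 1 + 1) := by ring
        rw [e]; linarith
    · rcases lt_max_iff.mp (hx.trans_le h1) with h2 | h2
      · exact absurd h2 (lt_irrefl _)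
      · have h3 := h2.trans_le (min_le_right _ _)
        rw [lt_div_iff₀ hK] at h3
        linarith
  obtain ⟨f1, f2⟩ := pos_facts x0 hs0
  have hx01 : 1 ≤ x0 := by
    have : (0 : ℝ) < x0 := by nlinarith
    exact_mod_cast this
  have hm : M ≤ (cnt a x0 : ℝ) + 1 := by
    have : ((k : ℝ) + 1) * D ≤ x0 / (k + 2) := by
      rw [le_div_iff₀ (by positivity)]; nlinarith
    linarith
  refine le_trans (Finset.sum_le_sum fun x _ => ?_)
    (mul_le_mul_of_nonneg_left (strip2 x0 hx01 _ hR n) hθ0 |>.trans' (le_of_eq (Finset.mul_sum _ _ _).symm))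
  rcases (le_max_left 0 _ : 0 ≤ strip a q k x).lt_or_eq with hx | hx
  swap
  · have : strip a q k x = 0 := hx.symm
    rw [this, zero_mul]
    apply mul_nonneg hθ0
    split_ifs <;> positivity
  obtain ⟨g1, g2⟩ := pos_facts x hx
  have hxx : x0 ≤ x := Nat.find_min' hex hx
  have hx1 : 1 ≤ x := hx01.trans hxx
  have hxr : (1 : ℝ) ≤ x := by exact_mod_cast hx1
  have h5 := h.cnt_le' x (cnt a x0)
  have h6 : (a (cnt a x0) : ℝ) ≤ x0 := by exact_mod_cast h.cnt_spec x0
  have h7 : (x : ℝ) / (cnt a x0 + 1) ≤ x / M := div_le_div_of_nonneg_left (by linarith) hM0 hm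
  have hcond : (x : ℝ) + 1 ≤ Rr k D (q (k + 1)) * x0 := by
    unfold Rr
    rw [← hMd, div_mul_eq_mul_div, le_div_iff₀ hc]
    have e1 : (x : ℝ) = (k + 2) * (x / (k + 2)) := by field_simp
    have e2 : (x : ℝ) * ((k + 2) / M) = (k + 2) * (x / M) := by ring
    have h8 : (x : ℝ) / (k + 2) - x / M ≤ x0 - 1 := by linarith
    have h9 := mul_le_mul_of_nonneg_left h8 (show (0 : ℝ) ≤ k + 2 by positivity)
    nlinarith
  rw [if_pos ⟨hxx, hcond⟩]
  have h10 : strip a q k x ≤ θ * x := by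
    refine (strip_le h q k x).trans (max_le (by positivity) ?_)
    rw [← hzd, ← hKd, ← hDd]
    rcases le_total (x : ℝ) (K * (D + z)) with h11 | h11
    · refine (min_le_right _ _).trans ?_
      rw [hθ, div_le_iff₀ hK]
      have e : z / (D + z) / K * x * K = x - D * x / (D + z) := by field_simp; ring
      rw [e]
      have : D * x / (D + z) ≤ K * D := by
        rw [div_le_iff₀ (by positivity)]; nlinarith
      linarith
    · refine (min_le_left _ _).trans ?_
      have e : z = θ * (K * (D + z)) := by rw [hθ]; field_simp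
      calc z = θ * (K * (D + z)) := e
        _ ≤ θ * x := mul_le_mul_of_nonneg_left h11 hθ0
  calc strip a q k x * om x ≤ θ * x * om x := mul_le_mul_of_nonneg_right h10 (om_nonneg x)
    _ = θ * (1 / ((x : ℝ) + 1)) := by unfold om; field_simp

end Pool.Agent.H65.Chi
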