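import Pool.Agent.H65.Chi3

/-! Assembly of the charging argument. -/

namespace Pool.Agent.H65.Chi

open Finset

variable {a : ℕ → ℕ} {p : ℕ → ℤ}

noncomputable def T0 (a : ℕ → ℕ) (P s : ℕ → ℝ) (j x : ℕ) : ℝ :=
  max 0 (min (a j - P j) (s j - P j + fr (j + 1) x))

noncomputable def T1 (a : ℕ → ℕ) (s q : ℕ → ℝ) (j : ℕ) : ℝ := max 0 (min (a j : ℝ) (q j) - s j)

open Classical in
noncomputable def ch (a : ℕ → ℕ) (P s q : ℕ → ℝ) (k x : ℕ) : ℝ :=
  (if al P k ≤ x ∧ (x : ℝ) ≤ al P (k + 1) then T0 a P s (k + 1) x else 0) +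
  (if al s k ≤ x ∧ (x : ℝ) ≤ al s (k + 1) then T1 a s q (k + 1) else 0) + strip a q k x

theorem ch_nonneg (P s q : ℕ → ℝ) (k x : ℕ) : 0 ≤ ch a P s q k x := by
  unfold ch T0 T1 strip
  have h1 := le_max_left (0 : ℝ)
  apply add_nonneg (add_nonneg _ _) (h1 _) <;> split_ifs <;> simp

theorem pointwise (hp : IsChi p) (h : Seq a) (s q : ℕ → ℝ) (hs0 : s 0 = 0) (hq0 : q 0 = 0)
    (n x : ℕ) (hsn : (n : ℝ) ≤ s n) (hx : x < n) :
    ∃ X : ℕ, p X ≤ x ∧ (cnt a x : ℝ) - X ≤ ∑ k ∈ range n, ch a (fun i => (p i : ℝ)) s q k x := by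
  classical
  set P : ℕ → ℝ := fun i => (p i : ℝ) with hP
  have hP0 : P 0 = 0 := by simp [hP, hp.zero]
  obtain ⟨j0, hj0, m0, b0⟩ := argmin P hP0 n x (by simp only [hP]; exact_mod_cast hp.ge n) hx
  obtain ⟨j1, hj1, m1, b1⟩ := argmin s hs0 n x hsn hx
  have hpj : 0 ≤ p j0 := le_trans (by positivity) (hp.ge j0)
  set X : ℕ := (p j0).toNat + x / (j0 + 1) with hX
  have hXr : (X : ℝ) = P j0 + ((x / (j0 + 1) : ℕ) : ℝ) := by
    have : (((p j0).toNat : ℤ) : ℝ) = p j0 := by rw [Int.toNat_of_nonneg hpj]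
    rw [hX, Nat.cast_add]
    simp only [hP]
    rw [← this, Int.cast_natCast]
  have hXl : (X : ℝ) ≤ ln P j0 x := by
    unfold ln; rw [hXr, div_fr]; linarith [fr_nonneg (j0 + 1) x]
  refine ⟨X, ?_, ?_⟩
  · obtain ⟨m, hm, e⟩ := hp.ex' X
    have h1 : (X : ℝ) ≤ x := by
      have := hXl.trans (m0 0 (Nat.zero_le _))
      unfold ln at this
      rw [hP0] at this
      simpa using this
    have h2 : X ≤ x := by exact_mod_cast h1
    have h3 := hXl.trans (m0 m (by omega))
    unfold ln at h3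
    have h4 : ((m : ℝ) + 1) * (X - P m) ≤ x := by
      have : (X : ℝ) - P m ≤ x / (m + 1) := by linarith
      rw [le_div_iff₀ (by positivity)] at this
      linarith
    rw [e]
    simp only [hP] at h4
    exact_mod_cast h4
  · have hA0 : (cnt a x : ℝ) ≤ ln q 0 x := by
      have := h.cnt_le' x 0
      unfold ln; rw [hq0]; simpa [h.zero] using this
    have hd := deep (fun k => ln q k x) (cnt a x) hA0 n j1 hj1.le
    set Y := (cnt a x : ℝ) - ∑ k ∈ range n, strip a q k x with hY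
    have hd' : Y ≤ min (cnt a x : ℝ) (ln q j1 x) := hd
    have hYA : Y ≤ cnt a x := hd'.trans (min_le_left _ _)
    have hYq : Y ≤ ln q j1 x := hd'.trans (min_le_right _ _)
    have hT1 : 0 ≤ T1 a s q j1 := le_max_left _ _
    have h1 : Y - T1 a s q j1 ≤ ln s j1 x := by
      have h2 := h.cnt_le' x j1
      have h3 : min (a j1 : ℝ) (q j1) - s j1 ≤ T1 a s q j1 := le_max_right _ _
      have h4 : Y - x / (j1 + 1) ≤ min (a j1 : ℝ) (q j1) := by
        unfold ln at hYq
        apply le_min <;> linarith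
      unfold ln; linarith
    have h2 : Y - T1 a s q j1 - X ≤ T0 a P s j0 x := by
      refine le_trans (le_min ?_ ?_) (le_max_right _ _)
      · have h3 : (cnt a x : ℝ) ≤ a j0 + ((x / (j0 + 1) : ℕ) : ℝ) := by
          exact_mod_cast h.cnt_le x j0
        linarith
      · have h3 := h1.trans (m1 j0 hj0.le)
        unfold ln at h3
        rw [div_fr] at h3
        linarith
    have h3 : T0 a P s j0 x ≤ ∑ k ∈ range n,
        (if al P k ≤ x ∧ (x : ℝ) ≤ al P (k + 1) then T0 a P s (k + 1) x else 0) := by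
      have hnn : ∀ k ∈ range n, 0 ≤
          (if al P k ≤ x ∧ (x : ℝ) ≤ al P (k + 1) then T0 a P s (k + 1) x else 0) := by
        intro k _; split_ifs
        · exact le_max_left _ _
        · exact le_rfl
      rcases Nat.eq_zero_or_pos j0 with h0 | h0
      · refine le_trans ?_ (Finset.sum_nonneg hnn)
        unfold T0
        rw [h0, h.zero, hP0]
        exact max_le le_rfl ((min_le_left _ _).trans (by simp))
      · obtain ⟨k, hk⟩ : ∃ k, j0 = k + 1 := ⟨j0 - 1, by omega⟩
        have := Finset.single_le_sum hnn (show k ∈ range n by simp; omega)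
        rw [if_pos (b0 k hk)] at this
        rwa [hk]
    have h4 : T1 a s q j1 ≤ ∑ k ∈ range n,
        (if al s k ≤ x ∧ (x : ℝ) ≤ al s (k + 1) then T1 a s q (k + 1) else 0) := by
      have hnn : ∀ k ∈ range n, 0 ≤
          (if al s k ≤ x ∧ (x : ℝ) ≤ al s (k + 1) then T1 a s q (k + 1) else 0) := by
        intro k _; split_ifs
        · exact le_max_left _ _
        · exact le_rfl
      rcases Nat.eq_zero_or_pos j1 with h0 | h0
      · refine le_trans ?_ (Finset.sum_nonneg hnn)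
        unfold T1
        rw [h0, h.zero, hs0, hq0]
        simp
      · obtain ⟨k, hk⟩ : ∃ k, j1 = k + 1 := ⟨j1 - 1, by omega⟩
        have := Finset.single_le_sum hnn (show k ∈ range n by simp; omega)
        rw [if_pos (b1 k hk)] at this
        rwa [hk]
    unfold ch
    rw [Finset.sum_add_distrib, Finset.sum_add_distrib]
    linarith

theorem al_p_pos (hp : IsChi p) (k : ℕ) : 0 < al (fun i => (p i : ℝ)) k := by
  have : (1 : ℝ) ≤ (p (k + 1) : ℝ) - p k := by exact_mod_cast hp.d_pos k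
  unfold al
  positivity

theorem al_p_le (hp : IsChi p) (k : ℕ) :
    al (fun i => (p i : ℝ)) k ≤ al (fun i => (p i : ℝ)) (k + 1) + 1 := by
  have h1 : (1 : ℝ) ≤ (p (k + 1) : ℝ) - p k := by exact_mod_cast hp.d_pos k
  have h2 : (p (k + 1) : ℝ) - p k ≤ (p (k + 1 + 1) : ℝ) - p (k + 1) := by
    exact_mod_cast hp.d_succ k
  unfold al
  push_cast
  have hk : (0 : ℝ) ≤ k := by positivity
  have : ((k : ℝ) + 1) * (k + 2) * ((p (k + 1) : ℝ) - p k) ≤
      ((k : ℝ) + 1 + 1) * (k + 1 + 2) * ((p (k + 1 + 1) : ℝ) - p (k + 1)) := by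
    apply mul_le_mul (by nlinarith) h2 (by linarith) (by positivity)
  linarith

theorem row_bound (hp : IsChi p) (h : Seq a) (s q : ℕ → ℝ) (k n : ℕ)
    (hr : RowOK (fun i => (p i : ℝ)) s q k) :
    ∑ x ∈ range n, ch a (fun i => (p i : ℝ)) s q k x * om x ≤
      max 0 (1 / (p (k + 1) : ℝ) - 1 / a (k + 1)) := by
  classical
  set P : ℕ → ℝ := fun i => (p i : ℝ) with hP
  obtain ⟨F, hF, hmain⟩ := hr.main
  have hps : P (k + 1) ≤ s (k + 1) := hr.ps
  have hW0 := block _ _ (al_p_pos hp k) (al_p_le hp k) n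
  have hW1 := block _ _ hr.a1 hr.a2 n
  have hP1 : 1 ≤ P (k + 1) := by
    have := hp.ge (k + 1)
    have h2 : (1 : ℤ) ≤ p (k + 1) := by push_cast at this; omega
    simp only [hP]; exact_mod_cast h2
  have e : ∑ x ∈ range n, ch a P s q k x * om x =
      ∑ x ∈ range n, (if al P k ≤ x ∧ (x : ℝ) ≤ al P (k + 1) then T0 a P s (k + 1) x * om x else 0) +
      T1 a s q (k + 1) * ∑ x ∈ range n,
        (if al s k ≤ x ∧ (x : ℝ) ≤ al s (k + 1) then om x else 0) +
      ∑ x ∈ range n, strip a q k x * om x := by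
    rw [Finset.mul_sum, ← Finset.sum_add_distrib, ← Finset.sum_add_distrib]
    refine Finset.sum_congr rfl fun x _ => ?_
    unfold ch
    split_ifs <;> ring
  rw [e]
  have hT1 : 0 ≤ T1 a s q (k + 1) := le_max_left _ _
  have h2 := mul_le_mul_of_nonneg_left hW1 hT1
  rcases le_or_gt (a (k + 1) : ℤ) (p (k + 1)) with hc | hc
  · have hc' : (a (k + 1) : ℝ) ≤ P (k + 1) := by simp only [hP]; exact_mod_cast hc
    have h3 := strip_zero h q k n (hc'.trans (hps.trans hr.sq))
    have h4 : T1 a s q (k + 1) = 0 := by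
      unfold T1
      exact max_eq_left (by linarith [min_le_left (a (k + 1) : ℝ) (q (k + 1))])
    have h5 : ∑ x ∈ range n, (if al P k ≤ x ∧ (x : ℝ) ≤ al P (k + 1) then
        T0 a P s (k + 1) x * om x else 0) ≤ 0 := by
      apply Finset.sum_nonpos
      intro x _
      split_ifs
      · apply mul_nonpos_of_nonpos_of_nonneg _ (om_nonneg x)
        exact max_le le_rfl ((min_le_left _ _).trans (by linarith))
      · exact le_rfl
    rw [h4, zero_mul]
    linarith [le_max_left 0 (1 / (p (k + 1) : ℝ) - 1 / a (k + 1))]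
  · have hc' : P (k + 1) + 1 ≤ (a (k + 1) : ℝ) := by
      simp only [hP]; exact_mod_cast hc
    refine le_trans ?_ (le_max_right _ _)
    have key := hmain (a (k + 1)) (∑ x ∈ range n, strip a q k x * om x) hc'
      (strip_zero h q k n)
      (fun hb => ⟨strip_B1 h q k n hr.qq hb,
        strip_B5 h q k n hr.qq hb (hP1.trans (hps.trans hr.sq)) hr.hM⟩)
    have h5 : ∑ x ∈ range n, (if al P k ≤ x ∧ (x : ℝ) ≤ al P (k + 1) then
        T0 a P s (k + 1) x * om x else 0) ≤
        min ((a (k + 1) - P (k + 1)) * W P k) ((s (k + 1) - P (k + 1)) * W P k + F) := by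
      apply le_min
      · refine le_trans ?_ (mul_le_mul_of_nonneg_left hW0 (by linarith))
        rw [Finset.mul_sum]
        refine Finset.sum_le_sum fun x _ => ?_
        split_ifs
        · exact mul_le_mul_of_nonneg_right (max_le (by linarith) (min_le_left _ _)) (om_nonneg x)
        · simp
      · refine le_trans ?_ (add_le_add (mul_le_mul_of_nonneg_left hW0 (by linarith)) (hF n))
        rw [Finset.mul_sum, ← Finset.sum_add_distrib]
        refine Finset.sum_le_sum fun x _ => ?_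
        split_ifs
        · rw [← add_mul]
          exact mul_le_mul_of_nonneg_right
            (max_le (by linarith [fr_nonneg (k + 2) x]) (min_le_right _ _)) (om_nonneg x)
        · simp
    have e1 : T1 a s q (k + 1) = max 0 (min (a (k + 1) : ℝ) (q (k + 1)) - s (k + 1)) := rfl
    have e2 : W s k = 1 / al s k - 1 / (al s (k + 1) + 1) := rfl
    rw [← e1, e2] at key
    linarith

theorem gain_bound (hp : IsChi p) (h : Seq a) (M n : ℕ) (hn : p M ≤ n) (G : ℕ → ℝ)
    (hG0 : ∀ x, 0 ≤ G x) (hG : ∀ x < n, ∃ X : ℕ, p X ≤ x ∧ (cnt a x : ℝ) - X ≤ G x) :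
    ∑ k ∈ range M, max 0 (1 / (a (k + 1) : ℝ) - 1 / p (k + 1)) ≤
      ∑ x ∈ range n, G x * om x := by
  classical
  have h1 : ∀ k ∈ range M, max 0 (1 / (a (k + 1) : ℝ) - 1 / p (k + 1)) ≤
      ∑ x ∈ range n, (if a (k + 1) ≤ x ∧ (x : ℤ) < p (k + 1) then om x else 0) := by
    intro k hk
    have hnn : ∀ x ∈ range n, 0 ≤
        (if a (k + 1) ≤ x ∧ (x : ℤ) < p (k + 1) then om x else 0) := by
      intro x _; split_ifs
      · exact om_nonneg x
      · exact le_rfl
    apply max_le (Finset.sum_nonneg hnn)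
    have ha : 1 ≤ a (k + 1) := le_trans (Nat.succ_pos k) (h.ge (k + 1))
    have hpk : 0 ≤ p (k + 1) := le_trans (by positivity) (hp.ge (k + 1))
    obtain ⟨b, hb⟩ := Int.eq_ofNat_of_zero_le hpk
    have hbn : b ≤ n := by
      have := hp.strict.monotone (show k + 1 ≤ M by simp at hk; omega)
      omega
    rw [hb]
    rcases le_total (a (k + 1)) b with hc | hc
    · rw [← Finset.sum_filter]
      have := sum_Ico_om _ _ ha hc
      push_cast
      rw [← this]
      apply Finset.sum_le_sum_of_subset_of_nonneg _ (fun x _ _ => om_nonneg x)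
      intro x hx
      simp only [mem_Ico, mem_filter, mem_range] at hx ⊢
      omega
    · rw [hb] at hnn
      refine le_trans ?_ (Finset.sum_nonneg hnn)
      have hb1 : 1 ≤ b := by have := hp.ge (k + 1); push_cast at this; omega
      have : 1 / (a (k + 1) : ℝ) ≤ 1 / (b : ℝ) :=
        one_div_le_one_div_of_le (by exact_mod_cast hb1) (by exact_mod_cast hc)
      push_cast
      linarith
  refine (Finset.sum_le_sum h1).trans ?_
  rw [Finset.sum_comm]
  refine Finset.sum_le_sum fun x hx => ?_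
  obtain ⟨X, hX1, hX2⟩ := hG x (by simpa using hx)
  rw [← Finset.sum_filter, Finset.sum_const, nsmul_eq_mul]
  apply mul_le_mul_of_nonneg_right _ (om_nonneg x)
  have hsub : (range M).filter (fun k => a (k + 1) ≤ x ∧ (x : ℤ) < p (k + 1)) ⊆
      Ico X (cnt a x) := by
    intro k hk
    simp only [mem_filter, mem_range, mem_Ico] at hk ⊢
    have h2 := h.le_cnt hk.2.1
    refine ⟨?_, by omega⟩
    by_contra hlt
    have := hp.strict.monotone (show k + 1 ≤ X by omega)
    omega
  have h3 := Finset.card_le_card hsub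
  rw [Nat.card_Ico] at h3
  rcases le_total X (cnt a x) with hc | hc
  · have : ((cnt a x - X : ℕ) : ℝ) = cnt a x - X := by push_cast [hc]; ring
    calc _ ≤ ((cnt a x - X : ℕ) : ℝ) := by exact_mod_cast h3
      _ ≤ G x := by rw [this]; exact hX2
  · rw [Nat.sub_eq_zero_of_le hc] at h3
    have : (((range M).filter (fun k => a (k + 1) ≤ x ∧ (x : ℤ) < p (k + 1))).card : ℝ) ≤ 0 := by
      exact_mod_cast h3
    linarith [hG0 x]

theorem finite_bound (hp : IsChi p) (h : Seq a) (s q : ℕ → ℝ) (hs0 : s 0 = 0) (hq0 : q 0 = 0)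
    (hr : ∀ k, RowOK (fun i => (p i : ℝ)) s q k) (M : ℕ) :
    ∃ n, ∑ k ∈ range M, 1 / (a (k + 1) : ℝ) ≤ ∑ k ∈ range n, 1 / (p (k + 1) : ℝ) := by
  have hpM : 0 ≤ p M := le_trans (by positivity) (hp.ge M)
  obtain ⟨n, hn⟩ := Int.eq_ofNat_of_zero_le hpM
  have hMn : M ≤ n := by have := hp.ge M; omega
  have hsn : (n : ℝ) ≤ s n := by
    rcases Nat.eq_zero_or_pos n with h0 | h0
    · rw [h0, hs0]; simp
    · obtain ⟨k, rfl⟩ : ∃ k, n = k + 1 := ⟨n - 1, by omega⟩
      refine le_trans ?_ (hr k).ps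
      exact_mod_cast hp.ge (k + 1)
  have h1 := gain_bound hp h M n hn.le
    (fun x => ∑ k ∈ range n, ch a (fun i => (p i : ℝ)) s q k x)
    (fun x => Finset.sum_nonneg fun k _ => ch_nonneg _ _ _ _ _)
    (fun x hx => pointwise hp h s q hs0 hq0 n x hsn hx)
  have h2 : ∑ x ∈ range n, (∑ k ∈ range n, ch a (fun i => (p i : ℝ)) s q k x) * om x ≤
      ∑ k ∈ range n, max 0 (1 / (p (k + 1) : ℝ) - 1 / a (k + 1)) := by
    simp_rw [Finset.sum_mul]
    rw [Finset.sum_comm]
    exact Finset.sum_le_sum fun k _ => row_bound hp h s q k n (hr k)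
  refine ⟨n, ?_⟩
  obtain ⟨c, rfl⟩ := Nat.exists_eq_add_of_le hMn
  replace h2 := h1.trans h2
  rw [Finset.sum_range_add] at h2 ⊢
  have h3 : ∑ k ∈ range M, 1 / (a (k + 1) : ℝ) = ∑ k ∈ range M, 1 / (p (k + 1) : ℝ) +
      ∑ k ∈ range M, max 0 (1 / (a (k + 1) : ℝ) - 1 / p (k + 1)) -
      ∑ k ∈ range M, max 0 (1 / (p (k + 1) : ℝ) - 1 / a (k + 1)) := by
    rw [← Finset.sum_add_distrib, ← Finset.sum_sub_distrib]
    refine Finset.sum_congr rfl fun k _ => ?_
    rcases le_total (1 / (a (k + 1) : ℝ)) (1 / p (k + 1)) with hc | hc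
    · rw [max_eq_left (by linarith), max_eq_right (by linarith)]; ring
    · rw [max_eq_right (by linarith), max_eq_left (by linarith)]; ring
  have h4 : ∑ k ∈ range c, max 0 (1 / (p (M + k + 1) : ℝ) - 1 / a (M + k + 1)) ≤
      ∑ k ∈ range c, 1 / (p (M + k + 1) : ℝ) := by
    refine Finset.sum_le_sum fun k _ => ?_
    have h5 : (0 : ℝ) ≤ p (M + k + 1) := by
      exact_mod_cast le_trans (by positivity) (hp.ge (M + k + 1))
    have h6 : (0 : ℝ) ≤ 1 / a (M + k + 1) := by positivity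
    apply max_le (by positivity) (by linarith)
  linarith

end Pool.Agent.H65.Chi
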