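import Pool.Agent.H65.Chi4

/-! The finite checker. -/

namespace Pool.Agent.H65.Chi

open Finset

def qt : List ℕ := [0, 10, 24, 45, 71, 103, 140, 180, 221, 276, 331, 388, 434, 495, 562, 635, 693,
  755, 818, 883, 949, 1015, 1081, 1177, 1272, 1369, 1437, 1504, 1574, 1686, 1799, 1909, 1987, 2067,
  2152, 2281, 2414, 2546, 2638, 2733, 2833]

def qf (k : ℕ) (pk : ℚ) : ℚ :=
  if k ≤ 40 then (qt.getD k 0 : ℕ) / 10 else if k ≤ 210 then (390 + k) / 300 * pk else 2 * pk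

def expLow (L : ℚ) : ℚ := (1 + L / 32 + (L / 32) ^ 2 / 2 + (L / 32) ^ 3 / 6) ^ 32

def rnd (y : ℚ) : ℚ := ((y * 1024).floor : ℚ) / 1024

def go (base K D q P LR r Lr : ℚ) : ℕ → ℚ → ℚ → Bool
  | 0, y, _ => decide (base + LR / K + 1 / max (q + (y - 1) * D) (P + 1) ≤ 1 / P)
  | f + 1, y, L => decide (base + LR / K + 1 / max (q + (y - 1) * D) (P + 1) ≤ 1 / P) ||
      (decide (0 < rnd (y * r)) &&
        decide (base + min (L + Lr) ((1 - 1 / rnd (y * r)) * LR) / K +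
          1 / max (q + (y - 1) * D) (P + 1) ≤ 1 / P) &&
        go base K D q P LR r Lr f (rnd (y * r)) (L + Lr))

def rowCore (k P S Q D W0 W1 c0 LR E r Lr : ℚ) : Bool :=
  decide (S ≤ Q) && decide (0 < D) && decide (k + 2 < (k + 1) * D + Q + 1) && decide (S ≤ P + 1) &&
  decide ((k + 2) / (1 - (k + 2) / ((k + 1) * D + Q + 1)) ≤ E) &&
  (decide (Q < P + 1) || decide (min W0 c0 + (P + 1 - S) * W1 ≤ 1 / P - 1 / (P + 1))) &&
  (decide (Q < P + 2) || (decide (c0 + (P + 2 - S) * W1 ≤ 1 / P - 1 / (P + 2)) &&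
    decide (c0 + (Q - S) * W1 ≤ 1 / P - 1 / Q))) &&
  go (c0 + (Q - S) * W1) ((k + 1) * (k + 2)) D Q P LR r Lr 100 1 0

def wq (k x y : ℚ) : ℚ := 1 / ((k + 1) * (k + 2) * x) - 1 / ((k + 2) * (k + 3) * y + 1)

def rowCheck (j u0 u1 u2 u3 u4 : ℕ) (LR E r Lr : ℚ) : Bool :=
  rowCore (j + 1) u2 ((u1 + u2 + u3) / 3) (qf (j + 2) u2) (qf (j + 2) u2 - qf (j + 1) u1)
    (wq (j + 1) (u2 - u1) (u3 - u2)) (wq (j + 1) ((u3 - u0) / 3) ((u4 - u1) / 3))
    (((u1 + u2 + u3) / 3 - u2) * wq (j + 1) (u2 - u1) (u3 - u2) +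
      (if j = 0 then 361 / 10000 else (j + 2) / (j + 3) * wq (j + 1) (u2 - u1) (u3 - u2)))
    LR E r Lr

def tab : List ℕ := [0, 1, 2, 4, 6, 9, 12, 15, 18, 21, 24, 28, 32, 36, 40, 45, 50, 55, 60, 65, 70,
  75, 80, 85, 90, 96, 102, 108, 114, 120, 126, 133, 140, 147, 154, 161, 168, 176, 184, 192, 200,
  208, 216, 225, 234, 243, 252, 261, 270, 280, 290, 300, 310, 320, 330, 341, 352, 363, 374, 385,
  396, 407, 418, 429, 440, 451, 462, 473, 484, 495, 506, 517, 528, 540, 552, 564, 576, 588, 600,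
  612, 624, 637, 650, 663, 676, 689, 702, 715, 728, 742, 756, 770, 784, 798, 812, 826, 840, 855,
  870, 885, 900, 915, 930, 945, 960, 975, 990, 1005, 1020, 1035, 1050, 1065, 1080, 1095, 1110, 1125,
  1140, 1155, 1170, 1185, 1200, 1216, 1232, 1248, 1264, 1280]

def force (x : ℕ) (f : ℕ → Bool) : Bool :=
  match x with
  | 0 => f 0
  | n + 1 => f (n + 1)

theorem force_eq (x : ℕ) (f : ℕ → Bool) : force x f = f x := by cases x <;> rfl

def rows (chk : ℕ → ℕ → ℕ → ℕ → ℕ → ℕ → Bool) (m : ℕ) (l : List ℕ) :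
    ℕ → ℕ → ℕ → ℕ → ℕ → ℕ → Bool
  | 0, _, _, _, _, _ => true
  | c + 1, j, u0, u1, u2, u3 => force (find m l (j + 4)) fun u4 =>
      decide (u4 ≠ 0) && chk j u0 u1 u2 u3 u4 &&
        force (j + 1) fun j' => rows chk m l c j' u1 u2 u3 u4

def run (chk : ℕ → ℕ → ℕ → ℕ → ℕ → ℕ → Bool) (j c m : ℕ) : Bool :=
  decide (m < tab.length) &&
  decide (m = 0 ∨ tab.getD m 0 + m * (tab.getD m 0 - tab.getD (m - 1) 0) ≤ j) &&
  decide (j = 0 ∨ find 0 tab j ≠ 0) && decide (find 0 tab (j + 1) ≠ 0) &&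
  decide (find 0 tab (j + 2) ≠ 0) && decide (find 0 tab (j + 3) ≠ 0) &&
  rows chk m (tab.drop m) c j (find 0 tab j) (find 0 tab (j + 1)) (find 0 tab (j + 2))
    (find 0 tab (j + 3))

def chunk (j c m L rn rd Lr : ℕ) : Bool :=
  decide ((rn : ℚ) / rd ≤ expLow (Lr / 10000)) && decide (0 < (rn : ℚ) / rd) &&
  run (fun j u0 u1 u2 u3 u4 => rowCheck j u0 u1 u2 u3 u4 (L / 100) (rnd (expLow (L / 100)))
    ((rn : ℚ) / rd) (Lr / 10000)) j c m

def natCore (K P L a0 b0 a1 b1 : ℕ) : Bool :=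
  Nat.ble (100 * (P * P) * b0) (55 * a0 * b0 + 100 * (P * P) * a0) &&
  Nat.ble (12 * (P * P) * b1) (a1 * b1 + 12 * (P * P) * a1) &&
  Nat.ble (300000 * (P * P) * b1 * K + 1000 * L * P * (a1 * b1))
    (49900 * K * (a1 * b1) + 300000 * (P * P) * a1 * K)

def natRow (L j u0 u1 u2 u3 u4 : ℕ) : Bool :=
  Nat.ble 41 (u2 - u1) && natCore ((j + 2) * (j + 3)) u2 L ((j + 2) * (j + 3) * (u2 - u1))
    ((j + 3) * (j + 4) * (u3 - u2) + 1) ((j + 2) * (j + 3) * (u3 - u0))
    ((j + 3) * (j + 4) * (u4 - u1) + 3)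

def chunkN (j c m L : ℕ) : Bool :=
  decide (598 ≤ j) && decide (80 / 79 * ((j : ℚ) + c + 2) ≤ expLow (L / 100)) &&
  run (natRow L) j c m

theorem expLow_le (L : ℚ) (hL : 0 ≤ L) : (expLow L : ℝ) ≤ Real.exp L := by
  have hL' : (0 : ℝ) ≤ (L : ℝ) / 32 := by positivity
  have h1 := Real.sum_le_exp_of_nonneg hL' 4
  simp only [Finset.sum_range_succ, Finset.sum_range_zero, Nat.factorial] at h1
  have e : Real.exp L = Real.exp ((L : ℝ) / 32) ^ 32 := by
    rw [← Real.exp_nat_mul]; congr 1; push_cast; ring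
  rw [e]
  unfold expLow
  push_cast
  apply pow_le_pow_left₀ (by positivity)
  norm_num at h1 ⊢
  linarith

theorem log_le_of {y : ℝ} {L : ℚ} (hy : 0 < y) (hL : 0 ≤ L) (h : y ≤ (expLow L : ℝ)) :
    Real.log y ≤ L := by
  rw [Real.log_le_iff_le_exp hy]
  exact h.trans (expLow_le L hL)

theorem rnd_le (y : ℚ) : rnd y ≤ y := by
  unfold rnd
  rw [div_le_iff₀ (by norm_num)]
  exact Rat.floor_le _

theorem go_sound (base K D q P LR r Lr : ℚ) (hK : 0 < K) (hD : 0 < D) (hP : 0 < P) (hLR : 0 ≤ LR)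
    (hr : 0 < r) (hlr : Real.log r ≤ Lr) (b : ℝ) (hb1 : (P : ℝ) + 1 ≤ b) (hb2 : (q : ℝ) < b) :
    ∀ (f : ℕ) (y L : ℚ), 0 < y → Real.log y ≤ L → (q : ℝ) + (y - 1) * D ≤ b →
      go base K D q P LR r Lr f y L = true →
      (base : ℝ) + min (Real.log (1 + (b - q) / D)) ((b - q) / (D + (b - q)) * LR) / K + 1 / b ≤
        1 / P := by
  have hK' : (0 : ℝ) < K := by exact_mod_cast hK
  have hD' : (0 : ℝ) < D := by exact_mod_cast hD
  have hP' : (0 : ℝ) < P := by exact_mod_cast hP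
  have hLR' : (0 : ℝ) ≤ LR := by exact_mod_cast hLR
  have hr' : (0 : ℝ) < r := by exact_mod_cast hr
  have hz : 0 < b - q := by linarith
  have hinv : ∀ y : ℚ, (q : ℝ) + (y - 1) * D ≤ b →
      1 / b ≤ 1 / max ((q : ℝ) + (y - 1) * D) (P + 1) := fun y hy =>
    one_div_le_one_div_of_le (lt_max_of_lt_right (by linarith)) (max_le hy hb1)
  have fin : ∀ y : ℚ, (q : ℝ) + (y - 1) * D ≤ b →
      base + LR / K + 1 / max (q + (y - 1) * D) (P + 1) ≤ 1 / P →
      (base : ℝ) + min (Real.log (1 + (b - q) / D)) ((b - q) / (D + (b - q)) * LR) / K + 1 / b ≤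
        1 / P := by
    intro y hy h
    have h' := (Rat.cast_le (K := ℝ)).mpr h
    push_cast at h'
    have h1 : (b - q) / (D + (b - q)) * LR ≤ LR := by
      apply mul_le_of_le_one_left hLR'
      rw [div_le_one (by linarith)]; linarith
    have h2 := div_le_div_of_nonneg_right ((min_le_right
      (Real.log (1 + (b - q) / D)) _).trans h1) hK'.le
    linarith [hinv y hy]
  intro f
  induction f with
  | zero => intro y L _ _ hy h; exact fin y hy (by simpa [go] using h)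
  | succ f ih =>
    intro y L hy0 hyL hy h
    simp only [go, Bool.or_eq_true, Bool.and_eq_true, decide_eq_true_eq] at h
    rcases h with h | ⟨⟨h1, h2⟩, h3⟩
    · exact fin y hy h
    · have hy0' : (0 : ℝ) < y := by exact_mod_cast hy0
      have h1' : (0 : ℝ) < rnd (y * r) := by exact_mod_cast h1
      have h4 : Real.log (rnd (y * r) : ℝ) ≤ ((L + Lr : ℚ) : ℝ) := by
        have h5 : (rnd (y * r) : ℝ) ≤ (y : ℝ) * r := by exact_mod_cast rnd_le (y * r)
        have h6 := Real.log_le_log h1' h5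
        rw [Real.log_mul hy0'.ne' hr'.ne'] at h6
        push_cast; linarith
      rcases le_total ((q : ℝ) + (rnd (y * r) - 1) * D) b with hc | hc
      · exact ih _ _ h1 h4 hc h3
      · have h' := (Rat.cast_le (K := ℝ)).mpr h2
        push_cast at h' h4
        set Y : ℝ := (rnd (y * r) : ℝ) with hY
        have h5 : 1 + (b - q) / D ≤ Y := by
          have : (b - q) / D ≤ Y - 1 := by rw [div_le_iff₀ hD']; linarith
          linarith
        have h6 : Real.log (1 + (b - q) / D) ≤ L + Lr :=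
          (Real.log_le_log (by positivity) h5).trans h4
        have h7 : (b - q) / (D + (b - q)) ≤ 1 - 1 / Y := by
          have e : (b - q) / (D + (b - q)) = 1 - 1 / (1 + (b - q) / D) := by
            field_simp; ring
          rw [e]
          have := one_div_le_one_div_of_le (by positivity) h5
          linarith
        have h8 := div_le_div_of_nonneg_right (min_le_min h6
          (mul_le_mul_of_nonneg_right h7 hLR')) hK'.le
        linarith [hinv y hy]

theorem main_of (P : ℤ) (S Q D K W0 W1 c0 LR R : ℝ) (hP : 1 ≤ P) (hS : S ≤ P + 1) (hSQ : S ≤ Q)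
    (hK : 0 < K) (hD : 0 < D) (hW1 : 0 ≤ W1) (hR : Real.log R ≤ LR)
    (H1 : Q < P + 1 ∨ min W0 c0 + (P + 1 - S) * W1 ≤ 1 / P - 1 / (P + 1))
    (H2 : Q < P + 2 ∨ (c0 + (P + 2 - S) * W1 ≤ 1 / P - 1 / (P + 2) ∧
      c0 + (Q - S) * W1 ≤ 1 / P - 1 / Q))
    (H3 : ∀ b : ℝ, (P : ℝ) + 1 ≤ b → Q < b → c0 + (Q - S) * W1 +
      min (Real.log (1 + (b - Q) / D)) ((b - Q) / (D + (b - Q)) * LR) / K + 1 / b ≤ 1 / P)
    (b : ℕ) (T : ℝ) (hb : (P : ℝ) + 1 ≤ b) (h1 : (b : ℝ) ≤ Q → T ≤ 0)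
    (h2 : Q < b → T ≤ Real.log (1 + (b - Q) / D) / K ∧
      T ≤ (b - Q) / (D + (b - Q)) * Real.log R / K) :
    min ((b - P) * W0) c0 + max 0 (min (b : ℝ) Q - S) * W1 + T ≤ 1 / P - 1 / b := by
  have hP' : (1 : ℝ) ≤ P := by exact_mod_cast hP
  rcases le_or_gt (b : ℝ) Q with hc | hc
  · have hT := h1 hc
    rw [min_eq_left hc, max_eq_right (by linarith)]
    have hb' : P + 1 ≤ (b : ℤ) := by exact_mod_cast hb
    rcases hb'.lt_or_eq with hb2 | hb2
    · have hb3 : (P : ℝ) + 2 ≤ b := by exact_mod_cast (show P + 2 ≤ (b : ℤ) by omega)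
      rcases H2 with H | ⟨Ha, Hb⟩
      · linarith
      have h3 := min_le_right ((b - P) * W0) c0
      set u : ℝ := P + 2 with hu
      have hu0 : 0 < u := by linarith
      have hQ0 : 0 < Q := by linarith
      have hb0 : (0 : ℝ) < b := by linarith
      have h4 : 1 / (b : ℝ) ≤ (u + Q - b) / (u * Q) := by
        rw [div_le_div_iff₀ hb0 (by positivity)]
        nlinarith [mul_nonneg (sub_nonneg.mpr hb3) (sub_nonneg.mpr hc)]
      have e1 : (u + Q - b) / (u * Q) = 1 / u - (b - u) * (1 / (u * Q)) := by field_simp; ring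
      have e2 : (u + Q - b) / (u * Q) = 1 / Q + (Q - b) * (1 / (u * Q)) := by field_simp; ring
      rcases le_total W1 (1 / (u * Q)) with h5 | h5
      · have := mul_le_mul_of_nonneg_left h5 (sub_nonneg.mpr hb3)
        nlinarith
      · have := mul_le_mul_of_nonneg_left h5 (sub_nonneg.mpr hc)
        nlinarith
    · have hb3 : (b : ℝ) = P + 1 := by exact_mod_cast hb2.symm
      rcases H1 with H | H
      · linarith
      rw [hb3, show ((P : ℝ) + 1 - P) * W0 = W0 by ring]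
      linarith
  · obtain ⟨h3, h4⟩ := h2 hc
    have h5 := H3 b hb hc
    rw [min_eq_right hc.le, max_eq_right (by linarith)]
    have h6 := min_le_right ((b - P) * W0) c0
    have h7 : (b - Q) / (D + (b - Q)) * Real.log R / K ≤ (b - Q) / (D + (b - Q)) * LR / K := by
      apply div_le_div_of_nonneg_right _ hK.le
      apply mul_le_mul_of_nonneg_left hR
      apply div_nonneg <;> linarith
    have h8 : T ≤ min (Real.log (1 + (b - Q) / D)) ((b - Q) / (D + (b - Q)) * LR) / K := by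
      rw [← min_div_div_right hK.le]
      exact le_min h3 (h4.trans h7)
    linarith

noncomputable def sF (p : ℕ → ℤ) : ℕ → ℝ
  | 0 => 0
  | i + 1 => ((p i : ℝ) + p (i + 1) + p (i + 2)) / 3

noncomputable def qF (p : ℕ → ℤ) (k : ℕ) : ℝ := (qf k (p k) : ℚ)

variable {p : ℕ → ℤ}

theorem d_real (hp : IsChi p) {i j : ℕ} (h : i ≤ j) :
    (p (i + 1) : ℝ) - p i ≤ (p (j + 1) : ℝ) - p j := by exact_mod_cast hp.d_mono h

theorem d_real_pos (hp : IsChi p) (i : ℕ) : (1 : ℝ) ≤ (p (i + 1) : ℝ) - p i := by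
  exact_mod_cast hp.d_pos i

theorem ps_ok (hp : IsChi p) (k : ℕ) : (p (k + 1) : ℝ) ≤ sF p (k + 1) := by
  have := d_real hp (Nat.le_succ k)
  simp only [sF]; linarith

theorem al_s (j : ℕ) : al (sF p) (j + 1) =
    ((j : ℝ) + 1 + 1) * (j + 1 + 2) * (((p (j + 3) : ℝ) - p j) / 3) := by
  unfold al
  simp only [sF]
  push_cast
  ring

theorem a1_ok (hp : IsChi p) (j : ℕ) : 0 < al (sF p) (j + 1) := by
  rw [al_s]
  have := d_real_pos hp j
  have := d_real_pos hp (j + 1)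
  have := d_real_pos hp (j + 2)
  have : 0 < ((p (j + 3) : ℝ) - p j) / 3 := by linarith
  positivity

theorem a2_ok (hp : IsChi p) (j : ℕ) : al (sF p) (j + 1) ≤ al (sF p) (j + 1 + 1) + 1 := by
  rw [al_s, al_s]
  have := d_real_pos hp j
  have := d_real_pos hp (j + 1)
  have := d_real_pos hp (j + 2)
  have h1 : (p (j + 1) : ℝ) - p j ≤ (p (j + 1 + 3) : ℝ) - p (j + 3) := d_real hp (by omega)
  have hj : (0 : ℝ) ≤ j := by positivity
  have : ((j : ℝ) + 1 + 1) * (j + 1 + 2) * (((p (j + 3) : ℝ) - p j) / 3) ≤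
      (((j + 1 : ℕ) : ℝ) + 1 + 1) * (((j + 1 : ℕ) : ℝ) + 1 + 2) *
        (((p (j + 1 + 3) : ℝ) - p (j + 1)) / 3) := by
    push_cast
    apply mul_le_mul (by nlinarith) (by linarith) (by linarith) (by positivity)
  linarith

theorem W_nonneg {u : ℕ → ℝ} {k : ℕ} (h1 : 0 < al u k) (h2 : al u k ≤ al u (k + 1) + 1) :
    0 ≤ W u k := by
  have := one_div_le_one_div_of_le h1 h2
  unfold W; linarith

theorem F_gen (hp : IsChi p) (k n : ℕ) : ∑ x ∈ range n,
    (if al (fun i => (p i : ℝ)) k ≤ x ∧ (x : ℝ) ≤ al (fun i => (p i : ℝ)) (k + 1)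
      then fr (k + 2) x * om x else 0) ≤ ((k : ℝ) + 1) / (k + 2) * W (fun i => (p i : ℝ)) k := by
  have hW0 := block _ _ (al_p_pos hp k) (al_p_le hp k) n
  refine le_trans ?_ (mul_le_mul_of_nonneg_left hW0 (by positivity))
  rw [Finset.mul_sum]
  refine Finset.sum_le_sum fun x _ => ?_
  split_ifs
  · apply mul_le_mul_of_nonneg_right _ (om_nonneg x)
    have := fr_le (k + 1) x
    push_cast at this
    rwa [show (k : ℝ) + 1 + 1 = k + 2 by ring] at this
  · simp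

theorem F_two (h1 : p 1 = 1) (h2 : p 2 = 2) (h3 : p 3 = 4) (n : ℕ) : ∑ x ∈ range n,
    (if al (fun i => (p i : ℝ)) 1 ≤ x ∧ (x : ℝ) ≤ al (fun i => (p i : ℝ)) (1 + 1)
      then fr (1 + 2) x * om x else 0) ≤ 361 / 10000 := by
  have e1 : al (fun i => (p i : ℝ)) 1 = 6 := by simp [al, h1, h2]; norm_num
  have e2 : al (fun i => (p i : ℝ)) (1 + 1) = 24 := by simp [al, h2, h3]; norm_num
  rw [e1, e2, ← Finset.sum_filter]
  refine le_trans (Finset.sum_le_sum_of_subset_of_nonneg (t := Ico 6 25) ?_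
    (fun x _ _ => mul_nonneg (fr_nonneg _ _) (om_nonneg _))) ?_
  · intro x hx
    simp only [mem_filter, mem_Ico] at hx ⊢
    have h4 : 6 ≤ x := by exact_mod_cast hx.2.1
    have h5 : x ≤ 24 := by exact_mod_cast hx.2.2
    omega
  · rw [Finset.sum_Ico_eq_sum_range]
    simp only [Finset.sum_range_succ, Finset.sum_range_zero, fr, om]
    norm_num

theorem W_p (j : ℕ) : W (fun i => (p i : ℝ)) (j + 1) =
    (wq (j + 1) (p (j + 2) - p (j + 1)) (p (j + 3) - p (j + 2)) : ℚ) := by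
  unfold W al wq
  push_cast
  ring_nf

theorem W_s (j : ℕ) : W (sF p) (j + 1) =
    (wq (j + 1) ((p (j + 3) - p j) / 3) ((p (j + 4) - p (j + 1)) / 3) : ℚ) := by
  unfold W wq
  rw [al_s, al_s]
  push_cast
  ring_nf

theorem rowCheck_sound (hp : IsChi p) (j u0 u1 u2 u3 u4 : ℕ) (LR E r Lr : ℚ)
    (e0 : p j = u0) (e1 : p (j + 1) = u1) (e2 : p (j + 2) = u2) (e3 : p (j + 3) = u3)
    (e4 : p (j + 4) = u4) (h13 : p 2 = 2 ∧ p 3 = 4)
    (hLR : 0 ≤ LR) (hE : E ≤ expLow LR) (hr : 0 < r) (hlr : Real.log r ≤ Lr)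
    (h : rowCheck j u0 u1 u2 u3 u4 LR E r Lr = true) :
    RowOK (fun i => (p i : ℝ)) (sF p) (qF p) (j + 1) := by
  have c0 : (u0 : ℚ) = p j := by rw [e0]; simp
  have c1 : (u1 : ℚ) = p (j + 1) := by rw [e1]; simp
  have c2 : (u2 : ℚ) = p (j + 2) := by rw [e2]; simp
  have c3 : (u3 : ℚ) = p (j + 3) := by rw [e3]; simp
  have c4 : (u4 : ℚ) = p (j + 4) := by rw [e4]; simp
  unfold rowCheck at h
  rw [c0, c1, c2, c3, c4] at h
  set W0 := wq (j + 1) (p (j + 2) - p (j + 1)) (p (j + 3) - p (j + 2)) with hW0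
  set W1 := wq (j + 1) ((p (j + 3) - p j) / 3) ((p (j + 4) - p (j + 1)) / 3) with hW1
  set F : ℚ := if j = 0 then 361 / 10000 else (j + 2) / (j + 3) * W0 with hF
  set S : ℚ := ((p (j + 1) : ℚ) + p (j + 2) + p (j + 3)) / 3 with hS
  set Q := qf (j + 2) (p (j + 2)) with hQ
  set Q' := qf (j + 1) (p (j + 1)) with hQ'
  simp only [rowCore, Bool.or_eq_true, Bool.and_eq_true, decide_eq_true_eq] at h
  obtain ⟨⟨⟨⟨⟨⟨⟨g1, g2⟩, g3⟩, g4⟩, g5⟩, g6⟩, g7⟩, g8⟩ := h
  have eS : sF p (j + 1 + 1) = S := by rw [hS]; simp only [sF]; push_cast; rfl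
  have eQ : qF p (j + 1 + 1) = Q := rfl
  have eQ' : qF p (j + 1) = Q' := rfl
  have eW0 : W (fun i => (p i : ℝ)) (j + 1) = W0 := W_p j
  have eW1 : W (sF p) (j + 1) = W1 := W_s j
  have g1' := (Rat.cast_le (K := ℝ)).mpr g1
  have g2' := (Rat.cast_lt (K := ℝ)).mpr g2
  have g3' := (Rat.cast_lt (K := ℝ)).mpr g3
  have g4' := (Rat.cast_le (K := ℝ)).mpr g4
  have g5' := (Rat.cast_le (K := ℝ)).mpr (g5.trans hE)
  push_cast at g1' g2' g3' g4' g5'
  have hP1 : 1 ≤ p (j + 2) := by have := hp.ge (j + 2); push_cast at this; omega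
  have hj : (0 : ℝ) ≤ j := by positivity
  refine ⟨ps_ok hp _, by rw [eS, eQ]; exact g1', by rw [eQ, eQ']; linarith, a1_ok hp j,
    a2_ok hp j, by rw [eQ, eQ']; push_cast; exact g3', F, fun n => ?_, fun b T hb t1 t2 => ?_⟩
  · rw [hF]
    split_ifs with h0
    · subst h0
      have := F_two hp.one h13.1 h13.2 n
      push_cast
      exact this
    · refine (F_gen hp (j + 1) n).trans (le_of_eq ?_)
      rw [eW0]; push_cast; ring
  · rw [eS, eQ, eW0, eW1]
    rw [eQ] at t1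
    rw [eQ, eQ'] at t2
    have hRpos : 0 < Rr (j + 1) (Q - Q') Q := by
      unfold Rr
      push_cast
      apply div_pos (by positivity)
      have : ((j : ℝ) + 1 + 2) / ((j + 1 + 1) * (Q - Q') + Q + 1) < 1 := by
        rw [div_lt_one (by linarith)]; exact g3'
      linarith
    have hR : Real.log (Rr (j + 1) (Q - Q') Q) ≤ LR := by
      apply log_le_of hRpos hLR
      unfold Rr; push_cast; exact g5'
    refine main_of (p (j + 2)) S Q (Q - Q') _ W0 W1 _ LR _ hP1 g4' g1' (by positivity)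
      g2' (by rw [← eW1]; exact W_nonneg (a1_ok hp j) (a2_ok hp j)) hR ?_ ?_ ?_ b T hb t1 t2
    · rcases g6 with g | g
      · left; exact_mod_cast g
      · right; exact_mod_cast g
    · rcases g7 with g | ⟨g, g'⟩
      · left; exact_mod_cast g
      · right; exact ⟨by exact_mod_cast g, by exact_mod_cast g'⟩
    · intro b hb1 hb2
      have := go_sound _ _ _ _ _ _ _ _ (by positivity) g2 (by exact_mod_cast hP1) hLR hr hlr b
        (by push_cast; exact hb1) hb2 100 1 0 one_pos (by simp) (by push_cast; linarith) g8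
      push_cast at this ⊢
      exact this

end Pool.Agent.H65.Chi
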