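import Pool.Agent.H65.Chi5

namespace Pool.Agent.H65.Chi

theorem cq0 : chunk 0 1 0 177 9 8 1178 = true := by decide +kernel

theorem cq1 : chunk 1 1 0 181 17 16 607 = true := by decide +kernel

theorem cq2 : chunk 2 1 1 193 33 32 308 = true := by decide +kernel

theorem cq3 : chunk 3 1 1 204 9 8 1178 = true := by decide +kernel

theorem cq4 : chunk 4 1 2 216 9 8 1178 = true := by decide +kernel

theorem cq5 : chunk 5 1 2 227 9 8 1178 = true := by decide +kernel

theorem cq6 : chunk 6 1 2 238 9 8 1178 = true := by decide +kernel

theorem cq7 : chunk 7 1 2 244 9 8 1178 = true := by decide +kernel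

theorem cq8 : chunk 8 1 2 253 9 8 1178 = true := by decide +kernel

theorem cq9 : chunk 9 1 2 261 5 4 2232 = true := by decide +kernel

theorem cq10 : chunk 10 1 3 271 5 4 2232 = true := by decide +kernel

theorem cq11 : chunk 11 1 3 276 5 4 2232 = true := by decide +kernel

theorem cq12 : chunk 12 1 3 282 5 4 2232 = true := by decide +kernel

theorem cq13 : chunk 13 1 3 287 3 2 4055 = true := by decide +kernel

theorem cq14 : chunk 14 1 4 295 3 2 4055 = true := by decide +kernel

theorem cq15 : chunk 15 1 4 300 3 2 4055 = true := by decide +kernel

theorem cq16 : chunk 16 1 4 305 3 2 4055 = true := by decide +kernel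

theorem cq17 : chunk 17 1 4 310 3 2 4055 = true := by decide +kernel

theorem cq18 : chunk 18 4 4 326 3 2 4055 = true := by decide +kernel

theorem cq22 : chunk 22 4 4 343 3 2 4055 = true := by decide +kernel

theorem cq26 : chunk 26 4 5 353 3 2 4055 = true := by decide +kernel

theorem cq30 : chunk 30 4 6 364 2 1 6932 = true := by decide +kernel

theorem cq34 : chunk 34 4 6 376 2 1 6932 = true := by decide +kernel

theorem cq38 : chunk 38 4 7 384 2 1 6932 = true := by decide +kernel

theorem cq42 : chunk 42 4 8 392 2 1 6932 = true := by decide +kernel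

theorem cq46 : chunk 46 4 8 400 2 1 6932 = true := by decide +kernel

theorem cq50 : chunk 50 4 9 407 2 1 6932 = true := by decide +kernel

theorem cq54 : chunk 54 4 10 414 2 1 6932 = true := by decide +kernel

theorem cq58 : chunk 58 10 10 429 2 1 6932 = true := by decide +kernel

theorem cq68 : chunk 68 10 10 442 2 1 6932 = true := by decide +kernel

theorem cq78 : chunk 78 10 11 453 2 1 6932 = true := by decide +kernel

theorem cq88 : chunk 88 10 13 464 2 1 6932 = true := by decide +kernel

theorem cq98 : chunk 98 10 14 473 2 1 6932 = true := by decide +kernel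

theorem cq108 : chunk 108 10 14 482 2 1 6932 = true := by decide +kernel

theorem cq118 : chunk 118 10 14 489 2 1 6932 = true := by decide +kernel

theorem cq128 : chunk 128 10 15 497 2 1 6932 = true := by decide +kernel

theorem cq138 : chunk 138 10 16 503 2 1 6932 = true := by decide +kernel

theorem cq148 : chunk 148 10 17 510 2 1 6932 = true := by decide +kernel

theorem cq158 : chunk 158 10 18 516 2 1 6932 = true := by decide +kernel

theorem cq168 : chunk 168 10 19 521 2 1 6932 = true := by decide +kernel

theorem cq178 : chunk 178 10 20 527 2 1 6932 = true := by decide +kernel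

theorem cq188 : chunk 188 10 21 532 2 1 6932 = true := by decide +kernel

end Pool.Agent.H65.Chi
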