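import Pool.Agent.H65.Chi5

namespace Pool.Agent.H65.Chi

theorem cq198 : chunk 198 20 22 541 2 1 6932 = true := by decide +kernel

theorem cq218 : chunk 218 20 24 550 2 1 6932 = true := by decide +kernel

theorem cq238 : chunk 238 20 24 558 2 1 6932 = true := by decide +kernel

theorem cq258 : chunk 258 20 26 565 2 1 6932 = true := by decide +kernel

theorem cq278 : chunk 278 20 27 572 2 1 6932 = true := by decide +kernel

theorem cq298 : chunk 298 20 29 578 2 1 6932 = true := by decide +kernel

theorem cq318 : chunk 318 20 30 585 2 1 6932 = true := by decide +kernel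

theorem cq338 : chunk 338 20 30 590 2 1 6932 = true := by decide +kernel

theorem cq358 : chunk 358 20 31 596 2 1 6932 = true := by decide +kernel

theorem cq378 : chunk 378 20 33 601 2 1 6932 = true := by decide +kernel

end Pool.Agent.H65.Chi
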