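import Pool.Agent.H65.Chi5

namespace Pool.Agent.H65.Chi

theorem cq398 : chunk 398 20 34 606 2 1 6932 = true := by decide +kernel

theorem cq418 : chunk 418 20 35 610 2 1 6932 = true := by decide +kernel

theorem cq438 : chunk 438 20 36 615 2 1 6932 = true := by decide +kernel

theorem cq458 : chunk 458 20 36 619 2 1 6932 = true := by decide +kernel

theorem cq478 : chunk 478 20 37 623 2 1 6932 = true := by decide +kernel

theorem cq498 : chunk 498 20 38 627 2 1 6932 = true := by decide +kernel

theorem cq518 : chunk 518 20 39 631 2 1 6932 = true := by decide +kernel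

theorem cq538 : chunk 538 20 41 634 2 1 6932 = true := by decide +kernel

theorem cq558 : chunk 558 20 42 638 2 1 6932 = true := by decide +kernel

theorem cq578 : chunk 578 20 42 641 2 1 6932 = true := by decide +kernel

end Pool.Agent.H65.Chi
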