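import Pool.Agent.H65.Chi5

namespace Pool.Agent.H65.Chi

theorem cn598 : chunkN 598 100 42 657 = true := by decide +kernel

theorem cn698 : chunkN 698 100 47 670 = true := by decide +kernel

theorem cn798 : chunkN 798 100 50 682 = true := by decide +kernel

theorem cn898 : chunkN 898 100 54 693 = true := by decide +kernel

theorem cn998 : chunkN 998 100 57 702 = true := by decide +kernel

theorem cn1098 : chunkN 1098 100 61 711 = true := by decide +kernel

theorem cn1198 : chunkN 1198 100 66 719 = true := by decide +kernel

theorem cn1298 : chunkN 1298 100 71 726 = true := by decide +kernel

theorem cn1398 : chunkN 1398 100 72 733 = true := by decide +kernel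

theorem cn1498 : chunkN 1498 100 76 740 = true := by decide +kernel

theorem cn1598 : chunkN 1598 100 80 746 = true := by decide +kernel

theorem cn1698 : chunkN 1698 100 81 752 = true := by decide +kernel

theorem cn1798 : chunkN 1798 100 85 757 = true := by decide +kernel

theorem cn1898 : chunkN 1898 100 88 762 = true := by decide +kernel

theorem cn1998 : chunkN 1998 100 89 767 = true := by decide +kernel

theorem cn2098 : chunkN 2098 100 92 772 = true := by decide +kernel

theorem cn2198 : chunkN 2198 100 96 776 = true := by decide +kernel

theorem cn2298 : chunkN 2298 100 96 780 = true := by decide +kernel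

theorem cn2398 : chunkN 2398 100 99 785 = true := by decide +kernel

theorem cn2498 : chunkN 2498 100 103 788 = true := by decide +kernel

theorem cn2598 : chunkN 2598 100 106 792 = true := by decide +kernel

theorem cn2698 : chunkN 2698 100 109 796 = true := by decide +kernel

theorem cn2798 : chunkN 2798 100 113 799 = true := by decide +kernel

theorem cn2898 : chunkN 2898 100 116 803 = true := by decide +kernel

theorem cn2998 : chunkN 2998 100 119 806 = true := by decide +kernel

theorem cn3098 : chunkN 3098 100 120 809 = true := by decide +kernel

end Pool.Agent.H65.Chi
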