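import Pool.Agent.H65.Chi5

/-! The first row and the rows from 3200 on. -/

namespace Pool.Agent.H65.Chi

open Finset

variable {p : ℕ → ℤ}

theorem tab_ext (hp : IsChi p) (n n' : ℕ) (h : ∀ j < n, p j = (tab.getD j 0 : ℕ))
    (chk : ∀ j < n', j = 0 ∨ (find 0 (tab.take n) j = tab.getD j 0 ∧ tab.getD j 0 ≠ 0)) :
    ∀ j < n', p j = (tab.getD j 0 : ℕ) := by
  intro j hj
  rcases chk j hj with rfl | ⟨h1, h2⟩
  · rw [hp.zero]; rfl
  · rw [← h1]
    refine find_spec hp j _ 0 (fun i hi => ?_) (fun i hi => absurd hi (Nat.not_lt_zero _))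
      (by rw [h1]; exact h2)
    have hi' : i < n := by simp at hi; omega
    rw [zero_add, h i hi']
    simp [List.getD_eq_getElem?_getD, List.getElem?_take, hi']

theorem tab_ok (hp : IsChi p) : ∀ j < tab.length, p j = (tab.getD j 0 : ℕ) := by
  have h2 : ∀ j < 2, p j = (tab.getD j 0 : ℕ) := by
    intro j hj
    interval_cases j
    · exact hp.zero
    · exact hp.one
  have h3 := tab_ext hp 2 3 h2 (by decide +kernel)
  have h5 := tab_ext hp 3 5 h3 (by decide +kernel)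
  have h15 := tab_ext hp 5 15 h5 (by decide +kernel)
  have h97 := tab_ext hp 15 97 h15 (by decide +kernel)
  exact tab_ext hp 97 _ h97 (by decide +kernel)

theorem find_ok (hp : IsChi p) (i : ℕ) (h : find 0 tab i ≠ 0) : p i = find 0 tab i :=
  find_spec hp i tab 0 (fun j hj => by rw [zero_add]; exact tab_ok hp j hj)
    (fun i hi => absurd hi (Nat.not_lt_zero _)) h

theorem row_one (hp : IsChi p) : RowOK (fun i => (p i : ℝ)) (sF p) (qF p) 0 := by
  have p0 := hp.zero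
  have p1 := hp.one
  have p2 : p 2 = 2 := tab_ok hp 2 (by decide +kernel)
  have p3 : p 3 = 4 := tab_ok hp 3 (by decide +kernel)
  have q0 : qF p 0 = 0 := by simp [qF, qf, qt]
  have q1 : qF p 1 = 1 := by simp [qF, qf, qt]
  have s1 : sF p 1 = 1 := by simp [sF, p0, p1, p2]; norm_num
  have s2 : sF p 2 = 7 / 3 := by simp [sF, p1, p2, p3]; norm_num
  have a0 : al (sF p) 0 = 2 := by simp [al, s1, sF, p0, p1, p2]; norm_num
  have a1 : al (sF p) (0 + 1) = 8 := by simp [al, s1, s2]; norm_num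
  have w0 : W (fun i => (p i : ℝ)) 0 = 5 / 14 := by simp [W, al, p0, p1, p2]; norm_num
  refine ⟨ps_ok hp _, by rw [zero_add, s1, q1], by rw [zero_add, q0, q1]; norm_num,
    by rw [a0]; norm_num, by rw [a0, a1]; norm_num, by rw [zero_add, q0, q1]; norm_num,
    7 / 120, fun n => ?_, fun b T hb _ h => ?_⟩
  · have e1 : al (fun i => (p i : ℝ)) 0 = 2 := by simp [al, p0, p1]
    have e2 : al (fun i => (p i : ℝ)) (0 + 1) = 6 := by simp [al, p1, p2]; norm_num
    rw [e1, e2, ← Finset.sum_filter]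
    refine le_trans (Finset.sum_le_sum_of_subset_of_nonneg (t := Ico 2 7) ?_
      (fun x _ _ => mul_nonneg (fr_nonneg _ _) (om_nonneg _))) ?_
    · intro x hx
      simp only [mem_filter, mem_Ico] at hx ⊢
      have h4 : 2 ≤ x := by exact_mod_cast hx.2.1
      have h5 : x ≤ 6 := by exact_mod_cast hx.2.2
      omega
    · rw [Finset.sum_Ico_eq_sum_range]
      simp only [Finset.sum_range_succ, Finset.sum_range_zero, fr, om]
      norm_num
  simp only [zero_add, p1, s1, q0, q1, w0] at hb h ⊢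
  push_cast at hb h ⊢
  obtain ⟨h1, h2⟩ := h (by linarith)
  rw [min_eq_right (show (1 : ℝ) ≤ b by linarith)]
  have e2 : max (0 : ℝ) (1 - 1) = 0 := by norm_num
  rw [e2]
  have h3 := min_le_right (((b : ℝ) - 1) * (5 / 14)) ((1 - 1) * (5 / 14) + 7 / 120)
  have hb2 : 2 ≤ b := by exact_mod_cast (show (2 : ℝ) ≤ b by linarith)
  rcases hb2.lt_or_eq with hb3 | hb3
  · have hb4 : (3 : ℝ) ≤ b := by exact_mod_cast hb3
    have eR : Rr 0 (1 - 0) 1 = 6 := by unfold Rr; norm_num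
    have hl : Real.log 6 ≤ ((9 / 5 : ℚ) : ℝ) :=
      log_le_of (by norm_num) (by norm_num) (by
        have : (6 : ℚ) ≤ expLow (9 / 5) := by decide +kernel
        exact_mod_cast this)
    have e3 : ((b : ℝ) - 1) / (1 - 0 + (b - 1)) = 1 - 1 / b := by
      have : (1 : ℝ) - 0 + (b - 1) = b := by ring
      rw [this]; field_simp
    rw [eR, e3] at h2
    have h4 : 1 / (b : ℝ) ≤ 1 / 3 := one_div_le_one_div_of_le (by norm_num) hb4
    have h5 := mul_le_mul_of_nonneg_left hl (show 0 ≤ 1 - 1 / (b : ℝ) by linarith)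
    push_cast at h5
    linarith
  · subst hb3
    have := Real.log_two_lt_d9
    norm_num at h1 h3 ⊢
    have h6 := min_le_right (5 / 14 : ℝ) (7 / 120)
    linarith

theorem small_d (hp : IsChi p) (i : ℕ) (hi : 10 ≤ i) : 2 * d p i ≤ i + 1 := by
  obtain ⟨l, h1, h2⟩ := hp.ex_m i (by omega)
  rw [hp.dseg l i h1 h2]
  rcases Nat.lt_or_ge l 2 with h | h
  · omega
  · have h3 := hp.d_two l h
    have h4 := hp.ge (l + 1)
    unfold t at h1
    push_cast at h4
    have : (0 : ℤ) ≤ l := by positivity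
    nlinarith

theorem cube_exp (n : ℕ) (hn : 16 ≤ n) : 21 / 10 * ((n : ℝ) + 1) ^ 3 ≤ Real.exp (3 / 5 * n) := by
  induction n, hn using Nat.le_induction with
  | base =>
    have h1 := expLow_le (48 / 5) (by norm_num)
    have h2 : (10318 : ℚ) ≤ expLow (48 / 5) := by decide +kernel
    have h3 := (Rat.cast_le (K := ℝ)).mpr h2
    push_cast at h1 h3 ⊢
    rw [show (3 / 5 * 16 : ℝ) = 48 / 5 by norm_num]
    linarith
  | succ n hn ih =>
    have h1 := Real.add_one_le_exp (3 / 5 : ℝ)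
    have hn' : (16 : ℝ) ≤ n := by exact_mod_cast hn
    push_cast
    rw [show (3 / 5 * (n + 1) : ℝ) = 3 / 5 * n + 3 / 5 by ring, Real.exp_add]
    have h2 : ((n : ℝ) + 1 + 1) ^ 3 ≤ ((n : ℝ) + 1) ^ 3 * (3 / 5 + 1) := by
      have h3 : (n : ℝ) + 1 + 1 ≤ (n + 1) * (11 / 10) := by linarith
      have h4 := pow_le_pow_left₀ (by positivity) h3 3
      rw [mul_pow] at h4
      have : (0 : ℝ) ≤ ((n : ℝ) + 1) ^ 3 := by positivity
      nlinarith
    calc _ ≤ 21 / 10 * ((n : ℝ) + 1) ^ 3 * (3 / 5 + 1) := by linarith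
      _ ≤ _ := mul_le_mul ih h1 (by norm_num) (by positivity)

theorem Wb (k e e' c g P : ℝ) (hg : 121 ≤ g) (hge : g ≤ e) (hk : 24 * g ≤ k) (he' : 0 < e')
    (hc : e' ≤ e + c) (hc0 : 0 ≤ c) (hP0 : 0 < P) (hP : P ≤ 0.672 * k * (g + 1)) :
    1 / (k * (k + 1) * e) - 1 / ((k + 1) * (k + 2) * e' + 1) ≤ 0.46 * (1 / 8 + c) / P ^ 2 := by
  have hk0 : 0 < k := by linarith
  have he : 0 < e := by linarith
  have h1 : (k + 1) * (k + 2) * e' + 1 ≤ (k + 1) * (k + 3) * (e + c) := by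
    have : (k + 1) * (k + 2) * e' ≤ (k + 1) * (k + 2) * (e + c) :=
      mul_le_mul_of_nonneg_left hc (by positivity)
    nlinarith
  have h2 := one_div_le_one_div_of_le (by positivity) h1
  have e1 : 1 / (k * (k + 1) * e) - 1 / ((k + 1) * (k + 3) * (e + c)) =
      3 / (k * (k + 1) * (k + 3) * e) + c / ((k + 1) * (k + 3) * e * (e + c)) := by
    field_simp; ring
  have hg0 : 0 < g := by linarith
  have h3 : 3 / (k * (k + 1) * (k + 3) * e) ≤ (1 / 8) / (k * g) ^ 2 := by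
    rw [div_le_div_iff₀ (by positivity) (by positivity)]
    have : k * k * (24 * g) * g ≤ k * (k + 1) * (k + 3) * e := by
      apply mul_le_mul _ hge hg0.le (by positivity)
      apply mul_le_mul (by nlinarith) (by linarith) (by positivity) (by positivity)
    nlinarith
  have h4 : c / ((k + 1) * (k + 3) * e * (e + c)) ≤ c / (k * g) ^ 2 := by
    apply div_le_div_of_nonneg_left hc0 (by positivity)
    have : k * k * g * g ≤ (k + 1) * (k + 3) * e * (e + c) := by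
      apply mul_le_mul _ (by linarith) hg0.le (by positivity)
      apply mul_le_mul (by nlinarith) hge hg0.le (by positivity)
    nlinarith
  have h5 : (1 / 8 + c) / (k * g) ^ 2 ≤ 0.46 * (1 / 8 + c) / P ^ 2 := by
    rw [div_le_div_iff₀ (by positivity) (by positivity)]
    have h6 : P ≤ 0.678 * (k * g) := by nlinarith [mul_pos hk0 hg0]
    have h7 := pow_le_pow_left₀ hP0.le h6 2
    have h8 : P ^ 2 ≤ 0.46 * (k * g) ^ 2 := by nlinarith [sq_nonneg (k * g)]
    nlinarith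
  have e2 : (1 / 8 + c) / (k * g) ^ 2 = (1 / 8) / (k * g) ^ 2 + c / (k * g) ^ 2 := by ring
  linarith

theorem big_facts (hp : IsChi p) (k : ℕ) (hk : 3200 ≤ k) : ∃ g D : ℕ, 121 ≤ g ∧ 16 ≤ D ∧
    d p k = g + 1 ∧ 1000 * p k ≤ 672 * k * (g + 1) ∧ 3 * g * D ≤ 2 * k ∧ k ≤ 2 * (D + 1) ^ 3 := by
  obtain ⟨m, h1, h2⟩ := hp.ex_m k (by omega)
  have p120 : p 120 = 1200 := tab_ok hp 120 (by decide +kernel)
  have p121 : p 121 = 1216 := tab_ok hp 121 (by decide +kernel)
  have d120 : d p 120 = 16 := by simp [d, p120, p121]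
  have t120 : t p 120 = 3152 := by simp [t, d120, p121]
  have hm : 120 ≤ m := by
    by_contra hc
    have := hp.t_strict.monotone (show m + 1 ≤ 120 by omega)
    omega
  have hD : 16 ≤ d p m := d120 ▸ hp.d_mono hm
  obtain ⟨D, hDe⟩ := Int.eq_ofNat_of_zero_le (show 0 ≤ d p m by omega)
  have e1 := hp.dseg m k h1 h2
  have e2 := hp.seg' m k h1 h2.le
  have h3 := hp.half (m + 1) (by omega)
  have h4 := hp.d_succ m
  have h5 : d p (m + 1) ≤ d p m + 1 :=
    (hp.d_mono (show m + 1 ≤ m + 3 by omega)).trans (hp.jump m (by omega))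
  have e3 : p (m + 1 + 1) = p (m + 1) + d p (m + 1) := by simp [d]
  have h6 := hp.le_mul_d (m + 1)
  obtain ⟨n, h7, h8⟩ := hp.ex_m (m + 1) (by omega)
  have e4 := hp.dseg n (m + 1) h7 h8
  have h9 := small_d hp (n + 1) (by omega)
  have h10 := hp.le_mul_d (n + 1)
  have hm' : (120 : ℤ) ≤ m := by exact_mod_cast hm
  have hk' : (3200 : ℤ) ≤ k := by exact_mod_cast hk
  have hn' : (0 : ℤ) ≤ n := by positivity
  unfold t at h1 h2 h8
  push_cast at *
  refine ⟨m + 1, D, by omega, by omega, by rw [e1]; push_cast; ring, ?_, ?_, ?_⟩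
  · have h11 : 100 * (k : ℤ) ≤ 304 * p (m + 1) := by nlinarith
    rw [e2]; push_cast
    nlinarith
  · have : 3 * ((m : ℤ) + 1) * D ≤ 2 * k := by nlinarith
    exact_mod_cast this
  · have h11 : (m : ℤ) + 2 ≤ (n + 2) ^ 2 := by nlinarith
    have h12 : (n : ℤ) + 2 ≤ D + 1 := by omega
    have h13 : (k : ℤ) ≤ 2 * ((m + 2) * (n + 2)) := by nlinarith
    have h14 : ((m : ℤ) + 2) * (n + 2) ≤ (n + 2) ^ 3 := by nlinarith
    have h15 := pow_le_pow_left₀ (by positivity) h12 3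
    have : (k : ℤ) ≤ 2 * (D + 1) ^ 3 := by linarith
    exact_mod_cast this

theorem n1 (P u : ℝ) (hPu : P * u = 1) (hu0 : 0 < u) (hu1 : u ≤ 1 / 3200) (hP0 : 0 < P) :
    1 / (P + 1) ≤ u - 0.9 * u ^ 2 ∧ 1 / (P + 2) ≤ u - 1.5 * u ^ 2 ∧ u ^ 2 ≤ u / 3200 := by
  have e : u ^ 2 * P = u := by rw [pow_two, mul_assoc, mul_comm u P, hPu, mul_one]
  have h : u ^ 2 ≤ u / 3200 := by nlinarith
  refine ⟨?_, ?_, h⟩
  · rw [div_le_iff₀ (by linarith)]; nlinarith
  · rw [div_le_iff₀ (by linarith)]; nlinarith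

theorem n2 (k g D P : ℝ) (hg : 121 ≤ g) (hD : 16 ≤ D) (hk : 3200 ≤ k)
    (f1 : 1000 * P ≤ 672 * k * (g + 1)) (f2 : 3 * g * D ≤ 2 * k) :
    3 / 5 * D * P ≤ 0.272 * (k * (k + 1)) ∧ 24 * g ≤ k := by
  have h8 : D * (g + 1) ≤ 122 / 121 * (2 * k / 3) := by nlinarith
  have h9 : D * P ≤ 0.672 * k * (D * (g + 1)) := by nlinarith
  have h10 : 0.672 * k * (D * (g + 1)) ≤ 0.672 * k * (122 / 121 * (2 * k / 3)) :=
    mul_le_mul_of_nonneg_left h8 (by positivity)
  constructor <;> nlinarith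

theorem n3 (k x P : ℝ) (hk : 600 ≤ k) (hx : 82 ≤ x) (hP : 0 < P) :
    80 * (k + 1) ≤ k * x + 2 * P + 1 := by nlinarith

theorem row_gen (hp : IsChi p) (j : ℕ) (hj : 598 ≤ j) (A1 A2 LR : ℝ) (hP3 : 3200 ≤ (p (j + 2) : ℝ))
    (hd : 41 ≤ (p (j + 2) : ℝ) - p (j + 1)) (hs : (p (j + 3) : ℝ) - p (j + 2) ≤ p (j + 2) - p (j + 1) + 1)
    (w0 : W (fun i => (p i : ℝ)) (j + 1) ≤ 0.55 / (p (j + 2) : ℝ) ^ 2)
    (w1 : W (sF p) (j + 1) ≤ A1 / (p (j + 2) : ℝ) ^ 2) (hA1 : A1 ≤ 0.25) (hA : A1 + A2 ≤ 0.499)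
    (hLR0 : 0 ≤ LR) (hLR : Real.log (80 / 79 * ((j : ℝ) + 2 + 1)) ≤ LR)
    (hA2 : LR * p (j + 2) ≤ A2 * (((j : ℝ) + 2) * (j + 2 + 1))) :
    RowOK (fun i => (p i : ℝ)) (sF p) (qF p) (j + 1) := by
  have eQ : qF p (j + 1 + 1) = 2 * p (j + 2) := by
    unfold qF qf; rw [if_neg (by omega), if_neg (by omega)]; push_cast; rfl
  have eQ' : qF p (j + 1) = 2 * p (j + 1) := by
    unfold qF qf; rw [if_neg (by omega), if_neg (by omega)]; push_cast; rfl
  have eS : sF p (j + 1 + 1) = ((p (j + 1) : ℝ) + p (j + 2) + p (j + 3)) / 3 := rfl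
  have m2 : (p (j + 2) : ℝ) - p (j + 1) ≤ p (j + 3) - p (j + 2) := d_real hp (Nat.le_succ (j + 1))
  set k : ℝ := (j : ℝ) + 2 with hk
  have hk' : (600 : ℝ) ≤ k := by
    have : (598 : ℝ) ≤ j := by exact_mod_cast hj
    linarith
  have hP1 : 1 ≤ p (j + 2) := by have := hp.ge (j + 2); push_cast at this; omega
  clear hj
  set P : ℝ := (p (j + 2) : ℝ) with hP
  have hP0 : 0 < P := by linarith
  have w00 := W_nonneg (al_p_pos hp (j + 1)) (al_p_le hp (j + 1))
  have w10 := W_nonneg (a1_ok hp j) (a2_ok hp j)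
  have hM : 80 * (k + 1) ≤ k * (2 * P - 2 * p (j + 1)) + 2 * P + 1 :=
    n3 k _ P hk' (by linarith) hP0
  refine ⟨ps_ok hp _, by rw [eS, eQ]; linarith, by rw [eQ, eQ']; linarith, a1_ok hp j,
    a2_ok hp j, by
      rw [eQ, eQ']; push_cast
      have e : (j : ℝ) + 1 + 1 = k := by rw [hk]; ring
      rw [e]; linarith, _, F_gen hp (j + 1),
    fun b T hb t1 t2 => ?_⟩
  rw [eS, eQ]
  rw [eQ] at t1
  rw [eQ, eQ'] at t2
  set W0 := W (fun i => (p i : ℝ)) (j + 1) with hW0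
  set W1 := W (sF p) (j + 1) with hW1
  set S : ℝ := ((p (j + 1) : ℝ) + P + p (j + 3)) / 3 with hS
  have hS1 : P ≤ S := by linarith
  have hS2 : S ≤ P + 1 / 3 := by linarith
  have hR : Real.log (Rr (j + 1) (2 * P - 2 * p (j + 1)) (2 * P)) ≤ LR := by
    have e : Rr (j + 1) (2 * P - 2 * p (j + 1)) (2 * P) =
        (k + 1) / (1 - (k + 1) / (k * (2 * P - 2 * p (j + 1)) + 2 * P + 1)) := by
      unfold Rr; rw [hk]; push_cast; ring_nf
    have h1 : (k + 1) / (k * (2 * P - 2 * p (j + 1)) + 2 * P + 1) ≤ 1 / 80 := by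
      rw [div_le_div_iff₀ (by linarith) (by norm_num)]; linarith
    rw [e]
    refine le_trans (Real.log_le_log (div_pos (by linarith) (by linarith)) ?_) hLR
    rw [div_le_iff₀ (by linarith)]
    have := mul_le_mul_of_nonneg_left h1 (show 0 ≤ k + 1 by linarith)
    linarith
  set c0 := (S - P) * W0 + (((j + 1 : ℕ) : ℝ) + 1) / (((j + 1 : ℕ) : ℝ) + 2) * W0 with hc0
  have hc : c0 ≤ 4 / 3 * W0 := by
    have h1 : (((j + 1 : ℕ) : ℝ) + 1) / (((j + 1 : ℕ) : ℝ) + 2) ≤ 1 := by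
      rw [div_le_one (by positivity)]; linarith
    have h2 := mul_le_mul_of_nonneg_right h1 w00
    have h3 := mul_le_mul_of_nonneg_right (show S - P ≤ 1 / 3 by linarith) w00
    linarith
  set u := 1 / P with hu
  have hu0 : 0 < u := by positivity
  have hu1 : u ≤ 1 / 3200 := one_div_le_one_div_of_le (by norm_num) (by linarith)
  have hPu : P * u = 1 := by rw [hu]; field_simp
  have w0' : W0 ≤ 0.55 * u ^ 2 := by
    refine w0.trans (le_of_eq ?_); rw [hu]; field_simp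
  have w1' : W1 ≤ A1 * u ^ 2 := by
    refine w1.trans (le_of_eq ?_); rw [hu]; field_simp
  have w1'' : W1 ≤ 0.25 * u ^ 2 := w1'.trans (mul_le_mul_of_nonneg_right hA1 (sq_nonneg u))
  have hPW : (2 * P - S) * W1 ≤ A1 * u := by
    calc _ ≤ P * (A1 * u ^ 2) := mul_le_mul (by linarith) w1' w10 hP0.le
      _ = A1 * u * (P * u) := by ring
      _ = _ := by rw [hPu, mul_one]
  have hA1u := mul_le_mul_of_nonneg_right hA1 hu0.le
  have hAu := mul_le_mul_of_nonneg_right hA hu0.le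
  obtain ⟨hn1, hn1', huu⟩ := n1 P u hPu hu0 hu1 hP0
  refine main_of (p (j + 2)) S (2 * P) (2 * P - 2 * p (j + 1)) _ W0 W1 c0 LR _ hP1
    (by linarith) (by linarith) (by positivity) (by linarith) w10 hR ?_ ?_ ?_ b T hb t1 t2
  · right
    rw [← hP, ← hu]
    have h1 := min_le_left W0 c0
    have h2 := mul_le_mul_of_nonneg_right (show P + 1 - S ≤ 1 by linarith) w10
    linarith [sq_nonneg u]
  · right
    rw [← hP, ← hu]
    have h2 := mul_le_mul_of_nonneg_right (show P + 2 - S ≤ 2 by linarith) w10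
    have h4 : 1 / (2 * P) = u / 2 := by rw [hu]; field_simp
    constructor
    · linarith [sq_nonneg u]
    · rw [h4]; linarith
  · intro b _ hb2
    rw [← hP, ← hu]
    have h4 : 1 / b ≤ u / 2 := by
      have : 1 / (2 * P) = u / 2 := by rw [hu]; field_simp
      rw [← this]; exact one_div_le_one_div_of_le (by linarith) hb2.le
    have h5 : (b - 2 * P) / (2 * P - 2 * p (j + 1) + (b - 2 * P)) * LR ≤ LR := by
      apply mul_le_of_le_one_left hLR0
      rw [div_le_one (by linarith)]; linarith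
    have h6 := div_le_div_of_nonneg_right ((min_le_right (Real.log (1 + (b - 2 * P) /
      (2 * P - 2 * p (j + 1)))) _).trans h5)
      (show (0 : ℝ) ≤ (((j + 1 : ℕ) : ℝ) + 1) * (((j + 1 : ℕ) : ℝ) + 2) by positivity)
    have h7 : LR / ((((j + 1 : ℕ) : ℝ) + 1) * (((j + 1 : ℕ) : ℝ) + 2)) ≤ A2 * u := by
      have e : (((j + 1 : ℕ) : ℝ) + 1) * (((j + 1 : ℕ) : ℝ) + 2) = k * (k + 1) := by
        rw [hk]; push_cast; ring
      rw [e, hu, mul_one_div, div_le_div_iff₀ (by positivity) hP0]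
      exact hA2
    linarith

theorem jump_real (hp : IsChi p) (j : ℕ) (hj : 2 ≤ j) :
    (p (j + 4) : ℝ) - p (j + 3) ≤ p (j + 1) - p j + 1 := by exact_mod_cast hp.jump j hj

theorem row_big (hp : IsChi p) (j : ℕ) (hj : 3200 ≤ j + 2) :
    RowOK (fun i => (p i : ℝ)) (sF p) (qF p) (j + 1) := by
  obtain ⟨g, D, hg, hD, e1, f1, f2, f3⟩ := big_facts hp (j + 2) hj
  have j1 := jump_real hp j (by omega)
  have m1 : (p (j + 1) : ℝ) - p j ≤ p (j + 2) - p (j + 1) := d_real hp (Nat.le_succ j)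
  have m2 : (p (j + 2) : ℝ) - p (j + 1) ≤ p (j + 3) - p (j + 2) := d_real hp (Nat.le_succ (j + 1))
  have m3 : (p (j + 3) : ℝ) - p (j + 2) ≤ p (j + 4) - p (j + 3) := d_real hp (Nat.le_succ (j + 2))
  have e1' : (p (j + 3) : ℝ) - p (j + 2) = g + 1 := by exact_mod_cast e1
  have hg' : (121 : ℝ) ≤ g := by exact_mod_cast hg
  have hD' : (16 : ℝ) ≤ D := by exact_mod_cast hD
  have hj' : 598 ≤ j := by omega
  set k : ℝ := (j : ℝ) + 2 with hk
  have hk' : (3200 : ℝ) ≤ k := by rw [hk]; exact_mod_cast hj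
  have f1' : 1000 * (p (j + 2) : ℝ) ≤ 672 * k * (g + 1) := by rw [hk]; exact_mod_cast f1
  have f2' : 3 * (g : ℝ) * D ≤ 2 * k := by rw [hk]; exact_mod_cast f2
  have f3' : k ≤ 2 * ((D : ℝ) + 1) ^ 3 := by rw [hk]; exact_mod_cast f3
  have hPk : k ≤ p (j + 2) := by rw [hk]; exact_mod_cast hp.ge (j + 2)
  have hcube := cube_exp D hD
  have gen := row_gen hp j hj' (0.46 * (1 / 8 + 1 / 3)) 0.272 (3 / 5 * D)
  clear hj f1 f2 f3 hg hD e1 hj'
  set P : ℝ := (p (j + 2) : ℝ) with hP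
  have hP0 : 0 < P := by linarith
  obtain ⟨hn2, h24⟩ := n2 k g D P hg' hD' hk' f1' f2'
  have w0 : W (fun i => (p i : ℝ)) (j + 1) ≤ 0.46 * (1 / 8 + 1) / P ^ 2 := by
    refine le_trans (le_of_eq ?_) (Wb k (P - p (j + 1)) (p (j + 3) - P) 1 g P hg' (by linarith) h24
      (by linarith) (by linarith) (by norm_num) hP0 (by linarith))
    unfold W al
    rw [hk, hP]; push_cast; ring_nf
  have w1 : W (sF p) (j + 1) ≤ 0.46 * (1 / 8 + 1 / 3) / P ^ 2 := by
    refine le_trans (le_of_eq ?_) (Wb k ((p (j + 3) - p j) / 3) ((p (j + 4) - p (j + 1)) / 3)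
      (1 / 3) g P hg' (by linarith) h24 (by linarith) (by linarith) (by norm_num) hP0 (by linarith))
    unfold W
    rw [al_s, al_s, hk]; push_cast; ring_nf
  refine gen (by linarith) (by linarith) (by linarith)
    (w0.trans (div_le_div_of_nonneg_right (by norm_num) (by positivity))) w1 (by norm_num)
    (by norm_num) (by positivity) ?_ hn2
  rw [Real.log_le_iff_le_exp (by linarith)]
  linarith

theorem n5 (P K L a0 b0 a1 b1 : ℝ) (hP : 0 < P) (hK : 0 < K) (ha0 : 0 < a0) (hb0 : 0 < b0)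
    (ha1 : 0 < a1) (hb1 : 0 < b1)
    (g1 : 100 * (P * P) * b0 ≤ 55 * a0 * b0 + 100 * (P * P) * a0)
    (g2 : 12 * (P * P) * b1 ≤ a1 * b1 + 12 * (P * P) * a1)
    (g3 : 300000 * (P * P) * b1 * K + 1000 * L * P * (a1 * b1) ≤
      49900 * K * (a1 * b1) + 300000 * (P * P) * a1 * K) :
    1 / a0 - 1 / b0 ≤ 0.55 / P ^ 2 ∧ P ^ 2 * (3 / a1 - 3 / b1) ≤ 0.25 ∧
      P ^ 2 * (3 / a1 - 3 / b1) + L / 100 * P / K ≤ 0.499 := by
  refine ⟨?_, ?_, ?_⟩
  · rw [div_sub_div _ _ ha0.ne' hb0.ne', div_le_div_iff₀ (by positivity) (by positivity)]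
    linarith
  · rw [div_sub_div _ _ ha1.ne' hb1.ne', ← mul_div_assoc, div_le_iff₀ (by positivity)]
    linarith
  · rw [div_sub_div _ _ ha1.ne' hb1.ne', ← mul_div_assoc,
      div_add_div _ _ (by positivity) hK.ne', div_le_iff₀ (by positivity)]
    linarith

theorem natRow_sound (hp : IsChi p) (L j u0 u1 u2 u3 u4 : ℕ) (hj : 598 ≤ j)
    (e0 : p j = u0) (e1 : p (j + 1) = u1) (e2 : p (j + 2) = u2) (e3 : p (j + 3) = u3)
    (e4 : p (j + 4) = u4) (hL : Real.log (80 / 79 * ((j : ℝ) + 2 + 1)) ≤ L / 100)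
    (h : natRow L j u0 u1 u2 u3 u4 = true) :
    RowOK (fun i => (p i : ℝ)) (sF p) (qF p) (j + 1) := by
  have l01 : u0 < u1 := by have : p j < p (j + 1) := hp.strict (by omega); omega
  have l12 : u1 < u2 := by have : p (j + 1) < p (j + 2) := hp.strict (by omega); omega
  have l23 : u2 < u3 := by have : p (j + 2) < p (j + 3) := hp.strict (by omega); omega
  have l34 : u3 < u4 := by have : p (j + 3) < p (j + 4) := hp.strict (by omega); omega
  simp only [natRow, natCore, Bool.and_eq_true, Nat.ble_eq] at h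
  obtain ⟨g0, ⟨g1, g2⟩, g3⟩ := h
  have g0' := (Nat.cast_le (α := ℝ)).mpr g0
  have g1' := (Nat.cast_le (α := ℝ)).mpr g1
  have g2' := (Nat.cast_le (α := ℝ)).mpr g2
  have g3' := (Nat.cast_le (α := ℝ)).mpr g3
  push_cast [l12.le, l23.le, show u0 ≤ u3 by omega, show u1 ≤ u4 by omega] at g0' g1' g2' g3'
  have c0 : (u0 : ℝ) = p j := by rw [e0]; simp
  have c1 : (u1 : ℝ) = p (j + 1) := by rw [e1]; simp
  have c2 : (u2 : ℝ) = p (j + 2) := by rw [e2]; simp
  have c3 : (u3 : ℝ) = p (j + 3) := by rw [e3]; simp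
  have c4 : (u4 : ℝ) = p (j + 4) := by rw [e4]; simp
  rw [c1, c2] at g0'
  rw [c1, c2, c3] at g1'
  rw [c0, c1, c2, c3, c4] at g2' g3'
  have j1 := jump_real hp j (by omega)
  have m0 := d_real_pos hp j
  have m1 : (p (j + 1) : ℝ) - p j ≤ p (j + 2) - p (j + 1) := d_real hp (Nat.le_succ j)
  have m2 : (p (j + 2) : ℝ) - p (j + 1) ≤ p (j + 3) - p (j + 2) := d_real hp (Nat.le_succ (j + 1))
  have m3 : (p (j + 3) : ℝ) - p (j + 2) ≤ p (j + 4) - p (j + 3) := d_real hp (Nat.le_succ (j + 2))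
  have hP3 : (3200 : ℝ) ≤ p (j + 2) := by
    have h0 : find 0 tab 250 = 4004 := by decide +kernel
    have h1 : p 250 = 4004 := by rw [find_ok hp 250 (by rw [h0]; norm_num), h0]; rfl
    have h2 := hp.strict.monotone (show 250 ≤ j + 2 by omega)
    have h3 : (3200 : ℤ) ≤ p (j + 2) := by omega
    exact_mod_cast h3
  have hj0 : (0 : ℝ) ≤ j := by positivity
  have x1 : 0 < (p (j + 2) : ℝ) - p (j + 1) := by linarith
  have x2 : 0 < (p (j + 3) : ℝ) - p (j + 2) := by linarith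
  have x3 : 0 < (p (j + 3) : ℝ) - p j := by linarith
  have x4 : 0 < (p (j + 4) : ℝ) - p (j + 1) := by linarith
  obtain ⟨k1, k2, k3⟩ := n5 _ _ _ _ _ _ _ (by linarith) (by positivity) (by positivity)
    (by positivity) (by positivity) (by positivity) g1' g2' g3'
  refine row_gen hp j hj _ _ (L / 100) hP3 g0' (by linarith) (le_trans (le_of_eq ?_) k1)
    (le_of_eq ?_) k2 k3 (by positivity) hL (le_of_eq ?_)
  · unfold W al
    push_cast; ring_nf
  · unfold W
    rw [al_s, al_s]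
    have : (0 : ℝ) < p (j + 2) := by linarith
    rw [mul_div_cancel_left₀ _ (by positivity)]
    push_cast
    have e : ((j : ℝ) + 1 + 1 + 1) * (j + 1 + 1 + 2) * ((p (j + 1 + 3) - p (j + 1)) / 3) + 1 =
        ((j + 3) * (j + 4) * (p (j + 4) - p (j + 1)) + 3) / 3 := by ring
    have e' : ((j : ℝ) + 1 + 1) * (j + 1 + 2) * ((p (j + 3) - p j) / 3) =
        ((j + 2) * (j + 3) * (p (j + 3) - p j)) / 3 := by ring
    rw [e, e', one_div_div, one_div_div]
  · field_simp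
    ring

end Pool.Agent.H65.Chi
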