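import Pool.Agent.H65.Chi7
import Pool.Agent.H65.Chi6A
import Pool.Agent.H65.Chi6B
import Pool.Agent.H65.Chi6C
import Pool.Agent.H65.Chi6D

/-! All rows, and the final estimate. -/

namespace Pool.Agent.H65.Chi

open Finset

variable {p : ℕ → ℤ}

theorem find_drop (hp : IsChi p) (m j i : ℕ) (hm : m < tab.length)
    (h : m = 0 ∨ tab.getD m 0 + m * (tab.getD m 0 - tab.getD (m - 1) 0) ≤ j) (hi : j ≤ i)
    (h0 : find m (tab.drop m) i ≠ 0) : p i = find m (tab.drop m) i := by
  refine find_spec hp i _ m (fun l hl => ?_) (fun l hl => ?_) h0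
  · rw [tab_ok hp (m + l) (by simp at hl; omega)]
    simp [List.getD_eq_getElem?_getD, List.getElem?_drop]
  · rcases h with h | h
    · omega
    obtain ⟨n, rfl⟩ : ∃ n, m = n + 1 := ⟨m - 1, by omega⟩
    refine (hp.t_strict.monotone (show l ≤ n by omega)).trans ?_
    have e1 := tab_ok hp (n + 1) hm
    have e0 := tab_ok hp n (by omega)
    have h1 : p n ≤ p (n + 1) := hp.strict.monotone (Nat.le_succ n)
    rw [e0, e1] at h1
    have h2 : tab.getD n 0 ≤ tab.getD (n + 1) 0 := by exact_mod_cast h1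
    have h3 := (Nat.cast_le (α := ℤ)).mpr (h.trans hi)
    rw [Nat.add_sub_cancel] at h3
    push_cast [h2] at h3
    unfold t d
    rw [e0, e1]
    exact h3

theorem rows_sound (hp : IsChi p) (chk : ℕ → ℕ → ℕ → ℕ → ℕ → ℕ → Bool) (m j0 n : ℕ)
    (hm : m < tab.length)
    (h : m = 0 ∨ tab.getD m 0 + m * (tab.getD m 0 - tab.getD (m - 1) 0) ≤ j0)
    (hchk : ∀ j u0 u1 u2 u3 u4 : ℕ, j0 ≤ j → j < n → p j = u0 → p (j + 1) = u1 → p (j + 2) = u2 →
      p (j + 3) = u3 → p (j + 4) = u4 → chk j u0 u1 u2 u3 u4 = true →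
      RowOK (fun i => (p i : ℝ)) (sF p) (qF p) (j + 1)) :
    ∀ (c j u0 u1 u2 u3 : ℕ), j0 ≤ j → j + c ≤ n → p j = u0 → p (j + 1) = u1 →
      p (j + 2) = u2 → p (j + 3) = u3 → rows chk m (tab.drop m) c j u0 u1 u2 u3 = true →
      ∀ i, j ≤ i → i < j + c → RowOK (fun i => (p i : ℝ)) (sF p) (qF p) (i + 1) := by
  intro c
  induction c with
  | zero => intro j _ _ _ _ _ _ _ _ _ _ _ i h1 h2; omega
  | succ c ih =>
    intro j u0 u1 u2 u3 hj hn e0 e1 e2 e3 hh i h1 h2
    simp only [rows, force_eq, Bool.and_eq_true, decide_eq_true_eq] at hh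
    obtain ⟨⟨g1, g2⟩, g3⟩ := hh
    have e4 := find_drop hp m j0 _ hm h (by omega) g1
    rcases h1.lt_or_eq with h3 | h3
    · exact ih (j + 1) _ _ _ _ (by omega) (by omega) e1 e2 e3 e4 g3 i h3 (by omega)
    · subst h3
      exact hchk j _ _ _ _ _ hj (by omega) e0 e1 e2 e3 e4 g2

def Upto (p : ℕ → ℤ) (n : ℕ) : Prop :=
  ∀ i < n, RowOK (fun i => (p i : ℝ)) (sF p) (qF p) (i + 1)

theorem run_sound (hp : IsChi p) (chk : ℕ → ℕ → ℕ → ℕ → ℕ → ℕ → Bool) (j0 c m : ℕ)
    (hchk : ∀ j u0 u1 u2 u3 u4 : ℕ, j0 ≤ j → j < j0 + c → p j = u0 → p (j + 1) = u1 →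
      p (j + 2) = u2 → p (j + 3) = u3 → p (j + 4) = u4 → chk j u0 u1 u2 u3 u4 = true →
      RowOK (fun i => (p i : ℝ)) (sF p) (qF p) (j + 1))
    (h0 : Upto p j0) (h : run chk j0 c m = true) : Upto p (j0 + c) := by
  intro i hi
  rcases Nat.lt_or_ge i j0 with h1 | h1
  · exact h0 i h1
  simp only [run, Bool.and_eq_true, decide_eq_true_eq] at h
  obtain ⟨⟨⟨⟨⟨⟨g1, g2⟩, g4⟩, g5⟩, g6⟩, g7⟩, g8⟩ := h
  refine rows_sound hp chk m j0 (j0 + c) g1 g2 hchk c j0 _ _ _ _ le_rfl le_rfl ?_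
    (find_ok hp _ g5) (find_ok hp _ g6) (find_ok hp _ g7) g8 i h1 hi
  rcases g4 with g | g
  · rw [g]; exact hp.zero
  · exact find_ok hp _ g

theorem stepQ (hp : IsChi p) {j c m L rn rd Lr : ℕ} (h0 : Upto p j)
    (h : chunk j c m L rn rd Lr = true) : Upto p (j + c) := by
  have p2 : p 2 = 2 := tab_ok hp 2 (by decide +kernel)
  have p3 : p 3 = 4 := tab_ok hp 3 (by decide +kernel)
  simp only [chunk, Bool.and_eq_true, decide_eq_true_eq] at h
  obtain ⟨⟨g1, g2⟩, g3⟩ := h
  refine run_sound hp _ j c m (fun i u0 u1 u2 u3 u4 _ _ e0 e1 e2 e3 e4 hh => ?_) h0 g3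
  exact rowCheck_sound hp i _ _ _ _ _ _ _ _ _ e0 e1 e2 e3 e4 ⟨p2, p3⟩ (by positivity) (rnd_le _) g2
    (log_le_of (by exact_mod_cast g2) (by positivity) (by exact_mod_cast g1)) hh

theorem stepN (hp : IsChi p) {j c m L : ℕ} (h0 : Upto p j)
    (h : chunkN j c m L = true) : Upto p (j + c) := by
  simp only [chunkN, Bool.and_eq_true, decide_eq_true_eq] at h
  obtain ⟨⟨g1, g2⟩, g3⟩ := h
  refine run_sound hp _ j c m (fun i u0 u1 u2 u3 u4 h1 h2 e0 e1 e2 e3 e4 hh => ?_) h0 g3
  refine natRow_sound hp L i _ _ _ _ _ (by omega) e0 e1 e2 e3 e4 ?_ hh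
  have h3 := log_le_of (y := 80 / 79 * ((i : ℝ) + 2 + 1)) (L := L / 100) (by positivity)
    (by positivity) (by
      have h4 := (Rat.cast_le (K := ℝ)).mpr g2
      have h5 : (i : ℝ) + 1 ≤ j + c := by exact_mod_cast h2
      push_cast at h4 ⊢
      linarith)
  push_cast at h3
  exact h3

theorem upto_all (hp : IsChi p) : Upto p 3198 := by
  have u0 : Upto p 0 := fun i hi => absurd hi (Nat.not_lt_zero _)
  have u1 : Upto p 1 := stepQ hp u0 cq0
  have u2 : Upto p 2 := stepQ hp u1 cq1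
  have u3 : Upto p 3 := stepQ hp u2 cq2
  have u4 : Upto p 4 := stepQ hp u3 cq3
  have u5 : Upto p 5 := stepQ hp u4 cq4
  have u6 : Upto p 6 := stepQ hp u5 cq5
  have u7 : Upto p 7 := stepQ hp u6 cq6
  have u8 : Upto p 8 := stepQ hp u7 cq7
  have u9 : Upto p 9 := stepQ hp u8 cq8
  have u10 : Upto p 10 := stepQ hp u9 cq9
  have u11 : Upto p 11 := stepQ hp u10 cq10
  have u12 : Upto p 12 := stepQ hp u11 cq11
  have u13 : Upto p 13 := stepQ hp u12 cq12
  have u14 : Upto p 14 := stepQ hp u13 cq13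
  have u15 : Upto p 15 := stepQ hp u14 cq14
  have u16 : Upto p 16 := stepQ hp u15 cq15
  have u17 : Upto p 17 := stepQ hp u16 cq16
  have u18 : Upto p 18 := stepQ hp u17 cq17
  have u22 : Upto p 22 := stepQ hp u18 cq18
  have u26 : Upto p 26 := stepQ hp u22 cq22
  have u30 : Upto p 30 := stepQ hp u26 cq26
  have u34 : Upto p 34 := stepQ hp u30 cq30
  have u38 : Upto p 38 := stepQ hp u34 cq34
  have u42 : Upto p 42 := stepQ hp u38 cq38
  have u46 : Upto p 46 := stepQ hp u42 cq42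
  have u50 : Upto p 50 := stepQ hp u46 cq46
  have u54 : Upto p 54 := stepQ hp u50 cq50
  have u58 : Upto p 58 := stepQ hp u54 cq54
  have u68 : Upto p 68 := stepQ hp u58 cq58
  have u78 : Upto p 78 := stepQ hp u68 cq68
  have u88 : Upto p 88 := stepQ hp u78 cq78
  have u98 : Upto p 98 := stepQ hp u88 cq88
  have u108 : Upto p 108 := stepQ hp u98 cq98
  have u118 : Upto p 118 := stepQ hp u108 cq108
  have u128 : Upto p 128 := stepQ hp u118 cq118
  have u138 : Upto p 138 := stepQ hp u128 cq128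
  have u148 : Upto p 148 := stepQ hp u138 cq138
  have u158 : Upto p 158 := stepQ hp u148 cq148
  have u168 : Upto p 168 := stepQ hp u158 cq158
  have u178 : Upto p 178 := stepQ hp u168 cq168
  have u188 : Upto p 188 := stepQ hp u178 cq178
  have u198 : Upto p 198 := stepQ hp u188 cq188
  have u218 : Upto p 218 := stepQ hp u198 cq198
  have u238 : Upto p 238 := stepQ hp u218 cq218
  have u258 : Upto p 258 := stepQ hp u238 cq238
  have u278 : Upto p 278 := stepQ hp u258 cq258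
  have u298 : Upto p 298 := stepQ hp u278 cq278
  have u318 : Upto p 318 := stepQ hp u298 cq298
  have u338 : Upto p 338 := stepQ hp u318 cq318
  have u358 : Upto p 358 := stepQ hp u338 cq338
  have u378 : Upto p 378 := stepQ hp u358 cq358
  have u398 : Upto p 398 := stepQ hp u378 cq378
  have u418 : Upto p 418 := stepQ hp u398 cq398
  have u438 : Upto p 438 := stepQ hp u418 cq418
  have u458 : Upto p 458 := stepQ hp u438 cq438
  have u478 : Upto p 478 := stepQ hp u458 cq458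
  have u498 : Upto p 498 := stepQ hp u478 cq478
  have u518 : Upto p 518 := stepQ hp u498 cq498
  have u538 : Upto p 538 := stepQ hp u518 cq518
  have u558 : Upto p 558 := stepQ hp u538 cq538
  have u578 : Upto p 578 := stepQ hp u558 cq558
  have u598 : Upto p 598 := stepQ hp u578 cq578
  have u698 : Upto p 698 := stepN hp u598 cn598
  have u798 : Upto p 798 := stepN hp u698 cn698
  have u898 : Upto p 898 := stepN hp u798 cn798
  have u998 : Upto p 998 := stepN hp u898 cn898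
  have u1098 : Upto p 1098 := stepN hp u998 cn998
  have u1198 : Upto p 1198 := stepN hp u1098 cn1098
  have u1298 : Upto p 1298 := stepN hp u1198 cn1198
  have u1398 : Upto p 1398 := stepN hp u1298 cn1298
  have u1498 : Upto p 1498 := stepN hp u1398 cn1398
  have u1598 : Upto p 1598 := stepN hp u1498 cn1498
  have u1698 : Upto p 1698 := stepN hp u1598 cn1598
  have u1798 : Upto p 1798 := stepN hp u1698 cn1698
  have u1898 : Upto p 1898 := stepN hp u1798 cn1798
  have u1998 : Upto p 1998 := stepN hp u1898 cn1898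
  have u2098 : Upto p 2098 := stepN hp u1998 cn1998
  have u2198 : Upto p 2198 := stepN hp u2098 cn2098
  have u2298 : Upto p 2298 := stepN hp u2198 cn2198
  have u2398 : Upto p 2398 := stepN hp u2298 cn2298
  have u2498 : Upto p 2498 := stepN hp u2398 cn2398
  have u2598 : Upto p 2598 := stepN hp u2498 cn2498
  have u2698 : Upto p 2698 := stepN hp u2598 cn2598
  have u2798 : Upto p 2798 := stepN hp u2698 cn2698
  have u2898 : Upto p 2898 := stepN hp u2798 cn2798
  have u2998 : Upto p 2998 := stepN hp u2898 cn2898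
  have u3098 : Upto p 3098 := stepN hp u2998 cn2998
  have u3198 : Upto p 3198 := stepN hp u3098 cn3098
  exact u3198

theorem all_rows (hp : IsChi p) (k : ℕ) : RowOK (fun i => (p i : ℝ)) (sF p) (qF p) k := by
  rcases k with _ | j
  · exact row_one hp
  rcases Nat.lt_or_ge j 3198 with h | h
  · exact upto_all hp j h
  · exact row_big hp j (by omega)

theorem cube_le (hp : IsChi p) (k : ℕ) : (k : ℤ) ^ 3 ≤ 9 * p k ^ 2 := by
  rcases Nat.lt_or_ge k 2 with h | h
  · interval_cases k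
    · simp [hp.zero]
    · simp [hp.one]
  obtain ⟨m, h1, h2⟩ := hp.ex_m k h
  have e1 := hp.dseg m k h1 h2
  have h3 := hp.half k h
  have h4 := hp.le_mul_d (m + 1)
  have h5 : d p (m + 1) ≤ m + 2 := by
    rcases Nat.eq_zero_or_pos m with rfl | hm
    · have p2 : p 2 = 2 := tab_ok hp 2 (by decide +kernel)
      simp [d, p2, hp.one]
    · obtain ⟨l, h6, h7⟩ := hp.ex_m (m + 1) (by omega)
      rw [hp.dseg l _ h6 h7]
      have := hp.t_ge l
      have h8 := hp.ge (l + 1)
      have h9 := hp.d_pos l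
      unfold t at h6
      push_cast at *
      nlinarith
  unfold t at h2
  push_cast at *
  rw [e1] at h3
  have hm : (0 : ℤ) ≤ m := by positivity
  have hk : (0 : ℤ) ≤ k := by positivity
  have h6 : (k : ℤ) ≤ 2 * (m + 2) ^ 2 := by nlinarith
  have h7 := pow_le_pow_left₀ (by positivity) h3 2
  have h8 : (k : ℤ) ^ 2 * k ≤ (k : ℤ) ^ 2 * (2 * (m + 2) ^ 2) :=
    mul_le_mul_of_nonneg_left h6 (by positivity)
  nlinarith [sq_nonneg (p k)]

theorem summable_p (hp : IsChi p) : Summable fun k => 1 / (p (k + 1) : ℝ) := by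
  have h1 : Summable fun k : ℕ => 1 / (k : ℝ) ^ (3 / 2 : ℝ) :=
    Real.summable_one_div_nat_rpow.mpr (by norm_num)
  have h2 := ((summable_nat_add_iff 1).mpr h1).mul_left 3
  have pos : ∀ k, (0 : ℝ) < p (k + 1) := fun k => by
    have := hp.ge (k + 1)
    have h3 : (0 : ℤ) < p (k + 1) := by push_cast at this; omega
    exact_mod_cast h3
  refine Summable.of_nonneg_of_le (fun k => by have := pos k; positivity) (fun k => ?_) h2
  have hk : (0 : ℝ) < ((k + 1 : ℕ) : ℝ) := by positivity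
  have h3 : ((k + 1 : ℕ) : ℝ) ^ (3 / 2 : ℝ) ≤ 3 * p (k + 1) := by
    refine le_of_sq_le_sq ?_ (by have := pos k; positivity)
    rw [← Real.rpow_natCast, ← Real.rpow_mul hk.le,
      show (3 / 2 * ((2 : ℕ) : ℝ) : ℝ) = ((3 : ℕ) : ℝ) by norm_num, Real.rpow_natCast]
    have : (((k + 1 : ℕ) : ℝ)) ^ 3 ≤ 9 * (p (k + 1) : ℝ) ^ 2 := by
      exact_mod_cast cube_le hp (k + 1)
    linarith
  rw [mul_one_div, div_le_div_iff₀ (pos k) (by positivity)]
  linarith

theorem main (hp : IsChi p) {a : ℕ → ℕ} (h : Seq a) :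
    Summable (fun k => 1 / (a (k + 1) : ℝ)) ∧
      ∑' k, 1 / (a (k + 1) : ℝ) ≤ ∑' k, 1 / (p (k + 1) : ℝ) := by
  have q0 : qF p 0 = 0 := by simp [qF, qf, qt]
  have key : ∀ M, ∑ k ∈ range M, 1 / (a (k + 1) : ℝ) ≤ ∑' k, 1 / (p (k + 1) : ℝ) := by
    intro M
    obtain ⟨n, hn⟩ := finite_bound hp h (sF p) (qF p) rfl q0 (all_rows hp) M
    refine hn.trans ((summable_p hp).sum_le_tsum _ fun k _ => ?_)
    have : (0 : ℝ) ≤ p (k + 1) := by
      exact_mod_cast le_trans (by positivity) (hp.ge (k + 1))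
    positivity
  exact ⟨summable_of_sum_range_le (fun k => by positivity) key,
    Real.tsum_le_of_sum_range_le (fun k => by positivity) key⟩

end Pool.Agent.H65.Chi
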