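import Mathlib

set_option autoImplicit false

namespace Pool.Agent.H65.ClonoidDefs

/-- A clonoid from the `R`-module `A` to the `S`-module `B`; `C n` is the set of its
`(n+1)`-ary members. -/
structure IsClonoid (R S : Type*) {A B : Type*} [Ring R] [Ring S] [AddCommGroup A] [Module R A]
    [AddCommGroup B] [Module S B] (C : ∀ n : ℕ, Set ((Fin (n + 1) → A) → B)) : Prop where
  minor : ∀ (n k : ℕ) (σ : Fin (n + 1) → Fin (k + 1)), ∀ f ∈ C n, (fun x => f (x ∘ σ)) ∈ C k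
  inner : ∀ (n k : ℕ) (t : Fin (n + 1) → Fin (k + 1) → R), ∀ f ∈ C n,
    (fun x => f fun i => ∑ j, t i j • x j) ∈ C k
  outer : ∀ (m k : ℕ) (s : Fin (m + 1) → S) (f : Fin (m + 1) → (Fin (k + 1) → A) → B),
    (∀ i, f i ∈ C k) → (fun x => ∑ i, s i • f i x) ∈ C k

end Pool.Agent.H65.ClonoidDefs
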