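import Pool.Agent.H65.WordNoeth
import Pool.Agent.H65.ClonoidDefs

set_option autoImplicit false

namespace Pool.Agent.H65.Clonoid
open WordNoeth ClonoidDefs

lemma fourier (A : Type*) [AddCommGroup A] [Fintype A] [DecidableEq A] :
    ∃ t : ℂ → ℤ, ∀ (n : ℕ) (a : Fin n → A), ∑ χ : Fin n → AddChar A ℂ, t (∏ i, χ i (a i)) =
      if a = 0 then (Fintype.card A : ℤ) ^ n else 0 := by
  classical
  have he : Fintype.card A ≠ 0 := Fintype.card_ne_zero
  have : NeZero (Fintype.card A) := ⟨he⟩
  have hζ := Complex.isPrimitiveRoot_exp _ he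
  generalize Complex.exp (2 * Real.pi * Complex.I / (Fintype.card A : ℕ)) = ζ at hζ
  have hi : IsIntegral ℤ ζ := hζ.isIntegral (Nat.pos_of_ne_zero he)
  let L := Algebra.adjoin ℤ ({ζ} : Set ℂ)
  let b := Algebra.adjoin.powerBasis' hi
  let τ := b.basis.coord ⟨0, b.dim_pos⟩
  have τ1 : τ 1 = 1 := by
    have : b.basis ⟨0, b.dim_pos⟩ = 1 := by rw [b.basis_eq_pow]; simp
    rw [← this, Module.Basis.coord_apply, b.basis.repr_self, Finsupp.single_eq_same]
  have hm : ∀ (χ : AddChar A ℂ) (a : A), χ a ∈ L := by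
    intro χ a
    have : χ a ^ Fintype.card A = 1 := by
      rw [← AddChar.map_nsmul_eq_pow, card_nsmul_eq_zero, AddChar.map_zero_eq_one]
    obtain ⟨i, _, hi⟩ := hζ.eq_pow_of_pow_eq_one this
    rw [← hi]
    exact pow_mem (Algebra.subset_adjoin (Set.mem_singleton ζ)) _
  refine ⟨fun z => if h : z ∈ L then τ ⟨z, h⟩ else 0, fun n a => ?_⟩
  have h1 : ∀ χ : Fin n → AddChar A ℂ, ∏ i, χ i (a i) ∈ L := fun χ => prod_mem fun i _ => hm _ _
  simp only [h1, dite_true]
  rw [← map_sum]
  have : ∑ χ : Fin n → AddChar A ℂ, (⟨∏ i, χ i (a i), h1 χ⟩ : L) =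
      (if a = 0 then (Fintype.card A : ℤ) ^ n else 0) • (1 : L) := by
    apply Subtype.ext
    rw [AddSubmonoidClass.coe_finsetSum]
    simp only
    rw [← Fintype.piFinset_univ, ← Finset.prod_univ_sum (fun _ => Finset.univ)
      fun i (χ : AddChar A ℂ) => χ (a i)]
    simp only [AddChar.sum_apply_eq_ite]
    split_ifs with h
    · simp [h]
    · obtain ⟨i, hi⟩ := Function.ne_iff.1 h
      rw [Finset.prod_eq_zero (Finset.mem_univ i) (if_neg hi)]; simp
  rw [this, map_zsmul, τ1]; simp

variable {A B : Type*} [AddCommGroup A] [Finite A] [AddCommGroup B] [Finite B]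

open Classical in
def Dup (C : Fam A B) : Prop :=
  ∀ (l k : ℕ) (π : Fin l → Fin k), Function.Surjective π → ∀ f ∈ C k,
    (fun x : Fin l → A => f fun i => ∑ j, if π j = i then x j else 0) ∈ C l

theorem acc' (hc : Nat.Coprime (Nat.card A) (Nat.card B)) (C : ℕ → Fam A B) (hC : ∀ k, Dup (C k))
    (ha : Monotone C) : ∃ k, C (k + 1) ≤ C k := by
  classical
  have : Fintype A := Fintype.ofFinite A
  obtain ⟨t, ht⟩ := fourier A
  let T := {z // z ∈ Polynomial.nthRootsFinset (Fintype.card A) (1 : ℂ)}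
  let Φ : ∀ n, ((Fin n → AddChar A ℂ) → T → B) →+ ((Fin n → A) → B) := fun n =>
    { toFun := fun c a => ∑ χ, ∑ z : T, t (z * ∏ i, χ i (a i)) • c χ z
      map_zero' := by ext; simp
      map_add' := by intro c d; ext; simp [Finset.sum_add_distrib] }
  have surj : ∀ n, Function.Surjective (Φ n) := by
    intro n
    rw [← AddMonoidHom.range_eq_top, eq_top_iff]
    intro f _
    rw [← Finset.univ_sum_single f]
    refine sum_mem fun a _ => ?_
    obtain ⟨b, hb⟩ : ∃ b : B, (Nat.card A ^ n) • b = f a :=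
      (Nat.Coprime.nsmul_right_bijective (hc.symm.pow_right n)).2 (f a)
    have hz : ∀ χ : Fin n → AddChar A ℂ, ∏ i, χ i (- a i) ∈
        Polynomial.nthRootsFinset (Fintype.card A) (1 : ℂ) := by
      intro χ
      rw [Polynomial.mem_nthRootsFinset Fintype.card_pos, ← Finset.prod_pow]
      refine Finset.prod_eq_one fun i _ => ?_
      rw [← AddChar.map_nsmul_eq_pow, card_nsmul_eq_zero, AddChar.map_zero_eq_one]
    refine ⟨fun χ => Pi.single ⟨_, hz χ⟩ b, funext fun x => ?_⟩
    have : ∀ χ : Fin n → AddChar A ℂ, ∑ z : T, t (z * ∏ i, χ i (x i)) •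
        (Pi.single (⟨_, hz χ⟩ : T) b : T → B) z = t (∏ i, χ i ((x - a) i)) • b := by
      intro χ
      rw [Finset.sum_eq_single ⟨_, hz χ⟩ (fun z _ h => by rw [Pi.single_eq_of_ne h, smul_zero])
        (by simp), Pi.single_eq_same, ← Finset.prod_mul_distrib]
      congr 2
      refine Finset.prod_congr rfl fun i _ => ?_
      rw [← AddChar.map_add_eq_mul, Pi.sub_apply, neg_add_eq_sub]
    change ∑ χ, _ = _
    simp only [this]
    rw [← Finset.sum_smul, ht, Pi.single_apply, ← hb]
    simp only [sub_eq_zero]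
    split_ifs
    · rw [← Nat.card_eq_fintype_card, ← Nat.cast_pow, natCast_zsmul]
    · simp
  have := acc (fun k n => (C k n).comap (Φ n)) (fun m l k π hπ c hcm => ?_)
    (fun i j hij n => AddSubgroup.comap_mono (ha hij n))
  · obtain ⟨k, hk⟩ := this
    refine ⟨k, fun n f hf => ?_⟩
    obtain ⟨c, rfl⟩ := surj n f
    exact hk n hf
  · have inj : Function.Injective fun v : Fin k → AddChar A ℂ => v ∘ π :=
      hπ.injective_comp_right
    have := hC m l k π hπ _ hcm
    rw [AddSubgroup.mem_comap]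
    convert this using 1
    funext x
    change ∑ χ, _ = ∑ χ, _
    symm
    refine Finset.sum_of_injOn (fun v => v ∘ π) inj.injOn (by simp) (fun χ _ h => ?_) (fun χ _ => ?_)
    · rw [Function.extend_apply' _ _ _ (by simpa using h)]; simp
    · rw [inj.extend_apply]
      refine Finset.sum_congr rfl fun z _ => ?_
      congr 3
      have : ∀ i, χ i (∑ j, if π j = i then x j else 0) = ∏ j, if π j = i then χ i (x j) else 1 := by
        intro i
        have := map_prod (χ i).toMonoidHom
          (fun j => Multiplicative.ofAdd (if π j = i then x j else 0)) Finset.univ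
        rw [← ofAdd_sum] at this
        refine this.trans (Finset.prod_congr rfl fun j _ => ?_)
        split_ifs <;> simp
      simp only [this]
      rw [Finset.prod_comm]
      simp

theorem finite_good (hc : Nat.Coprime (Nat.card A) (Nat.card B)) :
    {C : Fam A B | Minor C ∧ Dup C}.Finite := by
  let G := {C : Fam A B // Minor C ∧ Dup C}
  have w1 : WellFounded fun C D : G => C.1 < D.1 := by
    rw [wellFounded_iff_isEmpty_descending_chain]
    refine ⟨fun ⟨f, hf⟩ => ?_⟩
    obtain ⟨k, hk⟩ := dcc (fun k => (f k).1) (fun k => (f k).2.1)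
      (antitone_nat_of_succ_le fun k => (hf k).le)
    exact (hf k).not_ge hk
  have w2 : WellFounded fun C D : G => D.1 < C.1 := by
    rw [wellFounded_iff_isEmpty_descending_chain]
    refine ⟨fun ⟨f, hf⟩ => ?_⟩
    obtain ⟨k, hk⟩ := acc' hc (fun k => (f k).1) (fun k => (f k).2.2)
      (monotone_nat_of_le_succ fun k => (hf k).le)
    exact (hf k).not_ge hk
  have inf : ∀ C D : G, Minor (C.1 ⊓ D.1) ∧ Dup (C.1 ⊓ D.1) := fun C D =>
    ⟨fun l k π h f hf => ⟨C.2.1 l k π h f hf.1, D.2.1 l k π h f hf.2⟩,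
      fun l k π h f hf => ⟨C.2.2 l k π h f hf.1, D.2.2 l k π h f hf.2⟩⟩
  have sup : ∀ C D : G, Minor (C.1 ⊔ D.1) ∧ Dup (C.1 ⊔ D.1) := fun C D =>
    ⟨fun l k π h f hf => by
      obtain ⟨g, hg, g', hg', rfl⟩ := AddSubgroup.mem_sup.1 hf
      exact AddSubgroup.mem_sup.2 ⟨_, C.2.1 l k π h g hg, _, D.2.1 l k π h g' hg', rfl⟩,
    fun l k π h f hf => by
      obtain ⟨g, hg, g', hg', rfl⟩ := AddSubgroup.mem_sup.1 hf
      exact AddSubgroup.mem_sup.2 ⟨_, C.2.2 l k π h g hg, _, D.2.2 l k π h g' hg', rfl⟩⟩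
  have key : ∀ D : G, ∃ N : ℕ, ∀ C C' : G, C.1 ≤ C'.1 → C'.1 ≤ D.1 →
      (∀ n ≤ N, C'.1 n ≤ C.1 n) → C'.1 ≤ C.1 := by
    intro D
    induction D using w1.induction with
    | h D ih =>
      by_cases h : ∃ E : G, E.1 < D.1
      · obtain ⟨E, e1, e2⟩ := w2.has_min {E : G | E.1 < D.1} h
        obtain ⟨N, hN⟩ := ih E e1
        obtain ⟨M, hM⟩ : ∃ M, ¬ D.1 M ≤ E.1 M := by
          by_contra k
          push Not at k
          exact e1.not_ge (Pi.le_def.2 k)
        refine ⟨max N M, fun C C' h1 h2 h3 n => ?_⟩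
        have k1 := hN ⟨_, inf C E⟩ ⟨_, inf C' E⟩ (inf_le_inf_right _ h1) inf_le_right
          fun n hn => inf_le_inf_right _ (h3 n (le_max_of_le_left hn))
        have k2 : C'.1 ≤ C.1 ⊔ E.1 := by
          by_cases k : C'.1 ≤ E.1
          · exact le_sup_of_le_right k
          · have k3 : ∀ X : G, X.1 ≤ D.1 → ¬ X.1 ≤ E.1 → X.1 ⊔ E.1 = D.1 := by
              intro X x1 x2
              by_contra x3
              exact e2 ⟨_, sup X E⟩ (lt_of_le_of_ne (sup_le x1 e1.le) x3) (right_lt_sup.2 x2)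
            rw [k3 C (h1.trans h2) fun k' => hM ?_]
            · exact h2
            · rw [← k3 C' h2 k]
              exact sup_le ((h3 M (le_max_right _ _)).trans (k' M)) le_rfl
        exact (eq_of_le_of_inf_le_of_le_sup (h1 n) ((k1 n).trans inf_le_left) (k2 n)).ge
      · refine ⟨0, fun C C' h1 h2 _ => ?_⟩
        by_contra k
        exact h ⟨C, lt_of_lt_of_le (lt_of_le_not_ge h1 k) h2⟩
  obtain ⟨N, hN⟩ := key ⟨⊤, fun _ _ _ _ _ _ => trivial, fun _ _ _ _ _ _ => trivial⟩
  have : ∀ n, Finite (AddSubgroup ((Fin n → A) → B)) := fun n =>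
    Finite.of_injective _ SetLike.coe_injective
  refine Finite.of_injective (fun (C : G) (n : Fin (N + 1)) => C.1 n) fun C D h => ?_
  have h' : ∀ n ≤ N, C.1 n = D.1 n := fun n hn => congrFun h ⟨n, by omega⟩
  have k1 := hN ⟨_, inf C D⟩ C inf_le_left le_top fun n hn => le_inf le_rfl (h' n hn).le
  have k2 := hN ⟨_, inf C D⟩ D inf_le_right le_top fun n hn => le_inf (h' n hn).ge le_rfl
  exact Subtype.ext (le_antisymm (k1.trans inf_le_right) (k2.trans inf_le_left))

theorem main (R S : Type*) [Ring R] [Ring S] [Module R A] [Module S B]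
    (hc : Nat.Coprime (Nat.card A) (Nat.card B)) :
    {C : ∀ n : ℕ, Set ((Fin (n + 1) → A) → B) | IsClonoid R S C}.Finite := by
  classical
  refine (((finite_good hc).image fun C n => (C (n + 1) : Set _)).insert fun _ => ∅).subset ?_
  intro C hC
  by_cases h : ∃ n f, f ∈ C n
  · right
    obtain ⟨n0, f0, h0⟩ := h
    have sub : ∀ n, ∀ f ∈ C n, ∀ g ∈ C n, f + -g ∈ C n := by
      intro n f hf g hg
      have := hC.outer 1 n ![1, -1] ![f, g] (by intro i; fin_cases i <;> simpa)
      convert this using 1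
      ext x; simp
    let F : Fam A B := fun n => match n with
      | 0 => ⊥
      | n + 1 => AddSubgroup.ofSub (C n) ⟨_, hC.minor n0 n 0 f0 h0⟩ (sub n)
    refine ⟨F, ⟨?_, ?_⟩, rfl⟩
    · rintro (_ | l) (_ | k) π hπ f hf
      · rw [show f = 0 from hf]; exact zero_mem _
      · exact (hπ 0).choose.elim0
      · exact (π 0).elim0
      · exact hC.minor _ _ π f hf
    · rintro (_ | l) (_ | k) π hπ f hf
      · rw [show f = 0 from hf]; exact zero_mem _
      · exact (hπ 0).choose.elim0
      · exact (π 0).elim0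
      · have := hC.inner _ _ (fun i j => if π j = i then 1 else 0) f hf
        simp only [ite_smul, one_smul, zero_smul] at this
        convert this using 1
        rfl
  · left
    funext n
    ext f
    simpa using fun k => h ⟨n, f, k⟩

end Pool.Agent.H65.Clonoid
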