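import Pool.Agent.H65.CoarseDefs

set_option autoImplicit false

namespace Pool.Agent.H65.Coarse
open CoarseDefs Pointwise

lemma cont_sub (Q : Set ℕ) :
    @Continuous (ℤ × ℤ) ℤ (@instTopologicalSpaceProd _ _ (tau Q) (tau Q)) (tau Q)
      fun p => p.1 - p.2 := by
  let _ := tau Q
  refine continuous_generateFrom_iff.2 ?_
  rintro _ ⟨a, m, hm, rfl⟩
  rw [isOpen_prod_iff]
  intro x y h
  refine ⟨{z | (m : ℤ) ∣ z - x}, {z | (m : ℤ) ∣ z - y},
    TopologicalSpace.isOpen_generateFrom_of_mem ⟨x, m, hm, rfl⟩,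
    TopologicalSpace.isOpen_generateFrom_of_mem ⟨y, m, hm, rfl⟩, by simp, by simp, ?_⟩
  rintro ⟨u, v⟩ ⟨h1, h2⟩
  simp only [Set.mem_preimage, Set.mem_ofPred_eq] at *
  have e : u - v - a = x - y - a + (u - x - (v - y)) := by ring
  rw [e]; exact dvd_add h (dvd_sub h1 h2)

lemma compact_sub (Q : Set ℕ) {K L : Set ℤ} (hK : @IsCompact ℤ (tau Q) K)
    (hL : @IsCompact ℤ (tau Q) L) : @IsCompact ℤ (tau Q) (K - L) := by
  let _ := tau Q
  have := (hK.prod hL).image (cont_sub Q)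
  rwa [Set.image_prod] at this

lemma closed_cong (Q : Set ℕ) (m : ℕ) (hm : m ∈ Qstar Q) (c e : ℤ) :
    @IsClosed ℤ (tau Q) {x | (m : ℤ) ∣ c * x - e} := by
  let _ := tau Q
  rw [← isOpen_compl_iff, isOpen_iff_forall_mem_open]
  intro x hx
  refine ⟨{z | (m : ℤ) ∣ z - x}, fun z hz hz' => hx ?_,
    TopologicalSpace.isOpen_generateFrom_of_mem ⟨x, m, hm, rfl⟩, by simp⟩
  simp only [Set.mem_ofPred_eq] at *
  have e : c * x - e = c * z - e - c * (z - x) := by ring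
  rw [e]; exact dvd_sub hz' (hz.mul_left c)

lemma not_sub (Q : Set ℕ) (p : ℕ) (hp : p.Prime) (hQ : p ∈ Q) (M : ℕ) (hM : 0 < M) (L : Set ℤ)
    (hL : @IsCompact ℤ (tau Q) L) : ∃ x : ℤ, (M : ℤ) ∣ x ∧ x ∉ L := by
  let _ := tau Q
  by_contra h
  push Not at h
  have hq : ∀ n, p ^ n ∈ Qstar Q := fun n => ⟨pow_pos hp.pos n, fun q hq hd => by
    rwa [(Nat.prime_dvd_prime_iff_eq hq hp).1 (hq.dvd_of_dvd_pow hd)]⟩
  have := hL.elim_directed_family_closed (fun n : ℕ => {x : ℤ | ((p ^ n : ℕ) : ℤ) ∣ (1 + p * M) * x - M})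
    (fun n => closed_cong Q _ (hq n) _ _) ?_ ?_
  · obtain ⟨n, hn⟩ := this
    have hc : IsCoprime ((p : ℤ) ^ n) (1 + p * M) :=
      IsCoprime.pow_left ⟨-M, 1, by ring⟩
    obtain ⟨u, v, huv⟩ := hc
    refine Set.disjoint_left.1 (Set.disjoint_iff_inter_eq_empty.2 hn) (h (M * v) (dvd_mul_right _ _)) ?_
    refine ⟨-(M * u), ?_⟩
    push_cast
    linear_combination (M : ℤ) * huv
  · rw [← Set.disjoint_iff_inter_eq_empty, Set.disjoint_left]
    intro x _ hx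
    simp only [Set.mem_iInter, Set.mem_ofPred_eq] at hx
    have h0 : (1 + p * M : ℤ) * x - M ≠ 0 := by
      intro e
      have h1 : (1 + p * M : ℤ) ∣ M := ⟨x, by linarith⟩
      have := Int.le_of_dvd (by exact_mod_cast hM) h1
      have : (1 : ℤ) ≤ p := by exact_mod_cast hp.pos
      have : (0 : ℤ) ≤ M := by positivity
      nlinarith
    have h1 := Int.natAbs_le_of_dvd_ne_zero (hx ((1 + p * M : ℤ) * x - M).natAbs) h0
    rw [Int.natAbs_natCast] at h1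
    exact absurd h1 (not_le.2 (Nat.lt_pow_self hp.one_lt))
  · refine Antitone.directed_ge fun a b hab x hx => ?_
    exact (Int.natCast_dvd_natCast.2 (pow_dvd_pow p hab)).trans hx

lemma dS_symm (S : Set ℤ) (x y : ℤ) : dS S y x ≤ dS S x y := by
  unfold dS
  refine le_iInf fun L => le_iInf fun h1 => le_iInf fun h2 => ?_
  refine iInf_le_of_le (L.map Neg.neg) (iInf_le_of_le ?_ (iInf_le_of_le ?_ (by simp)))
  · intro s hs
    obtain ⟨t, ht, rfl⟩ := List.mem_map.1 hs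
    simpa [or_comm] using h1 t ht
  · rw [← List.sum_neg, h2]; ring

lemma dS_self (S : Set ℤ) (x : ℤ) : dS S x x = 0 := by
  refine le_antisymm ?_ (by simp)
  exact iInf_le_of_le [] (iInf_le_of_le (by simp) (iInf_le_of_le (by simp) (by simp)))

theorem main (Q : Set ℕ) (hQ : ∀ p ∈ Q, p.Prime) (hne : Q.Nonempty) (S : Set ℤ) (f g : ℤ → ℤ)
    (hf : Controlled (UBQ Q) (UBS S) f) (hg : Controlled (UBS S) (UBQ Q) g)
    (hc : Close (UBQ Q) (g ∘ f) id) : False := by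
  classical
  let _ := tau Q
  obtain ⟨p, hp⟩ := hne
  obtain ⟨C, hC, h1⟩ := hc
  have c1 : ∀ x, g (f x) - x ∈ C - C := by
    intro x
    obtain ⟨k, hk⟩ := h1 _ ⟨x, rfl⟩
    exact ⟨_, hk (g (f x)) (by simp), _, hk x (by simp), by simp⟩
  have c2 : ∀ n : ℕ, ∃ K : Set ℤ, IsCompact K ∧ ∀ x y, dS S x y ≤ n → g x - g y ∈ K := by
    intro n
    obtain ⟨K, hK, h2⟩ := hg {A | ∃ x y, dS S x y ≤ n ∧ A = {x, y}} ⟨n, by
      rintro _ ⟨x, y, h, rfl⟩ u (rfl | rfl) v (rfl | rfl)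
      · simp [dS_self]
      · exact h
      · exact (dS_symm _ _ _).trans h
      · simp [dS_self]⟩
    refine ⟨K - K, compact_sub Q hK hK, fun x y h => ?_⟩
    obtain ⟨k, hk⟩ := h2 _ ⟨_, ⟨x, y, h, rfl⟩, rfl⟩
    exact ⟨_, hk (g x) ⟨x, by simp, rfl⟩, _, hk (g y) ⟨y, by simp, rfl⟩, by simp⟩
  choose K hK c2 using c2
  have hCC := compact_sub Q hC hC
  let M : ℕ → ℕ := fun n => ∏ m ∈ (Finset.range (n + 1)).filter (· ∈ Qstar Q), m
  have hM : ∀ n, 0 < M n := fun n => Finset.prod_pos fun m hm => (Finset.mem_filter.1 hm).2.1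
  choose x x1 x2 using fun n => not_sub Q p (hQ p hp) hp (M n) (hM n) _
    (compact_sub Q (compact_sub Q (hK n) hCC) hCC)
  have ht : Filter.Tendsto x Filter.atTop (nhds 0) := by
    refine TopologicalSpace.tendsto_nhds_generateFrom_iff.2 ?_
    rintro _ ⟨a, m, hm, rfl⟩ h0
    filter_upwards [Filter.eventually_ge_atTop m] with n hn
    have : (m : ℤ) ∣ x n := (Int.natCast_dvd_natCast.2 (Finset.dvd_prod_of_mem _
      (Finset.mem_filter.2 ⟨Finset.mem_range.2 (by omega), hm⟩))).trans (x1 n)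
    have := dvd_add this h0
    simpa [sub_eq_add_neg] using this
  obtain ⟨n, hn⟩ := hf {insert 0 (Set.range x)} ⟨_, ht.isCompact_insert_range, by
    rintro _ rfl
    exact ⟨0, fun y hy => by simpa using hy⟩⟩
  have h3 := c2 n _ _ (hn _ ⟨_, rfl, rfl⟩ (f (x n)) ⟨x n, by simp, rfl⟩ (f 0) ⟨0, by simp, rfl⟩)
  apply x2 n
  obtain ⟨u, hu, v, hv, e⟩ := c1 0
  refine ⟨_, ⟨_, h3, _, c1 (x n), rfl⟩, _, ⟨v, hv, u, hu, rfl⟩, ?_⟩
  simp only at e ⊢
  linarith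

end Pool.Agent.H65.Coarse
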