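import Mathlib

set_option autoImplicit false

namespace Pool.Agent.H65.CoarseDefs

/-- `Q^*`: positive integers all of whose prime factors lie in `Q`. -/
def Qstar (Q : Set ℕ) : Set ℕ := {m | 0 < m ∧ ∀ p, p.Prime → p ∣ m → p ∈ Q}

/-- The topology `τ_Q` on `ℤ`, generated by the cosets `a + mℤ`, `m ∈ Q^*`. -/
def tau (Q : Set ℕ) : TopologicalSpace ℤ :=
  TopologicalSpace.generateFrom {U | ∃ (a : ℤ) (m : ℕ), m ∈ Qstar Q ∧ U = {x | (m : ℤ) ∣ x - a}}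

/-- Uniformly bounded families of the coarse structure `E_Q`. -/
def UBQ (Q : Set ℕ) (F : Set (Set ℤ)) : Prop :=
  ∃ K : Set ℤ, @IsCompact ℤ (tau Q) K ∧ ∀ A ∈ F, ∃ k : ℤ, ∀ x ∈ A, x - k ∈ K

/-- The word metric `d_S`, with values in `ℕ∞`. -/
noncomputable def dS (S : Set ℤ) (n m : ℤ) : ℕ∞ :=
  ⨅ (L : List ℤ) (_ : ∀ s ∈ L, s ∈ S ∨ -s ∈ S) (_ : L.sum = n - m), (L.length : ℕ∞)

/-- Uniformly bounded families of the coarse structure `E_Cay(S)`. -/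
def UBS (S : Set ℤ) (F : Set (Set ℤ)) : Prop :=
  ∃ N : ℕ, ∀ A ∈ F, ∀ x ∈ A, ∀ y ∈ A, dS S x y ≤ N

/-- `f` sends `E`-uniformly bounded families to `E'`-uniformly bounded families. -/
def Controlled (E E' : Set (Set ℤ) → Prop) (f : ℤ → ℤ) : Prop :=
  ∀ F, E F → E' ((fun A => f '' A) '' F)

/-- `f` and `f'` are close for the coarse structure `E` on the target. -/
def Close (E : Set (Set ℤ) → Prop) (f f' : ℤ → ℤ) : Prop :=
  E (Set.range fun x => {f x, f' x})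

/-- `f` is a coarse isomorphism of coarse groups `(ℤ, E) → (ℤ, E')`. -/
def IsCoarseIso (E E' : Set (Set ℤ) → Prop) (f : ℤ → ℤ) : Prop :=
  Controlled E E' f ∧ E' (Set.range fun p : ℤ × ℤ => {f (p.1 + p.2), f p.1 + f p.2}) ∧
    ∃ g : ℤ → ℤ, Controlled E' E g ∧ Close E (g ∘ f) id ∧ Close E' (f ∘ g) id

end Pool.Agent.H65.CoarseDefs
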