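import Pool.Agent.H65.MonoDefs

set_option autoImplicit false

namespace Pool.Agent.H65.ConnLQ
open MvPolynomial MonoDefs Finset

variable {σ : Type*} [DecidableEq σ]

noncomputable def ind (S : Finset σ) : σ →₀ ℕ := ∑ v ∈ S, Finsupp.single v 1

lemma ind_apply (S : Finset σ) (v : σ) : ind S v = if v ∈ S then 1 else 0 := by
  simp [ind, Finsupp.finsetSum_apply, Finsupp.single_apply]

lemma ind_le {S T : Finset σ} : ind S ≤ ind T ↔ S ⊆ T := by
  constructor
  · intro h v hv
    have := h v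
    by_contra hn
    simp [ind_apply, hv, hn] at this
  · intro h v
    by_cases hv : v ∈ S <;> simp [ind_apply, hv, h]
    simp [h hv]

omit [DecidableEq σ] in
lemma prod_X {K : Type*} [Field K] (S : Finset σ) :
    (∏ v ∈ S, X v : MvPolynomial σ K) = monomial (ind S) 1 := by
  rw [ind, monomial_sum_one]; rfl

lemma mono_mem {K : Type*} [Field K] (s : Set (σ →₀ ℕ)) (b : σ →₀ ℕ) :
    monomial b (1 : K) ∈ Ideal.span ((fun s => monomial s (1 : K)) '' s) ↔ ∃ a ∈ s, a ≤ b := by
  rw [mem_ideal_span_monomial_image]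
  simp [support_monomial]

def d (ψ : Finset σ → ZMod 2) (F : Finset σ) : ZMod 2 := ∑ u ∈ F, ψ (F.erase u)

lemma dd (ψ : Finset σ → ZMod 2) (G : Finset σ) : d (d ψ) G = 0 := by
  unfold d
  rw [Finset.sum_sigma']
  refine Finset.sum_involution (fun p _ => ⟨p.2, p.1⟩) ?_ ?_ ?_ ?_
  · intro p _
    rw [Finset.erase_right_comm]
    exact CharTwo.add_self_eq_zero _
  · intro p hp _ h
    simp only [mem_sigma, mem_erase] at hp
    exact hp.2.1 (congrArg Sigma.fst h)
  · intro p hp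
    simp only [mem_sigma, mem_erase] at hp ⊢
    exact ⟨hp.2.2, hp.2.1.symm, hp.1⟩
  · intro p hp; rfl

lemma extend (t r : ℕ) (S : Fin r → Finset σ) (hS : ∀ i, (S i).card = t)
    (hP : ∀ i v w, (∃ j < i, S j ⊆ insert v (insert w (S i))) → v ∉ S i → w ∉ S i → v ≠ w →
      (∃ j < i, S j ⊆ insert v (S i)) ∨ (∃ j < i, S j ⊆ insert w (S i)))
    (φ : Finset σ → ZMod 2) (hφ : ∀ F, F.card = t + 1 → (∀ j, ¬ S j ⊆ F) → d φ F = 0) :
    ∃ ψ : Finset σ → ZMod 2, (∀ T, (∀ j, S j ≠ T) → ψ T = φ T) ∧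
      ∀ F, F.card = t + 1 → d ψ F = 0 := by
  have key : ∀ k, k ≤ r → ∃ ψ : Finset σ → ZMod 2, (∀ T, (∀ j, S j ≠ T) → ψ T = φ T) ∧
      ∀ F, F.card = t + 1 → (∀ j : Fin r, j.val + k < r → ¬ S j ⊆ F) → d ψ F = 0 := by
    intro k
    induction k with
    | zero => exact fun _ => ⟨φ, fun _ _ => rfl, fun F h1 h2 => hφ F h1 fun j => h2 j j.2⟩
    | succ k ih =>
      intro hk
      obtain ⟨ψ, h1, h2⟩ := ih (by omega)
      let i : Fin r := ⟨r - (k + 1), by omega⟩
      have hi : ∀ j : Fin r, j.val + (k + 1) < r ↔ j < i := by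
        intro j; rw [Fin.lt_def]; simp only [i]; omega
      have base : ∀ (c : ZMod 2) F, F.card = t + 1 → (∀ j < i, ¬ S j ⊆ F) → ¬ S i ⊆ F →
          d (Function.update ψ (S i) c) F = 0 := by
        intro c F f1 f2 f3
        rw [← h2 F f1 (fun j hj => ?_)]
        · refine Finset.sum_congr rfl fun u _ => Function.update_of_ne ?_ _ _
          intro e; exact f3 (e ▸ erase_subset _ _)
        · by_cases e : j = i
          · rwa [e]
          · apply f2
            rw [Fin.lt_def]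
            have : j.val ≠ i.val := fun h => e (Fin.ext h)
            simp only [i] at this ⊢; omega
      have agree : ∀ (c : ZMod 2) T, (∀ j, S j ≠ T) → Function.update ψ (S i) c T = φ T :=
        fun c T hT => by rw [Function.update_of_ne (hT i).symm, h1 T hT]
      have shape : ∀ F : Finset σ, F.card = t + 1 → S i ⊆ F → ∃ v, v ∉ S i ∧ F = insert v (S i) := by
        intro F f1 f2
        obtain ⟨v, hv, e⟩ := Finset.exists_eq_insert_iff.2 ⟨f2, by rw [hS, f1]⟩
        exact ⟨v, hv, e.symm⟩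
      by_cases hex : ∃ w, w ∉ S i ∧ ∀ j < i, ¬ S j ⊆ insert w (S i)
      · obtain ⟨w, w1, w2⟩ := hex
        have : ∃ c, d (Function.update ψ (S i) c) (insert w (S i)) = 0 := by
          have k : ∀ c, d (Function.update ψ (S i) c) (insert w (S i)) =
              c + ∑ u ∈ S i, ψ ((insert w (S i)).erase u) := by
            intro c
            rw [d, sum_insert w1, erase_insert w1, Function.update_self]
            congr 1
            refine Finset.sum_congr rfl fun u hu => Function.update_of_ne ?_ _ _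
            intro e
            have : u ∈ (insert w (S i)).erase u := by rw [e]; exact hu
            simp at this
          exact ⟨_, (k _).trans (CharTwo.add_self_eq_zero _)⟩
        obtain ⟨c, hc⟩ := this
        refine ⟨_, agree c, fun F f1 f2 => ?_⟩
        simp only [hi] at f2
        by_cases f3 : S i ⊆ F
        · obtain ⟨v, v1, rfl⟩ := shape F f1 f3
          by_cases e : v = w
          · rw [e, hc]
          · have hG : ∀ j < i, ¬ S j ⊆ insert v (insert w (S i)) := by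
              intro j hj hs
              rcases hP i v w ⟨j, hj, hs⟩ v1 w1 e with ⟨j, a, b⟩ | ⟨j, a, b⟩
              · exact f2 j a b
              · exact w2 j a b
            have v2 : v ∉ insert w (S i) := by simp [e, v1]
            have := dd (Function.update ψ (S i) c) (insert v (insert w (S i)))
            rw [d, sum_insert v2, sum_insert w1, erase_insert v2, hc, zero_add,
              Finset.sum_eq_zero, add_zero, Finset.insert_comm, erase_insert] at this
            · exact this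
            · simp [w1, Ne.symm e]
            · intro u hu
              apply base
              · rw [card_erase_of_mem (by simp [hu]), card_insert_of_notMem v2,
                  card_insert_of_notMem w1, hS]; rfl
              · exact fun j hj hs => hG j hj (hs.trans (erase_subset _ _))
              · intro hs; simpa using hs hu
        · exact base c F f1 f2 f3
      · push Not at hex
        refine ⟨_, agree 0, fun F f1 f2 => ?_⟩
        simp only [hi] at f2
        refine base 0 F f1 f2 fun f3 => ?_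
        obtain ⟨v, v1, rfl⟩ := shape F f1 f3
        obtain ⟨j, a, b⟩ := hex v v1
        exact f2 j a b
  obtain ⟨ψ, h1, h2⟩ := key r le_rfl
  exact ⟨ψ, h1, fun F hF => h2 F hF fun j hj => by omega⟩

lemma lq_comb {K : Type*} [Field K] (t : ℕ) (C : Finset σ → Prop)
    (h : HasLinearQuotients (Ideal.span {f : MvPolynomial σ K |
      ∃ S : Finset σ, S.card = t ∧ C S ∧ f = ∏ v ∈ S, X v})) :
    ∃ (r : ℕ) (S : Fin r → Finset σ), (∀ i, (S i).card = t ∧ C (S i)) ∧
      (∀ T, T.card = t → C T → ∃ i, S i = T) ∧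
      ∀ i v w, (∃ j < i, S j ⊆ insert v (insert w (S i))) → v ∉ S i → w ∉ S i → v ≠ w →
        (∃ j < i, S j ⊆ insert v (S i)) ∨ (∃ j < i, S j ⊆ insert w (S i)) := by
  obtain ⟨r, m, _, h2, h3⟩ := h
  have e : {f : MvPolynomial σ K | ∃ S : Finset σ, S.card = t ∧ C S ∧ f = ∏ v ∈ S, X v} =
      (fun s => monomial s (1 : K)) '' {a | ∃ S : Finset σ, S.card = t ∧ C S ∧ a = ind S} := by
    ext f
    simp only [prod_X, Set.mem_ofPred_eq, Set.mem_image]
    constructor
    · rintro ⟨S, a, b, rfl⟩; exact ⟨_, ⟨S, a, b, rfl⟩, rfl⟩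
    · rintro ⟨_, ⟨S, a, b, rfl⟩, rfl⟩; exact ⟨S, a, b, rfl⟩
  rw [e, minGens] at h2
  simp only [mono_mem] at h2
  have h4 : ∀ i, ∃ S : Finset σ, S.card = t ∧ C S ∧ m i = ind S := by
    intro i
    have : m i ∈ Set.range m := ⟨i, rfl⟩
    rw [h2] at this
    obtain ⟨_, ⟨S, a, b, rfl⟩, hle⟩ := this.1
    exact ⟨S, a, b, le_antisymm (this.2 ⟨_, ⟨S, a, b, rfl⟩, le_rfl⟩ hle) hle⟩
  choose S s1 s2 s3 using h4
  refine ⟨r, S, fun i => ⟨s1 i, s2 i⟩, fun T a b => ?_, fun i v w hj hv hw hvw => ?_⟩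
  · have : ind T ∈ Set.range m := by
      rw [h2]
      refine ⟨⟨_, ⟨T, a, b, rfl⟩, le_rfl⟩, ?_⟩
      rintro y ⟨_, ⟨T', a', _, rfl⟩, hle⟩ hy
      rwa [Finset.eq_of_subset_of_card_le (ind_le.1 (hle.trans hy)) (by omega)] at hle
    obtain ⟨i, hi⟩ := this
    rw [s3] at hi
    exact ⟨i, Finset.Subset.antisymm (ind_le.1 hi.le) (ind_le.1 hi.ge)⟩
  · obtain ⟨V, hV⟩ := h3 i (by obtain ⟨j, hj, _⟩ := hj; rw [Fin.lt_def] at hj; omega)
    have key : ∀ A : Finset σ, Disjoint A (S i) →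
        ((∃ j < i, S j ⊆ A ∪ S i) ↔ ∃ x ∈ V, x ∈ A) := by
      intro A hA
      have k1 : monomial (ind A) (1 : K) ∈ Ideal.span (X '' V) ↔ ∃ x ∈ V, x ∈ A := by
        rw [mem_ideal_span_X_image]
        simp [support_monomial, ind_apply]
      rw [← k1, ← hV, Submodule.mem_colon_singleton, smul_eq_mul, monomial_mul, mul_one, s3,
        ← Set.image_image (fun s => monomial s (1 : K)) m, mono_mem]
      have : ind A + ind (S i) = ind (A ∪ S i) := by rw [ind, ind, ind, sum_union hA]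
      rw [this]
      constructor
      · rintro ⟨j, a, b⟩; exact ⟨_, ⟨j, a, rfl⟩, by rw [s3]; exact ind_le.2 b⟩
      · rintro ⟨_, ⟨j, a, rfl⟩, b⟩; exact ⟨j, a, by rw [s3] at b; exact ind_le.1 b⟩
    have k1 := key {v, w} (by simp [hv, hw])
    have k2 := key {v} (by simp [hv])
    have k3 := key {w} (by simp [hw])
    simp only [insert_union, singleton_union, mem_insert, mem_singleton] at k1 k2 k3
    obtain ⟨x, hx, rfl | rfl⟩ := k1.1 hj
    · exact Or.inl (k2.2 ⟨x, hx, rfl⟩)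
    · exact Or.inr (k3.2 ⟨x, hx, rfl⟩)

def nb : Fin 12 → ℕ := ![62, 229, 395, 789, 1577, 1107, 3234, 2374, 2700, 3352, 2672, 1984]

/-- complement of the icosahedron graph -/
def G : SimpleGraph (Fin 12) where
  Adj u v := u ≠ v ∧ (nb u).testBit v = false
  symm := ⟨by decide⟩
  loopless := ⟨by decide⟩

instance : DecidableRel G.Adj := fun u v => inferInstanceAs
  (Decidable (u ≠ v ∧ (nb u).testBit v = false))

lemma conn3 (a b c : Fin 12) (h1 : G.Adj a b) (h2 : G.Adj b c) :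
    (G.induce (({a, b, c} : Finset (Fin 12)) : Set (Fin 12))).Connected := by
  rw [SimpleGraph.connected_iff_exists_forall_reachable]
  refine ⟨⟨b, by simp⟩, ?_⟩
  rintro ⟨x, hx⟩
  simp only [coe_insert, coe_singleton, Set.mem_insert_iff, Set.mem_singleton_iff] at hx
  rcases hx with rfl | rfl | rfl
  · exact SimpleGraph.Adj.reachable h1.symm
  · rfl
  · exact SimpleGraph.Adj.reachable h2

lemma nconn (T : Finset (Fin 12)) (h1 : T.card = 3) (h2 : ∀ a ∈ T, ∀ b ∈ T, ¬ G.Adj a b) :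
    ¬ (G.induce (T : Set (Fin 12))).Connected := by
  intro h
  obtain ⟨a, ha, b, hb, hab⟩ := Finset.one_lt_card.1 (show 1 < T.card by omega)
  obtain ⟨p⟩ := h.preconnected ⟨a, ha⟩ ⟨b, hb⟩
  cases p with
  | nil => exact hab rfl
  | cons h _ => exact h2 _ ha _ (Subtype.property _) h

def tri : List (Finset (Fin 12)) :=
  [{0, 1, 2}, {0, 1, 5}, {0, 2, 3}, {0, 3, 4}, {0, 4, 5}, {1, 2, 7}, {1, 5, 6}, {1, 6, 7}, {2, 3, 8},
   {2, 7, 8}, {3, 4, 9}, {3, 8, 9}, {4, 5, 10}, {4, 9, 10}, {5, 6, 10}, {6, 7, 11}, {6, 10, 11},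
   {7, 8, 11}, {8, 9, 11}, {9, 10, 11}]

def φ (T : Finset (Fin 12)) : ZMod 2 :=
  if T = {0, 1, 2} ∨ T = {0, 2, 5} ∨ T = {0, 1, 3} ∨ T = {0, 1, 7} then 1 else 0

lemma φ_ok0 : ∀ T ∈ [({0, 1, 2} : Finset (Fin 12)), {0, 2, 5}, {0, 1, 3}, {0, 1, 7}], ∀ u : Fin 12,
    u ∈ T ∨ d φ (insert u T) = 0 ∨
    ∃ a ∈ insert u T, ∃ b ∈ insert u T, G.Adj a b ∧ ∃ c ∈ insert u T, a ≠ c ∧ G.Adj b c := by
  simp only [List.forall_mem_cons, List.not_mem_nil, false_imp_iff, implies_true, and_true]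
  decide +kernel

lemma φ_ok (F : Finset (Fin 12)) : d φ F = 0 ∨
    ∃ a ∈ F, ∃ b ∈ F, ∃ c ∈ F, a ≠ c ∧ G.Adj a b ∧ G.Adj b c := by
  by_cases h : d φ F = 0
  · exact Or.inl h
  obtain ⟨u, hu, h2⟩ := Finset.exists_ne_zero_of_sum_ne_zero h
  have h3 : F.erase u ∈ [({0, 1, 2} : Finset (Fin 12)), {0, 2, 5}, {0, 1, 3}, {0, 1, 7}] := by
    by_contra hn
    simp only [List.mem_cons, List.not_mem_nil, or_false] at hn
    exact h2 (if_neg hn)
  have := φ_ok0 _ h3 u
  rw [insert_erase hu] at this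
  rcases this with h | h | ⟨a, ha, b, hb, k, c, hc, k1, k2⟩
  · simp at h
  · exact Or.inl h
  · exact Or.inr ⟨a, ha, b, hb, c, hc, k1, k, k2⟩

theorem not_lq (K : Type*) [Field K] : ¬ HasLinearQuotients (connIdeal K G 3) := by
  intro h
  obtain ⟨r, S, h1, h2, h3⟩ := lq_comb 3 _ h
  obtain ⟨ψ, p1, p2⟩ := extend 3 r S (fun i => (h1 i).1) h3 φ (fun F hF hn => by
    rcases φ_ok F with h | ⟨a, ha, b, hb, c, hc, k1, k2, k3⟩
    · exact h
    · obtain ⟨i, hi⟩ := h2 {a, b, c} (card_eq_three.2 ⟨a, b, c, k2.ne, k1, k3.ne, rfl⟩)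
        (conn3 a b c k2 k3)
      exact (hn i (by rw [hi]; intro x; simp only [mem_insert, mem_singleton]; rintro (rfl | rfl | rfl) <;> assumption)).elim)
  have t1 : ∀ T ∈ tri, T.card = 3 ∧ ∀ a ∈ T, ∀ b ∈ T, ¬ G.Adj a b :=
    @of_decide_eq_true _ (List.decidableBAll _ _) (by decide +kernel)
  have q1 : (tri.map ψ).sum = 1 := by
    rw [List.map_congr_left (g := φ)]
    · decide +kernel
    · intro T hT
      exact p1 T fun j e => nconn T (t1 T hT).1 (t1 T hT).2 (e ▸ (h1 j).2)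
  let M : Multiset (Finset (Fin 12)) :=
    ((tri.drop 5 : List (Finset (Fin 12))) : Multiset (Finset (Fin 12))).bind fun T =>
      (insert 0 T : Finset (Fin 12)).val.map fun u => (insert 0 T).erase u
  have q2 : (M.map ψ).sum = 0 := by
    simp only [M, Multiset.map_bind, Multiset.sum_bind, Multiset.map_map]
    apply Multiset.sum_eq_zero
    intro x hx
    obtain ⟨T, hT, rfl⟩ := Multiset.mem_map.1 hx
    have : ∀ T ∈ tri.drop 5, (insert 0 T).card = 4 :=
      @of_decide_eq_true _ (List.decidableBAll _ _) (by decide +kernel)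
    exact p2 _ (this T hT)
  let N : Multiset (Finset (Fin 12)) :=
    {{0, 1, 6}, {0, 1, 7}, {0, 2, 7}, {0, 2, 8}, {0, 3, 8}, {0, 3, 9}, {0, 4, 9}, {0, 4, 10},
     {0, 5, 6}, {0, 5, 10}, {0, 6, 7}, {0, 6, 10}, {0, 6, 11}, {0, 7, 8}, {0, 7, 11}, {0, 8, 9},
     {0, 8, 11}, {0, 9, 10}, {0, 9, 11}, {0, 10, 11}}
  have q3 : M = (tri : Multiset _) + (N + N) := by decide +kernel
  rw [q3, Multiset.map_add, Multiset.sum_add, Multiset.map_add, Multiset.sum_add,
    CharTwo.add_self_eq_zero, add_zero, Multiset.map_coe, Multiset.sum_coe, q1] at q2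
  exact one_ne_zero q2

theorem gapfree : ∀ a b c d : Fin 12, G.Adj a b → G.Adj c d → a ≠ c → a ≠ d → b ≠ c → b ≠ d →
    G.Adj a c ∨ G.Adj a d ∨ G.Adj b c ∨ G.Adj b d := by decide +kernel

end Pool.Agent.H65.ConnLQ
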