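import Pool.Agent.H65.CosetDefs

set_option autoImplicit false

namespace Pool.Agent.H65.Coset
open Pool.Agent.H65.CosetDefs

abbrev F := FreeGroup (Fin 2)
variable (H : Subgroup F) (y : F)

lemma letter_inv (l : Fin 2 × Bool) : letter (l.1, !l.2) = (letter l)⁻¹ := by
  obtain ⟨a, b⟩ := l; cases b <;> simp [letter]

variable {H} in
lemma mem_nbr {S : Set (F ⧸ H)} {x : F ⧸ H} (hx : x ∈ S) (l : Fin 2 × Bool) :
    letter l • x ∈ nbr S := ⟨l, x, hx, rfl⟩

variable {H} in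
lemma mem_nbr' {S : Set (F ⧸ H)} {x : F ⧸ H} (hx : x ∈ S) (l : Fin 2 × Bool) :
    (letter l)⁻¹ • x ∈ nbr S := by rw [← letter_inv]; exact mem_nbr hx _

def Q : ℕ → Set (F ⧸ H)
  | 0 => ∅
  | 1 => ∅
  | 2 => {(y : F ⧸ H)}
  | n + 3 => nbr (Q (n + 2))

lemma nbr_Q (n : ℕ) : nbr (Q H y n) ⊆ Q H y (n + 1) := by
  match n with
  | 0 => rintro v ⟨l, x, hx, _⟩; exact hx.elim
  | 1 => rintro v ⟨l, x, hx, _⟩; exact hx.elim
  | n + 2 => exact subset_rfl

lemma Q_mono (n : ℕ) : Q H y n ⊆ Q H y (n + 2) := by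
  intro v hv
  have := nbr_Q H y _ (mem_nbr' (nbr_Q H y _ (mem_nbr hv (0, true))) (0, true))
  simpa using this

lemma C_eq (n : ℕ) : C H y n = Q H y (n + 2) \ Q H y n ∧
    C H y (n + 1) = Q H y (n + 3) \ Q H y (n + 1) := by
  induction n with
  | zero => simp [C, Q]
  | succ n ih =>
    refine ⟨ih.2, ?_⟩
    rw [C, ih.1, ih.2]
    ext v
    constructor
    · rintro ⟨⟨l, x, ⟨hx, hx'⟩, rfl⟩, h2⟩
      refine ⟨mem_nbr hx l, fun h => h2 ⟨h, fun h' => hx' ?_⟩⟩
      have := nbr_Q H y _ (mem_nbr' h' l)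
      simpa using this
    · rintro ⟨⟨l, x, hx, rfl⟩, h2⟩
      exact ⟨⟨l, x, ⟨hx, fun h => h2 (nbr_Q H y _ (mem_nbr h l))⟩, rfl⟩, fun h => h2 h.1⟩

lemma C_prev (n : ℕ) (h : (C H y (n + 1)).Nonempty) : (C H y n).Nonempty := by
  match n, h with
  | 0, _ => exact ⟨_, rfl⟩
  | n + 1, ⟨_, ⟨_, x, hx, _⟩, _⟩ => exact ⟨x, hx⟩

lemma two_le [Finite (F ⧸ H)] (i : ℕ) (h : (C H y (i + 2)).Nonempty) :
    2 ≤ (C H y (i + 1)).ncard := by
  by_contra hc
  obtain ⟨v, hv⟩ := C_prev H y _ h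
  have h1 : ∀ u ∈ C H y (i + 1), u = v := fun u hu =>
    (Set.ncard_le_one (Set.toFinite _)).1 (by omega) u hu v hv
  have hB' : Q H y (i + 3) = insert v (Q H y (i + 1)) := by
    ext u
    constructor
    · intro hu
      by_cases hu' : u ∈ Q H y (i + 1)
      · exact Or.inr hu'
      · exact Or.inl (h1 u (by rw [(C_eq H y i).2]; exact ⟨hu, hu'⟩))
    · rintro (rfl | hu)
      · rw [(C_eq H y i).2] at hv; exact hv.1
      · exact Q_mono H y _ hu
  rw [(C_eq H y i).2] at hv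
  obtain ⟨⟨l, a, ha, hla⟩, hv2⟩ := hv
  obtain ⟨w, hw⟩ := h
  have hw2 := hw
  rw [(C_eq H y (i+1)).2] at hw2
  obtain ⟨⟨l', x, hx, rfl⟩, _⟩ := hw
  rw [h1 x hx] at hw2
  have k1 : (Q H y (i + 2)).ncard ≤ (Q H y (i + 1)).ncard := by
    apply Set.ncard_le_ncard_of_injOn (fun u => (letter l')⁻¹ • u)
    · intro u hu
      have : (letter l')⁻¹ • u ∈ Q H y (i + 3) := mem_nbr' hu l'
      rw [hB'] at this
      rcases this with e | e
      · exfalso
        apply hw2.2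
        rw [← e]; simpa using hu
      · exact e
    · exact (MulAction.injective _).injOn
  have k2 : (Q H y (i + 3)).ncard ≤ (Q H y (i + 2)).ncard := by
    apply Set.ncard_le_ncard_of_injOn (fun u => (letter l)⁻¹ • u)
    · intro u hu
      rw [hB'] at hu
      rcases hu with rfl | hu
      · rw [hla]; simpa using ha
      · exact nbr_Q H y _ (mem_nbr' hu l)
    · exact (MulAction.injective _).injOn
  rw [hB', Set.ncard_insert_of_notMem hv2] at k2
  omega

lemma card_C [Finite (F ⧸ H)] (n : ℕ) :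
    (C H y n).ncard + (Q H y n).ncard = (Q H y (n + 2)).ncard := by
  rw [(C_eq H y n).1]
  exact Set.ncard_sdiff_add_ncard_of_subset (Q_mono H y n)

lemma count [Finite (F ⧸ H)] (n : ℕ) (h : (C H y (n + 1)).Nonempty) :
    2 * n + 1 ≤ (Q H y (n + 2)).ncard + (Q H y (n + 1)).ncard := by
  induction n with
  | zero => simp [Q]
  | succ n ih =>
    have h1 := ih (C_prev H y _ h)
    have h2 := two_le H y n h
    have h3 := card_C H y (n + 1)
    simp only [add_assoc] at *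
    norm_num at *
    omega

theorem C_empty [H.FiniteIndex] (i : ℕ) (hi : H.index < i) : C H y i = ∅ := by
  by_contra hne
  obtain ⟨n, rfl⟩ : ∃ n, i = n + 1 := ⟨i - 1, by omega⟩
  have h := Set.nonempty_iff_ne_empty.2 hne
  have h1 := count H y n h
  have h2 := card_C H y (n + 1)
  have h3 := (Set.ncard_pos (Set.toFinite _)).2 h
  have h4 := Set.ncard_le_card (Q H y (n + 2))
  have h5 := Set.ncard_le_card (Q H y (n + 1 + 2))
  have : H.index = Nat.card (F ⧸ H) := rfl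
  omega

lemma E_eq (i : ℕ) : E H y i = {e | e.1 ∈ C H y i ∧ letter e.2 • e.1 ∈ C H y (i + 1)} := by
  induction i with
  | zero =>
    ext e
    simp only [E, C, Set.mem_ofPred_eq, Set.mem_singleton_iff]
    exact ⟨fun h => ⟨h, mem_nbr (S := {(y : F ⧸ H)}) h _⟩, fun h => h.1⟩
  | succ i ih =>
    ext ⟨t, l⟩
    simp only [E, ih, Set.mem_ofPred_eq]
    constructor
    · rintro ⟨⟨d, ⟨_, h2⟩, h3⟩, h4⟩
      rw [h3] at h2
      refine ⟨h2, mem_nbr h2 l, fun h => h4 ⟨(letter l • t, (l.1, !l.2)), ⟨h, ?_⟩, rfl, ?_⟩⟩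
      · simpa [letter_inv] using h2
      · simp [letter_inv]
    · rintro ⟨h1, _, h3⟩
      constructor
      · have : t ∈ nbr (C H y i) := by
          match i, h1 with
          | 0, h1 => exact h1
          | i + 1, h1 => exact h1.1
        obtain ⟨m, x, hx, rfl⟩ := this
        exact ⟨(x, m), ⟨hx, h1⟩, rfl⟩
      · rintro ⟨d, ⟨k1, _⟩, k2, _⟩
        exact h3 (k2 ▸ k1)

theorem E_empty [H.FiniteIndex] (i : ℕ) (hi : H.index < i + 1) : E H y i = ∅ := by
  rw [E_eq, C_empty H y (i + 1) hi]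
  simp

end Pool.Agent.H65.Coset
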