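import Mathlib

set_option autoImplicit false

namespace Pool.Agent.H65.CosetDefs

/-- The four letters `a, b, a⁻¹, b⁻¹` of `F₂`, indexed by `Fin 2 × Bool`. -/
def letter (l : Fin 2 × Bool) : FreeGroup (Fin 2) :=
  if l.2 = true then FreeGroup.of l.1 else (FreeGroup.of l.1)⁻¹

/-- `{h x H : h ∈ Ξ, xH ∈ S}`. -/
def nbr {H : Subgroup (FreeGroup (Fin 2))} (S : Set (FreeGroup (Fin 2) ⧸ H)) :
    Set (FreeGroup (Fin 2) ⧸ H) :=
  {v | ∃ l : Fin 2 × Bool, ∃ x ∈ S, v = letter l • x}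

/-- The sets `C_i` of cosets: `C_0 = {yH}`, `C_1 = nbr C_0` (as `C_{-1} = ∅`),
`C_{i+2} = nbr C_{i+1} \ C_i`. -/
def C (H : Subgroup (FreeGroup (Fin 2))) (y : FreeGroup (Fin 2)) :
    ℕ → Set (FreeGroup (Fin 2) ⧸ H)
  | 0 => {(y : FreeGroup (Fin 2) ⧸ H)}
  | 1 => nbr {(y : FreeGroup (Fin 2) ⧸ H)}
  | i + 2 => nbr (C H y (i + 1)) \ C H y i

/-- The highlighted edges; an edge `(rH, l)` goes from `rH` to `letter l • rH`.
`E H y i` is the set `E_{i+1}` of the problem. -/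
def E (H : Subgroup (FreeGroup (Fin 2))) (y : FreeGroup (Fin 2)) :
    ℕ → Set ((FreeGroup (Fin 2) ⧸ H) × (Fin 2 × Bool))
  | 0 => {e | e.1 = (y : FreeGroup (Fin 2) ⧸ H)}
  | i + 1 => {e | (∃ d ∈ E H y i, letter d.2 • d.1 = e.1) ∧
      ¬ ∃ d ∈ E H y i, d.1 = letter e.2 • e.1 ∧ letter d.2 • d.1 = e.1}

end Pool.Agent.H65.CosetDefs
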