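import Pool.Agent.H65.SquierC
import Pool.Agent.H65.SquierAb

/-! A diagram group whose derived subgroup has torsion in its abelianisation. -/

namespace Pool.Agent.H65.Squier

open scoped commutatorElement

theorem cmem {G : Type} [Group G] (x y : G) : ⁅x, y⁆ ∈ commutator G :=
  Subgroup.commutator_mem_commutator trivial trivial

theorem tors {G : Type} [Group G] (z c : G) (hc : c ∈ commutator G) (n : ℕ)
    (h : ∀ K : Subgroup G, K.Normal → (∀ k ∈ commutator G, Commute z k → k ∈ K) → c ^ n ∈ K) :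
    ⁅z, c⁆ ^ n ∈ ⁅commutator G, commutator G⁆ := by
  set D := commutator G
  have m : ∀ x y : G, ⁅x, y⁆ ∈ D := fun x y => cmem _ _
  let q := QuotientGroup.mk' ⁅D, D⁆
  have hq : ∀ {x}, q x = 1 ↔ x ∈ ⁅D, D⁆ := QuotientGroup.eq_one_iff _
  have cm : ∀ x ∈ D, ∀ y ∈ D, Commute (q x) (q y) := fun x hx y hy =>
    commutatorElement_eq_one_iff_commute.1 ((map_commutatorElement q x y).symm.trans
      (hq.2 (Subgroup.commutator_mem_commutator hx hy)))
  let K := D ⊓ (Subgroup.centralizer {q z}).comap q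
  have hK : ∀ {k}, k ∈ K ↔ k ∈ D ∧ Commute (q k) (q z) := by
    simp [K, Subgroup.mem_centralizer_singleton_iff, commute_iff_eq]
  have h1 := (hK.1 (h K ⟨fun k hk g => hK.2 ⟨Subgroup.Normal.conj_mem inferInstance _ (hK.1 hk).1 g,
    ?_⟩⟩ fun k hk h => hK.2 ⟨hk, (h.map q).symm⟩)).2
  · have h2 : ∀ n : ℕ, q ⁅z, c⁆ ^ n = ⁅q z, q c ^ n⁆ := fun n => by
      induction n with
      | zero => simp
      | succ n ih =>
        rw [pow_succ, ih, ← ((cm c hc _ (m z c)).pow_left n).mul_inv_cancel, map_commutatorElement]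
        simp only [commutatorElement_def, pow_succ]
        group
    rw [← hq, map_pow, h2, ← map_pow, h1.symm.commutator_eq]
  · have h2 := ((hK.1 hk).2.mul_right (cm k (hK.1 hk).1 _ (m z⁻¹ g⁻¹))).map (MulAut.conj (q g))
    simpa [commutatorElement_def, mul_assoc] using h2

@[ext] structure Om : Type where
  e : ℤˣ
  x : ZMod 3
  y : ZMod 3
  w : ZMod 3
  deriving DecidableEq

instance : Group Om where
  mul p q := ⟨p.e * q.e, p.e • q.x + p.x, p.e • q.y + p.x * q.w + p.y, p.w + q.w⟩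
  one := ⟨1, 0, 0, 0⟩
  inv p := ⟨p.e⁻¹, -(p.e⁻¹ • p.x), p.e⁻¹ • (p.x * p.w - p.y), -p.w⟩
  mul_assoc p q r := Om.ext (mul_assoc _ _ _) (by
      change (_ * _) • _ + (_ • _ + _) = _ • (_ • _ + _) + _
      simp [mul_smul, add_assoc]) (by
      change (_ * _) • _ + (_ • _ + _) * _ + (_ • _ + _ * _ + _) =
        _ • (_ • _ + _ * _ + _) + _ * (_ + _) + _
      simp only [mul_smul, smul_add, add_mul, mul_add, smul_mul_assoc]
      abel) (add_assoc _ _ _)
  one_mul p := Om.ext (one_mul _) ((add_zero _).trans (one_smul _ _)) (by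
    change (1 : ℤˣ) • _ + 0 * _ + 0 = _
    simp) (zero_add _)
  mul_one p := Om.ext (mul_one _) (by
    change _ • (0 : ZMod 3) + _ = _
    simp) (by
    change _ • (0 : ZMod 3) + _ * 0 + _ = _
    simp) (add_zero _)
  inv_mul_cancel p := Om.ext (inv_mul_cancel _) (add_neg_cancel _) (by
    change _ • _ + -(_ • _) * _ + _ • (_ - _) = (0 : ZMod 3)
    simp only [smul_sub, neg_mul, smul_mul_assoc]
    abel) (neg_add_cancel _)

theorem Om.mul_def (p q : Om) :
    p * q = ⟨p.e * q.e, p.e • q.x + p.x, p.e • q.y + p.x * q.w + p.y, p.w + q.w⟩ := rfl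

theorem Om.met : ⁅commutator Om, commutator Om⁆ = ⊥ := by
  let f : Om →* ℤˣ × Multiplicative (ZMod 3) := MonoidHom.mk' (fun p => (p.e, .ofAdd p.w)) fun _ _ => rfl
  refine eq_bot_iff.2 (Subgroup.commutator_le.2 fun p hp q hq => ?_)
  obtain ⟨h1, h2⟩ := Prod.ext_iff.1 (Abelianization.commutator_subset_ker f hp)
  obtain ⟨h3, h4⟩ := Prod.ext_iff.1 (Abelianization.commutator_subset_ker f hq)
  refine commutatorElement_eq_one_iff_mul_comm.2 ?_
  simp [Om.mul_def, show p.e = 1 from h1, show q.e = 1 from h3, show p.w = 0 from h2,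
    show q.w = 0 from h4, add_comm]

def RD : Set (List (Fin 4) × List (Fin 4)) :=
  {([0], [0, 2]), ([0], [0, 3]), ([1], [2, 1]), ([1], [3, 1]), ([2, 2], [3, 3, 3]),
    ([3, 3, 3], [2, 3, 2, 3]), ([2, 3, 2, 3], [2, 2])}

def fv : List (Fin 4) → ZMod 3 × ZMod 3
  | [] => (0, 1)
  | x :: l => if x = 2 then (-(fv l).1, (fv l).2) else if x = 3 then ((fv l).1 + (fv l).2, (fv l).2)
    else (0, 0)

theorem fv_rel (a b : List (Fin 4)) {r} (hr : r ∈ RD) : fv (a ++ r.1 ++ b) = fv (a ++ r.2 ++ b) := by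
  induction a with
  | cons x a ih => simp only [List.cons_append, fv, ih]
  | nil =>
    have : ∀ x y : ZMod 3, x + y + y + y = x := by decide
    rcases hr with rfl | rfl | rfl | rfl | rfl | rfl | rfl <;> simp [fv, this]

def nu : List (Fin 4) → Om
  | [] => 1
  | x :: l => if x = 0 then ⟨1, 0, (fv l).1, (fv l).2⟩ else 1

def gm (t : Tr (Fin 4)) : Om :=
  if t.2.1 = ([2, 3, 2, 3], [2, 2]) then nu t.1 else if t.1 = [] ∧ t.2.1 = ([0], [0, 2]) then
    ⟨-1, 0, 0, 0⟩ else if t.1 = [] ∧ t.2.1 = ([0], [0, 3]) then ⟨1, 1, 0, 0⟩ else 1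

theorem nu_comm (a b : List (Fin 4)) : nu a * nu b = nu b * nu a := by
  have : ∀ a, (nu a).e = 1 ∧ (nu a).x = 0 := by
    rintro (_ | ⟨x, a⟩)
    · exact ⟨rfl, rfl⟩
    · rw [nu]
      split_ifs <;> exact ⟨rfl, rfl⟩
  simp [Om.mul_def, this, add_comm]

theorem hRD : ∀ r ∈ RD, r.1 ≠ [] ∧ r.2 ≠ [] := by
  rintro _ (rfl | rfl | rfl | rfl | rfl | rfl | rfl) <;> simp

def rhoD : U RD →* Om := ulift gm fun a b c r hr s hs => by
  by_cases h : s = ([2, 3, 2, 3], [2, 2])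
  swap
  · simp [gm, h, (hRD r hr).1, (hRD r hr).2]
  rcases a with _ | ⟨x, a⟩
  · rcases hr with rfl | rfl | rfl | rfl | rfl | rfl | rfl <;> simp [gm, h, nu, fv, Om.mul_def, add_comm]
  · have : nu (x :: a ++ r.1 ++ b) = nu (x :: a ++ r.2 ++ b) := by
      simp only [List.cons_append, nu, fv_rel a b hr]
    simp only [gm, h, if_true, this, List.cons_ne_nil, false_and, if_false]
    split_ifs
    exacts [nu_comm _ _, by simp]

variable {A : Type} {R : Set (List A × List A)} {X Y : List A}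

variable (X Y) in
/-- `t` shifts the word `v` from the left end to the right end -/
def Sh (v : List A) (t : Loop R (X ++ Y)) : Prop := ∃ l m, Pth R X (X ++ v) l ∧ Pth R Y (v ++ Y) m ∧
  t.1 = (Lw X m)⁻¹ * Rw Y l

theorem Sh.mul {v v' : List A} {t t' : Loop R (X ++ Y)} (h : Sh X Y v t) (h' : Sh X Y v' t') :
    Sh X Y (v ++ v') (t * t') := by
  obtain ⟨l, m, h1, h2, h3⟩ := h
  obtain ⟨l', m', h4, h5, h6⟩ := h'
  refine ⟨_, _, by simpa using (h1.R' v').mul h4, by simpa using (h5.L v).mul h2, ?_⟩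
  simp [h3, h6, Lw_Lw, Rw_Rw, mul_assoc, eq_mul_inv_of_mul_eq (inter h1 h5)]

theorem cen {u : List A} {ζ l m : U R} (h1 : Pth R u u ζ) (h2 : Pth R X (X ++ u) l)
    (h3 : Pth R Y (u ++ Y) m) {z : Loop R (X ++ Y)} (hz : z.1 = Rw Y (l⁻¹ * Lw X ζ * l))
    (K : Subgroup (Loop R (X ++ Y))) [hN : K.Normal] (hK : ∀ k ∈ commutator _, Commute z k → k ∈ K)
    {p v v' : List A} {s t t' : Loop R (X ++ Y)} (hs : Sh X Y p s) (ht : Sh X Y v t)
    (ht' : Sh X Y v' t') {ε : U R} (h : Pth R v v' ε) :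
    Commute (s : _ ⧸ K) ((t : _ ⧸ K)⁻¹ * t') := by
  have k1 : ∀ (g : Loop R (X ++ Y)) α, Pth R X X α → g.1 = Rw Y α → ∀ p (s : Loop R (X ++ Y)), Sh X Y p s →
      Commute (s : _ ⧸ K) g := by
    rintro g α h4 h5 p s ⟨l', m', h6, h7, h8⟩
    let t : Loop R (X ++ Y) := ⟨(Lw X m)⁻¹ * Rw Y l, (h3.L X).inv.mul (by simpa using h2.R' Y)⟩
    have h9 : Pth R X X (l'⁻¹ * Rw p α * l' * α⁻¹) := ((h6.inv.mul (h4.R' p)).mul h6).mul h4.inv
    have h10 : (⁅s⁻¹, g⁆ :).1 = Rw Y (l'⁻¹ * Rw p α * l' * α⁻¹) := by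
      simp [commutatorElement_def, h5, h8, mul_assoc, Rw_Rw, eq_mul_inv_of_mul_eq (inter h4 h7)]
    have := hK (t⁻¹ * ⁅s⁻¹, g⁆ * t) (Subgroup.Normal.conj_mem' inferInstance _
      (cmem _ _) _) (Subtype.ext (by
        generalize l'⁻¹ * Rw p α * l' * α⁻¹ = β at h9 h10
        have := inter h9 h3
        have h11 := inter h9 (h1.R' Y)
        simp only [Subgroup.coe_mul, Subgroup.coe_inv, h10, hz, t, map_mul, map_inv, mul_inv_rev,
          inv_inv, mul_assoc, mul_inv_cancel_left, ← Lw_Rw]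
        simp only [← mul_assoc _ (Rw Y β), ← this]
        simp only [mul_assoc, mul_inv_cancel_left]
        rw [← mul_assoc (Rw _ β), h11, mul_assoc]))
    rw [hN.mem_comm_iff, mul_inv_cancel_left, ← QuotientGroup.eq_one_iff] at this
    simpa using (commutatorElement_eq_one_iff_commute (g₁ := ((s⁻¹ :) : _ ⧸ K)) (g₂ := g)).1 this
  have k2 : ∀ (g : Loop R (X ++ Y)) β, Pth R Y Y β → g.1 = Lw X β → ∀ p (s : Loop R (X ++ Y)), Sh X Y p s →
      Commute (s : _ ⧸ K) g := by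
    rintro g β h4 h5 p s ⟨l', m', h6, h7, h8⟩
    have h9 : Pth R Y Y (m'⁻¹ * Lw p β * m' * β⁻¹) := ((h7.inv.mul (h4.L p)).mul h7).mul h4.inv
    have h10 : (⁅s, g⁆ :).1 = Lw X (m'⁻¹ * Lw p β * m' * β⁻¹) := by
      simp [commutatorElement_def, h5, h8, mul_assoc, Lw_Lw, eq_mul_inv_of_mul_eq (inter h6 h4).symm]
    exact commutatorElement_eq_one_iff_commute.1 ((QuotientGroup.eq_one_iff _).2 (hK ⁅s, g⁆
      (cmem _ _) (Subtype.ext
        ((congrArg₂ _ hz h10).trans ((inter ((h2.inv.mul (h1.L X)).mul h2) h9).trans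
          (congrArg₂ _ h10 hz).symm)))))
  obtain ⟨l₁, m₁, h4, h5, h6⟩ := id ht
  obtain ⟨l₂, m₂, h7, h8, h9⟩ := ht'
  have h10 := (h7.inv.mul (h.L X)).mul h4
  have h11 := (h8.inv.mul (h.R' Y)).mul h5
  have : t' = ⟨_, h11.L X⟩ * t * (⟨_, h10.R' Y⟩ : Loop R (X ++ Y))⁻¹ :=
    Subtype.ext (by simp [h6, h9, Lw_Rw, mul_assoc])
  rw [this, QuotientGroup.mk_mul, QuotientGroup.mk_mul, ← (k2 _ _ h11 rfl _ _ ht).eq, mul_assoc,
    inv_mul_cancel_left]
  exact (k2 _ _ h11 rfl _ _ hs).mul_right (k1 _ _ h10 rfl _ _ hs).inv_right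

abbrev GD : Type := Loop RD ([0] ++ [1])

theorem exD : ∃ g ∈ commutator GD, g ^ 3 ∈ ⁅commutator GD, commutator GD⁆ ∧
    g ∉ ⁅commutator GD, commutator GD⁆ := by
  have e1 : ∀ {r}, r ∈ RD → Pth RD r.1 r.2 (e RD ([], r, [])) := fun h => by
    simpa using Pth.edge [] [] h
  have l2 := e1 (r := ([0], [0] ++ [2])) (by simp [RD])
  have l3 := e1 (r := ([0], [0] ++ [3])) (by simp [RD])
  have m2 := e1 (r := ([1], [2] ++ [1])) (by simp [RD])
  have m3 := e1 (r := ([1], [3] ++ [1])) (by simp [RD])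
  have r1 := e1 (r := ([2, 2], [3, 3, 3])) (by simp [RD])
  have r2 := e1 (r := ([3, 3, 3], [2, 3, 2, 3])) (by simp [RD])
  have r3 := e1 (r := ([2, 3, 2, 3], [2, 2])) (by simp [RD])
  let a : GD := ⟨_, (m2.L [0]).inv.mul (l2.R' [1])⟩
  let b : GD := ⟨_, (m3.L [0]).inv.mul (l3.R' [1])⟩
  have ha : Sh [0] [1] [2] a := ⟨_, _, l2, m2, rfl⟩
  have hb : Sh [0] [1] [3] b := ⟨_, _, l3, m3, rfl⟩
  have h1 := r3.mul (r2.mul r1)
  have h2 := (l2.R' [2]).mul l2
  let z : GD := ⟨_, ((h2.inv.mul (h1.L [0])).mul h2).R' [1]⟩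
  have m : ∀ x y : GD, ⁅x, y⁆ ∈ commutator _ := fun x y =>
    cmem _ _
  refine ⟨⁅z, ⁅a⁻¹, b⁆⁆, m _ _, tors _ _ (m _ _) 3 fun K hN hK => ?_, fun h => ?_⟩
  · have h3 := fun {p v v' s t t'} hs ht ht' {ε} => cen (z := z) (p := p) (v := v) (v' := v') (s := s)
      (t := t) (t' := t') (ε := ε) h1 h2 ((m2.L [2]).mul m2) rfl K hK hs ht ht'
    have h4 := h3 ha (ha.mul ha) (hb.mul (hb.mul hb)) r1
    have h5 := h3 hb (ha.mul ha) (ha.mul (hb.mul (ha.mul hb))) r3.inv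
    rw [← QuotientGroup.eq_one_iff]
    simp only [QuotientGroup.mk_mul, QuotientGroup.mk_pow, commutatorElement_def,
      QuotientGroup.mk_inv] at h4 h5 ⊢
    generalize (a : _ ⧸ K) = a at *
    generalize (b : _ ⧸ K) = b at *
    have h6 : Commute a (b ^ 3) := by
      simpa [pow_succ, mul_assoc] using ((Commute.refl a).mul_right (Commute.refl a)).mul_right h4
    have h7 : Commute (a⁻¹ * b * a⁻¹⁻¹) b⁻¹ := by
      simpa [mul_assoc] using (h5.mul_right (Commute.refl b).inv_right).symm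
    rw [h7.mul_pow, conj_pow, h6.inv_left.mul_inv_cancel, inv_pow, mul_inv_cancel]
  · have := Subgroup.mem_map_of_mem (rhoD.comp (Subgroup.subtype _)) h
    rw [Subgroup.map_commutator] at this
    have h3 := Om.met.le (Subgroup.commutator_mono (Subgroup.map_le_iff_le_comap.2 ?_)
      (Subgroup.map_le_iff_le_comap.2 ?_) this)
    · simp only [Subgroup.mem_bot, map_commutatorElement, MonoidHom.comp_apply, Subgroup.coe_subtype,
        a, b, z, map_mul, map_inv, Lw_e, Rw_e, rhoD, ulift_e] at h3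
      revert h3
      decide
    all_goals
      exact Subgroup.commutator_le.2 fun x _ y _ => by
        simpa using cmem _ _

end Pool.Agent.H65.Squier
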