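import Mathlib

/-! Cohomological and algebraic dimension of a group. -/

namespace Pool.Agent.H65.Coh

/-- The cohomological dimension: the supremum of the `n` with `Hⁿ(G; M) ≠ 0` for some
`ℤG`-module `M`. -/
noncomputable def cd (G : Type) [Group G] : ℕ∞ :=
  ⨆ (n : ℕ) (_ : ∃ M : Rep.{0} ℤ G, Nontrivial (groupCohomology M n)), (n : ℕ∞)

/-- The algebraic dimension: the supremum of the `n` such that `ℤⁿ` embeds in `G`. -/
noncomputable def ad (G : Type) [Group G] : ℕ∞ :=
  ⨆ (n : ℕ) (_ : ∃ f : Multiplicative (Fin n → ℤ) →* G, Function.Injective f), (n : ℕ∞)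

end Pool.Agent.H65.Coh
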