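import Mathlib

/-! Binomial coefficients and factorials are Diophantine; bounded universal quantifiers. -/

namespace Pool.Agent.H65.Dprm

open Dioph Finset

theorem digit {u : ℕ} (k : ℕ) : ∀ (c : ℕ → ℕ) (N : ℕ), (∀ i, c i < u) →
    (∑ i ∈ range N, c i * u ^ i) / u ^ k % u = if k < N then c k else 0 := by
  have key : ∀ (c : ℕ → ℕ) (N : ℕ), ∑ i ∈ range (N + 1), c i * u ^ i =
      c 0 + u * ∑ i ∈ range N, c (i + 1) * u ^ i := fun c N => by
    rw [sum_range_succ', mul_sum, add_comm]
    simp only [pow_zero, mul_one, pow_succ]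
    congr 1
    exact sum_congr rfl fun i _ => by ring
  induction k with
  | zero =>
    intro c N hc
    cases N with
    | zero => simp
    | succ N => rw [key]; simp [Nat.mod_eq_of_lt (hc 0)]
  | succ k ih =>
    intro c N hc
    cases N with
    | zero => simp
    | succ N =>
      have hu : 0 < u := lt_of_le_of_lt (Nat.zero_le _) (hc 0)
      rw [key, pow_succ', ← Nat.div_div_eq_div_mul, Nat.add_mul_div_left _ _ hu,
        Nat.div_eq_of_lt (hc 0), zero_add, ih (fun i => c (i + 1)) N fun i => hc _]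
      simp

theorem choose_eq (n k : ℕ) : n.choose k = (2 ^ n + 1 + 1) ^ n / (2 ^ n + 1) ^ k % (2 ^ n + 1) := by
  have h := digit (u := 2 ^ n + 1) k (fun i => n.choose i) (n + 1)
    fun i => Nat.lt_succ_of_le (Nat.choose_le_two_pow n i)
  rw [add_pow]
  simp only [one_pow, mul_one, Nat.cast_id]
  rw [sum_congr rfl fun i _ => mul_comm _ (n.choose i), h]
  split_ifs with h1
  · rfl
  · exact Nat.choose_eq_zero_of_lt (by omega)

theorem pow_le (s d n : ℕ) : (s + d) ^ (n + 1) ≤ s ^ (n + 1) + (n + 1) * d * (s + d) ^ n := by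
  induction n with
  | zero => simp
  | succ n ih =>
    have h1 : s ^ (n + 1) ≤ (s + d) ^ (n + 1) := Nat.pow_le_pow_left (by omega) _
    calc (s + d) ^ (n + 1 + 1) = (s + d) * (s + d) ^ (n + 1) := by ring
      _ ≤ (s + d) * (s ^ (n + 1) + (n + 1) * d * (s + d) ^ n) := Nat.mul_le_mul_left _ ih
      _ = s ^ (n + 1 + 1) + d * s ^ (n + 1) + (n + 1) * d * (s + d) ^ (n + 1) := by ring
      _ ≤ s ^ (n + 1 + 1) + d * (s + d) ^ (n + 1) + (n + 1) * d * (s + d) ^ (n + 1) := by gcongr
      _ = _ := by ring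

theorem factorial_eq (n r : ℕ) (h : (n ^ n + 1) * (n * n) + n < r) :
    n.factorial = r ^ n / r.choose n := by
  symm
  have e := Nat.descFactorial_eq_factorial_mul_choose r n
  refine Nat.div_eq_of_lt_le (e ▸ Nat.descFactorial_le_pow r n) ?_
  cases n with
  | zero => simp
  | succ n =>
    obtain ⟨s, rfl⟩ : ∃ s, r = s + (n + 1) := ⟨r - (n + 1), by omega⟩
    have h1 : s ^ (n + 1) ≤ (s + (n + 1)).descFactorial (n + 1) :=
      le_trans (Nat.pow_le_pow_left (by omega) _) (Nat.pow_sub_le_descFactorial _ _)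
    have h2 := pow_le s (n + 1) n
    have h3 := Nat.factorial_le_pow (n + 1)
    have h4 := Nat.factorial_pos (n + 1)
    rw [e] at h1
    generalize (n + 1).factorial = F at *
    generalize (s + (n + 1)).choose (n + 1) = C at *
    have h5 : (F + 1) * ((n + 1) * (n + 1)) < s + (n + 1) :=
      lt_of_le_of_lt (le_trans (by gcongr) (Nat.le_add_right _ _)) h
    have h6 : 0 < (s + (n + 1)) ^ n := by positivity
    rw [pow_succ] at h2 ⊢
    generalize (s + (n + 1)) ^ n = P at *
    generalize s ^ (n + 1) = Q at *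
    generalize (n + 1) * (n + 1) = T at *
    generalize s + (n + 1) = r at *
    refine Nat.lt_of_mul_lt_mul_left (a := F) ?_
    have h7 : (F + 1) * T * P < r * P := Nat.mul_lt_mul_of_pos_right h5 h6
    nlinarith [Nat.mul_le_mul_left (F + 1) h2, Nat.mul_le_mul_left (F + 1) h1]

variable {α : Type} {f g : (α → ℕ) → ℕ}

theorem cst (n : ℕ) : DiophFn fun _ : α → ℕ => n := const_dioph n

theorem choose_dioph (df : DiophFn f) (dg : DiophFn g) : DiophFn fun v => (f v).choose (g v) := by
  have h := add_dioph (pow_dioph (cst 2) df) (cst 1)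
  simp only [choose_eq]
  exact mod_dioph (div_dioph (pow_dioph (add_dioph h (cst 1)) df) (pow_dioph h dg)) h

theorem factorial_dioph (df : DiophFn f) : DiophFn fun v => (f v).factorial := by
  have h := add_dioph (add_dioph (mul_dioph (add_dioph (pow_dioph df df) (cst 1))
    (mul_dioph df df)) df) (cst 1)
  have e : ∀ n : ℕ, n.factorial = _ := fun n => factorial_eq n _ (Nat.lt_succ_self _)
  simp only [e]
  exact div_dioph (pow_dioph h df) (choose_dioph h df)

theorem desc_dioph (df : DiophFn f) (dg : DiophFn g) :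
    DiophFn fun v => (f v).descFactorial (g v) := by
  simp only [Nat.descFactorial_eq_factorial_mul_choose]
  exact mul_dioph (factorial_dioph dg) (choose_dioph df dg)

theorem forall_list {ι : Type} (l : List ι) (S : ι → Set (α → ℕ)) (h : ∀ i, Dioph (S i)) :
    Dioph {v | ∀ i ∈ l, v ∈ S i} := by
  induction l with
  | nil => exact of_no_dummies _ 0 (by simp)
  | cons i l ih => exact ((h i).inter ih).ext (by simp)

theorem sum_list (l : List α) : DiophFn fun v : α → ℕ => (l.map v).sum := by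
  induction l with
  | nil => exact cst 0
  | cons i l ih => simpa using add_dioph (proj_dioph i) ih

theorem poly_props {γ : Type} {p : (γ → ℕ) → ℤ} (hp : IsPoly p) : ∃ (l : List γ) (d : ℕ),
    (∀ (m : ℕ) (x y : γ → ℕ), (∀ i ∈ l, x i ≡ y i [MOD m]) → p x ≡ p y [ZMOD m]) ∧
    ∀ (x : γ → ℕ) (N : ℕ), (∀ i ∈ l, x i ≤ N) → (p x).natAbs ≤ (N + 2) ^ d := by
  induction hp with
  | proj i =>
    refine ⟨[i], 1, fun m x y h => Int.natCast_modEq_iff.2 (h i (by simp)), fun x N h => ?_⟩
    have := h i (by simp)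
    simp; omega
  | const n =>
    exact ⟨[], n.natAbs, fun _ _ _ _ => rfl, fun x N _ => (Nat.lt_pow_self (by omega)).le⟩
  | sub _ _ ih1 ih2 =>
    obtain ⟨l1, d1, a1, b1⟩ := ih1
    obtain ⟨l2, d2, a2, b2⟩ := ih2
    refine ⟨l1 ++ l2, d1 + d2 + 1, fun m x y h => (a1 m x y fun i hi => h i (by simp [hi])).sub
      (a2 m x y fun i hi => h i (by simp [hi])), fun x N h => (Int.natAbs_sub_le _ _).trans ?_⟩
    have h1 := (b1 x N fun i hi => h i (by simp [hi])).trans
      (Nat.pow_le_pow_right (by omega) (Nat.le_add_right d1 d2))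
    have h2 := (b2 x N fun i hi => h i (by simp [hi])).trans
      (Nat.pow_le_pow_right (by omega) (Nat.le_add_left d2 d1))
    rw [pow_succ, mul_add]
    omega
  | mul _ _ ih1 ih2 =>
    obtain ⟨l1, d1, a1, b1⟩ := ih1
    obtain ⟨l2, d2, a2, b2⟩ := ih2
    refine ⟨l1 ++ l2, d1 + d2, fun m x y h => (a1 m x y fun i hi => h i (by simp [hi])).mul
      (a2 m x y fun i hi => h i (by simp [hi])), fun x N h => ?_⟩
    rw [Int.natAbs_mul, pow_add]
    exact Nat.mul_le_mul (b1 x N fun i hi => h i (by simp [hi]))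
      (b2 x N fun i hi => h i (by simp [hi]))

/-- the moduli -/
def md (b K y : ℕ) : ℕ := b.factorial / (y + 1) * K.factorial - 1

theorem md_spec {b K y : ℕ} (hy : y < b) :
    (y + 1) * md b K y + y = b.factorial * K.factorial - 1 ∧ K.factorial ∣ md b K y + 1 ∧
      K.factorial ≤ md b K y + 1 := by
  obtain ⟨c, hc⟩ : y + 1 ∣ b.factorial := Nat.dvd_factorial (by omega) hy
  have h0 : 0 < c := Nat.pos_of_mul_pos_left (hc ▸ b.factorial_pos)
  have h1 := K.factorial_pos
  have h2 : md b K y + 1 = c * K.factorial := by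
    rw [md, hc, Nat.mul_div_cancel_left _ (by omega)]
    have : 0 < c * K.factorial := by positivity
    omega
  refine ⟨?_, h2 ▸ dvd_mul_left _ _, h2 ▸ Nat.le_mul_of_pos_left _ h0⟩
  have : (y + 1) * md b K y + y + 1 = b.factorial * K.factorial := by
    rw [hc, mul_assoc, ← h2]; ring
  omega

theorem md_prime {b K y p : ℕ} (hy : y < b) (hp : p.Prime) (h : p ∣ md b K y) : K < p := by
  by_contra hK
  have h1 : p ∣ md b K y + 1 := ((Nat.dvd_factorial hp.pos (by omega))).trans (md_spec hy).2.1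
  exact hp.one_lt.ne' (Nat.dvd_one.1 ((Nat.dvd_add_right h).1 h1))

theorem md_mod {b K y : ℕ} (hy : y < b) : b.factorial * K.factorial - 1 ≡ y [MOD md b K y] := by
  rw [← (md_spec (K := K) hy).1]
  simp [Nat.ModEq]

theorem md_coprime {b K y y' : ℕ} (hK : b ≤ K) (hy : y < b) (hy' : y' < b) (h : y ≠ y') :
    (md b K y).Coprime (md b K y') := by
  refine Nat.coprime_of_dvd fun p hp h1 h2 => ?_
  have h3 := md_prime hy hp h1
  exact h (Nat.ModEq.eq_of_lt_of_lt (((md_mod hy).of_dvd h1).symm.trans ((md_mod hy').of_dvd h2))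
    (by omega) (by omega))

theorem md_prod (b K : ℕ) :
    (b.factorial * K.factorial - 1).choose b = ∏ y ∈ range b, md b K y := by
  refine Nat.eq_of_mul_eq_mul_left b.factorial_pos ?_
  rw [← Nat.descFactorial_eq_factorial_mul_choose, Nat.descFactorial_eq_prod_range]
  conv_rhs => rw [← prod_range_add_one_eq_factorial, ← prod_mul_distrib]
  refine prod_congr rfl fun y hy => ?_
  have := (md_spec (K := K) (mem_range.1 hy)).1
  omega

theorem md_dvd {b K : ℕ} (hK : b ≤ K) (X : ℕ) :
    (b.factorial * K.factorial - 1).choose b ∣ X ↔ ∀ y < b, md b K y ∣ X := by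
  rw [md_prod]
  refine ⟨fun h y hy => (dvd_prod_of_mem _ (mem_range.2 hy)).trans h, fun h => ?_⟩
  refine prod_dvd_of_isRelPrime (fun y hy y' hy' e => ?_) fun y hy => h y (mem_range.1 hy)
  exact Nat.coprime_iff_isRelPrime.1
    (md_coprime hK (by simpa using hy) (by simpa using hy') e)

theorem exists_mod {p z w : ℕ} (hp : p.Prime) (hw : 0 < w) (h : p ∣ z.descFactorial w) :
    ∃ x < w, x ≡ z [MOD p] := by
  rw [Nat.descFactorial_eq_prod_range] at h
  obtain ⟨j, hj, h⟩ := (Prime.dvd_finsetProd_iff hp.prime _).1 h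
  rw [mem_range] at hj
  by_cases hz : z < j
  · exact ⟨z, by omega, rfl⟩
  · exact ⟨j, hj, (Nat.modEq_iff_dvd' (by omega)).2 h⟩

theorem dvd_desc {m z w x : ℕ} (hx : x < w) (h : x ≡ z [MOD m]) : m ∣ z.descFactorial w := by
  by_cases hz : z < w
  · rw [Nat.descFactorial_eq_zero_iff_lt.2 hz]; exact dvd_zero _
  · rw [Nat.descFactorial_eq_prod_range]
    exact ((Nat.modEq_iff_dvd' (by omega)).1 h).trans (dvd_prod_of_mem _ (mem_range.2 hx))

theorem bq_core {β : Type} (p : (Option α ⊕ β → ℕ) → ℤ) (l : List (Option α ⊕ β)) (d : ℕ)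
    (hc : ∀ (m : ℕ) (x y : _ → ℕ), (∀ i ∈ l, x i ≡ y i [MOD m]) → p x ≡ p y [ZMOD m])
    (hb : ∀ (x : _ → ℕ) (N : ℕ), (∀ i ∈ l, x i ≤ N) → (p x).natAbs ≤ (N + 2) ^ d)
    (v : α → ℕ) (b A : ℕ) (hA : ∀ a, Sum.inl (some a) ∈ l → v a ≤ A) :
    (∀ y < b, ∃ t : β → ℕ, p (Sum.elim (fun o => o.elim y v) t) = 0) ↔
      ∃ (w q : ℕ) (z : β → ℕ), q = b.factorial * (b + (b + w + A + 2) ^ d + 3).factorial - 1 ∧
        0 < w ∧ (∀ j, Sum.inr j ∈ l → q.choose b ∣ (z j).descFactorial w) ∧
        q.choose b ∣ (p (Sum.elim (fun o => o.elim q v) z)).natAbs := by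
  classical
  constructor
  · intro h
    choose! t ht using h
    obtain ⟨w, hw⟩ : ∃ w, ∀ y < b, ∀ j, Sum.inr j ∈ l → t y j < w := by
      refine ⟨(range b).sup (fun y => l.toFinset.sup fun i => Sum.elim (fun _ => 0) (t y) i) + 1,
        fun y hy j hj => Nat.lt_succ_of_le ?_⟩
      exact le_trans (le_sup (f := fun i => Sum.elim (fun _ => 0) (t y) i) (List.mem_toFinset.2 hj))
        (le_sup (f := fun y => l.toFinset.sup fun i => Sum.elim (fun _ => 0) (t y) i)
          (mem_range.2 hy))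
    set K := b + (b + (w + 1) + A + 2) ^ d + 3 with hK
    have hbK : b ≤ K := by omega
    have crt : ∀ j, ∃ z, ∀ y < b, z ≡ t y j [MOD md b K y] := fun j => by
      obtain ⟨z, hz⟩ := Nat.chineseRemainderOfFinset (fun y => t y j) (md b K) (range b)
        (fun y hy => by
          have h1 := (md_spec (K := K) (mem_range.1 hy)).2.2
          have h2 : 3 ≤ K.factorial := le_trans (by omega) (Nat.self_le_factorial K)
          omega)
        (fun y hy y' hy' e => md_coprime hbK (by simpa using hy) (by simpa using hy') e)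
      exact ⟨z, fun y hy => hz y (mem_range.2 hy)⟩
    choose z hz using crt
    refine ⟨w + 1, _, z, rfl, by omega, fun j hj => (md_dvd hbK _).2 fun y hy =>
      dvd_desc (Nat.lt_succ_of_lt (hw y hy j hj)) (hz j y hy).symm, (md_dvd hbK _).2 fun y hy => ?_⟩
    have := hc (md b K y) (Sum.elim (fun o => o.elim (b.factorial * K.factorial - 1) v) z)
      (Sum.elim (fun o => o.elim y v) (t y)) (by
        rintro ((_ | a) | j) _
        exacts [md_mod hy, rfl, hz j y hy])
    rw [ht y hy] at this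
    exact Int.natCast_dvd.1 (Int.modEq_zero_iff_dvd.1 this)
  · rintro ⟨w, q, z, rfl, hw, h1, h2⟩ y hy
    set K := b + (b + w + A + 2) ^ d + 3 with hK
    have hbK : b ≤ K := by omega
    obtain ⟨r, hr, hr2⟩ := Nat.exists_prime_and_dvd (n := md b K y) (by
      have h1 := (md_spec (K := K) hy).2.2
      have h2 : 3 ≤ K.factorial := le_trans (by omega) (Nat.self_le_factorial K)
      omega)
    have h3 : ∀ j, ∃ x, Sum.inr j ∈ l → x < w ∧ x ≡ z j [MOD r] := fun j => by
      by_cases hj : Sum.inr j ∈ l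
      · obtain ⟨x, hx⟩ := exists_mod hr hw (hr2.trans ((md_dvd hbK _).1 (h1 j hj) y hy))
        exact ⟨x, fun _ => hx⟩
      · exact ⟨0, fun h => absurd h hj⟩
    choose t ht using h3
    refine ⟨t, ?_⟩
    have h4 := hc r (Sum.elim (fun o => o.elim y v) t)
      (Sum.elim (fun o => o.elim (b.factorial * K.factorial - 1) v) z) (by
        rintro ((_ | a) | j) hj
        exacts [((md_mod hy).of_dvd hr2).symm, rfl, (ht j hj).2])
    have h5 := hb (Sum.elim (fun o => o.elim y v) t) (b + w + A) (by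
      rintro ((_ | a) | j) hj
      · exact le_trans hy.le (by omega)
      · exact le_trans (hA a hj) (by omega)
      · exact le_trans (ht j hj).1.le (by omega))
    have h6 := Int.natCast_dvd.2 (hr2.trans ((md_dvd hbK _).1 h2 y hy))
    have h7 := Int.natCast_dvd.1
      (Int.modEq_zero_iff_dvd.1 (h4.trans (Int.modEq_zero_iff_dvd.2 h6)))
    have h8 := md_prime hy hr hr2
    exact Int.natAbs_eq_zero.1 (Nat.eq_zero_of_dvd_of_lt h7 (by omega))

/-- bounded universal quantification preserves Diophantine sets -/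
theorem ball_dioph {S : Set (Option α → ℕ)} (d : Dioph S) (df : DiophFn f) :
    Dioph {v : α → ℕ | ∀ y < f v, (fun o : Option α => o.elim y v) ∈ S} := by
  obtain ⟨β, p, hp⟩ := d
  obtain ⟨l, d, hc, hb⟩ := poly_props p.isPoly
  let la : List α := l.filterMap fun i => Sum.elim id (fun _ => none) i
  let lb : List β := l.filterMap fun i => Sum.elim (fun _ => none) some i
  have hla : ∀ a, a ∈ la ↔ Sum.inl (some a) ∈ l := by simp [la]
  have hlb : ∀ a, a ∈ lb ↔ Sum.inr a ∈ l := by simp [lb]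
  have dB : DiophFn fun u : α ⊕ (Bool ⊕ β) → ℕ => f (u ∘ Sum.inl) := reindex_diophFn _ df
  have dA : DiophFn fun u : α ⊕ (Bool ⊕ β) → ℕ => (la.map (u ∘ Sum.inl)).sum :=
    reindex_diophFn _ (sum_list la)
  have dw := proj_dioph (α := α ⊕ (Bool ⊕ β)) (.inr (.inl false))
  have dq := proj_dioph (α := α ⊕ (Bool ⊕ β)) (.inr (.inl true))
  have d1 := eq_dioph dq (sub_dioph (mul_dioph (factorial_dioph dB) (factorial_dioph
    (add_dioph (add_dioph dB (pow_dioph (add_dioph (add_dioph (add_dioph dB dw) dA) (cst 2))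
      (cst d))) (cst 3)))) (cst 1))
  have d2 := lt_dioph (cst 0) dw
  have d3 := forall_list lb _ fun j =>
    dvd_dioph (choose_dioph dq dB) (desc_dioph (proj_dioph (.inr (.inr j))) dw)
  have d4 := dvd_dioph (choose_dioph dq dB) (abs_poly_dioph (p.map (Sum.elim
    (fun o => o.elim (.inr (.inl true)) .inl) fun j => (.inr (.inr j) : α ⊕ (Bool ⊕ β)))))
  refine (ex_dioph (d1.inter (d2.inter (d3.inter d4)))).ext fun v => ?_
  simp only [Set.mem_ofPred_eq, hp]
  rw [bq_core p l d hc hb v (f v) (la.map v).sum fun a ha =>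
    List.single_le_sum (by simp) _ (List.mem_map_of_mem ((hla a).2 ha))]
  have e : ∀ x : Bool ⊕ β → ℕ, (Sum.elim v x ∘ Sum.elim
      (fun o : Option α => o.elim (.inr (.inl true)) .inl) fun j => (.inr (.inr j) : α ⊕ (Bool ⊕ β)))
      = Sum.elim (fun o => o.elim (x (.inl true)) v) fun j => x (.inr j) := fun x => by
    funext i
    rcases i with (_ | a) | j <;> rfl
  constructor
  · rintro ⟨x, h1, h2, h3, h4⟩
    refine ⟨x (.inl false), x (.inl true), fun j => x (.inr j), h1, h2,
      fun j hj => h3 j ((hlb j).2 hj), ?_⟩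
    rw [← e]
    exact h4
  · rintro ⟨w, q, z, h1, h2, h3, h4⟩
    refine ⟨Sum.elim (fun c => cond c q w) z, h1, h2, fun j hj => h3 j ((hlb j).1 hj), ?_⟩
    change _ ∣ (p _).natAbs
    rw [e]
    exact h4

end Pool.Agent.H65.Dprm
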