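import Mathlib

set_option autoImplicit false

namespace Pool.Agent.H65.Exp

/-- A game of Explorer-Director type with move relation `R`: when the token is at `u` and the
Explorer names `l`, the Director may move it to any `x` with `R u l x`; the Explorer may name any
`l ≥ 1` for which such an `x` exists. `Force R m S u`: from the position with visited set `S` and
token at `u`, the Explorer can force that at least `m` vertices get visited. -/
inductive Force {V : Type} (R : V → ℕ → V → Prop) (m : ℕ) : Set V → V → Prop
  | done (S : Set V) (u : V) : m ≤ S.ncard → Force R m S u
  | step (S : Set V) (u : V) (l : ℕ) : 1 ≤ l → (∃ x, R u l x) →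
      (∀ x, R u l x → Force R m (insert x S) x) → Force R m S u

/-- The value of the game started at `v`: the largest number of visited vertices that the
Explorer can force. -/
noncomputable def val {V : Type} (R : V → ℕ → V → Prop) (v : V) : ℕ :=
  sSup {m | Force R m {v} v}

/-- The value of the distance game. -/
noncomputable def fd {V : Type} (G : SimpleGraph V) (v : V) : ℕ :=
  val (fun u d x => G.dist u x = d) v

/-- The value of the path variant. -/
noncomputable def fp {V : Type} (G : SimpleGraph V) (v : V) : ℕ :=
  val (fun u l x => ∃ p : G.Walk u x, p.IsPath ∧ p.length = l) v

end Pool.Agent.H65.Exp
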