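import Mathlib
import Pool.Agent.H65.ExpDefs

set_option autoImplicit false
open SimpleGraph

namespace Pool.Agent.H65.Exp

section Gen
variable {V : Type}

theorem force_le [Finite V] {R : V → ℕ → V → Prop} {C : Set V}
    (hC : ∀ u ∈ C, ∀ l, 1 ≤ l → (∃ x, R u l x) → ∃ x ∈ C, R u l x) {m : ℕ} {S : Set V} {u : V}
    (h : Force R m S u) : S ⊆ C → u ∈ C → m ≤ C.ncard := by
  induction h with
  | done S u h => exact fun hS _ => h.trans (Set.ncard_le_ncard hS)
  | step S u l hl hx _ ih =>
    intro hS hu
    obtain ⟨x, hxC, hR⟩ := hC u hu l hl hx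
    exact ih x hR (Set.insert_subset hxC hS) hxC

theorem val_bdd [Finite V] (R : V → ℕ → V → Prop) (v : V) : BddAbove {m | Force R m {v} v} :=
  ⟨(Set.univ : Set V).ncard, fun _ hm =>
    force_le (C := Set.univ) (fun _ _ _ _ ⟨x, hx⟩ => ⟨x, trivial, hx⟩) hm (Set.subset_univ _)
      trivial⟩

theorem le_val [Finite V] {R : V → ℕ → V → Prop} {v : V} {m : ℕ} (h : Force R m {v} v) :
    m ≤ val R v := le_csSup (val_bdd R v) h

theorem one_le_val [Finite V] (R : V → ℕ → V → Prop) (v : V) : 1 ≤ val R v :=
  le_val (Force.done _ _ (by simp))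

theorem val_le [Finite V] {R : V → ℕ → V → Prop} {C : Set V}
    (hC : ∀ u ∈ C, ∀ l, 1 ≤ l → (∃ x, R u l x) → ∃ x ∈ C, R u l x) {v : V} (hv : v ∈ C) :
    val R v ≤ C.ncard :=
  csSup_le ⟨1, Force.done _ _ (by simp)⟩ fun _ hm =>
    force_le hC hm (Set.singleton_subset_iff.2 hv) hv

variable {G : SimpleGraph V}

theorem lip (φ : V → ℕ) (hφ : ∀ a b, G.Adj a b → φ b ≤ φ a + 1) {u x : V} (p : G.Walk u x) :
    φ x ≤ φ u + p.length := by
  induction p with
  | nil => simp
  | cons h p ih =>
    have := hφ _ _ h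
    simp only [Walk.length_cons]
    omega

theorem lip_dist (hc : G.Connected) (φ : V → ℕ) (hφ : ∀ a b, G.Adj a b → φ b ≤ φ a + 1)
    (u x : V) : φ x ≤ φ u + G.dist u x := by
  obtain ⟨p, hp⟩ := (hc u x).exists_walk_length_eq_dist
  rw [← hp]
  exact lip φ hφ p

theorem mk_path (l : ℕ) : ∀ f : ℕ → V, (∀ s < l, G.Adj (f s) (f (s + 1))) →
    (∀ s ≤ l, ∀ s' ≤ l, f s = f s' → s = s') →
    ∃ p : G.Walk (f 0) (f l), p.IsPath ∧ p.length = l ∧ ∀ y ∈ p.support, ∃ s ≤ l, f s = y := by
  induction l with
  | zero => exact fun f _ _ => ⟨Walk.nil, by simp, rfl, by simp⟩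
  | succ l ih =>
    intro f h1 h2
    obtain ⟨p, hp, hl, hs⟩ := ih (fun s => f (s + 1)) (fun s hs => h1 _ (by omega))
      (fun s hs s' hs' h => by have := h2 _ (by omega) _ (by omega) h; omega)
    refine ⟨Walk.cons (h1 0 (by omega)) p, ?_, by simp [hl], ?_⟩
    · rw [Walk.cons_isPath_iff]
      refine ⟨hp, fun h => ?_⟩
      obtain ⟨s, hs', h⟩ := hs _ h
      have := h2 _ (by omega) _ (by omega) h
      omega
    · intro y hy
      simp only [Walk.support_cons, List.mem_cons] at hy
      rcases hy with rfl | hy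
      · exact ⟨0, by omega, rfl⟩
      · obtain ⟨s, hs', h⟩ := hs _ hy
        exact ⟨s + 1, by omega, h⟩

theorem labels (X : V → Bool) (c : V → ℕ)
    (hc : ∀ a b, G.Adj a b → X a = false → X b = false → c a = c b) {u x : V} (p : G.Walk u x) :
    ∃ T : Finset ℕ, T.card ≤ p.support.countP X + (if X u then 0 else 1) ∧
      ∀ y ∈ p.support, X y = false → c y ∈ T := by
  induction p with
  | nil =>
    rename_i u
    cases h : X u
    · exact ⟨{c u}, by simp, by simp⟩
    · exact ⟨∅, by simp, by simp [h]⟩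
  | cons h p ih =>
    rename_i a b d
    obtain ⟨T, h1, h2⟩ := ih
    cases ha : X a
    · cases hb : X b
      · refine ⟨T, by simpa [ha, hb] using h1, fun y hy hy' => ?_⟩
        simp only [Walk.support_cons, List.mem_cons] at hy
        rcases hy with rfl | hy
        · rw [hc _ _ h ha hb]
          exact h2 _ p.start_mem_support hb
        · exact h2 _ hy hy'
      · refine ⟨insert (c a) T, ?_, fun y hy hy' => ?_⟩
        · have := Finset.card_insert_le (c a) T
          simp [ha, hb] at h1 ⊢
          omega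
        · simp only [Walk.support_cons, List.mem_cons] at hy
          rcases hy with rfl | hy
          · simp
          · exact Finset.mem_insert_of_mem (h2 _ hy hy')
    · refine ⟨T, ?_, fun y hy hy' => ?_⟩
      · simp only [Walk.support_cons, List.countP_cons, ha, if_true]
        split_ifs at h1 <;> omega
      · simp only [Walk.support_cons, List.mem_cons] at hy
        rcases hy with rfl | hy
        · simp [ha] at hy'
        · exact h2 _ hy hy'

theorem cut_walk (P : V → Prop) (a : V) (hP : ∀ y z, G.Adj y z → P y → P z ∨ z = a) {y z : V}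
    (q : G.Walk y z) : P y → ¬ P z → a ∈ q.support := by
  induction q with
  | nil => exact fun h h' => absurd h h'
  | cons h q ih =>
    intro h1 h2
    rcases hP _ _ h h1 with h3 | rfl
    · simp [ih h3 h2]
    · simp

theorem cut_path (P : V → Prop) (a : V) (hP : ∀ y z, G.Adj y z → P y → P z ∨ z = a)
    (ha : ¬ P a) {u x : V} (p : G.Walk u x) (hp : p.IsPath) (hu : ¬ P u) (hx : ¬ P x) :
    ∀ y ∈ p.support, ¬ P y := by
  intro y hy h
  obtain ⟨q, r, rfl⟩ := Walk.mem_support_iff_exists_append.1 hy
  have h1 : a ∈ q.support := by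
    have := cut_walk P a hP q.reverse h hu
    simpa using this
  have h2 := cut_walk P a hP r h hx
  have h3 : a ∈ r.support.tail := by
    rw [r.support_eq_cons] at h2
    rcases List.mem_cons.1 h2 with rfl | h2
    · exact absurd h ha
    · exact h2
  have := hp.support_nodup
  rw [Walk.support_append, List.nodup_append] at this
  exact this.2.2 a h1 a h3 rfl

end Gen

end Pool.Agent.H65.Exp
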