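import Mathlib
import Pool.Agent.H65.Exp1

set_option autoImplicit false
open SimpleGraph

namespace Pool.Agent.H65.Exp

def M (K j : ℕ) : ℕ := if K ≤ j ∧ j < 2 * K then j / 2 else 0

theorem M_spec (K j : ℕ) :
    (K ≤ j ∧ j < 2 * K ∧ M K j = j / 2) ∨ ((j < K ∨ 2 * K ≤ j) ∧ M K j = 0) := by
  unfold M
  split_ifs with h
  · exact Or.inl ⟨h.1, h.2, rfl⟩
  · exact Or.inr ⟨by omega, rfl⟩

def VV (K : ℕ) : Type := {p : ℕ × ℕ // p.1 ≤ 3 * K ∧ p.2 ≤ M K p.1}

instance (K : ℕ) : Finite (VV K) := by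
  have : {p : ℕ × ℕ | p.1 ≤ 3 * K ∧ p.2 ≤ M K p.1}.Finite := by
    refine ((Set.finite_Iic (3 * K)).prod (Set.finite_Iic K)).subset ?_
    rintro ⟨a, b⟩ ⟨h1, h2⟩
    have := M_spec K a
    simp only [Set.mem_prod, Set.mem_Iic] at *
    omega
  exact this.to_subtype

theorem vext {K : ℕ} {a b : VV K} (h1 : a.1.1 = b.1.1) (h2 : a.1.2 = b.1.2) : a = b :=
  Subtype.ext (Prod.ext h1 h2)

def GG (K : ℕ) : SimpleGraph (VV K) where
  Adj a b := ¬(a.1.1 = b.1.1 ∧ a.1.2 = b.1.2) ∧ (a.1.1 = b.1.1 ∨ (a.1.2 = 0 ∧ b.1.2 = 0 ∧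
    (a.1.1 = b.1.1 + 1 ∨ b.1.1 = a.1.1 + 1 ∨ a.1.1 = 3 * K ∨ b.1.1 = 3 * K)))
  symm := ⟨fun a b h => by omega⟩
  loopless := ⟨fun a h => by omega⟩

theorem adj_iff {K : ℕ} {a b : VV K} : (GG K).Adj a b ↔
    ¬(a.1.1 = b.1.1 ∧ a.1.2 = b.1.2) ∧ (a.1.1 = b.1.1 ∨ (a.1.2 = 0 ∧ b.1.2 = 0 ∧
    (a.1.1 = b.1.1 + 1 ∨ b.1.1 = a.1.1 + 1 ∨ a.1.1 = 3 * K ∨ b.1.1 = 3 * K))) := Iff.rfl

def core {K : ℕ} (j : ℕ) (h : j ≤ 3 * K) : VV K := ⟨(j, 0), h, Nat.zero_le _⟩

theorem bound {K : ℕ} {u x : VV K} (p : (GG K).Walk u x) (hp : p.IsPath) (i j m1 m2 lo hi : ℕ)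
    (hhi : hi ≤ 3 * K + 1)
    (h : ∀ y ∈ p.support, (y.1.1 = i ∧ 1 ≤ y.1.2 ∧ y.1.2 ≤ m1) ∨
      (y.1.1 = j ∧ 1 ≤ y.1.2 ∧ y.1.2 ≤ m2) ∨ (y.1.2 = 0 ∧ (y.1.1 < lo ∨ hi ≤ y.1.1))) :
    p.length + 1 + hi ≤ m1 + m2 + lo + (3 * K + 1) := by
  have hn : (p.support.map (fun y : VV K => y.1)).Nodup :=
    hp.support_nodup.map Subtype.val_injective
  have h1 := List.toFinset_card_of_nodup hn
  rw [List.length_map, Walk.length_support] at h1
  have h2 : (p.support.map (fun y : VV K => y.1)).toFinset ⊆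
      (({i} ×ˢ Finset.Icc 1 m1 ∪ {j} ×ˢ Finset.Icc 1 m2) ∪ Finset.range lo ×ˢ {0}) ∪
        Finset.Ico hi (3 * K + 1) ×ˢ {0} := by
    intro z hz
    simp only [List.mem_toFinset, List.mem_map] at hz
    obtain ⟨y, hy, rfl⟩ := hz
    have := h y hy
    have := y.2.1
    simp only [Finset.mem_union, Finset.mem_product, Finset.mem_singleton, Finset.mem_Icc,
      Finset.mem_range, Finset.mem_Ico]
    omega
  have h3 := Finset.card_le_card h2
  have h4 := Finset.card_union_le (({i} ×ˢ Finset.Icc 1 m1 ∪ {j} ×ˢ Finset.Icc 1 m2) ∪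
    Finset.range lo ×ˢ ({0} : Finset ℕ)) (Finset.Ico hi (3 * K + 1) ×ˢ {0})
  have h5 := Finset.card_union_le ({i} ×ˢ Finset.Icc 1 m1 ∪ {j} ×ˢ Finset.Icc 1 m2)
    (Finset.range lo ×ˢ ({0} : Finset ℕ))
  have h6 := Finset.card_union_le (({i} : Finset ℕ) ×ˢ Finset.Icc 1 m1) ({j} ×ˢ Finset.Icc 1 m2)
  simp only [Finset.card_product, Finset.card_singleton, Nat.card_Icc, Finset.card_range,
    Nat.card_Ico] at h4 h5 h6
  omega

theorem arms {K : ℕ} {u x : VV K} (p : (GG K).Walk u x) (hp : p.IsPath) :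
    ∀ y ∈ p.support, 1 ≤ y.1.2 → y.1.1 = u.1.1 ∨ (y.1.1 = x.1.1 ∧ 1 ≤ x.1.2) := by
  intro y hy h
  by_contra hc
  refine cut_path (fun z : VV K => z.1.1 = y.1.1 ∧ 1 ≤ z.1.2) (core y.1.1 y.2.1) ?_ ?_ p hp ?_ ?_
    y hy ⟨rfl, h⟩
  · intro a b hab ha
    rw [adj_iff] at hab
    by_cases hb : 1 ≤ b.1.2
    · exact Or.inl ⟨by omega, hb⟩
    · exact Or.inr (vext (by simp only [core]; omega) (by simp only [core]; omega))
  · simp [core]
  · omega
  · omega

theorem forced {K : ℕ} (hK : 3 ≤ K) {u x : VV K} (p : (GG K).Walk u x) (hp : p.IsPath)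
    (hu : 1 ≤ u.1.2) (hi : u.1.1 + 1 < 2 * K)
    (hl : p.length = u.1.1 / 2 + 3 * K + (u.1.1 + 1) / 2) :
    1 ≤ x.1.2 ∧ (x.1.1 = u.1.1 + 1 ∨ x.1.1 = u.1.1 + 2) := by
  have hA := arms p hp
  have hu1 := u.2.2
  have hx1 := x.2.2
  have hMu := M_spec K u.1.1
  have hMx := M_spec K x.1.1
  have hy2 : ∀ y : VV K, y.1.1 = u.1.1 → y.1.2 ≤ u.1.1 / 2 := fun y h => by
    have := y.2.2
    rw [h] at this
    omega
  by_cases hc : x.1.2 = 0 ∨ x.1.1 = u.1.1
  · have := bound p hp u.1.1 0 (u.1.1 / 2) 0 0 0 (by omega) fun y hy => by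
      have := hA y hy
      have := hy2 y
      omega
    omega
  have hy3 : ∀ y : VV K, y.1.1 = x.1.1 → y.1.2 ≤ x.1.1 / 2 := fun y h => by
    have := y.2.2
    rw [h] at this
    omega
  let X : VV K → Bool := fun y =>
    decide (y.1.2 = 0 ∧ (y.1.1 = u.1.1 ∨ y.1.1 = x.1.1 ∨ y.1.1 = 3 * K))
  let c : VV K → ℕ := fun y =>
    if y.1.1 = u.1.1 then 0 else if y.1.1 = x.1.1 then 1 else
      if y.1.1 < min u.1.1 x.1.1 then 2 else if y.1.1 < max u.1.1 x.1.1 then 3 else 4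
  obtain ⟨T, h1, h2⟩ := labels X c (fun a b hab ha hb => by
    rw [adj_iff] at hab
    simp only [X, decide_eq_false_iff_not] at ha hb
    simp only [c]
    split_ifs <;> omega) p
  have hcount : p.support.countP X ≤ 3 := by
    rw [List.countP_eq_length_filter]
    have := (List.subperm_of_subset (l₂ := [core u.1.1 u.2.1, core x.1.1 x.2.1, core (3 * K) le_rfl])
      (hp.support_nodup.filter X) (fun y hy => by
        have := (List.mem_filter.1 hy).2
        simp only [X, decide_eq_true_eq] at this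
        simp only [List.mem_cons, List.not_mem_nil, or_false]
        rcases this with ⟨h0, h | h | h⟩
        · exact Or.inl (vext h h0)
        · exact Or.inr (Or.inl (vext h h0))
        · exact Or.inr (Or.inr (vext h h0)))).length_le
    simpa using this
  have h0T : 0 ∈ T := by
    have := h2 u p.start_mem_support (by simp only [X, decide_eq_false_iff_not]; omega)
    simpa [c] using this
  have h1T : 1 ∈ T := by
    have := h2 x p.end_mem_support (by simp only [X, decide_eq_false_iff_not]; omega)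
    have h' : ¬ x.1.1 = u.1.1 := by omega
    simpa [c, h'] using this
  have hT : 2 ∉ T ∨ 3 ∉ T ∨ 4 ∉ T := by
    by_contra hh
    have : ({0, 1, 2, 3, 4} : Finset ℕ) ⊆ T := by
      intro e he
      simp only [Finset.mem_insert, Finset.mem_singleton] at he
      rcases he with rfl | rfl | rfl | rfl | rfl <;> tauto
    have := Finset.card_le_card this
    have h5 : ({0, 1, 2, 3, 4} : Finset ℕ).card = 5 := by decide
    split_ifs at h1 <;> omega
  have key : ∀ e, e ∉ T → ∀ y ∈ p.support,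
      (y.1.2 = 0 ∧ (y.1.1 = u.1.1 ∨ y.1.1 = x.1.1 ∨ y.1.1 = 3 * K)) ∨ c y ≠ e := by
    intro e he y hy
    by_cases h : y.1.2 = 0 ∧ (y.1.1 = u.1.1 ∨ y.1.1 = x.1.1 ∨ y.1.1 = 3 * K)
    · exact Or.inl h
    · refine Or.inr fun h' => he ?_
      rw [← h']
      exact h2 y hy (by simpa only [X, decide_eq_false_iff_not] using h)
  rcases hT with hT | hT | hT
  · have := bound p hp u.1.1 x.1.1 (u.1.1 / 2) (x.1.1 / 2) 0 (min u.1.1 x.1.1) (by omega)
      fun y hy => by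
        have := hA y hy
        have := hy2 y
        have := hy3 y
        have := key 2 hT y hy
        simp only [c] at this
        split_ifs at this <;> omega
    omega
  · have := bound p hp u.1.1 x.1.1 (u.1.1 / 2) (x.1.1 / 2) (min u.1.1 x.1.1 + 1)
      (max u.1.1 x.1.1) (by omega) fun y hy => by
        have := hA y hy
        have := hy2 y
        have := hy3 y
        have := key 3 hT y hy
        simp only [c] at this
        split_ifs at this <;> omega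
    omega
  · have := bound p hp u.1.1 x.1.1 (u.1.1 / 2) (x.1.1 / 2) (max u.1.1 x.1.1 + 1)
      (3 * K) (by omega) fun y hy => by
        have := hA y hy
        have := hy2 y
        have := hy3 y
        have := y.2.1
        have := key 4 hT y hy
        simp only [c] at this
        split_ifs at this <;> omega
    omega

end Pool.Agent.H65.Exp
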