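import Mathlib
import Pool.Agent.H65.Exp2

set_option autoImplicit false
open SimpleGraph

namespace Pool.Agent.H65.Exp

def g (K i t s : ℕ) : ℕ × ℕ :=
  if s < i / 2 then (i, if s = 0 then t else if s < t then s else s + 1)
  else if s ≤ i / 2 + i then (i - (s - i / 2), 0)
  else if s ≤ i / 2 + 3 * K then (3 * K - (s - (i / 2 + i + 1)), 0)
  else (i + 1, min (s - (i / 2 + 3 * K)) ((i + 1) / 2))

theorem g_spec (K i t s : ℕ) :
    (s < i / 2 ∧ (g K i t s).1 = i ∧ ((s = 0 ∧ (g K i t s).2 = t) ∨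
      (s ≠ 0 ∧ s < t ∧ (g K i t s).2 = s) ∨ (s ≠ 0 ∧ t ≤ s ∧ (g K i t s).2 = s + 1))) ∨
    (i / 2 ≤ s ∧ s ≤ i / 2 + i ∧ (g K i t s).1 = i - (s - i / 2) ∧ (g K i t s).2 = 0) ∨
    (i / 2 + i < s ∧ s ≤ i / 2 + 3 * K ∧ (g K i t s).1 = 3 * K - (s - (i / 2 + i + 1)) ∧
      (g K i t s).2 = 0) ∨
    (i / 2 + i < s ∧ i / 2 + 3 * K < s ∧ (g K i t s).1 = i + 1 ∧
      (g K i t s).2 = min (s - (i / 2 + 3 * K)) ((i + 1) / 2)) := by
  unfold g
  split_ifs <;> simp only [true_and, and_true] <;> omega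

theorem ex_path {K : ℕ} (u : VV K) (hu : 1 ≤ u.1.2) (hi : u.1.1 + 1 < 2 * K) :
    ∃ x, ∃ p : (GG K).Walk u x, p.IsPath ∧ p.length = u.1.1 / 2 + 3 * K + (u.1.1 + 1) / 2 := by
  have hu1 := u.2.2
  have hMu := M_spec K u.1.1
  have hM1 := M_spec K (u.1.1 + 1)
  let f : ℕ → VV K := fun s => ⟨g K u.1.1 u.1.2 s, by
    have := g_spec K u.1.1 u.1.2 s
    have := M_spec K (g K u.1.1 u.1.2 s).1
    omega⟩
  obtain ⟨p, hp, hl, -⟩ := mk_path (G := GG K) (u.1.1 / 2 + 3 * K + (u.1.1 + 1) / 2) f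
    (fun s hs => by
      rw [adj_iff]
      have := g_spec K u.1.1 u.1.2 s
      have := g_spec K u.1.1 u.1.2 (s + 1)
      simp only [f]
      omega)
    (fun s hs s' hs' h => by
      have h1 : (g K u.1.1 u.1.2 s).1 = (g K u.1.1 u.1.2 s').1 := congrArg (fun y : VV K => y.1.1) h
      have h2 : (g K u.1.1 u.1.2 s).2 = (g K u.1.1 u.1.2 s').2 := congrArg (fun y : VV K => y.1.2) h
      have := g_spec K u.1.1 u.1.2 s
      have := g_spec K u.1.1 u.1.2 s'
      omega)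
  have h0 : f 0 = u := by
    have := g_spec K u.1.1 u.1.2 0
    exact vext (by simp only [f]; omega) (by simp only [f]; omega)
  exact ⟨_, p.copy h0 rfl, by simpa using hp, by simpa using hl⟩

theorem chain {K : ℕ} (hK : 3 ≤ K) (m r : ℕ) : ∀ (S : Set (VV K)) (u : VV K), 1 ≤ u.1.2 →
    u.1.1 + 2 * r < 2 * K → (∀ y ∈ S, y.1.1 ≤ u.1.1) → m ≤ S.ncard + r →
    Force (fun u l x => ∃ p : (GG K).Walk u x, p.IsPath ∧ p.length = l) m S u := by
  induction r with
  | zero => exact fun S u _ _ _ h => Force.done _ _ h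
  | succ r ih =>
    intro S u hu hr hS hm
    refine Force.step _ _ (u.1.1 / 2 + 3 * K + (u.1.1 + 1) / 2) (by omega)
      (ex_path u hu (by omega)) ?_
    rintro x ⟨p, hp, hl⟩
    obtain ⟨h1, h2⟩ := forced hK p hp hu (by omega) hl
    have hx : x ∉ S := fun h => by have := hS x h; omega
    refine ih _ x h1 (by omega) ?_ ?_
    · rintro y (rfl | hy)
      · exact le_rfl
      · have := hS y hy
        omega
    · rw [Set.ncard_insert_of_notMem hx]
      omega

theorem reach_w {K : ℕ} (x : VV K) :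
    ∃ p : (GG K).Walk x (core (3 * K) le_rfl), p.length ≤ 2 ∧ (x.1.2 = 0 → p.length ≤ 1) := by
  have hM := M_spec K x.1.1
  have hx := x.2
  by_cases h : x.1.2 = 0
  · by_cases h' : x.1.1 = 3 * K
    · obtain rfl : x = core (3 * K) le_rfl := vext h' h
      exact ⟨Walk.nil, by simp, by simp⟩
    · exact ⟨Walk.cons (by rw [adj_iff]; dsimp only [core]; omega) Walk.nil, by simp, by simp⟩
  · refine ⟨Walk.cons (v := core x.1.1 x.2.1) (by rw [adj_iff]; dsimp only [core]; omega)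
      (Walk.cons (by rw [adj_iff]; dsimp only [core]; omega) Walk.nil), by simp, fun h' => absurd h' h⟩

theorem conn (K : ℕ) : (GG K).Connected := by
  have : Nonempty (VV K) := ⟨core 0 (Nat.zero_le _)⟩
  refine ⟨fun a b => ?_⟩
  obtain ⟨p, -⟩ := reach_w a
  obtain ⟨q, -⟩ := reach_w b
  exact ⟨p.append q.reverse⟩

theorem dist_up {K : ℕ} (a b : VV K) : (GG K).dist a b ≤ 4 ∧ (a.1.2 = 0 → (GG K).dist a b ≤ 3) ∧
    (a = core (3 * K) le_rfl → (GG K).dist a b ≤ 2) := by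
  obtain ⟨p, h1, h2⟩ := reach_w a
  obtain ⟨q, h3, -⟩ := reach_w b
  have := SimpleGraph.dist_le (p.append q.reverse)
  simp only [Walk.length_append, Walk.length_reverse] at this
  refine ⟨by omega, fun h => by have := h2 h; omega, ?_⟩
  rintro rfl
  have := SimpleGraph.dist_le q.reverse
  simp only [Walk.length_reverse] at this
  omega

def cc {K : ℕ} (hK : 3 ≤ K) (e : ℕ) : VV K :=
  if e = 0 then ⟨(K, 1), by omega, by have := M_spec K K; simp only; omega⟩
  else if e = 1 then core K (by omega)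
  else if e = 2 then core (3 * K) le_rfl
  else if e = 3 then core (2 * K - 1) (by omega)
  else ⟨(2 * K - 1, 1), by omega, by have := M_spec K (2 * K - 1); simp only; omega⟩

def ph (K : ℕ) (y : VV K) : ℕ :=
  if y.1.1 = K then (if y.1.2 = 0 then 1 else 0)
  else if y.1.1 = 2 * K - 1 then (if y.1.2 = 0 then 3 else 4) else 2

theorem ph_lip {K : ℕ} (hK : 3 ≤ K) (a b : VV K) (h : (GG K).Adj a b) : ph K b ≤ ph K a + 1 := by
  rw [adj_iff] at h
  unfold ph
  split_ifs <;> omega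

theorem ph_cc {K : ℕ} (hK : 3 ≤ K) (e : ℕ) (he : e ≤ 4) : ph K (cc hK e) = e := by
  have h1 : ¬ 3 * K = K := by omega
  have h2 : ¬ 3 * K = 2 * K - 1 := by omega
  have h3 : ¬ 2 * K - 1 = K := by omega
  interval_cases e <;> simp [ph, cc, core, h1, h2, h3]

theorem cc_adj {K : ℕ} (hK : 3 ≤ K) (e : ℕ) (he : e < 4) :
    (GG K).Adj (cc hK e) (cc hK (e + 1)) := by
  rw [adj_iff]
  interval_cases e <;> simp [cc, core] <;> omega

theorem cc_dist {K : ℕ} (hK : 3 ≤ K) (e d : ℕ) (h : e + d ≤ 4) :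
    (GG K).dist (cc hK e) (cc hK (e + d)) = d := by
  apply le_antisymm
  · induction d with
    | zero => simp
    | succ d ih =>
      have h1 := ih (by omega)
      have h2 : (GG K).dist (cc hK (e + d)) (cc hK (e + d + 1)) = 1 :=
        SimpleGraph.dist_eq_one_iff_adj.2 (cc_adj hK _ (by omega))
      have h3 := (conn K).dist_triangle (u := cc hK e) (v := cc hK (e + d)) (w := cc hK (e + d + 1))
      rw [← add_assoc]
      omega
  · have := lip_dist (conn K) (ph K) (ph_lip hK) (cc hK e) (cc hK (e + d))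
    rw [ph_cc hK _ h, ph_cc hK _ (by omega)] at this
    omega

theorem fd_le {K : ℕ} (hK : 3 ≤ K) : fd (GG K) (cc hK 0) ≤ 5 := by
  have h1 : fd (GG K) (cc hK 0) ≤ (cc hK '' Set.Iic 4).ncard := by
    refine val_le ?_ ⟨0, by simp, rfl⟩
    rintro _ ⟨e, he, rfl⟩ d hd ⟨x, hx⟩
    have he : e ≤ 4 := he
    obtain ⟨k1, k2, k3⟩ := dist_up (cc hK e) x
    rw [hx] at k1 k2 k3
    by_cases h : e + d ≤ 4
    · exact ⟨cc hK (e + d), ⟨_, h, rfl⟩, cc_dist hK e d h⟩
    · have hde : d ≤ e := by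
        interval_cases e
        · omega
        · have := k2 (by simp [cc, core])
          omega
        · exact k3 (by simp [cc])
        · exact k2 (by simp [cc, core])
        · omega
      refine ⟨cc hK (e - d), ⟨_, by simp only [Set.mem_Iic]; omega, rfl⟩, ?_⟩
      have := cc_dist hK (e - d) d (by omega)
      rw [Nat.sub_add_cancel hde] at this
      rw [SimpleGraph.dist_comm, this]
  have h2 := Set.ncard_image_le (f := cc hK) (s := Set.Iic 4) (Set.finite_Iic 4)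
  have h3 : (Set.Iic 4 : Set ℕ).ncard = 5 := by
    rw [← Finset.coe_Iic, Set.ncard_coe_finset]
    simp
  omega

theorem fp_ge {K : ℕ} (hK : 3 ≤ K) (r : ℕ) (hr : 2 * r < K) : r + 1 ≤ fp (GG K) (cc hK 0) :=
  le_val (chain hK _ r _ _ (by simp [cc]) (by simp only [cc, if_true]; omega)
    (by rintro y rfl; exact le_rfl) (by simp [add_comm]))

theorem main (k : ℝ) : ∃ (V : Type) (_ : Finite V) (G : SimpleGraph V) (v : V),
    G.Connected ∧ k < (fp G v : ℝ) / (fd G v : ℝ) := by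
  obtain ⟨r, hr⟩ := exists_nat_gt (5 * k)
  have hK : 3 ≤ 2 * r + 3 := by omega
  refine ⟨VV (2 * r + 3), inferInstance, GG _, cc hK 0, conn _, ?_⟩
  have h1 : ((r + 1 : ℕ) : ℝ) ≤ fp (GG (2 * r + 3)) (cc hK 0) := by
    exact_mod_cast fp_ge hK r (by omega)
  have h2 : (fd (GG (2 * r + 3)) (cc hK 0) : ℝ) ≤ 5 := by exact_mod_cast fd_le hK
  have h3 : (1 : ℝ) ≤ fd (GG (2 * r + 3)) (cc hK 0) := by exact_mod_cast one_le_val _ _
  rw [lt_div_iff₀ (by linarith)]
  push_cast at h1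
  have hr0 : (0 : ℝ) ≤ r := Nat.cast_nonneg r
  by_cases hk : 0 ≤ k
  · nlinarith
  · nlinarith

end Pool.Agent.H65.Exp
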