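import Pool.Agent.H65.FreeBallUp

set_option autoImplicit false

namespace Pool.Agent.H65.FreeBallLow
open FreeGroup hiding map_mul map_one map_inv IsReduced
open Pool.Agent.H65.Words

variable {α : Type*} [DecidableEq α]

lemma step (p q : List (α × Bool)) (l : α × Bool) (hp : FreeGroup.IsReduced (linv l :: p))
    (hq : FreeGroup.IsReduced (l :: q)) (g : FreeGroup α) (hg : ¬ invRev (l :: q) <+: g.toWord) :
    invRev (linv l :: p) <+: ((mk p)⁻¹ * mk (l :: q) * g).toWord := by
  have h1 := head_mul l q hq g hg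
  rw [isReduced_cons_iff, linv_linv] at hp
  rw [mul_assoc, inv_mk, toWord_mk_mul_of_head _ _ (isReduced_invRev hp.1), invRev_cons',
    linv_linv]
  · cases hw : (mk (l :: q) * g).toWord with
    | nil => simp [hw] at h1
    | cons x w => simp [hw] at h1; simp [h1]
  · intro x hx
    rw [getLast?_invRev] at hx
    rw [h1]
    cases p with
    | nil => simp at hx
    | cons y p =>
      simp at hx hp
      subst hx
      simpa using fun h => hp.2 h.symm

/-- the basic free family -/
lemma family {ι : Type*} (p q : ι → List (α × Bool)) (l : ι → α × Bool)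
    (hp : ∀ i, FreeGroup.IsReduced (linv (l i) :: p i))
    (hq : ∀ i, FreeGroup.IsReduced (l i :: q i))
    (h1 : ∀ i j, (linv (l i) :: p i) <:+ (linv (l j) :: p j) → i = j)
    (h2 : ∀ i j, (l i :: q i) <:+ (l j :: q j) → i = j)
    (h3 : ∀ i j, ¬ (linv (l i) :: p i) <:+ (l j :: q j))
    (h4 : ∀ i j, ¬ (l j :: q j) <:+ (linv (l i) :: p i)) :
    Function.Injective (FreeGroup.lift (fun i => (mk (p i))⁻¹ * mk (l i :: q i))) := by
  let u : ι × Bool → List (α × Bool) := fun m =>
    if m.2 = true then linv (l m.1) :: p m.1 else l m.1 :: q m.1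
  have hsuf : ∀ a b : List (α × Bool), invRev a <+: invRev b → a <:+ b := by
    rintro a b ⟨t, ht⟩
    refine ⟨invRev t, ?_⟩
    have := congrArg invRev ht
    rwa [invRev_append, invRev_invRev, invRev_invRev] at this
  have hu : ∀ m m', u m <:+ u m' → m = m' := by
    rintro ⟨i, b⟩ ⟨j, c⟩ h
    cases b <;> cases c <;> simp only [u, Bool.false_eq_true, if_false, if_true] at h
    · rw [h2 _ _ h]
    · exact absurd h (h4 _ _)
    · exact absurd h (h3 _ _)
    · rw [h1 _ _ h]
  apply pingpong _ (fun m => {g : FreeGroup α | invRev (u m) <+: g.toWord}) 1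
  · rintro ⟨i, b⟩ h
    simp only [Set.mem_ofPred_eq, toWord_one, List.prefix_nil] at h
    have := congrArg List.length h
    cases b <;> simp [u] at this
  · intro m m' hne
    rw [Set.disjoint_left]
    intro g k1 k2
    rcases List.prefix_or_prefix_of_prefix k1 k2 with h | h
    · exact hne (hu _ _ (hsuf _ _ h))
    · exact hne (hu _ _ (hsuf _ _ h)).symm
  · rintro ⟨i, b⟩ g hg
    cases b
    · have e : FreeGroup.lift (fun i => (mk (p i))⁻¹ * mk (l i :: q i)) (mk [(i, false)]) =
          (mk (q i))⁻¹ * mk (linv (l i) :: p i) := by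
        have : (mk [(i, false)] : FreeGroup ι) = (of i)⁻¹ := rfl
        rw [this, map_inv, lift_apply_of, mk_cons (l i), mk_cons (linv _), mk_linv]
        group
      rw [e]
      have := step (q i) (p i) (linv (l i)) (by rw [linv_linv]; exact hq i) (hp i) g
        (by simpa [u, linv] using hg)
      rw [linv_linv] at this
      exact this
    · have e : FreeGroup.lift (fun i => (mk (p i))⁻¹ * mk (l i :: q i)) (mk [(i, true)]) =
          (mk (p i))⁻¹ * mk (l i :: q i) := lift_apply_of
      rw [e]
      exact step (p i) (q i) (l i) (hp i) (hq i) g (by simpa [u, linv] using hg)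

lemma norm_elt (p q : List (α × Bool)) (l : α × Bool) (hp : FreeGroup.IsReduced (linv l :: p))
    (hq : FreeGroup.IsReduced (l :: q)) :
    ((mk p)⁻¹ * mk (l :: q)).norm = p.length + q.length + 1 := by
  rw [isReduced_cons_iff, linv_linv] at hp
  rw [inv_mk, mul_mk, norm_mk_red]
  · simp; ring
  · rw [isReduced_append_iff]
    refine ⟨isReduced_invRev hp.1, hq, ?_⟩
    intro x hx y hy
    rw [getLast?_invRev] at hx
    cases p with
    | nil => simp at hx
    | cons z p =>
      simp at hx hp hy
      subst hx hy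
      simpa using fun h => hp.2 h.symm

lemma to_finset {ι : Type*} [Fintype ι] (y : ι → FreeGroup α)
    (hy : Function.Injective (FreeGroup.lift y)) :
    ∃ A : Finset (FreeGroup α), A.card = Fintype.card ι ∧ (∀ a ∈ A, ∃ i, y i = a) ∧
      Function.Injective (FreeGroup.lift (Subtype.val : A → FreeGroup α)) := by
  have hinj : Function.Injective y := by
    intro i j h
    apply of_injective
    apply hy
    simpa using h
  refine ⟨Finset.univ.image y, by rw [Finset.card_image_of_injective _ hinj]; simp, by simp, ?_⟩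
  let e : ι ≃ (Finset.univ.image y) := Equiv.ofBijective (fun i => ⟨y i, by simp⟩) (by
    constructor
    · intro i j h; exact hinj (congrArg Subtype.val h)
    · rintro ⟨a, ha⟩
      simp at ha
      obtain ⟨i, rfl⟩ := ha
      exact ⟨i, rfl⟩)
  have : FreeGroup.lift (Subtype.val : (Finset.univ.image y) → FreeGroup α) =
      (FreeGroup.lift y).comp (freeGroupCongr e.symm).toMonoidHom := by
    ext a
    obtain ⟨i, rfl⟩ := e.surjective a
    simp [e]
  rw [this]
  exact hy.comp (freeGroupCongr e.symm).injective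

variable [Fintype α]

lemma exists_equiv (k : ℕ) (l m : α × Bool) : Nonempty (T k l ≃ T k m) :=
  Fintype.card_eq.1 (by simp [card_T])

omit [DecidableEq α] [Fintype α] in
lemma cons_tail {L : List (α × Bool)} {l : α × Bool} (h : L.head? = some l) : l :: L.tail = L := by
  cases L with
  | nil => simp at h
  | cons x L => simp at h; simp [h]

theorem lower_odd (m : ℕ) : ∃ A : Finset (FreeGroup α),
    A.card = Fintype.card α * (2 * Fintype.card α - 1) ^ m ∧ (∀ a ∈ A, a.norm = 2 * m + 1) ∧
      Function.Injective (FreeGroup.lift (Subtype.val : A → FreeGroup α)) := by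
  let e : ∀ x : α, T m (x, false) ≃ T m (x, true) := fun x => (exists_equiv m _ _).some
  let ι := Σ x : α, T m (x, false)
  let p : ι → List (α × Bool) := fun i => i.2.1.tail
  let q : ι → List (α × Bool) := fun i => (e i.1 i.2).1.tail
  let l : ι → α × Bool := fun i => (i.1, true)
  have mp := fun i : ι => (mem_T _ _ _).1 i.2.2
  have mq := fun i : ι => (mem_T _ _ _).1 (e i.1 i.2).2
  have ep : ∀ i : ι, linv (l i) :: p i = i.2.1 := fun i => cons_tail (mp i).2.2
  have eq : ∀ i : ι, l i :: q i = (e i.1 i.2).1 := fun i => cons_tail (mq i).2.2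
  have hp : ∀ i, FreeGroup.IsReduced (linv (l i) :: p i) := fun i => ep i ▸ (mp i).1
  have hq : ∀ i, FreeGroup.IsReduced (l i :: q i) := fun i => eq i ▸ (mq i).1
  have lp : ∀ i, (linv (l i) :: p i).length = m + 1 := fun i => ep i ▸ (mp i).2.1
  have lq : ∀ i, (l i :: q i).length = m + 1 := fun i => eq i ▸ (mq i).2.1
  have key := family p q l hp hq ?_ ?_ ?_ ?_
  · obtain ⟨A, h1, h2, h3⟩ := to_finset _ key
    refine ⟨A, by simp [h1, ι, card_T], ?_, h3⟩
    intro a ha
    obtain ⟨i, rfl⟩ := h2 a ha
    rw [norm_elt _ _ _ (hp i) (hq i)]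
    have := lp i
    have := lq i
    simp at *; omega
  · rintro ⟨x, u⟩ ⟨y, v⟩ h
    have := h.eq_of_length (by rw [lp, lp])
    have h1 : x = y := by simpa [l, linv] using (List.cons.inj this).1
    subst h1
    rw [ep, ep] at this
    congr 1
    exact Subtype.ext this
  · rintro ⟨x, u⟩ ⟨y, v⟩ h
    have := h.eq_of_length (by rw [lq, lq])
    have h1 : x = y := by simpa [l, linv] using (List.cons.inj this).1
    subst h1
    rw [eq, eq] at this
    congr 1
    exact (e x).injective (Subtype.ext this)
  · intro i j h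
    have := h.eq_of_length (by rw [lp, lq])
    simpa [l, linv] using (List.cons.inj this).1
  · intro i j h
    have := h.eq_of_length (by rw [lp, lq])
    simpa [l, linv] using (List.cons.inj this).1

theorem lower_even (l0 : α × Bool) (m : ℕ) : ∃ A : Finset (FreeGroup α),
    A.card = (2 * Fintype.card α - 1) ^ (m + 1) ∧ (∀ a ∈ A, a.norm = 2 * (m + 1)) ∧
      Function.Injective (FreeGroup.lift (Subtype.val : A → FreeGroup α)) := by
  let e : ∀ x : α × Bool, T m l0 ≃ T m x := fun x => (exists_equiv m _ _).some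
  let ι := (Finset.univ.erase l0) × T m l0
  let p : ι → List (α × Bool) := fun i => i.2.1
  let q : ι → List (α × Bool) := fun i => (e i.1 i.2).1.tail
  let l : ι → α × Bool := fun i => i.1
  have mp := fun i : ι => (mem_T _ _ _).1 i.2.2
  have mq := fun i : ι => (mem_T _ _ _).1 (e i.1 i.2).2
  have hl : ∀ i : ι, l i ≠ l0 := fun i => (Finset.mem_erase.1 i.1.2).1
  have eq : ∀ i : ι, l i :: q i = (e i.1 i.2).1 := fun i => cons_tail (mq i).2.2
  have hp : ∀ i, FreeGroup.IsReduced (linv (l i) :: p i) := fun i => by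
    rw [isReduced_cons_iff, linv_linv]
    refine ⟨(mp i).1, ?_⟩
    rw [(mp i).2.2]
    simpa using (hl i).symm
  have hq : ∀ i, FreeGroup.IsReduced (l i :: q i) := fun i => eq i ▸ (mq i).1
  have lp : ∀ i, (p i).length = m + 1 := fun i => (mp i).2.1
  have lq : ∀ i, (l i :: q i).length = m + 1 := fun i => eq i ▸ (mq i).2.1
  have key := family p q l hp hq ?_ ?_ ?_ ?_
  · obtain ⟨A, h1, h2, h3⟩ := to_finset _ key
    refine ⟨A, ?_, ?_, h3⟩
    · simp only [h1, ι, Fintype.card_prod, Fintype.card_coe, card_T]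
      rw [Finset.card_erase_of_mem (Finset.mem_univ _), pow_succ]
      simp [mul_comm]
    intro a ha
    obtain ⟨i, rfl⟩ := h2 a ha
    rw [norm_elt _ _ _ (hp i) (hq i)]
    have := lp i
    have := lq i
    simp at *; omega
  · rintro ⟨x, u⟩ ⟨y, v⟩ h
    have := h.eq_of_length (by simp [lp])
    have h1 : x = y := Subtype.ext (linv_inj (List.cons.inj this).1)
    have h2 : u = v := Subtype.ext (List.cons.inj this).2
    rw [h1, h2]
  · rintro ⟨x, u⟩ ⟨y, v⟩ h
    have := h.eq_of_length (by rw [lq, lq])
    have h1 : x = y := Subtype.ext (List.cons.inj this).1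
    subst h1
    rw [eq, eq] at this
    congr 1
    exact (e x).injective (Subtype.ext this)
  · intro i j h
    have := h.length_le
    rw [lq] at this
    simp [lp] at this
  · intro i j h
    rw [List.suffix_cons_iff] at h
    rcases h with h | h
    · have := congrArg List.length h
      rw [lq] at this
      simp [lp] at this
    · have := h.eq_of_length (by rw [lp, lq])
      have h2 := (mp i).2.2
      change (p i).head? = _ at h2
      rw [← this] at h2
      exact hl j (by simpa using h2)

theorem sphere (r n : ℕ) (hr : 1 ≤ r) (hn : 1 ≤ n) :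
    IsGreatest {k : ℕ | ∃ A : Finset (FreeGroup (Fin r)), A.card = k ∧ (∀ a ∈ A, a.norm = n) ∧
        Function.Injective (FreeGroup.lift (Subtype.val : A → FreeGroup (Fin r)))}
      (if Even n then (2 * r - 1) ^ (n / 2) else r * (2 * r - 1) ^ (n / 2)) ∧
    ∀ A : Finset (FreeGroup (Fin r)), (∀ a ∈ A, a.norm ≤ n) →
        Function.Injective (FreeGroup.lift (Subtype.val : A → FreeGroup (Fin r))) →
      A.card ≤ (if Even n then (2 * r - 1) ^ (n / 2) else r * (2 * r - 1) ^ (n / 2)) := by
  have up : ∀ A : Finset (FreeGroup (Fin r)), (∀ a ∈ A, a.norm ≤ n) →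
        Function.Injective (FreeGroup.lift (Subtype.val : A → FreeGroup (Fin r))) →
      A.card ≤ (if Even n then (2 * r - 1) ^ (n / 2) else r * (2 * r - 1) ^ (n / 2)) := by
    intro A h1 h2
    split_ifs with he
    · obtain ⟨k, rfl⟩ := he
      obtain ⟨m, rfl⟩ : ∃ m, k = m + 1 := ⟨k - 1, by omega⟩
      have := FreeBallUp.upper_even (α := Fin r) (by simpa using hr) m A h2
        (fun a ha => by have := h1 a ha; omega)
      rw [show (m + 1 + (m + 1)) / 2 = m + 1 by omega]
      simpa using this
    · obtain ⟨m, rfl⟩ := Nat.not_even_iff_odd.1 he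
      have := FreeBallUp.upper_odd (α := Fin r) (by simpa using hr) m A h2 h1
      rw [show (2 * m + 1) / 2 = m by omega]
      simpa using this
  refine ⟨⟨?_, ?_⟩, up⟩
  · split_ifs with he
    · obtain ⟨k, rfl⟩ := he
      obtain ⟨m, rfl⟩ : ∃ m, k = m + 1 := ⟨k - 1, by omega⟩
      obtain ⟨A, h1, h2, h3⟩ := lower_even (α := Fin r) (⟨0, hr⟩, true) m
      refine ⟨A, ?_, fun a ha => by rw [h2 a ha]; ring, h3⟩
      rw [show (m + 1 + (m + 1)) / 2 = m + 1 by omega]
      simpa using h1
    · obtain ⟨m, rfl⟩ := Nat.not_even_iff_odd.1 he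
      obtain ⟨A, h1, h2, h3⟩ := lower_odd (α := Fin r) m
      refine ⟨A, ?_, h2, h3⟩
      rw [show (2 * m + 1) / 2 = m by omega]
      simpa using h1
  · rintro k ⟨A, rfl, h1, h2⟩
    exact up A (fun a ha => (h1 a ha).le) h2

theorem ball_result (r n : ℕ) (hr : 1 ≤ r) :
    IsGreatest {k : ℕ | ∃ A : Finset (FreeGroup (Fin r)), A.card = k ∧ (∀ a ∈ A, a.norm ≤ n) ∧
        Function.Injective (FreeGroup.lift (Subtype.val : A → FreeGroup (Fin r)))}
      (if n = 0 then 0 else
        if Even n then (2 * r - 1) ^ (n / 2) else r * (2 * r - 1) ^ (n / 2)) := by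
  by_cases h0 : n = 0
  · subst h0
    rw [if_pos rfl]
    constructor
    · refine ⟨∅, rfl, by simp, fun a b _ => Subsingleton.elim _ _⟩
    · rintro k ⟨A, rfl, h1, h2⟩
      rw [Nat.le_zero, Finset.card_eq_zero, Finset.eq_empty_iff_forall_notMem]
      intro a ha
      have e : a = 1 := by simpa using h1 a ha
      classical
      apply of_ne_one (⟨a, ha⟩ : A)
      apply h2
      simp [e]
  · rw [if_neg h0]
    obtain ⟨⟨⟨A, h1, h2, h3⟩, _⟩, up⟩ := sphere r n hr (by omega)
    refine ⟨⟨A, h1, fun a ha => (h2 a ha).le, h3⟩, ?_⟩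
    rintro k ⟨A, rfl, h1, h2⟩
    exact up A h1 h2

end Pool.Agent.H65.FreeBallLow
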