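import Pool.Agent.H65.Words

set_option autoImplicit false

namespace Pool.Agent.H65.FreeBallUp
open FreeGroup hiding map_mul map_one map_inv IsReduced
open Pool.Agent.H65.Words

variable {α : Type*}

def Path (H : Subgroup (FreeGroup α)) (E : Finset (α × (FreeGroup α ⧸ H))) :
    List (α × Bool) → Prop
  | [] => True
  | l :: L => (if l.2 = true then (l.1, ((mk L : FreeGroup α) : FreeGroup α ⧸ H)) ∈ E
      else (l.1, ((mk (l :: L) : FreeGroup α) : FreeGroup α ⧸ H)) ∈ E) ∧ Path H E L

section W
variable {G : Type*} [Group G] (H : Subgroup (FreeGroup α))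

lemma out_mem (g : FreeGroup α) : ((g : FreeGroup α ⧸ H).out)⁻¹ * g ∈ H := by
  rw [← QuotientGroup.eq]; simp

noncomputable def W (χ : H →* G) (φ : FreeGroup α ⧸ H → G) (g : FreeGroup α) : G :=
  φ g * χ ⟨((g : FreeGroup α ⧸ H).out)⁻¹ * g, out_mem H g⟩

lemma W_mul (χ : H →* G) (φ : FreeGroup α ⧸ H → G) (g : FreeGroup α) (h : H) :
    W H χ φ (g * h) = W H χ φ g * χ h := by
  have e : ((g * h : FreeGroup α) : FreeGroup α ⧸ H) = g := by
    rw [QuotientGroup.eq]; simp
  unfold W
  rw [mul_assoc (φ g), ← map_mul]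
  congr 1
  · rw [e]
  · congr 1
    apply Subtype.ext
    simp only [Subgroup.coe_mul]
    rw [e, mul_assoc]

noncomputable def om (χ : H →* G) (φ : FreeGroup α ⧸ H → G) (e : α × (FreeGroup α ⧸ H)) : G :=
  W H χ φ (of e.1 * e.2.out) * (W H χ φ e.2.out)⁻¹

lemma W_of (χ : H →* G) (φ : FreeGroup α ⧸ H → G) (x : α) (g : FreeGroup α) :
    W H χ φ (of x * g) = om H χ φ (x, g) * W H χ φ g := by
  have h1 := W_mul H χ φ (of x * (g : FreeGroup α ⧸ H).out) ⟨_, out_mem H g⟩
  have h2 := W_mul H χ φ ((g : FreeGroup α ⧸ H).out) ⟨_, out_mem H g⟩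
  simp only [mul_assoc, mul_inv_cancel_left] at h1 h2
  rw [h1, h2, om]
  simp

lemma W_path (χ χ' : H →* G) (φ φ' : FreeGroup α ⧸ H → G) (E : Finset (α × (FreeGroup α ⧸ H)))
    (hE : ∀ e ∈ E, om H χ φ e = om H χ' φ' e) (h1 : W H χ φ 1 = W H χ' φ' 1)
    (L : List (α × Bool)) (hL : Path H E L) : W H χ φ (mk L) = W H χ' φ' (mk L) := by
  induction L with
  | nil => exact h1
  | cons l L ih =>
    obtain ⟨x, b⟩ := l
    obtain ⟨h2, h3⟩ := hL
    cases b
    · simp only [Bool.false_eq_true, if_false] at h2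
      have e : of x * mk ((x, false) :: L) = mk L := by
        rw [mk_cons]; exact mul_inv_cancel_left (of x) _
      have k1 := W_of H χ φ x (mk ((x, false) :: L))
      have k2 := W_of H χ' φ' x (mk ((x, false) :: L))
      rw [e] at k1 k2
      rw [ih h3, k2, hE _ h2] at k1
      exact (mul_left_cancel k1).symm
    · simp only [if_true] at h2
      have e : mk ((x, true) :: L) = of x * mk L := rfl
      rw [e, W_of, W_of, hE _ h2, ih h3]

end W

lemma core (A : Finset (FreeGroup α))
    (hA : Function.Injective (FreeGroup.lift (Subtype.val : A → FreeGroup α)))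
    (V : Finset (FreeGroup α ⧸ (FreeGroup.lift (Subtype.val : A → FreeGroup α)).range))
    (E : Finset (α × (FreeGroup α ⧸ (FreeGroup.lift (Subtype.val : A → FreeGroup α)).range)))
    (h1 : ∀ a ∈ A, ∃ L, Path _ E L ∧ mk L = a)
    (h2 : ∀ v ∈ V, ∃ L, Path _ E L ∧ ((mk L : FreeGroup α) : FreeGroup α ⧸ _) = v) :
    A.card + V.card ≤ E.card + 1 := by
  classical
  let H := (FreeGroup.lift (Subtype.val : A → FreeGroup α)).range
  let G := Multiplicative (ZMod 2)
  let χ : (A → G) → (H →* G) := fun c =>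
    (FreeGroup.lift c).comp (MonoidHom.ofInjective hA).symm.toMonoidHom
  have hmem : ∀ a : A, (a : FreeGroup α) ∈ H := fun a => ⟨of a, by simp⟩
  have hχ : ∀ c (a : A), χ c ⟨a, hmem a⟩ = c a := by
    intro c a
    have : (MonoidHom.ofInjective hA).symm ⟨a, hmem a⟩ = of a := by
      rw [MulEquiv.symm_apply_eq]
      apply Subtype.ext
      rw [MonoidHom.ofInjective_apply]
      simp
    simp [χ, this]
  let φ : (V → G) → (FreeGroup α ⧸ H → G) := fun f v => if h : v ∈ V then f ⟨v, h⟩ else 1
  let Φ : (A → G) × (V → G) → (E → G) × G := fun p =>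
    (fun e => om H (χ p.1) (φ p.2) e, W H (χ p.1) (φ p.2) 1)
  have hΦ : Function.Injective Φ := by
    rintro ⟨c, f⟩ ⟨c', f'⟩ h
    have e1 : ∀ e ∈ E, om H (χ c) (φ f) e = om H (χ c') (φ f') e := fun e he =>
      congrFun (congrArg Prod.fst h) ⟨e, he⟩
    have e2 : W H (χ c) (φ f) 1 = W H (χ c') (φ f') 1 := congrArg Prod.snd h
    have hc : c = c' := by
      funext a
      obtain ⟨L, hL, hLa⟩ := h1 a a.2
      have := W_path H _ _ _ _ E e1 e2 L hL
      have k1 := W_mul H (χ c) (φ f) 1 ⟨a, hmem a⟩
      have k2 := W_mul H (χ c') (φ f') 1 ⟨a, hmem a⟩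
      simp only [one_mul, hχ] at k1 k2
      rw [hLa, k1, k2, e2] at this
      exact mul_left_cancel this
    subst hc
    have hf : f = f' := by
      funext v
      obtain ⟨L, hL, hLv⟩ := h2 v v.2
      have := W_path H _ _ _ _ E e1 e2 L hL
      unfold W at this
      have := mul_right_cancel this
      rw [hLv] at this
      simpa [φ] using this
    rw [hf]
  have := Fintype.card_le_of_injective Φ hΦ
  have hG : Fintype.card G = 2 := by simp [G]
  simp only [Fintype.card_prod, Fintype.card_fun, hG, Fintype.card_coe] at this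
  rw [← pow_add, ← pow_succ] at this
  exact (Nat.pow_le_pow_iff_right (by norm_num)).1 this

variable [DecidableEq α] [Fintype α]

open Classical in
noncomputable def V (H : Subgroup (FreeGroup α)) (k : ℕ) : Finset (FreeGroup α ⧸ H) :=
  (ball k).image (fun g : FreeGroup α => (g : FreeGroup α ⧸ H))

lemma mem_V (H : Subgroup (FreeGroup α)) (k : ℕ) (v : FreeGroup α ⧸ H) :
    v ∈ V H k ↔ ∃ g : FreeGroup α, g.norm ≤ k ∧ (g : FreeGroup α ⧸ H) = v := by
  simp [V, mem_ball]

lemma mk_mem_V (H : Subgroup (FreeGroup α)) (k : ℕ) (L : List (α × Bool)) (h : L.length ≤ k) :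
    ((mk L : FreeGroup α) : FreeGroup α ⧸ H) ∈ V H k :=
  (mem_V _ _ _).2 ⟨_, norm_mk_le.trans h, rfl⟩

lemma mk_mem_V' (H : Subgroup (FreeGroup α)) (k : ℕ) (P L : List (α × Bool)) (h : P.length ≤ k)
    (hH : mk (P ++ L) ∈ H) : ((mk L : FreeGroup α) : FreeGroup α ⧸ H) ∈ V H k := by
  refine (mem_V _ _ _).2 ⟨(mk P)⁻¹, ?_, ?_⟩
  · rw [norm_inv_eq]; exact norm_mk_le.trans h
  · rw [QuotientGroup.eq, inv_inv, mul_mk]; exact hH

omit [DecidableEq α] [Fintype α] in
lemma path_of (H : Subgroup (FreeGroup α)) (E : Finset (α × (FreeGroup α ⧸ H)))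
    (L : List (α × Bool))
    (h : ∀ P l M, L = P ++ l :: M →
      (if l.2 = true then (l.1, ((mk M : FreeGroup α) : FreeGroup α ⧸ H)) ∈ E
      else (l.1, ((mk (l :: M) : FreeGroup α) : FreeGroup α ⧸ H)) ∈ E)) : Path H E L := by
  induction L with
  | nil => trivial
  | cons l L ih =>
    exact ⟨h [] l L rfl, ih fun P m M e => h (l :: P) m M (by rw [e]; rfl)⟩

lemma card_V_le (H : Subgroup (FreeGroup α)) (k : ℕ) :
    (V H k).card ≤ (ball (α := α) k).card := by
  classical
  exact Finset.card_image_le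

theorem upper_odd (hα : 1 ≤ Fintype.card α) (m : ℕ) (A : Finset (FreeGroup α))
    (hA : Function.Injective (FreeGroup.lift (Subtype.val : A → FreeGroup α)))
    (hn : ∀ a ∈ A, a.norm ≤ 2 * m + 1) :
    A.card ≤ Fintype.card α * (2 * Fintype.card α - 1) ^ m := by
  set H := (FreeGroup.lift (Subtype.val : A → FreeGroup α)).range with hH
  have key := core A hA (V H m) (Finset.univ ×ˢ V H m) ?_ ?_
  · have h1 := card_ball_le hα m
    have h2 := card_V_le H m
    rw [Finset.card_product, Finset.card_univ] at key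
    obtain ⟨s, hs⟩ : ∃ s, Fintype.card α = s + 1 := ⟨Fintype.card α - 1, by omega⟩
    generalize (ball (α := α) m).card = bb at *
    generalize Fintype.card α = r at *
    subst hs
    rw [Nat.add_sub_cancel] at h1
    nlinarith
  · intro a ha
    refine ⟨a.toWord, path_of _ _ _ ?_, mk_toWord⟩
    intro P l M e
    have hm : mk (P ++ l :: M) ∈ H := by rw [← e, mk_toWord]; exact ⟨of ⟨a, ha⟩, by simp⟩
    have hl : P.length + M.length + 1 ≤ 2 * m + 1 := by
      have := hn a ha
      unfold FreeGroup.norm at this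
      rw [e] at this; simp at this; omega
    split_ifs
    · simp only [Finset.mem_product, Finset.mem_univ, true_and]
      by_cases h : M.length ≤ m
      · exact mk_mem_V _ _ _ h
      · exact mk_mem_V' _ _ (P ++ [l]) _ (by simp; omega) (by simpa using hm)
    · simp only [Finset.mem_product, Finset.mem_univ, true_and]
      by_cases h : M.length + 1 ≤ m
      · exact mk_mem_V _ _ _ h
      · exact mk_mem_V' _ _ P _ (by omega) hm
  · intro v hv
    obtain ⟨g, hg, rfl⟩ := (mem_V _ _ _).1 hv
    refine ⟨g.toWord, path_of _ _ _ ?_, by rw [mk_toWord]⟩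
    intro P l M e
    have hl : P.length + M.length + 1 ≤ m := by
      unfold FreeGroup.norm at hg
      rw [e] at hg; simp at hg; omega
    split_ifs
    · simp only [Finset.mem_product, Finset.mem_univ, true_and]
      exact mk_mem_V _ _ _ (by omega)
    · simp only [Finset.mem_product, Finset.mem_univ, true_and]
      exact mk_mem_V _ _ _ (by simp; omega)

theorem upper_even (hα : 1 ≤ Fintype.card α) (m : ℕ) (A : Finset (FreeGroup α))
    (hA : Function.Injective (FreeGroup.lift (Subtype.val : A → FreeGroup α)))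
    (hn : ∀ a ∈ A, a.norm ≤ 2 * (m + 1)) :
    A.card ≤ (2 * Fintype.card α - 1) ^ (m + 1) := by
  classical
  set H := (FreeGroup.lift (Subtype.val : A → FreeGroup α)).range with hH
  let Eb : Finset (α × (FreeGroup α ⧸ H)) :=
    (Finset.univ ×ˢ (V H (m+1) \ V H m)).filter (fun e => of e.1 • e.2 ∈ V H m)
  have hsub : V H m ⊆ V H (m+1) := by
    intro v hv
    obtain ⟨g, hg, rfl⟩ := (mem_V _ _ _).1 hv
    exact (mem_V _ _ _).2 ⟨g, by omega, rfl⟩
  have hE : ∀ (x : α) (g : FreeGroup α), ((g : FreeGroup α ⧸ H) ∈ V H m ∨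
      ((of x * g : FreeGroup α) : FreeGroup α ⧸ H) ∈ V H m) →
      (x, (g : FreeGroup α ⧸ H)) ∈ (Finset.univ ×ˢ V H m) ∪ Eb := by
    intro x g h
    by_cases h1 : (g : FreeGroup α ⧸ H) ∈ V H m
    · simp [h1]
    · have h2 := h.resolve_left h1
      simp only [Eb, Finset.mem_union, Finset.mem_product, Finset.mem_univ, true_and,
        Finset.mem_filter, Finset.mem_sdiff]
      right
      refine ⟨⟨?_, h1⟩, h2⟩
      obtain ⟨k, hk, e⟩ := (mem_V _ _ _).1 h2
      refine (mem_V _ _ _).2 ⟨(of x)⁻¹ * k, ?_, ?_⟩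
      · refine (FreeGroup.norm_mul_le _ _).trans ?_
        rw [norm_inv_eq, norm_of]; omega
      · rw [QuotientGroup.eq] at *
        convert e using 1; group
  have hpath : ∀ (l : α × Bool) (M : List (α × Bool)),
      (((mk M : FreeGroup α) : FreeGroup α ⧸ H) ∈ V H m ∨
      ((mk (l :: M) : FreeGroup α) : FreeGroup α ⧸ H) ∈ V H m) →
      (if l.2 = true then (l.1, ((mk M : FreeGroup α) : FreeGroup α ⧸ H)) ∈
        (Finset.univ ×ˢ V H m) ∪ Eb
      else (l.1, ((mk (l :: M) : FreeGroup α) : FreeGroup α ⧸ H)) ∈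
        (Finset.univ ×ˢ V H m) ∪ Eb) := by
    rintro ⟨x, b⟩ M h
    cases b
    · simp only [Bool.false_eq_true, if_false]
      apply hE
      have e : of x * mk ((x, false) :: M) = mk M := by
        rw [mk_cons]; exact mul_inv_cancel_left (of x) _
      rw [e]; exact h.symm
    · simp only [if_true]
      exact hE _ _ h
  have key := core A hA (V H (m+1)) ((Finset.univ ×ˢ V H m) ∪ Eb) ?_ ?_
  · have h1 := card_ball_le hα m
    have h2 := card_V_le H m
    have h3 : ((Finset.univ ×ˢ V H m) ∪ Eb).card ≤ Fintype.card α * (V H m).card + Eb.card := by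
      refine (Finset.card_union_le _ _).trans ?_
      rw [Finset.card_product, Finset.card_univ]
    have h4 : Eb.card ≤ Fintype.card α * (V H (m+1) \ V H m).card := by
      refine (Finset.card_filter_le _ _).trans ?_
      rw [Finset.card_product, Finset.card_univ]
    have h5 : (V H (m+1) \ V H m).card + (V H m).card = (V H (m+1)).card :=
      Finset.card_sdiff_add_card_eq_card hsub
    have h6 : Eb.card ≤ Fintype.card α * (2 * Fintype.card α - 1) ^ m := by
      have hex : ∀ e ∈ Eb, ∃ L, L ∈ T m (e.1, false) ∧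
          ((mk L : FreeGroup α) : FreeGroup α ⧸ H) = e.2 := by
        rintro ⟨x, v⟩ he
        simp only [Eb, Finset.mem_product, Finset.mem_univ, true_and,
          Finset.mem_filter, Finset.mem_sdiff] at he
        obtain ⟨⟨_, he2⟩, he3⟩ := he
        obtain ⟨k, hk, e⟩ := (mem_V _ _ _).1 he3
        have e2 : ((mk [(x, false)] * k : FreeGroup α) : FreeGroup α ⧸ H) = v := by
          have : v = (of x)⁻¹ • (of x • v) := by simp
          rw [this, ← e]; rfl
        have hn2 : ¬ (mk [(x, false)] * k).norm ≤ m := fun h =>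
          he2 ((mem_V _ _ _).2 ⟨_, h, e2⟩)
        unfold FreeGroup.norm at hn2 hk
        by_cases hh : k.toWord.head? = some (linv (x, false))
        · rw [toWord_letter_mul_of_eq _ _ hh] at hn2
          simp at hn2; omega
        · refine ⟨(mk [(x, false)] * k).toWord, ?_, by rw [mk_toWord]; exact e2⟩
          rw [mem_T]
          refine ⟨isReduced_toWord, ?_, ?_⟩
          · rw [toWord_letter_mul_of_ne _ _ hh] at hn2 ⊢
            simp at hn2 ⊢; omega
          · rw [toWord_letter_mul_of_ne _ _ hh]; rfl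
      choose! f hf using hex
      have : Eb.card ≤ (Finset.univ.biUnion (fun x : α => T m (x, false))).card := by
        apply Finset.card_le_card_of_injOn f
        · intro e he
          simp only [Finset.coe_biUnion, Finset.coe_univ, Set.mem_univ, Set.iUnion_true,
            Set.mem_iUnion, Finset.mem_coe]
          exact ⟨e.1, (hf e he).1⟩
        · intro e he e' he' h
          have k1 := hf e he
          have k2 := hf e' he'
          rw [mem_T] at k1 k2
          rw [h] at k1
          apply Prod.ext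
          · have := k1.1.2.2.symm.trans k2.1.2.2
            simpa using this
          · rw [← k1.2, k2.2]
      refine this.trans (Finset.card_biUnion_le.trans ?_)
      simp [card_T]
    obtain ⟨s, hs⟩ : ∃ s, Fintype.card α = s + 1 := ⟨Fintype.card α - 1, by omega⟩
    generalize (ball (α := α) m).card = bb at *
    generalize Fintype.card α = r at *
    subst hs
    rw [Nat.add_sub_cancel] at h1
    have e : 2 * (s + 1) - 1 = 2 * s + 1 := by omega
    rw [e] at h1 h6 ⊢
    rw [pow_succ]
    generalize (2 * s + 1) ^ m = p at *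
    generalize Eb.card = eb at *
    generalize (V H (m+1) \ V H m).card = w at *
    generalize (V H m).card = v at *
    have k1 : A.card + w ≤ s * v + eb + 1 := by nlinarith
    have k2 : s * v + 1 ≤ (s + 1) * p := by nlinarith
    have k3 : (s + 1) * eb ≤ (s + 1) * (w + s * p) := by nlinarith
    have k4 : eb ≤ w + s * p := Nat.le_of_mul_le_mul_left k3 (by omega)
    nlinarith
  · intro a ha
    refine ⟨a.toWord, path_of _ _ _ ?_, mk_toWord⟩
    intro P l M e
    have hm : mk (P ++ l :: M) ∈ H := by rw [← e, mk_toWord]; exact ⟨of ⟨a, ha⟩, by simp⟩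
    have hl : P.length + M.length + 1 ≤ 2 * (m + 1) := by
      have := hn a ha
      unfold FreeGroup.norm at this
      rw [e] at this; simp at this; omega
    apply hpath
    by_cases h : M.length ≤ m
    · exact Or.inl (mk_mem_V _ _ _ h)
    · exact Or.inr (mk_mem_V' _ _ P _ (by omega) hm)
  · intro v hv
    obtain ⟨g, hg, rfl⟩ := (mem_V _ _ _).1 hv
    refine ⟨g.toWord, path_of _ _ _ ?_, by rw [mk_toWord]⟩
    intro P l M e
    have hl : P.length + M.length + 1 ≤ m + 1 := by
      unfold FreeGroup.norm at hg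
      rw [e] at hg; simp at hg; omega
    apply hpath
    exact Or.inl (mk_mem_V _ _ _ (by omega))

end Pool.Agent.H65.FreeBallUp
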