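import Pool.Agent.H65.Sanov

set_option autoImplicit false

namespace Pool.Agent.H65.FreeBasic
open scoped commutatorElement

theorem cyclic_of_comm (G : Type*) [Group G] [IsFreeGroup G] (h : ∀ x y : G, x * y = y * x) :
    ∃ t : G, ∀ g : G, ∃ k : ℤ, g = t ^ k := by
  classical
  have hs : Subsingleton (IsFreeGroup.Generators G) := by
    refine ⟨fun a b => by_contra fun hab => ?_⟩
    let f : G →* Equiv.Perm (Fin 3) := IsFreeGroup.lift fun x =>
      if x = a then Equiv.swap 0 1 else Equiv.swap 1 2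
    have := congrArg f (h (IsFreeGroup.of a) (IsFreeGroup.of b))
    simp only [map_mul, f, IsFreeGroup.lift_of, if_neg (Ne.symm hab), if_true] at this
    revert this; decide
  have key : ∃ t : FreeGroup (IsFreeGroup.Generators G), ∀ g, ∃ k : ℤ, g = t ^ k := by
    by_cases hn : Nonempty (IsFreeGroup.Generators G)
    · obtain ⟨a⟩ := hn
      refine ⟨FreeGroup.of a, fun g => ?_⟩
      induction g using FreeGroup.induction_on with
      | C1 => exact ⟨0, rfl⟩
      | of x => exact ⟨1, by rw [Subsingleton.elim x a, zpow_one]⟩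
      | inv_of x ih => obtain ⟨k, hk⟩ := ih; exact ⟨-k, by rw [hk, zpow_neg]⟩
      | mul x y ih1 ih2 =>
        obtain ⟨k, hk⟩ := ih1; obtain ⟨l, hl⟩ := ih2; exact ⟨k + l, by rw [hk, hl, zpow_add]⟩
    · refine ⟨1, fun g => ⟨0, ?_⟩⟩
      induction g using FreeGroup.induction_on with
      | C1 => rfl
      | of x => exact (hn ⟨x⟩).elim
      | inv_of x ih => exact (hn ⟨x⟩).elim
      | mul x y ih1 ih2 => rw [ih1, ih2]; simp
  obtain ⟨t, ht⟩ := key
  refine ⟨IsFreeGroup.mulEquiv G t, fun g => ?_⟩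
  obtain ⟨k, hk⟩ := ht ((IsFreeGroup.mulEquiv G).symm g)
  exact ⟨k, by rw [← map_zpow, ← hk]; simp⟩

theorem comm_root {G : Type*} [Group G] [IsFreeGroup G] {x y : G} (h : x * y = y * x) :
    ∃ (t : G) (p q : ℤ), x = t ^ p ∧ y = t ^ q := by
  let H := Subgroup.closure ({x, y} : Set G)
  have hc : ∀ u v : H, u * v = v * u := by
    have : IsMulCommutative H := Subgroup.isMulCommutative_closure (by
      rintro u (rfl | rfl) v (rfl | rfl) <;> simp [h])
    exact fun u v => this.is_comm.comm u v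
  obtain ⟨t, ht⟩ := cyclic_of_comm H hc
  obtain ⟨p, hp⟩ := ht ⟨x, Subgroup.subset_closure (by simp)⟩
  obtain ⟨q, hq⟩ := ht ⟨y, Subgroup.subset_closure (by simp)⟩
  exact ⟨t, p, q, by simpa using congrArg Subtype.val hp, by simpa using congrArg Subtype.val hq⟩

theorem exists_chi (G : Type*) [Group G] [IsFreeGroup G] [Nontrivial G] :
    ∃ (g : G) (χ : G →* Multiplicative ℤ), χ g ≠ 1 := by
  have hn : Nonempty (IsFreeGroup.Generators G) := by
    by_contra hn
    obtain ⟨x, hx⟩ := exists_ne (1 : G)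
    have : MonoidHom.id G = 1 := IsFreeGroup.ext_hom fun a => (hn ⟨a⟩).elim
    exact hx (DFunLike.congr_fun this x)
  obtain ⟨a⟩ := hn
  refine ⟨IsFreeGroup.of a, IsFreeGroup.lift fun _ => Multiplicative.ofAdd 1, ?_⟩
  simp

abbrev F := FreeGroup (Fin 2)

theorem not_solv (k : ℕ) : derivedSeries F k ≠ ⊥ := by
  intro h
  have : Group.IsSolvable F := ⟨⟨k, h⟩⟩
  let f : F →* Equiv.Perm (Fin 5) :=
    FreeGroup.lift ![finRotate 5, Equiv.swap 0 (finRotate 5 0)]
  have hf : Function.Surjective f := by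
    rw [← MonoidHom.range_eq_top, FreeGroup.range_lift_eq_closure]
    have := Equiv.Perm.closure_cycle_adjacent_swap (σ := finRotate 5) isCycle_finRotate
      support_finRotate 0
    rw [← this]
    congr 1
    ext x
    simp [eq_comm, or_comm]
  exact Equiv.Perm.not_isSolvable_fin_5 (Group.isSolvable_of_surjective hf)

open Sanov Matrix MatrixGroups in
theorem cong (k : ℕ) (g : F) (hg : g ∈ derivedSeries F k) :
    ∃ M : Matrix (Fin 2) (Fin 2) ℤ, (rho g : Matrix (Fin 2) (Fin 2) ℤ) = 1 + (2 : ℤ) ^ (k + 1) • M := by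
  induction k generalizing g with
  | zero =>
    obtain ⟨h1, h2, h3, h4⟩ := parity g
    refine ⟨!![rho g 0 0 / 2, rho g 0 1 / 2; rho g 1 0 / 2, rho g 1 1 / 2], ?_⟩
    ext i j
    fin_cases i <;> fin_cases j <;> simp <;> omega
  | succ k ih =>
    rw [derivedSeries_succ, Subgroup.commutator_def] at hg
    induction hg using Subgroup.closure_induction with
    | mem g hg =>
      obtain ⟨x, hx, y, hy, rfl⟩ := hg
      obtain ⟨M, hM⟩ := ih x hx
      obtain ⟨N, hN⟩ := ih y hy
      have e : (rho ⁅x, y⁆ : Matrix (Fin 2) (Fin 2) ℤ) =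
          1 + (((rho x : Matrix (Fin 2) (Fin 2) ℤ)) * rho y - rho y * rho x) * rho (x⁻¹ * y⁻¹) := by
        rw [sub_mul]
        simp only [← Matrix.SpecialLinearGroup.coe_mul, ← map_mul]
        have : y * x * (x⁻¹ * y⁻¹) = 1 := by group
        rw [this, commutatorElement_def]
        simp [mul_assoc]
      refine ⟨(2 : ℤ) ^ k • ((M * N - N * M) * rho (x⁻¹ * y⁻¹)), ?_⟩
      rw [e, hM, hN]
      congr 1
      rw [smul_smul, ← smul_mul_assoc]
      congr 1
      simp only [mul_add, add_mul, mul_smul_comm, smul_mul_assoc, mul_one, one_mul]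
      module
    | one => exact ⟨0, by simp⟩
    | mul x y _ _ h1 h2 =>
      obtain ⟨M, hM⟩ := h1
      obtain ⟨N, hN⟩ := h2
      refine ⟨M + N + (2 : ℤ) ^ (k + 1 + 1) • (M * N), ?_⟩
      rw [map_mul, Matrix.SpecialLinearGroup.coe_mul, hM, hN]
      simp only [mul_add, add_mul, mul_smul_comm, smul_mul_assoc, mul_one, one_mul, smul_add]
      abel
    | inv x _ h1 =>
      obtain ⟨M, hM⟩ := h1
      refine ⟨-(rho x⁻¹ * M), ?_⟩
      have : (rho x⁻¹ : Matrix (Fin 2) (Fin 2) ℤ) * rho x = 1 := by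
        rw [← Matrix.SpecialLinearGroup.coe_mul, ← map_mul]; simp
      rw [hM, mul_add, mul_one, mul_smul_comm] at this
      rw [← this]; simp

open Sanov in
theorem res_solv (g : F) (h : ∀ k, g ∈ derivedSeries F k) : g = 1 := by
  have key : ∀ i j : Fin 2, i ≠ j → rho g i j = 0 := by
    intro i j hij
    by_contra h0
    obtain ⟨M, hM⟩ := cong (rho g i j).natAbs g (h _)
    have e : rho g i j = 2 ^ ((rho g i j).natAbs + 1) * M i j := by
      have := congrFun (congrFun hM i) j
      rwa [Matrix.add_apply, Matrix.one_apply_ne hij, zero_add, Matrix.smul_apply,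
        smul_eq_mul] at this
    have h1 := Int.natAbs_le_of_dvd_ne_zero ⟨_, e⟩ h0
    rw [Int.natAbs_pow] at h1
    have := Nat.lt_two_pow_self (n := (rho g i j).natAbs + 1)
    simp at h1
    omega
  exact eq_one_of_offdiag g (key 0 1 (by simp)) (key 1 0 (by simp))

end Pool.Agent.H65.FreeBasic
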