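import Mathlib

set_option autoImplicit false

namespace Pool.Agent.H65.Gol

variable {k : Type} [Field k] {n : ℕ}

/-- The Koszul complex of `R = k[x_1, ..., x_n] / I` on the variables, as an algebra: the exterior
algebra of `R ^ n`; its degree `i` part is the `i`-th exterior power. -/
abbrev Kos (I : Ideal (MvPolynomial (Fin n) k)) : Type :=
  ExteriorAlgebra (MvPolynomial (Fin n) k ⧸ I) (Fin n → MvPolynomial (Fin n) k ⧸ I)

/-- The Koszul differential: contraction with the linear form sending `e_i` to `x_i`. -/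
noncomputable def kd (I : Ideal (MvPolynomial (Fin n) k)) :
    Kos I →ₗ[MvPolynomial (Fin n) k ⧸ I] Kos I :=
  CliffordAlgebra.contractLeft (Fintype.linearCombination (MvPolynomial (Fin n) k ⧸ I)
    fun i => Ideal.Quotient.mk I (MvPolynomial.X i))

/-- The homogeneous maximal ideal of `R = k[x_1, ..., x_n] / I`. -/
noncomputable def mx (I : Ideal (MvPolynomial (Fin n) k)) : Ideal (MvPolynomial (Fin n) k ⧸ I) :=
  Ideal.span (Set.range fun i => Ideal.Quotient.mk I (MvPolynomial.X i))

/-- Golod: the Koszul complex admits a trivial Massey operation. There are a family `B` of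
homogeneous cycles `μ [b]` of positive degrees whose classes span the homology in positive degrees
over `k`, and homogeneous elements `μ w` of `m K` for all nonempty words `w` in `B`, with
`d μ(b_1 ... b_p) = ∑_j bar (μ(b_1 ... b_j)) μ(b_(j+1) ... b_p)`, `bar a = (-1)^(|a|+1) a`. -/
def IsGolod (I : Ideal (MvPolynomial (Fin n) k)) : Prop :=
  ∃ (B : Type) (deg : B → ℕ) (μ : List B → Kos I),
    (∀ b, 1 ≤ deg b) ∧
    (∀ w : List B, w ≠ [] →
      μ w ∈ ⋀[MvPolynomial (Fin n) k ⧸ I]^((w.map fun b => deg b + 1).sum - 1)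
        (Fin n → MvPolynomial (Fin n) k ⧸ I) ∧
      μ w ∈ mx I • (⊤ : Submodule (MvPolynomial (Fin n) k ⧸ I) (Kos I))) ∧
    (∀ b, kd I (μ [b]) = 0) ∧
    (∀ i, 1 ≤ i → ∀ z ∈ ⋀[MvPolynomial (Fin n) k ⧸ I]^i (Fin n → MvPolynomial (Fin n) k ⧸ I),
      kd I z = 0 → ∃ y, z - kd I y ∈ Submodule.span k (Set.range fun b => μ [b])) ∧
    (∀ w : List B, 2 ≤ w.length →
      kd I (μ w) = ∑ j ∈ Finset.Ioo 0 w.length,
        -CliffordAlgebra.involute (μ (w.take j)) * μ (w.drop j))

end Pool.Agent.H65.Gol
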