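import Mathlib
import Pool.Agent.H65.GolDefs

set_option autoImplicit false
set_option maxHeartbeats 1000000
open MvPolynomial

namespace Pool.Agent.H65.Gol

abbrev S := MvPolynomial (Fin 3) ℚ

noncomputable def gens : Set S :=
  {X 0 * X 0 * X 1, X 0 * X 0 * X 2, X 1 * X 1 * X 0, X 1 * X 1 * X 2, X 2 * X 2 * X 0,
    X 2 * X 2 * X 1, X 0 * X 0 * X 0 - X 1 * X 1 * X 1, X 0 * X 0 * X 0 - X 2 * X 2 * X 2}

noncomputable def I0 : Ideal S := Ideal.span gens

abbrev R := S ⧸ I0

noncomputable def xv (i : Fin 3) : R := Ideal.Quotient.mk I0 (X i)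

noncomputable abbrev c (a : ℚ) : R := algebraMap ℚ R a

theorem rel {g : S} (h : g ∈ gens) : Ideal.Quotient.mk I0 g = 0 :=
  Ideal.Quotient.eq_zero_iff_mem.2 (Ideal.subset_span h)

theorem r001 : xv 0 * xv 0 * xv 1 = 0 := by
  have := rel (g := X 0 * X 0 * X 1) (by simp [gens])
  simp only [map_mul] at this
  exact this

theorem r002 : xv 0 * xv 0 * xv 2 = 0 := by
  have := rel (g := X 0 * X 0 * X 2) (by simp [gens])
  simp only [map_mul] at this
  exact this

theorem r110 : xv 1 * xv 1 * xv 0 = 0 := by
  have := rel (g := X 1 * X 1 * X 0) (by simp [gens])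
  simp only [map_mul] at this
  exact this

theorem r112 : xv 1 * xv 1 * xv 2 = 0 := by
  have := rel (g := X 1 * X 1 * X 2) (by simp [gens])
  simp only [map_mul] at this
  exact this

theorem r220 : xv 2 * xv 2 * xv 0 = 0 := by
  have := rel (g := X 2 * X 2 * X 0) (by simp [gens])
  simp only [map_mul] at this
  exact this

theorem r221 : xv 2 * xv 2 * xv 1 = 0 := by
  have := rel (g := X 2 * X 2 * X 1) (by simp [gens])
  simp only [map_mul] at this
  exact this

theorem rc1 : xv 0 * xv 0 * xv 0 - xv 1 * xv 1 * xv 1 = 0 := by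
  have := rel (g := X 0 * X 0 * X 0 - X 1 * X 1 * X 1) (by simp [gens])
  simp only [map_mul, map_sub] at this
  exact this

theorem rc2 : xv 0 * xv 0 * xv 0 - xv 2 * xv 2 * xv 2 = 0 := by
  have := rel (g := X 0 * X 0 * X 0 - X 2 * X 2 * X 2) (by simp [gens])
  simp only [map_mul, map_sub] at this
  exact this

theorem q0000 : xv 0 * xv 0 * xv 0 * xv 0 = 0 := by linear_combination xv 0 * rc1 + xv 1 * r110
theorem q0001 : xv 0 * xv 0 * xv 0 * xv 1 = 0 := by linear_combination xv 0 * r001
theorem q0002 : xv 0 * xv 0 * xv 0 * xv 2 = 0 := by linear_combination xv 0 * r002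
theorem q0011 : xv 0 * xv 0 * xv 1 * xv 1 = 0 := by linear_combination xv 1 * r001
theorem q0012 : xv 0 * xv 0 * xv 1 * xv 2 = 0 := by linear_combination xv 2 * r001
theorem q0022 : xv 0 * xv 0 * xv 2 * xv 2 = 0 := by linear_combination xv 2 * r002
theorem q0111 : xv 0 * xv 1 * xv 1 * xv 1 = 0 := by linear_combination xv 1 * r110
theorem q0112 : xv 0 * xv 1 * xv 1 * xv 2 = 0 := by linear_combination xv 2 * r110
theorem q0122 : xv 0 * xv 1 * xv 2 * xv 2 = 0 := by linear_combination xv 1 * r220
theorem q0222 : xv 0 * xv 2 * xv 2 * xv 2 = 0 := by linear_combination xv 2 * r220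
theorem q1111 : xv 1 * xv 1 * xv 1 * xv 1 = 0 := by linear_combination -(xv 1 * rc1) + xv 0 * r001
theorem q1112 : xv 1 * xv 1 * xv 1 * xv 2 = 0 := by linear_combination xv 1 * r112
theorem q1122 : xv 1 * xv 1 * xv 2 * xv 2 = 0 := by linear_combination xv 2 * r112
theorem q1222 : xv 1 * xv 2 * xv 2 * xv 2 = 0 := by linear_combination xv 2 * r221
theorem q2222 : xv 2 * xv 2 * xv 2 * xv 2 = 0 := by linear_combination -(xv 2 * rc2) + xv 0 * r002

theorem M4g {A : Type} [CommRing A] (x : Fin 3 → A)
    (q0000 : x 0 * x 0 * x 0 * x 0 = 0)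
    (q0001 : x 0 * x 0 * x 0 * x 1 = 0)
    (q0002 : x 0 * x 0 * x 0 * x 2 = 0)
    (q0011 : x 0 * x 0 * x 1 * x 1 = 0)
    (q0012 : x 0 * x 0 * x 1 * x 2 = 0)
    (q0022 : x 0 * x 0 * x 2 * x 2 = 0)
    (q0111 : x 0 * x 1 * x 1 * x 1 = 0)
    (q0112 : x 0 * x 1 * x 1 * x 2 = 0)
    (q0122 : x 0 * x 1 * x 2 * x 2 = 0)
    (q0222 : x 0 * x 2 * x 2 * x 2 = 0)
    (q1111 : x 1 * x 1 * x 1 * x 1 = 0)
    (q1112 : x 1 * x 1 * x 1 * x 2 = 0)
    (q1122 : x 1 * x 1 * x 2 * x 2 = 0)
    (q1222 : x 1 * x 2 * x 2 * x 2 = 0)
    (q2222 : x 2 * x 2 * x 2 * x 2 = 0)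
    (i j k l : Fin 3) : x i * (x j * x k * x l) = 0 := by
  have h : ∀ i : Fin 3, i = 0 ∨ i = 1 ∨ i = 2 := by decide
  rcases h i with rfl | rfl | rfl <;> rcases h j with rfl | rfl | rfl <;>
  rcases h k with rfl | rfl | rfl <;> rcases h l with rfl | rfl | rfl
  · linear_combination q0000
  · linear_combination q0001
  · linear_combination q0002
  · linear_combination q0001
  · linear_combination q0011
  · linear_combination q0012
  · linear_combination q0002
  · linear_combination q0012
  · linear_combination q0022
  · linear_combination q0001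
  · linear_combination q0011
  · linear_combination q0012
  · linear_combination q0011
  · linear_combination q0111
  · linear_combination q0112
  · linear_combination q0012
  · linear_combination q0112
  · linear_combination q0122
  · linear_combination q0002
  · linear_combination q0012
  · linear_combination q0022
  · linear_combination q0012
  · linear_combination q0112
  · linear_combination q0122
  · linear_combination q0022
  · linear_combination q0122
  · linear_combination q0222
  · linear_combination q0001
  · linear_combination q0011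
  · linear_combination q0012
  · linear_combination q0011
  · linear_combination q0111
  · linear_combination q0112
  · linear_combination q0012
  · linear_combination q0112
  · linear_combination q0122
  · linear_combination q0011
  · linear_combination q0111
  · linear_combination q0112
  · linear_combination q0111
  · linear_combination q1111
  · linear_combination q1112
  · linear_combination q0112
  · linear_combination q1112
  · linear_combination q1122
  · linear_combination q0012
  · linear_combination q0112
  · linear_combination q0122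
  · linear_combination q0112
  · linear_combination q1112
  · linear_combination q1122
  · linear_combination q0122
  · linear_combination q1122
  · linear_combination q1222
  · linear_combination q0002
  · linear_combination q0012
  · linear_combination q0022
  · linear_combination q0012
  · linear_combination q0112
  · linear_combination q0122
  · linear_combination q0022
  · linear_combination q0122
  · linear_combination q0222
  · linear_combination q0012
  · linear_combination q0112
  · linear_combination q0122
  · linear_combination q0112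
  · linear_combination q1112
  · linear_combination q1122
  · linear_combination q0122
  · linear_combination q1122
  · linear_combination q1222
  · linear_combination q0022
  · linear_combination q0122
  · linear_combination q0222
  · linear_combination q0122
  · linear_combination q1122
  · linear_combination q1222
  · linear_combination q0222
  · linear_combination q1222
  · linear_combination q2222

theorem M4 (i j k l : Fin 3) : xv i * (xv j * xv k * xv l) = 0 :=
  M4g xv q0000 q0001 q0002 q0011 q0012 q0022 q0111 q0112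
    q0122 q0222 q1111 q1112 q1122 q1222 q2222 i j k l

theorem step {t : R} (h : ∀ i, xv i * t = 0) {r : R} (hr : r ∈ mx I0) : r * t = 0 := by
  induction hr using Submodule.span_induction with
  | mem z hz => obtain ⟨i, rfl⟩ := hz; exact h i
  | zero => simp
  | add a b _ _ h1 h2 => rw [add_mul, h1, h2, add_zero]
  | smul a b _ h1 => rw [smul_eq_mul, mul_assoc, h1, mul_zero]

theorem xv_mem (i : Fin 3) : xv i ∈ mx I0 := Ideal.subset_span ⟨i, rfl⟩

theorem m4 {a b d e : R} (ha : a ∈ mx I0) (hb : b ∈ mx I0) (hd : d ∈ mx I0) (he : e ∈ mx I0) :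
    a * b * (d * e) = 0 := by
  have h1 : ∀ j k l, a * (xv j * xv k * xv l) = 0 := fun j k l => step (fun i => M4 i j k l) ha
  have h2 : ∀ k l, b * (a * xv k * xv l) = 0 := fun k l =>
    step (fun j => by linear_combination h1 j k l) hb
  have h3 : ∀ l, d * (b * a * xv l) = 0 := fun l =>
    step (fun k => by linear_combination h2 k l) hd
  have h4 : e * (d * b * a) = 0 := step (fun l => by linear_combination h3 l) he
  linear_combination h4

theorem m22 {p q : R} (hp : p ∈ mx I0 * mx I0) (hq : q ∈ mx I0 * mx I0) : p * q = 0 := by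
  refine Submodule.mul_induction_on hp (fun a ha b hb => ?_)
    (fun a b h1 h2 => by rw [add_mul, h1, h2, add_zero])
  exact Submodule.mul_induction_on hq (fun d hd e he => m4 ha hb hd he)
    (fun a b h1 h2 => by rw [mul_add, h1, h2, add_zero])

theorem xx_mem (i j : Fin 3) : xv i * xv j ∈ mx I0 * mx I0 :=
  Ideal.mul_mem_mul (xv_mem i) (xv_mem j)

def NF (r : R) : Prop :=
  ∃ a b0 b1 b2 c00 c11 c22 c01 c02 c12 e1 e2 : ℚ,
    r = c a + c b0 * xv 0 + c b1 * xv 1 + c b2 * xv 2 + c c00 * (xv 0 * xv 0)
      + c c11 * (xv 1 * xv 1) + c c22 * (xv 2 * xv 2) + c c01 * (xv 0 * xv 1)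
      + c c02 * (xv 0 * xv 2) + c c12 * (xv 1 * xv 2) + c e1 * (xv 0 * xv 0 * xv 0)
      + c e2 * (xv 0 * xv 1 * xv 2)

theorem nf (r : R) : NF r := by
  obtain ⟨p, rfl⟩ := Ideal.Quotient.mk_surjective r
  induction p using MvPolynomial.induction_on with
  | C a =>
    refine ⟨a, 0, 0, 0, 0, 0, 0, 0, 0, 0, 0, 0, ?_⟩
    simp only [map_zero, zero_mul, add_zero]
    rfl
  | add p q hp hq =>
    obtain ⟨a, b0, b1, b2, c00, c11, c22, c01, c02, c12, e1, e2, h⟩ := hp
    obtain ⟨a', b0', b1', b2', c00', c11', c22', c01', c02', c12', e1', e2', h'⟩ := hq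
    refine ⟨a + a', b0 + b0', b1 + b1', b2 + b2', c00 + c00', c11 + c11', c22 + c22', c01 + c01',
      c02 + c02', c12 + c12', e1 + e1', e2 + e2', ?_⟩
    simp only [map_add]
    linear_combination h + h'
  | mul_X p i hp =>
    obtain ⟨a, b0, b1, b2, c00, c11, c22, c01, c02, c12, e1, e2, h⟩ := hp
    rw [map_mul, h]
    change NF (_ * xv i)
    fin_cases i
    · refine ⟨0, a, 0, 0, b0, 0, 0, b1, b2, 0, c00, c12, ?_⟩
      simp only [map_zero, Fin.zero_eta]
      linear_combination c c11 * r110 + c c22 * r220 + c c01 * r001 + c c02 * r002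
        + c e1 * q0000 + c e2 * q0012
    · refine ⟨0, 0, a, 0, 0, b1, 0, b0, 0, b2, c11, c02, ?_⟩
      simp only [map_zero, Fin.mk_one]
      linear_combination c c00 * r001 - c c11 * rc1 + c c22 * r221 + c c01 * r110 + c c12 * r112
        + c e1 * q0001 + c e2 * q0112
    · refine ⟨0, 0, 0, a, 0, 0, b2, 0, b0, b1, c22, c01, ?_⟩
      simp only [map_zero, Fin.reduceFinMk]
      linear_combination c c00 * r002 + c c11 * r112 - c c22 * rc2 + c c02 * r220 + c c12 * r221
        + c e1 * q0002 + c e2 * q0122

noncomputable def L1 (p : S) : ℚ :=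
  constantCoeff (pderiv 0 (pderiv 0 (pderiv 0 p))) + constantCoeff (pderiv 1 (pderiv 1 (pderiv 1 p)))
    + constantCoeff (pderiv 2 (pderiv 2 (pderiv 2 p)))

noncomputable def L2 (p : S) : ℚ := constantCoeff (pderiv 0 (pderiv 1 (pderiv 2 p)))

theorem L_van {p : S} (hp : p ∈ I0) : ∀ q : S, L1 (q * p) = 0 ∧ L2 (q * p) = 0 := by
  induction hp using Submodule.span_induction with
  | mem g hg =>
    intro q
    simp only [gens, Set.mem_insert_iff, Set.mem_singleton_iff] at hg
    rcases hg with rfl | rfl | rfl | rfl | rfl | rfl | rfl | rfl <;>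
    · constructor <;>
      simp [L1, L2, Derivation.leibniz, pderiv_X, Pi.single_apply] <;> ring
  | zero => intro q; simp [L1, L2]
  | add a b _ _ h1 h2 =>
    intro q
    have := h1 q
    have := h2 q
    simp only [L1, L2, mul_add, map_add] at *
    constructor <;> linarith
  | smul a b _ h1 =>
    intro q
    rw [smul_eq_mul, ← mul_assoc]
    exact h1 _

theorem indep2 {a b : ℚ} (h : c a * (xv 0 * xv 0 * xv 0) + c b * (xv 0 * xv 1 * xv 2) = 0) :
    a = 0 ∧ b = 0 := by
  have : (C a * (X 0 * X 0 * X 0) + C b * (X 0 * X 1 * X 2) : S) ∈ I0 := by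
    rw [← Ideal.Quotient.eq_zero_iff_mem]
    simp only [map_add, map_mul]
    exact h
  have h2 := L_van this 1
  simp [L1, L2, Derivation.leibniz, pderiv_X, Pi.single_apply] at h2
  constructor
  · exact h2.1.resolve_right (by norm_num)
  · exact h2.2

end Pool.Agent.H65.Gol
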