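import Mathlib
import Pool.Agent.H65.Gol1

set_option autoImplicit false
set_option maxHeartbeats 1000000
open MvPolynomial

namespace Pool.Agent.H65.Gol

theorem c0 : c 0 = 0 := map_zero _

theorem indep_low {b0 b1 b2 c00 c11 c22 c01 c02 c12 : ℚ} {q : R} (hq : ∀ j, q * xv j = 0)
    (h : c b0 * xv 0 + c b1 * xv 1 + c b2 * xv 2 + c c00 * (xv 0 * xv 0)
      + c c11 * (xv 1 * xv 1) + c c22 * (xv 2 * xv 2) + c c01 * (xv 0 * xv 1)
      + c c02 * (xv 0 * xv 2) + c c12 * (xv 1 * xv 2) + q = 0) :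
    b0 = 0 ∧ b1 = 0 ∧ b2 = 0 ∧ c00 = 0 ∧ c11 = 0 ∧ c22 = 0 ∧ c01 = 0 ∧ c02 = 0 ∧ c12 = 0 := by
  have hb0 : b0 = 0 := (indep2 (a := b0) (b := 0) (by
    rw [c0]
    linear_combination xv 0 * xv 0 * h - c b1 * r001 - c b2 * r002 - c c00 * q0000
      - c c11 * q0011 - c c22 * q0022 - c c01 * q0001 - c c02 * q0002 - c c12 * q0012
      - xv 0 * hq 0)).1
  have hb1 : b1 = 0 := (indep2 (a := b1) (b := 0) (by
    rw [c0]
    linear_combination xv 1 * xv 1 * h - c b0 * r110 + c b1 * rc1 - c b2 * r112 - c c00 * q0011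
      - c c11 * q1111 - c c22 * q1122 - c c01 * q0111 - c c02 * q0112 - c c12 * q1112
      - xv 1 * hq 1)).1
  have hb2 : b2 = 0 := (indep2 (a := b2) (b := 0) (by
    rw [c0]
    linear_combination xv 2 * xv 2 * h - c b0 * r220 + c b2 * rc2 - c b1 * r221 - c c00 * q0022
      - c c11 * q1122 - c c22 * q2222 - c c01 * q0122 - c c02 * q0222 - c c12 * q1222
      - xv 2 * hq 2)).1
  subst hb0 hb1 hb2
  rw [c0] at h
  have h0 := indep2 (a := c00) (b := c12) (by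
    linear_combination xv 0 * h - c c11 * r110 - c c22 * r220 - c c01 * r001 - c c02 * r002
      - hq 0)
  have h1 := indep2 (a := c11) (b := c02) (by
    linear_combination xv 1 * h - c c00 * r001 + c c11 * rc1 - c c22 * r221 - c c01 * r110
      - c c12 * r112 - hq 1)
  have h2 := indep2 (a := c22) (b := c01) (by
    linear_combination xv 2 * h - c c00 * r002 - c c11 * r112 + c c22 * rc2 - c c02 * r220
      - c c12 * r221 - hq 2)
  exact ⟨rfl, rfl, rfl, h0.1, h1.1, h2.1, h2.2, h1.2, h0.2⟩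

theorem low (r : R) : ∃ (a b0 b1 b2 : ℚ) (q : R), q ∈ mx I0 * mx I0 ∧
    r = c a + c b0 * xv 0 + c b1 * xv 1 + c b2 * xv 2 + q := by
  obtain ⟨a, b0, b1, b2, c00, c11, c22, c01, c02, c12, e1, e2, h⟩ := nf r
  refine ⟨a, b0, b1, b2, c c00 * (xv 0 * xv 0)
      + c c11 * (xv 1 * xv 1) + c c22 * (xv 2 * xv 2) + c c01 * (xv 0 * xv 1)
      + c c02 * (xv 0 * xv 2) + c c12 * (xv 1 * xv 2) + c e1 * xv 0 * (xv 0 * xv 0)
      + c e2 * xv 0 * (xv 1 * xv 2), ?_, by linear_combination h⟩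
  repeat' apply Ideal.add_mem
  all_goals exact Ideal.mul_mem_left _ _ (xx_mem _ _)

theorem qx {q : R} (hq : q ∈ mx I0 * mx I0) (i j : Fin 3) : xv i * q * xv j = 0 := by
  linear_combination m22 hq (xx_mem i j)

end Pool.Agent.H65.Gol
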