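import Mathlib
import Pool.Agent.H65.GolDefs

set_option autoImplicit false
set_option maxHeartbeats 1000000
open MvPolynomial ExteriorAlgebra

namespace Pool.Agent.H65.Gol

section Ext
variable {A : Type} [CommRing A]

abbrev E (A : Type) [CommRing A] := ExteriorAlgebra A (Fin 3 → A)

noncomputable def e (A : Type) [CommRing A] (i : Fin 3) : E A := ι A (Pi.single i 1)

theorem iota_eq (v : Fin 3 → A) : ι A v = v 0 • e A 0 + v 1 • e A 1 + v 2 • e A 2 := by
  simp only [e, ← map_smul, ← map_add]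
  congr 1
  funext i
  fin_cases i <;> simp

theorem ee (i : Fin 3) : e A i * e A i = 0 := ι_sq_zero _

theorem esw (i j : Fin 3) : e A j * e A i = -(e A i * e A j) :=
  eq_neg_of_add_eq_zero_right (ι_add_mul_swap _ _)

theorem e10 : e A 1 * e A 0 = -(e A 0 * e A 1) := esw 0 1
theorem e20 : e A 2 * e A 0 = -(e A 0 * e A 2) := esw 0 2
theorem e21 : e A 2 * e A 1 = -(e A 1 * e A 2) := esw 1 2

theorem eij_j (i j : Fin 3) : e A i * e A j * e A j = 0 := by rw [mul_assoc, ee, mul_zero]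
theorem eij_i (i j : Fin 3) : e A i * e A j * e A i = 0 := by
  rw [mul_assoc, esw i j, mul_neg, ← mul_assoc, ee, zero_mul, neg_zero]
theorem e120 : e A 1 * e A 2 * e A 0 = e A 0 * e A 1 * e A 2 := by
  rw [mul_assoc, e20, mul_neg, ← mul_assoc, e10, neg_mul, neg_neg]
theorem e021 : e A 0 * e A 2 * e A 1 = -(e A 0 * e A 1 * e A 2) := by
  rw [mul_assoc, e21, mul_neg, mul_assoc]

theorem pow_succ_ind {i : ℕ} {P : E A → Prop} (hadd : ∀ x y, P x → P y → P (x + y))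
    (h : ∀ x ∈ ⋀[A]^i (Fin 3 → A), ∀ v, P (x * ι A v)) :
    ∀ z ∈ ⋀[A]^(i + 1) (Fin 3 → A), P z := by
  intro z hz
  rw [exteriorPower, pow_succ] at hz
  refine Submodule.mul_induction_on hz (fun x hx y hy => ?_) hadd
  obtain ⟨v, rfl⟩ := hy
  exact h x hx v

theorem K1 : ∀ z ∈ ⋀[A]^1 (Fin 3 → A), ∃ v, z = ι A v := by
  intro z hz
  rw [exteriorPower, pow_one] at hz
  obtain ⟨v, rfl⟩ := hz
  exact ⟨v, rfl⟩

theorem K2 : ∀ z ∈ ⋀[A]^2 (Fin 3 → A), ∃ a b c : A,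
    z = a • (e A 1 * e A 2) + b • (e A 0 * e A 2) + c • (e A 0 * e A 1) := by
  refine pow_succ_ind (i := 1) ?_ ?_
  · rintro _ _ ⟨a, b, c, rfl⟩ ⟨a', b', c', rfl⟩
    exact ⟨a + a', b + b', c + c', by module⟩
  · intro x hx w
    obtain ⟨v, rfl⟩ := K1 x hx
    refine ⟨v 1 * w 2 - v 2 * w 1, v 0 * w 2 - v 2 * w 0, v 0 * w 1 - v 1 * w 0, ?_⟩
    simp only [iota_eq, mul_add, add_mul, smul_mul_smul_comm, ee, e10, e20, e21]
    module

theorem K3 : ∀ z ∈ ⋀[A]^3 (Fin 3 → A), ∃ a : A, z = a • (e A 0 * e A 1 * e A 2) := by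
  refine pow_succ_ind (i := 2) ?_ ?_
  · rintro _ _ ⟨a, rfl⟩ ⟨a', rfl⟩
    exact ⟨a + a', by module⟩
  · intro x hx w
    obtain ⟨a, b, c, rfl⟩ := K2 x hx
    refine ⟨a * w 0 - b * w 1 + c * w 2, ?_⟩
    simp only [iota_eq, mul_add, add_mul, smul_mul_smul_comm, eij_j, eij_i, e120, e021]
    module

theorem K4 (i : ℕ) : ∀ z ∈ ⋀[A]^(i + 4) (Fin 3 → A), z = 0 := by
  induction i with
  | zero =>
    refine pow_succ_ind (i := 3) (fun x y h h' => by rw [h, h', add_zero]) ?_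
    intro x hx w
    obtain ⟨a, rfl⟩ := K3 x hx
    have h0 : e A 0 * e A 1 * e A 2 * e A 0 = 0 := by
      rw [← e120, mul_assoc, ee, mul_zero]
    have h1 : e A 0 * e A 1 * e A 2 * e A 1 = 0 := by
      rw [mul_assoc (e A 0), mul_assoc (e A 0), eij_i, mul_zero]
    have h2 : e A 0 * e A 1 * e A 2 * e A 2 = 0 := by rw [mul_assoc, ee, mul_zero]
    simp only [iota_eq, mul_add, smul_mul_smul_comm, h0, h1, h2, smul_zero, add_zero]
  | succ i ih =>
    refine pow_succ_ind (i := i + 4) (fun x y h h' => by rw [h, h', add_zero]) ?_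
    intro x hx w
    rw [ih x hx, zero_mul]

theorem e_mem (i : Fin 3) : e A i ∈ ⋀[A]^1 (Fin 3 → A) := by
  rw [exteriorPower, pow_one]
  exact ⟨_, rfl⟩

theorem ee_mem (i j : Fin 3) : e A i * e A j ∈ ⋀[A]^2 (Fin 3 → A) := by
  rw [exteriorPower, pow_two]
  exact Submodule.mul_mem_mul ⟨_, rfl⟩ ⟨_, rfl⟩

theorem ct_e (φ : Module.Dual A (Fin 3 → A)) (i : Fin 3) :
    CliffordAlgebra.contractLeft φ (e A i) = φ (Pi.single i 1) • (1 : E A) := by
  rw [← Algebra.algebraMap_eq_smul_one]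
  exact CliffordAlgebra.contractLeft_ι _ _ _

theorem ct_mul (φ : Module.Dual A (Fin 3 → A)) (i : Fin 3) (b : E A) :
    CliffordAlgebra.contractLeft φ (e A i * b) =
      φ (Pi.single i 1) • b - e A i * CliffordAlgebra.contractLeft φ b :=
  CliffordAlgebra.contractLeft_ι_mul _ _ _

theorem ct_ee (φ : Module.Dual A (Fin 3 → A)) (i j : Fin 3) :
    CliffordAlgebra.contractLeft φ (e A i * e A j) =
      φ (Pi.single i 1) • e A j - φ (Pi.single j 1) • e A i := by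
  rw [ct_mul, ct_e, mul_smul_comm, mul_one]

theorem ct_eee (φ : Module.Dual A (Fin 3 → A)) :
    CliffordAlgebra.contractLeft φ (e A 0 * e A 1 * e A 2) =
      φ (Pi.single 0 1) • (e A 1 * e A 2) - φ (Pi.single 1 1) • (e A 0 * e A 2)
        + φ (Pi.single 2 1) • (e A 0 * e A 1) := by
  rw [mul_assoc, ct_mul, ct_ee, mul_sub, mul_smul_comm, mul_smul_comm]
  abel

theorem lin1 {a b c : A} (h : a • e A 0 + b • e A 1 + c • e A 2 = 0) :
    a = 0 ∧ b = 0 ∧ c = 0 := by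
  have := (ι_eq_zero_iff (R := A) ![a, b, c]).1 (by rw [iota_eq]; exact h)
  exact ⟨congrFun this 0, congrFun this 1, congrFun this 2⟩

theorem lin2 {a b c : A}
    (h : a • (e A 1 * e A 2) + b • (e A 0 * e A 2) + c • (e A 0 * e A 1) = 0) :
    a = 0 ∧ b = 0 ∧ c = 0 := by
  have h0 := congrArg (CliffordAlgebra.contractLeft (LinearMap.proj 0 : (Fin 3 → A) →ₗ[A] A)) h
  have h1 := congrArg (CliffordAlgebra.contractLeft (LinearMap.proj 1 : (Fin 3 → A) →ₗ[A] A)) h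
  simp only [map_add, map_smul, map_zero, ct_ee] at h0 h1
  simp at h0 h1
  have k0 := lin1 (a := 0) (b := c) (c := b) (by rw [← h0]; module)
  have k1 := lin1 (a := -c) (b := 0) (c := a) (by rw [← h1]; module)
  exact ⟨k1.2.2, k0.2.2, k0.2.1⟩

end Ext

end Pool.Agent.H65.Gol
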