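import Mathlib
import Pool.Agent.H65.Gol1b
import Pool.Agent.H65.Gol2

set_option autoImplicit false
set_option maxHeartbeats 1000000
open MvPolynomial ExteriorAlgebra

namespace Pool.Agent.H65.Gol

theorem ct1 {A : Type} [CommRing A] (φ : Module.Dual A (Fin 3 → A)) (a b d : A)
    (h : CliffordAlgebra.contractLeft φ (a • e A 0 + b • e A 1 + d • e A 2) = 0) :
    a * φ (Pi.single 0 1) + b * φ (Pi.single 1 1) + d * φ (Pi.single 2 1) = 0 := by
  simp only [map_add, map_smul, ct_e, smul_smul, ← add_smul] at h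
  rwa [← Algebra.algebraMap_eq_smul_one, ExteriorAlgebra.algebraMap_eq_zero_iff] at h

theorem inv_mul0 {A : Type} [CommRing A] {p q : A} (h : p * q = 0) (x y : E A) :
    -CliffordAlgebra.involute (p • x) * (q • y) = 0 := by
  rw [map_smul, neg_mul, smul_mul_smul_comm, h, zero_smul, neg_zero]

theorem hsm (a : ℚ) (x : R) : a • x = c a * x := Algebra.smul_def a x

noncomputable def phi : Module.Dual R (Fin 3 → R) :=
  Fintype.linearCombination R fun i => Ideal.Quotient.mk I0 (X i)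

theorem phi_s (i : Fin 3) : phi (Pi.single i 1) = xv i := by
  simp [phi, xv, Fintype.linearCombination_apply_single]

theorem kd_eq (z : Kos I0) : kd I0 z = CliffordAlgebra.contractLeft phi z := rfl

noncomputable def N2 : Submodule R (Kos I0) := (mx I0 * mx I0) • ⊤

theorem sm {q : R} (hq : q ∈ mx I0 * mx I0) (z : Kos I0) : q • z ∈ N2 :=
  Submodule.smul_mem_smul hq Submodule.mem_top

theorem cyc1 (z : Kos I0) (hz : z ∈ ⋀[R]^1 (Fin 3 → R)) (h : kd I0 z = 0) :
    ∃ y, z - kd I0 y ∈ ⋀[R]^1 (Fin 3 → R) ∧ z - kd I0 y ∈ N2 := by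
  obtain ⟨v, rfl⟩ := K1 z hz
  rw [iota_eq] at h ⊢
  replace h := ct1 phi _ _ _ h
  simp only [phi_s] at h
  obtain ⟨a0, b00, b01, b02, q0, hq0, h0⟩ := low (v 0)
  obtain ⟨a1, b10, b11, b12, q1, hq1, h1⟩ := low (v 1)
  obtain ⟨a2, b20, b21, b22, q2, hq2, h2⟩ := low (v 2)
  rw [h0, h1, h2] at h ⊢
  obtain ⟨rfl, rfl, rfl, rfl, rfl, rfl, e1, e2, e3⟩ :=
    indep_low (b0 := a0) (b1 := a1) (b2 := a2) (c00 := b00) (c11 := b11) (c22 := b22)
      (c01 := b01 + b10) (c02 := b02 + b20) (c12 := b12 + b21)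
      (q := xv 0 * q0 + xv 1 * q1 + xv 2 * q2)
      (fun j => by linear_combination qx hq0 0 j + qx hq1 1 j + qx hq2 2 j)
      (by simp only [map_add]; linear_combination h)
  obtain rfl : b10 = -b01 := by linarith
  obtain rfl : b20 = -b02 := by linarith
  obtain rfl : b21 = -b12 := by linarith
  refine ⟨(-c b01) • (e R 0 * e R 1) + (-c b02) • (e R 0 * e R 2) + (-c b12) • (e R 1 * e R 2), ?_⟩
  have key : ∀ z y : Kos I0, z - kd I0 y = q0 • e R 0 + q1 • e R 1 + q2 • e R 2 →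
      z - kd I0 y ∈ ⋀[R]^1 (Fin 3 → R) ∧ z - kd I0 y ∈ N2 := by
    intro z y hh
    rw [hh]
    exact ⟨add_mem (add_mem (Submodule.smul_mem _ _ (e_mem 0)) (Submodule.smul_mem _ _ (e_mem 1)))
      (Submodule.smul_mem _ _ (e_mem 2)), add_mem (add_mem (sm hq0 _) (sm hq1 _)) (sm hq2 _)⟩
  apply key
  simp only [kd_eq, map_add, map_smul, ct_ee, phi_s, map_zero, map_neg]
  module

theorem cyc2 (z : Kos I0) (hz : z ∈ ⋀[R]^2 (Fin 3 → R)) (h : kd I0 z = 0) :
    ∃ y, z - kd I0 y ∈ ⋀[R]^2 (Fin 3 → R) ∧ z - kd I0 y ∈ N2 := by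
  obtain ⟨a, b, d, rfl⟩ := K2 z hz
  simp only [kd_eq, map_add, map_smul, ct_ee, phi_s] at h
  obtain ⟨k0, k1, k2⟩ := lin1 (a := -(xv 2 * b) - xv 1 * d) (b := -(xv 2 * a) + xv 0 * d)
    (c := xv 1 * a + xv 0 * b) (by rw [← h]; module)
  obtain ⟨a0, ax, ay, az, qa, hqa, rfl⟩ := low a
  obtain ⟨b0, bx, bY, bz, qb, hqb, rfl⟩ := low b
  obtain ⟨d0, dx, dy, dz, qd, hqd, rfl⟩ := low d
  obtain ⟨-, rfl, rfl, -, rfl, rfl, rfl, rfl, e1⟩ :=
    indep_low (b0 := 0) (b1 := d0) (b2 := b0) (c00 := 0) (c11 := dy) (c22 := bz)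
      (c01 := dx) (c02 := bx) (c12 := bY + dz) (q := xv 2 * qb + xv 1 * qd)
      (fun j => by linear_combination qx hqb 2 j + qx hqd 1 j)
      (by simp only [map_add, map_zero]; linear_combination -k0)
  obtain ⟨-, -, rfl, -, -, rfl, -, e2, rfl⟩ :=
    indep_low (b0 := 0) (b1 := 0) (b2 := a0) (c00 := 0) (c11 := 0) (c22 := az)
      (c01 := 0) (c02 := ax - dz) (c12 := ay) (q := xv 2 * qa - xv 0 * qd)
      (fun j => by linear_combination qx hqa 2 j - qx hqd 0 j)
      (by simp only [map_sub, map_zero] at k1 ⊢; linear_combination -k1)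
  obtain rfl : bY = -dz := by linarith
  obtain rfl : ax = dz := by linarith
  refine ⟨c ax • (e R 0 * e R 1 * e R 2), ?_⟩
  have key : ∀ z y : Kos I0, z - kd I0 y =
      qa • (e R 1 * e R 2) + qb • (e R 0 * e R 2) + qd • (e R 0 * e R 1) →
      z - kd I0 y ∈ ⋀[R]^2 (Fin 3 → R) ∧ z - kd I0 y ∈ N2 := by
    intro z y hh
    rw [hh]
    exact ⟨add_mem (add_mem (Submodule.smul_mem _ _ (ee_mem 1 2))
      (Submodule.smul_mem _ _ (ee_mem 0 2))) (Submodule.smul_mem _ _ (ee_mem 0 1)),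
      add_mem (add_mem (sm hqa _) (sm hqb _)) (sm hqd _)⟩
  apply key
  simp only [kd_eq, map_smul, ct_eee, phi_s, map_zero, map_neg]
  module

theorem soc_m2 {a : R} (h : xv 0 * a = 0) : a ∈ mx I0 * mx I0 := by
  obtain ⟨a0, ax, ay, az, qa, hqa, rfl⟩ := low a
  obtain ⟨rfl, -, -, rfl, -, -, rfl, rfl, -⟩ :=
    indep_low (b0 := a0) (b1 := 0) (b2 := 0) (c00 := ax) (c11 := 0) (c22 := 0)
      (c01 := ay) (c02 := az) (c12 := 0) (q := xv 0 * qa) (fun j => qx hqa 0 j)
      (by simp only [map_zero]; linear_combination h)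
  simpa using hqa

theorem cyc3 (z : Kos I0) (hz : z ∈ ⋀[R]^3 (Fin 3 → R)) (h : kd I0 z = 0) : z ∈ N2 := by
  obtain ⟨a, rfl⟩ := K3 z hz
  simp only [kd_eq, map_smul, ct_eee, phi_s] at h
  obtain ⟨k0, -, -⟩ := lin2 (a := xv 0 * a) (b := -(xv 1 * a)) (c := xv 2 * a)
    (by rw [← h]; module)
  exact sm (soc_m2 k0) _

theorem cyc (i : ℕ) (hi : 1 ≤ i) (z : Kos I0) (hz : z ∈ ⋀[R]^i (Fin 3 → R)) (h : kd I0 z = 0) :
    ∃ y, z - kd I0 y ∈ ⋀[R]^i (Fin 3 → R) ∧ z - kd I0 y ∈ N2 := by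
  rcases i with _ | _ | _ | _ | i
  · omega
  · exact cyc1 z hz h
  · exact cyc2 z hz h
  · exact ⟨0, by simpa using hz, by simpa using cyc3 z hz h⟩
  · have := K4 i z hz
    exact ⟨0, by simp [this], by simp [this]⟩

theorem N2_mul {a b : Kos I0} (ha : a ∈ N2) (hb : b ∈ N2) :
    -CliffordAlgebra.involute a * b = 0 := by
  refine Submodule.smul_induction_on ha (fun p hp x _ => ?_)
    (fun x y h1 h2 => by rw [map_add, neg_add, add_mul, h1, h2, add_zero])
  refine Submodule.smul_induction_on hb (fun q hq y _ => ?_)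
    (fun x y h1 h2 => by rw [mul_add, h1, h2, add_zero])
  exact inv_mul0 (m22 hp hq) x y

def BB : Type := {p : ℕ × Kos I0 // 1 ≤ p.1 ∧ p.2 ∈ ⋀[R]^p.1 (Fin 3 → R) ∧ kd I0 p.2 = 0 ∧ p.2 ∈ N2}

noncomputable def mu : List BB → Kos I0
  | [b] => b.1.2
  | _ => 0

theorem mu_N2 (w : List BB) : mu w ∈ N2 := by
  match w with
  | [] => exact zero_mem _
  | [b] => exact b.2.2.2.2
  | _ :: _ :: _ => exact zero_mem _

theorem golod : IsGolod I0 := by
  refine ⟨BB, fun b => b.1.1, mu, fun b => b.2.1, fun w hw => ⟨?_, ?_⟩, fun b => b.2.2.2.1,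
    fun i hi z hz h => ?_, fun w hw => ?_⟩
  · match w with
    | [] => exact absurd rfl hw
    | [b] => simpa [mu] using b.2.2.1
    | _ :: _ :: _ => exact zero_mem _
  · exact Submodule.smul_mono_left Ideal.mul_le_left (mu_N2 w)
  · obtain ⟨y, h1, h2⟩ := cyc i hi z hz h
    refine ⟨y, Submodule.subset_span ⟨⟨(i, z - kd I0 y), hi, h1, ?_, h2⟩, rfl⟩⟩
    rw [map_sub, h, kd_eq, kd_eq, CliffordAlgebra.contractLeft_contractLeft, sub_zero]
  · rw [Finset.sum_eq_zero fun j _ => N2_mul (mu_N2 _) (mu_N2 _)]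
    match w with
    | [] => simp at hw
    | [b] => simp at hw
    | _ :: _ :: _ => exact map_zero _

theorem fin_R : Module.Finite ℚ R := by
  let v : Fin 12 → R := ![1, xv 0, xv 1, xv 2, xv 0 * xv 0, xv 1 * xv 1, xv 2 * xv 2, xv 0 * xv 1,
    xv 0 * xv 2, xv 1 * xv 2, xv 0 * xv 0 * xv 0, xv 0 * xv 1 * xv 2]
  refine Module.Finite.of_surjective (Fintype.linearCombination ℚ v) fun r => ?_
  obtain ⟨a, b0, b1, b2, c00, c11, c22, c01, c02, c12, e1, e2, h⟩ := nf r
  refine ⟨![a, b0, b1, b2, c00, c11, c22, c01, c02, c12, e1, e2], ?_⟩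
  rw [h, Fintype.linearCombination_apply]
  simp only [Fin.sum_univ_succ, hsm, v, Matrix.cons_val_zero, Matrix.cons_val_succ,
    Finset.univ_eq_empty, Finset.sum_empty]
  ring

noncomputable def hm (s : R) (h : ∀ i, xv i * s = 0) : (R ⧸ mx I0) →ₗ[R] R :=
  (mx I0).liftQ (LinearMap.toSpanSingleton R R s) fun r hr => by
    simpa using step h hr

theorem hm_one (s : R) (h : ∀ i, xv i * s = 0) : hm s h (Submodule.Quotient.mk 1) = s :=
  (Submodule.liftQ_apply _ _ _).trans (one_smul _ _)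

theorem hom_ext {f g : (R ⧸ mx I0) →ₗ[R] R}
    (h : f (Submodule.Quotient.mk 1) = g (Submodule.Quotient.mk 1)) : f = g := by
  refine LinearMap.ext fun x => ?_
  obtain ⟨r, rfl⟩ := Submodule.Quotient.mk_surjective _ x
  have : (Submodule.Quotient.mk r : R ⧸ mx I0) = r • Submodule.Quotient.mk 1 := by
    rw [← Submodule.Quotient.mk_smul, smul_eq_mul, mul_one]
  rw [this, map_smul, map_smul, h]

theorem type_two : Module.finrank ℚ ((R ⧸ mx I0) →ₗ[R] R) = 2 := by
  let f1 := hm (xv 0 * xv 0 * xv 0) fun i => M4 i 0 0 0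
  let f2 := hm (xv 0 * xv 1 * xv 2) fun i => M4 i 0 1 2
  let T : (ℚ × ℚ) →ₗ[ℚ] ((R ⧸ mx I0) →ₗ[R] R) :=
    LinearMap.coprod (LinearMap.toSpanSingleton ℚ _ f1) (LinearMap.toSpanSingleton ℚ _ f2)
  have hT : ∀ a b : ℚ, T (a, b) (Submodule.Quotient.mk 1) =
      c a * (xv 0 * xv 0 * xv 0) + c b * (xv 0 * xv 1 * xv 2) := by
    intro a b
    simp only [T, f1, f2, LinearMap.coprod_apply, LinearMap.toSpanSingleton_apply,
      LinearMap.add_apply, LinearMap.smul_apply, hm_one, hsm]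
  have hb : Function.Bijective T := by
    constructor
    · rw [injective_iff_map_eq_zero]
      rintro ⟨a, b⟩ h
      have := hT a b
      rw [h, LinearMap.zero_apply] at this
      obtain ⟨rfl, rfl⟩ := indep2 this.symm
      rfl
    · intro f
      have hs : ∀ i, xv i * f (Submodule.Quotient.mk 1) = 0 := by
        intro i
        rw [← smul_eq_mul, ← map_smul, ← Submodule.Quotient.mk_smul, smul_eq_mul, mul_one,
          (Submodule.Quotient.mk_eq_zero _).2 (xv_mem i), map_zero]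
      obtain ⟨a, b0, b1, b2, c00, c11, c22, c01, c02, c12, e1, e2, h⟩ :=
        nf (f (Submodule.Quotient.mk 1))
      have h0 := hs 0
      have h1 := hs 1
      have h2 := hs 2
      rw [h] at h0 h1 h2
      obtain ⟨rfl, -, -, rfl, -, -, rfl, rfl, -⟩ :=
        indep_low (b0 := a) (b1 := 0) (b2 := 0) (c00 := b0) (c11 := 0) (c22 := 0)
          (c01 := b1) (c02 := b2) (c12 := 0)
          (q := c c00 * (xv 0 * xv 0 * xv 0) + c c12 * (xv 0 * xv 1 * xv 2))
          (fun j => by linear_combination c c00 * M4 j 0 0 0 + c c12 * M4 j 0 1 2)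
          (by
            simp only [map_zero]
            linear_combination h0 - (c c11 * r110 + c c22 * r220 + c c01 * r001 + c c02 * r002
              + c e1 * q0000 + c e2 * q0012))
      rw [c0] at h h0 h1 h2
      obtain ⟨rfl, rfl⟩ := indep2 (a := c00) (b := c12) (by
        linear_combination h0 - (c c11 * r110 + c c22 * r220 + c c01 * r001 + c c02 * r002
          + c e1 * q0000 + c e2 * q0012))
      obtain ⟨rfl, rfl⟩ := indep2 (a := c11) (b := c02) (by
        simp only [map_zero] at h1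
        linear_combination h1 - (- c c11 * rc1 + c c22 * r221 + c c01 * r110
          + c e1 * q0001 + c e2 * q0112))
      obtain ⟨rfl, rfl⟩ := indep2 (a := c22) (b := c01) (by
        simp only [map_zero] at h2
        linear_combination h2 - (- c c22 * rc2 + c e1 * q0002 + c e2 * q0122))
      refine ⟨(e1, e2), hom_ext ?_⟩
      rw [hT, h]
      simp only [map_zero, zero_mul, zero_add]
  rw [← (LinearEquiv.ofBijective T hb).finrank_eq]
  simp

noncomputable def PP (j : ℕ) : Ideal S :=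
  RingHom.ker (aeval (fun i : Fin 3 => if (i : ℕ) < j then (0 : S) else X i) : S →ₐ[ℚ] S)

theorem PP_prime (j : ℕ) : (PP j).IsPrime := RingHom.ker_isPrime _

theorem PP_lt (j : Fin 3) : PP j < PP (j + 1) := by
  refine lt_of_le_of_ne (fun p hp => ?_) fun h => ?_
  · have : (aeval (fun i : Fin 3 => if (i : ℕ) < j + 1 then (0 : S) else X i) : S →ₐ[ℚ] S) =
        (aeval (fun i : Fin 3 => if (i : ℕ) < j + 1 then (0 : S) else X i) : S →ₐ[ℚ] S).comp
          (aeval (fun i : Fin 3 => if (i : ℕ) < j then (0 : S) else X i)) := by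
      ext1 i
      simp only [AlgHom.comp_apply, aeval_X]
      by_cases h1 : (i : ℕ) < j
      · rw [if_pos h1, if_pos (Nat.lt_succ_of_lt h1), map_zero]
      · rw [if_neg h1, aeval_X]
    rw [PP, RingHom.mem_ker] at hp ⊢
    rw [this, AlgHom.comp_apply, hp, map_zero]
  · have h1 : (X j : S) ∈ PP (j + 1) := by simp [PP, RingHom.mem_ker]
    rw [← h] at h1
    simp [PP, RingHom.mem_ker] at h1

theorem PP3_le {P : Ideal S} (h : ∀ i, (X i : S) ∈ P) : PP 3 ≤ P := by
  have key : ∀ p : S,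
      p - aeval (fun i : Fin 3 => if (i : ℕ) < 3 then (0 : S) else X i) p ∈ P := by
    intro p
    induction p using MvPolynomial.induction_on with
    | C a => simp
    | add p q hp hq =>
      rw [map_add, add_sub_add_comm]
      exact P.add_mem hp hq
    | mul_X p i _ =>
      simp only [map_mul, aeval_X, i.2, if_true, mul_zero, sub_zero]
      exact P.mul_mem_left _ (h i)
  intro p hp
  have := key p
  rw [PP, RingHom.mem_ker] at hp
  rwa [hp, sub_zero] at this

theorem I0_le : I0 ≤ idealOfVars (Fin 3) ℚ ^ 2 := by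
  have h : ∀ i j k : Fin 3, (X i * X j * X k : S) ∈ idealOfVars (Fin 3) ℚ ^ 2 := fun i j k => by
    rw [pow_two]
    exact Ideal.mul_mem_right _ _
      (Ideal.mul_mem_mul (Ideal.subset_span ⟨i, rfl⟩) (Ideal.subset_span ⟨j, rfl⟩))
  rw [I0, Ideal.span_le]
  intro g hg
  simp only [gens, Set.mem_insert_iff, Set.mem_singleton_iff] at hg
  rcases hg with rfl | rfl | rfl | rfl | rfl | rfl | rfl | rfl
  all_goals first | exact h _ _ _ | exact Ideal.sub_mem _ (h _ _ _) (h _ _ _)

theorem height_three : I0.height = 3 := by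
  apply le_antisymm
  · have hne : I0 ≠ ⊤ := by
      intro h
      have h1 : (xv 0 * xv 0 * xv 0) = 0 := by
        have : Subsingleton R := Ideal.Quotient.subsingleton_iff.2 h
        exact Subsingleton.elim _ _
      have := (indep2 (a := 1) (b := 0) (by rw [h1]; simp)).1
      exact one_ne_zero this
    have := Ideal.height_le_ringKrullDim_of_ne_top hne
    rw [MvPolynomial.ringKrullDim_of_isNoetherianRing, ringKrullDim_eq_zero_of_field] at this
    simp only [Nat.card_eq_fintype_card, Fintype.card_fin, zero_add] at this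
    exact WithBot.coe_le_coe.1 this
  · rw [Ideal.height_eq_inf_minimalPrimes]
    refine le_iInf₂ fun P hP => ?_
    have hp : P.IsPrime := hP.1.1
    have hX : ∀ i, (X i : S) ∈ P := by
      intro i
      refine hp.mem_of_pow_mem 4 (hP.1.2 ?_)
      rw [← Ideal.Quotient.eq_zero_iff_mem, map_pow]
      change xv i ^ 4 = 0
      linear_combination M4 i i i i
    have := PP_prime 0
    have := PP_prime 1
    have := PP_prime 2
    have := PP_prime 3
    have h0 : (PP 0).height + 1 ≤ (PP 1).height :=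
      Ideal.height_add_one_le_of_lt_of_isPrime (PP_lt 0)
    have h1 : (PP 1).height + 1 ≤ (PP 2).height :=
      Ideal.height_add_one_le_of_lt_of_isPrime (PP_lt 1)
    have h2 : (PP 2).height + 1 ≤ (PP 3).height :=
      Ideal.height_add_one_le_of_lt_of_isPrime (PP_lt 2)
    have h3 := Ideal.height_mono (PP3_le hX)
    calc (3 : ℕ∞) = 0 + 1 + 1 + 1 := by norm_num
      _ ≤ (PP 0).height + 1 + 1 + 1 := by gcongr; exact zero_le
      _ ≤ (PP 1).height + 1 + 1 := by gcongr
      _ ≤ (PP 2).height + 1 := by gcongr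
      _ ≤ _ := h2.trans h3

theorem gens_hom : ∀ g ∈ gens, g.IsHomogeneous 3 := by
  have h : ∀ i j k : Fin 3, (X i * X j * X k : S).IsHomogeneous 3 := fun i j k =>
    ((isHomogeneous_X ℚ i).mul (isHomogeneous_X ℚ j)).mul (isHomogeneous_X ℚ k)
  intro g hg
  simp only [gens, Set.mem_insert_iff, Set.mem_singleton_iff] at hg
  rcases hg with rfl | rfl | rfl | rfl | rfl | rfl | rfl | rfl
  all_goals first | exact h _ _ _ | exact (h _ _ _).sub (h _ _ _)

end Pool.Agent.H65.Gol
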