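import Mathlib

set_option autoImplicit false

namespace Pool.Agent.H65.GolD

section
variable {A : Type} [CommRing A] {M : Type} [AddCommGroup M] [Module A M]

/-- Contraction with the linear form `φ` on a Clifford algebra, as a linear map. -/
noncomputable def ctrL (Q : QuadraticForm A M) (φ : Module.Dual A M) :
    CliffordAlgebra Q →ₗ[A] CliffordAlgebra Q :=
  CliffordAlgebra.contractLeft φ

/-- Contraction with the linear form `φ` on a Clifford algebra. -/
noncomputable def ctr {Q : QuadraticForm A M} (φ : Module.Dual A M) (z : CliffordAlgebra Q) :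
    CliffordAlgebra Q :=
  ctrL Q φ z

/-- Minus the grade involution on a Clifford algebra. -/
noncomputable def nin {Q : QuadraticForm A M} (z : CliffordAlgebra Q) : CliffordAlgebra Q :=
  -CliffordAlgebra.involute z

/-- The degree `i` part of the exterior algebra: the `i`-th exterior power. -/
noncomputable def epow (A : Type) [CommRing A] (M : Type) [AddCommGroup M] [Module A M] (i : ℕ) :
    Set (ExteriorAlgebra A M) :=
  (⋀[A]^i M : Submodule A (ExteriorAlgebra A M))

/-- The submodule `J N` of a module `N`. -/
noncomputable def ism (J : Ideal A) (N : Type) [AddCommGroup N] [Module A N] : Set N :=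
  (J • (⊤ : Submodule A N) : Submodule A N)

end

/-- The `k`-linear span of a set. -/
noncomputable def kspan (k : Type) [Field k] {N : Type} [AddCommGroup N] [Module k N] (s : Set N) :
    Set N :=
  Submodule.span k s

section
variable {A : Type} [CommRing A] {n : ℕ}

/-- The Koszul complex of `A` on `n` elements, as an algebra: the exterior algebra of `A ^ n`. -/
abbrev Kos (A : Type) [CommRing A] (n : ℕ) : Type := ExteriorAlgebra A (Fin n → A)

/-- The degree `i` part of the Koszul complex. -/
noncomputable def kdeg (A : Type) [CommRing A] (n i : ℕ) : Set (Kos A n) := epow A (Fin n → A) i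

/-- The linear form on `A ^ n` sending `e_i` to `x_i`. -/
noncomputable def form (x : Fin n → A) : Module.Dual A (Fin n → A) :=
  Fintype.linearCombination A x

/-- The Koszul differential: contraction with the linear form sending `e_i` to `x_i`. -/
noncomputable def kd (x : Fin n → A) (z : Kos A n) : Kos A n := ctr (form x) z

/-- The ideal `m` generated by `x_1, ..., x_n`. -/
noncomputable def mx (x : Fin n → A) : Ideal A := Ideal.span (Set.range x)

/-- The submodule `m K` of the Koszul complex. -/
noncomputable def mK (x : Fin n → A) : Set (Kos A n) := ism (mx x) (Kos A n)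

/-- `bar a = (-1)^(|a|+1) a` for homogeneous `a`. -/
noncomputable def bar (z : Kos A n) : Kos A n := nin z

/-- The `k`-linear span of a set of elements of the Koszul complex. -/
noncomputable def ksp (k : Type) [Field k] [Algebra k A] (s : Set (Kos A n)) : Set (Kos A n) :=
  kspan k s

/-- The right side `∑_j bar (μ(b_1 ... b_j)) μ(b_(j+1) ... b_p)` of the Massey identity. -/
noncomputable def msum {B : Type} (μ : List B → Kos A n) (w : List B) : Kos A n :=
  ∑ j ∈ Finset.Ioo 0 w.length, bar (μ (w.take j)) * μ (w.drop j)

/-- The Koszul complex on `x` admits a trivial Massey operation. There are a family `B` of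
homogeneous cycles `μ [b]` of positive degrees whose classes span the homology in positive degrees
over `k`, and homogeneous elements `μ w` of `m K` for all nonempty words `w` in `B`, with
`d μ(b_1 ... b_p) = ∑_j bar (μ(b_1 ... b_j)) μ(b_(j+1) ... b_p)`. -/
def TrivMassey (k : Type) [Field k] [Algebra k A] (x : Fin n → A) : Prop :=
  ∃ (B : Type) (deg : B → ℕ) (μ : List B → Kos A n),
    (∀ b, 1 ≤ deg b) ∧
    (∀ w : List B, w ≠ [] →
      μ w ∈ kdeg A n ((w.map fun b => deg b + 1).sum - 1) ∧ μ w ∈ mK x) ∧
    (∀ b, kd x (μ [b]) = 0) ∧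
    (∀ i, 1 ≤ i → ∀ z ∈ kdeg A n i, kd x z = 0 →
      ∃ y, z - kd x y ∈ ksp k (Set.range fun b => μ [b])) ∧
    (∀ w : List B, 2 ≤ w.length → kd x (μ w) = msum μ w)

/-- `dim_k Hom_A(A / m, A)`. -/
noncomputable def homDim (k : Type) [Field k] [Algebra k A] (x : Fin n → A) : ℕ :=
  Module.finrank k ((A ⧸ mx x) →ₗ[A] A)

end

variable {k : Type} [Field k] {n : ℕ}

/-- The images of the variables in `R = k[x_1, ..., x_n] / I`. -/
noncomputable def xs (I : Ideal (MvPolynomial (Fin n) k)) (i : Fin n) :
    MvPolynomial (Fin n) k ⧸ I :=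
  Ideal.Quotient.mk I (MvPolynomial.X i)

/-- `R = k[x_1, ..., x_n] / I` is Golod. -/
def IsGolod (I : Ideal (MvPolynomial (Fin n) k)) : Prop := TrivMassey k (xs I)

/-- `dim_k Hom_R(k, R)` for `R = k[x_1, ..., x_n] / I`. -/
noncomputable def type0 (I : Ideal (MvPolynomial (Fin n) k)) : ℕ := homDim k (xs I)

/-- `R = k[x_1, ..., x_n] / I` is finite-dimensional over `k`. -/
def FinDim (I : Ideal (MvPolynomial (Fin n) k)) : Prop :=
  Module.Finite k (MvPolynomial (Fin n) k ⧸ I)

end Pool.Agent.H65.GolD
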