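import Mathlib
import Pool.Agent.H65.GolD

set_option autoImplicit false

namespace Pool.Agent.H65.GolD

/-- The Koszul complex on `x` has two cycles of degree two whose product is not a boundary. -/
def ProdNZ {A : Type} [CommRing A] {n : ℕ} (x : Fin n → A) : Prop :=
  ∃ z ∈ kdeg A n 2, ∃ z' ∈ kdeg A n 2, kd x z = 0 ∧ kd x z' = 0 ∧ ∀ y, kd x y ≠ z * z'

/-- The product `H_2 × H_2 → H_4` on the Koszul homology of `k[x_1, ..., x_n] / I` is nonzero. -/
def HomProd {k : Type} [Field k] {n : ℕ} (I : Ideal (MvPolynomial (Fin n) k)) : Prop :=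
  ProdNZ (xs I)

end Pool.Agent.H65.GolD
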