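import Mathlib

set_option autoImplicit false

namespace Pool.Agent.H65.GolD

/-- The entry in position `(i, j)` of the generic `3 × 6` Hankel matrix, with rows, columns and
variables numbered from zero. -/
noncomputable def hk (i : Fin 3) (j : Fin 6) : MvPolynomial (Fin 8) ℚ :=
  MvPolynomial.X ⟨i + j, by omega⟩

/-- The permanent of the `2 × 2` submatrix with rows `i, k` and columns `j, l`. -/
noncomputable def per (i k : Fin 3) (j l : Fin 6) : MvPolynomial (Fin 8) ℚ :=
  hk i j * hk k l + hk i l * hk k j

/-- The permanents of all `2 × 2` submatrices. -/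
def perms : Set (MvPolynomial (Fin 8) ℚ) := {f | ∃ i k j l, i < k ∧ j < l ∧ f = per i k j l}

/-- The ideal `P_2(X)` of the generic `3 × 6` Hankel matrix. -/
noncomputable def P2H : Ideal (MvPolynomial (Fin 8) ℚ) := Ideal.span perms

end Pool.Agent.H65.GolD
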