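import Mathlib
import Pool.Agent.H65.GolD

set_option autoImplicit false
set_option maxHeartbeats 1000000
open ExteriorAlgebra Pool.Agent.H65.GolD

namespace Pool.Agent.H65.GolH

variable {A : Type} [CommRing A]

abbrev E (A : Type) [CommRing A] := ExteriorAlgebra A (Fin 8 → A)

noncomputable def e (A : Type) [CommRing A] (i : Fin 8) : E A := ι A (Pi.single i 1)

noncomputable def ct (φ : Module.Dual A (Fin 8 → A)) : E A →ₗ[A] E A :=
  CliffordAlgebra.contractLeft φ

noncomputable def inv : E A →ₐ[A] E A := CliffordAlgebra.involute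

theorem ct_im (φ : Module.Dual A (Fin 8 → A)) (v : Fin 8 → A) (b : E A) :
    ct φ (ι A v * b) = φ v • b - ι A v * ct φ b := CliffordAlgebra.contractLeft_ι_mul _ _ _

theorem ct_alg (φ : Module.Dual A (Fin 8 → A)) (r : A) : ct φ (algebraMap A (E A) r) = 0 :=
  CliffordAlgebra.contractLeft_algebraMap _ _ _

theorem ct_ct (φ : Module.Dual A (Fin 8 → A)) (z : E A) : ct φ (ct φ z) = 0 :=
  CliffordAlgebra.contractLeft_contractLeft _ _

theorem ct_comm (φ ψ : Module.Dual A (Fin 8 → A)) (z : E A) : ct φ (ct ψ z) = -ct ψ (ct φ z) :=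
  CliffordAlgebra.contractLeft_comm _ _ _

theorem inv_i (v : Fin 8 → A) : inv (ι A v) = -ι A v := CliffordAlgebra.involute_ι _

theorem inv_inv (z : E A) : inv (inv z) = z := CliffordAlgebra.involute_involute _

theorem lind {P : E A → Prop} (h0 : ∀ r, P (algebraMap A (E A) r))
    (h1 : ∀ x y, P x → P y → P (x + y)) (h2 : ∀ x v, P x → P (ι A v * x)) (z : E A) : P z :=
  CliffordAlgebra.left_induction _ h0 h1 h2 z

theorem leib (φ : Module.Dual A (Fin 8 → A)) (a b : E A) :
    ct φ (a * b) = ct φ a * b + inv a * ct φ b := by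
  induction a using lind with
  | h0 r => rw [ct_alg, AlgHom.commutes, zero_mul, zero_add, ← Algebra.smul_def, ← Algebra.smul_def,
      map_smul]
  | h1 x y hx hy => simp only [add_mul, map_add, hx, hy]; abel
  | h2 x v hx =>
    rw [mul_assoc, ct_im, hx, ct_im, map_mul, inv_i]
    simp only [mul_add, sub_mul, smul_mul_assoc, mul_assoc, neg_mul]
    abel

theorem ct_inv (φ : Module.Dual A (Fin 8 → A)) (a : E A) : ct φ (inv a) = -inv (ct φ a) := by
  induction a using lind with
  | h0 r => rw [AlgHom.commutes, ct_alg, map_zero, neg_zero]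
  | h1 x y hx hy => simp only [map_add, hx, hy]; abel
  | h2 x v hx =>
    rw [map_mul, inv_i, neg_mul, map_neg, ct_im, hx, ct_im, map_sub, map_smul, map_mul, inv_i]
    simp only [mul_neg, neg_mul]

theorem i_mem (v : Fin 8 → A) : ι A v ∈ ⋀[A]^1 (Fin 8 → A) := by
  rw [exteriorPower, pow_one]
  exact ⟨_, rfl⟩

theorem mul_mem' {i j : ℕ} {a b : E A} (ha : a ∈ ⋀[A]^i (Fin 8 → A))
    (hb : b ∈ ⋀[A]^j (Fin 8 → A)) : a * b ∈ ⋀[A]^(i + j) (Fin 8 → A) := by
  rw [exteriorPower, pow_add]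
  exact Submodule.mul_mem_mul ha hb

theorem pind {C : ℕ → E A → Prop} (h0 : ∀ r, C 0 (algebraMap A (E A) r))
    (h1 : ∀ i x y, C i x → C i y → C i (x + y))
    (h2 : ∀ v i x, x ∈ ⋀[A]^i (Fin 8 → A) → C i x → C (i + 1) (ι A v * x)) {n : ℕ} {z : E A}
    (hz : z ∈ ⋀[A]^n (Fin 8 → A)) : C n z := by
  refine Submodule.pow_induction_on_left' (LinearMap.range (ι A : (Fin 8 → A) →ₗ[A] E A))
    (C := fun n x _ => C n x) h0 (fun x y i _ _ => h1 i x y) ?_ hz
  rintro _ ⟨v, rfl⟩ i x hx h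
  exact h2 v i x hx h

theorem inv_mem {n : ℕ} {z : E A} (hz : z ∈ ⋀[A]^n (Fin 8 → A)) :
    inv z ∈ ⋀[A]^n (Fin 8 → A) := by
  refine pind (C := fun n z => inv z ∈ ⋀[A]^n (Fin 8 → A)) (fun r => ?_)
    (fun i x y h h' => by rw [map_add]; exact add_mem h h') (fun v i x _ h => ?_) hz
  · rw [AlgHom.commutes, exteriorPower, pow_zero]
    exact Submodule.algebraMap_mem r
  · rw [map_mul, inv_i, neg_mul, add_comm]
    exact neg_mem (mul_mem' (i_mem v) h)

theorem ct_mem (φ : Module.Dual A (Fin 8 → A)) {n : ℕ} {z : E A}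
    (hz : z ∈ ⋀[A]^n (Fin 8 → A)) :
    ct φ z ∈ ⋀[A]^(n - 1) (Fin 8 → A) ∧ (n = 0 → ct φ z = 0) := by
  refine pind (C := fun n z => ct φ z ∈ ⋀[A]^(n - 1) (Fin 8 → A) ∧ (n = 0 → ct φ z = 0))
    (fun r => by simp [ct_alg]) (fun i x y h h' => ?_) (fun v i x hx h => ⟨?_, by omega⟩) hz
  · rw [map_add]
    exact ⟨add_mem h.1 h'.1, fun hi => by rw [h.2 hi, h'.2 hi, add_zero]⟩
  · rw [ct_im, Nat.add_sub_cancel]
    refine sub_mem (Submodule.smul_mem _ _ hx) ?_
    rcases i with _ | i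
    · rw [h.2 rfl, mul_zero]
      exact zero_mem _
    · rw [add_comm]
      exact mul_mem' (i_mem v) h.1

noncomputable def pr (i : Fin 8) : Module.Dual A (Fin 8 → A) := LinearMap.proj i

theorem K1 : ∀ z ∈ ⋀[A]^1 (Fin 8 → A), ∃ v, z = ι A v := by
  intro z hz
  rw [exteriorPower, pow_one] at hz
  obtain ⟨v, rfl⟩ := hz
  exact ⟨v, rfl⟩

theorem iota_eq (v : Fin 8 → A) : ι A v = ∑ i, v i • e A i := by
  simp only [e, ← map_smul, ← map_sum]
  congr 1
  funext i
  simp [Finset.sum_apply, Pi.single_apply]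

theorem swap (v : Fin 8 → A) (a : E A) : inv a * ι A v = ι A v * a := by
  induction a using lind with
  | h0 r => rw [AlgHom.commutes, Algebra.commutes]
  | h1 x y hx hy => rw [map_add, add_mul, mul_add, hx, hy]
  | h2 x w hx =>
    rw [map_mul, inv_i, mul_assoc, hx, ← mul_assoc, ← mul_assoc, neg_mul]
    congr 1
    exact (eq_neg_of_add_eq_zero_left (ι_add_mul_swap _ _)).symm

theorem euler {n : ℕ} {z : E A} (hz : z ∈ ⋀[A]^n (Fin 8 → A)) :
    ∑ i, e A i * ct (pr i) z = (n : A) • z := by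
  refine pind (C := fun n z => ∑ i, e A i * ct (pr i) z = (n : A) • z)
    (fun r => by simp [ct_alg]) (fun i x y h h' => ?_) (fun v i x _ h => ?_) hz
  · simp only [map_add, mul_add, smul_add, ← h, ← h', Finset.sum_add_distrib]
  · have hs : ∀ (j : Fin 8), e A j * ct (pr j) (ι A v * x) =
        (v j • e A j) * x + ι A v * (e A j * ct (pr j) x) := by
      intro j
      have : e A j * ι A v = -(ι A v * e A j) := eq_neg_of_add_eq_zero_left (ι_add_mul_swap _ _)
      rw [ct_im, mul_sub, ← mul_assoc, this, mul_smul_comm, smul_mul_assoc, neg_mul,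
        sub_neg_eq_add, mul_assoc]
      rfl
    simp only [hs]
    rw [Finset.sum_add_distrib, ← Finset.sum_mul, ← Finset.mul_sum, h, ← iota_eq, mul_smul_comm,
      Nat.cast_add, Nat.cast_one, add_smul, one_smul, add_comm]

noncomputable abbrev dd (x : Fin 8 → A) : E A →ₗ[A] E A := ct (Fintype.linearCombination A x)

theorem cyc_m [Algebra ℚ A] (x : Fin 8 → A) (J : Ideal A)
    (hJ : ∀ v : Fin 8 → A, ∑ i, v i * x i = 0 → ∀ i, v i ∈ J)
    (n : ℕ) : ∀ z ∈ ⋀[A]^(n + 1) (Fin 8 → A), dd x z = 0 →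
      z ∈ J • (⋀[A]^(n + 1) (Fin 8 → A) : Submodule A (E A)) := by
  induction n with
  | zero =>
    intro z hz h
    obtain ⟨v, rfl⟩ := K1 z hz
    have h1 := ct_im (Fintype.linearCombination A x) v (algebraMap A (E A) 1)
    rw [ct_alg, map_one, mul_one, mul_zero, sub_zero, h, ← Algebra.algebraMap_eq_smul_one, eq_comm,
      ExteriorAlgebra.algebraMap_eq_zero_iff, Fintype.linearCombination_apply] at h1
    have h2 := hJ v (by simpa only [smul_eq_mul] using h1)
    rw [iota_eq]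
    exact Submodule.sum_mem _ fun i _ => Submodule.smul_mem_smul (h2 _) (i_mem _)
  | succ n ih =>
    intro z hz h
    have h1 : ∀ i, e A i * ct (pr i) z ∈
        J • (⋀[A]^(n + 1 + 1) (Fin 8 → A) : Submodule A (E A)) := by
      intro i
      have := ih _ (ct_mem (pr i) hz).1 (by rw [ct_comm, h, map_zero, neg_zero])
      refine Submodule.smul_induction_on this (fun r hr y hy => ?_)
        (fun a b ha hb => by rw [mul_add]; exact add_mem ha hb)
      rw [mul_smul_comm, add_comm (n + 1) 1]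
      exact Submodule.smul_mem_smul hr (mul_mem' (i_mem _) hy)
    have h2 : z = algebraMap ℚ A ((n + 1 + 1 : ℕ) : ℚ)⁻¹ • (((n + 1 + 1 : ℕ) : A) • z) := by
      rw [smul_smul, ← map_natCast (algebraMap ℚ A), ← map_mul, inv_mul_cancel₀ (by positivity),
        map_one, one_smul]
    rw [h2, ← euler hz]
    exact Submodule.smul_mem _ _ (Submodule.sum_mem _ fun i _ => h1 i)

theorem tinj {t : A} (ht : ∀ r, t * r = 0 → r = 0) {z : E A} (h : t • z = 0) : z = 0 := by
  haveI : Module.Free A (E A) := Module.Free.of_equiv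
    (DirectSum.decomposeLinearEquiv (fun i : ℕ => ⋀[A]^i (Fin 8 → A))).symm
  let b := Module.Free.chooseBasis A (E A)
  refine b.ext_elem fun i => ?_
  have := congrArg (fun y => b.repr y i) h
  simp only [map_smul, Finsupp.smul_apply, smul_eq_mul, map_zero, Finsupp.zero_apply] at this ⊢
  exact ht _ this

theorem divt {J : Ideal A} {t : A} (hm : ∀ p ∈ J, ∀ q ∈ J, ∃ r ∈ J, p * q = t * r) {i j : ℕ}
    {a b : E A} (ha : a ∈ J • (⋀[A]^i (Fin 8 → A) : Submodule A (E A)))
    (hb : b ∈ J • (⋀[A]^j (Fin 8 → A) : Submodule A (E A))) :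
    ∃ u ∈ J • (⋀[A]^(i + j) (Fin 8 → A) : Submodule A (E A)), t • u = -inv a * b := by
  refine Submodule.smul_induction_on ha (fun p hp x hx => ?_) ?_
  · refine Submodule.smul_induction_on hb (fun q hq y hy => ?_) ?_
    · obtain ⟨r, hr, h⟩ := hm p hp q hq
      refine ⟨r • (-inv x * y), Submodule.smul_mem_smul hr (mul_mem' (neg_mem (inv_mem hx)) hy), ?_⟩
      rw [smul_smul, ← h, map_smul, ← smul_neg, smul_mul_smul_comm]
    · rintro x y ⟨u, h1, h2⟩ ⟨v, h3, h4⟩
      exact ⟨u + v, add_mem h1 h3, by rw [smul_add, h2, h4, mul_add]⟩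
  · rintro x y ⟨u, h1, h2⟩ ⟨v, h3, h4⟩
    exact ⟨u + v, add_mem h1 h3, by rw [smul_add, h2, h4, map_add, neg_add, add_mul]⟩

def BB (x : Fin 8 → A) : Type :=
  {p : ℕ × E A // 1 ≤ p.1 ∧ p.2 ∈ mx x • (⋀[A]^p.1 (Fin 8 → A) : Submodule A (E A)) ∧ dd x p.2 = 0}

noncomputable def mu {x : Fin 8 → A} (v : Fin 8 → A) (u : BB x → BB x → E A) : List (BB x) → E A
  | [b] => b.1.2
  | [b, c] => ι A v * u b c
  | _ => 0

theorem golod_of [Algebra ℚ A] (x v : Fin 8 → A) (t : A)
    (hv : Fintype.linearCombination A x v = t) (ht : ∀ r, t * r = 0 → r = 0)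
    (hJ : ∀ v : Fin 8 → A, ∑ i, v i * x i = 0 → ∀ i, v i ∈ mx x)
    (hm : ∀ p ∈ mx x, ∀ q ∈ mx x, ∃ r ∈ mx x, p * q = t * r) : TrivMassey ℚ x := by
  choose u hu hu' using fun b c : BB x => divt hm b.2.2.1 c.2.2.1
  have hd : ∀ b c, dd x (u b c) = 0 := fun b c => tinj ht (by
    rw [← map_smul, hu', leib, map_neg, ct_inv, b.2.2.2, c.2.2.2]
    simp)
  have hle : ∀ {n : ℕ} {z : E A}, z ∈ mx x • (⋀[A]^n (Fin 8 → A) : Submodule A (E A)) →
      z ∈ ⋀[A]^n (Fin 8 → A) ∧ z ∈ mx x • (⊤ : Submodule A (E A)) := fun h =>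
    ⟨Submodule.smul_le_right h, Submodule.smul_mono le_rfl le_top h⟩
  have hp : ∀ w w' : List (BB x), 4 ≤ w.length + w'.length →
      -inv (mu v u w) * mu v u w' = 0 := by
    intro w w' h
    match w, w', h with
    | [a, b], [c, d], _ =>
      show -inv (ι A v * u a b) * (ι A v * u c d) = 0
      rw [neg_mul, ← mul_assoc, swap, ← mul_assoc, ι_sq_zero]
      simp
    | [], _, _ => simp [mu]
    | _ :: _ :: _ :: _, _, _ => simp [mu]
    | _, [], _ => simp [mu]
    | _, _ :: _ :: _ :: _, _ => simp [mu]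
    | [_], [_], h => simp at h
    | [_], [_, _], h => simp at h
    | [_, _], [_], h => simp at h
  refine ⟨BB x, fun b => b.1.1, mu v u, fun b => b.2.1, fun w hw => ?_, fun b => b.2.2.2,
    fun i hi z hz h => ?_, fun w hw => ?_⟩
  · match w with
    | [] => exact absurd rfl hw
    | [b] =>
      have : ([b].map fun b : BB x => b.1.1 + 1).sum - 1 = b.1.1 := by simp
      rw [this]
      exact hle b.2.2.1
    | [b, c] =>
      have : ([b, c].map fun b : BB x => b.1.1 + 1).sum - 1 = 1 + (b.1.1 + c.1.1) := by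
        simp
        omega
      rw [this]
      refine ⟨mul_mem' (i_mem v) (hle (hu b c)).1, ?_⟩
      show ι A v * u b c ∈ mx x • (⊤ : Submodule A (E A))
      refine Submodule.smul_induction_on (hu b c) (fun r hr y _ => ?_)
        (fun a b ha hb => by rw [mul_add]; exact add_mem ha hb)
      rw [mul_smul_comm]
      exact Submodule.smul_mem_smul hr trivial
    | _ :: _ :: _ :: _ =>
      exact ⟨zero_mem (⋀[A]^_ (Fin 8 → A)), zero_mem (mx x • (⊤ : Submodule A (E A)))⟩
  · obtain ⟨n, rfl⟩ : ∃ k, i = k + 1 := ⟨i - 1, by omega⟩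
    have h' : dd x z = 0 := h
    have h0 : kd x (0 : E A) = 0 := map_zero (dd x)
    refine ⟨0, ?_⟩
    rw [h0, sub_zero]
    exact Submodule.subset_span ⟨⟨(n + 1, z), hi, cyc_m x _ hJ n z hz h', h'⟩, rfl⟩
  · match w, hw with
    | [b, c], _ =>
      have h6 : Finset.Ioo 0 [b, c].length = {1} := by
        show Finset.Ioo 0 2 = {1}
        decide
      rw [msum, h6, Finset.sum_singleton]
      show dd x (ι A v * u b c) = -inv b.1.2 * c.1.2
      rw [ct_im, hd, hv, hu', mul_zero, sub_zero]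
    | [a, b, c], _ =>
      have h6 : Finset.Ioo 0 [a, b, c].length = {1, 2} := by
        show Finset.Ioo 0 3 = {1, 2}
        decide
      rw [msum, h6, Finset.sum_pair (by decide)]
      show dd x 0 = -inv a.1.2 * (ι A v * u b c) + -inv (ι A v * u a b) * c.1.2
      rw [map_zero, eq_comm]
      refine tinj ht ?_
      have h1 : t • inv (u a b) = -(a.1.2 * inv b.1.2) := by
        rw [← map_smul, hu', map_mul, map_neg, inv_inv, neg_mul]
      rw [neg_mul, ← mul_assoc, swap, map_mul, inv_i, neg_mul (ι A v), neg_neg, smul_add, smul_neg,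
        ← mul_smul_comm, hu', ← smul_mul_assoc, ← mul_smul_comm, h1]
      noncomm_ring
    | a :: b :: c :: d :: w, _ =>
      have : msum (mu v u) (a :: b :: c :: d :: w) = 0 := Finset.sum_eq_zero fun j _ => hp _ _ (by
        rw [← List.length_append, List.take_append_drop]
        simp)
      rw [this]
      exact map_zero (dd x)

end Pool.Agent.H65.GolH
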