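import Mathlib

set_option autoImplicit false
set_option maxHeartbeats 1000000

namespace Pool.Agent.H65.GolH

theorem table {A : Type} [CommRing A] (y : Fin 8 → A) (h2 : ∀ a b : A, 2 * a = 2 * b → a = b)
    (h : ∀ (i k : Fin 3) (j l : Fin 6), i < k → j < l →
      y ⟨i + j, by omega⟩ * y ⟨k + l, by omega⟩ + y ⟨i + l, by omega⟩ * y ⟨k + j, by omega⟩ = 0)
    (a b : Fin 8) : ∃ (c : Fin 8) (q : ℤ), y a * y b = (y 0 + y 7) * ((q : A) * y c) := by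
  have r0 : y 0 * y 2 + y 1 * y 1 = 0 :=
    h 0 1 0 1 (by decide) (by decide)
  have r1 : y 0 * y 3 + y 2 * y 1 = 0 :=
    h 0 1 0 2 (by decide) (by decide)
  have r2 : y 0 * y 4 + y 3 * y 1 = 0 :=
    h 0 1 0 3 (by decide) (by decide)
  have r3 : y 0 * y 5 + y 4 * y 1 = 0 :=
    h 0 1 0 4 (by decide) (by decide)
  have r4 : y 0 * y 6 + y 5 * y 1 = 0 :=
    h 0 1 0 5 (by decide) (by decide)
  have r5 : y 1 * y 3 + y 2 * y 2 = 0 :=
    h 0 1 1 2 (by decide) (by decide)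
  have r6 : y 1 * y 4 + y 3 * y 2 = 0 :=
    h 0 1 1 3 (by decide) (by decide)
  have r7 : y 1 * y 5 + y 4 * y 2 = 0 :=
    h 0 1 1 4 (by decide) (by decide)
  have r8 : y 1 * y 6 + y 5 * y 2 = 0 :=
    h 0 1 1 5 (by decide) (by decide)
  have r9 : y 2 * y 4 + y 3 * y 3 = 0 :=
    h 0 1 2 3 (by decide) (by decide)
  have r10 : y 2 * y 5 + y 4 * y 3 = 0 :=
    h 0 1 2 4 (by decide) (by decide)
  have r11 : y 2 * y 6 + y 5 * y 3 = 0 :=
    h 0 1 2 5 (by decide) (by decide)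
  have r12 : y 3 * y 5 + y 4 * y 4 = 0 :=
    h 0 1 3 4 (by decide) (by decide)
  have r13 : y 3 * y 6 + y 5 * y 4 = 0 :=
    h 0 1 3 5 (by decide) (by decide)
  have r14 : y 4 * y 6 + y 5 * y 5 = 0 :=
    h 0 1 4 5 (by decide) (by decide)
  have r15 : y 0 * y 4 + y 2 * y 2 = 0 :=
    h 0 2 0 2 (by decide) (by decide)
  have r16 : y 0 * y 5 + y 3 * y 2 = 0 :=
    h 0 2 0 3 (by decide) (by decide)
  have r17 : y 0 * y 6 + y 4 * y 2 = 0 :=
    h 0 2 0 4 (by decide) (by decide)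
  have r18 : y 0 * y 7 + y 5 * y 2 = 0 :=
    h 0 2 0 5 (by decide) (by decide)
  have r19 : y 1 * y 5 + y 3 * y 3 = 0 :=
    h 0 2 1 3 (by decide) (by decide)
  have r20 : y 1 * y 6 + y 4 * y 3 = 0 :=
    h 0 2 1 4 (by decide) (by decide)
  have r21 : y 1 * y 7 + y 5 * y 3 = 0 :=
    h 0 2 1 5 (by decide) (by decide)
  have r22 : y 2 * y 6 + y 4 * y 4 = 0 :=
    h 0 2 2 4 (by decide) (by decide)
  have r23 : y 2 * y 7 + y 5 * y 4 = 0 :=
    h 0 2 2 5 (by decide) (by decide)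
  have r24 : y 3 * y 7 + y 5 * y 5 = 0 :=
    h 0 2 3 5 (by decide) (by decide)
  have r25 : y 4 * y 7 + y 5 * y 6 = 0 :=
    h 0 2 4 5 (by decide) (by decide)
  have r26 : y 1 * y 7 + y 6 * y 2 = 0 :=
    h 1 2 0 5 (by decide) (by decide)
  have r27 : y 2 * y 7 + y 6 * y 3 = 0 :=
    h 1 2 1 5 (by decide) (by decide)
  have r28 : y 3 * y 7 + y 6 * y 4 = 0 :=
    h 1 2 2 5 (by decide) (by decide)
  have r29 : y 5 * y 7 + y 6 * y 6 = 0 :=
    h 1 2 4 5 (by decide) (by decide)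
  have t00 : y 0 * y 0 = (y 0 + y 7) * (((1 : ℤ) : A) * y 0) := h2 _ _ (by
    push_cast; linear_combination (1) * r8 + (1) * r10 + (-2) * r18 + (-1) * r20)
  have t01 : y 0 * y 1 = (y 0 + y 7) * (((1 : ℤ) : A) * y 1) := h2 _ _ (by
    push_cast; linear_combination (1) * r11 + (1) * r12 + (-2) * r21 + (-1) * r22)
  have t02 : y 0 * y 2 = (y 0 + y 7) * (((1 : ℤ) : A) * y 2) := h2 _ _ (by
    push_cast; linear_combination (1) * r13 + (-1) * r23 + (-1) * r27)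
  have t03 : y 0 * y 3 = (y 0 + y 7) * (((1 : ℤ) : A) * y 3) := h2 _ _ (by
    push_cast; linear_combination (1) * r14 + (-1) * r24 + (-1) * r28)
  have t04 : y 0 * y 4 = (y 0 + y 7) * (((0 : ℤ) : A) * y 0) := h2 _ _ (by
    push_cast; linear_combination (1) * r2 + (-1) * r5 + (1) * r15)
  have t05 : y 0 * y 5 = (y 0 + y 7) * (((0 : ℤ) : A) * y 0) := h2 _ _ (by
    push_cast; linear_combination (1) * r3 + (-1) * r6 + (1) * r16)
  have t06 : y 0 * y 6 = (y 0 + y 7) * (((0 : ℤ) : A) * y 0) := h2 _ _ (by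
    push_cast; linear_combination (1) * r4 + (-1) * r7 + (1) * r17)
  have t07 : y 0 * y 7 = (y 0 + y 7) * (((0 : ℤ) : A) * y 0) := h2 _ _ (by
    push_cast; linear_combination (-1) * r8 + (-1) * r10 + (2) * r18 + (1) * r20)
  have t10 : y 1 * y 0 = (y 0 + y 7) * (((1 : ℤ) : A) * y 1) := h2 _ _ (by
    push_cast; linear_combination (1) * r11 + (1) * r12 + (-2) * r21 + (-1) * r22)
  have t11 : y 1 * y 1 = (y 0 + y 7) * (((-1 : ℤ) : A) * y 2) := h2 _ _ (by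
    push_cast; linear_combination (2) * r0 + (-1) * r13 + (1) * r23 + (1) * r27)
  have t12 : y 1 * y 2 = (y 0 + y 7) * (((-1 : ℤ) : A) * y 3) := h2 _ _ (by
    push_cast; linear_combination (2) * r1 + (-1) * r14 + (1) * r24 + (1) * r28)
  have t13 : y 1 * y 3 = (y 0 + y 7) * (((0 : ℤ) : A) * y 0) := h2 _ _ (by
    push_cast; linear_combination (1) * r2 + (1) * r5 + (-1) * r15)
  have t14 : y 1 * y 4 = (y 0 + y 7) * (((0 : ℤ) : A) * y 0) := h2 _ _ (by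
    push_cast; linear_combination (1) * r3 + (1) * r6 + (-1) * r16)
  have t15 : y 1 * y 5 = (y 0 + y 7) * (((0 : ℤ) : A) * y 0) := h2 _ _ (by
    push_cast; linear_combination (1) * r4 + (1) * r7 + (-1) * r17)
  have t16 : y 1 * y 6 = (y 0 + y 7) * (((0 : ℤ) : A) * y 0) := h2 _ _ (by
    push_cast; linear_combination (1) * r8 + (-1) * r10 + (1) * r20)
  have t17 : y 1 * y 7 = (y 0 + y 7) * (((0 : ℤ) : A) * y 0) := h2 _ _ (by
    push_cast; linear_combination (-1) * r11 + (-1) * r12 + (2) * r21 + (1) * r22)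
  have t20 : y 2 * y 0 = (y 0 + y 7) * (((1 : ℤ) : A) * y 2) := h2 _ _ (by
    push_cast; linear_combination (1) * r13 + (-1) * r23 + (-1) * r27)
  have t21 : y 2 * y 1 = (y 0 + y 7) * (((-1 : ℤ) : A) * y 3) := h2 _ _ (by
    push_cast; linear_combination (2) * r1 + (-1) * r14 + (1) * r24 + (1) * r28)
  have t22 : y 2 * y 2 = (y 0 + y 7) * (((0 : ℤ) : A) * y 0) := h2 _ _ (by
    push_cast; linear_combination (-1) * r2 + (1) * r5 + (1) * r15)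
  have t23 : y 2 * y 3 = (y 0 + y 7) * (((0 : ℤ) : A) * y 0) := h2 _ _ (by
    push_cast; linear_combination (-1) * r3 + (1) * r6 + (1) * r16)
  have t24 : y 2 * y 4 = (y 0 + y 7) * (((0 : ℤ) : A) * y 0) := h2 _ _ (by
    push_cast; linear_combination (-1) * r4 + (1) * r7 + (1) * r17)
  have t25 : y 2 * y 5 = (y 0 + y 7) * (((0 : ℤ) : A) * y 0) := h2 _ _ (by
    push_cast; linear_combination (1) * r8 + (1) * r10 + (-1) * r20)
  have t26 : y 2 * y 6 = (y 0 + y 7) * (((0 : ℤ) : A) * y 0) := h2 _ _ (by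
    push_cast; linear_combination (1) * r11 + (-1) * r12 + (1) * r22)
  have t27 : y 2 * y 7 = (y 0 + y 7) * (((0 : ℤ) : A) * y 0) := h2 _ _ (by
    push_cast; linear_combination (-1) * r13 + (1) * r23 + (1) * r27)
  have t30 : y 3 * y 0 = (y 0 + y 7) * (((1 : ℤ) : A) * y 3) := h2 _ _ (by
    push_cast; linear_combination (1) * r14 + (-1) * r24 + (-1) * r28)
  have t31 : y 3 * y 1 = (y 0 + y 7) * (((0 : ℤ) : A) * y 0) := h2 _ _ (by
    push_cast; linear_combination (1) * r2 + (1) * r5 + (-1) * r15)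
  have t32 : y 3 * y 2 = (y 0 + y 7) * (((0 : ℤ) : A) * y 0) := h2 _ _ (by
    push_cast; linear_combination (-1) * r3 + (1) * r6 + (1) * r16)
  have t33 : y 3 * y 3 = (y 0 + y 7) * (((0 : ℤ) : A) * y 0) := h2 _ _ (by
    push_cast; linear_combination (1) * r4 + (-1) * r7 + (2) * r9 + (-1) * r17)
  have t34 : y 3 * y 4 = (y 0 + y 7) * (((0 : ℤ) : A) * y 0) := h2 _ _ (by
    push_cast; linear_combination (-1) * r8 + (1) * r10 + (1) * r20)
  have t35 : y 3 * y 5 = (y 0 + y 7) * (((0 : ℤ) : A) * y 0) := h2 _ _ (by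
    push_cast; linear_combination (1) * r11 + (1) * r12 + (-1) * r22)
  have t36 : y 3 * y 6 = (y 0 + y 7) * (((0 : ℤ) : A) * y 0) := h2 _ _ (by
    push_cast; linear_combination (1) * r13 + (-1) * r23 + (1) * r27)
  have t37 : y 3 * y 7 = (y 0 + y 7) * (((0 : ℤ) : A) * y 0) := h2 _ _ (by
    push_cast; linear_combination (-1) * r14 + (1) * r24 + (1) * r28)
  have t40 : y 4 * y 0 = (y 0 + y 7) * (((0 : ℤ) : A) * y 0) := h2 _ _ (by
    push_cast; linear_combination (1) * r2 + (-1) * r5 + (1) * r15)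
  have t41 : y 4 * y 1 = (y 0 + y 7) * (((0 : ℤ) : A) * y 0) := h2 _ _ (by
    push_cast; linear_combination (1) * r3 + (1) * r6 + (-1) * r16)
  have t42 : y 4 * y 2 = (y 0 + y 7) * (((0 : ℤ) : A) * y 0) := h2 _ _ (by
    push_cast; linear_combination (-1) * r4 + (1) * r7 + (1) * r17)
  have t43 : y 4 * y 3 = (y 0 + y 7) * (((0 : ℤ) : A) * y 0) := h2 _ _ (by
    push_cast; linear_combination (-1) * r8 + (1) * r10 + (1) * r20)
  have t44 : y 4 * y 4 = (y 0 + y 7) * (((0 : ℤ) : A) * y 0) := h2 _ _ (by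
    push_cast; linear_combination (-1) * r11 + (1) * r12 + (1) * r22)
  have t45 : y 4 * y 5 = (y 0 + y 7) * (((0 : ℤ) : A) * y 0) := h2 _ _ (by
    push_cast; linear_combination (1) * r13 + (1) * r23 + (-1) * r27)
  have t46 : y 4 * y 6 = (y 0 + y 7) * (((0 : ℤ) : A) * y 0) := h2 _ _ (by
    push_cast; linear_combination (1) * r14 + (-1) * r24 + (1) * r28)
  have t47 : y 4 * y 7 = (y 0 + y 7) * (((1 : ℤ) : A) * y 4) := h2 _ _ (by
    push_cast; linear_combination (-1) * r2 + (1) * r5 + (-1) * r15)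
  have t50 : y 5 * y 0 = (y 0 + y 7) * (((0 : ℤ) : A) * y 0) := h2 _ _ (by
    push_cast; linear_combination (1) * r3 + (-1) * r6 + (1) * r16)
  have t51 : y 5 * y 1 = (y 0 + y 7) * (((0 : ℤ) : A) * y 0) := h2 _ _ (by
    push_cast; linear_combination (1) * r4 + (1) * r7 + (-1) * r17)
  have t52 : y 5 * y 2 = (y 0 + y 7) * (((0 : ℤ) : A) * y 0) := h2 _ _ (by
    push_cast; linear_combination (1) * r8 + (1) * r10 + (-1) * r20)
  have t53 : y 5 * y 3 = (y 0 + y 7) * (((0 : ℤ) : A) * y 0) := h2 _ _ (by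
    push_cast; linear_combination (1) * r11 + (1) * r12 + (-1) * r22)
  have t54 : y 5 * y 4 = (y 0 + y 7) * (((0 : ℤ) : A) * y 0) := h2 _ _ (by
    push_cast; linear_combination (1) * r13 + (1) * r23 + (-1) * r27)
  have t55 : y 5 * y 5 = (y 0 + y 7) * (((0 : ℤ) : A) * y 0) := h2 _ _ (by
    push_cast; linear_combination (1) * r14 + (1) * r24 + (-1) * r28)
  have t56 : y 5 * y 6 = (y 0 + y 7) * (((-1 : ℤ) : A) * y 4) := h2 _ _ (by
    push_cast; linear_combination (1) * r2 + (-1) * r5 + (1) * r15 + (2) * r25)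
  have t57 : y 5 * y 7 = (y 0 + y 7) * (((1 : ℤ) : A) * y 5) := h2 _ _ (by
    push_cast; linear_combination (-1) * r3 + (1) * r6 + (-1) * r16)
  have t60 : y 6 * y 0 = (y 0 + y 7) * (((0 : ℤ) : A) * y 0) := h2 _ _ (by
    push_cast; linear_combination (1) * r4 + (-1) * r7 + (1) * r17)
  have t61 : y 6 * y 1 = (y 0 + y 7) * (((0 : ℤ) : A) * y 0) := h2 _ _ (by
    push_cast; linear_combination (1) * r8 + (-1) * r10 + (1) * r20)
  have t62 : y 6 * y 2 = (y 0 + y 7) * (((0 : ℤ) : A) * y 0) := h2 _ _ (by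
    push_cast; linear_combination (1) * r11 + (-1) * r12 + (1) * r22)
  have t63 : y 6 * y 3 = (y 0 + y 7) * (((0 : ℤ) : A) * y 0) := h2 _ _ (by
    push_cast; linear_combination (1) * r13 + (-1) * r23 + (1) * r27)
  have t64 : y 6 * y 4 = (y 0 + y 7) * (((0 : ℤ) : A) * y 0) := h2 _ _ (by
    push_cast; linear_combination (1) * r14 + (-1) * r24 + (1) * r28)
  have t65 : y 6 * y 5 = (y 0 + y 7) * (((-1 : ℤ) : A) * y 4) := h2 _ _ (by
    push_cast; linear_combination (1) * r2 + (-1) * r5 + (1) * r15 + (2) * r25)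
  have t66 : y 6 * y 6 = (y 0 + y 7) * (((-1 : ℤ) : A) * y 5) := h2 _ _ (by
    push_cast; linear_combination (1) * r3 + (-1) * r6 + (1) * r16 + (2) * r29)
  have t67 : y 6 * y 7 = (y 0 + y 7) * (((1 : ℤ) : A) * y 6) := h2 _ _ (by
    push_cast; linear_combination (-1) * r4 + (1) * r7 + (-1) * r17)
  have t70 : y 7 * y 0 = (y 0 + y 7) * (((0 : ℤ) : A) * y 0) := h2 _ _ (by
    push_cast; linear_combination (-1) * r8 + (-1) * r10 + (2) * r18 + (1) * r20)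
  have t71 : y 7 * y 1 = (y 0 + y 7) * (((0 : ℤ) : A) * y 0) := h2 _ _ (by
    push_cast; linear_combination (-1) * r11 + (-1) * r12 + (2) * r21 + (1) * r22)
  have t72 : y 7 * y 2 = (y 0 + y 7) * (((0 : ℤ) : A) * y 0) := h2 _ _ (by
    push_cast; linear_combination (-1) * r13 + (1) * r23 + (1) * r27)
  have t73 : y 7 * y 3 = (y 0 + y 7) * (((0 : ℤ) : A) * y 0) := h2 _ _ (by
    push_cast; linear_combination (-1) * r14 + (1) * r24 + (1) * r28)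
  have t74 : y 7 * y 4 = (y 0 + y 7) * (((1 : ℤ) : A) * y 4) := h2 _ _ (by
    push_cast; linear_combination (-1) * r2 + (1) * r5 + (-1) * r15)
  have t75 : y 7 * y 5 = (y 0 + y 7) * (((1 : ℤ) : A) * y 5) := h2 _ _ (by
    push_cast; linear_combination (-1) * r3 + (1) * r6 + (-1) * r16)
  have t76 : y 7 * y 6 = (y 0 + y 7) * (((1 : ℤ) : A) * y 6) := h2 _ _ (by
    push_cast; linear_combination (-1) * r4 + (1) * r7 + (-1) * r17)
  have t77 : y 7 * y 7 = (y 0 + y 7) * (((1 : ℤ) : A) * y 7) := h2 _ _ (by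
    push_cast; linear_combination (1) * r8 + (1) * r10 + (-2) * r18 + (-1) * r20)
  fin_cases a <;> fin_cases b
  exacts [⟨0, 1, t00⟩, ⟨1, 1, t01⟩, ⟨2, 1, t02⟩, ⟨3, 1, t03⟩,
    ⟨0, 0, t04⟩, ⟨0, 0, t05⟩, ⟨0, 0, t06⟩, ⟨0, 0, t07⟩,
    ⟨1, 1, t10⟩, ⟨2, -1, t11⟩, ⟨3, -1, t12⟩, ⟨0, 0, t13⟩,
    ⟨0, 0, t14⟩, ⟨0, 0, t15⟩, ⟨0, 0, t16⟩, ⟨0, 0, t17⟩,
    ⟨2, 1, t20⟩, ⟨3, -1, t21⟩, ⟨0, 0, t22⟩, ⟨0, 0, t23⟩,
    ⟨0, 0, t24⟩, ⟨0, 0, t25⟩, ⟨0, 0, t26⟩, ⟨0, 0, t27⟩,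
    ⟨3, 1, t30⟩, ⟨0, 0, t31⟩, ⟨0, 0, t32⟩, ⟨0, 0, t33⟩,
    ⟨0, 0, t34⟩, ⟨0, 0, t35⟩, ⟨0, 0, t36⟩, ⟨0, 0, t37⟩,
    ⟨0, 0, t40⟩, ⟨0, 0, t41⟩, ⟨0, 0, t42⟩, ⟨0, 0, t43⟩,
    ⟨0, 0, t44⟩, ⟨0, 0, t45⟩, ⟨0, 0, t46⟩, ⟨4, 1, t47⟩,
    ⟨0, 0, t50⟩, ⟨0, 0, t51⟩, ⟨0, 0, t52⟩, ⟨0, 0, t53⟩,
    ⟨0, 0, t54⟩, ⟨0, 0, t55⟩, ⟨4, -1, t56⟩, ⟨5, 1, t57⟩,
    ⟨0, 0, t60⟩, ⟨0, 0, t61⟩, ⟨0, 0, t62⟩, ⟨0, 0, t63⟩,
    ⟨0, 0, t64⟩, ⟨4, -1, t65⟩, ⟨5, -1, t66⟩, ⟨6, 1, t67⟩,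
    ⟨0, 0, t70⟩, ⟨0, 0, t71⟩, ⟨0, 0, t72⟩, ⟨0, 0, t73⟩,
    ⟨4, 1, t74⟩, ⟨5, 1, t75⟩, ⟨6, 1, t76⟩, ⟨7, 1, t77⟩]

end Pool.Agent.H65.GolH
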