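import Mathlib
import Pool.Agent.H65.GolH1
import Pool.Agent.H65.GolH2
import Pool.Agent.H65.GolD3

set_option autoImplicit false
set_option maxHeartbeats 1000000
open Polynomial Pool.Agent.H65.GolD

namespace Pool.Agent.H65.GolH

def g {D : Type} [CommRing D] (T s : D) (n : ℕ) : D :=
  if n = 0 then T else if n = 1 then T * s else if n = 2 then -(T * s ^ 2)
    else if n = 3 then T * s ^ 3 else 0

theorem g1 {D : Type} [CommRing D] (T s : D) (i k j l : ℕ) (h1 : i < k) (h2 : k < 3) (h3 : j < l)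
    (h4 : l < 6) : s ^ 4 ∣ g T s (i + j) * g T s (k + l) + g T s (i + l) * g T s (k + j) := by
  interval_cases k <;> interval_cases i <;> interval_cases l <;> interval_cases j <;>
    first
    | (refine ⟨0, ?_⟩; norm_num [g] <;> ring1)
    | (refine ⟨T ^ 2, ?_⟩; norm_num [g] <;> ring1)
    | (refine ⟨2 * T ^ 2, ?_⟩; norm_num [g] <;> ring1)
    | (refine ⟨-(T ^ 2 * s), ?_⟩; norm_num [g] <;> ring1)
    | (refine ⟨T ^ 2 * s ^ 2, ?_⟩; norm_num [g] <;> ring1)

theorem g2 {D : Type} [CommRing D] (T s : D) (i k j l : ℕ) (h1 : i < k) (h2 : k < 3) (h3 : j < l)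
    (h4 : l < 6) : s ^ 4 ∣ g T s (7 - (i + j)) * g T s (7 - (k + l))
      + g T s (7 - (i + l)) * g T s (7 - (k + j)) := by
  have := g1 T s (2 - k) (2 - i) (5 - l) (5 - j) (by omega) (by omega) (by omega) (by omega)
  rw [show 2 - k + (5 - l) = 7 - (k + l) by omega, show 2 - i + (5 - j) = 7 - (i + j) by omega,
    show 2 - k + (5 - j) = 7 - (k + j) by omega, show 2 - i + (5 - l) = 7 - (i + l) by omega]
    at this
  rwa [mul_comm (g T s (7 - (i + j))), mul_comm (g T s (7 - (i + l)))]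

abbrev R := MvPolynomial (Fin 8) ℚ ⧸ P2H

noncomputable abbrev y : Fin 8 → R := xs P2H

noncomputable abbrev t : R := y 0 + y 7

theorem co4 {a b c d : ℚ[X]} (h : (X : ℚ[X][X]) ^ 4 ∣ C a + C b * X + C c * X ^ 2 + C d * X ^ 3) :
    a = 0 ∧ b = 0 ∧ c = 0 ∧ d = 0 := by
  rw [X_pow_dvd_iff] at h
  have h0 := h 0 (by omega)
  have h1 := h 1 (by omega)
  have h2 := h 2 (by omega)
  have h3 := h 3 (by omega)
  simp [coeff_X_pow, coeff_C, coeff_X] at h0 h1 h2 h3
  exact ⟨h0, h1, h2, h3⟩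

theorem kil (G : Fin 8 → ℚ[X][X])
    (hG : ∀ (i k : Fin 3) (j l : Fin 6), i < k → j < l → (X : ℚ[X][X]) ^ 4 ∣
      G ⟨i + j, by omega⟩ * G ⟨k + l, by omega⟩ + G ⟨i + l, by omega⟩ * G ⟨k + j, by omega⟩)
    (h0 : G 0 + G 7 = C X) (p : Fin 8 → ℚ[X]) (h : ∑ i, aeval t (p i) * y i = 0) :
    (X : ℚ[X][X]) ^ 4 ∣ ∑ i, C (p i) * G i := by
  have h1 : ∑ i, aeval (MvPolynomial.X 0 + MvPolynomial.X 7 : MvPolynomial (Fin 8) ℚ) (p i) *
      MvPolynomial.X i ∈ P2H := by
    rw [← Ideal.Quotient.eq_zero_iff_mem, ← h, ← Ideal.Quotient.mkₐ_eq_mk ℚ, map_sum]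
    refine Finset.sum_congr rfl fun i _ => ?_
    rw [map_mul, ← aeval_algHom_apply, map_add]
    rfl
  have h2 : P2H ≤ (Ideal.span {(X : ℚ[X][X]) ^ 4}).comap (MvPolynomial.aeval G) := by
    rw [P2H, Ideal.span_le]
    rintro _ ⟨i, k, j, l, h1, h2, rfl⟩
    rw [SetLike.mem_coe, Ideal.mem_comap, Ideal.mem_span_singleton]
    simpa only [per, hk, map_add, map_mul, MvPolynomial.aeval_X] using hG i k j l h1 h2
  have h3 := h2 h1
  rw [Ideal.mem_comap, Ideal.mem_span_singleton, map_sum] at h3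
  convert h3 using 2 with i
  rw [map_mul, ← aeval_algHom_apply, map_add, MvPolynomial.aeval_X, MvPolynomial.aeval_X,
    MvPolynomial.aeval_X, h0, ← algebraMap_eq, aeval_algebraMap_apply, aeval_X_left_apply]

theorem inj (p : Fin 8 → ℚ[X]) (h : ∑ i, aeval t (p i) * y i = 0) : ∀ i, p i = 0 := by
  have h1 := kil (fun a => g (C X) X a) (fun i k j l h h' => g1 _ _ _ _ _ _ h k.2 h' l.2)
    (by simp [g]) p h
  have h2 := kil (fun a => g (C X) X (7 - a)) (fun i k j l h h' => g2 _ _ _ _ _ _ h k.2 h' l.2)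
    (by simp [g]) p h
  obtain ⟨a0, a1, a2, a3⟩ := co4 (a := p 0 * X) (b := p 1 * X) (c := -(p 2 * X)) (d := p 3 * X) (by
    convert h1 using 1
    simp [Fin.sum_univ_eight, g]
    ring)
  obtain ⟨a7, a6, a5, a4⟩ := co4 (a := p 7 * X) (b := p 6 * X) (c := -(p 5 * X)) (d := p 4 * X) (by
    convert h2 using 1
    simp [Fin.sum_univ_eight, g]
    ring)
  simp at a0 a1 a2 a3 a4 a5 a6 a7
  intro i
  fin_cases i
  exacts [a0, a1, a2, a3, a4, a5, a6, a7]

theorem tab (a b : Fin 8) : ∃ (c : Fin 8) (q : ℤ), y a * y b = t * ((q : R) * y c) := by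
  refine table y (fun a b h => ?_) (fun i k j l h h' => ?_) a b
  · have : (2 : ℚ) • (a - b) = 0 := by rw [two_smul]; linear_combination h
    exact sub_eq_zero.1 ((smul_eq_zero.1 this).resolve_left two_ne_zero)
  · have : Ideal.Quotient.mk P2H (per i k j l) = 0 :=
      Ideal.Quotient.eq_zero_iff_mem.2 (Ideal.subset_span ⟨i, k, j, l, h, h', rfl⟩)
    rw [per, map_add, map_mul, map_mul] at this
    exact this

def Nf (r : R) : Prop := ∃ p : Fin 8 → ℚ[X], r = ∑ i, aeval t (p i) * y i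

theorem Nf.add {a b : R} (h : Nf a) (h' : Nf b) : Nf (a + b) := by
  obtain ⟨p, rfl⟩ := h
  obtain ⟨q, rfl⟩ := h'
  exact ⟨p + q, by simp only [Pi.add_apply, map_add, add_mul, Finset.sum_add_distrib]⟩

theorem Nf.one (f : ℚ[X]) (c : Fin 8) : Nf (aeval t f * y c) := by
  refine ⟨Pi.single c f, ?_⟩
  rw [Finset.sum_eq_single c (fun b _ hb => by rw [Pi.single_eq_of_ne hb, map_zero, zero_mul])
    (by simp), Pi.single_eq_same]

theorem Nf.sum {f : Fin 8 → R} (h : ∀ i, Nf (f i)) : Nf (∑ i, f i) :=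
  Finset.sum_induction f Nf (fun _ _ => Nf.add) ⟨0, by simp⟩ fun i _ => h i

theorem Nf.tm {a : R} (h : Nf a) : Nf (t * a) := by
  obtain ⟨p, rfl⟩ := h
  refine ⟨fun i => X * p i, ?_⟩
  simp only [Finset.mul_sum, map_mul, aeval_X, mul_assoc]

theorem Nf.mul {a : R} (h : Nf a) (k : Fin 8) : ∃ n, Nf n ∧ a * y k = t * n := by
  obtain ⟨p, rfl⟩ := h
  choose c q hq using fun i => tab i k
  refine ⟨∑ i, aeval t (p i * (q i : ℚ[X])) * y (c i), Nf.sum fun i => Nf.one _ _, ?_⟩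
  rw [Finset.sum_mul, Finset.mul_sum]
  refine Finset.sum_congr rfl fun i _ => ?_
  rw [mul_assoc, hq, map_mul, map_intCast]
  ring

theorem nf (r : R) : ∃ (c : ℚ) (n : R), Nf n ∧ r = aeval t (C c) + n := by
  obtain ⟨f, rfl⟩ := Ideal.Quotient.mk_surjective r
  induction f using MvPolynomial.induction_on with
  | C a => exact ⟨a, 0, ⟨0, by simp⟩, by rw [aeval_C, add_zero]; rfl⟩
  | add p q hp hq =>
    obtain ⟨c, n, h, h'⟩ := hp
    obtain ⟨c', n', k, k'⟩ := hq
    exact ⟨c + c', n + n', h.add k, by rw [map_add, h', k', map_add, map_add]; ring⟩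
  | mul_X p k hp =>
    obtain ⟨c, n, h, h'⟩ := hp
    obtain ⟨n', k1, k2⟩ := h.mul k
    refine ⟨0, aeval t (C c) * y k + t * n', (Nf.one _ _).add k1.tm, ?_⟩
    rw [map_mul, h', ← k2, map_zero, map_zero, zero_add, add_mul]
    rfl

theorem cz {c : ℚ} {p : ℚ[X]} (h : C c + X * p = 0) : c = 0 := by
  simpa using congrArg (eval 0) h

theorem nzd (r : R) (h : t * r = 0) : r = 0 := by
  obtain ⟨c, _, ⟨p, rfl⟩, rfl⟩ := nf r
  have h1 := inj (fun i => (if i = 0 ∨ i = 7 then C c else 0) + X * p i) (by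
    rw [← h]
    simp [Fin.sum_univ_eight]
    ring)
  have h2 : c = 0 := cz (by simpa using h1 0)
  subst h2
  have h3 : ∀ i, p i = 0 := fun i => by simpa using h1 i
  simp [h3]

theorem ym (i : Fin 8) (a : R) : a * y i ∈ mx y := Ideal.mul_mem_left _ _ (Ideal.subset_span ⟨i, rfl⟩)

theorem hJ (v : Fin 8 → R) (h : ∑ i, v i * y i = 0) (i : Fin 8) : v i ∈ mx y := by
  choose c n hn hv using fun i => nf (v i)
  choose m hm hm' using fun i => (hn i).mul i
  obtain ⟨p, hp⟩ := Nf.sum hm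
  have h1 := inj (fun i => C (c i) + X * p i) (by
    rw [← h]
    have e1 : ∀ i, aeval t (C (c i) + X * p i) * y i =
        aeval t (C (c i)) * y i + t * (aeval t (p i) * y i) := fun i => by
      rw [map_add, map_mul, aeval_X]
      ring
    have e2 : ∀ i, v i * y i = aeval t (C (c i)) * y i + t * m i := fun i => by
      rw [hv, ← hm']
      ring
    rw [Finset.sum_congr rfl fun i _ => e1 i, Finset.sum_congr rfl fun i _ => e2 i,
      Finset.sum_add_distrib, Finset.sum_add_distrib, ← Finset.mul_sum, ← Finset.mul_sum, hp])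
  obtain ⟨q, hq⟩ := hn i
  rw [hv, cz (h1 i), map_zero, map_zero, zero_add, hq]
  exact Ideal.sum_mem _ fun j _ => ym _ _

theorem hm (p : R) (hp : p ∈ mx y) (q : R) (hq : q ∈ mx y) : ∃ r ∈ mx y, p * q = t * r := by
  induction hp using Submodule.span_induction with
  | zero => exact ⟨0, zero_mem _, by simp⟩
  | add a b _ _ h h' =>
    obtain ⟨r, h1, h2⟩ := h
    obtain ⟨s, h3, h4⟩ := h'
    exact ⟨r + s, add_mem h1 h3, by rw [add_mul, h2, h4, mul_add]⟩
  | smul a b _ h =>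
    obtain ⟨r, h1, h2⟩ := h
    exact ⟨a * r, Ideal.mul_mem_left _ _ h1, by rw [smul_eq_mul, mul_assoc, h2, mul_left_comm]⟩
  | mem z hz =>
    obtain ⟨i, rfl⟩ := hz
    induction hq using Submodule.span_induction with
    | zero => exact ⟨0, zero_mem _, by simp⟩
    | add a b _ _ h h' =>
      obtain ⟨r, h1, h2⟩ := h
      obtain ⟨s, h3, h4⟩ := h'
      exact ⟨r + s, add_mem h1 h3, by rw [mul_add, h2, h4, mul_add]⟩
    | smul a b _ h =>
      obtain ⟨r, h1, h2⟩ := h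
      exact ⟨a * r, Ideal.mul_mem_left _ _ h1, by
        rw [smul_eq_mul, mul_left_comm, h2, mul_left_comm]⟩
    | mem z hz =>
      obtain ⟨j, rfl⟩ := hz
      obtain ⟨c, q, h⟩ := tab i j
      exact ⟨_, ym c q, h⟩

theorem golod : IsGolod P2H :=
  golod_of y (Pi.single 0 1 + Pi.single 7 1) t
    (by simp [Fintype.linearCombination_apply_single]) nzd hJ hm

end Pool.Agent.H65.GolH
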