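import Mathlib

set_option autoImplicit false
set_option maxHeartbeats 1000000
open MvPolynomial

namespace Pool.Agent.H65.GolP

abbrev S := MvPolynomial (Fin 4) ℚ
abbrev Mo := Fin 4 →₀ ℕ

def W (P : Mo → Prop) (p : S) : Prop := ∀ m, coeff m p ≠ 0 → P m

theorem W.mono {P Q : Mo → Prop} {p : S} (h : W P p) (hh : ∀ m, P m → Q m) : W Q p :=
  fun m hm => hh m (h m hm)

theorem W.add {P : Mo → Prop} {p q : S} (h : W P p) (h' : W P q) : W P (p + q) := by
  intro m hm
  by_cases h1 : coeff m p = 0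
  · exact h' m (by simpa [h1] using hm)
  · exact h m h1

theorem W.neg {P : Mo → Prop} {p : S} (h : W P p) : W P (-p) :=
  fun m hm => h m (by simpa using hm)

theorem W.and {P Q : Mo → Prop} {p : S} (h : W P p) (h' : W Q p) : W (fun m => P m ∧ Q m) p :=
  fun m hm => ⟨h m hm, h' m hm⟩

theorem W.or {P Q : Mo → Prop} {p q : S} (h : W P p) (h' : W Q q) :
    W (fun m => P m ∨ Q m) (p + q) := (h.mono fun _ => Or.inl).add (h'.mono fun _ => Or.inr)

theorem split {P Q T : Mo → Prop} {u : S} (hT : W T u) (h : W (fun m => P m ∨ Q m) u) :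
    ∃ a b : S, u = a + b ∧ W (fun m => T m ∧ P m) a ∧ W (fun m => T m ∧ Q m) b := by
  classical
  have hc : ∀ m, coeff m (∑ s ∈ u.support.filter P, monomial s (coeff s u)) =
      if P m then coeff m u else 0 := by
    intro m
    simp only [coeff_sum, coeff_monomial, Finset.sum_ite_eq', Finset.mem_filter, mem_support_iff]
    by_cases h1 : coeff m u = 0 <;> by_cases h2 : P m <;> simp [h1, h2]
  refine ⟨∑ s ∈ u.support.filter P, monomial s (coeff s u),
    u - ∑ s ∈ u.support.filter P, monomial s (coeff s u), by ring, fun m hm => ?_, fun m hm => ?_⟩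
  · rw [hc] at hm
    by_cases h2 : P m
    · exact ⟨hT m (by simpa [h2] using hm), h2⟩
    · simp [h2] at hm
  · rw [coeff_sub, hc] at hm
    by_cases h2 : P m
    · simp [h2] at hm
    · have h3 : coeff m u ≠ 0 := by simpa [h2] using hm
      exact ⟨hT m h3, (h m h3).resolve_left h2⟩

theorem wdiv {P : Mo → Prop} {p : S} (i : Fin 4) (h : W P p) (hi : ∀ m, P m → 1 ≤ m i) :
    ∃ q, p = X i * q ∧ W (fun m => P (Finsupp.single i 1 + m)) q := by
  refine ⟨divMonomial p (Finsupp.single i 1), ?_, fun m hm => h _ (by simpa using hm)⟩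
  ext m
  rw [coeff_X_mul']
  split_ifs with h1
  · rw [coeff_divMonomial, add_tsub_cancel_of_le]
    rw [Finsupp.single_le_iff]
    exact Nat.one_le_iff_ne_zero.2 (Finsupp.mem_support_iff.1 h1)
  · by_contra h2
    have := hi m (h m h2)
    exact h1 (Finsupp.mem_support_iff.2 (by omega))

theorem wmul {P : Mo → Prop} {q : S} (i : Fin 4) (h : W P q) :
    W (fun m => 1 ≤ m i ∧ P (m - Finsupp.single i 1)) (X i * q) := by
  intro m hm
  rw [coeff_X_mul'] at hm
  split_ifs at hm with h1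
  · exact ⟨Nat.one_le_iff_ne_zero.2 (Finsupp.mem_support_iff.1 h1), h _ hm⟩
  · exact absurd rfl hm

theorem syz0 {M0 M1 M2 M3 : Mo → Prop} {u0 u1 u2 u3 : S} (h0 : W M0 u0) (h1 : W M1 u1)
    (h2 : W M2 u2) (h3 : W M3 u3) (h : u0 + u1 + u2 + u3 = 0) :
    ∃ v01 v02 v03 v12 v13 v23 : S, W (fun m => M0 m ∧ M1 m) v01 ∧ W (fun m => M0 m ∧ M2 m) v02 ∧
      W (fun m => M0 m ∧ M3 m) v03 ∧ W (fun m => M1 m ∧ M2 m) v12 ∧
      W (fun m => M1 m ∧ M3 m) v13 ∧ W (fun m => M2 m ∧ M3 m) v23 ∧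
      u0 = v01 + v02 + v03 ∧ u1 = -v01 + v12 + v13 ∧ u2 = -v02 - v12 + v23 ∧
      u3 = -v03 - v13 - v23 := by
  have e0 : u0 = -(u1 + (u2 + u3)) := by linear_combination h
  obtain ⟨v01, r, e1, k01, kr⟩ := split h0 (e0 ▸ (h1.or (h2.or h3)).neg)
  obtain ⟨v02, v03, e2, k02, k03⟩ := split (kr.mono fun _ h => h.1) (kr.mono fun _ h => h.2)
  have g1 := h1.add (k01.mono fun _ h => h.2)
  have g2 := h2.add (k02.mono fun _ h => h.2)
  have g3 := h3.add (k03.mono fun _ h => h.2)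
  have e3 : u1 + v01 = -((u2 + v02) + (u3 + v03)) := by linear_combination h - e1 - e2
  obtain ⟨v12, v13, e4, k12, k13⟩ := split g1 (e3 ▸ (g2.or g3).neg)
  have g4 := g2.add (k12.mono fun _ h => h.2)
  have g5 := (g3.add (k13.mono fun _ h => h.2)).neg
  have e5 : -(u3 + v03 + v13) = u2 + v02 + v12 := by linear_combination e4 - e3
  refine ⟨v01, v02, v03, v12, v13, u2 + v02 + v12, k01, k02, k03, k12, k13, g4.and (e5 ▸ g5),
    by linear_combination e1 + e2, by linear_combination e4, by ring, by linear_combination -e5⟩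

theorem div2 {P : Mo → Prop} {v : S} (i j : Fin 4) (hij : i ≠ j)
    (h : W (fun m => (1 ≤ m i ∧ P (m - Finsupp.single i 1)) ∧
      (1 ≤ m j ∧ P (m - Finsupp.single j 1))) v) :
    ∃ n, v = X i * (X j * n) ∧
      W (fun m => P (Finsupp.single i 1 + m) ∧ P (Finsupp.single j 1 + m)) n := by
  obtain ⟨q, rfl, hq⟩ := wdiv i h fun _ h => h.1.1
  obtain ⟨n, rfl, hn⟩ := wdiv j hq fun m h => by
    have := h.2.1
    simpa [Finsupp.single_apply, hij] using this
  refine ⟨n, rfl, hn.mono fun m h => ⟨?_, ?_⟩⟩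
  · have := h.2.2
    rwa [add_left_comm, add_tsub_cancel_left] at this
  · have := h.1.2
    rwa [add_tsub_cancel_left] at this

def P' (P : Mo → Prop) (i j : Fin 4) (m : Mo) : Prop :=
  P (Finsupp.single i 1 + m) ∧ P (Finsupp.single j 1 + m)

theorem syz {P : Mo → Prop} {w0 w1 w2 w3 : S} (h0 : W P w0) (h1 : W P w1)
    (h2 : W P w2) (h3 : W P w3) (h : X 0 * w0 + X 1 * w1 + X 2 * w2 + X 3 * w3 = 0) :
    ∃ n01 n02 n03 n12 n13 n23 : S, W (P' P 0 1) n01 ∧ W (P' P 0 2) n02 ∧ W (P' P 0 3) n03 ∧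
      W (P' P 1 2) n12 ∧ W (P' P 1 3) n13 ∧ W (P' P 2 3) n23 ∧
      w0 = X 1 * n01 + X 2 * n02 + X 3 * n03 ∧ w1 = -(X 0 * n01) + X 2 * n12 + X 3 * n13 ∧
      w2 = -(X 0 * n02) - X 1 * n12 + X 3 * n23 ∧ w3 = -(X 0 * n03) - X 1 * n13 - X 2 * n23 := by
  obtain ⟨v01, v02, v03, v12, v13, v23, k01, k02, k03, k12, k13, k23, e0, e1, e2, e3⟩ :=
    syz0 (wmul 0 h0) (wmul 1 h1) (wmul 2 h2) (wmul 3 h3) h
  obtain ⟨n01, rfl, l01⟩ := div2 0 1 (by decide) k01
  obtain ⟨n02, rfl, l02⟩ := div2 0 2 (by decide) k02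
  obtain ⟨n03, rfl, l03⟩ := div2 0 3 (by decide) k03
  obtain ⟨n12, rfl, l12⟩ := div2 1 2 (by decide) k12
  obtain ⟨n13, rfl, l13⟩ := div2 1 3 (by decide) k13
  obtain ⟨n23, rfl, l23⟩ := div2 2 3 (by decide) k23
  refine ⟨n01, n02, n03, n12, n13, n23, l01, l02, l03, l12, l13, l23, ?_, ?_, ?_, ?_⟩
  · exact mul_left_cancel₀ (X_ne_zero 0) (by linear_combination e0)
  · exact mul_left_cancel₀ (X_ne_zero 1) (by linear_combination e1)
  · exact mul_left_cancel₀ (X_ne_zero 2) (by linear_combination e2)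
  · exact mul_left_cancel₀ (X_ne_zero 3) (by linear_combination e3)

theorem wt (p : S) : W (fun _ => True) p := fun _ _ => trivial

theorem dm (i : Fin 4) (p : S) : ∃ q r : S, p = X i * q + r ∧ W (fun m => m i = 0) r := by
  obtain ⟨a, b, rfl, ha, hb⟩ := split (P := fun m => 1 ≤ m i) (Q := fun m => m i = 0) (wt p)
    (fun m _ => by omega)
  obtain ⟨q, rfl, -⟩ := wdiv i ha fun _ h => h.2
  exact ⟨q, b, rfl, hb.mono fun _ h => h.2⟩

theorem w0mul {i j : Fin 4} (hij : j ≠ i) {r : S} (h : W (fun m => m i = 0) r) :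
    W (fun m => m i = 0) (X j * r) :=
  (wmul j h).mono fun m h => by simpa [Finsupp.single_apply, hij] using h.2

theorem kill {i : Fin 4} {q r : S} (hr : W (fun m => m i = 0) r) (h : X i * q + r = 0) :
    q = 0 := by
  have h1 : X i * q = -r := by linear_combination h
  have h2 := (wmul i (wt q)).and (h1 ▸ hr.neg)
  have : X i * q = 0 := by
    ext m
    by_contra h3
    have := h2 m h3
    omega
  exact (mul_eq_zero.1 this).resolve_left (X_ne_zero i)

theorem exact2 {a01 a02 a03 a12 a13 a23 : S}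
    (h1 : -(X 0 * a01) + X 2 * a12 + X 3 * a13 = 0)
    (h2 : -(X 0 * a02) - X 1 * a12 + X 3 * a23 = 0)
    (h3 : -(X 0 * a03) - X 1 * a13 - X 2 * a23 = 0) :
    ∃ c012 c013 c023 c123 : S, a01 = X 2 * c012 + X 3 * c013 ∧ a02 = -(X 1 * c012) + X 3 * c023 ∧
      a03 = -(X 1 * c013) - X 2 * c023 ∧ a12 = X 0 * c012 + X 3 * c123 ∧
      a13 = X 0 * c013 - X 2 * c123 ∧ a23 = X 0 * c023 + X 1 * c123 := by
  obtain ⟨c012, r12, rfl, k12⟩ := dm 0 a12
  obtain ⟨c013, r13, rfl, k13⟩ := dm 0 a13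
  obtain ⟨c023, r23, rfl, k23⟩ := dm 0 a23
  have e1 := kill (q := -a01 + X 2 * c012 + X 3 * c013)
    ((w0mul (j := 2) (by decide) k12).add (w0mul (j := 3) (by decide) k13))
    (by linear_combination h1)
  have e2 := kill (q := -a02 - X 1 * c012 + X 3 * c023)
    ((w0mul (j := 1) (by decide) k12).neg.add (w0mul (j := 3) (by decide) k23))
    (by linear_combination h2)
  have e3 := kill (q := -a03 - X 1 * c013 - X 2 * c023)
    ((w0mul (j := 1) (by decide) k13).neg.add (w0mul (j := 2) (by decide) k23).neg)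
    (by linear_combination h3)
  obtain ⟨c, r, rfl, k⟩ := dm 1 r23
  have e4 := kill (q := -r12 + X 3 * c) (w0mul (j := 3) (by decide) k)
    (by linear_combination h2 - X 0 * e2)
  have e5 := kill (q := -r13 - X 2 * c) (w0mul (j := 2) (by decide) k).neg
    (by linear_combination h3 - X 0 * e3)
  have e6 : r = 0 := (mul_eq_zero.1 (show X 3 * r = 0 by
    linear_combination h2 - X 0 * e2 - X 1 * e4)).resolve_left (X_ne_zero 3)
  exact ⟨c012, c013, c023, c, by linear_combination -e1, by linear_combination -e2,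
    by linear_combination -e3, by linear_combination -e4, by linear_combination -e5,
    by linear_combination e6⟩

noncomputable def U (P : Mo → Prop) : Ideal S :=
  Ideal.span ((fun s => monomial s (1 : ℚ)) '' {m | P m})

theorem mem_U {P : Mo → Prop} (hP : ∀ s m, s ≤ m → P s → P m) {p : S} : p ∈ U P ↔ W P p := by
  rw [U, mem_ideal_span_monomial_image]
  constructor
  · intro h m hm
    obtain ⟨s, hs, hsm⟩ := h m (mem_support_iff.2 hm)
    exact hP s m hsm hs
  · exact fun h m hm => ⟨m, h m (mem_support_iff.1 hm), le_rfl⟩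

end Pool.Agent.H65.GolP
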