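import Mathlib
import Pool.Agent.H65.GolD

set_option autoImplicit false
set_option maxHeartbeats 1000000
open ExteriorAlgebra

namespace Pool.Agent.H65.GolP

section Ext
variable {A : Type} [CommRing A]

abbrev E (A : Type) [CommRing A] := ExteriorAlgebra A (Fin 4 → A)

noncomputable def e (A : Type) [CommRing A] (i : Fin 4) : E A := ι A (Pi.single i 1)

noncomputable def ct (φ : Module.Dual A (Fin 4 → A)) : E A →ₗ[A] E A :=
  CliffordAlgebra.contractLeft φ

noncomputable def inv : E A →ₐ[A] E A := CliffordAlgebra.involute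

theorem iota_eq (v : Fin 4 → A) :
    ι A v = v 0 • e A 0 + v 1 • e A 1 + v 2 • e A 2 + v 3 • e A 3 := by
  simp only [e, ← map_smul, ← map_add]
  congr 1
  funext i
  fin_cases i <;> simp

theorem ee (i : Fin 4) : e A i * e A i = 0 := ι_sq_zero _

theorem esw (i j : Fin 4) : e A j * e A i = -(e A i * e A j) :=
  eq_neg_of_add_eq_zero_right (ι_add_mul_swap _ _)

theorem ct_im (φ : Module.Dual A (Fin 4 → A)) (v : Fin 4 → A) (b : E A) :
    ct φ (ι A v * b) = φ v • b - ι A v * ct φ b := CliffordAlgebra.contractLeft_ι_mul _ _ _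

theorem ct_alg (φ : Module.Dual A (Fin 4 → A)) (r : A) : ct φ (algebraMap A (E A) r) = 0 :=
  CliffordAlgebra.contractLeft_algebraMap _ _ _

theorem ct_ct (φ : Module.Dual A (Fin 4 → A)) (z : E A) : ct φ (ct φ z) = 0 :=
  CliffordAlgebra.contractLeft_contractLeft _ _

theorem ct_comm (φ ψ : Module.Dual A (Fin 4 → A)) (z : E A) : ct φ (ct ψ z) = -ct ψ (ct φ z) :=
  CliffordAlgebra.contractLeft_comm _ _ _

theorem inv_i (v : Fin 4 → A) : inv (ι A v) = -ι A v := CliffordAlgebra.involute_ι _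

theorem inv_inv (z : E A) : inv (inv z) = z := CliffordAlgebra.involute_involute _

theorem ct_e (φ : Module.Dual A (Fin 4 → A)) (i : Fin 4) :
    ct φ (e A i) = φ (Pi.single i 1) • (1 : E A) := by
  have := ct_im φ (Pi.single i 1) (algebraMap A (E A) 1)
  rw [ct_alg, map_one, mul_one, mul_zero, sub_zero] at this
  exact this

theorem ct_ee (φ : Module.Dual A (Fin 4 → A)) (i j : Fin 4) :
    ct φ (e A i * e A j) = φ (Pi.single i 1) • e A j - φ (Pi.single j 1) • e A i := by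
  rw [e, ct_im, ct_e, mul_smul_comm, mul_one]

theorem ct_eee (φ : Module.Dual A (Fin 4 → A)) (i j k : Fin 4) :
    ct φ (e A i * (e A j * e A k)) = φ (Pi.single i 1) • (e A j * e A k)
      - φ (Pi.single j 1) • (e A i * e A k) + φ (Pi.single k 1) • (e A i * e A j) := by
  rw [e, ct_im, ct_ee, mul_sub, mul_smul_comm, mul_smul_comm]
  abel

theorem lin1 {a b c d : A} (h : a • e A 0 + b • e A 1 + c • e A 2 + d • e A 3 = 0) :
    a = 0 ∧ b = 0 ∧ c = 0 ∧ d = 0 := by
  have := (ι_eq_zero_iff (R := A) ![a, b, c, d]).1 (by rw [iota_eq]; exact h)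
  exact ⟨congrFun this 0, congrFun this 1, congrFun this 2, congrFun this 3⟩

theorem lind {P : E A → Prop} (h0 : ∀ r, P (algebraMap A (E A) r))
    (h1 : ∀ x y, P x → P y → P (x + y)) (h2 : ∀ x v, P x → P (ι A v * x)) (z : E A) : P z :=
  CliffordAlgebra.left_induction _ h0 h1 h2 z

theorem leib (φ : Module.Dual A (Fin 4 → A)) (a b : E A) :
    ct φ (a * b) = ct φ a * b + inv a * ct φ b := by
  induction a using lind with
  | h0 r => rw [ct_alg, AlgHom.commutes, zero_mul, zero_add, ← Algebra.smul_def, ← Algebra.smul_def,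
      map_smul]
  | h1 x y hx hy => simp only [add_mul, map_add, hx, hy]; abel
  | h2 x v hx =>
    rw [mul_assoc, ct_im, hx, ct_im, map_mul, inv_i]
    simp only [mul_add, sub_mul, smul_mul_assoc, mul_assoc, neg_mul]
    abel

theorem ct_inv (φ : Module.Dual A (Fin 4 → A)) (a : E A) : ct φ (inv a) = -inv (ct φ a) := by
  induction a using lind with
  | h0 r => rw [AlgHom.commutes, ct_alg, map_zero, neg_zero]
  | h1 x y hx hy => simp only [map_add, hx, hy]; abel
  | h2 x v hx =>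
    rw [map_mul, inv_i, neg_mul, map_neg, ct_im, hx, ct_im, map_sub, map_smul, map_mul, inv_i]
    simp only [mul_neg, neg_mul]

theorem i_mem (v : Fin 4 → A) : ι A v ∈ ⋀[A]^1 (Fin 4 → A) := by
  rw [exteriorPower, pow_one]
  exact ⟨_, rfl⟩

theorem mul_mem' {i j : ℕ} {a b : E A} (ha : a ∈ ⋀[A]^i (Fin 4 → A))
    (hb : b ∈ ⋀[A]^j (Fin 4 → A)) : a * b ∈ ⋀[A]^(i + j) (Fin 4 → A) := by
  rw [exteriorPower, pow_add]
  exact Submodule.mul_mem_mul ha hb

theorem ee_mem (i j : Fin 4) : e A i * e A j ∈ ⋀[A]^2 (Fin 4 → A) := mul_mem' (i_mem _) (i_mem _)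

theorem pind {C : ℕ → E A → Prop} (h0 : ∀ r, C 0 (algebraMap A (E A) r))
    (h1 : ∀ i x y, C i x → C i y → C i (x + y))
    (h2 : ∀ v i x, x ∈ ⋀[A]^i (Fin 4 → A) → C i x → C (i + 1) (ι A v * x)) {n : ℕ} {z : E A}
    (hz : z ∈ ⋀[A]^n (Fin 4 → A)) : C n z := by
  refine Submodule.pow_induction_on_left' (LinearMap.range (ι A : (Fin 4 → A) →ₗ[A] E A))
    (C := fun n x _ => C n x) h0 (fun x y i _ _ => h1 i x y) ?_ hz
  rintro _ ⟨v, rfl⟩ i x hx h
  exact h2 v i x hx h

theorem inv_mem {n : ℕ} {z : E A} (hz : z ∈ ⋀[A]^n (Fin 4 → A)) :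
    inv z ∈ ⋀[A]^n (Fin 4 → A) := by
  refine pind (C := fun n z => inv z ∈ ⋀[A]^n (Fin 4 → A)) (fun r => ?_)
    (fun i x y h h' => by rw [map_add]; exact add_mem h h') (fun v i x _ h => ?_) hz
  · rw [AlgHom.commutes, exteriorPower, pow_zero]
    exact Submodule.algebraMap_mem r
  · rw [map_mul, inv_i, neg_mul, add_comm]
    exact neg_mem (mul_mem' (i_mem v) h)

theorem ct_mem (φ : Module.Dual A (Fin 4 → A)) {n : ℕ} {z : E A}
    (hz : z ∈ ⋀[A]^n (Fin 4 → A)) :
    ct φ z ∈ ⋀[A]^(n - 1) (Fin 4 → A) ∧ (n = 0 → ct φ z = 0) := by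
  refine pind (C := fun n z => ct φ z ∈ ⋀[A]^(n - 1) (Fin 4 → A) ∧ (n = 0 → ct φ z = 0))
    (fun r => by simp [ct_alg]) (fun i x y h h' => ?_) (fun v i x hx h => ⟨?_, by omega⟩) hz
  · rw [map_add]
    exact ⟨add_mem h.1 h'.1, fun hi => by rw [h.2 hi, h'.2 hi, add_zero]⟩
  · rw [ct_im, Nat.add_sub_cancel]
    refine sub_mem (Submodule.smul_mem _ _ hx) ?_
    rcases i with _ | i
    · rw [h.2 rfl, mul_zero]
      exact zero_mem _
    · rw [add_comm]
      exact mul_mem' (i_mem v) h.1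

noncomputable def pr (i : Fin 4) : Module.Dual A (Fin 4 → A) := LinearMap.proj i

theorem euler {n : ℕ} {z : E A} (hz : z ∈ ⋀[A]^n (Fin 4 → A)) :
    e A 0 * ct (pr 0) z + e A 1 * ct (pr 1) z + e A 2 * ct (pr 2) z + e A 3 * ct (pr 3) z
      = (n : A) • z := by
  refine pind (C := fun n z => e A 0 * ct (pr 0) z + e A 1 * ct (pr 1) z + e A 2 * ct (pr 2) z
      + e A 3 * ct (pr 3) z = (n : A) • z) (fun r => by simp [ct_alg])
    (fun i x y h h' => ?_) (fun v i x _ h => ?_) hz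
  · simp only [map_add, mul_add, smul_add, ← h, ← h']
    abel
  · have hs : ∀ (j : Fin 4) (y : E A), e A j * (ι A v * y) = -(ι A v * (e A j * y)) := by
      intro j y
      rw [← mul_assoc, ← mul_assoc, ← neg_mul]
      congr 1
      exact eq_neg_of_add_eq_zero_left (ι_add_mul_swap _ _)
    have h3 : ι A v * x = v 0 • (e A 0 * x) + v 1 • (e A 1 * x) + v 2 • (e A 2 * x)
        + v 3 • (e A 3 * x) := by
      conv_lhs => rw [iota_eq]
      simp only [add_mul, smul_mul_assoc]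
    have h4 := congrArg (fun y => ι A v * y) h
    simp only [mul_add, mul_smul_comm] at h4
    simp only [ct_im, mul_sub, hs, mul_smul_comm, pr, LinearMap.proj_apply, Nat.cast_add,
      Nat.cast_one, add_smul, one_smul, sub_neg_eq_add] at h4 ⊢
    rw [← h4]
    conv_rhs => rw [h3]
    abel

theorem K1 : ∀ z ∈ ⋀[A]^1 (Fin 4 → A), ∃ v, z = ι A v := by
  intro z hz
  rw [exteriorPower, pow_one] at hz
  obtain ⟨v, rfl⟩ := hz
  exact ⟨v, rfl⟩

theorem K2 : ∀ z ∈ ⋀[A]^2 (Fin 4 → A), ∃ a b c d f g : A,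
    z = a • (e A 0 * e A 1) + b • (e A 0 * e A 2) + c • (e A 0 * e A 3) + d • (e A 1 * e A 2)
      + f • (e A 1 * e A 3) + g • (e A 2 * e A 3) := by
  intro z hz
  rw [exteriorPower, pow_two] at hz
  refine Submodule.mul_induction_on hz ?_ ?_
  · rintro _ ⟨v, rfl⟩ _ ⟨w, rfl⟩
    refine ⟨v 0 * w 1 - v 1 * w 0, v 0 * w 2 - v 2 * w 0, v 0 * w 3 - v 3 * w 0,
      v 1 * w 2 - v 2 * w 1, v 1 * w 3 - v 3 * w 1, v 2 * w 3 - v 3 * w 2, ?_⟩
    simp only [iota_eq, mul_add, add_mul, smul_mul_smul_comm, ee, esw 0 1, esw 0 2, esw 0 3,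
      esw 1 2, esw 1 3, esw 2 3]
    module
  · rintro _ _ ⟨a, b, c, d, f, g, rfl⟩ ⟨a', b', c', d', f', g', rfl⟩
    exact ⟨a + a', b + b', c + c', d + d', f + f', g + g', by module⟩

theorem K5 [Nontrivial A] {n : ℕ} (hn : 5 ≤ n) {z : E A} (hz : z ∈ ⋀[A]^n (Fin 4 → A)) :
    z = 0 := by
  have h : Module.finrank A (⋀[A]^n (Fin 4 → A)) = 0 := by
    rw [exteriorPower.finrank_eq]
    simp only [Module.finrank_fintype_fun_eq_card, Fintype.card_fin]
    exact Nat.choose_eq_zero_of_lt (by omega)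
  have := (Module.finrank_eq_zero_iff_of_free A _).1 h
  exact congrArg Subtype.val (Subsingleton.elim (⟨z, hz⟩ : ⋀[A]^n (Fin 4 → A)) 0)

theorem cyc_m [Algebra ℚ A] (x : Fin 4 → A) (J : Ideal A)
    (hJ : ∀ v : Fin 4 → A, x 0 * v 0 + x 1 * v 1 + x 2 * v 2 + x 3 * v 3 = 0 → ∀ i, v i ∈ J)
    (n : ℕ) : ∀ z ∈ ⋀[A]^(n + 1) (Fin 4 → A), ct (Fintype.linearCombination A x) z = 0 →
      z ∈ J • (⊤ : Submodule A (E A)) := by
  induction n with
  | zero =>
    intro z hz h
    obtain ⟨v, rfl⟩ := K1 z hz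
    have h1 := ct_im (Fintype.linearCombination A x) v (algebraMap A (E A) 1)
    rw [ct_alg, map_one, mul_one, mul_zero, sub_zero, h, ← Algebra.algebraMap_eq_smul_one, eq_comm,
      ExteriorAlgebra.algebraMap_eq_zero_iff, Fintype.linearCombination_apply,
      Fin.sum_univ_four] at h1
    have h2 := hJ v (by simp only [smul_eq_mul] at h1; linear_combination h1)
    rw [iota_eq]
    repeat' apply add_mem
    all_goals exact Submodule.smul_mem_smul (h2 _) trivial
  | succ n ih =>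
    intro z hz h
    have h1 : ∀ i, e A i * ct (pr i) z ∈ J • (⊤ : Submodule A (E A)) := by
      intro i
      have := ih _ (ct_mem (pr i) hz).1 (by rw [ct_comm, h, map_zero, neg_zero])
      refine Submodule.smul_induction_on this (fun r hr y _ => ?_)
        (fun a b ha hb => by rw [mul_add]; exact add_mem ha hb)
      rw [mul_smul_comm]
      exact Submodule.smul_mem_smul hr trivial
    have h2 : z = algebraMap ℚ A ((n + 1 + 1 : ℕ) : ℚ)⁻¹ • (((n + 1 + 1 : ℕ) : A) • z) := by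
      rw [smul_smul, ← map_natCast (algebraMap ℚ A), ← map_mul, inv_mul_cancel₀ (by positivity),
        map_one, one_smul]
    rw [h2, ← euler hz]
    exact Submodule.smul_mem _ _ (add_mem (add_mem (add_mem (h1 0) (h1 1)) (h1 2)) (h1 3))

theorem top_ct (x : Fin 4 → A) (y : E A) :
    ct (pr 3) (ct (pr 2) (ct (pr 1) (ct (pr 0) (ct (Fintype.linearCombination A x) y)))) = 0 := by
  have h : Fintype.linearCombination A x = x 0 • pr 0 + x 1 • pr 1 + x 2 • pr 2 + x 3 • pr 3 := by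
    refine LinearMap.ext fun v => ?_
    simp [Fintype.linearCombination_apply, Fin.sum_univ_four, pr, mul_comm]
  have h2 : ct (Fintype.linearCombination A x) y = x 0 • ct (pr 0) y + x 1 • ct (pr 1) y
      + x 2 • ct (pr 2) y + x 3 • ct (pr 3) y := by
    rw [h]
    simp only [ct, map_add, map_smul, LinearMap.add_apply, LinearMap.smul_apply]
  rw [h2]
  simp only [map_add, map_smul, ct_ct, map_zero, smul_zero, ct_comm (pr 0) (pr 1),
    ct_comm (pr 0) (pr 2), ct_comm (pr 0) (pr 3), ct_comm (pr 1) (pr 2), ct_comm (pr 1) (pr 3),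
    ct_comm (pr 2) (pr 3), map_neg, neg_zero, add_zero]

theorem top_e : ct (pr 3) (ct (pr 2) (ct (pr 1) (ct (pr 0)
    (e A 0 * (e A 1 * (e A 2 * e A 3)))))) = 1 := by
  have h : ∀ i j : Fin 4, (pr i : Module.Dual A (Fin 4 → A)) (Pi.single j 1) =
      if i = j then 1 else 0 := fun i j => by simp [pr, Pi.single_apply]
  have h1 : ct (pr 0) (e A 0 * (e A 1 * (e A 2 * e A 3))) = e A 1 * (e A 2 * e A 3) := by
    rw [e, ct_im, ct_eee]
    simp [h]
  rw [h1, ct_eee]
  simp [h, ct_ee, ct_e]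

end Ext

end Pool.Agent.H65.GolP
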