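import Mathlib
import Pool.Agent.H65.GolP2

set_option autoImplicit false
set_option maxHeartbeats 1000000
open ExteriorAlgebra Pool.Agent.H65.GolD

namespace Pool.Agent.H65.GolP

variable {A : Type} [CommRing A]

noncomputable abbrev dd (x : Fin 4 → A) : E A →ₗ[A] E A := ct (Fintype.linearCombination A x)

theorem lc_s (x : Fin 4 → A) (i : Fin 4) :
    Fintype.linearCombination A x (Pi.single i 1) = x i := by
  simp [Fintype.linearCombination_apply_single]

theorem inv_e (i : Fin 4) : inv (e A i) = -e A i := inv_i _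

theorem not_golod [Algebra ℚ A] (x : Fin 4 → A) (h : TrivMassey ℚ x) {a b : A}
    (h0 : x 0 * a = 0) (h1 : x 1 * a = 0) (h2 : x 2 * b = 0) (h3 : x 3 * b = 0) : a * b = 0 := by
  obtain ⟨B, deg, μ, -, -, -, k1, k2⟩ := h
  have hz : dd x (a • (e A 0 * e A 1)) = 0 := by
    rw [map_smul, ct_ee, lc_s, lc_s, smul_sub, smul_smul, smul_smul, mul_comm, h0, mul_comm, h1]
    simp
  have hz' : dd x (b • (e A 2 * e A 3)) = 0 := by
    rw [map_smul, ct_ee, lc_s, lc_s, smul_sub, smul_smul, smul_smul, mul_comm, h2, mul_comm, h3]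
    simp
  obtain ⟨y, hy⟩ := k1 2 (by omega) _ (Submodule.smul_mem _ a (ee_mem 0 1)) hz
  obtain ⟨y', hy'⟩ := k1 2 (by omega) _ (Submodule.smul_mem _ b (ee_mem 2 3)) hz'
  have key : ∀ s ∈ Submodule.span ℚ (Set.range fun b => μ [b]),
      ∀ s' ∈ Submodule.span ℚ (Set.range fun b => μ [b]),
      inv s * s' ∈ LinearMap.range (dd x) := by
    intro s hs s' hs'
    induction hs using Submodule.span_induction with
    | zero => simp
    | add s t _ _ h h' => rw [map_add, add_mul]; exact add_mem h h'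
    | smul q s _ h =>
      rw [← algebraMap_smul A q s, map_smul, smul_mul_assoc]
      exact Submodule.smul_mem _ _ h
    | mem s hs =>
      obtain ⟨c, rfl⟩ := hs
      induction hs' using Submodule.span_induction with
      | zero => simp
      | add s t _ _ h h' => rw [mul_add]; exact add_mem h h'
      | smul q s _ h =>
        rw [← algebraMap_smul A q s, mul_smul_comm]
        exact Submodule.smul_mem _ _ h
      | mem s hs =>
        obtain ⟨c', rfl⟩ := hs
        have h5 := k2 [c, c'] (by simp)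
        have h6 : Finset.Ioo 0 [c, c'].length = {1} := by
          show Finset.Ioo 0 2 = {1}
          decide
        rw [msum, h6, Finset.sum_singleton] at h5
        have h7 : dd x (μ [c, c']) = -inv (μ [c]) * μ [c'] := h5
        exact ⟨-μ [c, c'], by rw [map_neg, h7, neg_mul, neg_neg]⟩
  obtain ⟨Y, hY⟩ := key _ hy _ hy'
  change dd x Y = inv (a • (e A 0 * e A 1) - dd x y) * (b • (e A 2 * e A 3) - dd x y') at hY
  have e1 := leib (Fintype.linearCombination A x) (inv y) (b • (e A 2 * e A 3))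
  have e2 := leib (Fintype.linearCombination A x) (a • (e A 0 * e A 1) - dd x y) y'
  rw [hz', ct_inv, mul_zero, add_zero] at e1
  rw [map_sub, hz, ct_ct, sub_zero, zero_mul, zero_add] at e2
  have e3 : inv (a • (e A 0 * e A 1)) * (b • (e A 2 * e A 3)) =
      dd x (Y + (a • (e A 0 * e A 1) - dd x y) * y' - inv y * (b • (e A 2 * e A 3))) := by
    rw [map_sub, map_add, hY, e1, e2, map_sub]
    generalize b • (e A 2 * e A 3) = u
    noncomm_ring
  rw [map_smul, map_mul, inv_e, inv_e, neg_mul_neg, smul_mul_smul_comm, mul_assoc] at e3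
  have e4 := top_ct x (Y + (a • (e A 0 * e A 1) - dd x y) * y' - inv y * (b • (e A 2 * e A 3)))
  rw [← e3] at e4
  simp only [map_smul, top_e] at e4
  rwa [← Algebra.algebraMap_eq_smul_one, ExteriorAlgebra.algebraMap_eq_zero_iff] at e4

def BB (x : Fin 4 → A) (N : ℕ → Set (E A)) : Type :=
  {p : ℕ × E A // 1 ≤ p.1 ∧ p.2 ∈ ⋀[A]^p.1 (Fin 4 → A) ∧ dd x p.2 = 0 ∧ p.2 ∈ N p.1}

noncomputable def mu {x : Fin 4 → A} {N : ℕ → Set (E A)} : List (BB x N) → E A
  | [b] => b.1.2
  | _ => 0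

theorem golod_of [Algebra ℚ A] (x : Fin 4 → A) (N : ℕ → Set (E A))
    (hJ : ∀ v : Fin 4 → A, x 0 * v 0 + x 1 * v 1 + x 2 * v 2 + x 3 * v 3 = 0 → ∀ i, v i ∈ mx x)
    (h1 : ∀ n, 1 ≤ n → ∀ z ∈ ⋀[A]^n (Fin 4 → A), dd x z = 0 →
      ∃ y, z - dd x y ∈ ⋀[A]^n (Fin 4 → A) ∧ z - dd x y ∈ N n)
    (h2 : ∀ i j, 1 ≤ i → 1 ≤ j → ∀ a ∈ ⋀[A]^i (Fin 4 → A), ∀ b ∈ ⋀[A]^j (Fin 4 → A),
      a ∈ mx x • (⊤ : Submodule A (E A)) → b ∈ mx x • (⊤ : Submodule A (E A)) →
      a ∈ N i → b ∈ N j → inv a * b = 0) : TrivMassey ℚ x := by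
  have hm : ∀ b : BB x N, b.1.2 ∈ mx x • (⊤ : Submodule A (E A)) := by
    rintro ⟨⟨n, z⟩, k1, k2, k3, -⟩
    obtain ⟨n, rfl⟩ : ∃ k, n = k + 1 := ⟨n - 1, by simp only at k1; omega⟩
    exact cyc_m x _ hJ n z k2 k3
  have hp : ∀ w w' : List (BB x N), -inv (mu w) * mu w' = 0 := by
    intro w w'
    match w, w' with
    | [b], [c] =>
      rw [neg_mul, neg_eq_zero]
      exact h2 _ _ b.2.1 c.2.1 _ b.2.2.1 _ c.2.2.1 (hm b) (hm c) b.2.2.2.2 c.2.2.2.2
    | [], _ => simp [mu]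
    | _ :: _ :: _, _ => simp [mu]
    | _, [] => simp [mu]
    | _, _ :: _ :: _ => simp [mu]
  refine ⟨BB x N, fun b => b.1.1, mu, fun b => b.2.1, fun w hw => ⟨?_, ?_⟩, fun b => b.2.2.2.1,
    fun i hi z hz h => ?_, fun w hw => ?_⟩
  · match w with
    | [] => exact absurd rfl hw
    | [b] =>
      have : ([b].map fun b : BB x N => b.1.1 + 1).sum - 1 = b.1.1 := by simp
      rw [this]
      exact b.2.2.1
    | _ :: _ :: _ => exact zero_mem (⋀[A]^_ (Fin 4 → A))
  · match w with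
    | [] => exact absurd rfl hw
    | [b] => exact hm b
    | _ :: _ :: _ => exact zero_mem (mx x • (⊤ : Submodule A (E A)))
  · obtain ⟨y, k1, k2⟩ := h1 i hi z hz h
    have h' : dd x z = 0 := h
    refine ⟨y, Submodule.subset_span ⟨⟨(i, z - dd x y), hi, k1, ?_, k2⟩, rfl⟩⟩
    rw [map_sub, h', ct_ct, sub_zero]
  · have : msum mu w = 0 := Finset.sum_eq_zero fun j _ => hp _ _
    rw [this]
    match w with
    | [] => simp at hw
    | [b] => simp at hw
    | _ :: _ :: _ => exact map_zero (dd x)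

theorem inv_mul0 {J J' : Ideal A} (h : ∀ p ∈ J, ∀ q ∈ J', p * q = 0) {a b : E A}
    (ha : a ∈ J • (⊤ : Submodule A (E A))) (hb : b ∈ J' • (⊤ : Submodule A (E A))) :
    inv a * b = 0 := by
  refine Submodule.smul_induction_on ha (fun p hp x _ => ?_)
    (fun x y h1 h2 => by rw [map_add, add_mul, h1, h2, add_zero])
  refine Submodule.smul_induction_on hb (fun q hq y _ => ?_)
    (fun x y h1 h2 => by rw [mul_add, h1, h2, add_zero])
  rw [map_smul, smul_mul_smul_comm, h p hp q hq, zero_smul]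

theorem z1 (i k : Fin 4) (y : E A) : e A i * (e A k * (e A i * y)) = 0 := by
  rw [← mul_assoc, esw k i, neg_mul, mul_assoc, ← mul_assoc (e A i), ee]
  simp

theorem o1 (i j l : Fin 4) : e A i * e A j * (e A i * e A l) = 0 := by rw [mul_assoc, z1]
theorem o2 (i j l : Fin 4) : e A i * e A j * (e A j * e A l) = 0 := by
  rw [mul_assoc, ← mul_assoc (e A j), ee]
  simp
theorem o3 (i j k : Fin 4) : e A i * e A j * (e A k * e A i) = 0 := by
  rw [esw i k, mul_neg, o1, neg_zero]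
theorem o4 (i j k : Fin 4) : e A i * e A j * (e A k * e A j) = 0 := by
  rw [esw j k, mul_neg, o2, neg_zero]

noncomputable def f2 (a b c d f g : A) : E A :=
  a • (e A 0 * e A 1) + b • (e A 0 * e A 2) + c • (e A 0 * e A 3) + d • (e A 1 * e A 2)
    + f • (e A 1 * e A 3) + g • (e A 2 * e A 3)

theorem f2_mem (a b c d f g : A) : f2 a b c d f g ∈ ⋀[A]^2 (Fin 4 → A) := by
  unfold f2
  repeat' apply add_mem
  all_goals exact Submodule.smul_mem _ _ (ee_mem _ _)

theorem f2_mul {a b c d f g a' b' c' d' f' g' : A} (h1 : a * g' = 0) (h2 : b * f' = 0)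
    (h3 : c * d' = 0) (h4 : d * c' = 0) (h5 : f * b' = 0) (h6 : g * a' = 0) :
    inv (f2 a b c d f g) * f2 a' b' c' d' f' g' = 0 := by
  simp only [f2, map_add, map_smul, map_mul, inv_e, neg_mul_neg, mul_add, add_mul,
    smul_mul_smul_comm, o1, o2, o3, o4, h1, h2, h3, h4, h5, h6, smul_zero, zero_smul, add_zero]

theorem d_f2 (x : Fin 4 → A) (a b c d f g : A) : dd x (f2 a b c d f g) =
    (-(x 1 * a + x 2 * b + x 3 * c)) • e A 0 + (x 0 * a - x 2 * d - x 3 * f) • e A 1
      + (x 0 * b + x 1 * d - x 3 * g) • e A 2 + (x 0 * c + x 1 * f + x 2 * g) • e A 3 := by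
  simp only [f2, map_add, map_smul, ct_ee, lc_s]
  module

theorem d_f3 (x : Fin 4 → A) (p q r s : A) :
    dd x (p • (e A 0 * (e A 1 * e A 2)) + q • (e A 0 * (e A 1 * e A 3))
      + r • (e A 0 * (e A 2 * e A 3)) + s • (e A 1 * (e A 2 * e A 3))) =
    f2 (x 2 * p + x 3 * q) (-(x 1 * p) + x 3 * r) (-(x 1 * q) - x 2 * r) (x 0 * p + x 3 * s)
      (x 0 * q - x 2 * s) (x 0 * r + x 1 * s) := by
  simp only [f2, map_add, map_smul, ct_eee, lc_s]
  module

theorem d_i (x v : Fin 4 → A) (h : dd x (ι A v) = 0) :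
    x 0 * v 0 + x 1 * v 1 + x 2 * v 2 + x 3 * v 3 = 0 := by
  rw [iota_eq] at h
  simp only [map_add, map_smul, ct_e, lc_s, smul_smul, ← add_smul] at h
  rw [← Algebra.algebraMap_eq_smul_one, ExteriorAlgebra.algebraMap_eq_zero_iff] at h
  linear_combination h

end Pool.Agent.H65.GolP
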