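import Mathlib
import Pool.Agent.H65.GolP1
import Pool.Agent.H65.GolP3

set_option autoImplicit false
set_option maxHeartbeats 2000000
open MvPolynomial Pool.Agent.H65.GolD

namespace Pool.Agent.H65.GolP

theorem split4 {P Q : Mo → Prop} {p : S} (h : W P p)
    (hPQ : ∀ m, P m → (1 ≤ m 0 ∧ Q (m - Finsupp.single 0 1)) ∨ (1 ≤ m 1 ∧ Q (m - Finsupp.single 1 1))
      ∨ (1 ≤ m 2 ∧ Q (m - Finsupp.single 2 1)) ∨ (1 ≤ m 3 ∧ Q (m - Finsupp.single 3 1))) :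
    ∃ s0 s1 s2 s3 : S, W Q s0 ∧ W Q s1 ∧ W Q s2 ∧ W Q s3 ∧
      p = X 0 * s0 + X 1 * s1 + X 2 * s2 + X 3 * s3 := by
  obtain ⟨a0, r, rfl, k0, kr⟩ := split (wt p) (h.mono hPQ)
  obtain ⟨a1, r, rfl, k1, kr⟩ := split (wt r) (kr.mono fun _ h => h.2)
  obtain ⟨a2, a3, rfl, k2, k3⟩ := split (wt r) (kr.mono fun _ h => h.2)
  obtain ⟨s0, rfl, l0⟩ := wdiv 0 k0 fun _ h => h.2.1
  obtain ⟨s1, rfl, l1⟩ := wdiv 1 k1 fun _ h => h.2.1
  obtain ⟨s2, rfl, l2⟩ := wdiv 2 k2 fun _ h => h.2.1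
  obtain ⟨s3, rfl, l3⟩ := wdiv 3 k3 fun _ h => h.2.1
  exact ⟨s0, s1, s2, s3, l0.mono fun _ h => by simpa using h.2.2,
    l1.mono fun _ h => by simpa using h.2.2, l2.mono fun _ h => by simpa using h.2.2,
    l3.mono fun _ h => by simpa using h.2.2, by ring⟩

theorem wmul2 {P Q T : Mo → Prop} {p q : S} (hp : W P p) (hq : W Q q)
    (h : ∀ s t, P s → Q t → T (s + t)) : W T (p * q) := by
  classical
  intro m hm
  obtain ⟨s, hs, t, ht, rfl⟩ := Finset.mem_add.1 (support_mul p q (mem_support_iff.2 hm))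
  exact h s t (hp s (mem_support_iff.1 hs)) (hq t (mem_support_iff.1 ht))

def D (k : ℕ) (m : Mo) : Prop := k ≤ m 0 + m 1 + m 2 + m 3

def P2 (m : Mo) : Prop :=
  ((4 ≤ m 0 ∨ 4 ≤ m 1 ∨ 4 ≤ m 2 ∨ 4 ≤ m 3) ∧ 5 ≤ m 0 + m 1 + m 2 + m 3) ∨
    (3 ≤ m 0 ∧ 3 ≤ m 1 ∧ 3 ≤ m 2 ∧ 3 ≤ m 3)

def PS (m : Mo) : Prop :=
  (4 ≤ m 0 ∨ 4 ≤ m 1 ∨ 4 ≤ m 2 ∨ 4 ≤ m 3) ∨ (2 ≤ m 0 ∧ 3 ≤ m 1 ∧ 3 ≤ m 2 ∧ 3 ≤ m 3)

theorem up4 {s m : Mo} (h : s ≤ m) : s 0 ≤ m 0 ∧ s 1 ≤ m 1 ∧ s 2 ≤ m 2 ∧ s 3 ≤ m 3 :=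
  ⟨h 0, h 1, h 2, h 3⟩

theorem D_up (k : ℕ) (s m : Mo) (h : s ≤ m) (h' : D k s) : D k m := by
  have := up4 h
  unfold D at *
  omega

theorem P2_up (s m : Mo) (h : s ≤ m) (h' : P2 s) : P2 m := by
  have := up4 h
  unfold P2 at *
  omega

theorem mk0 {P : Mo → Prop} (hP : ∀ s m, s ≤ m → P s → P m) {p : S} :
    Ideal.Quotient.mk (U P) p = 0 ↔ W P p := by
  rw [Ideal.Quotient.eq_zero_iff_mem, mem_U hP]

theorem xm (I : Ideal S) (i : Fin 4) (a : S ⧸ I) : xs I i * a ∈ mx (xs I) :=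
  Ideal.mul_mem_right _ _ (Ideal.subset_span ⟨i, rfl⟩)

theorem D1_mem (I : Ideal S) {p : S} (h : W (D 1) p) : Ideal.Quotient.mk I p ∈ mx (xs I) := by
  obtain ⟨s0, s1, s2, s3, -, -, -, -, rfl⟩ := split4 (Q := fun _ => True) h fun m h => by
    unfold D at h
    simp only [and_true]
    omega
  simp only [map_add, map_mul]
  exact add_mem (add_mem (add_mem (xm I 0 _) (xm I 1 _)) (xm I 2 _)) (xm I 3 _)

theorem deg1 {P Q : Mo → Prop} {I : Ideal S} (hI : ∀ p ∈ I, W P p)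
    (hPQ : ∀ m, P m → (1 ≤ m 0 ∧ Q (m - Finsupp.single 0 1)) ∨ (1 ≤ m 1 ∧ Q (m - Finsupp.single 1 1))
      ∨ (1 ≤ m 2 ∧ Q (m - Finsupp.single 2 1)) ∨ (1 ≤ m 3 ∧ Q (m - Finsupp.single 3 1)))
    (v : Fin 4 → S ⧸ I)
    (h : xs I 0 * v 0 + xs I 1 * v 1 + xs I 2 * v 2 + xs I 3 * v 3 = 0) :
    ∃ (s0 s1 s2 s3 : S) (a b c d f g : S ⧸ I), W Q s0 ∧ W Q s1 ∧ W Q s2 ∧ W Q s3 ∧
      v 0 = Ideal.Quotient.mk I s0 + (xs I 1 * a + xs I 2 * b + xs I 3 * c) ∧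
      v 1 = Ideal.Quotient.mk I s1 + (xs I 0 * (-a) + xs I 2 * d + xs I 3 * f) ∧
      v 2 = Ideal.Quotient.mk I s2 + (xs I 0 * (-b) + xs I 1 * (-d) + xs I 3 * g) ∧
      v 3 = Ideal.Quotient.mk I s3 + (xs I 0 * (-c) + xs I 1 * (-f) + xs I 2 * (-g)) := by
  choose p hp using fun i => Ideal.Quotient.mk_surjective (v i)
  have h1 : X 0 * p 0 + X 1 * p 1 + X 2 * p 2 + X 3 * p 3 ∈ I := by
    rw [← Ideal.Quotient.eq_zero_iff_mem]
    simp only [map_add, map_mul, hp]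
    exact h
  obtain ⟨s0, s1, s2, s3, k0, k1, k2, k3, h2⟩ := split4 (hI _ h1) hPQ
  obtain ⟨a, b, c, d, f, g, -, -, -, -, -, -, e0, e1, e2, e3⟩ :=
    syz (wt (p 0 - s0)) (wt (p 1 - s1)) (wt (p 2 - s2)) (wt (p 3 - s3)) (by linear_combination h2)
  have f0 := congrArg (Ideal.Quotient.mk I) e0
  have f1 := congrArg (Ideal.Quotient.mk I) e1
  have f2 := congrArg (Ideal.Quotient.mk I) e2
  have f3 := congrArg (Ideal.Quotient.mk I) e3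
  simp only [map_add, map_sub, map_mul, map_neg, hp] at f0 f1 f2 f3
  refine ⟨s0, s1, s2, s3, Ideal.Quotient.mk I a, Ideal.Quotient.mk I b, Ideal.Quotient.mk I c,
    Ideal.Quotient.mk I d, Ideal.Quotient.mk I f, Ideal.Quotient.mk I g, k0, k1, k2, k3, ?_, ?_,
    ?_, ?_⟩ <;> simp only [xs]
  · linear_combination f0
  · linear_combination f1
  · linear_combination f2
  · linear_combination f3

theorem hJ {I : Ideal S} (hI : ∀ p ∈ I, W (D 2) p) (v : Fin 4 → S ⧸ I)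
    (h : xs I 0 * v 0 + xs I 1 * v 1 + xs I 2 * v 2 + xs I 3 * v 3 = 0) : ∀ i, v i ∈ mx (xs I) := by
  obtain ⟨s0, s1, s2, s3, a, b, c, d, f, g, k0, k1, k2, k3, e0, e1, e2, e3⟩ :=
    deg1 (Q := D 1) hI (fun m h => by
      simp [D, Finsupp.single_apply] at h ⊢
      omega) v h
  have key : ∀ {s : S} {i j k : Fin 4} {a b c : S ⧸ I}, W (D 1) s →
      Ideal.Quotient.mk I s + (xs I i * a + xs I j * b + xs I k * c) ∈ mx (xs I) :=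
    fun h => add_mem (D1_mem I h) (add_mem (add_mem (xm I _ _) (xm I _ _)) (xm I _ _))
  intro i
  fin_cases i
  · exact e0 ▸ key k0
  · exact e1 ▸ key k1
  · exact e2 ▸ key k2
  · exact e3 ▸ key k3

theorem kills {I : Ideal S} {t : S ⧸ I} (h : ∀ i, xs I i * t = 0) {r : S ⧸ I}
    (hr : r ∈ mx (xs I)) : r * t = 0 := by
  induction hr using Submodule.span_induction with
  | mem z hz => obtain ⟨i, rfl⟩ := hz; exact h i
  | zero => simp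
  | add a b _ _ h1 h2 => rw [add_mul, h1, h2, add_zero]
  | smul a b _ h1 => rw [smul_eq_mul, mul_assoc, h1, mul_zero]

theorem wX (i : Fin 4) : W (fun m => m = Finsupp.single i 1) (X i : S) := by
  classical
  intro m hm
  rw [coeff_X] at hm
  by_contra h
  exact hm (if_neg fun h' => h h'.symm)

theorem golod1 : IsGolod (U (D 2)) := by
  refine golod_of _ (fun _ => Set.univ) (hJ fun p hp => (mem_U (D_up 2)).1 hp)
    (fun n _ z hz _ => ⟨0, by simpa using hz, trivial⟩) fun i j _ _ a _ b _ ha hb _ _ => ?_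
  refine inv_mul0 (fun p hp q hq => kills (fun i => ?_) hp) ha hb
  rw [mul_comm]
  refine kills (fun j => ?_) hq
  rw [xs, xs, ← map_mul, mk0 (D_up 2)]
  refine wmul2 (wX j) (wX i) ?_
  rintro _ _ rfl rfl
  fin_cases i <;> fin_cases j <;> simp [D, Finsupp.single_apply]

end Pool.Agent.H65.GolP
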