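import Mathlib
import Pool.Agent.H65.GolP4

set_option autoImplicit false
set_option maxHeartbeats 2000000
open MvPolynomial Pool.Agent.H65.GolD

namespace Pool.Agent.H65.GolP

abbrev R2 := S ⧸ U P2

noncomputable def Soc : Ideal R2 where
  carrier := {t | ∀ i, xs (U P2) i * t = 0}
  zero_mem' := fun _ => mul_zero _
  add_mem' := fun ha hb i => by rw [mul_add, ha i, hb i, add_zero]
  smul_mem' := fun c t h i => by rw [smul_eq_mul, mul_left_comm, h i, mul_zero]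

theorem soc_mem {s : S} (h : W PS s) : Ideal.Quotient.mk (U P2) s ∈ Soc := by
  intro i
  rw [xs, ← map_mul, mk0 P2_up]
  refine wmul2 (wX i) h ?_
  rintro _ t rfl ht
  unfold PS at ht
  fin_cases i <;> simp [P2] <;> omega

def NN : ℕ → Set (E R2)
  | 1 => (Soc • (⊤ : Submodule R2 (E R2)) : Submodule R2 (E R2))
  | 2 => {z | ∃ a b c d f g : S, W (P' P2 0 1) a ∧ W (P' P2 0 2) b ∧ W (P' P2 0 3) c ∧
      W (P' P2 1 2) d ∧ W (P' P2 1 3) f ∧ W (P' P2 2 3) g ∧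
      z = f2 (Ideal.Quotient.mk _ a) (Ideal.Quotient.mk _ b) (Ideal.Quotient.mk _ c)
        (Ideal.Quotient.mk _ d) (Ideal.Quotient.mk _ f) (Ideal.Quotient.mk _ g)}
  | _ => Set.univ

theorem pp {i j k l : Fin 4} {p q : S} (hp : W (P' P2 i j) p) (hq : W (P' P2 k l) q)
    (h : ∀ s t, P' P2 i j s → P' P2 k l t → P2 (s + t)) :
    Ideal.Quotient.mk (U P2) p * Ideal.Quotient.mk (U P2) q = 0 := by
  rw [← map_mul, mk0 P2_up]
  exact wmul2 hp hq h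

theorem c1 (s t : Mo) (h : P' P2 0 1 s) (h' : P' P2 2 3 t) : P2 (s + t) := by
  simp [P', P2, Finsupp.single_apply] at h h' ⊢
  omega
theorem c2 (s t : Mo) (h : P' P2 0 2 s) (h' : P' P2 1 3 t) : P2 (s + t) := by
  simp [P', P2, Finsupp.single_apply] at h h' ⊢
  omega
theorem c3 (s t : Mo) (h : P' P2 0 3 s) (h' : P' P2 1 2 t) : P2 (s + t) := by
  simp [P', P2, Finsupp.single_apply] at h h' ⊢
  omega

theorem sig_not : ¬ W P2 (1 : S) := fun h => by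
  have := h 0 (by simp)
  simp [P2] at this

theorem ar1 (a b c d : ℕ) (h : ((4 ≤ a ∨ 4 ≤ b ∨ 4 ≤ c ∨ 4 ≤ d) ∧ 5 ≤ a + b + c + d) ∨
    (3 ≤ a ∧ 3 ≤ b ∧ 3 ≤ c ∧ 3 ≤ d)) :
    (1 ≤ a ∧ ((5 ≤ a ∨ 4 ≤ b ∨ 4 ≤ c ∨ 4 ≤ d) ∨ (3 ≤ a ∧ 3 ≤ b ∧ 3 ≤ c ∧ 3 ≤ d))) ∨
    (1 ≤ b ∧ (4 ≤ a ∨ 5 ≤ b ∨ 4 ≤ c ∨ 4 ≤ d)) ∨ (1 ≤ c ∧ (4 ≤ a ∨ 4 ≤ b ∨ 5 ≤ c ∨ 4 ≤ d)) ∨
    (1 ≤ d ∧ (4 ≤ a ∨ 4 ≤ b ∨ 4 ≤ c ∨ 5 ≤ d)) := by omega

theorem P2_split (m : Mo) (h : P2 m) :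
    (1 ≤ m 0 ∧ PS (m - Finsupp.single 0 1)) ∨ (1 ≤ m 1 ∧ PS (m - Finsupp.single 1 1))
      ∨ (1 ≤ m 2 ∧ PS (m - Finsupp.single 2 1)) ∨ (1 ≤ m 3 ∧ PS (m - Finsupp.single 3 1)) := by
  rcases ar1 _ _ _ _ h with h | h | h | h
  · refine Or.inl ⟨h.1, ?_⟩
    simp [PS]
    omega
  · refine Or.inr (Or.inl ⟨h.1, Or.inl ?_⟩)
    simp
    omega
  · refine Or.inr (Or.inr (Or.inl ⟨h.1, Or.inl ?_⟩))
    simp
    omega
  · refine Or.inr (Or.inr (Or.inr ⟨h.1, Or.inl ?_⟩))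
    simp
    omega

theorem gen1 {A : Type} [CommRing A] (x v : Fin 4 → A) {s0 s1 s2 s3 a b c d f g : A}
    (e0 : v 0 = s0 + (x 1 * a + x 2 * b + x 3 * c))
    (e1 : v 1 = s1 + (x 0 * (-a) + x 2 * d + x 3 * f))
    (e2 : v 2 = s2 + (x 0 * (-b) + x 1 * (-d) + x 3 * g))
    (e3 : v 3 = s3 + (x 0 * (-c) + x 1 * (-f) + x 2 * (-g))) :
    ExteriorAlgebra.ι A v - dd x (f2 (-a) (-b) (-c) (-d) (-f) (-g)) =
      s0 • e A 0 + s1 • e A 1 + s2 • e A 2 + s3 • e A 3 := by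
  rw [d_f2, iota_eq, e0, e1, e2, e3]
  module

theorem cyc1 (z : E R2) (hz : z ∈ ⋀[R2]^1 (Fin 4 → R2)) (h : dd (xs (U P2)) z = 0) :
    ∃ y, z - dd (xs (U P2)) y ∈ ⋀[R2]^1 (Fin 4 → R2) ∧ z - dd (xs (U P2)) y ∈ NN 1 := by
  obtain ⟨v, rfl⟩ := K1 z hz
  obtain ⟨s0, s1, s2, s3, a, b, c, d, f, g, k0, k1, k2, k3, e0, e1, e2, e3⟩ :=
    deg1 (Q := PS) (fun p hp => (mem_U P2_up).1 hp) P2_split v (d_i _ v h)
  refine ⟨f2 (-a) (-b) (-c) (-d) (-f) (-g), sub_mem hz (ct_mem _ (f2_mem _ _ _ _ _ _)).1, ?_⟩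
  rw [gen1 _ v e0 e1 e2 e3]
  exact add_mem (add_mem (add_mem (Submodule.smul_mem_smul (soc_mem k0) trivial)
    (Submodule.smul_mem_smul (soc_mem k1) trivial)) (Submodule.smul_mem_smul (soc_mem k2) trivial))
    (Submodule.smul_mem_smul (soc_mem k3) trivial)

theorem f2_sub {A : Type} [CommRing A] (a b c d f g a' b' c' d' f' g' : A) :
    f2 (a + a') (b + b') (c + c') (d + d') (f + f') (g + g') - f2 a' b' c' d' f' g' =
      f2 a b c d f g := by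
  unfold f2
  module

theorem d_f3' {A : Type} [CommRing A] (x : Fin 4 → A) (p q r s : A) : ∃ y,
    dd x y = f2 (x 2 * p + x 3 * q) (-(x 1 * p) + x 3 * r) (-(x 1 * q) - x 2 * r)
      (x 0 * p + x 3 * s) (x 0 * q - x 2 * s) (x 0 * r + x 1 * s) := ⟨_, d_f3 x p q r s⟩

theorem cyc2 (z : E R2) (hz : z ∈ ⋀[R2]^2 (Fin 4 → R2)) (h : dd (xs (U P2)) z = 0) :
    ∃ y, z - dd (xs (U P2)) y ∈ ⋀[R2]^2 (Fin 4 → R2) ∧ z - dd (xs (U P2)) y ∈ NN 2 := by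
  obtain ⟨a, b, c, d, f, g, hh⟩ := K2 z hz
  change z = f2 a b c d f g at hh
  subst hh
  rw [d_f2] at h
  obtain ⟨h0, h1, h2, h3⟩ := lin1 h
  obtain ⟨a, rfl⟩ := Ideal.Quotient.mk_surjective a
  obtain ⟨b, rfl⟩ := Ideal.Quotient.mk_surjective b
  obtain ⟨c, rfl⟩ := Ideal.Quotient.mk_surjective c
  obtain ⟨d, rfl⟩ := Ideal.Quotient.mk_surjective d
  obtain ⟨f, rfl⟩ := Ideal.Quotient.mk_surjective f
  obtain ⟨g, rfl⟩ := Ideal.Quotient.mk_surjective g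
  simp only [xs] at h0 h1 h2 h3
  have w0 : W P2 (X 1 * a + X 2 * b + X 3 * c) := (mk0 P2_up).1 (by
    simp only [map_add, map_mul]; linear_combination -h0)
  have w1 : W P2 (-(X 0 * a) + X 2 * d + X 3 * f) := (mk0 P2_up).1 (by
    simp only [map_add, map_mul, map_neg]; linear_combination -h1)
  have w2 : W P2 (-(X 0 * b) - X 1 * d + X 3 * g) := (mk0 P2_up).1 (by
    simp only [map_add, map_mul, map_neg, map_sub]; linear_combination -h2)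
  have w3 : W P2 (-(X 0 * c) - X 1 * f - X 2 * g) := (mk0 P2_up).1 (by
    simp only [map_mul, map_neg, map_sub]; linear_combination -h3)
  obtain ⟨a', b', c', d', f', g', k1, k2, k3, k4, k5, k6, e0, e1, e2, e3⟩ :=
    syz w0 w1 w2 w3 (by ring)
  obtain ⟨p, q, r, s, l1, l2, l3, l4, l5, l6⟩ := exact2 (a01 := a - a') (a02 := b - b')
    (a03 := c - c') (a12 := d - d') (a13 := f - f') (a23 := g - g') (by linear_combination e1)
    (by linear_combination e2) (by linear_combination e3)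
  obtain rfl := sub_eq_iff_eq_add'.1 l1
  obtain rfl := sub_eq_iff_eq_add'.1 l2
  obtain rfl := sub_eq_iff_eq_add'.1 l3
  obtain rfl := sub_eq_iff_eq_add'.1 l4
  obtain rfl := sub_eq_iff_eq_add'.1 l5
  obtain rfl := sub_eq_iff_eq_add'.1 l6
  obtain ⟨y, this⟩ := d_f3' (xs (U P2)) (Ideal.Quotient.mk _ p) (Ideal.Quotient.mk _ q)
    (Ideal.Quotient.mk _ r) (Ideal.Quotient.mk _ s)
  refine ⟨y, ?_, a', b', c', d', f', g', k1, k2, k3, k4, k5, k6, ?_⟩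
  · rw [this]
    exact sub_mem (f2_mem _ _ _ _ _ _) (f2_mem _ _ _ _ _ _)
  · rw [this]
    simp only [map_add, map_mul, map_neg, map_sub, xs]
    exact f2_sub _ _ _ _ _ _ _ _ _ _ _ _

theorem golod2 : IsGolod (U P2) := by
  have : Nontrivial R2 := ⟨⟨Ideal.Quotient.mk _ 1, 0, fun h => sig_not ((mk0 P2_up).1 h)⟩⟩
  refine golod_of _ NN (hJ fun p hp => ((mem_U P2_up).1 hp).mono fun m h => by
    unfold P2 at h; unfold D; omega) (fun n hn z hz h => ?_) fun i j hi hj a ha b hb ha' hb' h1 h2 => ?_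
  · match n, hn with
    | 1, _ => exact cyc1 z hz h
    | 2, _ => exact cyc2 z hz h
    | _ + 3, _ => exact ⟨0, by simpa using hz, trivial⟩
  · by_cases hi1 : i = 1
    · subst hi1
      exact inv_mul0 (J := Soc) (fun p hp q hq => by rw [mul_comm]; exact kills hp hq) h1 hb'
    by_cases hj1 : j = 1
    · subst hj1
      exact inv_mul0 (J' := Soc) (fun p hp q hq => kills hq hp) ha' h2
    by_cases h5 : 5 ≤ i + j
    · exact K5 h5 (mul_mem' (inv_mem ha) hb)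
    obtain rfl : i = 2 := by omega
    obtain rfl : j = 2 := by omega
    obtain ⟨a, b, c, d, f, g, k1, k2, k3, k4, k5, k6, rfl⟩ := h1
    obtain ⟨a', b', c', d', f', g', l1, l2, l3, l4, l5, l6, rfl⟩ := h2
    exact f2_mul (pp k1 l6 c1) (pp k2 l5 c2) (pp k3 l4 c3)
      (by rw [mul_comm]; exact pp l3 k4 c3) (by rw [mul_comm]; exact pp l2 k5 c2)
      (by rw [mul_comm]; exact pp l1 k6 c1)

end Pool.Agent.H65.GolP
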