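import Mathlib
import Pool.Agent.H65.GolP4

set_option autoImplicit false
set_option maxHeartbeats 2000000
open MvPolynomial Pool.Agent.H65.GolD

namespace Pool.Agent.H65.GolP

theorem wmono {P : Mo → Prop} {p : S} (a b c d : ℕ)
    (hp : p = X 0 ^ a * X 1 ^ b * X 2 ^ c * X 3 ^ d)
    (h : ∀ m : Mo, m 0 = a → m 1 = b → m 2 = c → m 3 = d → P m) : W P p := by
  classical
  intro m hm
  rw [hp, X_pow_eq_monomial, X_pow_eq_monomial, X_pow_eq_monomial, X_pow_eq_monomial,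
    monomial_mul, monomial_mul, monomial_mul, coeff_monomial] at hm
  split_ifs at hm with h1
  · subst h1
    apply h <;> simp [Finsupp.single_apply]
  · exact absurd rfl hm

theorem pm {p q r : S} (a b c d a' b' c' d' : ℕ) (hr : r = p * q)
    (hp : p = X 0 ^ a * X 1 ^ b * X 2 ^ c * X 3 ^ d)
    (hq : q = X 0 ^ a' * X 1 ^ b' * X 2 ^ c' * X 3 ^ d') (h1 : 2 ≤ a + b + c + d)
    (h2 : (4 ≤ a' ∨ 4 ≤ b' ∨ 4 ≤ c' ∨ 4 ≤ d') ∧ 5 ≤ a' + b' + c' + d') :
    Ideal.Quotient.mk (U (D 2) * U P2) r = 0 := by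
  rw [Ideal.Quotient.eq_zero_iff_mem, hr]
  exact Ideal.mul_mem_mul ((mem_U (D_up 2)).2 (wmono a b c d hp fun m _ _ _ _ => by
    unfold D; omega)) ((mem_U P2_up).2 (wmono a' b' c' d' hq fun m _ _ _ _ => by
    unfold P2; omega))

theorem not_golod12 : ¬ IsGolod (U (D 2) * U P2) := by
  intro h
  have h1 := not_golod _ h (a := Ideal.Quotient.mk _ (X 0 ^ 3 * X 1 ^ 3))
    (b := Ideal.Quotient.mk _ (X 2 ^ 3 * X 3 ^ 3))
    (by rw [xs, ← map_mul]; exact pm 0 2 0 0 4 1 0 0 (by ring) rfl rfl (by omega) (by omega))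
    (by rw [xs, ← map_mul]; exact pm 2 0 0 0 1 4 0 0 (by ring) rfl rfl (by omega) (by omega))
    (by rw [xs, ← map_mul]; exact pm 0 0 0 2 0 0 4 1 (by ring) rfl rfl (by omega) (by omega))
    (by rw [xs, ← map_mul]; exact pm 0 0 2 0 0 0 1 4 (by ring) rfl rfl (by omega) (by omega))
  rw [← map_mul, Ideal.Quotient.eq_zero_iff_mem] at h1
  have h2 : ∀ p ∈ U (D 2) * U P2, W (fun m => ¬(m 0 = 3 ∧ m 1 = 3 ∧ m 2 = 3 ∧ m 3 = 3)) p := by
    intro p hp
    refine Submodule.mul_induction_on hp (fun a ha b hb => ?_) fun a b => W.add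
    refine wmul2 ((mem_U (D_up 2)).1 ha) ((mem_U P2_up).1 hb) fun s t hs ht => ?_
    simp only [D, P2, Finsupp.add_apply] at hs ht ⊢
    omega
  have h3 := (h2 _ h1).and (wmono (P := fun m => m 0 = 3 ∧ m 1 = 3 ∧ m 2 = 3 ∧ m 3 = 3) 3 3 3 3
    (by ring) fun _ a b c d => ⟨a, b, c, d⟩)
  have h4 : (X 0 ^ 3 * X 1 ^ 3 * (X 2 ^ 3 * X 3 ^ 3) : S) = 0 := by
    ext m
    by_contra h5
    exact (h3 m h5).1 (h3 m h5).2
  simp [X_ne_zero] at h4

theorem le_sq {P : Mo → Prop} (h : ∀ m, P m → D 2 m) : U P ≤ idealOfVars (Fin 4) ℚ ^ 2 := by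
  rw [U, Ideal.span_le]
  rintro _ ⟨s, hs, rfl⟩
  have h1 : W (D 2) (monomial s (1 : ℚ)) := fun m hm => by
    classical
    rw [coeff_monomial] at hm
    split_ifs at hm with h1
    · exact h1 ▸ h s hs
    · exact absurd rfl hm
  have hx : ∀ i : Fin 4, (X i : S) ∈ idealOfVars (Fin 4) ℚ := fun i => Ideal.subset_span ⟨i, rfl⟩
  have h2 : ∀ p : S, W (D 1) p → p ∈ idealOfVars (Fin 4) ℚ := by
    intro p hp
    obtain ⟨s0, s1, s2, s3, -, -, -, -, rfl⟩ := split4 (Q := fun _ => True) hp fun m h => by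
      unfold D at h
      simp only [and_true]
      omega
    repeat' apply add_mem
    all_goals exact Ideal.mul_mem_right _ _ (hx _)
  obtain ⟨s0, s1, s2, s3, k0, k1, k2, k3, e⟩ := split4 (Q := D 1) h1 fun m h => by
    simp [D, Finsupp.single_apply] at h ⊢
    omega
  change monomial s (1 : ℚ) ∈ _
  rw [e, pow_two]
  repeat' apply add_mem
  all_goals exact Ideal.mul_mem_mul (hx _) (h2 _ ‹_›)

end Pool.Agent.H65.GolP
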