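import Mathlib
import Pool.Agent.H65.GolD2
import Pool.Agent.H65.GolP6

set_option autoImplicit false
set_option maxHeartbeats 2000000
open MvPolynomial Pool.Agent.H65.GolD

namespace Pool.Agent.H65.GolP

theorem prod_nz {A : Type} [CommRing A] (x : Fin 4 → A) {a b : A}
    (h0 : x 0 * a = 0) (h1 : x 1 * a = 0) (h2 : x 2 * b = 0) (h3 : x 3 * b = 0)
    (hab : a * b ≠ 0) : ProdNZ x := by
  have hz : dd x (a • (e A 0 * e A 1)) = 0 := by
    rw [map_smul, ct_ee, lc_s, lc_s, smul_sub, smul_smul, smul_smul, mul_comm, h0, mul_comm, h1]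
    simp
  have hz' : dd x (b • (e A 2 * e A 3)) = 0 := by
    rw [map_smul, ct_ee, lc_s, lc_s, smul_sub, smul_smul, smul_smul, mul_comm, h2, mul_comm, h3]
    simp
  refine ⟨a • (e A 0 * e A 1), Submodule.smul_mem _ a (ee_mem 0 1), b • (e A 2 * e A 3),
    Submodule.smul_mem _ b (ee_mem 2 3), hz, hz', fun y hy => hab ?_⟩
  have e3 : dd x y = a • (e A 0 * e A 1) * b • (e A 2 * e A 3) := hy
  rw [smul_mul_smul_comm, mul_assoc] at e3
  have e4 := top_ct x y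
  rw [e3] at e4
  simp only [map_smul, top_e] at e4
  rwa [← Algebra.algebraMap_eq_smul_one, ExteriorAlgebra.algebraMap_eq_zero_iff] at e4

theorem homProd12 : HomProd (U (D 2) * U P2) := by
  refine prod_nz _ (a := Ideal.Quotient.mk _ (X 0 ^ 3 * X 1 ^ 3))
    (b := Ideal.Quotient.mk _ (X 2 ^ 3 * X 3 ^ 3))
    (by rw [xs, ← map_mul]; exact pm 0 2 0 0 4 1 0 0 (by ring) rfl rfl (by omega) (by omega))
    (by rw [xs, ← map_mul]; exact pm 2 0 0 0 1 4 0 0 (by ring) rfl rfl (by omega) (by omega))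
    (by rw [xs, ← map_mul]; exact pm 0 0 0 2 0 0 4 1 (by ring) rfl rfl (by omega) (by omega))
    (by rw [xs, ← map_mul]; exact pm 0 0 2 0 0 0 1 4 (by ring) rfl rfl (by omega) (by omega))
    fun h1 => ?_
  rw [← map_mul, Ideal.Quotient.eq_zero_iff_mem] at h1
  have h2 : ∀ p ∈ U (D 2) * U P2, W (fun m => ¬(m 0 = 3 ∧ m 1 = 3 ∧ m 2 = 3 ∧ m 3 = 3)) p := by
    intro p hp
    refine Submodule.mul_induction_on hp (fun a ha b hb => ?_) fun a b => W.add
    refine wmul2 ((mem_U (D_up 2)).1 ha) ((mem_U P2_up).1 hb) fun s t hs ht => ?_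
    simp only [D, P2, Finsupp.add_apply] at hs ht ⊢
    omega
  have h3 := (h2 _ h1).and (wmono (P := fun m => m 0 = 3 ∧ m 1 = 3 ∧ m 2 = 3 ∧ m 3 = 3) 3 3 3 3
    (by ring) fun _ a b c d => ⟨a, b, c, d⟩)
  have h4 : (X 0 ^ 3 * X 1 ^ 3 * (X 2 ^ 3 * X 3 ^ 3) : S) = 0 := by
    ext m
    by_contra h5
    exact (h3 m h5).1 (h3 m h5).2
  simp [X_ne_zero] at h4

theorem P2_D (m : Mo) (h : P2 m) : D 2 m := by
  unfold P2 at h
  unfold D
  omega

end Pool.Agent.H65.GolP
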