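import Mathlib

set_option autoImplicit false

/-! The ring `F_2[[T]]`, the character `z ↦ (1+T)^z` of `ℤ_2`, closed submodules. -/
namespace Pool.Agent.H65.Lamp
open PowerSeries
open scoped PowerSeries.WithPiTopology

abbrev A := PowerSeries (ZMod 2)

instance : CompactSpace A := inferInstanceAs (CompactSpace ((Unit →₀ ℕ) → ZMod 2))
instance : TotallyDisconnectedSpace A :=
  inferInstanceAs (TotallyDisconnectedSpace ((Unit →₀ ℕ) → ZMod 2))
instance : CharP A 2 := charP_of_injective_algebraMap (algebraMap (ZMod 2) A).injective 2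

lemma cont_mk {Y : Type*} [TopologicalSpace Y] {f : Y → A}
    (h : ∀ n, Continuous fun y => coeff n (f y)) : Continuous f :=
  continuous_iff_continuousAt.2 fun y =>
    (WithPiTopology.tendsto_iff_coeff_tendsto (ZMod 2) _ _ _).2 fun n => (h n).tendsto y

lemma cont_toZMod : Continuous (PadicInt.toZMod : ℤ_[2] → ZMod 2) := by
  refine continuous_of_continuousAt_zero (PadicInt.toZMod (p := 2)) ?_
  rw [ContinuousAt, map_zero, nhds_discrete (ZMod 2), Filter.tendsto_pure]
  filter_upwards [Metric.ball_mem_nhds (0 : ℤ_[2]) one_pos] with x hx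
  rw [← RingHom.mem_ker, PadicInt.ker_toZMod, IsLocalRing.mem_maximalIdeal, PadicInt.mem_nonunits]
  simpa using hx

noncomputable def E (z : ℤ_[2]) : A := PowerSeries.map PadicInt.toZMod (binomialSeries ℤ_[2] z)

lemma E_add (z w : ℤ_[2]) : E (z + w) = E z * E w := by simp [E, binomialSeries_add]

lemma E_nat (n : ℕ) : E n = (1 + X) ^ n := by simp [E, binomialSeries_nat]

lemma E_zero : E 0 = 1 := by simpa using E_nat 0

lemma E_one : E 1 = 1 + X := by simpa using E_nat 1

lemma E_mul (n : ℕ) (z : ℤ_[2]) : E (n * z) = E z ^ n := by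
  induction n with
  | zero => simp [E_zero]
  | succ n ih => rw [Nat.cast_succ, add_mul, E_add, ih, one_mul, pow_succ]

lemma cont_E : Continuous E := cont_mk fun n => by
  simpa [E, Function.comp_def] using cont_toZMod.comp (PadicInt.continuous_choose n)

lemma cc_E (z : ℤ_[2]) : constantCoeff (E z) = 1 := by
  rw [← coeff_zero_eq_constantCoeff_apply]; simp [E]

lemma E_inj {z : ℤ_[2]} (h : E z = 1) : z = 0 := by
  by_contra n
  have e := PadicInt.unitCoeff_spec n
  generalize PadicInt.unitCoeff n = u at e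
  generalize z.valuation = k at e
  rw [e, mul_comm, ← Nat.cast_pow, E_mul] at h
  have : (E u - 1) ^ 2 ^ k = 0 := by rw [sub_pow_char_pow, h]; simp
  have := congrArg (coeff 1) (sub_eq_zero.1 (pow_eq_zero_iff (by positivity) |>.1 this))
  simp [E, coeff_one] at this
  exact (u.isUnit.map PadicInt.toZMod).ne_zero this

lemma z2 : ∀ c : ZMod 2, c = 0 ∨ c = 1 := by decide

lemma dens (C : AddSubgroup A) (hC : IsClosed (C : Set A)) (h : ∀ n, X ^ n ∈ C) (f : A) :
    f ∈ C := by
  refine hC.mem_of_tendsto (hasSum_of_monomials_self f)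
    (Filter.Eventually.of_forall fun s => C.sum_mem fun n _ => ?_)
  rw [monomial_eq_C_mul_X_pow]
  generalize coeff n f = c
  rcases z2 c with rfl | rfl
  · simp
  · simpa using h n

lemma smul_mem (k : ℕ) (B : AddSubgroup A) (hB : IsClosed (B : Set A))
    (h : ∀ b ∈ B, X ^ 2 ^ k * b ∈ B) (r : A) {b : A} (hb : b ∈ B) : r ^ 2 ^ k * b ∈ B := by
  have hc : IsClosed ((fun r : A => r ^ 2 ^ k * b) ⁻¹' B) := hB.preimage (by fun_prop)
  refine dens (B.comap ((AddMonoidHom.mulRight b).comp (iterateFrobenius A 2 k).toAddMonoidHom))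
    (by convert hc using 1; ext r; simp [iterateFrobenius_def]) (fun n => ?_) r
  change (X ^ n) ^ 2 ^ k * b ∈ B
  rw [← pow_mul, mul_comm n, pow_mul]
  induction n with
  | zero => simpa using hb
  | succ n ih => rw [pow_succ', mul_assoc]; exact h _ ih

def M (_ : ℕ) : Type := A

noncomputable instance (k : ℕ) : AddCommGroup (M k) := inferInstanceAs (AddCommGroup A)
noncomputable instance (k : ℕ) : Module A (M k) := Module.compHom A (iterateFrobenius A 2 k)

lemma basis (k : ℕ) (B : AddSubgroup A) (hB : IsClosed (B : Set A))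
    (h : ∀ b ∈ B, X ^ 2 ^ k * b ∈ B) : ∃ (n : ℕ) (e : Fin n → A), (∀ i, e i ∈ B) ∧
      (∀ b ∈ B, ∃ c : Fin n → A, ∑ i, c i ^ 2 ^ k * e i = b) ∧
      ∀ c : Fin n → A, ∑ i, c i ^ 2 ^ k * e i = 0 → c = 0 := by
  have : Module.Finite A (M k) := by
    let v : Fin (2 ^ k) → M k := fun i => (X ^ (i : ℕ) : A)
    refine Module.finite_def.2 (Submodule.fg_iff_exists_fin_generating_family.2 ⟨_, v, ?_⟩)
    refine eq_top_iff.2 fun f _ => dens (Submodule.span A (Set.range v)).toAddSubgroup ?_ (fun n => ?_) f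
    · have : Continuous fun c : Fin (2 ^ k) → A => ∑ i, c i ^ 2 ^ k * X ^ (i : ℕ) := by fun_prop
      convert (isCompact_range this).isClosed using 1
      ext x
      exact Submodule.mem_span_range_iff_exists_fun (R := A) (v := v)
    · have := (Submodule.span A (Set.range v)).smul_mem (X ^ (n / 2 ^ k))
        (Submodule.subset_span ⟨⟨n % 2 ^ k, Nat.mod_lt _ (by positivity)⟩, rfl⟩)
      have e : (X : A) ^ n = (X ^ (n / 2 ^ k)) ^ 2 ^ k * X ^ (n % 2 ^ k) := by
        rw [← pow_mul, ← pow_add, Nat.div_add_mod']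
      rw [e]
      exact this
  have : Module.IsTorsionFree A (M k) := Module.IsTorsionFree.of_smul_eq_zero fun r m e =>
    (mul_eq_zero.1 (e : r ^ 2 ^ k * (show A from m) = 0)).imp_left eq_zero_of_pow_eq_zero
  let B' : Submodule A (M k) :=
    { carrier := B.carrier, add_mem' := B.add_mem, zero_mem' := B.zero_mem
      smul_mem' := fun r _ hb => smul_mem k B hB h r hb }
  obtain ⟨n, b⟩ := Module.basisOfFiniteTypeTorsionFree' (R := A) (M := B')
  refine ⟨n, fun i => (b i).1, fun i => (b i).2, fun x hx => ⟨b.repr ⟨x, hx⟩, ?_⟩, fun c hc => ?_⟩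
  · have := congrArg Subtype.val (b.sum_repr ⟨x, hx⟩)
    rw [AddSubmonoidClass.coe_finsetSum] at this
    exact this
  · refine funext (Fintype.linearIndependent_iff.1 b.linearIndependent c (Subtype.ext ?_))
    rw [AddSubmonoidClass.coe_finsetSum]
    exact hc

end Pool.Agent.H65.Lamp
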