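import Pool.Agent.H65.Lamp1

set_option autoImplicit false

/-! Pro-2 lamplighter groups and their virtual endomorphisms. -/
namespace Pool.Agent.H65.Lamp
open PowerSeries
open scoped PowerSeries.WithPiTopology

def Good {G : Type} [Group G] [TopologicalSpace G] (L : Subgroup G) : Prop :=
  ∃ H : Subgroup G, H ≤ L ∧ IsClosed (H : Set G) ∧ (H.subgroupOf L).index = 2 ∧
    ∃ f : H →* G, Continuous f ∧ (∀ h : H, f h ∈ L) ∧
      ∀ K : Subgroup G, ∀ hKH : K ≤ H,
        (∀ l ∈ L, ∀ k ∈ K, l * k * l⁻¹ ∈ K) →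
        (∀ k : G, ∀ hk : k ∈ K, f ⟨k, hKH hk⟩ ∈ K) → K = ⊥

lemma transport {G P Q : Type} [Group G] [TopologicalSpace G] [T2Space G] [Group P]
    [TopologicalSpace P] [Group Q] [TopologicalSpace Q] [CompactSpace Q]
    (Ψ : P →* G) (cΨ : Continuous Ψ) (iΨ : Function.Injective Ψ)
    (α β : Q →* P) (ca : Continuous α) (cb : Continuous β) (ia : Function.Injective α)
    (hi : ∃ a, ∀ b, Xor (b * a ∈ α.range) (b ∈ α.range))
    (hc : ∀ K : Subgroup P, K ≤ α.range → K.Normal → (∀ q, α q ∈ K → β q ∈ K) → ∀ k ∈ K, k = 1) :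
    Good Ψ.range := by
  have i : Function.Injective (Ψ.comp α) := iΨ.comp ia
  have m : ∀ p, Ψ p ∈ (Ψ.comp α).range ↔ p ∈ α.range := fun p =>
    ⟨fun ⟨q, h⟩ => ⟨q, iΨ h⟩, fun ⟨q, h⟩ => ⟨q, congrArg Ψ h⟩⟩
  refine ⟨(Ψ.comp α).range, fun _ ⟨q, h⟩ => ⟨α q, h⟩, (isCompact_range (cΨ.comp ca)).isClosed, ?_,
    (Ψ.comp β).comp (MonoidHom.ofInjective i).symm.toMonoidHom, (cΨ.comp cb).comp ?_,
    fun h => ⟨_, rfl⟩, fun K hK hn hf => ?_⟩
  · obtain ⟨a, ha⟩ := hi
    refine Subgroup.index_eq_two_iff.2 ⟨⟨Ψ a, a, rfl⟩, ?_⟩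
    rintro ⟨_, b, rfl⟩
    simp only [Subgroup.mem_subgroupOf, Subgroup.coe_mul, ← map_mul, m]
    exact ha b
  · exact Continuous.continuous_symm_of_equiv_compact_to_t2 (f := (MonoidHom.ofInjective i).toEquiv)
      ((cΨ.comp ca).subtype_mk _)
  · refine eq_bot_iff.2 fun k hk => ?_
    obtain ⟨q, rfl⟩ := hK hk
    have := hc (K.comap Ψ) (fun p hp => (m p).1 (hK hp))
      ⟨fun p hp l => by simpa using hn _ ⟨l, rfl⟩ _ hp⟩ (fun q hq => ?_) (α q) hk
    · simp [this]
    · have := hf _ hq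
      have e : (MonoidHom.ofInjective i).symm ⟨Ψ (α q), hK hq⟩ = q :=
        (MulEquiv.symm_apply_eq _).2 rfl
      simpa [e] using this

def Gr (V : Type) : Type := V × ℤ_[2]

section
variable {V : Type} [AddCommGroup V] [Module A V]

noncomputable instance : Mul (Gr V) := ⟨fun g h => (g.1 + E g.2 • h.1, g.2 + h.2)⟩
noncomputable instance : Inv (Gr V) := ⟨fun g => (-(E (-g.2) • g.1), -g.2)⟩
noncomputable instance : One (Gr V) := ⟨(0, 0)⟩

@[ext] lemma Gr.ext {V : Type} {g h : Gr V} (a : g.1 = h.1) (b : g.2 = h.2) : g = h := Prod.ext a b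
@[simp] lemma mul1 (g h : Gr V) : (g * h).1 = g.1 + E g.2 • h.1 := rfl
@[simp] lemma mul2 (g h : Gr V) : (g * h).2 = g.2 + h.2 := rfl
@[simp] lemma inv1 (g : Gr V) : (g⁻¹).1 = -(E (-g.2) • g.1) := rfl
@[simp] lemma inv2 (g : Gr V) : (g⁻¹).2 = -g.2 := rfl
omit [Module A V] in
@[simp] lemma one1 : (1 : Gr V).1 = 0 := rfl
omit [Module A V] in
@[simp] lemma one2 : (1 : Gr V).2 = 0 := rfl

def mk {V : Type} (v : V) (z : ℤ_[2]) : Gr V := (v, z)
@[simp] lemma mk1 {V : Type} (v : V) (z : ℤ_[2]) : (mk v z).1 = v := rfl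
@[simp] lemma mk2 {V : Type} (v : V) (z : ℤ_[2]) : (mk v z).2 = z := rfl

noncomputable instance : Group (Gr V) := Group.ofLeftAxioms
  (fun a b c => by ext <;> simp [E_add, mul_smul, add_assoc])
  (fun a => by ext <;> simp [E_zero]) fun a => by ext <;> simp

noncomputable instance [TopologicalSpace V] : TopologicalSpace (Gr V) :=
  inferInstanceAs (TopologicalSpace (V × ℤ_[2]))
instance [TopologicalSpace V] [CompactSpace V] : CompactSpace (Gr V) :=
  inferInstanceAs (CompactSpace (V × ℤ_[2]))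
instance [TopologicalSpace V] [T2Space V] : T2Space (Gr V) :=
  inferInstanceAs (T2Space (V × ℤ_[2]))
instance [TopologicalSpace V] [TotallyDisconnectedSpace V] : TotallyDisconnectedSpace (Gr V) :=
  inferInstanceAs (TotallyDisconnectedSpace (V × ℤ_[2]))

@[fun_prop] lemma c1 {V : Type} [TopologicalSpace V] : Continuous fun g : Gr V => g.1 := continuous_fst
@[fun_prop] lemma c2 {V : Type} [TopologicalSpace V] : Continuous fun g : Gr V => g.2 := continuous_snd
@[fun_prop] lemma cmk {V Y : Type} [TopologicalSpace V] [TopologicalSpace Y] {f : Y → V}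
    {g : Y → ℤ_[2]} (a : Continuous f) (b : Continuous g) : Continuous fun y => mk (f y) (g y) :=
  a.prodMk b
end

attribute [fun_prop] cont_E

instance : IsTopologicalGroup (Gr A) where
  continuous_mul := by
    change Continuous fun p : Gr A × Gr A => mk (p.1.1 + E p.1.2 * p.2.1) (p.1.2 + p.2.2)
    fun_prop
  continuous_inv := by
    change Continuous fun p : Gr A => mk (-(E (-p.2) * p.1)) (-p.2)
    fun_prop

lemma good_zero (Ψ : Gr (Fin 0 → A) →* Gr A) (c : Continuous Ψ) (i : Function.Injective Ψ) :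
    Good Ψ.range := by
  let α : Gr (Fin 0 → A) →* Gr (Fin 0 → A) :=
    MonoidHom.mk' (fun g => mk g.1 (2 * g.2)) fun a b =>
      Gr.ext (Subsingleton.elim _ _) (by simp [mul_add])
  have m : ∀ g, g ∈ α.range ↔ 2 ∣ g.2 := fun g =>
    ⟨fun ⟨q, h⟩ => ⟨q.2, h ▸ rfl⟩, fun ⟨w, h⟩ => ⟨mk 0 w, Gr.ext (Subsingleton.elim _ _) h.symm⟩⟩
  have d : ∀ z : ℤ_[2], 2 ∣ z ↔ PadicInt.toZMod z = 0 := fun z => by
    rw [← RingHom.mem_ker, PadicInt.ker_toZMod, PadicInt.maximalIdeal_eq_span_p,
      Ideal.mem_span_singleton]; rfl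
  refine transport Ψ c i α (MonoidHom.id _) (cmk c1 (by fun_prop)) continuous_id
    (fun a b h => Gr.ext (Subsingleton.elim _ _)
      (mul_left_cancel₀ two_ne_zero (congrArg (·.2) h))) ⟨mk 0 1, fun b => ?_⟩ fun K hK _ hf => ?_
  · simp only [m, d, mul2, mk2, map_add, map_one]
    rcases z2 (PadicInt.toZMod b.2) with h | h <;> rw [h] <;> decide
  · have : ∀ N : ℕ, ∀ k ∈ K, 2 ^ N ∣ k.2 := by
      intro N
      induction N with
      | zero => simp
      | succ N ih =>
        intro k hk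
        obtain ⟨q, rfl⟩ := hK hk
        rw [pow_succ']
        exact mul_dvd_mul_left 2 (ih q (hf q hk))
    refine fun k hk => Gr.ext (Subsingleton.elim _ _) (by_contra fun n => ?_)
    have e := PadicInt.unitCoeff_spec n
    have := this (k.2.valuation + 1) k hk
    generalize k.2.valuation = j at e this
    rw [e, pow_succ', Nat.cast_ofNat, mul_dvd_mul_iff_right (pow_ne_zero _ two_ne_zero), d] at this
    exact ((Units.isUnit _).map PadicInt.toZMod).ne_zero this

lemma good_succ {m : ℕ} (Ψ : Gr (Fin (m + 1) → A) →* Gr A) (c : Continuous Ψ)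
    (i : Function.Injective Ψ) : Good Ψ.range := by
  let α : Gr (Fin (m + 1) → A) →* Gr (Fin (m + 1) → A) :=
    MonoidHom.mk' (fun g => mk (Fin.cons (X * g.1 (Fin.last m)) fun i => g.1 i.castSucc) g.2)
      fun a b => Gr.ext (funext fun i => by
        refine Fin.cases ?_ (fun i => ?_) i <;> simp
        ring) rfl
  have a0 : ∀ g, (α g).1 0 = X * g.1 (Fin.last m) := fun _ => rfl
  have a1 : ∀ g (i : Fin m), (α g).1 i.succ = g.1 i.castSucc := fun _ _ => rfl
  have mm : ∀ g, g ∈ α.range ↔ constantCoeff (g.1 0) = 0 := fun g => by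
    refine ⟨fun ⟨q, h⟩ => by simp [← h, a0], fun h => ?_⟩
    obtain ⟨u, hu⟩ := X_dvd_iff.2 h
    refine ⟨mk (Fin.snoc (Fin.tail g.1) u) g.2, Gr.ext (funext fun i => ?_) rfl⟩
    refine Fin.cases ?_ (fun i => ?_) i <;> simp [a0, a1, hu, Fin.tail]
  refine transport Ψ c i α (MonoidHom.id _) (cmk (continuous_pi fun i => ?_) c2) continuous_id
    (fun a b h => Gr.ext (funext fun i => ?_) (congrArg (·.2) h))
    ⟨mk (fun _ => 1) 0, fun b => ?_⟩ fun K hK hn hf => ?_
  · refine Fin.cases ?_ (fun i => ?_) i <;> simp only [Fin.cons_zero, Fin.cons_succ] <;> fun_prop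
  · refine Fin.lastCases ?_ (fun i => ?_) i
    · exact mul_left_cancel₀ X_ne_zero (congrArg (·.1 0) h)
    · exact congrArg (·.1 i.succ) h
  · simp only [mm, mul1, mk1, Pi.add_apply, Pi.smul_apply, smul_eq_mul, mul_one, map_add, cc_E]
    rcases z2 (constantCoeff (b.1 0)) with h | h <;> rw [h] <;> decide
  · have h1 : ∀ N : ℕ, ∀ i, ∀ k ∈ K, X ^ N ∣ k.1 i := by
      intro N
      induction N with
      | zero => simp
      | succ N ih =>
        intro i
        induction i using Fin.induction with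
        | zero =>
          intro k hk
          obtain ⟨q, rfl⟩ := hK hk
          rw [pow_succ', a0]
          exact mul_dvd_mul_left X (ih _ q (hf q hk))
        | succ i ih =>
          intro k hk
          obtain ⟨q, rfl⟩ := hK hk
          exact ih q (hf q hk)
    have h2 : ∀ k ∈ K, k.1 = 0 := fun k hk => funext fun i => PowerSeries.ext fun n =>
      X_pow_dvd_iff.1 (h1 (n + 1) i k hk) n n.lt_succ_self
    refine fun k hk => Gr.ext (h2 k hk) (E_inj ?_)
    have := congrFun (h2 _ (hn.conj_mem k hk (mk (fun _ => 1) 0))) 0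
    simp [h2 k hk, E_zero] at this
    linear_combination -this

lemma good_fin {m : ℕ} (Ψ : Multiplicative (Fin (m + 1) → ZMod 2) →* Gr A)
    (i : Function.Injective Ψ) : Good Ψ.range := by
  let α : Multiplicative (Fin m → ZMod 2) →* Multiplicative (Fin (m + 1) → ZMod 2) :=
    MonoidHom.mk' (fun g => .ofAdd (Fin.cons 0 g.toAdd)) fun a b => funext fun i => by
      refine Fin.cases ?_ (fun i => ?_) i <;> rfl
  let β : Multiplicative (Fin m → ZMod 2) →* Multiplicative (Fin (m + 1) → ZMod 2) :=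
    MonoidHom.mk' (fun g => .ofAdd (Fin.snoc g.toAdd 0)) fun a b => by
      apply Multiplicative.toAdd.injective
      funext i
      refine Fin.lastCases ?_ (fun i => ?_) i <;> simp
  have mm : ∀ g, g ∈ α.range ↔ g.toAdd 0 = 0 := fun g =>
    ⟨fun ⟨q, h⟩ => h ▸ rfl, fun h => ⟨.ofAdd (Fin.tail g.toAdd), funext fun i => by
      refine Fin.cases h.symm (fun i => rfl) i⟩⟩
  refine transport Ψ continuous_of_discreteTopology i α β continuous_of_discreteTopology
    continuous_of_discreteTopology (fun a b h => funext fun i => congrArg (·.toAdd i.succ) h)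
    ⟨.ofAdd fun _ => 1, fun b => ?_⟩ fun K hK _ hf => ?_
  · simp only [mm, toAdd_mul, toAdd_ofAdd, Pi.add_apply]
    have : ∀ c : ZMod 2, Xor (c + 1 = 0) (c = 0) := by decide
    exact this _
  · have : ∀ i, ∀ k ∈ K, k.toAdd i = 0 := by
      intro i
      induction i using Fin.induction with
      | zero => exact fun k hk => (mm k).1 (hK hk)
      | succ i ih =>
        intro k hk
        obtain ⟨q, rfl⟩ := hK hk
        simpa [α, β] using ih _ (hf q hk)
    exact fun k hk => funext fun i => this i k hk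

end Pool.Agent.H65.Lamp
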