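import Pool.Agent.H65.Lamp2

set_option autoImplicit false

/-! The pro-2 lamplighter group is strongly hereditarily self-similar of infinite rank. -/
namespace Pool.Agent.H65.Lamp
open PowerSeries Filter
open scoped PowerSeries.WithPiTopology Topology

noncomputable def D (w : ℤ_[2]) : A := PowerSeries.mk fun p => coeff (p + 1) (E w)

lemma X_D (w : ℤ_[2]) : X * D w = E w - 1 := by
  rw [D, ← sub_const_eq_X_mul_shift, cc_E, map_one]

@[fun_prop] lemma cont_D : Continuous D := cont_mk fun n => by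
  simpa [D, Function.comp_def] using (WithPiTopology.continuous_coeff (ZMod 2) (n + 1)).comp cont_E

lemma D_add (w z : ℤ_[2]) : D (w + z) = D w + E w * D z :=
  mul_left_cancel₀ X_ne_zero (by rw [mul_add, mul_left_comm, X_D, X_D, X_D, E_add]; ring)

lemma D_one : D 1 = 1 := mul_left_cancel₀ X_ne_zero (by rw [X_D, E_one]; ring)

lemma D_zero : D 0 = 0 := mul_left_cancel₀ X_ne_zero (by rw [X_D, E_zero]; ring)

lemma pro (N : Subgroup (Gr A)) [N.Normal] (h : IsOpen (N : Set (Gr A))) :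
    ∃ k : ℕ, N.index = 2 ^ k := by
  have := N.quotient_finite_of_isOpen h
  refine IsPGroup.iff_card.1 fun g => ?_
  obtain ⟨g, rfl⟩ := QuotientGroup.mk_surjective g
  have e : ∀ k : ℕ, X ^ k ∣ (g ^ 2 ^ k).1 ∧ (g ^ 2 ^ k).2 = 2 ^ k * g.2 := by
    intro k
    induction k with
    | zero => simp
    | succ k ih =>
      rw [pow_succ 2 k, pow_mul, pow_two, mul1, mul2, ih.2]
      refine ⟨?_, by ring⟩
      rw [smul_eq_mul, ← one_add_mul, add_comm (1 : A), ← CharTwo.sub_eq_add, ← X_D, pow_succ', mul_assoc]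
      exact mul_dvd_mul_left _ (ih.1.mul_left _)
  have t : Tendsto (fun k : ℕ => g ^ 2 ^ k) atTop (𝓝 1) := by
    refine Tendsto.prodMk_nhds (mx := fun k : ℕ => (g ^ 2 ^ k).1) (my := fun k : ℕ => (g ^ 2 ^ k).2)
      ((WithPiTopology.tendsto_iff_coeff_tendsto (ZMod 2) _ _ _).2 fun n => ?_) ?_
    · refine tendsto_const_nhds.congr' ?_
      filter_upwards [eventually_gt_atTop n] with k hk
      rw [X_pow_dvd_iff.1 (e k).1 n hk, map_zero]
    · simp only [(e _).2]
      simpa using (tendsto_pow_atTop_nhds_zero_of_norm_lt_one (x := (2 : ℤ_[2]))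
        (by have := PadicInt.norm_p (p := 2); rw [Nat.cast_ofNat] at this; rw [this]; norm_num)).mul_const g.2
  obtain ⟨k, hk⟩ := (t.eventually (h.mem_nhds N.one_mem)).exists
  exact ⟨k, by rw [← QuotientGroup.mk_pow, QuotientGroup.eq_one_iff]; exact hk⟩

def Bs (L : Subgroup (Gr A)) : AddSubgroup A where
  carrier := {a | mk a 0 ∈ L}
  zero_mem' := L.one_mem
  add_mem' {a b} ha hb := by
    have := L.mul_mem ha hb
    rwa [show mk a 0 * mk b 0 = mk (a + b) 0 by ext1 <;> simp [E_zero]] at this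
  neg_mem' {a} ha := by
    have := L.inv_mem ha
    rwa [show (mk a 0)⁻¹ = mk (-a) 0 by ext1 <;> simp [E_zero]] at this

section
variable {L : Subgroup (Gr A)} (hL : IsClosed (L : Set (Gr A))) {k : ℕ} {a : A}
  (hs : mk a (2 ^ k) ∈ L)

include hL in
lemma Bs_closed : IsClosed (Bs L : Set A) :=
  hL.preimage (f := fun a : A => mk a 0) (by fun_prop)

lemma E_q (k : ℕ) (w : ℤ_[2]) : E (2 ^ k * w) = E w ^ 2 ^ k := by simpa using E_mul (2 ^ k) w

include hs in
lemma Bs_inv : ∀ b ∈ Bs L, X ^ 2 ^ k * b ∈ Bs L := fun b hb => by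
  have h : mk a (2 ^ k) * mk b 0 * (mk a (2 ^ k))⁻¹ ∈ L := L.mul_mem (L.mul_mem hs hb) (L.inv_mem hs)
  have e : E (2 ^ k) = 1 + X ^ 2 ^ k := by
    simpa [E_one, add_pow_char_pow] using E_q k 1
  rw [show mk a (2 ^ k) * mk b 0 * (mk a (2 ^ k))⁻¹ = mk (E (2 ^ k) * b) 0 by
    ext1 <;> simp [← mul_assoc, ← E_add, E_zero], e, add_mul, one_mul] at h
  exact ((Bs L).add_mem_cancel_left hb).1 h

include hL hs in
lemma sig (w : ℤ_[2]) : mk (D w ^ 2 ^ k * a) (2 ^ k * w) ∈ L := by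
  refine PadicInt.denseRange_natCast.induction_on w
    (hL.preimage (f := fun w => mk (D w ^ 2 ^ k * a) (2 ^ k * w)) (by fun_prop)) fun n => ?_
  induction n with
  | zero => convert L.one_mem using 1; ext1 <;> simp [D_zero]
  | succ n ih =>
    convert L.mul_mem ih hs using 1
    ext1 <;> simp [D_add, D_one, E_q, add_pow_char_pow, add_mul, mul_add]
end

lemma fg : ∃ S : Finset (Gr A), (Subgroup.closure (S : Set (Gr A))).topologicalClosure = ⊤ := by
  classical
  refine ⟨{mk 1 0, mk 0 (2 ^ 0)}, eq_top_iff.2 fun g _ => ?_⟩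
  generalize hL : Subgroup.topologicalClosure (G := Gr A) _ = L
  have c : IsClosed (L : Set (Gr A)) := hL ▸ Subgroup.isClosed_topologicalClosure _
  have h1 : mk 1 0 ∈ L := hL ▸ Subgroup.le_topologicalClosure _ (Subgroup.subset_closure (by simp))
  have h2 : mk 0 (2 ^ 0) ∈ L :=
    hL ▸ Subgroup.le_topologicalClosure _ (Subgroup.subset_closure (by simp))
  convert L.mul_mem (smul_mem 0 _ (Bs_closed c) (Bs_inv h2) g.1 h1) (sig c h2 g.2) using 1
  ext1 <;> simp

lemma fin (S : Finset (Gr A)) (h : ∀ s ∈ S, s.2 = 0) :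
    ∃ (n : ℕ) (Ψ : Multiplicative (Fin n → ZMod 2) →* Gr A), Function.Injective Ψ ∧
      (Subgroup.closure (S : Set (Gr A))).topologicalClosure = Ψ.range := by
  let W := Submodule.span (ZMod 2) ((fun s : Gr A => s.1) '' S)
  have : Module.Finite (ZMod 2) W := Module.Finite.span_of_finite _ (S.finite_toSet.image _)
  let b := (Module.finBasis (ZMod 2) W).equivFun.symm
  let Ψ : Multiplicative (Fin (Module.finrank (ZMod 2) W) → ZMod 2) →* Gr A :=
    MonoidHom.mk' (fun c => mk (b c.toAdd).1 0) fun c d => by ext1 <;> simp [E_zero, -Module.Basis.equivFun_symm_apply]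
  refine ⟨_, Ψ, fun c d e => b.injective (Subtype.ext (congrArg (·.1) e)), le_antisymm
    (Subgroup.topologicalClosure_minimal _ ((Subgroup.closure_le _).2 fun s hs => ?_)
      (Set.finite_range Ψ).isClosed) ?_⟩
  · obtain ⟨c, hc⟩ := b.surjective ⟨s.1, Submodule.subset_span ⟨s, hs, rfl⟩⟩
    exact ⟨.ofAdd c, Gr.ext (congrArg Subtype.val hc) (h s hs).symm⟩
  · rintro _ ⟨c, rfl⟩
    refine Subgroup.le_topologicalClosure _ ?_
    change (b c.toAdd).1 ∈ Bs (Subgroup.closure S)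
    obtain ⟨x, hx⟩ := b c.toAdd
    induction hx using Submodule.span_induction with
    | mem x hx =>
      obtain ⟨s, hs, rfl⟩ := hx
      exact Subgroup.subset_closure (by rwa [← h s hs])
    | zero => exact zero_mem _
    | add x y _ _ a b => exact add_mem a b
    | smul r x _ a => rcases z2 r with rfl | rfl <;> simp_all

lemma inf (L : Subgroup (Gr A)) (hL : IsClosed (L : Set (Gr A))) {l : Gr A} (hl : l ∈ L)
    (n0 : l.2 ≠ 0) : Good L := by
  have c : IsClosed ((fun g : Gr A => g.2) '' L) := (hL.isCompact.image c2).isClosed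
  let I : Ideal ℤ_[2] :=
    { carrier := (fun g : Gr A => g.2) '' L
      add_mem' := by
        rintro _ _ ⟨a, ha, rfl⟩ ⟨b, hb, rfl⟩
        exact ⟨_, L.mul_mem ha hb, rfl⟩
      zero_mem' := ⟨1, L.one_mem, rfl⟩
      smul_mem' := by
        rintro w _ ⟨a, ha, rfl⟩
        refine PadicInt.denseRange_natCast.induction_on w
          (c.preimage (f := fun w => w • a.2) (by fun_prop)) fun n => ?_
        induction n with
        | zero => exact ⟨1, L.one_mem, by simp⟩
        | succ n ih =>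
          obtain ⟨b, hb, e⟩ := ih
          exact ⟨_, L.mul_mem hb ha, by simp_all [add_mul]⟩ }
  obtain ⟨k, hk⟩ := PadicInt.ideal_eq_span_pow_p (s := I) fun e =>
    n0 (Ideal.mem_bot.1 (e ▸ (⟨l, hl, rfl⟩ : l.2 ∈ I)))
  obtain ⟨s, hs, es⟩ : (2 : ℤ_[2]) ^ k ∈ I := hk ▸ Ideal.mem_span_singleton_self _
  obtain ⟨a, hs⟩ : ∃ a, mk a (2 ^ k) ∈ L := ⟨s.1, es ▸ hs⟩
  obtain ⟨n, e, e1, e2, e3⟩ := basis k _ (Bs_closed hL) (Bs_inv hs)
  let Ψ : Gr (Fin n → A) →* Gr A := MonoidHom.mk'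
    (fun g => mk (∑ i, g.1 i ^ 2 ^ k * e i + D g.2 ^ 2 ^ k * a) (2 ^ k * g.2)) fun g h => by
      ext1
      · simp only [mul1, mul2, mk1, mk2, D_add, E_q, add_pow_char_pow, Pi.add_apply, Pi.smul_apply,
          smul_eq_mul, mul_pow, add_mul, mul_add, Finset.sum_add_distrib, Finset.mul_sum, mul_assoc]
        ring
      · simp [mul_add]
  have cΨ : Continuous Ψ := cmk (by fun_prop) (by fun_prop)
  have iΨ : Function.Injective Ψ := (injective_iff_map_eq_one Ψ).2 fun g hg => by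
    have h2 : g.2 = 0 := (mul_eq_zero.1 (congrArg (·.2) hg)).resolve_left (pow_ne_zero _ two_ne_zero)
    exact Gr.ext (e3 _ (by simpa [Ψ, h2, D_zero] using congrArg (·.1) hg)) h2
  have sp : ∀ g, Ψ g = mk (∑ i, g.1 i ^ 2 ^ k * e i) 0 * mk (D g.2 ^ 2 ^ k * a) (2 ^ k * g.2) :=
    fun g => by ext1 <;> simp [Ψ, E_zero]
  have : L = Ψ.range := by
    ext g
    constructor
    · intro hg
      obtain ⟨w, hw⟩ : 2 ^ k ∣ g.2 := Ideal.mem_span_singleton.1 (hk ▸ (⟨g, hg, rfl⟩ : g.2 ∈ I))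
      have := L.mul_mem hg (L.inv_mem (sig hL hs w))
      obtain ⟨u, hu⟩ : ∃ u, mk u 0 = g * (mk (D w ^ 2 ^ k * a) (2 ^ k * w))⁻¹ :=
        ⟨_, Gr.ext rfl (by simp [hw])⟩
      obtain ⟨c, rfl⟩ := e2 u (show mk u 0 ∈ L from hu ▸ this)
      exact ⟨mk c w, by rw [sp, mk1, mk2, hu, inv_mul_cancel_right]⟩
    · rintro ⟨g, rfl⟩
      rw [sp]
      exact L.mul_mem ((Bs L).sum_mem fun i _ => smul_mem k _ (Bs_closed hL) (Bs_inv hs) _ (e1 i))
        (sig hL hs _)
  rw [this]
  cases n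
  exacts [good_zero Ψ cΨ iΨ, good_succ Ψ cΨ iΨ]

theorem good (L : Subgroup (Gr A)) (h : L ≠ ⊥)
    (hS : ∃ S : Finset (Gr A), (Subgroup.closure (S : Set (Gr A))).topologicalClosure = L) :
    Good L := by
  obtain ⟨S, rfl⟩ := hS
  by_cases c : ∀ s ∈ S, s.2 = 0
  · obtain ⟨n, Ψ, i, e⟩ := fin S c
    rw [e] at h ⊢
    cases n
    · exact absurd (eq_bot_iff.2 fun _ ⟨c, e⟩ => by rw [← e, Subsingleton.elim c 1, map_one]; rfl) h
    · exact good_fin Ψ i
  · push Not at c
    obtain ⟨s, hs, n⟩ := c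
    exact inf _ (Subgroup.isClosed_topologicalClosure _)
      (Subgroup.le_topologicalClosure _ (Subgroup.subset_closure hs)) n

theorem rank : ¬ ∃ r : ℕ, ∀ L : Subgroup (Gr A), IsClosed (L : Set (Gr A)) →
    ∃ S : Finset (Gr A), S.card ≤ r ∧ (Subgroup.closure (S : Set (Gr A))).topologicalClosure = L := by
  rintro ⟨r, h⟩
  let L : Subgroup (Gr A) :=
    { carrier := {g | g.2 = 0}
      mul_mem' := by simp +contextual
      one_mem' := rfl
      inv_mem' := by simp }
  obtain ⟨S, -, e⟩ := h L (isClosed_eq c2 continuous_const)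
  obtain ⟨n, Ψ, -, e'⟩ := fin S fun s hs =>
    (e ▸ Subgroup.le_topologicalClosure _ (Subgroup.subset_closure hs) : s ∈ L)
  refine Set.infinite_of_injective_forall_mem (f := fun n : ℕ => (mk (X ^ n) 0 : Gr A))
    (fun a b h => ?_) (fun n => ?_) (Set.finite_range Ψ)
  · have := congrArg (fun g : Gr A => coeff a g.1) h
    by_contra n
    simp [coeff_X_pow, n] at this
  · change _ ∈ Ψ.range
    rw [← e', e]
    rfl

end Pool.Agent.H65.Lamp
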