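import Mathlib

set_option autoImplicit false

/-! Commutator calculus inside a fixed ambient group: lower and upper series, Engel elements,
Fitting's theorem. -/
namespace Pool.Agent.H65.Mc
open Subgroup
open scoped commutatorElement

variable {G : Type} [Group G]

/-- `Γ` normalizes `P`. -/
abbrev Nm (Γ P : Subgroup G) : Prop := Γ ≤ normalizer (P : Set G)

lemma Nm.conj {Γ P : Subgroup G} (h : Nm Γ P) {g p : G} (hg : g ∈ Γ) (hp : p ∈ P) :
    g * p * g⁻¹ ∈ P := le_normalizer_iff.1 h g hg p hp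

lemma Nm.conj' {Γ P : Subgroup G} (h : Nm Γ P) {g p : G} (hg : g ∈ Γ) (hp : p ∈ P) :
    g⁻¹ * p * g ∈ P := by
  simpa using h.conj (Γ.inv_mem hg) hp

lemma nm_of {Γ P : Subgroup G} (h : ∀ g ∈ Γ, ∀ p ∈ P, g * p * g⁻¹ ∈ P) : Nm Γ P :=
  le_normalizer_iff.2 h

lemma nm_self (Γ : Subgroup G) : Nm Γ Γ := le_normalizer

lemma nm_of_le {Γ P : Subgroup G} (h : Γ ≤ P) : Nm Γ P := h.trans le_normalizer

lemma nm_bot (Γ : Subgroup G) : Nm Γ ⊥ := nm_of fun g _ p hp => by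
  rw [mem_bot] at hp ⊢; simp [hp]

lemma Nm.inf {Γ A B : Subgroup G} (hA : Nm Γ A) (hB : Nm Γ B) : Nm Γ (A ⊓ B) :=
  nm_of fun _ hg _ hp => ⟨hA.conj hg hp.1, hB.conj hg hp.2⟩

lemma Nm.sup {Γ A B : Subgroup G} (hA : Nm Γ A) (hB : Nm Γ B) : Nm Γ (A ⊔ B) := by
  refine nm_of fun g hg p hp => ?_
  have : A ⊔ B ≤ (A ⊔ B).comap (MulAut.conj g).toMonoidHom := by
    refine sup_le (fun a ha => ?_) (fun a ha => ?_)
    · exact mem_sup_left (hA.conj hg ha)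
    · exact mem_sup_right (hB.conj hg ha)
  exact this hp

lemma Nm.comm {Γ A B : Subgroup G} (hA : Nm Γ A) (hB : Nm Γ B) : Nm Γ ⁅A, B⁆ := by
  refine nm_of fun g hg p hp => ?_
  have : ⁅A, B⁆ ≤ (⁅A, B⁆ : Subgroup G).comap (MulAut.conj g).toMonoidHom := by
    refine commutator_le.2 fun a ha b hb => ?_
    have := commutator_mem_commutator (hA.conj hg ha) (hB.conj hg hb)
    rw [mem_comap]
    convert this using 1
    simp only [MulEquiv.toMonoidHom_eq_coe, MonoidHom.coe_coe, MulAut.conj_apply,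
      commutatorElement_def]
    group
  exact this hp

lemma Nm.comm_right {Γ P : Subgroup G} (h : Nm Γ P) {g p : G} (hg : g ∈ Γ) (hp : p ∈ P) :
    ⁅g, p⁆ ∈ P := by
  rw [commutatorElement_def]
  exact P.mul_mem (h.conj hg hp) (P.inv_mem hp)

lemma comm_swap {P : Subgroup G} {g p : G} (h : ⁅g, p⁆ ∈ P) : ⁅p, g⁆ ∈ P := by
  rw [← commutatorElement_inv]; exact P.inv_mem h

lemma Nm.comm_left {Γ P : Subgroup G} (h : Nm Γ P) {g p : G} (hg : g ∈ Γ) (hp : p ∈ P) :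
    ⁅p, g⁆ ∈ P := comm_swap (h.comm_right hg hp)

lemma Nm.le_left {Γ P X : Subgroup G} (h : Nm Γ P) (hX : X ≤ Γ) : ⁅P, X⁆ ≤ P :=
  commutator_le.2 fun _ hp _ hx => h.comm_left (hX hx) hp

lemma comm_le_of_le {Γ A B : Subgroup G} (hA : A ≤ Γ) (hB : B ≤ Γ) : ⁅A, B⁆ ≤ Γ :=
  commutator_le.2 fun _ ha _ hb => (nm_self Γ).comm_left (hB hb) (hA ha)

/-- Elements of `Γ` centralizing `Z` modulo `P`. -/
def cz (Γ : Subgroup G) (Z : Set G) (P : Subgroup G) (h : Nm Γ P) : Subgroup G where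
  carrier := {g | g ∈ Γ ∧ ∀ z ∈ Z, ⁅g, z⁆ ∈ P}
  one_mem' := ⟨Γ.one_mem, fun z _ => by simp⟩
  mul_mem' := by
    rintro a b ⟨ha, ha'⟩ ⟨hb, hb'⟩
    refine ⟨Γ.mul_mem ha hb, fun z hz => ?_⟩
    have : ⁅a * b, z⁆ = a * ⁅b, z⁆ * a⁻¹ * ⁅a, z⁆ := by
      simp only [commutatorElement_def]; group
    rw [this]
    exact P.mul_mem (h.conj ha (hb' z hz)) (ha' z hz)
  inv_mem' := by
    rintro a ⟨ha, ha'⟩
    refine ⟨Γ.inv_mem ha, fun z hz => ?_⟩
    have : ⁅a⁻¹, z⁆ = a⁻¹ * ⁅a, z⁆⁻¹ * a := by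
      simp only [commutatorElement_def]; group
    rw [this]
    exact h.conj' ha (P.inv_mem (ha' z hz))

lemma mem_cz {Γ : Subgroup G} {Z : Set G} {P : Subgroup G} {h : Nm Γ P} {g : G} :
    g ∈ cz Γ Z P h ↔ g ∈ Γ ∧ ∀ z ∈ Z, ⁅g, z⁆ ∈ P := Iff.rfl

/-- Three subgroups lemma modulo a normalized subgroup. -/
lemma three {Γ P X Y Z : Subgroup G} (h : Nm Γ P) (hX : X ≤ Γ) (hY : Y ≤ Γ) (hZ : Z ≤ Γ)
    (h1 : ⁅⁅Y, Z⁆, X⁆ ≤ P) (h2 : ⁅⁅Z, X⁆, Y⁆ ≤ P) : ⁅⁅X, Y⁆, Z⁆ ≤ P := by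
  have key : ⁅X, Y⁆ ≤ cz Γ Z P h := by
    refine commutator_le.2 fun x hx y hy => ⟨comm_le_of_le hX hY (commutator_mem_commutator hx hy),
      fun z hz => comm_swap ?_⟩
    have e : ⁅z, ⁅x, y⁆⁆ = x * ((z * ⁅y, ⁅z⁻¹, x⁻¹⁆⁆⁻¹ * z⁻¹) *
        (y * ⁅x⁻¹, ⁅y⁻¹, z⁆⁆⁻¹ * y⁻¹)) * x⁻¹ := by
      simp only [commutatorElement_def]; group
    rw [e]
    refine h.conj (hX hx) (P.mul_mem (h.conj (hZ hz) (P.inv_mem ?_)) (h.conj (hY hy) (P.inv_mem ?_)))
    · exact comm_swap (h2 (commutator_mem_commutator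
        (commutator_mem_commutator (Z.inv_mem hz) (X.inv_mem hx)) hy))
    · exact comm_swap (h1 (commutator_mem_commutator
        (commutator_mem_commutator (Y.inv_mem hy) hz) (X.inv_mem hx)))
  exact commutator_le.2 fun g hg z hz => (key hg).2 z hz

/-- Lower central series. -/
def lc (K : Subgroup G) : ℕ → Subgroup G
  | 0 => K
  | n + 1 => ⁅lc K n, K⁆

@[simp] lemma lc_zero (K : Subgroup G) : lc K 0 = K := rfl
lemma lc_succ (K : Subgroup G) (n : ℕ) : lc K (n + 1) = ⁅lc K n, K⁆ := rfl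

lemma lc_mono {K L : Subgroup G} (h : K ≤ L) : ∀ n, lc K n ≤ lc L n
  | 0 => h
  | n + 1 => commutator_mono (lc_mono h n) h

lemma Nm.lc {Γ K : Subgroup G} (h : Nm Γ K) : ∀ n, Nm Γ (lc K n)
  | 0 => h
  | n + 1 => (Nm.lc h n).comm h

lemma lc_succ_le (K : Subgroup G) (n : ℕ) : lc K (n + 1) ≤ lc K n :=
  ((nm_self K).lc n).le_left le_rfl

lemma lc_anti (K : Subgroup G) : Antitone (lc K) := antitone_nat_of_succ_le (lc_succ_le K)

lemma lc_le (K : Subgroup G) (n : ℕ) : lc K n ≤ K := lc_anti K (Nat.zero_le n)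

/-- Nilpotent subgroups. -/
def Nil (K : Subgroup G) : Prop := ∃ c, lc K c = ⊥

lemma Nil.mono {K L : Subgroup G} (h : Nil L) (hle : K ≤ L) : Nil K := by
  obtain ⟨c, hc⟩ := h
  exact ⟨c, le_bot_iff.1 (hc ▸ lc_mono hle c)⟩

lemma nil_bot : Nil (⊥ : Subgroup G) := ⟨0, rfl⟩

lemma nil_zpowers (e : G) : Nil (zpowers e) := by
  refine ⟨1, le_bot_iff.1 (commutator_le.2 ?_)⟩
  rintro _ ⟨i, rfl⟩ _ ⟨j, rfl⟩
  rw [mem_bot, commutatorElement_eq_one_iff_commute]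
  exact Commute.zpow_zpow_self e i j

/-- Upper central series of `Γ` above `V 0`. -/
structure IsUp (Γ : Subgroup G) (V : ℕ → Subgroup G) : Prop where
  nm : ∀ j, Nm Γ (V j)
  le0 : V 0 ≤ Γ
  succ : ∀ j g, g ∈ V (j + 1) ↔ g ∈ Γ ∧ ∀ y ∈ Γ, ⁅g, y⁆ ∈ V j

lemma nm_cz {Γ Z P : Subgroup G} (h : Nm Γ P) (hZ : Nm Γ Z) : Nm Γ (cz Γ Z P h) := by
  refine nm_of fun g hg p hp => ⟨(nm_self Γ).conj hg hp.1, fun z hz => ?_⟩
  have : ⁅g * p * g⁻¹, z⁆ = g * ⁅p, g⁻¹ * z * g⁆ * g⁻¹ := by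
    simp only [commutatorElement_def]; group
  rw [this]
  exact h.conj hg (hp.2 _ (hZ.conj' hg hz))

lemma exists_up {Γ B : Subgroup G} (h : Nm Γ B) (hB : B ≤ Γ) : ∃ V, IsUp Γ V ∧ V 0 = B := by
  let W : ℕ → {P : Subgroup G // Nm Γ P} := fun n =>
    Nat.rec ⟨B, h⟩ (fun _ P => ⟨cz Γ Γ P.1 P.2, nm_cz P.2 (nm_self Γ)⟩) n
  exact ⟨fun n => (W n).1, ⟨fun j => (W j).2, hB, fun _ _ => Iff.rfl⟩, rfl⟩

namespace IsUp
variable {Γ : Subgroup G} {V : ℕ → Subgroup G}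

lemma le (h : IsUp Γ V) : ∀ j, V j ≤ Γ
  | 0 => h.le0
  | j + 1 => fun g hg => ((h.succ j g).1 hg).1

lemma le_succ (h : IsUp Γ V) (j : ℕ) : V j ≤ V (j + 1) := fun g hg =>
  (h.succ j g).2 ⟨h.le j hg, fun _ hy => (h.nm j).comm_left hy hg⟩

lemma mono (h : IsUp Γ V) : Monotone V := monotone_nat_of_le_succ h.le_succ

lemma comm_le (h : IsUp Γ V) (j : ℕ) {X Y : Subgroup G} (hX : X ≤ V (j + 1)) (hY : Y ≤ Γ) :
    ⁅X, Y⁆ ≤ V j :=
  commutator_le.2 fun x hx y hy => ((h.succ j x).1 (hX hx)).2 y (hY hy)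

lemma le_of_comm (h : IsUp Γ V) (j : ℕ) {X : Subgroup G} (hX : X ≤ Γ) (hc : ⁅X, Γ⁆ ≤ V j) :
    X ≤ V (j + 1) := fun x hx =>
  (h.succ j x).2 ⟨hX hx, fun _ hy => hc (commutator_mem_commutator hx hy)⟩

lemma shift (h : IsUp Γ V) (k : ℕ) : IsUp Γ (fun j => V (k + j)) :=
  ⟨fun j => h.nm _, h.le _, fun j g => h.succ (k + j) g⟩

lemma compare {W : ℕ → Subgroup G} (h : IsUp Γ V) (hW : IsUp Γ W) (h0 : W 0 ≤ V 0) :
    ∀ j, W j ≤ V j
  | 0 => h0
  | j + 1 => h.le_of_comm j (hW.le _) ((hW.comm_le j le_rfl le_rfl).trans (compare h hW h0 j))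

/-- To test membership in the next term it is enough to use a generating set. -/
lemma mem_succ_of_gen (h : IsUp Γ V) {S : Set G} (hS : Γ ≤ closure S) (hS' : S ⊆ Γ) (j : ℕ) {g : G}
    (hg : g ∈ Γ) (hc : ∀ y ∈ S, ⁅g, y⁆ ∈ V j) : g ∈ V (j + 1) := by
  have : closure S ≤ cz Γ {g} (V j) (h.nm j) := (closure_le _).2 fun y hy =>
    ⟨hS' hy, fun z hz => by rw [Set.mem_singleton_iff.1 hz]; exact comm_swap (hc y hy)⟩
  exact (h.succ j g).2 ⟨hg, fun y hy => comm_swap ((this (hS hy)).2 g rfl)⟩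

lemma mem_succ_of_sup (h : IsUp Γ V) {A B : Subgroup G} (hS : Γ = A ⊔ B) (j : ℕ) {g : G}
    (hg : g ∈ Γ) (hA : ∀ y ∈ A, ⁅g, y⁆ ∈ V j) (hB : ∀ y ∈ B, ⁅g, y⁆ ∈ V j) : g ∈ V (j + 1) := by
  refine h.mem_succ_of_gen (S := (A : Set G) ∪ B) ?_ ?_ j hg ?_
  · rw [hS, Subgroup.closure_union, closure_eq, closure_eq]
  · rintro y (hy | hy)
    · rw [hS]; exact mem_sup_left hy
    · rw [hS]; exact mem_sup_right hy
  · rintro y (hy | hy)
    exacts [hA y hy, hB y hy]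

lemma lc_le (h : IsUp Γ V) : ∀ i t, Γ ≤ V (t + i) → lc Γ i ≤ V t
  | 0, _, ht => ht
  | i + 1, t, ht => h.comm_le t (lc_le h i (t + 1) (by rwa [add_assoc, add_comm 1 i])) le_rfl

lemma nil (h : IsUp Γ V) (h0 : V 0 = ⊥) {t : ℕ} (ht : Γ ≤ V t) : Nil Γ :=
  ⟨t, le_bot_iff.1 (h0 ▸ h.lc_le t 0 (by simpa using ht))⟩

/-- Hall's lemma. -/
lemma hall (h : IsUp Γ V) {K : Subgroup G} (hK : K ≤ Γ) :
    ∀ m j {X : Subgroup G}, X ≤ Γ → ⁅X, K⁆ ≤ V (j + m) → ⁅X, lc K m⁆ ≤ V j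
  | 0, _, _, _, hc => hc
  | m + 1, j, X, hX, hc => by
    have hm : lc K m ≤ Γ := (Mc.lc_le K m).trans hK
    rw [commutator_comm, lc_succ]
    refine three (h.nm j) hm hK hX ?_ ?_
    · refine hall h hK m j (comm_le_of_le hK hX) ?_
      refine h.comm_le _ ?_ hK
      rw [commutator_comm]; exact hc
    · refine h.comm_le _ (hall h hK m (j + 1) hX ?_) hK
      rwa [add_assoc, add_comm 1 m]

end IsUp

/-- The Engel map `y ↦ [y, e]`. -/
def eng (e y : G) : G := y⁻¹ * (e⁻¹ * y * e)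

/-- An element killed by `e` in `n` steps lies in the `n`-th term. -/
lemma IsUp.engel {Γ H X : Subgroup G} {V : ℕ → Subgroup G} (h : IsUp Γ V) {e : G}
    (hΓ : Γ = H ⊔ zpowers e) (hX : Nm Γ X) (hXΓ : X ≤ Γ) (hc : ⁅X, H⁆ ≤ V 0) :
    ∀ n u, u ∈ X → (eng e)^[n] u = 1 → u ∈ V n
  | 0, u, _, h1 => by
    have : u = 1 := h1
    rw [this]; exact one_mem _
  | n + 1, u, hu, h1 => by
    have he : e ∈ Γ := hΓ ▸ mem_sup_right (mem_zpowers e)
    have h2 : eng e u ∈ V n := IsUp.engel h hΓ hX hXΓ hc n _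
      (X.mul_mem (X.inv_mem hu) (hX.conj' he hu)) h1
    refine h.mem_succ_of_gen (S := (H : Set G) ∪ {e}) ?_ ?_ n (hXΓ hu) ?_
    · rw [hΓ, Subgroup.closure_union, closure_eq, zpowers_eq_closure]
    · rintro y (hy | hy)
      · rw [hΓ]; exact mem_sup_left hy
      · rw [Set.mem_singleton_iff.1 hy]; exact he
    · rintro y (hy | hy)
      · exact h.mono (Nat.zero_le n) (hc (commutator_mem_commutator hu hy))
      · rw [Set.mem_singleton_iff.1 hy]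
        have : ⁅u, e⁆ = (e * u) * eng e u * (e * u)⁻¹ := by
          simp only [commutatorElement_def, eng]; group
        rw [this]
        exact (h.nm n).conj (Γ.mul_mem he (hXΓ hu)) h2

lemma comm_sup_zpowers_le {H P : Subgroup G} {e : G} (hP : Nm (H ⊔ zpowers e) P) (hH : H ≤ P) :
    ⁅H ⊔ zpowers e, H ⊔ zpowers e⁆ ≤ P := by
  have he : e ∈ H ⊔ zpowers e := mem_sup_right (mem_zpowers e)
  have h1 : H ⊔ zpowers e ≤ cz (H ⊔ zpowers e) {e} P hP := by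
    refine sup_le (fun y hy => ⟨mem_sup_left hy, fun z hz => ?_⟩) ?_
    · rw [Set.mem_singleton_iff.1 hz]; exact hP.comm_left he (hH hy)
    · rw [zpowers_le]
      exact ⟨he, fun z hz => by rw [Set.mem_singleton_iff.1 hz]; simp⟩
  have h2 : H ⊔ zpowers e ≤ cz (H ⊔ zpowers e) (H ⊔ zpowers e : Subgroup G) P hP := by
    refine sup_le (fun y hy => ⟨mem_sup_left hy, fun z hz => hP.comm_left hz (hH hy)⟩) ?_
    rw [zpowers_le]
    exact ⟨he, fun z hz => comm_swap ((h1 hz).2 e rfl)⟩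
  exact commutator_le.2 fun a ha b hb => (h2 ha).2 b hb

/-- A nilpotent subgroup normalized by a bounded left Engel element. -/
lemma nil_sup_engel {H : Subgroup G} {e : G} {n : ℕ} (hH : Nil H) (he : e ∈ normalizer (H : Set G))
    (hE : ∀ y, (eng e)^[n] y = 1) : Nil (H ⊔ zpowers e) := by
  obtain ⟨c, hc⟩ := hH
  have hN : Nm (H ⊔ zpowers e) H := sup_le (nm_self H) (by rwa [zpowers_le])
  obtain ⟨V, hV, h0⟩ := exists_up (nm_bot (H ⊔ zpowers e)) bot_le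
  have key : ∀ d i, i + d = c → lc H i ≤ V (d * n) := by
    intro d
    induction d with
    | zero => intro i hi; rw [← hi, add_zero] at hc; rw [hc]; exact bot_le
    | succ d ih =>
      intro i hi u hu
      have := (hV.shift (d * n)).engel rfl (hN.lc i) ((lc_le H i).trans le_sup_left)
        (ih (i + 1) (by omega)) n u hu (hE u)
      rwa [Nat.succ_mul]
  have h1 : H ≤ V (c * n) := key c 0 (by simp)
  exact hV.nil h0 (hV.le_of_comm _ le_rfl (comm_sup_zpowers_le (hV.nm _) h1))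

/-- Fitting's theorem. -/
lemma fitting {A B : Subgroup G} (hA : Nil A) (hB : Nil B) (hA' : Nm (A ⊔ B) A)
    (hB' : Nm (A ⊔ B) B) : Nil (A ⊔ B) := by
  obtain ⟨a, ha⟩ := hA
  obtain ⟨b, hb⟩ := hB
  obtain ⟨V, hV, h0⟩ := exists_up (nm_bot (A ⊔ B)) bot_le
  have k1 : ∀ t i j, a + b ≤ i + j + t → lc A i ⊓ lc B j ≤ V t := by
    intro t
    induction t with
    | zero =>
      intro i j hij
      rcases le_or_gt a i with h | h
      · exact inf_le_left.trans ((lc_anti A h).trans (ha ▸ bot_le))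
      · exact inf_le_right.trans ((lc_anti B (by omega : b ≤ j)).trans (hb ▸ bot_le))
    | succ t ih =>
      intro i j hij g hg
      refine hV.mem_succ_of_sup rfl t (mem_sup_left (lc_le A i hg.1)) (fun y hy => ?_)
        (fun y hy => ?_)
      · exact ih (i + 1) j (by omega) ⟨commutator_mem_commutator hg.1 hy,
          (hB'.lc j).comm_left (mem_sup_left hy) hg.2⟩
      · exact ih i (j + 1) (by omega) ⟨(hA'.lc i).comm_left (mem_sup_right hy) hg.1,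
          commutator_mem_commutator hg.2 hy⟩
  have k2 : A ⊓ B ≤ V (a + b) := k1 (a + b) 0 0 (by omega)
  have k3 : ∀ (X Y : Subgroup G) (x : ℕ), A ⊔ B = X ⊔ Y → lc X x = ⊥ → X ⊓ Y ≤ V (a + b) →
      Nm (A ⊔ B) X → Nm (A ⊔ B) Y → ∀ d i, i + d = x → lc X i ≤ V (a + b + d) := by
    intro X Y x hXY hx hI hX hY d
    induction d with
    | zero => intro i hi; rw [← hi, add_zero] at hx; rw [hx]; exact bot_le
    | succ d ih =>
      intro i hi g hg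
      have hgΓ : g ∈ A ⊔ B := hXY ▸ mem_sup_left (lc_le X i hg)
      refine hV.mem_succ_of_sup hXY _ hgΓ (fun y hy => ?_) (fun y hy => ?_)
      · exact ih (i + 1) (by omega) (commutator_mem_commutator hg hy)
      · exact hV.mono (Nat.le_add_right _ _) (hI ⟨hX.comm_left (hXY ▸ mem_sup_right hy)
          (lc_le X i hg), hY.comm_right hgΓ hy⟩)
  have k4 : A ≤ V (a + b + a) := k3 A B a rfl ha k2 hA' hB' a 0 (by simp)
  have k5 : B ≤ V (a + b + b) := k3 B A b (sup_comm _ _) hb (inf_comm A B ▸ k2) hB' hA' b 0 (by simp)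
  exact hV.nil h0 (t := a + b + a + b) (sup_le (k4.trans (hV.mono (by omega)))
    (k5.trans (hV.mono (by omega))))

end Pool.Agent.H65.Mc
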