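import Pool.Agent.H65.Mc1

set_option autoImplicit false

/-! Groups with the minimal condition on centralizers: locally nilpotent subgroups generated by
bounded left Engel elements are nilpotent. -/
namespace Pool.Agent.H65.Mc
open Subgroup
open scoped commutatorElement

variable {G : Type} [Group G]

/-- The minimal condition on centralizers. -/
def IsMc (G : Type) [Group G] : Prop :=
  ∀ X : Set G, ∃ X₀ : Finset G, (↑X₀ : Set G) ⊆ X ∧ centralizer X = centralizer (↑X₀ : Set G)

lemma IsMc.wf (h : IsMc G) : WellFounded (fun S T : Set G => centralizer S < centralizer T) := by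
  rw [wellFounded_iff_isEmpty_descending_chain]
  refine ⟨fun ⟨f, hf⟩ => ?_⟩
  have hanti : Antitone fun n => centralizer (f n) := antitone_nat_of_succ_le fun n => (hf n).le
  obtain ⟨X₀, hX, hc⟩ := h (⋃ n, f n)
  have : ∀ x ∈ X₀, ∃ n, x ∈ f n := fun x hx => Set.mem_iUnion.1 (hX hx)
  choose! ν hν using this
  let N := X₀.sup ν
  have h1 : centralizer (f N) ≤ centralizer (↑X₀ : Set G) := by
    intro g hg
    rw [mem_centralizer_iff]
    intro x hx
    exact mem_centralizer_iff.1 (hanti (Finset.le_sup (f := ν) hx) hg) x (hν x hx)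
  have h2 : centralizer (⋃ n, f n) ≤ centralizer (f (N + 1)) :=
    centralizer_le (Set.subset_iUnion f (N + 1))
  exact (hf N).not_ge (h1.trans (hc ▸ h2))

lemma lc_fin (L : Subgroup G) : ∀ j x, x ∈ lc L j →
    ∃ T : Finset G, (↑T : Set G) ⊆ L ∧ x ∈ lc (closure (↑T : Set G)) j := by
  classical
  intro j
  induction j with
  | zero =>
    intro x hx
    exact ⟨{x}, by simpa using hx, Subgroup.subset_closure (by simp)⟩
  | succ j ih =>
    intro x hx
    rw [lc_succ, Subgroup.commutator_def] at hx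
    induction hx using closure_induction with
    | mem x hx =>
      obtain ⟨a, ha, b, hb, rfl⟩ := hx
      obtain ⟨T, hT, haT⟩ := ih a ha
      refine ⟨insert b T, ?_, commutator_mem_commutator
        (lc_mono (Subgroup.closure_mono (by simp)) j haT) (Subgroup.subset_closure (by simp))⟩
      rw [Finset.coe_insert]; exact Set.insert_subset hb hT
    | one => exact ⟨∅, by simp, one_mem _⟩
    | mul x y _ _ hx hy =>
      obtain ⟨T, hT, hx⟩ := hx
      obtain ⟨T', hT', hy⟩ := hy
      refine ⟨T ∪ T', by rw [Finset.coe_union]; exact Set.union_subset hT hT', mul_mem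
        (lc_mono (Subgroup.closure_mono (by simp)) _ hx) (lc_mono (Subgroup.closure_mono (by simp)) _ hy)⟩
    | inv x _ hx =>
      obtain ⟨T, hT, hx⟩ := hx
      exact ⟨T, hT, inv_mem hx⟩

lemma IsMc.delta (h : IsMc G) (L : Subgroup G) (s : ℕ) : ∃ T : Finset G, (↑T : Set G) ⊆ L ∧
    ∀ K : Subgroup G, (↑T : Set G) ⊆ K → ∀ j ≤ s,
      centralizer (lc K j : Set G) ≤ centralizer (lc L j : Set G) := by
  classical
  choose X hX hc using fun j => h (lc L j : Set G)
  choose! T hT hxT using lc_fin L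
  refine ⟨(Finset.range (s + 1)).biUnion fun j => (X j).biUnion (T j), ?_, ?_⟩
  · intro y hy
    simp only [Finset.coe_biUnion, Set.mem_iUnion] at hy
    obtain ⟨j, _, x, hx, hy⟩ := hy
    exact hT j x (hX j hx) hy
  · intro K hK j hj
    rw [hc j]
    refine centralizer_le fun x hx => lc_mono ((closure_le K).2 fun y hy => hK ?_) j
      (hxT j x (hX j hx))
    simp only [Finset.coe_biUnion, Set.mem_iUnion]
    exact ⟨j, by simpa using Nat.lt_succ_of_le hj, x, hx, hy⟩

/-- Iterated centralizers of `K` agree with the upper central series. -/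
lemma IsUp.bprime {Γ K : Subgroup G} {F : Set (Subgroup G)} {V : ℕ → Subgroup G} (hV : IsUp Γ V)
    (h0 : V 0 = ⊥) (hΓ : Γ = sSup F) (hK : ∀ H ∈ F, K ≤ H) (hKΓ : K ≤ Γ) {s : ℕ}
    (hc : ∀ H ∈ F, ∀ j ≤ s, centralizer (lc K j : Set G) ≤ centralizer (lc H j : Set G)) :
    ∀ j ≤ s, ∀ X : Subgroup G, X ≤ Γ → ⁅X, K⁆ ≤ V j → X ≤ V (j + 1) := by
  intro j
  induction j using Nat.strong_induction_on with
  | _ j ih =>
    intro hj X hX hXK
    have hF : ∀ H ∈ F, H ≤ Γ := fun H hH => hΓ ▸ le_sSup hH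
    have key : ∀ H ∈ F, ∀ d m, m + d = j → ⁅X, lc H m⁆ ≤ V d := by
      intro H hH d
      induction d with
      | zero =>
        intro m hm
        have h1 : ⁅X, lc K j⁆ ≤ V 0 := hV.hall hKΓ j 0 hX (by simpa using hXK)
        rw [h0, le_bot_iff, commutator_eq_bot_iff_le_centralizer] at h1
        rw [h0, le_bot_iff, commutator_eq_bot_iff_le_centralizer, show m = j by omega]
        exact h1.trans (hc H hH j hj)
      | succ d ihd =>
        intro m hm
        have hm' : lc H m ≤ Γ := (Mc.lc_le H m).trans (hF H hH)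
        refine ih d (by omega) (by omega) _ (comm_le_of_le hX hm') ?_
        refine three (hV.nm d) hX hm' hKΓ ?_ ?_
        · rw [commutator_comm]
          exact (commutator_mono le_rfl (commutator_mono le_rfl (hK H hH))).trans
            (ihd (m + 1) (by omega))
        · refine hV.hall (hF H hH) m d (comm_le_of_le hKΓ hX) ?_
          refine hV.comm_le _ ?_ (hF H hH)
          rw [commutator_comm, show d + m + 1 = j by omega]; exact hXK
    intro g hg
    refine hV.mem_succ_of_gen (S := ⋃ H ∈ F, (H : Set G)) ?_ ?_ j (hX hg) ?_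
    · rw [hΓ]
      exact sSup_le fun H hH y hy => Subgroup.subset_closure (Set.mem_biUnion hH hy)
    · exact Set.iUnion₂_subset fun H hH => hF H hH
    · intro y hy
      obtain ⟨H, hH, hy⟩ := Set.mem_iUnion₂.1 hy
      exact key H hH j 0 (by simp) (commutator_mem_commutator hg hy)

lemma nil_sSup {K : Subgroup G} {F : Set (Subgroup G)} (hK : ∀ H ∈ F, K ≤ H) (hKΓ : K ≤ sSup F)
    {s : ℕ} (hs : lc K s = ⊥)
    (hc : ∀ H ∈ F, ∀ j ≤ s, centralizer (lc K j : Set G) ≤ centralizer (lc H j : Set G)) :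
    Nil (sSup F) := by
  obtain ⟨V, hV, h0⟩ := exists_up (nm_bot (sSup F)) bot_le
  have hb := hV.bprime h0 rfl hK hKΓ hc
  have key : ∀ d i, i + d = s → lc K i ≤ V d := by
    intro d
    induction d with
    | zero => intro i hi; rw [show i = s by omega, hs]; exact bot_le
    | succ d ih =>
      intro i hi
      exact hb d (by omega) _ ((lc_le K i).trans hKΓ) (ih (i + 1) (by omega))
  have h1 : K ≤ V s := key s 0 (by simp)
  refine hV.nil h0 (hb s le_rfl _ le_rfl ?_)
  rw [commutator_comm]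
  exact (commutator_mono h1 le_rfl).trans ((hV.nm s).le_left le_rfl)

/-- The Fitting subgroup of `W`. -/
def fit (W : Subgroup G) : Subgroup G where
  carrier := {x | ∃ P ≤ W, Nil P ∧ Nm W P ∧ x ∈ P}
  one_mem' := ⟨⊥, bot_le, nil_bot, nm_bot W, one_mem _⟩
  mul_mem' := by
    rintro a b ⟨P, hP, hP1, hP2, ha⟩ ⟨Q, hQ, hQ1, hQ2, hb⟩
    exact ⟨P ⊔ Q, sup_le hP hQ, fitting hP1 hQ1 ((sup_le hP hQ).trans hP2)
      ((sup_le hP hQ).trans hQ2), hP2.sup hQ2, mul_mem (mem_sup_left ha) (mem_sup_right hb)⟩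
  inv_mem' := by
    rintro a ⟨P, hP, hP1, hP2, ha⟩
    exact ⟨P, hP, hP1, hP2, inv_mem ha⟩

lemma fit_le (W : Subgroup G) : fit W ≤ W := fun _ ⟨_, hP, _, _, ha⟩ => hP ha

lemma fit_fin {W : Subgroup G} (T : Finset G) (hT : (↑T : Set G) ⊆ fit W) :
    ∃ P ≤ W, Nil P ∧ Nm W P ∧ (↑T : Set G) ⊆ P := by
  classical
  induction T using Finset.induction_on with
  | empty => exact ⟨⊥, bot_le, nil_bot, nm_bot W, by simp⟩
  | insert a T _ ih =>
    rw [Finset.coe_insert, Set.insert_subset_iff] at hT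
    obtain ⟨P, hP, hP1, hP2, ha⟩ := hT.1
    obtain ⟨Q, hQ, hQ1, hQ2, hb⟩ := ih hT.2
    refine ⟨P ⊔ Q, sup_le hP hQ, fitting hP1 hQ1 ((sup_le hP hQ).trans hP2)
      ((sup_le hP hQ).trans hQ2), hP2.sup hQ2, ?_⟩
    rw [Finset.coe_insert]
    exact Set.insert_subset (mem_sup_left ha) fun y hy => mem_sup_right (hb hy)

lemma IsMc.nil_of_comm (h : IsMc G) {W : Subgroup G} (hW : W ≤ fit W) (hD : Nil ⁅W, W⁆) :
    Nil W := by
  obtain ⟨V, hV, h0⟩ := exists_up (nm_bot W) bot_le
  have hDn : Nm W ⁅W, W⁆ := (nm_self W).comm (nm_self W)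
  have hDW : ⁅W, W⁆ ≤ W := comm_le_of_le le_rfl le_rfl
  have step : ∀ Z : Subgroup G, Nm W Z → Z ≤ ⁅W, W⁆ → ∀ m, ⁅Z, ⁅W, W⁆⁆ ≤ V m → ∃ m', Z ≤ V m' := by
    intro Z hZ hZD m hm
    obtain ⟨T, hT, hc⟩ := h.delta W m
    obtain ⟨P, hP, hP1, hP2, hTP⟩ := fit_fin T (hT.trans hW)
    have hKW : P ⊔ ⁅W, W⁆ ≤ W := sup_le hP hDW
    have hKn : Nm W (P ⊔ ⁅W, W⁆) := hP2.sup hDn
    obtain ⟨c, hcK⟩ : Nil (P ⊔ ⁅W, W⁆) := fitting hP1 hD (hKW.trans hP2) (hKW.trans hDn)
    generalize hKdef : P ⊔ ⁅W, W⁆ = K at hKW hKn hcK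
    have hDK : ⁅W, W⁆ ≤ K := hKdef ▸ le_sup_right
    have hb := hV.bprime (F := {W}) (K := K) h0 (by simp) (by simpa using hKW) hKW (s := m)
      (by simpa using hc K (hTP.trans (hKdef ▸ le_sup_left : P ≤ K)))
    have hPj : ∀ d, ∀ X : Subgroup G, X ≤ Z → ⁅X, K⁆ ≤ V (m + d) → X ≤ V (m + d + 1) := by
      intro d
      induction d with
      | zero => exact fun X hX hXK => hb m le_rfl X (hX.trans (hZD.trans hDW)) hXK
      | succ d ih =>
        intro X hX hXK
        have hXW : X ≤ W := hX.trans (hZD.trans hDW)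
        refine hV.le_of_comm _ hXW (ih _ ((commutator_mono hX le_rfl).trans (hZ.le_left le_rfl)) ?_)
        refine three (hV.nm _) hXW le_rfl hKW ?_ ?_
        · rw [commutator_comm]
          exact (commutator_mono hX (commutator_mono le_rfl hKW)).trans
            (hm.trans (hV.mono (Nat.le_add_right _ _)))
        · refine hV.comm_le _ ?_ le_rfl
          rw [commutator_comm]; exact hXK
    have key : ∀ d t, t + d = c → Z ⊓ lc K t ≤ V (m + d) := by
      intro d
      induction d with
      | zero => intro t ht; rw [show t = c by omega, hcK, inf_bot_eq]; exact bot_le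
      | succ d ih =>
        intro t ht
        refine hPj d _ inf_le_left (le_trans ?_ (ih (t + 1) (by omega)))
        exact le_inf ((commutator_mono inf_le_left le_rfl).trans (hZ.le_left hKW))
          (commutator_mono inf_le_right le_rfl)
    exact ⟨m + c, le_trans (le_inf le_rfl (hZD.trans hDK)) (key c 0 (by simp))⟩
  obtain ⟨c, hc⟩ := hD
  have key : ∀ d i, i + d = c → ∃ m, lc ⁅W, W⁆ i ≤ V m := by
    intro d
    induction d with
    | zero => intro i hi; exact ⟨0, by rw [show i = c by omega, hc]; exact bot_le⟩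
    | succ d ih =>
      intro i hi
      obtain ⟨m, hm⟩ := ih (i + 1) (by omega)
      exact step _ (hDn.lc i) (lc_le _ i) m hm
  obtain ⟨m, hm⟩ := key c 0 (by simp)
  exact hV.nil h0 (hV.le_of_comm m le_rfl hm)

/-- Soluble subgroups. -/
inductive Sol : Subgroup G → Prop
  | bot : Sol ⊥
  | step (W : Subgroup G) : Sol ⁅W, W⁆ → Sol W

lemma Sol.mono {W : Subgroup G} (h : Sol W) : ∀ {U : Subgroup G}, U ≤ W → Sol U := by
  induction h with
  | bot => intro U hU; rw [le_bot_iff.1 hU]; exact Sol.bot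
  | step W _ ih => intro U hU; exact Sol.step U (ih (commutator_mono hU hU))

lemma IsMc.nil_of_sol (h : IsMc G) {W : Subgroup G} (hS : Sol W) : W ≤ fit W → Nil W := by
  induction hS with
  | bot => exact fun _ => nil_bot
  | step W _ ih =>
    intro hW
    have hDW : ⁅W, W⁆ ≤ W := comm_le_of_le le_rfl le_rfl
    refine h.nil_of_comm hW (ih fun x hx => ?_)
    obtain ⟨P, _, hP1, hP2, hxP⟩ := hW (hDW hx)
    exact ⟨P ⊓ ⁅W, W⁆, inf_le_right, hP1.mono inf_le_left,
      Nm.inf (hDW.trans hP2) (nm_self _), hxP, hx⟩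

/-- Conjugate subgroup. -/
def cj (g : G) (P : Subgroup G) : Subgroup G := P.comap (MulAut.conj g).toMonoidHom

lemma mem_cj {g y : G} {P : Subgroup G} : y ∈ cj g P ↔ g * y * g⁻¹ ∈ P := Iff.rfl

lemma Nil.cj {P : Subgroup G} (h : Nil P) (g : G) : Nil (cj g P) := by
  obtain ⟨c, hc⟩ := h
  have : ∀ n, lc (Mc.cj g P) n ≤ Mc.cj g (lc P n) := by
    intro n
    induction n with
    | zero => exact le_rfl
    | succ n ih =>
      refine commutator_le.2 fun a ha b hb => ?_
      have := commutator_mem_commutator (mem_cj.1 (ih ha)) (mem_cj.1 hb)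
      have e : g * ⁅a, b⁆ * g⁻¹ = ⁅g * a * g⁻¹, g * b * g⁻¹⁆ := by
        simp only [commutatorElement_def]; group
      rw [mem_cj, e]
      exact this
  refine ⟨c, le_bot_iff.1 fun y hy => ?_⟩
  have := this c hy
  rw [mem_cj, hc, mem_bot] at this
  rw [mem_bot]
  simpa using this

lemma IsMc.fit_step (h : IsMc G) {M M' : Subgroup G} (hle : M ≤ M') (hn : Nm M' M) (hS : Sol M) :
    fit M ≤ fit M' := by
  have h1 : Nil (fit M) := by
    refine h.nil_of_sol (hS.mono (fit_le M)) fun x hx => ?_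
    obtain ⟨P, hP, hP1, hP2, hxP⟩ := hx
    exact ⟨P, fun y hy => ⟨P, hP, hP1, hP2, hy⟩, hP1, (fit_le M).trans hP2, hxP⟩
  have h2 : Nm M' (fit M) := by
    refine nm_of fun g hg x hx => ?_
    obtain ⟨P, hP, hP1, hP2, hxP⟩ := hx
    refine ⟨cj g⁻¹ P, fun y hy => ?_, hP1.cj _, nm_of fun a ha y hy => ?_, ?_⟩
    · have := hn.conj hg (hP (mem_cj.1 hy))
      convert this using 1; group
    · rw [mem_cj] at hy ⊢
      have := hP2.conj (hn.conj' hg ha) hy
      convert this using 1; group
    · rw [mem_cj]; convert hxP using 1; group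
  exact fun x hx => ⟨fit M, (fit_le M).trans hle, h1, h2, hx⟩

lemma IsUp.nm_chain {Γ A : Subgroup G} {V : ℕ → Subgroup G} (hV : IsUp Γ V) (hA : A ≤ Γ) (j : ℕ) :
    Nm (V (j + 1) ⊔ A) (V j ⊔ A) := by
  refine sup_le (nm_of fun v hv y hy => ?_) (nm_of_le le_sup_right)
  have : v * y * v⁻¹ = ⁅v, y⁆ * y := by simp only [commutatorElement_def]; group
  rw [this]
  exact mul_mem (mem_sup_left (((hV.succ j v).1 hv).2 y (sup_le (hV.le j) hA hy))) hy

/-- Gruenberg: a bounded left Engel element of a soluble group lies in the Fitting subgroup. -/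
lemma IsMc.gruenberg (h : IsMc G) {e : G} {n : ℕ} (hE : ∀ y, (eng e)^[n] y = 1) {W : Subgroup G}
    (hS : Sol W) : e ∈ normalizer (W : Set G) → e ∈ fit (W ⊔ zpowers e) := by
  induction hS with
  | bot =>
    intro _
    rw [bot_sup_eq]
    exact ⟨zpowers e, le_rfl, nil_zpowers e, nm_self _, mem_zpowers e⟩
  | step W hW ih =>
    intro he
    have hN : Nm (W ⊔ zpowers e) W := sup_le (nm_self W) (by rwa [zpowers_le])
    have hSΓ : Sol (W ⊔ zpowers e) :=
      Sol.step _ ((Sol.step W hW).mono (comm_sup_zpowers_le hN le_rfl))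
    obtain ⟨V, hV, h0⟩ := exists_up (hN.comm hN) (comm_le_of_le le_sup_left le_sup_left)
    have h1 : W ≤ V n := fun u hu => hV.engel rfl hN le_sup_left h0.ge n u hu (hE u)
    have key : ∀ j, e ∈ fit (V j ⊔ zpowers e) := by
      intro j
      induction j with
      | zero => rw [h0]; exact ih (hN.comm hN (mem_sup_right (mem_zpowers e)))
      | succ j ihj =>
        exact h.fit_step (sup_le_sup_right (hV.le_succ j) _) (hV.nm_chain le_sup_right j)
          (hSΓ.mono (sup_le (hV.le j) le_sup_right)) ihj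
    have : V n ⊔ zpowers e = W ⊔ zpowers e :=
      le_antisymm (sup_le (hV.le n) le_sup_right) (sup_le_sup_right h1 _)
    exact this ▸ key n

/-- Locally nilpotent subgroups. -/
def LocNil (L : Subgroup G) : Prop := ∀ T : Finset G, (↑T : Set G) ⊆ L → Nil (closure (↑T : Set G))

/-- Bryant: locally nilpotent subgroups are soluble. -/
lemma IsMc.bryant (h : IsMc G) {L : Subgroup G} (hL : LocNil L) : Sol L := by
  suffices H : ∀ S : Set G, ∀ L : Subgroup G, LocNil L → L ≤ centralizer S → Sol L from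
    H ∅ L hL (fun g _ => mem_centralizer_iff.2 (by simp))
  intro S
  induction S using h.wf.induction with
  | _ S ih =>
    intro L hL hLS
    obtain ⟨T, hT, hc⟩ := h.delta L 1
    have hc1 := hc (closure (↑T : Set G)) Subgroup.subset_closure 1 le_rfl
    have hKL : closure (↑T : Set G) ≤ L := (closure_le L).2 hT
    have hnil := hL T hT
    generalize closure (↑T : Set G) = K at hc1 hKL hnil
    have hDL : ⁅L, L⁆ ≤ L := comm_le_of_le le_rfl le_rfl
    refine Sol.step L ?_
    by_cases h1 : lc K 1 = ⊥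
    · refine Sol.step _ ?_
      have : ⁅⁅L, L⁆, ⁅L, L⁆⁆ = (⊥ : Subgroup G) := by
        rw [commutator_eq_bot_iff_le_centralizer]
        refine fun g _ => hc1 ?_
        rw [h1, mem_centralizer_iff]
        intro y hy
        rw [SetLike.mem_coe, mem_bot] at hy
        simp [hy]
      rw [this]; exact Sol.bot
    · classical
      have hex : ∃ i, lc K (i + 2) = ⊥ := by
        obtain ⟨c, hc⟩ := hnil
        exact ⟨c, le_bot_iff.1 (hc ▸ lc_anti K (Nat.le_add_right c 2))⟩
      have h2 := Nat.find_spec hex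
      have h3 : lc K (Nat.find hex + 1) ≠ ⊥ := by
        rcases Nat.eq_zero_or_pos (Nat.find hex) with h0 | h0
        · rwa [h0]
        · have := Nat.find_min hex (Nat.sub_one_lt h0.ne')
          rwa [show Nat.find hex - 1 + 2 = Nat.find hex + 1 by omega] at this
      generalize Nat.find hex = i at h2 h3
      have h4 : ⁅⁅K, K⁆, lc K i⁆ = ⊥ := by
        refine commutator_commutator_eq_bot_of_rotate ?_ h2
        rw [commutator_comm K]; exact h2
      rw [commutator_eq_bot_iff_le_centralizer, le_centralizer_iff] at h4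
      have h5 : ⁅L, L⁆ ≤ centralizer (lc K i : Set G) := le_centralizer_iff.1 (h4.trans hc1)
      refine ih (S ∪ lc K i) (lt_of_le_of_ne (centralizer_le Set.subset_union_left) fun he => h3 ?_)
        _ (fun T hT => hL T (hT.trans hDL)) ?_
      · rw [lc_succ, commutator_eq_bot_iff_le_centralizer, le_centralizer_iff]
        exact (hKL.trans hLS).trans (he.ge.trans (centralizer_le Set.subset_union_right))
      · intro g hg
        rw [mem_centralizer_iff]
        rintro y (hy | hy)
        · exact mem_centralizer_iff.1 (hLS (hDL hg)) y hy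
        · exact mem_centralizer_iff.1 (h5 hg) y hy

lemma IsMc.nil_of_locNil (h : IsMc G) {S : Set G} {n : ℕ} (hE : ∀ e ∈ S, ∀ y, (eng e)^[n] y = 1)
    (hL : LocNil (closure S)) : Nil (closure S) := by
  have hS := h.bryant hL
  refine h.nil_of_sol hS ((closure_le _).2 fun e he => ?_)
  have h1 : e ∈ closure S := Subgroup.subset_closure he
  have := h.gruenberg (hE e he) hS (nm_self _ h1)
  rwa [sup_eq_left.2 (by rwa [zpowers_le])] at this

end Pool.Agent.H65.Mc
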