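import Pool.Agent.H65.Mc2

set_option autoImplicit false

/-! Baer's argument under the minimal condition on centralizers: a conjugation-closed set of left
`n`-Engel elements generates a nilpotent subgroup. -/
namespace Pool.Agent.H65.Mc
open Subgroup
open scoped commutatorElement

variable {G : Type} [Group G]

/-- Generated by its elements from `C`. -/
def CG (C : Set G) (P : Subgroup G) : Prop := P ≤ closure (C ∩ P)

/-- Nilpotent and generated by its elements from `C`. -/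
def NC (C : Set G) (P : Subgroup G) : Prop := Nil P ∧ CG C P

/-- The subgroup generated by `C ∩ H ∩ L`. -/
def gen (C : Set G) (H L : Subgroup G) : Subgroup G := closure (C ∩ (H ⊓ L : Subgroup G))

lemma gen_le (C : Set G) (H L : Subgroup G) : gen C H L ≤ H ⊓ L :=
  (closure_le _).2 Set.inter_subset_right

lemma cg_gen (C : Set G) (H L : Subgroup G) : CG C (gen C H L) :=
  Subgroup.closure_mono fun _ hy => ⟨hy.1, Subgroup.subset_closure hy⟩

lemma CG.le_gen {C : Set G} {P H L : Subgroup G} (h : CG C P) (hH : P ≤ H) (hL : P ≤ L) :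
    P ≤ gen C H L :=
  le_trans h (Subgroup.closure_mono fun _ hy => ⟨hy.1, hH hy.2, hL hy.2⟩)

lemma gen_comm (C : Set G) (H L : Subgroup G) : gen C H L = gen C L H := by
  rw [gen, gen, inf_comm]

lemma cj_mono (g : G) {P Q : Subgroup G} (h : P ≤ Q) : cj g P ≤ cj g Q := fun _ hy => h hy

lemma cj_cj (g : G) (P : Subgroup G) : cj g⁻¹ (cj g P) = P := by
  ext y
  rw [mem_cj, mem_cj, show g * (g⁻¹ * y * g⁻¹⁻¹) * g⁻¹ = y by group]

lemma cj_cj' (g : G) (P : Subgroup G) : cj g (cj g⁻¹ P) = P := by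
  simpa using cj_cj g⁻¹ P

/-- The standing hypotheses. -/
structure Hyp (C : Set G) (n : ℕ) : Prop where
  mc : IsMc G
  conj : ∀ e ∈ C, ∀ g, g * e * g⁻¹ ∈ C
  engel : ∀ e ∈ C, ∀ y, (eng e)^[n] y = 1

/-- Intersections of two distinct maximal subgroups. -/
def DD (C : Set G) : Set (Subgroup G) :=
  {D | ∃ H L, Maximal (NC C) H ∧ Maximal (NC C) L ∧ H ≠ L ∧ D = gen C H L}

lemma DD.nc {C : Set G} {D : Subgroup G} (h : D ∈ DD C) : NC C D := by
  obtain ⟨H, L, hH, _, _, rfl⟩ := h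
  exact ⟨hH.1.1.mono ((gen_le C H L).trans inf_le_left), cg_gen C H L⟩

lemma cg_sSup {C : Set G} {F : Set (Subgroup G)} (hF : ∀ P ∈ F, CG C P) : CG C (sSup F) :=
  sSup_le fun P hP => le_trans (hF P hP)
    (Subgroup.closure_mono fun _ hy => ⟨hy.1, le_sSup hP hy.2⟩)

namespace Hyp
variable {C : Set G} {n : ℕ}

lemma cg_cj (h : Hyp C n) {P : Subgroup G} (hP : CG C P) (g : G) : CG C (cj g P) := by
  have : closure (C ∩ P) ≤ cj g⁻¹ (closure (C ∩ cj g P)) := by
    refine (closure_le _).2 fun y hy => ?_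
    refine mem_cj.2 (Subgroup.subset_closure ⟨h.conj y hy.1 g⁻¹, mem_cj.2 ?_⟩)
    rw [show g * (g⁻¹ * y * g⁻¹⁻¹) * g⁻¹ = y by group]; exact hy.2
  have h2 := cj_mono g (le_trans hP this)
  rwa [cj_cj'] at h2

lemma nc_cj (h : Hyp C n) {P : Subgroup G} (hP : NC C P) (g : G) : NC C (cj g P) :=
  ⟨hP.1.cj g, h.cg_cj hP.2 g⟩

lemma max_cj (h : Hyp C n) {P : Subgroup G} (hP : Maximal (NC C) P) (g : G) :
    Maximal (NC C) (cj g P) := by
  refine ⟨h.nc_cj hP.1 g, fun Q hQ hle => ?_⟩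
  have h1 := cj_mono g⁻¹ hle
  rw [cj_cj] at h1
  have h2 := cj_mono g (hP.2 (h.nc_cj hQ g⁻¹) h1)
  rwa [cj_cj'] at h2

lemma nc_sup (h : Hyp C n) {P : Subgroup G} (hP : NC C P) {e : G} (he : e ∈ C)
    (hn : e ∈ normalizer (P : Set G)) : NC C (P ⊔ zpowers e) := by
  refine ⟨nil_sup_engel hP.1 hn (h.engel e he), sup_le (le_trans hP.2
    (Subgroup.closure_mono fun _ hy => ⟨hy.1, mem_sup_left hy.2⟩)) ?_⟩
  rw [zpowers_le]
  exact Subgroup.subset_closure ⟨he, mem_sup_right (mem_zpowers e)⟩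

lemma nc_sSup (h : Hyp C n) {F : Set (Subgroup G)} (hne : F.Nonempty) (hd : DirectedOn (· ≤ ·) F)
    (hF : ∀ P ∈ F, NC C P) : NC C (sSup F) := by
  have h1 : CG C (sSup F) := cg_sSup fun P hP => (hF P hP).2
  have h2 : closure (C ∩ (sSup F : Subgroup G)) = sSup F :=
    le_antisymm ((closure_le _).2 Set.inter_subset_right) h1
  refine ⟨?_, h1⟩
  rw [← h2]
  refine h.mc.nil_of_locNil (fun e he => h.engel e he.1) fun T hT => ?_
  rw [h2] at hT
  have : ∃ P ∈ F, (↑T : Set G) ⊆ P := by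
    classical
    induction T using Finset.induction_on with
    | empty => obtain ⟨P, hP⟩ := hne; exact ⟨P, hP, by simp⟩
    | insert a T _ ih =>
      rw [Finset.coe_insert, Set.insert_subset_iff] at hT
      obtain ⟨P, hP, hTP⟩ := ih hT.2
      obtain ⟨Q, hQ, ha⟩ := (mem_sSup_of_directedOn hne hd).1 hT.1
      obtain ⟨R, hR, hPR, hQR⟩ := hd P hP Q hQ
      refine ⟨R, hR, ?_⟩
      rw [Finset.coe_insert]
      exact Set.insert_subset (hQR ha) fun y hy => hPR (hTP hy)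
  obtain ⟨P, hP, hTP⟩ := this
  exact (hF P hP).1.mono ((closure_le P).2 hTP)

lemma exists_max (h : Hyp C n) {P : Subgroup G} (hP : NC C P) : ∃ H, P ≤ H ∧ Maximal (NC C) H :=
  zorn_le_nonempty₀ {Q | NC C Q} (fun c hc hch y hy =>
    ⟨sSup c, h.nc_sSup ⟨y, hy⟩ hch.directedOn hc, fun _ hz => le_sSup hz⟩) P hP

lemma exists_norm (h : Hyp C n) {H D : Subgroup G} (hH : NC C H) (hD : CG C D) (hle : D ≤ H)
    (hn : ¬ H ≤ D) : ∃ e ∈ C, e ∈ H ∧ e ∉ D ∧ e ∈ normalizer (D : Set G) := by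
  by_contra hcon
  push Not at hcon
  obtain ⟨c, hc⟩ := hH.1
  have key : ∀ d j, j + d = c → ∀ e ∈ C, e ∈ D ⊔ lc H j → e ∈ D := by
    intro d
    induction d with
    | zero =>
      intro j hj e _ he
      rwa [show j = c by omega, hc, sup_bot_eq] at he
    | succ d ih =>
      intro j hj e heC he
      have h1 : Nm (D ⊔ lc H j) (D ⊔ lc H (j + 1)) := by
        refine sup_le (nm_of_le le_sup_left) (nm_of fun v hv y hy => ?_)
        have : v * y * v⁻¹ = ⁅v, y⁆ * y := by simp only [commutatorElement_def]; group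
        rw [this]
        exact mul_mem (mem_sup_right (commutator_mem_commutator hv
          (sup_le hle (lc_le H _) hy))) hy
      have h2 : Nm (D ⊔ lc H j) D := by
        refine nm_of fun g hg y hy => ?_
        have : closure (C ∩ D) ≤ cj g D := (closure_le _).2 fun z hz =>
          ih (j + 1) (by omega) _ (h.conj z hz.1 g) (h1.conj hg (mem_sup_left hz.2))
        exact this (hD hy)
      by_contra heD
      exact hcon e heC (sup_le hle (lc_le H j) he) heD (h2 he)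
  exact hn (le_trans hH.2 ((closure_le _).2 fun e he => key c 0 (by simp) e he.1
    (mem_sup_right he.2)))

lemma exists_good (h : Hyp C n) (hne : (DD C).Nonempty) :
    ∃ D ∈ DD C, Nil (sSup {D' | D' ∈ DD C ∧ D ≤ D'}) := by
  have step : ∀ (j : ℕ) (D : DD C), ∃ D₁ : DD C, D.1 ≤ D₁.1 ∧ ∀ D' ∈ DD C, D₁.1 ≤ D' →
      centralizer (lc D₁.1 j : Set G) ≤ centralizer (lc D' j : Set G) := by
    intro j D
    obtain ⟨_, ⟨D₁, hD₁, hle, rfl⟩, hmin⟩ := h.mc.wf.has_min
      {S | ∃ D' ∈ DD C, D.1 ≤ D' ∧ S = (lc D' j : Set G)} ⟨_, D.1, D.2, le_rfl, rfl⟩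
    refine ⟨⟨D₁, hD₁⟩, hle, fun D' hD' hle' => ?_⟩
    have h1 : centralizer (lc D' j : Set G) ≤ centralizer (lc D₁ j : Set G) :=
      centralizer_le (lc_mono hle' j)
    exact (eq_of_le_of_not_lt h1 (hmin _ ⟨D', hD', hle.trans hle', rfl⟩)).ge
  choose f hf1 hf2 using step
  obtain ⟨D0, hD0⟩ := hne
  let s : ℕ → DD C := fun j => Nat.rec (f 0 ⟨D0, hD0⟩) (fun j D => f (j + 1) D) j
  have hmono : Monotone fun j => (s j).1 := monotone_nat_of_le_succ fun j => hf1 (j + 1) (s j)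
  have hs : ∀ j, ∀ D' ∈ DD C, (s j).1 ≤ D' →
      centralizer (lc (s j).1 j : Set G) ≤ centralizer (lc D' j : Set G) := by
    intro j
    cases j with
    | zero => exact hf2 0 _
    | succ j => exact hf2 (j + 1) (s j)
  obtain ⟨c, hc⟩ := (h.nc_sSup (F := Set.range fun j => (s j).1) (Set.range_nonempty _)
    (directedOn_range.2 hmono.directed_le) (by rintro _ ⟨j, rfl⟩; exact DD.nc (s j).2)).1
  refine ⟨(s c).1, (s c).2, nil_sSup (K := (s c).1) (s := c) (fun H hH => hH.2)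
    (le_sSup ⟨(s c).2, le_rfl⟩) (le_bot_iff.1 ((lc_mono (le_sSup (by exact ⟨c, rfl⟩)) c).trans hc.le)) ?_⟩
  intro H hH j hj
  exact (centralizer_le (lc_mono (hmono hj) j)).trans (hs j H hH.1 ((hmono hj).trans hH.2))

lemma nm_cone (h : Hyp C n) (D : Subgroup G) :
    Nm (normalizer (D : Set G)) (sSup {D' | D' ∈ DD C ∧ D ≤ D'}) := by
  refine nm_of fun g hg y hy => ?_
  have : sSup {D' | D' ∈ DD C ∧ D ≤ D'} ≤ cj g (sSup {D' | D' ∈ DD C ∧ D ≤ D'}) := by
    refine sSup_le ?_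
    rintro _ ⟨⟨H, L, hH, hL, hHL, rfl⟩, hle⟩
    have h1 : cj g⁻¹ (gen C H L) ≤ gen C (cj g⁻¹ H) (cj g⁻¹ L) :=
      (h.cg_cj (cg_gen C H L) g⁻¹).le_gen (cj_mono _ ((gen_le C H L).trans inf_le_left))
        (cj_mono _ ((gen_le C H L).trans inf_le_right))
    have h2 : D ≤ cj g⁻¹ (gen C H L) := fun y hy =>
      mem_cj.2 (hle (Nm.conj (Γ := normalizer (D : Set G)) le_rfl (inv_mem hg) hy))
    have h3 : gen C (cj g⁻¹ H) (cj g⁻¹ L) ≤ sSup {D' | D' ∈ DD C ∧ D ≤ D'} := by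
      refine le_sSup ⟨⟨_, _, h.max_cj hH _, h.max_cj hL _, fun he => hHL ?_, rfl⟩, h2.trans h1⟩
      rw [← cj_cj' g H, he, cj_cj']
    have h4 := cj_mono g (h1.trans h3)
    rwa [cj_cj'] at h4
  exact this hy

lemma exists_maxDD (h : Hyp C n) (hne : (DD C).Nonempty) : ∃ D, Maximal (· ∈ DD C) D := by
  obtain ⟨D, hD, hnil⟩ := h.exists_good hne
  have hE : ∀ D₁, D ≤ D₁ → NC C (sSup {D' | D' ∈ DD C ∧ D₁ ≤ D'}) := fun D₁ hle =>
    ⟨hnil.mono (sSup_le_sSup fun D' hD' => ⟨hD'.1, hle.trans hD'.2⟩),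
      cg_sSup fun P hP => (DD.nc hP.1).2⟩
  obtain ⟨L, hEL, hL⟩ := h.exists_max (hE D le_rfl)
  have hDL : D ≤ L := le_trans (le_sSup (by exact ⟨hD, le_rfl⟩)) hEL
  obtain ⟨H, hH, hHL, hDH⟩ : ∃ H, Maximal (NC C) H ∧ H ≠ L ∧ D ≤ H := by
    obtain ⟨H, K, hH, hK, hHK, rfl⟩ := hD
    by_cases hh : H = L
    · exact ⟨K, hK, fun hk => hHK (hh.trans hk.symm), (gen_le C H K).trans inf_le_right⟩
    · exact ⟨H, hH, hh, (gen_le C H K).trans inf_le_left⟩
  have hD1 : gen C H L ∈ DD C := ⟨H, L, hH, hL, hHL, rfl⟩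
  have hle1 : D ≤ gen C H L := (DD.nc hD).2.le_gen hDH hDL
  obtain ⟨e, heC, heH, heD, heN⟩ := h.exists_norm hH.1 (cg_gen C H L)
    ((gen_le C H L).trans inf_le_left)
    (fun hle => hHL (hH.eq_of_le hL.1 (hle.trans ((gen_le C H L).trans inf_le_right))))
  obtain ⟨L', hL', hmax⟩ := h.exists_max (h.nc_sup (hE _ hle1) heC (h.nm_cone _ heN))
  have hne' : L ≠ L' := by
    rintro rfl
    exact heD (Subgroup.subset_closure ⟨heC, heH, hL' (mem_sup_right (mem_zpowers e))⟩)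
  have h1 : sSup {D' | D' ∈ DD C ∧ gen C H L ≤ D'} ≤ gen C L L' :=
    (hE _ hle1).2.le_gen ((sSup_le_sSup fun D' hD' => by
      exact ⟨hD'.1, hle1.trans hD'.2⟩).trans hEL)
      (le_sup_left.trans hL')
  refine ⟨gen C L L', ⟨L, L', hL, hmax, hne', rfl⟩, fun D' hD' hle => ?_⟩
  have h2 : gen C H L ≤ sSup {D' | D' ∈ DD C ∧ gen C H L ≤ D'} := le_sSup ⟨hD1, le_rfl⟩
  exact le_trans (le_sSup (by exact ⟨hD', (h2.trans h1).trans hle⟩)) h1

lemma mem_max (h : Hyp C n) {H : Subgroup G} (hH : Maximal (NC C) H) {e : G} (he : e ∈ C)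
    (hn : e ∈ normalizer (H : Set G)) : e ∈ H :=
  hH.2 (h.nc_sup hH.1 he hn) le_sup_left (mem_sup_right (mem_zpowers e))

lemma dd_empty (h : Hyp C n) : ¬ (DD C).Nonempty := by
  intro hne
  obtain ⟨D, hD, hmax⟩ := h.exists_maxDD hne
  obtain ⟨H, L, hH, hL, hHL, hDe⟩ := id hD
  have hDH : D ≤ H := hDe ▸ (gen_le C H L).trans inf_le_left
  have hDL : D ≤ L := hDe ▸ (gen_le C H L).trans inf_le_right
  obtain ⟨e, heC, heH, heD, heN⟩ := h.exists_norm hH.1 (DD.nc hD).2 hDH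
    (fun hle => hHL (hH.eq_of_le hL.1 (hle.trans hDL)))
  obtain ⟨k, hkC, hkL, hkD, hkN⟩ := h.exists_norm hL.1 (DD.nc hD).2 hDL
    (fun hle => hHL (hL.eq_of_le hH.1 (hle.trans hDH)).symm)
  have key : ∀ g ∈ normalizer (D : Set G), g⁻¹ * e * g ∈ H → g ∈ normalizer (H : Set G) := by
    intro g hg hge
    have h1 : cj g H = H := by
      by_contra hne'
      have h2 : D ≤ gen C (cj g H) H := (DD.nc hD).2.le_gen
        (fun y hy => mem_cj.2 (hDH (Nm.conj (Γ := normalizer (D : Set G)) le_rfl hg hy))) hDH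
      have h3 := hmax ⟨_, _, h.max_cj hH g, hH, hne', rfl⟩ h2
      have h4 : g⁻¹ * e * g ∈ D := by
        refine h3 (Subgroup.subset_closure ⟨by simpa using h.conj e heC g⁻¹, mem_cj.2 ?_, hge⟩)
        rw [show g * (g⁻¹ * e * g) * g⁻¹ = e by group]; exact heH
      have h5 := Nm.conj (Γ := normalizer (D : Set G)) le_rfl hg h4
      rw [show g * (g⁻¹ * e * g) * g⁻¹ = e by group] at h5
      exact heD h5
    rw [mem_normalizer_iff]
    intro y
    rw [← mem_cj, h1]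
  have hdown : ∀ m y, y ∈ normalizer (D : Set G) → (eng e)^[m] y = 1 →
      y ∈ normalizer (H : Set G) := by
    intro m
    induction m with
    | zero =>
      intro y _ h1
      have : y = 1 := h1
      rw [this]; exact one_mem _
    | succ m ih =>
      intro y hy h1
      have h2 : eng e y ∈ normalizer (H : Set G) :=
        ih _ (mul_mem (inv_mem hy) (mul_mem (mul_mem (inv_mem heN) hy) heN)) h1
      refine key y hy (h.mem_max hH (by simpa using h.conj e heC y⁻¹) ?_)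
      have : y⁻¹ * e * y = e * (eng e y)⁻¹ := by simp only [eng]; group
      rw [this]
      exact mul_mem (nm_self H heH) (inv_mem h2)
  have hkH : k ∈ H := h.mem_max hH hkC (hdown n k hkN (h.engel e heC k))
  exact hkD (hDe ▸ Subgroup.subset_closure ⟨hkC, hkH, hkL⟩)

theorem nil_closure (h : Hyp C n) : Nil (closure C) := by
  obtain ⟨M, _, hM⟩ := h.exists_max (P := ⊥) ⟨nil_bot, bot_le⟩
  refine hM.1.1.mono ((closure_le M).2 fun e he => ?_)
  obtain ⟨H, hle, hH⟩ := h.exists_max (h.nc_sup (P := ⊥) ⟨nil_bot, bot_le⟩ he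
    (nm_bot ⊤ (mem_top e)))
  by_contra hne
  refine h.dd_empty ⟨_, H, M, hH, hM, ?_, rfl⟩
  rintro rfl
  exact hne (hle (mem_sup_right (mem_zpowers e)))

end Hyp

end Pool.Agent.H65.Mc
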