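import Pool.Agent.H65.Mc3

set_option autoImplicit false

/-! Bounded right Engel elements under the minimal condition on centralizers. -/
namespace Pool.Agent.H65.Mc
open Subgroup
open scoped commutatorElement

variable {G : Type} [Group G]

lemma eng_conj (g x : G) : ∀ n y, (eng (g * x * g⁻¹))^[n] (g * y * g⁻¹) = g * (eng x)^[n] y * g⁻¹
  | 0, _ => rfl
  | n + 1, y => by
    rw [Function.iterate_succ_apply, Function.iterate_succ_apply, ← eng_conj g x n]
    congr 1
    simp only [eng]; group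

/-- Heineken: the inverse of a right Engel element is a left Engel element. -/
lemma heineken {a : G} {m : ℕ} (h : ∀ x, (eng x)^[m] a = 1) (y : G) :
    (eng a⁻¹)^[m + 2] y = 1 := by
  have h1 : eng a⁻¹ (eng a⁻¹ y) = a * eng a⁻¹ (y⁻¹ * a * y⁻¹⁻¹) * a⁻¹ := by
    simp only [eng]; group
  have h2 := eng_conj a a⁻¹ m (eng a⁻¹ (y⁻¹ * a * y⁻¹⁻¹))
  rw [show a * a⁻¹ * a⁻¹ = a⁻¹ by group] at h2
  have h3 := eng_conj y⁻¹ (y * a⁻¹ * y⁻¹) (m + 1) a
  rw [show y⁻¹ * (y * a⁻¹ * y⁻¹) * y⁻¹⁻¹ = a⁻¹ by group] at h3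
  rw [Function.iterate_succ_apply, Function.iterate_succ_apply, h1, h2,
    ← Function.iterate_succ_apply, h3, Function.iterate_succ_apply', h]
  simp only [eng]; group

lemma nil_normalClosure (hG : IsMc G) {a : G} {m : ℕ} (h : ∀ x, (eng x)^[m] a = 1) :
    Nil (normalClosure ({a} : Set G)) := by
  have hH : Hyp {e | ∃ g, e = g * a⁻¹ * g⁻¹} (m + 2) := by
    refine ⟨hG, ?_, ?_⟩
    · rintro _ ⟨g, rfl⟩ k
      exact ⟨k * g, by group⟩
    · rintro _ ⟨g, rfl⟩ y
      have := eng_conj g a⁻¹ (m + 2) (g⁻¹ * y * g)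
      rw [show g * (g⁻¹ * y * g) * g⁻¹ = y by group, heineken h] at this
      simpa using this
  refine hH.nil_closure.mono ((closure_le _).2 fun y hy => ?_)
  obtain ⟨b, hb, hc⟩ := Group.mem_conjugatesOfSet_iff.1 hy
  rw [Set.mem_singleton_iff.1 hb] at hc
  obtain ⟨g, rfl⟩ := isConj_iff.1 hc
  rw [SetLike.mem_coe, ← inv_mem_iff]
  exact Subgroup.subset_closure ⟨g, by group⟩

/-- A Hall-type commutator estimate. -/
lemma hall_type {Γ X Y : Subgroup G} {U V W : ℕ → Subgroup G} (hU : IsUp Γ U) (hV : IsUp Γ V)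
    (hW : IsUp Γ W) (hX : Nm Γ X) (hY : Nm Γ Y) (h1 : ⁅U 0, Y⁆ ≤ W 0) (h2 : ⁅X, V 0⁆ ≤ W 0) :
    ∀ t r s, r + s = t → ⁅U r ⊓ X, V s ⊓ Y⁆ ≤ W t := by
  intro t
  induction t with
  | zero =>
    intro r s hrs
    rw [show r = 0 by omega]
    exact (commutator_mono inf_le_left inf_le_right).trans h1
  | succ t ih =>
    intro r s hrs
    rcases r with _ | r
    · exact ((commutator_mono inf_le_left inf_le_right).trans h1).trans (hW.mono (Nat.zero_le _))
    rcases s with _ | s
    · exact ((commutator_mono inf_le_right inf_le_left).trans h2).trans (hW.mono (Nat.zero_le _))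
    have hA : U (r + 1) ⊓ X ≤ Γ := inf_le_left.trans (hU.le _)
    have hB : V (s + 1) ⊓ Y ≤ Γ := inf_le_left.trans (hV.le _)
    refine hW.le_of_comm t (comm_le_of_le hA hB) (three (hW.nm t) hA hB le_rfl ?_ ?_)
    · rw [commutator_comm]
      refine le_trans (commutator_mono le_rfl (le_inf (hV.comm_le s inf_le_left le_rfl) ?_))
        (ih (r + 1) s (by omega))
      exact (commutator_mono inf_le_right le_rfl).trans (hY.le_left le_rfl)
    · rw [commutator_comm Γ]
      refine le_trans (commutator_mono (le_inf (hU.comm_le r inf_le_left le_rfl) ?_) le_rfl)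
        (ih r (s + 1) (by omega))
      exact (commutator_mono inf_le_right le_rfl).trans (hX.le_left le_rfl)

lemma le_up {Γ N : Subgroup G} {c m : ℕ} (hN : Nm Γ N) (hNΓ : N ≤ Γ) (hc : lc N c = ⊥)
    {W : ℕ → Subgroup G} (hW : IsUp Γ W) (hW0 : W 0 = lc N 1) (hm : N ≤ W m)
    {V : ℕ → Subgroup G} (hV : IsUp Γ V) : N ≤ V (c * (c * m)) := by
  choose U hU hU0 using fun i => exists_up (hN.lc (i + 1)) ((lc_le N _).trans hNΓ)
  have k1 : ∀ i, lc N i ≤ U i ((i + 1) * m) := by
    intro i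
    induction i with
    | zero =>
      rw [zero_add, one_mul]
      exact hm.trans ((hU 0).compare hW (by rw [hW0, hU0]) m)
    | succ i ih =>
      have := hall_type (hU i) hW (hU (i + 1)) (hN.lc i) hN (by rw [hU0, hU0]; exact le_rfl)
        (by
          rw [hW0, hU0, commutator_comm]
          have hi : lc N i ≤ Γ := (lc_le N i).trans hNΓ
          refine three (hN.lc _) hNΓ hNΓ hi ?_ le_rfl
          rw [commutator_comm N]; exact le_rfl) _ ((i + 1) * m) m rfl
      rw [Nat.succ_mul (i + 1)]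
      exact le_trans (commutator_mono (le_inf ih le_rfl) (le_inf hm le_rfl)) this
  have k2 : ∀ d i, i + d = c → lc N i ≤ V (d * (c * m)) := by
    intro d
    induction d with
    | zero => intro i hi; rw [show i = c by omega, hc]; exact bot_le
    | succ d ih =>
      intro i hi
      have h1 := (hV.shift (d * (c * m))).compare (hU i)
        (by rw [hU0]; exact ih (i + 1) (by omega)) (c * m)
      rw [Nat.succ_mul]
      exact ((k1 i).trans ((hU i).mono (Nat.mul_le_mul_right m (by omega)))).trans h1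
  exact k2 c 0 (by simp)

theorem main (hG : IsMc G) (a : G) (m : ℕ) (h : ∀ x, (eng x)^[m] a = 1) :
    ∃ n : ℕ, 1 ≤ n ∧ ∀ x : G, ∃ H : ℕ → Subgroup G,
      H 0 = zpowers x ∧ H n = zpowers x ⊔ normalClosure ({a} : Set G) ∧
      ∀ i : ℕ, i < n → (H i ≤ H (i + 1) ∧ ((H i).subgroupOf (H (i + 1))).Normal) := by
  obtain ⟨c, hc⟩ := nil_normalClosure hG h
  refine ⟨c * (c * m) + 1, by omega, fun x => ?_⟩
  have hN : Nm (normalClosure ({a} : Set G) ⊔ zpowers x) (normalClosure ({a} : Set G)) :=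
    le_normalizer_of_normal
  obtain ⟨W, hW, hW0⟩ := exists_up (hN.lc 1) ((lc_le _ _).trans le_sup_left)
  obtain ⟨V, hV, hV0⟩ := exists_up (nm_bot (normalClosure ({a} : Set G) ⊔ zpowers x)) bot_le
  have hm : normalClosure ({a} : Set G) ≤ W m := by
    refine (closure_le _).2 fun y hy => ?_
    refine hW.engel rfl hN le_sup_left hW0.ge m y (Subgroup.subset_closure hy) ?_
    obtain ⟨b, hb, hcj⟩ := Group.mem_conjugatesOfSet_iff.1 hy
    rw [Set.mem_singleton_iff.1 hb] at hcj
    obtain ⟨g, rfl⟩ := isConj_iff.1 hcj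
    have := eng_conj g (g⁻¹ * x * g) m a
    rw [show g * (g⁻¹ * x * g) * g⁻¹ = x by group, h] at this
    simpa using this
  have h1 := le_up hN le_sup_left hc hW hW0 hm hV
  refine ⟨fun i => V i ⊔ zpowers x, by simp [hV0], ?_, fun i _ => ⟨?_, ?_⟩⟩
  · rw [sup_comm (zpowers x)]
    exact le_antisymm (sup_le (hV.le _) le_sup_right)
      (sup_le_sup_right (h1.trans (hV.le_succ _)) _)
  · exact sup_le_sup_right (hV.le_succ i) _
  · exact (normal_subgroupOf_iff_le_normalizer (sup_le_sup_right (hV.le_succ i) _)).2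
      (hV.nm_chain le_sup_right i)

end Pool.Agent.H65.Mc
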