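import Pool.Agent.H65.Mc4

set_option autoImplicit false

/-! Locally nilpotent subgroups of groups with the minimal condition on centralizers are
hypercentral. -/
namespace Pool.Agent.H65.Mc
open Subgroup
open scoped commutatorElement

variable {G : Type} [Group G]

/-- Membership in the hypercentre of `Γ`. -/
inductive Hc (Γ : Subgroup G) : G → Prop
  | one : Hc Γ 1
  | step (g : G) : g ∈ Γ → (∀ y, y ∈ Γ → Hc Γ ⁅g, y⁆) → Hc Γ g

lemma Hc.mem {Γ : Subgroup G} {g : G} (h : Hc Γ g) : g ∈ Γ := by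
  cases h with
  | one => exact one_mem _
  | step _ hg _ => exact hg

lemma Hc.comm {Γ : Subgroup G} {g y : G} (h : Hc Γ g) (hy : y ∈ Γ) : Hc Γ ⁅g, y⁆ := by
  cases h with
  | one => simpa using Hc.one
  | step _ _ h => exact h y hy

lemma Hc.conj {Γ : Subgroup G} {g : G} (h : Hc Γ g) : ∀ x ∈ Γ, Hc Γ (x * g * x⁻¹) := by
  induction h with
  | one => intro x _; simpa using Hc.one
  | step g hg _ ih =>
    intro x hx
    refine Hc.step _ ((nm_self Γ).conj hx hg) fun y hy => ?_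
    have : ⁅x * g * x⁻¹, y⁆ = x * ⁅g, x⁻¹ * y * x⁆ * x⁻¹ := by
      simp only [commutatorElement_def]; group
    rw [this]
    exact ih _ ((nm_self Γ).conj' hx hy) x hx

lemma Hc.mul {Γ : Subgroup G} {a : G} (h : Hc Γ a) : ∀ b, Hc Γ b → Hc Γ (a * b) := by
  induction h with
  | one => intro b hb; simpa using hb
  | step a ha _ ih =>
    intro b hb
    refine Hc.step _ (mul_mem ha hb.mem) fun y hy => ?_
    have h1 := ih y hy _ ((hb.comm hy).conj a ha)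
    have h2 := h1.conj _ (inv_mem ((nm_self Γ).comm_right ha hy))
    have : ⁅a * b, y⁆ = ⁅a, y⁆⁻¹ * (⁅a, y⁆ * (a * ⁅b, y⁆ * a⁻¹)) * ⁅a, y⁆⁻¹⁻¹ := by
      simp only [commutatorElement_def]; group
    rw [this]; exact h2

lemma Hc.inv {Γ : Subgroup G} {a : G} (h : Hc Γ a) : Hc Γ a⁻¹ := by
  induction h with
  | one => simpa using Hc.one
  | step a ha _ ih =>
    refine Hc.step _ (inv_mem ha) fun y hy => ?_
    have : ⁅a⁻¹, y⁆ = a⁻¹ * ⁅a, y⁆⁻¹ * a⁻¹⁻¹ := by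
      simp only [commutatorElement_def]; group
    rw [this]
    exact (ih y hy).conj _ (inv_mem ha)

/-- The hypercentre. -/
def hyp (Γ : Subgroup G) : Subgroup G where
  carrier := {g | Hc Γ g}
  one_mem' := Hc.one
  mul_mem' := fun ha hb => Hc.mul ha _ hb
  inv_mem' := fun ha => Hc.inv ha

lemma nm_hyp (Γ : Subgroup G) : Nm Γ (hyp Γ) := nm_of fun g hg _ hp => Hc.conj hp g hg

/-- `Γ / J` has trivial centre. -/
def Cl (Γ J : Subgroup G) : Prop := ∀ g ∈ Γ, (∀ y ∈ Γ, ⁅g, y⁆ ∈ J) → g ∈ J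

lemma cl_hyp (Γ : Subgroup G) : Cl Γ (hyp Γ) := fun g hg h => Hc.step g hg h

lemma exists_cent {Γ W C : Subgroup G} (hW : W ≤ hyp Γ) (hn : Nm Γ W) (h : ¬ W ≤ C) :
    ∃ y ∈ W, y ∉ C ∧ ∀ g ∈ Γ, ⁅y, g⁆ ∈ C := by
  by_contra hcon
  push Not at hcon
  have key : ∀ g, Hc Γ g → g ∈ W → g ∈ C := by
    intro g hg
    induction hg with
    | one => exact fun _ => one_mem _
    | step g _ _ ih =>
      intro hgW
      by_contra hgC
      obtain ⟨y, hy, hy'⟩ := hcon g hgW hgC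
      exact hy' (ih y hy (hn.comm_left hy hgW))
  exact h fun g hg => key g (hW hg) hg

lemma hyp_le {Γ J : Subgroup G} (h : Cl Γ J) : hyp Γ ≤ J := by
  by_contra hc
  obtain ⟨y, hy, hyJ, h2⟩ := exists_cent le_rfl (nm_hyp Γ) hc
  exact hyJ (h y (Hc.mem hy) h2)

lemma nm_centralizer {Γ Y : Subgroup G} (h : Nm Γ Y) : Nm Γ (centralizer (Y : Set G)) := by
  refine nm_of fun g hg p hp => mem_centralizer_iff.2 fun y hy => ?_
  have := mem_centralizer_iff.1 hp _ (h.conj' hg hy)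
  calc y * (g * p * g⁻¹) = g * ((g⁻¹ * y * g) * p) * g⁻¹ := by group
    _ = g * p * g⁻¹ * y := by rw [this]; group

lemma comm_conj_eq {Γ N : Subgroup G} {y : G} (hn : Nm Γ N) (hy : y ∈ Γ)
    (hc : ∀ g ∈ Γ, ⁅y, g⁆ ∈ centralizer (N : Set G)) {g a : G} (hg : g ∈ Γ) (ha : a ∈ N) :
    ⁅g * a * g⁻¹, y⁆ = g * ⁅a, y⁆ * g⁻¹ := by
  have h1 := mem_centralizer_iff.1 (comm_swap (hc g⁻¹ (inv_mem hg)))
  have h2 := h1 a ha
  have h3 := h1 _ (hn.comm_left hy ha)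
  calc ⁅g * a * g⁻¹, y⁆ = g * ((a * ⁅g⁻¹, y⁆) * y * a⁻¹ * y⁻¹ * ⁅g⁻¹, y⁆⁻¹) * g⁻¹ := by
        simp only [commutatorElement_def]; group
    _ = g * ((⁅g⁻¹, y⁆ * ⁅a, y⁆) * ⁅g⁻¹, y⁆⁻¹) * g⁻¹ := by
        rw [h2]; simp only [commutatorElement_def]; group
    _ = g * ⁅a, y⁆ * g⁻¹ := by rw [← h3]; group

lemma hom_transfer {Γ N J : Subgroup G} {y : G} (hN : N ≤ Γ) (hn : Nm Γ N) (hy : y ∈ Γ)
    (hc : ∀ g ∈ Γ, ⁅y, g⁆ ∈ centralizer (N : Set G)) (hJ : Cl Γ J)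
    (hker : ∀ a ∈ N, ⁅a, y⁆ = 1 → a ∈ J) : ∀ u, Hc Γ u → ∀ a ∈ N, ⁅a, y⁆ = u → a ∈ J := by
  have hmul : ∀ a ∈ N, ∀ b ∈ N, ⁅a * b, y⁆ = ⁅a, y⁆ * ⁅b, y⁆ := by
    intro a ha b hb
    have h1 := mem_centralizer_iff.1 (comm_swap (hc b (hN hb)))
    calc ⁅a * b, y⁆ = (a * ⁅b, y⁆) * a⁻¹ * ⁅a, y⁆ := by simp only [commutatorElement_def]; group
      _ = ⁅b, y⁆ * ⁅a, y⁆ := by rw [h1 a ha]; group
      _ = ⁅a, y⁆ * ⁅b, y⁆ := (h1 _ (hn.comm_left hy ha)).symm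
  have hinv : ∀ a ∈ N, ⁅a⁻¹, y⁆ = ⁅a, y⁆⁻¹ := by
    intro a ha
    have := hmul a ha a⁻¹ (inv_mem ha)
    rw [mul_inv_cancel, commutatorElement_one_left] at this
    exact (inv_eq_of_mul_eq_one_right this.symm).symm
  intro u hu
  induction hu with
  | one => exact hker
  | step u _ _ ih =>
    intro a ha hau
    refine hJ a (hN ha) fun g hg => ih g hg _ (hn.comm_left hg ha) ?_
    have e : ⁅a, g⁆ = a * (g * a⁻¹ * g⁻¹) := by simp only [commutatorElement_def]; group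
    rw [e, hmul a ha _ (hn.conj hg (inv_mem ha)), comm_conj_eq hn hy hc hg (inv_mem ha),
      hinv a ha, hau]
    simp only [commutatorElement_def]; group

lemma nm_ker {Γ N : Subgroup G} {y : G} (hn : Nm Γ N) (hy : y ∈ Γ)
    (hc : ∀ g ∈ Γ, ⁅y, g⁆ ∈ centralizer (N : Set G)) : Nm Γ (N ⊓ centralizer {y}) := by
  refine nm_of fun g hg a ha => ⟨hn.conj hg ha.1, ?_⟩
  have h1 : ⁅a, y⁆ = 1 := by
    rw [commutatorElement_eq_one_iff_mul_comm]
    exact (mem_centralizer_iff.1 ha.2 y rfl).symm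
  have h2 := comm_conj_eq hn hy hc hg ha.1
  rw [h1, mul_one, mul_inv_cancel, commutatorElement_eq_one_iff_mul_comm] at h2
  exact mem_centralizer_iff.2 fun z hz => by rw [Set.mem_singleton_iff.1 hz]; exact h2.symm

lemma mem_ker_of {y a : G} (h : ⁅a, y⁆ = 1) : a ∈ centralizer ({y} : Set G) :=
  mem_centralizer_iff.2 fun z hz => by
    rw [Set.mem_singleton_iff.1 hz]; exact (commutatorElement_eq_one_iff_mul_comm.1 h).symm

lemma IsMc.le_of_cent (h : IsMc G) {Γ B J : Subgroup G} (hB : B ≤ hyp Γ) (hBn : Nm Γ B)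
    (hJ : Cl Γ J) {Y : Subgroup G} (hY : Y ≤ Γ) (hn : Nm Γ Y)
    (hc : Y ⊓ centralizer (B : Set G) ≤ J) : Y ≤ J := by
  suffices H : ∀ S : Set G, ∀ Y : Subgroup G, Y ≤ Γ → Nm Γ Y → Y ≤ centralizer S →
      Y ⊓ centralizer (B : Set G) ≤ J → Y ≤ J from
    H ∅ Y hY hn (fun g _ => mem_centralizer_iff.2 (by simp)) hc
  intro S
  induction S using h.wf.induction with
  | _ S ih =>
    intro Y hY hn hS hc
    by_cases h1 : B ≤ centralizer (Y : Set G)
    · exact (le_inf le_rfl (le_centralizer_iff.1 h1)).trans hc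
    obtain ⟨b, hb, hbY, hbc⟩ := exists_cent hB hBn h1
    have hbΓ : b ∈ Γ := Hc.mem (hB hb)
    have h2 : Y ⊓ centralizer {b} ≤ J := by
      refine ih (S ∪ {b}) (lt_of_le_of_ne (centralizer_le Set.subset_union_left) fun he => hbY ?_)
        _ (inf_le_left.trans hY) (nm_ker hn hbΓ hbc) ?_ ((inf_le_inf_right _ inf_le_left).trans hc)
      · refine mem_centralizer_iff.2 fun y hy => ?_
        exact (mem_centralizer_iff.1 (he.ge (hS hy)) b (Or.inr rfl)).symm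
      · intro g hg
        rw [mem_centralizer_iff]
        rintro y (hy | hy)
        · exact mem_centralizer_iff.1 (hS hg.1) y hy
        · exact mem_centralizer_iff.1 hg.2 y hy
    intro a ha
    exact hom_transfer hY hn hbΓ hbc hJ (fun a ha h1 => h2 ⟨ha, mem_ker_of h1⟩) _
      (hB (hBn.comm_right (hY ha) hb)) a ha rfl

lemma LocNil.mono {K L : Subgroup G} (h : LocNil L) (hle : K ≤ L) : LocNil K :=
  fun T hT => h T (hT.trans hle)

lemma Nil.locNil {L : Subgroup G} (h : Nil L) : LocNil L :=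
  fun _ hT => h.mono ((closure_le L).2 hT)

lemma LocNil.last {Γ N C : Subgroup G} (h : LocNil Γ) (hN : N ≤ Γ) (hn : Nm Γ N) (hC : ¬ N ≤ C)
    (T : Finset G) (hT : (↑T : Set G) ⊆ Γ) :
    ∃ w ∈ N, w ∉ C ∧ ∀ k ∈ closure (↑T : Set G), ⁅w, k⁆ ∈ C := by
  classical
  obtain ⟨w0, hw0, hw0C⟩ := SetLike.not_le_iff_exists.1 hC
  have hsub : (↑(insert w0 T) : Set G) ⊆ Γ := by
    rw [Finset.coe_insert]; exact Set.insert_subset (hN hw0) hT
  obtain ⟨c, hc⟩ := h (insert w0 T) hsub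
  have hLΓ : closure (↑(insert w0 T) : Set G) ≤ Γ := (closure_le Γ).2 hsub
  have hTL : closure (↑T : Set G) ≤ closure (↑(insert w0 T) : Set G) :=
    Subgroup.closure_mono (by simp)
  have hw0L : w0 ∈ closure (↑(insert w0 T) : Set G) := Subgroup.subset_closure (by simp)
  generalize closure (↑(insert w0 T) : Set G) = L at hc hLΓ hTL hw0L
  obtain ⟨i, hi, hi'⟩ := Nat.exists_not_and_succ_of_not_zero_of_exists
    (p := fun i => N ⊓ lc L i ≤ C) (fun h0 => hw0C (h0 ⟨hw0, hw0L⟩))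
    ⟨c, by rw [hc, inf_bot_eq]; exact bot_le⟩
  obtain ⟨w, hw, hwC⟩ := SetLike.not_le_iff_exists.1 hi
  exact ⟨w, hw.1, hwC, fun k hk => hi' ⟨hn.comm_left (hLΓ (hTL hk)) hw.1,
    commutator_mem_commutator hw.2 (hTL hk)⟩⟩

lemma IsMc.wf' (h : IsMc G) : WellFounded (fun S T : Set G => centralizer T < centralizer S) := by
  refine Subrelation.wf (r := InvImage (fun S T : Set G => centralizer S < centralizer T)
    (fun S : Set G => (centralizer S : Set G))) ?_ (InvImage.wf _ h.wf)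
  intro S T hlt
  refine lt_of_le_of_ne (centralizer_le hlt.le) fun he => hlt.not_ge fun g hg => ?_
  refine mem_centralizer_iff.2 fun t ht => ?_
  have h1 : t ∈ centralizer (centralizer T : Set G) :=
    mem_centralizer_iff.2 fun x hx => (mem_centralizer_iff.1 hx t ht).symm
  exact (mem_centralizer_iff.1 (he.ge h1) g hg).symm

lemma IsMc.exists_max (h : IsMc G) {ι : Type} (f : ι → Subgroup G) {F : Set ι} (hF : F.Nonempty) :
    ∃ i ∈ F, ∀ j ∈ F, f j ≤ f i → centralizer (f j : Set G) ≤ centralizer (f i : Set G) := by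
  obtain ⟨_, ⟨i, hi, rfl⟩, hmin⟩ := h.wf'.has_min ((fun i => (f i : Set G)) '' F) (hF.image _)
  exact ⟨i, hi, fun j hj hle =>
    (eq_of_le_of_not_lt (centralizer_le hle) (hmin _ ⟨j, hj, rfl⟩)).ge⟩

lemma IsMc.exists_min (h : IsMc G) {ι : Type} (f : ι → Subgroup G) {F : Set ι} (hF : F.Nonempty) :
    ∃ i ∈ F, ∀ j ∈ F, f i ≤ f j → centralizer (f i : Set G) ≤ centralizer (f j : Set G) := by
  obtain ⟨_, ⟨i, hi, rfl⟩, hmin⟩ := h.wf.has_min ((fun i => (f i : Set G)) '' F) (hF.image _)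
  exact ⟨i, hi, fun j hj hle =>
    (eq_of_le_of_not_lt (centralizer_le hle) (hmin _ ⟨j, hj, rfl⟩)).ge⟩

lemma Sol.last {Γ C W : Subgroup G} (h : Sol W) : Nm Γ W → ¬ W ≤ C →
    ∃ Y ≤ W, Nm Γ Y ∧ ¬ Y ≤ C ∧ ⁅Y, Y⁆ ≤ C := by
  induction h with
  | bot => exact fun _ h => absurd bot_le h
  | step W _ ih =>
    intro hn hC
    by_cases h1 : ⁅W, W⁆ ≤ C
    · exact ⟨W, le_rfl, hn, hC, h1⟩
    · obtain ⟨Y, hY, h2⟩ := ih (hn.comm hn) h1
      exact ⟨Y, hY.trans (comm_le_of_le le_rfl le_rfl), h2⟩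

lemma IsMc.fix_of_ab (h : IsMc G) {Γ N Y J : Subgroup G} (hΓ : LocNil Γ) (hN : N ≤ Γ) (hY : Y ≤ Γ)
    (hNn : Nm Γ N) (hYn : Nm Γ Y) (hab : ⁅Y, Y⁆ ≤ centralizer (N : Set G)) (hJ : ¬ N ≤ J) :
    ∃ N₁ ≤ N, Nm Γ N₁ ∧ ¬ N₁ ≤ J ∧ ⁅N₁, Y⁆ ≤ J := by
  classical
  obtain ⟨W, hW0, hWs⟩ : ∃ W : ℕ → {P : Subgroup G // Nm Γ P}, (W 0).1 = ⊥ ∧
      ∀ k g, g ∈ (W (k + 1)).1 ↔ g ∈ N ∧ g ∈ Γ ∧ ∀ y ∈ Y, ⁅g, y⁆ ∈ (W k).1 :=
    ⟨fun n => Nat.rec ⟨⊥, nm_bot Γ⟩
      (fun _ P => ⟨N ⊓ cz Γ Y P.1 P.2, hNn.inf (nm_cz P.2 hYn)⟩) n, rfl, fun _ _ => Iff.rfl⟩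
  have hWc : ∀ k, ⁅(W (k + 1)).1, Y⁆ ≤ (W k).1 := fun k =>
    commutator_le.2 fun g hg y hy => ((hWs k g).1 hg).2.2 y hy
  obtain ⟨T, hT, hTc⟩ := h.delta Y 0
  have hK := hTc (closure (↑T : Set G)) Subgroup.subset_closure 0 le_rfl
  have hKY : closure (↑T : Set G) ≤ Y := (closure_le Y).2 hT
  have hP : ∀ k, ∀ X : Subgroup G, X ≤ N → ⁅X, closure (↑T : Set G)⁆ ≤ (W k).1 →
      X ≤ (W (k + 1)).1 := by
    intro k
    induction k with
    | zero =>
      intro X hX hc g hg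
      rw [hW0, le_bot_iff, commutator_eq_bot_iff_le_centralizer] at hc
      refine (hWs 0 g).2 ⟨hX hg, hN (hX hg), fun y hy => ?_⟩
      rw [hW0, mem_bot, commutatorElement_eq_one_iff_mul_comm]
      exact (mem_centralizer_iff.1 (hK (hc hg)) y hy).symm
    | succ k ih =>
      intro X hX hc g hg
      have h1 : ⁅X, Y⁆ ≤ (W (k + 1)).1 := by
        refine ih _ ((commutator_mono hX le_rfl).trans (hNn.le_left hY))
          (three (W k).2 (hX.trans hN) hY (hKY.trans hY) ?_ ?_)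
        · have : ⁅⁅Y, closure (↑T : Set G)⁆, X⁆ = ⊥ := by
            rw [commutator_eq_bot_iff_le_centralizer]
            exact ((commutator_mono le_rfl hKY).trans hab).trans (centralizer_le hX)
          rw [this]; exact bot_le
        · rw [commutator_comm _ X]
          exact (commutator_mono hc le_rfl).trans (hWc k)
      exact (hWs (k + 1) g).2 ⟨hX hg, hN (hX hg), fun y hy => h1 (commutator_mem_commutator hg hy)⟩
  have hex : ∃ k, ¬ (W k).1 ≤ J := by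
    obtain ⟨w0, hw0, hw0J⟩ := SetLike.not_le_iff_exists.1 hJ
    have hsub : (↑(insert w0 T) : Set G) ⊆ Γ := by
      rw [Finset.coe_insert]; exact Set.insert_subset (hN hw0) (hT.trans hY)
    obtain ⟨c, hc⟩ := hΓ (insert w0 T) hsub
    have hLΓ : closure (↑(insert w0 T) : Set G) ≤ Γ := (closure_le Γ).2 hsub
    have hTL : closure (↑T : Set G) ≤ closure (↑(insert w0 T) : Set G) :=
      Subgroup.closure_mono (by simp)
    have hw0L : w0 ∈ closure (↑(insert w0 T) : Set G) := Subgroup.subset_closure (by simp)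
    generalize closure (↑(insert w0 T) : Set G) = L at hc hLΓ hTL hw0L
    have key : ∀ d i, i + d = c → N ⊓ lc L i ≤ (W d).1 := by
      intro d
      induction d with
      | zero => intro i hi; rw [show i = c by omega, hc, inf_bot_eq]; exact bot_le
      | succ d ih =>
        intro i hi
        refine hP d _ inf_le_left (le_trans (le_inf ?_ ?_) (ih (i + 1) (by omega)))
        · exact (commutator_mono inf_le_left le_rfl).trans (hNn.le_left (hTL.trans hLΓ))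
        · exact commutator_mono inf_le_right hTL
    exact ⟨c, fun hle => hw0J (hle (key c 0 (by simp) ⟨hw0, hw0L⟩))⟩
  obtain ⟨k, hk, hk'⟩ := Nat.exists_not_and_succ_of_not_zero_of_exists
    (p := fun k => ¬ (W k).1 ≤ J) (fun h0 => h0 (hW0.le.trans bot_le)) hex
  exact ⟨(W (k + 1)).1, fun g hg => ((hWs k g).1 hg).1, (W (k + 1)).2, hk',
    (hWc k).trans (not_not.1 hk)⟩

lemma comm_fin (Y E : Subgroup G) (x : G) (hx : x ∈ ⁅Y, E⁆) :
    ∃ T : Finset G, (↑T : Set G) ⊆ E ∧ x ∈ ⁅Y, closure (↑T : Set G)⁆ := by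
  classical
  rw [Subgroup.commutator_def] at hx
  induction hx using closure_induction with
  | mem x hx =>
    obtain ⟨a, ha, b, hb, rfl⟩ := hx
    exact ⟨{b}, by simpa using hb, commutator_mem_commutator ha (Subgroup.subset_closure (by simp))⟩
  | one => exact ⟨∅, by simp, one_mem _⟩
  | mul x y _ _ hx hy =>
    obtain ⟨T, hT, hx⟩ := hx
    obtain ⟨T', hT', hy⟩ := hy
    refine ⟨T ∪ T', by rw [Finset.coe_union]; exact Set.union_subset hT hT', mul_mem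
      (commutator_mono le_rfl (Subgroup.closure_mono (by simp)) hx)
      (commutator_mono le_rfl (Subgroup.closure_mono (by simp)) hy)⟩
  | inv x _ hx =>
    obtain ⟨T, hT, hx⟩ := hx
    exact ⟨T, hT, inv_mem hx⟩

lemma IsMc.lemA (h : IsMc G) {E N Y : Subgroup G} (hE : LocNil E) (hN : N ≤ E)
    (hNn : Nm E N) (hYn : Nm E Y) (hc : ⁅N, Y⁆ ≤ centralizer (E : Set G))
    (hne : ¬ N ≤ centralizer (Y : Set G)) :
    ∃ w ∈ N, w ∉ centralizer (Y : Set G) ∧ ∀ g ∈ E, ⁅w, g⁆ ∈ centralizer (Y : Set G) := by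
  classical
  obtain ⟨S, hS, hSc⟩ := h (⁅Y, E⁆ : Subgroup G)
  choose! T hT hxT using comm_fin Y E
  have hTE : (↑(S.biUnion T) : Set G) ⊆ E := by
    intro y hy
    simp only [Finset.coe_biUnion, Set.mem_iUnion] at hy
    obtain ⟨x, hx, hy⟩ := hy
    exact hT x (hS hx) hy
  have hK : centralizer (⁅Y, closure (↑(S.biUnion T) : Set G)⁆ : Subgroup G) ≤
      centralizer ((⁅Y, E⁆ : Subgroup G) : Set G) := by
    rw [hSc]
    refine centralizer_le fun x hx => commutator_mono le_rfl (Subgroup.closure_mono ?_)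
      (hxT x (hS hx))
    exact Finset.coe_subset.2 (Finset.subset_biUnion_of_mem T hx)
  obtain ⟨w, hw, hwY, hwK⟩ := hE.last hN hNn hne _ hTE
  have hKE : closure (↑(S.biUnion T) : Set G) ≤ E := (closure_le E).2 hTE
  generalize closure (↑(S.biUnion T) : Set G) = K at hK hwK hKE
  let X := N ⊓ cz E K _ (nm_centralizer hYn)
  have hYX : ⁅Y, X⁆ ≤ centralizer (E : Set G) := by
    rw [commutator_comm]; exact (commutator_mono inf_le_left le_rfl).trans hc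
  have h1 : ⁅⁅K, Y⁆, X⁆ = ⊥ := by
    refine commutator_commutator_eq_bot_of_rotate ?_ ?_
    · rw [commutator_eq_bot_iff_le_centralizer]; exact hYX.trans (centralizer_le hKE)
    · rw [commutator_eq_bot_iff_le_centralizer]
      exact commutator_le.2 fun x hx k hk => hx.2.2 k hk
  rw [commutator_comm, commutator_eq_bot_iff_le_centralizer, commutator_comm] at h1
  have h2 : ⁅⁅X, E⁆, Y⁆ = ⊥ := by
    refine commutator_commutator_eq_bot_of_rotate ?_ ?_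
    · rw [commutator_comm, commutator_eq_bot_iff_le_centralizer, commutator_comm]
      exact h1.trans hK
    · rw [commutator_eq_bot_iff_le_centralizer]; exact hYX
  rw [commutator_eq_bot_iff_le_centralizer] at h2
  exact ⟨w, hw, hwY, fun g hg => h2 (commutator_mem_commutator
    (show w ∈ X from ⟨hw, hN hw, hwK⟩) hg)⟩

lemma nm_between {Γ E E' : Subgroup G} (hle : E ≤ E') (hc : ⁅E', Γ⁆ ≤ E) : Nm Γ E' :=
  le_normalizer_iff_commutator_le_left.2 (hc.trans hle)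

lemma IsMc.shrink (h : IsMc G) {Γ E N Y : Subgroup G} {z : G} (hΓ : LocNil Γ) (hE : E ≤ Γ)
    (hN : N ≤ E) (hNn : Nm Γ N) (hYn : Nm Γ Y) (hEn : Nm Γ E)
    (hc : ⁅N, Y⁆ ≤ centralizer (E : Set G)) (hne : ¬ N ≤ centralizer (Y : Set G)) (hz : z ∈ Γ)
    (hzc : ∀ g ∈ Γ, ⁅z, g⁆ ∈ E) :
    ∃ N' ≤ N, Nm Γ N' ∧ ¬ N' ≤ centralizer (Y : Set G) ∧
      ⁅N', E ⊔ zpowers z⁆ ≤ centralizer (Y : Set G) := by
  obtain ⟨w, hw, hwY, hwE⟩ := h.lemA (hΓ.mono hE) hN (hE.trans hNn) (hE.trans hYn) hc hne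
  have hCn := nm_centralizer hYn
  have hn2 : Nm Γ (N ⊓ cz Γ E _ hCn) := hNn.inf (nm_cz hCn hEn)
  obtain ⟨w', hw', hw'Y, hw'z⟩ := hΓ.last (inf_le_left.trans (hN.trans hE)) hn2
    (fun hle => hwY (hle ⟨hw, hE (hN hw), hwE⟩)) {z} (by simpa using hz)
  have hEz : Nm Γ (E ⊔ zpowers z) := by
    refine nm_between le_sup_left ?_
    have : E ⊔ zpowers z ≤ cz Γ Γ E hEn := sup_le
      (fun e he => ⟨hE he, fun g hg => hEn.comm_left hg he⟩) (by rw [zpowers_le]; exact ⟨hz, hzc⟩)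
    exact commutator_le.2 fun a ha g hg => (this ha).2 g hg
  refine ⟨N ⊓ cz Γ (E ⊔ zpowers z : Subgroup G) _ hCn, inf_le_left, hNn.inf (nm_cz hCn hEz),
    fun hle => hw'Y (hle ⟨hw'.1, hw'.2.1, fun g hg => ?_⟩),
    commutator_le.2 fun a ha g hg => ha.2.2 g hg⟩
  have : E ⊔ zpowers z ≤ cz Γ {w'} _ hCn := by
    refine sup_le (fun e he => ⟨hE he, fun v hv => ?_⟩) ?_
    · rw [Set.mem_singleton_iff.1 hv]; exact comm_swap (hw'.2.2 e he)
    · rw [zpowers_le]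
      refine ⟨hz, fun v hv => ?_⟩
      rw [Set.mem_singleton_iff.1 hv]
      exact comm_swap (hw'z z (Subgroup.subset_closure (by simp)))
  exact comm_swap ((this hg).2 w' rfl)

/-- Locally nilpotent subgroups are hypercentral. -/
theorem IsMc.le_hyp (h : IsMc G) {Γ : Subgroup G} (hΓ : LocNil Γ) : Γ ≤ hyp Γ := by
  by_contra hU
  obtain ⟨N0, ⟨hN0, hN0n, hN0U⟩, hmax⟩ := h.exists_max id
    (F := {N | N ≤ Γ ∧ Nm Γ N ∧ ¬ N ≤ hyp Γ}) ⟨Γ, le_rfl, nm_self Γ, hU⟩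
  have hC : ∀ N ≤ N0, Nm Γ N → ¬ N ≤ hyp Γ →
      centralizer (N : Set G) ≤ centralizer (N0 : Set G) :=
    fun N hN hn hNU => hmax N ⟨hN.trans hN0, hn, hNU⟩ hN
  have hcl : Cl Γ (centralizer (N0 : Set G)) := by
    intro y hy hyc
    by_contra hyC
    have hker : N0 ⊓ centralizer {y} ≤ hyp Γ := by
      by_contra hk
      refine hyC (hC _ inf_le_left (nm_ker hN0n hy hyc) hk (mem_centralizer_iff.2 fun a ha => ?_))
      exact (mem_centralizer_iff.1 ha.2 y rfl).symm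
    obtain ⟨w, hw, hwU, hwy⟩ := hΓ.last hN0 hN0n hN0U {y} (by simpa using hy)
    exact hwU (hom_transfer hN0 hN0n hy hyc (cl_hyp Γ) (fun a ha h1 => hker ⟨ha, mem_ker_of h1⟩)
      _ (hwy y (Subgroup.subset_closure (by simp))) w hw rfl)
  have hUC : hyp Γ ≤ centralizer (N0 : Set G) := hyp_le hcl
  have hΓC : ¬ Γ ≤ centralizer (N0 : Set G) := by
    intro hle
    refine hN0U fun a ha => cl_hyp Γ a (hN0 ha) fun y hy => ?_
    rw [commutatorElement_eq_one_iff_mul_comm.2 (mem_centralizer_iff.1 (hle hy) a ha)]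
    exact one_mem _
  obtain ⟨Y, hY, hYn, hYC, hYab⟩ := (h.bryant hΓ).last (nm_self Γ) hΓC
  obtain ⟨N1, hN1, hN1n, hN1U, hN1Y⟩ := h.fix_of_ab hΓ hN0 hY hN0n hYn hYab hN0U
  have hB1n : Nm Γ (N1 ⊓ hyp Γ) := hN1n.inf (nm_hyp Γ)
  have hY0C : ¬ Y ⊓ centralizer ((N1 ⊓ hyp Γ : Subgroup G) : Set G) ≤ centralizer (N0 : Set G) :=
    fun hle => hYC (h.le_of_cent inf_le_right hB1n hcl hY hYn hle)
  obtain ⟨⟨N, Z⟩, ⟨hN, hNn, hNU, hZ, hZn, hZC⟩, hmax2⟩ := h.exists_max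
    (fun p : Subgroup G × Subgroup G => ⁅p.1, p.2⁆)
    (F := {p | p.1 ≤ N1 ∧ Nm Γ p.1 ∧ ¬ p.1 ≤ hyp Γ ∧
      p.2 ≤ Y ⊓ centralizer ((N1 ⊓ hyp Γ : Subgroup G) : Set G) ∧ Nm Γ p.2 ∧
      ¬ p.2 ≤ centralizer (N0 : Set G)})
    ⟨⟨N1, _⟩, le_rfl, hN1n, hN1U, le_rfl, hYn.inf (nm_centralizer hB1n), hY0C⟩
  dsimp only at hN hNn hNU hZ hZn hZC hmax2
  have hNΓ : N ≤ Γ := hN.trans (hN1.trans hN0)
  have hZΓ : Z ≤ Γ := hZ.trans (inf_le_left.trans hY)
  have g1 : N ⊓ centralizer (Z : Set G) ≤ hyp Γ := by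
    by_contra hk
    exact hZC ((le_centralizer_iff.1 inf_le_right).trans
      (hC _ (inf_le_left.trans (hN.trans hN1)) (hNn.inf (nm_centralizer hZn)) hk))
  have g2 : N1 ⊓ hyp Γ ≤ centralizer (Z : Set G) := le_centralizer_iff.1 (hZ.trans inf_le_right)
  have g3 : centralizer (N : Set G) ≤ centralizer (N0 : Set G) := hC N (hN.trans hN1) hNn hNU
  have g3' : centralizer (N0 : Set G) ≤ centralizer (N : Set G) := centralizer_le (hN.trans hN1)
  have g4 : ⁅N, Z⁆ ≤ N1 ⊓ hyp Γ := le_inf ((hNn.le_left hZΓ).trans hN)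
    ((commutator_mono hN (hZ.trans inf_le_left)).trans hN1Y)
  have hBn : Nm Γ ⁅N, Z⁆ := hNn.comm hZn
  have hEn : Nm Γ (Γ ⊓ centralizer ((⁅N, Z⁆ : Subgroup G) : Set G)) :=
    (nm_self Γ).inf (nm_centralizer hBn)
  have hNE : N ≤ Γ ⊓ centralizer ((⁅N, Z⁆ : Subgroup G) : Set G) :=
    le_inf hNΓ (le_centralizer_iff.1 ((g4.trans inf_le_right).trans (hUC.trans g3')))
  have hZE : Z ≤ Γ ⊓ centralizer ((⁅N, Z⁆ : Subgroup G) : Set G) :=
    le_inf hZΓ (le_centralizer_iff.1 (g4.trans g2))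
  have hBE : ⁅N, Z⁆ ≤ centralizer ((Γ ⊓ centralizer ((⁅N, Z⁆ : Subgroup G) : Set G) :
      Subgroup G) : Set G) := le_centralizer_iff.1 inf_le_right
  have hNZ : ¬ N ≤ centralizer (Z : Set G) := fun hle => hNU ((le_inf le_rfl hle).trans g1)
  have hZN : ¬ Z ≤ centralizer (N : Set G) := fun hle => hZC (hle.trans g3)
  by_cases hcE : Cl Γ (Γ ⊓ centralizer ((⁅N, Z⁆ : Subgroup G) : Set G))
  · have hΓE := h.le_of_cent (g4.trans inf_le_right) hBn hcE le_rfl (nm_self Γ) le_rfl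
    obtain ⟨w, hw, hwZ, hwc⟩ := h.lemA (hΓ.mono inf_le_left) hNE (inf_le_left.trans hNn)
      (inf_le_left.trans hZn) hBE hNZ
    exact hwZ (g2 ⟨hN hw, cl_hyp Γ w (hNΓ hw) fun y hy =>
      g1 ⟨hNn.comm_left hy hw, hwc y (hΓE hy)⟩⟩)
  · unfold Cl at hcE
    push Not at hcE
    obtain ⟨z, hz, hzc, hzE⟩ := hcE
    obtain ⟨N', hN', hN'n, hN'Z, hN'c⟩ := h.shrink hΓ inf_le_left hNE hNn hZn hEn hBE hNZ hz hzc
    obtain ⟨Z', hZ', hZ'n, hZ'N, hZ'c⟩ := h.shrink hΓ inf_le_left hZE hZn hNn hEn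
      (by rw [commutator_comm]; exact hBE) hZN hz hzc
    have h1 := hmax2 (N', Z') ⟨hN'.trans hN, hN'n,
      fun hle => hN'Z ((le_inf (hN'.trans hN) hle).trans g2), hZ'.trans hZ, hZ'n,
      fun hle => hZ'N (hle.trans g3')⟩ (commutator_mono hN' hZ')
    have h2 : ⁅⁅N', Z'⁆, Γ ⊓ centralizer ((⁅N, Z⁆ : Subgroup G) : Set G) ⊔ zpowers z⁆ = ⊥ := by
      refine commutator_commutator_eq_bot_of_rotate ?_ ?_
      · rw [commutator_eq_bot_iff_le_centralizer]; exact hZ'c.trans (centralizer_le hN')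
      · rw [commutator_eq_bot_iff_le_centralizer, commutator_comm]
        exact hN'c.trans (centralizer_le hZ')
    rw [commutator_comm, commutator_eq_bot_iff_le_centralizer] at h2
    exact hzE ⟨hz, h1 (h2 (mem_sup_right (mem_zpowers z)))⟩

/-- The normalizer condition. -/
lemma IsMc.exists_normalizer (h : IsMc G) {H T : Subgroup G} (hH : LocNil H) (hT : T ≤ H)
    (hne : ¬ H ≤ T) : ∃ g ∈ H, g ∉ T ∧ g ∈ normalizer (T : Set G) := by
  obtain ⟨y, hy, hyT, hc⟩ := exists_cent (h.le_hyp hH) (nm_self H) hne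
  refine ⟨y, hy, hyT, mem_normalizer_iff.2 fun t => ⟨fun ht => ?_, fun ht => ?_⟩⟩
  · have : y * t * y⁻¹ = ⁅y, t⁆ * t := by simp only [commutatorElement_def]; group
    rw [this]; exact mul_mem (hc t (hT ht)) ht
  · have h1 : t ∈ H := by
      have := (nm_self H).conj' hy (hT ht)
      rwa [show y⁻¹ * (y * t * y⁻¹) * y = t by group] at this
    have : t = ⁅y, t⁆⁻¹ * (y * t * y⁻¹) := by simp only [commutatorElement_def]; group
    rw [this]; exact mul_mem (inv_mem (hc t h1)) ht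

end Pool.Agent.H65.Mc
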