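import Pool.Agent.H65.Mc5

set_option autoImplicit false

/-! Normal Engel subsets: general facts that need no chain condition. -/
namespace Pool.Agent.H65.Mc
open Subgroup
open scoped commutatorElement

variable {G : Type} [Group G]

lemma closure_fin (S : Set G) (x : G) (hx : x ∈ closure S) :
    ∃ T : Finset G, (↑T : Set G) ⊆ S ∧ x ∈ closure (↑T : Set G) := by
  classical
  induction hx using closure_induction with
  | mem x hx => exact ⟨{x}, by simpa using hx, Subgroup.subset_closure (by simp)⟩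
  | one => exact ⟨∅, by simp, one_mem _⟩
  | mul x y _ _ hx hy =>
    obtain ⟨T, hT, hx⟩ := hx
    obtain ⟨T', hT', hy⟩ := hy
    exact ⟨T ∪ T', by rw [Finset.coe_union]; exact Set.union_subset hT hT', mul_mem
      (Subgroup.closure_mono (by simp) hx) (Subgroup.closure_mono (by simp) hy)⟩
  | inv x _ hx =>
    obtain ⟨T, hT, hx⟩ := hx
    exact ⟨T, hT, inv_mem hx⟩

lemma closure_fin' (S : Set G) (T : Finset G) (hT : (↑T : Set G) ⊆ closure S) :
    ∃ T' : Finset G, (↑T' : Set G) ⊆ S ∧ closure (↑T : Set G) ≤ closure (↑T' : Set G) := by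
  classical
  choose! f hf1 hf2 using closure_fin S
  refine ⟨T.biUnion f, ?_, (closure_le _).2 fun x hx => Subgroup.closure_mono ?_ (hf2 x (hT hx))⟩
  · intro y hy
    simp only [Finset.coe_biUnion, Set.mem_iUnion] at hy
    obtain ⟨x, hx, hy⟩ := hy
    exact hf1 x (hT hx) hy
  · exact Finset.coe_subset.2 (Finset.subset_biUnion_of_mem f hx)

lemma eng_one (e : G) (n : ℕ) : (eng e)^[n] 1 = 1 :=
  Function.iterate_fixed (by simp [eng]) n

lemma eng_mono {e u : G} {m n : ℕ} (h : (eng e)^[m] u = 1) (hle : m ≤ n) : (eng e)^[n] u = 1 := by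
  obtain ⟨d, rfl⟩ := Nat.exists_eq_add_of_le hle
  rw [add_comm, Function.iterate_add_apply, h, eng_one]

lemma eng_mem {P : Subgroup G} {e u : G} (he : e ∈ normalizer (P : Set G)) (hu : u ∈ P) :
    ∀ n, (eng e)^[n] u ∈ P
  | 0 => hu
  | n + 1 => by
    rw [Function.iterate_succ_apply']
    exact mul_mem (inv_mem (eng_mem he hu n))
      (Nm.conj' (Γ := normalizer (P : Set G)) le_rfl he (eng_mem he hu n))

lemma nil_sup_gen {S : Set G} {e : G} {n : ℕ} (hK : Nil (closure S))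
    (he : e ∈ normalizer ((closure S : Subgroup G) : Set G)) (hE : ∀ v ∈ S, (eng e)^[n] v = 1) :
    Nil (closure S ⊔ zpowers e) := by
  obtain ⟨c, hc⟩ := hK
  have hN : Nm (closure S ⊔ zpowers e) (closure S) := sup_le (nm_self _) (by rwa [zpowers_le])
  obtain ⟨W, hW, hW0⟩ := exists_up (hN.lc 1) ((lc_le _ _).trans le_sup_left)
  obtain ⟨V, hV, hV0⟩ := exists_up (nm_bot (closure S ⊔ zpowers e)) bot_le
  have hm : closure S ≤ W n := (closure_le _).2 fun v hv =>
    hW.engel rfl hN le_sup_left hW0.ge n v (Subgroup.subset_closure hv) (hE v hv)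
  have h1 := le_up hN le_sup_left hc hW hW0 hm hV
  exact hV.nil hV0 (hV.le_of_comm _ le_rfl (comm_sup_zpowers_le (hV.nm _) h1))

lemma mem_normalizer_closure {S : Set G} {e : G} (h1 : ∀ v ∈ S, e * v * e⁻¹ ∈ closure S)
    (h2 : ∀ v ∈ S, e⁻¹ * v * e ∈ closure S) :
    e ∈ normalizer ((closure S : Subgroup G) : Set G) := by
  have a1 : closure S ≤ cj e (closure S) := (closure_le _).2 h1
  have a2 : closure S ≤ cj e⁻¹ (closure S) := (closure_le _).2 fun v hv =>
    mem_cj.2 (by simpa using h2 v hv)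
  refine mem_normalizer_iff.2 fun y => ⟨fun hy => a1 hy, fun hy => ?_⟩
  have := mem_cj.1 (a2 hy)
  rwa [show e⁻¹ * (e * y * e⁻¹) * e⁻¹⁻¹ = y by group] at this

lemma locNil_sup_engel {P : Subgroup G} {S : Set G} {e : G} (hP : LocNil P) (hS : P ≤ closure S)
    (hS' : S ⊆ P) (he : e ∈ normalizer (P : Set G)) (hE : ∀ u ∈ S, ∃ n, (eng e)^[n] u = 1) :
    LocNil (P ⊔ zpowers e) := by
  classical
  intro T hT
  have h1 : P ⊔ zpowers e ≤ closure (S ∪ {e}) := by
    rw [Subgroup.closure_union, ← zpowers_eq_closure]; exact sup_le_sup_right hS _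
  obtain ⟨T0, hT0, hle⟩ := closure_fin' (S ∪ {e}) T (hT.trans h1)
  choose! ν hν using hE
  let T1 := T0.filter (· ∈ S)
  let n := T1.sup ν
  let T2 : Finset G := (T1 ×ˢ Finset.range (n + 1)).image fun p => (eng e)^[p.2] p.1
  have hmem : ∀ u ∈ T1, ∀ i, (eng e)^[i] u ∈ closure (↑T2 : Set G) := by
    intro u hu i
    rcases le_or_gt i n with hi | hi
    · refine Subgroup.subset_closure (Finset.mem_coe.2 (Finset.mem_image.2 ⟨(u, i), ?_, rfl⟩))
      exact Finset.mem_product.2 ⟨hu, Finset.mem_range.2 (Nat.lt_succ_of_le hi)⟩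
    · rw [eng_mono (hν u (Finset.mem_filter.1 hu).2) ((Finset.le_sup (f := ν) hu).trans hi.le)]
      exact one_mem _
  have hT2 : ∀ v ∈ (↑T2 : Set G), ∃ u ∈ T1, ∃ i, v = (eng e)^[i] u := by
    intro v hv
    obtain ⟨p, hp, rfl⟩ := Finset.mem_image.1 (Finset.mem_coe.1 hv)
    exact ⟨p.1, (Finset.mem_product.1 hp).1, p.2, rfl⟩
  have hkill : ∀ u ∈ T1, ∀ i, (eng e)^[n] ((eng e)^[i] u) = 1 := by
    intro u hu i
    rw [← Function.iterate_add_apply]
    exact eng_mono (hν u (Finset.mem_filter.1 hu).2)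
      ((Finset.le_sup (f := ν) hu).trans (Nat.le_add_right _ _))
  have hback : ∀ u ∈ T1, ∀ k i, (eng e)^[k] ((eng e)^[i] u) = 1 →
      e * (eng e)^[i] u * e⁻¹ ∈ closure (↑T2 : Set G) := by
    intro u hu k
    induction k with
    | zero =>
      intro i hi
      have : (eng e)^[i] u = 1 := hi
      rw [this]; simp
    | succ k ih =>
      intro i hi
      have h2 := ih (i + 1) (by rwa [Function.iterate_succ_apply'])
      have : e * (eng e)^[i] u * e⁻¹ = (eng e)^[i] u * (e * (eng e)^[i + 1] u * e⁻¹)⁻¹ := by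
        rw [Function.iterate_succ_apply']
        generalize (eng e)^[i] u = v
        simp only [eng]; group
      rw [this]
      exact mul_mem (hmem u hu i) (inv_mem h2)
  have hnorm : e ∈ normalizer ((closure (↑T2 : Set G) : Subgroup G) : Set G) := by
    refine mem_normalizer_closure (fun v hv => ?_) (fun v hv => ?_)
    · obtain ⟨u, hu, i, rfl⟩ := hT2 v hv
      exact hback u hu n i (hkill u hu i)
    · obtain ⟨u, hu, i, rfl⟩ := hT2 v hv
      have : e⁻¹ * (eng e)^[i] u * e = (eng e)^[i] u * (eng e)^[i + 1] u := by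
        rw [Function.iterate_succ_apply']
        generalize (eng e)^[i] u = v
        simp only [eng]; group
      rw [this]
      exact mul_mem (hmem u hu i) (hmem u hu (i + 1))
  have hnil : Nil (closure (↑T2 : Set G)) := hP T2 fun v hv => by
    obtain ⟨u, hu, i, rfl⟩ := hT2 v hv
    exact eng_mem he (hS' (Finset.mem_filter.1 hu).2) i
  refine (nil_sup_gen (n := n) hnil hnorm fun v hv => ?_).mono
    (hle.trans ((closure_le _).2 fun x hx => ?_))
  · obtain ⟨u, hu, i, rfl⟩ := hT2 v hv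
    exact hkill u hu i
  · rcases hT0 hx with h | h
    · exact mem_sup_left (hmem x (Finset.mem_filter.2 ⟨hx, h⟩) 0)
    · rw [Set.mem_singleton_iff.1 h]; exact mem_sup_right (mem_zpowers e)

lemma LocNil.cj {P : Subgroup G} (h : LocNil P) (g : G) : LocNil (cj g P) := by
  classical
  intro T hT
  refine ((h (T.image fun y => g * y * g⁻¹) ?_).cj g).mono ((closure_le _).2 fun y hy => ?_)
  · intro y hy
    obtain ⟨x, hx, rfl⟩ := Finset.mem_image.1 (Finset.mem_coe.1 hy)
    exact hT hx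
  · exact mem_cj.2 (Subgroup.subset_closure (Finset.mem_coe.2 (Finset.mem_image.2 ⟨y, hy, rfl⟩)))

lemma locNil_sSup {F : Set (Subgroup G)} (hne : F.Nonempty) (hd : DirectedOn (· ≤ ·) F)
    (hF : ∀ P ∈ F, LocNil P) : LocNil (sSup F) := by
  intro T hT
  have : ∃ P ∈ F, (↑T : Set G) ⊆ P := by
    classical
    induction T using Finset.induction_on with
    | empty => obtain ⟨P, hP⟩ := hne; exact ⟨P, hP, by simp⟩
    | insert a T _ ih =>
      rw [Finset.coe_insert, Set.insert_subset_iff] at hT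
      obtain ⟨P, hP, hTP⟩ := ih hT.2
      obtain ⟨Q, hQ, ha⟩ := (mem_sSup_of_directedOn hne hd).1 hT.1
      obtain ⟨R, hR, hPR, hQR⟩ := hd P hP Q hQ
      refine ⟨R, hR, ?_⟩
      rw [Finset.coe_insert]
      exact Set.insert_subset (hQR ha) fun y hy => hPR (hTP hy)
  obtain ⟨P, hP, hTP⟩ := this
  exact hF P hP T hTP

/-- A normal Engel subset of `Γ`. -/
structure Eng (Γ : Subgroup G) (C : Set G) : Prop where
  sub : C ⊆ Γ
  conj : ∀ e ∈ C, ∀ g ∈ Γ, g * e * g⁻¹ ∈ C
  engel : ∀ x ∈ C, ∀ y ∈ C, ∃ n, (eng y)^[n] x = 1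

/-- Locally nilpotent and generated by its elements from `C`. -/
def LC (C : Set G) (P : Subgroup G) : Prop := LocNil P ∧ CG C P

namespace Eng
variable {Γ : Subgroup G} {C : Set G}

lemma cg_le (h : Eng Γ C) {P : Subgroup G} (hP : CG C P) : P ≤ Γ :=
  le_trans hP ((closure_le Γ).2 fun _ hy => h.sub hy.1)

lemma cg_cj (h : Eng Γ C) {P : Subgroup G} (hP : CG C P) {g : G} (hg : g ∈ Γ) : CG C (cj g P) := by
  have : closure (C ∩ P) ≤ cj g⁻¹ (closure (C ∩ cj g P)) := by
    refine (closure_le _).2 fun y hy => ?_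
    refine mem_cj.2 (Subgroup.subset_closure ⟨h.conj y hy.1 g⁻¹ (inv_mem hg), mem_cj.2 ?_⟩)
    rw [show g * (g⁻¹ * y * g⁻¹⁻¹) * g⁻¹ = y by group]; exact hy.2
  have h2 := cj_mono g (le_trans hP this)
  rwa [cj_cj'] at h2

lemma lc_cj (h : Eng Γ C) {P : Subgroup G} (hP : LC C P) {g : G} (hg : g ∈ Γ) : LC C (cj g P) :=
  ⟨hP.1.cj g, h.cg_cj hP.2 hg⟩

lemma max_cj (h : Eng Γ C) {P : Subgroup G} (hP : Maximal (LC C) P) {g : G} (hg : g ∈ Γ) :
    Maximal (LC C) (cj g P) := by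
  refine ⟨h.lc_cj hP.1 hg, fun Q hQ hle => ?_⟩
  have h1 := cj_mono g⁻¹ hle
  rw [cj_cj] at h1
  have h2 := cj_mono g (hP.2 (h.lc_cj hQ (inv_mem hg)) h1)
  rwa [cj_cj'] at h2

lemma lc_sup (h : Eng Γ C) {P : Subgroup G} (hP : LC C P) {e : G} (he : e ∈ C)
    (hn : e ∈ normalizer (P : Set G)) : LC C (P ⊔ zpowers e) := by
  refine ⟨locNil_sup_engel hP.1 hP.2 Set.inter_subset_right hn fun u hu => h.engel u hu.1 e he,
    sup_le (le_trans hP.2 (Subgroup.closure_mono fun _ hy => ⟨hy.1, mem_sup_left hy.2⟩)) ?_⟩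
  rw [zpowers_le]
  exact Subgroup.subset_closure ⟨he, mem_sup_right (mem_zpowers e)⟩

lemma mem_max (h : Eng Γ C) {H : Subgroup G} (hH : Maximal (LC C) H) {e : G} (he : e ∈ C)
    (hn : e ∈ normalizer (H : Set G)) : e ∈ H :=
  hH.2 (h.lc_sup hH.1 he hn) le_sup_left (mem_sup_right (mem_zpowers e))

lemma nm_of_trace (h : Eng Γ C) {D T T' : Subgroup G} (hD : CG C D) (hle : D ≤ T) (hT' : T' ≤ Γ)
    (hn : Nm T' T) (htr : ∀ e ∈ C, e ∈ T → e ∈ D) : Nm T' D := by
  refine nm_of fun g hg y hy => ?_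
  have : closure (C ∩ D) ≤ cj g D := (closure_le _).2 fun z hz =>
    htr _ (h.conj z hz.1 g (hT' hg)) (hn.conj hg (hle hz.2))
  exact this (hD hy)

end Eng

lemma exists_maxLC {C : Set G} {P : Subgroup G} (hP : LC C P) : ∃ H, P ≤ H ∧ Maximal (LC C) H :=
  zorn_le_nonempty₀ {Q | LC C Q} (fun c hc hch y hy =>
    ⟨sSup c, ⟨locNil_sSup ⟨y, hy⟩ hch.directedOn fun P hP => (hc hP).1,
      cg_sSup fun P hP => (hc hP).2⟩, fun _ hz => le_sSup hz⟩) P hP

lemma eng_inv_ab {A : Subgroup G} {e : G} (hA : ∀ a ∈ A, ∀ b ∈ A, a * b = b * a)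
    (he : e ∈ normalizer (A : Set G)) : ∀ n, ∀ b ∈ A, (eng e)^[n] b⁻¹ = ((eng e)^[n] b)⁻¹
  | 0, _, _ => rfl
  | n + 1, b, hb => by
    rw [Function.iterate_succ_apply, Function.iterate_succ_apply,
      ← eng_inv_ab hA he n (eng e b) (eng_mem he hb 1)]
    congr 1
    have := hA b hb _ (inv_mem (Nm.conj' (Γ := normalizer (A : Set G)) le_rfl he hb))
    calc eng e b⁻¹ = b * (e⁻¹ * b * e)⁻¹ := by simp only [eng]; group
      _ = (eng e b)⁻¹ := by rw [this]; simp only [eng]; group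

/-- Abelian-by-nilpotent groups generated by a normal Engel subset are locally nilpotent. -/
lemma locNil_of_ab {C : Set G} (h : Eng ⊤ C) (hgen : ⊤ ≤ closure C) {s : ℕ}
    (hab : ⁅lc (⊤ : Subgroup G) s, lc (⊤ : Subgroup G) s⁆ = ⊥) : LocNil (⊤ : Subgroup G) := by
  have hAn : Nm ⊤ (lc (⊤ : Subgroup G) s) := (nm_self ⊤).lc s
  have hA : ∀ a ∈ lc (⊤ : Subgroup G) s, ∀ b ∈ lc (⊤ : Subgroup G) s, a * b = b * a := by
    intro a ha b hb
    have := commutator_mem_commutator ha hb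
    rwa [hab, mem_bot, commutatorElement_eq_one_iff_mul_comm] at this
  have h1 : ∀ a ∈ lc (⊤ : Subgroup G) s, ∀ b ∈ lc (⊤ : Subgroup G) s, eng b a = 1 := by
    intro a ha b hb
    simp only [eng]
    rw [mul_assoc b⁻¹, hA a ha b hb]; group
  have hE : Eng ⊤ (C ∪ lc (⊤ : Subgroup G) s) := by
    refine ⟨fun _ _ => mem_top _, ?_, ?_⟩
    · rintro e (he | he) g hg
      · exact Or.inl (h.conj e he g hg)
      · exact Or.inr (hAn.conj hg he)
    · rintro x hx y (hy | hy)
      · rcases hx with hx | hx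
        · exact h.engel x hx y hy
        · obtain ⟨n, hn⟩ := h.engel _ (h.conj y hy x⁻¹ (mem_top _)) y hy
          have hyA := hAn (mem_top y)
          have hb : eng y x ∈ lc (⊤ : Subgroup G) s := eng_mem hyA hx 1
          have h2 := eng_mono hn (Nat.le_succ n)
          have h3 : eng y (x⁻¹ * y * x⁻¹⁻¹) = eng y (eng y x)⁻¹ := by simp only [eng]; group
          rw [Function.iterate_succ_apply, h3, ← Function.iterate_succ_apply,
            eng_inv_ab hA hyA _ _ hb, inv_eq_one] at h2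
          exact ⟨n + 1 + 1, h2⟩
      · refine ⟨2, h1 _ ?_ y hy⟩
        have : eng y x = (x⁻¹ * y⁻¹ * x) * y := by simp only [eng]; group
        rw [this]
        exact mul_mem (hAn.conj' (mem_top x) (inv_mem hy)) hy
  have hA0 : LC (C ∪ lc (⊤ : Subgroup G) s) (lc (⊤ : Subgroup G) s) :=
    ⟨Nil.locNil ⟨1, hab⟩, fun y hy => Subgroup.subset_closure ⟨Or.inr hy, hy⟩⟩
  obtain ⟨H, hAH, hH⟩ := exists_maxLC hA0
  have key : ∀ d j, j + d = s → ∀ e ∈ C ∪ lc (⊤ : Subgroup G) s, e ∈ H ⊔ lc ⊤ j → e ∈ H := by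
    intro d
    induction d with
    | zero =>
      intro j hj e _ he
      rwa [show j = s by omega, sup_eq_left.2 hAH] at he
    | succ d ih =>
      intro j hj e heC he
      have h2 : Nm (H ⊔ lc ⊤ j) (H ⊔ lc ⊤ (j + 1)) := by
        refine sup_le (nm_of_le le_sup_left) (nm_of fun v hv y hy => ?_)
        have : v * y * v⁻¹ = ⁅v, y⁆ * y := by simp only [commutatorElement_def]; group
        rw [this]
        exact mul_mem (mem_sup_right (commutator_mem_commutator hv (mem_top y))) hy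
      exact hE.mem_max hH heC
        (hE.nm_of_trace hH.1.2 le_sup_left le_top h2 (ih (j + 1) (by omega)) he)
  exact hH.1.1.mono (hgen.trans ((closure_le H).2 fun e he =>
    key s 0 (by simp) e (Or.inl he) (mem_sup_right (mem_top e))))

lemma lc_map {G' : Type} [Group G'] (f : G →* G') (S : Subgroup G) :
    ∀ n, (lc S n).map f = lc (S.map f) n
  | 0 => rfl
  | n + 1 => by rw [lc_succ, lc_succ, map_commutator, lc_map f S n]

lemma eng_map {G' : Type} [Group G'] (f : G →* G') (e : G) :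
    ∀ n u, f ((eng e)^[n] u) = (eng (f e))^[n] (f u)
  | 0, _ => rfl
  | n + 1, u => by
    rw [Function.iterate_succ_apply, Function.iterate_succ_apply, eng_map f e n]
    simp [eng]

lemma Eng.lc_le_comm {Γ : Subgroup G} {C : Set G} (h : Eng Γ C) (T : Finset G)
    (hT : (↑T : Set G) ⊆ C) (s : ℕ) : ∃ t, lc (closure (↑T : Set G)) t ≤
      ⁅lc (closure (↑T : Set G)) s, lc (closure (↑T : Set G)) s⁆ := by
  classical
  have hKΓ : closure (↑T : Set G) ≤ Γ := (closure_le Γ).2 (hT.trans h.sub)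
  have htop : closure (((↑) : closure (↑T : Set G) → G) ⁻¹' (↑T : Set G)) = ⊤ :=
    closure_closure_coe_preimage
  generalize hK : closure (↑T : Set G) = K at hKΓ htop ⊢
  have hmap : ∀ n, (lc (⊤ : Subgroup K) n).map K.subtype = lc K n := fun n => by
    rw [lc_map, ← MonoidHom.range_eq_map, range_subtype]
  let B : Subgroup K := ⁅lc (⊤ : Subgroup K) s, lc (⊤ : Subgroup K) s⁆
  have hB : B.Normal := normalizer_eq_top_iff.1 (top_le_iff.1
    (((nm_self ⊤).lc s).comm ((nm_self ⊤).lc s)))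
  let π := QuotientGroup.mk' B
  have hsurj : Function.Surjective π := QuotientGroup.mk'_surjective B
  have hmap2 : ∀ n, (lc (⊤ : Subgroup K) n).map π = lc ⊤ n := fun n => by
    rw [lc_map, map_top_of_surjective π hsurj]
  have hE : Eng ⊤ (π '' {k : K | (k : G) ∈ C}) := by
    refine ⟨fun _ _ => mem_top _, ?_, ?_⟩
    · rintro _ ⟨k, hk, rfl⟩ g _
      obtain ⟨g, rfl⟩ := hsurj g
      exact ⟨g * k * g⁻¹, h.conj k hk g (hKΓ g.2), by simp⟩
    · rintro _ ⟨x, hx, rfl⟩ _ ⟨y, hy, rfl⟩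
      obtain ⟨n, hn⟩ := h.engel x hx y hy
      refine ⟨n, ?_⟩
      have : (eng y)^[n] x = 1 := Subtype.ext ((eng_map K.subtype y n x).trans hn)
      rw [← eng_map, this, map_one]
  have hfin : closure (↑((T.subtype (· ∈ K)).image π) : Set (K ⧸ B)) = ⊤ := by
    rw [Finset.coe_image, ← MonoidHom.map_closure]
    have : (↑(T.subtype (· ∈ K)) : Set K) = ((↑) : K → G) ⁻¹' (↑T : Set G) := by
      ext k; simp
    rw [this, htop, map_top_of_surjective π hsurj]
  have hgen : ⊤ ≤ closure (π '' {k : K | (k : G) ∈ C}) := by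
    rw [← hfin]
    refine Subgroup.closure_mono ?_
    rw [Finset.coe_image]
    exact Set.image_mono fun k hk => hT (by simpa using hk)
  have hab : ⁅lc (⊤ : Subgroup (K ⧸ B)) s, lc (⊤ : Subgroup (K ⧸ B)) s⁆ = ⊥ := by
    rw [← hmap2, ← map_commutator, Subgroup.map_eq_bot_iff, QuotientGroup.ker_mk']
  obtain ⟨t, ht⟩ := locNil_of_ab hE hgen hab ((T.subtype (· ∈ K)).image π) (fun _ _ => mem_top _)
  rw [hfin, ← hmap2, Subgroup.map_eq_bot_iff, QuotientGroup.ker_mk'] at ht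
  refine ⟨t, ?_⟩
  rw [← hmap, ← hmap, ← map_commutator]
  exact map_mono ht

/-- The maximal condition on subgroups between `N` and `Γ`. -/
def Acc' (Γ N : Subgroup G) : Prop :=
  WellFounded fun H' H : Subgroup G => N ≤ H ∧ H < H' ∧ H' ≤ Γ

/-- Exponents of `g` landing in `H`. -/
def zs (g : G) (H : Subgroup G) : Submodule ℤ ℤ where
  carrier := {k | g ^ k ∈ H}
  zero_mem' := by simp
  add_mem' := fun {a b} ha hb => by
    simp only [Set.mem_ofPred_eq, zpow_add] at *; exact mul_mem ha hb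
  smul_mem' := fun c k hk => by
    simp only [Set.mem_ofPred_eq, smul_eq_mul] at *
    rw [mul_comm, zpow_mul]; exact zpow_mem hk c

lemma acc_step {Γ N : Subgroup G} {g : G} (hg : g ∈ Γ) (hNΓ : N ≤ Γ) (hN : Nm Γ N)
    (hN' : Nm Γ (N ⊔ zpowers g)) (h : Acc' Γ (N ⊔ zpowers g)) : Acc' Γ N := by
  refine Subrelation.wf (r := InvImage (Prod.Lex _ (· > ·))
    (fun H : Subgroup G => (H ⊔ (N ⊔ zpowers g), zs g H))) ?_
    (InvImage.wf _ (WellFounded.prod_lex h wellFounded_gt))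
  rintro H' H ⟨h1, h2, h3⟩
  have hNg : N ⊔ zpowers g ≤ Γ := sup_le hNΓ (by rwa [zpowers_le])
  rcases (sup_le_sup_right h2.le (N ⊔ zpowers g)).lt_or_eq with hlt | heq
  · exact Prod.Lex.left _ _ ⟨le_sup_right, hlt, sup_le h3 hNg⟩
  · show Prod.Lex _ _ (H' ⊔ (N ⊔ zpowers g), zs g H') (H ⊔ (N ⊔ zpowers g), zs g H)
    rw [heq]
    refine Prod.Lex.right _ (lt_of_le_of_ne (fun k hk => h2.le hk) fun he => h2.not_ge ?_)
    intro x hx
    have hx1 : x ∈ ((H ⊔ (N ⊔ zpowers g) : Subgroup G) : Set G) := heq ▸ mem_sup_left hx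
    rw [coe_mul_of_left_le_normalizer_right _ _ ((h2.le.trans h3).trans hN')] at hx1
    obtain ⟨a, ha, b, hb, rfl⟩ := hx1
    rw [coe_mul_of_right_le_normalizer_left _ _ ((le_sup_right.trans hNg).trans hN)] at hb
    obtain ⟨c, hc, _, ⟨k, rfl⟩, rfl⟩ := hb
    have h4 : g ^ k ∈ H' := by
      have := mul_mem (inv_mem (h2.le (h1 hc))) (mul_mem (inv_mem (h2.le ha)) hx)
      simpa using this
    have h5 : k ∈ zs g H := he.ge h4
    exact mul_mem ha (mul_mem (h1 hc) h5)

lemma acc_fin {Γ N : Subgroup G} (hNΓ : N ≤ Γ) (S : Finset G) : (↑S : Set G) ⊆ Γ →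
    ⁅N ⊔ closure (↑S : Set G), Γ⁆ ≤ N → Acc' Γ (N ⊔ closure (↑S : Set G)) → Acc' Γ N := by
  classical
  induction S using Finset.induction_on with
  | empty => intro _ _ h; simpa using h
  | insert a S _ ih =>
    intro hS hc h
    rw [Finset.coe_insert, Set.insert_subset_iff] at hS
    have he : N ⊔ closure (↑(insert a S) : Set G) = N ⊔ closure (↑S : Set G) ⊔ zpowers a := by
      rw [Finset.coe_insert, Set.insert_eq, Subgroup.closure_union, ← zpowers_eq_closure,
        sup_comm (zpowers a), sup_assoc]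
    rw [he] at hc h
    have hc' := (commutator_mono le_sup_left le_rfl).trans hc
    exact ih hS.2 hc' (acc_step hS.1 (sup_le hNΓ ((closure_le Γ).2 hS.2))
      (nm_between le_sup_left hc') (nm_between (le_sup_left.trans le_sup_left) hc) h)

lemma lc_gen (T : Finset G) : ∀ i, ∃ S : Finset G, lc (closure (↑T : Set G)) i =
    lc (closure (↑T : Set G)) (i + 1) ⊔ closure (↑S : Set G) := by
  classical
  intro i
  induction i with
  | zero => exact ⟨T, (sup_eq_right.2 (lc_le _ _)).symm⟩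
  | succ i ih =>
    obtain ⟨S, hS⟩ := ih
    have hTΓ : (↑T : Set G) ⊆ closure (↑T : Set G) := Subgroup.subset_closure
    have hgen : closure (↑T : Set G) ≤ closure (↑T : Set G) := le_rfl
    generalize hΓ : closure (↑T : Set G) = Γ at hS hTΓ ⊢
    refine ⟨(S ×ˢ T).image fun p => ⁅p.1, p.2⁆, ?_⟩
    have hSi : closure (↑S : Set G) ≤ lc Γ i := hS ▸ le_sup_right
    have hle : lc Γ (i + 1 + 1) ⊔ closure (↑((S ×ˢ T).image fun p => ⁅p.1, p.2⁆) : Set G) ≤
        lc Γ (i + 1) := by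
      refine sup_le (lc_succ_le _ _) ((closure_le _).2 fun y hy => ?_)
      obtain ⟨p, hp, rfl⟩ := Finset.mem_image.1 (Finset.mem_coe.1 hy)
      exact commutator_mem_commutator (hSi (Subgroup.subset_closure (Finset.mem_product.1 hp).1))
        (hTΓ (Finset.mem_product.1 hp).2)
    refine le_antisymm ?_ hle
    have hR : Nm Γ (lc Γ (i + 1 + 1) ⊔ closure (↑((S ×ˢ T).image fun p => ⁅p.1, p.2⁆) : Set G)) :=
      nm_between le_sup_left (commutator_mono hle le_rfl)
    have h1 : lc Γ i ≤ cz Γ T _ hR := by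
      rw [hS]
      refine sup_le (fun a ha => ⟨lc_le _ _ ha, fun t ht => mem_sup_left
        (commutator_mem_commutator ha (hTΓ ht))⟩) ((closure_le _).2 fun a ha => ⟨lc_le _ _
        (hSi (Subgroup.subset_closure ha)), fun t ht => mem_sup_right (Subgroup.subset_closure ?_)⟩)
      exact Finset.mem_coe.2 (Finset.mem_image.2 ⟨(a, t), Finset.mem_product.2 ⟨ha, ht⟩, rfl⟩)
    have h2 : closure (↑T : Set G) ≤ cz Γ (lc Γ i) _ hR :=
      (closure_le _).2 fun t ht => ⟨hTΓ ht, fun a ha => comm_swap ((h1 ha).2 t ht)⟩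
    rw [hΓ] at h2
    exact commutator_le.2 fun a ha y hy => comm_swap ((h2 hy).2 a ha)

lemma acc_lc (T : Finset G) : ∀ s, Acc' (closure (↑T : Set G)) (lc (closure (↑T : Set G)) s)
  | 0 => ⟨fun H => ⟨H, fun _ ⟨h1, h2, h3⟩ => absurd (h3.trans h1) h2.not_ge⟩⟩
  | s + 1 => by
    obtain ⟨S, hS⟩ := lc_gen T s
    refine acc_fin (lc_le _ _) S (fun y hy => lc_le _ s (hS ▸ mem_sup_right
      (Subgroup.subset_closure hy))) (by rw [← hS]; exact le_rfl) (by rw [← hS]; exact acc_lc T s)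

lemma Acc'.exists_max {Γ N : Subgroup G} (h : Acc' Γ N) (hN : N ≤ Γ) {F : Set (Subgroup G)}
    (hne : F.Nonempty) (hF : ∀ D ∈ F, D ≤ Γ) : ∃ D ∈ F, ∀ D' ∈ F, D ≤ D' → D' ≤ D ⊔ N := by
  obtain ⟨_, ⟨D, hD, rfl⟩, hmin⟩ := WellFounded.has_min h ((· ⊔ N) '' F) (hne.image _)
  refine ⟨D, hD, fun D' hD' hle => le_sup_left.trans (eq_of_le_of_not_lt (sup_le_sup_right hle N)
    fun hlt => hmin _ ⟨D', hD', rfl⟩ ⟨le_sup_right, hlt, sup_le (hF D' hD') hN⟩).ge⟩

end Pool.Agent.H65.Mc
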