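import Pool.Agent.H65.Mc6

set_option autoImplicit false

/-! Normal Engel subsets of groups with the minimal condition on centralizers generate locally
nilpotent subgroups. -/
namespace Pool.Agent.H65.Mc
open Subgroup
open scoped commutatorElement

variable {G : Type} [Group G]

/-- Intersections of two distinct maximal subgroups. -/
def DL (C : Set G) : Set (Subgroup G) :=
  {D | ∃ H L, Maximal (LC C) H ∧ Maximal (LC C) L ∧ H ≠ L ∧ D = gen C H L}

/-- The join of all members of `DL C` above `D`. -/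
def cone (C : Set G) (D : Subgroup G) : Subgroup G := sSup {D' | D' ∈ DL C ∧ D ≤ D'}

lemma DL.lc {C : Set G} {D : Subgroup G} (h : D ∈ DL C) : LC C D := by
  obtain ⟨H, L, hH, _, _, rfl⟩ := h
  exact ⟨hH.1.1.mono ((gen_le C H L).trans inf_le_left), cg_gen C H L⟩

lemma le_cone {C : Set G} {D D' : Subgroup G} (h : D' ∈ DL C) (hle : D ≤ D') : D' ≤ cone C D :=
  le_sSup ⟨h, hle⟩

lemma cone_anti {C : Set G} {D D' : Subgroup G} (hle : D ≤ D') : cone C D' ≤ cone C D :=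
  sSup_le fun _ hP => le_cone hP.1 (hle.trans hP.2)

lemma cg_cone (C : Set G) (D : Subgroup G) : CG C (cone C D) := cg_sSup fun _ hP => (DL.lc hP.1).2

lemma lc_sup_le {D F : Subgroup G} (hn : Nm (D ⊔ F) F) : ∀ i, lc (D ⊔ F) i ≤ lc D i ⊔ F
  | 0 => le_rfl
  | i + 1 => by
    have hR : Nm (D ⊔ F) (lc D (i + 1) ⊔ F) :=
      sup_le (((nm_self D).lc _).sup (le_sup_left.trans hn)) (nm_of_le le_sup_right)
    have h1 : D ⊔ F ≤ cz (D ⊔ F) (lc D i) _ hR := by
      refine sup_le (fun y hy => ⟨mem_sup_left hy, fun a ha => ?_⟩)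
        (fun y hy => ⟨mem_sup_right hy, fun a ha => ?_⟩)
      · exact comm_swap (mem_sup_left (commutator_mem_commutator ha hy))
      · exact mem_sup_right (hn.comm_left (mem_sup_left (lc_le D i ha)) hy)
    have h2 : lc D i ⊔ F ≤ cz (D ⊔ F) (D ⊔ F : Subgroup G) _ hR := by
      refine sup_le (fun a ha => ⟨mem_sup_left (lc_le D i ha), fun y hy => ?_⟩)
        (fun a ha => ⟨mem_sup_right ha, fun y hy => mem_sup_right (hn.comm_left hy ha)⟩)
      exact comm_swap ((h1 hy).2 a ha)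
    exact commutator_le.2 fun a ha y hy => (h2 (lc_sup_le hn i ha)).2 y hy

namespace Eng
variable {Γ : Subgroup G} {C : Set G}

lemma exists_norm (h : Eng Γ C) (hG : IsMc G) {H D : Subgroup G} (hH : LC C H) (hD : CG C D)
    (hle : D ≤ H) (hn : ¬ H ≤ D) : ∃ e ∈ C, e ∈ H ∧ e ∉ D ∧ e ∈ normalizer (D : Set G) := by
  obtain ⟨T, hDT, hT⟩ := zorn_le_nonempty₀ {T : Subgroup G | T ≤ H ∧ ∀ e ∈ C, e ∈ T → e ∈ D}
    (fun c hc hch y hy => ⟨sSup c, ⟨sSup_le fun P hP => (hc hP).1, fun e he hes => by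
      obtain ⟨P, hP, heP⟩ := (mem_sSup_of_directedOn ⟨y, hy⟩ hch.directedOn).1 hes
      exact (hc hP).2 e he heP⟩, fun _ hz => le_sSup hz⟩) D ⟨hle, fun _ _ he => he⟩
  have hHT : ¬ H ≤ T := fun hle' =>
    hn (le_trans hH.2 ((closure_le D).2 fun e he => hT.1.2 e he.1 (hle' he.2)))
  obtain ⟨g, hg, hgT, hgN⟩ := hG.exists_normalizer hH.1 hT.1.1 hHT
  have h1 : T ⊔ zpowers g ≤ H := sup_le hT.1.1 (by rwa [zpowers_le])
  have h2 : Nm (T ⊔ zpowers g) D := h.nm_of_trace hD hDT (h1.trans (h.cg_le hH.2))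
    (sup_le (nm_self T) (by rwa [zpowers_le])) hT.1.2
  by_contra hcon
  push Not at hcon
  refine hgT (hT.2 (y := T ⊔ zpowers g) ⟨h1, fun e he heT => ?_⟩ le_sup_left
    (mem_sup_right (mem_zpowers g)))
  by_contra heD
  exact hcon e he (h1 heT) heD (h2 heT)

lemma nm_cone (h : Eng Γ C) (D : Subgroup G) : Nm (Γ ⊓ normalizer (D : Set G)) (cone C D) := by
  refine nm_of fun g hg y hy => ?_
  have : cone C D ≤ cj g (cone C D) := by
    refine sSup_le ?_
    rintro _ ⟨⟨H, L, hH, hL, hHL, rfl⟩, hle⟩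
    have hg' : g⁻¹ ∈ Γ := Γ.inv_mem hg.1
    have h1 : cj g⁻¹ (gen C H L) ≤ gen C (cj g⁻¹ H) (cj g⁻¹ L) :=
      (h.cg_cj (cg_gen C H L) hg').le_gen (cj_mono _ ((gen_le C H L).trans inf_le_left))
        (cj_mono _ ((gen_le C H L).trans inf_le_right))
    have h2 : D ≤ cj g⁻¹ (gen C H L) := fun y hy =>
      mem_cj.2 (hle (Nm.conj (Γ := normalizer (D : Set G)) le_rfl ((normalizer (D : Set G)).inv_mem hg.2) hy))
    have h3 : gen C (cj g⁻¹ H) (cj g⁻¹ L) ≤ cone C D := by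
      refine le_cone ⟨_, _, h.max_cj hH hg', h.max_cj hL hg', fun he => hHL ?_, rfl⟩ (h2.trans h1)
      rw [← cj_cj' g H, he, cj_cj']
    have h4 := cj_mono g (h1.trans h3)
    rwa [cj_cj'] at h4
  exact this hy

lemma exists_maxDL (h : Eng Γ C) (hG : IsMc G) {D : Subgroup G} (hD : D ∈ DL C)
    (hnil : LocNil (cone C D)) : ∃ D, Maximal (· ∈ DL C) D := by
  have hE : ∀ D₁, D ≤ D₁ → LC C (cone C D₁) := fun D₁ hle =>
    ⟨hnil.mono (cone_anti hle), cg_cone C D₁⟩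
  obtain ⟨L, hEL, hL⟩ := exists_maxLC (hE D le_rfl)
  have hDL : D ≤ L := le_trans (le_cone hD le_rfl) hEL
  obtain ⟨H, hH, hHL, hDH⟩ : ∃ H, Maximal (LC C) H ∧ H ≠ L ∧ D ≤ H := by
    obtain ⟨H, K, hH, hK, hHK, rfl⟩ := hD
    by_cases hh : H = L
    · exact ⟨K, hK, fun hk => hHK (hh.trans hk.symm), (gen_le C H K).trans inf_le_right⟩
    · exact ⟨H, hH, hh, (gen_le C H K).trans inf_le_left⟩
  have hD1 : gen C H L ∈ DL C := ⟨H, L, hH, hL, hHL, rfl⟩
  have hle1 : D ≤ gen C H L := (DL.lc hD).2.le_gen hDH hDL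
  obtain ⟨e, heC, heH, heD, heN⟩ := h.exists_norm hG hH.1 (cg_gen C H L)
    ((gen_le C H L).trans inf_le_left)
    (fun hle => hHL (hH.eq_of_le hL.1 (hle.trans ((gen_le C H L).trans inf_le_right))))
  obtain ⟨L', hL', hmax⟩ := exists_maxLC (h.lc_sup (hE _ hle1) heC (h.nm_cone _ ⟨h.sub heC, heN⟩))
  have hne' : L ≠ L' := by
    rintro rfl
    exact heD (Subgroup.subset_closure ⟨heC, heH, hL' (mem_sup_right (mem_zpowers e))⟩)
  have h1 : cone C (gen C H L) ≤ gen C L L' :=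
    (hE _ hle1).2.le_gen ((cone_anti hle1).trans hEL) (le_sup_left.trans hL')
  refine ⟨gen C L L', ⟨L, L', hL, hmax, hne', rfl⟩, fun D' hD' hle => ?_⟩
  exact le_trans (le_cone hD' (((le_cone hD1 le_rfl).trans h1).trans hle)) h1

lemma no_maxDL (h : Eng Γ C) (hG : IsMc G) {D : Subgroup G} (hmax' : Maximal (· ∈ DL C) D) :
    False := by
  obtain ⟨hD, hmax⟩ := hmax'
  obtain ⟨H, L, hH, hL, hHL, hDe⟩ := id hD
  have hDH : D ≤ H := hDe ▸ (gen_le C H L).trans inf_le_left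
  have hDL : D ≤ L := hDe ▸ (gen_le C H L).trans inf_le_right
  obtain ⟨e, heC, heH, heD, heN⟩ := h.exists_norm hG hH.1 (DL.lc hD).2 hDH
    (fun hle => hHL (hH.eq_of_le hL.1 (hle.trans hDL)))
  obtain ⟨k, hkC, hkL, hkD, hkN⟩ := h.exists_norm hG hL.1 (DL.lc hD).2 hDL
    (fun hle => hHL (hL.eq_of_le hH.1 (hle.trans hDH)).symm)
  have hconj : ∀ g ∈ Γ, g⁻¹ * e * g ∈ C := fun g hg => by
    simpa using h.conj e heC g⁻¹ (inv_mem hg)
  have key : ∀ g ∈ Γ ⊓ normalizer (D : Set G), g⁻¹ * e * g ∈ H → g ∈ normalizer (H : Set G) := by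
    intro g hg hge
    have h1 : cj g H = H := by
      by_contra hne'
      have h2 : D ≤ gen C (cj g H) H := (DL.lc hD).2.le_gen
        (fun y hy => mem_cj.2 (hDH (Nm.conj (Γ := normalizer (D : Set G)) le_rfl hg.2 hy))) hDH
      have h3 := hmax ⟨_, _, h.max_cj hH hg.1, hH, hne', rfl⟩ h2
      have h4 : g⁻¹ * e * g ∈ D := by
        refine h3 (Subgroup.subset_closure ⟨hconj g hg.1, mem_cj.2 ?_, hge⟩)
        rw [show g * (g⁻¹ * e * g) * g⁻¹ = e by group]; exact heH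
      have h5 := Nm.conj (Γ := normalizer (D : Set G)) le_rfl hg.2 h4
      rw [show g * (g⁻¹ * e * g) * g⁻¹ = e by group] at h5
      exact heD h5
    rw [mem_normalizer_iff]
    intro y
    rw [← mem_cj, h1]
  have heN' : e ∈ Γ ⊓ normalizer (D : Set G) := ⟨h.sub heC, heN⟩
  have hdown : ∀ m y, y ∈ Γ ⊓ normalizer (D : Set G) → (eng e)^[m] y = 1 →
      y ∈ normalizer (H : Set G) := by
    intro m
    induction m with
    | zero =>
      intro y _ h1
      have : y = 1 := h1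
      rw [this]; exact one_mem _
    | succ m ih =>
      intro y hy h1
      have h2 : eng e y ∈ normalizer (H : Set G) :=
        ih _ (mul_mem (inv_mem hy) (mul_mem (mul_mem (inv_mem heN') hy) heN')) h1
      refine key y hy (h.mem_max hH (hconj y hy.1) ?_)
      have : y⁻¹ * e * y = e * (eng e y)⁻¹ := by simp only [eng]; group
      rw [this]
      exact mul_mem (nm_self H heH) (inv_mem h2)
  obtain ⟨n, hn⟩ := h.engel k hkC e heC
  have hkH : k ∈ H := h.mem_max hH hkC (hdown n k ⟨h.sub hkC, hkN⟩ hn)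
  exact hkD (hDe ▸ Subgroup.subset_closure ⟨hkC, hkH, hkL⟩)

lemma locNil_closure (h : Eng Γ C) (hG : IsMc G)
    (hgood : (DL C).Nonempty → ∃ D ∈ DL C, LocNil (cone C D)) : LocNil (closure C) := by
  obtain ⟨M, _, hM⟩ := exists_maxLC (C := C) (P := ⊥) ⟨nil_bot.locNil, bot_le⟩
  refine hM.1.1.mono ((closure_le M).2 fun e he => ?_)
  obtain ⟨H, hle, hH⟩ := exists_maxLC (h.lc_sup (P := ⊥) ⟨nil_bot.locNil, bot_le⟩ he
    (nm_bot ⊤ (mem_top e)))
  by_contra hne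
  obtain ⟨D, hD, hnil⟩ := hgood ⟨_, H, M, hH, hM, (by
    rintro rfl
    exact hne (hle (mem_sup_right (mem_zpowers e)))), rfl⟩
  obtain ⟨D', hD'⟩ := h.exists_maxDL hG hD hnil
  exact h.no_maxDL hG hD'

lemma exists_good (h : Eng Γ C) (hG : IsMc G) {s : ℕ} (hacc : Acc' Γ (lc Γ s))
    (hstab : ∀ T : Finset G, (↑T : Set G) ⊆ C → ¬ Nil (closure (↑T : Set G)) → ∀ m, s ≤ m →
      centralizer (lc (closure (↑T : Set G)) m : Set G) ≤ centralizer (lc Γ s : Set G))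
    (hnab : ¬ lc Γ s ≤ centralizer (lc Γ s : Set G)) (hne : (DL C).Nonempty) :
    ∃ D ∈ DL C, LocNil (cone C D) := by
  obtain ⟨D1, hD1, h1⟩ := hacc.exists_max (lc_le Γ s) hne fun D hD => h.cg_le (DL.lc hD).2
  obtain ⟨D2, ⟨hD2, h12⟩, h2⟩ := hG.exists_min (fun D => D ⊓ lc Γ s)
    (F := {D | D ∈ DL C ∧ D1 ≤ D}) ⟨D1, hD1, le_rfl⟩
  obtain ⟨D, ⟨hD, h23⟩, h3⟩ := hG.exists_min (fun D => lc (D ⊓ lc Γ s) 1)
    (F := {D | D ∈ DL C ∧ D2 ≤ D}) ⟨D2, hD2, le_rfl⟩
  refine ⟨D, hD, ?_⟩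
  by_contra hnl
  have hPn : Nm Γ (lc Γ s) := (nm_self Γ).lc s
  generalize hP : lc Γ s = P at *
  have hcen : ∀ D' ∈ DL C, D ≤ D' → ∀ j ≤ 1, centralizer (lc (D ⊓ P) j : Set G) ≤
      centralizer (lc (D' ⊓ P) j : Set G) := by
    intro D' hD' hle j hj
    rcases Nat.le_one_iff_eq_zero_or_eq_one.1 hj with rfl | rfl
    · exact (centralizer_le (inf_le_inf_right P h23 : D2 ⊓ P ≤ D ⊓ P)).trans
        (h2 D' ⟨hD', h12.trans (h23.trans hle)⟩ (inf_le_inf_right P (h23.trans hle)))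
    · exact h3 D' ⟨hD', h23.trans hle⟩ (lc_mono (inf_le_inf_right P hle) 1)
  obtain ⟨F, hF⟩ : ∃ F, F = sSup ((· ⊓ P) '' {D' | D' ∈ DL C ∧ D ≤ D'}) := ⟨_, rfl⟩
  have hVF : ∀ D' ∈ DL C, D ≤ D' → D' ⊓ P ≤ F := fun D' hD' hle =>
    hF ▸ le_sSup ⟨D', ⟨hD', hle⟩, rfl⟩
  have hFP : F ≤ P := hF ▸ sSup_le (by rintro _ ⟨D', _, rfl⟩; exact inf_le_right)
  have hDΓ : D ≤ Γ := h.cg_le (DL.lc hD).2
  have hDF : Nm D F := by
    refine nm_of fun g hg y hy => ?_
    have : F ≤ cj g F := by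
      conv_lhs => rw [hF]
      refine sSup_le ?_
      rintro _ ⟨D', ⟨hD', hle⟩, rfl⟩ y hy
      exact hVF D' hD' hle ⟨(nm_self D').conj (hle hg) hy.1, hPn.conj (hDΓ hg) hy.2⟩
    exact this hy
  have hE : cone C D ≤ D ⊔ F := by
    refine sSup_le fun D' hD' x hx => ?_
    have hx1 : x ∈ ((D ⊔ P : Subgroup G) : Set G) :=
      sup_le_sup_right (h12.trans h23) P (h1 D' hD'.1 ((h12.trans h23).trans hD'.2) hx)
    rw [coe_mul_of_left_le_normalizer_right _ _ (hDΓ.trans hPn)] at hx1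
    obtain ⟨a, ha, b, hb, rfl⟩ := hx1
    refine mul_mem (mem_sup_left ha) (mem_sup_right (hVF D' hD'.1 hD'.2 ⟨?_, hb⟩))
    have := mul_mem (inv_mem (hD'.2 ha)) hx
    simpa using this
  have hlcE : lc (cone C D) s ≤ F := (lc_mono hE s).trans
    ((lc_sup_le (sup_le hDF (nm_self F)) s).trans (sup_le (le_trans
      (le_inf (lc_le D s) (hP ▸ lc_mono hDΓ s)) (hVF D hD le_rfl)) le_rfl))
  unfold LocNil at hnl
  push Not at hnl
  obtain ⟨T', hT', hT'n⟩ := hnl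
  obtain ⟨T, hT, hle⟩ := closure_fin' _ T' (hT'.trans (cg_cone C D))
  have hTn : ¬ Nil (closure (↑T : Set G)) := fun hn => hT'n (hn.mono hle)
  have hTC : (↑T : Set G) ⊆ C := hT.trans Set.inter_subset_left
  have hKF : lc (closure (↑T : Set G)) s ≤ F :=
    (lc_mono ((closure_le _).2 (hT.trans Set.inter_subset_right)) s).trans hlcE
  have hc0 : centralizer (F : Set G) ≤ centralizer (P : Set G) :=
    (centralizer_le hKF).trans (hstab T hTC hTn s le_rfl)
  have hc1 : centralizer (lc F 1 : Set G) ≤ centralizer (P : Set G) := by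
    obtain ⟨t, ht⟩ := h.lc_le_comm T hTC s
    exact (centralizer_le ((lc_anti _ (le_max_left t s)).trans
      (ht.trans (commutator_mono hKF hKF)))).trans (hstab T hTC hTn _ (le_max_right t s))
  obtain ⟨T0, hT0, hd⟩ := hG.delta (D ⊓ P) 1
  have hd' := hd (closure (↑T0 : Set G)) Subgroup.subset_closure
  have hKV : closure (↑T0 : Set G) ≤ D ⊓ P := (closure_le _).2 hT0
  obtain ⟨c, hc⟩ := (DL.lc hD).1 T0 (hT0.trans inf_le_left)
  generalize closure (↑T0 : Set G) = K at hd' hKV hc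
  have hKF' : K ≤ F := hKV.trans (hVF D hD le_rfl)
  have hall : ∀ H ∈ (· ⊓ P) '' {D' | D' ∈ DL C ∧ D ≤ D'}, ∀ j ≤ 1,
      centralizer (lc K j : Set G) ≤ centralizer (lc H j : Set G) := by
    rintro _ ⟨D', hD', rfl⟩ j hj
    exact (hd' j hj).trans (hcen D' hD'.1 hD'.2 j hj)
  have hK0 : ¬ K ≤ centralizer (P : Set G) := by
    intro hle
    refine hnab ((le_centralizer_iff.1 hle).trans (le_trans ?_ hc0))
    rw [le_centralizer_iff, hF]
    exact sSup_le fun H hH => le_centralizer_iff.1 (hall H hH 0 (Nat.zero_le 1))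
  obtain ⟨i, hi, hi'⟩ := Nat.exists_not_and_succ_of_not_zero_of_exists
    (p := fun i => lc K i ≤ centralizer (P : Set G)) hK0 ⟨c, by rw [hc]; exact bot_le⟩
  obtain ⟨V, hV, hV0⟩ := exists_up (nm_bot F) bot_le
  have hb := hV.bprime hV0 hF (K := K) (by
    rintro _ ⟨D', hD', rfl⟩
    exact hKV.trans (inf_le_inf_right P hD'.2)) hKF' hall 1 le_rfl (lc K i)
    ((lc_le K i).trans hKF') (by
      refine hV.le_of_comm 0 ((lc_le K (i + 1)).trans hKF') ?_
      rw [hV0, le_bot_iff, commutator_eq_bot_iff_le_centralizer]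
      exact hi'.trans (centralizer_le hFP))
  have h5 := hV.hall le_rfl 1 0 ((lc_le K i).trans hKF') (hV.comm_le 1 hb le_rfl)
  rw [hV0, le_bot_iff, commutator_eq_bot_iff_le_centralizer] at h5
  exact hi (h5.trans hc1)

end Eng

/-- A normal Engel subset generates a locally nilpotent subgroup. -/
theorem IsMc.locNil_of_eng (hG : IsMc G) {X : Set G} (h : Eng ⊤ X) : LocNil (closure X) := by
  by_contra hnl
  unfold LocNil at hnl
  push Not at hnl
  obtain ⟨T', hT', hT'n⟩ := hnl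
  obtain ⟨T, hT, hle⟩ := closure_fin' _ T' hT'
  obtain ⟨⟨T0, s⟩, ⟨hT0, hT0n⟩, hmax⟩ := hG.exists_max
    (fun p : Finset G × ℕ => lc (closure (↑p.1 : Set G)) p.2)
    (F := {p | (↑p.1 : Set G) ⊆ X ∧ ¬ Nil (closure (↑p.1 : Set G))})
    ⟨(T, 0), hT, fun hn => hT'n (hn.mono hle)⟩
  dsimp only at hT0 hT0n hmax
  have hE : Eng (closure (↑T0 : Set G)) (X ∩ closure (↑T0 : Set G)) :=
    ⟨Set.inter_subset_right, fun e he g hg => ⟨h.conj e he.1 g (mem_top g), (nm_self _).conj hg he.2⟩,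
      fun x hx y hy => h.engel x hx.1 y hy.1⟩
  have hTC : (↑T0 : Set G) ⊆ X ∩ closure (↑T0 : Set G) :=
    Set.subset_inter hT0 Subgroup.subset_closure
  refine hT0n (hE.locNil_closure hG (hE.exists_good hG (acc_lc T0 s) ?_ ?_) T0
    (hTC.trans Subgroup.subset_closure))
  · intro T1 hT1 hT1n m hm
    exact hmax (T1, m) ⟨hT1.trans Set.inter_subset_left, hT1n⟩ ((lc_anti _ hm).trans
      (lc_mono ((closure_le _).2 (hT1.trans Set.inter_subset_right)) s))
  · intro hab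
    obtain ⟨t, ht⟩ := hE.lc_le_comm T0 hTC s
    rw [commutator_eq_bot_iff_le_centralizer.2 hab] at ht
    exact hT0n ⟨t, le_bot_iff.1 ht⟩

end Pool.Agent.H65.Mc
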