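import Pool.Agent.H65.Mc7

set_option autoImplicit false

/-! Right Engel elements and ascendance under the minimal condition on centralizers. -/
namespace Pool.Agent.H65.Mc
open Subgroup
open scoped commutatorElement

variable {G : Type} [Group G]

lemma heineken' {a : G} (h : ∀ x, ∃ m, (eng x)^[m] a = 1) (y : G) :
    ∃ n, (eng a⁻¹)^[n] y = 1 := by
  obtain ⟨m, hm⟩ := h (y * a⁻¹ * y⁻¹)
  refine ⟨m + 2, ?_⟩
  have h1 : eng a⁻¹ (eng a⁻¹ y) = a * eng a⁻¹ (y⁻¹ * a * y⁻¹⁻¹) * a⁻¹ := by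
    simp only [eng]; group
  have h2 := eng_conj a a⁻¹ m (eng a⁻¹ (y⁻¹ * a * y⁻¹⁻¹))
  rw [show a * a⁻¹ * a⁻¹ = a⁻¹ by group] at h2
  have h3 := eng_conj y⁻¹ (y * a⁻¹ * y⁻¹) (m + 1) a
  rw [show y⁻¹ * (y * a⁻¹ * y⁻¹) * y⁻¹⁻¹ = a⁻¹ by group] at h3
  rw [Function.iterate_succ_apply, Function.iterate_succ_apply, h1, h2,
    ← Function.iterate_succ_apply, h3, Function.iterate_succ_apply', hm]
  simp only [eng]; group

lemma IsMc.locNil_right (hG : IsMc G) {a : G} (h : ∀ x, ∃ m, (eng x)^[m] a = 1) (x : G) :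
    LocNil (normalClosure ({a} : Set G) ⊔ zpowers x) := by
  have hE : Eng ⊤ {e | ∃ g, e = g * a⁻¹ * g⁻¹} := by
    refine ⟨fun _ _ => mem_top _, ?_, ?_⟩
    · rintro _ ⟨g, rfl⟩ k _
      exact ⟨k * g, by group⟩
    · rintro y _ _ ⟨g, rfl⟩
      obtain ⟨n, hn⟩ := heineken' h (g⁻¹ * y * g)
      have := eng_conj g a⁻¹ n (g⁻¹ * y * g)
      rw [show g * (g⁻¹ * y * g) * g⁻¹ = y by group, hn] at this
      exact ⟨n, by simpa using this⟩
  have hc : ∀ y ∈ Group.conjugatesOfSet ({a} : Set G), ∃ g, y = g * a * g⁻¹ := by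
    intro y hy
    obtain ⟨b, hb, hc⟩ := Group.mem_conjugatesOfSet_iff.1 hy
    rw [Set.mem_singleton_iff.1 hb] at hc
    obtain ⟨g, rfl⟩ := isConj_iff.1 hc
    exact ⟨g, rfl⟩
  have hN : LocNil (normalClosure ({a} : Set G)) := by
    refine (hG.locNil_of_eng hE).mono ((closure_le _).2 fun y hy => ?_)
    obtain ⟨g, rfl⟩ := hc y hy
    rw [SetLike.mem_coe, ← inv_mem_iff]
    exact Subgroup.subset_closure ⟨g, by group⟩
  refine locNil_sup_engel (S := Group.conjugatesOfSet ({a} : Set G)) hN le_rfl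
    Subgroup.subset_closure (le_normalizer_of_normal (K := ⊤) (mem_top x)) fun u hu => ?_
  obtain ⟨g, rfl⟩ := hc u hu
  obtain ⟨n, hn⟩ := h (g⁻¹ * x * g)
  have := eng_conj g (g⁻¹ * x * g) n a
  rw [show g * (g⁻¹ * x * g) * g⁻¹ = x by group, hn] at this
  exact ⟨n, by simpa using this⟩

/-- Every subgroup of a locally nilpotent subgroup is ascendant. -/
lemma IsMc.exists_chain (hG : IsMc G) {Γ H : Subgroup G} (hΓ : LocNil Γ) (hH : H ≤ Γ) :
    ∃ (α : Ordinal.{0}) (S : Ordinal.{0} → Subgroup G), S 0 = H ∧ S α = Γ ∧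
      (∀ β, S β ≤ S (β + 1) ∧ Nm (S (β + 1)) (S β)) ∧
      ∀ l, Order.IsSuccLimit l → (S l : Set G) = ⋃ β < l, (S β : Set G) := by
  obtain ⟨S, h0, hs, hl⟩ : ∃ S : Ordinal.{0} → Subgroup G, S 0 = H ∧
      (∀ β, S (β + 1) = Γ ⊓ normalizer (S β : Set G)) ∧
      ∀ l, Order.IsSuccLimit l → S l = ⨆ β, ⨆ (_ : β < l), S β :=
    ⟨fun o => Ordinal.limitRecOn o H (fun _ P => Γ ⊓ normalizer (P : Set G))
      (fun o _ ih => ⨆ β, ⨆ (h : β < o), ih β h), Ordinal.limitRecOn_zero ..,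
      fun β => Ordinal.limitRecOn_add_one .., fun l hl => Ordinal.limitRecOn_limit _ _ _ _ hl⟩
  have hle : ∀ β, S β ≤ Γ := by
    intro β
    induction β using Ordinal.limitRecOn with
    | zero => rw [h0]; exact hH
    | add_one β _ => rw [hs]; exact inf_le_left
    | limit l hl' ih => rw [hl l hl']; exact iSup₂_le ih
  have hstep : ∀ β, S β ≤ S (β + 1) := fun β => by rw [hs]; exact le_inf (hle β) le_normalizer
  have hmono : Monotone S := by
    intro β γ
    induction γ using Ordinal.limitRecOn with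
    | zero => intro h; rw [le_antisymm h bot_le]
    | add_one γ ih =>
      intro h
      rcases h.lt_or_eq with h | h
      · exact (ih (Order.lt_add_one_iff.1 h)).trans (hstep γ)
      · rw [h]
    | limit l hl' _ =>
      intro h
      rcases h.lt_or_eq with h | h
      · rw [hl l hl']; exact le_iSup₂_of_le β h le_rfl
      · rw [h]
  have hex : ∃ α, S α = Γ := by
    by_contra hne
    push Not at hne
    refine not_injective_of_ordinal S (StrictMono.injective fun β γ h => ?_)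
    refine lt_of_lt_of_le ?_ (hmono (Order.add_one_le_iff.2 h))
    obtain ⟨g, hg, hgS, hgN⟩ := hG.exists_normalizer hΓ (hle β)
      fun h' => hne β (le_antisymm (hle β) h')
    exact lt_of_le_of_ne (hstep β) fun he => hgS (he ▸ hs β ▸ ⟨hg, hgN⟩)
  obtain ⟨α, hα⟩ := hex
  refine ⟨α, S, h0, hα, fun β => ⟨hstep β, hs β ▸ inf_le_right⟩, fun l hl' => ?_⟩
  ext x
  rw [hl l hl', SetLike.mem_coe, mem_biSup_of_directedOn (p := fun β => β < l) (K := S) (i := 0) hl'.bot_lt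
    (fun a ha b hb => ⟨max a b, (max_lt (show a < l from ha) (show b < l from hb) : max a b < l),
      hmono (le_max_left _ _), hmono (le_max_right _ _)⟩)]
  simp

lemma engel_of_chain {x : G} {α : Ordinal.{0}} {S : Ordinal.{0} → Subgroup G} (h0 : S 0 = zpowers x)
    (hs : ∀ β < α, S β ≤ S (β + 1) ∧ Nm (S (β + 1)) (S β))
    (hl : ∀ l ≤ α, Order.IsSuccLimit l → (S l : Set G) = ⋃ β < l, (S β : Set G)) :
    ∀ β ≤ α, x ∈ S β ∧ ∀ g ∈ S β, ∃ n, (eng x)^[n] g = 1 := by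
  intro β
  induction β using Ordinal.limitRecOn with
  | zero =>
    intro _
    rw [h0]
    refine ⟨mem_zpowers x, ?_⟩
    rintro _ ⟨k, rfl⟩
    exact ⟨1, by simp only [Function.iterate_one, eng]; group⟩
  | add_one β ih =>
    intro h
    have hβ : β < α := Order.add_one_le_iff.1 h
    obtain ⟨h1, h2⟩ := ih hβ.le
    refine ⟨(hs β hβ).1 h1, fun g hg => ?_⟩
    obtain ⟨n, hn⟩ := h2 (eng x g) (by
      have : eng x g = g⁻¹ * x⁻¹ * g * x := by simp only [eng]; group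
      rw [this]
      exact mul_mem ((hs β hβ).2.conj' hg (inv_mem h1)) h1)
    exact ⟨n + 1, hn⟩
  | limit l hl' ih =>
    intro h
    have hm : ∀ g, g ∈ S l ↔ ∃ β < l, g ∈ S β := fun g => by
      rw [← SetLike.mem_coe, hl l h hl']; simp
    refine ⟨(hm x).2 ⟨0, hl'.bot_lt, (ih 0 hl'.bot_lt bot_le).1⟩, fun g hg => ?_⟩
    obtain ⟨β, hβ, hg⟩ := (hm g).1 hg
    exact (ih β hβ (hβ.le.trans h)).2 g hg

end Pool.Agent.H65.Mc
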