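import Mathlib

set_option autoImplicit false

namespace Pool.Agent.H65.MonoDefs
open MvPolynomial

/-- Exponent vectors of the minimal monomial generators of a monomial ideal `I`: the monomials
of `I` that are minimal for divisibility. -/
def minGens {σ K : Type*} [Field K] (I : Ideal (MvPolynomial σ K)) : Set (σ →₀ ℕ) :=
  {a | Minimal (fun b => monomial b (1 : K) ∈ I) a}

/-- `I` has linear quotients: its minimal monomial generators can be listed `m 0, …, m (r-1)` so
that for each `i ≥ 1` the colon ideal `(m 0, …, m (i-1)) : m i` is generated by variables. -/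
def HasLinearQuotients {σ K : Type*} [Field K] (I : Ideal (MvPolynomial σ K)) : Prop :=
  ∃ (r : ℕ) (m : Fin r → σ →₀ ℕ), Function.Injective m ∧ Set.range m = minGens I ∧
    ∀ i : Fin r, 0 < i.val → ∃ V : Set σ,
      (Ideal.span ((fun j => monomial (m j) (1 : K)) '' {j | j < i})).colon
        {monomial (m i) (1 : K)} = Ideal.span (X '' V)

/-- The `t`-connected ideal of a graph. -/
noncomputable def connIdeal {σ : Type*} (K : Type*) [Field K] (G : SimpleGraph σ) (t : ℕ) :
    Ideal (MvPolynomial σ K) :=
  Ideal.span {f | ∃ S : Finset σ, S.card = t ∧ (G.induce (S : Set σ)).Connected ∧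
    f = ∏ v ∈ S, X v}

end Pool.Agent.H65.MonoDefs
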