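import Mathlib

set_option autoImplicit false

namespace Pool.Agent.H65.OrbitDefs
open scoped ENNReal

/-- The cyclic words (conjugacy classes) of length `N` contained in the orbit `Aut(F_k) w`. -/
def orbitWords {k : ℕ} (w : FreeGroup (Fin k)) (N : ℕ) : Set (ConjClasses (FreeGroup (Fin k))) :=
  {c | (∃ φ : MulAut (FreeGroup (Fin k)), c = ConjClasses.mk (φ w)) ∧
    ∃ L : List (Fin k × Bool), FreeGroup.IsCyclicallyReduced L ∧ L.length = N ∧
      c = ConjClasses.mk (FreeGroup.mk L)}

/-- The exponential growth rate `limsup |S_N|^(1/N)` of the cyclic words in the orbit of `w`. -/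
noncomputable def growth {k : ℕ} (w : FreeGroup (Fin k)) : ℝ≥0∞ :=
  Filter.limsup (fun N : ℕ => ((orbitWords w N).ncard : ℝ≥0∞) ^ ((N : ℝ)⁻¹)) Filter.atTop

/-- The number of occurrences of `x` and `x⁻¹` in the reduced word of `g`. -/
def occ {k : ℕ} (x : Fin k) (g : FreeGroup (Fin k)) : ℕ :=
  g.toWord.countP (fun l => l.1 = x)

/-- The least positive number of occurrences of `x^{±1}` in the reduced word of an element of
the orbit of `w`. -/
noncomputable def mu {k : ℕ} (w : FreeGroup (Fin k)) (x : Fin k) : ℕ :=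
  sInf {m | 0 < m ∧ ∃ φ : MulAut (FreeGroup (Fin k)), occ x (φ w) = m}

/-- The same minimum, taken over the cyclically reduced elements of the orbit only. -/
noncomputable def muCyc {k : ℕ} (w : FreeGroup (Fin k)) (x : Fin k) : ℕ :=
  sInf {m | 0 < m ∧ ∃ φ : MulAut (FreeGroup (Fin k)),
    FreeGroup.IsCyclicallyReduced (φ w).toWord ∧ occ x (φ w) = m}

end Pool.Agent.H65.OrbitDefs
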