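import Pool.Agent.H65.OrbitMu

set_option autoImplicit false

namespace Pool.Agent.H65.OrbitGrowth
open FreeGroup hiding map_mul map_one map_inv IsReduced
open Pool.Agent.H65.Words Pool.Agent.H65.Cyclic Pool.Agent.H65.OrbitDefs Pool.Agent.H65.OrbitMu
open scoped ENNReal

variable {n : ℕ}

def up (L : List (Fin n × Bool)) : List (Fin (n+1) × Bool) := L.map (Prod.map Fin.succ id)

lemma up_red {L : List (Fin n × Bool)} (h : FreeGroup.IsReduced L) :
    FreeGroup.IsReduced (up L) := by
  unfold FreeGroup.IsReduced up at *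
  rw [List.isChain_map]
  refine h.imp ?_
  intro a b hab
  simpa using hab

lemma up_ne {L : List (Fin n × Bool)} : ∀ l ∈ up L, l.1 ≠ 0 := by
  intro l hl
  obtain ⟨a, _, rfl⟩ := List.mem_map.1 hl
  exact Fin.succ_ne_zero _

lemma up_inj : Function.Injective (up (n := n)) :=
  List.map_injective_iff.2 ((Fin.succ_injective n).prodMap Function.injective_id)

lemma up_invRev (L : List (Fin n × Bool)) : up (invRev L) = invRev (up L) := by
  simp [up, invRev, List.map_reverse, Function.comp_def]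

lemma up_append (L M : List (Fin n × Bool)) : up (L ++ M) = up L ++ up M := by simp [up]

def cf (g : FreeGroup (Fin (n+1))) : FreeGroup (Fin (n+1)) →* FreeGroup (Fin (n+1)) :=
  FreeGroup.lift fun y => if y = 0 then g * of 0 * g⁻¹ else of y

lemma cf_up (g : FreeGroup (Fin (n+1))) (L : List (Fin n × Bool)) : cf g (mk (up L)) = mk (up L) := by
  rw [cf, lift_fix _ of (up L)]
  · rw [lift_of_eq_id]; rfl
  · intro l hl; rw [if_neg (up_ne l hl)]

def phi (L : List (Fin n × Bool)) : MulAut (FreeGroup (Fin (n+1))) :=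
  MonoidHom.toMulEquiv (cf (mk (up L))) (cf (mk (up L))⁻¹)
    (by
      ext y
      by_cases h : y = 0
      · subst h
        have : cf (mk (up L)) (of 0) = mk (up L) * of 0 * (mk (up L))⁻¹ := by simp [cf]
        simp only [MonoidHom.comp_apply, this, map_mul, map_inv, cf_up]
        simp only [cf, lift_apply_of, if_true, MonoidHom.id_apply]; group
      · simp [cf, h])
    (by
      ext y
      by_cases h : y = 0
      · subst h
        have : cf (mk (up L))⁻¹ (of 0) = (mk (up L))⁻¹ * of 0 * (mk (up L))⁻¹⁻¹ := by simp [cf]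
        simp only [MonoidHom.comp_apply, this, map_mul, map_inv, cf_up]
        simp only [cf, lift_apply_of, if_true, MonoidHom.id_apply]; group
      · simp [cf, h])

lemma cubes_succ : cubes (n+1) = of 0 * of 0 * of 0 * mk (up (cubeList (List.finRange n))) := by
  rw [cubes, ← mk_cubeList, List.finRange_succ]
  have : up (cubeList (List.finRange n)) = cubeList ((List.finRange n).map Fin.succ) := by
    simp [up, cubeList, List.map_flatMap, List.flatMap_map]
  rw [this]; rfl

def U (G : List (Fin n × Bool)) : List (Fin (n+1) × Bool) :=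
  up (invRev G ++ cubeList (List.finRange n) ++ G)

def Wd (G : List (Fin n × Bool)) : List (Fin (n+1) × Bool) :=
  (0, true) :: (0, true) :: (0, true) :: U G

lemma conj_Wd (G : List (Fin n × Bool)) :
    ConjClasses.mk (mk (Wd G)) = ConjClasses.mk (phi G (cubes (n+1))) := by
  rw [ConjClasses.mk_eq_mk_iff_isConj, isConj_iff]
  refine ⟨mk (up G), ?_⟩
  have e : phi G (cubes (n+1)) = cf (mk (up G)) (cubes (n+1)) := rfl
  have : cf (mk (up G)) (of 0) = mk (up G) * of 0 * (mk (up G))⁻¹ := by simp [cf]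
  rw [e, cubes_succ, map_mul, map_mul, map_mul, cf_up, this]
  have : mk (Wd G) = of 0 * of 0 * of 0 * mk (U G) := rfl
  rw [this, U, up_append, up_append, ← mul_mk, ← mul_mk, up_invRev, ← inv_mk]
  group

lemma length_cubeList (l : List (Fin n)) : (cubeList l).length = 3 * l.length := by
  induction l with
  | nil => rfl
  | cons a l ih =>
    have : cubeList (a :: l) = (a, true) :: (a, true) :: (a, true) :: cubeList l := rfl
    rw [this]; simp [ih]; ring

lemma length_Wd (G : List (Fin n × Bool)) : (Wd G).length = 2 * G.length + 3 * (n + 1) := by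
  simp [Wd, U, up, length_cubeList]; ring

lemma cyc_Wd (m : ℕ) (G : List (Fin (n+2) × Bool)) (hG : G ∈ T m ((1 : Fin (n+2)), true)) :
    IsCyclicallyReduced (Wd G) := by
  rw [mem_T] at hG
  obtain ⟨h1, _, h3⟩ := hG
  have hU : FreeGroup.IsReduced (U G) := by
    apply up_red
    rw [isReduced_append_iff, isReduced_append_iff]
    refine ⟨⟨isReduced_invRev h1, (red_of_pos _ (pos_cubeList _)).1, ?_⟩, h1, ?_⟩
    · intro x hx y hy
      rw [getLast?_invRev, h3] at hx
      rw [List.finRange_succ] at hy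
      simp [cubeList] at hx hy
      subst hx hy
      simp
    · intro x hx y hy
      rw [h3] at hy
      rw [List.getLast?_append_of_ne_nil _ (by rw [List.finRange_succ]; simp [cubeList])] at hx
      have := pos_cubeList _ x (List.mem_of_getLast? hx)
      simp at hy
      subst hy
      simp [linv, this, Prod.ext_iff]
  have hne : ∀ l ∈ U G, l.1 ≠ 0 := up_ne
  rw [cyc_iff]
  constructor
  · unfold Wd
    rw [isReduced_cons_iff, isReduced_cons_iff, isReduced_cons_iff]
    refine ⟨⟨⟨hU, ?_⟩, by simp [linv]⟩, by simp [linv]⟩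
    intro h
    exact hne _ (List.mem_of_head? h) rfl
  · intro x hx y hy
    have hx' := List.mem_of_getLast? hx
    simp [Wd] at hy hx'
    subst hy
    rcases hx' with rfl | hx'
    · simp [linv]
    · intro e
      apply hne _ hx'
      have := congrArg Prod.fst e
      exact this.symm

lemma rot_inj {β : Type*} (b : β) (X Y : List β) (hX : b ∉ X) (hne : X ≠ [])
    (h : (b :: b :: b :: X) ~r (b :: b :: b :: Y)) : X = Y := by
  obtain ⟨x, X', rfl⟩ := List.exists_cons_of_ne_nil hne
  have hx : x ≠ b := by rintro rfl; simp at hX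
  obtain ⟨A, B, h1, h2⟩ := rot_split h
  match A, h1, h2 with
  | [], h1, h2 =>
    simp at h1 h2
    rw [← h1] at h2
    simpa using h2.symm
  | [a], h1, h2 =>
    simp at h1
    rw [← h1.2] at h2
    simp at h2
    exact absurd h2.1.symm hx
  | [a, a'], h1, h2 =>
    simp at h1
    rw [← h1.2.2] at h2
    simp at h2
    exact absurd h2.1.symm hx
  | a :: a' :: a'' :: A, h1, h2 =>
    simp only [List.cons_append, List.cons.injEq] at h1
    obtain ⟨rfl, rfl, rfl, h1⟩ := h1
    cases B with
    | nil => simp at h1 h2; rw [h1, h2]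
    | cons y B =>
      simp at h2
      exfalso
      apply hX
      rw [h1, h2.1]; simp

lemma finite_orbit {k : ℕ} (w : FreeGroup (Fin k)) (N : ℕ) : (orbitWords w N).Finite := by
  refine ((List.finite_length_eq (Fin k × Bool) N).image
    (fun L => ConjClasses.mk (FreeGroup.mk L))).subset ?_
  rintro c ⟨_, L, _, h2, rfl⟩
  exact ⟨L, h2, rfl⟩

lemma count_ge (m : ℕ) :
    (2 * n + 3) ^ m ≤ (orbitWords (cubes (n+3)) (2 * (m + 1) + 3 * (n + 3))).ncard := by
  have hc : (T m ((1 : Fin (n+2)), true)).card = (2 * n + 3) ^ m := by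
    rw [card_T, Fintype.card_fin]; rfl
  rw [← hc, ← Set.ncard_coe_finset]
  refine Set.ncard_le_ncard_of_injOn (fun G => ConjClasses.mk (mk (Wd G))) ?_ ?_
    (finite_orbit _ _)
  · intro G hG
    refine ⟨⟨phi G, conj_Wd G⟩, Wd G, cyc_Wd m G hG, ?_, rfl⟩
    rw [length_Wd, ((mem_T _ _ _).1 hG).2.1]
  · intro G hG G' hG' h
    have h1 := rot_of_conj (cyc_Wd m G hG) (cyc_Wd m G' hG')
      (ConjClasses.mk_eq_mk_iff_isConj.1 h)
    have l1 := ((mem_T _ _ _).1 hG).2.1
    have l2 := ((mem_T _ _ _).1 hG').2.1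
    have h2 := rot_inj _ _ _ (fun hb => up_ne _ hb rfl) (by
      intro e
      have := congrArg List.length e
      simp [U, up, l1] at this) h1
    exact (List.append_inj' (up_inj h2) (by rw [l1, l2])).2

theorem growth_ge : ((2 * n + 3 : ℕ) : ℝ≥0∞) ^ (1 / 2 : ℝ) ≤ growth (cubes (n+3)) := by
  set D : ℝ≥0∞ := ((2 * n + 3 : ℕ) : ℝ≥0∞) with hD
  have hD1 : 1 ≤ D := by rw [hD]; exact_mod_cast (by omega)
  have hD0 : D ≠ 0 := by intro h; rw [h] at hD1; simp at hD1
  have hDt : D ≠ ⊤ := ENNReal.natCast_ne_top _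
  have t1 : Filter.Tendsto (fun m : ℕ => (m : ℝ) / (2 * m + (2 + 3 * (n + 3)))) Filter.atTop
      (nhds (1 / 2)) := by
    have := tendsto_add_mul_div_add_mul_atTop_nhds (0 : ℝ) (2 + 3 * (n + 3)) 1
      (d := 2) two_ne_zero
    refine this.congr fun m => ?_
    simp [add_comm]
  have t2 : Filter.Tendsto (fun m : ℕ => D ^ ((m : ℝ) / (2 * m + (2 + 3 * (n + 3)))))
      Filter.atTop (nhds (D ^ (1 / 2 : ℝ))) := by
    clear_value D
    lift D to NNReal using hDt
    have hD0' : D ≠ 0 := by simpa using hD0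
    simp only [← ENNReal.coe_rpow_of_ne_zero hD0']
    rw [ENNReal.tendsto_coe]
    exact (tendsto_const_nhds (x := D)).nnrpow t1 (Or.inl hD0')
  apply le_of_forall_lt_imp_le_of_dense
  intro c hc
  apply Filter.le_limsup_of_frequently_le'
  rw [Filter.frequently_atTop]
  intro N
  obtain ⟨m, hm1, hm2⟩ := ((t2.eventually (lt_mem_nhds hc)).and
    (Filter.eventually_ge_atTop N)).exists
  refine ⟨2 * (m + 1) + 3 * (n + 3), by omega, hm1.le.trans ?_⟩
  rw [div_eq_mul_inv, ENNReal.rpow_mul]
  have e : ((2 * (m + 1) + 3 * (n + 3) : ℕ) : ℝ) = 2 * m + (2 + 3 * (n + 3)) := by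
    push_cast; ring
  rw [e]
  apply ENNReal.rpow_le_rpow _ (by positivity)
  rw [ENNReal.rpow_natCast, hD]
  exact_mod_cast count_ge m

theorem main (k : ℕ) (hk : 3 ≤ k) : ∃ w : FreeGroup (Fin k), w ≠ 1 ∧
    (∀ x : Fin k, mu w x = 3 ∧ muCyc w x = 3) ∧
    ((2 * k - 3 : ℕ) : ℝ≥0∞) ^ (1 / 2 : ℝ) ≤ growth w ∧
    ∀ x : Fin k, growth w ≠ ((2 * k - 3 : ℕ) : ℝ≥0∞) ^ (1 / (mu w x : ℝ)) := by
  obtain ⟨n, rfl⟩ : ∃ n, k = n + 3 := ⟨k - 3, by omega⟩
  have e : 2 * (n + 3) - 3 = 2 * n + 3 := by omega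
  rw [e]
  refine ⟨cubes (n+3), ?_, mu_cubes, growth_ge, ?_⟩
  · intro h
    have := occ_cubes (0 : Fin (n+3))
    rw [h] at this
    simp [occ] at this
  · intro x
    rw [(mu_cubes x).1]
    refine (lt_of_lt_of_le ?_ growth_ge).ne'
    apply ENNReal.rpow_lt_rpow_of_exponent_lt
    · exact_mod_cast (by omega)
    · exact ENNReal.natCast_ne_top _
    · norm_num

end Pool.Agent.H65.OrbitGrowth
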