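import Pool.Agent.H65.Cyclic
import Pool.Agent.H65.OrbitDefs

set_option autoImplicit false

namespace Pool.Agent.H65.OrbitMu
open FreeGroup hiding map_mul map_one map_inv IsReduced
open Pool.Agent.H65.Words Pool.Agent.H65.Cyclic Pool.Agent.H65.OrbitDefs

@[ext] structure Wr where
  v : ZMod 3 → ZMod 3
  s : ZMod 3

instance : Mul Wr := ⟨fun a b => ⟨fun i => a.v i + b.v (i - a.s), a.s + b.s⟩⟩
instance : One Wr := ⟨⟨0, 0⟩⟩
instance : Inv Wr := ⟨fun a => ⟨fun i => - a.v (i + a.s), - a.s⟩⟩
@[simp] lemma mul_v (a b : Wr) (i : ZMod 3) : (a * b).v i = a.v i + b.v (i - a.s) := rfl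
@[simp] lemma mul_s (a b : Wr) : (a * b).s = a.s + b.s := rfl
@[simp] lemma one_v (i : ZMod 3) : (1 : Wr).v i = 0 := rfl
@[simp] lemma one_s : (1 : Wr).s = 0 := rfl
@[simp] lemma inv_v (a : Wr) (i : ZMod 3) : (a⁻¹).v i = - a.v (i + a.s) := rfl
@[simp] lemma inv_s (a : Wr) : (a⁻¹).s = - a.s := rfl

instance : Group Wr := Group.ofLeftAxioms
  (fun a b c => by ext <;> simp [add_assoc, sub_sub])
  (fun a => by ext <;> simp)
  (fun a => by ext <;> simp)

def aug (a : Wr) : ZMod 3 := a.v 0 + a.v 1 + a.v 2

lemma z3 (s : ZMod 3) : s = 0 ∨ s = 1 ∨ s = 2 := by revert s; decide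

lemma sum_shift (v : ZMod 3 → ZMod 3) (s : ZMod 3) :
    v (0 - s) + v (1 - s) + v (2 - s) = v 0 + v 1 + v 2 := by
  rcases z3 s with rfl | rfl | rfl
  · simp
  · rw [show (0 : ZMod 3) - 1 = 2 by decide, show (1 : ZMod 3) - 1 = 0 by decide,
      show (2 : ZMod 3) - 1 = 1 by decide]; ring
  · rw [show (0 : ZMod 3) - 2 = 1 by decide, show (1 : ZMod 3) - 2 = 2 by decide,
      show (2 : ZMod 3) - 2 = 0 by decide]; ring

def augHom : Wr →* Multiplicative (ZMod 3) := MonoidHom.mk' (fun a => Multiplicative.ofAdd (aug a))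
  (fun a b => by
    rw [← ofAdd_add]
    congr 1
    simp only [aug, mul_v]
    linear_combination sum_shift b.v a.s)

def sHom : Wr →* Multiplicative (ZMod 3) := MonoidHom.mk' (fun a => Multiplicative.ofAdd a.s)
  (fun a b => rfl)

lemma cube (a : Wr) : a * a * a = ⟨fun _ => a.s ^ 2 * aug a, 0⟩ := by
  obtain ⟨v, s⟩ := a
  have h3 : ∀ y : ZMod 3, y + y + y = 0 := by decide
  ext i
  · simp only [mul_v, mul_s, aug]
    rcases z3 s with rfl | rfl | rfl
    · simp [h3]
    · rw [← sum_shift v (-i)]
      rw [show i - (1 + 1) = 1 - -i by rw [sub_neg_eq_add]; revert i; decide,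
        show i - 1 = 2 - -i by rw [sub_neg_eq_add]; revert i; decide]
      simp; ring
    · rw [← sum_shift v (-i)]
      rw [show i - (2 + 2) = 2 - -i by rw [sub_neg_eq_add]; revert i; decide,
        show i - 2 = 1 - -i by rw [sub_neg_eq_add]; revert i; decide,
        show (2 : ZMod 3) ^ 2 = 1 by decide]
      simp
  · simp [h3]

lemma prod_cubes {ι : Type*} (l : List ι) (f : ι → Wr) :
    (l.map (fun i => f i * f i * f i)).prod =
      ⟨fun _ => (l.map (fun i => (f i).s ^ 2 * aug (f i))).sum, 0⟩ := by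
  induction l with
  | nil => rfl
  | cons a l ih =>
    rw [List.map_cons, List.prod_cons, ih, cube]
    ext <;> simp

variable {k : ℕ}

def theta (x : Fin k) (c : Fin k → ZMod 3) : FreeGroup (Fin k) →* Wr :=
  FreeGroup.lift fun y => ⟨fun i => if i = 0 then c y else 0, if y = x then 1 else 0⟩

lemma theta_free (x : Fin k) (c : Fin k → ZMod 3) (L : List (Fin k × Bool))
    (h : L.countP (fun l => l.1 = x) = 0) :
    (theta x c (mk L)).s = 0 ∧ ∀ i, i ≠ 0 → (theta x c (mk L)).v i = 0 := by
  induction L with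
  | nil => simp [mk_nil]
  | cons l L ih =>
    obtain ⟨y, b⟩ := l
    rw [List.countP_cons] at h
    have h1 : y ≠ x := by
      intro e; simp [e] at h
    obtain ⟨i1, i2⟩ := ih (by omega)
    rw [mk_cons, map_mul]
    have : (theta x c (mk [(y, b)])).s = 0 ∧ ∀ i, i ≠ 0 → (theta x c (mk [(y, b)])).v i = 0 := by
      cases b <;> simp [theta, h1]
      all_goals intro i hi; simp [hi]
    refine ⟨by simp [i1, this.1], fun i hi => ?_⟩
    simp [this.1, this.2 i hi, i2 i hi]

lemma count_split {β : Type*} (p : β → Bool) (L : List β) (n : ℕ) (h : L.countP p = n + 1) :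
    ∃ A x B, L = A ++ x :: B ∧ p x = true ∧ A.countP p = 0 ∧ B.countP p = n := by
  induction L with
  | nil => simp at h
  | cons y L ih =>
    rw [List.countP_cons] at h
    by_cases hy : p y = true
    · exact ⟨[], y, L, rfl, hy, rfl, by simpa [hy] using h⟩
    · obtain ⟨A, x, B, rfl, h1, h2, h3⟩ := ih (by simpa [hy] using h)
      exact ⟨y :: A, x, B, rfl, h1, by simp [hy, h2], h3⟩

/-- the word -/
def cubes (k : ℕ) : FreeGroup (Fin k) :=
  ((List.finRange k).map (fun i => of i * of i * of i)).prod

lemma theta_cubes (φ : MulAut (FreeGroup (Fin k))) (x : Fin k) (c : Fin k → ZMod 3) :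
    theta x c (φ (cubes k)) = ⟨fun _ => ∑ i, (theta x c (φ (of i))).s ^ 2 *
      aug (theta x c (φ (of i))), 0⟩ := by
  rw [cubes, map_list_prod, map_list_prod, List.map_map, List.map_map]
  have := prod_cubes (List.finRange k) (fun i => theta x c (φ (of i)))
  rw [Fin.sum_univ_def, ← this]
  congr 1
  apply List.map_congr_left
  intro i _
  simp

lemma occ_ne_one (φ : MulAut (FreeGroup (Fin k))) (x : Fin k) : occ x (φ (cubes k)) ≠ 1 := by
  intro h
  obtain ⟨A, y, B, e, h1, h2, h3⟩ := count_split _ _ 0 h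
  have k1 := congrArg Wr.s (theta_cubes φ x 0)
  rw [← mk_toWord (x := φ (cubes k)), e, ← mul_mk, mk_cons, map_mul, map_mul] at k1
  simp only [mul_s, (theta_free x 0 A h2).1, (theta_free x 0 B h3).1] at k1
  obtain ⟨y, b⟩ := y
  have : y = x := by simpa using h1
  subst this
  cases b <;> simp [theta] at k1

lemma occ_ne_two (φ : MulAut (FreeGroup (Fin k))) (x : Fin k) : occ x (φ (cubes k)) ≠ 2 := by
  intro h
  obtain ⟨A, y, B, e, h1, h2, h3⟩ := count_split _ _ 1 h
  obtain ⟨C, z, D, e', h4, h5, h6⟩ := count_split _ _ 0 h3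
  obtain ⟨y, b⟩ := y
  obtain ⟨z, b'⟩ := z
  have hy : y = x := by simpa using h1
  have hz : z = x := by simpa using h4
  subst hz
  subst hy
  have key : ∀ c : Fin k → ZMod 3, ∑ i, (theta y c (φ (of i))).s ^ 2 *
      aug (theta y c (φ (of i))) = 0 := by
    intro c
    have k0 := theta_cubes φ y c
    rw [← mk_toWord (x := φ (cubes k)), e, e', ← mul_mk, mk_cons, ← mul_mk, mk_cons (y, b'),
      map_mul, map_mul, map_mul, map_mul] at k0
    obtain ⟨a1, a2⟩ := theta_free y c A h2
    obtain ⟨c1, c2⟩ := theta_free y c C h5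
    obtain ⟨d1, d2⟩ := theta_free y c D h6
    generalize theta y c (mk A) = ta at *
    generalize theta y c (mk C) = tc at *
    generalize theta y c (mk D) = td at *
    have k1 := congrArg Wr.s k0
    have t1 : theta y c (mk [(y, true)]) = ⟨fun i => if i = 0 then c y else 0, 1⟩ := by
      simp [theta]
    have t2 : theta y c (mk [(y, false)]) = (⟨fun i => if i = 0 then c y else 0, 1⟩ : Wr)⁻¹ := by
      simp [theta]
    cases b <;> cases b'
    · simp [t2, a1, c1, d1] at k1; exact absurd k1 (by decide)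
    · have k2 := congrFun (congrArg Wr.v k0) 1
      simp only [t1, t2, mul_v, inv_v, inv_s, a1, c1] at k2
      rw [← k2, a2 _ (by decide), c2 _ (by decide), d2 _ (by decide), if_neg (by decide),
        if_neg (by decide)]
      simp
    · have k2 := congrFun (congrArg Wr.v k0) 2
      simp only [t1, t2, mul_v, inv_v, inv_s, a1, c1] at k2
      rw [← k2, a2 _ (by decide), c2 _ (by decide), d2 _ (by decide), if_neg (by decide),
        if_neg (by decide)]
      simp
    · simp [t1, a1, c1, d1] at k1; exact absurd k1 (by decide)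
  have hs : ∀ c c' : Fin k → ZMod 3, sHom.comp (theta y c) = sHom.comp (theta y c') := by
    intro c c'
    ext i
    simp [theta, sHom]
  have zero : ∀ j, (theta y 0 (φ (of j))).s = 0 := by
    intro j
    let ρ : FreeGroup (Fin k) →* Multiplicative (ZMod 3) :=
      (FreeGroup.lift fun i => Multiplicative.ofAdd (if i = j then (1 : ZMod 3) else 0)).comp
        φ.symm.toMonoidHom
    let c : Fin k → ZMod 3 := fun i => Multiplicative.toAdd (ρ (of i))
    have hρ : augHom.comp (theta y c) = ρ := by
      ext i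
      simp [theta, augHom, aug, c, show (1 : ZMod 3) ≠ 0 by decide, show (2 : ZMod 3) ≠ 0 by decide]
    have h7 : ∀ i, aug (theta y c (φ (of i))) = if i = j then 1 else 0 := by
      intro i
      have := DFunLike.congr_fun hρ (φ (of i))
      simp only [ρ, MonoidHom.comp_apply, MulEquiv.coe_toMonoidHom, MulEquiv.symm_apply_apply,
        lift_apply_of] at this
      exact Multiplicative.ofAdd.injective this
    have h8 := key c
    simp only [h7, mul_ite, mul_one, mul_zero, Finset.sum_ite_eq', Finset.mem_univ, if_true] at h8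
    have h9 : (theta y c (φ (of j))).s = 0 := by
      have : ∀ t : ZMod 3, t ^ 2 = 0 → t = 0 := by decide
      exact this _ h8
    have := DFunLike.congr_fun (hs 0 c) (φ (of j))
    simp only [MonoidHom.comp_apply, sHom, MonoidHom.mk'_apply] at this
    rw [← h9]
    exact Multiplicative.ofAdd.injective this
  have : (sHom.comp (theta y 0)).comp φ.toMonoidHom = 1 := by
    ext j
    simp [sHom, zero j]
  have := DFunLike.congr_fun this (φ.symm (of y))
  simp [sHom, theta] at this

def cubeList (l : List (Fin k)) : List (Fin k × Bool) :=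
  l.flatMap fun i => [(i, true), (i, true), (i, true)]

lemma mk_cubeList (l : List (Fin k)) :
    mk (cubeList l) = (l.map (fun i => of i * of i * of i)).prod := by
  induction l with
  | nil => rfl
  | cons a l ih => rw [List.map_cons, List.prod_cons, ← ih]; rfl

lemma pos_cubeList (l : List (Fin k)) : ∀ x ∈ cubeList l, x.2 = true := by
  intro x hx
  simp [cubeList] at hx
  obtain ⟨a, _, rfl⟩ := hx
  rfl

lemma red_of_pos {α : Type*} (L : List (α × Bool)) (h : ∀ x ∈ L, x.2 = true) :
    IsCyclicallyReduced L := by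
  constructor
  · unfold FreeGroup.IsReduced
    apply List.Pairwise.isChain
    apply List.pairwise_of_forall_mem_list
    intro a ha b hb _
    rw [h a ha, h b hb]
  · intro a ha b hb _
    rw [h a (List.mem_of_getLast? ha), h b (List.mem_of_head? hb)]

lemma toWord_cubes : (cubes k).toWord = cubeList (List.finRange k) := by
  rw [cubes, ← mk_cubeList, toWord_mk_red (red_of_pos _ (pos_cubeList _)).1]

lemma count_cubeList (l : List (Fin k)) (x : Fin k) :
    (cubeList l).countP (fun l => l.1 = x) = 3 * l.count x := by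
  induction l with
  | nil => rfl
  | cons a l ih =>
    have : cubeList (a :: l) = (a, true) :: (a, true) :: (a, true) :: cubeList l := rfl
    rw [this]
    simp only [List.countP_cons, ih, List.count_cons]
    by_cases h : a = x <;> simp [h]; ring

lemma occ_cubes (x : Fin k) : occ x (cubes k) = 3 := by
  rw [occ, toWord_cubes, count_cubeList, List.count_eq_one_of_mem (List.nodup_finRange k)
    (List.mem_finRange x)]

lemma sInf_eq_three (S : Set ℕ) (h3 : 3 ∈ S) (h : ∀ m ∈ S, 3 ≤ m) : sInf S = 3 :=
  le_antisymm (Nat.sInf_le h3) (h _ (Nat.sInf_mem ⟨3, h3⟩))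

theorem mu_cubes (x : Fin k) : mu (cubes k) x = 3 ∧ muCyc (cubes k) x = 3 := by
  constructor
  · apply sInf_eq_three
    · exact ⟨by norm_num, 1, occ_cubes x⟩
    · rintro m ⟨h0, φ, h⟩
      have := occ_ne_one φ x
      have := occ_ne_two φ x
      omega
  · apply sInf_eq_three
    · refine ⟨by norm_num, 1, ?_, occ_cubes x⟩
      change IsCyclicallyReduced (cubes k).toWord
      rw [toWord_cubes]
      exact red_of_pos _ (pos_cubeList _)
    · rintro m ⟨h0, φ, _, h⟩
      have := occ_ne_one φ x
      have := occ_ne_two φ x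
      omega

end Pool.Agent.H65.OrbitMu
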