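import Mathlib

/-! A relation forced in groups acting on an interval with piecewise linear behaviour. -/

namespace Pool.Agent.H65.PL

open scoped commutatorElement

variable {G L : Type} [Group G] [CompleteLinearOrder L] [MulAction G L]
  (mono : ∀ (g : G) (x y : L), x < y → g • x < g • y)

include mono

theorem mle (g : G) {x y : L} (h : x ≤ y) : g • x ≤ g • y :=
  h.eq_or_lt.elim (fun e => e ▸ le_rfl) fun h => (mono g x y h).le

theorem fix_sup {g : G} {S : Set L} (h : ∀ u ∈ S, g • u = u) : g • sSup S = sSup S := by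
  refine le_antisymm ?_ (sSup_le fun u hu => h u hu ▸ mle mono g (le_sSup hu))
  have : sSup S ≤ g⁻¹ • sSup S := sSup_le fun u hu => by
    simpa only [inv_smul_eq_iff.2 (h u hu).symm] using mle mono g⁻¹ (le_sSup hu)
  simpa using mle mono g this

theorem fix_inf {g : G} {S : Set L} (h : ∀ u ∈ S, g • u = u) : g • sInf S = sInf S := by
  refine le_antisymm (le_sInf fun u hu => h u hu ▸ mle mono g (sInf_le hu)) ?_
  have : g⁻¹ • sInf S ≤ sInf S := le_sInf fun u hu => by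
    simpa only [inv_smul_eq_iff.2 (h u hu).symm] using mle mono g⁻¹ (sInf_le hu)
  simpa using mle mono g this

variable (P1 : ∀ (g : G) (z : L), z < ⊤ → ∃ y, z < y ∧ ∀ t t' u, z < t → t < t' → t' < y →
  g • t = t → g • t' = t' → z < u → u < y → g • u = u)

include P1

theorem lemA {g h : G} (c : Commute g h) {z : L} (h1 : g • z = z) (h2 : h • z < z) {t : L}
    (h3 : h • z ≤ t) (h4 : t ≤ h⁻¹ • z) : g • t = t := by
  have a1 : ∀ n : ℕ, h ^ (n + 1) • z < h ^ n • z := fun n => by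
    rw [pow_succ, mul_smul]; exact mono _ _ _ h2
  have a2 : ∀ n : ℕ, ⨅ n : ℕ, h ^ n • z < h ^ n • z := fun n => (iInf_le _ (n + 1)).trans_lt (a1 n)
  have a3 : ∀ (n : ℕ) (t : L), g • h ^ n • t = h ^ n • g • t := fun n t => by
    rw [← mul_smul, (c.pow_right n).eq, mul_smul]
  obtain ⟨y, hy, H⟩ := P1 g _ ((a2 0).trans_le le_top)
  obtain ⟨n, hn⟩ := iInf_lt_iff.1 hy
  have := H _ _ (h ^ (n + 1) • t) (a2 (n + 1)) (a1 n) hn (by rw [a3, h1]) (by rw [a3, h1])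
    ((a2 (n + 2)).trans_le (by rw [pow_succ _ (n + 1), mul_smul]; exact mle mono _ h3))
    (lt_of_le_of_lt (by simpa [pow_succ, mul_smul] using mle mono (h ^ (n + 1)) h4) hn)
  rwa [a3, smul_left_cancel_iff] at this

theorem lemA' {g h : G} (c : Commute g h) {z : L} (h1 : g • z = z) (h2 : h • z ≠ z) :
    ∃ u v, u < z ∧ z < v ∧ ∀ t, u ≤ t → t ≤ v → g • t = t := by
  rcases h2.lt_or_gt with h2 | h2
  · exact ⟨_, _, h2, by simpa using mono h⁻¹ _ _ h2, fun t => lemA mono P1 c h1 h2⟩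
  · have h3 : h⁻¹ • z < z := by simpa using mono h⁻¹ _ _ h2
    exact ⟨_, _, h3, by simpa using h2, fun t => lemA mono P1 c.inv_right h1 h3⟩

theorem lo {g : G} {t : L} (ht : g • t ≠ t) : ∃ z < t, (∀ u ≤ t, g • u = u → u ≤ z) ∧
    ∀ h, Commute g h → h • z = z := by
  have h1 := fix_sup mono (g := g) (S := {u | u ≤ t ∧ g • u = u}) fun u hu => hu.2
  have h2 : sSup {u | u ≤ t ∧ g • u = u} < t :=
    (sSup_le fun u hu => hu.1).lt_of_ne fun e => ht (e ▸ h1)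
  refine ⟨_, h2, fun u hu hu' => le_sSup ⟨hu, hu'⟩, fun h c => by_contra fun hn => ?_⟩
  obtain ⟨u, v, h3, h4, h5⟩ := lemA' mono P1 c h1 hn
  exact (lt_min h2 h4).not_ge
    (le_sSup ⟨min_le_left _ _, h5 _ (h3.trans (lt_min h2 h4)).le (min_le_right _ _)⟩)

theorem hi {g : G} {t : L} (ht : g • t ≠ t) : ∃ z, t < z ∧ (∀ u, t ≤ u → g • u = u → z ≤ u) ∧
    ∀ h, Commute g h → h • z = z := by
  have h1 := fix_inf mono (g := g) (S := {u | t ≤ u ∧ g • u = u}) fun u hu => hu.2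
  have h2 : t < sInf {u | t ≤ u ∧ g • u = u} :=
    (le_sInf fun u hu => hu.1).lt_of_ne fun e => ht (e ▸ h1)
  refine ⟨_, h2, fun u hu hu' => sInf_le ⟨hu, hu'⟩, fun h c => by_contra fun hn => ?_⟩
  obtain ⟨u, v, h3, h4, h5⟩ := lemA' mono P1 c h1 hn
  exact (max_lt h2 h3).not_ge
    (sInf_le ⟨le_max_left _ _, h5 _ (le_max_right _ _) ((max_lt h2 h3).trans h4).le⟩)

theorem lemB {c : G} {p q : L} (H : ∀ z, p < z → z < q → ∃ h, Commute c h ∧ h • z ≠ z) {z t : L}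
    (h1 : p < z) (h2 : z < q) (h3 : c • z = z) (h4 : p < t) (h5 : t < q) : c • t = t := by
  by_contra hn
  rcases le_total z t with h | h
  · obtain ⟨y, h6, h7, h8⟩ := lo mono P1 hn
    obtain ⟨k, h9, h10⟩ := H y (h1.trans_le (h7 z h h3)) (h6.trans h5)
    exact h10 (h8 k h9)
  · obtain ⟨y, h6, h7, h8⟩ := hi mono P1 hn
    obtain ⟨k, h9, h10⟩ := H y (h4.trans h6) ((h7 z h h3).trans_lt h2)
    exact h10 (h8 k h9)

theorem sep {f f' s : G} (c : Commute f s) {p q : L} (hp : f • p = p) (hq : f • q = q)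
    (H : ∀ z, p < z → z < q → (s * f' * s⁻¹) • z = z) {a b d : L} (ha : p < a) (hb : b < q)
    (h1 : a ≤ d) (h2 : d ≤ b) (h3 : f • a ≠ a) (h4 : f • b ≠ b) : f' • d = d := by
  obtain ⟨x, x1, x2, x3⟩ := lo mono P1 h3
  obtain ⟨y, y1, y2, y3⟩ := hi mono P1 h4
  have := H (s • d) ((x2 p ha.le hp).trans_lt (x3 s c ▸ mono s _ _ (x1.trans_le h1)))
    (lt_of_lt_of_le (y3 s c ▸ mono s _ _ (h2.trans_lt y1)) (y2 q hb.le hq))
  simpa [mul_smul] using this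

omit P1 in
theorem disj {f k : G} {p q : L} (hp : f • p = p) (hq : f • q = q) (kp : k • p = p)
    (kq : k • q = q) (H : ∀ z, p < z → z < q → f • z = z ∨ k • z = z) {z : L} (h1 : p < z)
    (h2 : z < q) : ⁅k, f⁆ • z = z := by
  have key : ∀ z, p < z → z < q → k • f • z = f • k • z := fun z h1 h2 => by
    by_cases hf : f • z = z
    · by_cases hk : k • z = z
      · rw [hf, hk, hf]
      · rw [hf, (H _ (kp ▸ mono k _ _ h1) (kq ▸ mono k _ _ h2)).resolve_right (by simpa using hk)]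
    · rw [(H z h1 h2).resolve_left hf,
        (H _ (hp ▸ mono f _ _ h1) (hq ▸ mono f _ _ h2)).resolve_left (by simpa using hf)]
  have e1 : (k⁻¹ * f⁻¹) • p = p := by rw [mul_smul, inv_smul_eq_iff.2 hp.symm, inv_smul_eq_iff, kp]
  have e2 : (k⁻¹ * f⁻¹) • q = q := by rw [mul_smul, inv_smul_eq_iff.2 hq.symm, inv_smul_eq_iff, kq]
  have := key ((k⁻¹ * f⁻¹) • z) (e1 ▸ mono _ _ _ h1) (e2 ▸ mono _ _ _ h2)
  simpa [commutatorElement_def, mul_smul] using this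

theorem core [DenselyOrdered L] (P2 : ∀ (g h : G) (z : L), z < ⊤ → g • z = z → h • z = z →
      ∃ y, z < y ∧ ∀ t, z < t → t < y → ⁅g, h⁆ • t = t)
    {θ f₁ f₂ s s' : G} (c0 : Commute f₁ f₂) (c1 : Commute f₁ s) (c2 : Commute (s * f₂ * s⁻¹) θ)
    (c3 : Commute (s * f₂ * s⁻¹) f₂) (c4 : Commute f₂ s') (c5 : Commute (s' * f₁ * s'⁻¹) θ)
    (c6 : Commute (s' * f₁ * s'⁻¹) f₁) (x : L) :
    ⁅⁅θ * f₂ * θ⁻¹, f₁⁆, ⁅θ⁻¹ * f₂ * θ, f₁⁆⁆ • x = x := by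
  have mem : ∀ H : Subgroup G, θ ∈ H → f₁ ∈ H → f₂ ∈ H → θ * f₂ * θ⁻¹ ∈ H ∧ θ⁻¹ * f₂ * θ ∈ H ∧
      ⁅θ * f₂ * θ⁻¹, f₁⁆ ∈ H ∧ ⁅θ⁻¹ * f₂ * θ, f₁⁆ ∈ H ∧
      ⁅⁅θ * f₂ * θ⁻¹, f₁⁆, ⁅θ⁻¹ * f₂ * θ, f₁⁆⁆ ∈ H := fun H h1 h2 h3 => by
    simp only [commutatorElement_def]
    refine ⟨?_, ?_, ?_, ?_, ?_⟩ <;> apply_rules (maxDepth := 200) [mul_mem, inv_mem]
  let K : L → Prop := fun u => θ • u = u ∧ f₁ • u = u ∧ f₂ • u = u
  have mK : ∀ u, K u → _ := fun u h => mem (MulAction.stabilizer G u) h.1 h.2.1 h.2.2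
  by_cases hx : K x
  · exact (mK x hx).2.2.2.2
  obtain ⟨p, Kp, px, hp⟩ : ∃ p, K p ∧ p < x ∧ ∀ u ≤ x, K u → u ≤ p := by
    have : K (sSup {u | u ≤ x ∧ K u}) := ⟨fix_sup mono fun u hu => hu.2.1,
      fix_sup mono fun u hu => hu.2.2.1, fix_sup mono fun u hu => hu.2.2.2⟩
    exact ⟨_, this, (sSup_le fun u hu => hu.1).lt_of_ne fun e => hx (e ▸ this),
      fun u h1 h2 => le_sSup ⟨h1, h2⟩⟩
  obtain ⟨q, Kq, xq, hq⟩ : ∃ q, K q ∧ x < q ∧ ∀ u, x ≤ u → K u → q ≤ u := by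
    have : K (sInf {u | x ≤ u ∧ K u}) := ⟨fix_inf mono fun u hu => hu.2.1,
      fix_inf mono fun u hu => hu.2.2.1, fix_inf mono fun u hu => hu.2.2.2⟩
    exact ⟨_, this, (le_sInf fun u hu => hu.1).lt_of_ne fun e => hx (e ▸ this),
      fun u h1 h2 => sInf_le ⟨h1, h2⟩⟩
  have triv : ∀ g : G, Commute g θ → Commute g f₁ → Commute g f₂ →
      ⁅⁅θ * f₂ * θ⁻¹, f₁⁆, ⁅θ⁻¹ * f₂ * θ, f₁⁆⁆ • x = x ∨ ∀ z, p < z → z < q → g • z = z := by
    intro g g1 g2 g3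
    by_cases h : ∃ z, p < z ∧ z < q ∧ g • z = z
    · obtain ⟨z, z1, z2, z3⟩ := h
      refine .inr fun t => lemB mono P1 (fun y y1 y2 => by_contra fun hn => ?_) z1 z2 z3
      push Not at hn
      have Ky : K y := ⟨hn _ g1, hn _ g2, hn _ g3⟩
      exact (le_total y x).elim (fun h => (hp y h Ky).not_gt y1) fun h => (hq y h Ky).not_gt y2
    · obtain ⟨y, y1, y2⟩ := P2 _ _ p (px.trans_le le_top) (mK p Kp).2.2.1 (mK p Kp).2.2.2.1
      obtain ⟨t, t1, t2⟩ := exists_between (lt_min y1 (px.trans xq))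
      have := (mem (Subgroup.centralizer {g}) (by simpa [Subgroup.mem_centralizer_iff] using g1.eq)
        (by simpa [Subgroup.mem_centralizer_iff] using g2.eq)
        (by simpa [Subgroup.mem_centralizer_iff] using g3.eq)).2.2.2.2 g rfl
      exact .inl (lemB mono P1 (fun z z1 z2 => ⟨g, this.symm, fun e => h ⟨z, z1, z2, e⟩⟩) t1
        (t2.trans_le (min_le_right _ _)) (y2 t t1 (t2.trans_le (min_le_left _ _))) px xq)
  refine (triv _ c2 ((c1.mul_right c0).mul_right c1.inv_right).symm c3).elim id fun H2 => ?_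
  refine (triv _ c5 c6 ((c4.mul_right c0.symm).mul_right c4.inv_right).symm).elim id fun H1 => ?_
  have S1 := @sep _ _ _ _ _ mono P1 _ _ _ c1 _ _ Kp.2.1 Kq.2.1 H2
  have S2 := @sep _ _ _ _ _ mono P1 _ _ _ c4 _ _ Kp.2.2 Kq.2.2 H1
  have inv : ∀ (g : G) z, g • p = p → g • q = q → p < z → z < q → p < g • z ∧ g • z < q :=
    fun g z h1 h2 h3 h4 => ⟨h1 ▸ mono g _ _ h3, h2 ▸ mono g _ _ h4⟩
  have i1 : ∀ {g : G} {u : L}, g • u = u → g⁻¹ • u = u := fun h => inv_smul_eq_iff.2 h.symm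
  by_cases D1 : ∀ z, p < z → z < q → f₁ • z = z ∨ (θ * f₂ * θ⁻¹) • z = z
  · have D := fun z => disj mono Kp.2.1 Kq.2.1 (mK p Kp).1 (mK q Kq).1 D1 (z := z)
    obtain ⟨h1, h2⟩ := inv _ x (i1 (mK p Kp).2.2.2.1) (i1 (mK q Kq).2.2.2.1) px xq
    rw [commutatorElement_def ⁅θ * f₂ * θ⁻¹, f₁⁆, mul_smul, mul_smul, mul_smul, i1 (D _ h1 h2),
      smul_inv_smul, D _ px xq]
  by_cases D2 : ∀ z, p < z → z < q → f₁ • z = z ∨ (θ⁻¹ * f₂ * θ) • z = z
  · have D := fun z => disj mono Kp.2.1 Kq.2.1 (mK p Kp).2.1 (mK q Kq).2.1 D2 (z := z)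
    obtain ⟨h1, h2⟩ := inv _ x (i1 (mK p Kp).2.2.1) (i1 (mK q Kq).2.2.1) px xq
    rw [commutatorElement_def ⁅θ * f₂ * θ⁻¹, f₁⁆, mul_smul, mul_smul, mul_smul, i1 (D _ px xq),
      D _ h1 h2, smul_inv_smul]
  push Not at D1 D2
  obtain ⟨a, a1, a2, a3, a4⟩ := D1
  obtain ⟨b, b1, b2, b3, b4⟩ := D2
  obtain ⟨a5, a6⟩ := inv _ a (i1 Kp.1) (i1 Kq.1) a1 a2
  obtain ⟨b5, b6⟩ := inv _ b Kp.1 Kq.1 b1 b2
  have a7 : f₂ • θ⁻¹ • a ≠ θ⁻¹ • a := fun e => a4 (by simp [mul_smul, e])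
  have b7 : f₂ • θ • b ≠ θ • b := fun e => b4 (by simp [mul_smul, e])
  exfalso
  rcases le_total b (θ⁻¹ • a) with h | h
  · have h' : θ • b ≤ a := by simpa using mle mono θ h
    exact (le_total (θ⁻¹ • a) a).elim (fun k => a7 (S1 b1 a2 h k b3 a3))
      fun k => a3 (S2 b5 a6 h' k b7 a7)
  · have h' : a ≤ θ • b := by simpa using mle mono θ h
    exact (le_total b (θ • b)).elim (fun k => b3 (S2 a5 b6 h k a7 b7))
      fun k => b7 (S1 a1 b2 h' k a3 b3)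

end Pool.Agent.H65.PL
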