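import Mathlib

/-! Piecewise linear homeomorphisms of the unit interval. -/

namespace Pool.Agent.H65.PL

open unitInterval

/-- `g` belongs to `PL₊([0,1])`: it is increasing, and there is a finite set `B` of breakpoints such
that `g` is affine on every interval whose interior misses `B`. -/
def IsPL (g : I ≃ₜ I) : Prop :=
  StrictMono g ∧ ∃ B : Finset ℝ, ∀ a b : ℝ, (∀ c ∈ B, c ∉ Set.Ioo a b) →
    ∃ l m : ℝ, ∀ x : I, a ≤ x → x ≤ b → (g x : ℝ) = l * x + m

/-- `g` belongs to Thompson's group `F`: as above, with dyadic breakpoints and slopes powers of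
two. -/
def IsF (g : I ≃ₜ I) : Prop :=
  StrictMono g ∧ ∃ B : Finset ℝ, (∀ c ∈ B, ∃ (k : ℤ) (n : ℕ), c = k / 2 ^ n) ∧
    ∀ a b : ℝ, (∀ c ∈ B, c ∉ Set.Ioo a b) →
      ∃ (k : ℤ) (m : ℝ), ∀ x : I, a ≤ x → x ≤ b → (g x : ℝ) = 2 ^ k * x + m

end Pool.Agent.H65.PL
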