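import Pool.Agent.H65.Squier1

/-! The universal group of the Squier groupoid; diagram groups embed in it. -/

namespace Pool.Agent.H65.Squier

open CategoryTheory

variable {A : Type}

abbrev Tr (A : Type) : Type := List A × (List A × List A) × List A

def urels (R : Set (List A × List A)) : Set (FreeGroup (Tr A)) :=
  {x | ∃ a b c r s, r ∈ R ∧ s ∈ R ∧ x = FreeGroup.of (a ++ r.2 ++ b, s, c) *
    FreeGroup.of (a, r, b ++ s.1 ++ c) *
    (FreeGroup.of (a, r, b ++ s.2 ++ c) * FreeGroup.of (a ++ r.1 ++ b, s, c))⁻¹}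

abbrev U (R : Set (List A × List A)) : Type := PresentedGroup (urels R)

variable {R : Set (List A × List A)}

def e (R : Set (List A × List A)) (t : Tr A) : U R := PresentedGroup.of t

theorem sq (a b c : List A) {r s : List A × List A} (hr : r ∈ R) (hs : s ∈ R) :
    e R (a ++ r.2 ++ b, s, c) * e R (a, r, b ++ s.1 ++ c) =
      e R (a, r, b ++ s.2 ++ c) * e R (a ++ r.1 ++ b, s, c) :=
  mul_inv_eq_one.1 (PresentedGroup.one_of_mem (rels := urels R) ⟨a, b, c, r, s, hr, hs, rfl⟩)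

def ulift {G : Type} [Group G] (γ : Tr A → G) (h : ∀ a b c, ∀ r ∈ R, ∀ s ∈ R,
    γ (a ++ r.2 ++ b, s, c) * γ (a, r, b ++ s.1 ++ c) =
      γ (a, r, b ++ s.2 ++ c) * γ (a ++ r.1 ++ b, s, c)) : U R →* G :=
  PresentedGroup.toGroup (f := γ) (by
    rintro _ ⟨a, b, c, r, s, hr, hs, rfl⟩
    simp only [map_mul, map_inv, FreeGroup.lift_apply_of, h a b c r hr s hs, mul_inv_cancel])

@[simp] theorem ulift_e {G : Type} [Group G] (γ : Tr A → G) (h) (t : Tr A) :
    ulift (R := R) γ h (e R t) = γ t := PresentedGroup.toGroup.of _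

def Lw (u : List A) : U R →* U R := ulift (fun t => e R (u ++ t.1, t.2)) fun a b c r hr s hs => by
  simpa using sq (u ++ a) b c hr hs

def Rw (v : List A) : U R →* U R :=
  ulift (fun t => e R (t.1, t.2.1, t.2.2 ++ v)) fun a b c r hr s hs => by
    simpa using sq a b (c ++ v) hr hs

@[simp] theorem Lw_e (u : List A) (t : Tr A) : Lw u (e R t) = e R (u ++ t.1, t.2) := ulift_e _ _ _
@[simp] theorem Rw_e (v : List A) (t : Tr A) : Rw v (e R t) = e R (t.1, t.2.1, t.2.2 ++ v) :=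
  ulift_e _ _ _

theorem Lw_Lw (u v : List A) (g : U R) : Lw u (Lw v g) = Lw (u ++ v) g := by
  change ((Lw u).comp (Lw v)) g = _
  congr 1
  ext t
  exact ((congrArg (Lw u) (Lw_e v t)).trans (by simp)).trans (Lw_e _ t).symm

theorem Rw_Rw (u v : List A) (g : U R) : Rw u (Rw v g) = Rw (v ++ u) g := by
  change ((Rw u).comp (Rw v)) g = _
  congr 1
  ext t
  exact ((congrArg (Rw u) (Rw_e v t)).trans (by simp)).trans (Rw_e _ t).symm

theorem Lw_Rw (u v : List A) (g : U R) : Lw u (Rw v g) = Rw v (Lw u g) := by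
  change ((Lw u).comp (Rw v)) g = ((Rw v).comp (Lw u)) g
  congr 1
  ext t
  exact ((congrArg (Lw u) (Rw_e v t)).trans (by simp)).trans (congrArg (Rw v) (Lw_e u t)).symm

/-- `g` is represented by an edge path from `x` to `y` -/
inductive Pth (R : Set (List A × List A)) : List A → List A → U R → Prop
  | one (x : List A) : Pth R x x 1
  | pos {x : List A} {g : U R} (a : List A) (r : List A × List A) (b : List A) (hr : r ∈ R) :
      Pth R x (a ++ r.1 ++ b) g → Pth R x (a ++ r.2 ++ b) (e R (a, r, b) * g)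
  | neg {x : List A} {g : U R} (a : List A) (r : List A × List A) (b : List A) (hr : r ∈ R) :
      Pth R x (a ++ r.2 ++ b) g → Pth R x (a ++ r.1 ++ b) ((e R (a, r, b))⁻¹ * g)

theorem Pth.edge (a b : List A) {r : List A × List A} (hr : r ∈ R) :
    Pth R (a ++ r.1 ++ b) (a ++ r.2 ++ b) (e R (a, r, b)) := by
  simpa using Pth.pos a r b hr (.one _)

theorem Pth.mul {x y z : List A} {g h : U R} (h1 : Pth R y z h) (h2 : Pth R x y g) :
    Pth R x z (h * g) := by
  induction h1 with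
  | one => simpa using h2
  | pos a r b hr _ ih => rw [mul_assoc]; exact .pos a r b hr ih
  | neg a r b hr _ ih => rw [mul_assoc]; exact .neg a r b hr ih

theorem Pth.inv {x y : List A} {g : U R} (h : Pth R x y g) : Pth R y x g⁻¹ := by
  induction h with
  | one => simpa using Pth.one _
  | pos a r b hr _ ih => simpa using ih.mul (Pth.neg a r b hr (.one _))
  | neg a r b hr _ ih => simpa using ih.mul (Pth.edge a b hr)

theorem Pth.L {x y : List A} {g : U R} (h : Pth R x y g) (u : List A) :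
    Pth R (u ++ x) (u ++ y) (Lw u g) := by
  induction h with
  | one => simpa using Pth.one _
  | pos a r b hr _ ih => simpa using Pth.pos (u ++ a) r b hr (by simpa using ih)
  | neg a r b hr _ ih => simpa using Pth.neg (u ++ a) r b hr (by simpa using ih)

theorem Pth.R' {x y : List A} {g : U R} (h : Pth R x y g) (v : List A) :
    Pth R (x ++ v) (y ++ v) (Rw v g) := by
  induction h with
  | one => simpa using Pth.one _
  | pos a r b hr _ ih => simpa using Pth.pos a r (b ++ v) hr (by simpa using ih)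
  | neg a r b hr _ ih => simpa using Pth.neg a r (b ++ v) hr (by simpa using ih)

theorem inter1 (a b : List A) {r : List A × List A} (hr : r ∈ R) {y y' : List A} {h : U R}
    (h2 : Pth R y y' h) : e R (a, r, b ++ y') * Lw (a ++ r.1 ++ b) h =
      Lw (a ++ r.2 ++ b) h * e R (a, r, b ++ y) := by
  induction h2 with
  | one => simp
  | pos a' s b' hs _ ih =>
    have := sq a (b ++ a') b' hr hs
    simp only [map_mul, Lw_e, List.append_assoc] at this ih ⊢
    rw [← mul_assoc, ← this, mul_assoc, ih, mul_assoc]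
  | neg a' s b' hs _ ih =>
    have := sq a (b ++ a') b' hr hs
    simp only [map_mul, map_inv, Lw_e, List.append_assoc] at this ih ⊢
    rw [mul_assoc, ← ih, eq_inv_mul_iff_mul_eq, ← mul_assoc, ← mul_assoc, this]
    group

theorem inter {x x' y y' : List A} {g h : U R} (h1 : Pth R x x' g) (h2 : Pth R y y' h) :
    Rw y' g * Lw x h = Lw x' h * Rw y g := by
  induction h1 with
  | one => simp
  | pos a r b hr _ ih =>
    simp only [map_mul, Rw_e]
    rw [mul_assoc, ih, ← mul_assoc, inter1 a b hr h2, mul_assoc]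
  | neg a r b hr _ ih =>
    simp only [map_mul, map_inv, Rw_e]
    rw [mul_assoc, ih, inv_mul_eq_iff_eq_mul, ← mul_assoc, ← mul_assoc, inter1 a b hr h2]
    group

def uF (R : Set (List A × List A)) : Quiver.FreeGroupoid (Vtx R) ⥤ SingleObj (U R) :=
  Quiver.FreeGroupoid.lift { obj := fun _ => SingleObj.star _, map := fun f => e R f.1 }

theorem uF_map {x y : Vtx R} (f : x ⟶ y) : (uF R).map (FM f) = e R f.1 := by
  have h := Quiver.FreeGroupoid.lift_spec (V := Vtx R) (V' := SingleObj (U R))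
    { obj := fun _ => SingleObj.star _, map := fun f => e R f.1 }
  exact Prefunctor.congr_hom h f

def uQ (R : Set (List A × List A)) : CategoryTheory.Quotient (Square R) ⥤ SingleObj (U R) :=
  CategoryTheory.Quotient.lift _ (uF R) (by
    rintro _ _ _ _ ⟨e₁, e₂, e₃, e₄, a, b, c, r, s, h₁, h₂, h₃, h₄⟩
    rw [Functor.map_comp, Functor.map_comp, uF_map, uF_map, uF_map, uF_map, h₁, h₂, h₃, h₄]
    exact sq a b c (by simpa [h₁] using e₁.2.1) (by simpa [h₂] using e₂.2.1))

def iota (w : Vtx R) : DiagramGroup R w →* U R :=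
  MonoidHom.mk' (fun g => (uQ R).map g.hom) fun a b => by
    have : (a * b).hom = b.hom ≫ a.hom := rfl
    rw [this, Functor.map_comp]
    rfl

def uf {x y : Vtx R} (f : FO x ⟶ FO y) : U R := (uF R).map f

theorem uf_map {x y : Vtx R} (f : x ⟶ y) : uf (FM f) = e R f.1 := uF_map f

theorem uf_id (x : Vtx R) : uf (𝟙 (FO x)) = 1 := (uF R).map_id _

theorem uF_comp {x y z : Vtx R} (f : FO x ⟶ FO y) (g : FO y ⟶ FO z) :
    uf (f ≫ g) = uf g * uf f := (uF R).map_comp f g

theorem uF_inv {x y : Vtx R} (f : FO x ⟶ FO y) : uf (Groupoid.inv f) = (uf f)⁻¹ :=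
  eq_inv_of_mul_eq_one_left ((uF_comp _ _).symm.trans (by rw [Groupoid.comp_inv]; exact uf_id _))

theorem pth_of {x : Vtx R} (y : Vtx R) (f : FO x ⟶ FO y) : Pth R x.word y.word (uf f) := by
  refine mor_ind (fun y f => Pth R x.word y.word (uf f)) ?_ ?_ ?_ y f
  · rw [uf_id]
    exact .one _
  · rintro y z f ⟨⟨a, r, b⟩, h1, h2, h3⟩ ih
    rw [uF_comp, uf_map]
    dsimp only
    rw [h3]
    exact Pth.pos a r b h1 (h2 ▸ ih)
  · rintro y z f ⟨⟨a, r, b⟩, h1, h2, h3⟩ ih
    rw [uF_comp, uF_inv, uf_map]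
    dsimp only
    rw [h2]
    exact Pth.neg a r b h1 (h3 ▸ ih)

theorem iota_pth {w : Vtx R} (g : DiagramGroup R w) : Pth R w.word w.word (iota w g) := by
  obtain ⟨f, hf⟩ := (Quotient.functor (Square R)).map_surjective g.hom
  change Pth R _ _ ((uQ R).map g.hom)
  rw [← hf]
  exact pth_of w f

variable (hR : ∀ r ∈ R, r.1 ≠ [] ∧ r.2 ≠ [])

include hR in
theorem of_pth {x : Vtx R} {y : List A} {g : U R} (h : Pth R x.word y g) :
    ∃ (hy : y ≠ []) (f : FO x ⟶ FO ⟨y, hy⟩), uf f = g := by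
  induction h with
  | one => exact ⟨x.ne, 𝟙 _, uf_id _⟩
  | pos a r b hr _ ih =>
    obtain ⟨hy, f, rfl⟩ := ih
    exact ⟨by simp [(hR r hr).2], f ≫ FM ⟨(a, r, b), hr, rfl, rfl⟩, by rw [uF_comp, uf_map]⟩
  | neg a r b hr _ ih =>
    obtain ⟨hy, f, rfl⟩ := ih
    exact ⟨by simp [(hR r hr).1], f ≫ Groupoid.inv (FM ⟨(a, r, b), hr, rfl, rfl⟩),
      by rw [uF_comp, uF_inv, uf_map]⟩

include hR in
theorem exists_iota {w : Vtx R} {g : U R} (h : Pth R w.word w.word g) :
    ∃ d : DiagramGroup R w, iota w d = g := by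
  obtain ⟨_, f, hf⟩ := of_pth hR h
  exact ⟨(Quotient.functor (Square R)).mapIso ((Groupoid.isoEquivHom _ _).symm f), hf⟩

abbrev QO (x : Vtx R) : CategoryTheory.Quotient (Square R) := (Quotient.functor (Square R)).obj (FO x)

include hR in
theorem exists_retr (w : Vtx R) :
    ∃ (ρ : U R →* DiagramGroup R w) (c : DiagramGroup R w), ∀ g, ρ (iota w g) = c⁻¹ * g * c := by
  classical
  let C : Vtx R → Prop := fun x => Nonempty (QO w ≅ QO x)
  let τ : ∀ x, C x → (QO w ≅ QO x) := fun x h => h.some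
  let I : ∀ {x y : Vtx R}, (FO x ⟶ FO y) → (QO x ≅ QO y) := fun f =>
    (Quotient.functor (Square R)).mapIso ((Groupoid.isoEquivHom _ _).symm f)
  let k : ∀ {x y : Vtx R}, (FO x ⟶ FO y) → DiagramGroup R w := fun {x y} f =>
    if h : C x then τ x h ≪≫ I f ≪≫ (τ y ⟨h.some ≪≫ I f⟩).symm else 1
  have kc : ∀ {x y z : Vtx R} (f : FO x ⟶ FO y) (g : FO y ⟶ FO z), k (f ≫ g) = k g * k f := by
    intro x y z f g
    by_cases h : C x
    · have h' : C y := ⟨h.some ≪≫ I f⟩
      simp only [k, dif_pos h, dif_pos h']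
      refine Iso.ext ?_
      rw [Aut.Aut_mul_def]
      simp [I]
    · have h' : ¬ C y := fun h' => h ⟨h'.some ≪≫ (I f).symm⟩
      simp only [k, dif_neg h, dif_neg h', mul_one]
  have k1 : ∀ x : Vtx R, k (𝟙 (FO x)) = 1 := fun x => by simpa using kc (𝟙 (FO x)) (𝟙 _)
  let ed : ∀ t : Tr A, (h : t.2.1 ∈ R) → ((⟨t.1 ++ t.2.1.1 ++ t.2.2, by simp [(hR _ h).1]⟩ : Vtx R) ⟶
      ⟨t.1 ++ t.2.1.2 ++ t.2.2, by simp [(hR _ h).2]⟩) := fun t h => ⟨t, h, rfl, rfl⟩
  let γ : Tr A → DiagramGroup R w := fun t => if h : t.2.1 ∈ R then k (FM (ed t h)) else 1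
  have hγ : ∀ {x y : Vtx R} (f : x ⟶ y), γ f.1 = k (FM f) := by
    rintro ⟨x, hx⟩ ⟨y, hy⟩ ⟨t, h1, h2, h3⟩
    dsimp only at h2 h3
    subst h2 h3
    exact dif_pos h1
  have kq : ∀ {x y : Vtx R} (f g : FO x ⟶ FO y), (Quotient.functor (Square R)).map f =
      (Quotient.functor (Square R)).map g → k f = k g := fun f g h => by
    have : I f = I g := Iso.ext h
    simp only [k, this]
  let ρ : U R →* DiagramGroup R w := ulift γ fun a b c r hr s hs => by
    let x : Vtx R := ⟨a ++ r.1 ++ b ++ s.1 ++ c, by simp [(hR r hr).1]⟩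
    let y : Vtx R := ⟨a ++ r.2 ++ b ++ s.1 ++ c, by simp [(hR r hr).2]⟩
    let z : Vtx R := ⟨a ++ r.1 ++ b ++ s.2 ++ c, by simp [(hR r hr).1]⟩
    let t : Vtx R := ⟨a ++ r.2 ++ b ++ s.2 ++ c, by simp [(hR r hr).2]⟩
    let e₁ : x ⟶ y := ⟨(a, r, b ++ s.1 ++ c), hr, by simp [x], by simp [y]⟩
    let e₂ : y ⟶ t := ⟨(a ++ r.2 ++ b, s, c), hs, rfl, rfl⟩
    let e₃ : x ⟶ z := ⟨(a ++ r.1 ++ b, s, c), hs, rfl, rfl⟩
    let e₄ : z ⟶ t := ⟨(a, r, b ++ s.2 ++ c), hr, by simp [z], by simp [t]⟩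
    rw [hγ e₁, hγ e₂, hγ e₃, hγ e₄, ← kc, ← kc]
    exact kq _ _ (CategoryTheory.Quotient.sound _ (Square.mk e₁ e₂ e₃ e₄ a b c r s rfl rfl rfl rfl))
  have key : ∀ y (f : FO w ⟶ FO y), ρ (uf f) = k f := by
    refine mor_ind _ ?_ ?_ ?_
    · rw [uf_id, k1]
      exact map_one ρ
    · intro y z f g ih
      rw [uF_comp, map_mul, ih, kc, uf_map, ulift_e, hγ]
    · intro y z f g ih
      rw [uF_comp, map_mul, ih, kc, uF_inv, map_inv, uf_map, ulift_e, hγ]
      congr 1
      exact inv_eq_of_mul_eq_one_right (by rw [← kc, Groupoid.inv_comp, k1])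
  have hw : C w := ⟨Iso.refl _⟩
  refine ⟨ρ, τ w hw, fun g => ?_⟩
  obtain ⟨f, hf⟩ := (Quotient.functor (Square R)).map_surjective g.hom
  have h1 : iota w g = uf f := by
    change (uQ R).map g.hom = _
    rw [← hf]
    rfl
  have h2 : I f = g := Iso.ext hf
  rw [h1, key]
  simp only [k, dif_pos hw, h2]
  rfl

include hR in
theorem iota_inj (w : Vtx R) : Function.Injective (iota w) := fun g g' h => by
  obtain ⟨ρ, c, H⟩ := exists_retr hR w
  have := (H g).symm.trans ((congrArg ρ h).trans (H g'))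
  simpa using this

end Pool.Agent.H65.Squier
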