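import Pool.Agent.H65.PLCore
import Pool.Agent.H65.PLDefs
import Pool.Agent.H65.SquierU

/-! A diagram group which is not residually `PL₊([0,1])`. -/

namespace Pool.Agent.H65.PL

open unitInterval Squier
open scoped commutatorElement

theorem IsPL.germ {g : I ≃ₜ I} (h : IsPL g) {z : I} (hz : z < ⊤) :
    ∃ y, z < y ∧ ∃ l m : ℝ, ∀ x : I, z ≤ x → x ≤ y → (g x : ℝ) = l * x + m := by
  obtain ⟨-, B, hB⟩ := h
  obtain ⟨y, h1, h2⟩ := ((insert 1 B).filter fun c => (z : ℝ) < c).exists_min_image id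
    ⟨1, Finset.mem_filter.2 ⟨by simp, hz⟩⟩
  have h3 := (Finset.mem_filter.1 h1).2
  exact ⟨⟨y, z.2.1.trans h3.le, h2 1 (Finset.mem_filter.2 ⟨by simp, hz⟩)⟩, h3, hB z y fun c hc h =>
    h.2.not_ge (h2 c (Finset.mem_filter.2 ⟨by simp [hc], h.1⟩))⟩

theorem pl_rel {G : Type} [Group G] (φ : G →* (I ≃ₜ I)) (h : ∀ g, IsPL (φ g))
    {θ f₁ f₂ s s' : G} (c0 : Commute f₁ f₂) (c1 : Commute f₁ s) (c2 : Commute (s * f₂ * s⁻¹) θ)
    (c3 : Commute (s * f₂ * s⁻¹) f₂) (c4 : Commute f₂ s') (c5 : Commute (s' * f₁ * s'⁻¹) θ)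
    (c6 : Commute (s' * f₁ * s'⁻¹) f₁) :
    φ ⁅⁅θ * f₂ * θ⁻¹, f₁⁆, ⁅θ⁻¹ * f₂ * θ, f₁⁆⁆ = 1 := by
  let : MulAction G I :=
    { smul := fun g x => φ g x
      one_smul := fun x => show φ 1 x = x by rw [map_one]; rfl
      mul_smul := fun g g' x => show φ (g * g') x = φ g (φ g' x) by rw [map_mul]; rfl }
  have mono : ∀ (g : G) (x y : I), x < y → g • x < g • y := fun g x y e => (h g).1 e
  ext1 x
  refine core mono (fun g z hz => ?_) (fun g g' z hz e e' => ?_) c0 c1 c2 c3 c4 c5 c6 x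
  · obtain ⟨y, h1, l, m, h2⟩ := (h g).germ hz
    refine ⟨y, h1, fun t t' u t1 t2 t3 e1 e2 u1 u2 => Subtype.ext ?_⟩
    have a1 : (t : ℝ) = l * t + m := (congrArg Subtype.val e1).symm.trans
      (h2 t t1.le (t2.trans t3).le)
    have a2 : (t' : ℝ) = l * t' + m := (congrArg Subtype.val e2).symm.trans
      (h2 t' (t1.trans t2).le t3.le)
    have a3 : (t : ℝ) < t' := t2
    have a4 : l = 1 := mul_right_cancel₀ (sub_pos.2 a3).ne' (by linarith)
    refine (h2 u u1.le u2.le).trans ?_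
    rw [a4] at a1 ⊢
    linarith
  · obtain ⟨y, h1, l, m, h2⟩ := (h g).germ hz
    obtain ⟨y', h1', l', m', h2'⟩ := (h g').germ hz
    have j : ∀ k : G, k • z = z → ∀ {v}, z < v → z < k • v := fun k e _ hv => e ▸ mono k _ _ hv
    have hv := lt_min (lt_min h1 h1') (lt_min (j _ (inv_smul_eq_iff.2 e.symm) (lt_min h1 h1'))
      (j _ (inv_smul_eq_iff.2 e'.symm) (lt_min h1 h1')))
    refine ⟨_, j g' e' (j g e hv), fun t t1 t2 => ?_⟩
    obtain ⟨u, rfl⟩ : ∃ u, t = g' • g • u := ⟨g⁻¹ • g'⁻¹ • t, by simp⟩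
    have u1 : z < u := by
      simpa using j _ (inv_smul_eq_iff.2 e.symm) (j _ (inv_smul_eq_iff.2 e'.symm) t1)
    have u2 := mono g⁻¹ _ _ (mono g'⁻¹ _ _ t2)
    rw [inv_smul_smul, inv_smul_smul, inv_smul_smul, inv_smul_smul, lt_min_iff, lt_min_iff,
      lt_min_iff] at u2
    have u3 := mono g _ _ u2.2.1
    have u4 := mono g' _ _ u2.2.2
    rw [smul_inv_smul, lt_min_iff] at u3 u4
    simp only [commutatorElement_def, mul_smul, inv_smul_smul]
    refine Subtype.ext ((h2 _ (j g' e' u1).le u4.1.le).trans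
      (Eq.trans ?_ (h2' _ (j g e u1).le u3.2.le).symm))
    have a1 : (z : ℝ) = l * z + m := (congrArg Subtype.val e).symm.trans (h2 z le_rfl h1.le)
    have a2 : (z : ℝ) = l' * z + m' := (congrArg Subtype.val e').symm.trans (h2' z le_rfl h1'.le)
    rw [show ((g • u : I) : ℝ) = _ from h2 u u1.le u2.1.1.le,
      show ((g' • u : I) : ℝ) = _ from h2' u u1.le u2.1.2.le]
    linear_combination (l' - 1) * a1 - (l - 1) * a2

/-- letters `x=0, p=1, q=2, r=3, y=4, z=5` -/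
def R : Set (List (Fin 6) × List (Fin 6)) :=
  {([0], [0, 1]), ([0], [1, 0]), ([1], [2]), ([2], [3]), ([3], [1]), ([1, 0, 1], [4, 4, 4]),
    ([4, 4, 4], [5, 5, 5]), ([5, 5, 5], [1, 0, 1])}

def T (k : ℤ) : Equiv.Perm (ℤ × ℕ) := (Equiv.addRight k).prodCongr (Equiv.refl _)

theorem T_apply (k i : ℤ) (n : ℕ) : T k (i, n) = (i + k, n) := rfl

theorem T_inv (k : ℤ) : (T k)⁻¹ = T (-k) := by
  ext1 ⟨i, n⟩
  simp [T_apply, Equiv.symm_apply_eq]

theorem T_add (k l : ℤ) : T (k + l) = T k * T l := by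
  ext1 ⟨i, n⟩
  simp [T_apply, add_assoc, add_comm k]

def δ : Equiv.Perm (ℤ × ℕ) where
  toFun x := if x.1 < 0 then x else if x.1 = 0 then ((x.2 % 2 : ℕ), x.2 / 2) else (x.1 + 1, x.2)
  invFun x := if x.1 < 0 then x else if x.1 < 2 then (0, 2 * x.2 + x.1.toNat) else (x.1 - 1, x.2)
  left_inv := by
    rintro ⟨i, n⟩
    dsimp only
    split_ifs <;> refine Prod.ext ?_ ?_ <;> dsimp only at * <;> omega
  right_inv := by
    rintro ⟨i, n⟩
    dsimp only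
    split_ifs <;> refine Prod.ext ?_ ?_ <;> dsimp only at * <;> omega

def ρ (r : List (Fin 6) × List (Fin 6)) : Equiv.Perm (ℤ × ℕ) :=
  if r.1 = [0] then δ else if r.1 = [1] then Equiv.swap (0, 0) (0, 1)
  else if r.1 = [1, 0, 1] then Equiv.swap (0, 0) (2, 0)
  else if r.1 = [4, 4, 4] then Equiv.swap (2, 0) (2, 1) else 1

theorem ρ_spec {r : List (Fin 6) × List (Fin 6)} (hr : r ∈ R) (i : ℤ) (n : ℕ) :
    (i < 0 → ρ r (i, n) = (i, n)) ∧
      ((r.1.length : ℤ) ≤ i → ρ r (i, n) = (i + r.2.length - r.1.length, n)) := by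
  rcases hr with rfl | rfl | rfl | rfl | rfl | rfl | rfl | rfl <;>
    refine ⟨fun h => ?_, fun h => ?_⟩ <;> simp [ρ, δ, Equiv.swap_apply_def] at h ⊢ <;>
    split_ifs <;> first | omega | (simp <;> omega)

def Φ : U R →* Equiv.Perm (ℤ × ℕ) :=
  ulift (fun t => T t.1.length * ρ t.2.1 * (T t.1.length)⁻¹) fun a b c r hr s hs => by
    have : Commute ((T (r.2.length + b.length))⁻¹ * ρ r * T (r.1.length + b.length)) (ρ s) :=
      Equiv.Perm.Disjoint.commute fun ⟨i, n⟩ => (lt_or_ge i 0).symm.imp (fun h => by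
        simp only [T_inv, Equiv.Perm.mul_apply, T_apply]
        rw [(ρ_spec hr _ n).2 (by omega), T_apply]
        congr 1
        ring) (ρ_spec hs i n).1
    simp only [List.length_append, Nat.cast_add, add_assoc, T_add (a.length : ℤ)]
    generalize T (r.2.length + b.length) = x at this ⊢
    generalize T (r.1.length + b.length) = y at this ⊢
    calc _ = T a.length * x * (ρ s * (x⁻¹ * ρ r * y)) * y⁻¹ * (T a.length)⁻¹ := by group
      _ = _ := by rw [← this.eq]; group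

def ell : U R := e R ([], ([3], [1]), []) * (e R ([], ([2], [3]), []) * e R ([], ([1], [2]), []))
def th : U R := e R ([], ([5, 5, 5], [1, 0, 1]), []) *
  (e R ([], ([4, 4, 4], [5, 5, 5]), []) * e R ([], ([1, 0, 1], [4, 4, 4]), []))
def XR : U R := e R ([], ([0], [0, 1]), [])
def XL : U R := e R ([], ([0], [1, 0]), [])
def s0 : U R := (Lw [0, 1] XL)⁻¹ * Rw [1, 0] XR

theorem pe (r : List (Fin 6) × List (Fin 6)) (hr : r ∈ R) :
    Pth R r.1 r.2 (e R ([], r, [])) := by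
  simpa using Pth.edge [] [] hr

theorem pell : Pth R [1] [1] ell :=
  (pe ([3], [1]) (by simp [R])).mul ((pe ([2], [3]) (by simp [R])).mul (pe ([1], [2]) (by simp [R])))
theorem pth : Pth R [1, 0, 1] [1, 0, 1] th :=
  (pe ([5, 5, 5], [1, 0, 1]) (by simp [R])).mul ((pe ([4, 4, 4], [5, 5, 5]) (by simp [R])).mul (pe ([1, 0, 1], [4, 4, 4]) (by simp [R])))
theorem pXR : Pth R [0] [0, 1] XR := pe ([0], [0, 1]) (by simp [R])
theorem pXL : Pth R [0] [1, 0] XL := pe ([0], [1, 0]) (by simp [R])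
theorem ps0 : Pth R [0, 1, 0] [0, 1, 0] s0 := (pXL.L [0, 1]).inv.mul (pXR.R' [1, 0])

def θ : U R := Rw [0] (Lw [0] th)
def f₁ : U R := Rw [0, 1, 0] (Lw [0] ell)
def f₂ : U R := Rw [0] (Lw [0, 1, 0] ell)
def s : U R := Lw [0, 1] s0
def s' : U R := Rw [1, 0] s0⁻¹

theorem g₂_eq : s * f₂ * s⁻¹ = Lw [0, 1, 0, 1] (XL⁻¹ * Rw [0] ell * XL) := by
  have := congrArg (Lw [0, 1]) (inter pXR (pell.R' [0]))
  simp only [s, s0, f₂, ← Lw_Rw, map_mul, map_inv, Lw_Lw, List.cons_append, List.nil_append] at this ⊢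
  rw [mul_assoc _ _ (Lw _ _), this]
  group

theorem g₁_eq : s' * f₁ * s'⁻¹ = Rw [1, 0, 1, 0] (XR⁻¹ * Lw [0] ell * XR) := by
  have := congrArg (Rw [1, 0]) (inter (pell.L [0]) pXL)
  simp only [s', s0, f₁, map_mul, map_inv, Rw_Rw, List.cons_append, List.nil_append, mul_inv_rev,
    inv_inv] at this ⊢
  rw [mul_assoc _ _ (Rw _ _), ← this]
  group

def w0 : Vtx R := ⟨[0, 1, 0, 1, 0], by simp⟩

theorem hR : ∀ r ∈ R, r.1 ≠ [] ∧ r.2 ≠ [] := by
  rintro _ (rfl | rfl | rfl | rfl | rfl | rfl | rfl | rfl) <;> simp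

theorem main : ∃ g : DiagramGroup R w0, g ≠ 1 ∧
    ∀ φ : DiagramGroup R w0 →* (I ≃ₜ I), (∀ d, IsPL (φ d)) → φ g = 1 := by
  obtain ⟨a, ha⟩ := exists_iota (w := w0) hR ((pth.L [0]).R' [0])
  obtain ⟨b, hb⟩ := exists_iota (w := w0) hR ((pell.L [0]).R' [0, 1, 0])
  obtain ⟨c, hc⟩ := exists_iota (w := w0) hR ((pell.L [0, 1, 0]).R' [0])
  obtain ⟨d, hd⟩ := exists_iota (w := w0) hR (ps0.L [0, 1])
  obtain ⟨k, hk⟩ := exists_iota (w := w0) hR (ps0.inv.R' [1, 0])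
  have p2 := (pXL.inv.mul (pell.R' [0])).mul pXL
  have p1 := (pXR.inv.mul (pell.L [0])).mul pXR
  have e2 : f₂ = Lw [0, 1] (Lw [0] (Rw [0] ell)) := by simp [f₂, Lw_Lw, Lw_Rw]
  have e3 : θ = Lw [0] (Rw [0] th) := (Lw_Rw _ _ _).symm
  have e4 : f₁ = Lw [0] (Rw [0, 1, 0] ell) := (Lw_Rw _ _ _).symm
  have e5 : f₂ = Lw [0, 1, 0] (Rw [0] ell) := (Lw_Rw _ _ _).symm
  change _ = θ at ha
  change _ = f₁ at hb
  change _ = f₂ at hc
  change _ = s at hd
  change _ = s' at hk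
  have inj := iota_inj hR w0
  refine ⟨⁅⁅a * c * a⁻¹, b⁆, ⁅a⁻¹ * c * a, b⁆⁆, fun h => ?_, fun φ h => pl_rel φ h (s := d) (s' := k)
    (.of_map inj ?_) (.of_map inj ?_) (.of_map inj ?_) (.of_map inj ?_) (.of_map inj ?_)
    (.of_map inj ?_) (.of_map inj ?_)⟩
  · have := congrArg (fun g => Φ (iota w0 g) (1, 0)) h
    have h1 : Φ θ = Equiv.swap (3, 0) (3, 1) * Equiv.swap (1, 0) (3, 0) := by
      simp [θ, th, Φ, ρ, ← Equiv.swap_apply_apply, T_apply]
    have h2 : Φ f₁ = Equiv.swap (1, 0) (1, 1) := by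
      simp [f₁, ell, Φ, ρ, ← Equiv.swap_apply_apply, T_apply]
    have h3 : Φ f₂ = Equiv.swap (3, 0) (3, 1) := by
      simp [f₂, ell, Φ, ρ, ← Equiv.swap_apply_apply, T_apply]
    simp only [commutatorElement_def, map_mul, map_inv, ha, hb, hc, h1, h2, h3, map_one,
      mul_inv_rev, inv_inv, Equiv.swap_inv, Equiv.Perm.mul_apply] at this
    revert this
    decide
  all_goals simp only [map_mul, map_inv, ha, hb, hc, hd, hk, g₁_eq, g₂_eq]
  · exact e2 ▸ inter (pell.L [0]) ((pell.R' [0]).L [0])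
  · exact inter (pell.L [0]) ps0
  · exact (inter (pth.L [0]) p2).symm
  · exact (inter (pell.L [0, 1, 0]) p2).symm
  · exact e5 ▸ (inter ps0.inv (pell.R' [0])).symm
  · exact e3 ▸ inter p1 (pth.R' [0])
  · exact e4 ▸ inter p1 (pell.R' [0, 1, 0])

end Pool.Agent.H65.PL
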