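import Pool.Agent.H65.Words

set_option autoImplicit false

namespace Pool.Agent.H65.Palin
open FreeGroup hiding map_mul map_one map_inv IsReduced
open Pool.Agent.H65.Words

lemma cancel_split {α : Type*} [DecidableEq α] (L : List (α × Bool)) (hL : FreeGroup.IsReduced L)
    (h : FreeGroup α) : ∃ P C Q, L = P ++ C ∧ h.toWord = invRev C ++ Q ∧
      (mk L * h).toWord = P ++ Q := by
  induction L with
  | nil => exact ⟨[], [], h.toWord, rfl, rfl, by simp [mk_nil]⟩
  | cons l L ih =>
    rw [isReduced_cons_iff] at hL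
    obtain ⟨P, C, Q, h1, h2, h3⟩ := ih hL.1
    rw [mk_cons, mul_assoc]
    by_cases hh : (mk L * h).toWord.head? = some (linv l)
    · rw [toWord_letter_mul_of_eq _ _ hh]
      cases P with
      | nil =>
        rw [h3] at hh ⊢
        cases Q with
        | nil => simp at hh
        | cons q Q =>
          simp at hh
          subst hh
          exact ⟨[], l :: C, Q, by simp [h1], by rw [h2, invRev_cons']; simp, rfl⟩
      | cons p P =>
        rw [h3] at hh
        rw [h1] at hL
        exact absurd hh hL.2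
    · rw [toWord_letter_mul_of_ne _ _ hh, h3]
      exact ⟨l :: P, C, Q, by simp [h1], h2, rfl⟩

abbrev F := FreeGroup (Fin 2)

def f (s t : Fin 2 × Bool) : ℤ :=
  if s.2 = t.2 then (t.1 : ℤ) - (s.1 : ℤ) else 0

lemma f_swap (s t : Fin 2 × Bool) : f t s = - f s t := by revert s t; decide
lemma f_inv (s t : Fin 2 × Bool) : f (linv s) (linv t) = f s t := by revert s t; decide
lemma f_le (s t : Fin 2 × Bool) : |f s t| ≤ 1 := by revert s t; decide

def phi : List (Fin 2 × Bool) → ℤ
  | [] => 0
  | [_] => 0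
  | x :: y :: L => f x y + phi (y :: L)

lemma phi_concat (L : List (Fin 2 × Bool)) (x y : Fin 2 × Bool) :
    phi (L ++ [x, y]) = phi (L ++ [x]) + f x y := by
  induction L with
  | nil => simp [phi]
  | cons a L ih =>
    cases L with
    | nil => simp [phi]
    | cons b L =>
      simp only [List.cons_append, phi] at *
      rw [ih]; ring

lemma phi_reverse (L : List (Fin 2 × Bool)) : phi L.reverse = - phi L := by
  induction L with
  | nil => rfl
  | cons a L ih =>
    cases L with
    | nil => rfl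
    | cons b L =>
      simp only [List.reverse_cons, List.append_assoc, List.cons_append, List.nil_append] at *
      rw [phi_concat, ih, phi, f_swap]; ring

lemma phi_map (L : List (Fin 2 × Bool)) : phi (L.map linv) = phi L := by
  induction L with
  | nil => rfl
  | cons a L ih =>
    cases L with
    | nil => rfl
    | cons b L =>
      simp only [List.map_cons, phi] at *
      rw [ih, f_inv]

lemma phi_invRev (L : List (Fin 2 × Bool)) : phi (invRev L) = - phi L := by
  have : invRev L = (L.map linv).reverse := rfl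
  rw [this, phi_reverse, phi_map]

lemma phi_append (L M : List (Fin 2 × Bool)) : |phi (L ++ M) - phi L - phi M| ≤ 1 := by
  induction L with
  | nil => simp [phi]
  | cons a L ih =>
    cases L with
    | nil =>
      cases M with
      | nil => simp [phi]
      | cons m M => simpa [phi] using f_le a m
    | cons b L =>
      simp only [List.cons_append, phi] at *
      convert ih using 2; ring

lemma quasi (g h : F) : |phi (g * h).toWord - phi g.toWord - phi h.toWord| ≤ 3 := by
  obtain ⟨P, C, Q, h1, h2, h3⟩ := cancel_split g.toWord isReduced_toWord h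
  rw [mk_toWord] at h3
  rw [h3, h2, h1]
  have e1 := phi_append P C
  have e2 := phi_append (invRev C) Q
  have e3 := phi_append P Q
  rw [phi_invRev] at e2
  rw [abs_le] at *
  constructor <;> linarith [e1.1, e1.2, e2.1, e2.2, e3.1, e3.2]

def sig : F →* F := FreeGroup.lift fun x => (of x)⁻¹

lemma sig_mk (L : List (Fin 2 × Bool)) : sig (mk L) = mk (L.map linv) := by
  induction L with
  | nil => simp [mk_nil]
  | cons a L ih =>
    rw [List.map_cons, mk_cons, mk_cons (linv a), map_mul, ih, mk_linv]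
    congr 1
    obtain ⟨x, b⟩ := a
    cases b
    · have : (mk [(x, false)] : F) = (of x)⁻¹ := rfl
      rw [this]; simp [sig]
    · have : (mk [(x, true)] : F) = of x := rfl
      rw [this]; simp [sig]

lemma phi_sig (g : F) : phi (sig g).toWord = phi g.toWord := by
  conv_lhs => rw [← mk_toWord (x := g), sig_mk]
  rw [toWord_mk_red, phi_map]
  have := isReduced_toWord (x := g)
  unfold FreeGroup.IsReduced at *
  rw [List.isChain_map]
  refine this.imp ?_
  intro a b
  simp [linv]

def a : F := of 0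
def b : F := of 1

lemma pal_zero (w : List F) (hw : ∀ x ∈ w, x ∈ ({a, b} : Finset F) ∨ x⁻¹ ∈ ({a, b} : Finset F))
    (hr : w.reverse = w) : phi w.prod.toWord = 0 := by
  have h1 : sig w.prod = (w.prod)⁻¹ := by
    rw [List.prod_inv_reverse, ← List.map_reverse, hr, map_list_prod]
    congr 1
    apply List.map_congr_left
    intro x hx
    have := hw x hx
    simp only [Finset.mem_insert, Finset.mem_singleton, inv_eq_iff_eq_inv] at this
    rcases this with (rfl | rfl) | (rfl | rfl) <;> simp [sig, a, b]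
  have h2 := phi_sig w.prod
  rw [h1, toWord_inv, phi_invRev] at h2
  omega

def Ln : ℕ → List (Fin 2 × Bool)
  | 0 => [(0, true)]
  | n+1 => (0, true) :: (1, true) :: (0, false) :: (1, false) :: Ln n

lemma Ln_spec (n : ℕ) : (∃ M, Ln n = (0, true) :: M) ∧ FreeGroup.IsReduced (Ln n) ∧
    phi (Ln n) = 2 * n := by
  induction n with
  | zero => exact ⟨⟨_, rfl⟩, by simp [Ln], rfl⟩
  | succ n ih =>
    obtain ⟨⟨M, hM⟩, h2, h3⟩ := ih
    refine ⟨⟨_, rfl⟩, ?_, ?_⟩
    · rw [Ln, hM] at *
      simp only [isReduced_cons_cons]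
      exact ⟨by decide, by decide, by decide, by decide, h2⟩
    · rw [Ln, hM] at *
      simp only [phi, h3]
      simp [f]; ring

theorem infinite_width : ¬ (∃ N : ℕ, ∀ g : F, ∃ ps : List F, ps.length ≤ N ∧ ps.prod = g ∧
    ∀ p ∈ ps, ∃ w : List F, (∀ x ∈ w, x ∈ ({a, b} : Finset F) ∨ x⁻¹ ∈ ({a, b} : Finset F)) ∧
      w.reverse = w ∧ w.prod = p) := by
  rintro ⟨N, hN⟩
  obtain ⟨ps, h1, h2, h3⟩ := hN (mk (Ln (2 * N + 1)))
  have key : ∀ ps : List F, (∀ p ∈ ps, phi p.toWord = 0) → phi ps.prod.toWord ≤ 3 * ps.length := by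
    intro ps
    induction ps with
    | nil => intro _; simp [phi]
    | cons p ps ih =>
      intro h
      have e1 := ih (fun q hq => h q (List.mem_cons_of_mem _ hq))
      have e2 := h p List.mem_cons_self
      have e3 := (abs_le.1 (quasi p ps.prod)).2
      simp only [List.prod_cons, List.length_cons]
      push_cast
      linarith
  have := key ps (fun p hp => by
    obtain ⟨w, k1, k2, rfl⟩ := h3 p hp
    exact pal_zero w k1 k2)
  rw [h2, toWord_mk_red (Ln_spec _).2.1, (Ln_spec _).2.2] at this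
  omega

def X : Finset F := {a, b, a * b}

lemma exists_list (g : F) : ∃ H : List F, (∀ x ∈ H, x ∈ X ∨ x⁻¹ ∈ X) ∧ H.prod = g := by
  induction g using FreeGroup.induction_on with
  | C1 => exact ⟨[], by simp, rfl⟩
  | of x => exact ⟨[of x], by fin_cases x <;> simp [X, a, b], by simp⟩
  | inv_of x _ => exact ⟨[(of x)⁻¹], by fin_cases x <;> simp [X, a, b], by simp⟩
  | mul x y hx hy =>
    obtain ⟨H, h1, rfl⟩ := hx
    obtain ⟨K, h2, rfl⟩ := hy
    refine ⟨H ++ K, ?_, by simp⟩
    intro x hx
    rcases List.mem_append.1 hx with h | h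
    exacts [h1 x h, h2 x h]

def P : Subgroup F where
  carrier := {g | ∃ U : List F, (∀ x ∈ U, x ∈ X ∨ x⁻¹ ∈ X) ∧ U.prod = 1 ∧ U.reverse.prod = g}
  mul_mem' := by
    rintro _ _ ⟨U, h1, h2, rfl⟩ ⟨V, k1, k2, rfl⟩
    refine ⟨V ++ U, ?_, by simp [h2, k2], by simp⟩
    intro x hx
    rcases List.mem_append.1 hx with h | h
    exacts [k1 x h, h1 x h]
  one_mem' := ⟨[], by simp, rfl, rfl⟩
  inv_mem' := by
    rintro _ ⟨U, h1, h2, rfl⟩
    refine ⟨(U.map fun x => x⁻¹).reverse, ?_, by rw [← List.prod_inv_reverse, h2, inv_one], ?_⟩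
    · intro x hx
      simp only [List.mem_reverse, List.mem_map] at hx
      obtain ⟨y, hy, rfl⟩ := hx
      rw [inv_inv]
      exact (h1 y hy).symm
    · rw [List.prod_inv_reverse, List.map_reverse]

instance : P.Normal := ⟨by
  rintro _ ⟨U, h1, h2, rfl⟩ g
  obtain ⟨H, k1, rfl⟩ := exists_list g
  refine ⟨(H.map fun x => x⁻¹) ++ U ++ H.reverse, ?_, ?_, ?_⟩
  · intro x hx
    simp only [List.mem_append, List.mem_reverse, List.mem_map] at hx
    rcases hx with (⟨y, hy, rfl⟩ | h) | h
    · rw [inv_inv]; exact (k1 y hy).symm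
    · exact h1 x h
    · exact k1 x h
  · rw [List.prod_append, List.prod_append, h2, mul_one, mul_eq_one_iff_eq_inv,
      List.prod_inv_reverse, List.map_reverse, List.reverse_reverse]
  · rw [List.reverse_append, List.reverse_append, List.reverse_reverse, List.prod_append,
      List.prod_append, ← List.prod_inv_reverse, mul_assoc]⟩

lemma comm_mod : Commute (a : F ⧸ P) (b : F ⧸ P) := by
  have : ((a * b : F) : F ⧸ P) = (b * a : F) := by
    rw [QuotientGroup.eq]
    refine ⟨[a, b, (a * b)⁻¹], by simp [X], by simp, by simp [mul_assoc]⟩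
  exact this

lemma normal_form (g : F) : ∃ i j : ℤ, (g : F ⧸ P) = (a : F ⧸ P) ^ i * (b : F ⧸ P) ^ j := by
  induction g using FreeGroup.induction_on with
  | C1 => exact ⟨0, 0, by simp⟩
  | of x =>
    fin_cases x
    · exact ⟨1, 0, by simp [a]⟩
    · exact ⟨0, 1, by simp [b]⟩
  | inv_of x _ =>
    fin_cases x
    · exact ⟨-1, 0, by simp [a]⟩
    · exact ⟨0, -1, by simp [b]⟩
  | mul x y hx hy =>
    obtain ⟨i, j, h1⟩ := hx
    obtain ⟨k, l, h2⟩ := hy
    refine ⟨i + k, j + l, ?_⟩
    rw [QuotientGroup.mk_mul, h1, h2, zpow_add, zpow_add,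
      (comm_mod.symm.zpow_zpow j k).mul_mul_mul_comm]

lemma zpow_pal (x : F) (hx : x ∈ X) (i : ℤ) :
    ∃ w : List F, (∀ x ∈ w, x ∈ X ∨ x⁻¹ ∈ X) ∧ w.reverse = w ∧ w.prod = x ^ i := by
  obtain ⟨n, rfl | rfl⟩ := Int.eq_nat_or_neg i
  · exact ⟨List.replicate n x, fun y hy => by rw [List.eq_of_mem_replicate hy]; exact Or.inl hx,
      by simp, by simp⟩
  · exact ⟨List.replicate n x⁻¹, fun y hy => by
      rw [List.eq_of_mem_replicate hy, inv_inv]; exact Or.inr hx, by simp, by simp⟩

theorem finite_width : ∃ N : ℕ, ∀ g : F, ∃ ps : List F, ps.length ≤ N ∧ ps.prod = g ∧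
    ∀ p ∈ ps, ∃ w : List F, (∀ x ∈ w, x ∈ X ∨ x⁻¹ ∈ X) ∧ w.reverse = w ∧ w.prod = p := by
  refine ⟨3, fun g => ?_⟩
  obtain ⟨i, j, h⟩ := normal_form g
  have h2 : ((a ^ i * b ^ j : F) : F ⧸ P) = g := by rw [h]; simp
  rw [QuotientGroup.eq] at h2
  refine ⟨[a ^ i, b ^ j, (a ^ i * b ^ j)⁻¹ * g], le_rfl, by simp; group, ?_⟩
  intro p hp
  simp only [List.mem_cons, List.not_mem_nil, or_false] at hp
  rcases hp with rfl | rfl | rfl
  · exact zpow_pal a (by simp [X]) i
  · exact zpow_pal b (by simp [X]) j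
  · obtain ⟨U, k1, k2, k3⟩ := h2
    refine ⟨U ++ U.reverse, ?_, by simp, by rw [List.prod_append, k2, k3, one_mul]⟩
    intro x hx
    simp only [List.mem_append, List.mem_reverse, or_self] at hx
    exact k1 x hx

lemma closure_ab : Subgroup.closure ((({a, b} : Finset F)) : Set F) = ⊤ := by
  rw [eq_top_iff, ← closure_range_of]
  apply Subgroup.closure_mono
  rintro _ ⟨x, rfl⟩
  fin_cases x <;> simp [a, b]

lemma closure_X : Subgroup.closure (X : Set F) = ⊤ := by
  rw [eq_top_iff, ← closure_ab]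
  apply Subgroup.closure_mono
  intro x hx
  simp [X] at *
  tauto

end Pool.Agent.H65.Palin
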