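import Mathlib

set_option autoImplicit false

namespace Pool.Agent.H65.Palin2

variable {G : Type*} [Group G]

lemma exists_list (X : Set G) (hX : Subgroup.closure X = ⊤) (g : G) :
    ∃ H : List G, (∀ x ∈ H, x ∈ X ∨ x⁻¹ ∈ X) ∧ H.prod = g := by
  have hg : g ∈ Subgroup.closure X := hX ▸ Subgroup.mem_top g
  induction hg using Subgroup.closure_induction with
  | one => exact ⟨[], by simp, rfl⟩
  | mem x hx => exact ⟨[x], by simp [hx], by simp⟩
  | inv x _ hx =>
    obtain ⟨U, h1, rfl⟩ := hx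
    refine ⟨(U.map fun x => x⁻¹).reverse, ?_, by rw [← List.prod_inv_reverse]⟩
    intro x hx
    simp only [List.mem_reverse, List.mem_map] at hx
    obtain ⟨y, hy, rfl⟩ := hx
    rw [inv_inv]
    exact (h1 y hy).symm
  | mul x y _ _ hx hy =>
    obtain ⟨H, h1, rfl⟩ := hx
    obtain ⟨K, h2, rfl⟩ := hy
    refine ⟨H ++ K, ?_, by simp⟩
    intro x hx
    rcases List.mem_append.1 hx with h | h
    exacts [h1 x h, h2 x h]

/-- values of the reversals of the relators -/
def P (X : Set G) : Subgroup G where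
  carrier := {g | ∃ U : List G, (∀ x ∈ U, x ∈ X ∨ x⁻¹ ∈ X) ∧ U.prod = 1 ∧ U.reverse.prod = g}
  mul_mem' := by
    rintro _ _ ⟨U, h1, h2, rfl⟩ ⟨V, k1, k2, rfl⟩
    refine ⟨V ++ U, ?_, by simp [h2, k2], by simp⟩
    intro x hx
    rcases List.mem_append.1 hx with h | h
    exacts [k1 x h, h1 x h]
  one_mem' := ⟨[], by simp, rfl, rfl⟩
  inv_mem' := by
    rintro _ ⟨U, h1, h2, rfl⟩
    refine ⟨(U.map fun x => x⁻¹).reverse, ?_, by rw [← List.prod_inv_reverse, h2, inv_one], ?_⟩
    · intro x hx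
      simp only [List.mem_reverse, List.mem_map] at hx
      obtain ⟨y, hy, rfl⟩ := hx
      rw [inv_inv]
      exact (h1 y hy).symm
    · rw [List.prod_inv_reverse, List.map_reverse]

lemma P_normal (X : Set G) (hX : Subgroup.closure X = ⊤) : (P X).Normal := ⟨by
  rintro _ ⟨U, h1, h2, rfl⟩ g
  obtain ⟨H, k1, rfl⟩ := exists_list X hX g
  refine ⟨(H.map fun x => x⁻¹) ++ U ++ H.reverse, ?_, ?_, ?_⟩
  · intro x hx
    simp only [List.mem_append, List.mem_reverse, List.mem_map] at hx
    rcases hx with (⟨y, hy, rfl⟩ | h) | h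
    · rw [inv_inv]; exact (k1 y hy).symm
    · exact h1 x h
    · exact k1 x h
  · rw [List.prod_append, List.prod_append, h2, mul_one, mul_eq_one_iff_eq_inv,
      List.prod_inv_reverse, List.map_reverse, List.reverse_reverse]
  · rw [List.reverse_append, List.reverse_append, List.reverse_reverse, List.prod_append,
      List.prod_append, ← List.prod_inv_reverse, mul_assoc]⟩

lemma nf {Q : Type*} [CommGroup Q] (f : G →* Q) (l : List G) (q : Q)
    (hq : q ∈ Subgroup.closure (f '' {x | x ∈ l})) :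
    ∃ ps : List (G × ℤ), ps.length ≤ l.length ∧ (∀ p ∈ ps, p.1 ∈ l) ∧
      f (ps.map fun p => p.1 ^ p.2).prod = q := by
  induction l generalizing q with
  | nil => exact ⟨[], le_rfl, by simp, by simpa [eq_comm] using hq⟩
  | cons a l ih =>
    have : f '' {x | x ∈ a :: l} = {f a} ∪ f '' {x | x ∈ l} := by
      ext y; simp [eq_comm]
    rw [this, Subgroup.closure_union, Subgroup.mem_sup] at hq
    obtain ⟨y, hy, z, hz, rfl⟩ := hq
    obtain ⟨i, rfl⟩ := Subgroup.mem_closure_singleton.1 hy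
    obtain ⟨ps, h1, h2, h3⟩ := ih z hz
    refine ⟨(a, i) :: ps, by simpa using h1, ?_, by simp [← h3]⟩
    intro p hp
    rcases List.mem_cons.1 hp with rfl | hp
    · simp
    · exact List.mem_cons_of_mem _ (h2 p hp)

lemma zpow_pal (X : Set G) (x : G) (hx : x ∈ X) (i : ℤ) :
    ∃ w : List G, ((∀ x ∈ w, x ∈ X ∨ x⁻¹ ∈ X) ∧ w.reverse = w) ∧ w.prod = x ^ i := by
  obtain ⟨n, rfl | rfl⟩ := Int.eq_nat_or_neg i
  · exact ⟨List.replicate n x, ⟨fun y hy => by rw [List.eq_of_mem_replicate hy]; exact Or.inl hx,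
      by simp⟩, by simp⟩
  · exact ⟨List.replicate n x⁻¹, ⟨fun y hy => by
      rw [List.eq_of_mem_replicate hy, inv_inv]; exact Or.inr hx, by simp⟩, by simp⟩

theorem width (X : Set G) (l : List G) (hl : Subgroup.closure {x | x ∈ l} = ⊤)
    (h1 : ∀ x ∈ l, x ∈ X) (h2 : ∀ x ∈ l, ∀ y ∈ l, x * y ∈ X) (g : G) :
    ∃ ps : List (List G), ps.length ≤ l.length + 1 ∧
      (∀ w ∈ ps, (∀ x ∈ w, x ∈ X ∨ x⁻¹ ∈ X) ∧ w.reverse = w) ∧ (ps.map List.prod).prod = g := by
  have hX : Subgroup.closure X = ⊤ := by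
    rw [eq_top_iff, ← hl]; exact Subgroup.closure_mono h1
  haveI := P_normal X hX
  have hc : Subgroup.closure (QuotientGroup.mk' (P X) '' {x | x ∈ l}) = ⊤ := by
    rw [← MonoidHom.map_closure, hl]
    exact Subgroup.map_top_of_surjective _ (QuotientGroup.mk'_surjective _)
  have hm : ∀ x ∈ l, ∀ y ∈ l, (x : G ⧸ P X) * y = y * x := by
    intro x hx y hy
    have : ((x * y : G) : G ⧸ P X) = (y * x : G) := by
      rw [QuotientGroup.eq]
      exact ⟨[x, y, (x * y)⁻¹], by simp [h1 x hx, h1 y hy, h2 x hx y hy], by simp,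
        by simp [mul_assoc]⟩
    exact this
  have hcomm : ∀ a b : G ⧸ P X, a * b = b * a := by
    intro a b
    have ha : a ∈ Subgroup.closure (QuotientGroup.mk' (P X) '' {x | x ∈ l}) := hc ▸ trivial
    have hb : b ∈ Subgroup.closure (QuotientGroup.mk' (P X) '' {x | x ∈ l}) := hc ▸ trivial
    induction ha, hb using Subgroup.closure_induction₂ with
    | mem x y hx hy =>
      obtain ⟨x, hx, rfl⟩ := hx
      obtain ⟨y, hy, rfl⟩ := hy
      exact hm x hx y hy
    | one_left => simp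
    | one_right => simp
    | mul_left x y z _ _ _ k1 k2 => exact (Commute.mul_left k1 k2 : Commute (x * y) z)
    | mul_right y z x _ _ _ k1 k2 => exact (Commute.mul_right k1 k2 : Commute x (y * z))
    | inv_left x y _ _ k => exact (Commute.inv_left k : Commute x⁻¹ y)
    | inv_right x y _ _ k => exact (Commute.inv_right k : Commute x y⁻¹)
  letI : CommGroup (G ⧸ P X) := { (inferInstance : Group (G ⧸ P X)) with mul_comm := hcomm }
  obtain ⟨ps, k1, k2, k3⟩ := nf (QuotientGroup.mk' (P X)) l (g : G ⧸ P X) (hc ▸ trivial)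
  obtain ⟨U, u1, u2, u3⟩ := QuotientGroup.eq.1 k3
  choose W hW1 hW2 using fun p : {p // p ∈ ps} => zpow_pal X p.1.1 (h1 _ (k2 _ p.2)) p.1.2
  refine ⟨ps.attach.map W ++ [U ++ U.reverse], by simpa using k1, ?_, ?_⟩
  · intro w hw
    rcases List.mem_append.1 hw with hw | hw
    · obtain ⟨p, -, rfl⟩ := List.mem_map.1 hw
      exact hW1 p
    · rw [List.mem_singleton.1 hw]
      refine ⟨?_, by simp⟩
      intro x hx
      simp only [List.mem_append, List.mem_reverse, or_self] at hx
      exact u1 x hx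
  · have : (ps.attach.map W).map List.prod = ps.map fun p => p.1 ^ p.2 := by
      rw [List.map_map]
      conv_rhs => rw [← List.attach_map_subtype_val ps, List.map_map]
      exact List.map_congr_left fun p _ => hW2 p
    rw [List.map_append, this, List.prod_append]
    simp [u2, u3]

end Pool.Agent.H65.Palin2
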