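import Mathlib

set_option autoImplicit false

namespace Pool.Agent.H65.ParaP12
open Subgroup
open scoped commutatorElement

abbrev C (G : Type*) [Group G] (j : ℕ) : Subgroup G := (⊤ : Subgroup G).lowerCentralSeries j

lemma sup_top {G : Type*} [Group G] (H : Subgroup G) (h : H ⊔ commutator G = ⊤) (n : ℕ) :
    H ⊔ C G n = ⊤ := by
  induction n with
  | zero => simp
  | succ n ih =>
    rw [eq_top_iff, ← h, sup_le_iff]
    refine ⟨le_sup_left, ?_⟩
    rw [commutator_def, commutator_le]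
    intro x _ y _
    have hx : x ∈ H ⊔ C G n := by rw [ih]; trivial
    have hy : y ∈ H ⊔ C G n := by rw [ih]; trivial
    rw [← SetLike.mem_coe, Subgroup.mul_normal] at hx hy ⊢
    obtain ⟨a, ha, c, hc, rfl⟩ := hx
    obtain ⟨b, hb, d, hd, rfl⟩ := hy
    refine ⟨⁅a, b⁆, by
      rw [commutatorElement_def]
      exact mul_mem (mul_mem (mul_mem ha hb) (inv_mem ha)) (inv_mem hb),
      ⁅a, b⁆⁻¹ * ⁅a * c, b * d⁆, ?_, mul_inv_cancel_left _ _⟩
    let q := QuotientGroup.mk' (C G (n + 1))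
    have cen : ∀ c ∈ C G n, ∀ g, q c * q g = q g * q c := by
      intro c hc g
      rw [← commutatorElement_eq_one_iff_mul_comm, ← map_commutatorElement]
      exact (QuotientGroup.eq_one_iff _).2 (commutator_mem_commutator hc (mem_top g))
    have : q (⁅a, b⁆⁻¹ * ⁅a * c, b * d⁆) = 1 := by
      rw [map_mul, map_inv, inv_mul_eq_one, map_commutatorElement, map_commutatorElement,
        map_mul, map_mul, commutatorElement_def, commutatorElement_def]
      have e1 : q a * q c * (q b * q d) = q a * q b * q d * q c := by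
        rw [← map_mul q b d, mul_assoc, cen c hc, map_mul]; group
      have e2 : q d * (q a)⁻¹ = (q a)⁻¹ * q d := by rw [← map_inv, cen d hd]
      rw [e1]
      calc q a * q b * (q a)⁻¹ * (q b)⁻¹ = q a * q b * ((q a)⁻¹ * q d) * (q d)⁻¹ * (q b)⁻¹ := by
            group
        _ = _ := by rw [← e2]; group
    exact (QuotientGroup.eq_one_iff _).1 this

lemma C_quot (G : Type*) [Group G] (j : ℕ) : C (G ⧸ C G j) j = ⊥ := by
  have := map_lowerCentralSeries (⊤ : Subgroup G) (QuotientGroup.mk' (C G j)) j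
  rw [← MonoidHom.range_eq_map, QuotientGroup.range_mk'] at this
  refine this.symm.trans ?_
  rw [Subgroup.map_eq_bot_iff, QuotientGroup.ker_mk']

lemma C_map {G K : Type*} [Group G] [Group K] (f : G →* K) (j : ℕ) : C G j ≤ (C K j).comap f := by
  rw [← map_le_iff_le_comap, map_lowerCentralSeries]
  exact lowerCentralSeries_mono j le_top

lemma surj_of {G K : Type*} [Group G] [Group K] (f : G →* K) (j : ℕ) (hK : C K j = ⊥)
    (h : ∀ y, ∃ x, (f x)⁻¹ * y ∈ commutator K) : Function.Surjective f := by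
  have := sup_top f.range (by
    rw [eq_top_iff]
    intro y _
    obtain ⟨x, hx⟩ := h y
    have := mul_mem (mem_sup_left (S := f.range) (T := commutator K) ⟨x, rfl⟩) (mem_sup_right hx)
    simpa using this) j
  rwa [hK, sup_bot_eq, MonoidHom.range_eq_top] at this

theorem main (Γ : Type*) [Group Γ] (X : Type*)
    (h : ∀ j, Nonempty (Γ ⧸ C Γ j ≃* FreeGroup X ⧸ C (FreeGroup X) j)) :
    ∃ φ : FreeGroup X →* Γ, ∀ j, ∃ e : FreeGroup X ⧸ C (FreeGroup X) j ≃* Γ ⧸ C Γ j,
      ∀ x : FreeGroup X, e x = (φ x : Γ ⧸ C Γ j) := by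
  obtain ⟨α⟩ := h 1
  choose s hs using fun x : X => QuotientGroup.mk'_surjective (C Γ 1) (α.symm (FreeGroup.of x))
  let φ : FreeGroup X →* Γ := FreeGroup.lift s
  have hφ : ∀ x : FreeGroup X, (φ x : Γ ⧸ C Γ 1) = α.symm x := by
    have : (QuotientGroup.mk' (C Γ 1)).comp φ =
        α.symm.toMonoidHom.comp (QuotientGroup.mk' (C _ 1)) := by
      ext x
      change QuotientGroup.mk' _ (FreeGroup.lift s (FreeGroup.of x)) = _
      rw [FreeGroup.lift_apply_of]; exact hs x
    exact fun x => DFunLike.congr_fun this x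
  have inj1 : ∀ x, φ x ∈ commutator Γ → x ∈ commutator (FreeGroup X) := by
    intro x hx
    have := (QuotientGroup.eq_one_iff (N := C Γ 1) _).2 hx
    rw [hφ, map_eq_one_iff _ α.symm.injective] at this
    exact (QuotientGroup.eq_one_iff (N := C _ 1) _).1 this
  have surj1 : ∀ y, ∃ x, (φ x)⁻¹ * y ∈ commutator Γ := by
    intro y
    obtain ⟨x, hx⟩ := QuotientGroup.mk'_surjective (C _ 1) (α y)
    refine ⟨x, (QuotientGroup.eq (s := C Γ 1)).1 ?_⟩
    rw [hφ, MulEquiv.symm_apply_eq, ← hx]; rfl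
  refine ⟨φ, fun j => ?_⟩
  obtain ⟨β⟩ := h j
  rcases j with _ | j
  · have : Subsingleton (Γ ⧸ C Γ 0) := QuotientGroup.subsingleton_quotient_top
    exact ⟨β.symm, fun x => Subsingleton.elim _ _⟩
  let θ := QuotientGroup.map (C _ (j + 1)) (C Γ (j + 1)) φ (C_map φ _)
  have hθ : Function.Surjective θ := by
    refine surj_of θ _ (C_quot _ _) fun y => ?_
    obtain ⟨y, rfl⟩ := QuotientGroup.mk'_surjective _ y
    obtain ⟨x, hx⟩ := surj1 y
    exact ⟨x, C_map (QuotientGroup.mk' (C Γ (j + 1))) 1 hx⟩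
  choose t ht using fun x : X => hθ (β.symm (FreeGroup.of x))
  let σ : _ ⧸ C (FreeGroup X) (j + 1) →* _ ⧸ C (FreeGroup X) (j + 1) :=
    QuotientGroup.lift _ (FreeGroup.lift t) (by
      intro x hx
      have := C_map (FreeGroup.lift t) (j + 1) hx
      rwa [C_quot] at this)
  have hσ : ∀ y, θ (σ y) = β.symm y := by
    have : θ.comp σ = β.symm.toMonoidHom := by
      ext x
      change θ (FreeGroup.lift t (FreeGroup.of x)) = _
      rw [FreeGroup.lift_apply_of]; exact ht x
    exact fun y => DFunLike.congr_fun this y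
  have hσ2 : Function.Surjective σ := by
    refine surj_of σ _ (C_quot _ _) fun y => ⟨β (θ y), ?_⟩
    obtain ⟨z, hz⟩ := QuotientGroup.mk'_surjective _ ((σ (β (θ y)))⁻¹ * y)
    have h1 : θ (QuotientGroup.mk' _ z) = 1 := by
      rw [hz, map_mul, map_inv, hσ, β.symm_apply_apply, inv_mul_cancel]
    have h2 : φ z ∈ C Γ (j + 1) := (QuotientGroup.eq_one_iff _).1 h1
    rw [← hz]
    exact C_map (QuotientGroup.mk' _) 1
      (inj1 z (Subgroup.lowerCentralSeries_antitone ⊤ (show 1 ≤ j + 1 by omega) h2))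
  refine ⟨MulEquiv.ofBijective θ ⟨?_, hθ⟩, fun x => rfl⟩
  intro x y hxy
  obtain ⟨x, rfl⟩ := hσ2 x
  obtain ⟨y, rfl⟩ := hσ2 y
  rw [hσ, hσ] at hxy
  rw [β.symm.injective hxy]

end Pool.Agent.H65.ParaP12
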