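import Pool.Agent.H65.FreeBasic

set_option autoImplicit false

namespace Pool.Agent.H65.ParaSol
open scoped commutatorElement
open Pool.Agent.H65.FreeBasic

abbrev D (k : ℕ) : Subgroup F := derivedSeries F k

lemma exists_g (k : ℕ) : ∃ g : F, g ∈ D k ∧ g ≠ 1 ∧
    ∀ y ∈ D (k + 1), ∀ y' ∈ D (k + 1), ⁅y, g⁆ = ⁅y', g⁆ → y = y' := by
  have : Nontrivial (D k) := (Subgroup.nontrivial_iff_ne_bot _).2 (not_solv k)
  obtain ⟨g, χ, hχ⟩ := exists_chi (D k)
  refine ⟨g, g.2, fun h => hχ (by rw [show g = 1 from Subtype.ext h, map_one]), ?_⟩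
  intro y hy y' hy' h
  have hz : y'⁻¹ * y ∈ D (k + 1) := mul_mem (inv_mem hy') hy
  have hz' : y'⁻¹ * y ∈ D k := derivedSeries_antitone F (Nat.le_succ k) hz
  have hc : (⟨_, hz'⟩ : D k) * g = g * ⟨_, hz'⟩ := by
    apply Subtype.ext
    simp only [Subgroup.coe_mul]
    have e : y * g * y⁻¹ = y' * g * y'⁻¹ := by
      simpa [commutatorElement_def] using h
    calc y'⁻¹ * y * g = y'⁻¹ * (y * g * y⁻¹) * y := by group
      _ = _ := by rw [e]; group
  obtain ⟨t, p, q, h1, h2⟩ := comm_root hc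
  have hk : χ ⟨_, hz'⟩ = 1 := by
    have : D (k + 1) ≤ χ.ker.map (D k).subtype := by
      rw [D, derivedSeries_succ, Subgroup.commutator_le]
      intro u hu v hv
      refine ⟨⁅(⟨u, hu⟩ : D k), ⟨v, hv⟩⁆, ?_, rfl⟩
      rw [SetLike.mem_coe, MonoidHom.mem_ker, map_commutatorElement, commutatorElement_eq_one_iff_mul_comm,
        mul_comm]
    obtain ⟨w, hw, e⟩ := this hz
    have : w = ⟨_, hz'⟩ := Subtype.ext e
    rw [← this]; exact hw
  rw [h1, map_zpow] at hk
  rw [h2, map_zpow] at hχ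
  have hp : p = 0 := by
    by_contra hp
    have : χ t = 1 := by
      have := congrArg Multiplicative.toAdd hk
      simp [hp] at this
      exact this
    exact hχ (by rw [this, one_zpow])
  rw [hp, zpow_zero] at h1
  have := congrArg Subtype.val h1
  simp only [Subgroup.coe_one] at this
  exact (inv_mul_eq_one.1 this).symm

noncomputable def g (k : ℕ) : F := (exists_g k).choose
lemma g_mem (k : ℕ) : g k ∈ D k := (exists_g k).choose_spec.1
lemma g_ne (k : ℕ) : g k ≠ 1 := (exists_g k).choose_spec.2.1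
lemma g_inj (k : ℕ) : ∀ y ∈ D (k + 1), ∀ y' ∈ D (k + 1), ⁅y, g k⁆ = ⁅y', g k⁆ → y = y' :=
  (exists_g k).choose_spec.2.2

abbrev q (j : ℕ) : F →* F ⧸ D j := QuotientGroup.mk' (D j)

lemma q_one {j : ℕ} {x : F} : q j x = 1 ↔ x ∈ D j := QuotientGroup.eq_one_iff x

noncomputable def ev (f : ℕ → F) : ℕ → ℕ → F
  | _, 0 => 1
  | k, n + 1 => f k * ⁅ev f (k + 1) n, g k⁆

lemma ev_succ (f : ℕ → F) (hf : ∀ k, f k ∈ D k) (n k j : ℕ) (h : j ≤ k + n) :
    q j (ev f k (n + 1)) = q j (ev f k n) := by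
  induction n generalizing k with
  | zero =>
    simp only [ev, commutatorElement_one_left, mul_one, map_one]
    exact q_one.2 (derivedSeries_antitone F h (hf k))
  | succ n ih =>
    have := ih (k + 1) (by omega)
    rw [ev, ev.eq_2 f k n, map_mul, map_mul, map_commutatorElement, map_commutatorElement, this]

lemma comm_mem {m : ℕ} {y : F} (hy : y ∈ D m) (z : F) : ⁅y, z⁆ ∈ D m := by
  rw [← q_one, map_commutatorElement, q_one.2 hy, commutatorElement_one_left]

lemma ev_mem (f : ℕ → F) (m n k : ℕ) (hf : ∀ i, k ≤ i → f i ∈ D m) : ev f k n ∈ D m := by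
  induction n generalizing k with
  | zero => exact one_mem _
  | succ n ih => exact mul_mem (hf k le_rfl) (comm_mem (ih (k + 1) fun i hi => hf i (by omega)) _)

abbrev P := (j : ℕ) → F ⧸ D j

def psi0 : F →* P := MonoidHom.pi q

noncomputable def gam (f : ℕ → F) (k : ℕ) : P := fun j => q j (ev f k j)

lemma gam_rel (f : ℕ → F) (hf : ∀ k, f k ∈ D k) (k : ℕ) :
    gam f k = psi0 (f k) * ⁅gam f (k + 1), psi0 (g k)⁆ := by
  funext j
  have := ev_succ f hf j k j (by omega)
  rw [ev, map_mul, map_commutatorElement] at this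
  exact this.symm

def gens : Set P := Set.range psi0 ∪ {x | ∃ f k, (∀ k, f k ∈ D k) ∧ x = gam f k}

abbrev Γ : Subgroup P := Subgroup.closure gens

def psi : F →* Γ := psi0.codRestrict Γ fun x => Subgroup.subset_closure (Or.inl ⟨x, rfl⟩)

noncomputable def gm (f : ℕ → F) (hf : ∀ k, f k ∈ D k) (k : ℕ) : Γ :=
  ⟨gam f k, Subgroup.subset_closure (Or.inr ⟨f, k, hf, rfl⟩)⟩

lemma gm_rel (f : ℕ → F) (hf : ∀ k, f k ∈ D k) (k : ℕ) :
    gm f hf k = psi (f k) * ⁅gm f hf (k + 1), psi (g k)⁆ := Subtype.ext (gam_rel f hf k)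

lemma psi_mem {j k : ℕ} (h : j ≤ k) {x : F} (hx : x ∈ D k) : psi x ∈ derivedSeries Γ j :=
  map_derivedSeries_le_derivedSeries psi j ⟨x, derivedSeries_antitone F h hx, rfl⟩

lemma gm_mem (f : ℕ → F) (hf : ∀ k, f k ∈ D k) (j k : ℕ) (h : j ≤ k) :
    gm f hf k ∈ derivedSeries Γ j := by
  induction j generalizing k with
  | zero => trivial
  | succ j ih =>
    rw [gm_rel]
    refine mul_mem (psi_mem h (hf k)) ?_
    exact Subgroup.commutator_mem_commutator (ih _ (by omega)) (psi_mem (by omega) (g_mem k))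

lemma gm_mem' (f : ℕ → F) (hf : ∀ k, f k ∈ D k) (j n k : ℕ) (h : j ≤ k + n) :
    gm f hf k ∈ psi.range ⊔ derivedSeries Γ j := by
  induction n generalizing k with
  | zero => exact Subgroup.mem_sup_right (gm_mem f hf j k h)
  | succ n ih =>
    rw [gm_rel, commutatorElement_def]
    have h1 := ih (k + 1) (by omega)
    have h2 : ∀ x, psi x ∈ psi.range ⊔ derivedSeries Γ j :=
      fun x => Subgroup.mem_sup_left ⟨x, rfl⟩
    exact mul_mem (h2 _) (mul_mem (mul_mem (mul_mem h1 (h2 _)) (inv_mem h1)) (inv_mem (h2 _)))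

lemma surj (j : ℕ) (γ : Γ) : ∃ x : F, (psi x)⁻¹ * γ ∈ derivedSeries Γ j := by
  have : (⊤ : Subgroup Γ) ≤ psi.range ⊔ derivedSeries Γ j := by
    rw [← Subgroup.closure_closure_coe_preimage, Subgroup.closure_le]
    rintro ⟨x, hx⟩ (⟨y, rfl⟩ | ⟨f, k, hf, rfl⟩)
    · exact Subgroup.mem_sup_left ⟨y, rfl⟩
    · exact gm_mem' f hf j j k (by omega)
  have h := this (Subgroup.mem_top γ)
  rw [← SetLike.mem_coe, Subgroup.mul_normal] at h
  obtain ⟨_, ⟨x, rfl⟩, d, hd, rfl⟩ := h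
  exact ⟨x, by simpa using hd⟩

def proj (j : ℕ) : Γ →* F ⧸ D j := (Pi.evalMonoidHom (fun j => F ⧸ D j) j).comp Γ.subtype

lemma ds_bot (j : ℕ) : derivedSeries (F ⧸ D j) j = ⊥ := by
  rw [← map_derivedSeries_eq (QuotientGroup.mk'_surjective (D j)), Subgroup.map_eq_bot_iff,
    QuotientGroup.ker_mk']

lemma comap_eq (j : ℕ) : (derivedSeries Γ j).comap psi = D j := by
  refine le_antisymm (fun x hx => ?_) (fun x hx => psi_mem le_rfl hx)
  have := map_derivedSeries_le_derivedSeries (proj j) j ⟨_, hx, rfl⟩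
  rw [ds_bot, Subgroup.mem_bot] at this
  exact q_one.1 this

lemma step (e : ℕ → P) (i : ℕ) (s : (F → F) × ℕ) : ∃ (f : F) (m : ℕ),
    Set.InjOn s.1 (D i) → i ≤ s.2 →
      f ∈ D s.2 ∧ s.2 ≤ m ∧ i + 1 ≤ m ∧ q m (s.1 f) ≠ e i m := by
  by_cases h : Set.InjOn s.1 (D i) ∧ i ≤ s.2
  · obtain ⟨h1, h2⟩ := h
    have hne : (s.1 1)⁻¹ * s.1 (g s.2) ≠ 1 := by
      intro h
      exact g_ne _ (h1 (one_mem _) (derivedSeries_antitone F h2 (g_mem _)) (inv_mul_eq_one.1 h)).symm
    obtain ⟨m, hm⟩ : ∃ m, (s.1 1)⁻¹ * s.1 (g s.2) ∉ D m := by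
      by_contra hh
      push Not at hh
      exact hne (res_solv _ hh)
    have hm' : q (m + s.2 + 1) (s.1 1) ≠ q (m + s.2 + 1) (s.1 (g s.2)) := by
      intro hh
      apply hm
      refine derivedSeries_antitone F (show m ≤ m + s.2 + 1 by omega) (q_one.1 ?_)
      rw [map_mul, map_inv, hh, inv_mul_cancel]
    by_cases h3 : q (m + s.2 + 1) (s.1 1) = e i (m + s.2 + 1)
    · exact ⟨g s.2, m + s.2 + 1, fun _ _ => ⟨g_mem _, by omega, by omega, by rw [← h3]; exact hm'.symm⟩⟩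
    · exact ⟨1, m + s.2 + 1, fun _ _ => ⟨one_mem _, by omega, by omega, h3⟩⟩
  · exact ⟨1, 0, fun h1 h2 => (h ⟨h1, h2⟩).elim⟩

lemma diag (e : ℕ → P) : ∃ f : ℕ → F, (∀ k, f k ∈ D k) ∧ ∀ i, gam f 0 ≠ e i := by
  choose fs ms hs using step e
  let st : ℕ → (F → F) × ℕ := fun i => Nat.rec (id, 0)
    (fun i s => (fun y => s.1 (fs i s * ⁅y, g i⁆), ms i s)) i
  let f : ℕ → F := fun i => fs i (st i)
  have st1 : ∀ i y, (st (i + 1)).1 y = (st i).1 (f i * ⁅y, g i⁆) := fun _ _ => rfl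
  have st2 : ∀ i, (st (i + 1)).2 = ms i (st i) := fun _ => rfl
  have inv : ∀ i, Set.InjOn (st i).1 (D i) ∧ i ≤ (st i).2 := by
    intro i
    induction i with
    | zero => exact ⟨Set.injOn_id _, le_rfl⟩
    | succ i ih =>
      obtain ⟨h1, h2, h3, _⟩ := hs i (st i) ih.1 ih.2
      refine ⟨fun y hy y' hy' h => ?_, h3⟩
      rw [st1, st1] at h
      have hf : f i ∈ D i := derivedSeries_antitone F ih.2 h1
      have hl : D (i + 1) ≤ D i := derivedSeries_antitone F (Nat.le_succ i)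
      have := ih.1 (mul_mem hf (comm_mem (hl hy) _)) (mul_mem hf (comm_mem (hl hy') _)) h
      exact g_inj i y hy y' hy' (mul_left_cancel this)
  have hh := fun i => hs i (st i) (inv i).1 (inv i).2
  have mono : Monotone fun i => (st i).2 := monotone_nat_of_le_succ fun i => (hh i).2.1
  have cg : ∀ i m y y', q m y = q m y' → q m ((st i).1 y) = q m ((st i).1 y') := by
    intro i
    induction i with
    | zero => exact fun _ _ _ h => h
    | succ i ih =>
      intro m y y' h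
      rw [st1, st1]
      apply ih
      rw [map_mul, map_mul, map_commutatorElement, map_commutatorElement, h]
  have evs : ∀ i n, (st i).1 (ev f i n) = ev f 0 (i + n) := by
    intro i
    induction i with
    | zero => intro n; rw [zero_add]; rfl
    | succ i ih => intro n; rw [st1, ← ev, ih]; congr 1; omega
  refine ⟨f, fun k => derivedSeries_antitone F (inv k).2 (hh k).1, fun i h => ?_⟩
  obtain ⟨_, _, h3, h4⟩ := hh i
  apply h4
  rw [← h]
  obtain ⟨n, hn⟩ : ∃ n, ms i (st i) = i + (n + 1) := ⟨ms i (st i) - (i + 1), by omega⟩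
  have : ev f 0 (ms i (st i)) = (st i).1 (ev f i (n + 1)) := by rw [evs, hn]
  rw [gam, this]
  apply cg
  have : ev f (i + 1) n ∈ D (ms i (st i)) := ev_mem f _ _ _ fun k hk =>
    derivedSeries_antitone F (mono hk) (hh k).1
  rw [ev, map_mul, q_one.2 (comm_mem this _), mul_one]

lemma not_free : ¬ IsFreeGroup Γ := by
  classical
  intro h
  let θ : Γ →* Multiplicative (IsFreeGroup.Generators Γ → ℤ) :=
    IsFreeGroup.lift fun a => Multiplicative.ofAdd (Pi.single a 1)
  have h1 : ∀ a, ∃ x : F, θ (psi x) = Multiplicative.ofAdd (Pi.single a 1) := by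
    intro a
    obtain ⟨x, hx⟩ := surj 1 (IsFreeGroup.of a)
    have := Abelianization.commutator_subset_ker θ hx
    rw [MonoidHom.mem_ker, map_mul, map_inv, inv_mul_eq_one] at this
    exact ⟨x, by rw [this]; simp [θ]⟩
  choose c hc using h1
  have : Countable (IsFreeGroup.Generators Γ) := by
    refine Function.Injective.countable (f := c) fun a b hab => ?_
    have := hc a
    rw [hab, hc b] at this
    by_contra hne
    have := congrFun (Multiplicative.ofAdd.injective this) a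
    simp [Pi.single_eq_of_ne hne] at this
  have : Countable Γ := (IsFreeGroup.mulEquiv Γ).surjective.countable
  obtain ⟨e, he⟩ := exists_surjective_nat Γ
  obtain ⟨f, hf, hd⟩ := diag fun i => e i
  obtain ⟨i, hi⟩ := he (gm f hf 0)
  exact hd i (by rw [hi]; rfl)

theorem main : ∃ (n : ℕ) (Γ : Type) (_ : Group Γ) (ψ : FreeGroup (Fin n) →* Γ),
      (∀ g : Γ, g ≠ 1 →
        ∃ (S : Type) (_ : Group S) (_ : Group.IsSolvable S) (f : Γ →* S), f g ≠ 1) ∧
      ¬ IsFreeGroup Γ ∧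
      ∀ j : ℕ, 1 ≤ j →
        (derivedSeries Γ j).comap ψ = derivedSeries (FreeGroup (Fin n)) j ∧
        ∀ γ : Γ, ∃ x : FreeGroup (Fin n), (ψ x)⁻¹ * γ ∈ derivedSeries Γ j := by
  refine ⟨2, Γ, inferInstance, psi, fun x hx => ?_, not_free, fun j _ => ⟨comap_eq j, surj j⟩⟩
  obtain ⟨j, hj⟩ : ∃ j, proj j x ≠ 1 := by
    by_contra h
    push Not at h
    exact hx (Subtype.ext (funext h))
  exact ⟨_, inferInstance, ⟨⟨j, ds_bot j⟩⟩, proj j, hj⟩

end Pool.Agent.H65.ParaSol
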