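import Mathlib

set_option autoImplicit false

namespace Pool.Agent.H65.PartPos
open FreeGroup hiding map_mul map_one map_inv IsReduced
open scoped commutatorElement

variable {r : ℕ}

/-- total exponent sum -/
def chi : FreeGroup (Fin r) →* Multiplicative ℤ := FreeGroup.lift fun _ => Multiplicative.ofAdd 1

def affine {R : Type} [CommRing R] (t : Rˣ) (c : R) : Equiv.Perm R where
  toFun y := t * y + c
  invFun y := (t⁻¹ : Rˣ) * (y - c)
  left_inv y := by simp
  right_inv y := by simp

def theta {R : Type} [CommRing R] (t : Rˣ) : FreeGroup (Fin r) →* Equiv.Perm R :=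
  FreeGroup.lift fun i => affine t ((i : ℕ) : R)

lemma theta_aff {R : Type} [CommRing R] (t : Rˣ) (g : FreeGroup (Fin r)) (y : R) :
    theta t g y = ((t ^ (Multiplicative.toAdd (chi g)) : Rˣ) : R) * y + theta t g 0 := by
  induction g using FreeGroup.induction_on generalizing y with
  | C1 => simp
  | of x => simp [theta, chi, affine]
  | inv_of x _ =>
    simp only [theta, chi, map_inv, lift_apply_of]
    simp [affine, Equiv.Perm.inv_def]
    ring
  | mul x z hx hz =>
    simp only [map_mul, Equiv.Perm.mul_apply, toAdd_mul, zpow_add, Units.val_mul]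
    rw [hx, hz y, hx (theta t z 0)]
    ring

lemma theta_comm {R : Type} [CommRing R] (t : Rˣ) (p q : FreeGroup (Fin r)) (hp : chi p = 1)
    (hq : chi q = 1) : theta t ⁅p, q⁆ = 1 := by
  rw [map_commutatorElement, commutatorElement_eq_one_iff_mul_comm]
  ext y
  simp only [Equiv.Perm.mul_apply]
  rw [theta_aff t p, theta_aff t q y, theta_aff t q (theta t p y), theta_aff t p y, hp, hq]
  simp
  ring

lemma chi_list (l : List (Fin r)) :
    Multiplicative.toAdd (chi (l.map of).prod) = l.length := by
  induction l with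
  | nil => simp
  | cons x l ih => simp [ih, chi] at *; ring

lemma theta_list {R : Type} [CommRing R] (t : Rˣ) (ht : (t : R) = (r : R)) (l : List (Fin r)) :
    theta t (l.map of).prod 0 = ((Nat.ofDigits r (l.map Fin.val) : ℕ) : R) := by
  induction l with
  | nil => simp
  | cons x l ih =>
    simp only [List.map_cons, List.prod_cons, map_mul, Equiv.Perm.mul_apply, ih,
      Nat.ofDigits_cons]
    have : theta t (of x) = affine t ((x : ℕ) : R) := by simp [theta]
    rw [this]
    simp [affine, ht]
    ring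

lemma pos_list (g : FreeGroup (Fin r)) (hg : g ∈ Submonoid.closure (Set.range of)) :
    ∃ l : List (Fin r), g = (l.map of).prod := by
  induction hg using Submonoid.closure_induction with
  | mem x hx => obtain ⟨i, rfl⟩ := hx; exact ⟨[i], by simp⟩
  | one => exact ⟨[], by simp⟩
  | mul x y _ _ hx hy =>
    obtain ⟨l, rfl⟩ := hx
    obtain ⟨m, rfl⟩ := hy
    exact ⟨l ++ m, by simp⟩

/-- A positive element of the form `a * a * ⁅p, q⁆` with `p, q` of exponent sum zero
is a square. -/
lemma square_of_pos (hr : 1 < r) (a p q : FreeGroup (Fin r)) (hp : chi p = 1) (hq : chi q = 1)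
    (hg : a * a * ⁅p, q⁆ ∈ Submonoid.closure (Set.range of)) :
    ∃ z : FreeGroup (Fin r), a * a * ⁅p, q⁆ = z * z := by
  obtain ⟨l, hl⟩ := pos_list _ hg
  have h1 := chi_list l
  rw [← hl] at h1
  simp only [map_mul, map_commutatorElement, hp, hq, commutatorElement_one_left, mul_one,
    toAdd_mul] at h1
  obtain ⟨m, hm⟩ : ∃ m : ℕ, Multiplicative.toAdd (chi a) = m :=
    ⟨(Multiplicative.toAdd (chi a)).toNat, by omega⟩
  have hlen : l.length = m + m := by omega
  rcases Nat.eq_zero_or_pos m with h0 | hpos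
  · subst h0
    have : l = [] := List.eq_nil_of_length_eq_zero (by simpa using hlen)
    exact ⟨1, by rw [hl, this]; simp⟩
  have hcop : Nat.Coprime r (r ^ m + 1) := by
    obtain ⟨k, rfl⟩ : ∃ k, m = k + 1 := ⟨m - 1, by omega⟩
    rw [pow_succ, Nat.coprime_mul_right_add_right]
    simp
  let t : (ZMod (r ^ m + 1))ˣ := ZMod.unitOfCoprime r hcop
  have ht : (t : ZMod (r ^ m + 1)) = (r : ZMod (r ^ m + 1)) := rfl
  have htm : (r : ZMod (r ^ m + 1)) ^ m = -1 := by
    have : ((r ^ m + 1 : ℕ) : ZMod (r ^ m + 1)) = 0 := ZMod.natCast_self _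
    push_cast at this
    linear_combination this
  have h2 := theta_list t ht l
  rw [← hl, map_mul, theta_comm t p q hp hq, mul_one, map_mul, Equiv.Perm.mul_apply,
    theta_aff t a, hm, zpow_natCast, Units.val_pow_eq_pow_val, ht, htm] at h2
  have h3 : ((Nat.ofDigits r (l.map Fin.val) : ℕ) : ZMod (r ^ m + 1)) = 0 := by
    rw [← h2]; ring
  have hsplit : l = l.take m ++ l.drop m := (List.take_append_drop m l).symm
  have hl1 : (l.take m).length = m := by simp; omega
  have hl2 : (l.drop m).length = m := by simp; omega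
  generalize l.take m = l1 at *
  generalize l.drop m = l2 at *
  rw [hsplit, List.map_append, Nat.ofDigits_append, List.length_map, hl1] at h3
  rw [Nat.cast_add, Nat.cast_mul, Nat.cast_pow, htm] at h3
  have h4 : ((Nat.ofDigits r (l1.map Fin.val) : ℕ) : ZMod (r ^ m + 1)) =
      ((Nat.ofDigits r (l2.map Fin.val) : ℕ) : ZMod (r ^ m + 1)) := by
    linear_combination h3
  have d1 : ∀ x ∈ l1.map Fin.val, x < r := by
    intro x hx; obtain ⟨y, _, rfl⟩ := List.mem_map.1 hx; exact y.2
  have d2 : ∀ x ∈ l2.map Fin.val, x < r := by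
    intro x hx; obtain ⟨y, _, rfl⟩ := List.mem_map.1 hx; exact y.2
  have b1 := Nat.ofDigits_lt_base_pow_length hr d1
  have b2 := Nat.ofDigits_lt_base_pow_length hr d2
  rw [List.length_map, hl1] at b1
  rw [List.length_map, hl2] at b2
  rw [ZMod.natCast_eq_natCast_iff'] at h4
  rw [Nat.mod_eq_of_lt (by omega), Nat.mod_eq_of_lt (by omega)] at h4
  have h5 := Nat.ofDigits_inj_of_len_eq hr (by simp [hl1, hl2]) d1 d2 h4
  have h6 : l1 = l2 := List.map_injective_iff.2 Fin.val_injective h5
  refine ⟨(l1.map of).prod, ?_⟩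
  rw [hl, hsplit, h6]; simp

def pb : Equiv.Perm (Fin 5) := ⟨![0,1,3,4,2], ![0,1,4,2,3], by decide, by decide⟩
def pc : Equiv.Perm (Fin 5) := ⟨![1,2,0,3,4], ![2,0,1,3,4], by decide, by decide⟩

lemma nonsq : ∀ g : Equiv.Perm (Fin 5), Equiv.Perm.sign g = 1 →
    g * g ≠ ⁅⁅pb, pc⁆, pb * ⁅pb, pc⁆ * pb⁻¹⁆ := by
  decide +kernel

theorem main (hr : 3 ≤ r) : ∃ w : FreeGroup (Fin r),
    (∃ a : Fin r, (a, true) ∈ w.toWord ∧ (a, false) ∉ w.toWord) ∧
    ∀ φ : MulAut (FreeGroup (Fin r)), φ w ∉ Submonoid.closure (Set.range of) := by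
  let a : Fin r := ⟨0, by omega⟩
  let b : Fin r := ⟨1, by omega⟩
  let c : Fin r := ⟨2, by omega⟩
  have hab : a ≠ b := by simp [a, b]
  have hac : a ≠ c := by simp [a, c]
  have hbc : b ≠ c := by simp [b, c]
  let p : FreeGroup (Fin r) := ⁅(of b : FreeGroup (Fin r)), of c⁆
  let q : FreeGroup (Fin r) := of b * p * (of b)⁻¹
  let L : List (Fin r × Bool) := [(a,true),(a,true),(b,true),(c,true),(b,false),(c,false),
    (b,true),(b,true),(c,true),(b,false),(c,false),(b,false),(c,true),(b,true),(b,true),
    (c,false),(b,false),(b,false)]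
  have hL : FreeGroup.IsReduced L := by
    simp [L, FreeGroup.IsReduced, List.isChain_cons_cons, hab, hbc, hbc.symm]
  have hw : mk L = of a * of a * ⁅p, q⁆ := by
    have : mk L = of a * of a * of b * of c * (of b)⁻¹ * (of c)⁻¹ * of b * of b * of c *
      (of b)⁻¹ * (of c)⁻¹ * (of b)⁻¹ * of c * of b * of b * (of c)⁻¹ * (of b)⁻¹ * (of b)⁻¹ := rfl
    rw [this]
    simp only [p, q, commutatorElement_def]
    group
  refine ⟨mk L, ⟨a, ?_, ?_⟩, ?_⟩
  · rw [toWord_mk, hL.reduce_eq]; simp [L]
  · rw [toWord_mk, hL.reduce_eq]; simp [L, hab, hac]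
  · intro φ hφ
    rw [hw, map_mul, map_mul, map_commutatorElement] at hφ
    have hp : chi (φ p) = 1 := by
      simp only [p, map_commutatorElement, commutatorElement_eq_one_iff_mul_comm]
      exact mul_comm _ _
    have hq : chi (φ q) = 1 := by
      simp only [q, map_mul, hp, map_inv]; simp
    obtain ⟨z, hz⟩ := square_of_pos (by omega) _ _ _ hp hq hφ
    have h1 : of a * of a * ⁅p, q⁆ = φ.symm z * φ.symm z := by
      apply φ.injective
      rw [map_mul, map_mul, map_commutatorElement, hz]; simp
    let ψ : FreeGroup (Fin r) →* Equiv.Perm (Fin 5) :=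
      FreeGroup.lift fun x => if x = b then pb else if x = c then pc else 1
    have hs : ∀ g, Equiv.Perm.sign (ψ g) = 1 := by
      intro g
      have : Equiv.Perm.sign.comp ψ = 1 := by
        ext x
        simp only [ψ, MonoidHom.comp_apply, lift_apply_of]
        split_ifs
        · simp; decide
        · simp; decide
        · simp
      exact DFunLike.congr_fun this g
    have h2 := congrArg ψ h1
    simp only [p, q, map_mul, map_commutatorElement, map_inv, ψ, lift_apply_of] at h2
    simp only [hab, hac, hbc.symm, if_true, if_false, one_mul] at h2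
    exact nonsq _ (hs _) h2.symm

end Pool.Agent.H65.PartPos
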