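import Mathlib

set_option autoImplicit false

namespace Pool.Agent.H65.Peb

open Multiset

variable {V : Type} [DecidableEq V]

/-- reachability of pebble configurations -/
def R (p : V → ℕ) (c c' : Multiset (Finset V)) : Prop :=
  ∀ Good : Multiset (Finset V) → Prop, (∀ σ r, Good (σ ::ₘ r) → Good r) →
    (∀ σ v r, v ∈ σ → Good (replicate (p v) σ + r) → Good (σ.erase v ::ₘ r)) →
    ∀ r, Good (c + r) → Good (c' + r)

variable {p : V → ℕ}

theorem R.refl (c : Multiset (Finset V)) : R p c c := fun _ _ _ _ h => h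

theorem R.trans {a b c : Multiset (Finset V)} (h1 : R p a b) (h2 : R p b c) : R p a c :=
  fun G g1 g2 r h => h2 G g1 g2 r (h1 G g1 g2 r h)

theorem R.add {a b c d : Multiset (Finset V)} (h1 : R p a b) (h2 : R p c d) :
    R p (a + c) (b + d) := fun G g1 g2 r h => by
  have h3 := h1 G g1 g2 (c + r) (by rwa [← add_assoc])
  have h4 := h2 G g1 g2 (b + r) (by rwa [add_left_comm])
  rwa [add_left_comm, ← add_assoc] at h4

theorem R.drop (a : Multiset (Finset V)) : R p a 0 := fun G g1 _ r h => by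
  induction a using Multiset.induction_on with
  | empty => exact h
  | cons x s ih => exact ih (g1 x _ (by rwa [cons_add] at h))

theorem R.of_le {a b : Multiset (Finset V)} (h : b ≤ a) : R p a b := by
  obtain ⟨d, rfl⟩ := Multiset.le_iff_exists_add.1 h
  simpa using (R.refl b).add (R.drop (p := p) d)

theorem R.move {σ : Finset V} {v : V} (hv : v ∈ σ) : R p (replicate (p v) σ) {σ.erase v} :=
  fun G _ g2 r h => by simpa using g2 σ v r hv h

theorem R.moves {σ : Finset V} {v : V} (hv : v ∈ σ) (k : ℕ) :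
    R p (replicate (k * p v) σ) (replicate k (σ.erase v)) := by
  induction k with
  | zero => simpa using R.refl 0
  | succ k ih =>
    rw [Nat.succ_mul, replicate_add, replicate_add]
    exact ih.add (R.move hv)

/-- rooted complex -/
structure Cx (ρ : Finset V) (Δ : Finset (Finset V)) : Prop where
  root : ρ ∈ Δ
  sup : ∀ σ ∈ Δ, ρ ⊆ σ
  down : ∀ σ ∈ Δ, ∀ v ∈ σ, v ∉ ρ → σ.erase v ∈ Δ

def W (p : V → ℕ) (ρ : Finset V) (Δ : Finset (Finset V)) : ℕ :=
  ∑ σ ∈ Δ, ∏ v ∈ σ \ ρ, (p v - 1)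

def q (m : ℕ) (Δ : Finset (Finset V)) (c : Multiset (Finset V)) : ℕ :=
  (Δ.filter fun σ => ¬ m ∣ count σ c).card

def On (Δ : Finset (Finset V)) (c : Multiset (Finset V)) : Prop := ∀ σ ∈ c, σ ∈ Δ

theorem q_le_card (m : ℕ) (Δ : Finset (Finset V)) (c : Multiset (Finset V)) :
    q m Δ c ≤ Δ.card := Finset.card_filter_le _ _

theorem q_le_q0 (m : ℕ) (Δ : Finset (Finset V)) (c : Multiset (Finset V)) :
    q m Δ c ≤ q 0 Δ c := by
  refine Finset.card_le_card fun σ hσ => ?_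
  simp only [Finset.mem_filter] at hσ ⊢
  refine ⟨hσ.1, fun h => hσ.2 ?_⟩
  rw [zero_dvd_iff.1 h]; exact dvd_zero _

theorem card_eq_sum {Δ : Finset (Finset V)} {c : Multiset (Finset V)} (h : On Δ c) :
    card c = ∑ σ ∈ Δ, count σ c := by
  rw [← toFinset_sum_count_eq]
  refine Finset.sum_subset (fun σ hσ => h σ (mem_toFinset.1 hσ)) fun σ _ hσ => ?_
  exact count_eq_zero.2 fun h' => hσ (mem_toFinset.2 h')

theorem q0_eq {Δ : Finset (Finset V)} {c : Multiset (Finset V)} (h : On Δ c) :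
    q 0 Δ c = card c.dedup := by
  rw [← card_toFinset]
  unfold q
  congr 1
  ext σ
  simp only [Finset.mem_filter, zero_dvd_iff, count_eq_zero, not_not, mem_toFinset]
  exact ⟨fun h' => h'.2, fun h' => ⟨h σ h', h'⟩⟩

theorem q_le_cardc (m : ℕ) {Δ : Finset (Finset V)} {c : Multiset (Finset V)} (h : On Δ c) :
    q m Δ c ≤ card c :=
  (q_le_q0 m Δ c).trans ((q0_eq h).le.trans (card_le_card (dedup_le c)))

theorem card_le_W (hp : ∀ v, 2 ≤ p v) (ρ : Finset V) (Δ : Finset (Finset V)) :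
    Δ.card ≤ W p ρ Δ := by
  rw [Finset.card_eq_sum_ones]
  refine Finset.sum_le_sum fun σ _ => Finset.one_le_prod' fun v _ => ?_
  have := hp v; omega

theorem two_card_le_W (hp : ∀ v, 2 ≤ p v) {ρ : Finset V} {Δ : Finset (Finset V)} (h : Cx ρ Δ)
    (h3 : ∀ σ ∈ Δ, ∀ v ∈ σ, v ∉ ρ → 3 ≤ p v) : 2 * Δ.card ≤ W p ρ Δ + 1 := by
  unfold W
  rw [← Finset.add_sum_erase _ _ h.root, ← Finset.card_erase_add_one h.root]
  have : ∑ _σ ∈ Δ.erase ρ, 2 ≤ ∑ σ ∈ Δ.erase ρ, ∏ v ∈ σ \ ρ, (p v - 1) := by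
    refine Finset.sum_le_sum fun σ hσ => ?_
    obtain ⟨hne, hσ⟩ := Finset.mem_erase.1 hσ
    have : ¬ σ ⊆ ρ := fun h' => hne (Finset.Subset.antisymm h' (h.sup σ hσ))
    obtain ⟨v, hv, hv'⟩ := Finset.not_subset.1 this
    have hm : v ∈ σ \ ρ := Finset.mem_sdiff.2 ⟨hv, hv'⟩
    rw [← Finset.mul_prod_erase _ _ hm]
    have h1 : 1 ≤ ∏ u ∈ (σ \ ρ).erase v, (p u - 1) :=
      Finset.one_le_prod' fun u _ => by have := hp u; omega
    have h2 := h3 σ hσ v hv hv'
    calc 2 = 2 * 1 := rfl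
      _ ≤ _ := Nat.mul_le_mul (by omega) h1
  simp only [Finset.sum_const, smul_eq_mul, Finset.sdiff_self, Finset.prod_empty] at this ⊢
  omega

section split
variable {ρ : Finset V} {Δ : Finset (Finset V)} {v : V}

theorem Cx.del (h : Cx ρ Δ) (hv : v ∉ ρ) : Cx ρ (Δ.filter fun σ => v ∉ σ) where
  root := Finset.mem_filter.2 ⟨h.root, hv⟩
  sup σ hσ := h.sup σ (Finset.mem_filter.1 hσ).1
  down σ hσ u hu hu' := Finset.mem_filter.2 ⟨h.down σ (Finset.mem_filter.1 hσ).1 u hu hu',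
    fun h' => (Finset.mem_filter.1 hσ).2 (Finset.mem_of_mem_erase h')⟩

theorem Cx.sub (h : Cx ρ Δ) : ∀ n (σ τ : Finset V), σ ∈ Δ → ρ ⊆ τ → τ ⊆ σ →
    σ.card ≤ τ.card + n → τ ∈ Δ := by
  intro n
  induction n with
  | zero =>
    intro σ τ hσ _ h2 h3
    rwa [Finset.eq_of_subset_of_card_le h2 h3]
  | succ n ih =>
    intro σ τ hσ h1 h2 h3
    by_cases he : σ ⊆ τ
    · rwa [Finset.Subset.antisymm h2 he]
    obtain ⟨u, hu, hu'⟩ := Finset.not_subset.1 he
    refine ih (σ.erase u) τ (h.down σ hσ u hu fun h' => hu' (h1 h')) h1 ?_ ?_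
    · exact fun x hx => Finset.mem_erase.2 ⟨fun h' => hu' (h' ▸ hx), h2 hx⟩
    · have := Finset.card_erase_add_one hu; omega

theorem Cx.link (h : Cx ρ Δ) {σ : Finset V} (hσ : σ ∈ Δ) (hv : v ∈ σ) :
    Cx (insert v ρ) (Δ.filter fun σ => v ∈ σ) where
  root := Finset.mem_filter.2 ⟨h.sub σ.card σ _ hσ (Finset.subset_insert _ _)
    (Finset.insert_subset hv (h.sup σ hσ)) (by omega), Finset.mem_insert_self _ _⟩
  sup τ hτ := Finset.insert_subset (Finset.mem_filter.1 hτ).2 (h.sup τ (Finset.mem_filter.1 hτ).1)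
  down τ hτ u hu hu' := by
    rw [Finset.mem_insert, not_or] at hu'
    exact Finset.mem_filter.2 ⟨h.down τ (Finset.mem_filter.1 hτ).1 u hu hu'.2,
      Finset.mem_erase.2 ⟨fun h' => hu'.1 h'.symm, (Finset.mem_filter.1 hτ).2⟩⟩

theorem W_split (hv : v ∉ ρ) : W p ρ Δ = W p ρ (Δ.filter fun σ => v ∉ σ) +
    (p v - 1) * W p (insert v ρ) (Δ.filter fun σ => v ∈ σ) := by
  unfold W
  rw [← Finset.sum_filter_add_sum_filter_not Δ (fun σ => v ∉ σ), Finset.mul_sum]
  simp only [not_not]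
  congr 1
  refine Finset.sum_congr rfl fun σ hσ => ?_
  have hm : v ∈ σ \ ρ := Finset.mem_sdiff.2 ⟨(Finset.mem_filter.1 hσ).2, hv⟩
  rw [← Finset.mul_prod_erase _ _ hm, Finset.sdiff_insert]

theorem q_split (m : ℕ) (c : Multiset (Finset V)) : q m Δ c =
    q m (Δ.filter fun σ => v ∉ σ) (c.filter fun σ => v ∉ σ) +
    q m (Δ.filter fun σ => v ∈ σ) (c.filter fun σ => v ∈ σ) := by
  unfold q
  rw [← Finset.card_union_of_disjoint]
  · congr 1
    ext σ
    simp only [Finset.mem_filter, Finset.mem_union, count_filter]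
    by_cases h : v ∈ σ <;> simp [h]
  · rw [Finset.disjoint_left]
    intro σ h1 h2
    simp only [Finset.mem_filter] at h1 h2
    exact h1.1.2 h2.1.2

theorem c_split (v : V) (c : Multiset (Finset V)) :
    c = (c.filter fun σ => v ∉ σ) + (c.filter fun σ => v ∈ σ) := by
  conv_lhs => rw [← filter_add_not (fun σ => v ∉ σ) c]
  simp only [not_not]

theorem On.filter {c : Multiset (Finset V)} (h : On Δ c) (P : Finset V → Prop) [DecidablePred P] :
    On (Δ.filter P) (c.filter P) := fun σ hσ =>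
  Finset.mem_filter.2 ⟨h σ (mem_filter.1 hσ).1, (mem_filter.1 hσ).2⟩

theorem On.add {a b : Multiset (Finset V)} (h1 : On Δ a) (h2 : On Δ b) : On Δ (a + b) :=
  fun σ hσ => (mem_add.1 hσ).elim (h1 σ) (h2 σ)

theorem On.of_le {a b : Multiset (Finset V)} (h1 : On Δ a) (h2 : b ≤ a) : On Δ b :=
  fun σ hσ => h1 σ (mem_of_le h2 hσ)

/-- moving `j` batches down along `v` -/
theorem batches (h : Cx ρ Δ) (hv : v ∉ ρ) (h0 : 0 < p v) : ∀ (j : ℕ) (c : Multiset (Finset V)),
    On (Δ.filter fun σ => v ∈ σ) c →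
    p v * j + (p v - 1) * q (p v) (Δ.filter fun σ => v ∈ σ) c ≤ card c →
    ∃ e c', On (Δ.filter fun σ => v ∉ σ) e ∧ card e = j ∧ c' ≤ c ∧ card c' + p v * j = card c ∧
      q (p v) (Δ.filter fun σ => v ∈ σ) c' = q (p v) (Δ.filter fun σ => v ∈ σ) c ∧
      R p c (e + c') := by
  intro j
  induction j with
  | zero =>
    intro c _ _
    exact ⟨0, c, fun _ h => by simp at h, rfl, le_rfl, by simp, rfl, by simpa using R.refl c⟩
  | succ j ih =>
    intro c hc hj
    obtain ⟨e, c', he, hej, hle, hcard, hq, hR⟩ := ih c hc (by rw [Nat.mul_succ] at hj; omega)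
    have hc' := hc.of_le hle
    have hex : ∃ σ ∈ Δ.filter fun σ => v ∈ σ, p v ≤ count σ c' := by
      by_contra hn
      push Not at hn
      have h1 : card c' ≤ (p v - 1) * q (p v) (Δ.filter fun σ => v ∈ σ) c' := by
        rw [card_eq_sum hc']
        unfold q
        rw [mul_comm, ← smul_eq_mul, ← Finset.sum_const, Finset.sum_filter (fun σ => ¬ p v ∣ count σ c')]
        refine Finset.sum_le_sum fun σ hσ => ?_
        have := hn σ hσ
        split_ifs with hd
        · exact (Nat.eq_zero_of_dvd_of_lt hd this).le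
        · omega
      rw [hq] at h1
      rw [Nat.mul_succ] at hj
      omega
    obtain ⟨σ, hσ, hσc⟩ := hex
    obtain ⟨d, hd⟩ := Multiset.le_iff_exists_add.1 (le_count_iff_replicate_le.1 hσc)
    obtain ⟨hσ1, hσ2⟩ := Finset.mem_filter.1 hσ
    refine ⟨σ.erase v ::ₘ e, d, ?_, by simp [hej], ?_, ?_, ?_, ?_⟩
    · intro τ hτ
      rcases mem_cons.1 hτ with rfl | hτ
      · exact Finset.mem_filter.2 ⟨h.down σ hσ1 v hσ2 hv, Finset.notMem_erase _ _⟩
      · exact he τ hτ
    · exact le_trans (by rw [hd]; exact le_add_left _ _) hle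
    · rw [hd] at hcard
      simp only [card_add, card_replicate] at hcard
      rw [Nat.mul_succ]; omega
    · rw [← hq, hd]
      unfold q
      congr 1
      refine Finset.filter_congr fun τ _ => ?_
      rw [count_add, count_replicate]
      split_ifs
      · rw [Nat.dvd_add_right (dvd_refl _)]
      · rw [zero_add]
    · refine hR.trans ?_
      rw [hd, ← singleton_add, add_comm {σ.erase v} e, add_assoc]
      exact (R.refl e).add ((R.move hσ2).add (R.refl d))

end split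

end Pool.Agent.H65.Peb
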