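import Pool.Agent.H65.Peb1

set_option autoImplicit false

namespace Pool.Agent.H65.Peb

open Multiset

variable {V : Type} [DecidableEq V] {p : V → ℕ}

def StA (p : V → ℕ) (ρ : Finset V) (Δ : Finset (Finset V)) : Prop :=
  ∀ c, On Δ c → W p ρ Δ ≤ card c → R p c {ρ}

def StB (p : V → ℕ) (m k : ℕ) (ρ : Finset V) (Δ : Finset (Finset V)) : Prop :=
  ∀ c, On Δ c → k * W p ρ Δ < card c + q m Δ c → R p c (replicate k ρ)

def Big (p : V → ℕ) (ρ : Finset V) (Δ : Finset (Finset V)) : Prop :=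
  ∀ σ ∈ Δ, ∀ v ∈ σ, v ∉ ρ → 3 ≤ p v

variable {ρ : Finset V} {Δ : Finset (Finset V)} {v : V}

theorem exists_le_card {α : Type} (c : Multiset α) {n : ℕ} (h : n ≤ card c) :
    ∃ e ≤ c, card e = n := by
  induction c using Quotient.inductionOn with
  | h l =>
    refine ⟨(l.take n : List α), coe_le.2 (List.take_sublist n l).subperm, ?_⟩
    simp only [quot_mk_to_coe, coe_card] at h
    simp [h]

theorem StB.succ (hp : ∀ v, 2 ≤ p v) (hA : StA p ρ Δ) {k : ℕ} (hk : 2 ≤ k)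
    (hB : StB p 0 k ρ Δ) : StB p 0 (k + 1) ρ Δ := by
  intro c hc hlt
  obtain ⟨d, hd⟩ := Multiset.le_iff_exists_add.1 (dedup_le c)
  have h1 : card c = q 0 Δ c + card d := by
    rw [q0_eq hc, ← card_add, ← hd]
  have h2 := (q_le_card 0 Δ c).trans (card_le_W hp ρ Δ)
  have h3 : W p ρ Δ ≤ card d := by nlinarith
  obtain ⟨e, he, hecard⟩ := exists_le_card d h3
  obtain ⟨f, rfl⟩ := Multiset.le_iff_exists_add.1 he
  have hf : c.dedup + f ≤ c := by
    conv_rhs => rw [hd]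
    exact add_le_add le_rfl (le_add_left _ _)
  have hq : q 0 Δ (c.dedup + f) = q 0 Δ c := by
    unfold q
    congr 1
    refine Finset.filter_congr fun τ _ => ?_
    simp only [zero_dvd_iff, count_eq_zero, not_not]
    exact ⟨fun h => mem_of_le hf h, fun h => mem_add.2 (Or.inl (mem_dedup.2 h))⟩
  have h4 := hB (c.dedup + f) (hc.of_le hf) (by
    rw [hq, card_add, ← q0_eq hc]
    rw [card_add] at h1
    nlinarith)
  have h5 := hA e (hc.of_le (by
    rw [hd]; exact le_trans (Multiset.le_add_right _ _) (Multiset.le_add_left _ _))) hecard.ge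
  have h6 : c = (c.dedup + f) + e := by
    conv_lhs => rw [hd]
    rw [add_assoc, add_comm f e]
  rw [h6, replicate_add]
  exact h4.add h5

theorem StB.ge (hp : ∀ v, 2 ≤ p v) (hA : StA p ρ Δ) (hB : StB p 0 2 ρ Δ) {k : ℕ} (hk : 2 ≤ k) :
    StB p 0 k ρ Δ := by
  induction k, hk using Nat.le_induction with
  | base => exact hB
  | succ k hk ih => exact ih.succ hp hA hk

theorem StB.of_zero {m k : ℕ} (hB : StB p 0 k ρ Δ) : StB p m k ρ Δ := fun c hc h =>
  hB c hc (h.trans_le (Nat.add_le_add_left (q_le_q0 m Δ c) _))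

theorem down_root (hv : v ∉ ρ) (k : ℕ) :
    R p (replicate (k * p v) (insert v ρ)) (replicate k ρ) := by
  have := R.moves (p := p) (Finset.mem_insert_self v ρ) k
  rwa [Finset.erase_insert hv] at this

theorem down_root1 (hv : v ∉ ρ) : R p (replicate (p v) (insert v ρ)) {ρ} := by
  simpa using down_root (p := p) hv 1

theorem stepA (hp : ∀ v, 2 ≤ p v) (h : Cx ρ Δ) (hv : v ∉ ρ)
    (h0 : StA p ρ (Δ.filter fun σ => v ∉ σ))
    (h1 : StB p (p v) (p v) (insert v ρ) (Δ.filter fun σ => v ∈ σ)) : StA p ρ Δ := by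
  intro c hc hW
  have hc0 := hc.filter fun σ => v ∉ σ
  have hc1 := hc.filter fun σ => v ∈ σ
  have hs := c_split v c
  rw [W_split hv] at hW
  generalize (c.filter fun σ => v ∉ σ) = c0 at hc0 hs
  generalize (c.filter fun σ => v ∈ σ) = c1 at hc1 hs
  subst hs
  rw [card_add] at hW
  have hpv := hp v
  by_cases ha : W p ρ (Δ.filter fun σ => v ∉ σ) ≤ card c0
  · simpa using (h0 c0 hc0 ha).add (R.drop c1)
  obtain ⟨d, hd⟩ : ∃ d, W p ρ (Δ.filter fun σ => v ∉ σ) = card c0 + d :=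
    ⟨_, (Nat.add_sub_cancel' (not_le.1 ha).le).symm⟩
  by_cases hb : p v * d + (p v - 1) * q (p v) (Δ.filter fun σ => v ∈ σ) c1 ≤ card c1
  · obtain ⟨e, c', he, hej, -, -, -, hR⟩ := batches h hv (by omega) d c1 hc1 hb
    have := (h0 (c0 + e) (hc0.add he) (by rw [card_add]; omega)).add (R.drop c')
    rw [add_zero, add_assoc] at this
    exact ((R.refl c0).add hR).trans this
  · have h2 := h1 c1 hc1 (by
      obtain ⟨t, ht⟩ : ∃ t, p v = t + 1 := ⟨p v - 1, by omega⟩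
      rw [ht] at hb hW ⊢
      simp only [Nat.add_sub_cancel] at hb hW
      rw [← ht] at hb ⊢
      rw [ht] at hpv
      by_contra hn
      push Not at hn hb
      rw [ht] at hn hb
      nlinarith)
    simpa using (R.drop c0).add (h2.trans (down_root1 hv))

theorem stepB (hp : ∀ v, 2 ≤ p v) (h : Cx ρ Δ) (hv : v ∉ ρ) (h2 : p v = 2)
    (h0 : StA p ρ (Δ.filter fun σ => v ∉ σ)) (h0' : StB p 2 2 ρ (Δ.filter fun σ => v ∉ σ))
    (h1 : StB p 2 2 (insert v ρ) (Δ.filter fun σ => v ∈ σ)) : StB p 2 2 ρ Δ := by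
  intro c hc hW
  have hc0 := hc.filter fun σ => v ∉ σ
  have hc1 := hc.filter fun σ => v ∈ σ
  have hs := c_split v c
  rw [W_split hv, q_split (v := v)] at hW
  generalize (c.filter fun σ => v ∉ σ) = c0 at hc0 hs hW
  generalize (c.filter fun σ => v ∈ σ) = c1 at hc1 hs hW
  subst hs
  rw [card_add, h2] at hW
  have hd1 : R p (replicate 2 (insert v ρ)) {ρ} := by rw [← h2]; exact down_root1 hv
  by_cases hb : 2 * W p ρ (Δ.filter fun σ => v ∉ σ) < card c0 + q 2 (Δ.filter fun σ => v ∉ σ) c0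
  · simpa using (h0' c0 hc0 hb).add (R.drop c1)
  by_cases ha : W p ρ (Δ.filter fun σ => v ∉ σ) ≤ card c0
  · exact (h0 c0 hc0 ha).add ((h1 c1 hc1 (by omega)).trans hd1)
  obtain ⟨d, hd⟩ : ∃ d, W p ρ (Δ.filter fun σ => v ∉ σ) = card c0 + d :=
    ⟨_, (Nat.add_sub_cancel' (not_le.1 ha).le).symm⟩
  have hq0 := q_le_cardc 2 hc0
  have hq1 := (q_le_card 2 _ c1).trans (card_le_W hp (insert v ρ) (Δ.filter fun σ => v ∈ σ))
  obtain ⟨e, c', he, hej, hle, hcard, hq, hR⟩ :=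
    batches (p := p) h hv (by omega) d c1 hc1 (by rw [h2]; omega)
  rw [h2] at hcard hq
  have := (h0 (c0 + e) (hc0.add he) (by rw [card_add]; omega)).add
    ((h1 c' (hc1.of_le hle) (by omega)).trans hd1)
  rw [add_assoc] at this
  exact ((R.refl c0).add hR).trans this

theorem stepS (hp : ∀ v, 2 ≤ p v) (h : Cx ρ Δ) (hv : v ∉ ρ) (h3 : 3 ≤ p v)
    (hN : 2 * (Δ.filter fun σ => v ∈ σ).card ≤ W p (insert v ρ) (Δ.filter fun σ => v ∈ σ) + 1)
    (hN' : 1 ≤ (Δ.filter fun σ => v ∈ σ).card)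
    (h0 : StA p ρ (Δ.filter fun σ => v ∉ σ)) (h0' : StB p 0 2 ρ (Δ.filter fun σ => v ∉ σ))
    (h1 : ∀ k, 2 ≤ k → StB p 0 k (insert v ρ) (Δ.filter fun σ => v ∈ σ)) : StB p 0 2 ρ Δ := by
  intro c hc hW
  have hc0 := hc.filter fun σ => v ∉ σ
  have hc1 := hc.filter fun σ => v ∈ σ
  have hs := c_split v c
  rw [W_split hv, q_split (v := v)] at hW
  generalize (c.filter fun σ => v ∉ σ) = c0 at hc0 hs hW
  generalize (c.filter fun σ => v ∈ σ) = c1 at hc1 hs hW
  subst hs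
  rw [card_add] at hW
  have hd1 : R p (replicate (p v) (insert v ρ)) {ρ} := down_root1 hv
  obtain ⟨t, ht⟩ : ∃ t, p v = t + 3 := ⟨p v - 3, by omega⟩
  have ht1 : p v - 1 = t + 2 := by omega
  rw [ht1] at hW
  generalize hw1 : W p (insert v ρ) (Δ.filter fun σ => v ∈ σ) = w1 at hW hN
  by_cases hb : 2 * W p ρ (Δ.filter fun σ => v ∉ σ) < card c0 + q 0 (Δ.filter fun σ => v ∉ σ) c0
  · simpa using (h0' c0 hc0 hb).add (R.drop c1)
  by_cases ha : W p ρ (Δ.filter fun σ => v ∉ σ) ≤ card c0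
  · exact (h0 c0 hc0 ha).add ((h1 (p v) (hp v) c1 hc1 (by rw [hw1, ht]; nlinarith)).trans hd1)
  obtain ⟨d, hd⟩ : ∃ d, W p ρ (Δ.filter fun σ => v ∉ σ) = card c0 + d :=
    ⟨_, (Nat.add_sub_cancel' (not_le.1 ha).le).symm⟩
  have hq0 := q_le_cardc 0 hc0
  by_cases hdw : w1 ≤ d
  · have := (h1 (2 * p v) (by omega) c1 hc1 (by rw [hw1, ht]; nlinarith)).trans (down_root hv 2)
    simpa using (R.drop c0).add this
  obtain ⟨c2, hc2⟩ := Multiset.le_iff_exists_add.1 (dedup_le c1)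
  have hcc : card c1 = q 0 (Δ.filter fun σ => v ∈ σ) c1 + card c2 := by
    rw [q0_eq hc1, ← card_add, ← hc2]
  have hq1 := q_le_card 0 (Δ.filter fun σ => v ∈ σ) c1
  have hq2 := q_le_card (p v) (Δ.filter fun σ => v ∈ σ) c2
  have hon2 : On (Δ.filter fun σ => v ∈ σ) c2 :=
    hc1.of_le (by rw [hc2]; exact Multiset.le_add_left _ _)
  obtain ⟨e, c', he, hej, hle, hcard, -, hR⟩ :=
    batches (p := p) h hv (by omega) d c2 hon2 (by
      rw [ht1]
      have := Nat.mul_le_mul_left (t + 2) hq2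
      rw [ht] at this ⊢
      nlinarith)
  have hf : c1.dedup + c' ≤ c1 := by
    conv_rhs => rw [hc2]
    exact add_le_add le_rfl hle
  have hq : q 0 (Δ.filter fun σ => v ∈ σ) (c1.dedup + c') = q 0 (Δ.filter fun σ => v ∈ σ) c1 := by
    unfold q
    congr 1
    refine Finset.filter_congr fun τ _ => ?_
    simp only [zero_dvd_iff, count_eq_zero, not_not]
    exact ⟨fun h => mem_of_le hf h, fun h => mem_add.2 (Or.inl (mem_dedup.2 h))⟩
  have := (h0 (c0 + e) (hc0.add he) (by rw [card_add]; omega)).add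
    ((h1 (p v) (hp v) _ (hc1.of_le hf) (by
      rw [hq, card_add, ← q0_eq hc1, hw1]
      rw [ht] at hcard ⊢
      nlinarith)).trans hd1)
  refine R.trans ?_ this
  have h7 : R p c1 (e + (c1.dedup + c')) := by
    conv => enter [2]; rw [hc2]
    rw [add_left_comm]
    exact (R.refl _).add hR
  rw [add_assoc]
  exact (R.refl c0).add h7

theorem main (hp : ∀ v, 2 ≤ p v) : ∀ (n : ℕ) (ρ : Finset V) (Δ : Finset (Finset V)),
    Δ.card ≤ n → Cx ρ Δ → StA p ρ Δ ∧ StB p 2 2 ρ Δ ∧ (Big p ρ Δ → StB p 0 2 ρ Δ) := by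
  intro n
  induction n with
  | zero => intro ρ Δ h1 h2; have := Finset.card_pos.2 ⟨ρ, h2.root⟩; omega
  | succ n ih =>
    intro ρ Δ hn h
    by_cases hex : ∃ σ ∈ Δ, ∃ v ∈ σ, v ∉ ρ
    swap
    · push Not at hex
      have hΔ : Δ = {ρ} := Finset.eq_singleton_iff_unique_mem.2
        ⟨h.root, fun σ hσ => Finset.Subset.antisymm (hex σ hσ) (h.sup σ hσ)⟩
      subst hΔ
      have hW : W p ρ {ρ} = 1 := by simp [W]
      have hc : ∀ c, On {ρ} c → ∀ k ≤ card c, R p c (replicate k ρ) := fun c hc k hk => by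
        refine R.of_le ?_
        rw [eq_replicate_card.2 fun b hb => Finset.mem_singleton.1 (hc b hb)]
        exact replicate_le_replicate ρ |>.2 hk
      have hB : ∀ m, StB p m 2 ρ {ρ} := fun m c h1 h2 => hc c h1 2 (by
        have := q_le_card m {ρ} c
        rw [Finset.card_singleton] at this
        omega)
      exact ⟨fun c h1 h2 => by simpa using hc c h1 1 (hW ▸ h2), hB 2, fun _ => hB 0⟩
    have key : ∀ σ ∈ Δ, ∀ v ∈ σ, v ∉ ρ → (Δ.filter fun σ => v ∉ σ).card ≤ n ∧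
        (Δ.filter fun σ => v ∈ σ).card ≤ n := fun σ hσ v hv hv' => by
      have h1 : (Δ.filter fun σ => v ∉ σ).card < Δ.card :=
        Finset.card_lt_card (Finset.filter_ssubset.2 ⟨σ, hσ, not_not.2 hv⟩)
      have h2 : (Δ.filter fun σ => v ∈ σ).card < Δ.card :=
        Finset.card_lt_card (Finset.filter_ssubset.2 ⟨ρ, h.root, hv'⟩)
      omega
    by_cases hbig : Big p ρ Δ
    · obtain ⟨σ, hσ, v, hv, hv'⟩ := hex
      obtain ⟨k0, k1⟩ := key σ hσ v hv hv'
      obtain ⟨a0, -, s0⟩ := ih _ _ k0 (h.del hv')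
      obtain ⟨a1, -, s1⟩ := ih _ _ k1 (h.link hσ hv)
      have b0 : Big p ρ (Δ.filter fun σ => v ∉ σ) := fun τ hτ => hbig τ (Finset.mem_filter.1 hτ).1
      have b1 : Big p (insert v ρ) (Δ.filter fun σ => v ∈ σ) := fun τ hτ u hu hu' =>
        hbig τ (Finset.mem_filter.1 hτ).1 u hu fun h' => hu' (Finset.mem_insert_of_mem h')
      have s1' := fun k hk => StB.ge hp a1 (s1 b1) (k := k) hk
      have hS := stepS hp h hv' (hbig σ hσ v hv hv') (two_card_le_W hp (h.link hσ hv) b1)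
        (Finset.card_pos.2 ⟨_, (h.link hσ hv).root⟩) a0 (s0 b0) s1'
      exact ⟨stepA hp h hv' a0 (s1' _ (hp v)).of_zero, hS.of_zero, fun _ => hS⟩
    · have hbig' := hbig
      unfold Big at hbig'
      push Not at hbig'
      obtain ⟨σ, hσ, v, hv, hv', h2⟩ := hbig'
      have h2' : p v = 2 := by have := hp v; omega
      obtain ⟨k0, k1⟩ := key σ hσ v hv hv'
      obtain ⟨a0, b0, -⟩ := ih _ _ k0 (h.del hv')
      obtain ⟨-, b1, -⟩ := ih _ _ k1 (h.link hσ hv)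
      exact ⟨stepA hp h hv' a0 (by rw [h2']; exact b1), stepB hp h hv' h2' a0 b0 b1,
        fun h' => absurd h' hbig⟩

theorem pebble (hp : ∀ v, 2 ≤ p v) (h : Cx ρ Δ) : StA p ρ Δ := (main hp _ ρ Δ le_rfl h).1

end Pool.Agent.H65.Peb
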