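import Pool.Agent.H65.Peb2

set_option autoImplicit false

namespace Pool.Agent.H65.Peb

open Subgroup
open scoped Classical

variable {G : Type} [Group G] [Fintype G]

theorem card_sol (g : G) {m : ℕ} (hm : 0 < m) :
    (Finset.univ.filter fun x : G => x ∈ zpowers g ∧ x ^ m = 1).card ≤ m := by
  refine le_trans ?_ (IsCyclic.card_pow_eq_one_le (α := zpowers g) hm)
  refine le_trans (Finset.card_le_card ?_) (Finset.card_image_le (f := Subtype.val))
  intro x hx
  obtain ⟨h1, h2⟩ := (Finset.mem_filter.1 hx).2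
  exact Finset.mem_image.2 ⟨⟨x, h1⟩, Finset.mem_filter.2 ⟨Finset.mem_univ _, Subtype.ext h2⟩, rfl⟩

theorem mem_of_pow {g : G} {H : Subgroup G} (hH : H ≤ zpowers g) {x : G} (hx : x ∈ zpowers g)
    (h1 : x ^ Nat.card H = 1) : x ∈ H := by
  have h2 := card_sol g (Nat.card_pos (α := H))
  have h3 : (Finset.univ.filter fun x : G => x ∈ H) ⊆
      Finset.univ.filter fun x : G => x ∈ zpowers g ∧ x ^ Nat.card H = 1 := fun y hy => by
    have hy' := (Finset.mem_filter.1 hy).2
    refine Finset.mem_filter.2 ⟨Finset.mem_univ _, hH hy', ?_⟩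
    exact congrArg Subtype.val (pow_card_eq_one' (x := (⟨y, hy'⟩ : H)))
  have h4 : (Finset.univ.filter fun x : G => x ∈ H).card = Nat.card H := by
    rw [Nat.card_eq_fintype_card, Fintype.card_subtype]
  have h5 := Finset.eq_of_subset_of_card_le h3 (by rw [h4]; exact h2)
  have : x ∈ Finset.univ.filter fun x : G => x ∈ H := by
    rw [h5]; exact Finset.mem_filter.2 ⟨Finset.mem_univ _, hx, h1⟩
  exact (Finset.mem_filter.1 this).2

noncomputable instance : Fintype (Subgroup G) :=
  @Fintype.ofFinite _ (Finite.of_injective _ SetLike.coe_injective)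

noncomputable def pr (H : Subgroup G) : ℕ := if Nat.card H = 1 then 2 else (Nat.card H).minFac

omit [Fintype G] in
theorem two_le_pr (H : Subgroup G) : 2 ≤ pr H := by
  unfold pr
  split_ifs with h
  · exact le_rfl
  · exact (Nat.minFac_prime h).two_le

noncomputable def VC (C : Subgroup G) : Finset (Subgroup G) :=
  Finset.univ.filter fun H => H ≤ C ∧ IsPrimePow (Nat.card H)

theorem mem_VC {C H : Subgroup G} : H ∈ VC C ↔ H ≤ C ∧ IsPrimePow (Nat.card H) := by
  simp [VC]

theorem prod_minFac {n : ℕ} (hn : n ≠ 0) :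
    ∏ d ∈ n.divisors.filter IsPrimePow, d.minFac = n := by
  have h := ArithmeticFunction.vonMangoldt_sum (n := n)
  simp only [ArithmeticFunction.vonMangoldt_apply, ← Finset.sum_filter] at h
  rw [← Real.log_prod fun d _ => by exact_mod_cast (Nat.minFac_pos d).ne', ← Nat.cast_prod] at h
  have h1 : 0 < ∏ d ∈ n.divisors.filter IsPrimePow, d.minFac :=
    Finset.prod_pos fun d _ => Nat.minFac_pos d
  exact_mod_cast Real.log_injOn_pos (Set.mem_Ioi.2 (by exact_mod_cast h1))
    (Set.mem_Ioi.2 (by exact_mod_cast Nat.pos_of_ne_zero hn)) h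

theorem prod_VC (g : G) : ∏ H ∈ VC (zpowers g), pr H = orderOf g := by
  have h0 := (orderOf_pos g).ne'
  rw [← prod_minFac h0]
  refine Finset.prod_bij (fun H _ => Nat.card H) ?_ ?_ ?_ ?_
  · intro H hH
    obtain ⟨h1, h2⟩ := mem_VC.1 hH
    refine Finset.mem_filter.2 ⟨Nat.mem_divisors.2 ⟨?_, h0⟩, h2⟩
    rw [← Nat.card_zpowers]
    exact card_dvd_of_le h1
  · intro H hH K hK he
    obtain ⟨h1, -⟩ := mem_VC.1 hH
    obtain ⟨h2, -⟩ := mem_VC.1 hK
    refine le_antisymm (fun x hx => mem_of_pow h2 (h1 hx) ?_) fun x hx => mem_of_pow h1 (h2 hx) ?_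
    · rw [← he]; exact congrArg Subtype.val (pow_card_eq_one' (x := (⟨x, hx⟩ : H)))
    · rw [he]; exact congrArg Subtype.val (pow_card_eq_one' (x := (⟨x, hx⟩ : K)))
  · intro d hd
    obtain ⟨h1, h2⟩ := Finset.mem_filter.1 hd
    have h3 : Nat.card (zpowers (g ^ (orderOf g / d))) = d := by
      rw [Nat.card_zpowers, orderOf_pow_orderOf_div h0 (Nat.mem_divisors.1 h1).1]
    exact ⟨zpowers (g ^ (orderOf g / d)), mem_VC.2 ⟨zpowers_le.2 (npow_mem_zpowers _ _), by
      rwa [h3]⟩, h3⟩
  · intro H hH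
    exact if_neg (mem_VC.1 hH).2.ne_one

noncomputable def DD (G : Type) [Group G] [Fintype G] : Finset (Finset (Subgroup G)) :=
  Finset.univ.filter fun τ => ∃ g : G, τ ⊆ VC (zpowers g)

theorem mem_DD {τ : Finset (Subgroup G)} : τ ∈ DD G ↔ ∃ g : G, τ ⊆ VC (zpowers g) := by
  simp [DD]

theorem cx_DD : Cx ∅ (DD G) where
  root := mem_DD.2 ⟨1, Finset.empty_subset _⟩
  sup _ _ := Finset.empty_subset _
  down _ hσ _ _ _ := by
    obtain ⟨g, hg⟩ := mem_DD.1 hσ
    exact mem_DD.2 ⟨g, (Finset.erase_subset _ _).trans hg⟩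

theorem eq_of_cum (S : Finset (Subgroup G)) (f g : Subgroup G → ℕ)
    (h : ∀ C ∈ S, ∑ D ∈ S.filter (· ≤ C), f D = ∑ D ∈ S.filter (· ≤ C), g D) :
    ∀ C ∈ S, f C = g C := by
  intro C
  induction C using WellFoundedLT.induction with
  | ind C ih =>
    intro hC
    have h1 := h C hC
    have hm : C ∈ S.filter (· ≤ C) := Finset.mem_filter.2 ⟨hC, le_rfl⟩
    rw [← Finset.add_sum_erase _ _ hm, ← Finset.add_sum_erase _ _ hm] at h1
    have h2 : ∑ D ∈ (S.filter (· ≤ C)).erase C, f D = ∑ D ∈ (S.filter (· ≤ C)).erase C, g D :=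
      Finset.sum_congr rfl fun D hD => by
        obtain ⟨h3, h4⟩ := Finset.mem_erase.1 hD
        obtain ⟨h4, h5⟩ := Finset.mem_filter.1 h4
        exact ih D (lt_of_le_of_ne h5 h3) h4
    omega

theorem W_DD : W pr ∅ (DD G) = Fintype.card G := by
  let S : Finset (Subgroup G) := Finset.univ.image fun g : G => zpowers g
  have hS : ∀ C, C ∈ S ↔ ∃ g : G, zpowers g = C := fun C => by simp [S]
  have hS' : ∀ g : G, ∀ C ≤ zpowers g, C ∈ S := fun g C hC => by
    obtain ⟨n, hn⟩ := (Subgroup.le_zpowers_iff g C).1 hC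
    exact (hS C).2 ⟨_, hn.symm⟩
  have hsup : ∀ (τ : Finset (Subgroup G)) (g : G), τ ⊆ VC (zpowers g) → τ.sup id ≤ zpowers g :=
    fun τ g h => Finset.sup_le fun H hH => (mem_VC.1 (h hH)).1
  let f : Subgroup G → ℕ := fun C => ∑ τ ∈ (DD G).filter (fun τ => τ.sup id = C), ∏ v ∈ τ, (pr v - 1)
  let k : Subgroup G → ℕ := fun C => (Finset.univ.filter fun x : G => zpowers x = C).card
  have hfk : ∀ C ∈ S, f C = k C := by
    refine eq_of_cum S f k fun C hC => ?_
    obtain ⟨g, rfl⟩ := (hS C).1 hC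
    have h1 : ∑ D ∈ S.filter (· ≤ zpowers g), f D =
        ∑ τ ∈ (VC (zpowers g)).powerset, ∏ v ∈ τ, (pr v - 1) := by
      rw [← Finset.sum_fiberwise_of_maps_to (s := (VC (zpowers g)).powerset)
        (t := S.filter (· ≤ zpowers g)) (g := fun τ => τ.sup id)]
      · refine Finset.sum_congr rfl fun D hD => Finset.sum_congr ?_ fun _ _ => rfl
        ext τ
        simp only [Finset.mem_filter, Finset.mem_powerset, mem_DD]
        refine and_congr_left fun h => ⟨?_, fun h' => ⟨g, h'⟩⟩
        rintro ⟨g', hg'⟩ H hH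
        refine mem_VC.2 ⟨?_, (mem_VC.1 (hg' hH)).2⟩
        exact le_trans (h ▸ Finset.le_sup (f := id) hH) (Finset.mem_filter.1 hD).2
      · intro τ hτ
        have := hsup τ g (Finset.mem_powerset.1 hτ)
        exact Finset.mem_filter.2 ⟨hS' g _ this, this⟩
    have h2 : ∑ D ∈ S.filter (· ≤ zpowers g), k D =
        (Finset.univ.filter fun x : G => x ∈ zpowers g).card := by
      rw [Finset.card_eq_sum_card_fiberwise (t := S.filter (· ≤ zpowers g))
        (f := fun x : G => zpowers x)]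
      · refine Finset.sum_congr rfl fun D hD => congrArg Finset.card ?_
        ext x
        simp only [Finset.mem_filter, Finset.mem_univ, true_and]
        exact ⟨fun h => ⟨(Finset.mem_filter.1 hD).2 (h ▸ mem_zpowers x), h⟩, fun h => h.2⟩
      · intro x hx
        have := zpowers_le.2 (Finset.mem_filter.1 (Finset.mem_coe.1 hx)).2
        exact Finset.mem_coe.2 (Finset.mem_filter.2 ⟨hS' g _ this, this⟩)
    rw [h1, h2, ← Finset.prod_one_add, ← Fintype.card_subtype, ← Nat.card_eq_fintype_card,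
      Nat.card_zpowers, ← prod_VC]
    exact Finset.prod_congr rfl fun H _ => by have := two_le_pr H; omega
  have h3 : W pr ∅ (DD G) = ∑ C ∈ S, f C := by
    unfold W
    rw [← Finset.sum_fiberwise_of_maps_to (s := DD G) (t := S) (g := fun τ => τ.sup id)]
    · simp only [Finset.sdiff_empty, f]
    · intro τ hτ
      obtain ⟨g, hg⟩ := mem_DD.1 hτ
      exact hS' g _ (hsup τ g hg)
  rw [h3, Finset.sum_congr rfl hfk, ← Finset.card_univ,
    Finset.card_eq_sum_card_fiberwise (t := S) (f := fun x : G => zpowers x)]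
  intro x _
  exact Finset.mem_coe.2 ((hS _).2 ⟨x, rfl⟩)

theorem sub_run {α : Type} (f : α → G) (g : G) {m r : ℕ} (hr : 0 < r) (l : List α)
    (hl : l.length = r) (h1 : ∀ a ∈ l, f a ∈ zpowers g) (h2 : ∀ a ∈ l, f a ^ (r * m) = 1) :
    ∃ l' : List α, l'.Sublist l ∧ l' ≠ [] ∧ (l'.map f).prod ∈ zpowers g ∧ (l'.map f).prod ^ m = 1 := by
  have hc : ∀ x ∈ zpowers g, ∀ y ∈ zpowers g, Commute x y := by
    rintro _ ⟨a, rfl⟩ _ ⟨b, rfl⟩
    exact Commute.zpow_zpow_self g a b
  have hP : ∀ l' : List α, (∀ a ∈ l', a ∈ l) →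
      (l'.map f).prod ∈ zpowers g ∧ (l'.map f).prod ^ (r * m) = 1 := by
    intro l'
    induction l' with
    | nil => simp
    | cons a t ih =>
      intro h
      have ha := h a List.mem_cons_self
      obtain ⟨i1, i2⟩ := ih fun b hb => h b (List.mem_cons_of_mem _ hb)
      simp only [List.map_cons, List.prod_cons]
      exact ⟨mul_mem (h1 a ha) i1, by rw [(hc _ (h1 a ha) _ i1).mul_pow, h2 a ha, i2, one_mul]⟩
  have key : ∀ i j, i < j → j ≤ r → ((l.take i).map f).prod ^ m = ((l.take j).map f).prod ^ m →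
      ∃ l' : List α, l'.Sublist l ∧ l' ≠ [] ∧ (l'.map f).prod ∈ zpowers g ∧
        (l'.map f).prod ^ m = 1 := by
    intro i j hij hj he
    have hs : ((l.take j).drop i).Sublist l := (List.drop_sublist _ _).trans (List.take_sublist _ _)
    have hm := (hP _ fun a ha => hs.subset ha).1
    refine ⟨(l.take j).drop i, hs, ?_, hm, ?_⟩
    · intro h
      have := congrArg List.length h
      simp only [List.length_drop, List.length_take, List.length_nil] at this
      omega
    · have h3 : l.take j = l.take i ++ (l.take j).drop i := by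
        conv_lhs => rw [← List.take_append_drop i (l.take j)]
        rw [List.take_take, min_eq_left hij.le]
      rw [h3, List.map_append, List.prod_append,
        (hc _ (hP _ fun a ha => List.mem_of_mem_take ha).1 _ hm).mul_pow] at he
      exact (mul_eq_left.1 he.symm)
  obtain ⟨i, hi, j, hj, hne, he⟩ := Finset.exists_ne_map_eq_of_card_lt_of_maps_to
    (s := Finset.range (r + 1)) (t := Finset.univ.filter fun x : G => x ∈ zpowers g ∧ x ^ r = 1)
    (by rw [Finset.card_range]; exact Nat.lt_succ_of_le (card_sol g hr))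
    (f := fun i => ((l.take i).map f).prod ^ m) (by
      intro i _
      obtain ⟨i1, i2⟩ := hP (l.take i) fun a ha => List.mem_of_mem_take ha
      refine Finset.mem_coe.2 (Finset.mem_filter.2 ⟨Finset.mem_univ _, pow_mem i1 _, ?_⟩)
      rw [← pow_mul, mul_comm, i2])
  rw [Finset.mem_range] at hi hj
  rcases lt_or_gt_of_ne hne with h | h
  · exact key i j h (by omega) he
  · exact key j i h (by omega) he.symm

end Pool.Agent.H65.Peb
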