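import Pool.Agent.H65.Peb3

set_option autoImplicit false

namespace Pool.Agent.H65.Peb

open Subgroup
open scoped Classical

variable {G : Type} [Group G] [Fintype G] {ι : Type}

structure Valid (g : ι → G) (x : Finset (Subgroup G) × List ι) : Prop where
  ne : x.2 ≠ []
  ex : ∃ h : G, x.1 ⊆ VC (zpowers h)
  mem : ∀ h : G, x.1 ⊆ VC (zpowers h) → (x.2.map g).prod ∈ zpowers h
  pow : (x.2.map g).prod ^ (∏ H ∈ x.1, pr H) = 1
  wt : (x.2.map fun k => (1 : ℚ) / orderOf (g k)).sum ≤ 1 / (∏ H ∈ x.1, pr H : ℕ)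

def Good (g : ι → G) (c : Multiset (Finset (Subgroup G))) : Prop :=
  ∃ F : Multiset (Finset (Subgroup G) × List ι), F.map Prod.fst = c ∧ (∀ x ∈ F, Valid g x) ∧
    (F.bind fun x => (x.2 : Multiset ι)).Nodup

theorem map_eq_add {α β : Type} (f : α → β) (a : Multiset β) : ∀ (F : Multiset α) (b : Multiset β),
    F.map f = a + b → ∃ F1 F2, F = F1 + F2 ∧ F1.map f = a ∧ F2.map f = b := by
  induction a using Multiset.induction_on with
  | empty => intro F b h; exact ⟨0, F, by simp, rfl, by simpa using h⟩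
  | cons x s ih =>
    intro F b h
    rw [Multiset.cons_add] at h
    obtain ⟨y, hy, h1, h2⟩ := (Multiset.map_eq_cons f F _ x).2 h
    obtain ⟨F1, F2, h3, h4, h5⟩ := ih _ b h2
    refine ⟨y ::ₘ F1, F2, ?_, by rw [Multiset.map_cons, h1, h4], h5⟩
    rw [Multiset.cons_add, ← h3, Multiset.cons_erase hy]

theorem Good.drop {g : ι → G} (σ : Finset (Subgroup G)) (r : Multiset (Finset (Subgroup G)))
    (h : Good g (σ ::ₘ r)) : Good g r := by
  obtain ⟨F, h1, h2, h3⟩ := h
  obtain ⟨F1, F2, rfl, -, h5⟩ := map_eq_add Prod.fst {σ} F r h1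
  refine ⟨F2, h5, fun x hx => h2 x (Multiset.mem_add.2 (Or.inr hx)), ?_⟩
  rw [Multiset.add_bind] at h3
  exact Multiset.nodup_of_le (Multiset.le_add_left _ _) h3

omit [Fintype G] in
theorem flat_prod {α : Type} (g : ι → G) (s : α → List ι) (l : List α) :
    ((l.flatMap s).map g).prod = (l.map fun a => ((s a).map g).prod).prod := by
  induction l with
  | nil => simp
  | cons a t ih => simp only [List.flatMap_cons, List.map_append, List.prod_append, ih,
      List.map_cons, List.prod_cons]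

theorem flat_sum {α : Type} (w : ι → ℚ) (s : α → List ι) (l : List α) (b : ℚ)
    (h : ∀ a ∈ l, ((s a).map w).sum ≤ b) : ((l.flatMap s).map w).sum ≤ l.length * b := by
  induction l with
  | nil => simp
  | cons a t ih =>
    simp only [List.flatMap_cons, List.map_append, List.sum_append, List.length_cons]
    have h1 := h a List.mem_cons_self
    have h2 := ih fun b hb => h b (List.mem_cons_of_mem _ hb)
    push_cast
    linarith

theorem Good.move {g : ι → G} (σ : Finset (Subgroup G)) (v : Subgroup G)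
    (r : Multiset (Finset (Subgroup G))) (hv : v ∈ σ)
    (h : Good g (Multiset.replicate (pr v) σ + r)) : Good g (σ.erase v ::ₘ r) := by
  obtain ⟨F, h1, h2, h3⟩ := h
  obtain ⟨F1, F2, rfl, h4, h5⟩ := map_eq_add Prod.fst _ F r h1
  induction F1 using Quotient.inductionOn with
  | h l =>
  simp only [Multiset.quot_mk_to_coe] at h2 h3 h4
  have hp := two_le_pr v
  have hlen : l.length = pr v := by simpa using congrArg Multiset.card h4
  have hfst : ∀ a ∈ l, a.1 = σ := fun a ha => Multiset.eq_of_mem_replicate (n := pr v) (by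
    rw [← h4]; exact Multiset.mem_map_of_mem _ (Multiset.mem_coe.2 ha))
  have hval : ∀ a ∈ l, Valid g a := fun a ha =>
    h2 a (Multiset.mem_add.2 (Or.inl (Multiset.mem_coe.2 ha)))
  obtain ⟨a0, ha0⟩ := List.exists_mem_of_length_pos (l := l) (by omega)
  obtain ⟨h, hh⟩ := (hval a0 ha0).ex
  rw [hfst a0 ha0] at hh
  have hn : ∏ H ∈ σ, pr H = pr v * ∏ H ∈ σ.erase v, pr H := (Finset.mul_prod_erase _ _ hv).symm
  obtain ⟨l', hs, hne, hm, hpow⟩ := sub_run (fun a : Finset (Subgroup G) × List ι =>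
      (a.2.map g).prod) h (m := ∏ H ∈ σ.erase v, pr H) (by omega) l hlen
    (fun a ha => (hval a ha).mem h (by rw [hfst a ha]; exact hh))
    (fun a ha => by rw [← hn, ← hfst a ha]; exact (hval a ha).pow)
  rw [← flat_prod g Prod.snd] at hm hpow
  refine ⟨(σ.erase v, l'.flatMap Prod.snd) ::ₘ F2, by rw [Multiset.map_cons, h5], ?_, ?_⟩
  · intro x hx
    rcases Multiset.mem_cons.1 hx with rfl | hx
    swap
    · exact h2 x (Multiset.mem_add.2 (Or.inr hx))
    refine ⟨?_, ⟨h, (Finset.erase_subset _ _).trans hh⟩, ?_, hpow, ?_⟩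
    · obtain ⟨a, ha⟩ := List.exists_mem_of_ne_nil _ hne
      intro h0
      exact (hval a (hs.subset ha)).ne (List.flatMap_eq_nil_iff.1 h0 a ha)
    · intro h' hh'
      obtain ⟨n, hn'⟩ := (Subgroup.le_zpowers_iff h (zpowers h ⊓ zpowers h')).1 inf_le_left
      have hsub : σ.erase v ⊆ VC (zpowers (h ^ n)) := fun H hH => by
        rw [← hn']
        exact mem_VC.2 ⟨le_inf (mem_VC.1 (hh (Finset.mem_of_mem_erase hH))).1
          (mem_VC.1 (hh' hH)).1, (mem_VC.1 (hh' hH)).2⟩
      have hd := Finset.prod_dvd_prod_of_subset _ _ pr hsub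
      rw [prod_VC, ← Nat.card_zpowers, ← hn'] at hd
      obtain ⟨t, ht⟩ := hd
      exact (mem_of_pow (H := zpowers h ⊓ zpowers h') inf_le_left hm
        (by rw [ht, pow_mul, hpow, one_pow])).2
    · have h6 := flat_sum (fun k => (1 : ℚ) / orderOf (g k)) Prod.snd l'
        (1 / (∏ H ∈ σ, pr H : ℕ)) fun a ha => by
          rw [← hfst a (hs.subset ha)]; exact (hval a (hs.subset ha)).wt
      refine h6.trans ?_
      have h7 : (l'.length : ℚ) ≤ pr v := by exact_mod_cast hlen ▸ hs.length_le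
      have h8 : (0 : ℚ) < (∏ H ∈ σ.erase v, pr H : ℕ) := by
        exact_mod_cast Finset.prod_pos fun H _ => by have := two_le_pr H; omega
      have h9 : (0 : ℚ) < pr v := by exact_mod_cast (by omega : 0 < pr v)
      rw [hn, Nat.cast_mul, mul_one_div, div_le_div_iff₀ (mul_pos h9 h8) h8, one_mul]
      exact mul_le_mul_of_nonneg_right h7 h8.le
  · refine Multiset.nodup_of_le ?_ h3
    rw [Multiset.cons_bind, Multiset.add_bind]
    refine add_le_add ?_ le_rfl
    rw [Multiset.coe_bind]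
    exact Multiset.coe_le.2 (hs.flatMap _).subperm

theorem tiny [Fintype ι] (g : ι → G) (hc : Fintype.card G ≤ Fintype.card ι) :
    ∃ L : List ι, L ≠ [] ∧ L.Nodup ∧ (L.map g).prod = 1 ∧
      (L.map fun k => (1 : ℚ) / orderOf (g k)).sum ≤ 1 := by
  let F : Multiset (Finset (Subgroup G) × List ι) :=
    Finset.univ.val.map fun k => (VC (zpowers (g k)), [k])
  have h0 : Good g (F.map Prod.fst) := by
    refine ⟨F, rfl, ?_, ?_⟩
    · intro x hx
      obtain ⟨k, -, rfl⟩ := Multiset.mem_map.1 hx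
      refine ⟨by simp, ⟨g k, le_rfl⟩, fun h hh => ?_, by simp [prod_VC], by simp [prod_VC]⟩
      obtain ⟨n, hn'⟩ := (Subgroup.le_zpowers_iff (g k) (zpowers (g k) ⊓ zpowers h)).1 inf_le_left
      have hsub : VC (zpowers (g k)) ⊆ VC (zpowers (g k ^ n)) := fun H hH => by
        rw [← hn']
        exact mem_VC.2 ⟨le_inf (mem_VC.1 hH).1 (mem_VC.1 (hh hH)).1, (mem_VC.1 hH).2⟩
      have hd := Finset.prod_dvd_prod_of_subset _ _ pr hsub
      rw [prod_VC, prod_VC, ← Nat.card_zpowers (g k ^ n), ← hn'] at hd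
      simpa using (mem_of_pow (H := zpowers (g k) ⊓ zpowers h) inf_le_left (mem_zpowers _)
        (orderOf_dvd_iff_pow_eq_one.1 hd)).2
    · rw [Multiset.bind_map]
      simp only [Multiset.coe_singleton]
      rw [Multiset.bind_singleton (f := fun a : ι => a), Multiset.map_id']
      exact (Finset.univ : Finset ι).nodup
  have h1 := pebble (p := pr) two_le_pr cx_DD (F.map Prod.fst) (by
    intro σ hσ
    obtain ⟨x, hx, rfl⟩ := Multiset.mem_map.1 hσ
    obtain ⟨k, -, rfl⟩ := Multiset.mem_map.1 hx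
    exact mem_DD.2 ⟨g k, le_rfl⟩) (by rw [W_DD]; simpa [F] using hc)
  obtain ⟨F', h2, h3, h4⟩ := h1 (Good g) Good.drop Good.move 0 (by rwa [add_zero])
  rw [add_zero] at h2
  obtain ⟨x, rfl, hx⟩ := Multiset.map_eq_singleton.1 h2
  have hv := h3 x (Multiset.mem_singleton_self x)
  refine ⟨x.2, hv.ne, by simpa using h4, ?_, ?_⟩
  · simpa [hx] using hv.pow
  · simpa [hx] using hv.wt

end Pool.Agent.H65.Peb
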