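import Pool.Agent.H65.RelHypDefs

/-! Cocycles on the relative Cayley graph are bounded linearly on loops. -/

namespace Pool.Agent.H65.RelHyp

open Pointwise Monoid

variable {G : Type} [Group G] {ι : Type} {H : ι → Subgroup G} {X : Finset G}

def Lt (H : ι → Subgroup G) (X : Finset G) : Set (FP H X) := {s | s = 1 ∨ Letter H X s}

def hl {i : ι} (X : Finset G) (h : H i) : FP H X := Coprod.inl (CoprodI.of (M := fun i => H i) h)

@[simp] theorem proj_hl {i : ι} (h : H i) : proj H X (hl X h) = h := by simp [proj, hl]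

@[simp] theorem proj_x (x : X) : proj H X (Coprod.inr (FreeGroup.of x)) = x := by simp [proj]

theorem hl_mem {i : ι} (h : H i) : hl X h ∈ Lt H X := by
  by_cases e : h = 1
  · exact .inl (by simp [hl, e])
  · exact .inr (.inr ⟨i, h, e, rfl⟩)

theorem one_mem : (1 : FP H X) ∈ Lt H X := .inl rfl

theorem inv_mem {s : FP H X} (h : s ∈ Lt H X) : s⁻¹ ∈ Lt H X := by
  rcases h with rfl | ⟨x, rfl | rfl⟩ | ⟨i, h, -, rfl⟩
  · exact .inl inv_one
  · exact .inr (.inl ⟨x, .inr rfl⟩)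
  · exact .inr (.inl ⟨x, .inl (inv_inv _)⟩)
  · simpa [hl] using hl_mem (X := X) h⁻¹

theorem pow_inv {n : ℕ} {u : FP H X} (h : u ∈ Lt H X ^ n) : u⁻¹ ∈ Lt H X ^ n := by
  have : (Lt H X)⁻¹ = Lt H X := Set.ext fun _ => ⟨fun h => by simpa using inv_mem h, inv_mem⟩
  rwa [← this, inv_pow, Set.inv_mem_inv]

theorem pow_mul' {M : Type} [Monoid M] {S : Set M} {n m : ℕ} {u v : M} (h : u ∈ S ^ n)
    (h' : v ∈ S ^ m) : u * v ∈ S ^ (n + m) := pow_add S n m ▸ Set.mul_mem_mul h h'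

theorem fin_gen (T : Finset (FP H X)) : ∃ (Λ : Set (FP H X)) (ρ : ℕ), Λ.Finite ∧ Λ ⊆ Lt H X ∧
    (T : Set (FP H X)) ⊆ Λ ^ ρ := by
  let Q : Set (FP H X) → Prop := fun T => ∃ (Λ : Set (FP H X)) (ρ : ℕ), Λ.Finite ∧ Λ ⊆ Lt H X ∧
    1 ∈ Λ ∧ T ⊆ Λ ^ ρ
  have un : ∀ T T', Q T → Q T' → Q (T ∪ T') := fun T T' ⟨Λ, ρ, h1, h2, h3, h4⟩
      ⟨Λ', ρ', h5, h6, h7, h8⟩ => ⟨Λ ∪ Λ', ρ + ρ', h1.union h5, Set.union_subset h2 h6, .inl h3,
    Set.union_subset (h4.trans (Set.pow_subset_pow Set.subset_union_left (.inl h3) (by omega)))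
      (h8.trans (Set.pow_subset_pow Set.subset_union_right (.inl h3) (by omega)))⟩
  have lt : ∀ s ∈ Lt H X, Q {s} := fun s hs => ⟨{1, s}, 1, by simp, by
    simp [Set.insert_subset_iff, one_mem, hs], by simp, by simp⟩
  have mu : ∀ u v, Q {u} → Q {v} → Q {u * v} := fun u v h h' =>
    let ⟨Λ, ρ, h1, h2, h3, h4⟩ := un _ _ h h'
    ⟨Λ, ρ + ρ, h1, h2, h3, Set.singleton_subset_iff.2 (pow_mul' (h4 (by simp)) (h4 (by simp)))⟩
  have all : ∀ u, Q {u} := fun u => by
    induction u using Coprod.induction_on with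
    | inl m =>
      induction m using CoprodI.induction_on with
      | one => exact lt _ (.inl (map_one _))
      | of i h => exact lt _ (hl_mem h)
      | mul x y h h' => rw [map_mul]; exact mu _ _ h h'
    | inr m =>
      induction m using FreeGroup.induction_on with
      | C1 => exact lt _ (.inl (map_one _))
      | of x => exact lt _ (.inr (.inl ⟨x, .inl rfl⟩))
      | inv_of x => exact lt _ (.inr (.inl ⟨x, .inr (map_inv _ _)⟩))
      | mul x y h h' => rw [map_mul]; exact mu _ _ h h'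
    | mul x y h h' => exact mu _ _ h h'
  have : Q T := by
    classical
    induction T using Finset.induction_on with
    | empty => exact ⟨{1}, 0, by simp, by simp [one_mem], rfl, by simp⟩
    | insert a T _ ih => simpa using un _ _ (all a) ih
  exact let ⟨Λ, ρ, h1, h2, _, h4⟩ := this; ⟨Λ, ρ, h1, h2, h4⟩

def Coc (c : FP H X → G → ℤ) : Prop := ∀ u v g, c (u * v) g = c u g + c v (g * proj H X u)

theorem Coc.one {c : FP H X → G → ℤ} (h : Coc c) (g : G) : c 1 g = 0 := by simpa using h 1 1 g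

theorem Coc.inv {c : FP H X → G → ℤ} (h : Coc c) (u : FP H X) (g : G) :
    c u⁻¹ (g * proj H X u) = - c u g := by
  have := h u u⁻¹ g
  rw [mul_inv_cancel, h.one] at this
  omega

theorem ex_c (φ f : G → ℤ) (F : ι → G → ℤ) (hF : ∀ i g, ∀ h ∈ H i, F i (g * h) = F i g) :
    ∃ c : FP H X → G → ℤ, Coc c ∧ (∀ i (h : H i) g, c (hl X h) g = F i g * (φ (g * h) - φ g)) ∧
      ∀ s ∈ Lt H X, ∀ g, ∃ a, c s g = a * (φ (g * proj H X s) - φ g) ∧
      (a = f g ∨ a = f (g * proj H X s) ∨ ∃ i, proj H X s ∈ H i ∧ a = F i g) := by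
  let E := (G → Multiplicative ℤ) ⋊[mulAutArrow] G
  let Φ : FP H X →* E := Coprod.lift (CoprodI.lift fun i => MonoidHom.mk' (fun h : H i =>
    (⟨fun y => .ofAdd (F i y⁻¹ * (φ (y⁻¹ * h) - φ y⁻¹)), h⟩ : E)) fun h k =>
      SemidirectProduct.ext (funext fun y => by
        change Multiplicative.ofAdd _ = Multiplicative.ofAdd _ * Multiplicative.ofAdd
          (F i (_ * y)⁻¹ * (φ ((_ * y)⁻¹ * _) - φ (_ * y)⁻¹))
        rw [← ofAdd_add]
        simp only [mul_inv_rev, inv_inv, hF i _ _ h.2, Subgroup.coe_mul, mul_assoc]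
        congr 1
        ring) rfl)
    (FreeGroup.lift fun x => (⟨fun y => .ofAdd (f y⁻¹ * (φ (y⁻¹ * x) - φ y⁻¹)), x⟩ : E))
  have h : ∀ u, (Φ u).right = proj H X u := fun u => by
    change (SemidirectProduct.rightHom.comp Φ) u = _
    congr 1
    refine Coprod.hom_ext (CoprodI.ext_hom _ _ fun i => MonoidHom.ext fun h => ?_)
      (FreeGroup.ext_hom _ _ fun x => ?_) <;> simp [Φ, proj]
  have hc : Coc fun u g => ((Φ u).left g⁻¹).toAdd := fun u v g => by
    dsimp only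
    rw [map_mul, SemidirectProduct.mul_left, h, mul_inv_rev]
    rfl
  have hx : ∀ (x : X) g, ((Φ (Coprod.inr (FreeGroup.of x))).left g⁻¹).toAdd =
      f g * (φ (g * x) - φ g) := by simp [Φ, mul_comm]
  refine ⟨_, hc, by simp [Φ, hl, mul_comm], ?_⟩
  rintro s (rfl | ⟨x, rfl | rfl⟩ | ⟨i, k, -, rfl⟩) g
  · exact ⟨f g, by simp, .inl rfl⟩
  · exact ⟨f g, by rw [hx, proj_x], .inl rfl⟩
  · refine ⟨_, ?_, .inr (.inl rfl)⟩
    have := hc.inv (Coprod.inr (FreeGroup.of x)) (g * (x : G)⁻¹)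
    simp only [hx, proj_x, inv_mul_cancel_right, map_inv] at this ⊢
    rw [this]
    ring
  · exact ⟨F i g, by simp [Φ, proj, mul_comm], .inr (.inr ⟨i, by simp [proj], rfl⟩)⟩

variable (H X) in
def Iso (Λ : Set (FP H X)) (ρ C : ℕ) : Prop := Function.Surjective (proj H X) ∧ Λ.Finite ∧
  Λ ⊆ Lt H X ∧ ∀ c, Coc c → ∀ K : ℤ, (∀ r ∈ Λ ^ ρ, proj H X r = 1 → ∀ g, |c r g| ≤ K) → 0 ≤ K →
    ∀ n : ℕ, ∀ u ∈ Lt H X ^ n, proj H X u = 1 → ∀ g, |c u g| ≤ K * (C * n + C)

theorem fill (h : IsRelHyp H) : ∃ X Λ ρ C, Iso H X Λ ρ C := by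
  classical
  obtain ⟨X, T, C, h1, h2, h3⟩ := h
  obtain ⟨Λ, ρ, h4, h5, h6⟩ := fin_gen T
  refine ⟨X, Λ, ρ, C, h1, h4, h5, fun c hc K hK h0 n u hu e g => ?_⟩
  obtain ⟨W, h7, h8, rfl⟩ : ∃ W : List (FP H X), (∀ s ∈ W, Letter H X s) ∧ W.length ≤ n ∧
      W.prod = u := by
    clear e
    induction n generalizing u with
    | zero => exact ⟨[], by simp, le_rfl, by simpa [eq_comm] using hu⟩
    | succ n ih =>
      obtain ⟨s, rfl | hs, v, hv, rfl⟩ := pow_succ' (Lt H X) n ▸ hu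
      · obtain ⟨W, h7, h8, rfl⟩ := ih v hv
        exact ⟨W, h7, by omega, by simp⟩
      · obtain ⟨W, h7, h8, rfl⟩ := ih v hv
        exact ⟨s :: W, by simpa [hs] using h7, by simpa using h8, by simp⟩
  obtain ⟨L, h9, h10, h11⟩ := h3 W h7 e
  have k1 : ∀ r ∈ T, proj H X r = 1 := fun r hr =>
    show r ∈ (proj H X).ker from h2 ▸ Subgroup.subset_normalClosure hr
  have : |c (L.map fun p => p.1⁻¹ * p.2 * p.1).prod g| ≤ K * L.length := by
    clear h10 h11
    induction L with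
    | nil => simp [hc.one]
    | cons p L ih =>
      have k2 : proj H X p.2 = 1 ∧ ∀ g, |c p.2 g| ≤ K := by
        rcases h9 p (by simp) with h | h
        · exact ⟨k1 _ h, hK _ (h6 h) (k1 _ h)⟩
        · refine ⟨by simpa using k1 _ h, fun g => ?_⟩
          have := hc.inv p.2⁻¹ g
          rw [k1 _ h, mul_one, inv_inv] at this
          rw [this, abs_neg]
          exact hK _ (h6 h) (k1 _ h) g
      have k3 := hc.inv p.1⁻¹ g
      have k4 := ih fun q hq => h9 q (by simp [hq])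
      have k5 := k2.2 (g * proj H X p.1⁻¹)
      rw [List.map_cons, List.prod_cons, hc, hc, hc]
      simp only [map_mul, k2.1, mul_one, map_inv, inv_mul_cancel, inv_inv, List.length_cons,
        Nat.cast_add, Nat.cast_one, abs_le] at *
      constructor <;> linarith
  rw [h11]
  refine this.trans (mul_le_mul_of_nonneg_left ?_ h0)
  exact_mod_cast h10.trans (by gcongr)

end Pool.Agent.H65.RelHyp
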