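import Pool.Agent.H65.RH1

/-! Isolated components, malnormality and uniform properness. -/

namespace Pool.Agent.H65.RelHyp

open Pointwise Monoid

variable {G : Type} [Group G] {ι : Type} {H : ι → Subgroup G} {X : Finset G}

variable (H X) in
noncomputable def len (g : G) : ℕ := sInf {n | ∃ u ∈ Lt H X ^ n, proj H X u = g}

theorem len_le {n : ℕ} {u : FP H X} (h : u ∈ Lt H X ^ n) : len H X (proj H X u) ≤ n :=
  Nat.sInf_le ⟨u, h, rfl⟩

theorem len_lt {s : FP H X} (h : s ∈ Lt H X) : len H X (proj H X s) ≤ 1 :=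
  len_le (by simpa using h)

theorem len_H {i : ι} {h : G} (hh : h ∈ H i) : len H X h ≤ 1 := by
  simpa using len_lt (hl_mem (X := X) ⟨h, hh⟩)

/-- paths as sequences of partial products -/
def Pa (P : ℕ → FP H X) : Prop := P 0 = 1 ∧ ∀ t, ∃ s ∈ Lt H X, P (t + 1) = P t * s

theorem Pa.seg {P : ℕ → FP H X} (h : Pa P) (t k : ℕ) : (P t)⁻¹ * P (t + k) ∈ Lt H X ^ k := by
  induction k with
  | zero => simp
  | succ k ih =>
    obtain ⟨s, hs, e⟩ := h.2 (t + k)
    rw [← add_assoc, e, ← mul_assoc, pow_succ]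
    exact Set.mul_mem_mul ih hs

theorem Pa.mem {P : ℕ → FP H X} (h : Pa P) (k : ℕ) : P k ∈ Lt H X ^ k := by
  simpa [h.1] using h.seg 0 k

theorem ex_pa {n : ℕ} {u : FP H X} (h : u ∈ Lt H X ^ n) : ∃ P, Pa P ∧ P n = u := by
  induction n generalizing u with
  | zero => exact ⟨fun _ => 1, ⟨rfl, fun _ => ⟨1, one_mem, by simp⟩⟩, by simpa [eq_comm] using h⟩
  | succ n ih =>
    obtain ⟨s, hs, v, hv, rfl⟩ := pow_succ' (Lt H X) n ▸ h
    obtain ⟨P, ⟨h1, h2⟩, rfl⟩ := ih hv
    refine ⟨fun t => Nat.casesOn t 1 fun t => s * P t, ⟨rfl, fun t => ?_⟩, rfl⟩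
    cases t with
    | zero => exact ⟨s, hs, by simp [h1]⟩
    | succ t => exact (h2 t).imp fun _ h => ⟨h.1, by simp [h.2, mul_assoc]⟩

variable {Λ : Set (FP H X)} {ρ C : ℕ} (I : Iso H X Λ ρ C)

include I

theorem len_spec (g : G) : ∃ u ∈ Lt H X ^ len H X g, proj H X u = g := by
  classical
  obtain ⟨u, rfl⟩ := I.1 g
  obtain ⟨Λ, ρ, -, h1, h2⟩ := fin_gen {u}
  exact Nat.sInf_mem (s := {n | ∃ v ∈ Lt H X ^ n, proj H X v = proj H X u})
    ⟨ρ, u, Set.pow_subset_pow_left h1 (h2 (by simp)), rfl⟩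

theorem len_mul (g h : G) : len H X (g * h) ≤ len H X g + len H X h := by
  obtain ⟨u, h1, h2⟩ := len_spec I g
  obtain ⟨v, h3, h4⟩ := len_spec I h
  simpa [h2, h4] using len_le (pow_mul' h1 h3)

theorem len_inv (g : G) : len H X g⁻¹ = len H X g := by
  have : ∀ g, len H X g⁻¹ ≤ len H X g := fun g => by
    obtain ⟨u, h1, h2⟩ := len_spec I g
    simpa [h2] using len_le (pow_inv h1)
  exact le_antisymm (this g) (by simpa using this g⁻¹)

theorem geo (g : G) : ∃ P : ℕ → FP H X, Pa P ∧ proj H X (P (len H X g)) = g ∧ ∀ t ≤ len H X g,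
    len H X (proj H X (P t)) = t ∧ len H X ((proj H X (P t))⁻¹ * g) + t = len H X g := by
  obtain ⟨u, h1, h2⟩ := len_spec I g
  obtain ⟨P, h3, rfl⟩ := ex_pa h1
  refine ⟨P, h3, h2, fun t ht => ?_⟩
  have h4 := len_le (h3.seg t (len H X g - t))
  have h5 := len_le (h3.mem t)
  have h6 := len_mul I (proj H X (P t)) ((proj H X (P t))⁻¹ * g)
  rw [Nat.add_sub_cancel' ht, map_mul, h2, map_inv] at h4
  rw [mul_inv_cancel_left] at h6
  omega

theorem exA : ∃ B : ℕ → Finset G, ∀ i g, ∃ Av : ℕ → G → G → Prop,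
    (∀ {n m x y z}, Av n x y → Av m y z → Av (n + m) x z) ∧ (∀ {n x y}, Av n x y → Av n y x) ∧
    (∀ P, Pa P → ∀ n x, (∀ t < n, g⁻¹ * (x * proj H X (P (t + 1))) ∉ H i) →
      Av n x (x * proj H X (P n))) ∧
    ∀ {n x y}, Av n x y → g⁻¹ * x ∈ H i → g⁻¹ * y ∈ H i → x⁻¹ * y ∈ B n := by
  classical
  let Ω : Set G := insert 1 (proj H X '' Λ ∪ (proj H X '' Λ)⁻¹)
  have hΩ : Ω.Finite := ((I.2.1.image _).union (I.2.1.image _).inv).insert _
  have hp : ∀ n, (Ω ^ n).Finite := fun n => by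
    induction n with
    | zero => simp
    | succ n ih => exact pow_succ Ω n ▸ ih.mul hΩ
  refine ⟨fun n => (hp (ρ * (C * (n + 1) + C))).toFinset, fun i g => ?_⟩
  let F : ι → G → ℤ := fun j y => if j = i ∧ g⁻¹ * y ∈ H j then 1 else 0
  choose c hc hh hs using fun φ => ex_c (H := H) (X := X) φ 0 F fun j y h hh => by
    simp only [F, ← mul_assoc, (H j).mul_mem_cancel_right hh]
  refine ⟨fun n x y => ∃ u ∈ Lt H X ^ n, y = x * proj H X u ∧ ∀ φ, c φ u x = 0, ?_, ?_, ?_, ?_⟩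
  · rintro n m x _ _ ⟨u, h1, rfl, h2⟩ ⟨v, h3, rfl, h4⟩
    exact ⟨u * v, pow_mul' h1 h3, by simp [mul_assoc], fun φ => by rw [hc, h2, h4]; rfl⟩
  · rintro n x _ ⟨u, h1, rfl, h2⟩
    exact ⟨u⁻¹, pow_inv h1, by simp, fun φ => by rw [(hc φ).inv, h2]; rfl⟩
  · refine fun P hP n x h => ⟨P n, hP.mem n, rfl, fun φ => ?_⟩
    induction n with
    | zero => rw [hP.1, (hc φ).one]
    | succ n ih =>
      obtain ⟨s, h1, e⟩ := hP.2 n
      have h2 := h n (by omega)
      rw [e, map_mul, ← mul_assoc x, ← mul_assoc] at h2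
      obtain ⟨a, h3, h4⟩ := hs φ s h1 (x * proj H X (P n))
      rw [e, hc, ih fun t ht => h t (by omega), h3]
      obtain rfl | rfl | ⟨j, h5, rfl⟩ := h4
      · simp
      · simp
      · have : ¬ (j = i ∧ g⁻¹ * (x * proj H X (P n)) ∈ H j) := by
          rintro ⟨rfl, h6⟩
          exact h2 (mul_mem h6 h5)
        simp [F, this]
  · rintro n x _ ⟨u, h1, rfl, h2⟩ hx hy
    let T := ρ * (C * (n + 1) + C)
    have ex : ∀ y : G, ∃ k, k = T + 1 ∨ x⁻¹ * y ∈ Ω ^ k := fun _ => ⟨_, .inl rfl⟩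
    let φ : G → ℤ := fun y => Nat.find (ex y)
    have l1 : ∀ y, ∀ ω ∈ Ω, φ (y * ω) ≤ φ y + 1 := fun y ω hω => by
      have : Nat.find (ex (y * ω)) ≤ Nat.find (ex y) + 1 := by
        rcases Nat.find_spec (ex y) with h | h
        · exact (Nat.find_le (.inl rfl)).trans (by omega)
        · exact Nat.find_le (.inr (by rw [pow_succ, ← mul_assoc]; exact Set.mul_mem_mul h hω))
      simp only [φ]
      omega
    have l2 : ∀ k : ℕ, ∀ r ∈ Λ ^ k, ∀ y, |c φ r y| ≤ k := fun k => by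
      induction k with
      | zero => simp [(hc φ).one]
      | succ k ih =>
        intro r hr y
        obtain ⟨v, hv, s, h3, rfl⟩ := pow_succ Λ k ▸ hr
        obtain ⟨a, h4, h5⟩ := hs φ s (I.2.2.1 h3) (y * proj H X v)
        have h6 : a = 0 ∨ a = 1 := by
          obtain rfl | rfl | ⟨j, -, rfl⟩ := h5
          exacts [.inl rfl, .inl rfl, (ite_eq_or_eq _ _ _).symm]
        have h7 := l1 (y * proj H X v) _ (.inr (.inl ⟨s, h3, rfl⟩))
        have h8 := l1 (y * proj H X v * proj H X s) (proj H X s)⁻¹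
          (.inr (.inr ⟨s, h3, (inv_inv _).symm⟩))
        have h9 := ih v hv y
        rw [mul_inv_cancel_right] at h8
        dsimp only
        rw [hc, h4, abs_le] at *
        push_cast
        rcases h6 with rfl | rfl <;> omega
    have hk : (proj H X u)⁻¹ ∈ H i := by simpa [mul_assoc] using mul_mem ((H i).inv_mem hy) hx
    have l3 := I.2.2.2 _ (hc φ) ρ (fun r hr _ => l2 ρ r hr) (by simp) (n + 1) (u * hl X ⟨_, hk⟩)
      (pow_succ (Lt H X) n ▸ Set.mul_mem_mul h1 (hl_mem _)) (by simp) x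
    have l4 : Nat.find (ex x) = 0 := (Nat.find_eq_zero _).2 (.inr (by simp))
    rw [hc, h2, hh] at l3
    simp only [F, hy, and_self, if_true, mul_inv_cancel_right, φ, l4, abs_le] at l3
    have l5 : Nat.find (ex (x * proj H X u)) ≤ T := by
      have : (T : ℤ) = ρ * (C * (n + 1 : ℕ) + C) := by simp [T]
      omega
    rcases Nat.find_spec (ex (x * proj H X u)) with h | h
    · omega
    · exact (Set.Finite.mem_toFinset _).2 (Set.pow_subset_pow_right (.inl rfl) l5 h)

theorem malnormal (tf : ∀ k : G, IsOfFinOrder k → k = 1) {i : ι} {k γ : G} (h0 : k ≠ 1)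
    (h1 : k ∈ H i) (h2 : γ⁻¹ * k * γ ∈ H i) : γ ∈ H i := by
  classical
  by_contra h3
  have ex : ∃ n, ∃ h ∈ H i, len H X (h * γ) = n := ⟨_, 1, (H i).one_mem, rfl⟩
  obtain ⟨h, h4, h5⟩ := Nat.find_spec ex
  obtain ⟨B, hB⟩ := exA I
  obtain ⟨Av, a1, a2, a3, a4⟩ := hB i 1
  obtain ⟨P, p1, p2, p3⟩ := geo I (h * γ)
  have k1 : ∀ x ∈ H i, Av (len H X (h * γ)) x (x * (h * γ)) := fun x hx => by
    have := a3 P p1 (len H X (h * γ)) x fun t ht e => by
      rw [inv_one, one_mul, (H i).mul_mem_cancel_left hx] at e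
      have := (p3 (t + 1) ht).2
      have := Nat.find_min' ex ⟨_, mul_mem ((H i).inv_mem e) h4, rfl⟩
      rw [mul_assoc] at this
      omega
    rwa [p2] at this
  have k2 : ∀ n : ℕ, (h * k * h⁻¹) ^ n ∈ B (len H X (h * γ) + 1 + len H X (h * γ)) := fun n => by
    have m1 : (h * k * h⁻¹) ^ n ∈ H i := pow_mem (mul_mem (mul_mem h4 h1) ((H i).inv_mem h4)) n
    have m2 := pow_mem h2 n
    obtain ⟨Q, q1, q2⟩ := ex_pa (n := 1) (by simpa using hl_mem (X := X) ⟨_, m2⟩)
    have := a3 Q q1 1 (h * γ) fun t ht e => h3 (by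
      rw [Nat.lt_one_iff.1 ht, zero_add, q2, proj_hl, inv_one, one_mul,
        (H i).mul_mem_cancel_right m2] at e
      exact ((H i).mul_mem_cancel_left h4).1 e)
    have e : h * γ * (γ⁻¹ * k * γ) ^ n = (h * k * h⁻¹) ^ n * (h * γ) := by
      have := conj_pow (a := γ⁻¹) (b := k) (i := n)
      rw [inv_inv] at this
      rw [conj_pow, this]
      group
    rw [q2, proj_hl, e] at this
    have k3 := k1 1 (H i).one_mem
    rw [one_mul] at k3
    simpa only [inv_one, one_mul] using a4 (a1 (a1 k3 this) (a2 (k1 _ m1))) (by simp)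
      (by simpa only [inv_one, one_mul] using m1)
  have := tf _ (finite_powers.1 ((B _).finite_toSet.subset (by rintro _ ⟨n, rfl⟩; exact k2 n)))
  exact h0 (by simpa [mul_inv_eq_one] using this)

theorem unif [Finite ι] (r j : ℕ) : ∃ N : ℕ, ∀ Z : Subgroup G, (∀ x ∈ Z, ∀ y ∈ Z, x * y = y * x) →
    (∀ z ∈ Z, ∀ i g, g⁻¹ * z * g ∈ H i → z = 1) → ∀ (g : G) (S : Finset G),
    (∀ z ∈ S, z ∈ Z ∧ len H X z ≤ r ∧ len H X (g⁻¹ * z) ≤ j) → S.card ≤ N := by
  classical
  have := Fintype.ofFinite ι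
  induction j with
  | zero =>
    have : ∀ g, len H X g ≤ 0 → g = 1 := fun g h => by
      obtain ⟨u, h1, rfl⟩ := len_spec I g
      rw [Nat.le_zero.1 h, pow_zero, Set.mem_one] at h1
      rw [h1, map_one]
    exact ⟨1, fun Z _ _ g S h => Finset.card_le_one.2 fun a ha b hb => mul_left_cancel
      ((this _ (h a ha).2.2).trans (this _ (h b hb).2.2).symm)⟩
  | succ j ih =>
    obtain ⟨N, ih⟩ := ih
    obtain ⟨B, hB⟩ := exA I
    let T := (Finset.range (2 * j + 2 * r + 1)).biUnion B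
    let T₀ := insert 1 (X ∪ X.image (·⁻¹))
    refine ⟨T₀.card * N + Fintype.card ι * (2 * (r + 1) + T.card * N), fun Z hZ hf g S hS => ?_⟩
    have cov : ∀ (S T : Finset G) g, (∀ z ∈ S, z ∈ Z ∧ len H X z ≤ r ∧
        ∃ t ∈ T, len H X ((g * t)⁻¹ * z) ≤ j) → S.card ≤ T.card * N := fun S T g h =>
      (Finset.card_le_card (t := T.biUnion fun t => S.filter fun z => len H X ((g * t)⁻¹ * z) ≤ j)
        fun z hz => by simpa [hz] using (h z hz).2.2).trans (Finset.card_biUnion_le_card_mul _ _ _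
          fun t _ => ih Z hZ hf (g * t) _ fun z hz => let hz := Finset.mem_filter.1 hz
            ⟨(h z hz.1).1, (h z hz.1).2.1, hz.2⟩)
    have one : ∀ i (S : Finset G), (∀ z ∈ S, z ∈ Z ∧ len H X z ≤ r ∧ len H X (g⁻¹ * z) = j + 1 ∧
        ∃ h ∈ H i, len H X ((g * h)⁻¹ * z) ≤ j) → S.card ≤ 2 * (r + 1) + T.card * N := by
      intro i S hS
      obtain ⟨Av, a1, a2, a3, a4⟩ := hB i g
      choose P p1 p2 p3 using geo I
      choose! s1 s2 s3 h s4 s5 using hS
      let bad : G → G → Prop := fun z z' => ∃ t ≤ r, g⁻¹ * (z' * proj H X (P z t)) ∈ H i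
      have out : ∀ z, (S.filter (bad z)).card ≤ r + 1 := fun z =>
        (Finset.card_le_card_of_forall_subsingleton (t := Finset.range (r + 1))
          (fun z' t => g⁻¹ * (z' * proj H X (P z t)) ∈ H i) (fun a ha => by
            simpa [Nat.lt_succ_iff] using (Finset.mem_filter.1 ha).2) fun t _ a ha b hb => by
            refine mul_inv_eq_one.1 (hf _ (mul_mem (s1 a (Finset.mem_filter.1 ha.1).1)
              (Z.inv_mem (s1 b (Finset.mem_filter.1 hb.1).1))) i g ?_)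
            simpa [mul_assoc] using mul_mem ha.2 ((H i).inv_mem hb.2)).trans_eq (by simp)
      rcases S.eq_empty_or_nonempty with rfl | hne
      · simp
      obtain ⟨z₀, h0, inn⟩ : ∃ z₀ ∈ S, (S.filter (bad · z₀)).card ≤ r + 1 := by
        by_contra! hc
        have := Finset.card_mul_le_card_mul (s := S) (t := S) (fun a b => bad b a) hc fun b _ => out b
        have := hne.card_pos
        nlinarith
      have k1 : ∀ z ∈ S, Av (len H X ((g * h z)⁻¹ * z)) (g * h z) z := fun z hz => by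
        have := a3 _ (p1 ((g * h z)⁻¹ * z)) (len H X ((g * h z)⁻¹ * z)) (g * h z) fun t ht e => by
          have e1 := (p3 ((g * h z)⁻¹ * z) (t + 1) ht).2
          have e2 := len_mul I (g⁻¹ * (g * h z * proj H X (P ((g * h z)⁻¹ * z) (t + 1))))
            ((proj H X (P ((g * h z)⁻¹ * z) (t + 1)))⁻¹ * ((g * h z)⁻¹ * z))
          have e3 := len_H (X := X) e
          have e4 := s3 z hz
          have e5 := s5 z hz
          rw [mul_assoc, mul_assoc, mul_inv_cancel_left, mul_inv_cancel_left] at e2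
          omega
        rwa [p2, mul_inv_cancel_left] at this
      have k2 : ∀ z ∈ S, ∀ z', ¬ bad z z' → Av (len H X z) z' (z' * z) := fun z hz z' hb => by
        have := a3 _ (p1 z) (len H X z) z' fun t ht e => hb ⟨t + 1, (s2 z hz).trans' ht, e⟩
        rwa [p2] at this
      have k3 := cov (S.filter fun z => ¬ bad z z₀ ∧ ¬ bad z₀ z) T (g * h z₀) fun z hz => by
        obtain ⟨hz, b1, b2⟩ := Finset.mem_filter.1 hz
        refine ⟨s1 z hz, s2 z hz, _, Finset.mem_biUnion.2 ⟨_, ?_, a4 (a1 (a1 (a1 (k1 z₀ h0)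
          (k2 z hz z₀ b1)) (a2 (hZ _ (s1 z hz) _ (s1 z₀ h0) ▸ k2 z₀ h0 z b2))) (a2 (k1 z hz)))
          (by simpa using s4 z₀ h0) (by simpa using s4 z hz)⟩, by
            simpa only [mul_inv_cancel_left] using s5 z hz⟩
        have := s2 z hz
        have := s2 z₀ h0
        have := s5 z hz
        have := s5 z₀ h0
        rw [Finset.mem_range]
        omega
      have k4 := Finset.card_le_card (show S ⊆ S.filter (bad · z₀) ∪ S.filter (bad z₀) ∪
        S.filter fun z => ¬ bad z z₀ ∧ ¬ bad z₀ z from fun z hz => by simp [hz]; tauto)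
      have := Finset.card_union_le (S.filter (bad · z₀) ∪ S.filter (bad z₀))
        (S.filter fun z => ¬ bad z z₀ ∧ ¬ bad z₀ z)
      have := Finset.card_union_le (S.filter (bad · z₀)) (S.filter (bad z₀))
      have := out z₀
      omega
    refine (Finset.card_le_card (t := S.filter (fun z => ∃ t ∈ T₀, len H X ((g * t)⁻¹ * z) ≤ j) ∪
      Finset.univ.biUnion fun i => S.filter fun z => len H X (g⁻¹ * z) = j + 1 ∧
        ∃ h ∈ H i, len H X ((g * h)⁻¹ * z) ≤ j) fun z hz => ?_).trans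
      ((Finset.card_union_le _ _).trans (add_le_add (cov _ _ g fun z hz => ?_)
        (Finset.card_biUnion_le_card_mul _ _ _ fun i _ => one i _ fun z hz => ?_)))
    · simp only [Finset.mem_union, Finset.mem_filter, hz, true_and, Finset.mem_biUnion,
        Finset.mem_univ]
      rcases (hS z hz).2.2.eq_or_lt with e | e
      swap
      · exact .inl ⟨1, by simp [T₀], by simpa [Nat.lt_succ_iff] using e⟩
      obtain ⟨u, h1, h2⟩ := len_spec I (g⁻¹ * z)
      obtain ⟨s, hs, v, hv, rfl⟩ := pow_succ' (Lt H X) j ▸ e ▸ h1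
      have h3 : len H X ((g * proj H X s)⁻¹ * z) ≤ j := by
        rw [mul_inv_rev, mul_assoc, ← h2, map_mul, inv_mul_cancel_left]
        exact len_le hv
      rcases hs with rfl | ⟨x, rfl | rfl⟩ | ⟨i, k, -, rfl⟩
      · exact .inl ⟨_, by simp [T₀], h3⟩
      · exact .inl ⟨_, by simp [T₀], h3⟩
      · exact .inl ⟨_, by simp [T₀], h3⟩
      · exact .inr ⟨i, e, _, by simp [proj], h3⟩
    all_goals
      obtain ⟨hz, h⟩ := Finset.mem_filter.1 hz
      exact ⟨(hS z hz).1, (hS z hz).2.1, h⟩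

end Pool.Agent.H65.RelHyp
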