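import Pool.Agent.H65.RH2

/-! A free abelian subgroup of rank two meets a conjugate of a peripheral subgroup. -/

namespace Pool.Agent.H65.RelHyp

open Pointwise Monoid

variable {G : Type} [Group G] {ι : Type} {H : ι → Subgroup G} {X : Finset G}
variable {Λ : Set (FP H X)} {ρ C : ℕ} (I : Iso H X Λ ρ C)

include I

theorem travel {P : ℕ → FP H X} (hP : Pa P) {l D s : ℕ} {z : G} (f : G → ℕ)
    (hg : ∀ t ≤ l, len H X (proj H X (P t)) = t) (f1 : ∀ g h, f (g * h) ≤ f g + len H X h)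
    (f2 : ∀ g, f g ≤ D) (f3 : ∀ t ≤ l, f (proj H X (P t)) = 0) (hz : len H X z ≤ s)
    (hc : proj H X (P l) * z = z * proj H X (P l)) :
    ∑ k ∈ Finset.range l, f (z * proj H X (P k)) ≤
      2 * l + 2 * (D * s) + ρ * ρ * (C * (l + s + l + s) + C) := by
  let φ : G → ℤ := fun g => len H X (z⁻¹ * g)
  obtain ⟨c, hc1, -, hs⟩ := ex_c (H := H) (X := X) φ (fun g => f g)
    (fun i g => f (QuotientGroup.mk g : G ⧸ H i).out) fun i g h hh => by
      rw [QuotientGroup.mk_mul_of_mem g hh]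
  have lip : ∀ f : G → ℕ, (∀ g h, f (g * h) ≤ f g + len H X h) → ∀ g h k, len H X h ≤ k →
      |(f (g * h) : ℤ) - f g| ≤ k := fun f hf g h k hk => by
    have h1 := hf g h
    have h2 := hf (g * h) h⁻¹
    rw [mul_inv_cancel_right, len_inv I] at h2
    rw [abs_le]
    omega
  have hs' : ∀ s ∈ Lt H X, ∀ g, ∃ a d : ℤ, c s g = a * d ∧ d = φ (g * proj H X s) - φ g ∧
      |d| ≤ 1 ∧ |a - f g| ≤ 1 ∧ 0 ≤ a ∧ a ≤ D := fun s h g => by
    obtain ⟨a, h1, h2⟩ := hs s h g
    refine ⟨a, _, h1, rfl, lip (fun g => len H X (z⁻¹ * g)) (fun g h => by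
      rw [← mul_assoc]; exact len_mul I _ _) g _ 1 (len_lt h), ?_⟩
    obtain rfl | rfl | ⟨i, -, rfl⟩ := h2
    · simp [f2]
    · exact ⟨lip f f1 g _ 1 (len_lt h), by simp [f2]⟩
    · obtain ⟨k, e⟩ := QuotientGroup.mk_out_eq_mul (H i) g
      exact ⟨e ▸ lip f f1 g _ 1 (len_H k.2), by simp [f2]⟩
  have b1 : ∀ k : ℕ, ∀ r ∈ Lt H X ^ k, ∀ g,
      |c r g - f g * (φ (g * proj H X r) - φ g)| ≤ k * k ∧ |c r g| ≤ D * k := fun k => by
    induction k with
    | zero => simp [hc1.one]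
    | succ k ih =>
      intro r hr g
      obtain ⟨v, hv, s, h, rfl⟩ := pow_succ (Lt H X) k ▸ hr
      obtain ⟨a, d, h1, h2, h3, h4, h5, h6⟩ := hs' s h (g * proj H X v)
      obtain ⟨h7, h8⟩ := ih v hv g
      have h9 := lip f f1 g _ k (len_le hv)
      dsimp only
      rw [hc1, map_mul, ← mul_assoc, h1, show φ (g * proj H X v * proj H X s) =
        d + φ (g * proj H X v) by omega]
      have : d = -1 ∨ d = 0 ∨ d = 1 := by rw [abs_le] at h3; omega
      push_cast
      simp only [abs_le] at h4 h7 h8 h9 ⊢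
      have : (0 : ℤ) ≤ k := by positivity
      rcases ‹_ ∨ _› with rfl | rfl | rfl <;> refine ⟨⟨?_, ?_⟩, ?_, ?_⟩ <;> linarith
  have b2 : ∀ t ≤ l, c (P t) 1 ≤ t ∧
      ∑ k ∈ Finset.range t, (f (z * proj H X (P k)) : ℤ) ≤ c (P t) z + t := fun t ht => by
    induction t with
    | zero => simp [hP.1, hc1.one]
    | succ t ih =>
      obtain ⟨s, h, e⟩ := hP.2 t
      obtain ⟨h7, h8⟩ := ih (by omega)
      obtain ⟨a, d, h1, -, h3, h4, h5, -⟩ := hs' s h (1 * proj H X (P t))
      obtain ⟨a', d', h1', h2', -, h4', -⟩ := hs' s h (z * proj H X (P t))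
      have e1 := hg _ ht
      rw [e, map_mul] at e1
      simp only [φ, mul_assoc, inv_mul_cancel_left, e1, hg t (by omega)] at h2'
      obtain rfl : d' = 1 := by omega
      rw [one_mul, f3 t (by omega)] at h4
      rw [Finset.sum_range_succ, e, hc1, hc1, h1, h1']
      simp only [abs_le] at h3 h4 h4'
      push_cast at h4 ⊢
      exact ⟨by nlinarith [mul_nonneg h5 (sub_nonneg.2 h3.2)], by linarith⟩
  obtain ⟨σ, h1, rfl⟩ := len_spec I z
  replace h1 := Set.pow_subset_pow_right one_mem hz h1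
  have h2 := I.2.2.2 c hc1 (ρ * ρ) (fun r hr e g => by
    simpa [e] using (b1 ρ r (Set.pow_subset_pow_left I.2.2.1 hr) g).1) (by positivity) _ _
    (pow_mul' (pow_mul' (pow_mul' (hP.mem l) h1) (pow_inv (hP.mem l))) (pow_inv h1))
    (by simp [hc]) 1
  have h3 := hc1.inv σ 1
  have h4 := hc1.inv (P l) (proj H X σ)
  have h5 := (b1 s σ h1 1).2
  have h6 := (b1 s σ h1 (proj H X (P l))).2
  have h7 := b2 l le_rfl
  rw [hc1, hc1, hc1] at h2
  simp only [map_mul, hc, map_inv, one_mul, mul_inv_cancel_right, abs_le] at h2 h3 h5 h6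
  zify
  push_cast at h2
  linarith

theorem z2 [Finite ι] {a b : G} (hab : a * b = b * a)
    (hi : ∀ m n : ℤ, a ^ m * b ^ n = 1 → m = 0 ∧ n = 0) :
    ∃ z ≠ 1, z * a = a * z ∧ z * b = b * z ∧ ∃ i g, g⁻¹ * z * g ∈ H i := by
  classical
  by_contra! hn
  let Z := Subgroup.centralizer {a, b} ⊓ Subgroup.centralizer (Subgroup.centralizer {a, b} : Set G)
  have hZ : ∀ x ∈ Z, ∀ y ∈ Z, x * y = y * x := fun x hx y hy => hy.2 x hx.1
  have hf : ∀ z ∈ Z, ∀ i g, g⁻¹ * z * g ∈ H i → z = 1 := fun z hz i g h => by_contra fun e =>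
    hn z e (hz.1 a (by simp)).symm (hz.1 b (by simp)).symm i g h
  have ha : a ∈ Z := ⟨by simp [Subgroup.mem_centralizer_iff, hab],
    fun y hy => (hy a (by simp)).symm⟩
  have hb : b ∈ Z := ⟨by simp [Subgroup.mem_centralizer_iff, hab],
    fun y hy => (hy b (by simp)).symm⟩
  let L := len H X a + len H X b
  have lp : ∀ (g : G) (n : ℕ), len H X (g ^ n) ≤ n * len H X g := fun g n => by
    induction n with
    | zero => simpa using len_le (H := H) (X := X) (n := 0) (u := 1) (by simp)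
    | succ n ih => exact pow_succ g n ▸ (len_mul I _ _).trans (by rw [add_mul]; omega)
  have hS : ∀ R : ℕ, ∃ S : Finset G, S.card = R * R ∧ ∀ z ∈ S, z ∈ Z ∧ len H X z ≤ R * L := by
    refine fun R => ⟨(Finset.range R ×ˢ Finset.range R).image fun p => a ^ p.1 * b ^ p.2, ?_, ?_⟩
    · rw [Finset.card_image_of_injective _ fun p q e => ?_]
      · simp
      · have := hi (p.1 - q.1) (p.2 - q.2) (by
          rw [sub_eq_neg_add, zpow_add, zpow_neg, zpow_sub, zpow_natCast, zpow_natCast,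
            zpow_natCast, zpow_natCast, mul_assoc, ← mul_assoc (a ^ p.1),
            show a ^ p.1 * b ^ p.2 = _ from e]
          simp)
        ext <;> omega
    · simp only [Finset.mem_image, Finset.mem_product, Finset.mem_range]
      rintro _ ⟨p, ⟨h1, h2⟩, rfl⟩
      refine ⟨mul_mem (pow_mem ha _) (pow_mem hb _), (len_mul I _ _).trans ?_⟩
      exact (add_le_add (lp _ _) (lp _ _)).trans (by rw [mul_add]; gcongr)
  let A := 3 + 2 * (ρ * ρ * C)
  obtain ⟨N, hN⟩ := unif I (2 * A + 2 * A) (2 * A + 2 * A)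
  have hN' : ∀ (v v' : G) (S : Finset G), (∀ z ∈ S, z ∈ Z ∧ len H X (v'⁻¹ * (z * v)) ≤ 2 * A) →
      S.card ≤ N := fun v v' S h => by
    rcases S.eq_empty_or_nonempty with rfl | ⟨z₀, h0⟩
    · simp
    rw [← Finset.card_image_of_injective S (f := fun z => v⁻¹ * (z₀⁻¹ * z) * v) fun x y e => by
      simpa using e]
    refine hN (Z.comap (MulAut.conj v).toMonoidHom) (fun x hx y hy => (MulAut.conj v).injective
      (by simpa using hZ _ hx _ hy)) (fun z hz i g e => by
        simpa using hf _ hz i (v * g) (by simpa [mul_assoc] using e)) 1 _ ?_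
    simp only [Finset.mem_image]
    rintro _ ⟨z, hz, rfl⟩
    have := len_mul I (v'⁻¹ * (z₀ * v))⁻¹ (v'⁻¹ * (z * v))
    rw [len_inv I] at this
    have h1 := (h z hz).2
    have h2 := (h z₀ h0).2
    have h3 : len H X (v⁻¹ * (z₀⁻¹ * z) * v) ≤ 2 * A + 2 * A := by
      simp only [mul_inv_rev, inv_inv, mul_assoc, mul_inv_cancel_left] at this ⊢
      omega
    exact ⟨by simpa [mul_assoc] using mul_mem (Z.inv_mem (h z₀ h0).1) (h z hz).1, h3,
      by simpa using h3⟩
  let R := 2 * ((2 * (2 * A + L) + 1) * N) + 1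
  obtain ⟨S, s1, s2⟩ := hS R
  obtain ⟨y, y1, y2⟩ : ∃ y ∈ Z, 2 * (2 * A * (R * L)) + ρ * ρ * (C * (R * L + R * L) + C) <
      len H X y := by
    by_contra! h
    obtain ⟨M, hM⟩ := unif I _ _
    obtain ⟨S, s1, s2⟩ := hS (M + 1)
    have := hM Z hZ hf 1 S fun z hz => ⟨(s2 z hz).1, h z (s2 z hz).1, by simpa using h z (s2 z hz).1⟩
    nlinarith
  obtain ⟨P, p1, p2, p3⟩ := geo I y
  have ex : ∀ g, ∃ k, k = 2 * A ∨ ∃ t ≤ len H X y, len H X ((proj H X (P t))⁻¹ * g) ≤ k :=
    fun _ => ⟨_, .inl rfl⟩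
  have k1 : ∀ z ∈ S, ∑ k ∈ Finset.range (len H X y), Nat.find (ex (z * proj H X (P k))) ≤
      A * len H X y := fun z hz => by
    refine (travel I p1 (fun g => Nat.find (ex g)) (fun t ht => (p3 t ht).1) (fun g h => ?_)
      (fun g => Nat.find_le (.inl rfl)) (fun t ht => (Nat.find_eq_zero _).2 (.inr ⟨t, ht, by
        simpa using lp 1 0⟩)) (s2 z hz).2 (by rw [p2]; exact hZ _ y1 _ (s2 z hz).1)).trans ?_
    · rcases Nat.find_spec (ex g) with e | ⟨t, ht, e⟩
      · exact (Nat.find_le (.inl rfl)).trans (by omega)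
      · exact Nat.find_le (.inr ⟨t, ht, mul_assoc _ g h ▸ (len_mul I _ _).trans (by omega)⟩)
    · simp only [A] at y2 ⊢
      nlinarith
  have k2 : ∀ k ∈ Finset.range (len H X y), 2 * A * (R * R) ≤
      ∑ z ∈ S, Nat.find (ex (z * proj H X (P k))) + 2 * A * ((2 * (2 * A + R * L) + 1) * N) := by
    intro k hk
    have h1 : (S.filter fun z => Nat.find (ex (z * proj H X (P k))) ≠ 2 * A).card ≤
        (2 * (2 * A + R * L) + 1) * N := by
      refine (Finset.card_le_card (t := (Finset.Icc (k - (2 * A + R * L))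
        (k + (2 * A + R * L))).biUnion fun t => S.filter fun z => len H X ((proj H X (P t))⁻¹ *
        (z * proj H X (P k))) ≤ 2 * A) fun z hz => ?_).trans ((Finset.card_biUnion_le_card_mul _ _
        _ fun t _ => hN' _ _ _ fun z hz => let hz := Finset.mem_filter.1 hz
          ⟨(s2 z hz.1).1, hz.2⟩).trans (Nat.mul_le_mul_right _ (by rw [Nat.card_Icc]; omega)))
      obtain ⟨hz, h⟩ := Finset.mem_filter.1 hz
      obtain ⟨t, ht, e⟩ := (Nat.find_spec (ex _)).resolve_left h
      replace e := e.trans (Nat.find_le (.inl rfl))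
      have e1 := len_mul I (z * proj H X (P k)) ((proj H X (P t))⁻¹ * (z * proj H X (P k)))⁻¹
      have e2 := len_mul I z (proj H X (P k))
      have e3 := len_mul I (proj H X (P t)) ((proj H X (P t))⁻¹ * (z * proj H X (P k)))
      have e4 := len_mul I z⁻¹ (z * proj H X (P k))
      have e5 := (s2 z hz).2
      rw [len_inv I] at e1 e4
      simp only [mul_inv_rev (_⁻¹), inv_inv, mul_inv_cancel_left, inv_mul_cancel_left,
        (p3 t ht).1, (p3 k (Finset.mem_range.1 hk).le).1] at e1 e2 e3 e4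
      simp only [Finset.mem_biUnion, Finset.mem_Icc, Finset.mem_filter]
      exact ⟨t, by omega, hz, e⟩
    have h2 := Finset.card_filter_add_card_filter_not (s := S)
      fun z => Nat.find (ex (z * proj H X (P k))) = 2 * A
    have h3 := Finset.sum_le_sum_of_subset (f := fun z => Nat.find (ex (z * proj H X (P k))))
      (Finset.filter_subset (fun z => Nat.find (ex (z * proj H X (P k))) = 2 * A) S)
    rw [Finset.sum_const_nat fun z hz => (Finset.mem_filter.1 hz).2] at h3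
    rw [← s1, ← h2]
    nlinarith
  have k3 := Finset.sum_le_sum k2
  have k4 := Finset.sum_le_sum k1
  rw [Finset.sum_add_distrib, Finset.sum_comm] at k3
  simp only [Finset.sum_const, Finset.card_range, smul_eq_mul, s1] at k3 k4
  have k5 : len H X y * A * (R * R) ≤ len H X y * A * (2 * ((2 * (2 * A + R * L) + 1) * N)) := by
    nlinarith
  have k6 := Nat.le_of_mul_le_mul_left k5 (Nat.mul_pos (by omega) (by omega))
  have k7 : 2 * ((2 * (2 * A + R * L) + 1) * N) ≤ R * (2 * ((2 * (2 * A + L) + 1) * N)) := by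
    have : 1 ≤ R := by omega
    have : (2 * (2 * A + R * L) + 1) ≤ R * (2 * (2 * A + L) + 1) := by nlinarith
    nlinarith
  have : R * R = R * (2 * ((2 * (2 * A + L) + 1) * N)) + R := rfl
  omega

end Pool.Agent.H65.RelHyp
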