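import Mathlib

/-! Relative hyperbolicity in the sense of Osin. -/

namespace Pool.Agent.H65.RelHyp

variable {G : Type} [Group G] {ι : Type}

/-- The free product of the subgroups `H i` and the free group on `X`. -/
abbrev FP (H : ι → Subgroup G) (X : Finset G) : Type :=
  Monoid.Coprod (Monoid.CoprodI fun i => H i) (FreeGroup X)

/-- The natural map from the free product to `G`. -/
def proj (H : ι → Subgroup G) (X : Finset G) : FP H X →* G :=
  Monoid.Coprod.lift (Monoid.CoprodI.lift fun i => (H i).subtype) (FreeGroup.lift Subtype.val)

/-- The letters: elements of `X`, their inverses, and non-trivial elements of the `H i`. -/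
def Letter (H : ι → Subgroup G) (X : Finset G) (s : FP H X) : Prop :=
  (∃ x : X, s = Monoid.Coprod.inr (FreeGroup.of x) ∨ s = (Monoid.Coprod.inr (FreeGroup.of x))⁻¹) ∨
    ∃ (i : ι) (h : H i), h ≠ 1 ∧ s = Monoid.Coprod.inl (Monoid.CoprodI.of (M := fun i => H i) h)

/-- `G` is hyperbolic relative to the family `H`: it is generated by a finite set `X` and the
`H i`, the kernel of `proj` is the normal closure of a finite set `Rel`, and every word of length
`n` in the letters that is trivial in `G` is, in the free product, a product of at most `C n + C`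
conjugates of elements of `Rel` and their inverses. -/
def IsRelHyp (H : ι → Subgroup G) : Prop :=
  ∃ (X : Finset G) (Rel : Finset (FP H X)) (C : ℕ), Function.Surjective (proj H X) ∧
    (proj H X).ker = Subgroup.normalClosure (Rel : Set (FP H X)) ∧
    ∀ W : List (FP H X), (∀ s ∈ W, Letter H X s) → proj H X W.prod = 1 →
      ∃ L : List (FP H X × FP H X), (∀ p ∈ L, p.2 ∈ Rel ∨ p.2⁻¹ ∈ Rel) ∧
        L.length ≤ C * W.length + C ∧ W.prod = (L.map fun p => p.1⁻¹ * p.2 * p.1).prod

end Pool.Agent.H65.RelHyp
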