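import Pool.Agent.H65.Dprm2

/-! A finitely generated nilpotent group of class 2 with undecidable retract problem. -/

namespace Pool.Agent.H65.Retract

open Pool.Agent.H65.Dprm

@[ext] structure Heis (R : Type) where
  y : R
  z : R
  w : R

variable {R : Type} [CommRing R]

instance : Mul (Heis R) := ⟨fun a b => ⟨a.y + b.y, a.z + b.z, a.w + b.w + a.y * b.z⟩⟩
instance : One (Heis R) := ⟨⟨0, 0, 0⟩⟩
instance : Inv (Heis R) := ⟨fun a => ⟨-a.y, -a.z, -a.w + a.y * a.z⟩⟩

@[simp] theorem mul_y (a b : Heis R) : (a * b).y = a.y + b.y := rfl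
@[simp] theorem mul_z (a b : Heis R) : (a * b).z = a.z + b.z := rfl
@[simp] theorem mul_w (a b : Heis R) : (a * b).w = a.w + b.w + a.y * b.z := rfl
@[simp] theorem one_y : (1 : Heis R).y = 0 := rfl
@[simp] theorem one_z : (1 : Heis R).z = 0 := rfl
@[simp] theorem one_w : (1 : Heis R).w = 0 := rfl
@[simp] theorem inv_y (a : Heis R) : a⁻¹.y = -a.y := rfl
@[simp] theorem inv_z (a : Heis R) : a⁻¹.z = -a.z := rfl
@[simp] theorem inv_w (a : Heis R) : a⁻¹.w = -a.w + a.y * a.z := rfl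

instance : Group (Heis R) :=
  Group.ofLeftAxioms (fun a b c => by ext <;> simp <;> ring) (fun a => by ext <;> simp)
    (fun a => by ext <;> simp)

instance : Group.IsNilpotent (Heis R) := by
  let f : Heis R →* Multiplicative (R × R) :=
    MonoidHom.mk' (fun a => Multiplicative.ofAdd (a.y, a.z)) fun a b => rfl
  refine Subgroup.isNilpotent_of_ker_le_center f fun a ha => ?_
  have h : (a.y, a.z) = 0 := ha
  simp only [Prod.mk_eq_zero] at h
  rw [Subgroup.mem_center_iff]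
  intro b
  ext <;> simp [h.1, h.2, add_comm]

def Y (f : R) : Heis R := ⟨f, 0, 0⟩
def Z (f : R) : Heis R := ⟨0, f, 0⟩
def W (f : R) : Heis R := ⟨0, 0, f⟩

theorem zpow_of {P : R → Heis R} (h : ∀ f g, P (f + g) = P f * P g) (f : R) (a : ℤ) :
    P f ^ a = P (a * f) := by
  let φ : Multiplicative R →* Heis R := MonoidHom.mk' (fun x => P x.toAdd) fun x y => h _ _
  have := map_zpow φ (Multiplicative.ofAdd f) a
  simp only [φ, MonoidHom.mk'_apply, toAdd_zpow, toAdd_ofAdd, zsmul_eq_mul] at this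
  exact this.symm

theorem Y_zpow (f : R) (a : ℤ) : Y f ^ a = Y (a * f) := zpow_of (fun _ _ => by ext <;> simp [Y]) f a
theorem Z_zpow (f : R) (a : ℤ) : Z f ^ a = Z (a * f) := zpow_of (fun _ _ => by ext <;> simp [Z]) f a
theorem W_zpow (f : R) (a : ℤ) : W f ^ a = W (a * f) := zpow_of (fun _ _ => by ext <;> simp [W]) f a

theorem comm_YZ (f g : R) : Y f * Z g * (Y f)⁻¹ * (Z g)⁻¹ = W (f * g) := by
  ext <;> simp [Y, Z, W]

def evH {R' : Type} [CommRing R'] (e : R →+* R') : Heis R →* Heis R' :=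
  MonoidHom.mk' (fun a => ⟨e a.y, e a.z, e a.w⟩) fun a b => by ext <;> simp

def emb (g : R) : Heis ℤ →* Heis R :=
  MonoidHom.mk' (fun a => ⟨a.y, a.z * g, a.w * g⟩) fun a b => by ext <;> simp <;> ring

section Main

variable (G : Subgroup (Heis R)) (A B : G) (g : R) (hA : A.1 = Y 1) (hB : B.1 = Z g)

include hA hB in
theorem retract_of (e : R →+* ℤ) (he : e g = 1) :
    ∃ r : G →* G, r.range = Subgroup.closure {A, B} ∧ ∀ h ∈ Subgroup.closure {A, B}, r h = h := by
  have key : ∀ a : Heis ℤ, ∃ h ∈ Subgroup.closure ({A, B} : Set G), h.1 = emb g a := by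
    intro a
    have h1 : A ∈ Subgroup.closure ({A, B} : Set G) := Subgroup.subset_closure (by simp)
    have h2 : B ∈ Subgroup.closure ({A, B} : Set G) := Subgroup.subset_closure (by simp)
    refine ⟨B ^ a.z * A ^ a.y * (A * B * A⁻¹ * B⁻¹) ^ a.w, mul_mem (mul_mem (zpow_mem h2 _)
      (zpow_mem h1 _)) (zpow_mem (mul_mem (mul_mem (mul_mem h1 h2) (inv_mem h1)) (inv_mem h2)) _), ?_⟩
    simp only [Subgroup.coe_mul, SubgroupClass.coe_zpow, Subgroup.coe_inv, hA, hB, comm_YZ, Y_zpow,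
      Z_zpow, W_zpow]
    ext <;> simp [Y, Z, W, emb]
  let r : G →* G := (((emb g).comp (evH e)).comp G.subtype).codRestrict G fun a => by
    obtain ⟨h, -, hh⟩ := key (evH e a.1)
    exact hh ▸ h.2
  have hr : ∀ h ∈ Subgroup.closure ({A, B} : Set G), r h = h := by
    intro h hh
    refine MonoidHom.eqOn_closure (f := r) (g := MonoidHom.id G) ?_ hh
    rintro _ (rfl | rfl) <;> refine Subtype.ext ?_
    · change emb g (evH e _) = _
      ext <;> simp [hA, Y, emb, evH]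
    · change emb g (evH e _) = _
      ext <;> simp [hB, Z, emb, evH, he]
  refine ⟨r, le_antisymm ?_ fun h hh => ⟨h, hr h hh⟩, hr⟩
  rintro _ ⟨a, rfl⟩
  obtain ⟨h, h1, hh⟩ := key (evH e a.1)
  have : r a = h := Subtype.ext hh.symm
  rwa [this]

include hA hB in
theorem psi_of (e : R →+* ℤ) (r : G →* G) (h1 : r.range = Subgroup.closure {A, B})
    (h2 : ∀ h ∈ Subgroup.closure {A, B}, r h = h) :
    ∃ ψ : G →* Heis ℤ, ψ A = Y 1 ∧ ψ B = Z (e g) ∧ ∀ a, e g ∣ (ψ a).z := by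
  refine ⟨((evH e).comp G.subtype).comp r, ?_, ?_, fun a => ?_⟩
  · change evH e (r A).1 = _
    rw [h2 A (Subgroup.subset_closure (by simp)), hA]
    ext <;> simp [evH, Y]
  · change evH e (r B).1 = _
    rw [h2 B (Subgroup.subset_closure (by simp)), hB]
    ext <;> simp [evH, Z]
  · change e g ∣ e (r a).1.z
    have h3 : r a ∈ Subgroup.closure ({A, B} : Set G) := h1 ▸ ⟨a, rfl⟩
    generalize r a = b at h3
    induction h3 using Subgroup.closure_induction with
    | mem x hx => rcases hx with rfl | rfl <;> simp [hA, hB, Y, Z]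
    | one => simp
    | mul x y _ _ hx hy => simpa using dvd_add hx hy
    | inv x _ hx => simpa using hx

end Main

theorem solve {G : Subgroup (Heis R)} (F : ℕ → R) (h0 : F 0 = 1) (yG zG : ℕ → G)
    (hy : ∀ k, (yG k).1 = Y (F k)) (hz : ∀ k, (zG k).1 = Z (F k)) (i : ℕ) (m : ℤ) (B : G)
    (hB : B.1 = Z (1 - 3 * F i + 3 * m)) (ψ : G →* Heis ℤ) (γ : ℤ) (hγ : γ ≠ 0)
    (a1 : ψ (yG 0) = Y 1) (a2 : ψ B = Z γ) (a3 : ∀ a, γ ∣ (ψ a).z) :
    ∃ x : ℕ → ℤ, x i = m ∧ (∀ j k l, F j + F k = F l → x j + x k = x l) ∧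
      (∀ j k l, F j * F k = F l → x j * x k = x l) ∧ ∀ j (c : ℤ), F j = c → x j = c := by
  have b1 : ∀ k, (ψ (yG k)).z = 0 := fun k => by
    have h : yG k * yG 0 = yG 0 * yG k := Subtype.ext (by ext <;> simp [hy, Y, add_comm])
    have h2 := congrArg (fun a => (ψ a).w) h
    simpa [a1, Y] using h2
  have b2 : ∀ k, (ψ (zG k)).y = 0 := fun k => by
    have h : zG k * B = B * zG k := Subtype.ext (by ext <;> simp [hz, hB, Z, add_comm])
    have h2 := congrArg (fun a => (ψ a).w) h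
    simpa [a2, Z, hγ] using h2
  have b3 : ∀ j k j' k', F j * F k = F j' * F k' →
      (ψ (yG j)).y * (ψ (zG k)).z = (ψ (yG j')).y * (ψ (zG k')).z := fun j k j' k' e => by
    have h : yG j * zG k * (yG j)⁻¹ * (zG k)⁻¹ = yG j' * zG k' * (yG j')⁻¹ * (zG k')⁻¹ :=
      Subtype.ext (by simp only [Subgroup.coe_mul, Subgroup.coe_inv, hy, hz, comm_YZ, e])
    have h2 := congrArg (fun a => (ψ a).w) h
    simp [b1, b2] at h2
    linarith
  have b4 : ∀ k, (ψ (zG k)).z = (ψ (yG k)).y * (ψ (zG 0)).z := fun k => by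
    have := b3 0 k k 0 (mul_comm _ _)
    simpa [a1, Y] using this
  have zp : ∀ (a : Heis ℤ) (c : ℤ), (a ^ c).y = c * a.y ∧ (a ^ c).z = c * a.z := fun a c => by
    induction c using Int.induction_on with
    | zero => simp
    | succ n ih => rw [zpow_add_one]; simp only [mul_y, mul_z, ih]; constructor <;> ring
    | pred n ih => rw [zpow_sub_one]; simp only [mul_y, mul_z, inv_y, inv_z, ih]; constructor <;> ring
  have b5 : γ = (1 - 3 * (ψ (yG i)).y + 3 * m) * (ψ (zG 0)).z := by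
    have h : B = zG 0 * zG i ^ (-3 : ℤ) * zG 0 ^ (3 * m) := Subtype.ext (by
      simp only [Subgroup.coe_mul, SubgroupClass.coe_zpow, hz, hB, Z_zpow]
      ext <;> simp [Z, h0]
      ring)
    have h2 := congrArg (fun a => (ψ a).z) h
    simp only [a2, map_mul, map_zpow, mul_z, (zp _ _).2, b4 i, Z] at h2
    linarith
  obtain ⟨t, ht⟩ := a3 (zG 0)
  have b6 : (1 - 3 * (ψ (yG i)).y + 3 * m) * t = 1 := by
    refine mul_left_cancel₀ hγ ?_
    rw [ht] at b5
    linarith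
  have b7 : (ψ (zG 0)).z ≠ 0 := fun e => hγ (by rw [b5, e, mul_zero])
  refine ⟨fun k => (ψ (yG k)).y, ?_, fun j k l e => ?_, fun j k l e => ?_, fun j c e => ?_⟩
  · rcases Int.eq_one_or_neg_one_of_mul_eq_one b6 with h | h <;> dsimp only <;> omega
  · have h : yG j * yG k = yG l := Subtype.ext (by ext <;> simp [hy, Y, e])
    simpa using congrArg (fun a => (ψ a).y) h
  · have := b3 j k l 0 (by rw [e, h0, mul_one])
    rw [b4 k] at this
    exact mul_right_cancel₀ b7 (by linarith)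
  · have h : yG j = yG 0 ^ c := Subtype.ext (by
      simp only [SubgroupClass.coe_zpow, hy, Y_zpow, e, h0, mul_one])
    simp [h, (zp _ _).1, a1, Y]

theorem exists_free (G : Type) [Group G] [h : Group.FG G] :
    ∃ (n : ℕ) (φ : FreeGroup (Fin n) →* G), Function.Surjective φ := by
  obtain ⟨S, hS⟩ := h.out
  refine ⟨S.card, FreeGroup.lift fun i => (S.equivFin.symm i).1, ?_⟩
  rw [← MonoidHom.range_eq_top, FreeGroup.range_lift_eq_closure, eq_top_iff, ← hS]
  refine Subgroup.closure_mono fun x hx => ⟨S.equivFin ⟨x, hx⟩, by simp⟩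

theorem main : ∃ (G : Type) (_ : Group G), Group.IsNilpotent G ∧
    ∃ (n : ℕ) (φ : FreeGroup (Fin n) →* G), Function.Surjective φ ∧
      ¬ ComputablePred (fun L : List (List (Fin n × Bool)) =>
        ∃ r : G →* G,
          r.range = Subgroup.closure {g : G | ∃ w ∈ L, φ (FreeGroup.mk w) = g} ∧
          ∀ h ∈ Subgroup.closure {g : G | ∃ w ∈ L, φ (FreeGroup.mk w) = g}, r h = h) := by
  obtain ⟨i, S, hS⟩ := h10
  obtain ⟨σ0, hσ0⟩ : ∃ x : ℕ → ℤ, ∀ q ∈ S, q.Sat x := by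
    by_contra hn
    refine hS (ComputablePred.of_eq (p := fun _ => False) ⟨inferInstance, Computable.const false⟩
      fun m => ⟨False.elim, fun ⟨x, _, h⟩ => hn ⟨x, h⟩⟩)
  obtain ⟨N, hN⟩ := (i :: S.flatMap Eqn.vars).finite_toSet.bddAbove
  let R := {x : ℕ → ℤ // ∀ q ∈ S, q.Sat x} → ℤ
  let F : ℕ → R := fun k => Nat.casesOn k 1 fun k σ => if k ≤ N then σ.1 k else 0
  have hF : (Set.range F).Finite := by
    refine (((Set.finite_le_nat (N + 1)).image F).insert 0).subset ?_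
    rintro _ ⟨k, rfl⟩
    by_cases hk : k ≤ N + 1
    · exact .inr ⟨k, hk, rfl⟩
    · obtain ⟨k, rfl⟩ : ∃ j, k = j + 1 := ⟨k - 1, by omega⟩
      left
      funext σ
      exact if_neg (by omega)
  have hF0 : F 0 = 1 := rfl
  have hFk : ∀ k ≤ N, ∀ σ, F (k + 1) σ = σ.1 k := fun k hk σ => if_pos hk
  have he : ∀ (e : R →+* ℤ) (f : R) (m : ℤ), e (1 - 3 * f + 3 * (m : R)) = 1 - 3 * e f + 3 * m := by
    intro e f m
    rw [map_add, map_sub, map_mul, map_mul, map_one, map_ofNat, map_intCast, Int.cast_id]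
  let T : Set (Heis R) := Y '' Set.range F ∪ Z '' Set.range F
  have : Finite T := ((hF.image _).union (hF.image _)).to_subtype
  let G := Subgroup.closure T
  let yG : ℕ → G := fun k => ⟨Y (F k), Subgroup.subset_closure (.inl ⟨_, ⟨k, rfl⟩, rfl⟩)⟩
  let zG : ℕ → G := fun k => ⟨Z (F k), Subgroup.subset_closure (.inr ⟨_, ⟨k, rfl⟩, rfl⟩)⟩
  obtain ⟨n, φ, hφ⟩ := exists_free G
  have hw : ∀ a : G, ∃ w, φ (FreeGroup.mk w) = a := fun a => by
    obtain ⟨⟨w⟩, rfl⟩ := hφ a
    exact ⟨w, rfl⟩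
  obtain ⟨wA, hA⟩ := hw (yG 0)
  obtain ⟨w1, h1⟩ := hw (zG 0 * zG (i + 1) ^ (-3 : ℤ))
  obtain ⟨w3, h3⟩ := hw (zG 0 ^ (3 : ℤ))
  let wB : ℕ → List (Fin n × Bool) := fun m => Nat.rec w1 (fun _ l => l ++ w3) m
  have hB : ∀ m : ℕ, (φ (FreeGroup.mk (wB m))).1 = Z (1 - 3 * F (i + 1) + 3 * ((m : ℤ) : R)) := by
    intro m
    induction m with
    | zero =>
      change (φ (FreeGroup.mk w1)).1 = _
      simp only [h1, Subgroup.coe_mul, SubgroupClass.coe_zpow, zG, Z_zpow]
      refine Heis.ext ?_ ?_ ?_ <;> simp [Z, hF0]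
      ring
    | succ m ih =>
      change (φ (FreeGroup.mk (wB m ++ w3))).1 = _
      rw [← FreeGroup.mul_mk, map_mul, Subgroup.coe_mul, ih, h3]
      simp only [SubgroupClass.coe_zpow, zG, Z_zpow]
      refine Heis.ext ?_ ?_ ?_ <;> simp [Z, hF0]
      have e : (((m : ℤ) + 1 : ℤ) : R) = ((m : ℤ) : R) + 1 := funext fun _ => rfl
      rw [e]
      ring
  have hiN : i ≤ N := hN (by simp)
  refine ⟨G, inferInstance, inferInstance, n, φ, hφ, fun h => hS ?_⟩
  have hc : Computable fun m => [wA, wB m] :=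
    (Primrec.list_cons.comp (Primrec.const wA) (Primrec.list_cons.comp (Primrec.nat_rec₁ w1
      (Primrec.list_append.comp Primrec.snd (Primrec.const w3)).to₂) (Primrec.const []))).to_comp
  obtain ⟨d, hd⟩ := h
  refine ComputablePred.of_eq ⟨fun m => d [wA, wB m], hd.comp hc⟩ fun m => ?_
  have e : {g : G | ∃ w ∈ [wA, wB m], φ (FreeGroup.mk w) = g} =
      {yG 0, φ (FreeGroup.mk (wB m))} := by
    ext g
    simp [hA, eq_comm]
  simp only [e]
  constructor
  · rintro ⟨r, r1, r2⟩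
    obtain ⟨ψ, a1, a2, a3⟩ := psi_of G (yG 0) _ _ rfl (hB m) (Pi.evalRingHom _ ⟨σ0, hσ0⟩) r r1 r2
    obtain ⟨x, x1, x2, x3, x4⟩ := solve F rfl yG zG (fun _ => rfl) (fun _ => rfl) (i + 1) m _ (hB m)
      ψ _ (by rw [he]; omega) a1 a2 a3
    refine ⟨fun k => x (k + 1), x1, fun q hq => ?_⟩
    have hv : ∀ k ∈ q.vars, k ≤ N := fun k hk =>
      hN (List.mem_cons_of_mem _ (List.mem_flatMap.2 ⟨q, hq, hk⟩))
    cases q with
    | add j k l =>
      refine x2 _ _ _ (funext fun σ => ?_)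
      simp only [Eqn.vars, List.mem_cons, List.not_mem_nil, or_false, forall_eq_or_imp,
        forall_eq] at hv
      change F (j + 1) σ + F (k + 1) σ = F (l + 1) σ
      rw [hFk _ hv.1, hFk _ hv.2.1, hFk _ hv.2.2]
      exact σ.2 _ hq
    | mul j k l =>
      refine x3 _ _ _ (funext fun σ => ?_)
      simp only [Eqn.vars, List.mem_cons, List.not_mem_nil, or_false, forall_eq_or_imp,
        forall_eq] at hv
      change F (j + 1) σ * F (k + 1) σ = F (l + 1) σ
      rw [hFk _ hv.1, hFk _ hv.2.1, hFk _ hv.2.2]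
      exact σ.2 _ hq
    | cst j c =>
      refine x4 _ _ (funext fun σ => ?_)
      simp only [Eqn.vars, List.mem_cons, List.not_mem_nil, or_false, forall_eq] at hv
      rw [hFk _ hv]
      exact σ.2 _ hq
  · rintro ⟨x, x1, x2⟩
    exact retract_of G (yG 0) _ _ rfl (hB m) (Pi.evalRingHom _ ⟨x, x2⟩) (by
      rw [he, Pi.evalRingHom_apply, hFk _ hiN]
      simp [x1])

end Pool.Agent.H65.Retract
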