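import Mathlib

set_option autoImplicit false

/-! Rubin-type reconstruction: inclusion of closed supports is a first-order property. -/
namespace Pool.Agent.H65.Rub
open scoped commutatorElement

section
variable {G : Type*} [Group G]

def AD (f g : G) : Prop := Commute f g ∧ ∀ h, ¬ Commute f h → ∃ f1 f2 : G,
  Commute f1 g ∧ Commute f2 g ∧ ⁅f1, ⁅f2, h⁆⁆ ≠ 1 ∧ Commute ⁅f1, ⁅f2, h⁆⁆ g

def Le (k f : G) : Prop := ∀ g, AD f g → Commute k (g ^ 12)

lemma AD.map {H : Type*} [Group H] (e : G ≃* H) {f g : G} (h : AD f g) : AD (e f) (e g) := by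
  refine ⟨h.1.map e, fun k hk => ?_⟩
  obtain ⟨k, rfl⟩ := e.surjective k
  obtain ⟨f1, f2, h1, h2, h3, h4⟩ := h.2 k fun c => hk (c.map e)
  refine ⟨e f1, e f2, h1.map e, h2.map e, ?_, ?_⟩
  · rw [← map_commutatorElement, ← map_commutatorElement]
    exact fun c => h3 (e.injective (c.trans (map_one e).symm))
  · rw [← map_commutatorElement, ← map_commutatorElement]
    exact h4.map e

lemma Le.map {H : Type*} [Group H] (e : G ≃* H) {k f : G} (h : Le k f) : Le (e k) (e f) := by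
  intro g hg
  obtain ⟨g, rfl⟩ := e.surjective g
  have := hg.map e.symm
  simp only [MulEquiv.symm_apply_apply] at this
  simpa using (h g this).map e
end

variable {G X : Type*} [Group G] [MulAction G X] [FaithfulSMul G X]

lemma moved {g : G} (h : g ≠ 1) : ∃ x : X, g • x ≠ x := by
  by_contra hc
  push Not at hc
  exact h (eq_of_smul_eq_smul (α := X) fun x => by simp [hc])

lemma comm_of_disj {f g : G} (h : ∀ x : X, f • x = x ∨ g • x = x) : Commute f g := by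
  refine eq_of_smul_eq_smul (α := X) fun x => ?_
  simp only [mul_smul]
  by_cases hf : f • x = x
  · by_cases hg : g • x = x
    · simp [hf, hg]
    · rw [hf]
      exact (h _).resolve_right fun c => hg (smul_left_cancel g c)
  · have hg := (h x).resolve_left hf
    rw [hg]
    exact ((h _).resolve_left fun c => hf (smul_left_cancel f c)).symm

omit [FaithfulSMul G X] in
lemma fix_pow {g : G} {x : X} (h : g • x = x) (n : ℕ) : g ^ n • x = x := by
  induction n with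
  | zero => simp
  | succ n ih => rw [pow_succ, mul_smul, h, ih]

omit [FaithfulSMul G X] in
lemma not_comm {f k : G} {V : Set X} (hV : ∀ x ∈ V, k • x ∉ V) (hf : ∀ x ∉ V, f • x = x)
    {w : X} (hw : f • w ≠ w) : ¬ Commute k f := by
  intro c
  have hwV : w ∈ V := by_contra fun n => hw (hf w n)
  have := hf _ (hV w hwV)
  rw [← mul_smul, ← c.eq, mul_smul] at this
  exact hw (smul_left_cancel k this)

/-- a base of clopen sets for a locally moving action -/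
structure Base (G : Type*) {X : Type*} [Group G] [MulAction G X] (O : Set X → Prop) : Prop where
  inter : ∀ U V, O U → O V → O (U ∩ V)
  sep : ∀ (g : G) (p : X), g • p ≠ p → ∃ V, O V ∧ p ∈ V ∧ ∀ x ∈ V, g • x ∉ V
  lm : ∀ U, O U → ∀ p ∈ U, ∃ g : G, g ^ 12 ≠ 1 ∧ ∀ x ∉ U, g • x = x

variable {O : Set X → Prop}

omit [FaithfulSMul G X] in
lemma Base.lm' (B : Base G O) {U : Set X} (hU : O U) {p : X} (hp : p ∈ U) :
    ∃ g : G, g ≠ 1 ∧ ∀ x ∉ U, g • x = x := by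
  obtain ⟨g, h1, h2⟩ := B.lm U hU p hp
  exact ⟨g, fun c => h1 (by simp [c]), h2⟩

lemma Base.ad_of_disj (B : Base G O) {f g : G} (h : ∀ x : X, f • x = x ∨ g • x = x) : AD f g := by
  refine ⟨comm_of_disj h, fun k hk => ?_⟩
  obtain ⟨p, hp1, hp2⟩ : ∃ p : X, f • p ≠ p ∧ k • p ≠ p := by
    by_contra hc
    push Not at hc
    exact hk (comm_of_disj (X := X) fun x => (em (f • x = x)).imp id (hc x))
  obtain ⟨V1, o1, m1, s1⟩ := B.sep f p hp1
  obtain ⟨V2, o2, m2, s2⟩ := B.sep k p hp2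
  obtain ⟨f2, n2, t2⟩ := B.lm' (B.inter _ _ o1 o2) ⟨m1, m2⟩
  obtain ⟨p', hp'⟩ := moved (X := X) n2
  have m' : p' ∈ V1 ∩ V2 := by_contra fun n => hp' (t2 _ n)
  obtain ⟨W, o3, m3, s3⟩ := B.sep f2 p' hp'
  obtain ⟨f1, n1, t1⟩ := B.lm' (B.inter _ _ (B.inter _ _ o1 o2) o3) ⟨m', m3⟩
  have t1' : ∀ x ∉ V1 ∩ V2, f1 • x = x := fun x hx => t1 x fun c => hx c.1
  have hg : ∀ a : G, (∀ x ∉ V1 ∩ V2, a • x = x) → Commute a g := fun a ha =>
    comm_of_disj (X := X) fun x => by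
      by_cases hx : x ∈ V1 ∩ V2
      · exact Or.inr ((h x).resolve_left fun c => s1 x hx.1 (c.symm ▸ hx.1))
      · exact Or.inl (ha x hx)
  have hc : Commute f1 (k * f2⁻¹ * k⁻¹) := comm_of_disj (X := X) fun x => by
    by_cases hx : x ∈ V1 ∩ V2
    · right
      have : k⁻¹ • x ∉ V1 ∩ V2 := fun c => s2 _ c.2 (by simpa using hx.2)
      rw [mul_smul, mul_smul, inv_smul_eq_iff.2 (t2 _ this).symm, smul_inv_smul]
    · exact Or.inl (t1' x hx)
  have e : ⁅f1, ⁅f2, k⁆⁆ = ⁅f1, f2⁆ := by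
    have : ⁅f2, k⁆ = f2 * (k * f2⁻¹ * k⁻¹) := by simp [commutatorElement_def, mul_assoc]
    rw [this, commutatorElement_def, commutatorElement_def, mul_inv_rev]
    generalize k * f2⁻¹ * k⁻¹ = c at hc
    have : c * f1⁻¹ * c⁻¹ = f1⁻¹ := by rw [← hc.inv_left.eq]; simp
    calc _ = f1 * f2 * (c * f1⁻¹ * c⁻¹) * f2⁻¹ := by simp [mul_assoc]
      _ = _ := by rw [this]
  refine ⟨f1, f2, hg _ t1', hg _ t2, ?_, ?_⟩
  · rw [e]
    obtain ⟨w, hw⟩ := moved (X := X) n1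
    intro c
    exact not_comm (V := V1 ∩ V2 ∩ W) (fun x hx c => s3 x hx.2 c.2) t1 hw
      (commutatorElement_eq_one_iff_commute.1 c).symm
  · rw [e, commutatorElement_def]
    exact (((hg _ t1').mul_left (hg _ t2)).mul_left (hg _ t1').inv_left).mul_left (hg _ t2).inv_left

lemma Base.disj_of_ad (B : Base G O) {f g : G} (h : AD f g) (p : X) :
    f • p = p ∨ g ^ 12 • p = p := by
  by_contra hc
  push Not at hc
  have hd : ∀ d : ℕ, d ∣ 12 → g ^ d • p ≠ p := by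
    rintro d ⟨e, he⟩ c
    exact hc.2 (by rw [he, pow_mul]; exact fix_pow c e)
  obtain ⟨V0, o0, m0, s0⟩ := B.sep f p hc.1
  obtain ⟨V1, o1, m1, s1⟩ := B.sep _ p (hd 1 (by norm_num))
  obtain ⟨V2, o2, m2, s2⟩ := B.sep _ p (hd 2 (by norm_num))
  obtain ⟨V3, o3, m3, s3⟩ := B.sep _ p (hd 3 (by norm_num))
  obtain ⟨V4, o4, m4, s4⟩ := B.sep _ p (hd 4 (by norm_num))
  obtain ⟨V, oV, mV, sf, sV⟩ : ∃ V, O V ∧ p ∈ V ∧ (∀ x ∈ V, f • x ∉ V) ∧
      ∀ d : ℕ, 0 < d → d < 5 → ∀ x ∈ V, g ^ d • x ∉ V := by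
    refine ⟨V0 ∩ V1 ∩ V2 ∩ V3 ∩ V4,
      B.inter _ _ (B.inter _ _ (B.inter _ _ (B.inter _ _ o0 o1) o2) o3) o4,
      ⟨⟨⟨⟨m0, m1⟩, m2⟩, m3⟩, m4⟩, fun x hx c => s0 x hx.1.1.1.1 c.1.1.1.1, fun d h1 h2 x hx c => ?_⟩
    interval_cases d
    exacts [s1 x hx.1.1.1.2 c.1.1.1.2, s2 x hx.1.1.2 c.1.1.2, s3 x hx.1.2 c.1.2, s4 x hx.2 c.2]
  obtain ⟨k, nk, tk⟩ := B.lm' oV mV
  obtain ⟨w, hw⟩ := moved (X := X) nk
  obtain ⟨f1, f2, c1, c2, n, c⟩ := h.2 k (not_comm sf tk hw)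
  obtain ⟨y, hy⟩ := moved (X := X) n
  let a : Fin 4 → G := ![1, f2⁻¹, f1⁻¹, f2⁻¹ * f1⁻¹]
  have ha : ∀ i, Commute (a i) g := by
    intro i
    fin_cases i
    exacts [Commute.one_left g, c2.inv_left, c1.inv_left, c2.inv_left.mul_left c1.inv_left]
  have key : ∀ z : X, ⁅f1, ⁅f2, k⁆⁆ • z ≠ z → ∃ i, a i • z ∈ V := by
    intro z hz
    by_contra hn
    push Not at hn
    have z0 : k • z = z := tk _ (by simpa [a] using hn 0)
    have z1 : k • f2⁻¹ • z = f2⁻¹ • z := tk _ (by simpa [a] using hn 1)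
    have z2 : k • f1⁻¹ • z = f1⁻¹ • z := tk _ (by simpa [a] using hn 2)
    have z3 : k • f2⁻¹ • f1⁻¹ • z = f2⁻¹ • f1⁻¹ • z := tk _ (by simpa [a, mul_smul] using hn 3)
    have q : ∀ u : X, k • u = u → k • f2⁻¹ • u = f2⁻¹ • u → ⁅f2, k⁆ • u = u := by
      intro u u0 u1
      rw [commutatorElement_def, mul_smul, mul_smul, mul_smul, inv_smul_eq_iff.2 u0.symm, u1,
        smul_inv_smul]
    apply hz
    rw [commutatorElement_def f1, mul_smul, mul_smul, mul_smul, inv_smul_eq_iff.2 (q z z0 z1).symm,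
      q _ z2 z3, smul_inv_smul]
  have : ∀ i : Fin 5, ∃ j, a j • g ^ (i : ℕ) • y ∈ V := fun i => key _ fun e => hy (by
    rw [← mul_smul, (c.pow_right _).eq, mul_smul] at e
    exact smul_left_cancel _ e)
  choose J hJ using this
  obtain ⟨i, j, hij, e⟩ := Fintype.exists_ne_map_eq_of_card_lt J (by simp)
  wlog hlt : (i : ℕ) < j generalizing i j
  · exact this j i hij.symm e.symm (by have := Fin.val_ne_of_ne hij; omega)
  refine sV (j - i) (by omega) (by omega) _ (hJ i) ?_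
  have := hJ j
  rw [← e] at this
  rwa [← mul_smul, ← ((ha _).pow_right _).eq, mul_smul, ← mul_smul (g ^ _), ← pow_add,
    Nat.sub_add_cancel hlt.le]

/-- closure of the support -/
def cs (O : Set X → Prop) (f : G) : Set X := {x | ∀ V, O V → x ∈ V → ∃ y ∈ V, f • y ≠ y}

theorem Base.le_iff (B : Base G O) (k f : G) : Le k f ↔ ∀ x : X, k • x ≠ x → x ∈ cs O f := by
  constructor
  · intro h x hx V0 o0 m0
    by_contra hc
    push Not at hc
    obtain ⟨V1, o1, m1, s1⟩ := B.sep k x hx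
    obtain ⟨g, n, t⟩ := B.lm _ (B.inter _ _ o0 o1) x ⟨m0, m1⟩
    obtain ⟨w, hw⟩ := moved (X := X) n
    refine not_comm (V := V0 ∩ V1) (fun y hy c => s1 y hy.2 c.2) (fun y hy => fix_pow (t y hy) _) hw
      (h g (B.ad_of_disj fun y => ?_))
    by_cases hy : y ∈ V0 ∩ V1
    exacts [Or.inl (hc y hy.1), Or.inr (t y hy)]
  · intro h g hg
    refine comm_of_disj (X := X) fun x => ?_
    by_contra hc
    push Not at hc
    obtain ⟨V, o, m, s⟩ := B.sep _ x hc.2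
    obtain ⟨y, hy, hf⟩ := h x hc.1 V o m
    exact s y hy (((B.disj_of_ad hg y).resolve_left hf).symm ▸ hy)

end Pool.Agent.H65.Rub
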