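import Pool.Agent.H65.Rub1

set_option autoImplicit false

/-! Class transposition groups: piecewise affine structure. -/
namespace Pool.Agent.H65.Rub

def Gen (P : Set ℕ) : Set (Equiv.Perm ℤ) := {σ : Equiv.Perm ℤ | ∃ m1 m2 r1 r2 : ℤ,
  0 < m1 ∧ 0 < m2 ∧ 0 ≤ r1 ∧ r1 < m1 ∧ 0 ≤ r2 ∧ r2 < m2 ∧
  ¬ ((Int.gcd m1 m2 : ℤ) ∣ (r1 - r2)) ∧
  (∀ p : ℕ, Nat.Prime p → (p : ℤ) ∣ m1 * m2 → p = 2 ∨ p ∈ P) ∧
  ∀ n : ℤ, σ n =
    (if m1 ∣ n - r1 then r2 + (n - r1) / m1 * m2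
     else if m2 ∣ n - r2 then r1 + (n - r2) / m2 * m1
     else n)}

abbrev CT (P : Set ℕ) := ↥(Subgroup.closure (Gen P))

def Sm (P : Set ℕ) (m : ℤ) : Prop := 0 < m ∧ ∀ p : ℕ, Nat.Prime p → (p : ℤ) ∣ m → p = 2 ∨ p ∈ P

variable {P : Set ℕ}

lemma Sm.mul {a b : ℤ} (ha : Sm P a) (hb : Sm P b) : Sm P (a * b) :=
  ⟨mul_pos ha.1 hb.1, fun p hp h =>
    ((Nat.prime_iff_prime_int.1 hp).dvd_or_dvd h).elim (ha.2 p hp) (hb.2 p hp)⟩

lemma Sm.one : Sm P 1 := ⟨one_pos, fun p hp h =>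
  absurd (isUnit_of_dvd_one h) (Nat.prime_iff_prime_int.1 hp).not_isUnit⟩

lemma Sm.pow {a : ℤ} (ha : Sm P a) (n : ℕ) : Sm P (a ^ n) := by
  induction n with
  | zero => simpa using Sm.one
  | succ n ih => rw [pow_succ]; exact ih.mul ha

lemma Sm.prime {q : ℕ} (hq : q.Prime) (h : q = 2 ∨ q ∈ P) : Sm P q :=
  ⟨by exact_mod_cast hq.pos, fun p hp d => by
    rwa [(Nat.prime_dvd_prime_iff_eq hp hq).1 (by exact_mod_cast d)]⟩

lemma Sm.two : Sm P 2 := Sm.prime (q := 2) Nat.prime_two (Or.inl rfl)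

lemma Sm.of_dvd {a b : ℤ} (hb : Sm P b) (ha : 0 < a) (h : a ∣ b) : Sm P a :=
  ⟨ha, fun p hp d => hb.2 p hp (d.trans h)⟩

def tf (m1 m2 r1 r2 n : ℤ) : ℤ :=
  if m1 ∣ n - r1 then r2 + (n - r1) / m1 * m2
  else if m2 ∣ n - r2 then r1 + (n - r2) / m2 * m1 else n

section
variable {m1 m2 r1 r2 : ℤ} (h1 : 0 < m1) (h2 : 0 < m2) (hd : ¬ ((Int.gcd m1 m2 : ℤ) ∣ (r1 - r2)))
include h1 in
lemma tf1 (k : ℤ) : tf m1 m2 r1 r2 (r1 + k * m1) = r2 + k * m2 := by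
  simp [tf, h1.ne']

include hd in
lemma ndvd (k : ℤ) : ¬ m1 ∣ r2 + k * m2 - r1 := fun c => hd (by
  have a := (Int.gcd_dvd_left m1 m2).trans c
  have b := (Int.gcd_dvd_right m1 m2).mul_left k
  rw [show r1 - r2 = k * m2 - (r2 + k * m2 - r1) by ring]
  exact b.sub a)

include h2 hd in
lemma tf2 (k : ℤ) : tf m1 m2 r1 r2 (r2 + k * m2) = r1 + k * m1 := by
  simp [tf, h2.ne', ndvd hd k]

lemma tf3 {n : ℤ} (a : ¬ m1 ∣ n - r1) (b : ¬ m2 ∣ n - r2) : tf m1 m2 r1 r2 n = n := by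
  simp [tf, a, b]

lemma cas (m1 m2 r1 r2 n : ℤ) : (∃ k, n = r1 + k * m1) ∨ (∃ k, n = r2 + k * m2) ∨
    (¬ m1 ∣ n - r1 ∧ ¬ m2 ∣ n - r2) := by
  by_cases a : m1 ∣ n - r1
  · obtain ⟨k, hk⟩ := a
    exact Or.inl ⟨k, by linear_combination hk⟩
  by_cases b : m2 ∣ n - r2
  · obtain ⟨k, hk⟩ := b
    exact Or.inr (Or.inl ⟨k, by linear_combination hk⟩)
  exact Or.inr (Or.inr ⟨a, b⟩)

include h1 h2 hd in
lemma tf_inv : Function.Involutive (tf m1 m2 r1 r2) := by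
  intro n
  rcases cas m1 m2 r1 r2 n with ⟨k, rfl⟩ | ⟨k, rfl⟩ | ⟨a, b⟩
  · rw [tf1 h1, tf2 h2 hd]
  · rw [tf2 h2 hd, tf1 h1]
  · rw [tf3 a b, tf3 a b]
end

lemma ex_tr {m1 m2 r1 r2 : ℤ} (s1 : Sm P m1) (s2 : Sm P m2) (a1 : 0 ≤ r1) (b1 : r1 < m1)
    (a2 : 0 ≤ r2) (b2 : r2 < m2) (hd : ¬ ((Int.gcd m1 m2 : ℤ) ∣ (r1 - r2))) :
    ∃ g : CT P, ∀ n : ℤ, g • n = tf m1 m2 r1 r2 n :=
  ⟨⟨(tf_inv s1.1 s2.1 hd).toPerm _, Subgroup.subset_closure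
    ⟨m1, m2, r1, r2, s1.1, s2.1, a1, b1, a2, b2, hd, (s1.mul s2).2, fun _ => rfl⟩⟩, fun _ => rfl⟩

def RC (P : Set ℕ) (g : Equiv.Perm ℤ) : Prop :=
  ∃ m, Sm P m ∧ ∀ r, ∃ m', Sm P m' ∧ ∀ k, g (r + k * m) = g r + k * m'

lemma rc_gen {g : Equiv.Perm ℤ} (h : g ∈ Gen P) : RC P g ∧ g⁻¹ = g := by
  obtain ⟨m1, m2, r1, r2, h1, h2, -, -, -, -, hd, hs, hg⟩ := h
  replace hg : ∀ n, g n = tf m1 m2 r1 r2 n := hg
  have s : Sm P (m1 * m2) := ⟨mul_pos h1 h2, hs⟩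
  have s1 : Sm P m1 := s.of_dvd h1 (dvd_mul_right _ _)
  have s2 : Sm P m2 := s.of_dvd h2 (dvd_mul_left _ _)
  constructor
  · refine ⟨m1 * m2, s, fun r => ?_⟩
    rcases cas m1 m2 r1 r2 r with ⟨j, rfl⟩ | ⟨j, rfl⟩ | ⟨a, b⟩
    · refine ⟨m2 * m2, s2.mul s2, fun k => ?_⟩
      rw [hg, hg, tf1 h1, show r1 + j * m1 + k * (m1 * m2) = r1 + (j + k * m2) * m1 by ring, tf1 h1]
      ring
    · refine ⟨m1 * m1, s1.mul s1, fun k => ?_⟩
      rw [hg, hg, tf2 h2 hd, show r2 + j * m2 + k * (m1 * m2) = r2 + (j + k * m1) * m2 by ring,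
        tf2 h2 hd]
      ring
    · refine ⟨m1 * m2, s, fun k => ?_⟩
      rw [hg, hg, tf3 a b, tf3]
      · intro c; apply a
        rw [show r - r1 = r + k * (m1 * m2) - r1 - k * (m1 * m2) by ring]
        exact c.sub ((dvd_mul_right m1 m2).mul_left k)
      · intro c; apply b
        rw [show r - r2 = r + k * (m1 * m2) - r2 - k * (m1 * m2) by ring]
        exact c.sub ((dvd_mul_left m2 m1).mul_left k)
  · rw [inv_eq_iff_mul_eq_one]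
    ext n
    simp [hg, tf_inv h1 h2 hd n]

lemma rc (g : CT P) : ∃ m, Sm P m ∧ ∀ r : ℤ, ∃ m', Sm P m' ∧ ∀ k, g • (r + k * m) = g • r + k * m' := by
  obtain ⟨g, hg⟩ := g
  change RC P g
  induction hg using Subgroup.closure_induction'' with
  | mem x hx => exact (rc_gen hx).1
  | inv_mem x hx => rw [(rc_gen hx).2]; exact (rc_gen hx).1
  | one => exact ⟨1, Sm.one, fun r => ⟨1, Sm.one, fun k => rfl⟩⟩
  | mul x y _ _ hx hy =>
    obtain ⟨a, sa, ha⟩ := hx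
    obtain ⟨b, sb, hb⟩ := hy
    refine ⟨a * b, sa.mul sb, fun r => ?_⟩
    obtain ⟨b', sb', hb'⟩ := hb r
    obtain ⟨a', sa', ha'⟩ := ha (y r)
    refine ⟨b' * a', sb'.mul sa', fun k => ?_⟩
    simp only [Equiv.Perm.mul_apply]
    rw [show r + k * (a * b) = r + k * a * b by ring, hb',
      show y r + k * a * b' = y r + k * b' * a by ring, ha']
    ring

/-- periodic sets -/
def Per (P : Set ℕ) (A : Set ℤ) : Prop := ∃ m, Sm P m ∧ ∀ x ∈ A, ∀ y, m ∣ y - x → y ∈ A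

lemma Per.inter {U V : Set ℤ} (hU : Per P U) (hV : Per P V) : Per P (U ∩ V) := by
  obtain ⟨a, sa, ha⟩ := hU
  obtain ⟨b, sb, hb⟩ := hV
  exact ⟨a * b, sa.mul sb, fun x hx y h => ⟨ha x hx.1 y ((dvd_mul_right a b).trans h),
    hb x hx.2 y ((dvd_mul_left b a).trans h)⟩⟩

lemma Per.compl {U : Set ℤ} (hU : Per P U) : Per P Uᶜ := by
  obtain ⟨a, sa, ha⟩ := hU
  exact ⟨a, sa, fun x hx y h c => hx (ha y c x (dvd_sub_comm.1 h))⟩

lemma Per.cls {m : ℤ} (s : Sm P m) (r : ℤ) : Per P {x | m ∣ x - r} :=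
  ⟨m, s, fun x hx y h => by simpa using h.add hx⟩

lemma Per.pre {U : Set ℤ} (hU : Per P U) (g : CT P) : Per P {x | g • x ∈ U} := by
  obtain ⟨a, sa, ha⟩ := hU
  obtain ⟨m, sm, hm⟩ := rc g
  refine ⟨m * a, sm.mul sa, fun x hx y ⟨k, hk⟩ => ha _ hx _ ?_⟩
  obtain ⟨m', -, h⟩ := hm x
  rw [show y = x + k * a * m by linear_combination hk, h]
  exact ⟨k * m', by ring⟩

lemma common {ι : Type*} (s : Finset ι) (A : ι → Set ℤ) (h : ∀ i ∈ s, Per P (A i)) :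
    ∃ m, Sm P m ∧ ∀ i ∈ s, ∀ x ∈ A i, ∀ y, m ∣ y - x → y ∈ A i := by
  classical
  induction s using Finset.induction_on with
  | empty => exact ⟨1, Sm.one, by simp⟩
  | insert j s _ ih =>
    obtain ⟨a, sa, ha⟩ := ih fun i hi => h i (Finset.mem_insert_of_mem hi)
    obtain ⟨b, sb, hb⟩ := h j (Finset.mem_insert_self _ _)
    refine ⟨a * b, sa.mul sb, fun i hi x hx y d => ?_⟩
    rcases Finset.mem_insert.1 hi with rfl | hi
    · exact hb x hx y ((dvd_mul_left b a).trans d)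
    · exact ha i hi x hx y ((dvd_mul_right a b).trans d)

lemma ex_dil {m c r : ℤ} (sm : Sm P m) (sc : Sm P c) (a : 0 ≤ r) (b : r < m) :
    ∃ g : CT P, (∀ k, g • (r + k * (4 * m)) = r + k * c * (4 * m)) ∧
      ∀ x : ℤ, ¬ m ∣ x - r → g • x = x := by
  have s4 : Sm P (4 * m) := by simpa [show (4 : ℤ) = 2 * 2 by norm_num] using (Sm.two.mul Sm.two).mul sm
  have hm := sm.1
  have hc := sc.1
  have nd : ¬ 4 * m ∣ m := fun c => by have := Int.le_of_dvd hm c; omega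
  have d1 : ¬ ((Int.gcd (4 * m) (4 * m) : ℤ) ∣ r - (r + m)) := by
    rw [Int.gcd_self, Int.natCast_natAbs, abs_dvd]
    simpa using nd
  have d2 : ¬ ((Int.gcd (4 * m) (c * (4 * m)) : ℤ) ∣ r + m - r) := fun h => nd (by
    simpa using (Int.dvd_coe_gcd dvd_rfl (dvd_mul_left _ c)).trans h)
  obtain ⟨g1, e1⟩ := ex_tr s4 s4 a (by omega) (by omega : 0 ≤ r + m) (by omega) d1
  obtain ⟨g2, e2⟩ := ex_tr s4 (sc.mul s4) (by omega : 0 ≤ r + m) (by omega) a (by nlinarith) d2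
  refine ⟨g2 * g1, fun k => ?_, fun x hx => ?_⟩
  · rw [mul_smul, e1, tf1 s4.1, e2, tf1 s4.1]; ring
  · have n1 : ¬ 4 * m ∣ x - r := fun h => hx ((dvd_mul_left m 4).trans h)
    have n2 : ¬ 4 * m ∣ x - (r + m) := fun h => hx (by
      rw [show x - r = x - (r + m) + m by ring]
      exact ((dvd_mul_left m 4).trans h).add (dvd_refl m))
    rw [mul_smul, e1, tf3 n1 n2, e2, tf3 n2 fun h => n1 ((dvd_mul_left _ c).trans h)]

lemma ex_swap {m : ℤ} (sm : Sm P m) (r : ℤ) : ∃ g : CT P, ∀ x : ℤ, g • x ≠ x ↔ m ∣ x - r := by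
  have hm := sm.1
  wlog h : 0 ≤ r ∧ r < m generalizing r
  · obtain ⟨g, hg⟩ := this (r % m) ⟨Int.emod_nonneg _ hm.ne', Int.emod_lt_of_pos _ hm⟩
    refine ⟨g, fun x => (hg x).trans ?_⟩
    rw [Int.emod_def, ← sub_add, dvd_add_left (dvd_mul_right _ _)]
  have s2 := Sm.two.mul sm
  have d1 : ¬ ((Int.gcd (2 * m) (2 * m) : ℤ) ∣ r - (r + m)) := by
    rw [Int.gcd_self, Int.natCast_natAbs, abs_dvd]
    intro c
    have := Int.le_of_dvd hm (by simpa using c : 2 * m ∣ m); omega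
  obtain ⟨g, e⟩ := ex_tr s2 s2 h.1 (by omega) (by omega : 0 ≤ r + m) (by omega) d1
  refine ⟨g, fun x => ?_⟩
  rw [e]
  rcases cas (2 * m) (2 * m) r (r + m) x with ⟨k, rfl⟩ | ⟨k, rfl⟩ | ⟨a, b⟩
  · rw [tf1 s2.1]
    exact ⟨fun _ => ⟨2 * k, by ring⟩, fun _ => by omega⟩
  · rw [tf2 s2.1 d1]
    exact ⟨fun _ => ⟨2 * k + 1, by ring⟩, fun _ => by omega⟩
  · rw [tf3 a b]
    refine ⟨fun c => absurd rfl c, fun ⟨k, hk⟩ => ?_⟩
    rcases Int.even_or_odd' k with ⟨j, rfl | rfl⟩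
    · exact absurd ⟨j, by linear_combination hk⟩ a
    · exact absurd ⟨j, by linear_combination hk⟩ b

lemma base (P : Set ℕ) : Base (CT P) (Per P) where
  inter _ _ := Per.inter
  sep g p h := by
    obtain ⟨m, sm, hm⟩ := rc g
    obtain ⟨m', -, h'⟩ := hm p
    obtain ⟨j, hj⟩ : ∃ j : ℕ, ¬ (2 : ℤ) ^ j ∣ g • p - p := by
      refine ⟨(g • p - p).natAbs, fun c => ?_⟩
      have := Int.le_of_dvd (abs_pos.2 (sub_ne_zero.2 h)) ((dvd_abs _ _).2 c)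
      have h2 : (g • p - p).natAbs < 2 ^ (g • p - p).natAbs := Nat.lt_two_pow_self
      rw [← Int.natCast_natAbs] at this
      exact absurd (by exact_mod_cast this) h2.not_ge
    refine ⟨_, Per.cls (sm.mul (Sm.two.pow j)) p, by simp, fun x ⟨k, hk⟩ c => hj ?_⟩
    rw [show x = p + k * 2 ^ j * m by linear_combination hk, Set.mem_ofPred_eq, h'] at c
    rw [show g • p - p = g • p + k * 2 ^ j * m' - p - 2 ^ j * (k * m') by ring]
    exact ((dvd_mul_left _ m).trans c).sub ⟨k * m', rfl⟩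
  lm U hU p hp := by
    obtain ⟨m, sm, hm⟩ := hU
    have h0 := sm.1
    obtain ⟨g, e, t⟩ := ex_dil sm Sm.two (Int.emod_nonneg p h0.ne') (Int.emod_lt_of_pos p h0)
    refine ⟨g, fun c => ?_, fun x hx => t x fun d => hx (hm p hp x ?_)⟩
    · have : ∀ n : ℕ, g ^ n • (p % m + 1 * (4 * m)) = p % m + 2 ^ n * (4 * m) := by
        intro n
        induction n with
        | zero => simp
        | succ n ih => rw [pow_succ', mul_smul, ih, e, pow_succ]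
      have := this 12
      rw [c, one_smul] at this
      omega
    · rwa [Int.emod_def, ← sub_add, dvd_add_left (dvd_mul_right _ _)] at d

lemma per_cs (f : CT P) : Per P (cs (Per P) f) := by
  obtain ⟨m, sm, hm⟩ := rc f
  refine ⟨m, sm, fun x hx y d V ⟨a, sa, ha⟩ hy => ?_⟩
  obtain ⟨z, ⟨k, hk⟩, hz⟩ := hx _ (Per.cls sm y) (dvd_sub_comm.1 d)
  obtain ⟨m', -, h⟩ := hm y
  by_contra hc
  push Not at hc
  have e0 := hc y hy
  have e1 := hc (y + a * m) (ha y hy _ (by simp))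
  rw [h, e0] at e1
  have : m' = m := mul_left_cancel₀ sa.1.ne' (by linear_combination e1)
  apply hz
  rw [show z = y + k * m by linear_combination hk, h, e0, this]

lemma cs_sub {f : CT P} {U : Set ℤ} (hU : Per P U) (h : ∀ x ∉ U, f • x = x) : cs (Per P) f ⊆ U := by
  intro x hx
  by_contra c
  obtain ⟨y, hy, e⟩ := hx _ hU.compl c
  exact e (h y hy)

lemma cs_conj {f : CT P} (g : CT P) {x : ℤ} (h : x ∈ cs (Per P) f) :
    g • x ∈ cs (Per P) (g * f * g⁻¹) := by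
  intro V hV hx
  obtain ⟨y, hy, e⟩ := h _ (hV.pre g) hx
  exact ⟨g • y, hy, by simpa [mul_smul] using e⟩

end Pool.Agent.H65.Rub
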