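import Pool.Agent.H65.Rub2

set_option autoImplicit false

namespace Pool.Agent.H65.Rub

lemma loc (p q : ℕ) [hp : Fact p.Prime] (hq : q.Prime) (hq2 : q ≠ 2) (δ : ℤ → ℤ_[p])
    (m0 m m1 m' : ℤ) (T : ℕ) (hm : m ≠ 0) (hT : 0 < T) (h0 : δ 0 = 0)
    (cont : ∀ e : ℕ, ∃ M : ℤ, 0 < M ∧ ∀ x y, M ∣ x - y → (p : ℤ_[p]) ^ e ∣ δ x - δ y)
    (h2 : ∀ x, m0 ∣ x → m * δ (2 * x) = m1 * δ x)
    (h3 : ∀ x, m0 ∣ x → m' * δ (q * x) = T * δ x) (e : ℕ) :
    ∃ M' : ℤ, IsCoprime M' q ∧ ∃ K : ℕ, ∀ x, m0 * M' ∣ x → ∀ n : ℕ, T.factorial * T ^ K ∣ n →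
      (p : ℤ_[p]) ^ e ∣ δ (2 ^ n * x) - δ x := by
  have hm' : (m : ℤ_[p]) ≠ 0 := by exact_mod_cast hm
  have nd : ∀ z : ℤ_[p], (p : ℤ_[p]) ^ e ∣ z ↔ ‖z‖ ≤ (p : ℝ) ^ (-e : ℤ) := fun z => by
    rw [PadicInt.norm_le_pow_iff_mem_span_pow, Ideal.mem_span_singleton]
  by_cases hA : ‖(m1 : ℤ_[p])‖ = ‖(m : ℤ_[p])‖ ∧ p ∣ T
  · obtain ⟨u, hu⟩ : (m : ℤ_[p]) ∣ m1 := by
      refine ⟨⟨(m1 : ℚ_[p]) / m, ?_⟩, Subtype.ext ?_⟩
      · rw [norm_div, ← PadicInt.norm_intCast_eq_padic_norm, ← PadicInt.norm_intCast_eq_padic_norm,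
          hA.1, div_self (norm_ne_zero_iff.2 hm')]
      · have : (m : ℚ_[p]) ≠ 0 := by exact_mod_cast hm
        simp [mul_div_cancel₀ _ this]
    have un : IsUnit u := by
      rw [PadicInt.isUnit_iff]
      have := hA.1
      rw [hu, norm_mul] at this
      exact mul_left_cancel₀ (norm_ne_zero_iff.2 hm') (by rw [this, mul_one])
    refine ⟨1, isCoprime_one_left, e, fun x hx n hn => ?_⟩
    have it : ∀ n : ℕ, δ (2 ^ n * x) = u ^ n * δ x := by
      intro n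
      induction n with
      | zero => simp
      | succ n ih =>
        apply mul_left_cancel₀ hm'
        rw [pow_succ', mul_assoc, h2 _ (Dvd.dvd.mul_left (by simpa using hx) _), ih, hu]; ring
    rw [it, ← sub_one_mul]
    refine Dvd.dvd.mul_right ((pow_dvd_pow _ (Nat.le_succ e)).trans ?_) _
    rw [← Ideal.mem_span_singleton, ← PadicInt.ker_toZModPow, RingHom.mem_ker, map_sub, map_pow,
      map_one, sub_eq_zero]
    obtain ⟨v, hv⟩ := un.map (PadicInt.toZModPow (e + 1))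
    obtain ⟨c, rfl⟩ : (p ^ (e + 1)).totient ∣ n := by
      refine Dvd.dvd.trans ?_ hn
      rw [Nat.totient_prime_pow_succ hp.out, mul_comm]
      have := Nat.le_of_dvd hT hA.2
      have := hp.out.two_le
      exact mul_dvd_mul (Nat.dvd_factorial (by omega) (by omega)) (pow_dvd_pow_of_dvd hA.2 e)
    rw [← hv, pow_mul, ← Units.val_pow_eq_pow_val, ZMod.pow_totient]; simp
  obtain ⟨M, hM, hc⟩ := cont e
  obtain ⟨j, M', hj, hM'⟩ := Nat.exists_eq_pow_mul_and_not_dvd (n := M.natAbs) (by omega) q hq.ne_one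
  replace hM' : M = q ^ j * M' := by
    have : (M.natAbs : ℤ) = M := by omega
    rw [← this, hM']; push_cast; ring
  suffices h : ∀ x, m0 * M' ∣ x → (p : ℤ_[p]) ^ e ∣ δ x from
    ⟨M', Nat.isCoprime_iff_coprime.2 ((Nat.Prime.coprime_iff_not_dvd hq).2 hj).symm, 0,
      fun x hx n _ => (h _ (hx.mul_left _)).sub (h x hx)⟩
  intro x hx
  have x0 : m0 ∣ x := (dvd_mul_right _ _).trans hx
  have x1 : (M' : ℤ) ∣ x := (dvd_mul_left _ _).trans hx
  by_cases hB : p ∣ T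
  · have hne : ‖(m1 : ℤ_[p])‖ ≠ ‖(m : ℤ_[p])‖ := fun c => hA ⟨c, hB⟩
    have it : ∀ n : ℕ, (m : ℤ_[p]) ^ n * δ (2 ^ n * x) = m1 ^ n * δ x := by
      intro n
      induction n with
      | zero => simp
      | succ n ih =>
        rw [pow_succ' (2 : ℤ), mul_assoc, pow_succ, mul_assoc, h2 _ (x0.mul_left _), mul_left_comm, ih]
        ring
    have cop : Nat.Coprime 2 (q ^ j) :=
      ((Nat.coprime_primes Nat.prime_two hq).2 hq2.symm).pow_right j
    have pos : 0 < (q ^ j).totient := Nat.totient_pos.2 (pow_pos hq.pos j)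
    have eu : (q : ℤ) ^ j ∣ 2 ^ (q ^ j).totient - 1 := by
      have := (Nat.ModEq.pow_totient cop).symm.dvd
      exact_mod_cast this
    generalize (q ^ j).totient = n at pos eu
    have d := hc (2 ^ n * x) x (by rw [hM', ← sub_one_mul]; exact mul_dvd_mul eu x1)
    by_cases z : δ x = 0
    · simp [z]
    rw [nd] at d ⊢
    rw [sub_eq_add_neg, PadicInt.norm_add_eq_max_of_ne, norm_neg] at d
    · exact (le_max_right _ _).trans d
    · rw [norm_neg]
      intro c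
      have := congrArg norm (it n)
      rw [norm_mul, norm_mul, c, norm_pow, norm_pow] at this
      exact hne ((pow_left_inj₀ (norm_nonneg _) (norm_nonneg _) pos.ne').1
        (mul_right_cancel₀ (norm_ne_zero_iff.2 z) this)).symm
  · have un : IsUnit (T : ℤ_[p]) := by
      rw [PadicInt.isUnit_iff, PadicInt.norm_natCast_eq_one_iff]
      exact (Nat.Prime.coprime_iff_not_dvd hp.out).2 hB
    have it : ∀ i : ℕ, (p : ℤ_[p]) ^ e ∣ δ (q ^ i * x) → (p : ℤ_[p]) ^ e ∣ δ x := by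
      intro i
      induction i with
      | zero => simp
      | succ i ih =>
        intro h
        apply ih
        rw [← un.dvd_mul_left, ← h3 _ (x0.mul_left _), ← mul_assoc, ← pow_succ']
        exact h.mul_left _
    apply it j
    simpa [h0] using hc (q ^ j * x) 0 (by rw [hM', sub_zero]; exact mul_dvd_mul_left _ x1)

lemma final (Q : Set ℕ) (q : ℕ) (hq : q.Prime) (hq2 : q ≠ 2) (hQ : q ∉ Q) (D : ℤ → ℤ → ℤ)
    (h0 : ∀ L, D L 0 = 0)
    (coh : ∀ L L', Sm Q L → Sm Q L' → L ∣ L' → ∀ x, L ∣ D L' x - D L x)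
    (cont : ∀ L, Sm Q L → ∃ M : ℤ, 0 < M ∧ ∀ x y, M ∣ x - y → L ∣ D L x - D L y)
    (inv : ∀ j : ℕ, ∃ L, Sm Q L ∧ ∀ x y, L ∣ D L x - D L y → (q : ℤ) ^ j ∣ x - y)
    (m0 m m1 m' m2 : ℤ) (p0 : 0 < m0) (hm : m ≠ 0) (s2 : Sm Q m2)
    (h2 : ∀ x, m0 ∣ x → ∀ L, Sm Q L → L ∣ m * D L (2 * x) - m1 * D L x)
    (h3 : ∀ x, m0 ∣ x → ∀ L, Sm Q L → L ∣ m' * D L (q * x) - m2 * D L x) : False := by
  obtain ⟨T, rfl⟩ := Int.eq_ofNat_of_zero_le s2.1.le
  have hT : 0 < T := by exact_mod_cast s2.1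
  have key : ∀ L : ℕ, Sm Q L → ∃ M' : ℤ, IsCoprime M' q ∧ ∃ K : ℕ, ∀ x, m0 * M' ∣ x →
      ∀ n : ℕ, T.factorial * T ^ K ∣ n → (L : ℤ) ∣ D L (2 ^ n * x) - D L x := by
    intro L
    induction L using Nat.recOnPosPrimePosCoprime with
    | zero => exact fun s => absurd s.1 (by simp)
    | one => exact fun _ => ⟨1, isCoprime_one_left, 0, by simp⟩
    | prime_pow p e hp he =>
      intro s
      have := Fact.mk hp
      have sp : ∀ i : ℕ, Sm Q (p ^ i) := fun i =>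
        (Sm.prime hp (s.2 p hp (by exact_mod_cast dvd_pow_self p he.ne'))).pow i
      have : ∀ x, ∃ z : ℤ_[p], ∀ i, PadicInt.toZModPow i z = (D (p ^ i) x : ℤ) := fun x =>
        ⟨_, PadicInt.toZModPow_ofIntSeq_of_pow_dvd_sub (fun i => D (p ^ i) x) p fun i =>
          coh _ _ (sp i) (sp (i + 1)) (pow_dvd_pow _ i.le_succ) x⟩
      choose δ hδ using this
      have dv : ∀ i x y, (p : ℤ_[p]) ^ i ∣ δ x - δ y ↔ (p : ℤ) ^ i ∣ D (p ^ i) x - D (p ^ i) y := by
        intro i x y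
        rw [← Ideal.mem_span_singleton, ← PadicInt.ker_toZModPow, RingHom.mem_ker, map_sub, hδ, hδ,
          ← Int.cast_sub, ZMod.intCast_zmod_eq_zero_iff_dvd]
        push_cast; rfl
      have eqn : ∀ a b x y : ℤ, (∀ L, Sm Q L → L ∣ a * D L x - b * D L y) → a * δ x = b * δ y := by
        intro a b x y h
        refine PadicInt.ext_of_toZModPow.1 fun i => ?_
        rw [map_mul, map_mul, hδ, hδ, map_intCast, map_intCast, ← sub_eq_zero, ← Int.cast_mul,
          ← Int.cast_mul, ← Int.cast_sub, ZMod.intCast_zmod_eq_zero_iff_dvd]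
        exact_mod_cast h _ (sp i)
      obtain ⟨M', c, K, h⟩ := loc p q hq hq2 δ m0 m m1 m' T hm hT
        (PadicInt.ext_of_toZModPow.1 fun i => by simp [hδ, h0])
        (fun i => (cont _ (sp i)).imp fun M h => ⟨h.1, fun x y d => (dv i x y).2 (h.2 x y d)⟩)
        (fun x hx => eqn _ _ _ _ (h2 x hx))
        (fun x hx => by simpa using eqn _ _ _ _ (h3 x hx)) e
      exact ⟨M', c, K, fun x hx n hn => by simpa using (dv _ _ _).1 (h x hx n hn)⟩
    | coprime a b ha hb c iha ihb =>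
      intro s
      push_cast at s ⊢
      have sa : Sm Q a := s.of_dvd (by omega) (dvd_mul_right _ _)
      have sb : Sm Q b := s.of_dvd (by omega) (dvd_mul_left _ _)
      obtain ⟨Ma, ca, Ka, ha⟩ := iha sa
      obtain ⟨Mb, cb, Kb, hb⟩ := ihb sb
      refine ⟨Ma * Mb, ca.mul_left cb, Ka + Kb, fun x hx n hn => ?_⟩
      have r : ∀ L, Sm Q L → L ∣ (a : ℤ) * b → L ∣ D L (2 ^ n * x) - D L x →
          L ∣ D (a * b) (2 ^ n * x) - D (a * b) x := by
        intro L sL d h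
        have := ((coh _ _ sL s d (2 ^ n * x)).add h).sub (coh _ _ sL s d x)
        rwa [show ∀ u v w z : ℤ, u - v + (v - w) - (z - w) = u - z by intros; ring] at this
      refine (Nat.isCoprime_iff_coprime.2 c).mul_dvd
        (r _ sa (dvd_mul_right _ _) (ha x (Dvd.dvd.trans ⟨Mb, by ring⟩ hx) n
          ((mul_dvd_mul_left _ (pow_dvd_pow _ (by omega))).trans hn)))
        (r _ sb (dvd_mul_left _ _) (hb x (Dvd.dvd.trans ⟨Ma, by ring⟩ hx) n
          ((mul_dvd_mul_left _ (pow_dvd_pow _ (by omega))).trans hn)))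
  obtain ⟨y, hy, y1, hyq⟩ : ∃ y : ℤ, y = 2 ^ ((q - 1) * T.factorial) ∧ 1 < y ∧ (q : ℤ) ∣ y - 1 := by
    have := hq.two_le
    refine ⟨_, rfl, one_lt_pow₀ (by norm_num) (Nat.mul_ne_zero (by omega) T.factorial_ne_zero), ?_⟩
    have cop : Nat.Coprime 2 q := (Nat.coprime_primes Nat.prime_two hq).2 hq2.symm
    have := ((Nat.ModEq.pow_totient cop).pow T.factorial).symm.dvd
    rw [Nat.totient_prime hq, ← pow_mul, one_pow] at this
    exact_mod_cast this
  obtain ⟨L, sL, hL⟩ := inv ((y - 1) * m0).natAbs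
  obtain ⟨L, rfl⟩ := Int.eq_ofNat_of_zero_le sL.1.le
  obtain ⟨M', c, K, h⟩ := key L sL
  have d := hL _ _ (h (m0 * M') dvd_rfl ((q - 1) * T.factorial * T ^ K) ⟨q - 1, by ring⟩)
  have gs : ∀ n : ℕ, (q : ℤ) ∣ (∑ i ∈ Finset.range n, y ^ i) - n := by
    intro n
    induction n with
    | zero => simp
    | succ n ih =>
      rw [Finset.sum_range_succ]
      push_cast
      rw [show ∀ u v w : ℤ, u + v - (w + 1) = u - w + (v - 1) by intros; ring]
      exact ih.add (hyq.trans (by simpa using sub_dvd_pow_sub_pow y 1 n))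
  have cT : IsCoprime (∑ i ∈ Finset.range (T ^ K), y ^ i) (q : ℤ) := by
    rw [isCoprime_comm, (Nat.prime_iff_prime_int.1 hq).irreducible.coprime_iff_not_dvd]
    intro c
    have := (Nat.prime_iff_prime_int.1 hq).dvd_of_dvd_pow (n := K) (a := (T : ℤ))
      (by simpa using c.sub (gs (T ^ K)))
    exact (s2.2 q hq this).elim hq2 hQ
  rw [pow_mul, ← hy, ← sub_one_mul, ← geom_sum_mul, show ∀ u v w z : ℤ, u * v * (w * z) = (u * z) * (v * w) by intros; ring] at d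
  have d2 := ((cT.mul_left c).symm.pow_left).dvd_of_dvd_mul_left d
  have pos : 0 < (y - 1) * m0 := mul_pos (by omega) p0
  have l1 := Int.le_of_dvd pos d2
  have l2 := Nat.lt_pow_self (n := ((y - 1) * m0).natAbs) hq.one_lt
  generalize (y - 1) * m0 = w at *
  have : ((q ^ w.natAbs : ℕ) : ℤ) = (q : ℤ) ^ w.natAbs := by push_cast; rfl
  omega

end Pool.Agent.H65.Rub
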