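import Pool.Agent.H65.Rub3

set_option autoImplicit false

/-! Transfer of an isomorphism `CT P ≃* CT Q` to a compatible system of residue maps. -/
namespace Pool.Agent.H65.Rub

variable {P Q : Set ℕ}

lemma mem_cs {f : CT P} {x : ℤ} (h : f • x ≠ x) : x ∈ cs (Per P) f := fun _ _ m => ⟨x, m, h⟩

lemma meet (Φ : CT P ≃* CT Q) {f1 f2 : CT P} {x : ℤ} (h1 : x ∈ cs (Per P) f1)
    (h2 : x ∈ cs (Per P) f2) : ∃ w, w ∈ cs (Per Q) (Φ f1) ∧ w ∈ cs (Per Q) (Φ f2) := by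
  obtain ⟨g, n, t⟩ := (base P).lm' ((per_cs f1).inter (per_cs f2)) ⟨h1, h2⟩
  obtain ⟨w, hw⟩ := moved (X := ℤ) (g := Φ g) (by simpa using n)
  have : ∀ y, g • y ≠ y → y ∈ cs (Per P) f1 ∩ cs (Per P) f2 := fun y hy =>
    by_contra fun c => hy (t y c)
  exact ⟨w, ((base Q).le_iff _ _).1 ((((base P).le_iff _ _).2 fun y hy => (this y hy).1).map Φ) w hw,
    ((base Q).le_iff _ _).1 ((((base P).le_iff _ _).2 fun y hy => (this y hy).2).map Φ) w hw⟩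

lemma ex_cs {m : ℤ} (sm : Sm P m) (r : ℤ) :
    ∃ g : CT P, ∀ x : ℤ, x ∈ cs (Per P) g ↔ m ∣ x - r := by
  obtain ⟨g, hg⟩ := ex_swap sm r
  exact ⟨g, fun x => ⟨fun h => cs_sub (Per.cls sm r)
    (fun y hy => by_contra fun c => hy ((hg y).1 c)) h, fun h => mem_cs ((hg x).2 h)⟩⟩

def R (Φ : CT P ≃* CT Q) (x L r : ℤ) : Prop :=
  ∃ k : CT Q, (∀ y, y ∈ cs (Per Q) k ↔ L ∣ y - r) ∧ x ∈ cs (Per P) (Φ.symm k)

lemma cover (Φ : CT P ≃* CT Q) {L : ℤ} (sL : Sm Q L) :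
    ∃ M, Sm P M ∧ ∀ x, ∃ r, ∀ y, M ∣ y - x → R Φ y L r := by
  choose k hk using ex_cs sL
  obtain ⟨M, sM, hM⟩ := common (P := P) (Finset.Ico 0 L) (fun r => cs (Per P) (Φ.symm (k r)))
    fun r _ => per_cs _
  refine ⟨M, sM, fun x => ?_⟩
  by_contra hc
  push Not at hc
  obtain ⟨g, n, t⟩ := (base P).lm' (Per.cls sM x) (p := x) (by simp)
  obtain ⟨w, hw⟩ := moved (X := ℤ) (g := Φ g) (by simpa using n)
  obtain ⟨z, z1, z2⟩ := meet Φ.symm (mem_cs hw) ((hk (w % L) w).2 (by rw [Int.emod_def]; simp))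
  rw [Φ.symm_apply_apply] at z1
  obtain ⟨y, hy, c⟩ := hc (w % L)
  have : M ∣ z - x := cs_sub (Per.cls sM x) t z1
  exact c ⟨_, hk _, hM _ (Finset.mem_Ico.2 ⟨Int.emod_nonneg _ sL.1.ne', Int.emod_lt_of_pos _ sL.1⟩)
    z z2 y (by simpa using hy.sub this)⟩

lemma R.eqv {Φ : CT P ≃* CT Q} {x L r L' r' : ℤ} (g : CT P) (h' : R Φ x L' r')
    (h : R Φ (g • x) L r) : ∃ u, L' ∣ u - r' ∧ L ∣ Φ g • u - r := by
  obtain ⟨k', e', m'⟩ := h'
  obtain ⟨k, e, m⟩ := h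
  obtain ⟨w, w1, w2⟩ := meet Φ (cs_conj g m') m
  have := cs_conj (Φ g)⁻¹ w1
  simp only [map_mul, map_inv, MulEquiv.apply_symm_apply, inv_inv, ← mul_assoc, inv_mul_cancel,
    one_mul, inv_mul_cancel_right] at this w2
  exact ⟨_, (e' _).1 this, by simpa using (e _).1 w2⟩

lemma R.uniq {Φ : CT P ≃* CT Q} {x L r L' r' : ℤ} (h' : R Φ x L' r') (h : R Φ x L r)
    (d : L ∣ L') : L ∣ r' - r := by
  obtain ⟨u, a, b⟩ := h'.eqv 1 (by simpa using h)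
  simpa using b.sub (d.trans a)

lemma R.inv {Φ : CT P ≃* CT Q} {x L r M s : ℤ} (sM : Sm P M) (h : R Φ x L r)
    (h' : ∀ w, L ∣ w - r → R Φ.symm w M s) : M ∣ x - s := by
  obtain ⟨k, e, m⟩ := h
  obtain ⟨f, hf⟩ := ex_cs sM x
  obtain ⟨w, w1, w2⟩ := meet Φ m ((hf x).2 (by simp))
  rw [Φ.apply_symm_apply] at w1
  obtain ⟨f', e', m'⟩ := h' w ((e w).1 w1)
  obtain ⟨z, z1, z2⟩ := meet Φ.symm w2 m'
  rw [Φ.symm_apply_apply] at z1
  rw [MulEquiv.symm_symm, Φ.symm_apply_apply] at z2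
  simpa using ((e' z).1 z2).sub ((hf z).1 z1)

theorem not_iso (q : ℕ) (hq : q.Prime) (hq2 : q ≠ 2) (hP : q ∈ P) (hQ : q ∉ Q)
    (Φ : CT P ≃* CT Q) : False := by
  have : ∀ L x : ℤ, ∃ r, Sm Q L → R Φ x L r := fun L x => by
    by_cases s : Sm Q L
    · obtain ⟨M, -, h⟩ := cover Φ s
      exact (h x).imp fun r h _ => h x (by simp)
    · exact ⟨0, fun c => absurd c s⟩
  choose ρ hρ using this
  have cont : ∀ L, Sm Q L → ∃ M : ℤ, 0 < M ∧ ∀ x y, M ∣ x - y → L ∣ ρ L x - ρ L y := by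
    intro L s
    obtain ⟨M, sM, h⟩ := cover Φ s
    refine ⟨M, sM.1, fun x y d => ?_⟩
    obtain ⟨r, hr⟩ := h y
    simpa using ((hρ L x s).uniq (hr x d) dvd_rfl).sub ((hρ L y s).uniq (hr y (by simp)) dvd_rfl)
  have slope : ∀ c : ℤ, Sm P c → ∃ M m m1 : ℤ, 0 < M ∧ m ≠ 0 ∧ Sm Q m1 ∧ ∀ x, M ∣ x → ∀ L, Sm Q L →
      L ∣ m * (ρ L (c * x) - ρ L 0) - m1 * (ρ L x - ρ L 0) := by
    intro c sc
    obtain ⟨g, hg, -⟩ := ex_dil Sm.one sc le_rfl one_pos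
    obtain ⟨m, sm, hm⟩ := rc (Φ g)
    obtain ⟨M, pM, hM⟩ := cont m sm
    obtain ⟨m1, s1, h1⟩ := hm (ρ m 0)
    have F : ∀ x, 4 * M ∣ x → ∀ L, Sm Q L →
        L ∣ m * Φ g • ρ m 0 + (ρ L x - ρ m 0) * m1 - m * ρ L (c * x) := by
      rintro x ⟨a, rfl⟩ L s
      have e := hg (M * a)
      rw [show 0 + M * a * (4 * 1) = 4 * M * a by ring,
        show 0 + M * a * c * (4 * 1) = c * (4 * M * a) by ring] at e
      have r := hρ _ (4 * M * a) (sm.mul s)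
      obtain ⟨u, u1, u2⟩ := r.eqv g (by rw [e]; exact hρ L (c * (4 * M * a)) s :
        R Φ (g • (4 * M * a)) L (ρ L (c * (4 * M * a))))
      obtain ⟨k, hk⟩ : m ∣ u - ρ m 0 := by
        simpa using (((dvd_mul_right m L).trans u1).add
          (r.uniq (hρ m _ sm) (dvd_mul_right m L))).add (hM (4 * M * a) 0 ⟨4 * a, by ring⟩)
      obtain ⟨b, hb⟩ := ((dvd_mul_left L m).trans u1).add (r.uniq (hρ L _ s) (dvd_mul_left L m))
      rw [show u = ρ m 0 + k * m by linear_combination hk, h1] at u2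
      obtain ⟨d, hd⟩ := u2
      exact ⟨m * d - b * m1, by linear_combination m * hd - m1 * hb + m1 * hk⟩
    refine ⟨4 * M, m, m1, by omega, sm.1.ne', s1, fun x hx L s => ?_⟩
    have := (F 0 (dvd_zero _) L s).sub (F x hx L s)
    rw [mul_zero] at this
    exact (dvd_iff_dvd_of_dvd_sub (by ring_nf; simp)).1 this
  obtain ⟨M, m, m1, pM, hm, -, h2⟩ := slope 2 Sm.two
  obtain ⟨M', m', m2, pM', -, s2, h3⟩ := slope q (Sm.prime hq (Or.inr hP))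
  refine final Q q hq hq2 hQ (fun L x => ρ L x - ρ L 0) (by simp) (fun L L' s s' d x => ?_)
    (fun L s => (cont L s).imp fun M h => ⟨h.1, fun x y d => by simpa using h.2 x y d⟩)
    (fun j => ?_) (M * M') m m1 m' m2 (mul_pos pM pM') hm s2
    (fun x hx => h2 x ((dvd_mul_right _ _).trans hx)) fun x hx => h3 x ((dvd_mul_left _ _).trans hx)
  · have := ((hρ _ x s').uniq (hρ _ x s) d).sub ((hρ _ 0 s').uniq (hρ _ 0 s) d)
    exact (dvd_iff_dvd_of_dvd_sub (by ring_nf; simp)).1 this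
  · have sq := (Sm.prime hq (Or.inr hP)).pow j
    obtain ⟨L, sL, h⟩ := cover Φ.symm sq
    refine ⟨L, sL, fun x y d => ?_⟩
    obtain ⟨s, hs⟩ := h (ρ L y)
    simpa using ((hρ L x sL).inv sq fun w hw => hs w (by simpa using hw.add d)).sub
      ((hρ L y sL).inv sq hs)

theorem main (P Q : Set ℕ) (hP : ∀ p ∈ P, Nat.Prime p ∧ p ≠ 2) (hQ : ∀ q ∈ Q, Nat.Prime q ∧ q ≠ 2)
    (h : P ≠ Q) : IsEmpty (CT P ≃* CT Q) := ⟨fun Φ => h (Set.ext fun q =>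
  ⟨fun a => by_contra fun b => not_iso q (hP q a).1 (hP q a).2 a b Φ,
   fun a => by_contra fun b => not_iso q (hQ q a).1 (hQ q a).2 a b Φ.symm⟩)⟩

end Pool.Agent.H65.Rub
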