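import Pool.Agent.H65.Rub4

set_option autoImplicit false

/-! Every automorphism of `CT(ℤ)` is induced by a profinitely continuous permutation of `ℤ`. -/
namespace Pool.Agent.H65.Rub

abbrev U : Set ℕ := Set.univ

lemma sm {m : ℤ} (h : 0 < m) : Sm U m := ⟨h, fun _ _ _ => Or.inr trivial⟩

lemma ex_tr' {x y a b : ℤ} (s : 0 ≤ x ↔ 0 ≤ y) (ha : |x| < a) (hb : |y| < b)
    (hd : ¬ (Int.gcd a b : ℤ) ∣ x - y) : ∃ g : CT U, ∀ k, g • (x + k * a) = y + k * b := by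
  rw [abs_lt] at ha hb
  have pa : 0 < a := by omega
  have pb : 0 < b := by omega
  by_cases hx : 0 ≤ x
  · obtain ⟨g, hg⟩ := ex_tr (sm pa) (sm pb) hx ha.2 (s.1 hx) hb.2 hd
    exact ⟨g, fun k => by rw [hg, tf1 pa]⟩
  · have hy : ¬ 0 ≤ y := fun c => hx (s.2 c)
    obtain ⟨g, hg⟩ := ex_tr (r1 := x + a) (r2 := y + b) (sm pa) (sm pb) (by omega) (by omega)
      (by omega) (by omega) fun c => hd (by
        rw [show x - y = x + a - (y + b) - a + b by ring]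
        exact (c.sub (Int.gcd_dvd_left a b)).add (Int.gcd_dvd_right a b))
    exact ⟨g, fun k => by rw [show x + k * a = x + a + (k - 1) * a by ring, hg, tf1 pa]; ring⟩

lemma germ {x y c : ℤ} (s : 0 ≤ x ↔ 0 ≤ y) (hc : 0 < c) :
    ∃ (g : CT U) (M : ℤ), 0 < M ∧ ∀ k, g • (x + k * M) = y + k * c * M := by
  obtain ⟨z, sz, zx, zy⟩ : ∃ z : ℤ, (0 ≤ x ↔ 0 ≤ z) ∧ x ≠ z ∧ z ≠ y := by
    by_cases hx : 0 ≤ x
    · exact ⟨x + y + 1, by omega, by omega, by omega⟩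
    · exact ⟨x + y, by omega, by omega, by omega⟩
  obtain ⟨M, h1, h2, h3, h4, h5⟩ : ∃ M : ℤ, |x| < M ∧ |y| < M ∧ |z| < M ∧ |x - z| < M ∧ |z - y| < M := by
    refine ⟨|x| + |y| + |z| + |x - z| + |z - y| + 1, ?_⟩
    have := abs_nonneg x; have := abs_nonneg y; have := abs_nonneg z
    have := abs_nonneg (x - z); have := abs_nonneg (z - y)
    omega
  have pM : 0 < M := (abs_nonneg x).trans_lt h1
  obtain ⟨g1, e1⟩ := ex_tr' sz h1 h3 fun d => zx (sub_eq_zero.1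
    (Int.eq_zero_of_abs_lt_dvd ((Int.dvd_coe_gcd dvd_rfl dvd_rfl).trans d) h4))
  obtain ⟨g2, e2⟩ := ex_tr' (b := c * M) (sz.symm.trans s) h3 (by nlinarith) fun d => zy (sub_eq_zero.1
    (Int.eq_zero_of_abs_lt_dvd ((Int.dvd_coe_gcd dvd_rfl (dvd_mul_left _ _)).trans d) h5))
  exact ⟨g2 * g1, M, pM, fun k => by rw [mul_smul, e1, e2, mul_assoc]⟩

lemma zero_of_dvd {c : ℤ} (h : ∀ L, 0 < L → L ∣ c) : c = 0 :=
  Int.eq_zero_of_abs_lt_dvd (h (|c| + 1) (by positivity)) (by omega)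

lemma ex_sig (Φ : CT U ≃* CT U) (x : ℤ) : ∃ y, ∀ L, 0 < L → R Φ x L y := by
  have : ∀ L : ℤ, ∃ r, 0 < L → R Φ x L r := fun L => by
    by_cases s : 0 < L
    · obtain ⟨M, -, h⟩ := cover Φ (sm s)
      exact (h x).imp fun r h _ => h x (by simp)
    · exact ⟨0, fun c => absurd c s⟩
  choose ρ hρ using this
  obtain ⟨g, M, pM, hg⟩ := germ (x := x) Iff.rfl two_pos
  have gx : g • x = x := by simpa using hg 0
  obtain ⟨m, ⟨pm, -⟩, hm⟩ := rc (Φ g)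
  obtain ⟨m1, -, h1⟩ := hm (ρ m)
  have F : ∀ L, 0 < L → L ∣ (m * Φ g • ρ m - ρ m * m1) - (m - m1) * ρ L := by
    intro L s
    have r := hρ _ (mul_pos pm s)
    obtain ⟨u, u1, u2⟩ := r.eqv g (by rw [gx]; exact hρ L s : R Φ (g • x) L (ρ L))
    obtain ⟨k, hk⟩ : m ∣ u - ρ m := by
      simpa using ((dvd_mul_right m L).trans u1).add (r.uniq (hρ m pm) (dvd_mul_right m L))
    obtain ⟨b, hb⟩ := ((dvd_mul_left L m).trans u1).add (r.uniq (hρ L s) (dvd_mul_left L m))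
    rw [show u = ρ m + k * m by linear_combination hk, h1] at u2
    obtain ⟨d, hd⟩ := u2
    exact ⟨m * d - b * m1, by linear_combination m * hd - m1 * hb + m1 * hk⟩
  by_cases e : m - m1 = 0
  · exfalso
    have c0 : m * Φ g • ρ m - ρ m * m1 = 0 := zero_of_dvd fun L s => by simpa [e] using F L s
    obtain rfl : m = m1 := by omega
    have c1 : Φ g • ρ m = ρ m := mul_left_cancel₀ pm.ne' (by linear_combination c0)
    obtain ⟨k, ek, mk⟩ := hρ m pm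
    have : x ∈ cs (Per U) g := fun V ⟨a, sa, ha⟩ hx =>
      ⟨x + a * M, ha x hx _ (by simp), by rw [hg]; have := mul_pos sa.1 pM; nlinarith⟩
    obtain ⟨w, w1, w2⟩ := meet Φ this mk
    rw [Φ.apply_symm_apply] at w2
    refine cs_sub (Per.cls (sm pm) (ρ m)).compl (fun y hy => ?_) w1 ((ek w).1 w2)
    obtain ⟨j, hj⟩ : m ∣ y - ρ m := by simpa using hy
    rw [show y = ρ m + j * m by linear_combination hj, h1, c1]
  · generalize m * Φ g • ρ m - ρ m * m1 = c at F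
    generalize m - m1 = d at F e
    have pd : 0 < |d| := abs_pos.2 e
    obtain ⟨y, rfl⟩ : d ∣ c := by
      simpa using ((abs_dvd _ _).1 (F _ pd)).add (dvd_mul_right d (ρ |d|))
    refine ⟨y, fun L s => ?_⟩
    have a := F _ (mul_pos pd s)
    rw [← mul_sub, ← dvd_abs, abs_mul, mul_dvd_mul_iff_left pd.ne', dvd_abs] at a
    have b := a.add ((hρ _ (mul_pos pd s)).uniq (hρ L s) (dvd_mul_left _ _))
    obtain ⟨k, ek, mk⟩ := hρ L s
    exact ⟨k, fun z => (ek z).trans (dvd_iff_dvd_of_dvd_sub (by simpa using b)), mk⟩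

theorem ex_conj (Φ : CT U ≃* CT U) : ∃ σ : Equiv.Perm ℤ, (∀ (g : CT U) x, σ (g • x) = Φ g • σ x) ∧
    ∀ L, 0 < L → ∃ M, 0 < M ∧ ∀ x y, M ∣ x - y → L ∣ σ x - σ y := by
  have inv : ∀ (Φ : CT U ≃* CT U) (x y z : ℤ), (∀ L, 0 < L → R Φ x L y) →
      (∀ L, 0 < L → R Φ.symm y L z) → z = x := by
    intro Φ x y z h h'
    refine sub_eq_zero.1 (zero_of_dvd fun M pM => ?_)
    obtain ⟨L, sL, c⟩ := cover Φ.symm (sm pM)
    obtain ⟨s, hs⟩ := c y
    simpa using ((h' M pM).uniq (hs y (by simp)) dvd_rfl).sub ((h L sL.1).inv (sm pM) hs)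
  choose σ hσ using ex_sig Φ
  choose τ hτ using ex_sig Φ.symm
  refine ⟨⟨σ, τ, fun x => inv Φ _ _ _ (hσ x) (hτ _), fun x => inv Φ.symm _ _ _ (hτ x) (hσ _)⟩,
    fun g x => ?_, fun L s => ?_⟩
  · refine sub_eq_zero.1 (zero_of_dvd fun L s => ?_)
    obtain ⟨m, ⟨pm, -⟩, hm⟩ := rc (Φ g)
    obtain ⟨m1, -, h1⟩ := hm (σ x)
    obtain ⟨u, ⟨k, hk⟩, u2⟩ := (hσ x _ (mul_pos pm s)).eqv g (hσ (g • x) L s)
    rw [show u = σ x + k * L * m by linear_combination hk, h1] at u2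
    obtain ⟨d, hd⟩ := u2
    exact ⟨k * m1 - d, by simp only [Equiv.coe_fn_mk]; linear_combination -hd⟩
  · obtain ⟨M, sM, h⟩ := cover Φ (sm s)
    refine ⟨M, sM.1, fun x y d => ?_⟩
    obtain ⟨r, hr⟩ := h y
    simpa using ((hσ x L s).uniq (hr x d) dvd_rfl).sub ((hσ y L s).uniq (hr y (by simp)) dvd_rfl)

end Pool.Agent.H65.Rub
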