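import Pool.Agent.H65.Rub5

set_option autoImplicit false

/-! Rigidity: a continuous permutation normalising `CT(ℤ)` is residue-class-wise affine. -/
namespace Pool.Agent.H65.Rub

def Tg (σ : ℤ → ℤ) (y : ℤ) (a b : ℚ) : Prop :=
  ∃ N, 0 < N ∧ ∀ z, N ∣ z - y → (σ z : ℚ) = a * σ (z - 1) + b

variable {σ : Equiv.Perm ℤ}

lemma Tg.uniq {y : ℤ} {a b a' b' : ℚ} (h : Tg σ y a b) (h' : Tg σ y a' b') : a = a' ∧ b = b' := by
  obtain ⟨N, pN, h⟩ := h
  obtain ⟨N', pN', h'⟩ := h'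
  have e1 := (h y (by simp)).symm.trans (h' y (by simp))
  have e2 := (h (y + N * N') (by simp)).symm.trans (h' (y + N * N') (by simp))
  have n : (σ (y - 1) : ℚ) - σ (y + N * N' - 1) ≠ 0 := by
    rw [sub_ne_zero, Ne, Int.cast_inj, σ.apply_eq_iff_eq]
    have := mul_pos pN pN'
    omega
  have : a = a' := mul_right_cancel₀ n (by linear_combination e1 - e2)
  exact ⟨this, by rw [this] at e1; linear_combination e1⟩

lemma slope_one {s : ℤ → ℤ} (hs : Function.Injective s) {a b : ℚ}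
    (h : ∀ k, (s (k + 1) : ℚ) = a * s k + b) : a = 1 := by
  obtain ⟨d, hd⟩ : ∃ d : ℤ → ℤ, ∀ k, d k = s (k + 1) - s k := ⟨_, fun _ => rfl⟩
  have e : ∀ k, (d (k + 1) : ℚ) = a * d k := fun k => by
    rw [hd, hd]; push_cast; linear_combination h (k + 1) - h k
  obtain ⟨k, hk⟩ : ∃ k, ∀ j, (d k).natAbs ≤ (d j).natAbs :=
    ⟨_, fun j => Function.argmin_le (fun k => (d k).natAbs) j⟩
  have hk' : ∀ j, |(d k : ℚ)| ≤ |(d j : ℚ)| := fun j => by
    have : |d k| ≤ |d j| := by simpa using Int.ofNat_le.2 (hk j)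
    exact_mod_cast this
  have p : 0 < |(d k : ℚ)| := by
    rw [abs_pos, Ne, Int.cast_eq_zero, hd, sub_eq_zero, hs.eq_iff]
    omega
  have h1 := hk' (k + 1)
  have h2 := hk' (k - 1)
  have h3 := congrArg abs (e (k - 1))
  rw [e, abs_mul] at h1
  rw [sub_add_cancel, abs_mul] at h3
  have : |a| = 1 := le_antisymm (by nlinarith [abs_nonneg a]) (by nlinarith)
  refine (abs_eq zero_le_one).1 this |>.resolve_right fun c => ?_
  have : s (k + 1 + 1) = s k := by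
    have := e k
    rw [hd, hd, c] at this
    exact_mod_cast (by push_cast at this; linear_combination this : (s (k + 1 + 1) : ℚ) = s k)
  have := hs this
  omega

variable (hσ : ∀ g : CT U, ∃ g' : CT U, ∀ x, σ (g • x) = g' • σ x)
  (hc : ∀ L, 0 < L → ∃ M, 0 < M ∧ ∀ x y, M ∣ x - y → L ∣ σ x - σ y)
include hσ hc

lemma loca (g : CT U) : ∃ N, 0 < N ∧ ∀ x, ∃ a b : ℚ, a ≠ 0 ∧
    ∀ y, N ∣ y - x → (σ (g • y) : ℚ) = a * σ y + b := by
  obtain ⟨g', hg⟩ := hσ g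
  obtain ⟨m, ⟨pm, -⟩, hm⟩ := rc g'
  obtain ⟨N, pN, hN⟩ := hc m pm
  refine ⟨N, pN, fun x => ?_⟩
  obtain ⟨m', ⟨pm', -⟩, h⟩ := hm (σ x)
  have : (m : ℚ) ≠ 0 := by exact_mod_cast pm.ne'
  refine ⟨m' / m, (g' • σ x : ℤ) - m' / m * σ x, div_ne_zero (by exact_mod_cast pm'.ne') this,
    fun y d => ?_⟩
  obtain ⟨k, hk⟩ := hN y x d
  rw [hg, show σ y = σ x + k * m by linear_combination hk, h]
  push_cast
  field_simp
  ring

lemma away {n : ℤ} (pn : 0 < n) : ∃ N, 0 < N ∧ ∀ y, ¬ n ∣ y → ∃ a b : ℚ,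
    ∀ z, N ∣ z - y → (σ z : ℚ) = a * σ (z - 1) + b := by
  have : ∀ r : ℤ, ∃ N, 0 < N ∧ (0 ≤ r → r + 1 < n → ∀ x, ∃ a b : ℚ,
      ∀ w, N ∣ w - x → n ∣ w - r → (σ (w + 1) : ℚ) = a * σ w + b) := by
    intro r
    by_cases h : 0 ≤ r ∧ r + 1 < n
    · obtain ⟨g, hg⟩ := ex_tr' (x := r) (y := r + 1) (a := n) (b := n) (by omega)
        (by rw [abs_lt]; omega) (by rw [abs_lt]; omega) fun d => by
          have := Int.eq_zero_of_abs_lt_dvd ((Int.dvd_coe_gcd dvd_rfl dvd_rfl).trans d)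
            (by rw [abs_lt]; omega)
          omega
      obtain ⟨N, pN, hN⟩ := loca hσ hc g
      refine ⟨N, pN, fun _ _ x => ?_⟩
      obtain ⟨a, b, -, h⟩ := hN x
      refine ⟨a, b, fun w d ⟨k, hk⟩ => ?_⟩
      rw [← h w d, show w = r + k * n by linear_combination hk, hg]
      congr 2; ring
    · exact ⟨1, one_pos, fun a b => absurd ⟨a, b⟩ h⟩
  choose N pN hN using this
  refine ⟨n * ∏ r ∈ Finset.Ico 0 n, N r, mul_pos pn (Finset.prod_pos fun r _ => pN r), fun y hy => ?_⟩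
  have r0 := Int.emod_nonneg (y - 1) pn.ne'
  have r1 := Int.emod_lt_of_pos (y - 1) pn
  have r2 : n ∣ y - 1 - (y - 1) % n := by rw [Int.emod_def]; simp
  have r3 : (y - 1) % n + 1 ≠ n := fun c => hy (by
    rw [show y = y - 1 - (y - 1) % n + ((y - 1) % n + 1) by ring, c]
    exact r2.add dvd_rfl)
  obtain ⟨a, b, h⟩ := hN _ r0 (by omega) (y - 1)
  refine ⟨a, b, fun z d => ?_⟩
  have := h (z - 1) (by
    simpa using ((Finset.dvd_prod_of_mem N (Finset.mem_Ico.2 ⟨r0, r1⟩)).mul_left n).trans d)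
    (by rw [show z - 1 - (y - 1) % n = z - y + (y - 1 - (y - 1) % n) by ring]
        exact ((dvd_mul_right _ _).trans d).add r2)
  rwa [sub_add_cancel] at this

lemma up {c : ℤ} (pc : 0 < c) : ∃ M, 0 < M ∧ ∀ i : ℕ, ∀ a b, ∃ a' b', ∀ y, M ∣ y →
    Tg σ y a b → Tg σ (c ^ i * y) a' b' := by
  obtain ⟨g, M, pM, hg⟩ := germ (x := 0) Iff.rfl pc
  obtain ⟨g', M', pM', hg'⟩ := germ (x := -1) Iff.rfl pc
  obtain ⟨N, pN, hN⟩ := loca hσ hc g
  obtain ⟨N', pN', hN'⟩ := loca hσ hc g'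
  obtain ⟨A, B, -, h⟩ := hN 0
  obtain ⟨A', B', n', h'⟩ := hN' (-1)
  refine ⟨M * M' * N * N', by positivity, fun i a b => ?_⟩
  induction i with
  | zero => exact ⟨a, b, fun y _ h => by simpa using h⟩
  | succ i ih =>
    obtain ⟨a', b', ih⟩ := ih
    refine ⟨A * a' / A', A * b' + B - A * a' / A' * B', fun y hy t => ?_⟩
    obtain ⟨K, pK, hK⟩ := ih y hy t
    obtain ⟨j, hj⟩ := hy
    refine ⟨c * (K * (M * M' * N * N')), by positivity, fun z ⟨k, hk⟩ => ?_⟩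
    obtain ⟨w, hw, rfl⟩ : ∃ w, K ∣ M * M' * N * N' * w - c ^ i * y ∧ z = c * (M * M' * N * N' * w) :=
      ⟨c ^ i * j + K * k, ⟨M * M' * N * N' * k, by rw [hj]; ring⟩, by
        rw [hj] at hk; linear_combination hk⟩
    have e := hK _ hw
    have e1 := h (0 + M' * N * N' * w * M) ⟨M' * N' * w * M, by ring⟩
    have e2 := h' (-1 + M * N * N' * w * M') ⟨M * N * w * M', by ring⟩
    rw [hg, show 0 + M' * N * N' * w * c * M = c * (M * M' * N * N' * w) by ring,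
      show 0 + M' * N * N' * w * M = M * M' * N * N' * w by ring] at e1
    rw [hg', show -1 + M * N * N' * w * c * M' = c * (M * M' * N * N' * w) - 1 by ring,
      show -1 + M * N * N' * w * M' = M * M' * N * N' * w - 1 by ring] at e2
    rw [e1, e2, e]
    field_simp
    ring

lemma near : ∃ K, 0 < K ∧ ∃ a b : ℚ, ∀ y, K ∣ y → (σ y : ℚ) = a * σ (y - 1) + b := by
  obtain ⟨M2, p2, h2⟩ := up hσ hc two_pos
  obtain ⟨M3, p3, h3⟩ := up hσ hc three_pos
  obtain ⟨N, pN, hN⟩ := away hσ hc (n := 6 * (M2 * M3)) (by positivity)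
  have key : ∀ (p : ℤ) (M : ℤ), Prime p → p ∣ 6 → M ∣ M2 * M3 →
      (∀ i : ℕ, ∀ a b, ∃ a' b', ∀ y, M ∣ y → Tg σ y a b → Tg σ (p ^ i * y) a' b') →
      ∀ s, s ≠ 0 → ∃ i : ℕ, ∃ a b, ∀ v, p ^ i ∣ v - s → Tg σ (M2 * M3 * N * v) a b := by
    intro p M pp p6 dM h s hs
    obtain ⟨i, w, nw, hw⟩ := WfDvdMonoid.max_power_factor (mul_ne_zero pN.ne' hs) pp.irreducible
    obtain ⟨a, b, e⟩ := hN (M2 * M3 * w) fun d => nw (p6.trans (by
      rwa [mul_comm 6, mul_dvd_mul_iff_left (by positivity)] at d))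
    obtain ⟨a', b', e'⟩ := h i a b
    refine ⟨i, a', b', fun v ⟨t, ht⟩ => ?_⟩
    rw [show M2 * M3 * N * v = p ^ i * (M2 * M3 * (w + N * t)) by
      linear_combination M2 * M3 * N * ht + M2 * M3 * hw]
    exact e' _ (dM.mul_right _) ⟨N, pN, fun z d => e z (by
      rw [show z - M2 * M3 * w = z - M2 * M3 * (w + N * t) + N * (M2 * M3 * t) by ring]
      exact d.add (dvd_mul_right _ _))⟩
  obtain ⟨j, a, b, h⟩ := key 2 M2 Int.prime_two (by norm_num) (dvd_mul_right _ _) h2 1 one_ne_zero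
  have pK : 0 < M2 * M3 * N := by positivity
  have ne : ∀ s, s ≠ 0 → (σ (M2 * M3 * N * s) : ℚ) = a * σ (M2 * M3 * N * s - 1) + b := by
    intro s hs
    obtain ⟨i, a', b', h'⟩ := key 3 M3 Int.prime_three (by norm_num) (dvd_mul_left _ _) h3 s hs
    obtain ⟨u, v, huv⟩ : IsCoprime ((2 : ℤ) ^ j) (3 ^ i) := IsCoprime.pow (by norm_num [Int.isCoprime_iff_gcd_eq_one])
    obtain ⟨rfl, rfl⟩ := (h (v * 3 ^ i + s * u * 2 ^ j) ⟨s * u - u, by linear_combination huv⟩).uniq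
      (h' _ ⟨v - s * v, by linear_combination s * huv⟩)
    obtain ⟨K, -, hK⟩ := h' s (by simp)
    exact hK _ (by simp)
  refine ⟨_, pK, a, b, ?_⟩
  rintro _ ⟨s, rfl⟩
  by_cases hs : s = 0
  swap
  · exact ne s hs
  have : ∀ L : ℤ, 0 < L → ∃ t : ℤ, (a.den : ℚ) * (σ 0 - a * σ (-1) - b) = L * t := by
    intro L pL
    obtain ⟨M, pM, hM⟩ := hc L pL
    obtain ⟨u, hu⟩ := hM 0 (M2 * M3 * N * M) (by simp)
    obtain ⟨v, hv⟩ := hM (-1) (M2 * M3 * N * M - 1) ⟨-(M2 * M3 * N), by ring⟩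
    have e := ne M pM.ne'
    have hu' : (σ 0 : ℚ) - σ (M2 * M3 * N * M) = L * u := by exact_mod_cast hu
    have hv' : (σ (-1) : ℚ) - σ (M2 * M3 * N * M - 1) = L * v := by exact_mod_cast hv
    refine ⟨a.den * u - a.num * v, ?_⟩
    push_cast
    rw [← Rat.mul_den_eq_num a]
    linear_combination a.den * hu' - a * a.den * hv' + a.den * e
  obtain ⟨t, ht⟩ := this 1 one_pos
  have t0 : t = 0 := zero_of_dvd fun L pL => (this L pL).imp fun t' h => by
    rw [ht] at h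
    exact_mod_cast (by linear_combination h : (t : ℚ) = L * t')
  rw [t0, Int.cast_zero, mul_zero, mul_eq_zero] at ht
  rw [hs, mul_zero, zero_sub]
  linear_combination ht.resolve_left (by exact_mod_cast a.den_ne_zero)

theorem rigid : ∃ m : ℤ, 0 < m ∧ ∀ r : ℤ, ∃ a b : ℚ, ∀ n : ℤ,
    Int.ModEq m n r → (σ n : ℚ) = a * n + b := by
  obtain ⟨K, pK, a0, b0, h0⟩ := near hσ hc
  obtain ⟨N, pN, hN⟩ := away hσ hc pK
  have pL := mul_pos pK pN
  have h1 : ∀ y, ∃ a b : ℚ, ∀ z, K * N ∣ z - y → (σ z : ℚ) = a * σ (z - 1) + b := fun y => by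
    by_cases d : K ∣ y
    · exact ⟨a0, b0, fun z hz => h0 z (by simpa using ((dvd_mul_right _ _).trans hz).add d)⟩
    · obtain ⟨a, b, h⟩ := hN y d
      exact ⟨a, b, fun z hz => h z ((dvd_mul_left _ _).trans hz)⟩
  generalize K * N = L at pL h1
  have h2 : ∀ j : ℕ, ∀ y, ∃ a b : ℚ, ∀ z, L ∣ z - y → (σ (z + j) : ℚ) = a * σ z + b := by
    intro j y
    induction j with
    | zero => exact ⟨1, 0, by simp⟩
    | succ j ih =>
      obtain ⟨a, b, h⟩ := ih
      obtain ⟨a', b', h'⟩ := h1 (y + (j + 1 : ℕ))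
      refine ⟨a' * a, a' * b + b', fun z d => ?_⟩
      rw [h' _ (by simpa using d), show z + (j + 1 : ℕ) - 1 = z + j by push_cast; ring, h z d]
      ring
  refine ⟨L, pL, fun r => ?_⟩
  obtain ⟨a, b, h⟩ := h2 L.toNat r
  rw [Int.toNat_of_nonneg pL.le] at h
  have h' : ∀ k : ℤ, (σ (r + (k + 1) * L) : ℚ) = a * σ (r + k * L) + b := fun k => by
    rw [← h _ (by simp)]; congr 2; ring
  obtain rfl : a = 1 := slope_one (s := fun k => σ (r + k * L))
    (fun x y e => mul_right_cancel₀ pL.ne' (add_left_cancel (σ.injective e))) h'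
  have e : ∀ k : ℤ, (σ (r + k * L) : ℚ) = σ r + k * b := fun k => by
    induction k using Int.induction_on with
    | zero => simp
    | succ k ih => rw [h', ih]; push_cast; ring
    | pred k ih =>
      have := h' (-k - 1)
      rw [sub_add_cancel, ih] at this
      push_cast at this ⊢
      linear_combination -this
  refine ⟨b / L, σ r - b / L * r, fun n hn => ?_⟩
  obtain ⟨k, hk⟩ := hn.symm.dvd
  have : (L : ℚ) ≠ 0 := by exact_mod_cast pL.ne'
  rw [show n = r + k * L by linear_combination hk, e]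
  push_cast
  field_simp
  ring

end Pool.Agent.H65.Rub
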