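import Pool.Agent.H65.Rub6
import Pool.Agent.H27.ClassTr

set_option autoImplicit false

/-! The outer automorphism group of `CT(ℤ)`. -/
namespace Pool.Agent.H65.Rub

lemma gen_eq : Gen U = H27.ClassTr.Gen := by
  ext σ
  constructor
  · rintro ⟨m1, m2, r1, r2, h1, h2, a1, b1, a2, b2, hd, -, hg⟩
    replace hg : ∀ n, σ n = tf m1 m2 r1 r2 n := hg
    refine ⟨r1, m1, r2, m2, a1, b1, a2, b2, fun n ⟨c1, c2⟩ => ?_, fun k => ?_, fun n c1 c2 => ?_⟩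
    · obtain ⟨k, hk⟩ := c2.symm.dvd
      exact ndvd hd k (by rw [show r2 + k * m2 = n by linear_combination -hk]; exact c1.symm.dvd)
    · rw [mul_comm m1, mul_comm m2, hg, hg, tf1 h1, tf2 h2 hd]
      exact ⟨rfl, rfl⟩
    · rw [hg, tf3 (fun c => c1 (Int.modEq_iff_dvd.2 c).symm) fun c => c2 (Int.modEq_iff_dvd.2 c).symm]
  · rintro ⟨r1, m1, r2, m2, a1, b1, a2, b2, hd, h, h'⟩
    have h1 : 0 < m1 := by omega
    have h2 : 0 < m2 := by omega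
    have hd' : ¬ (Int.gcd m1 m2 : ℤ) ∣ r1 - r2 := fun ⟨c, hc⟩ => by
      rw [Int.gcd_eq_gcd_ab] at hc
      exact hd (r1 - m1 * Int.gcdA m1 m2 * c) ⟨Int.modEq_iff_dvd.2 ⟨Int.gcdA m1 m2 * c, by ring⟩,
        Int.modEq_iff_dvd.2 ⟨-(Int.gcdB m1 m2 * c), by linear_combination -hc⟩⟩
    refine ⟨m1, m2, r1, r2, h1, h2, a1, b1, a2, b2, hd', fun _ _ _ => Or.inr trivial, fun n => ?_⟩
    change σ n = tf m1 m2 r1 r2 n
    rcases cas m1 m2 r1 r2 n with ⟨k, rfl⟩ | ⟨k, rfl⟩ | ⟨a, b⟩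
    · rw [tf1 h1, mul_comm k, mul_comm k, (h k).1]
    · rw [tf2 h2 hd', mul_comm k, mul_comm k, (h k).2]
    · rw [tf3 a b, h' n (fun c => a c.symm.dvd) fun c => b c.symm.dvd]

lemma mem_iff (g : Equiv.Perm ℤ) : g ∈ Subgroup.closure (Gen U) ↔
    (∃ m : ℤ, 0 < m ∧ ∀ r : ℤ, ∃ a b : ℚ, ∀ n : ℤ, Int.ModEq m n r → (g n : ℚ) = a * n + b) ∧
      ∀ n : ℤ, 0 ≤ g n ↔ 0 ≤ n := by
  rw [gen_eq]
  exact Set.ext_iff.1 H27.ClassTr.main g

lemma sgn (g : CT U) (n : ℤ) : 0 ≤ g • n ↔ 0 ≤ n := ((mem_iff g).1 g.2).2 n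

theorem out (ν : Equiv.Perm ℤ) (hν : ∀ n : ℤ, ν n = -n - 1) :
    (∀ g ∈ Subgroup.closure (Gen U), ν * g * ν⁻¹ ∈ Subgroup.closure (Gen U)) ∧
    (∀ φ : CT U ≃* CT U, ∃ h ∈ Subgroup.closure (Gen U),
      (∀ g : CT U, ((φ g : CT U) : Equiv.Perm ℤ) = h * (g : Equiv.Perm ℤ) * h⁻¹) ∨
      (∀ g : CT U, ((φ g : CT U) : Equiv.Perm ℤ) = h * ν * (g : Equiv.Perm ℤ) * ν⁻¹ * h⁻¹)) ∧
    (¬ ∃ h ∈ Subgroup.closure (Gen U), ∀ g ∈ Subgroup.closure (Gen U),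
      ν * g * ν⁻¹ = h * g * h⁻¹) := by
  have hi : ∀ n, ν⁻¹ n = -n - 1 := fun n => by
    rw [Equiv.Perm.inv_eq_iff_eq, hν]; ring
  refine ⟨fun g hg => ?_, fun φ => ?_, ?_⟩
  · obtain ⟨⟨m, pm, h⟩, s⟩ := (mem_iff g).1 hg
    refine (mem_iff _).2 ⟨⟨m, pm, fun r => ?_⟩, fun n => ?_⟩
    · obtain ⟨a, b, h⟩ := h (-r - 1)
      refine ⟨a, a - b - 1, fun n hn => ?_⟩
      simp only [Equiv.Perm.mul_apply, hν, hi]
      push_cast
      rw [h _ (hn.neg.sub_right 1)]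
      push_cast
      ring
    · have := s (-n - 1)
      simp only [Equiv.Perm.mul_apply, hν, hi]
      omega
  · obtain ⟨σ, h1, h2⟩ := ex_conj φ
    obtain ⟨m, pm, h⟩ := rigid (fun g => ⟨φ g, h1 g⟩) h2
    have e : ∀ g : CT U, ((φ g : CT U) : Equiv.Perm ℤ) = σ * g * σ⁻¹ := fun g => by
      ext x
      have := (h1 g (σ⁻¹ x)).symm
      rw [Equiv.Perm.coe_inv, Equiv.apply_symm_apply] at this
      exact this
    have s : ∀ x y : ℤ, (0 ≤ x ↔ 0 ≤ y) → (0 ≤ σ x ↔ 0 ≤ σ y) := fun x y s => by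
      obtain ⟨g, M, -, hg⟩ := germ s one_pos
      have := hg 0
      simp only [zero_mul, add_zero] at this
      rw [← this, h1, sgn]
    have s1 := s (σ⁻¹ 0)
    have s2 := s (σ⁻¹ (-1))
    simp only [Equiv.Perm.coe_inv, Equiv.apply_symm_apply] at s1 s2
    have t : 0 ≤ σ 0 ↔ ¬ 0 ≤ σ (-1) := by
      have := s1 0; have := s1 (-1); have := s2 0; have := s2 (-1)
      omega
    by_cases s0 : 0 ≤ σ 0
    · refine ⟨σ, (mem_iff _).2 ⟨⟨m, pm, h⟩, fun n => ?_⟩, Or.inl e⟩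
      have := s n 0; have := s n (-1)
      omega
    · refine ⟨σ * ν⁻¹, (mem_iff _).2 ⟨⟨m, pm, fun r => ?_⟩, fun n => ?_⟩, Or.inr fun g => ?_⟩
      · obtain ⟨a, b, h⟩ := h (-r - 1)
        refine ⟨-a, b - a, fun n hn => ?_⟩
        rw [Equiv.Perm.mul_apply, hi, h _ (hn.neg.sub_right 1)]
        push_cast
        ring
      · have := s (-n - 1) 0; have := s (-n - 1) (-1)
        rw [Equiv.Perm.mul_apply, hi]
        omega
      · rw [e]; group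
  · rintro ⟨h, hh, e⟩
    obtain ⟨c, hc⟩ : ∃ c, h c = -1 := h.surjective _
    have c0 : c < 0 := by have := ((mem_iff h).1 hh).2 c; omega
    obtain ⟨g, hg⟩ := ex_swap (sm (m := 1 - c) (by omega)) c
    have g0 : (g : Equiv.Perm ℤ) 0 = 0 := by_contra fun n => by
      have := Int.eq_zero_of_abs_lt_dvd ((hg 0).1 n) (by rw [abs_lt]; omega)
      omega
    have := congrArg (fun f : Equiv.Perm ℤ => f (-1)) (e g g.2)
    simp only [Equiv.Perm.mul_apply, hi, hν] at this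
    rw [show -(-1 : ℤ) - 1 = 0 by rfl, g0, ← hc, Equiv.Perm.coe_inv, Equiv.symm_apply_apply,
      show -(0 : ℤ) - 1 = -1 by rfl, ← hc] at this
    exact (hg c).2 (by simp) (h.injective this).symm

end Pool.Agent.H65.Rub
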