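import Mathlib

set_option autoImplicit false

namespace Pool.Agent.H65.Sanov
open Matrix MatrixGroups FreeGroup

def A : SL(2,ℤ) := ⟨!![1,2;0,1], by decide⟩
def B : SL(2,ℤ) := ⟨!![1,0;2,1], by decide⟩
def rho : FreeGroup (Fin 2) →* SL(2,ℤ) := FreeGroup.lift ![A,B]

def e (b : Bool) : ℤ := if b then 1 else -1

lemma e_sq (b : Bool) : e b * e b = 1 := by cases b <;> simp [e]

lemma rho_letter (i : Fin 2) (b : Bool) :
    ((rho (mk [(i,b)]) : SL(2,ℤ)) : Matrix (Fin 2) (Fin 2) ℤ) =
      if i = 0 then !![1, 2 * e b; 0, 1] else !![1, 0; 2 * e b, 1] := by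
  fin_cases i <;> cases b <;> simp [rho, e, A, B, Matrix.SpecialLinearGroup.coe_inv,
    Matrix.adjugate_fin_two]

lemma rho_cons (l : Fin 2 × Bool) (L : List (Fin 2 × Bool)) :
    rho (mk (l :: L)) = rho (mk [l]) * rho (mk L) := by
  rw [← _root_.map_mul, mul_mk]; rfl

def P (M : SL(2,ℤ)) : ℤ := M 0 0 ^ 2 + M 0 1 ^ 2
def Q (M : SL(2,ℤ)) : ℤ := M 0 0 * M 1 0 + M 0 1 * M 1 1
def S (M : SL(2,ℤ)) : ℤ := M 1 0 ^ 2 + M 1 1 ^ 2

lemma det_eq (M : SL(2,ℤ)) : M 0 0 * M 1 1 - M 0 1 * M 1 0 = 1 := by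
  have := M.det_coe
  rwa [Matrix.det_fin_two] at this

lemma PS (M : SL(2,ℤ)) : P M * S M = Q M ^ 2 + 1 := by
  have := det_eq M
  unfold P Q S
  linear_combination (M 0 0 * M 1 1 - M 0 1 * M 1 0 + 1) * this

lemma entries0 (b : Bool) (L : List (Fin 2 × Bool)) :
    rho (mk ((0,b) :: L)) 0 0 = rho (mk L) 0 0 + 2 * e b * rho (mk L) 1 0 ∧
    rho (mk ((0,b) :: L)) 0 1 = rho (mk L) 0 1 + 2 * e b * rho (mk L) 1 1 ∧
    rho (mk ((0,b) :: L)) 1 0 = rho (mk L) 1 0 ∧
    rho (mk ((0,b) :: L)) 1 1 = rho (mk L) 1 1 := by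
  rw [rho_cons]
  have := rho_letter 0 b
  simp only [Matrix.SpecialLinearGroup.coe_mul, this, Matrix.mul_apply, Fin.sum_univ_two]
  simp

lemma entries1 (b : Bool) (L : List (Fin 2 × Bool)) :
    rho (mk ((1,b) :: L)) 0 0 = rho (mk L) 0 0 ∧
    rho (mk ((1,b) :: L)) 0 1 = rho (mk L) 0 1 ∧
    rho (mk ((1,b) :: L)) 1 0 = rho (mk L) 1 0 + 2 * e b * rho (mk L) 0 0 ∧
    rho (mk ((1,b) :: L)) 1 1 = rho (mk L) 1 1 + 2 * e b * rho (mk L) 0 1 := by
  rw [rho_cons]
  have := rho_letter 1 b
  simp only [Matrix.SpecialLinearGroup.coe_mul, this, Matrix.mul_apply, Fin.sum_univ_two]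
  simp [add_comm]

lemma rho_nil : rho (mk []) = 1 := by
  have : (mk [] : FreeGroup (Fin 2)) = 1 := rfl
  rw [this, _root_.map_one]

lemma parity_list (L : List (Fin 2 × Bool)) :
    rho (mk L) 0 0 % 2 = 1 ∧ rho (mk L) 0 1 % 2 = 0 ∧ rho (mk L) 1 0 % 2 = 0 ∧
      rho (mk L) 1 1 % 2 = 1 := by
  induction L with
  | nil => simp [rho_nil]
  | cons l L ih =>
    obtain ⟨i, b⟩ := l
    obtain ⟨h1, h2, h3, h4⟩ := ih
    fin_cases i
    · obtain ⟨k1, k2, k3, k4⟩ := entries0 b L
      simp only [Fin.zero_eta, Fin.isValue]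
      rw [k1, k2, k3, k4]
      refine ⟨?_, ?_, h3, h4⟩
      · rw [mul_assoc]; omega
      · rw [mul_assoc]; omega
    · obtain ⟨k1, k2, k3, k4⟩ := entries1 b L
      simp only [Fin.mk_one, Fin.isValue]
      rw [k1, k2, k3, k4]
      refine ⟨h1, h2, ?_, ?_⟩
      · rw [mul_assoc]; omega
      · rw [mul_assoc]; omega

lemma parity (g : FreeGroup (Fin 2)) :
    rho g 0 0 % 2 = 1 ∧ rho g 0 1 % 2 = 0 ∧ rho g 1 0 % 2 = 0 ∧ rho g 1 1 % 2 = 1 := by
  rw [← mk_toWord (x := g)]; exact parity_list _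

lemma parityPQS (g : FreeGroup (Fin 2)) :
    P (rho g) % 2 = 1 ∧ Q (rho g) % 2 = 0 ∧ S (rho g) % 2 = 1 := by
  obtain ⟨h1, h2, h3, h4⟩ := parity g
  unfold P Q S
  refine ⟨?_, ?_, ?_⟩
  · rw [Int.add_emod, pow_two, pow_two, Int.mul_emod, h1, Int.mul_emod (rho g 0 1), h2]; rfl
  · rw [Int.add_emod, Int.mul_emod, h1, h3, Int.mul_emod (rho g 0 1), h2, h4]; rfl
  · rw [Int.add_emod, pow_two, pow_two, Int.mul_emod, h3, Int.mul_emod (rho g 1 1), h4]; rfl

lemma P_pos (M : SL(2,ℤ)) : 0 ≤ P M := by unfold P; positivity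
lemma S_pos (M : SL(2,ℤ)) : 0 ≤ S M := by unfold S; positivity

lemma region (l : Fin 2 × Bool) (L : List (Fin 2 × Bool)) (hL : IsReduced (l :: L)) :
    (if l.1 = 0 then S (rho (mk (l :: L))) else P (rho (mk (l :: L)))) <
      e l.2 * Q (rho (mk (l :: L))) := by
  induction L generalizing l with
  | nil =>
    obtain ⟨i, b⟩ := l
    fin_cases i
    · obtain ⟨k1, k2, k3, k4⟩ := entries0 b []
      simp only [Fin.zero_eta, Fin.isValue, if_true]
      unfold S Q
      rw [k1, k2, k3, k4, rho_nil]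
      cases b <;> simp [e]
    · obtain ⟨k1, k2, k3, k4⟩ := entries1 b []
      simp only [Fin.mk_one, Fin.isValue, one_ne_zero, if_false]
      unfold P Q
      rw [k1, k2, k3, k4, rho_nil]
      cases b <;> simp [e]
  | cons l' L ih =>
    rw [isReduced_cons_cons] at hL
    have ih' := ih l' hL.2
    obtain ⟨p1, p2, p3⟩ := parityPQS (mk (l' :: L))
    have hPS := PS (rho (mk (l' :: L)))
    have hP := P_pos (rho (mk (l' :: L)))
    have hS := S_pos (rho (mk (l' :: L)))
    obtain ⟨i, b⟩ := l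
    obtain ⟨i', b'⟩ := l'
    have hee := e_sq b
    fin_cases i
    · obtain ⟨k1, k2, k3, k4⟩ := entries0 b ((i', b') :: L)
      simp only [Fin.zero_eta, Fin.isValue, if_true]
      have hQ : Q (rho (mk ((0, b) :: (i', b') :: L))) =
          Q (rho (mk ((i', b') :: L))) + 2 * e b * S (rho (mk ((i', b') :: L))) := by
        unfold Q S; rw [k1, k2, k3, k4]; ring
      have hS' : S (rho (mk ((0, b) :: (i', b') :: L))) = S (rho (mk ((i', b') :: L))) := by
        unfold S; rw [k3, k4]
      rw [hQ, hS']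
      generalize P (rho (mk ((i', b') :: L))) = p at *
      generalize Q (rho (mk ((i', b') :: L))) = q at *
      generalize S (rho (mk ((i', b') :: L))) = s at *
      have key : -s < e b * q := by
        fin_cases i'
        · have : b = b' := hL.1 rfl
          subst this
          simp at ih'
          omega
        · simp at ih'
          by_contra hc
          have h1 : e b * q ≠ -s := by
            cases b <;> simp [e] <;> omega
          have h2 : s < -(e b * q) := by omega
          cases b <;> cases b' <;> simp [e] at h2 ih' <;> nlinarith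
      have : e b * (q + 2 * e b * s) = e b * q + 2 * s := by linear_combination 2 * s * hee
      omega
    · obtain ⟨k1, k2, k3, k4⟩ := entries1 b ((i', b') :: L)
      simp only [Fin.mk_one, Fin.isValue, one_ne_zero, if_false]
      have hQ : Q (rho (mk ((1, b) :: (i', b') :: L))) =
          Q (rho (mk ((i', b') :: L))) + 2 * e b * P (rho (mk ((i', b') :: L))) := by
        unfold Q P; rw [k1, k2, k3, k4]; ring
      have hS' : P (rho (mk ((1, b) :: (i', b') :: L))) = P (rho (mk ((i', b') :: L))) := by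
        unfold P; rw [k1, k2]
      rw [hQ, hS']
      generalize P (rho (mk ((i', b') :: L))) = p at *
      generalize Q (rho (mk ((i', b') :: L))) = q at *
      generalize S (rho (mk ((i', b') :: L))) = s at *
      have key : -p < e b * q := by
        fin_cases i'
        · simp at ih'
          by_contra hc
          have h1 : e b * q ≠ -p := by
            cases b <;> simp [e] <;> omega
          have h2 : p < -(e b * q) := by omega
          cases b <;> cases b' <;> simp [e] at h2 ih' <;> nlinarith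
        · have : b = b' := hL.1 rfl
          subst this
          simp at ih'
          omega
      have : e b * (q + 2 * e b * p) = e b * q + 2 * p := by linear_combination 2 * p * hee
      omega

/-- Faithfulness modulo sign: if the rows of `rho g` are orthogonal then `g = 1`. -/
theorem eq_one_of_Q (g : FreeGroup (Fin 2)) (h : Q (rho g) = 0) : g = 1 := by
  by_contra hg
  have h1 : g.toWord ≠ [] := by simpa using hg
  obtain ⟨l, L, hl⟩ := List.exists_cons_of_ne_nil h1
  have hr : IsReduced (l :: L) := hl ▸ isReduced_toWord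
  have := region l L hr
  rw [← hl, mk_toWord, h] at this
  have hP := P_pos (rho g)
  have hS := S_pos (rho g)
  split_ifs at this <;> omega

theorem eq_one_of_offdiag (g : FreeGroup (Fin 2)) (h1 : rho g 0 1 = 0) (h2 : rho g 1 0 = 0) :
    g = 1 := eq_one_of_Q g (by unfold Q; rw [h1, h2]; ring)

theorem rho_injective : Function.Injective rho := by
  rw [injective_iff_map_eq_one]
  intro g hg
  apply eq_one_of_offdiag <;> rw [hg] <;> simp

end Pool.Agent.H65.Sanov
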