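import Pool.Agent.H65.Avoid

set_option autoImplicit false

namespace Pool.Agent.H65.SemiDens
open FreeGroup hiding map_mul map_one map_inv IsReduced
open Pool.Agent.H65.Words Pool.Agent.H65.Cyclic Pool.Agent.H65.Blocking Pool.Agent.H65.Avoid

variable {α : Type*} [DecidableEq α]

def S (a : α) : Set (FreeGroup α) :=
  {g | ∃ (k : FreeGroup α) (e : Bool), k ≠ 1 ∧ k.norm ≤ 5 ∧ (∀ l ∈ k.toWord, l.1 ≠ a) ∧
    g = k * mk [(a, e)]}

lemma S_fin [Fintype α] (a : α) : (S a).Finite := by
  refine (finite_ball 6).subset ?_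
  rintro g ⟨k, e, _, h, _, rfl⟩
  refine (FreeGroup.norm_mul_le _ _).trans ?_
  have : (mk [(a, e)]).norm ≤ 1 := norm_mk_le
  omega

lemma M_prop (a : α) (g : FreeGroup α) (hg : g ∈ Subsemigroup.closure (S a)) :
    g.toWord.IsChain (fun p q => ¬ (p.1 = a ∧ q.1 = a)) ∧ (∃ x, g.toWord.head? = some x ∧ x.1 ≠ a) ∧
      ∃ x, g.toWord.getLast? = some x ∧ x.1 = a := by
  induction hg using Subsemigroup.closure_induction with
  | mem g hg =>
    obtain ⟨k, e, h1, _, h3, rfl⟩ := hg
    have : (k * mk [(a, e)]).toWord = k.toWord ++ [(a, e)] := by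
      conv_lhs => rw [← mk_toWord (x := k)]
      rw [toWord_mk_mul_of_head _ _ isReduced_toWord, toWord_mk_red (by simp)]
      intro x hx
      rw [toWord_mk_red (by simp)]
      have := h3 x (List.mem_of_getLast? hx)
      simp [linv, Prod.ext_iff, this.symm]
    rw [this]
    refine ⟨?_, ?_, ⟨(a, e), by simp, rfl⟩⟩
    · rw [List.isChain_append]
      refine ⟨?_, by simp, fun x hx y _ h => h3 x (List.mem_of_getLast? hx) h.1⟩
      apply List.Pairwise.isChain
      apply List.pairwise_of_forall_mem_list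
      intro x hx y _ h
      exact h3 x hx h.1
    · obtain ⟨x, L, hL⟩ := List.exists_cons_of_ne_nil (l := k.toWord) (by simpa using h1)
      exact ⟨x, by simp [hL], h3 x (by simp [hL])⟩
  | mul g h _ _ ih1 ih2 =>
    obtain ⟨g1, ⟨x, g2, g3⟩, y, g4, g5⟩ := ih1
    obtain ⟨h1, ⟨x', h2, h3⟩, y', h4, h5⟩ := ih2
    have : (g * h).toWord = g.toWord ++ h.toWord := by
      conv_lhs => rw [← mk_toWord (x := g)]
      rw [toWord_mk_mul_of_head _ _ isReduced_toWord]
      intro z hz
      rw [g4] at hz
      simp at hz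
      subst hz
      rw [h2]
      intro e
      simp at e
      apply h3
      rw [e]; exact g5
    rw [this]
    refine ⟨?_, ⟨x, by simp [g2], g3⟩, ⟨y', by simp [h4], h5⟩⟩
    rw [List.isChain_append]
    refine ⟨g1, h1, fun z _ w hw h => ?_⟩
    rw [h2] at hw
    simp at hw
    subst hw
    exact h3 h.2

lemma M_avoid (a : α) (g : FreeGroup α) (hg : g ∈ Subsemigroup.closure (S a)) :
    ¬ [(a, true), (a, true)] <:+: g.toWord := by
  rintro ⟨A, B, h⟩
  have := (M_prop a g hg).1
  rw [← h] at this
  simp at this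

lemma mem_S (a : α) (L : List (α × Bool)) (e : Bool) (h1 : mk L ≠ 1) (h2 : L.length ≤ 5)
    (h3 : ∀ l ∈ L, l.1 ≠ a) : mk L * mk [(a, e)] ∈ Subsemigroup.closure (S a) :=
  Subsemigroup.subset_closure ⟨mk L, e, h1, norm_mk_le.trans h2, fun l hl => h3 l (by
    rw [toWord_mk] at hl
    exact (Red.sublist reduce.red).subset hl), rfl⟩

lemma odd_ne (L : List (α × Bool)) (h : Odd L.length) : mk L ≠ 1 := by
  intro e
  obtain ⟨n, hn⟩ := Red.length (reduce.red (L := L))
  have : reduce L = [] := by rw [← toWord_mk, e]; rfl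
  rw [this] at hn
  obtain ⟨k, hk⟩ := h
  simp at hn
  omega

section
variable (a b : α) (hab : b ≠ a)

def c : FreeGroup α := of a * of b * of b
def Z : Set (FreeGroup α) := {g | ∃ (z : α × Bool) (k : ℤ), z.1 ≠ a ∧ k ≠ 0 ∧ g = mk [z] * c a b ^ k}

include hab in
lemma pos_mem : of b * of b * of a ∈ Subsemigroup.closure (S a) :=
  mem_S a [(b, true), (b, true)] true (by
    intro h
    have := congrArg toWord h
    rw [toWord_mk_red (by simp)] at this
    simp at this) (by simp) (by simp [hab])

include hab in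
lemma neg_mem : (of b)⁻¹ * (of b)⁻¹ * (of a)⁻¹ ∈ Subsemigroup.closure (S a) :=
  mem_S a [(b, false), (b, false)] false (by
    intro h
    have := congrArg toWord h
    rw [toWord_mk_red (by simp)] at this
    simp at this) (by simp) (by simp [hab])

omit [DecidableEq α] in
lemma mul_pow_mem {M : Subsemigroup (FreeGroup α)} {x y : FreeGroup α} (hx : x ∈ M) (hy : y ∈ M)
    (n : ℕ) : x * y ^ n ∈ M := by
  induction n with
  | zero => simpa
  | succ n ih => rw [pow_succ, ← mul_assoc]; exact M.mul_mem ih hy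

include hab in
lemma Z_conj (g : FreeGroup α) (hg : g ∈ Subsemigroup.closure (Z a b)) :
    ∃ r' : FreeGroup α, (r' = 1 ∨ r' = of b * of b) ∧ ∀ r : FreeGroup α, (r = 1 ∨ r = of b * of b) →
      r * g * r'⁻¹ ∈ Subsemigroup.closure (S a) := by
  induction hg using Subsemigroup.closure_induction with
  | mem g hg =>
    obtain ⟨z, k, h1, h2, rfl⟩ := hg
    obtain ⟨n, rfl | rfl⟩ := Int.eq_nat_or_neg k
    · obtain ⟨n, rfl⟩ : ∃ m, n = m + 1 := ⟨n - 1, by omega⟩
      refine ⟨of b * of b, Or.inr rfl, fun r hr => ?_⟩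
      have e : r * (mk [z] * c a b ^ ((n + 1 : ℕ) : ℤ)) * (of b * of b)⁻¹ =
          (r * mk [z] * of a) * (of b * of b * of a) ^ n := by
        have : (of b * of b * of a : FreeGroup α) = (of a)⁻¹ * c a b * (of a)⁻¹⁻¹ := by
          rw [c]; group
        rw [this, conj_pow, zpow_natCast, pow_succ, c]; group
      rw [e]
      refine mul_pow_mem ?_ (pos_mem a b hab) n
      rcases hr with rfl | rfl
      · rw [one_mul]
        exact mem_S a [z] true (odd_ne _ (by simp)) (by simp) (by simp [h1])
      · exact mem_S a [(b, true), (b, true), z] true (odd_ne _ (by simp; decide)) (by simp)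
          (by simp [h1, hab])
    · obtain ⟨n, rfl⟩ : ∃ m, n = m + 1 := ⟨n - 1, by omega⟩
      refine ⟨1, Or.inl rfl, fun r hr => ?_⟩
      have e : r * (mk [z] * c a b ^ (-((n + 1 : ℕ) : ℤ))) * 1⁻¹ =
          (r * mk [z] * (of b)⁻¹ * (of b)⁻¹ * (of a)⁻¹) * ((of b)⁻¹ * (of b)⁻¹ * (of a)⁻¹) ^ n := by
        have : ((of b)⁻¹ * (of b)⁻¹ * (of a)⁻¹ : FreeGroup α) = (c a b)⁻¹ := by
          rw [c]; group
        rw [this, zpow_neg, zpow_natCast, ← inv_pow, pow_succ']
        generalize (c a b)⁻¹ ^ n = X
        rw [c]; group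
      rw [e]
      refine mul_pow_mem ?_ (neg_mem a b hab) n
      rcases hr with rfl | rfl
      · rw [one_mul]
        exact mem_S a [z, (b, false), (b, false)] false (odd_ne _ (by simp; decide)) (by simp)
          (by simp [h1, hab])
      · exact mem_S a [(b, true), (b, true), z, (b, false), (b, false)] false
          (odd_ne _ (by simp; decide)) (by simp) (by simp [h1, hab])
  | mul g h _ _ ih1 ih2 =>
    obtain ⟨r1, h1, h2⟩ := ih1
    obtain ⟨r2, h3, h4⟩ := ih2
    refine ⟨r2, h3, fun r hr => ?_⟩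
    have := Subsemigroup.mul_mem _ (h2 r hr) (h4 r1 h1)
    convert this using 1; group

/-- `y ↦ a^p y a^q` -/
def tauH (p q : α → ℤ) : FreeGroup α →* FreeGroup α :=
  FreeGroup.lift fun y => if y = a then of a else of a ^ p y * of y * of a ^ q y

def tau (p q : α → ℤ) : MulAut (FreeGroup α) :=
  MonoidHom.toMulEquiv (tauH a p q) (tauH a (-p) (-q))
    (by ext y; by_cases h : y = a <;> simp [tauH, h]; group)
    (by ext y; by_cases h : y = a <;> simp [tauH, h]; group)

def sigH (g : FreeGroup α) : FreeGroup α →* FreeGroup α :=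
  FreeGroup.lift fun y => if y = a then of a * g else of y

def sig : MulAut (FreeGroup α) :=
  MonoidHom.toMulEquiv (sigH a (of b * of b)) (sigH a (of b * of b)⁻¹)
    (by ext y; by_cases h : y = a <;> simp [sigH, h, hab]; group)
    (by ext y; by_cases h : y = a <;> simp [sigH, h, hab]; group)

def psi (out : α × Bool → ℤ) : MulAut (FreeGroup α) :=
  sig a b hab * tau a (fun y => - out (y, false)) (fun y => out (y, true))

lemma psi_a (out : α × Bool → ℤ) : psi a b hab out (of a) = c a b := by
  simp [psi, sig, tau, sigH, tauH, c, mul_assoc]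

lemma psi_z (out : α × Bool → ℤ) (z : α × Bool) (hz : z.1 ≠ a) :
    psi a b hab out (mk [z]) = c a b ^ (- out (linv z)) * mk [z] * c a b ^ (out z) := by
  have h1 : ∀ y, y ≠ a → psi a b hab out (of y) =
      c a b ^ (- out (y, false)) * of y * c a b ^ (out (y, true)) := by
    intro y hy
    simp [psi, sig, tau, sigH, tauH, c, mul_assoc, hy]
  obtain ⟨y, e⟩ := z
  cases e
  · have : (mk [(y, false)] : FreeGroup α) = (of y)⁻¹ := rfl
    rw [this, map_inv, h1 y hz]
    simp only [linv, Bool.not_false]
    group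
  · exact h1 y hz

lemma alt (out : α × Bool → ℤ) (N : ℕ) (hout : ∀ x y, x ≠ y → (N : ℤ) ≤ |out x - out y|)
    (z0 : α × Bool) (hz0 : z0.1 ≠ a) (L : List (α × Bool)) (z : α × Bool) (hz : z.1 ≠ a) (n : ℤ)
    (hn : |n| + L.length < N) (hr : FreeGroup.IsReduced (L ++ [z0]))
    (h0 : n = 0 → (L ++ [z0]).head? ≠ some (linv z))
    (h1 : 0 < n → (L ++ [z0]).head? ≠ some (a, false))
    (h2 : n < 0 → (L ++ [z0]).head? ≠ some (a, true)) :
    mk [z] * c a b ^ (out z + n) * psi a b hab out (mk L) * c a b ^ (- out (linv z0)) ∈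
      Subsemigroup.closure (Z a b) := by
  have hk : ∀ z' : α × Bool, (n = 0 → z' ≠ linv z) → out z + n + - out (linv z') ≠ 0 := by
    intro z' h e
    by_cases hh : z' = linv z
    · subst hh
      rw [linv_linv] at e
      exact h (by omega) rfl
    · have := hout z (linv z') (fun e => hh (by rw [e, linv_linv]))
      have e2 : out z - out (linv z') = -n := by omega
      rw [e2, abs_neg] at this
      omega
  induction L generalizing z n with
  | nil =>
    apply Subsemigroup.subset_closure
    refine ⟨z, out z + n + - out (linv z0), hz, hk z0 (fun e => by simpa using h0 e), ?_⟩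
    rw [mk_nil, map_one]; group
  | cons l L ih =>
    rw [List.cons_append, isReduced_cons_iff] at hr
    simp only [List.cons_append, List.head?_cons, ne_eq, Option.some.injEq, List.length_cons]
      at h0 h1 h2 hn
    have hk' : ∀ (z : α × Bool) (n : ℤ), |n| + L.length < N → ∀ z' : α × Bool,
        (n = 0 → z' ≠ linv z) → out z + n + - out (linv z') ≠ 0 := by
      intro z n hn z' h e
      by_cases hh : z' = linv z
      · subst hh
        rw [linv_linv] at e
        exact h (by omega) rfl
      · have := hout z (linv z') (fun e => hh (by rw [e, linv_linv]))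
        have e2 : out z - out (linv z') = -n := by omega
        rw [e2, abs_neg] at this
        omega
    rw [mk_cons l, map_mul]
    by_cases hl : l.1 = a
    · obtain ⟨y, e⟩ := l
      simp only at hl
      subst hl
      cases e
      · have hn0 : n ≤ 0 := by by_contra h; exact h1 (by omega) rfl
        have hb : |n - 1| + L.length < N := by
          rw [abs_of_nonpos hn0] at hn; rw [abs_of_nonpos (by omega)]; push_cast at hn; omega
        have := ih z hz (n - 1) hb hr.1 (by omega) (by omega) (fun _ => hr.2) (hk' _ _ hb)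
        convert this using 1
        have : (mk [(y, false)] : FreeGroup α) = (of y)⁻¹ := rfl
        rw [this, map_inv, psi_a]; group
      · have hn0 : 0 ≤ n := by by_contra h; exact h2 (by omega) rfl
        have hb : |n + 1| + L.length < N := by
          rw [abs_of_nonneg hn0] at hn; rw [abs_of_nonneg (by omega)]; push_cast at hn; omega
        have := ih z hz (n + 1) hb hr.1 (by omega) (fun _ => hr.2) (by omega) (hk' _ _ hb)
        convert this using 1
        have : (mk [(y, true)] : FreeGroup α) = of y := rfl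
        rw [this, psi_a]; group
    · have hb : |(0 : ℤ)| + L.length < N := by
        have := abs_nonneg n
        push_cast at hn; simp; omega
      have k1 := ih l hl 0 hb hr.1 (fun _ => hr.2) (by omega) (by omega) (hk' _ _ hb)
      have k2 : mk [z] * c a b ^ (out z + n + - out (linv l)) ∈ Subsemigroup.closure (Z a b) :=
        Subsemigroup.subset_closure ⟨z, _, hz, hk l h0, rfl⟩
      have := Subsemigroup.mul_mem _ k2 k1
      convert this using 1
      rw [psi_z a b hab out l hl]; group

include hab in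
theorem all_mem [Fintype α] (w : FreeGroup α) (hw : w ≠ 1) :
    ∃ φ : MulAut (FreeGroup α), φ w ∈ Subsemigroup.closure (S a) := by
  have e := reduceCyclically.conj_conjugator_reduceCyclically w.toWord
  have hc := reduceCyclically.isCyclicallyReduced (isReduced_toWord (x := w))
  generalize reduceCyclically w.toWord = W at *
  generalize reduceCyclically.conjugator w.toWord = P at *
  have e2 : w = mk P * mk W * (mk P)⁻¹ := by rw [inv_mk, mul_mk, mul_mk, e, mk_toWord]
  suffices ∃ φ : MulAut (FreeGroup α), φ (mk W) ∈ Subsemigroup.closure (S a) by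
    obtain ⟨φ, h⟩ := this
    refine ⟨φ * MulAut.conj (mk P)⁻¹, ?_⟩
    simp only [MulAut.mul_apply, MulAut.conj_apply]
    convert h using 2
    rw [e2]; group
  have hW : mk W ≠ 1 := by
    intro h; apply hw; rw [e2, h, mul_one, mul_inv_cancel]
  by_cases hex : ∃ z ∈ W, z.1 ≠ a
  · obtain ⟨z, hz1, hz2⟩ := hex
    obtain ⟨A, B, rfl⟩ := List.append_of_mem hz1
    have hc' := cyc_append_comm hc
    let N := (B ++ A).length + 1
    let out : α × Bool → ℤ := fun x => N * (Fintype.equivFin (α × Bool) x : ℕ)
    have hout : ∀ x y, x ≠ y → (N : ℤ) ≤ |out x - out y| := by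
      intro x y hxy
      simp only [out]
      rw [← mul_sub, abs_mul, Nat.abs_cast]
      refine le_mul_of_one_le_right (by positivity) (Int.one_le_abs ?_)
      rw [sub_ne_zero]
      intro h
      exact hxy ((Fintype.equivFin _).injective (Fin.ext (by exact_mod_cast h)))
    have hr : FreeGroup.IsReduced (B ++ A ++ [z]) :=
      (cyc_append_comm (A := [z]) (B := B ++ A) hc').1
    have hr2 : FreeGroup.IsReduced (z :: (B ++ A ++ [z])) := by
      have := (hc'.flatten_replicate 2).1
      refine red_sub this ⟨[], B ++ A, by simp⟩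
    have k := alt a b hab out N hout z hz2 (B ++ A) z hz2 0 (by simp [N]) hr
      (fun _ => ((isReduced_cons_iff _ _).1 hr2).2) (by omega) (by omega)
    obtain ⟨r, r1, r2⟩ := Z_conj a b hab _ k
    refine ⟨MulAut.conj (r * c a b ^ (out (linv z))) * psi a b hab out * MulAut.conj (mk A)⁻¹, ?_⟩
    convert r2 r r1 using 1
    simp only [MulAut.mul_apply, MulAut.conj_apply]
    rw [← mul_mk, mk_cons z B, ← mul_mk (L₁ := B)]
    simp only [map_mul, map_inv, psi_z a b hab out z hz2]
    group
  · push Not at hex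
    have : ∃ k : ℤ, mk W = of a ^ k := by
      clear hc e e2 hW
      induction W with
      | nil => exact ⟨0, rfl⟩
      | cons l W ih =>
        obtain ⟨k, hk⟩ := ih (fun z hz => hex z (List.mem_cons_of_mem _ hz))
        have := hex l List.mem_cons_self
        obtain ⟨y, e⟩ := l
        simp only at this
        subst this
        cases e
        · exact ⟨-1 + k, by rw [mk_cons, hk, zpow_add, zpow_neg_one]; rfl⟩
        · exact ⟨1 + k, by rw [mk_cons, hk, zpow_add, zpow_one]; rfl⟩
    obtain ⟨k, hk⟩ := this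
    have hk0 : k ≠ 0 := by rintro rfl; exact hW hk
    obtain ⟨n, rfl | rfl⟩ := Int.eq_nat_or_neg k
    · obtain ⟨n, rfl⟩ : ∃ m, n = m + 1 := ⟨n - 1, by omega⟩
      refine ⟨MulAut.conj (of a)⁻¹ * psi a b hab 0, ?_⟩
      convert mul_pow_mem (pos_mem a b hab) (pos_mem a b hab) n using 1
      simp only [MulAut.mul_apply, MulAut.conj_apply]
      rw [hk, map_zpow, psi_a, zpow_natCast, ← conj_pow, ← pow_succ', c]
      congr 1; group
    · obtain ⟨n, rfl⟩ : ∃ m, n = m + 1 := ⟨n - 1, by omega⟩
      refine ⟨psi a b hab 0, ?_⟩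
      convert mul_pow_mem (neg_mem a b hab) (neg_mem a b hab) n using 1
      rw [hk, map_zpow, psi_a, zpow_neg, zpow_natCast, ← inv_pow, ← pow_succ', c]
      congr 1
end

lemma ball_ge [Fintype α] (l : α × Bool) (n : ℕ) :
    (2 * Fintype.card α - 1) ^ n ≤ {w : FreeGroup α | w.norm ≤ n + 1}.ncard := by
  rw [← card_T n l, ← Set.ncard_coe_finset]
  refine Set.ncard_le_ncard_of_injOn mk ?_ ?_ (finite_ball _)
  · intro L hL
    have := (mem_T _ _ _).1 hL
    exact norm_mk_le.trans this.2.1.le
  · intro L hL M hM h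
    exact mk_inj_red ((mem_T _ _ _).1 hL).1 ((mem_T _ _ _).1 hM).1 h

theorem main (r : ℕ) (hr : 2 ≤ r) : ∃ s : Finset (FreeGroup (Fin r)),
    Filter.Tendsto (fun n : ℕ =>
      ({w : FreeGroup (Fin r) | w ∈ Subsemigroup.closure (s : Set (FreeGroup (Fin r))) ∧
        w.norm ≤ n}.ncard : ℝ) / ({w : FreeGroup (Fin r) | w.norm ≤ n}.ncard : ℝ))
      Filter.atTop (nhds 0) ∧
    Filter.Tendsto (fun n : ℕ =>
      ({w : FreeGroup (Fin r) | (∃ (φ : MulAut (FreeGroup (Fin r))) (m : FreeGroup (Fin r)),
        m ∈ Subsemigroup.closure (s : Set (FreeGroup (Fin r))) ∧ w = φ m) ∧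
        w.norm ≤ n}.ncard : ℝ) / ({w : FreeGroup (Fin r) | w.norm ≤ n}.ncard : ℝ))
      Filter.atTop (nhds 1) := by
  let a : Fin r := ⟨0, by omega⟩
  let b : Fin r := ⟨1, by omega⟩
  have hab : b ≠ a := by simp [a, b]
  have h2r : (2 : ℝ) ≤ r := by exact_mod_cast hr
  set D : ℝ := 2 * r - 1 with hD
  have hball : ∀ n, D ^ n ≤ ({w : FreeGroup (Fin r) | w.norm ≤ n + 1}.ncard : ℝ) := by
    intro n
    have := ball_ge (a, true) n
    rw [Fintype.card_fin] at this
    have e : D = ((2 * r - 1 : ℕ) : ℝ) := by rw [Nat.cast_sub (by omega)]; simp [hD]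
    rw [e]; exact_mod_cast this
  have hDpos : 0 < D := by linarith
  refine ⟨(S_fin a).toFinset, ?_, ?_⟩
  · rw [Set.Finite.coe_toFinset]
    obtain ⟨β, C, b1, b2, hC, hb⟩ := Av_bound (α := Fin r) (by simpa using hr)
      [(a, true), (a, true)] (by simp)
    rw [Fintype.card_fin] at b1 b2
    have hβ : 2 ≤ β := by linarith
    have key : ∀ n : ℕ, ({w : FreeGroup (Fin r) | w ∈ Subsemigroup.closure (S a) ∧
        w.norm ≤ n}.ncard : ℝ) ≤ 2 * C * β ^ n := by
      intro n
      induction n with
      | zero =>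
        have : {w : FreeGroup (Fin r) | w ∈ Subsemigroup.closure (S a) ∧ w.norm ≤ 0} = ∅ := by
          ext w
          simp only [Set.mem_ofPred_eq, Set.mem_empty_iff_false, iff_false, not_and]
          intro h1 h2
          have : w = 1 := by simpa using h2
          obtain ⟨x, hx, _⟩ := (M_prop a w h1).2.1
          simp [this] at hx
        rw [this]; simp; positivity
      | succ n ih =>
        have h1 : {w : FreeGroup (Fin r) | w ∈ Subsemigroup.closure (S a) ∧ w.norm ≤ n + 1} ⊆
            {w : FreeGroup (Fin r) | w ∈ Subsemigroup.closure (S a) ∧ w.norm ≤ n} ∪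
            mk '' Av [(a, true), (a, true)] (n + 1) := by
          rintro w ⟨h1, h2⟩
          by_cases h : w.norm ≤ n
          · exact Or.inl ⟨h1, h⟩
          · exact Or.inr ⟨w.toWord, ⟨isReduced_toWord, by unfold FreeGroup.norm at *; omega,
              M_avoid a w h1⟩, mk_toWord⟩
        have h2 := (Set.ncard_le_ncard h1 (Set.Finite.union
          ((finite_ball n).subset fun g hg => hg.2) ((Av_fin _ _).image _))).trans
          (Set.ncard_union_le _ _)
        have h3 := Set.ncard_image_le (f := mk) (Av_fin [(a, true), (a, true)] (n + 1))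
        have h4 := hb (n + 1)
        have h5 : ({w : FreeGroup (Fin r) | w ∈ Subsemigroup.closure (S a) ∧
          w.norm ≤ n + 1}.ncard : ℝ) ≤ ({w : FreeGroup (Fin r) | w ∈ Subsemigroup.closure (S a) ∧
          w.norm ≤ n}.ncard : ℝ) + (Av [(a, true), (a, true)] (n + 1)).ncard := by
          exact_mod_cast h2.trans (Nat.add_le_add_left h3 _)
        have h6 : 0 ≤ C * β ^ n := by positivity
        rw [pow_succ] at *
        nlinarith
    rw [← Filter.tendsto_add_atTop_iff_nat 1]
    have t : Filter.Tendsto (fun n : ℕ => 2 * C * β * (β / D) ^ n) Filter.atTop (nhds 0) := by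
      have := (tendsto_pow_atTop_nhds_zero_of_lt_one (r := β / D) (by positivity)
        ((div_lt_one hDpos).2 b2)).const_mul (2 * C * β)
      simpa using this
    refine squeeze_zero (fun n => by positivity) (fun n => ?_) t
    refine (div_le_div₀ (by positivity) (key (n + 1)) (by positivity) (hball n)).trans (le_of_eq ?_)
    rw [div_pow, pow_succ]; ring
  · rw [Set.Finite.coe_toFinset, ← Filter.tendsto_add_atTop_iff_nat 1]
    have t : Filter.Tendsto (fun n : ℕ => 1 - (D⁻¹) ^ n) Filter.atTop (nhds 1) := by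
      have := (tendsto_pow_atTop_nhds_zero_of_lt_one (r := D⁻¹) (by positivity)
        (inv_lt_one_of_one_lt₀ (by linarith))).const_sub 1
      simpa using this
    refine tendsto_of_tendsto_of_tendsto_of_le_of_le t tendsto_const_nhds (fun n => ?_) (fun n => ?_)
    · have hp : (0 : ℝ) < ({w : FreeGroup (Fin r) | w.norm ≤ n + 1}.ncard : ℝ) :=
        lt_of_lt_of_le (by positivity) (hball n)
      simp only
      rw [le_div_iff₀ hp]
      have h1 : {w : FreeGroup (Fin r) | w.norm ≤ n + 1} ⊆ insert 1
          {w : FreeGroup (Fin r) | (∃ (φ : MulAut (FreeGroup (Fin r))) (m : FreeGroup (Fin r)),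
          m ∈ Subsemigroup.closure (S a) ∧ w = φ m) ∧ w.norm ≤ n + 1} := by
        intro w hw
        by_cases h : w = 1
        · exact Or.inl h
        · obtain ⟨φ, hφ⟩ := all_mem a b hab w h
          exact Or.inr ⟨⟨φ⁻¹, φ w, hφ, by simp⟩, hw⟩
      have h2 := (Set.ncard_le_ncard h1 (Set.Finite.insert _
        ((finite_ball (n+1)).subset fun g hg => hg.2))).trans (Set.ncard_insert_le _ _)
      have h3 : 1 ≤ D⁻¹ ^ n * ({w : FreeGroup (Fin r) | w.norm ≤ n + 1}.ncard : ℝ) := by
        rw [inv_pow, ← div_eq_inv_mul, le_div_iff₀ (by positivity), one_mul]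
        exact hball n
      have h4 : ({w : FreeGroup (Fin r) | w.norm ≤ n + 1}.ncard : ℝ) ≤
          ({w : FreeGroup (Fin r) | (∃ (φ : MulAut (FreeGroup (Fin r))) (m : FreeGroup (Fin r)),
          m ∈ Subsemigroup.closure (S a) ∧ w = φ m) ∧ w.norm ≤ n + 1}.ncard : ℝ) + 1 := by
        exact_mod_cast h2
      linarith
    · apply div_le_one_of_le₀ _ (by positivity)
      exact Nat.cast_le.2 (Set.ncard_le_ncard (fun g hg => hg.2) (finite_ball (n+1)))

end Pool.Agent.H65.SemiDens
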