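import Pool.Agent.H65.SquierG

/-! The leftmost tree of a Squier complex: its length function. -/

namespace Pool.Agent.H65.Squier

open FreeGroup

def cp {α : Type} [DecidableEq α] : List α → List α → ℕ
  | a :: p, b :: q => if a = b then cp p q + 1 else 0
  | _, _ => 0

theorem cp_min {α : Type} [DecidableEq α] (p q r : List α) : min (cp p q) (cp q r) ≤ cp p r := by
  induction p generalizing q r with
  | nil => simp [cp]
  | cons a p ih =>
    rcases q with _ | ⟨b, q⟩
    · simp [cp]
    rcases r with _ | ⟨c, r⟩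
    · simp [cp]
    have := ih q r
    simp only [cp]
    split_ifs with h1 h2 h3 <;> first | omega | exact (h3 (h1.trans h2)).elim

theorem norm_red {α : Type} [DecidableEq α] {p : List (α × Bool)} (h : IsReduced p) :
    (mk p).norm = p.length := by rw [FreeGroup.norm, toWord_mk, h.reduce_eq]

theorem norm_cp {α : Type} [DecidableEq α] {p : List (α × Bool)} : ∀ {q}, IsReduced p → IsReduced q →
    ((mk p)⁻¹ * mk q).norm + 2 * cp p q = p.length + q.length := by
  induction p with
  | nil => intro q _ h; simp [cp, ← one_eq_mk, norm_red h]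
  | cons a p ih =>
    rintro (_ | ⟨b, q⟩) h h'
    · simp [-inv_mk, cp, ← one_eq_mk, norm_red h]
    by_cases e : a = b
    · subst e
      have := ih (q := q) h.tail h'.tail
      rw [show mk (a :: p) = mk [a] * mk p from rfl, show mk (a :: q) = mk [a] * mk q from rfl,
        mul_inv_rev, mul_assoc, inv_mul_cancel_left]
      simp only [cp, if_true, List.length_cons]
      omega
    · have h1 : IsReduced (invRev (a :: p)) := .of_reduce_eq (by rw [reduce_invRev, h.reduce_eq])
      rw [inv_mk, mul_mk, norm_red (h1.append h' ?_)]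
      · simp [cp, e]
      · obtain ⟨a, c⟩ := a
        obtain ⟨b, d⟩ := b
        simp only [invRev]
        cases c <;> cases d <;> simp_all

theorem four {α : Type} [DecidableEq α] (x y z : FreeGroup α) : (x⁻¹ * y).norm + z.norm ≤
    max ((x⁻¹ * z).norm + y.norm) ((z⁻¹ * y).norm + x.norm) := by
  have h := fun x y : FreeGroup α => norm_cp (isReduced_toWord (x := x)) (isReduced_toWord (x := y))
  have h1 := h x y
  have h2 := h x z
  have h3 := h z y
  have := cp_min x.toWord z.toWord y.toWord
  simp only [mk_toWord] at h1 h2 h3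
  simp only [FreeGroup.norm] at *
  omega

variable {A : Type} {R : Set (List A × List A)} (hR : ∀ r ∈ R, r.1 ≠ [] ∧ r.2 ≠ [])

include hR

theorem exHB : ∃ H : U R → U R → FreeGroup (Quotient (hyp R)),
    (∀ k k' g, H (k * k') g = H k (k' * g) * H k' g) ∧ ∀ l g, H (ev R l) g = .mk (W l g) := by
  classical
  obtain ⟨H, H1, H2⟩ := cocycle (R := R) (M := FreeGroup (Quotient (hyp R)))
    (fun t g => if t.1 = [] then .of ⟦(t.2.1, t.2.2, g)⟧ else 1) fun a b c r hr s hs g => by
      simp only [List.append_eq_nil_iff, (hR r hr).1, (hR r hr).2, and_false, false_and, if_false,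
        one_mul, mul_one]
      split_ifs with h
      · exact congrArg _ (Quotient.sound ⟨rfl, _, Pth.edge b c hs, by simp [h]⟩)
      · rfl
  have H0 : ∀ g, H 1 g = 1 := fun g => by simpa using H1 1 1 g
  refine ⟨H, H1, fun l => ?_⟩
  induction l with
  | nil => exact H0
  | cons s l ih =>
    intro g
    rw [ev, H1, ih, W, ← FreeGroup.mul_mk]
    congr 1
    obtain ⟨a, r, b, _ | _⟩ := s
    · have := H1 (e R (a, r, b)) (e R (a, r, b))⁻¹ g
      rw [mul_inv_cancel, H0, H2, eq_comm, mul_eq_one_iff_inv_eq] at this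
      refine this.symm.trans ?_
      dsimp only
      split_ifs <;> rfl
    · refine (H2 _ _).trans ?_
      dsimp only
      split_ifs <;> rfl

theorem unp {s t : SE A} {m : List (SE A)} (h : Pinch R s m t) {x y : List A} {p q : List (SE A)}
    (hl : TP R x y (p ++ s :: m ++ t :: q)) : ∃ k, TP R x y k ∧ ev R k = ev R (p ++ s :: m ++ t :: q) ∧
      k.length < (p ++ s :: m ++ t :: q).length := by
  obtain ⟨-, r, b, b', c, δ, rfl, rfl, h1, h2⟩ := h
  rw [List.append_assoc] at hl ⊢
  obtain ⟨z, h0, h⟩ := hl.split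
  cases h with
  | cons h3 h4 h5 =>
  obtain ⟨y, h6, h7⟩ := h5.split
  cases h7 with
  | cons _ h8 h9 =>
  subst h4 h8
  obtain ⟨l, h10, rfl, h11⟩ := short hR h1 (u := sd r (!c)) (by simpa [tgt_eq, src_eq] using h6) h2
  refine ⟨p ++ (lft (sd r c) l ++ q), h0.append ((h10.lft _).append
    (by rw [tgt_eq, Bool.not_not] at h9; exact h9)), ?_, by simp [lft]; omega⟩
  have := inter (pth_sv [] [] h3 c) h1
  simp only [List.cons_append, ev, ev_append, ev_lft, h2, sv_not, Rw_sv, List.nil_append,
    List.append_nil, mul_assoc] at this ⊢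
  rw [← mul_assoc (Lw (sd r !c) _), ← this, mul_assoc, inv_mul_cancel_left]

omit hR in
open Classical in
theorem W_len (l : List (SE A)) (g : U R) : (W l g).length = l.countP (·.1 = []) := by
  induction l generalizing g with
  | nil => rfl
  | cons s l ih => by_cases h : s.1 = [] <;> simp [W, ih, h]

theorem Rp.red {x : List A} {n : ℕ} {s : List (Wi A)} {l : List (SE A)} (h : Rp R x n s (ev R l))
    (hl : TP R x (lab s) l) (hn : l.length = n) (g : U R) : IsReduced (W l g) := by
  by_contra h1
  obtain ⟨p, s, m, t, q, rfl, h2⟩ := W_red hl.mem h1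
  obtain ⟨k, h3, h4, h5⟩ := unp hR h2 hl
  obtain ⟨h6, n', h7, h8⟩ := Rp.run hR h3 (.init (R := R)) (lab_top _)
  rw [mul_one, h4] at h8
  have := h.det hR h8 h6.symm
  omega

omit hR in
def rgt (v : List A) (l : List (SE A)) : List (SE A) := l.map fun s => (s.1, s.2.1, s.2.2.1 ++ v, s.2.2.2)

omit hR in
theorem ev_rgt (v : List A) (l : List (SE A)) : ev R (rgt v l) = Rw v (ev R l) := by
  induction l with
  | nil => simp [rgt, ev]
  | cons s l ih => exact (congrArg₂ _ ih (Rw_sv v _ _ _ _).symm).trans (_root_.map_mul _ _ _).symm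

omit hR in
theorem TP.rgt {x y : List A} {l : List (SE A)} (h : TP R x y l) (v : List A) :
    TP R (x ++ v) (y ++ v) (rgt v l) := by
  induction h with
  | nil => exact .nil _
  | cons h1 h2 _ ih => exact .cons h1 (by simp [← h2, src]) (by simpa [tgt, Squier.rgt] using ih)

open Classical in
/-- distance in the leftmost tree -/
noncomputable def l0 (g : U R) : ℕ := ((exHB hR).choose g 1).norm

open Classical in
theorem l0_red {l : List (SE A)} (h : IsReduced (W l (1 : U R))) :
    l0 hR (ev R l) = l.countP (·.1 = []) := by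
  rw [l0, (exHB hR).choose_spec.2, norm_red h, W_len]

open Classical in
theorem l0_at {x y : List A} {k : U R} (h : Pth R x y k) (g : U R) :
    ((exHB hR).choose k g).norm = l0 hR k := by
  obtain ⟨n, s, h1, rfl⟩ := h.rp hR
  obtain ⟨l, h2, rfl, h3, -⟩ := h1.list
  rw [l0_red hR (h1.red hR h2 h3 1), (exHB hR).choose_spec.2, norm_red (h1.red hR h2 h3 g), W_len]

theorem l0_mul {x y : List A} {k : U R} (h : Pth R x y k) (g : U R) :
    l0 hR (k * g) ≤ l0 hR k + l0 hR g := by
  classical
  rw [← l0_at hR h g, l0, (exHB hR).choose_spec.1, mul_one]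
  exact norm_mul_le _ _

theorem l0_div {x y z : List A} {g k : U R} (h : Pth R x y g) (h' : Pth R x z k) :
    by classical exact ((exHB hR).choose g 1 * ((exHB hR).choose k 1)⁻¹).norm = l0 hR (g * k⁻¹) := by
  classical
  rw [← l0_at hR (h.mul h'.inv) k, ← inv_mul_cancel_right g k, (exHB hR).choose_spec.1]
  simp

theorem l0_one : l0 hR 1 = 0 := l0_red hR (l := []) .nil

theorem l0_inv {x y : List A} {k : U R} (h : Pth R x y k) : l0 hR k⁻¹ = l0 hR k := by
  classical
  have := l0_div hR (.one x) h
  rw [show (exHB hR).choose 1 1 = 1 from (exHB hR).choose_spec.2 [] 1, one_mul, one_mul,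
    norm_inv_eq] at this
  exact this.symm

theorem l0_four {x : List A} {a b : U R} (ha : Pth R x x a) (hb : Pth R x x b) (h : Commute a b) :
    l0 hR (a * b⁻¹) + l0 hR (a * b) ≤ 2 * max (l0 hR a) (l0 hR b) := by
  classical
  have := four ((exHB hR).choose a 1)⁻¹ ((exHB hR).choose b 1)⁻¹ ((exHB hR).choose (a * b) 1)⁻¹
  simp only [inv_inv, norm_inv_eq, l0_div hR ha hb, l0_div hR ha (ha.mul hb),
    l0_div hR (ha.mul hb) hb, mul_inv_cancel_right] at this
  rw [h.eq, mul_inv_rev, mul_inv_cancel_left, l0_inv hR hb, ← h.eq] at this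
  change _ + l0 hR _ ≤ max (_ + l0 hR _) (_ + l0 hR _) at this
  omega

theorem l0_LR {u u' y y' : List A} {α β : U R} (h1 : Pth R u u' α) (h2 : Pth R y y' β) (hu : u' ≠ []) :
    l0 hR (Lw u' β * Rw y α) = l0 hR α := by
  classical
  obtain ⟨n, s, h3, rfl⟩ := h1.rp hR
  obtain ⟨m, t, h4, rfl⟩ := h2.rp hR
  obtain ⟨l, h5, rfl, h6, -⟩ := h3.list
  obtain ⟨k, h7, rfl, h8, -⟩ := h4.list
  have h9 := h4.left (h3.right y)
  rw [← ev_lft, ← ev_rgt, ← ev_append] at h9 ⊢
  rw [l0_red hR (h9.red hR (by simpa using (h5.rgt y).append (h7.lft _)) (by simp [lft, rgt, h6, h8]) 1),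
    l0_red hR (h3.red hR h5 h6 1)]
  simp [lft, rgt, Function.comp_def, hu]

end Pool.Agent.H65.Squier
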