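import Pool.Agent.H65.Sol1

/-! Tight cuts of elements of diagram groups. -/

namespace Pool.Agent.H65.Squier

variable {A : Type} {R : Set (List A × List A)} (hR : ∀ r ∈ R, r.1 ≠ [] ∧ r.2 ≠ [])

include hR

def Tg (v : List A) (g : U R) : Prop := g = 1 ∨ ∃ γ u y η τ, Pth R v (u ++ y) γ ∧ Pth R y y η ∧
  g = γ⁻¹ * Lw u η * γ ∧ 0 < τ ∧ ∀ n : ℕ, l0 hR (η ^ n) = n * τ

theorem Tg.conj {v v' : List A} {g δ : U R} (h : Tg hR v' g) (h' : Pth R v v' δ) :
    Tg hR v (δ⁻¹ * g * δ) := by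
  rcases h with rfl | ⟨γ, u, y, η, τ, h1, h2, rfl, h3⟩
  exacts [.inl (by simp), .inr ⟨γ * δ, u, y, η, τ, h1.mul h', h2, by group, h3⟩]

theorem cyc {l : List (SE A)} (h1 : ∃ s ∈ l, s.1 = [])
    (h2 : ∀ g : U R, FreeGroup.IsReduced (W (l ++ l) g)) :
    ∃ τ, 0 < τ ∧ ∀ n : ℕ, l0 hR (ev R l ^ n) = n * τ := by
  classical
  have h3 : ∀ g : U R, W l g ≠ [] := by
    obtain ⟨s, hs, h⟩ := h1
    obtain ⟨p, q, rfl⟩ := List.append_of_mem hs
    simp [W_append, W, h]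
  have h4 : ∀ n (g : U R), FreeGroup.IsReduced (W (pw l (n + 1)) g) := fun n => by
    induction n with
    | zero =>
      intro g
      have := h2 g
      rw [W_append] at this
      simpa [pw] using show FreeGroup.IsReduced _ from List.IsChain.right_of_append this
    | succ n ih =>
      intro g
      have := ih (ev R l * g)
      rw [pw, W_append] at this
      rw [pw, W_append, pw, W_append]
      exact this.append_overlap (W_append l l g ▸ h2 g) (h3 _)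
  have h5 : ∀ n, ev R (pw l n) = ev R l ^ n ∧
      (pw l n).countP (·.1 = []) = n * l.countP (·.1 = []) := fun n => by
    induction n with
    | zero => exact ⟨(pow_zero _).symm, (zero_mul _).symm⟩
    | succ n ih => rw [pw, ev_append, List.countP_append, ih.1, ih.2, pow_succ]; exact ⟨rfl, by ring⟩
  refine ⟨l.countP (·.1 = []), by simpa using h1, fun n => ?_⟩
  rcases n with _ | n
  · simp [l0_one]
  · rw [← (h5 _).1, l0_red hR (h4 n 1), (h5 _).2]

theorem tg_list (k : ℕ) : ∀ (v : List A) (l : List (SE A)), l.length = k → TP R v v l →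
    Tg hR v (ev R l) := by
  induction k using Nat.strong_induction_on with
  | _ k ih =>
  have rot : ∀ p q v, TP R v v (p ++ q) → (∀ y, TP R y y (q ++ p) → Tg hR y (ev R (q ++ p))) →
      Tg hR v (ev R (p ++ q)) := fun p q v h1 h3 => by
    obtain ⟨y, h4, h5⟩ := h1.split
    simpa [ev_append, mul_assoc] using (h3 y (h5.append h4)).conj hR h4.pth
  have cut : ∀ p s m t q, Pinch R s m t → (p ++ s :: m ++ t :: q).length = k → ∀ v,
      TP R v v (p ++ s :: m ++ t :: q) → Tg hR v (ev R (p ++ s :: m ++ t :: q)) :=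
    fun p s m t q h hk v h1 => by
      obtain ⟨l, h2, h3, h4⟩ := unp hR h h1
      exact h3 ▸ ih _ (hk ▸ h4) _ _ rfl h2
  intro v
  induction v with
  | nil =>
    intro l _ h
    cases h with
    | nil => exact .inl rfl
    | @cons _ _ s _ h1 h2 _ => simpa [sd_ne hR h1] using
        (src_eq s.1 s.2.2.1 s.2.1 s.2.2.2).symm.trans h2
  | cons x v ih' =>
    intro l hk hl
    by_cases h1 : ∃ s ∈ l, s.1 = []
    swap
    · obtain ⟨_, l', ⟨⟩, h2, rfl⟩ := TP.unl (fun s hs e => h1 ⟨s, hs, e⟩) hl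
      rw [ev_lft]
      rcases ih' l' (by simpa [lft] using hk) h2 with h | ⟨γ, u, y, η, τ, h3, h4, h5, h6⟩
      exacts [.inl (by rw [h, map_one]), .inr ⟨_, x :: u, y, η, τ, h3.L [x], h4,
        by simp [h5, Lw_Lw], h6⟩]
    by_cases h2 : ∀ g : U R, FreeGroup.IsReduced (W (l ++ l) g)
    · obtain ⟨τ, h3⟩ := cyc hR h1 h2
      refine .inr ⟨1, [], _, _, τ, .one _, hl.pth, ?_, h3⟩
      rw [← ev_lft]
      simp [lft]
    obtain ⟨g, h2⟩ := not_forall.1 h2
    obtain ⟨p, s, m, t, q, h3, h4⟩ := W_red (hl.append hl).mem h2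
    have ne : s ≠ t := by
      obtain ⟨-, r, b, b', c, δ, rfl, rfl, -⟩ := h4
      simp
    have hs : s ∉ m := fun h => by
      obtain ⟨h5, r, b, b', c, δ, rfl, -⟩ := h4
      exact h5 _ h rfl
    have str : ∀ m₁ m₂, m = m₁ ++ m₂ → l = p ++ s :: m₁ → l = m₂ ++ t :: q →
        Tg hR (x :: v) (ev R l) := by
      rintro m₁ m₂ rfl rfl h5
      rcases List.append_eq_append_iff.1 h5 with ⟨_ | ⟨y, u⟩, rfl, h6⟩ | ⟨_ | ⟨y, u⟩, rfl, h6⟩
      · exact absurd (List.cons.inj h6).1 ne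
      · obtain rfl := (List.cons.inj h6).1
        simp at hs
      · exact absurd (List.cons.inj h6).1.symm ne
      · obtain ⟨rfl, rfl⟩ := List.cons.inj h6
        exact rot _ _ _ hl (by simpa using cut [] s _ t u h4 (by simp at hk ⊢; omega))
    have aux : ∀ u, p ++ s :: m = l ++ u → l = u ++ t :: q → Tg hR (x :: v) (ev R l) :=
      fun u h5 h6 => by
      rcases List.append_eq_append_iff.1 h5 with ⟨_ | ⟨y, u'⟩, h7, h8⟩ | ⟨u', h7, rfl⟩
      · obtain rfl : s :: m = u := h8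
        exact h6 ▸ cut [] s m t q h4 (h6 ▸ hk) _ (h6 ▸ hl)
      · obtain ⟨rfl, h9⟩ := List.cons.inj h8
        exact str u' u h9 h7 h6
      · exact h6 ▸ cut u' s m t q h4 (h6 ▸ hk) _ (h6 ▸ hl)
    rcases List.append_eq_append_iff.1 h3 with ⟨u, h5, h6⟩ | ⟨_ | ⟨y, u⟩, h5, h6⟩
    · exact aux u h5 h6
    · exact aux [] (by simp [h5]) h6.symm
    · obtain rfl := (List.cons.inj h6).1
      exact h5 ▸ cut p s m t u h4 (h5 ▸ hk) _ (h5 ▸ hl)

theorem tg {v : List A} {g : U R} (h : Pth R v v g) : Tg hR v g :=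
  h.tp.elim fun l h => h.2 ▸ tg_list hR _ v l rfl h.1

omit hR in
theorem Pth.pow {v : List A} {g : U R} (h : Pth R v v g) (n : ℕ) : Pth R v v (g ^ n) :=
  (Loop R v).pow_mem h n

theorem l0_L {u y y' : List A} {β : U R} (h : Pth R y y' β) (hu : u ≠ []) : l0 hR (Lw u β) = 0 := by
  simpa [l0_one] using l0_LR hR (.one u) h hu

def Tl (g : U R) (τ : ℕ) : Prop :=
  ∃ C, ∀ n : ℕ, l0 hR (g ^ n) ≤ n * τ + C ∧ n * τ ≤ l0 hR (g ^ n) + C

omit hR in
theorem lin {a b C : ℕ} (h : ∀ n, n * a ≤ n * b + C) : a ≤ b := by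
  have := h (C + 1)
  nlinarith

theorem Tl.conj {x y : List A} {g γ : U R} {τ : ℕ} (h : Tl hR g τ) (h1 : Pth R y y g)
    (h2 : Pth R x y γ) : Tl hR (γ⁻¹ * g * γ) τ := by
  obtain ⟨C, h⟩ := h
  refine ⟨C + 2 * l0 hR γ, fun n => ?_⟩
  have e : (γ⁻¹ * g * γ) ^ n = γ⁻¹ * (g ^ n * γ) := by simpa [mul_assoc] using conj_pow (a := γ⁻¹)
  have h3 := l0_mul hR h2.inv (g ^ n * γ)
  have h4 := l0_mul hR (h1.pow n) γ
  have h5 := l0_mul hR h2 (γ⁻¹ * (g ^ n * γ) * γ⁻¹)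
  have h6 := l0_mul hR (h2.inv.mul ((h1.pow n).mul h2)) γ⁻¹
  rw [l0_inv hR h2] at h3 h6
  rw [show γ * _ = g ^ n by group] at h5
  have := h n
  rw [e]
  omega

theorem Lw_nil (g : U R) : Lw [] g = g := by
  change _ = MonoidHom.id _ g
  congr 1
  ext t
  exact Lw_e _ t

theorem tl_ex {v : List A} {g : U R} (h : Pth R v v g) : ∃ τ, Tl hR g τ := by
  rcases tg hR h with rfl | ⟨γ, _ | ⟨x, u⟩, y, η, τ, h1, h2, rfl, -, h3⟩
  · exact ⟨0, 0, by simp [l0_one]⟩
  · exact ⟨τ, Tl.conj hR ⟨0, by simp [Lw_nil hR, h3]⟩ (h2.L _) h1⟩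
  · exact ⟨0, Tl.conj hR ⟨0, by simp [← map_pow, l0_L hR (h2.pow _)]⟩ (h2.L _) h1⟩

open Classical in
/-- translation length on the leftmost tree -/
noncomputable def ta (g : U R) : ℕ := if h : ∃ τ, Tl hR g τ then h.choose else 0

theorem Tl.eq {g : U R} {τ : ℕ} (h : Tl hR g τ) : ta hR g = τ := by
  have e : ∃ τ, Tl hR g τ := ⟨τ, h⟩
  obtain ⟨C, h1⟩ := h
  obtain ⟨D, h2⟩ := e.choose_spec
  rw [ta, dif_pos e]
  exact le_antisymm (lin (C := C + D) fun n => by have := h1 n; have := h2 n; omega)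
    (lin (C := C + D) fun n => by have := h1 n; have := h2 n; omega)

variable {v : List A} {g k : U R}

theorem tl (h : Pth R v v g) : Tl hR g (ta hR g) := (tl_ex hR h).elim fun _ h => h.eq hR ▸ h

theorem ta_conj {x : List A} (h1 : Pth R v v g) (h2 : Pth R x v k) :
    ta hR (k⁻¹ * g * k) = ta hR g := ((tl hR h1).conj hR h1 h2).eq hR

theorem ta_pow (h : Pth R v v g) (m : ℕ) : ta hR (g ^ m) = m * ta hR g := by
  obtain ⟨C, h1⟩ := tl hR h
  exact Tl.eq hR ⟨C, fun n => by simpa [← pow_mul, mul_comm m, mul_assoc] using h1 (m * n)⟩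

theorem ta_inv (h : Pth R v v g) : ta hR g⁻¹ = ta hR g := by
  obtain ⟨C, h1⟩ := tl hR h
  exact Tl.eq hR ⟨C, fun n => by simpa [l0_inv hR (h.pow n)] using h1 n⟩

theorem ta_le (h : Pth R v v g) : ta hR g ≤ l0 hR g := by
  obtain ⟨C, h1⟩ := tl hR h
  have : ∀ n, l0 hR (g ^ n) ≤ n * l0 hR g := fun n => by
    induction n with
    | zero => simp [l0_one]
    | succ n ih => have := l0_mul hR h (g ^ n); rw [pow_succ']; linarith
  exact lin (C := C) fun n => by have := this n; have := h1 n; omega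

theorem ta_mul (h : Pth R v v g) (h' : Pth R v v k) (c : Commute g k) :
    ta hR (g * k) ≤ ta hR g + ta hR k := by
  obtain ⟨C, h1⟩ := tl hR h
  obtain ⟨D, h2⟩ := tl hR h'
  obtain ⟨E, h3⟩ := tl hR (h.mul h')
  refine lin (C := C + D + E) fun n => ?_
  have := l0_mul hR (h.pow n) (k ^ n)
  have := h1 n
  have := h2 n
  have := h3 n
  rw [c.mul_pow] at this
  rw [mul_add]
  omega

theorem ta_four (h : Pth R v v g) (h' : Pth R v v k) (c : Commute g k) :
    ta hR (g * k⁻¹) + ta hR (g * k) ≤ 2 * max (ta hR g) (ta hR k) := by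
  obtain ⟨C, h1⟩ := tl hR h
  obtain ⟨D, h2⟩ := tl hR h'
  obtain ⟨E, h3⟩ := tl hR (h.mul h')
  obtain ⟨F, h4⟩ := tl hR (h.mul h'.inv)
  refine lin (C := 2 * (C + D) + E + F) fun n => ?_
  have := l0_four hR (h.pow n) (h'.pow n) (c.pow_pow n n)
  have := h1 n
  have := h2 n
  have h5 := h3 n
  have h6 := h4 n
  rw [c.mul_pow] at h5
  rw [c.inv_right.mul_pow, inv_pow] at h6
  rw [mul_add, mul_left_comm, ← Nat.mul_max_mul_left]
  omega

theorem pm (h : Pth R v v g) (h' : Pth R v v k) (c : Commute g k) (e : ta hR g = ta hR k) :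
    ta hR (g * k⁻¹) = 0 ∨ ta hR (g * k) = 0 := by
  have h1 := ta_four hR h h' c
  have h2 := ta_four hR (h.mul h') (h.mul h'.inv) (by
    exact ((Commute.refl g).mul_right c.inv_right).mul_left
      (c.symm.mul_right (Commute.refl k).inv_right))
  rw [show g * k * (g * k⁻¹)⁻¹ = k ^ 2 by simp [pow_two, mul_assoc, ← c.inv_left.eq, c.left_comm],
    show g * k * (g * k⁻¹) = g ^ 2 by simp [pow_two, mul_assoc, ← c.left_comm],
    ta_pow hR h, ta_pow hR h'] at h2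
  omega

theorem ta_LR {u y : List A} (h1 : Pth R u u g) (h2 : Pth R y y k) (hu : u ≠ []) :
    ta hR (Lw u k * Rw y g) = ta hR g := by
  obtain ⟨C, h⟩ := tl hR h1
  refine Tl.eq hR ⟨C, fun n => ?_⟩
  rw [Commute.mul_pow (inter h1 h2).symm, ← map_pow, ← map_pow, l0_LR hR (h1.pow n) (h2.pow n) hu]
  exact h n

theorem ta_one : ta hR 1 = 0 := Tl.eq hR ⟨0, by simp [l0_one]⟩

theorem ta_L {u y : List A} (h2 : Pth R y y k) (hu : u ≠ []) : ta hR (Lw u k) = 0 := by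
  simpa [ta_one] using ta_LR hR (.one u) h2 hu

theorem tight (h : Pth R v v g) (h1 : g ≠ 1) : ∃ γ u y η, Pth R v (u ++ y) γ ∧ Pth R y y η ∧
    g = γ⁻¹ * Lw u η * γ ∧ ta hR η ≠ 0 := by
  obtain ⟨γ, u, y, η, τ, h2, h3, h4, h5, h6⟩ := (tg hR h).resolve_left h1
  exact ⟨γ, u, y, η, h2, h3, h4, (Tl.eq hR ⟨0, by simp [h6]⟩).trans_ne h5.ne'⟩

end Pool.Agent.H65.Squier
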