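import Pool.Agent.H65.Sol2

/-! Solvable diagram groups without shifts of active words are abelian. -/

namespace Pool.Agent.H65.Squier

open scoped commutatorElement

variable {A : Type} {R : Set (List A × List A)} (hR : ∀ r ∈ R, r.1 ≠ [] ∧ r.2 ≠ [])

include hR

theorem TT0 {y : List A} {η : U R} (hη : Pth R y y η) (h0 : ta hR η ≠ 0) (n : ℕ) :
    ∀ u m b l β, l.length = n → TP R (u ++ y) (m ++ b) l → Pth R b b β →
      ev R l * Lw u η = Lw m β * ev R l → ∃ u₁ k j, TP R u (m ++ u₁) k ∧ TP R (u₁ ++ y) b j ∧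
        ev R l = Lw m (ev R j) * Rw y (ev R k) ∧ j.length + k.length ≤ l.length := by
  classical
  induction n using Nat.strong_induction_on with
  | _ n ih =>
  intro u
  induction u with
  | nil =>
    intro m b l β _ h1 h2 h3
    rcases m with _ | ⟨x, m⟩
    · exact ⟨[], [], l, .nil _, h1, by simp [Lw_nil hR, ev], le_rfl⟩
    · rw [Lw_nil hR, ← eq_inv_mul_iff_mul_eq, ← mul_assoc] at h3
      exact (h0 (by rw [h3, ta_conj hR (h2.L _) h1.pth, ta_L hR h2 (by simp)])).elim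
  | cons x u ih' =>
    intro m b l β hn h1 h2 h3
    rcases m with _ | ⟨x', m⟩
    · exact ⟨x :: u, [], l, .nil _, h1, by simp [Lw_nil hR, ev], le_rfl⟩
    rcases first (fun s : SE A => s.1 = []) l with h | ⟨p, ⟨_, r, b₁, c⟩, q, rfl, rfl, h⟩
    · obtain ⟨_, l', ⟨⟩, h4, rfl⟩ := TP.unl h h1
      have h5 := L_inj hR (a := [x]) ((h4.pth.mul (hη.L u)).mul ((h2.L m).mul h4.pth).inv) (by
        rw [map_mul, map_inv, mul_inv_eq_one]
        simpa [ev_lft, Lw_Lw] using h3)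
      obtain ⟨u₁, k, j, h6, h7, h8, h9⟩ := ih' m b l' β (by simpa [lft] using hn) h4 h2
        (mul_inv_eq_one.1 h5)
      exact ⟨u₁, lft [x] k, j, h6.lft [x], h7, by simp [ev_lft, h8, Lw_Lw, Lw_Rw],
        by simpa [lft] using h9⟩
    by_cases h4 : ∀ g : U R, FreeGroup.IsReduced (W (p ++ ([], r, b₁, c) :: q) g)
    swap
    · obtain ⟨g, h4⟩ := not_forall.1 h4
      obtain ⟨p, s, m, t, q, h5, h6⟩ := W_red h1.mem h4
      obtain ⟨k, h7, h8, h9⟩ := unp hR h6 (h5 ▸ h1)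
      rw [← h5] at h8 h9
      obtain ⟨u₁, k', j, k1, k2, k3, k4⟩ := ih _ (hn ▸ h9) _ _ _ k β rfl h7 h2 (h8 ▸ h3)
      exact ⟨u₁, k', j, k1, k2, h8 ▸ k3, k4.trans h9.le⟩
    obtain ⟨H1, H2⟩ := (exHB hR).choose_spec
    have h6 := congrArg ((exHB hR).choose · 1) h3
    have h7 : ∀ {u y β} g, Pth R y y β → u ≠ [] → (exHB hR).choose (Lw u β) g = 1 := fun g h h' =>
      FreeGroup.norm_eq_zero.1 ((l0_at hR (h.L _) g).trans (l0_L hR h h'))
    simp only [H1, H2, h7 _ hη (List.cons_ne_nil _ _), h7 _ h2 (List.cons_ne_nil _ _), mul_one,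
      one_mul] at h6
    have h8 : ∀ g : U R, W p g = [] := fun g =>
      List.length_eq_zero_iff.1 ((W_len p g).trans (by simpa using h))
    have h9 := FreeGroup.reduce.sound h6
    rw [(h4 _).reduce_eq, (h4 _).reduce_eq] at h9
    simp only [W_append, W, h8, List.append_nil, if_true] at h9
    obtain ⟨z, h10, h11⟩ := h1.split
    cases h11 with
    | cons hr h11 h12 =>
    subst h11
    obtain ⟨-, δ, h13, h14⟩ := Quotient.exact (Prod.ext_iff.1 (List.cons.inj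
      (List.append_inj_right' h9 rfl)).1).1
    have h15 : ev R p * Lw (x :: u) η = Lw (sd r c) δ⁻¹ * ev R p := by
      have := inter (pth_sv [] [] hr false) h13
      cases c
      · simp only [Rw_sv, List.nil_append, List.append_nil, sd, Bool.not_false, if_true,
          Bool.false_eq_true, if_false] at h14 this ⊢
        rw [mul_one, ← mul_assoc, ← this, mul_assoc, mul_right_inj] at h14
        rw [map_inv, eq_inv_mul_iff_mul_eq, ← h14]
      · simp only [if_true, sd, mul_one] at h14 ⊢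
        rw [map_inv, eq_inv_mul_iff_mul_eq, ← h14]
    obtain ⟨u₁, k, j, k1, k2, k3, k4⟩ := ih _ (by simp [← hn]) _ (sd r c) b₁ p _ rfl h10 h13.inv h15
    have k5 : TP R (x :: u) (sd r (!c) ++ u₁) (k ++ [([], r, u₁, c)]) :=
      k1.append (.cons hr rfl (tgt_eq [] u₁ r c ▸ .nil _))
    have k6 : ev R (p ++ ([], r, b₁, c) :: q) =
        ev R (lft (sd r !c) j ++ q) * Rw y (ev R (k ++ [([], r, u₁, c)])) := by
      have := inter (pth_sv [] [] hr c) k2.pth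
      simp only [Rw_sv, List.nil_append, List.append_nil] at this
      simp only [ev_append, ev, k3, ev_lft, map_mul, one_mul, Rw_sv, mul_assoc]
      rw [← mul_assoc (sv _ _), this, mul_assoc]
    obtain ⟨u₂, k', j', k7, k8, k9, k10⟩ := ih _ (by simp [← hn, lft]; omega) (sd r (!c) ++ u₁) _ _
      (lft (sd r !c) j ++ q) β rfl (by simpa [tgt_eq] using (k2.lft _).append (tgt_eq [] b₁ r c ▸ h12)) h2
      (by rwa [k6, mul_assoc, inter k5.pth hη, ← mul_assoc, ← mul_assoc, mul_left_inj] at h3)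
    exact ⟨u₂, k ++ [([], r, u₁, c)] ++ k', j', k5.append k7, k8,
      by rw [k6, k9, ev_append _ k', map_mul, mul_assoc], by simp [lft] at k10 ⊢; omega⟩

theorem TT {y u m b : List A} {η g β : U R} (hη : Pth R y y η) (h0 : ta hR η ≠ 0)
    (h1 : Pth R (u ++ y) (m ++ b) g) (h2 : Pth R b b β) (h3 : g * Lw u η = Lw m β * g) :
    ∃ u₁ α γ, Pth R u (m ++ u₁) α ∧ Pth R (u₁ ++ y) b γ ∧ g = Lw m γ * Rw y α ∧
      β = γ * Lw u₁ η * γ⁻¹ := by
  obtain ⟨l, hl, rfl⟩ := h1.tp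
  obtain ⟨u₁, k, j, h4, h5, h6, -⟩ := TT0 hR hη h0 _ u m b l β rfl hl h2 h3
  refine ⟨u₁, _, _, h4.pth, h5.pth, h6, mul_inv_eq_one.1 (L_inj hR (a := m)
    (h2.mul ((h5.pth.mul (hη.L _)).mul h5.pth.inv).inv) ?_)⟩
  rw [h6, mul_assoc, inter h4.pth hη, ← mul_assoc, ← mul_assoc, mul_left_inj] at h3
  rw [map_mul, map_inv, mul_inv_eq_one, map_mul, map_mul, Lw_Lw, h3, map_inv, mul_inv_cancel_right]

theorem TT' {y u m b : List A} {η g β : U R} (hη : Pth R y y η) (h0 : ta hR β ≠ 0)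
    (h1 : Pth R (u ++ y) (m ++ b) g) (h2 : Pth R b b β) (h3 : g * Lw u η = Lw m β * g)
    (h4 : ta hR η ≠ 0) : ∃ α γ, Pth R u m α ∧ Pth R y b γ ∧ g = Lw m γ * Rw y α := by
  obtain ⟨_ | ⟨x, u₁⟩, α, γ, h5, h6, h7, rfl⟩ := TT hR hη h4 h1 h2 h3
  · exact ⟨α, γ, by simpa using h5, h6, h7⟩
  · have := ta_conj hR (hη.L _) h6.inv
    rw [inv_inv, ta_L hR hη (by simp)] at this
    exact (h0 this).elim

omit hR in
variable (R) in
def NS (z : List A) : Prop := ∀ l p r g α β, Pth R z (l ++ r) g → Pth R l (l ++ p) α →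
  Pth R (p ++ r) r β → ¬ Act R p

omit hR in
variable (R) in
def NA (v : List A) (N : Subgroup (U R)) : Prop := N ≤ Loop R v ∧
  (∀ g, Pth R v v g → ∀ a ∈ N, g⁻¹ * a * g ∈ N) ∧ ∀ a ∈ N, ∀ b ∈ N, Commute a b

theorem lemS {v u y : List A} {N : Subgroup (U R)} {γ η : U R} (hS : NS R v) (hN : NA R v N)
    (hγ : Pth R v (u ++ y) γ) (hη : Pth R y y η) (h0 : ta hR η ≠ 0) (ha : γ⁻¹ * Lw u η * γ ∈ N)
    {g : U R} (hg : Pth R v v g) :
    ∃ α β, Pth R u u α ∧ Pth R y y β ∧ g = γ⁻¹ * (Lw u β * Rw y α) * γ := by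
  obtain ⟨g, rfl, hg'⟩ : ∃ k, g = γ⁻¹ * k * γ ∧ Pth R (u ++ y) (u ++ y) k :=
    ⟨γ * g * γ⁻¹, by group, (hγ.mul hg).mul hγ.inv⟩
  suffices ∃ α β, Pth R u u α ∧ Pth R y y β ∧ g = Lw u β * Rw y α by
    obtain ⟨α, β, h1, h2, rfl⟩ := this
    exact ⟨α, β, h1, h2, rfl⟩
  have h1 : g⁻¹ * Lw u η * g * Lw u η = Lw u η * (g⁻¹ * Lw u η * g) := by
    simpa [mul_assoc] using congrArg (· * γ⁻¹) (hN.2.2 _ (hN.2.1 _ hg _ ha) _ ha).eq
  obtain ⟨α₁, β₁, h2, h3, h4⟩ := TT' hR hη h0 ((hg'.inv.mul (hη.L u)).mul hg') hη h1 h0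
  by_cases h5 : α₁ = 1
  · rw [h5, map_one, mul_one] at h4
    obtain ⟨u₁, α, γ', h6, h7, h8, h9⟩ := TT hR hη h0 hg'.inv h3 (eq_mul_inv_of_mul_eq h4)
    rcases u₁ with _ | ⟨x, u₁⟩
    · rw [List.append_nil] at h6
      rw [List.nil_append] at h7
      exact ⟨α⁻¹, γ'⁻¹, h6.inv, h7.inv, by
        rw [← inter h6.inv h7.inv, map_inv, map_inv, ← mul_inv_rev, ← h8, inv_inv]⟩
    have h10 := L_inj hR (a := u) ((h3.mul hη).mul (hη.mul h3).inv) (by
      rw [map_mul, map_inv, mul_inv_eq_one, map_mul, map_mul, ← h4, h1])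
    obtain ⟨α₂, β₂, k1, k2, k3⟩ := TT' hR hη h0 ((h7.inv.mul hη).mul h7) hη (by
      rw [mul_inv_eq_one, h9] at h10
      simpa [mul_assoc] using (congrArg (γ'⁻¹ * · * γ') h10).symm) h0
    refine (hS u _ y _ _ _ hγ h6 h7 ⟨α₂, k1, fun e => h0 ?_⟩).elim
    rw [← ta_conj hR hη h7, k3, e, map_one, mul_one, ta_L hR k2 (by simp)]
  · obtain ⟨γ₂, u₂, y₂, η₂, h6, h7, rfl, h8⟩ := tight hR h2 h5
    have h9 : η₂ ≠ 1 := fun e => h8 (e ▸ ta_one hR)
    have h10 : y₂ ≠ [] := fun e => not_act hR ⟨_, e ▸ h7, h9⟩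
    obtain ⟨α, γ', k1, k2, k3⟩ := TT' hR ((h3.L y₂).mul (h7.R' y)) h0 (u := u₂)
      (g := g * (Rw y γ₂)⁻¹) (hg'.mul (by simpa using (h6.R' y).inv)) hη (by
        rw [mul_assoc g⁻¹, inv_mul_eq_iff_eq_mul] at h4
        rw [← mul_assoc, h4, map_mul, Lw_Lw, ← mul_inv_eq_iff_eq_mul.2 (inter h6 h3)]
        simp [mul_assoc, Lw_Rw]) (by rwa [ta_LR hR h7 h3 h10])
    exact (hS u y₂ y _ _ _ hγ ((k1.R' y₂).mul h6) k2 ⟨_, h7, h9⟩).elim

theorem klein {v : List A} {g c : U R} (hg : Pth R v v g) (hc : Pth R v v c)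
    (h : g⁻¹ * c * g = c⁻¹) : ta hR c = 0 := by
  by_contra h0
  have e1 : c * g = g * c⁻¹ := by rw [← h, ← mul_assoc, ← mul_assoc, mul_inv_cancel, one_mul]
  have e2 : c⁻¹ * g = g * c := by rw [inv_mul_eq_iff_eq_mul, ← mul_assoc, e1, inv_mul_cancel_right]
  by_cases h1 : ta hR g = 0
  · have h2 : g ≠ 1 := by
      rintro rfl
      have := ta_pow hR hc 2
      rw [pow_two, mul_eq_one_iff_eq_inv.2 (by simpa using h), ta_one] at this
      omega
    have h3 : g * c ≠ 1 := fun e => h0 (by rw [← ta_inv hR hc, ← eq_inv_of_mul_eq_one_left e, h1])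
    obtain ⟨γ, u, y, η, k1, k2, k3, k4⟩ := tight hR hg h2
    obtain ⟨γ', u', y', η', k5, k6, k7, k8⟩ := tight hR (hg.mul hc) h3
    have hu : u ≠ [] := by
      rintro rfl
      rw [k3, Lw_nil hR, ta_conj hR k2 k1] at h1
      exact k4 h1
    have e3 : g * c * (g * c) = g * g := by rw [mul_assoc, ← mul_assoc c, e1]; simp [mul_assoc]
    obtain ⟨u₁, α, δ, k9, k10, k11, -⟩ := TT hR (k6.pow 2) (by rw [ta_pow hR k6]; omega)
      (k1.mul k5.inv) (k2.pow 2) (by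
        rw [k7, k3] at e3
        simpa [mul_assoc, pow_two] using congrArg (γ * · * γ'⁻¹) e3)
    have e4 : c = γ⁻¹ * Lw u (η⁻¹ * (δ * Lw u₁ η' * δ⁻¹)) * γ := by
      have := inter k9 k6
      rw [eq_inv_mul_of_mul_eq k7, k3, ← inv_mul_eq_iff_eq_mul.2 (eq_mul_of_mul_inv_eq k11),
        mul_inv_rev _ γ]
      simp [mul_assoc, Lw_Lw, ← mul_inv_eq_iff_eq_mul.2 this]
    have := k2.inv.mul ((k10.mul (k6.L _)).mul k10.inv)
    exact h0 (by rw [e4, ta_conj hR (this.L u) k1, ta_L hR this hu])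
  have c1 : Commute (g ^ 2) c := by
    rw [pow_two, Commute, SemiconjBy, mul_assoc, ← e2, ← mul_assoc, ← e1, mul_assoc]
  have hx := (hg.pow 2).pow (ta hR c)
  have hy := hc.pow (2 * ta hR g)
  have c2 := c1.pow_pow (ta hR c) (2 * ta hR g)
  have e3 : g⁻¹ * ((g ^ 2) ^ ta hR c * c ^ (2 * ta hR g)) * g =
      (g ^ 2) ^ ta hR c * (c ^ (2 * ta hR g))⁻¹ := by
    rw [← inv_pow, ← h, show (g⁻¹ * c * g) ^ (2 * ta hR g) = g⁻¹ * c ^ (2 * ta hR g) * g by
      simpa using conj_pow (a := g⁻¹)]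
    group
  have h2 := ta_conj hR (hx.mul hy) hg
  have h3 := ta_mul hR (hx.mul hy.inv) (hx.mul hy)
    (((Commute.refl _).mul_right c2).mul_left (c2.symm.mul_right (Commute.refl _)).inv_left)
  rw [mul_assoc, c2.inv_right.symm.left_comm, inv_mul_cancel, mul_one, ← pow_two, ta_pow hR hx,
    ta_pow hR (hg.pow 2), ta_pow hR hg] at h3
  have := pm hR hx hy c2 (by rw [ta_pow hR (hg.pow 2), ta_pow hR hg, ta_pow hR hc, mul_comm])
  have : 0 < ta hR c * (2 * ta hR g) := by positivity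
  rw [e3] at h2
  omega

theorem cenA {v : List A} {N : Subgroup (U R)} (hS : NS R v) (hN : NA R v N) {g a : U R}
    (hg : Pth R v v g) (ha : a ∈ N) : ta hR (g⁻¹ * a * g * a⁻¹) = 0 := by
  have h1 : Pth R v v a := hN.1 ha
  have h2 := hN.2.1 g hg a ha
  have h3 : Pth R v v _ := hN.1 h2
  have h4 := hN.2.2 _ h2 _ ha
  have h5 := ta_conj hR h1 hg
  refine (pm hR h3 h1 h4 h5).elim id fun h6 => ?_
  suffices ta hR a = 0 by
    have := ta_mul hR h3 h1.inv h4.inv_right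
    rw [ta_inv hR h1] at this
    omega
  by_cases h7 : g⁻¹ * a * g * a = 1
  · exact klein hR hg h1 (eq_inv_of_mul_eq_one_left h7)
  obtain ⟨γ, u, y, η, k1, k2, k3, k4⟩ := tight hR (h3.mul h1) h7
  have hu : u ≠ [] := by
    rintro rfl
    rw [k3, Lw_nil hR, ta_conj hR k2 k1] at h6
    exact k4 h6
  have k5 := fun g => lemS hR hS hN k1 k2 k4 (k3 ▸ mul_mem h2 ha) (g := g)
  obtain ⟨α, β, k6, k7, rfl⟩ := k5 _ hg
  obtain ⟨α', β', k8, k9, rfl⟩ := k5 _ h1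
  rw [ta_conj hR ((k9.L u).mul (k8.R' y)) k1, ta_LR hR k8 k9 hu]
  refine klein hR k6 k8 (eq_inv_of_mul_eq_one_left (split_inj hR (((k6.inv.mul k8).mul k6).mul k8)
    (k2.inv.mul (((k7.inv.mul k9).mul k7).mul k9)) ?_).1)
  have c : ∀ {α β}, Pth R u u α → Pth R y y β → ∀ t, Rw y α * (Lw u β * t) = Lw u β * (Rw y α * t) :=
    fun h h' t => by rw [← mul_assoc, inter h h', mul_assoc]
  have := congrArg (γ * · * γ⁻¹) k3
  simp only [mul_assoc, mul_inv_rev, inv_inv, mul_inv_cancel_left, mul_inv_cancel, mul_one,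
    ← map_inv, c k6.inv k7.inv, c k6.inv k9, c k6.inv k7, c k8 k7, c k8 k9, c k6 k9] at this
  simp only [map_mul, mul_assoc, this, map_inv (Lw u) η, inv_mul_cancel]

theorem heis {G : Type} [Group G] {x y z : G} (h : x * y = z * (y * x)) (h1 : Commute z x)
    (h2 : Commute z y) (n m : ℕ) : x ^ n * y ^ m = z ^ (n * m) * (y ^ m * x ^ n) := by
  have h3 : x * y ^ m = z ^ m * (y ^ m * x) := by
    induction m with
    | zero => simp
    | succ m ih => rw [pow_succ, ← mul_assoc, ih, mul_assoc, mul_assoc, h,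
        (h2.pow_right m).symm.left_comm, pow_succ]; simp only [mul_assoc]
  induction n with
  | zero => simp
  | succ n ih =>
    rw [pow_succ', mul_assoc, ih, (h1.pow_left _).symm.left_comm, ← mul_assoc x, h3, add_mul,
      pow_add, one_mul]
    simp only [mul_assoc]

theorem dist {v : List A} {N : Subgroup (U R)} (hS : NS R v) (hN : NA R v N) {x y : U R}
    (hx : Pth R v v x) (hy : Pth R v v y) (h : ⁅x, y⁆ ∈ N) : ta hR ⁅x, y⁆ = 0 := by
  let E : Subgroup (Loop R v) :=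
    { carrier := {e | e.1 ∈ N ∧ ta hR e.1 = 0}
      one_mem' := ⟨one_mem _, ta_one hR⟩
      mul_mem' := fun {a b} h h' => ⟨mul_mem h.1 h'.1, by
        simpa [h.2, h'.2] using ta_mul hR a.2 b.2 (hN.2.2 _ h.1 _ h'.1)⟩
      inv_mem' := fun {a} h => ⟨inv_mem h.1, (ta_inv hR a.2).trans h.2⟩ }
  have : E.Normal := ⟨fun a h g => ⟨by simpa using hN.2.1 _ (Pth.inv g.2) _ h.1, by
    simpa [h.2] using ta_conj hR a.2 (Pth.inv g.2)⟩⟩
  let z : Loop R v := ⟨_, hN.1 h⟩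
  have c : ∀ g : Loop R v, Commute (z : _ ⧸ E) g := fun g => by
    have : ((g⁻¹ * z * g * z⁻¹ :) : _ ⧸ E) = 1 :=
      (QuotientGroup.eq_one_iff _).2 ⟨mul_mem (hN.2.1 _ g.2 _ h) (inv_mem h), cenA hR hS hN g.2 h⟩
    simpa [mul_assoc, inv_mul_eq_iff_eq_mul, commute_iff_eq, ← mul_inv_eq_iff_eq_mul] using this
  have key : ∀ n, n * n * ta hR ⁅x, y⁆ ≤ n * (2 * (l0 hR x + l0 hR y)) := fun n => by
    have h1 := heis hR (x := ((⟨x, hx⟩ : Loop R v) : _ ⧸ E)) (y := ((⟨y, hy⟩ : Loop R v) : _ ⧸ E))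
      (z := z) (congrArg _ (Subtype.ext (by simp [z, commutatorElement_def]))) (c _) (c _) n n
    rw [← mul_inv_eq_iff_eq_mul] at h1
    obtain ⟨h2, h3⟩ : _ ∈ E := QuotientGroup.eq.1 h1.symm
    have h4 := (hN.1 h : Pth R v v _).pow (n * n)
    have h5 := hx.pow n
    have h6 := hy.pow n
    have h7 := ta_mul hR ((h5.mul h6).mul (h6.mul h5).inv) (Pth.inv (hN.1 h2)) (by
      simpa [z] using hN.2.2 _ (mul_mem (pow_mem h (n * n)) h2) _ (inv_mem h2))
    have h8 := ta_le hR ((h5.mul h6).mul (h6.mul h5).inv)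
    have p : ∀ {g}, Pth R v v g → l0 hR (g ^ n) ≤ n * l0 hR g := fun {g} h => by
      clear * - h
      induction n with
      | zero => simp [l0_one]
      | succ n ih => have := l0_mul hR h (g ^ n); rw [pow_succ']; linarith
    have := l0_mul hR (h5.mul h6) (y ^ n * x ^ n)⁻¹
    have := l0_mul hR h5 (y ^ n)
    have := l0_mul hR h6 (x ^ n)
    have := l0_inv hR (h6.mul h5)
    have := p hx
    have := p hy
    rw [ta_inv hR (hN.1 h2), h3] at h7
    simp only [Subgroup.coe_mul, Subgroup.coe_inv, Subgroup.coe_pow, mul_inv_rev _ (_ * _ * _),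
      mul_inv_cancel_left, inv_inv, z, ta_pow hR (hN.1 h)] at h7
    linarith
  have := key (2 * (l0 hR x + l0 hR y) + 1)
  nlinarith

theorem solv {w : List A} (hS : NS R w) [Group.IsSolvable (Loop R w)] (x y : Loop R w) :
    x * y = y * x := by
  classical
  obtain ⟨n, hn⟩ := Group.IsSolvable.solvable (G := Loop R w)
  suffices ∀ n, derivedSeries (Loop R w) (n + 1) = ⊥ → commutator (Loop R w) = ⊥ by
    have := this n (eq_bot_iff.2 ((derivedSeries_antitone _ n.le_succ).trans hn.le))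
    exact commutatorElement_eq_one_iff_mul_comm.1
      (this.le (Subgroup.commutator_mem_commutator trivial trivial))
  intro n hn
  induction n with
  | zero => exact hn
  | succ n ih =>
  refine ih (eq_bot_iff.2 (Subgroup.commutator_le.2 fun x hx y hy => by_contra fun h => ?_))
  let N := (derivedSeries (Loop R w) (n + 1)).map (Loop R w).subtype
  have hN : NA R w N := ⟨Subgroup.map_subtype_le _, by
    rintro g hg _ ⟨a, ha, rfl⟩
    exact ⟨_, (derivedSeries_normal _ _).conj_mem' a ha ⟨g, hg⟩, rfl⟩, by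
    rintro _ ⟨a, ha, rfl⟩ _ ⟨b, hb, rfl⟩
    exact (commutatorElement_eq_one_iff_commute.1
      (hn.le (Subgroup.commutator_mem_commutator ha hb))).map _⟩
  have h1 : ⁅x.1, y.1⁆ ∈ N := ⟨_, Subgroup.commutator_mem_commutator hx hy, rfl⟩
  obtain ⟨γ, u, v, η, k1, k2, k3, k4⟩ := tight hR (hN.1 h1) fun e => h (Subtype.ext e)
  have k5 := fun g => lemS hR hS hN k1 k2 k4 (k3 ▸ h1) (g := g)
  have c : ∀ {α β}, Pth R u u α → Pth R v v β → ∀ t, Rw v α * (Lw u β * t) = Lw u β * (Rw v α * t) :=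
    fun h h' t => by rw [← mul_assoc, inter h h', mul_assoc]
  let f : List A → U R → U R → U R := fun _ α β => γ⁻¹ * (Lw u β * Rw v α) * γ
  have fm : ∀ {α β α' β'}, Pth R u u α → Pth R v v β' →
      f [] α β * f [] α' β' = f [] (α * α') (β * β') := fun h h' => by simp [f, mul_assoc, c h h']
  have fi : ∀ {α β}, Pth R u u α → Pth R v v β → (f [] α β)⁻¹ = f [] α⁻¹ β⁻¹ := fun h h' =>
    inv_eq_of_mul_eq_one_right (by rw [fm h h'.inv]; simp [f])
  let N' : Subgroup (U R) :=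
    { carrier := {β | Pth R v v β ∧ ∃ α, Pth R u u α ∧ f [] α β ∈ N}
      one_mem' := ⟨.one _, 1, .one _, by simp [f]⟩
      mul_mem' := fun ⟨h1, α, h2, h3⟩ ⟨h4, α', h5, h6⟩ =>
        ⟨h1.mul h4, _, h2.mul h5, fm h2 h4 ▸ mul_mem h3 h6⟩
      inv_mem' := fun ⟨h1, α, h2, h3⟩ => ⟨h1.inv, _, h2.inv, fi h2 h1 ▸ inv_mem h3⟩ }
  have inj : ∀ {α β α' β'}, Pth R u u α → Pth R v v β → Pth R u u α' → Pth R v v β' →
      f [] α β = f [] α' β' → β = β' := fun h1 h2 h3 h4 e => by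
    rw [← mul_inv_eq_one, fi h3 h4, fm h1 h4.inv] at e
    exact mul_inv_eq_one.1 (split_inj hR (h1.mul h3.inv) (h2.mul h4.inv) (by
      simpa [f, mul_assoc] using congrArg (γ * · * γ⁻¹) e)).2
  have hN' : NA R v N' := ⟨fun _ h => h.1, fun g hg a ⟨h1, α, h2, h3⟩ => ⟨(hg.inv.mul h1).mul hg,
    α, h2, by simpa only [fi (.one _) hg, fm (Pth.inv (.one _)) h1, fm h2 hg, inv_one, one_mul, mul_one, fm (.one _) h1] using (hN.2.1 (f [] 1 g)
      ((k1.inv.mul ((hg.L u).mul ((Pth.one u).R' v))).mul k1) _ h3)⟩,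
    fun a ⟨h1, α, h2, h3⟩ b ⟨h4, α', h5, h6⟩ => inj (h2.mul h5) (h1.mul h4) (h5.mul h2) (h4.mul h1)
      (by rw [← fm h2 h4, ← fm h5 h1, (hN.2.2 _ h3 _ h6).eq])⟩
  obtain ⟨α, β, k6, k7, k8⟩ := k5 _ x.2
  obtain ⟨α', β', k9, k10, k11⟩ := k5 _ y.2
  have h2 : ⁅x.1, y.1⁆ = f [] ⁅α, α'⁆ ⁅β, β'⁆ := by
    change x.1 = f [] α β at k8
    change y.1 = f [] α' β' at k11
    rw [k8, k11, commutatorElement_def, fi k6 k7, fi k9 k10, fm k6 k10, fm (k6.mul k9) k7.inv,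
      fm ((k6.mul k9).mul k6.inv) k10.inv]
    rfl
  have h3 : Pth R u u ⁅α, α'⁆ := ((k6.mul k9).mul k6.inv).mul k9.inv
  have h4 : Pth R v v ⁅β, β'⁆ := ((k7.mul k10).mul k7.inv).mul k10.inv
  refine k4 (inj h3 h4 (.one _) k2 (by rw [← h2, k3]; simp [f]) ▸ dist hR (fun l p r g α β h5 h6 =>
    hS (u ++ l) p r _ _ β (by simpa using (h5.L u).mul k1) (by simpa using h6.L u)) hN' k7 k10
    ⟨h4, _, h3, h2 ▸ h1⟩)

end Pool.Agent.H65.Squier
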