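import Pool.Agent.H65.Sol3
import Pool.Agent.H65.SquierAb

/-! A Heisenberg-type extension attached to a crossed homomorphism; untouched ends of diagrams. -/

namespace Pool.Agent.H65.Squier

open scoped commutatorElement

section

variable {G X : Type} [Group G] [MulAction G X]

noncomputable def ln (f : X → ℤ) : (X →₀ ℤ) →ₗ[ℤ] ℤ := Finsupp.linearCombination ℤ f

@[ext] structure Hs (c : G → X →₀ ℤ) : Type where
  g : G
  m : (X → ℤ) → (X → ℤ) → ℤ

theorem fp_heis [h : Group.IsFinitelyPresented G] (c : G → X →₀ ℤ)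
    (hc : ∀ g g' f, ln f (c (g * g')) = ln f (c g) + ln (fun x => f (g • x)) (c g')) :
    ∃ S : Set (X × X), S.Finite ∧ ∀ (x y : G) (f₁ f₂ : X → ℤ), Commute x y →
      (∀ z, f₁ (x • z) = f₁ z) → (∀ z, f₁ (y • z) = f₁ z) → (∀ z, f₂ (x • z) = f₂ z) →
      (∀ z, f₂ (y • z) = f₂ z) → (∀ k : G, ∀ p ∈ S, f₁ (k • p.1) * f₂ (k • p.2) = 0) →
      ln f₁ (c x) * ln f₂ (c y) = ln f₁ (c y) * ln f₂ (c x) := by
  have c1 : ∀ f, ln f (c 1) = 0 := fun f => by simpa using hc 1 1 f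
  let _ : Mul (Hs c) := ⟨fun p q => ⟨p.g * q.g, fun f₁ f₂ => p.m f₁ f₂ +
    q.m (fun x => f₁ (p.g • x)) (fun x => f₂ (p.g • x)) +
      ln f₁ (c p.g) * ln (fun x => f₂ (p.g • x)) (c q.g)⟩⟩
  let _ : One (Hs c) := ⟨⟨1, 0⟩⟩
  let _ : Inv (Hs c) := ⟨fun p => ⟨p.g⁻¹, fun f₁ f₂ =>
    - p.m (fun x => f₁ (p.g⁻¹ • x)) (fun x => f₂ (p.g⁻¹ • x)) -
      ln f₁ (c p.g⁻¹) * ln (fun x => f₂ (p.g⁻¹ • x)) (c p.g)⟩⟩
  have mg : ∀ p q : Hs c, (p * q).g = p.g * q.g := fun _ _ => rfl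
  have mm : ∀ (p q : Hs c) f₁ f₂, (p * q).m f₁ f₂ = p.m f₁ f₂ +
    q.m (fun x => f₁ (p.g • x)) (fun x => f₂ (p.g • x)) +
      ln f₁ (c p.g) * ln (fun x => f₂ (p.g • x)) (c q.g) := fun _ _ _ _ => rfl
  have ig : ∀ p : Hs c, p⁻¹.g = p.g⁻¹ := fun _ => rfl
  have im : ∀ (p : Hs c) f₁ f₂, p⁻¹.m f₁ f₂ = - p.m (fun x => f₁ (p.g⁻¹ • x))
    (fun x => f₂ (p.g⁻¹ • x)) - ln f₁ (c p.g⁻¹) * ln (fun x => f₂ (p.g⁻¹ • x)) (c p.g) :=
    fun _ _ _ => rfl
  let _ : Group (Hs c) := Group.ofLeftAxioms (fun p q r => Hs.ext (mul_assoc _ _ _) (by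
      ext f₁ f₂
      simp only [mm, mg, hc, mul_smul]
      ring)) (fun p => Hs.ext (one_mul _) (by
      ext f₁ f₂
      change 0 + p.m (fun x => f₁ ((1 : G) • x)) (fun x => f₂ ((1 : G) • x)) + ln f₁ (c 1) * _ = _
      simp [c1])) fun p => Hs.ext (inv_mul_cancel _) (by
      ext f₁ f₂
      change _ = 0
      simp only [mm, im, ig]
      ring)
  obtain ⟨n, φ, h1, T, h2, h3⟩ := h
  let Φ : FreeGroup (Fin n) →* Hs c := FreeGroup.lift fun i => ⟨φ (.of i), 0⟩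
  have t : ∀ u v : X →₀ ℤ, ∀ g : G, ∃ S : Set (X × X), S.Finite ∧ ∀ f₁ f₂ : X → ℤ,
      (∀ p ∈ S, f₁ p.1 * f₂ p.2 = 0) → ln f₁ u * ln (fun x => f₂ (g • x)) v = 0 := fun u v g =>
    ⟨_, ((u.support ×ˢ v.support).finite_toSet).image fun p => (p.1, g • p.2), fun f₁ f₂ h => by
      simp only [ln, Finsupp.linearCombination_apply, Finsupp.sum, Finset.sum_mul_sum]
      refine Finset.sum_eq_zero fun a ha => Finset.sum_eq_zero fun b hb => ?_
      rw [smul_mul_smul_comm, h (a, g • b) ⟨(a, b), Finset.mem_coe.2 (Finset.mk_mem_product ha hb), rfl⟩, smul_zero]⟩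
  have key : ∀ w, (Φ w).g = φ w ∧ ∃ S : Set (X × X), S.Finite ∧ ∀ f₁ f₂ : X → ℤ,
      (∀ p ∈ S, f₁ p.1 * f₂ p.2 = 0) → (Φ w).m f₁ f₂ = 0 := fun w => by
    induction w using FreeGroup.induction_on with
    | C1 => exact ⟨(map_one φ).symm, ∅, Set.finite_empty, fun _ _ _ => rfl⟩
    | of i => simp only [Φ, FreeGroup.lift_apply_of]; exact ⟨trivial, ∅, Set.finite_empty, by simp⟩
    | inv_of i ih =>
      obtain ⟨S, h4, h5⟩ := t (c (φ (.of i))⁻¹) (c (φ (.of i))) (φ (.of i))⁻¹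
      simp only [Φ, map_inv, FreeGroup.lift_apply_of, ig, im]
      exact ⟨trivial, S, h4, fun f₁ f₂ h => by simp [h5 f₁ f₂ h]⟩
    | mul x y hx hy =>
      obtain ⟨e1, S, h4, h5⟩ := hx
      obtain ⟨e2, S', h6, h7⟩ := hy
      obtain ⟨S'', h8, h9⟩ := t (c (Φ x).g) (c (Φ y).g) (Φ x).g
      refine ⟨by rw [map_mul, mg, e1, e2, map_mul], _, (h4.union (h6.image fun p =>
        ((Φ x).g • p.1, (Φ x).g • p.2))).union h8, fun f₁ f₂ h => ?_⟩
      rw [map_mul, mm, h5 _ _ fun p hp => h p (.inl (.inl hp)), h9 _ _ fun p hp => h p (.inr hp),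
        h7 _ _ fun p hp => h (_ • p.1, _ • p.2) (.inl (.inr ⟨p, hp, rfl⟩))]
      rfl
  choose S h4 h5 using fun w => (key w).2
  refine ⟨⋃ w ∈ T, S w, h2.biUnion fun w _ => h4 w, fun x y f₁ f₂ e k1 k2 k3 k4 k5 => ?_⟩
  let K : Subgroup (Hs c) :=
    { carrier := {p | p.g = 1 ∧ ∀ k : G, p.m (fun x => f₁ (k • x)) (fun x => f₂ (k • x)) = 0}
      one_mem' := ⟨rfl, fun _ => rfl⟩
      mul_mem' := fun h h' => ⟨by rw [mg, h.1, h'.1, mul_one], fun k => by simp [mm, h.1, h.2, h'.2, c1]⟩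
      inv_mem' := fun h => ⟨by rw [ig, h.1, inv_one], fun k => by simp [im, h.1, h.2, c1]⟩ }
  have : K.Normal := ⟨fun p h q => ⟨by simp [mg, ig, h.1], fun k => by
    have := h.2 (k * q.g)
    have h6 := congrArg (·.m (fun x => f₁ (k • x)) fun x => f₂ (k • x)) (mul_inv_cancel q)
    simp only [mm, mg, h.1, mul_one, c1, mul_zero, add_zero, mul_smul] at this h6 ⊢
    rw [this, add_zero]
    exact h6⟩⟩
  obtain ⟨x, rfl⟩ := h1 x
  obtain ⟨y, rfl⟩ := h1 y
  have h6 : Subgroup.normalClosure T ≤ K.comap Φ := Subgroup.normalClosure_le_normal fun w hw =>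
    ⟨(key w).1.trans (h3.le (Subgroup.subset_normalClosure hw)), fun k => h5 _ _ _ fun p hp =>
      k5 k p (Set.mem_biUnion hw hp)⟩
  obtain ⟨h7, h8⟩ := h6 (h3.ge (show ⁅x, y⁆ ∈ φ.ker from (map_commutatorElement φ x y).trans
    e.commutator_eq))
  have h9 := congrArg (fun w => (Φ w).m f₁ f₂) (show ⁅x, y⁆ * (y * x) = x * y by
    simp [commutatorElement_def])
  have h10 := h8 1
  simp only [map_mul, mm, h7, one_smul, (key _).1, k1, k2, k3, k4, c1] at h9 h10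
  simp only [map_commutatorElement, e.commutator_eq, one_smul, c1] at h9 h10
  linarith

theorem nosolv {H : Type} [Group H] [Group.IsSolvable H] (θ : H × H →* H)
    (h : Function.Injective θ) (u : H) (hu : ∀ k, u * θ (k, 1) * u⁻¹ = θ (1, k)) (x : H) : x = 1 := by
  have h1 : ∀ n, derivedSeries H n ≤ ((derivedSeries H (n + 1)).comap θ).map (MonoidHom.fst H H) := by
    intro n
    induction n with
    | zero => exact fun k _ => ⟨(k, k⁻¹), by
        have : θ (k, k⁻¹) = ⁅θ (k, 1), u⁆ := by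
          rw [commutatorElement_def, mul_assoc, mul_assoc, ← mul_assoc u, ← map_inv, Prod.inv_mk,
            inv_one, hu, ← map_mul]
          simp
        exact Subgroup.mem_comap.2 (this ▸ Subgroup.commutator_mem_commutator trivial trivial), rfl⟩
    | succ n ih =>
      refine (Subgroup.commutator_mono ih ih).trans ?_
      rw [← Subgroup.map_commutator]
      exact Subgroup.map_mono (Subgroup.commutator_le.2 fun a ha b hb => Subgroup.mem_comap.2
        ((map_commutatorElement θ a b).symm ▸ Subgroup.commutator_mem_commutator ha hb))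
  obtain ⟨n, hn⟩ := Group.IsSolvable.solvable (G := H)
  induction n with
  | zero => exact hn.le trivial
  | succ n ih =>
    refine ih (eq_bot_iff.2 fun k hk => ?_)
    obtain ⟨p, h2, rfl⟩ := h1 n hk
    rw [h ((hn.le h2).trans (map_one θ).symm)]
    rfl

end

variable {A : Type} {R : Set (List A × List A)} (hR : ∀ r ∈ R, r.1 ≠ [] ∧ r.2 ≠ [])

include hR

theorem Rp.st {w : List A} {n n' : ℕ} {s s' : List (Wi A)} {g : U R} (h : Rp R w n s g)
    (h' : Rp R w n' s' g) (e : lab s = lab s') : s = s' := by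
  obtain ⟨l, h1, h2, -, rfl⟩ := h.list
  obtain ⟨k, h3, h4, -, rfl⟩ := h'.list
  exact run_det hR h1 (e ▸ h3) (h2.trans h4.symm)

theorem outs_top {r : List A × List A} (hr : r ∈ R) (c : Bool) (i : List (Wi A)) :
    outs r c i ≠ [] ∧ ∀ x, .top x ∉ outs r c i :=
  ⟨by simp [outs, sd_ne hR hr], by simp [outs, List.mem_mapIdx, Wi.out]⟩

theorem Rp.TL {w : List A} {n : ℕ} {s : List (Wi A)} {g : U R} (h : Rp R w n s g) :
    (w ≠ [] → s ≠ []) ∧ (∀ x t, s = .top x :: t → ∃ w' g', w = x :: w' ∧ Rp R w' n t g') ∧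
      ∀ x t, s = t ++ [.top x] → ∃ w' g', w = w' ++ [x] ∧ Rp R w' n t g' := by
  induction h with
  | init =>
    refine ⟨by simp, fun x t h => ?_, fun x t h => ?_⟩
    · obtain ⟨y, w, rfl, h1, rfl⟩ := List.map_eq_cons_iff.1 h
      exact ⟨w, 1, by rw [Wi.top.inj h1], .init⟩
    · obtain ⟨w, v, rfl, rfl, h1⟩ := List.map_eq_append_iff.1 h
      obtain ⟨y, rfl, h2⟩ := List.map_eq_singleton_iff.1 h1
      exact ⟨w, 1, by rw [Wi.top.inj h2], .init⟩
  | step sa i sb r c hr h1 h2 _ ih =>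
    obtain ⟨h3, h4⟩ := outs_top hR hr c i
    refine ⟨by simp [h3], fun x t h => ?_, fun x t h => ?_⟩
    · rcases sa with _ | ⟨y, sa⟩
      · obtain ⟨y, v, e⟩ := List.exists_cons_of_ne_nil h3
        exact (h4 x (by simp_all)).elim
      obtain ⟨rfl, rfl⟩ := List.cons.inj h
      obtain ⟨w, g, rfl, h5⟩ := ih.2.1 x _ rfl
      exact ⟨w, _, rfl, .step sa i sb r c hr h1 h2 h5⟩
    · rcases sb.eq_nil_or_concat' with rfl | ⟨sb, y, rfl⟩
      · obtain e | ⟨v, y, e⟩ := (outs r c i).eq_nil_or_concat'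
        · exact (h3 e).elim
        rw [e, List.append_nil, ← List.append_assoc] at h
        exact (h4 x (by simp [e, (List.cons.inj (List.append_inj_right' h rfl)).1])).elim
      rw [← List.append_assoc] at h
      obtain ⟨rfl, ⟨⟩⟩ := List.append_inj' h rfl
      obtain ⟨w, g, rfl, h5⟩ := ih.2.2 x _ (List.append_assoc _ _ _).symm
      exact ⟨w, _, rfl, .step sa i sb r c hr h1 h2 h5⟩

theorem TLm {u : List A} : ∀ {a n s g t t'}, Rp R (u ++ a) n s g → u.map .top ++ t = s ++ t' →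
    ∃ a' g', lab s = u ++ a' ∧ Pth R a a' g' := by
  induction u with
  | nil => exact fun h _ => h.list.elim fun l h => ⟨_, _, rfl, h.1.pth⟩
  | cons x u ih =>
    intro a n s g t t' h e
    obtain ⟨y, s, rfl⟩ := List.exists_cons_of_ne_nil ((h.TL hR).1 (by simp))
    obtain ⟨rfl, e'⟩ := List.cons.inj e
    obtain ⟨_, g', ⟨⟩, h1⟩ := (h.TL hR).2.1 x s rfl
    obtain ⟨a', g'', h2, h3⟩ := ih h1 e'
    exact ⟨a', g'', congrArg (x :: ·) h2, h3⟩

theorem TRm {u : List A} : ∀ {a n s g t t'}, Rp R (a ++ u) n s g → t ++ u.map .top = t' ++ s →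
    ∃ a' g', lab s = a' ++ u ∧ Pth R a a' g' := by
  induction u using List.reverseRecOn with
  | nil => exact fun h _ => h.list.elim fun l h => ⟨_, _, (List.append_nil _).symm, by
      simpa using h.1.pth⟩
  | append_singleton u x ih =>
    intro a n s g t t' h e
    obtain rfl | ⟨s, y, rfl⟩ := s.eq_nil_or_concat'
    · exact ((h.TL hR).1 (by simp) rfl).elim
    rw [List.map_append, ← List.append_assoc, ← List.append_assoc] at e
    obtain ⟨e', ⟨⟩⟩ := List.append_inj' e rfl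
    obtain ⟨_, g', h0, h1⟩ := (h.TL hR).2.2 x s rfl
    rw [← List.append_assoc] at h0
    obtain rfl := List.append_cancel_right h0
    obtain ⟨a', g'', h2, h3⟩ := ih h1 e'
    exact ⟨a', g'', by rw [lab_append, h2, ← List.append_assoc]; rfl, h3⟩

theorem Lam {u a a' v v' y' : List A} {ε α β : U R} (h1 : Pth R (a ++ v) y' ε)
    (h2 : Pth R (u ++ a) (u ++ a') α) (h3 : Pth R v v' β) (e : y' = a' ++ v')
    (h : Lw u ε = Lw (u ++ a') β * Rw v α) : eqv R a a' := by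
  obtain ⟨n, s, h4, rfl⟩ := h1.rp hR
  obtain ⟨m, s', h5, h6⟩ := h2.rp hR
  obtain ⟨k, t, h7, rfl⟩ := h3.rp hR
  have h8 := h4.left (t := u.map .top) (by simpa using Rp.init (R := R) (w := u ++ (a ++ v)))
  have h9 := h7.left (h5.right v)
  rw [h6, ← h, List.append_assoc] at h9
  rw [lab_top, mul_one] at h8
  obtain ⟨a₃, g, h10, h11⟩ := TLm hR h5 (h8.st hR h9 (by simp [e, h6]))
  exact ⟨g, List.append_cancel_left (h6.symm.trans h10) ▸ h11⟩

theorem Lam' {a a' d d' v y' : List A} {ε α β : U R} (h1 : Pth R (a ++ d) y' ε)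
    (h2 : Pth R a a' α) (h3 : Pth R (d ++ v) (d' ++ v) β) (e : y' = a' ++ d')
    (h : Rw v ε = Lw a' β * Rw (d ++ v) α) : eqv R d d' := by
  obtain ⟨n, s, h4, rfl⟩ := h1.rp hR
  obtain ⟨m, s', h5, rfl⟩ := h2.rp hR
  obtain ⟨k, t, h7, h6⟩ := h3.rp hR
  have h9 := h7.left (h5.right _)
  rw [← h, ← List.append_assoc] at h9
  obtain ⟨a₃, g, h10, h11⟩ := TRm hR h7 ((h4.right v).st hR h9 (by simp [e, h6]))
  exact ⟨g, List.append_cancel_right (h6.symm.trans h10) ▸ h11⟩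

theorem split0 {a a' c c' : List A} {α β : U R} (h1 : Pth R a a' α) (h2 : Pth R c c' β)
    (e : a ++ c = a' ++ c') (h : Lw a' β * Rw c α = 1) : a = a' := by
  obtain ⟨n, s, h3, rfl⟩ := h1.rp hR
  obtain ⟨m, t, h5, rfl⟩ := h2.rp hR
  have h7 := h5.left (h3.right c)
  rw [h] at h7
  have h8 := h7.det hR .init (by simp [e, lab_top])
  obtain rfl : n = 0 := by omega
  cases h3
  exact (lab_top _).symm

end Pool.Agent.H65.Squier
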