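import Pool.Agent.H65.Sol4

/-! Finitely presented solvable diagram groups are abelian. -/

namespace Pool.Agent.H65.Squier

variable {A : Type} {R : Set (List A × List A)}

variable (R) in
def hq : Setoid (Tr A × U R) where
  r x y := x.1.2.1 = y.1.2.1 ∧ ∃ α β, Pth R x.1.1 y.1.1 α ∧ Pth R x.1.2.2 y.1.2.2 β ∧
    y.2 = Lw (y.1.1 ++ x.1.2.1.1) β * Rw (x.1.2.1.1 ++ x.1.2.2) α * x.2
  iseqv := ⟨fun x => ⟨rfl, 1, 1, .one _, .one _, by simp⟩, fun ⟨h, α, β, h1, h2, h3⟩ =>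
    ⟨h.symm, α⁻¹, β⁻¹, h1.inv, h2.inv, by rw [h3, ← inter' h1 h2, ← h]; simp [mul_assoc]⟩,
    fun ⟨h, α, β, h1, h2, h3⟩ ⟨h', α', β', h4, h5, h6⟩ => ⟨h.trans h', α' * α, β' * β, h4.mul h1,
      h5.mul h2, by
        rw [h6, h3, ← h, mul_assoc, ← mul_assoc (Rw _ α'), ← mul_assoc (Rw _ α'), inter' h4 h2]
        simp [mul_assoc]⟩⟩

variable (R) in
/-- hyperplanes of the universal cover -/
def Hy : Type := Quotient (hq R)

def hy (t : Tr A) (g : U R) : Hy R := Quotient.mk _ (t, g)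

theorem hy_eq {a a' b b' : List A} {α β : U R} (r : List A × List A) (g : U R) (h1 : Pth R a a' α)
    (h2 : Pth R b b' β) : hy (a', r, b') (Lw (a' ++ r.1) β * Rw (r.1 ++ b) α * g) = hy (a, r, b) g :=
  Eq.symm (Quotient.sound (by exact ⟨rfl, α, β, h1, h2, rfl⟩))

theorem hy_ex {a a' b b' : List A} {r r' : List A × List A} {g g' : U R}
    (h : hy (a, r, b) g = hy (a', r', b') g') : r = r' ∧ ∃ α β, Pth R a a' α ∧ Pth R b b' β ∧
      g' = Lw (a' ++ r.1) β * Rw (r.1 ++ b) α * g := Quotient.exact h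

instance : MulAction (U R) (Hy R) where
  smul k := Quotient.map (fun x => (x.1, x.2 * k⁻¹)) fun _ _ ⟨h, α, β, h1, h2, h3⟩ =>
    ⟨h, α, β, h1, h2, by simp [h3, mul_assoc]⟩
  one_smul := by
    rintro ⟨x⟩
    exact congrArg (Quotient.mk _) (by simp)
  mul_smul k k' := by
    rintro ⟨x⟩
    exact congrArg (Quotient.mk _) (by simp [mul_assoc])

theorem smul_hy (k : U R) (t : Tr A) (g : U R) : k • hy t g = hy t (g * k⁻¹) := rfl

theorem exX : ∃ H : U R → U R → Hy R →₀ ℤ, (∀ k k' g, H (k * k') g = H k (k' * g) + H k' g) ∧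
    ∀ f t g, ln f (H (e R t) g) = f (hy t g) := by
  obtain ⟨H, H1, H2⟩ := cocycle (R := R) (M := Multiplicative (Hy R →₀ ℤ))
    (fun t g => .ofAdd (.single (hy t g) 1)) fun a b c r hr s hs g => by
      have h1 := hy_eq r g (.one a) (Pth.edge b c hs)
      have h2 := hy_eq s g (Pth.edge a b hr) (.one c)
      simp only [map_one, mul_one, one_mul, Lw_e, Rw_e, List.append_assoc] at h1 h2 ⊢
      rw [h1, h2, mul_comm]
  exact ⟨fun k g => (H k g).toAdd, fun k k' g => congrArg _ (H1 k k' g), by simp [H2, ln]⟩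

def Mid (P : Hy R × Hy R) (b : List A) : Prop := ∃ a r s c g,
  P = (hy (a, r, b ++ s.1 ++ c) g, hy (a ++ r.1 ++ b, s, c) g)

variable (hR : ∀ r ∈ R, r.1 ≠ [] ∧ r.2 ≠ [])

include hR

theorem Mid.uq {P : Hy R × Hy R} {b b' : List A} (h : Mid P b) (h' : Mid P b') : eqv R b b' := by
  obtain ⟨a, r, s, c, g, rfl⟩ := h
  obtain ⟨a', r', s', c', g', h⟩ := h'
  obtain ⟨⟨⟩, α, β, h1, h2, h3⟩ := Quotient.exact (Prod.ext_iff.1 h).1
  obtain ⟨⟨⟩, α', β', h4, h5, h6⟩ := Quotient.exact (Prod.ext_iff.1 h).2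
  refine Lam hR (u := a' ++ r.1) (v := s.1 ++ c) (by simpa using h2)
    (Pth.mul h4 (by simpa using (h1.R' (r.1 ++ b)).inv)) (h5.L s.1) (List.append_assoc _ _ _) ?_
  rw [h3, mul_left_inj, ← eq_mul_inv_iff_mul_eq] at h6
  simpa [Lw_Lw, Rw_Rw, mul_assoc] using h6

open Classical in
theorem ex_cn {p : List A} (hp : p ≠ []) {α : Loop R p} (h : α ∉ commutator _) : ∃ (t : Tr A)
    (F : U R →* Multiplicative ℤ), F α ≠ 1 ∧ eqv R p (t.1 ++ t.2.1.1 ++ t.2.2) ∧
      ∀ a b, ∀ r ∈ R, (F (e R (a, r, b))).toAdd = if (nf R a, r, nf R b) = t then 1 else 0 := by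
  have h1 : (Th α.1).toAdd ≠ 0 := fun e => by
    obtain ⟨ρ, c, H⟩ := exists_retr hR ⟨p, hp⟩
    obtain ⟨g, hg⟩ := exists_iota hR (w := ⟨p, hp⟩) α.2
    have h3 := ab_eq α.1
    rw [e, map_zero, ← hg] at h3
    have h4 := congrArg (Abelianization.map ρ) (congrArg Additive.toMul h3)
    change Abelianization.map ρ 1 = Abelianization.map ρ (Abelianization.of _) at h4
    rw [map_one, Abelianization.map_of, H, map_mul, map_mul, map_inv, inv_mul_cancel_comm] at h4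
    have h5 := Subgroup.mem_map_of_mem ((iota _).codRestrict (Loop R p) iota_pth)
      ((QuotientGroup.eq_one_iff _).1 h4.symm)
    rw [map_commutator_eq] at h5
    exact h (Subgroup.commutator_mono le_top le_top (by convert h5 using 1; exact Subtype.ext hg.symm))
  obtain ⟨i, hi⟩ := Finset.nonempty_iff_ne_empty.2 (mt (FreeAbelianGroup.support_eq_empty).1 h1)
  rw [FreeAbelianGroup.mem_support_iff] at hi
  let F : U R →* Multiplicative ℤ := (FreeAbelianGroup.coeff i).toMultiplicative.comp Th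
  have hF : ∀ a b, ∀ r ∈ R, (F (e R (a, r, b))).toAdd = (if .inl (a ++ r.2 ++ b) = i then 1 else 0) -
      (if .inl (a ++ r.1 ++ b) = i then 1 else 0) + if .inr (nf R a, r, nf R b) = i then 1 else 0 :=
    fun a b r hr => by simp [F, Th, hr, FreeAbelianGroup.coeff, Finsupp.single_apply]
  rcases i with v | t
  · have : ∀ {x y g}, Pth R x y g → (F g).toAdd = (if y = v then 1 else 0) - if x = v then 1 else 0 :=
      fun h => by
        induction h with
        | one => simp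
        | pos a r b hr _ ih => simp [hF a b r hr, ih]
        | neg a r b hr _ ih => simp [hF a b r hr, ih]
    exact (hi ((this α.2).trans (sub_self _))).elim
  have h2 : ∀ {y g}, Pth R p y g → F g ≠ 1 → eqv R p (t.1 ++ t.2.1.1 ++ t.2.2) := fun h => by
    have k : ∀ a b g, ∀ r ∈ R, Pth R p (a ++ r.1 ++ b) g → F (e R (a, r, b)) ≠ 1 →
        eqv R p (t.1 ++ t.2.1.1 ++ t.2.2) := fun a b g r hr h h' => by
      obtain rfl : (nf R a, r, nf R b) = t := by_contra fun n => h' (by simpa [n] using hF a b r hr)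
      exact ⟨_, (pth2 (hp_spec R a) (hp_spec R b) _).inv.mul h⟩
    induction h with
    | one => simp
    | pos a r b hr h ih => exact fun n => by_contra fun m => n (by
        rw [map_mul, not_not.1 (mt ih m), not_not.1 (mt (k a b _ r hr h) m), mul_one])
    | neg a r b hr h ih => exact fun n => by_contra fun m => n (by
        rw [map_mul, map_inv, not_not.1 (mt ih m), not_not.1 (mt (k a b _ r hr
          ((Pth.edge a b hr).inv.mul h)) m), inv_one, mul_one])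
  exact ⟨t, F, hi, h2 α.2 hi, fun a b r hr => by simpa using hF a b r hr⟩

def Ph (γ : U R) (l p v : List A) (t : Tr A) : Set (Hy R) := {H | ∃ a d δ, nf R a = t.1 ∧
  nf R d = t.2.2 ∧ Pth R p (a ++ t.2.1.1 ++ d) δ ∧ H = hy (l ++ a, t.2.1, d ++ v) (Lw l (Rw v δ) * γ)}

omit hR in
theorem Ph.smul {γ α β ε : U R} {l p v : List A} {t : Tr A} (h1 : Pth R l l α) (h2 : Pth R p p β)
    (h3 : Pth R v v ε) {H : Hy R} (h : H ∈ Ph γ l p v t) :
    (γ⁻¹ * (Lw (l ++ p) ε * Lw l (Rw v β) * Rw (p ++ v) α) * γ)⁻¹ • H ∈ Ph γ l p v t := by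
  obtain ⟨a, d, δ, h4, h5, h6, rfl⟩ := h
  refine ⟨a, d, δ * β, h4, h5, h6.mul h2, ?_⟩
  rw [smul_hy, ← hy_eq _ (Lw l (Rw v (δ * β)) * γ) (h1.R' a) (h3.L d)]
  congr 1
  have k1 := inter (h6.L l) h3
  have k2 := inter h1 ((h6.mul h2).R' v)
  simp only [Lw_Lw, Rw_Rw, Lw_Rw, List.append_assoc, map_mul, mul_assoc, inv_inv,
    mul_inv_cancel_left] at k1 k2 ⊢
  rw [← mul_assoc (Rw _ (Lw l δ)), k1, mul_assoc, mul_right_inj]
  simpa only [mul_assoc] using congrArg (· * γ) k2.symm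

theorem Ph.mid {γ δ : U R} {l p v a d : List A} {t : Tr A} {r : List A × List A}
    (h1 : Pth R p (a ++ r.1 ++ d) δ) :
    hy (l ++ a, r, d ++ v) (Lw l (Rw v δ) * γ) ∈ Ph γ l p v t ↔ (nf R a, r, nf R d) = t := by
  refine ⟨?_, by rintro rfl; exact ⟨a, d, δ, rfl, rfl, h1, rfl⟩⟩
  obtain ⟨a₀, ρ, d₀⟩ := t
  rintro ⟨a', d', δ', rfl, rfl, h2, h3⟩
  obtain ⟨rfl, α, β, h4, h5, h6⟩ := hy_ex h3
  rw [← mul_assoc, mul_left_inj, ← mul_inv_eq_iff_eq_mul] at h6
  obtain ⟨_, h7⟩ := Lam hR (v := r.1 ++ (d ++ v)) (by simpa using (h2.mul h1.inv).R' v) h4 (h5.L r.1)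
    rfl (by simpa [Lw_Lw] using h6)
  obtain ⟨_, h8⟩ := Lam' hR (a := l ++ a ++ r.1) (by simpa using (h2.mul h1.inv).L l) (h4.R' r.1) h5
    (List.append_assoc _ _ _).symm (by simpa [Rw_Rw, Lw_Rw] using h6)
  rw [nf_congr h7, nf_congr h8]

theorem Ph.right {γ δ : U R} {l p v a d : List A} {t : Tr A} {r : List A × List A} (hr : r ∈ R)
    (h1 : Pth R v (a ++ r.1 ++ d) δ) : hy (l ++ p ++ a, r, d) (Lw (l ++ p) δ * γ) ∉ Ph γ l p v t := by
  obtain ⟨a₀, ρ, d₀⟩ := t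
  rintro ⟨a', d', δ', -, -, h2, h3⟩
  obtain ⟨rfl, α, β, h4, h5, h6⟩ := hy_ex h3
  rw [← mul_assoc, mul_left_inj, ← mul_inv_eq_iff_eq_mul] at h6
  have h7 := split0 hR ((h4.mul ((h2.L l).R' a).inv).R' r.1) ((h1.L d').mul h5) (by simp) (by
    have := inter (h2.L l) h1
    simp only [map_mul, map_inv, Lw_Lw, Rw_Rw, Lw_Rw, List.append_assoc] at this h6 ⊢
    rw [mul_assoc, ← mul_assoc (Lw _ β), ← h6, ← mul_assoc, ← mul_assoc, ← this]
    simp)
  simp [(hR r hr).1] at h7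

theorem ns {w : List A} [Group.IsFinitelyPresented (Loop R w)] [Group.IsSolvable (Loop R w)] :
    NS R w := by
  classical
  intro l p r g α β hg hα hβ hp
  let P : ℕ → List A := fun n => (List.replicate n p).flatten
  have P1 : ∀ n m, P (n + m) = P n ++ P m := fun n m => by
    simp only [P, List.replicate_add, List.flatten_append]
  have P2 : ∀ n, P (n + 1) = p ++ P n := fun _ => rfl
  have P3 : ∀ n, eqv R w (l ++ (P n ++ r)) := fun n => by
    induction n with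
    | zero => exact ⟨g, hg⟩
    | succ n ih => exact ⟨_, Pth.mul (by simpa [P2] using hα.R' (P n ++ r)) ih.choose_spec⟩
  have emb : ∀ n, Group.IsSolvable (Loop R (P n)) := fun n => by
    obtain ⟨γ, h⟩ := P3 n
    exact Group.isSolvable_of_isSolvable_injective (f := ((MulAut.conj γ⁻¹).toMonoidHom.comp
      (((Lw l).comp (Rw r)).comp (Loop R (P n)).subtype)).codRestrict (Loop R w) fun k => by
        simpa using show _ ∈ Loop R w from (h.inv.mul ((Pth.R' k.2 r).L l)).mul h)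
      ((injective_iff_map_eq_one _).2 fun k e => Subtype.ext (R_inj hR k.2 (L_inj hR (a := l)
        (Pth.R' k.2 r) (by simpa [mul_assoc] using congrArg (fun k => γ * k.1 * γ⁻¹) e))))
  have hp0 : p ≠ [] := fun e => not_act hR (e ▸ hp)
  obtain ⟨x₀, -, hx⟩ : ∃ x ∈ (⊤ : Subgroup (Loop R p)), x ∉ commutator _ := by
    have := emb 1
    rw [show P 1 = p by simp [P]] at this
    have : Nontrivial (Loop R p) := hp.elim fun k h => ⟨⟨k, h.1⟩, 1, fun e => h.2 (congrArg Subtype.val e)⟩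
    exact SetLike.exists_of_lt (Group.IsSolvable.commutator_lt_top_of_nontrivial _)
  obtain ⟨t, F, h1, ⟨δ₀, h2⟩, h3⟩ := ex_cn hR hp0 hx
  obtain ⟨H, H1, H2⟩ := exX (R := R)
  have H0 : ∀ g, H 1 g = 0 := fun g => by simpa using H1 1 1 g
  have H3 : ∀ k g, H k⁻¹ g = - H k (k⁻¹ * g) := fun k g =>
    eq_neg_of_add_eq_zero_right (by rw [← H1, mul_inv_cancel, H0])
  have H4 : ∀ {x y k}, Pth R x y k → ∀ f g k', ln f (H k (g * k'⁻¹)) =
      ln (fun z => f (k' • z)) (H k g) := fun h f g k' => by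
    induction h with
    | one => simp [H0]
    | pos a r b _ _ ih => simp only [H1, map_add, ih, H2, smul_hy, mul_assoc]
    | neg a r b _ _ ih => simp only [H1, map_add, ih, H3, map_neg, H2, smul_hy, mul_assoc]
  have H5 : ∀ (j : U R →* U R) (F : U R →* Multiplicative ℤ) f γ q, (∀ a b δ, ∀ r ∈ R,
      Pth R q (a ++ r.1 ++ b) δ → ln f (H (j (e R (a, r, b))) (j δ * γ)) = (F (e R (a, r, b))).toAdd) →
      ∀ κ, Pth R q q κ → ln f (H (j κ) γ) = (F κ).toAdd := fun j F f γ q h κ => by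
    generalize hq : q = q'
    rw [← hq]
    nth_rw 2 [hq]
    clear hq
    intro hκ
    induction hκ with
    | one => simp [H0]
    | pos a r b hr h' ih => simp only [map_mul, H1, map_add, ih, h a b _ r hr h', toAdd_mul]
    | neg a r b hr h' ih =>
      have := h a b _ r hr ((Pth.edge a b hr).inv.mul h')
      simp only [map_mul, map_inv, mul_assoc] at this
      simp only [map_mul, map_inv, H1, map_add, ih, H3, map_neg, this, toAdd_mul, toAdd_inv]
  have H6 : ∀ {z γ k} f, Pth R w z γ → Pth R z z k → (∀ y, f ((γ⁻¹ * k * γ) • y) = f y) →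
      ln f (H (γ⁻¹ * k * γ) (γ⁻¹ * k * γ)⁻¹) = ln f (H k γ) := fun {z γ k} f h h' e => by
    have h4 := H4 ((h.inv.mul h').mul h) f 1 (γ⁻¹ * k * γ)
    have h5 := H4 h f (γ⁻¹ * k * γ) (γ⁻¹ * k * γ)
    simp only [e, one_mul, mul_inv_cancel] at h4 h5
    rw [h4, H1, H1, H3, mul_one, ← mul_assoc, map_add, map_add, map_neg, h5]
    abel
  obtain ⟨S, hS, key⟩ := fp_heis (G := Loop R w) (fun k => H k.1 k.1⁻¹) fun k k' f => by
    rw [Subgroup.coe_mul, H1, mul_inv_rev, mul_inv_cancel_left, map_add, H4 k'.2]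
    rfl
  have ex : ∀ n, ∃ Q ∈ S, ∃ b, Mid Q b ∧ eqv R b (t.2.2 ++ P n ++ t.1) := fun n => by
    by_contra! hn
    obtain ⟨γ, h⟩ := P3 (1 + n + 1)
    simp only [P1, show P 1 = p by simp [P], List.append_assoc] at h
    have inv : ∀ {l' v α' β' ε'} k, Pth R l' l' α' → Pth R p p β' → Pth R v v ε' →
        k = γ⁻¹ * (Lw (l' ++ p) ε' * Lw l' (Rw v β') * Rw (p ++ v) α') * γ → ∀ z,
        (Ph γ l' p v t).indicator (1 : Hy R → ℤ) (k • z) = (Ph γ l' p v t).indicator 1 z := by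
      rintro l' v α' β' ε' _ k1 k2 k3 rfl z
      refine Set.indicator_eq_indicator ⟨fun h => (inv_smul_smul _ z).subst
        (Ph.smul k1 k2 k3 h), fun h => ?_⟩ rfl
      convert Ph.smul k1.inv k2.inv k3.inv h using 2
      have c1 := inter (k2.L l') k3
      have c2 := inter k1 ((k3.L p).mul (k2.R' v))
      simp only [map_mul, map_inv, Lw_Lw, Lw_Rw, mul_inv_rev, inv_inv, mul_assoc] at c1 c2 ⊢
      rw [← mul_assoc (Rw v _) (Lw _ ε'), c1]
      simpa only [mul_assoc, mul_right_inj] using congrArg (· * γ) c2.symm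
    have E : ∀ l' v, ln ((Ph γ l' p v t).indicator 1) (H (Lw l' (Rw v x₀)) γ) = (F x₀).toAdd :=
      fun l' v => H5 ((Lw l').comp (Rw v)) F _ γ p (fun a b δ r hr k => by
        simp [H2, h3 a b r hr, Set.indicator_apply, Ph.mid hR k]) _ x₀.2
    have hx := (Pth.R' x₀.2 (P n ++ (p ++ r))).L l
    have hy := (Pth.R' x₀.2 r).L (l ++ (p ++ P n))
    rw [List.append_assoc, List.append_assoc] at hy
    let x := γ⁻¹ * Lw l (Rw (P n ++ (p ++ r)) x₀) * γ
    let y := γ⁻¹ * Lw (l ++ (p ++ P n)) (Rw r x₀) * γ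
    have i1 := inv x (.one l) x₀.2 (.one (P n ++ (p ++ r))) (by simp [x])
    have i2 := inv y (.one l) (.one p) ((Pth.R' x₀.2 r).L (P n)) (by simp [Lw_Lw, y])
    have i3 := inv x ((Pth.R' x₀.2 (P n)).L l) (.one p) (.one r) (by simp [Lw_Rw, Rw_Rw, x])
    have i4 := inv y (.one (l ++ (p ++ P n))) x₀.2 (.one r) (by simp [y])
    have := key ⟨_, (h.inv.mul hx).mul h⟩ ⟨_, (h.inv.mul hy).mul h⟩ _ _ (Subtype.ext (by
      simpa [mul_assoc, Lw_Rw, Rw_Rw] using congrArg (· * γ)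
        (inter ((Pth.R' x₀.2 (P n)).L l) (Pth.R' x₀.2 r)))) i1 i2 i3 i4 fun k Q hQ => by
      by_contra h4
      obtain ⟨⟨a, d, δ, k1, k2, k3, k4⟩, a', d', δ', k5, k6, k7, k8⟩ : _ ∈ Ph γ _ p _ t ∧
        _ ∈ Ph γ _ p _ t := ⟨Set.mem_of_indicator_ne_zero (left_ne_zero_of_mul h4),
          Set.mem_of_indicator_ne_zero (right_ne_zero_of_mul h4)⟩
      refine hn Q hQ (d ++ P n ++ a') ⟨l ++ a, t.2.1, t.2.1, d' ++ r, (Lw (l ++ a ++ t.2.1.1)
        (Lw (d ++ P n) (Rw r δ')) * Lw l (Rw (P n ++ (p ++ r)) δ) * γ) * k.1, Prod.ext ?_ ?_⟩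
        ⟨_, pth2 (k2 ▸ hp_spec R d).inv (k5 ▸ hp_spec R a').inv _⟩
      · simpa [eq_inv_smul_iff.2 k4, Subgroup.smul_def, smul_hy, mul_assoc] using (hy_eq t.2.1 _ (.one (l ++ a))
          ((k7.R' r).L (d ++ P n))).symm
      · have := inter ((k3.R' (P n)).L l) (k7.R' r)
        simp only [Lw_Lw, Lw_Rw, Rw_Rw, List.append_assoc] at this ⊢
        simpa [eq_inv_smul_iff.2 k8, Subgroup.smul_def, smul_hy, mul_assoc, ← this, Lw_Rw, Rw_Rw] using
          (hy_eq t.2.1 _ ((k3.R' (P n ++ a')).L l) (.one (d' ++ r))).symm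
    rw [H6 _ h hx i1, H6 _ h hy i4, H6 _ h hy i2, E, E, ← List.append_assoc l p, ← Lw_Lw (l ++ p),
      H5 (Lw (l ++ p)) 1 _ γ _ (fun a b δ r hr k => by simp [-List.append_assoc, H2, Ph.right hR hr k]) _
        ((Pth.R' x₀.2 r).L (P n))] at this
    exact h1 (by simpa using this)
  choose Q k1 b k2 k3 using ex
  obtain ⟨n, -, m, -, k4, k5⟩ := Set.infinite_univ.exists_lt_map_eq_of_mapsTo
    (fun n _ => k1 n) hS
  obtain ⟨j, rfl⟩ := Nat.exists_eq_add_of_lt k4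
  obtain ⟨ε, k6⟩ := (eqv R).trans' ((eqv R).symm' (k3 n)) ((eqv R).trans'
    ((k2 n).uq hR (k5 ▸ k2 (n + j + 1))) (k3 _))
  have k7 : ∀ n, eqv R (P (1 + n + 1)) (t.1 ++ t.2.1.1 ++ (t.2.2 ++ P n ++ t.1) ++ (t.2.1.1 ++ t.2.2)) :=
    fun n => ⟨_, by simpa [P1, P] using pth2 h2 h2 (P n)⟩
  have k8 : ∀ i, eqv R (P (1 + n + 1)) (P (1 + n + 1 + (j + 1) * i)) := fun i => by
    induction i with
    | zero => exact (eqv R).refl _
    | succ i ih =>
      obtain ⟨ε', h⟩ := (eqv R).trans' (k7 n) ((eqv R).trans' ⟨_, (k6.L _).R' _⟩ ((eqv R).symm' (k7 _)))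
      refine (eqv R).trans' ih ⟨Rw (P ((j + 1) * i)) ε', ?_⟩
      rw [P1, show 1 + n + 1 + (j + 1) * (i + 1) = 1 + (n + j + 1) + 1 + (j + 1) * i by ring,
        P1 _ ((j + 1) * i)]
      exact h.R' _
  obtain ⟨q, π, k9, k10, k11⟩ : ∃ q π, Pth R q (q ++ q) π ∧ Act R q ∧ Group.IsSolvable (Loop R q) := by
    obtain ⟨ε', h⟩ := k8 (n + 2)
    refine ⟨P (1 + n + 1 + j * (n + 2)), Rw (P (j * (n + 2))) ε', ?_, ?_, emb _⟩
    · rw [← P1, show 1 + n + 1 + j * (n + 2) + (1 + n + 1 + j * (n + 2)) =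
        1 + n + 1 + (j + 1) * (n + 2) + j * (n + 2) by ring, P1, P1 _ (j * _)]
      exact h.R' _
    · rw [add_assoc, add_assoc, add_comm, P2]
      exact hp.app hR _
  have k12 := (k9.R' (q ++ q)).mul ((by simpa using k9.R' q : Pth R _ (q ++ (q ++ q)) _).mul k9)
  generalize _ * (_ * π) = γ at k12
  have c : ∀ x y : Loop R q, Rw (q ++ q) (Lw q x.1) * Lw (q ++ q) (Rw q y.1) =
    Lw (q ++ q) (Rw q y) * Rw (q ++ q) (Lw q x) := fun x y => inter (Pth.L x.2 q) (Pth.R' y.2 q)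
  let θ : Loop R q × Loop R q →* Loop R q := MonoidHom.mk' (fun k => ⟨γ⁻¹ * (Lw (q ++ q) (Rw q k.2) *
    Rw (q ++ q) (Lw q k.1)) * γ, (k12.inv.mul (((Pth.R' k.2.2 q).L _).mul
      ((Pth.L k.1.2 q).R' _))).mul k12⟩) fun x y => Subtype.ext (by
        simp only [Prod.fst_mul, Prod.snd_mul, Subgroup.coe_mul, map_mul, mul_assoc,
          mul_inv_cancel_left]
        rw [← mul_assoc (Rw _ _) (Lw _ _), c, mul_assoc])
  obtain ⟨k, k13, k14⟩ := k10
  have k15 : Pth R (q ++ q ++ q) (q ++ q ++ (q ++ q)) (Rw (q ++ q) π) := by simpa using k9.R' (q ++ q)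
  refine k14 (congrArg Subtype.val (nosolv θ ((injective_iff_map_eq_one _).2 fun x e => ?_)
    ⟨_, (k12.inv.mul (k15.mul (k9.L _).inv)).mul k12⟩ (fun x => Subtype.ext ?_) ⟨k, k13⟩))
  · obtain ⟨e1, e2⟩ := split_inj hR (Pth.L x.1.2 q) (Pth.R' x.2.2 q)
      (by simpa [θ, mul_assoc] using congrArg (fun k => γ * k.1 * γ⁻¹) e)
    exact Prod.ext (Subtype.ext (L_inj hR x.1.2 e1)) (Subtype.ext (R_inj hR x.2.2 e2))
  · have e1 := inter (Pth.L x.2 q) k9
    have e2 := inter k9 (Pth.R' x.2 q)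
    simp only [θ, MonoidHom.mk'_apply, Subgroup.coe_mul, Subgroup.coe_inv, Subgroup.coe_one, map_one,
      mul_one, one_mul, mul_inv_rev, inv_inv, mul_assoc, mul_inv_cancel_left]
    rw [← mul_assoc (Rw _ (Lw q _)), e1, mul_assoc, inv_mul_cancel_left, ← Lw_Rw, ← mul_assoc (Rw _ π),
      e2, mul_assoc, mul_inv_cancel_left]

end Pool.Agent.H65.Squier
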