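import Pool.Agent.H65.SquierDefs

/-! Vertex groups of free groupoids on functional graphs. -/

namespace Pool.Agent.H65.Squier

open CategoryTheory

section General

variable {V : Type} [Quiver.{0} V]

/-- directed paths, built from the front -/
inductive DP : V → V → Type
  | nil (x : V) : DP x x
  | cons {x y z : V} (e : x ⟶ y) (p : DP y z) : DP x z

abbrev FO (x : V) : Quiver.FreeGroupoid V := (Quiver.FreeGroupoid.of V).obj x

abbrev FM {x y : V} (e : x ⟶ y) : FO x ⟶ FO y := (Quiver.FreeGroupoid.of V).map e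

def DP.ev : ∀ {x z : V}, DP x z → (FO x ⟶ FO z)
  | _, _, .nil _ => 𝟙 _
  | _, _, .cons e p => FM e ≫ p.ev

def DP.snoc : ∀ {x y z : V}, DP x y → (y ⟶ z) → DP x z
  | _, _, _, .nil _, e => .cons e (.nil _)
  | _, _, _, .cons e' p, e => .cons e' (p.snoc e)

theorem DP.ev_snoc : ∀ {x y z : V} (p : DP x y) (e : y ⟶ z), (p.snoc e).ev = p.ev ≫ FM e
  | _, _, _, .nil _, e => by simp [DP.snoc, DP.ev]
  | _, _, _, .cons e' p, e => by simp [DP.snoc, DP.ev, DP.ev_snoc p e]

theorem mor_ind {x : V} (P : ∀ y : V, (FO x ⟶ FO y) → Prop) (h0 : P x (𝟙 _))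
    (h1 : ∀ y z (f : FO x ⟶ FO y) (e : y ⟶ z), P y f → P z (f ≫ FM e))
    (h2 : ∀ y z (f : FO x ⟶ FO y) (e : z ⟶ y), P y f → P z (f ≫ Groupoid.inv (FM e)))
    (y : V) (f : FO x ⟶ FO y) : P y f := by
  obtain ⟨p⟩ := f
  change Quiver.Path (V := Quiver.Symmetrify V) x y at p
  suffices H : ∀ (y : Quiver.Symmetrify V) (p : Quiver.Path (V := Quiver.Symmetrify V) x y),
      P y (Quot.mk _ p) from H y p
  intro y p
  induction p with
  | nil => exact h0
  | cons q e ih =>
    rcases e with e | e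
    · exact h1 _ _ _ e ih
    · exact h2 _ _ _ e ih

variable (C : V → Prop) (hC : ∀ x y : V, (x ⟶ y) → (C x ↔ C y))
  (hdet : ∀ x y z : V, C x → ∀ (e : x ⟶ y) (e' : x ⟶ z), (⟨y, e⟩ : Σ t, x ⟶ t) = ⟨z, e'⟩)

include hC hdet in
theorem normal {x : V} (hx : C x) (y : V) (f : FO x ⟶ FO y) :
    C y ∧ ∃ (z : V) (p : DP x z) (q : DP y z), f = p.ev ≫ Groupoid.inv q.ev := by
  refine mor_ind (fun y f => C y ∧ ∃ (z : V) (p : DP x z) (q : DP y z),
    f = p.ev ≫ Groupoid.inv q.ev) ⟨hx, x, .nil _, .nil _, by simp [DP.ev]⟩ ?_ ?_ y f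
  · rintro y y' f e ⟨hy, z, p, q, rfl⟩
    refine ⟨(hC _ _ e).1 hy, ?_⟩
    cases q with
    | nil => exact ⟨y', p.snoc e, .nil _, by simp [DP.ev, DP.ev_snoc]⟩
    | cons e' q =>
      have h := hdet _ _ _ hy e e'
      cases h
      exact ⟨z, p, q, by simp [DP.ev]⟩
  · rintro y y' f e ⟨hy, z, p, q, rfl⟩
    exact ⟨(hC _ _ e).2 hy, z, p, .cons e q, by simp [DP.ev]⟩

variable (G : V → Prop) (len : V → ℕ) (hG : ∀ x y : V, G x → (x ⟶ y) → G y ∧ len x < len y)

include hG in
theorem len_le {x z : V} (p : DP x z) (hx : G x) : len x ≤ len z := by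
  induction p with
  | nil => exact le_rfl
  | cons e p ih => exact (hG _ _ hx e).2.le.trans (ih (hG _ _ hx e).1)

include hG hC hdet in
theorem dp_unique {x z : V} (p q : DP x z) (hx : G x) (hc : C x) : p = q := by
  induction p with
  | nil x =>
    cases q with
    | nil => rfl
    | cons e q =>
      have h1 := hG _ _ hx e
      have h2 := len_le G len hG q h1.1
      omega
  | cons e p ih =>
    cases q with
    | nil =>
      have h1 := hG _ _ hx e
      have h2 := len_le G len hG p h1.1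
      omega
    | cons e' q =>
      have h := hdet _ _ _ hc e e'
      cases h
      rw [ih q (hG _ _ hx e).1 ((hC _ _ e).1 hc)]

include hG hC hdet in
theorem loop_triv {x : V} (hx : G x) (hc : C x) (f : FO x ⟶ FO x) : f = 𝟙 _ := by
  obtain ⟨-, z, p, q, rfl⟩ := normal C hC hdet hc x f
  rw [dp_unique C hC hdet G len hG p q hx hc]
  simp

end General

variable {A : Type} {R : Set (List A × List A)}

theorem subsingleton_of {w : Vtx R} (h : ∀ f : FO w ⟶ FO w, f = 𝟙 _) :
    Subsingleton (DiagramGroup R w) := by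
  refine ⟨fun a b => Iso.ext ?_⟩
  obtain ⟨f, hf⟩ := (Quotient.functor (Square R)).map_surjective a.hom
  obtain ⟨g, hg⟩ := (Quotient.functor (Square R)).map_surjective b.hom
  rw [← hf, ← hg, h f, h g]

/-- weight functor -/
def wtF (wt : List A × List A → ℤ) :
    Quiver.FreeGroupoid (Vtx R) ⥤ SingleObj (Multiplicative ℤ) :=
  Quiver.FreeGroupoid.lift
    { obj := fun _ => SingleObj.star _
      map := fun e => Multiplicative.ofAdd (wt e.1.2.1) }

theorem wtF_map (wt : List A × List A → ℤ) {x y : Vtx R} (e : x ⟶ y) :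
    (wtF wt).map (FM e) = Multiplicative.ofAdd (wt e.1.2.1) := by
  have h := Quiver.FreeGroupoid.lift_spec (V := Vtx R) (V' := SingleObj (Multiplicative ℤ))
    { obj := fun _ => SingleObj.star _
      map := fun e => Multiplicative.ofAdd (wt e.1.2.1) }
  exact Prefunctor.congr_hom h e

def wtQ (wt : List A × List A → ℤ) :
    CategoryTheory.Quotient (Square R) ⥤ SingleObj (Multiplicative ℤ) :=
  CategoryTheory.Quotient.lift _ (wtF wt) (by
    rintro _ _ _ _ ⟨e₁, e₂, e₃, e₄, a, b, c, r, s, h₁, h₂, h₃, h₄⟩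
    rw [Functor.map_comp, Functor.map_comp, wtF_map, wtF_map, wtF_map, wtF_map, h₁, h₂, h₃, h₄]
    exact mul_comm (G := Multiplicative ℤ) _ _)

def wtHom (wt : List A × List A → ℤ) (w : Vtx R) : DiagramGroup R w →* Multiplicative ℤ :=
  MonoidHom.mk' (fun g => (wtQ wt).map g.hom) (fun a b => by
    have : (a * b).hom = b.hom ≫ a.hom := rfl
    rw [this, Functor.map_comp]
    rfl)

theorem exists_wt (wt : List A × List A → ℤ) {w x : Vtx R} (p : FO w ⟶ FO x) (l : FO x ⟶ FO x) :
    ∃ g : DiagramGroup R w, wtHom wt w g = (wtF wt).map l := by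
  refine ⟨(Quotient.functor (Square R)).mapIso
    ((Groupoid.isoEquivHom _ _).symm (p ≫ l ≫ Groupoid.inv p)), ?_⟩
  change (wtF wt).map (p ≫ l ≫ Groupoid.inv p) = _
  have h : (wtF wt).map p ≫ (wtF wt).map (Groupoid.inv p) = 𝟙 _ := by
    rw [← Functor.map_comp]; simp
  rw [Functor.map_comp, Functor.map_comp]
  generalize (wtF wt).map p = a at h ⊢
  generalize (wtF wt).map (Groupoid.inv p) = b at h ⊢
  generalize (wtF wt).map l = c
  have key : ∀ a b c : Multiplicative ℤ, b * a = 1 → (b * c) * a = c := fun a b c h => by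
    rw [mul_right_comm, h, one_mul]
  exact key a b c h

theorem abRank_zero (G : Type) [Group G] [Subsingleton G] : abRank G = 0 := by
  have : Subsingleton (Abelianization G) := Quotient.instSubsingletonQuotient _
  have : Subsingleton (Additive (Abelianization G)) := inferInstanceAs (Subsingleton (Abelianization G))
  exact rank_subsingleton' _ _

theorem abRank_ne (G : Type) [Group G] (φ : G →* Multiplicative ℤ) (g : G) (hg : φ g ≠ 1) :
    abRank G ≠ 0 := by
  intro h
  rw [abRank, rank_zero_iff_forall_zero] at h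
  let ψ : Additive (Abelianization G) →ₗ[ℤ] ℤ :=
    (MonoidHom.toAdditiveLeft (Abelianization.lift φ)).toIntLinearMap
  have h1 := congrArg (TensorProduct.map (LinearMap.id (R := ℤ) (M := ℚ)) ψ)
    (h ((1 : ℚ) ⊗ₜ Additive.ofMul (Abelianization.of g)))
  have h2 := congrArg (TensorProduct.rid ℤ ℚ) h1
  simp only [TensorProduct.map_tmul, map_zero, TensorProduct.rid_tmul, LinearMap.id_apply] at h2
  apply hg
  have h3 : ψ (Additive.ofMul (Abelianization.of g)) = 0 := by simpa using h2
  exact h3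

end Pool.Agent.H65.Squier
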