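import Pool.Agent.H38.CM.Queue

/-! A one-head string rewriting system simulating the queue automaton of a while program;
every non-halting rule increases the length, and halting enters a 3-cycle. -/

namespace Pool.Agent.H65.Squier

open Pool.Agent.H38.CM Relation

inductive Sym (w : W) : Type
  | t (x : Fin (bd w)) | c | L | R | f (s : Option (St w)) | b (s : St w) | h1 | h2

variable {w : W}

instance : NeZero (bd w) := ⟨by have := bd_ge w; omega⟩

instance : Finite (Sym w) := by
  have := St.finite w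
  refine Finite.of_surjective (α := Fin (bd w) ⊕ Option (St w) ⊕ St w ⊕ Fin 5)
    (Sum.elim .t (Sum.elim .f (Sum.elim .b ![.c, .L, .R, .h1, .h2]))) ?_
  rintro (x | _ | _ | _ | s | s | _ | _)
  exacts [⟨.inl x, rfl⟩, ⟨.inr (.inr (.inr 0)), rfl⟩, ⟨.inr (.inr (.inr 1)), rfl⟩,
    ⟨.inr (.inr (.inr 2)), rfl⟩, ⟨.inr (.inl s), rfl⟩, ⟨.inr (.inr (.inl s)), rfl⟩,
    ⟨.inr (.inr (.inr 3)), rfl⟩, ⟨.inr (.inr (.inr 4)), rfl⟩]

def tk (y : ℕ) : Sym w := .t (Fin.ofNat (bd w) y)

def isS : Sym w → Bool
  | .f _ => true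
  | .b _ => true
  | .h1 => true
  | .h2 => true
  | _ => false

def isT : Sym w → Bool
  | .t _ => true
  | .c => true
  | _ => false

def dec1 : Sym w → Option ℕ
  | .t x => some x.1
  | _ => none

def dec (l : List (Sym w)) : List ℕ := l.filterMap dec1

inductive Rule : List (Sym w) → List (Sym w) → Prop
  | r1 (s : St w) (x : Fin (bd w)) :
      Rule [.f (some s), .t x] ((qs w s x).2.map tk ++ [.c, .f (qs w s x).1])
  | r2 (s : St w) : Rule [.f (some s), .c] [.c, .c, .f (some s)]
  | r3 (s : St w) : Rule [.f (some s), .R] [.b s, .c, .R]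
  | r4 (s : St w) (x : Fin (bd w)) : Rule [.t x, .b s] [.b s, .t x, .c]
  | r5 (s : St w) : Rule [.c, .b s] [.b s, .c, .c]
  | r6 (s : St w) : Rule [.L, .b s] [.L, .c, .f (some s)]
  | r7 : Rule [.f none] [.h1]
  | r8 : Rule [.h1] [.h2]
  | r9 : Rule [.h2] [.f none]

theorem countP_tk (l : List ℕ) : (l.map (tk (w := w))).countP isS = 0 := by
  induction l with
  | nil => rfl
  | cons x l ih => simp [List.countP_cons, ih, tk, isS]

theorem Rule.count {u v : List (Sym w)} (h : Rule u v) : u.countP isS = 1 ∧ v.countP isS = 1 := by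
  cases h <;> simp [List.countP_append, List.countP_cons, isS, tk]

theorem Rule.len {u v : List (Sym w)} (h : Rule u v) : u.length < v.length ∨
    (u = [.f none] ∧ v = [.h1]) ∨ (u = [.h1] ∧ v = [.h2]) ∨ (u = [.h2] ∧ v = [.f none]) := by
  cases h with
  | r1 s x =>
    left
    have := List.length_pos_iff.2 (qs_ne_nil w s x)
    simp; omega
  | r7 => simp
  | r8 => simp
  | r9 => simp
  | _ => left; simp

theorem Rule.ne {u v : List (Sym w)} (h : Rule u v) : u ≠ [] ∧ v ≠ [] := by
  cases h <;> simp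

theorem Rule.asymm {u v : List (Sym w)} (h : Rule u v) : ¬ Rule v u := by
  intro h'
  rcases h.len with h1 | ⟨rfl, rfl⟩ | ⟨rfl, rfl⟩ | ⟨rfl, rfl⟩
  · rcases h'.len with h2 | ⟨rfl, rfl⟩ | ⟨rfl, rfl⟩ | ⟨rfl, rfl⟩
    · omega
    all_goals simp at h1
  all_goals cases h'

theorem Rule.finite : {p : List (Sym w) × List (Sym w) | Rule p.1 p.2}.Finite := by
  have h1 : {u : List (Sym w) | u.length ≤ 2}.Finite := List.finite_length_le _ _
  refine (h1.biUnion (t := fun u => {p : List (Sym w) × List (Sym w) | p.1 = u ∧ Rule p.1 p.2})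
    fun u _ => ?_).subset ?_
  · refine Set.Subsingleton.finite ?_
    rintro ⟨u1, v1⟩ ⟨h1, h2⟩ ⟨u2, v2⟩ ⟨h3, h4⟩
    dsimp only at h1 h2 h3 h4
    subst h1
    subst h3
    cases h2 <;> cases h4 <;> rfl
  · rintro ⟨u, v⟩ h
    simp only [Set.mem_iUnion]
    refine ⟨u, ?_, rfl, h⟩
    cases h <;> simp

theorem split {p p' q q' : List (Sym w)} {s s' : Sym w} (hp : p.countP isS = 0)
    (hp' : p'.countP isS = 0) (hs : isS s = true) (hs' : isS s' = true)
    (h : p ++ s :: q = p' ++ s' :: q') : p = p' ∧ s = s' ∧ q = q' := by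
  induction p generalizing p' with
  | nil =>
    cases p' with
    | nil => simpa using h
    | cons y p' =>
      simp only [List.nil_append, List.cons_append, List.cons.injEq] at h
      simp [List.countP_cons, ← h.1, hs] at hp'
  | cons x p ih =>
    cases p' with
    | nil =>
      simp only [List.nil_append, List.cons_append, List.cons.injEq] at h
      simp [List.countP_cons, h.1, hs'] at hp
    | cons y p' =>
      simp only [List.cons_append, List.cons.injEq] at h
      rw [List.countP_cons] at hp hp'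
      obtain ⟨h1, h2⟩ := ih (p' := p') (by omega) (by omega) h.2
      exact ⟨by rw [h.1, h1], h2⟩

theorem Rule.shape {u v : List (Sym w)} (h : Rule u v) :
    (∃ s y, u = [.f (some s), y]) ∨ (∃ s y, isS y = false ∧ u = [y, .b s]) ∨ u = [.f none] ∨
      u = [.h1] ∨ u = [.h2] := by
  cases h <;> simp [isS]

theorem Rule.func {u v v' : List (Sym w)} (h : Rule u v) (h' : Rule u v') : v = v' := by
  cases h <;> cases h' <;> rfl

theorem det {a b a' b' u v u' v' : List (Sym w)} (h : Rule u v) (h' : Rule u' v')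
    (hc : (a ++ u ++ b).countP isS = 1) (e : a ++ u ++ b = a' ++ u' ++ b') :
    a = a' ∧ u = u' ∧ v = v' ∧ b = b' := by
  have hc' := hc
  rw [e] at hc'
  simp only [List.countP_append, h.count.1, h'.count.1] at hc hc'
  have ha : a.countP isS = 0 := by omega
  have ha' : a'.countP isS = 0 := by omega
  suffices H : a = a' ∧ u = u' ∧ b = b' by
    obtain ⟨h1, rfl, h3⟩ := H
    exact ⟨h1, rfl, h.func h', h3⟩
  have two : ∀ (a : List (Sym w)) (y : Sym w), a.countP isS = 0 → isS y = false →
      (a ++ [y]).countP isS = 0 := fun a y h1 h2 => by simp [List.countP_append, h1, h2]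
  rcases h.shape with ⟨s, y, rfl⟩ | ⟨s, y, hy, rfl⟩ | rfl | rfl | rfl <;>
    rcases h'.shape with ⟨s', y', rfl⟩ | ⟨s', y', hy', rfl⟩ | rfl | rfl | rfl <;>
    first
    | (have := split (q := _) (q' := _) ha ha' rfl rfl (by simpa using e); simp_all)
    | (have := split (q := _) (q' := _) (two _ _ ha hy) ha' rfl rfl (by simpa using e)
       simp_all)
    | (have := split (q := _) (q' := _) ha (two _ _ ha' hy') rfl rfl (by simpa using e)
       simp_all)
    | (have := split (q := _) (q' := _) (two _ _ ha hy) (two _ _ ha' hy') rfl rfl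
        (by simpa using e)
       simp_all)

def Step (x y : List (Sym w)) : Prop :=
  ∃ a u v b, Rule u v ∧ x = a ++ u ++ b ∧ y = a ++ v ++ b

def Tape (l : List (Sym w)) : Prop := ∀ y ∈ l, isT y = true

theorem Tape.count {l : List (Sym w)} (h : Tape l) : l.countP isS = 0 := by
  rw [List.countP_eq_zero]
  intro y hy
  have := h y hy
  cases y <;> simp_all [isT, isS]

theorem tape_tk (l : List ℕ) : Tape (l.map (tk (w := w))) := by
  intro y hy
  obtain ⟨x, -, rfl⟩ := List.mem_map.1 hy
  rfl

theorem dec_tk (l : List ℕ) (h : ∀ y ∈ l, y < bd w) : dec (l.map (tk (w := w))) = l := by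
  induction l with
  | nil => rfl
  | cons x l ih =>
    have h1 := ih fun y hy => h y (by simp [hy])
    have h2 := h x (by simp)
    change (x % bd w) :: dec (l.map tk) = _
    rw [h1, Nat.mod_eq_of_lt h2]

theorem dec_out (s : St w) (x : Fin (bd w)) :
    dec ((qs w s x).2.map (tk (w := w))) = (qs w s x).2 :=
  dec_tk _ (qs_lt _ w s x le_rfl x.2)

theorem dec_append (u v : List (Sym w)) : dec (u ++ v) = dec u ++ dec v := List.filterMap_append

@[simp] theorem dec_nil : dec ([] : List (Sym w)) = [] := rfl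
@[simp] theorem dec_c (u : List (Sym w)) : dec (.c :: u) = dec u := rfl
@[simp] theorem dec_t (x : Fin (bd w)) (u : List (Sym w)) : dec (.t x :: u) = x.1 :: dec u := rfl

theorem Tape.append {u v : List (Sym w)} (hu : Tape u) (hv : Tape v) : Tape (u ++ v) := by
  intro y hy
  rcases List.mem_append.1 hy with h | h
  exacts [hu y h, hv y h]

theorem Tape.cons {y : Sym w} {v : List (Sym w)} (hy : isT y = true) (hv : Tape v) :
    Tape (y :: v) := by
  intro z hz
  rcases List.mem_cons.1 hz with rfl | h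
  exacts [hy, hv z h]

theorem tape_nil : Tape ([] : List (Sym w)) := by simp [Tape]

theorem Tape.tail {y : Sym w} {v : List (Sym w)} (h : Tape (y :: v)) : Tape v :=
  fun z hz => h z (by simp [hz])

theorem Tape.head {y : Sym w} {v : List (Sym w)} (h : Tape (y :: v)) :
    y = .c ∨ ∃ x, y = .t x := by
  have := h y (by simp)
  cases y <;> simp_all [isT]

/-- the word with left part `u`, head `s`, right part `v` -/
def cf (u : List (Sym w)) (s : Sym w) (v : List (Sym w)) : List (Sym w) :=
  .L :: u ++ s :: v ++ [.R]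

theorem st1 (u v : List (Sym w)) (s : St w) (x : Fin (bd w)) :
    Step (cf u (.f (some s)) (.t x :: v))
      (cf (u ++ ((qs w s x).2.map tk ++ [.c])) (.f (qs w s x).1) v) :=
  ⟨.L :: u, _, _, v ++ [.R], .r1 s x, by simp [cf], by simp [cf]⟩

theorem st2 (u v : List (Sym w)) (s : St w) :
    Step (cf u (.f (some s)) (.c :: v)) (cf (u ++ [.c, .c]) (.f (some s)) v) :=
  ⟨.L :: u, _, _, v ++ [.R], .r2 s, by simp [cf], by simp [cf]⟩

theorem st3 (u : List (Sym w)) (s : St w) :
    Step (cf u (.f (some s)) []) (cf u (.b s) [.c]) :=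
  ⟨.L :: u, _, _, [], .r3 s, by simp [cf], by simp [cf]⟩

theorem st4 (u v : List (Sym w)) (s : St w) (x : Fin (bd w)) :
    Step (cf (u ++ [.t x]) (.b s) v) (cf u (.b s) (.t x :: .c :: v)) :=
  ⟨.L :: u, _, _, v ++ [.R], .r4 s x, by simp [cf], by simp [cf]⟩

theorem st5 (u v : List (Sym w)) (s : St w) :
    Step (cf (u ++ [.c]) (.b s) v) (cf u (.b s) (.c :: .c :: v)) :=
  ⟨.L :: u, _, _, v ++ [.R], .r5 s, by simp [cf], by simp [cf]⟩

theorem st6 (v : List (Sym w)) (s : St w) :
    Step (cf [] (.b s) v) (cf [.c] (.f (some s)) v) :=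
  ⟨[], _, _, v ++ [.R], .r6 s, by simp [cf], by simp [cf]⟩

theorem sweep_back (s : St w) (u : List (Sym w)) : ∀ v, Tape u → Tape v →
    ∃ v', Tape v' ∧ dec v' = dec u ++ dec v ∧
      ReflTransGen Step (cf u (.b s) v) (cf [.c] (.f (some s)) v') := by
  induction u using List.reverseRecOn with
  | nil => exact fun v _ hv => ⟨v, hv, by simp, .single (st6 v s)⟩
  | append_singleton u y ih =>
    intro v hu hv
    have hu' : Tape u := fun z hz => hu z (by simp [hz])
    have hy : Tape [y] := fun z hz => hu z (by simp at hz; simp [hz])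
    rcases hy.head with rfl | ⟨x, rfl⟩
    · obtain ⟨v', h1, h2, h3⟩ := ih (.c :: .c :: v) hu' (.cons rfl (.cons rfl hv))
      exact ⟨v', h1, by simp [h2, dec_append], .head (st5 u v s) h3⟩
    · obtain ⟨v', h1, h2, h3⟩ := ih (.t x :: .c :: v) hu' (.cons rfl (.cons rfl hv))
      exact ⟨v', h1, by simp [h2, dec_append], .head (st4 u v s x) h3⟩

theorem read_some (s : St w) (v : List (Sym w)) : ∀ u x m, Tape u → Tape v → dec v = x :: m →
    ∃ u' v', Tape u' ∧ Tape v' ∧ dec v' = m ∧ dec u' = dec u ++ (qs w s x).2 ∧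
      ReflTransGen Step (cf u (.f (some s)) v) (cf u' (.f (qs w s x).1) v') := by
  induction v with
  | nil => intro u x m _ _ h; simp at h
  | cons y v ih =>
    intro u x m hu hv h
    rcases hv.head with rfl | ⟨x', rfl⟩
    · obtain ⟨u', v', h1, h2, h3, h4, h5⟩ := ih (u ++ [.c, .c]) x m
        (hu.append (.cons rfl (.cons rfl tape_nil))) hv.tail (by simpa using h)
      exact ⟨u', v', h1, h2, h3, by simpa [dec_append] using h4, .head (st2 u v s) h5⟩
    · simp only [dec_t, List.cons.injEq] at h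
      obtain ⟨rfl, rfl⟩ := h
      exact ⟨_, v, hu.append ((tape_tk _).append (.cons rfl tape_nil)), hv.tail, rfl,
        by simp [dec_append, dec_out], .single (st1 u v s x')⟩

theorem read_none (s : St w) (v : List (Sym w)) : ∀ u, Tape u → Tape v → dec v = [] →
    ∃ v', Tape v' ∧ dec v' = dec u ∧
      ReflTransGen Step (cf u (.f (some s)) v) (cf [.c] (.f (some s)) v') := by
  induction v with
  | nil =>
    intro u hu _ _
    obtain ⟨v', h1, h2, h3⟩ := sweep_back s u [.c] hu (.cons rfl tape_nil)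
    exact ⟨v', h1, by simpa using h2, .head (st3 u s) h3⟩
  | cons y v ih =>
    intro u hu hv h
    rcases hv.head with rfl | ⟨x', rfl⟩
    · obtain ⟨v', h1, h2, h3⟩ := ih (u ++ [.c, .c])
        (hu.append (.cons rfl (.cons rfl tape_nil))) hv.tail (by simpa using h)
      exact ⟨v', h1, by simpa [dec_append] using h2, .head (st2 u v s) h3⟩
    · simp at h

theorem sim {q q' : Option (St w) × List ℕ} (h : ReflTransGen (QStep w) q q')
    (u v : List (Sym w)) (hu : Tape u) (hv : Tape v) (e : dec v ++ dec u = q.2) :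
    ∃ u' v', Tape u' ∧ Tape v' ∧ dec v' ++ dec u' = q'.2 ∧
      ReflTransGen Step (cf u (.f q.1) v) (cf u' (.f q'.1) v') := by
  induction h with
  | refl => exact ⟨u, v, hu, hv, e, .refl⟩
  | tail _ hs ih =>
    obtain ⟨u1, v1, h1, h2, h3, h4⟩ := ih
    obtain ⟨s, x, t, rfl, rfl⟩ := hs
    dsimp only at h3 h4 ⊢
    cases hd : dec v1 with
    | nil =>
      obtain ⟨v2, g1, g2, g3⟩ := read_none s v1 u1 h1 h2 hd
      obtain ⟨u3, v3, k1, k2, k3, k4, k5⟩ := read_some s v2 [.c] x t (.cons rfl tape_nil) g1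
        (by rw [g2, ← h3, hd]; rfl)
      exact ⟨u3, v3, k1, k2, by simp [k3, k4], (h4.trans g3).trans k5⟩
    | cons x' m =>
      rw [hd] at h3
      simp only [List.cons_append, List.cons.injEq] at h3
      obtain ⟨rfl, rfl⟩ := h3
      obtain ⟨u3, v3, k1, k2, k3, k4, k5⟩ := read_some s v1 u1 x' m h1 h2 hd
      exact ⟨u3, v3, k1, k2, by simp [k3, k4], h4.trans k5⟩

def Good (q0 : Option (St w) × List ℕ) (y : List (Sym w)) : Prop :=
  ∃ u v s, Tape u ∧ Tape v ∧
    ((y = cf u (.f (some s)) v ∧ ReflTransGen (QStep w) q0 (some s, dec v ++ dec u)) ∨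
      (y = cf u (.b s) v ∧ ReflTransGen (QStep w) q0 (some s, dec u ++ dec v)))

theorem Good.count {q0 : Option (St w) × List ℕ} {y : List (Sym w)} (h : Good q0 y) :
    y.countP isS = 1 := by
  obtain ⟨u, v, s, hu, hv, ⟨rfl, -⟩ | ⟨rfl, -⟩⟩ := h <;>
    simp [cf, List.countP_append, List.countP_cons, hu.count, hv.count, isS]

theorem Good.progress {q0 : Option (St w) × List ℕ}
    (hn : ¬ ∃ l, ReflTransGen (QStep w) q0 (none, l)) {y : List (Sym w)} (h : Good q0 y) :
    ∃ y', Step y y' ∧ Good q0 y' ∧ y.length < y'.length := by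
  obtain ⟨u, v, s, hu, hv, ⟨rfl, h⟩ | ⟨rfl, h⟩⟩ := h
  · cases v with
    | nil =>
      exact ⟨_, st3 u s, ⟨u, [.c], s, hu, .cons rfl tape_nil, .inr ⟨rfl, by simpa using h⟩⟩,
        by simp [cf]⟩
    | cons y v =>
      rcases hv.head with rfl | ⟨x, rfl⟩
      · exact ⟨_, st2 u v s, ⟨_, v, s, hu.append (.cons rfl (.cons rfl tape_nil)), hv.tail,
          .inl ⟨rfl, by simpa [dec_append] using h⟩⟩, by simp [cf]⟩
      · have h2 := h.tail ⟨s, x, dec v ++ dec u, rfl, rfl⟩
        have h3 := List.length_pos_iff.2 (qs_ne_nil w s x)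
        refine ⟨_, st1 u v s x, ?_, by simp [cf]; omega⟩
        cases hq : (qs w s x).1 with
        | none => exact absurd ⟨_, hq ▸ h2⟩ hn
        | some s' =>
          exact ⟨_, v, s', hu.append ((tape_tk _).append (.cons rfl tape_nil)), hv.tail,
            .inl ⟨rfl, by simpa [dec_append, dec_out, hq] using h2⟩⟩
  · induction u using List.reverseRecOn with
    | nil =>
      exact ⟨_, st6 v s, ⟨[.c], v, s, .cons rfl tape_nil, hv, .inl ⟨rfl, by simpa using h⟩⟩,
        by simp [cf]⟩
    | append_singleton u y _ =>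
      have hu' : Tape u := fun z hz => hu z (by simp [hz])
      have hy : Tape [y] := fun z hz => hu z (by simp at hz; simp [hz])
      rcases hy.head with rfl | ⟨x, rfl⟩
      · exact ⟨_, st5 u v s, ⟨u, _, s, hu', .cons rfl (.cons rfl hv),
          .inr ⟨rfl, by simpa [dec_append] using h⟩⟩, by simp [cf]⟩
      · exact ⟨_, st4 u v s x, ⟨u, _, s, hu', .cons rfl (.cons rfl hv),
          .inr ⟨rfl, by simpa [dec_append] using h⟩⟩, by simp [cf]⟩

theorem Good.step {q0 : Option (St w) × List ℕ}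
    (hn : ¬ ∃ l, ReflTransGen (QStep w) q0 (none, l)) {y y' : List (Sym w)} (h : Good q0 y)
    (hs : Step y y') : Good q0 y' ∧ y.length < y'.length := by
  obtain ⟨y2, ⟨a, u, v, b, h1, h2, rfl⟩, h3⟩ := h.progress hn
  obtain ⟨a', u', v', b', g1, g2, rfl⟩ := hs
  obtain ⟨rfl, rfl, rfl, rfl⟩ := det h1 g1 (h2 ▸ h.count) (h2.symm.trans g2)
  exact h3

/-- the start word for input `x` -/
def start (w : W) (x : ℕ) : List (Sym w) :=
  cf [] (.f (some (entry w))) ((List.replicate x 2 ++ [0]).map tk)

theorem rep_init (x : ℕ) : Rep (List.replicate x 2) (init x) := by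
  refine ⟨by simp, fun r => ?_⟩
  cases r with
  | zero => simp [init]
  | succ r => simp [init, List.count_replicate]

theorem dec_start (x : ℕ) :
    dec ((List.replicate x 2 ++ [0]).map (tk (w := w))) = List.replicate x 2 ++ [0] := by
  have := bd_ge w
  refine dec_tk _ fun y hy => ?_
  simp at hy
  omega

theorem of_halts {x : ℕ} (h : ∃ u, Ev w (init x) u) :
    ∃ a b, ReflTransGen Step (start w x) (a ++ [.f none] ++ b) := by
  obtain ⟨l, hl⟩ := (halts_iff w _ _ (rep_init x)).1 h
  obtain ⟨u', v', -, -, -, h4⟩ := sim hl [] _ tape_nil (tape_tk (List.replicate x 2 ++ [0]))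
    (by rw [dec_start]; simp)
  exact ⟨.L :: u', v' ++ [.R], by simpa [cf, start] using h4⟩

theorem of_not_halts {x : ℕ} (h : ¬ ∃ u, Ev w (init x) u) :
    ∃ G : List (Sym w) → Prop, G (start w x) ∧ ∀ y y', G y → Step y y' →
      G y' ∧ y.length < y'.length := by
  rw [halts_iff w _ _ (rep_init x)] at h
  refine ⟨Good (some (entry w), List.replicate x 2 ++ [0]),
    ⟨[], _, _, tape_nil, tape_tk _, .inl ⟨rfl, ?_⟩⟩, fun y y' h1 h2 => h1.step h h2⟩
  rw [dec_start]
  simpa using ReflTransGen.refl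

theorem count_start (x : ℕ) : (start w x).countP isS = 1 := by
  have := countP_tk (w := w) (List.replicate x 2 ++ [0])
  simp only [start, cf, List.countP_append, List.countP_cons, this, isS]
  simp

end Pool.Agent.H65.Squier
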