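import Pool.Agent.H65.Squier1
import Pool.Agent.H65.Squier2

/-! A fixed finite presentation whose diagram groups detect halting. -/

namespace Pool.Agent.H65.Squier

open Pool.Agent.H38.CM Relation CategoryTheory

variable {w : W} {B : Type} (e : Sym w ≃ B)

def RB : Set (List B × List B) := {r | Rule (r.1.map e.symm) (r.2.map e.symm)}

theorem step_of_edge {x y : Vtx (RB e)} (f : x ⟶ y) :
    Step (x.word.map e.symm) (y.word.map e.symm) := by
  obtain ⟨⟨a, r, b⟩, h1, h2, h3⟩ := f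
  exact ⟨a.map e.symm, _, _, b.map e.symm, h1, by simp [h2], by simp [h3]⟩

theorem map_map_symm (l : List (Sym w)) : (l.map e).map e.symm = l := by simp

theorem Step.ne {x y : List (Sym w)} (h : Step x y) : y ≠ [] := by
  obtain ⟨a, u, v, b, h1, -, rfl⟩ := h
  simp [h1.ne.2]

def edgeOf (a u v b : List (Sym w)) (h : Rule u v) :
    (⟨(a ++ u ++ b).map e, by simp [h.ne.1]⟩ : Vtx (RB e)) ⟶
      ⟨(a ++ v ++ b).map e, by simp [h.ne.2]⟩ :=
  ⟨(a.map e, (u.map e, v.map e), b.map e), by simpa [RB] using h, by simp, by simp⟩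

theorem path_of {x y : List (Sym w)} (h : ReflTransGen Step x y) (hx : x.map e ≠ []) :
    ∃ hy : y.map e ≠ [], Nonempty (FO (⟨x.map e, hx⟩ : Vtx (RB e)) ⟶ FO ⟨y.map e, hy⟩) := by
  induction h with
  | refl => exact ⟨hx, ⟨𝟙 _⟩⟩
  | tail _ hs ih =>
    obtain ⟨hy, ⟨p⟩⟩ := ih
    obtain ⟨a, u, v, b, h1, rfl, rfl⟩ := hs
    exact ⟨_, ⟨p ≫ FM (edgeOf e a u v b h1)⟩⟩

theorem start_ne (x : ℕ) : (start w x).map e ≠ [] := by simp [start, cf]

theorem halts_hom {x : ℕ} (h : ∃ u, Ev w (init x) u) :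
    ∃ (φ : DiagramGroup (RB e) ⟨(start w x).map e, start_ne e x⟩ →* Multiplicative ℤ)
      (g : DiagramGroup (RB e) ⟨(start w x).map e, start_ne e x⟩), φ g ≠ 1 := by
  obtain ⟨a, b, hab⟩ := of_halts h
  obtain ⟨hy, ⟨p⟩⟩ := path_of e hab (start_ne e x)
  obtain ⟨g, hg⟩ := exists_wt (fun _ => 1) p
    (FM (edgeOf e a _ _ b .r7) ≫ FM (edgeOf e a _ _ b .r8) ≫ FM (edgeOf e a _ _ b .r9))
  refine ⟨wtHom (fun _ => 1) _, g, ?_⟩
  rw [hg, Functor.map_comp, Functor.map_comp, wtF_map, wtF_map, wtF_map]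
  change (Multiplicative.ofAdd (1 : ℤ) * Multiplicative.ofAdd 1) * Multiplicative.ofAdd 1 ≠ 1
  decide

theorem not_halts_triv {x : ℕ} (h : ¬ ∃ u, Ev w (init x) u) :
    Subsingleton (DiagramGroup (RB e) ⟨(start w x).map e, start_ne e x⟩) := by
  obtain ⟨G, h0, hG⟩ := of_not_halts h
  refine subsingleton_of fun f => ?_
  refine loop_triv (fun y : Vtx (RB e) => (y.word.map e.symm).countP isS = 1) ?_ ?_
    (fun y => G (y.word.map e.symm)) (fun y => y.word.length) ?_ ?_ ?_ f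
  · intro x y f
    obtain ⟨a, u, v, b, h1, h2, h3⟩ := step_of_edge e f
    rw [h2, h3]
    simp [List.countP_append, h1.count.1, h1.count.2]
  · rintro x ⟨y, hy⟩ ⟨z, hz⟩ hx ⟨⟨a, r, b⟩, h1, h2, h3⟩ ⟨⟨a', r', b'⟩, g1, g2, g3⟩
    dsimp only at h1 h2 h3 g1 g2 g3
    have inj : Function.Injective (List.map e.symm) := e.symm.injective.list_map
    obtain ⟨k1, k2, k3, k4⟩ := det (a := a.map e.symm) (b := b.map e.symm) (a' := a'.map e.symm)
      (b' := b'.map e.symm) h1 g1 (by simpa [h2] using hx)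
      (by simpa using congrArg (List.map e.symm) (h2.symm.trans g2))
    obtain rfl := inj k1
    obtain rfl := inj k4
    obtain rfl : r = r' := Prod.ext (inj k2) (inj k3)
    subst h3
    subst g3
    rfl
  · intro x y hx f
    simpa using hG _ _ hx (step_of_edge e f)
  · simpa using h0
  · simpa using count_start x

theorem computable_start [Primcodable B] : Computable fun x => (start w x).map e := by
  have h1 : Primrec fun x : ℕ => List.replicate x (e (tk 2)) := by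
    have : Primrec fun x : ℕ => Nat.rec (motive := fun _ => List B) []
        (fun _ l => e (tk 2) :: l) x :=
      Primrec.nat_rec₁ [] (Primrec.list_cons.comp (Primrec.const _) Primrec.snd).to₂
    refine this.of_eq fun x => ?_
    induction x with
    | zero => rfl
    | succ x ih => simp [List.replicate_succ, ← ih]
  have h2 : Primrec fun x : ℕ => [e .L, e (.f (some (entry w)))] ++
      (List.replicate x (e (tk 2)) ++ [e (tk 0), e .R]) :=
    Primrec.list_append.comp (Primrec.const _) (Primrec.list_append.comp h1 (Primrec.const _))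
  exact h2.to_comp.of_eq fun x => by simp [start, cf]

theorem main : ∃ (k : ℕ) (R : Set (List (Fin k) × List (Fin k))), R.Finite ∧
    (∀ r ∈ R, r.1 ≠ [] ∧ r.2 ≠ [] ∧ (r.2, r.1) ∉ R) ∧
    ∃ (P : ℕ → Prop) (g : ℕ → List (Fin k)) (hg : ∀ x, g x ≠ []), ¬ ComputablePred P ∧
      Computable g ∧ ∀ x, (P x → ∃ (φ : DiagramGroup R ⟨g x, hg x⟩ →* Multiplicative ℤ)
        (a : DiagramGroup R ⟨g x, hg x⟩), φ a ≠ 1) ∧
        (¬ P x → Subsingleton (DiagramGroup R ⟨g x, hg x⟩)) := by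
  obtain ⟨w, hw⟩ := exists_undec
  obtain ⟨k, ⟨e⟩⟩ := Finite.exists_equiv_fin (Sym w)
  refine ⟨k, RB e, ?_, ?_, _, _, start_ne e, hw, computable_start e,
    fun x => ⟨halts_hom e, not_halts_triv e⟩⟩
  · refine (Rule.finite (w := w)).preimage
      (f := fun r : List (Fin k) × List (Fin k) => (r.1.map e.symm, r.2.map e.symm)) ?_
    intro r _ r' _ h
    have inj : Function.Injective (List.map e.symm) := e.symm.injective.list_map
    simp only [Prod.mk.injEq] at h
    exact Prod.ext (inj h.1) (inj h.2)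
  · intro r hr
    have h : Rule (r.1.map e.symm) (r.2.map e.symm) := hr
    exact ⟨by simpa using h.ne.1, by simpa using h.ne.2, h.asymm⟩

theorem triv_undec : ∃ (k : ℕ) (R : Set (List (Fin k) × List (Fin k))), R.Finite ∧
    (∀ r ∈ R, r.1 ≠ [] ∧ r.2 ≠ [] ∧ (r.2, r.1) ∉ R) ∧
    ¬ ComputablePred fun w : List (Fin k) =>
      ∃ h : w ≠ [], Nontrivial (DiagramGroup R ⟨w, h⟩) := by
  obtain ⟨k, R, h1, h2, P, g, hg, h3, h4, h5⟩ := main
  refine ⟨k, R, h1, h2, fun h => h3 ?_⟩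
  have h6 : ComputablePred fun x => ∃ h : g x ≠ [], Nontrivial (DiagramGroup R ⟨g x, h⟩) := by
    obtain ⟨d, hd⟩ := h
    exact ⟨fun c => d _, hd.comp h4⟩
  refine h6.of_eq fun x => ⟨?_, fun hp => ?_⟩
  · rintro ⟨_, hn⟩
    by_contra hp
    have := (h5 x).2 hp
    exact false_of_nontrivial_of_subsingleton (DiagramGroup R ⟨g x, hg x⟩)
  · obtain ⟨φ, a, ha⟩ := (h5 x).1 hp
    exact ⟨hg x, a, 1, fun e => ha (by rw [e, map_one])⟩

theorem rank_undec : ∃ (k : ℕ) (R : Set (List (Fin k) × List (Fin k))), R.Finite ∧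
    (∀ r ∈ R, r.1 ≠ [] ∧ r.2 ≠ [] ∧ (r.2, r.1) ∉ R) ∧
    ¬ ∃ f : List (Fin k) → Option ℕ, Computable f ∧ ∀ (w : List (Fin k)) (h : w ≠ []) (n : ℕ),
      f w = some n ↔ abRank (DiagramGroup R ⟨w, h⟩) = n := by
  obtain ⟨k, R, h1, h2, P, g, hg, h3, h4, h5⟩ := main
  refine ⟨k, R, h1, h2, ?_⟩
  rintro ⟨f, hf, h⟩
  apply h3
  have h6 : ComputablePred fun x => ¬ f (g x) = some 0 := by
    refine ComputablePred.not ⟨inferInstance, ?_⟩
    exact (Primrec.eq.decide.to_comp).comp (hf.comp h4) (Computable.const (some 0))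
  refine h6.of_eq fun x => ?_
  rw [h _ (hg x) 0]
  refine ⟨fun hr => ?_, fun hp => ?_⟩
  · by_contra hp
    have := (h5 x).2 hp
    exact hr (by simpa using abRank_zero _)
  · obtain ⟨φ, a, ha⟩ := (h5 x).1 hp
    simpa using abRank_ne _ φ a ha

end Pool.Agent.H65.Squier
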