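import Pool.Agent.H65.SquierT
import Pool.Agent.H65.CD

/-! The critical splitting of a Squier complex and the cohomological dimension. -/

namespace Pool.Agent.H65.Squier

open Coh

variable {A : Type} {R : Set (List A × List A)}

def Loop (R : Set (List A × List A)) (w : List A) : Subgroup (U R) where
  carrier := {g | Pth R w w g}
  one_mem' := .one w
  mul_mem' := Pth.mul
  inv_mem' := Pth.inv

def Act (R : Set (List A × List A)) (a : List A) : Prop := ∃ g, Pth R a a g ∧ g ≠ 1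

theorem Act.eqv {a a' : List A} {α : U R} (h : Act R a) (h' : Pth R a a' α) : Act R a' :=
  h.elim fun g hg => ⟨_, (h'.mul hg.1).mul h'.inv, by simpa using hg.2⟩

theorem crit {v : List A} : ∀ {u : List A}, ¬ Act R u → Act R (u ++ v) →
    ∃ m x c, v = m ++ [x] ++ c ∧ ¬ Act R (u ++ m) ∧ Act R (u ++ m ++ [x]) := by
  induction v with
  | nil => exact fun h h' => absurd (by simpa using h') h
  | cons y v ih =>
    intro u h h'
    by_cases hy : Act R (u ++ [y])
    · exact ⟨[], y, v, rfl, by simpa using h, by simpa using hy⟩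
    · obtain ⟨m, x, c, rfl, h1, h2⟩ := ih hy (by simpa using h')
      exact ⟨y :: m, x, c, rfl, by simpa using h1, by simpa using h2⟩

structure Cut (R : Set (List A × List A)) (w : List A) {M : Type} (wd : M → List A) : Type where
  a : List A
  μ : M
  b : List A
  g : U R
  h1 : ¬ Act R a
  h2 : Act R (a ++ wd μ)
  h3 : Pth R w (a ++ wd μ ++ b) g

theorem inter' {a a' b b' : List A} {α β : U R} (h1 : Pth R a a' α) (h2 : Pth R b b' β)
    (u : List A) : Rw (u ++ b') α * Lw (a ++ u) β = Lw (a' ++ u) β * Rw (u ++ b) α := by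
  simpa only [Rw_Rw] using inter (h1.R' u) h2

theorem pth2 {a a' b b' : List A} {α β : U R} (h1 : Pth R a a' α) (h2 : Pth R b b' β)
    (u : List A) : Pth R (a ++ u ++ b) (a' ++ u ++ b') (Lw (a' ++ u) β * Rw (u ++ b) α) :=
  (h2.L _).mul (by simpa using h1.R' (u ++ b))

variable {w : List A} {M : Type} {wd : M → List A}

instance : Setoid (Cut R w wd) where
  r x y := x.μ = y.μ ∧ ∃ α β, Pth R x.a y.a α ∧ Pth R x.b y.b β ∧
    y.g = Lw (y.a ++ wd x.μ) β * Rw (wd x.μ ++ x.b) α * x.g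
  iseqv := ⟨fun x => ⟨rfl, 1, 1, .one _, .one _, by simp⟩, fun ⟨h, α, β, h1, h2, h3⟩ =>
    ⟨h.symm, α⁻¹, β⁻¹, h1.inv, h2.inv, by rw [h3, ← inter' h1 h2, ← h]; simp [mul_assoc]⟩,
    fun ⟨h, α, β, h1, h2, h3⟩ ⟨h', α', β', h4, h5, h6⟩ => ⟨h.trans h', α' * α, β' * β, h4.mul h1,
      h5.mul h2, by
        rw [h6, h3, ← h, mul_assoc, ← mul_assoc (Rw _ α'), ← mul_assoc (Rw _ α'), inter' h4 h2]
        simp [mul_assoc]⟩⟩

abbrev Cq (R : Set (List A × List A)) (w : List A) (wd : M → List A) : Type :=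
  Quotient (inferInstance : Setoid (Cut R w wd))

def Cut.sm (k : Loop R w) (x : Cut R w wd) : Cut R w wd :=
  { x with g := x.g * k.1⁻¹, h3 := x.h3.mul (Pth.inv k.2) }

instance : MulAction (Loop R w) (Cq R w wd) where
  smul k := Quotient.map (Cut.sm k) fun _ _ ⟨h, α, β, h1, h2, h3⟩ =>
    ⟨h, α, β, h1, h2, by simp [Cut.sm, h3, mul_assoc]⟩
  one_smul := by
    rintro ⟨x⟩
    exact congrArg (Quotient.mk _) (by simp [Cut.sm])
  mul_smul k k' := by
    rintro ⟨x⟩
    exact congrArg (Quotient.mk _) (by simp [Cut.sm, mul_assoc])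

variable (hR : ∀ r ∈ R, r.1 ≠ [] ∧ r.2 ≠ [])

include hR

theorem stab (x : Cut R w wd) :
    Nonempty (Loop R x.b ≃* MulAction.stabilizer (Loop R w) (⟦x⟧ : Cq R w wd)) := by
  let f : Loop R x.b →* MulAction.stabilizer (Loop R w) (⟦x⟧ : Cq R w wd) := MonoidHom.mk'
    (fun β => ⟨⟨x.g⁻¹ * Lw (x.a ++ wd x.μ) β * x.g, (x.h3.inv.mul (Pth.L β.2 _)).mul x.h3⟩,
      Quotient.sound ⟨rfl, 1, β, .one _, β.2, by simp [Cut.sm, mul_assoc]⟩⟩) fun β β' => by
      ext
      simp [mul_assoc]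
  refine ⟨MulEquiv.ofBijective f ⟨(injective_iff_map_eq_one _).2 fun β h => Subtype.ext
    (L_inj hR (a := x.a ++ wd x.μ) β.2 ?_), fun k => ?_⟩⟩
  · have : x.g⁻¹ * Lw (x.a ++ wd x.μ) β * x.g = 1 := congrArg (fun k => k.1.1) h
    simpa [mul_assoc, inv_mul_eq_iff_eq_mul] using this
  · obtain ⟨-, α, β, h1, h2, h3⟩ := Quotient.exact k.2
    obtain rfl : α = 1 := by_contra fun h => x.h1 ⟨α, h1, h⟩
    refine ⟨⟨β, h2⟩, Subtype.ext (Subtype.ext ?_)⟩
    change x.g⁻¹ * Lw _ β * x.g = _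
    simp only [Cut.sm, map_one, mul_one] at h3
    rw [inv_mul_eq_iff_eq_mul.2 (show Lw _ β = x.g * (k.1.1 * x.g⁻¹) by
      rw [eq_mul_inv_of_mul_eq h3.symm]; group)]
    group

theorem Act.app {a : List A} (h : Act R a) (c : List A) : Act R (a ++ c) :=
  h.elim fun _ hg => ⟨_, hg.1.R' c, fun e => hg.2 (R_inj hR hg.1 e)⟩

theorem not_act : ¬ Act R [] := fun ⟨_, h, h'⟩ => by
  obtain ⟨l, h1, rfl⟩ := h.tp
  cases h1 with
  | nil => exact h' rfl
  | @cons _ _ s _ h1 h2 _ => simpa [sd_ne hR h1] using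
      (src_eq s.1 s.2.2.1 s.2.1 s.2.2.2).symm.trans h2

theorem cut_ext {x y : Cut R w fun x : A => [x]} (h : x.a ++ [x.μ] ++ x.b = y.a ++ [y.μ] ++ y.b)
    (h' : x.g = y.g) : x = y := by
  obtain ⟨a, x, b, g, h1, h2, h3⟩ := x
  obtain ⟨a', x', b', g', h4, h5, h6⟩ := y
  simp only [List.append_assoc, List.singleton_append] at h
  obtain rfl : g = g' := h'
  rcases List.append_eq_append_iff.1 h with ⟨_ | ⟨y, m⟩, rfl, h7⟩ | ⟨_ | ⟨y, m⟩, rfl, h7⟩
  · obtain ⟨rfl, rfl⟩ := List.cons.inj h7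
    simp
  · obtain rfl := (List.cons.inj h7).1
    exact absurd (by simpa using h2.app hR m) h4
  · obtain ⟨rfl, rfl⟩ := List.cons.inj h7
    simp
  · obtain rfl := (List.cons.inj h7).1
    exact absurd (by simpa using h5.app hR m) h1

theorem ex_cut (hw : Act R w) {z : List A} {g : U R} (h : Pth R w z g) :
    ∃ x : Cut R w fun x : A => [x], z = x.a ++ [x.μ] ++ x.b ∧ g = x.g := by
  obtain ⟨m, x, c, rfl, h1, h2⟩ := crit (not_act hR) (hw.eqv h)
  exact ⟨⟨m, x, c, g, h1, h2, h⟩, rfl, rfl⟩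

theorem cd_step {K : Type} [CommRing K] {n : ℕ} (hw : Act R w)
    (ih : ∀ u b g, Act R u → Pth R w (u ++ b) g → CD K n (Loop R b)) : CD K (n + 1) (Loop R w) := by
  classical
  let V := Cq R w fun x : A => [x]
  let E := Cq R w fun r : R => r.1.1
  obtain ⟨vt, vt_eq⟩ : ∃ vt : ∀ z g, Pth R w z g → V, ∀ (x : Cut R w fun x : A => [x]) z g h,
      z = x.a ++ [x.μ] ++ x.b → g = x.g → vt z g h = ⟦x⟧ :=
    ⟨fun z g h => ⟦(ex_cut hR hw h).choose⟧, fun x z g h h1 h2 => congrArg _ (cut_ext hR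
      ((ex_cut hR hw h).choose_spec.1.symm.trans h1) ((ex_cut hR hw h).choose_spec.2.symm.trans h2))⟩
  have vt_move : ∀ {a a' u b b' α β g g'} h h', ¬ Act R a → Act R (a ++ u) → Pth R a a' α →
      Pth R b b' β → g' = Lw (a' ++ u) β * Rw (u ++ b) α * g →
      vt (a ++ u ++ b) g h = vt (a' ++ u ++ b') g' h' := by
    intro a a' u b b' α β g g' h h' h1 h2 h3 h4 h5
    obtain ⟨m, x, c, rfl, h6, h7⟩ := crit h1 h2
    rw [vt_eq ⟨a ++ m, x, c ++ b, g, h6, h7, by simpa using h⟩ _ _ _ (by simp) rfl,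
      vt_eq ⟨a' ++ m, x, c ++ b', g', fun e => h6 (e.eqv (h3.R' m).inv),
        h7.eqv ((h3.R' m).R' _), by simpa using h'⟩ _ _ _ (by simp) rfl]
    exact Quotient.sound ⟨rfl, _, _, h3.R' m, h4.L c, by simp [h5, Lw_Lw, Rw_Rw]⟩
  have vt_non : ∀ {a b r g} (hr : r ∈ R) h, Act R a ∨ ¬ Act R (a ++ r.1) →
      vt (a ++ r.1 ++ b) g h = vt (a ++ r.2 ++ b) _ ((Pth.edge a b hr).mul h) := by
    intro a b r g hr h h1
    rcases h1 with h1 | h1
    · have := vt_move (a := []) (a' := []) (u := a) (b := r.1 ++ b) (b' := r.2 ++ b)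
        (by simpa using h) (by simpa using (Pth.edge a b hr).mul h) (not_act hR) h1 (.one _)
        (Pth.edge [] b hr) (by simp)
      simpa using this
    · have := vt_move (a' := a ++ r.2) (u := b) (b := []) (b' := []) (α := e R (a, r, []))
        (by simpa using h) (by simpa using (Pth.edge a b hr).mul h) h1 (hw.eqv h)
        (by simpa using Pth.edge a [] hr) (.one _) (g' := e R (a, r, b) * g) (by simp)
      simpa using this
  have vt_sm : ∀ (k : Loop R w) z g h, vt z (g * k.1⁻¹) (h.mul (Pth.inv k.2)) = k • vt z g h := by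
    intro k z g h
    obtain ⟨x, h1, h2⟩ := ex_cut hR hw h
    rw [vt_eq x _ _ _ h1 h2, vt_eq (x.sm k) _ _ _ h1 (by rw [h2]; rfl)]
    rfl
  let κ : Tr A → U R → Multiplicative (E →₀ ℤ) := fun t g => if h : t.2.1 ∈ R ∧ ¬ Act R t.1 ∧
      Act R (t.1 ++ t.2.1.1) ∧ Pth R w (t.1 ++ t.2.1.1 ++ t.2.2) g then .ofAdd (.single
      ⟦⟨t.1, ⟨t.2.1, h.1⟩, t.2.2, g, h.2.1, h.2.2.1, h.2.2.2⟩⟧ 1) else 1
  have κm : ∀ {a a' b b' α β} r g, Pth R a a' α → Pth R b b' β →
      κ (a', r, b') (Lw (a' ++ r.1) β * Rw (r.1 ++ b) α * g) = κ (a, r, b) g := by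
    intro a a' b b' α β r g h1 h2
    refine dite_congr (propext (and_congr_right' (and_congr (not_congr ⟨fun h => h.eqv h1.inv,
      fun h => h.eqv h1⟩) (and_congr ⟨fun h => h.eqv (h1.R' _).inv, fun h => h.eqv (h1.R' _)⟩
      ⟨fun h => by simpa [mul_assoc] using (pth2 h1 h2 r.1).inv.mul h, (pth2 h1 h2 r.1).mul⟩)))) (fun h => ?_)
      fun _ => rfl
    exact congrArg (fun y : E => Multiplicative.ofAdd (Finsupp.single y 1))
      (Quotient.sound (Setoid.symm ⟨rfl, α, β, h1, h2, rfl⟩))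
  obtain ⟨H, H1, H2⟩ := cocycle κ fun a b c r hr s hs g => by
    have h1 := κm r g (.one a) (Pth.edge b c hs)
    have h2 := κm s g (Pth.edge a b hr) (.one c)
    simp only [map_one, mul_one, one_mul, Lw_e, Rw_e, List.append_assoc] at h1 h2 ⊢
    rw [h1, h2, mul_comm]
  have H0 : ∀ g, H 1 g = 1 := fun g => by simpa using H1 1 1 g
  have H3 : ∀ k g, (∀ g, H k g = 1) → H k⁻¹ g = 1 := fun k g h => by
    simpa [h, H0] using (H1 k k⁻¹ g).symm
  have HL : ∀ {p b b' β}, Act R p → Pth R b b' β → ∀ g, H (Lw p β) g = 1 := fun hp h => by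
    have : ∀ a r b g, H (Lw _ (e R (a, r, b))) g = 1 := fun a r b g => by
      rw [Lw_e, H2]
      exact dif_neg fun h => h.2.1 (hp.app hR a)
    induction h with
    | one => simpa using H0
    | pos a r b _ _ ih => intro g; rw [map_mul, H1, ih, this, mul_one]
    | neg a r b _ _ ih => intro g; rw [map_mul, H1, ih, map_inv, H3 _ _ (this a r b), mul_one]
  have HR : ∀ {c a a' α}, ¬ Act R a → Pth R a a' α → ∀ g, H (Rw c α) g = 1 := fun {c _ _ _} hp h => by
    have : ∀ a r b, ¬ Act R (a ++ r.1 ++ b) → ∀ g, H (Rw c (e R (a, r, b))) g = 1 :=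
      fun a r b h g => by
        rw [Rw_e, H2]
        exact dif_neg fun h' => h (h'.2.2.1.app hR b)
    induction h with
    | one => simpa using H0
    | pos a r b _ h ih => intro g; rw [map_mul, H1, ih, this a r b fun e => hp (e.eqv h.inv), mul_one]
    | neg a r b hr h ih =>
      intro g
      rw [map_mul, H1, ih, map_inv, H3 _ _ (this a r b fun e =>
        hp ((e.eqv (Pth.edge a b hr)).eqv h.inv)), mul_one]
  let h : V → E →₀ ℤ := Quotient.lift (fun x => (H x.g 1).toAdd) fun x y ⟨_, α, β, h1, h2, h3⟩ => by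
    rw [h3, H1, H1, HL (x.h2.eqv (h1.R' _)) h2, HR x.h1 h1, mul_one, one_mul]
  have hv : ∀ z g k, h (vt z g k) = (H g 1).toAdd := fun z g k => by
    obtain ⟨x, h1, h2⟩ := ex_cut hR hw k
    rw [vt_eq x _ _ _ h1 h2, h2]
    rfl
  let s : E → V := Quotient.lift (fun x => vt _ _ x.h3) fun x y ⟨h0, α, β, h1, h2, h3⟩ => by
    obtain ⟨_, _, _, _, _, _, _⟩ := y
    cases h0
    exact vt_move _ _ x.h1 x.h2 h1 h2 h3
  let t : E → V := Quotient.lift (fun x => vt _ _ ((Pth.edge x.a x.b x.μ.2).mul x.h3))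
    fun x y ⟨h0, α, β, h1, h2, h3⟩ => by
      obtain ⟨a', _, b', _, _, _, _⟩ := y
      cases h0
      refine vt_move _ _ x.h1 (x.h2.eqv (by simpa using Pth.edge x.a [] x.μ.2)) h1 h2 ?_
      have h4 := inter (Pth.edge a' [] x.μ.2) h2
      have h5 := inter h1 (Pth.edge [] x.b x.μ.2)
      simp only [List.append_nil, List.nil_append, Rw_e, Lw_e] at h3 h4 h5 ⊢
      rw [h3, ← mul_assoc, ← mul_assoc, h4, mul_assoc (Lw _ β), ← h5]
      simp only [mul_assoc]
  refine tree s t ?_ ?_ (vt w 1 (.one w)) (fun P hP h0 => ?_) h ?_ ?_ ?_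
  · rintro k ⟨x⟩
    exact vt_sm k _ _ x.h3
  · rintro k ⟨x⟩
    refine Eq.trans ?_ (vt_sm k _ _ ((Pth.edge x.a x.b x.μ.2).mul x.h3))
    simp only [mul_assoc]
    rfl
  · have e1 : ∀ a b r g (hr : r ∈ R) h, P (vt (a ++ r.2 ++ b) _ ((Pth.edge a b hr).mul h)) ↔
        P (vt (a ++ r.1 ++ b) g h) := fun a b r g hr h => by
      by_cases h1 : Act R a ∨ ¬ Act R (a ++ r.1)
      · rw [vt_non hr h h1]
      · push Not at h1
        exact hP ⟦⟨a, ⟨r, hr⟩, b, g, h1.1, h1.2, h⟩⟧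
    have e2 : ∀ z g (h : Pth R w z g), P (vt z g h) := fun z g h => by
      induction h with
      | one => exact h0
      | pos a r b hr h ih => exact (e1 a b r _ hr h).2 ih
      | neg a r b hr h ih => exact (e1 a b r _ hr _).1 (by simpa using ih)
    rintro ⟨x⟩
    exact (congrArg P (vt_eq x _ _ x.h3 rfl rfl)).mp (e2 _ _ _)
  · rintro ⟨x⟩
    refine (hv _ _ _).trans (Eq.trans ?_ (congrArg (· + _) (hv _ _ x.h3).symm))
    rw [H1, H2, mul_one, toAdd_mul, add_comm]
    exact congrArg _ (congrArg Multiplicative.toAdd (dif_pos ⟨x.μ.2, x.h1, x.h2, x.h3⟩))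
  · rintro ⟨x⟩
    exact (ih _ _ _ x.h2 x.h3).of_equiv (stab hR x).some.symm
  · rintro ⟨x⟩
    exact (ih _ _ _ x.h2 x.h3).of_equiv (stab hR x).some.symm

theorem cd_loop {K : Type} [CommRing K] (n : ℕ) : ∀ w : List A, (∀ (l : List (List A)) g,
    (∀ u ∈ l, Act R u) → Pth R w l.flatten g → l.length ≤ n) → CD K n (Loop R w) := by
  have h0 : ∀ w, ¬ Act R w → Subsingleton (Loop R w) := fun w h =>
    subsingleton_of_forall_eq 1 fun g => Subtype.ext (by_contra fun e => h ⟨g, g.2, e⟩)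
  induction n with
  | zero =>
    intro w h
    have := h0 w fun hw => by simpa using h [w] 1 (by simpa using hw) (by simpa using Pth.one w)
    exact CD.triv 0
  | succ n ih =>
    intro w h
    by_cases hw : Act R w
    · exact cd_step hR hw fun u b g hu hg => ih b fun l g' h1 h2 => by
        simpa using h (u :: l) _ (by simpa [hu] using h1) ((h2.L u).mul hg)
    · have := h0 w hw
      exact CD.triv _

theorem zk (l : List (List A)) (h : ∀ u ∈ l, Act R u) :
    ∃ f : Multiplicative (Fin l.length → ℤ) →* Loop R l.flatten, Function.Injective f := by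
  induction l with
  | nil => exact ⟨1, fun _ _ _ => Subsingleton.elim (α := Fin 0 → ℤ) _ _⟩
  | cons u l ih =>
    obtain ⟨f, hf⟩ := ih fun v hv => h v (by simp [hv])
    obtain ⟨α, h1, h2⟩ := h u (by simp)
    have h3 : ∀ n : ℤ, Pth R u u (α ^ n) := fun n => (Loop R u).zpow_mem h1 n
    refine ⟨MonoidHom.mk' (fun m => ⟨Lw u (f (.ofAdd fun i => m.toAdd i.succ)) *
      Rw l.flatten (α ^ m.toAdd 0), (Pth.L (f _).2 u).mul ((h3 _).R' _)⟩) fun m m' => ?_,
      (injective_iff_map_eq_one _).2 fun m hm => ?_⟩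
    · refine Subtype.ext ?_
      change Lw u (f (.ofAdd (fun i => m.toAdd i.succ) * .ofAdd fun i => m'.toAdd i.succ)) *
        Rw _ (α ^ (m.toAdd 0 + m'.toAdd 0)) = _
      rw [map_mul, Subgroup.coe_mul, map_mul, zpow_add, map_mul, Subgroup.coe_mul, mul_assoc,
        mul_assoc, ← mul_assoc (Rw _ _), inter (h3 _) (f _).2, mul_assoc]
    · obtain ⟨h4, h5⟩ := split_inj hR (h3 _) (f _).2 (congrArg Subtype.val hm)
      have h6 := (injective_iff_map_eq_one _).1 hf _ (Subtype.ext h5)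
      exact funext (Fin.cases ((tf hR h1 h4).resolve_right h2) (congrFun h6))

theorem loop_equiv (w : Vtx R) : Nonempty (DiagramGroup R w ≃* Loop R w.word) :=
  ⟨MulEquiv.ofBijective ((iota w).codRestrict _ iota_pth) ⟨fun _ _ h => iota_inj hR w
    (congrArg Subtype.val h), fun g => (exists_iota hR g.2).imp fun _ => Subtype.ext⟩⟩

theorem cd_le {K : Type} [CommRing K] (w : Vtx R) (n : ℕ) (h : ∀ m : ℕ,
    (∃ f : Multiplicative (Fin m → ℤ) →* DiagramGroup R w, Function.Injective f) → m ≤ n) :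
    CD K n (DiagramGroup R w) := by
  obtain ⟨φ⟩ := loop_equiv hR w
  refine (cd_loop hR n w.word fun l g h1 h2 => h _ ?_).of_equiv φ
  obtain ⟨f, hf⟩ := zk hR l h1
  let c : Loop R l.flatten →* Loop R w.word := ((MulAut.conj g⁻¹).toMonoidHom.comp
    (Subgroup.subtype _)).codRestrict _ fun k => by
      simpa using show _ ∈ Loop R w.word from (h2.inv.mul k.2).mul h2
  exact ⟨(φ.symm.toMonoidHom.comp c).comp f, (φ.symm.injective.comp fun x y e =>
    Subtype.ext ((MulAut.conj g⁻¹).injective (congrArg Subtype.val e))).comp hf⟩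

end Pool.Agent.H65.Squier
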