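import Mathlib

/-! Squier complexes and diagram groups of semigroup presentations. -/

namespace Pool.Agent.H65.Squier

open CategoryTheory

variable {A : Type}

/-- Vertices of the Squier complex of the presentation with relation set `R`: non-empty words. -/
structure Vtx (R : Set (List A × List A)) : Type where
  word : List A
  ne : word ≠ []

/-- Edges: one edge `(a, (u, v), b)` from `a u b` to `a v b` for each relation `(u, v)` in `R` and
all (possibly empty) words `a`, `b`. -/
instance (R : Set (List A × List A)) : Quiver (Vtx R) where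
  Hom x y := {e : List A × (List A × List A) × List A //
    e.2.1 ∈ R ∧ x.word = e.1 ++ e.2.1.1 ++ e.2.2 ∧ y.word = e.1 ++ e.2.1.2 ++ e.2.2}

/-- The squares: applying the relation `r` and then the relation `s` to `a r.1 b s.1 c` is
homotopic to applying them in the other order. -/
inductive Square (R : Set (List A × List A)) : HomRel (Quiver.FreeGroupoid (Vtx R))
  | mk {x y z t : Vtx R} (e₁ : x ⟶ y) (e₂ : y ⟶ t) (e₃ : x ⟶ z) (e₄ : z ⟶ t)
      (a b c : List A) (r s : List A × List A)
      (h₁ : e₁.1 = (a, r, b ++ s.1 ++ c)) (h₂ : e₂.1 = (a ++ r.2 ++ b, s, c))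
      (h₃ : e₃.1 = (a ++ r.1 ++ b, s, c)) (h₄ : e₄.1 = (a, r, b ++ s.2 ++ c)) :
      Square R ((Quiver.FreeGroupoid.of (Vtx R)).map e₁ ≫ (Quiver.FreeGroupoid.of (Vtx R)).map e₂)
        ((Quiver.FreeGroupoid.of (Vtx R)).map e₃ ≫ (Quiver.FreeGroupoid.of (Vtx R)).map e₄)

/-- The diagram group `D(P, w)`: the vertex group at `w` of the edge-path groupoid of the Squier
complex (free groupoid on the 1-skeleton modulo the boundaries of the squares). -/
abbrev DiagramGroup (R : Set (List A × List A)) (w : Vtx R) : Type :=
  Aut ((Quotient.functor (Square R)).obj ((Quiver.FreeGroupoid.of (Vtx R)).obj w))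

/-- The rank of the abelianisation: the dimension of `ℚ ⊗ G/[G,G]`. -/
noncomputable def abRank (G : Type) [Group G] : Cardinal :=
  Module.rank ℚ (TensorProduct ℤ ℚ (Additive (Abelianization G)))

end Pool.Agent.H65.Squier
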