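import Pool.Agent.H65.SquierC

/-! Free splittings of diagram groups along hyperplanes with trivial stabiliser. -/

namespace Pool.Agent.H65.Squier

variable {A : Type} {R : Set (List A × List A)}

def tr (s : SE A) : Tr A := (s.1, s.2.1, s.2.2.1)

def fl (s : SE A) : SE A := (s.1, s.2.1, s.2.2.1, !s.2.2.2)

def rv (l : List (SE A)) : List (SE A) := (l.map fl).reverse

theorem TP.rv {x y : List A} {l : List (SE A)} (h : TP R x y l) : TP R y x (rv l) := by
  induction h with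
  | nil => exact .nil _
  | @cons x y s l h1 h2 _ ih =>
    subst h2
    simpa [Squier.rv, fl] using ih.append (tp1 h1 s.2.2.2).2

theorem ev_rv (l : List (SE A)) : ev R (rv l) = (ev R l)⁻¹ := by
  induction l with
  | nil => simp [rv, ev]
  | cons s l ih =>
    have : rv (s :: l) = rv l ++ [fl s] := by simp [rv]
    rw [this, ev_append, ih]
    simp [ev, fl, sv_not]

variable (R) in
def Pr (P : Tr A → Prop) (x y : List A) (g : U R) : Prop :=
  ∃ l, TP R x y l ∧ (∀ s ∈ l, P (tr s)) ∧ ev R l = g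

variable {P : Tr A → Prop} {x y z : List A} {g k : U R}

theorem Pr.one (x : List A) : Pr R P x x 1 := ⟨[], .nil _, by simp, rfl⟩

theorem Pr.mul (h : Pr R P y z k) (h' : Pr R P x y g) : Pr R P x z (k * g) := by
  obtain ⟨l, h1, h2, rfl⟩ := h
  obtain ⟨m, h3, h4, rfl⟩ := h'
  exact ⟨m ++ l, h3.append h1, List.forall_mem_append.2 ⟨h4, h2⟩, ev_append _ _⟩

theorem Pr.inv (h : Pr R P x y g) : Pr R P y x g⁻¹ := by
  obtain ⟨l, h1, h2, rfl⟩ := h
  refine ⟨rv l, h1.rv, fun s hs => ?_, ev_rv _⟩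
  obtain ⟨t, ht, rfl⟩ := List.mem_map.1 (List.mem_reverse.1 hs)
  exact h2 t ht

theorem Pr.pth (h : Pr R P x y g) : Pth R x y g := h.elim fun _ h => h.2.2 ▸ h.1.pth

theorem Pr.mono {Q : Tr A → Prop} (h : Pr R P x y g) (h' : ∀ t, P t → Q t) : Pr R Q x y g :=
  h.imp fun _ h => ⟨h.1, fun s hs => h' _ (h.2.1 s hs), h.2.2⟩

theorem Pr.sv {s : SE A} (hr : s.2.1 ∈ R) (h : P (tr s)) : Pr R P (src s) (tgt s) (sv R s) :=
  ⟨[s], .cons hr rfl (.nil _), by simpa using h, one_mul _⟩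

theorem Pr.edge {a b : List A} {r : List A × List A} (hr : r ∈ R) (h : P (a, r, b)) :
    Pr R P (a ++ r.1 ++ b) (a ++ r.2 ++ b) (e R (a, r, b)) := Pr.sv (s := (a, r, b, true)) hr h

variable (R) in
def PL (P : Tr A → Prop) (z : List A) : Subgroup (U R) where
  carrier := {g | Pr R P z z g}
  one_mem' := .one z
  mul_mem' := Pr.mul
  inv_mem' := Pr.inv

variable (R) in
/-- edges dual to a critical hyperplane with trivial stabiliser -/
def TE (t : Tr A) : Prop := ¬ Act R t.1 ∧ Act R (t.1 ++ t.2.1.1) ∧ ¬ Act R t.2.2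

variable (R) in
/-- parallel edges -/
def Ep (t₀ t : Tr A) : Prop :=
  t.2.1 = t₀.2.1 ∧ (∃ α, Pth R t₀.1 t.1 α) ∧ ∃ β, Pth R t₀.2.2 t.2.2 β

theorem TE.ep {t₀ t : Tr A} (h : TE R t₀) (h' : Ep R t₀ t) : TE R t :=
  let ⟨h0, ⟨_, h1⟩, _, h2⟩ := h'
  ⟨fun e => h.1 (e.eqv h1.inv), h0 ▸ h.2.1.eqv (h1.R' _), fun e => h.2.2 (e.eqv h2.inv)⟩

theorem act_sd {a : List A} {r : List A × List A} (hr : r ∈ R) (h : Act R (a ++ r.1)) (c : Bool) :
    Act R (a ++ sd r c) := by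
  cases c
  exacts [h.eqv (by simpa [sd] using Pth.edge a [] hr), h]

theorem uniq {a : List A} (h : ¬ Act R a) : ∃ p : List A → U R, ∀ {x g}, Pth R a x g → p x = g := by
  classical
  refine ⟨fun x => if h : ∃ g, Pth R a x g then h.choose else 1, fun {x g} hg => ?_⟩
  have e : ∃ g, Pth R a x g := ⟨g, hg⟩
  exact (dif_pos e).trans (inv_mul_eq_one.1 (by_contra fun n =>
    h ⟨_, hg.inv.mul e.choose_spec, n⟩)).symm

variable (hR : ∀ r ∈ R, r.1 ≠ [] ∧ r.2 ≠ [])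

include hR

theorem nT_R {a a' : List A} (ha : ¬ Act R a) (h : Pth R a a' g) (c : List A) :
    Pr R (¬ TE R ·) (a ++ c) (a' ++ c) (Rw c g) := by
  induction h with
  | one => simpa using Pr.one _
  | pos a r b hr h ih =>
    simpa using (Pr.edge (b := b ++ c) hr fun e => ha ((e.2.1.app hR b).eqv h.inv)).mul
      (by simpa using ih)
  | neg a r b hr h ih =>
    simpa using (Pr.edge (b := b ++ c) hr fun e => ha (((e.2.1.app hR b).eqv
      (Pth.edge a b hr)).eqv h.inv)).inv.mul (by simpa using ih)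

theorem nT_L {p b b' : List A} (hp : Act R p) (h : Pth R b b' g) :
    Pr R (¬ TE R ·) (p ++ b) (p ++ b') (Lw p g) := by
  induction h with
  | one => simpa using Pr.one _
  | pos a r b hr h ih =>
    simpa using (Pr.edge (a := p ++ a) hr fun e => e.1 (hp.app hR a)).mul (by simpa using ih)
  | neg a r b hr h ih =>
    simpa using (Pr.edge (a := p ++ a) hr fun e => e.1 (hp.app hR a)).inv.mul (by simpa using ih)

theorem nT_2 {a a' b b' u : List A} (ha : ¬ Act R a) (hu : Act R (a ++ u)) (h1 : Pth R a a' g)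
    (h2 : Pth R b b' k) :
    Pr R (¬ TE R ·) (a ++ u ++ b) (a' ++ u ++ b') (Lw (a' ++ u) k * Rw (u ++ b) g) :=
  (nT_L hR (hu.eqv (h1.R' u)) h2).mul (by simpa using nT_R hR ha h1 (u ++ b))

omit hR in
theorem par {a a' b b' : List A} {r : List A × List A} (hr : r ∈ R) (c : Bool)
    (h1 : Pth R a a' g) (h2 : Pth R b b' k) :
    sv R (a', r, b', c) * (Lw (a' ++ sd r c) k * Rw (sd r c ++ b) g) =
      Lw (a' ++ sd r (!c)) k * Rw (sd r (!c) ++ b) g * sv R (a, r, b, c) := by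
  have h4 := inter (pth_sv a' [] hr c) h2
  have h5 := inter h1 (pth_sv [] b hr c)
  simp only [List.append_nil, List.nil_append, Rw_sv, Lw_sv] at h4 h5
  rw [← mul_assoc, h4, mul_assoc, ← h5, mul_assoc]

theorem univ {a₀ b₀ : List A} {r₀ : List A × List A} (hr₀ : r₀ ∈ R) (hT : TE R (a₀, r₀, b₀))
    {M : Type} [Group M] (j : List A → List A → U R → M)
    (hj : ∀ {x y z g k}, Pr R (¬ Ep R (a₀, r₀, b₀) ·) x y g → Pr R (¬ Ep R (a₀, r₀, b₀) ·) y z k →
      j x z (k * g) = j y z k * j x y g) (θ : M) : ∃ Φ : U R →* M,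
    (∀ {x y g}, Pr R (¬ Ep R (a₀, r₀, b₀) ·) x y g → Φ g = j x y g) ∧ Φ (e R (a₀, r₀, b₀)) = θ := by
  classical
  obtain ⟨pa, ha⟩ := uniq hT.1
  obtain ⟨pb, hb⟩ := uniq hT.2.2
  let κ : List A → List A → List A → U R := fun a u b => Lw (a ++ u) (pb b) * Rw (u ++ b₀) (pa a)
  let J : List A → List A → List A → M := fun a u b => j (a₀ ++ u ++ b₀) (a ++ u ++ b) (κ a u b)
  have hκ : ∀ {a r b u}, Ep R (a₀, r₀, b₀) (a, r, b) → Act R (a₀ ++ u) →
      Pr R (¬ Ep R (a₀, r₀, b₀) ·) (a₀ ++ u ++ b₀) (a ++ u ++ b) (κ a u b) :=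
    fun ⟨_, ⟨_, h1⟩, _, h2⟩ hu => (nT_2 hR hT.1 hu (ha h1 ▸ h1) (hb h2 ▸ h2)).mono
      fun _ h h' => h (hT.ep h')
  have j1 : ∀ x, j x x 1 = 1 := fun x => by simpa using hj (.one x) (.one x)
  have c1 : Act R (a₀ ++ r₀.1) := hT.2.1
  have c2 : Act R (a₀ ++ r₀.2) := act_sd hr₀ hT.2.1 false
  have ed : ∀ {a r b}, r ∈ R → ¬ Ep R (a₀, r₀, b₀) (a, r, b) → Pr R (¬ Ep R (a₀, r₀, b₀) ·)
    (a ++ r.1 ++ b) (a ++ r.2 ++ b) (e R (a, r, b)) := fun hr h => Pr.edge hr h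
  let γ : Tr A → M := fun t => if Ep R (a₀, r₀, b₀) t then J t.1 r₀.2 t.2.2 * θ * (J t.1 r₀.1 t.2.2)⁻¹
    else j (t.1 ++ t.2.1.1 ++ t.2.2) (t.1 ++ t.2.1.2 ++ t.2.2) (e R t)
  let Φ : U R →* M := ulift γ fun a b c r hr s hs => by
    have i1 : Ep R (a₀, r₀, b₀) (a, r, b ++ s.1 ++ c) ↔ Ep R (a₀, r₀, b₀) (a, r, b ++ s.2 ++ c) :=
      and_congr_right' (and_congr_right' ⟨fun ⟨_, h⟩ => ⟨_, (Pth.edge b c hs).mul h⟩,
        fun ⟨_, h⟩ => ⟨_, (Pth.edge b c hs).inv.mul h⟩⟩)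
    have i2 : Ep R (a₀, r₀, b₀) (a ++ r.1 ++ b, s, c) ↔ Ep R (a₀, r₀, b₀) (a ++ r.2 ++ b, s, c) :=
      and_congr_right' (and_congr_left' ⟨fun ⟨_, h⟩ => ⟨_, (Pth.edge a b hr).mul h⟩,
        fun ⟨_, h⟩ => ⟨_, (Pth.edge a b hr).inv.mul h⟩⟩)
    by_cases h1 : Ep R (a₀, r₀, b₀) (a, r, b ++ s.1 ++ c)
    · have n : ∀ u, Act R (a₀ ++ u) → ¬ Ep R (a₀, r₀, b₀) (a ++ u ++ b, s, c) := fun u hu h =>
        (hT.ep h).1 ((hu.eqv (h1.2.1.choose_spec.R' u)).app hR b)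
      have k : ∀ u, Act R (a₀ ++ u) → J a u (b ++ s.2 ++ c) = j (a ++ u ++ b ++ s.1 ++ c)
          (a ++ u ++ b ++ s.2 ++ c) (e R (a ++ u ++ b, s, c)) * J a u (b ++ s.1 ++ c) := by
        intro u hu
        have := hj (hκ h1 hu) (by simpa using ed hs (n u hu))
        obtain ⟨β, h⟩ := h1.2.2
        simp only [J, κ, hb h, hb ((Pth.edge b c hs).mul h)] at this ⊢
        simp only [map_mul, Lw_e, mul_assoc, List.append_assoc] at this ⊢
        exact this
      obtain rfl : r = r₀ := h1.1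
      simp only [γ, if_pos h1, if_pos (i1.1 h1), if_neg (n _ c1), if_neg (n _ c2), k _ c1, k _ c2]
      group
    by_cases h2 : Ep R (a₀, r₀, b₀) (a ++ r.1 ++ b, s, c)
    · have k : ∀ u, Act R (a₀ ++ u) → J (a ++ r.2 ++ b) u c = j (a ++ r.1 ++ (b ++ u ++ c))
          (a ++ r.2 ++ (b ++ u ++ c)) (e R (a, r, b ++ u ++ c)) * J (a ++ r.1 ++ b) u c := by
        intro u hu
        have := hj (hκ h2 hu) (by
          simpa using ed (b := b ++ u ++ c) hr fun h => (hT.ep h2).1 ((hT.ep h).2.1.app hR b))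
        obtain ⟨α, h⟩ := h2.2.1
        obtain ⟨β, h'⟩ := h2.2.2
        have h3 := inter' (Pth.edge a b hr) h' u
        simp only [J, κ, ha h, ha ((Pth.edge a b hr).mul h), hb h'] at this ⊢
        simp only [map_mul, Rw_e, ← mul_assoc, List.append_assoc] at this h3 ⊢
        rw [← h3, this]
      obtain rfl : s = r₀ := h2.1
      simp only [γ, if_pos h2, if_pos (i2.1 h2), if_neg h1, if_neg (mt i1.2 h1), k _ c1, k _ c2]
      group
    · simp only [γ, if_neg h1, if_neg h2, if_neg (mt i1.2 h1), if_neg (mt i2.2 h2)]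
      have k1 := hj (ed hr h1) (by simpa using ed hs (mt i2.2 h2))
      have k2 := hj (ed hs h2) (by simpa using ed hr (mt i1.2 h1))
      have k3 := sq a b c hr hs
      simp only [List.append_assoc] at k1 k2 k3 ⊢
      rw [← k1, ← k2, k3]
  refine ⟨Φ, ?_, ?_⟩
  · rintro x y _ ⟨l, h1, h2, rfl⟩
    induction h1 with
    | nil x => exact (map_one Φ).trans (j1 x).symm
    | @cons x y s l h3 h4 h5 ih =>
      subst h4
      have h6 := fun t ht => h2 t (List.mem_cons_of_mem _ ht)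
      have h7 := h2 s (by simp)
      rw [ev, map_mul, ih h6, hj (Pr.sv h3 h7) ⟨l, h5, h6, rfl⟩]
      congr 1
      obtain ⟨a, r, b, _ | _⟩ := s
      · have := hj (ed h3 h7) (ed h3 h7).inv
        rw [inv_mul_cancel, j1, eq_comm, mul_eq_one_iff_eq_inv] at this
        exact ((map_inv Φ _).trans (congrArg _ ((ulift_e _ _ _).trans (if_neg h7)))).trans this.symm
      · exact (ulift_e _ _ _).trans (if_neg h7)
  · refine (ulift_e _ _ _).trans ((if_pos ⟨rfl, ⟨_, .one _⟩, _, .one _⟩).trans ?_)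
    simp [J, κ, ha (.one _), hb (.one _), j1]

end Pool.Agent.H65.Squier
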