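import Pool.Agent.H65.SquierF

/-! Freely indecomposable diagram groups are thick. -/

namespace Pool.Agent.H65.Squier

open Monoid

variable {A : Type} {R : Set (List A × List A)}

def Splits (G : Type) [Group G] : Prop := ∃ (B C : Type) (_ : Group B) (_ : Group C),
  Nontrivial B ∧ Nontrivial C ∧ Nonempty (G ≃* Coprod B C)

theorem base (P : Tr A → Prop) (z : List A) {M : Type} [Group M] (i : PL R P z →* M) :
    ∃ j : List A → List A → U R → M, (∀ {x y w g k}, (∃ p, Pr R P z x p) → Pr R P x y g →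
      Pr R P y w k → j x w (k * g) = j y w k * j x y g) ∧ ∀ g : PL R P z, j z z g = i g := by
  classical
  obtain ⟨τ, h1, h2⟩ : ∃ τ : List A → U R, τ z = 1 ∧ ∀ {x p}, Pr R P z x p → Pr R P z x (τ x) := by
    refine ⟨fun x => if x = z then 1 else if h : ∃ p, Pr R P z x p then h.choose else 1, if_pos rfl,
      fun {x p} h => ?_⟩
    have e : ∃ p, Pr R P z x p := ⟨p, h⟩
    dsimp only
    split_ifs with h'
    exacts [h' ▸ .one _, e.choose_spec]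
  refine ⟨fun x y g => if h : (τ y)⁻¹ * g * τ x ∈ PL R P z then i ⟨_, h⟩ else 1,
    fun {x y w g k} ⟨p, h⟩ hg hk => ?_, fun g => by simp [h1]⟩
  have m : ∀ {x y g p}, Pr R P z x p → Pr R P x y g → (τ y)⁻¹ * g * τ x ∈ PL R P z :=
    fun h hg => ((h2 (hg.mul h)).inv.mul hg).mul (h2 h)
  simp only [dif_pos (m h hg), dif_pos (m (hg.mul h) hk), dif_pos (m h (hk.mul hg)), ← map_mul]
  exact congrArg i (Subtype.ext (by simp [mul_assoc]))

theorem iso_of {G B : Type} [Group G] [Group B] {L K : Subgroup G} (ψ : B →* G) (h1 : K ≤ L)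
    (h2 : ∀ b, ψ b ∈ L) (Φ : G →* Coprod K B) (h3 : ∀ k : K, Φ k = Coprod.inl k)
    (h4 : ∀ b, Φ (ψ b) = Coprod.inr b) (h5 : L ≤ (Coprod.lift K.subtype ψ).range) :
    Nonempty (L ≃* Coprod K B) := by
  have h6 : ∀ x, Coprod.lift K.subtype ψ x ∈ L ∧ Φ (Coprod.lift K.subtype ψ x) = x := fun x => by
    induction x using Coprod.induction_on with
    | inl k => exact ⟨h1 k.2, h3 k⟩
    | inr b => exact ⟨h2 b, h4 b⟩
    | mul x y hx hy => rw [map_mul, map_mul, hx.2, hy.2]; exact ⟨mul_mem hx.1 hy.1, rfl⟩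
  exact ⟨(MulEquiv.ofBijective ((Coprod.lift K.subtype ψ).codRestrict L fun x => (h6 x).1)
    ⟨fun x y e => (h6 x).2.symm.trans ((congrArg (fun z : L => Φ z) e).trans (h6 y).2),
      fun g => (h5 g.2).imp fun _ => Subtype.ext⟩).symm⟩

variable (hR : ∀ r ∈ R, r.1 ≠ [] ∧ r.2 ≠ [])

include hR

theorem kap {a₀ b₀ : List A} {r₀ : List A × List A} (hr₀ : r₀ ∈ R) (hT : TE R (a₀, r₀, b₀))
    {a b : List A} {r : List A × List A} (h : Ep R (a₀, r₀, b₀) (a, r, b)) : ∃ κ : Bool → U R,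
    ∀ c, Pr R (¬ TE R ·) (a₀ ++ sd r₀ c ++ b₀) (a ++ sd r c ++ b) (κ c) ∧
      sv R (a, r, b, c) * κ c = κ (!c) * sv R (a₀, r₀, b₀, c) := by
  obtain ⟨rfl, ⟨α, h1⟩, β, h2⟩ := h
  exact ⟨fun c => Lw (a ++ sd r c) β * Rw (sd r c ++ b₀) α, fun c =>
    ⟨nT_2 hR hT.1 (act_sd hr₀ hT.2.1 c) h1 h2, par hr₀ c h1 h2⟩⟩

theorem gen {a₀ b₀ : List A} {r₀ : List A × List A} (hr₀ : r₀ ∈ R) (hT : TE R (a₀, r₀, b₀))
    (D : Subgroup (U R)) (h0 : PL R (¬ Ep R (a₀, r₀, b₀) ·) (a₀ ++ r₀.1 ++ b₀) ≤ D)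
    (h1 : ∀ g ∈ PL R (¬ Ep R (a₀, r₀, b₀) ·) (a₀ ++ r₀.2 ++ b₀),
      (e R (a₀, r₀, b₀))⁻¹ * g * e R (a₀, r₀, b₀) ∈ D)
    (h2 : ∀ g, Pr R (¬ Ep R (a₀, r₀, b₀) ·) (a₀ ++ r₀.2 ++ b₀) (a₀ ++ r₀.1 ++ b₀) g →
      g * e R (a₀, r₀, b₀) ∈ D) : Loop R (a₀ ++ r₀.1 ++ b₀) ≤ D := by
  let ε : Bool → U R := fun c => if c then 1 else e R (a₀, r₀, b₀)
  have h3 : ∀ c c' g, Pr R (¬ Ep R (a₀, r₀, b₀) ·) (a₀ ++ sd r₀ c ++ b₀) (a₀ ++ sd r₀ c' ++ b₀) g →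
      (ε c')⁻¹ * g * ε c ∈ D := by
    rintro (_ | _) (_ | _) g h
    · exact h1 g h
    · simpa [ε] using h2 g h
    · simpa [ε] using D.inv_mem (h2 _ h.inv)
    · simpa [ε] using h0 h
  have h4 : ∀ {x y l}, TP R x y l → ∀ c g, Pr R (¬ Ep R (a₀, r₀, b₀) ·) (a₀ ++ sd r₀ c ++ b₀) x g →
      ∃ c' g', Pr R (¬ Ep R (a₀, r₀, b₀) ·) (a₀ ++ sd r₀ c' ++ b₀) y g' ∧
        (g' * ε c')⁻¹ * ev R l * (g * ε c) ∈ D := fun h => by
    induction h with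
    | nil => exact fun c g h => ⟨c, g, h, by simp [ev]⟩
    | @cons x y s l k1 k2 _ ih =>
      intro c g h
      subst k2
      by_cases hs : Ep R (a₀, r₀, b₀) (tr s)
      · obtain ⟨a, r, b, d⟩ := s
        obtain ⟨κ, hκ⟩ := kap hR hr₀ hT hs
        have m := fun c => (hκ c).1.mono (Q := (¬ Ep R (a₀, r₀, b₀) ·)) fun _ h h' => h (hT.ep h')
        obtain ⟨c', g', k3, k4⟩ := ih (!d) _ (tgt_eq a b r d ▸ m (!d))
        refine ⟨c', g', k3, ?_⟩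
        convert mul_mem k4 (h3 _ _ _ ((m d).inv.mul h)) using 1
        rw [ev, eq_mul_inv_of_mul_eq (hκ d).2]
        cases d <;> simp [ε, sv, mul_assoc]
      · simpa [ev, mul_assoc] using ih c _ ((Pr.sv k1 hs).mul h)
  intro g hg
  obtain ⟨l, k1, rfl⟩ := Pth.tp hg
  obtain ⟨c, g, k2, k3⟩ := h4 k1 true 1 (.one _)
  simpa [ε, mul_assoc] using mul_mem (h3 _ true _ k2) k3

theorem split {a₀ b₀ : List A} {r₀ : List A × List A} (hr₀ : r₀ ∈ R) (hT : TE R (a₀, r₀, b₀))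
    (h1 : ¬ Splits (Loop R (a₀ ++ r₀.1 ++ b₀)))
    (h2 : ¬ ∀ x y : Loop R (a₀ ++ r₀.1 ++ b₀), x * y = y * x) :
    (∀ p, ¬ Pr R (¬ Ep R (a₀, r₀, b₀) ·) (a₀ ++ r₀.1 ++ b₀) (a₀ ++ r₀.2 ++ b₀) p) ∧
      ∃ c, PL R (¬ Ep R (a₀, r₀, b₀) ·) (a₀ ++ sd r₀ c ++ b₀) = ⊥ := by
  classical
  set P := (¬ Ep R (a₀, r₀, b₀) ·)
  set z₀ := a₀ ++ r₀.1 ++ b₀
  set z₁ := a₀ ++ r₀.2 ++ b₀
  have he : Pth R z₀ z₁ (e R (a₀, r₀, b₀)) := Pth.edge _ _ hr₀
  have key : ∀ {B : Type} [Group B] (i : PL R P z₁ →* Coprod (PL R P z₀) B),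
      ∃ j : List A → List A → U R → Coprod (PL R P z₀) B, (∀ θ, ∃ Φ : U R →* Coprod (PL R P z₀) B, (∀ {x y g}, Pr R P x y g → Φ g = j x y g) ∧
      Φ (e R (a₀, r₀, b₀)) = θ) ∧ (∀ g : PL R P z₀, j z₀ z₀ g = Coprod.inl g) ∧
      ((∀ p, ¬ Pr R P z₀ z₁ p) → ∀ g : PL R P z₁, j z₁ z₁ g = i g) := fun {B} _ i => by
    obtain ⟨j₀, k1, k2⟩ := base (R := R) P z₀ (M := Coprod (PL R P z₀) B) Coprod.inl
    obtain ⟨j₁, k3, k4⟩ := base P z₁ i
    refine ⟨fun x y g => if ∃ p, Pr R P z₀ x p then j₀ x y g else if ∃ p, Pr R P z₁ x p then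
      j₁ x y g else 1, univ hR hr₀ hT _ fun {x y z g k} hg hk => ?_, fun g =>
        (if_pos ⟨1, .one _⟩).trans (k2 g), fun h g =>
          ((if_neg (not_exists.2 h)).trans (if_pos ⟨1, .one _⟩)).trans (k4 g)⟩
    have e : ∀ z, (∃ p, Pr R P z y p) ↔ ∃ p, Pr R P z x p := fun z =>
      ⟨fun ⟨_, h⟩ => ⟨_, hg.inv.mul h⟩, fun ⟨_, h⟩ => ⟨_, hg.mul h⟩⟩
    simp only [e]
    split_ifs with h h'
    exacts [k1 h hg hk, k3 h' hg hk, (mul_one _).symm]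
  have sep : ∀ p, ¬ Pr R P z₀ z₁ p := fun τ hτ => by
    obtain ⟨j, k1, k2, -⟩ := key (B := Multiplicative ℤ) 1
    obtain ⟨Φ, k3, k4⟩ := k1 (j z₀ z₁ τ * Coprod.inr (.ofAdd 1))
    let ψ := zpowersHom _ (τ⁻¹ * e R (a₀, r₀, b₀))
    have k5 : τ⁻¹ * e R (a₀, r₀, b₀) ∈ (Coprod.lift (PL R P z₀).subtype ψ).range :=
      ⟨Coprod.inr (.ofAdd 1), by simp [ψ]⟩
    have k6 : PL R P z₀ ≤ (Coprod.lift (PL R P z₀).subtype ψ).range := fun g hg =>
      ⟨Coprod.inl ⟨g, hg⟩, rfl⟩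
    obtain ⟨φ⟩ := iso_of (L := Loop R z₀) ψ (fun _ h => Pr.pth h) (fun n => zpow_mem
      (show _ ∈ Loop R z₀ from hτ.pth.inv.mul he) _) Φ (fun k => (k3 k.2).trans (k2 k)) (fun n => by
        rw [zpowersHom_apply, map_zpow, map_mul, map_inv, k4, k3 hτ, inv_mul_cancel_left, ← map_zpow,
          ← ofAdd_zsmul, smul_eq_mul, mul_one, ofAdd_toAdd]) (gen hR hr₀ hT _ k6 (fun g hg => by
          simpa [mul_assoc] using mul_mem (mul_mem (inv_mem k5) (k6 ((hτ.inv.mul hg).mul hτ))) k5)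
        fun g hg => by simpa [mul_assoc] using mul_mem (k6 (hg.mul hτ)) k5)
    rcases subsingleton_or_nontrivial (PL R P z₀) with h | h
    · have : ∀ x : Coprod (PL R P z₀) (Multiplicative ℤ), ∃ n, Coprod.inr n = x := fun x => by
        induction x using Coprod.induction_on with
        | inl k => exact ⟨1, by rw [Subsingleton.elim k 1, map_one, map_one]⟩
        | inr b => exact ⟨b, rfl⟩
        | mul x y hx hy => exact ⟨hx.choose * hy.choose, by rw [map_mul, hx.choose_spec, hy.choose_spec]⟩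
      refine h2 fun x y => φ.injective ?_
      obtain ⟨n, hn⟩ := this (φ x)
      obtain ⟨m, hm⟩ := this (φ y)
      rw [map_mul, map_mul, ← hn, ← hm, ← map_mul, mul_comm, map_mul]
    · exact h1 ⟨_, _, _, _, h, inferInstance, ⟨φ⟩⟩
  refine ⟨sep, by_contra fun h => h1 ⟨PL R P z₀, PL R P z₁, inferInstance, inferInstance,
    (Subgroup.nontrivial_iff_ne_bot _).2 fun e => h ⟨true, e⟩, (Subgroup.nontrivial_iff_ne_bot _).2 fun e => h ⟨false, e⟩, ?_⟩⟩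
  obtain ⟨j, k1, k2, k3⟩ := key (B := PL R P z₁) Coprod.inr
  obtain ⟨Φ, k4, k5⟩ := k1 1
  exact iso_of ((MulAut.conj (e R (a₀, r₀, b₀))⁻¹).toMonoidHom.comp (PL R P z₁).subtype)
    (fun _ h => Pr.pth h) (fun k : PL R P z₁ => by
      have : _ ∈ Loop R z₀ := Pth.mul (Pth.mul he.inv (Pr.pth k.2)) he
      simpa using this) Φ (fun k => (k4 k.2).trans (k2 k)) (fun g => by
        simp [k5, (k4 g.2).trans (k3 sep g)]) (gen hR hr₀ hT _ (fun g hg => ⟨Coprod.inl ⟨g, hg⟩, rfl⟩)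
      (fun g hg => ⟨Coprod.inr ⟨g, hg⟩, by simp⟩) fun g hg => (sep _ hg.inv).elim)

omit hR in
theorem first {α : Type} (p : α → Prop) (l : List α) :
    (∀ s ∈ l, ¬ p s) ∨ ∃ m s q, l = m ++ s :: q ∧ p s ∧ ∀ t ∈ m, ¬ p t := by
  induction l with
  | nil => simp
  | cons a l ih =>
    by_cases h : p a
    · exact .inr ⟨[], a, l, rfl, h, by simp⟩
    rcases ih with ih | ⟨m, s, q, rfl, h1, h2⟩
    · exact .inl (by simpa [h] using ih)
    · exact .inr ⟨a :: m, s, q, rfl, h1, by simpa [h] using h2⟩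

open Classical in
variable (R) in
noncomputable def cnt (l : List (SE A)) : ℕ := l.countP fun s => TE R (tr s)

theorem cutX {s : SE A} (hr : s.2.1 ∈ R) (hT : TE R (tr s))
    (h1 : ∀ p, ¬ Pr R (¬ Ep R (tr s) ·) (src s) (tgt s) p)
    (h2 : PL R (¬ Ep R (tr s) ·) (tgt s) = ⊥) {y : List A} {q : List (SE A)} {p : U R}
    (hq : TP R (tgt s) y q) (hy : Pr R (¬ Ep R (tr s) ·) (src s) y p) :
    ∃ l, TP R (src s) y l ∧ ev R l = ev R q * sv R s ∧ cnt R l ≤ cnt R q := by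
  rcases first (fun t => Ep R (tr s) (tr t)) q with h | ⟨m, ⟨a', r', b', c'⟩, q, rfl, h3, h4⟩
  · exact (h1 _ (Pr.mul (Pr.inv ⟨q, hq, h, rfl⟩) hy)).elim
  obtain ⟨a, r, b, c⟩ := s
  obtain ⟨x, h5, h6⟩ := hq.split
  cases h6 with
  | cons _ h7 h8 =>
  subst h7
  obtain ⟨κ, hκ⟩ := kap hR hr hT h3
  have k := fun c => (hκ c).1.mono (Q := (¬ Ep R (a, r, b) ·)) fun _ h h' => h (hT.ep h')
  by_cases hc : c' = c
  · subst hc
    exact (h1 _ (Pr.mul (Pr.inv ⟨m, h5, h4, rfl⟩) (k c'))).elim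
  obtain rfl : c' = !c := Bool.eq_not_iff.2 hc
  have h9 : (κ !c)⁻¹ * ev R m ∈ PL R (¬ Ep R (tr (a, r, b, c)) ·) (tgt (a, r, b, c)) :=
    Pr.mul (P := (¬ Ep R (a, r, b) ·)) (tgt_eq a b r c ▸ (k !c).inv) ⟨m, h5, h4, rfl⟩
  rw [h2, Subgroup.mem_bot, inv_mul_eq_one] at h9
  obtain ⟨l, h10, h11, h12⟩ := (hκ c).1
  have h13 := (hκ !c).2
  rw [tgt_eq, Bool.not_not] at h8
  rw [Bool.not_not, h9, sv_not a, eq_mul_inv_iff_mul_eq] at h13
  refine ⟨l ++ q, h10.append h8, by simp [ev_append, ev, h12, ← h13, mul_assoc], ?_⟩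
  simp only [cnt, List.countP_append, List.countP_cons]
  rw [List.countP_eq_zero.2 (by simpa using h11)]
  omega

variable (R) in
def Sp (w : List A) : Prop := ∀ s g, s.2.1 ∈ R → TE R (tr s) → Pth R w (src s) g →
  (∀ p, ¬ Pr R (¬ Ep R (tr s) ·) (src s) (tgt s) p) ∧
    (PL R (¬ Ep R (tr s) ·) (src s) = ⊥ ∨ PL R (¬ Ep R (tr s) ·) (tgt s) = ⊥)

theorem st1 {w z : List A} {g : U R} (hS : Sp R w) (hz : Pth R w z g)
    (h : PL R (¬ TE R ·) z ≠ ⊥) : Loop R z ≤ PL R (¬ TE R ·) z := by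
  intro k hk
  obtain ⟨l, hl, rfl⟩ := Pth.tp hk
  clear hk
  induction hn : cnt R l using Nat.strong_induction_on generalizing l with
  | _ n ih =>
  rcases first (fun t => TE R (tr t)) l with h1 | ⟨p, s, q, rfl, h1, h2⟩
  · exact ⟨l, hl, h1, rfl⟩
  obtain ⟨x, h3, h4⟩ := hl.split
  cases h4 with
  | cons h5 h6 h7 =>
  subst h6
  have h8 : Pr R (¬ Ep R (tr s) ·) z (src s) (ev R p) := ⟨p, h3, fun t ht e => h2 t ht (h1.ep e), rfl⟩
  obtain ⟨h9, h10 | h10⟩ := hS s _ h5 h1 (h3.pth.mul hz)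
  · refine (h (eq_bot_iff.2 fun k hk => ?_)).elim
    have : ev R p * k * (ev R p)⁻¹ ∈ PL R (¬ Ep R (tr s) ·) (src s) :=
      (h8.mul (Pr.mono (P := (¬ TE R ·)) hk fun _ h h' => h (h1.ep h'))).mul h8.inv
    simpa [h10] using this
  obtain ⟨l, k1, k2, k3⟩ := cutX hR h5 h1 h9 h10 h7 h8.inv
  have := ih _ (by simp [← hn, cnt, h1] at k3 ⊢; omega) (p ++ l) (h3.append k1) rfl
  simpa [ev_append, ev, k2] using this

theorem st2 {w : List A} (hS : Sp R w) (hw : Act R w) :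
    ∃ z g, Pth R w z g ∧ PL R (¬ TE R ·) z ≠ ⊥ := by
  have : ∀ n z l g, cnt R l = n → Pth R w z g → TP R z z l → ev R l ≠ 1 →
      ∃ z g, Pth R w z g ∧ PL R (¬ TE R ·) z ≠ ⊥ := fun n => by
    induction n using Nat.strong_induction_on with
    | _ n ih =>
    have k : ∀ z g p s q, cnt R (p ++ s :: q) = n → Pth R w z g → TP R z z (p ++ s :: q) →
        ev R (p ++ s :: q) ≠ 1 → TE R (tr s) → PL R (¬ Ep R (tr s) ·) (tgt s) = ⊥ →
        ∃ z g, Pth R w z g ∧ PL R (¬ TE R ·) z ≠ ⊥ := fun z g p s q hn hz hl h h1 h2 => by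
      obtain ⟨x, h3, h4⟩ := hl.split
      cases h4 with
      | cons h5 h6 h7 =>
      subst h6
      obtain ⟨l, k1, k2, k3⟩ := cutX hR h5 h1 (hS s _ h5 h1 (h3.pth.mul hz)).1 h2 (h7.append h3)
        (.one _)
      refine ih _ (by simp [← hn, cnt, h1] at k3 ⊢; omega) _ l _ rfl (h3.pth.mul hz) k1 fun e => h ?_
      rw [k2, ev_append, mul_assoc, mul_eq_one_comm] at e
      rwa [ev_append, ev]
    intro z l g hn hz hl h
    rcases first (fun t => TE R (tr t)) l with h1 | ⟨p, s, q, rfl, h1, -⟩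
    · exact ⟨z, g, hz, fun e => h (e.le ⟨l, hl, h1, rfl⟩)⟩
    obtain ⟨x, h3, h4⟩ := hl.split
    cases h4 with
    | cons h5 h6 h7 =>
    subst h6
    rcases (hS s _ h5 h1 (h3.pth.mul hz)).2 with h2 | h2
    · have e : rv (p ++ s :: q) = rv q ++ fl s :: rv p := by simp [rv]
      refine k z g (rv q) (fl s) (rv p) ?_ hz (e ▸ hl.rv) (by rwa [← e, ev_rv, inv_ne_one]) h1 ?_
      · rw [← e, ← hn, cnt, rv, List.countP_reverse, List.countP_map]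
        rfl
      · rwa [fl, tgt_eq, Bool.not_not]
    · exact k z g p s q hn hz hl h h1 h2
  obtain ⟨g, h1, h2⟩ := hw
  obtain ⟨l, hl, rfl⟩ := h1.tp
  exact this _ _ l _ rfl h1 hl h2

end Pool.Agent.H65.Squier
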