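import Pool.Agent.H65.SquierG

/-! Loops avoiding the free hyperplanes lie in one malnormal subgroup. -/

namespace Pool.Agent.H65.Squier

variable {A : Type} {R : Set (List A × List A)}

def Thin (G : Type) [Group G] : Prop := ∀ a b : G, a * b = b * a →
  (∀ m n : ℤ, a ^ m * b ^ n = 1 → m = 0 ∧ n = 0) → ∃ Q : Subgroup G, Q ≠ ⊤ ∧ a ∈ Q ∧
    ∀ k γ, k ≠ 1 → k ∈ Q → γ⁻¹ * k * γ ∈ Q → γ ∈ Q

variable (R) in
def Good (Q : Subgroup (U R)) (u c : List A) (γ : U R) : Prop := Act R u ∧ Act R c ∧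
  (∀ α, Pth R u u α → γ⁻¹ * Rw c α * γ ∈ Q) ∧ ∀ β, Pth R c c β → γ⁻¹ * Lw u β * γ ∈ Q

variable (hR : ∀ r ∈ R, r.1 ≠ [] ∧ r.2 ≠ [])

include hR

theorem Act.pre {c : List A} (h : Act R c) (a : List A) : Act R (a ++ c) :=
  h.elim fun _ hg => ⟨_, hg.1.L a, fun e => hg.2 (L_inj hR hg.1 e)⟩

theorem nT_cases {a b : List A} {r : List A × List A} {d : Bool} (hr : r ∈ R)
    (h : ¬ TE R (a, r, b)) : Act R a ∨ ¬ Act R (a ++ sd r d) ∨ Act R b := by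
  by_contra! h'
  refine h ⟨h'.1, ?_, h'.2.2⟩
  cases d
  exacts [h'.2.1.eqv (by simpa [sd] using (Pth.edge a [] hr).inv), h'.2.1]

theorem side {a b u c : List A} {r : List A × List A} {d : Bool} (hr : r ∈ R)
    (h : ¬ TE R (a, r, b)) (e : a ++ sd r d ++ b = u ++ c) (hu : Act R u) (hc : Act R c) :
    (∃ u m, a = u ++ m ∧ Act R u ∧ Act R (m ++ sd r d ++ b)) ∨
      ∃ m c, b = m ++ c ∧ Act R (a ++ sd r d ++ m) ∧ Act R c := by
  rw [List.append_assoc] at e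
  rcases List.append_eq_append_iff.1 e with ⟨m, rfl, e'⟩ | ⟨m, rfl, e'⟩
  swap
  · exact .inl ⟨u, m, rfl, hu, by simpa [e'] using hc⟩
  clear e
  rcases List.append_eq_append_iff.1 e' with ⟨k, rfl, rfl⟩ | ⟨k, e, rfl⟩
  · exact .inr ⟨k, c, rfl, by simpa using hu, hc⟩
  have h1 : Act R (a ++ sd r d) := by simpa [e] using hu.app hR k
  rcases nT_cases hR (d := d) hr h with h | h | h
  · exact .inl ⟨a, [], by simp, h, by simpa [e] using hc.pre hR m⟩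
  · exact (h h1).elim
  · exact .inr ⟨[], b, rfl, by simpa using h1, h⟩

variable {Q : Subgroup (U R)} {z : List A}
  (hQ : ∀ k γ, k ≠ 1 → k ∈ Q → Pth R z z γ → γ⁻¹ * k * γ ∈ Q → γ ∈ Q)

include hQ

theorem fillG {u c : List A} {γ : U R} (hγ : Pth R z (u ++ c) γ) (hu : Act R u) (hc : Act R c)
    (h : (∃ α, α ≠ 1 ∧ Pth R u u α ∧ γ⁻¹ * Rw c α * γ ∈ Q) ∨
      ∃ β, β ≠ 1 ∧ Pth R c c β ∧ γ⁻¹ * Lw u β * γ ∈ Q) : Good R Q u c γ := by
  have cm : ∀ {k x}, k ≠ 1 → γ⁻¹ * k * γ ∈ Q → Pth R (u ++ c) (u ++ c) x → k * x = x * k →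
      γ⁻¹ * x * γ ∈ Q := fun {k x} h1 h2 h3 h4 => hQ _ _
    (fun e => h1 (by simpa [mul_assoc] using congrArg (γ * · * γ⁻¹) e)) h2 ((hγ.inv.mul h3).mul hγ) (by simpa [mul_assoc, ← mul_assoc k, h4] using h2)
  have h1 : ∀ α, α ≠ 1 → Pth R u u α → γ⁻¹ * Rw c α * γ ∈ Q → ∀ β, Pth R c c β →
      γ⁻¹ * Lw u β * γ ∈ Q := fun α h1 h2 h3 β h4 =>
    cm (fun e => h1 (R_inj hR h2 e)) h3 (h4.L u) (inter h2 h4)
  have h2 : ∀ β, β ≠ 1 → Pth R c c β → γ⁻¹ * Lw u β * γ ∈ Q → ∀ α, Pth R u u α →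
      γ⁻¹ * Rw c α * γ ∈ Q := fun β h1 h2 h3 α h4 =>
    cm (fun e => h1 (L_inj hR h2 e)) h3 (h4.R' c) (inter h4 h2).symm
  rcases h with ⟨α, h3, h4, h5⟩ | ⟨β, h3, h4, h5⟩
  · obtain ⟨β, h6, h7⟩ := id hc
    exact ⟨hu, hc, h2 β h7 h6 (h1 α h3 h4 h5 β h6), h1 α h3 h4 h5⟩
  · obtain ⟨α, h6, h7⟩ := id hu
    exact ⟨hu, hc, h2 β h3 h4 h5, h1 α h7 h6 (h2 β h3 h4 h5 α h6)⟩

theorem Good.re {u c u' c' : List A} {γ : U R} (h : Good R Q u c γ) (hγ : Pth R z (u ++ c) γ)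
    (e : u ++ c = u' ++ c') (hu : Act R u') (hc : Act R c') : Good R Q u' c' γ := by
  refine fillG hR hQ (e ▸ hγ) hu hc ?_
  rcases List.append_eq_append_iff.1 e with ⟨m, rfl, rfl⟩ | ⟨m, rfl, rfl⟩
  · exact .inr (hc.imp fun β h' => ⟨h'.2, h'.1, Lw_Lw u m β ▸ h.2.2.2 _ (h'.1.L m)⟩)
  · exact .inl (hu.imp fun α h' => ⟨h'.2, h'.1, Rw_Rw c m α ▸ h.2.2.1 _ (h'.1.R' m)⟩)

theorem good_pr {x y : List A} {l : List (SE A)} (hl : TP R x y l) (h : ∀ s ∈ l, ¬ TE R (tr s)) :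
    ∀ {u c γ}, x = u ++ c → Pth R z x γ → Good R Q u c γ →
      ∃ u c, y = u ++ c ∧ Good R Q u c (ev R l * γ) := by
  induction hl with
  | nil => exact fun e _ h => ⟨_, _, e, by simpa [ev] using h⟩
  | @cons x y s l hr h2 _ ih =>
    intro u c γ e hγ hg
    subst h2
    obtain ⟨a, r, b, d⟩ := s
    have h3 := (pth_sv a b hr d).mul hγ
    rw [ev, mul_assoc]
    rw [tgt_eq] at ih
    rcases side hR hr (h (a, r, b, d) (by simp)) e hg.1 hg.2.1 with ⟨u', m, rfl, h4, h5⟩ |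
      ⟨m, c', rfl, h4, h5⟩
    · have := hg.re hR hQ (e ▸ hγ) (e.symm.trans (by simp [src_eq])) h4 h5
      refine ih (fun s hs => h s (by simp [hs])) (u := u') (c := m ++ sd r (!d) ++ b) (by simp) h3
        (fillG hR hQ (by simpa using h3) h4 (h5.eqv (pth_sv m b hr d)) (.inl (h4.imp fun α h' =>
          ⟨h'.2, h'.1, ?_⟩)))
      rw [← Lw_sv, mul_assoc, ← mul_assoc (Rw _ α), inter h'.1 (pth_sv m b hr d)]
      simpa [mul_assoc] using this.2.2.1 α h'.1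
    · have := hg.re hR hQ (e ▸ hγ) (e.symm.trans (by simp [src_eq])) h4 h5
      refine ih (fun s hs => h s (by simp [hs])) (u := a ++ sd r (!d) ++ m) (c := c') (by simp) h3
        (fillG hR hQ (by simpa using h3) (h4.eqv (pth_sv a m hr d)) h5 (.inr (h5.imp fun β h' =>
          ⟨h'.2, h'.1, ?_⟩)))
      rw [← Rw_sv, mul_assoc, ← mul_assoc (Lw _ β), ← inter (pth_sv a m hr d) h'.1]
      simpa [mul_assoc] using this.2.2.2 β h'.1

omit hQ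

theorem dec_of {z : List A} (h : PL R (¬ TE R ·) z ≠ ⊥) :
    ∃ u c, z = u ++ c ∧ Act R u ∧ Act R c := by
  by_contra hn
  refine h (eq_bot_iff.2 fun g hg => by_contra fun h0 => ?_)
  obtain ⟨a₀, x, b₀, rfl, h1, h2⟩ := crit (v := z) (not_act hR) ⟨g, Pr.pth (P := (¬ TE R ·)) hg, h0⟩
  rw [List.nil_append] at h1 h2
  have key : ∀ {v y l}, TP R v y l → (∀ s ∈ l, ¬ TE R (tr s)) → ∀ {a b α β},
      v = a ++ [x] ++ b → Pth R a₀ a α → Pth R b₀ b β → Pr R (¬ TE R ·) v (a₀ ++ [x] ++ b₀)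
        (Lw (a ++ [x]) β * Rw ([x] ++ b₀) α)⁻¹ → ∃ a' b' α' β', y = a' ++ [x] ++ b' ∧
      Pth R a₀ a' α' ∧ Pth R b₀ b' β' ∧ ev R l * (Lw (a ++ [x]) β * Rw ([x] ++ b₀) α) =
        Lw (a' ++ [x]) β' * Rw ([x] ++ b₀) α' := fun hl => by
    induction hl with
    | nil => exact fun _ _ _ _ _ e k1 k2 _ => ⟨_, _, _, _, e, k1, k2, by simp [ev]⟩
    | @cons v y s l hr h3 _ ih =>
      intro h a b α β e k1 k2 k3
      subst h3
      obtain ⟨a', r, b', d⟩ := s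
      have n1 : ¬ Act R a := fun e => h1 (e.eqv k1.inv)
      have n2 : Act R (a ++ [x]) := h2.eqv (k1.R' _)
      have k4 := k3.mul (Pr.sv hr (h _ List.mem_cons_self)).inv
      rw [← mul_inv_rev] at k4
      rw [ev, mul_assoc]
      rw [tgt_eq] at ih k4
      rw [src_eq] at e
      have : Act R a' ∨ ¬ Act R (a' ++ sd r d) := by
        rcases nT_cases hR (d := d) hr (h (a', r, b', d) (by simp)) with h4 | h4 | h4
        exacts [.inl h4, .inr h4, .inr fun h5 => by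
          obtain ⟨l, k5, k6, -⟩ := k3
          obtain ⟨u, c, e, h⟩ := good_pr hR (Q := ⊤) (by simp) k5 k6 rfl (.one _)
            ⟨h5, h4, by simp, by simp⟩
          exact hn ⟨u, c, e, h.1, h.2.1⟩]
      rcases this with h4 | h4
      · obtain ⟨m, rfl, rfl⟩ : ∃ m, a' = a ++ [x] ++ m ∧ b = m ++ sd r d ++ b' := by
          simp only [List.append_assoc] at e
          rcases List.append_eq_append_iff.1 e with ⟨m, rfl, -⟩ | ⟨_ | ⟨y, m⟩, rfl, e'⟩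
          · exact (n1 (h4.app hR m)).elim
          · exact (n1 (by simpa using h4)).elim
          · obtain ⟨rfl, rfl⟩ := List.cons.inj e'
            exact ⟨m, by simp, by simp⟩
        rw [← Lw_sv, ← mul_assoc (Lw _ _), ← map_mul] at k4 ⊢
        exact ih (fun s hs => h s (by simp [hs])) (by simp) k1 ((pth_sv m b' hr d).mul k2) k4
      · obtain ⟨m, rfl, rfl⟩ : ∃ m, a = a' ++ sd r d ++ m ∧ b' = m ++ ([x] ++ b) := by
          rw [List.append_assoc a] at e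
          rcases List.append_eq_append_iff.1 e with ⟨m, rfl, rfl⟩ | ⟨_ | ⟨y, m⟩, e, e'⟩
          · exact ⟨m, rfl, rfl⟩
          · exact ⟨[], by simpa using e.symm, e'.symm⟩
          · obtain rfl := (List.cons.inj e').1
            exact (h4 (by simpa [e] using n2.app hR m)).elim
        rw [← Rw_sv, ← mul_assoc (Rw _ _), inter' (pth_sv a' m hr d) k2, mul_assoc (Lw _ _),
          ← map_mul] at k4 ⊢
        exact ih (fun s hs => h s (by simp [hs])) (by simp) ((pth_sv a' m hr d).mul k1) k2 k4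
  obtain ⟨l, k1, k2, rfl⟩ := hg
  obtain ⟨a, b, α, β, e, k3, k4, k5⟩ := key k1 k2 rfl (.one _) (.one _) (by simpa using Pr.one _)
  have := cut_ext hR (w := a₀ ++ [x] ++ b₀) (x := ⟨a₀, x, b₀, 1, h1, h2, .one _⟩)
    (y := ⟨a, x, b, 1, fun e => h1 (e.eqv k3.inv), h2.eqv (k3.R' _), e ▸ .one _⟩) e rfl
  obtain ⟨rfl, -, rfl, -⟩ := Cut.mk.inj this
  obtain rfl : α = 1 := by_contra fun e => h1 ⟨α, k3, e⟩
  obtain rfl : β = 1 := by_contra fun e => hn ⟨_, _, rfl, h2, β, k4, e⟩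
  exact h0 (by simpa using k5)

theorem st3 {z : List A} (h : PL R (¬ TE R ·) z ≠ ⊥) (h' : Loop R z ≤ PL R (¬ TE R ·) z) :
    ¬ Thin (Loop R z) := fun hT => by
  obtain ⟨u, c, rfl, hu, hc⟩ := dec_of hR h
  obtain ⟨α, a1, a2⟩ := id hu
  obtain ⟨β, b1, b2⟩ := id hc
  obtain ⟨Q, q1, q2, q3⟩ := hT ⟨_, b1.L u⟩ ⟨_, a1.R' c⟩ (Subtype.ext (inter a1 b1).symm) fun m n e => by
    have := split_inj hR ((Loop R u).zpow_mem a1 n) ((Loop R c).zpow_mem b1 m)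
      (by simpa using congrArg Subtype.val e)
    exact ⟨(tf hR b1 this.2).resolve_right b2, (tf hR a1 this.1).resolve_right a2⟩
  have hQ : ∀ k γ, k ≠ 1 → k ∈ Q.map (Loop R _).subtype → Pth R (u ++ c) (u ++ c) γ →
      γ⁻¹ * k * γ ∈ Q.map (Loop R _).subtype → γ ∈ Q.map (Loop R _).subtype := by
    rintro _ γ h1 ⟨k, h2, rfl⟩ h3 ⟨k', h4, h5⟩
    exact ⟨⟨γ, h3⟩, q3 k _ (fun e => h1 (by simp [e])) h2 ((Subtype.ext h5 : k' = (⟨γ, h3⟩ : Loop R _)⁻¹ * k * ⟨γ, h3⟩) ▸ h4),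
      rfl⟩
  have g0 := fillG hR hQ (.one _) hu hc (.inr ⟨β, b2, b1, ⟨_, q2, by simp⟩⟩)
  refine q1 (eq_top_iff.2 fun g _ => ?_)
  obtain ⟨l, k1, k2, k3⟩ := h' g.2
  obtain ⟨u', c', e, k4⟩ := good_pr hR hQ k1 k2 rfl (.one _) g0
  rw [mul_one, k3] at k4
  obtain ⟨k, k5, k6⟩ := hQ _ _ (fun e => b2 (L_inj hR b1 e)) ⟨_, q2, rfl⟩ g.2
    ((k4.re hR hQ (e ▸ g.2) e.symm hu hc).2.2.2 β b1)
  exact Subtype.ext k6 ▸ k5

theorem splits (w : List A) (h1 : Thin (Loop R w)) (h2 : ¬ ∀ x y : Loop R w, x * y = y * x) :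
    Splits (Loop R w) := by
  have cj : ∀ {z g}, Pth R w z g → Nonempty (Loop R z ≃* Loop R w) := fun {z g} h =>
    ⟨{ toFun := fun k => ⟨_, (h.inv.mul k.2).mul h⟩
       invFun := fun k => ⟨_, (h.mul k.2).mul h.inv⟩
       left_inv := fun k => Subtype.ext (by simp [mul_assoc])
       right_inv := fun k => Subtype.ext (by simp [mul_assoc])
       map_mul' := fun k k' => Subtype.ext (by simp [mul_assoc]) }⟩
  by_contra hn
  have hS : Sp R w := by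
    rintro ⟨a, r, b, c⟩ g hr hT hg
    obtain ⟨g, hg⟩ : ∃ g, Pth R w (a ++ r.1 ++ b) g := by
      cases c
      exacts [⟨_, (Pth.edge a b hr).inv.mul hg⟩, ⟨g, hg⟩]
    obtain ⟨φ⟩ := cj hg
    obtain ⟨k1, d, k2⟩ := split hR hr hT (fun ⟨B, C, _, _, h3, h4, ⟨ψ⟩⟩ =>
      hn ⟨B, C, _, _, h3, h4, ⟨φ.symm.trans ψ⟩⟩) fun h => h2 fun x y => φ.symm.injective
        (by rw [map_mul, map_mul, h])
    cases c <;> cases d
    exacts [⟨fun p h => k1 _ h.inv, .inl k2⟩, ⟨fun p h => k1 _ h.inv, .inr k2⟩, ⟨k1, .inr k2⟩,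
      ⟨k1, .inl k2⟩]
  obtain ⟨z, g, k1, k2⟩ := st2 hR hS (by_contra fun h => h2 fun x y => by
    rw [show x = 1 from Subtype.ext (by_contra fun e => h ⟨_, x.2, e⟩), one_mul, mul_one])
  obtain ⟨φ⟩ := cj k1
  refine st3 hR k2 (st1 hR hS k1 k2) fun a b hab hi => ?_
  obtain ⟨Q, q1, q2, q3⟩ := h1 (φ a) (φ b) (by rw [← map_mul, hab, map_mul]) fun m n e =>
    hi m n (φ.injective (by simpa using e))
  exact ⟨Q.comap φ.toMonoidHom, fun e => q1 (eq_top_iff.2 fun x _ => by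
    simpa using e.ge (Subgroup.mem_top (φ.symm x))), q2, fun k γ h3 h4 h5 =>
      q3 (φ k) (φ γ) (by simpa using h3) h4 (by simpa using h5)⟩

end Pool.Agent.H65.Squier
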