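import Pool.Agent.H65.SquierU

/-! Lists of signed edges modulo elementary homotopies, compared with the universal group. -/

namespace Pool.Agent.H65.Squier

open CategoryTheory

variable {A : Type}

abbrev SE (A : Type) : Type := List A × (List A × List A) × List A × Bool

def src (s : SE A) : List A := s.1 ++ (if s.2.2.2 then s.2.1.1 else s.2.1.2) ++ s.2.2.1
def tgt (s : SE A) : List A := s.1 ++ (if s.2.2.2 then s.2.1.2 else s.2.1.1) ++ s.2.2.1

def path (R : Set (List A × List A)) (l : List (SE A)) : Prop := (∀ s ∈ l, s.2.1 ∈ R) ∧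
  ∀ (i : ℕ) (s t : SE A), l[i]? = some s → l[i+1]? = some t → tgt s = src t

def loop (R : Set (List A × List A)) (w : List A) (l : List (SE A)) : Prop :=
  path R l ∧ (∀ s ∈ l.head?, src s = w) ∧ (∀ s ∈ l.getLast?, tgt s = w)

def shape (a b : List (SE A)) : Prop :=
  (∃ (p q : List (SE A)) (x u v y : List A) (c : Bool),
    a = p ++ q ∧ b = p ++ [(x, (u, v), y, c), (x, (u, v), y, !c)] ++ q) ∨
  (∃ (p q : List (SE A)) (x u₁ v₁ y u₂ v₂ z : List A),
    a = p ++ [(x, (u₁, v₁), y ++ u₂ ++ z, true), (x ++ v₁ ++ y, (u₂, v₂), z, true)] ++ q ∧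
    b = p ++ [(x ++ u₁ ++ y, (u₂, v₂), z, true), (x, (u₁, v₁), y ++ v₂ ++ z, true)] ++ q)

def move (R : Set (List A × List A)) (a b : List (SE A)) : Prop := path R a ∧ path R b ∧ shape a b

variable {R : Set (List A × List A)}

inductive TP (R : Set (List A × List A)) : List A → List A → List (SE A) → Prop
  | nil (x : List A) : TP R x x []
  | cons {x y : List A} {s : SE A} {l : List (SE A)} :
      s.2.1 ∈ R → src s = x → TP R (tgt s) y l → TP R x y (s :: l)

theorem TP.append {x y z : List A} {l k : List (SE A)} (h : TP R x y l) (h' : TP R y z k) :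
    TP R x z (l ++ k) := by
  induction h with
  | nil => exact h'
  | cons h1 h2 _ ih => exact .cons h1 h2 (ih h')

theorem path_cons {s : SE A} {l : List (SE A)} :
    path R (s :: l) ↔ s.2.1 ∈ R ∧ (∀ t ∈ l.head?, src t = tgt s) ∧ path R l := by
  refine ⟨fun ⟨h1, h2⟩ => ⟨h1 s (by simp), fun t ht => (h2 0 s t rfl ?_).symm,
    fun t ht => h1 t (by simp [ht]), fun i => h2 (i + 1)⟩, fun ⟨h1, h2, h3, h4⟩ =>
    ⟨by simpa [h1] using h3, fun i u v hu hv => ?_⟩⟩
  · simpa [List.head?_eq_getElem?] using ht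
  · cases i with
    | zero =>
      obtain rfl : s = u := by simpa using hu
      exact (h2 v (by simpa [List.head?_eq_getElem?] using hv)).symm
    | succ i => exact h4 i u v hu hv

theorem tp_iff {x y : List A} {l : List (SE A)} : TP R x y l ↔ path R l ∧
    (∀ s ∈ l.head?, src s = x) ∧ (∀ s ∈ l.getLast?, tgt s = y) ∧ (l = [] → x = y) := by
  induction l generalizing x with
  | nil => exact ⟨fun h => by cases h; simp [path], fun h => h.2.2.2 rfl ▸ .nil _⟩
  | cons s l ih =>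
    have : TP R x y (s :: l) ↔ s.2.1 ∈ R ∧ src s = x ∧ TP R (tgt s) y l :=
      ⟨fun h => by cases h; exact ⟨‹_›, ‹_›, ‹_›⟩, fun h => .cons h.1 h.2.1 h.2.2⟩
    rw [this, ih, path_cons]
    cases l <;> simp [List.getLast?_cons_cons] <;> tauto

theorem loop_iff {w : List A} {l : List (SE A)} : loop R w l ↔ TP R w w l := by
  simp [tp_iff, loop]

def sv (R : Set (List A × List A)) (s : SE A) : U R :=
  if s.2.2.2 then e R (s.1, s.2.1, s.2.2.1) else (e R (s.1, s.2.1, s.2.2.1))⁻¹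

def ev (R : Set (List A × List A)) : List (SE A) → U R
  | [] => 1
  | s :: l => ev R l * sv R s

theorem ev_append (p q : List (SE A)) : ev R (p ++ q) = ev R q * ev R p := by
  induction p with
  | nil => simp [ev]
  | cons s p ih => simp [ev, ih, mul_assoc]

theorem ev_move {a b : List (SE A)} (h : Quot.mk (move R) a = Quot.mk _ b) : ev R a = ev R b := by
  refine congrArg (Quot.lift (ev R) ?_) h
  rintro _ _ ⟨h, -, ⟨p, q, x, u, v, y, c, rfl, rfl⟩ | ⟨p, q, x, u, v, y, u', v', z, rfl, rfl⟩⟩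
  · cases c <;> simp [ev_append, ev, sv]
  · have := sq x y z (h.1 (x, (u, v), y ++ u' ++ z, true) (by simp))
      (h.1 (x ++ v ++ y, (u', v'), z, true) (by simp))
    simp only [ev_append, ev, sv, if_true, one_mul]
    exact congrArg (fun g => ev R q * (g * ev R p)) this

theorem TP.pth {x y : List A} {l : List (SE A)} (h : TP R x y l) : Pth R x y (ev R l) := by
  induction h with
  | nil => exact .one _
  | @cons x y s l h1 h2 _ ih =>
    subst h2
    obtain ⟨a, r, b, _ | _⟩ := s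
    exacts [ih.mul (Pth.edge a b h1).inv, ih.mul (Pth.edge a b h1)]

theorem Pth.tp {x y : List A} {g : U R} (h : Pth R x y g) : ∃ l, TP R x y l ∧ ev R l = g := by
  induction h with
  | one => exact ⟨[], .nil _, rfl⟩
  | pos a r b hr _ ih =>
    obtain ⟨l, h, rfl⟩ := ih
    exact ⟨l ++ [(a, r, b, true)], h.append (.cons hr rfl (.nil _)), by simp [ev_append, ev, sv]⟩
  | neg a r b hr _ ih =>
    obtain ⟨l, h, rfl⟩ := ih
    exact ⟨l ++ [(a, r, b, false)], h.append (.cons hr rfl (.nil _)), by simp [ev_append, ev, sv]⟩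

/-- the path groupoid in the list model -/
def PC (_ : Set (List A × List A)) : Type := List A

instance : Category (PC R) where
  Hom x y := Quot fun l l' : {l // TP R x y l} => shape l.1 l'.1
  id x := Quot.mk _ ⟨[], .nil _⟩
  comp := Quot.map₂ (fun l k => ⟨l.1 ++ k.1, l.2.append k.2⟩)
    (by
      rintro ⟨l, _⟩ ⟨_, _⟩ ⟨_, _⟩
        (⟨p, q, x, u, v, y, c, rfl, rfl⟩ | ⟨p, q, x, u, v, y, u', v', z, rfl, rfl⟩)
      · exact .inl ⟨l ++ p, q, x, u, v, y, c, by simp, by simp⟩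
      · exact .inr ⟨l ++ p, q, x, u, v, y, u', v', z, by simp, by simp⟩)
    (by
      rintro ⟨_, _⟩ ⟨_, _⟩ ⟨l, _⟩
        (⟨p, q, x, u, v, y, c, rfl, rfl⟩ | ⟨p, q, x, u, v, y, u', v', z, rfl, rfl⟩)
      · exact .inl ⟨p, q ++ l, x, u, v, y, c, by simp, by simp⟩
      · exact .inr ⟨p, q ++ l, x, u, v, y, u', v', z, by simp, by simp⟩)
  id_comp := by rintro _ _ ⟨l⟩; rfl
  comp_id := by rintro _ _ ⟨l⟩; exact congrArg (Quot.mk _) (Subtype.ext (List.append_nil _))
  assoc := by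
    rintro _ _ _ _ ⟨l⟩ ⟨k⟩ ⟨m⟩
    exact congrArg (Quot.mk _) (Subtype.ext (List.append_assoc _ _ _))

def cl {x y : PC R} {l : List (SE A)} (h : TP R x y l) : x ⟶ y := Quot.mk _ ⟨l, h⟩

theorem cl_inv {x y : PC R} {a b : List A} {r : List A × List A} {c : Bool}
    (h : TP R x y [(a, r, b, c)]) (h' : TP R y x [(a, r, b, !c)]) : cl h ≫ cl h' = 𝟙 x :=
  (Quot.sound (.inl ⟨[], [], a, r.1, r.2, b, c, rfl, rfl⟩)).symm

theorem tp1 {a b : List A} {r : List A × List A} (hr : r ∈ R) (c : Bool) :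
    TP R (src (a, r, b, c)) (tgt (a, r, b, c)) [(a, r, b, c)] ∧
      TP R (tgt (a, r, b, c)) (src (a, r, b, c)) [(a, r, b, !c)] := by
  cases c <;> exact ⟨.cons hr rfl (.nil _), .cons hr rfl (.nil _)⟩

noncomputable instance : Groupoid (PC R) := Groupoid.ofIsIso (by
  rintro x y ⟨l, h⟩
  change IsIso (cl h)
  induction h with
  | nil x => exact IsIso.id _
  | @cons x y s l h1 h2 h3 ih =>
    subst h2
    obtain ⟨a, r, b, c⟩ := s
    have := tp1 (a := a) (b := b) h1 c
    exact @IsIso.comp_isIso (PC R) _ _ _ _ (cl this.1) (cl h3)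
      ⟨cl this.2, cl_inv _ _, by cases c <;> exact cl_inv _ _⟩ (ih (cl h3)))

noncomputable def J0 : Quiver.FreeGroupoid (Vtx R) ⥤ PC R :=
  Quiver.FreeGroupoid.lift
    { obj := fun x => x.word
      map := fun {x y} f => cl (l := [(f.1.1, f.1.2.1, f.1.2.2, true)])
        (.cons f.2.1 f.2.2.1.symm (tp_iff.2 ⟨by simp [path], by simp, by simp, fun _ => f.2.2.2.symm⟩)) }

theorem J0_map {x y : Vtx R} (f : x ⟶ y) (h : TP R x.word y.word [(f.1.1, f.1.2.1, f.1.2.2, true)]) :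
    J0.map (FM f) = cl h := by
  have h := Quiver.FreeGroupoid.lift_spec (V := Vtx R) (V' := PC R)
    { obj := fun x => x.word
      map := fun {x y} f => cl (l := [(f.1.1, f.1.2.1, f.1.2.2, true)])
        (.cons f.2.1 f.2.2.1.symm (tp_iff.2 ⟨by simp [path], by simp, by simp, fun _ => f.2.2.2.symm⟩)) }
  exact Prefunctor.congr_hom h f

noncomputable def J : CategoryTheory.Quotient (Square R) ⥤ PC R :=
  CategoryTheory.Quotient.lift _ J0 (by
    rintro _ _ _ _ ⟨⟨_, e₁⟩, ⟨_, e₂⟩, ⟨_, e₃⟩, ⟨_, e₄⟩, a, b, c, r, s, rfl, rfl, rfl, rfl⟩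
    rw [Functor.map_comp, Functor.map_comp]
    exact Quot.sound (.inr ⟨[], [], a, r.1, r.2, b, s.1, s.2, c, rfl, rfl⟩))

variable (hR : ∀ r ∈ R, r.1 ≠ [] ∧ r.2 ≠ [])

include hR in
theorem TP.mor {x y : List A} {l : List (SE A)} (h : TP R x y l) (hx : x ≠ []) (hy : y ≠ []) :
    ∃ f : FO (⟨x, hx⟩ : Vtx R) ⟶ FO ⟨y, hy⟩, uf f = ev R l ∧ J0.map f = cl h := by
  induction h with
  | nil x => exact ⟨𝟙 _, uf_id _, J0.map_id _⟩
  | @cons x y s l h1 h2 h3 ih =>
    subst h2
    obtain ⟨a, r, b, _ | _⟩ := s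
    · obtain ⟨f, h4, h5⟩ := ih (by simp [tgt, (hR r h1).1]) hy
      let g : (⟨tgt (a, r, b, false), by simp [tgt, (hR r h1).1]⟩ : Vtx R) ⟶ ⟨_, hx⟩ :=
        ⟨(a, r, b), h1, rfl, rfl⟩
      refine ⟨Groupoid.inv (FM g) ≫ f, by rw [uF_comp, h4, uF_inv, uf_map]; rfl, ?_⟩
      rw [J0.map_comp, h5, Groupoid.inv_eq_inv, J0.map_inv, IsIso.inv_comp_eq,
        J0_map g (tp1 h1 false).2]
      change _ = _ ≫ cl (tp1 h1 false).1 ≫ cl h3
      rw [← Category.assoc, cl_inv, Category.id_comp]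
    · obtain ⟨f, h4, h5⟩ := ih (by simp [tgt, (hR r h1).2]) hy
      let g : (⟨_, hx⟩ : Vtx R) ⟶ ⟨tgt (a, r, b, true), by simp [tgt, (hR r h1).2]⟩ :=
        ⟨(a, r, b), h1, rfl, rfl⟩
      exact ⟨FM g ≫ f, by rw [uF_comp, h4, uf_map]; rfl,
        by rw [J0.map_comp, h5, J0_map g (tp1 h1 true).1]; rfl⟩

include hR in
theorem move_of_ev {w : List A} (hw : w ≠ []) {l k : List (SE A)} (hl : TP R w w l)
    (hk : TP R w w k) (h : ev R l = ev R k) : Quot.mk (move R) l = Quot.mk _ k := by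
  obtain ⟨f, h1, h2⟩ := hl.mor hR hw hw
  obtain ⟨g, h3, h4⟩ := hk.mor hR hw hw
  have h5 := iota_inj hR ⟨w, hw⟩
    (a₁ := (Quotient.functor (Square R)).mapIso ((Groupoid.isoEquivHom _ _).symm f))
    (a₂ := (Quotient.functor (Square R)).mapIso ((Groupoid.isoEquivHom _ _).symm g))
    (h1.trans (h.trans h3.symm))
  have h6 : J0.map f = J0.map g := congrArg (fun d => J.map (Iso.hom d)) h5
  rw [h2, h4] at h6
  exact congrArg (Quot.lift (fun l : {l // TP R w w l} => Quot.mk (move R) l.1) fun a b hab =>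
    Quot.sound ⟨(tp_iff.1 a.2).1, (tp_iff.1 b.2).1, hab⟩) h6

end Pool.Agent.H65.Squier
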