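import Pool.Agent.H65.SquierL

/-! Reduced diagrams as lists of wires; normal forms in the Squier groupoid. -/

namespace Pool.Agent.H65.Squier

open CategoryTheory

variable {A : Type} {R : Set (List A × List A)}

inductive Wi (A : Type) : Type
  | top (x : A) : Wi A
  | pair (a b : Wi A) : Wi A
  | out0 (x : A) (r : List A × List A) (c : Bool) (ins : Wi A) (j : ℕ) : Wi A

def Wi.lab : Wi A → A
  | .top x => x
  | .pair a _ => a.lab
  | .out0 x _ _ _ _ => x

def Wi.out (x : A) (r : List A × List A) (c : Bool) (ins : List (Wi A)) (j : ℕ) : Wi A :=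
  .out0 x r c (ins.foldr .pair (.top x)) j

theorem Wi.out_inj {x x' : A} {r r' : List A × List A} {c c' : Bool} {i i' : List (Wi A)}
    {j j' : ℕ} : Wi.out x r c i j = Wi.out x' r' c' i' j' ↔
      x = x' ∧ r = r' ∧ c = c' ∧ i = i' ∧ j = j' := by
  have : i.foldr Wi.pair (.top x) = i'.foldr .pair (.top x') → i = i' := by
    induction i generalizing i' with
    | nil => cases i' <;> simp
    | cons a i ih =>
      cases i' with
      | nil => simp
      | cons b i' => exact fun h => congrArg₂ _ (Wi.pair.inj h).1 (ih (Wi.pair.inj h).2)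
  refine ⟨fun h => ?_, by rintro ⟨rfl, rfl, rfl, rfl, rfl⟩; rfl⟩
  simp only [Wi.out, Wi.out0.injEq] at h
  exact ⟨h.1, h.2.1, h.2.2.1, this h.2.2.2.1, h.2.2.2.2⟩

def lab (s : List (Wi A)) : List A := s.map Wi.lab

@[simp] theorem lab_append (s t : List (Wi A)) : lab (s ++ t) = lab s ++ lab t := List.map_append

@[simp] theorem length_lab (s : List (Wi A)) : (lab s).length = s.length := List.length_map _

def sd (r : List A × List A) (c : Bool) : List A := if c then r.1 else r.2

def outs (r : List A × List A) (c : Bool) (ins : List (Wi A)) : List (Wi A) :=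
  (sd r (!c)).mapIdx fun j x => .out x r c ins j

@[simp] theorem lab_outs (r : List A × List A) (c : Bool) (ins : List (Wi A)) :
    lab (outs r c ins) = sd r (!c) := by
  refine List.ext_getElem (by simp [outs]) fun i _ _ => by simp [lab, outs, Wi.lab, Wi.out]

@[simp] theorem lab_top (w : List A) : lab (w.map Wi.top) = w := by
  simp [lab, Function.comp_def, Wi.lab]

theorem src_eq (a b : List A) (r : List A × List A) (c : Bool) :
    src (a, r, b, c) = a ++ sd r c ++ b := rfl

theorem tgt_eq (a b : List A) (r : List A × List A) (c : Bool) :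
    tgt (a, r, b, c) = a ++ sd r (!c) ++ b := by cases c <;> rfl

theorem sv_not (a b : List A) (r : List A × List A) (c : Bool) :
    sv R (a, r, b, !c) = (sv R (a, r, b, c))⁻¹ := by cases c <;> simp [sv]

theorem Lw_sv (u a b : List A) (r : List A × List A) (c : Bool) :
    Lw u (sv R (a, r, b, c)) = sv R (u ++ a, r, b, c) := by cases c <;> simp [sv]

theorem Rw_sv (u a b : List A) (r : List A × List A) (c : Bool) :
    Rw u (sv R (a, r, b, c)) = sv R (a, r, b ++ u, c) := by cases c <;> simp [sv]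

theorem pth_sv (a b : List A) {r : List A × List A} (hr : r ∈ R) (c : Bool) :
    Pth R (a ++ sd r c ++ b) (a ++ sd r (!c) ++ b) (sv R (a, r, b, c)) := by
  cases c
  exacts [(Pth.edge a b hr).inv, Pth.edge a b hr]

theorem overlap' {r r' : List A × List A} {c c' : Bool} {i i' sb m tb : List (Wi A)}
    (hr : sd r' (!c') ≠ []) (h : outs r c i ++ sb = m ++ (outs r' c' i' ++ tb)) :
    (m = [] ∧ r = r' ∧ c = c' ∧ i = i' ∧ sb = tb) ∨
      ∃ k, m = outs r c i ++ k ∧ sb = k ++ outs r' c' i' ++ tb := by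
  rcases List.append_eq_append_iff.1 h with ⟨k, h1, h2⟩ | ⟨k, h1, h2⟩
  · exact .inr ⟨k, h1, by simpa using h2⟩
  · rcases k with _ | ⟨y, k⟩
    · exact .inr ⟨[], by simpa using h1.symm, by simpa using h2.symm⟩
    · obtain ⟨x, v, hv⟩ := List.exists_cons_of_ne_nil hr
      have h3 : y = .out x r' c' i' 0 := by
        simp only [outs, hv, List.mapIdx_cons, List.cons_append, List.cons.injEq] at h2
        exact h2.1.symm
      have h4 := congrArg (·[m.length]?) h1
      simp only [outs, List.getElem?_mapIdx, h3, List.getElem?_append_right le_rfl, Nat.sub_self,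
        List.getElem?_cons_zero, Option.map_eq_some_iff, Wi.out_inj, List.length_eq_zero_iff]
        at h4
      obtain ⟨_, -, -, rfl, rfl, rfl, rfl⟩ := h4
      exact .inl ⟨rfl, rfl, rfl, rfl, List.append_cancel_left h⟩

inductive Rp (R : Set (List A × List A)) (w : List A) : ℕ → List (Wi A) → U R → Prop
  | init : Rp R w 0 (w.map .top) 1
  | step {n : ℕ} {g : U R} (sa i sb : List (Wi A)) (r : List A × List A) (c : Bool) : r ∈ R →
      lab i = sd r c → (∀ i', i ≠ outs r (!c) i') → Rp R w n (sa ++ i ++ sb) g →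
      Rp R w (n + 1) (sa ++ outs r c i ++ sb) (sv R (lab sa, r, lab sb, c) * g)

variable (hR : ∀ r ∈ R, r.1 ≠ [] ∧ r.2 ≠ []) {w : List A}

include hR in
theorem sd_ne {r : List A × List A} (hr : r ∈ R) (c : Bool) : sd r c ≠ [] := by
  cases c
  exacts [(hR r hr).2, (hR r hr).1]

theorem not_top {r : List A × List A} {c : Bool} (hr : sd r (!c) ≠ []) {sa i sb : List (Wi A)}
    (h : w.map .top = sa ++ outs r c i ++ sb) : False := by
  obtain ⟨x, v, hv⟩ := List.exists_cons_of_ne_nil hr
  have : Wi.out x r c i 0 ∈ w.map Wi.top := by simp [h, outs, hv]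
  simp [Wi.out] at this

include hR in
theorem pull {n : ℕ} {s : List (Wi A)} {g : U R} (h : Rp R w n s g) :
    ∀ {sa i sb : List (Wi A)} {r : List A × List A} {c : Bool}, r ∈ R →
      s = sa ++ outs r c i ++ sb → ∃ m, n = m + 1 ∧ lab i = sd r c ∧ (∀ i', i ≠ outs r (!c) i') ∧
        Rp R w m (sa ++ i ++ sb) ((sv R (lab sa, r, lab sb, c))⁻¹ * g) := by
  induction h with
  | init => exact fun hr h => (not_top (sd_ne hR hr _) h).elim
  | @step n g ta i' tb r' c' hr' h1 h2 h3 ih =>
    intro sa i sb r c hr h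
    simp only [List.append_assoc] at h
    rcases List.append_eq_append_iff.1 h with ⟨m, h4, h5⟩ | ⟨m, h4, h5⟩
    · rcases overlap' (sd_ne hR hr _) h5 with ⟨rfl, rfl, rfl, rfl, rfl⟩ | ⟨k, rfl, rfl⟩
      · obtain rfl : sa = ta := by simpa using h4
        exact ⟨n, rfl, h1, h2, by simpa using h3⟩
      subst h4
      obtain ⟨m, rfl, h4, h5, h6⟩ := ih (sa := ta ++ i' ++ k) (i := i) (c := c) (sb := sb) hr (by simp)
      have := Rp.step ta i' (k ++ i ++ sb) r' c' hr' h1 h2 (by simpa using h6)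
      have h7 := inter (pth_sv (lab ta) (lab k) hr' c') (pth_sv [] (lab sb) hr c)
      refine ⟨m + 1, rfl, h4, h5, ?_⟩
      convert this using 1
      · simp
      · simp only [Lw_sv, Rw_sv, lab_append, lab_outs, h1, h4, List.append_assoc,
          List.append_nil, List.nil_append] at h7 ⊢
        rw [← mul_assoc, ← mul_assoc, mul_left_inj, inv_mul_eq_iff_eq_mul, ← mul_assoc, ← h7,
          mul_inv_cancel_right]
    · rcases overlap' (sd_ne hR hr' _) h5 with ⟨rfl, rfl, rfl, rfl, rfl⟩ | ⟨k, rfl, rfl⟩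
      · obtain rfl : ta = sa := by simpa using h4
        exact ⟨n, rfl, h1, h2, by simpa using h3⟩
      subst h4
      obtain ⟨m, rfl, h4, h5, h6⟩ := ih (sa := sa) (i := i) (c := c) (sb := k ++ i' ++ tb) hr
        (by simp)
      have := Rp.step (sa ++ i ++ k) i' tb r' c' hr' h1 h2 (by simpa using h6)
      have h7 := inter (pth_sv (lab sa) (lab k) hr c) (pth_sv [] (lab tb) hr' c')
      refine ⟨m + 1, rfl, h4, h5, ?_⟩
      convert this using 1
      · simp
      · simp only [Lw_sv, Rw_sv, lab_append, lab_outs, h1, h4, List.append_assoc,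
          List.append_nil, List.nil_append] at h7 ⊢
        rw [← mul_assoc, ← mul_assoc, mul_left_inj, inv_mul_eq_iff_eq_mul, ← mul_assoc, h7,
          mul_inv_cancel_right]

open Classical in
noncomputable def loc (r : List A × List A) (c : Bool) (m : List (Wi A)) : List (Wi A) :=
  if h : ∃ i, m = outs r (!c) i then h.choose else outs r c m

noncomputable def stp (st : List (Wi A)) (s : SE A) : List (Wi A) :=
  st.take s.1.length ++ loc s.2.1 s.2.2.2 ((st.drop s.1.length).take (sd s.2.1 s.2.2.2).length) ++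
    (st.drop s.1.length).drop (sd s.2.1 s.2.2.2).length

theorem stp_eq {sa m sb : List (Wi A)} {a b : List A} {r : List A × List A} {c : Bool}
    (h1 : lab sa = a) (h2 : lab m = sd r c) :
    stp (sa ++ m ++ sb) (a, r, b, c) = sa ++ loc r c m ++ sb := by
  simp [stp, ← h1, ← h2]

theorem loc_outs {r : List A × List A} {c : Bool} (h : sd r c ≠ []) (i : List (Wi A)) :
    loc r c (outs r (!c) i) = i := by
  have h1 : ∃ j, outs r (!c) i = outs r (!c) j := ⟨i, rfl⟩
  rw [loc, dif_pos h1]
  have h2 := h1.choose_spec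
  generalize h1.choose = j at h2
  obtain ⟨x, v, hv⟩ := List.exists_cons_of_ne_nil h
  simp only [outs, Bool.not_not, hv, List.mapIdx_cons, List.cons.injEq, Wi.out_inj] at h2
  exact h2.1.2.2.2.1.symm

include hR in
theorem Rp.loc {n : ℕ} {sa m sb : List (Wi A)} {g : U R} (h : Rp R w n (sa ++ m ++ sb) g)
    {r : List A × List A} (hr : r ∈ R) {c : Bool} (hm : lab m = sd r c) :
    lab (loc r c m) = sd r (!c) ∧ loc r (!c) (loc r c m) = m ∧ ∃ n' ≤ n + 1,
      Rp R w n' (sa ++ loc r c m ++ sb) (sv R (lab sa, r, lab sb, c) * g) := by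
  by_cases hc : ∃ i, m = outs r (!c) i
  · obtain ⟨i, rfl⟩ := hc
    obtain ⟨k, rfl, h1, h2, h3⟩ := pull hR h hr rfl
    rw [loc_outs (sd_ne hR hr c)]
    refine ⟨h1, dif_neg (not_exists.2 h2), k, by omega, ?_⟩
    rwa [sv_not, inv_inv] at h3
  · have e : Squier.loc r c m = outs r c m := dif_neg hc
    rw [e]
    refine ⟨lab_outs _ _ _, ?_, _, le_rfl, .step sa m sb r c hr hm (not_exists.1 hc) h⟩
    simpa using loc_outs (sd_ne hR hr (!c)) m

theorem dec3 {s : List (Wi A)} {a m b : List A} (h : lab s = a ++ m ++ b) :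
    ∃ sa sm sb, s = sa ++ sm ++ sb ∧ lab sa = a ∧ lab sm = m ∧ lab sb = b := by
  obtain ⟨t, sb, rfl, h1, h2⟩ := List.map_eq_append_iff.1 h
  obtain ⟨sa, sm, rfl, h3, h4⟩ := List.map_eq_append_iff.1 h1
  exact ⟨sa, sm, sb, rfl, h3, h4, h2⟩

include hR in
theorem Rp.run {x y : List A} {l : List (SE A)} (hl : TP R x y l) : ∀ {n : ℕ} {s : List (Wi A)}
    {g : U R}, Rp R w n s g → lab s = x → lab (l.foldl stp s) = y ∧
      ∃ n' ≤ n + l.length, Rp R w n' (l.foldl stp s) (ev R l * g) := by
  induction hl with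
  | nil => exact fun h e => ⟨e, _, le_rfl, by simpa [ev] using h⟩
  | @cons x y t l h1 h2 _ ih =>
    intro n s g h e
    obtain ⟨a, r, b, c⟩ := t
    obtain ⟨sa, m, sb, rfl, rfl, h3, rfl⟩ := dec3 (e.trans h2.symm)
    obtain ⟨h4, -, n', h5, h6⟩ := h.loc hR h1 h3
    obtain ⟨h7, k, h8, h9⟩ := ih h6 (by simp [tgt_eq, h4])
    rw [List.foldl_cons, stp_eq rfl h3]
    exact ⟨h7, k, by simp; omega, by simpa [ev, mul_assoc] using h9⟩

theorem TP.split {x z : List A} {p q : List (SE A)} (h : TP R x z (p ++ q)) :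
    ∃ y, TP R x y p ∧ TP R y z q := by
  induction p generalizing x with
  | nil => exact ⟨x, .nil _, h⟩
  | cons s p ih =>
    cases h with
    | cons h1 h2 h3 =>
      obtain ⟨y, h4, h5⟩ := ih h3
      exact ⟨y, .cons h1 h2 h4, h5⟩

include hR in
theorem run_shape {y : List A} {l k : List (SE A)} (hl : TP R w y l) (hk : TP R w y k)
    (h : shape l k) : l.foldl stp (w.map .top) = k.foldl stp (w.map .top) := by
  rcases h with ⟨p, q, a, u, v, b, c, rfl, rfl⟩ | ⟨p, q, a, u, v, b, u', v', z, rfl, rfl⟩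
  · rw [List.append_assoc] at hk
    obtain ⟨x, h1, h2⟩ := hk.split
    obtain ⟨h3, n, -, h4⟩ := Rp.run hR h1 (.init (R := R)) (lab_top w)
    cases h2 with
    | cons h5 h6 _ =>
      obtain ⟨sa, m, sb, e, h7, h8, h9⟩ := dec3 (h3.trans h6.symm)
      rw [e] at h4
      obtain ⟨h10, h11, -⟩ := h4.loc hR h5 h8
      simp only [List.foldl_append, List.foldl_cons, List.foldl_nil, e]
      rw [stp_eq h7 h8, stp_eq h7 h10, h11]
  · rw [List.append_assoc] at hl
    obtain ⟨x, h1, h2⟩ := hl.split
    obtain ⟨h3, n, -, h4⟩ := Rp.run hR h1 (.init (R := R)) (lab_top w)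
    cases h2 with
    | cons h5 h6 h2 =>
      cases h2 with
      | cons h5' _ _ =>
        obtain ⟨sa, m, sb, e, h7, h8, h9⟩ := dec3 (h3.trans h6.symm)
        obtain ⟨sb, m', sc, rfl, h10, h11, h12⟩ := dec3 h9
        rw [e] at h4
        have k1 := (h4.loc hR h5 h8).1
        have k2 := (Rp.loc hR (sa := sa ++ m ++ sb) (m := m') (sb := sc) (by simpa using h4) h5'
          (c := true) h11).1
        simp only [List.foldl_append, List.foldl_cons, List.foldl_nil, e]
        congr 1
        rw [stp_eq h7 h8, ← List.append_assoc, ← List.append_assoc, ← List.append_assoc,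
          ← List.append_assoc, stp_eq (r := (u', v')) (by simp [h7, k1, h10, sd]) h11,
          stp_eq (r := (u', v')) (by simp [h7, h8, h10, sd]) h11, List.append_assoc (sa ++ m),
          List.append_assoc (sa ++ m), stp_eq h7 h8]
        simp

include hR in
theorem run_det {y : List A} {l k : List (SE A)} (hl : TP R w y l) (hk : TP R w y k)
    (h : ev R l = ev R k) : l.foldl stp (w.map .top) = k.foldl stp (w.map .top) := by
  by_cases hw : w = []
  · have : ∀ {l}, TP R w y l → l = [] := fun h => by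
      cases h with
      | nil => rfl
      | @cons _ _ s _ h1 h2 _ => simpa [hw, src_eq, sd_ne hR h1] using
          (src_eq s.1 s.2.2.1 s.2.1 s.2.2.2).symm.trans h2
    rw [this hl, this hk]
  obtain ⟨hy, -⟩ := of_pth hR (x := ⟨w, hw⟩) hl.pth
  obtain ⟨f, h1, h2⟩ := hl.mor hR hw hy
  obtain ⟨g, h3, h4⟩ := hk.mor hR hw hy
  have h5 := iota_inj hR ⟨w, hw⟩
    (a₁ := (Quotient.functor (Square R)).mapIso
      ((Groupoid.isoEquivHom _ _).symm (f ≫ Groupoid.inv g))) (a₂ := 1)
    ((uF_comp f _).trans (by rw [uF_inv, h1, h3, h, map_one, inv_mul_cancel]))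
  have h6 : J0.map (f ≫ Groupoid.inv g) = 𝟙 _ :=
    (congrArg (fun d => J.map (Iso.hom d)) h5).trans (J.map_id _)
  rw [J0.map_comp, Groupoid.inv_eq_inv, J0.map_inv, IsIso.comp_inv_eq, h2, h4] at h6
  exact congrArg (Quot.lift (fun l : {l // TP R w y l} => l.1.foldl stp (w.map .top)) fun a b hab =>
    run_shape hR a.2 b.2 hab) (h6.trans (Category.id_comp _))

theorem Rp.list {n : ℕ} {s : List (Wi A)} {g : U R} (h : Rp R w n s g) : ∃ l,
    TP R w (lab s) l ∧ ev R l = g ∧ l.length = n ∧ l.foldl stp (w.map .top) = s := by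
  induction h with
  | init => exact ⟨[], (lab_top w).symm ▸ .nil _, rfl, rfl, rfl⟩
  | step sa i sb r c hr h1 h2 _ ih =>
    obtain ⟨l, h3, rfl, rfl, h4⟩ := ih
    refine ⟨l ++ [(lab sa, r, lab sb, c)], h3.append (.cons hr (by simp [src_eq, h1]) ?_),
      by simp [ev_append, ev], by simp, ?_⟩
    · simpa [tgt_eq, lab_outs] using TP.nil _
    · rw [List.foldl_append, h4, List.foldl_cons, stp_eq rfl h1, Squier.loc, dif_neg (not_exists.2 h2)]
      rfl

include hR in
theorem Rp.len {n : ℕ} {s : List (Wi A)} {g : U R} (h : Rp R w n s g) :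
    ∀ {n' : ℕ} {g' : U R}, Rp R w n' s g' → n = n' := by
  induction h with
  | init =>
    intro n' g' h'
    generalize e : w.map Wi.top = s at h'
    cases h' with
    | init => rfl
    | step sa i sb r c hr => exact (not_top (sd_ne hR hr _) e).elim
  | step sa i sb r c hr _ _ _ ih =>
    intro n' g' h'
    obtain ⟨m, rfl, -, -, h⟩ := pull hR h' hr rfl
    rw [ih h]

include hR in
theorem Rp.det {n n' : ℕ} {s s' : List (Wi A)} {g : U R} (h : Rp R w n s g) (h' : Rp R w n' s' g)
    (e : lab s = lab s') : n = n' := by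
  obtain ⟨l, h1, h2, -, rfl⟩ := h.list
  obtain ⟨k, h3, h4, -, rfl⟩ := h'.list
  rw [run_det hR h1 (e ▸ h3) (h2.trans h4.symm)] at h
  exact h.len hR h'

include hR in
theorem Pth.rp {y : List A} {g : U R} (h : Pth R w y g) : ∃ n s, Rp R w n s g ∧ lab s = y := by
  obtain ⟨l, h1, rfl⟩ := h.tp
  obtain ⟨h2, n, -, h3⟩ := Rp.run hR h1 (.init (R := R)) (lab_top w)
  exact ⟨n, _, by simpa using h3, h2⟩

theorem Rp.right {n : ℕ} {s : List (Wi A)} {g : U R} (h : Rp R w n s g) (v : List A) :
    Rp R (w ++ v) n (s ++ v.map .top) (Rw v g) := by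
  induction h with
  | init => simpa using Rp.init (R := R) (w := w ++ v)
  | step sa i sb r c hr h1 h2 _ ih =>
    have := Rp.step sa i (sb ++ v.map .top) r c hr h1 h2 (by simpa using ih)
    rw [lab_append, lab_top] at this
    simpa [Rw_sv] using this

theorem Rp.left {v : List A} {n m : ℕ} {s t : List (Wi A)} {g k : U R} (h : Rp R v n s g)
    (h' : Rp R w m (t ++ v.map .top) k) : Rp R w (m + n) (t ++ s) (Lw (lab t) g * k) := by
  induction h with
  | init => simpa using h'
  | step sa i sb r c hr h1 h2 _ ih =>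
    simpa [Lw_sv, mul_assoc, ← add_assoc] using Rp.step (t ++ sa) i sb r c hr h1 h2 (by simpa using ih)

include hR in
theorem split_inj {a c : List A} {α β : U R} (h1 : Pth R a a α) (h2 : Pth R c c β)
    (h : Lw a β * Rw c α = 1) : α = 1 ∧ β = 1 := by
  obtain ⟨n, s, h3, h4⟩ := h1.rp hR
  obtain ⟨m, t, h5, h6⟩ := h2.rp hR
  have h7 := h5.left (h3.right c)
  rw [h4, h] at h7
  have h8 := h7.det hR .init (by simp [h4, h6, lab_top])
  obtain rfl : n = 0 := by omega
  obtain rfl : m = 0 := by omega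
  cases h3
  cases h5
  exact ⟨rfl, rfl⟩

include hR in
theorem short {u b b' : List A} {δ : U R} (h : Pth R b b' δ) {l : List (SE A)}
    (hl : TP R (u ++ b) (u ++ b') l) (e : ev R l = Lw u δ) :
    ∃ k, TP R b b' k ∧ ev R k = δ ∧ k.length ≤ l.length := by
  obtain ⟨n, s, h1, rfl⟩ := h.rp hR
  have h2 := h1.left (t := u.map .top) (by simpa using Rp.init (R := R) (w := u ++ b))
  obtain ⟨h3, m, h4, h5⟩ := Rp.run hR hl (.init (R := R)) (lab_top _)
  rw [lab_top, ← e] at h2
  have h6 := h2.det hR h5 (by rw [h3]; simp)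
  obtain ⟨k, h7, h8, h9, -⟩ := h1.list
  exact ⟨k, h7, h8, by omega⟩

end Pool.Agent.H65.Squier
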