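import Pool.Agent.H65.SquierN

/-! Diagram groups are torsion free. -/

namespace Pool.Agent.H65.Squier

variable {A : Type} {R : Set (List A × List A)}

theorem cocycle {M : Type} [Group M] (κ : Tr A → U R → M) (hκ : ∀ a b c, ∀ r ∈ R, ∀ s ∈ R, ∀ g,
    κ (a ++ r.2 ++ b, s, c) (e R (a, r, b ++ s.1 ++ c) * g) * κ (a, r, b ++ s.1 ++ c) g =
      κ (a, r, b ++ s.2 ++ c) (e R (a ++ r.1 ++ b, s, c) * g) * κ (a ++ r.1 ++ b, s, c) g) :
    ∃ H : U R → U R → M, (∀ k k' g, H (k * k') g = H k (k' * g) * H k' g) ∧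
      ∀ t g, H (e R t) g = κ t g := by
  let ρ : U R →* (U R → M) ⋊[mulAutArrow] U R :=
    ulift (fun t => ⟨fun x => κ t ((e R t)⁻¹ * x), e R t⟩) fun a b c r hr s hs => by
      refine SemidirectProduct.ext (funext fun x => ?_) (sq a b c hr hs)
      obtain ⟨g, rfl⟩ : ∃ g, x = e R (a ++ r.2 ++ b, s, c) * e R (a, r, b ++ s.1 ++ c) * g :=
        ⟨_, (mul_inv_cancel_left _ _).symm⟩
      change κ _ (_ * _) * κ _ (_ * (_ * _)) = κ _ (_ * _) * κ _ (_ * (_ * _))
      conv_rhs => rw [sq a b c hr hs]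
      simpa [mul_assoc] using hκ a b c r hr s hs g
  have h : ∀ k, (ρ k).right = k := fun k => by
    change (SemidirectProduct.rightHom.comp ρ) k = MonoidHom.id _ k
    congr 1
    ext t
    change (ρ (e R t)).right = _
    simp only [ρ, ulift_e]
    rfl
  refine ⟨fun k g => (ρ k).left (k * g), fun k k' g => ?_, fun t g => by simp [ρ]⟩
  dsimp only
  rw [map_mul, SemidirectProduct.mul_left, h]
  change _ * (ρ k').left (k⁻¹ * _) = _
  simp [mul_assoc]

variable (R) in
def hyp : Setoid ((List A × List A) × List A × U R) where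
  r x y := x.1 = y.1 ∧ ∃ δ, Pth R x.2.1 y.2.1 δ ∧ y.2.2 = Lw x.1.1 δ * x.2.2
  iseqv := ⟨fun x => ⟨rfl, 1, .one _, by simp⟩, fun ⟨h, δ, h1, h2⟩ =>
    ⟨h.symm, δ⁻¹, h1.inv, by simp [h2, h]⟩, fun ⟨h, δ, h1, h2⟩ ⟨h', δ', h3, h4⟩ =>
    ⟨h.trans h', δ' * δ, h3.mul h1, by simp [h4, h2, h, mul_assoc]⟩⟩

def ltr (s : SE A) (g : U R) : Quotient (hyp R) × Bool :=
  (⟦(s.2.1, s.2.2.1, if s.2.2.2 then g else sv R s * g)⟧, s.2.2.2)

open Classical in
noncomputable def W : List (SE A) → U R → List (Quotient (hyp R) × Bool)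
  | [], _ => []
  | s :: l, g => W l (sv R s * g) ++ if s.1 = [] then [ltr s g] else []

theorem W_append (l k : List (SE A)) (g : U R) : W (l ++ k) g = W k (ev R l * g) ++ W l g := by
  induction l generalizing g with
  | nil => simp [W, ev]
  | cons s l ih => simp [W, ev, ih, mul_assoc]

theorem W_last {l : List (SE A)} : ∀ {g : U R} {y}, y ∈ (W l g).getLast? → ∃ m s q,
    l = m ++ s :: q ∧ (∀ t ∈ m, t.1 ≠ []) ∧ s.1 = [] ∧ y = ltr s (ev R m * g) := by
  induction l with
  | nil => simp [W]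
  | cons s l ih =>
    intro g y h
    by_cases hs : s.1 = []
    · exact ⟨[], s, l, rfl, by simp, hs, by simpa [W, hs, ev, eq_comm] using h⟩
    · obtain ⟨m, t, q, rfl, h1, h2, h3⟩ := ih (g := sv R s * g) (y := y) (by simpa [W, hs] using h)
      exact ⟨s :: m, t, q, rfl, by simpa [hs] using h1, h2, by simpa [ev, mul_assoc] using h3⟩

variable (R) in
def Pinch (s : SE A) (m : List (SE A)) (t : SE A) : Prop := (∀ u ∈ m, u.1 ≠ []) ∧
  ∃ r b b' c δ, s = ([], r, b, c) ∧ t = ([], r, b', !c) ∧ Pth R b b' δ ∧ ev R m = Lw (sd r (!c)) δ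

theorem W_red {l : List (SE A)} (hl : ∀ s ∈ l, s.2.1 ∈ R) : ∀ {g : U R},
    ¬ FreeGroup.IsReduced (W l g) → ∃ p s m t q, l = p ++ s :: m ++ t :: q ∧ Pinch R s m t := by
  induction l with
  | nil => simp [W]
  | cons s l ih =>
    intro g h
    by_cases h1 : FreeGroup.IsReduced (W l (sv R s * g))
    swap
    · obtain ⟨p, u, m, t, q, rfl, h2⟩ := ih (fun t ht => hl t (by simp [ht])) h1
      exact ⟨s :: p, u, m, t, q, rfl, h2⟩
    by_cases hs : s.1 = []
    swap
    · exact absurd (by simpa [W, hs] using h1) h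
    rw [W, if_pos hs, FreeGroup.IsReduced, List.isChain_append] at h
    simp only [show List.IsChain _ _ from h1, List.isChain_singleton, true_and, not_forall] at h
    obtain ⟨y, hy, _, ⟨⟩, h2, h3⟩ := h
    obtain ⟨m, ⟨_, r', b', c'⟩, q, rfl, h4, rfl, rfl⟩ := W_last hy
    obtain ⟨_, r, b, c⟩ := s
    obtain rfl := hs
    obtain rfl : c' = !c := Bool.eq_not_iff.2 h3
    obtain ⟨rfl, δ, h5, h6⟩ := Quotient.exact h2.symm
    refine ⟨[], _, m, _, q, rfl, h4, r, b, b', c, δ, rfl, rfl, h5, ?_⟩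
    cases c
    · simpa [sd] using h6
    · have := inter (Pth.edge [] [] (hl ([], r, b, true) (by simp))) h5
      simp only [sv, Bool.not_true, Bool.false_eq_true, if_false, if_true, ← mul_assoc,
        mul_left_inj, sd, List.nil_append, List.append_nil, Rw_e] at h6 this ⊢
      rw [mul_assoc, inv_mul_eq_iff_eq_mul, this, mul_left_inj] at h6
      exact h6

variable (hR : ∀ r ∈ R, r.1 ≠ [] ∧ r.2 ≠ [])

def pw (l : List (SE A)) : ℕ → List (SE A)
  | 0 => []
  | n + 1 => l ++ pw l n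

include hR in
theorem britton {l : List (SE A)} (h1 : ∃ s ∈ l, s.1 = [])
    (h2 : ∀ g : U R, FreeGroup.IsReduced (W (l ++ l) g)) (n : ℕ) : ev R l ^ (n + 1) ≠ 1 := by
  classical
  obtain ⟨H, H1, H2⟩ := cocycle (R := R) (M := FreeGroup (Quotient (hyp R)))
    (fun t g => if t.1 = [] then .of ⟦(t.2.1, t.2.2, g)⟧ else 1) fun a b c r hr s hs g => by
      simp only [List.append_eq_nil_iff, (hR r hr).1, (hR r hr).2, and_false, false_and, if_false,
        one_mul, mul_one]
      split_ifs with h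
      · exact congrArg _ (Quotient.sound ⟨rfl, _, Pth.edge b c hs, by simp [h]⟩)
      · rfl
  have H0 : ∀ g, H 1 g = 1 := fun g => by simpa using H1 1 1 g
  have H3 : ∀ l g, H (ev R l) g = .mk (W l g) := fun l => by
    induction l with
    | nil => exact H0
    | cons s l ih =>
      intro g
      rw [ev, H1, ih, W, ← FreeGroup.mul_mk]
      congr 1
      obtain ⟨a, r, b, _ | _⟩ := s
      · have := H1 (e R (a, r, b)) (e R (a, r, b))⁻¹ g
        rw [mul_inv_cancel, H0, H2, eq_comm, mul_eq_one_iff_inv_eq] at this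
        refine this.symm.trans ?_
        dsimp only
        split_ifs <;> rfl
      · refine (H2 _ _).trans ?_
        dsimp only
        split_ifs <;> rfl
  have h3 : ∀ g : U R, W l g ≠ [] := by
    obtain ⟨s, hs, h⟩ := h1
    obtain ⟨p, q, rfl⟩ := List.append_of_mem hs
    simp [W_append, W, h]
  have h4 : ∀ n (g : U R), FreeGroup.IsReduced (W (pw l (n + 1)) g) := fun n => by
    induction n with
    | zero => 
      intro g
      have := h2 g
      rw [W_append] at this
      simpa [pw] using show FreeGroup.IsReduced _ from List.IsChain.right_of_append this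
    | succ n ih =>
      intro g
      have := ih (ev R l * g)
      rw [pw, W_append] at this
      rw [pw, W_append, pw, W_append]
      exact this.append_overlap (W_append l l g ▸ h2 g) (h3 _)
  have h5 : ∀ n, ev R (pw l n) = ev R l ^ n := fun n => by
    induction n with
    | zero => exact (pow_zero _).symm
    | succ n ih => rw [pw, ev_append, ih, pow_succ]
  intro h
  have h6 := H3 (pw l (n + 1)) 1
  rw [h5, h, H0, FreeGroup.one_eq_mk, FreeGroup.Red.exact] at h6
  obtain ⟨L, h7, h8⟩ := h6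
  rw [FreeGroup.Red.nil_iff.1 h7, (h4 n 1).red_iff_eq, pw, W_append] at h8
  exact h3 1 (List.append_eq_nil_iff.1 h8.symm).2

def lft (u : List A) (l : List (SE A)) : List (SE A) := l.map fun s => (u ++ s.1, s.2)

theorem ev_lft (u : List A) (l : List (SE A)) : ev R (lft u l) = Lw u (ev R l) := by
  induction l with
  | nil => simp [lft, ev]
  | cons s l ih => exact (congrArg₂ _ ih (Lw_sv u _ _ _ _).symm).trans (map_mul _ _ _).symm

theorem TP.lft {x y : List A} {l : List (SE A)} (h : TP R x y l) (u : List A) :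
    TP R (u ++ x) (u ++ y) (lft u l) := by
  induction h with
  | nil => exact .nil _
  | cons h1 h2 _ ih => exact .cons h1 (by simp [← h2, src]) (by simpa [tgt, Squier.lft] using ih)

theorem TP.unl {x : A} {l : List (SE A)} (hl : ∀ s ∈ l, s.1 ≠ []) : ∀ {v z : List A},
    TP R (x :: v) z l → ∃ v' k, z = x :: v' ∧ TP R v v' k ∧ l = Squier.lft [x] k := by
  induction l with
  | nil => intro v z h; cases h; exact ⟨v, [], rfl, .nil _, rfl⟩
  | cons s l ih =>
    intro v z h
    obtain ⟨_ | ⟨y, a⟩, r, b, c⟩ := s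
    · simp at hl
    cases h with
    | cons h1 h2 h3 =>
      obtain ⟨rfl, rfl⟩ := List.cons.inj h2
      obtain ⟨v', k, rfl, h4, rfl⟩ := ih (fun s hs => hl s (by simp [hs])) h3
      exact ⟨v', (a, r, b, c) :: k, rfl, .cons h1 rfl h4, rfl⟩

theorem TP.mem {x y : List A} {l : List (SE A)} (h : TP R x y l) : ∀ s ∈ l, s.2.1 ∈ R :=
  (tp_iff.1 h).1.1

include hR in
theorem L_inj {a c : List A} {β : U R} (h : Pth R c c β) (h' : Lw a β = 1) : β = 1 :=
  (split_inj hR (.one a) h (by simpa using h')).2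

include hR in
theorem R_inj {a c : List A} {β : U R} (h : Pth R a a β) (h' : Rw c β = 1) : β = 1 :=
  (split_inj hR h (.one c) (by simpa using h')).1

include hR in
theorem tf_list (n k : ℕ) : ∀ (v : List A) (l : List (SE A)), l.length = k → TP R v v l →
    ev R l ^ (n + 1) = 1 → ev R l = 1 := by
  induction k using Nat.strong_induction_on with
  | _ k ih =>
  have rot : ∀ p q v, TP R v v (p ++ q) → ev R (p ++ q) ^ (n + 1) = 1 → (∀ y, TP R y y (q ++ p) →
      ev R (q ++ p) ^ (n + 1) = 1 → ev R (q ++ p) = 1) → ev R (p ++ q) = 1 := fun p q v h1 h2 h3 => by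
    obtain ⟨y, h4, h5⟩ := h1.split
    have e : ev R (q ++ p) = ev R p * ev R (p ++ q) * (ev R p)⁻¹ := by
      simp [ev_append, ← mul_assoc]
    simpa [e] using h3 y (h5.append h4) (by rw [e, conj_pow, h2]; simp)
  have cut : ∀ s m t q, Pinch R s m t → (s :: m ++ t :: q).length = k → ∀ v,
      TP R v v (s :: m ++ t :: q) → ev R (s :: m ++ t :: q) ^ (n + 1) = 1 →
      ev R (s :: m ++ t :: q) = 1 := by
    rintro _ m _ q ⟨-, r, b, b', c, δ, rfl, rfl, h1, h2⟩ hk v h
    cases h with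
    | cons h3 h4 h5 =>
    obtain ⟨y, h6, h7⟩ := h5.split
    cases h7 with
    | cons _ h8 h9 =>
    subst h4 h8
    obtain ⟨l, h10, rfl, h11⟩ := short hR h1 (u := sd r (!c)) (by simpa [tgt_eq, src_eq] using h6) h2
    have e : ev R (([], r, b, c) :: m ++ ([], r, b', !c) :: q) = ev R (lft (sd r c) l ++ q) := by
      have := inter (pth_sv [] [] h3 c) h1
      simp only [List.cons_append, ev, ev_append, ev_lft, h2, sv_not, Rw_sv, List.nil_append,
        List.append_nil, mul_assoc] at this ⊢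
      rw [← this, inv_mul_cancel_left]
    rw [e]
    exact ih _ (by simp [lft] at hk ⊢; omega) _ _ rfl
      ((h10.lft _).append (by simpa [tgt_eq, src_eq] using h9))
  have cut' : ∀ p s m t q, Pinch R s m t → (p ++ (s :: m ++ t :: q)).length = k → ∀ v,
      TP R v v (p ++ (s :: m ++ t :: q)) → ev R (p ++ (s :: m ++ t :: q)) ^ (n + 1) = 1 →
      ev R (p ++ (s :: m ++ t :: q)) = 1 := fun p s m t q h hk v h1 h2 => rot _ _ v h1 h2 (by
    simpa using cut s m t (q ++ p) h (by simp at hk ⊢; omega))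
  intro v
  induction v with
  | nil =>
    intro l _ h _
    cases h with
    | nil => rfl
    | @cons _ _ s _ h1 h2 _ => simpa [sd_ne hR h1] using
        (src_eq s.1 s.2.2.1 s.2.1 s.2.2.2).symm.trans h2
  | cons x v ih' =>
    intro l hk hl h
    by_cases h1 : ∃ s ∈ l, s.1 = []
    swap
    · obtain ⟨_, l', ⟨⟩, h2, rfl⟩ := TP.unl (fun s hs e => h1 ⟨s, hs, e⟩) hl
      rw [ev_lft] at h ⊢
      have h3 : ∀ j, Pth R v v (ev R l' ^ j) := fun j => by
        induction j with
        | zero => simpa using Pth.one v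
        | succ j ih => rw [pow_succ]; exact ih.mul h2.pth
      rw [ih' l' (by simpa [lft] using hk) h2 (L_inj hR (h3 _) (by rw [map_pow, h])), map_one]
    have h2 := mt (britton hR h1 · n) (not_not.2 h)
    obtain ⟨g, h2⟩ := not_forall.1 h2
    obtain ⟨p, s, m, t, q, h3, h4⟩ := W_red (hl.append hl).mem h2
    have ne : s ≠ t := by
      obtain ⟨-, r, b, b', c, δ, rfl, rfl, -⟩ := h4
      simp
    have hs : s ∉ m := fun h => by
      obtain ⟨h5, r, b, b', c, δ, rfl, -⟩ := h4
      exact h5 _ h rfl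
    have str : ∀ m₁ m₂, m = m₁ ++ m₂ → l = p ++ s :: m₁ → l = m₂ ++ t :: q → ev R l = 1 := by
      rintro m₁ m₂ rfl rfl h5
      rcases List.append_eq_append_iff.1 h5 with ⟨_ | ⟨y, u⟩, rfl, h6⟩ | ⟨_ | ⟨y, u⟩, rfl, h6⟩
      · exact absurd (List.cons.inj h6).1 ne
      · obtain rfl := (List.cons.inj h6).1
        simp at hs
      · exact absurd (List.cons.inj h6).1.symm ne
      · obtain ⟨rfl, rfl⟩ := List.cons.inj h6
        exact rot _ _ _ hl h (by simpa using cut s _ t u h4 (by simp at hk ⊢; omega))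
    have aux : ∀ u, p ++ s :: m = l ++ u → l = u ++ t :: q → ev R l = 1 := fun u h5 h6 => by
      rcases List.append_eq_append_iff.1 h5 with ⟨_ | ⟨y, u'⟩, h7, h8⟩ | ⟨u', h7, rfl⟩
      · obtain rfl : s :: m = u := h8
        exact h6 ▸ cut s m t q h4 (h6 ▸ hk) _ (h6 ▸ hl) (h6 ▸ h)
      · obtain ⟨rfl, h9⟩ := List.cons.inj h8
        exact str u' u h9 h7 h6
      · rw [List.append_assoc] at h6
        exact h6 ▸ cut' u' s m t q h4 (h6 ▸ hk) _ (h6 ▸ hl) (h6 ▸ h)
    rcases List.append_eq_append_iff.1 h3 with ⟨u, h5, h6⟩ | ⟨_ | ⟨y, u⟩, h5, h6⟩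
    · exact aux u h5 h6
    · exact aux [] (by simp [h5]) h6.symm
    · obtain rfl := (List.cons.inj h6).1
      rw [List.append_assoc] at h5
      exact h5 ▸ cut' p s m t u h4 (h5 ▸ hk) _ (h5 ▸ hl) (h5 ▸ h)

include hR in
theorem tf {v : List A} {g : U R} (h : Pth R v v g) {n : ℤ} (hn : g ^ n = 1) : n = 0 ∨ g = 1 := by
  obtain ⟨l, h1, rfl⟩ := h.tp
  rcases n with (_ | n) | n
  · exact .inl rfl
  · exact .inr (tf_list hR n _ v l rfl h1 (by exact_mod_cast hn))
  · exact .inr (tf_list hR n _ v l rfl h1 (by simpa using hn))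

end Pool.Agent.H65.Squier
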