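import Mathlib

/-! Prefix replacement maps of the Cantor space (Thompson's group `V`), the element `x₀`,
its centraliser and a Mather-type invariant. -/

namespace Pool.Agent.H65.Thom

open Equiv

abbrev C : Type := ℕ → Bool

def cons (c : Bool) (w : C) : C := fun k => Nat.casesOn k c w
def tail (x : C) : C := fun k => x (k + 1)

@[simp] theorem cons_zero (c : Bool) (w : C) : cons c w 0 = c := rfl
@[simp] theorem cons_succ (c : Bool) (w : C) (k : ℕ) : cons c w (k + 1) = w k := rfl
@[simp] theorem tail_cons (c : Bool) (w : C) : tail (cons c w) = w := rfl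
theorem cons_tail (x : C) : cons (x 0) (tail x) = x := by funext k; cases k <;> rfl
@[simp] theorem cons_inj {c d : Bool} {v w : C} : cons c v = cons d w ↔ c = d ∧ v = w :=
  ⟨fun h => ⟨congrFun h 0, congrArg tail h⟩, fun h => by rw [h.1, h.2]⟩

theorem cases1 (x : C) : (∃ w, x = cons false w) ∨ ∃ w, x = cons true w := by
  rw [← cons_tail x]
  cases x 0 <;> simp

def cat : List Bool → C → C
  | [], w => w
  | c :: s, w => cons c (cat s w)

@[simp] theorem cat_nil (w : C) : cat [] w = w := rfl
@[simp] theorem cat_cons (c : Bool) (s : List Bool) (w : C) : cat (c :: s) w = cons c (cat s w) := rfl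
theorem cat_append (s t : List Bool) (w : C) : cat (s ++ t) w = cat s (cat t w) := by
  induction s <;> simp_all
@[simp] theorem cat_inj {s : List Bool} {v w : C} : cat s v = cat s w ↔ v = w := by
  induction s <;> simp_all

theorem cat_cmp {s t : List Bool} {v w : C} (h : cat s v = cat t w) :
    (∃ r, t = s ++ r ∧ v = cat r w) ∨ ∃ r, s = t ++ r ∧ w = cat r v := by
  induction s generalizing t with
  | nil => exact .inl ⟨t, rfl, h⟩
  | cons c s ih =>
    cases t with
    | nil => exact .inr ⟨c :: s, rfl, h.symm⟩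
    | cons d t =>
      simp only [cat_cons, cons_inj] at h
      simpa [h.1] using ih h.2

theorem cat_add (s : List Bool) (w : C) (k : ℕ) : cat s w (k + s.length) = w k := by
  induction s with
  | nil => rfl
  | cons c s ih => exact ih

/-- constant sequences -/
def K (c : Bool) : C := fun _ => c

theorem cons_K (c : Bool) : cons c (K c) = K c := by funext k; cases k <;> rfl

theorem cat_rep_K (c : Bool) (n : ℕ) : cat (List.replicate n c) (K c) = K c := by
  induction n with
  | zero => rfl
  | succ n ih => rw [List.replicate_succ, cat_cons, ih, cons_K]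

theorem eq_K {s : List Bool} {w : C} {c : Bool} (h : cat s w = K c) :
    s = List.replicate s.length c ∧ w = K c := by
  induction s with
  | nil => exact ⟨rfl, h⟩
  | cons d s ih =>
    rw [← cons_K, cat_cons, cons_inj] at h
    exact ⟨by rw [List.length_cons, List.replicate_succ, ← (ih h.2).1, h.1], (ih h.2).2⟩

/-- locally a prefix replacement -/
def IsV (g : Perm C) : Prop := ∀ x, ∃ s t w0, x = cat s w0 ∧ ∀ w, g (cat s w) = cat t w

def V : Subgroup (Perm C) where
  carrier := {g | IsV g}
  one_mem' x := ⟨[], [], x, rfl, fun _ => rfl⟩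
  inv_mem' {g} h x := by
    obtain ⟨s, t, w0, h1, h2⟩ := h (g⁻¹ x)
    refine ⟨t, s, w0, by rw [← h2, ← h1]; simp, fun w => by rw [← h2]; simp⟩
  mul_mem' {g g'} h h' x := by
    obtain ⟨s, t, w0, rfl, h2⟩ := h' x
    obtain ⟨s', t', w1, h3, h4⟩ := h (cat t w0)
    rcases cat_cmp h3 with ⟨r, rfl, rfl⟩ | ⟨r, rfl, rfl⟩
    · exact ⟨s ++ r, t', w1, by rw [cat_append], fun w => by
        rw [Perm.mul_apply, cat_append, h2, ← cat_append, h4]⟩
    · exact ⟨s, t' ++ r, w0, rfl, fun w => by rw [Perm.mul_apply, h2, cat_append, h4, cat_append]⟩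

/-- `g` acting in the cone of the one-letter word `c` -/
def sub1 (c : Bool) : Perm C →* Perm C :=
  MonoidHom.toHomPerm
    { toFun := fun g x => if x 0 = c then cons c (g (tail x)) else x
      map_one' := by
        funext x
        change (if x 0 = c then cons c (tail x) else x) = x
        split_ifs with h
        · rw [← h, cons_tail]
        · rfl
      map_mul' := fun g h => by
        funext x
        change _ = (fun x : C => if x 0 = c then cons c (g (tail x)) else x)
          (if x 0 = c then cons c (h (tail x)) else x)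
        by_cases hx : x 0 = c <;> simp [hx] }

theorem sub1_apply (c : Bool) (g : Perm C) (x : C) :
    sub1 c g x = if x 0 = c then cons c (g (tail x)) else x := rfl

/-- `g` acting in the cone of `s` -/
def sub : List Bool → Perm C →* Perm C
  | [] => MonoidHom.id _
  | c :: s => (sub1 c).comp (sub s)

theorem sub_cat (s : List Bool) (g : Perm C) (w : C) : sub s g (cat s w) = cat s (g w) := by
  induction s with
  | nil => rfl
  | cons c s ih => simp [sub, sub1_apply, ih]

theorem sub_out {s : List Bool} (g : Perm C) {x : C} (h : ∀ w, x ≠ cat s w) : sub s g x = x := by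
  induction s generalizing x with
  | nil => exact absurd rfl (h x)
  | cons c s ih =>
    change sub1 c (sub s g) x = x
    rw [sub1_apply]
    split_ifs with hc
    · rw [ih fun w e => h w (by rw [cat_cons, ← e, ← hc, cons_tail]), ← hc, cons_tail]
    · rfl

theorem sub_append (s t : List Bool) (g : Perm C) : sub (s ++ t) g = sub s (sub t g) := by
  induction s with
  | nil => rfl
  | cons c s ih => exact congrArg (sub1 c) ih

theorem conj_sub {g : Perm C} {s t : List Bool} (h : ∀ w, g (cat s w) = cat t w) (u : Perm C) :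
    g * sub s u * g⁻¹ = sub t u := by
  ext1 x
  obtain ⟨y, rfl⟩ := g.surjective x
  simp only [Perm.mul_apply, Perm.coe_inv, symm_apply_apply]
  by_cases hy : ∃ w, y = cat s w
  · obtain ⟨w, rfl⟩ := hy
    rw [sub_cat, h, h, sub_cat]
  · push Not at hy
    rw [sub_out u hy, sub_out u fun w e => hy w (g.injective (e.trans (h w).symm))]

theorem sub_mem {g : Perm C} (h : g ∈ V) (s : List Bool) : sub s g ∈ V := by
  induction s with
  | nil => exact h
  | cons c s ih =>
    intro x
    by_cases hx : x 0 = c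
    · obtain ⟨s', t, w0, h1, h2⟩ := ih (tail x)
      exact ⟨c :: s', c :: t, w0, by rw [cat_cons, ← h1, ← hx, cons_tail], fun w => by
        simp [sub, sub1_apply, h2]⟩
    · exact ⟨[x 0], [x 0], tail x, (cons_tail x).symm, fun w => by simp [sub, sub1_apply, hx]⟩

/-- the generator `00w ↦ 0w, 01w ↦ 10w, 1w ↦ 11w` -/
def a : Perm C where
  toFun x := if x 0 then cons true x else if x 1 then cons true (cons false (tail (tail x))) else tail x
  invFun x := if x 0 then (if x 1 then tail x else cons false (cons true (tail (tail x))))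
    else cons false x
  left_inv x := by
    rcases cases1 x with ⟨x, rfl⟩ | ⟨x, rfl⟩
    · rcases cases1 x with ⟨x, rfl⟩ | ⟨x, rfl⟩ <;> simp
    · simp
  right_inv x := by
    rcases cases1 x with ⟨x, rfl⟩ | ⟨x, rfl⟩
    · simp
    · rcases cases1 x with ⟨x, rfl⟩ | ⟨x, rfl⟩ <;> simp

@[simp] theorem a00 (w : C) : a (cons false (cons false w)) = cons false w := rfl
@[simp] theorem a01 (w : C) : a (cons false (cons true w)) = cons true (cons false w) := rfl
@[simp] theorem a1 (w : C) : a (cons true w) = cons true (cons true w) := rfl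

theorem a_mem : a ∈ V := fun x => by
  rcases cases1 x with ⟨x, rfl⟩ | ⟨x, rfl⟩
  · rcases cases1 x with ⟨x, rfl⟩ | ⟨x, rfl⟩
    · exact ⟨[false, false], [false], x, rfl, fun _ => rfl⟩
    · exact ⟨[false, true], [true, false], x, rfl, fun _ => rfl⟩
  · exact ⟨[true], [true, true], x, rfl, fun _ => rfl⟩

theorem a_K (c : Bool) : a (K c) = K c := by
  cases c
  · conv_lhs => rw [← cons_K, ← cons_K]
    rw [a00, cons_K]
  · conv_lhs => rw [← cons_K]
    rw [a1, cons_K, cons_K]

theorem az_K (c : Bool) (n : ℤ) : (a ^ n) (K c) = K c :=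
  Perm.zpow_apply_eq_self_of_apply_eq_self (a_K c) n

/-- the fundamental domains of `a` -/
def ph (i : ℤ) (w : C) : C := (a ^ i) (cons false (cons true w))

theorem az_ph (n i : ℤ) (w : C) : (a ^ n) (ph i w) = ph (n + i) w := by
  rw [ph, ph, zpow_add, Perm.mul_apply]

theorem a_ph (i : ℤ) (w : C) : a (ph i w) = ph (i + 1) w := by
  rw [add_comm, ← az_ph, zpow_one]

theorem ph_neg (n : ℕ) (w : C) : ph (-n) w = cat (List.replicate (n + 1) false) (cons true w) := by
  induction n with
  | zero => rfl
  | succ n ih =>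
    apply a.injective
    rw [a_ph, List.replicate_succ, List.replicate_succ, cat_cons, cat_cons, a00]
    push_cast
    rw [show -((n : ℤ) + 1) + 1 = -n by ring, ih, List.replicate_succ, cat_cons]

theorem ph_pos (n : ℕ) (w : C) : ph (n + 1) w = cat (List.replicate (n + 1) true) (cons false w) := by
  induction n with
  | zero => rfl
  | succ n ih =>
    push_cast
    rw [← a_ph, ih, List.replicate_succ, cat_cons, a1]
    rfl

theorem split (c : Bool) (x : C) :
    x = K c ∨ ∃ n w, x = cat (List.replicate n c) (cons (!c) w) := by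
  by_cases h : ∃ k, x k ≠ c
  · right
    obtain ⟨k, hk⟩ := h
    induction k generalizing x with
    | zero => exact ⟨0, tail x, by rw [← Bool.eq_not.2 hk]; exact (cons_tail x).symm⟩
    | succ k ih =>
      by_cases h0 : x 0 = c
      · obtain ⟨n, w, e⟩ := ih (tail x) hk
        exact ⟨n + 1, w, by rw [List.replicate_succ, cat_cons, ← e, ← h0, cons_tail]⟩
      · exact ⟨0, tail x, by rw [← Bool.eq_not.2 h0]; exact (cons_tail x).symm⟩
  · left
    push Not at h
    exact funext h

theorem tri (x : C) : (∃ c, x = K c) ∨ ∃ i w, x = ph i w := by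
  rcases split (x 0) x with h | ⟨n, w, h⟩
  · exact .inl ⟨_, h⟩
  · right
    cases n with
    | zero => simpa using congrFun h 0
    | succ n =>
      generalize x 0 = c at h
      cases c
      · exact ⟨-n, w, by rw [ph_neg]; exact h⟩
      · exact ⟨n + 1, w, by rw [ph_pos]; exact h⟩

theorem ph_ne_K (i : ℤ) (w : C) (c : Bool) : ph i w ≠ K c := by
  intro h
  have h1 := congrArg (a ^ (-i) : Perm C) h
  rw [az_ph, az_K, neg_add_cancel, ← cons_K, ← cons_K] at h1
  have h2 : cons false (cons true w) = _ := h1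
  simp only [cons_inj] at h2
  exact absurd (h2.1.trans h2.2.1.symm) (by simp)

theorem ph_inj {i j : ℤ} {v w : C} (h : ph i v = ph j w) : i = j ∧ v = w := by
  have key : ∀ (n : ℕ) (v w : C), ph 0 v ≠ ph (n + 1) w := fun n v w e => by
    rw [ph_pos] at e
    simpa [ph, List.replicate_succ] using congrFun e 0
  have h1 := congrArg (a ^ (-i) : Perm C) h
  have h2 := congrArg (a ^ (-j) : Perm C) h
  rw [az_ph, az_ph, neg_add_cancel] at h1 h2
  rcases lt_trichotomy i j with hl | rfl | hl
  · exact absurd (by rw [h1]; congr 1; omega) (key (j - i - 1).toNat v w)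
  · simpa [ph] using h
  · exact absurd (by rw [← h2]; congr 1; omega) (key (i - j - 1).toNat w v)

theorem az_inj {m n : ℤ} (h : a ^ m = a ^ n) : m = n := by
  have := congrArg (fun g : Perm C => g (ph 0 (K true))) h
  simp only [az_ph] at this
  simpa using (ph_inj this).1

theorem ext3 {g g' : Perm C} (h1 : ∀ c, g (K c) = g' (K c)) (h2 : ∀ i w, g (ph i w) = g' (ph i w)) :
    g = g' := by
  ext1 x
  rcases tri x with ⟨c, rfl⟩ | ⟨i, w, rfl⟩
  exacts [h1 c, h2 i w]

theorem germ_K {u : Perm C} (hu : u ∈ V) {c d : Bool} (h : u (K c) = K d) :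
    d = c ∧ ∃ m m', ∀ w, u (cat (List.replicate m c) w) = cat (List.replicate m' c) w := by
  obtain ⟨s, t, w0, h1, h2⟩ := hu (K c)
  obtain ⟨e1, rfl⟩ := eq_K h1.symm
  rw [h1, h2] at h
  obtain ⟨e2, e3⟩ := eq_K h
  obtain rfl : c = d := congrFun e3 0
  exact ⟨rfl, s.length, t.length, by rw [← e1, ← e2]; exact h2⟩

theorem germ_lo {u : Perm C} (hu : u ∈ V) (h : u (K false) = K false) :
    ∃ r N : ℤ, ∀ i ≤ N, ∀ w, u (ph i w) = ph (i + r) w := by
  obtain ⟨-, m, m', h2⟩ := germ_K hu h
  refine ⟨m - m', -m, fun i hi w => ?_⟩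
  obtain ⟨n, rfl⟩ : ∃ n : ℕ, i = -((m + n : ℕ) : ℤ) := ⟨(-i - m).toNat, by omega⟩
  rw [show -((m + n : ℕ) : ℤ) + (m - m') = -((m' + n : ℕ) : ℤ) by omega, ph_neg, ph_neg, add_assoc,
    add_assoc, List.replicate_add, List.replicate_add m', cat_append, cat_append, h2]

theorem germ_hi {u : Perm C} (hu : u ∈ V) (h : u (K true) = K true) :
    ∃ r N : ℤ, ∀ i ≥ N, ∀ w, u (ph i w) = ph (i + r) w := by
  obtain ⟨-, m, m', h2⟩ := germ_K hu h
  refine ⟨m' - m, m + 1, fun i hi w => ?_⟩
  obtain ⟨n, rfl⟩ : ∃ n : ℕ, i = ((m + n : ℕ) : ℤ) + 1 := ⟨(i - m - 1).toNat, by omega⟩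
  rw [show ((m + n : ℕ) : ℤ) + 1 + (m' - m) = ((m' + n : ℕ) : ℤ) + 1 by omega, ph_pos, ph_pos,
    add_assoc, add_assoc, List.replicate_add, List.replicate_add m', cat_append, cat_append, h2]

/-- `a` acting in the cone of `01` -/
def b : Perm C := sub [false, true] a

theorem b_mem : b ∈ V := sub_mem a_mem _

theorem bz_K (n : ℤ) (c : Bool) : (b ^ n) (K c) = K c := by
  rw [b, ← map_zpow]
  exact sub_out _ fun w e => ph_ne_K 0 w c e.symm

theorem bz_ph (n i : ℤ) (w : C) : (b ^ n) (ph i w) = ph i (if i = 0 then (a ^ n) w else w) := by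
  rw [b, ← map_zpow]
  split_ifs with h
  · subst h
    exact sub_cat [false, true] _ w
  · exact sub_out _ fun v e => h (ph_inj (j := 0) e).1

theorem fix_K {u g g' : Perm C} (hu : u ∈ V) (h : g' * u = u * g) (h1 : ∀ c, g (K c) = K c)
    (h2 : ∀ i w, g' (ph i w) ≠ ph i w) (c : Bool) : u (K c) = K c := by
  have e : g' (u (K c)) = u (K c) := by rw [← Perm.mul_apply, h, Perm.mul_apply, h1]
  rcases tri (u (K c)) with ⟨d, hd⟩ | ⟨i, w, hw⟩
  · rw [hd, (germ_K hu hd).1]
  · rw [hw] at e
    exact absurd e (h2 i w)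

theorem mather {u : Perm C} (hu : u ∈ V) {c : ℤ} (h : a * u * a⁻¹ = b ^ c * u) :
    c = 0 ∧ ∃ r : ℤ, u = a ^ r := by
  have h' : (b ^ (-c) * a) * u = u * a := by
    rw [mul_assoc, ← inv_mul_cancel_right (a * u) a, mul_assoc (a * u), ← mul_assoc (a * u), h]
    group
  have hK := fix_K hu h' a_K fun i w e => by
    rw [Perm.mul_apply, a_ph, bz_ph] at e
    have := (ph_inj e).1
    omega
  obtain ⟨r, N, h1⟩ := germ_lo hu (hK false)
  obtain ⟨r', N', h2⟩ := germ_hi hu (hK true)
  have h3 : ∀ i w, u (ph i w) = ph (i + r) (if i + r < 0 then w else (a ^ (-c)) w) := by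
    intro i w
    by_cases hi : i ≤ min N (-r - 1)
    · rw [h1 i (by omega), if_pos (by omega)]
    · refine Int.leInduction (motive := fun i _ => u (ph i w) =
        ph (i + r) (if i + r < 0 then w else (a ^ (-c)) w)) (m := min N (-r - 1)) ?_ ?_ i (by omega)
      · rw [h1 _ (by omega), if_pos (by omega)]
      · intro n _ ih
        rw [← a_ph, ← Perm.mul_apply, ← h', Perm.mul_apply, Perm.mul_apply, ih, a_ph, bz_ph,
          add_right_comm]
        congr 1
        split_ifs <;> first | rfl | omega
  have h4 : a ^ (-c) = a ^ (0 : ℤ) := by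
    ext1 w
    have := h3 (max N' (-r)) w
    rw [h2 _ (by omega), if_neg (by omega)] at this
    exact (ph_inj this).2.symm
  have h5 := az_inj h4
  refine ⟨by omega, r, ext3 (fun d => by rw [hK, az_K]) fun i w => ?_⟩
  rw [h3, h4, az_ph, add_comm]
  simp

theorem conj_pow {u : Perm C} (hu : u ∈ V) {m n : ℕ} (hm : 0 < m) (hn : 0 < n)
    (h : a ^ (m : ℤ) * u = u * a ^ (n : ℤ)) : m = n ∧ ∃ r : ℤ, u = a ^ r := by
  have hK := fix_K hu h (fun c => az_K c n) fun i w e => by
    rw [az_ph] at e
    have := (ph_inj e).1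
    omega
  obtain ⟨r, N, h1⟩ := germ_lo hu (hK false)
  have h2 : ∀ i w, (a ^ (m : ℤ)) (u (ph i w)) = u (ph (n + i) w) := fun i w => by
    rw [← Perm.mul_apply, h, Perm.mul_apply, az_ph]
  obtain rfl : m = n := by
    have := h2 (N - n) (K true)
    rw [h1 _ (by omega), h1 _ (by omega), az_ph] at this
    have := (ph_inj this).1
    omega
  refine ⟨rfl, r, ext3 (fun d => by rw [hK, az_K]) fun i w => ?_⟩
  have h3 : ∀ k : ℕ, ∀ i ≤ N + k, u (ph i w) = ph (i + r) w := by
    intro k
    induction k with
    | zero => exact fun i hi => h1 i (by omega) w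
    | succ k ih =>
      intro i hi
      have := h2 (i - m) w
      rw [ih _ (by omega), az_ph] at this
      rw [show i = m + (i - m) by ring, ← this]
      congr 1
      ring
  rw [h3 (i - N).toNat i (by omega), az_ph, add_comm]

end Pool.Agent.H65.Thom
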