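import Pool.Agent.H65.Thom1
import Pool.Agent.H65.Dprm2

/-! The wreath product `ℤ ≀ ℤ` inside `V` and the interpretation of integer arithmetic by
systems of group equations. -/

namespace Pool.Agent.H65.Thom

open Equiv LaurentPolynomial Pool.Agent.H65.Dprm

abbrev L : Type := LaurentPolynomial ℤ

def Dg (g : Perm C) (P : L) : Prop :=
  (∀ c, g (K c) = K c) ∧ ∀ i w, g (ph i w) = ph i ((a ^ P.coeff i) w)

theorem Dg.ext {g g' : Perm C} {P : L} (h : Dg g P) (h' : Dg g' P) : g = g' :=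
  ext3 (fun c => by rw [h.1, h'.1]) fun i w => by rw [h.2, h'.2]

theorem Dg.mul {g g' : Perm C} {P Q : L} (h : Dg g P) (h' : Dg g' Q) : Dg (g * g') (P + Q) :=
  ⟨fun c => by rw [Perm.mul_apply, h'.1, h.1], fun i w => by
    rw [Perm.mul_apply, h'.2, h.2]; simp [zpow_add]⟩

theorem dg_mono (n c : ℤ) : Dg (a ^ n * b ^ c * a ^ (-n)) (LaurentPolynomial.C c * T n) := by
  refine ⟨fun d => by simp only [Perm.mul_apply, az_K, bz_K], fun i w => ?_⟩
  rw [← single_eq_C_mul_T]
  simp only [Perm.mul_apply, az_ph, bz_ph, AddMonoidAlgebra.coeff_single, Finsupp.single_apply]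
  rw [add_neg_cancel_left]
  congr 1
  split_ifs <;> first | rfl | omega

/-- the subgroup generated by `a` and `b` -/
def W : Subgroup (Perm C) := Subgroup.closure {a, b}

theorem a_W : a ∈ W := Subgroup.subset_closure (by simp)
theorem b_W : b ∈ W := Subgroup.subset_closure (by simp)

theorem W_le : W ≤ V := (Subgroup.closure_le _).2 (by
  rintro _ (rfl | rfl)
  exacts [a_mem, b_mem])

theorem exists_dg (P : L) : ∃ g ∈ W, Dg g P := by
  induction P using LaurentPolynomial.induction_on' with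
  | add p q hp hq =>
    obtain ⟨g, h1, h2⟩ := hp
    obtain ⟨g', h3, h4⟩ := hq
    exact ⟨_, mul_mem h1 h3, h2.mul h4⟩
  | C_mul_T n c => exact ⟨_, mul_mem (mul_mem (zpow_mem a_W _) (zpow_mem b_W _)) (zpow_mem a_W _),
      dg_mono n c⟩

noncomputable def be (P : L) : Perm C := (exists_dg P).choose

theorem be_W (P : L) : be P ∈ W := (exists_dg P).choose_spec.1
theorem be_dg (P : L) : Dg (be P) P := (exists_dg P).choose_spec.2
theorem be_add (P Q : L) : be (P + Q) = be P * be Q := (be_dg _).ext ((be_dg P).mul (be_dg Q))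
theorem be_zero : be 0 = 1 := by simpa using be_add 0 0
theorem be_neg (P : L) : be (-P) = (be P)⁻¹ :=
  eq_inv_of_mul_eq_one_left (by rw [← be_add, neg_add_cancel, be_zero])
theorem be_sub (P Q : L) : be (P - Q) = be P * (be Q)⁻¹ := by rw [sub_eq_add_neg, be_add, be_neg]
theorem be_mono (n c : ℤ) : be (LaurentPolynomial.C c * T n) = a ^ n * b ^ c * a ^ (-n) :=
  (be_dg _).ext (dg_mono n c)
theorem be_C (c : ℤ) : be (LaurentPolynomial.C c) = b ^ c := by simpa using be_mono 0 c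
theorem be_one : be 1 = b := by simpa using be_C 1

theorem be_inj {P Q : L} (h : be P = be Q) : P = Q := by
  refine LaurentPolynomial.ext fun i => az_inj (Equiv.ext fun w => ?_)
  exact (ph_inj (((be_dg P).2 i w).symm.trans (h ▸ (be_dg Q).2 i w))).2

theorem be_conj (k : ℤ) (P : L) : a ^ k * be P * (a ^ k)⁻¹ = be (T k * P) := by
  induction P using LaurentPolynomial.induction_on' with
  | add p q hp hq => rw [mul_add, be_add, be_add, ← hp, ← hq]; group
  | C_mul_T n c => rw [mul_left_comm, ← T_add, be_mono, be_mono]; group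

/-- commutator -/
def dl {G : Type} [Group G] (g u : G) : G := g * u * g⁻¹ * u⁻¹

theorem map_dl {G H : Type} [Group G] [Group H] (f : G →* H) (g u : G) :
    f (dl g u) = dl (f g) (f u) := by simp [dl]

theorem dl_be (k : ℤ) (P : L) : dl (a ^ k) (be P) = be ((T k - 1) * P) := by
  rw [dl, be_conj, sub_mul, one_mul, be_sub]

theorem dl_be1 (P : L) : dl a (be P) = be ((T 1 - 1) * P) := by simpa using dl_be 1 P

noncomputable def aug : L →+* ℤ := LaurentPolynomial.eval₂ (RingHom.id ℤ) 1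

theorem aug_T (n : ℤ) : aug (T n) = 1 := by simp [aug, eval₂_T]
theorem aug_C (n : ℤ) : aug (LaurentPolynomial.C n) = n := by simp [aug, eval₂_C]

theorem geom (n : ℤ) : ∃ s : L, T n - 1 = (T 1 - 1) * s ∧ aug s = n := by
  induction n using Int.induction_on with
  | zero => exact ⟨0, by simp, by simp⟩
  | succ n ih =>
    obtain ⟨s, h1, h2⟩ := ih
    exact ⟨s + T n, by rw [T_add, mul_add, ← h1]; ring, by rw [map_add, h2, aug_T]⟩
  | pred n ih =>
    obtain ⟨s, h1, h2⟩ := ih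
    refine ⟨s - T (-n - 1), ?_, by rw [map_sub, h2, aug_T]⟩
    have : (T (-n) : L) = T 1 * T (-n - 1) := by rw [← T_add]; congr 1; ring
    rw [mul_sub, ← h1, this]
    ring

theorem div_aug (P : L) : ∃ E : L, P = (T 1 - 1) * E + LaurentPolynomial.C (aug P) := by
  induction P using LaurentPolynomial.induction_on' with
  | add p q hp hq =>
    obtain ⟨E, h1⟩ := hp
    obtain ⟨E', h2⟩ := hq
    exact ⟨E + E', by rw [map_add, map_add]; linear_combination h1 + h2⟩
  | C_mul_T n c =>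
    obtain ⟨s, h1, -⟩ := geom n
    exact ⟨LaurentPolynomial.C c * s, by
      rw [map_mul, aug_T, aug_C, mul_one]; linear_combination LaurentPolynomial.C c * h1⟩

theorem T_ne {r : ℤ} (h : (T r : L) - 1 = 0) : r = 0 := by
  have := congrArg (fun P : L => P.coeff r) (sub_eq_zero.1 h)
  rw [← T_zero] at this
  simp only [T_apply] at this
  by_contra hr
  simp [Ne.symm hr] at this

theorem K1 {u : Perm C} (hu : u ∈ V) {P : L} (h : dl a u = be P) :
    ∃ (E : L) (r : ℤ), P = (T 1 - 1) * E ∧ u = be E * a ^ r := by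
  obtain ⟨E, hE⟩ := div_aug P
  have h1 : a * ((be E)⁻¹ * u) * a⁻¹ = b ^ aug P * ((be E)⁻¹ * u) := by
    have e1 := be_conj 1 E
    rw [zpow_one] at e1
    calc a * ((be E)⁻¹ * u) * a⁻¹ = (a * be E * a⁻¹)⁻¹ * dl a u * be E * ((be E)⁻¹ * u) := by
          rw [dl]; group
      _ = _ := by
          rw [e1, h, ← be_neg, ← be_add, ← be_add, ← be_C]
          congr 2
          linear_combination hE
  obtain ⟨h2, r, h3⟩ := mather (mul_mem (inv_mem (W_le (be_W E))) hu) h1
  exact ⟨E, r, by rw [h2] at hE; simpa using hE, by rw [← h3]; group⟩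

theorem K2 {E : L} {r : ℤ} (h : dl (be E * a ^ r) b = 1) : r = 0 := by
  have h1 : dl (be E * a ^ r) b = be (T r - 1) := by
    calc dl (be E * a ^ r) b = be E * (a ^ r * be 1 * (a ^ r)⁻¹) * (be E)⁻¹ * (be 1)⁻¹ := by
          rw [dl, be_one]; group
      _ = _ := by
          rw [be_conj, ← be_add, ← be_sub, ← be_sub]
          congr 1
          ring
  exact T_ne (be_inj (h1.symm.trans (h.trans be_zero.symm)))

theorem K3 {u : Perm C} (hu : u ∈ V) {P : L} (h : dl a u = be P) (h' : dl u b = 1) :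
    ∃ E : L, P = (T 1 - 1) * E ∧ u = be E := by
  obtain ⟨E, r, h1, rfl⟩ := K1 hu h
  obtain rfl := K2 h'
  exact ⟨E, h1, by simp⟩

theorem K0 {u : Perm C} (hu : u ∈ V) (h : dl a u = 1) : ∃ r : ℤ, u = a ^ r :=
  (mather hu (c := 0) (by simpa [dl, mul_inv_eq_one] using h)).2

/-- the word whose triple divisibility by `T - 1` expresses `x * y = z` -/
def hw {G : Type} [Group G] (A B X Y Z : G) : G := dl X (dl Y B) * (dl Z (dl A B))⁻¹

theorem hw_be (x y z : ℤ) : ∃ Q : L, aug Q = x * y - z ∧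
    hw a b (a ^ x) (a ^ y) (a ^ z) = be ((T 1 - 1) * ((T 1 - 1) * Q)) := by
  obtain ⟨s1, h1, g1⟩ := geom x
  obtain ⟨s2, h2, g2⟩ := geom y
  obtain ⟨s3, h3, g3⟩ := geom z
  refine ⟨s1 * s2 - s3, by simp [g1, g2, g3], ?_⟩
  rw [hw, ← be_one, dl_be, dl_be, dl_be1, dl_be, ← be_sub, h1, h2, h3]
  congr 1
  ring

theorem mul_sound {x y z : ℤ} {f1 f2 f3 : Perm C} (m1 : f1 ∈ V) (m2 : f2 ∈ V) (m3 : f3 ∈ V)
    (e1 : dl a f1 = hw a b (a ^ x) (a ^ y) (a ^ z)) (c1 : dl f1 b = 1) (e2 : dl a f2 = f1)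
    (c2 : dl f2 b = 1) (e3 : dl a f3 = f2) : x * y = z := by
  obtain ⟨Q, h1, h2⟩ := hw_be x y z
  obtain ⟨E1, h3, rfl⟩ := K3 m1 (e1.trans h2) c1
  obtain ⟨E2, rfl, rfl⟩ := K3 m2 e2 c2
  obtain ⟨E3, -, rfl, -⟩ := K1 m3 e3
  have hT : (T 1 - 1 : L) ≠ 0 := fun e => absurd (T_ne e) one_ne_zero
  have h4 := mul_left_cancel₀ hT (mul_left_cancel₀ hT h3)
  rw [h4, map_mul, map_sub, aug_T, map_one, sub_self, zero_mul] at h1
  omega

theorem mul_complete (x y z : ℤ) : ∃ f : ℕ → Perm C, (∀ r, f r ∈ W) ∧ (x * y = z →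
    dl a (f 0) = hw a b (a ^ x) (a ^ y) (a ^ z) ∧ dl (f 0) b = 1 ∧ dl a (f 1) = f 0 ∧
      dl (f 1) b = 1 ∧ dl a (f 2) = f 1) := by
  obtain ⟨Q, h1, h2⟩ := hw_be x y z
  obtain ⟨E, hE⟩ := div_aug Q
  have hc : ∀ P, dl (be P) b = 1 := fun P => by
    rw [dl, ← be_one, ← be_add, ← be_sub, ← be_sub, ← be_zero]
    congr 1
    ring
  refine ⟨fun r => be ((T 1 - 1) ^ (2 - r) * E), fun r => be_W _, fun h => ⟨?_, hc _, ?_, hc _, ?_⟩⟩
  · rw [h2, dl_be1, hE, h1, h, sub_self]
    congr 1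
    simp only [Nat.sub_zero, map_zero]
    ring
  · rw [dl_be1]
    congr 1
    ring
  · rw [dl_be1]
    congr 1
    ring

abbrev Ix : Type := ℕ ⊕ (ℕ × ℕ × ℕ) × ℕ

abbrev Wd : Type := FreeGroup (ℕ ⊕ Bool)

def ev {G : Type} [Group G] (σ : ℕ → G) (A B : G) : Wd →* G :=
  FreeGroup.lift (Sum.elim σ fun c => cond c B A)

def vr (k : Ix) : Wd := FreeGroup.of (.inl (Denumerable.eqv Ix k))
def cA : Wd := FreeGroup.of (.inr false)
def cB : Wd := FreeGroup.of (.inr true)

section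
variable {G : Type} [Group G] (σ : ℕ → G) (A B : G)
@[simp] theorem ev_vr (k : Ix) : ev σ A B (vr k) = σ (Denumerable.eqv Ix k) := by simp [ev, vr]
@[simp] theorem ev_cA : ev σ A B cA = A := by simp [ev, cA]
@[simp] theorem ev_cB : ev σ A B cB = B := by simp [ev, cB]
end

def eqs : Eqn ℕ → List Wd
  | .add j k l => [vr (.inl j) * vr (.inl k) * (vr (.inl l))⁻¹]
  | .cst j c => [vr (.inl j) * (cA ^ c)⁻¹]
  | .mul j k l =>
    [dl cA (vr (.inr ((j, k, l), 0))) * (hw cA cB (vr (.inl j)) (vr (.inl k)) (vr (.inl l)))⁻¹,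
      dl (vr (.inr ((j, k, l), 0))) cB,
      dl cA (vr (.inr ((j, k, l), 1))) * (vr (.inr ((j, k, l), 0)))⁻¹,
      dl (vr (.inr ((j, k, l), 1))) cB,
      dl cA (vr (.inr ((j, k, l), 2))) * (vr (.inr ((j, k, l), 1)))⁻¹]

theorem system : ∃ (P : ℕ → Prop) (S : List Wd) (i : ℕ), ¬ ComputablePred P ∧ ∀ m : ℕ,
    (P m → ∃ σ : ℕ → Perm C, (∀ n, σ n ∈ W) ∧ σ i = a ^ m ∧ ∀ w ∈ S, ev σ a b w = 1) ∧
    ∀ σ : ℕ → Perm C, (∀ n, σ n ∈ V) → σ i = a ^ m → (∀ w ∈ S, ev σ a b w = 1) → P m := by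
  classical
  obtain ⟨i, S, hS⟩ := h10
  refine ⟨_, S.flatMap eqs ++ (S.flatMap Eqn.vars).map (fun j => dl cA (vr (.inl j))),
    Denumerable.eqv Ix (.inl i), hS, fun m => ⟨?_, fun σ h1 h2 h3 => ?_⟩⟩
  · rintro ⟨x, h1, h2⟩
    choose f hf hf' using mul_complete
    refine ⟨fun n => Sum.elim (fun j => a ^ x j) (fun p => f (x p.1.1) (x p.1.2.1) (x p.1.2.2) p.2)
      ((Denumerable.eqv Ix).symm n), fun n => ?_, by simp [h1], fun w hw => ?_⟩
    · dsimp only
      rcases (Denumerable.eqv Ix).symm n with j | p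
      exacts [zpow_mem a_W _, hf _ _ _ _]
    · rcases List.mem_append.1 hw with hw | hw
      · obtain ⟨q, hq, hw⟩ := List.mem_flatMap.1 hw
        have h3 := h2 q hq
        cases q with
        | add j k l =>
          obtain rfl := List.mem_singleton.1 hw
          simp [← zpow_add, mul_inv_eq_one, show x j + x k = x l from h3]
        | cst j c =>
          obtain rfl := List.mem_singleton.1 hw
          simp [show x j = c from h3]
        | mul j k l =>
          obtain ⟨g1, g2, g3, g4, g5⟩ := hf' _ _ _ h3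
          simp only [eqs, List.mem_cons, List.not_mem_nil, or_false] at hw
          rcases hw with rfl | rfl | rfl | rfl | rfl <;>
            simp [map_dl, Thom.hw, g1, g2, g3, g4, g5]
      · obtain ⟨j, -, rfl⟩ := List.mem_map.1 hw
        simp [map_dl, dl, (Commute.self_zpow a (x j)).eq]
  · let x : ℕ → ℤ := fun j =>
      if h : ∃ r : ℤ, σ (Denumerable.eqv Ix (.inl j)) = a ^ r then h.choose else 0
    have hx : ∀ j, (∃ r : ℤ, σ (Denumerable.eqv Ix (.inl j)) = a ^ r) →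
        σ (Denumerable.eqv Ix (.inl j)) = a ^ x j := fun j h => by
      simp only [x, dif_pos h]
      exact h.choose_spec
    refine ⟨x, az_inj ((hx i ⟨m, by simpa using h2⟩).symm.trans (by simpa using h2)), fun q hq => ?_⟩
    have h4 : ∀ j ∈ q.vars, σ (Denumerable.eqv Ix (.inl j)) = a ^ x j := fun j hj =>
      hx j (K0 (h1 _) (by simpa [map_dl] using h3 _ (List.mem_append_right _
        (List.mem_map_of_mem (List.mem_flatMap.2 ⟨q, hq, hj⟩)))))
    have h5 : ∀ w ∈ eqs q, ev σ a b w = 1 := fun w hw =>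
      h3 w (List.mem_append_left _ (List.mem_flatMap.2 ⟨q, hq, hw⟩))
    cases q with
    | add j k l =>
      simp only [Eqn.vars, eqs, List.mem_cons, List.not_mem_nil, or_false, forall_eq_or_imp,
        forall_eq, map_mul, map_inv, ev_vr, mul_inv_eq_one] at h4 h5
      rw [h4.1, h4.2.1, h4.2.2, ← zpow_add] at h5
      exact az_inj h5
    | cst j c =>
      simp only [Eqn.vars, eqs, List.mem_cons, List.not_mem_nil, or_false,
        forall_eq, map_mul, map_inv, ev_vr, mul_inv_eq_one, map_zpow, ev_cA] at h4 h5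
      exact az_inj (h4.symm.trans h5)
    | mul j k l =>
      simp only [Eqn.vars, eqs, List.mem_cons, List.not_mem_nil, or_false, forall_eq_or_imp,
        forall_eq, map_mul, map_inv, ev_vr, mul_inv_eq_one, map_dl, Thom.hw, ev_cA, ev_cB] at h4 h5
      rw [h4.1, h4.2.1, h4.2.2] at h5
      exact mul_sound (h1 _) (h1 _) (h1 _) h5.1 h5.2.1 h5.2.2.1 h5.2.2.2.1 h5.2.2.2.2

end Pool.Agent.H65.Thom
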