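import Pool.Agent.H65.Thom2

/-! The Diophantine problem in Thompson's group `V` is undecidable. -/

namespace Pool.Agent.H65.Thom

open Equiv

theorem cat_eq (s : List Bool) (w : C) :
    (fun k => if h : k < s.length then s.get ⟨k, h⟩ else w (k - s.length)) = cat s w := by
  induction s with
  | nil => rfl
  | cons c s ih =>
    funext k
    cases k with
    | zero => rfl
    | succ k => simpa using congrFun ih k

theorem pref_iff (s : List Bool) (x : C) :
    (∀ i : ℕ, ∀ h : i < s.length, x i = s.get ⟨i, h⟩) ↔ ∃ w, x = cat s w := by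
  constructor
  · intro h
    refine ⟨fun k => x (k + s.length), ?_⟩
    rw [← cat_eq]
    funext k
    split_ifs with hk
    · exact h k hk
    · rw [Nat.sub_add_cancel (by omega)]
  · rintro ⟨w, rfl⟩ i h
    rw [← cat_eq]
    exact dif_pos h

def Tab (D : List (List Bool × List Bool)) (g : Perm C) : Prop :=
  (∀ x : C, ∃ p ∈ D, ∃ w, x = cat p.1 w) ∧ ∀ p ∈ D, ∀ w, g (cat p.1 w) = cat p.2 w

theorem Tab.mem {D : List (List Bool × List Bool)} {g : Perm C} (h : Tab D g) : g ∈ V := fun x => by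
  obtain ⟨p, hp, w, rfl⟩ := h.1 x
  exact ⟨p.1, p.2, w, rfl, h.2 p hp⟩

theorem Tab.ext {D : List (List Bool × List Bool)} {g g' : Perm C} (h : Tab D g) (h' : Tab D g') :
    g = g' := Equiv.ext fun x => by
  obtain ⟨p, hp, w, rfl⟩ := h.1 x
  rw [h.2 p hp, h'.2 p hp]

theorem cone_open (s : List Bool) : IsOpen {x : C | ∃ w, x = cat s w} := by
  induction s with
  | nil => simp
  | cons c s ih =>
    have h1 : Continuous tail := continuous_pi fun k => continuous_apply (k + 1)
    have h2 : IsOpen ((fun x : C => x 0) ⁻¹' {c}) :=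
      (isOpen_discrete _).preimage (continuous_apply 0)
    convert h2.inter (ih.preimage h1) using 1
    ext x
    constructor
    · rintro ⟨w, rfl⟩
      exact ⟨rfl, w, rfl⟩
    · rintro ⟨h3, w, h4⟩
      exact ⟨w, by rw [cat_cons, ← h4, ← show x 0 = c from h3, cons_tail]⟩

theorem exists_tab {g : Perm C} (h : g ∈ V) : ∃ D, Tab D g := by
  choose s t w0 h1 h2 using h
  obtain ⟨F, -, hF⟩ := isCompact_univ.elim_nhds_subcover (fun x : C => {y : C | ∃ w, y = cat (s x) w})
    fun x _ => (cone_open _).mem_nhds ⟨w0 x, h1 x⟩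
  refine ⟨F.toList.map fun x => (s x, t x), fun x => ?_, fun p hp => ?_⟩
  · obtain ⟨y, hy, hx⟩ := Set.mem_iUnion₂.1 (hF (Set.mem_univ x))
    exact ⟨_, List.mem_map_of_mem (Finset.mem_toList.2 hy), hx⟩
  · obtain ⟨y, -, rfl⟩ := List.mem_map.1 hp
    exact h2 y

theorem exists_lists (S : List Wd) : ∃ S' : List (List ((ℕ ⊕ Bool) × Bool)),
    S'.map FreeGroup.mk = S := by
  induction S with
  | nil => exact ⟨[], rfl⟩
  | cons w S ih =>
    obtain ⟨S', rfl⟩ := ih
    obtain ⟨l⟩ := w
    exact ⟨l :: S', rfl⟩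

theorem replicate_prim {α : Type} [Primcodable α] (x : α) :
    Primrec fun m : ℕ => List.replicate m x := by
  have : Primrec fun m : ℕ => Nat.rec (motive := fun _ => List α) [] (fun _ l => x :: l) m :=
    Primrec.nat_rec₁ [] (Primrec.list_cons.comp (Primrec.const _) Primrec.snd).to₂
  refine this.of_eq fun m => ?_
  induction m with
  | zero => rfl
  | succ m ih => simp [List.replicate_succ, ← ih]

theorem v_undec : ¬ ComputablePred
    (fun S : List (List ((ℕ ⊕ List (List Bool × List Bool)) × Bool)) =>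
      ∃ σ : ℕ → Perm C, ∃ τ : List (List Bool × List Bool) → Perm C,
        (∀ n : ℕ, ∃ D, Tab D (σ n)) ∧ (∀ e ∈ S, ∀ x ∈ e, ∀ D, x.1 = Sum.inr D → Tab D (τ D)) ∧
        ∀ e ∈ S,
          (e.map (fun x => if x.2 then Sum.elim σ τ x.1 else (Sum.elim σ τ x.1)⁻¹)).prod = 1) := by
  classical
  obtain ⟨P, S, i, hP, hS⟩ := system
  obtain ⟨S', rfl⟩ := exists_lists S
  obtain ⟨Da, ha⟩ := exists_tab a_mem
  obtain ⟨Db, hb⟩ := exists_tab b_mem
  let f : (ℕ ⊕ Bool) × Bool → (ℕ ⊕ List (List Bool × List Bool)) × Bool :=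
    fun x => (x.1.map id fun c => cond c Db Da, x.2)
  have key : ∀ (σ : ℕ → Perm C) (τ : List (List Bool × List Bool) → Perm C), τ Da = a → τ Db = b →
      ∀ l : List ((ℕ ⊕ Bool) × Bool), ((l.map f).map (fun x => if x.2 then Sum.elim σ τ x.1 else
        (Sum.elim σ τ x.1)⁻¹)).prod = ev σ a b (FreeGroup.mk l) := by
    intro σ τ h1 h2 l
    rw [ev, FreeGroup.lift_mk, List.map_map]
    congr 1
    refine List.map_congr_left ?_
    rintro ⟨n | _ | _, _ | _⟩ - <;> simp [f, h1, h2]
  let e0 : ℕ → List ((ℕ ⊕ Bool) × Bool) := fun m => (.inl i, false) :: List.replicate m (.inr false, true)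
  have he0 : ∀ (σ : ℕ → Perm C) m, ev σ a b (FreeGroup.mk (e0 m)) = 1 ↔ σ i = a ^ m := fun σ m => by
    simp [ev, e0, FreeGroup.lift_mk, inv_mul_eq_one]
  let e1 : List ((ℕ ⊕ Bool) × Bool) := [(.inr false, true), (.inr false, false), (.inr true, true),
    (.inr true, false)]
  have he1 : ∀ σ : ℕ → Perm C, ev σ a b (FreeGroup.mk e1) = 1 := fun σ => by
    simp [ev, e1, FreeGroup.lift_mk]
  have hc : Computable fun m => (e0 m :: e1 :: S').map (List.map f) := by
    have := Primrec.list_cons.comp (Primrec.list_cons.comp (Primrec.const (f (.inl i, false)))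
      (replicate_prim (f (.inr false, true)))) (Primrec.const ((e1 :: S').map (List.map f)))
    exact this.to_comp.of_eq fun m => by simp [e0]
  rintro ⟨d, hd⟩
  refine hP (ComputablePred.of_eq ⟨fun m => d _, hd.comp hc⟩ fun m => ⟨?_, fun hm => ?_⟩)
  · rintro ⟨σ, τ, h1, h2, h3⟩
    have g1 : τ Da = a := (h2 (e1.map f) (by simp) (f (.inr false, true)) (by simp [e1]) Da rfl).ext ha
    have g2 : τ Db = b := (h2 (e1.map f) (by simp) (f (.inr true, true)) (by simp [e1]) Db rfl).ext hb
    refine (hS m).2 σ (fun n => (h1 n).elim fun D hD => hD.mem)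
      ((he0 σ m).1 ((key σ τ g1 g2 _).symm.trans (h3 _ (by simp)))) fun w hw => ?_
    obtain ⟨l, hl, rfl⟩ := List.mem_map.1 hw
    exact (key σ τ g1 g2 _).symm.trans (h3 _ (List.mem_map_of_mem (by simp [hl])))
  · obtain ⟨σ, h1, h2, h3⟩ := (hS m).1 hm
    have g2 : (if Db = Da then a else b) = b := by
      split_ifs with h
      · exact ha.ext (h ▸ hb)
      · rfl
    refine ⟨σ, fun D => if D = Da then a else b, fun n => exists_tab (W_le (h1 n)), ?_, ?_⟩
    · intro e he x hx D hD
      obtain ⟨l, -, rfl⟩ := List.mem_map.1 he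
      obtain ⟨⟨n | _ | _, c⟩, -, rfl⟩ := List.mem_map.1 hx
      · simp [f] at hD
      · obtain rfl : Da = D := by simpa [f] using hD
        simpa using ha
      · obtain rfl : Db = D := by simpa [f] using hD
        simpa [g2] using hb
    · intro e he
      obtain ⟨l, hl, rfl⟩ := List.mem_map.1 he
      rw [key σ _ (if_pos rfl) g2]
      simp only [List.mem_cons] at hl
      rcases hl with rfl | rfl | hl
      exacts [(he0 σ m).2 h2, he1 σ, h3 _ (List.mem_map_of_mem hl)]

end Pool.Agent.H65.Thom
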