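import Pool.Agent.H65.Thom1

/-! The two-relator presentation of Thompson's group `F` acts faithfully on the Cantor space. -/

namespace Pool.Agent.H65.Thom

open Equiv

section Pres

variable {G : Type} [Group G] (A B : G)

def X : ℕ → G
  | 0 => A
  | n + 1 => (A ^ n)⁻¹ * B * A ^ n

theorem X_succ (n : ℕ) : X A B (n + 2) = A⁻¹ * X A B (n + 1) * A := by
  simp only [X, pow_succ]; group

theorem X_shift (n k : ℕ) : X A B (n + 1 + k) = (A ^ k)⁻¹ * X A B (n + 1) * A ^ k := by
  rw [show n + 1 + k = (n + k) + 1 by ring]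
  simp only [X, pow_add]; group

def pw (l : List ℕ) : G := (l.map (X A B)).prod

theorem pw_cons (n : ℕ) (l : List ℕ) : pw A B (n :: l) = X A B n * pw A B l := by simp [pw]

variable (r1 : Commute (A * B⁻¹) (X A B 2)) (r2 : Commute (A * B⁻¹) (X A B 3))

theorem rel1 {n : ℕ} (h : Commute (A * B⁻¹) (X A B (n + 2))) (k : ℕ) :
    X A B (n + 2 + k) * X A B (1 + k) = X A B (1 + k) * X A B (n + 3 + k) := by
  have h1 : X A B (n + 2) * B = B * X A B (n + 3) := by
    rw [X_succ A B (n + 1)]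
    calc X A B (n + 2) * B = B * A⁻¹ * (A * B⁻¹ * X A B (n + 2)) * B := by group
      _ = _ := by rw [h.eq]; group
  have h2 : X A B (0 + 1) = B := by simp [X]
  rw [X_shift A B (n + 1), X_shift A B (n + 2), X_shift A B 0, h2]
  calc _ = (A ^ k)⁻¹ * (X A B (n + 2) * B) * A ^ k := by group
    _ = _ := by rw [h1]; group

include r1 r2 in
theorem comm_all (n : ℕ) : Commute (A * B⁻¹) (X A B (n + 2)) ∧ Commute (A * B⁻¹) (X A B (n + 3)) := by
  induction n with
  | zero => exact ⟨r1, r2⟩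
  | succ n ih =>
    refine ⟨ih.2, ?_⟩
    have h := rel1 A B r1 (n + 1)
    rw [show 0 + 2 + (n + 1) = n + 3 by ring, show 1 + (n + 1) = n + 2 by ring,
      show 0 + 3 + (n + 1) = n + 1 + 3 by ring] at h
    rw [show X A B (n + 1 + 3) = (X A B (n + 2))⁻¹ * X A B (n + 3) * X A B (n + 2) by
      rw [mul_assoc, h]; group]
    exact (ih.1.inv_right.mul_right ih.2).mul_right ih.1

include r1 r2 in
theorem rel {k n : ℕ} (h : k < n) : X A B n * X A B k = X A B k * X A B (n + 1) := by
  cases k with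
  | zero =>
    obtain ⟨n, rfl⟩ : ∃ m, n = m + 1 := ⟨n - 1, by omega⟩
    rw [X_succ]
    simp only [X]
    group
  | succ k =>
    have := rel1 A B (comm_all A B r1 r2 (n - k - 2)).1 k
    rwa [show n - k - 2 + 2 + k = n by omega, show n - k - 2 + 3 + k = n + 1 by omega,
      add_comm 1 k] at this

include r1 r2 in
theorem ore (l : List ℕ) : ∀ n, ∃ l', (X A B n)⁻¹ * pw A B l = pw A B l' ∨
    ∃ m, (X A B n)⁻¹ * pw A B l = pw A B l' * (X A B m)⁻¹ := by
  induction l with
  | nil => exact fun n => ⟨[], .inr ⟨n, by simp [pw]⟩⟩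
  | cons k l ih =>
    intro n
    have key : ∀ j m, (X A B n)⁻¹ * X A B k = X A B j * (X A B m)⁻¹ → ∃ l',
        (X A B n)⁻¹ * pw A B (k :: l) = pw A B l' ∨
        ∃ m, (X A B n)⁻¹ * pw A B (k :: l) = pw A B l' * (X A B m)⁻¹ := fun j m e => by
      obtain ⟨l', h | ⟨m', h⟩⟩ := ih m
      · exact ⟨j :: l', .inl (by rw [pw_cons, pw_cons, ← mul_assoc, e, mul_assoc, h])⟩
      · exact ⟨j :: l', .inr ⟨m', by rw [pw_cons, pw_cons, ← mul_assoc, e, mul_assoc, h, mul_assoc]⟩⟩
    rcases lt_trichotomy n k with h | rfl | h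
    · exact key (k + 1) n (by rw [inv_mul_eq_iff_eq_mul, ← mul_assoc, ← rel A B r1 r2 h]; group)
    · exact ⟨l, .inl (by rw [pw_cons]; group)⟩
    · exact key k (n + 1) (by
        rw [eq_mul_inv_iff_mul_eq, mul_assoc, ← rel A B r1 r2 h]; group)

include r1 r2 in
theorem frac (hg : Subgroup.closure {A, B} = ⊤) (g : G) :
    ∃ l l', g = pw A B l * (pw A B l')⁻¹ := by
  have key : ∀ n g, (∃ l l', g = pw A B l * (pw A B l')⁻¹) →
      (∃ l l', X A B n * g = pw A B l * (pw A B l')⁻¹) ∧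
      ∃ l l', (X A B n)⁻¹ * g = pw A B l * (pw A B l')⁻¹ := by
    rintro n _ ⟨l, l', rfl⟩
    refine ⟨⟨n :: l, l', by rw [pw_cons, mul_assoc]⟩, ?_⟩
    obtain ⟨l2, h | ⟨m, h⟩⟩ := ore A B r1 r2 l n
    · exact ⟨l2, l', by rw [← mul_assoc, h]⟩
    · exact ⟨l2, l' ++ [m], by rw [← mul_assoc, h]; simp [pw, mul_assoc]⟩
  have hB : B = X A B 1 := by simp [X]
  have hg' : g ∈ Subgroup.closure {A, B} := hg ▸ Subgroup.mem_top g
  induction hg' using Subgroup.closure_induction_left with
  | one => exact ⟨[], [], by simp⟩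
  | mul_left x hx y _ ih =>
    rcases hx with rfl | rfl
    · exact (key 0 y ih).1
    · simpa only [← hB] using (key 1 y ih).1
  | inv_mul_cancel x hx y _ ih =>
    rcases hx with rfl | rfl
    · exact (key 0 y ih).2
    · simpa only [← hB] using (key 1 y ih).2

include r1 r2 in
theorem insert_sorted (l : List ℕ) (hl : l.Pairwise (· ≤ ·)) : ∀ n, ∃ l' : List ℕ,
    l'.Pairwise (· ≤ ·) ∧ X A B n * pw A B l = pw A B l' ∧
      ∀ k ≤ n, (∀ j ∈ l, k ≤ j) → ∀ j ∈ l', k ≤ j := by
  induction l with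
  | nil => exact fun n => ⟨[n], by simp, by simp [pw], by simp⟩
  | cons k l ih =>
    intro n
    rw [List.pairwise_cons] at hl
    by_cases h : n ≤ k
    · refine ⟨n :: k :: l, ?_, (pw_cons _ _ _ _).symm, fun i hi h2 j hj => ?_⟩
      · simp only [List.pairwise_cons, List.mem_cons, forall_eq_or_imp]
        exact ⟨⟨h, fun j hj => h.trans (hl.1 j hj)⟩, hl⟩
      · rcases List.mem_cons.1 hj with rfl | hj
        exacts [hi, h2 j hj]
    · obtain ⟨l', h1, h2, h3⟩ := ih hl.2 (n + 1)
      refine ⟨k :: l', List.pairwise_cons.2 ⟨h3 k (by omega) hl.1, h1⟩, ?_, fun i hi h4 j hj => ?_⟩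
      · rw [pw_cons, pw_cons, ← mul_assoc, rel A B r1 r2 (by omega), mul_assoc, h2]
      · rcases List.mem_cons.1 hj with rfl | hj
        · exact h4 _ (by simp)
        · exact h3 i (by omega) (fun j hj => h4 j (by simp [hj])) j hj

include r1 r2 in
theorem sort_pw (l : List ℕ) : ∃ l' : List ℕ, l'.Pairwise (· ≤ ·) ∧ pw A B l = pw A B l' := by
  induction l with
  | nil => exact ⟨[], by simp, rfl⟩
  | cons n l ih =>
    obtain ⟨l1, h1, h2⟩ := ih
    obtain ⟨l2, h3, h4, -⟩ := insert_sorted A B r1 r2 l1 h1 n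
    exact ⟨l2, h3, by rw [pw_cons, h2, h4]⟩

variable (ρ : G →* Perm C) (hA : ρ A = a⁻¹) (hB : ρ B = (sub [true] a)⁻¹)

include hA hB in
theorem rho_X (n : ℕ) : ρ (X A B n) = (sub (List.replicate n true) a)⁻¹ := by
  induction n with
  | zero => exact hA
  | succ n ih =>
    cases n with
    | zero => simpa [X] using hB
    | succ n =>
      rw [X_succ, map_mul, map_mul, map_inv, hA, ih, inv_inv, ← map_inv, ← map_inv]
      exact conj_sub (fun w => by simp [List.replicate_succ]) _

include hA hB in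
theorem rho_pw (k : ℕ) (l : List ℕ) (hl : ∀ j ∈ l, k ≤ j) (w : C) :
    ρ (pw A B l) (cat (List.replicate k true) (ph 0 w)) =
      cat (List.replicate k true) (ph (-(l.count k : ℕ)) w) := by
  induction l with
  | nil => simp [pw]
  | cons j l ih =>
    rw [pw_cons, map_mul, Perm.mul_apply, ih fun i hi => hl i (by simp [hi]),
      rho_X A B ρ hA hB, ← map_inv]
    rcases (hl j (by simp)).eq_or_lt with rfl | h
    · rw [sub_cat, List.count_cons_self, ← zpow_neg_one, az_ph]
      congr 2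
      push_cast
      ring
    · rw [List.count_cons_of_ne h.ne', sub_out]
      intro v e
      obtain ⟨d, rfl⟩ : ∃ d, j = k + (d + 1) := ⟨j - k - 1, by omega⟩
      rw [List.replicate_add, cat_append, cat_inj, ph_neg] at e
      simpa [List.replicate_succ] using congrFun e 0

include hA hB in
theorem count_eq {k : ℕ} {l l' : List ℕ} (hl : ∀ j ∈ l, k ≤ j) (hl' : ∀ j ∈ l', k ≤ j)
    (h : ρ (pw A B l) = ρ (pw A B l')) : l.count k = l'.count k := by
  have h1 := rho_pw A B ρ hA hB k l hl (K true)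
  rw [h, rho_pw A B ρ hA hB k l' hl', cat_inj] at h1
  have := (ph_inj h1).1
  omega

include hA hB in
theorem uniq (l : List ℕ) : ∀ l' : List ℕ, l.Pairwise (· ≤ ·) → l'.Pairwise (· ≤ ·) →
    ρ (pw A B l) = ρ (pw A B l') → l = l' := by
  have aux : ∀ (k : ℕ) (t l' : List ℕ), (k :: t).Pairwise (· ≤ ·) → (∀ j ∈ l', k < j) →
      ρ (pw A B (k :: t)) ≠ ρ (pw A B l') := fun k t l' h1 h2 e => by
    have := count_eq A B ρ hA hB (k := k) (by simpa using (List.pairwise_cons.1 h1).1)
      (fun j hj => (h2 j hj).le) e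
    rw [List.count_cons_self, List.count_eq_zero.2 fun h => (h2 k h).false] at this
    omega
  induction l with
  | nil =>
    rintro (_ | ⟨k, t⟩) - h e
    · rfl
    · exact absurd e.symm (aux k t [] h (by simp))
  | cons k t ih =>
    rintro (_ | ⟨k', t'⟩) h h' e
    · exact absurd e (aux k t [] h (by simp))
    · rcases lt_trichotomy k k' with hk | rfl | hk
      · refine absurd e (aux k t _ h fun j hj => ?_)
        rcases List.mem_cons.1 hj with rfl | hj
        exacts [hk, hk.trans_le ((List.pairwise_cons.1 h').1 j hj)]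
      · rw [pw_cons, pw_cons, map_mul, map_mul, mul_right_inj] at e
        rw [ih t' (List.pairwise_cons.1 h).2 (List.pairwise_cons.1 h').2 e]
      · refine absurd e.symm (aux k' t' _ h' fun j hj => ?_)
        rcases List.mem_cons.1 hj with rfl | hj
        exacts [hk, hk.trans_le ((List.pairwise_cons.1 h).1 j hj)]

include r1 r2 hA hB in
theorem rho_inj (hg : Subgroup.closure {A, B} = ⊤) : Function.Injective ρ := by
  rw [injective_iff_map_eq_one]
  intro g h
  obtain ⟨l, l', rfl⟩ := frac A B r1 r2 hg g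
  obtain ⟨l1, h1, h2⟩ := sort_pw A B r1 r2 l
  obtain ⟨l2, h3, h4⟩ := sort_pw A B r1 r2 l'
  rw [h2, h4, map_mul, map_inv, mul_inv_eq_one] at h
  rw [h2, h4, uniq A B ρ hA hB l1 l2 h1 h3 h, mul_inv_cancel]

end Pres

theorem rels_hold (n : ℕ) : Commute (a⁻¹ * (sub [true] a)⁻¹⁻¹) (X a⁻¹ (sub [true] a)⁻¹ (n + 2)) := by
  have h := rho_X a⁻¹ (sub [true] a)⁻¹ (MonoidHom.id _) rfl rfl (n + 2)
  rw [MonoidHom.id_apply, add_comm, List.replicate_add, sub_append] at h
  rw [add_comm, h, inv_inv, ← map_inv]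
  have := conj_sub (g := a⁻¹ * sub [true] a) (s := List.replicate 2 true)
    (t := List.replicate 2 true) (fun w => rfl) (sub (List.replicate n true) a)⁻¹
  exact mul_inv_eq_iff_eq_mul.1 this

end Pool.Agent.H65.Thom
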