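import Pool.Agent.H65.Thom1

/-! Order-preserving prefix maps; one equation equivalent to finitely many commutations. -/

namespace Pool.Agent.H65.Thom

open Equiv

abbrev o (x : C) : Lex C := toLex x

theorem cons_lt {c d : Bool} {v w : C} :
    o (cons c v) < o (cons d w) ↔ c < d ∨ (c = d ∧ o v < o w) := by
  constructor
  · rintro ⟨_ | i, h1, h2⟩
    · exact .inl h2
    · exact .inr ⟨h1 0 (by omega), i, fun j hj => h1 (j + 1) (by omega), h2⟩
  · rintro (h | ⟨rfl, i, h1, h2⟩)
    · exact ⟨0, fun j hj => absurd hj (by omega), h⟩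
    · exact ⟨i + 1, fun j hj => by
        cases j with
        | zero => rfl
        | succ j => exact h1 j (by omega), h2⟩

theorem cons_le {c d : Bool} {v w : C} :
    o (cons c v) ≤ o (cons d w) ↔ c < d ∨ (c = d ∧ o v ≤ o w) := by
  refine (not_lt.symm.trans (not_congr cons_lt)).trans ?_
  have h : ¬ o w < o v ↔ o v ≤ o w := not_lt
  cases c <;> cases d <;> simp <;> exact h

theorem cat_lt {s : List Bool} {v w : C} : o (cat s v) < o (cat s w) ↔ o v < o w := by
  induction s <;> simp_all [cons_lt]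

theorem K_le (x : C) : o (K false) ≤ o x := Pi.toLex_monotone fun _ => Bool.false_le _
theorem le_K (x : C) : o x ≤ o (K true) := Pi.toLex_monotone fun _ => Bool.le_true _

theorem not_K_lt (x : C) : ¬ o (K true) < o x := not_lt.2 (le_K x)
theorem not_lt_K (x : C) : ¬ o x < o (K false) := not_lt.2 (K_le x)

theorem cons_rep (c : Bool) (n : ℕ) (x : C) :
    cons c (cat (List.replicate n c) x) = cat (List.replicate n c) (cons c x) := by
  induction n with
  | zero => rfl
  | succ n ih => simp [List.replicate_succ, ih]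

theorem le_cons (w : C) : o w ≤ o (cons true w) := by
  rcases split true w with rfl | ⟨n, v, rfl⟩
  · rw [cons_K]
  · rw [cons_rep]
    exact (cat_lt.2 (by simp [cons_lt])).le

theorem cons_le' (w : C) : o (cons false w) ≤ o w := by
  rcases split false w with rfl | ⟨n, v, rfl⟩
  · rw [cons_K]
  · rw [cons_rep]
    exact (cat_lt.2 (by simp [cons_lt])).le

/-- order-preserving permutations -/
def M : Subgroup (Perm C) where
  carrier := {g | StrictMono fun x : Lex C => o (g (ofLex x))}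
  one_mem' _ _ h := h
  mul_mem' {g g'} h h' := h.comp h'
  inv_mem' {g} h x y hxy := by
    refine h.lt_iff_lt.1 ?_
    simpa using hxy

theorem M_lt {g : Perm C} (h : g ∈ M) {x y : C} : o (g x) < o (g y) ↔ o x < o y :=
  StrictMono.lt_iff_lt h (a := o x) (b := o y)

theorem M_le {g : Perm C} (h : g ∈ M) {x y : C} : o (g x) ≤ o (g y) ↔ o x ≤ o y :=
  StrictMono.le_iff_le h (a := o x) (b := o y)

theorem a_M : a ∈ M := fun x y h => by
  change C at x y
  change o x < o y at h
  change o (a x) < o (a y)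
  rcases cases1 x with ⟨x, rfl⟩ | ⟨x, rfl⟩ <;> rcases cases1 x with ⟨x, rfl⟩ | ⟨x, rfl⟩ <;>
    rcases cases1 y with ⟨y, rfl⟩ | ⟨y, rfl⟩ <;> rcases cases1 y with ⟨y, rfl⟩ | ⟨y, rfl⟩ <;>
    simp_all [cons_lt]

theorem sub_M {g : Perm C} (h : g ∈ M) (s : List Bool) : sub s g ∈ M := by
  induction s with
  | nil => exact h
  | cons c s ih =>
    intro x y hxy
    change C at x y
    change o x < o y at hxy
    change o (sub1 c (sub s g) x) < o (sub1 c (sub s g) y)
    rcases cases1 x with ⟨x, rfl⟩ | ⟨x, rfl⟩ <;> rcases cases1 y with ⟨y, rfl⟩ | ⟨y, rfl⟩ <;>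
      cases c <;> simp_all [cons_lt, sub1_apply, M_lt]

def Pos (g : Perm C) : Prop := ∀ x, o x ≤ o (g x)

theorem a_pos : Pos a := fun x => by
  rcases cases1 x with ⟨x, rfl⟩ | ⟨x, rfl⟩
  · rcases cases1 x with ⟨x, rfl⟩ | ⟨x, rfl⟩ <;> simp [cons_le, cons_le']
  · simp [cons_le, le_cons]

theorem Pos.mul {g g' : Perm C} (h : Pos g) (h' : Pos g') : Pos (g * g') :=
  fun x => (h' x).trans (h _)

theorem Pos.conj {g v : Perm C} (h : Pos g) (hv : v ∈ M) : Pos (v * g * v⁻¹) := fun x => by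
  simpa using (M_le hv).2 (h (v⁻¹ x))

theorem b_pos (n : ℕ) : Pos (b ^ (n : ℤ)) := by
  have h : Pos b := fun x => by
    rcases cases1 x with ⟨x, rfl⟩ | ⟨x, rfl⟩ <;> rcases cases1 x with ⟨x, rfl⟩ | ⟨x, rfl⟩ <;>
      simp [b, sub, sub1_apply, cons_le, a_pos x]
  induction n with
  | zero => exact fun x => by simp
  | succ n ih => rw [Nat.cast_succ, zpow_add_one]; exact ih.mul h

theorem prod_fix {l : List (Perm C)} (h : ∀ g ∈ l, Pos g) :
    Pos l.prod ∧ ∀ x, l.prod x = x → ∀ g ∈ l, g x = x := by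
  induction l with
  | nil => exact ⟨fun x => by simp, by simp⟩
  | cons g l ih =>
    obtain ⟨h1, h2⟩ := ih fun g hg => h g (by simp [hg])
    have h3 := h g (by simp)
    refine ⟨by simpa using h3.mul h1, fun x hx => ?_⟩
    rw [List.prod_cons, Perm.mul_apply] at hx
    have h4 : l.prod x = x := toLex.injective (le_antisymm (by simpa [hx] using h3 (l.prod x)) (h1 x))
    rw [h4] at hx
    simpa [hx] using h2 x h4

theorem prod_fix' {l : List (Perm C)} {x : C} (h : ∀ g ∈ l, g x = x) : l.prod x = x := by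
  induction l with
  | nil => rfl
  | cons g l ih =>
    rw [List.prod_cons, Perm.mul_apply, ih fun g hg => h g (by simp [hg]), h g (by simp)]

theorem prod_one {l : List ℕ} (hl : l.Nodup) (g : ℕ → Perm C) {i : ℕ} (hi : i ∈ l) {x : C}
    (h : ∀ j ∈ l, j ≠ i → g j x = x ∧ g j (g i x) = g i x) : (l.map g).prod x = g i x := by
  induction l with
  | nil => simp at hi
  | cons j l ih =>
    rw [List.nodup_cons] at hl
    rw [List.map_cons, List.prod_cons, Perm.mul_apply]
    by_cases hj : j = i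
    · subst hj
      rw [prod_fix']
      intro g' hg'
      obtain ⟨k, hk, rfl⟩ := List.mem_map.1 hg'
      exact (h k (by simp [hk]) fun e => hl.1 (e ▸ hk)).1
    · rw [ih hl.2 (by simpa [Ne.symm hj] using hi) fun k hk => h k (by simp [hk])]
      exact (h j (by simp) hj).2

theorem ph0 (w : C) : ph 0 w = cons false (cons true w) := rfl

def In (x : C) : Prop := o (ph 0 (K false)) < o x ∧ o x < o (ph 0 (K true))

theorem cone_iff (x : C) :
    o (ph 0 (K false)) ≤ o x ∧ o x ≤ o (ph 0 (K true)) ↔ ∃ w, x = ph 0 w := by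
  rcases cases1 x with ⟨x, rfl⟩ | ⟨x, rfl⟩ <;> rcases cases1 x with ⟨x, rfl⟩ | ⟨x, rfl⟩ <;>
    simp [ph0, cons_le, K_le, le_K]

theorem cone_iff' (x : C) :
    o (ph (-1) (K true)) < o x ∧ o x < o (ph 1 (K false)) ↔ ∃ w, x = ph 0 w := by
  have h1 : ph (-1) (K true) = cons false (cons false (K true)) := by
    conv_rhs => rw [← cons_K]
    rfl
  have h2 : ph 1 (K false) = cons true (K false) := by
    conv_rhs => rw [← cons_K]
    rfl
  rw [h1, h2]
  rcases cases1 x with ⟨x, rfl⟩ | ⟨x, rfl⟩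
  · rcases cases1 x with ⟨x, rfl⟩ | ⟨x, rfl⟩ <;> simp [ph0, cons_lt, not_K_lt]
  · simp [ph0, cons_lt, not_lt_K]

theorem in_ph (j : ℤ) (w : C) : In (ph 0 (ph j w)) := by
  simp only [In, ph0, cons_lt, lt_self_iff_false, true_and, false_or]
  exact ⟨lt_of_le_of_ne (K_le _) fun e => ph_ne_K j w false (toLex.injective e).symm,
    lt_of_le_of_ne (le_K _) fun e => ph_ne_K j w true (toLex.injective e)⟩

theorem b_moves {n : ℤ} (hn : n ≠ 0) (x : C) : (b ^ n) x ≠ x ↔ In x := by
  constructor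
  · intro h
    rcases tri x with ⟨c, rfl⟩ | ⟨i, w, rfl⟩
    · exact absurd (bz_K n c) h
    · rw [bz_ph] at h
      split_ifs at h with hi
      · subst hi
        rcases tri w with ⟨c, rfl⟩ | ⟨j, v, rfl⟩
        · exact absurd (by rw [az_K]) h
        · exact in_ph j v
      · exact absurd rfl h
  · intro h e
    obtain ⟨w, rfl⟩ := (cone_iff x).1 ⟨h.1.le, h.2.le⟩
    rw [bz_ph, if_pos rfl] at e
    rcases tri w with ⟨_ | _, rfl⟩ | ⟨j, v, rfl⟩
    · exact h.1.false
    · exact h.2.false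
    · have := (ph_inj e).2
      rw [az_ph] at this
      have := (ph_inj this).1
      omega

theorem ends_fixed {v : Perm C} (hv : v ∈ M) (h : ∀ x, In (v x) ↔ In x) (c : Bool) :
    v (ph 0 (K c)) = ph 0 (K c) := by
  have h0 := in_ph 0 (K true)
  have lo : ∀ u ∈ M, (∀ x, In (u x) → In x) → o (u (ph 0 (K false))) ≤ o (ph 0 (K false)) := by
    intro u hu h1
    by_contra! h2
    by_cases h3 : o (u (ph 0 (K false))) < o (ph 0 (K true))
    · exact (h1 _ ⟨h2, h3⟩).1.false
    · have := (M_lt hu).2 (h1 (u⁻¹ (ph 0 (ph 0 (K true)))) (by simpa using h0)).1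
      simp only [Perm.coe_inv, apply_symm_apply] at this
      exact h3 (this.trans h0.2)
  have hi : ∀ u ∈ M, (∀ x, In (u x) → In x) → o (ph 0 (K true)) ≤ o (u (ph 0 (K true))) := by
    intro u hu h1
    by_contra! h2
    by_cases h3 : o (ph 0 (K false)) < o (u (ph 0 (K true)))
    · exact (h1 _ ⟨h3, h2⟩).2.false
    · have := (M_lt hu).2 (h1 (u⁻¹ (ph 0 (ph 0 (K true)))) (by simpa using h0)).2
      simp only [Perm.coe_inv, apply_symm_apply] at this
      exact h3 (h0.1.trans this)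
  have h' : ∀ x, In (v⁻¹ x) → In x := fun x hx => by simpa using (h _).2 hx
  cases c
  · exact toLex.injective (le_antisymm (lo v hv fun x => (h x).1)
      (by simpa using (M_le hv).2 (lo _ (inv_mem hv) h')))
  · exact toLex.injective (le_antisymm (by simpa using (M_le hv).2 (hi _ (inv_mem hv) h'))
      (hi v hv fun x => (h x).1))

theorem ends_of_conj {v : Perm C} (hv : v ∈ M) {m n : ℤ} (hm : m ≠ 0) (hn : n ≠ 0)
    (h : b ^ m * v = v * b ^ n) (c : Bool) : v (ph 0 (K c)) = ph 0 (K c) :=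
  ends_fixed hv (fun x => by
    rw [← b_moves hm, ← b_moves hn, ← Perm.mul_apply, h, Perm.mul_apply, v.injective.ne_iff]) c

theorem restrict {u : Perm C} (hu : u ∈ V) (h : ∀ x, (∃ w, u x = ph 0 w) ↔ ∃ w, x = ph 0 w) :
    ∃ u' ∈ V, ∀ w, u (ph 0 w) = ph 0 (u' w) := by
  choose f hf using fun w => (h (ph 0 w)).2 ⟨w, rfl⟩
  choose f' hf' using fun w => (h (u⁻¹ (ph 0 w))).1 ⟨w, by simp⟩
  refine ⟨⟨f, f', fun w => (ph_inj (i := 0) (j := 0) ?_).2, fun w => (ph_inj (i := 0) (j := 0) ?_).2⟩,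
    fun x => ?_, hf⟩
  · rw [← hf', ← hf]; simp
  · rw [← hf, ← hf']; simp
  · obtain ⟨s, t, w0, h1, h2⟩ := hu (ph 0 x)
    have key : ∀ (s : List Bool) (x y : C) (c d : Bool), ph 0 x = cat (s ++ [c, d]) y →
        ∃ r, s ++ [c, d] = false :: true :: r ∧ x = cat r y := by
      rintro (_ | ⟨c1, _ | ⟨c2, s⟩⟩) x y c d e <;> simp_all [ph0]
    have e0 : w0 = cat [w0 0, tail w0 0] (tail (tail w0)) := by simp [cons_tail]
    have e1 := h2 w0
    rw [← h1, hf] at e1
    rw [e0, ← cat_append] at h1 e1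
    obtain ⟨r1, g1, g2⟩ := key _ _ _ _ _ h1
    obtain ⟨r2, g3, -⟩ := key _ _ _ _ _ e1
    refine ⟨r1, r2, _, g2, fun w => (ph_inj (i := 0) (j := 0) ?_).2⟩
    have := h2 (cat [w0 0, tail w0 0] w)
    rw [← cat_append, ← cat_append, g1, g3] at this
    exact (hf _).symm.trans this

theorem conj_b {v : Perm C} (hv : v ∈ V) (hv' : v ∈ M) {m n : ℕ} (hm : 0 < m) (hn : 0 < n)
    (h : b ^ (m : ℤ) * v = v * b ^ (n : ℤ)) : m = n ∧ Commute v b := by
  have h1 := ends_of_conj hv' (by omega) (by omega) h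
  have h2 : ∀ x, (∃ w, v x = ph 0 w) ↔ ∃ w, x = ph 0 w := fun x => by
    rw [← cone_iff, ← cone_iff]
    conv_lhs => rw [← h1 false, ← h1 true, M_le hv', M_le hv']
  obtain ⟨u, hu, h3⟩ := restrict hv h2
  obtain ⟨e, r, rfl⟩ := conj_pow hu hm hn (Equiv.ext fun w => by
    have := congrArg (fun g : Perm C => g (ph 0 w)) h
    simp only [Perm.mul_apply, h3, bz_ph, if_true] at this
    exact (ph_inj this).2)
  refine ⟨e, Equiv.ext fun x => ?_⟩
  by_cases hx : ∃ w, x = ph 0 w
  · obtain ⟨w, rfl⟩ := hx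
    rw [← zpow_one b]
    simp only [Perm.mul_apply, h3, bz_ph, if_true]
    rw [← Perm.mul_apply, ← zpow_add, add_comm, zpow_add, Perm.mul_apply]
  · have e1 : b x = x := sub_out _ fun w e => hx ⟨w, e⟩
    have e2 : b (v x) = v x := sub_out _ fun w e => hx ((h2 x).1 ⟨w, e⟩)
    rw [Perm.mul_apply, Perm.mul_apply, e1, e2]

/-- the `i`-th bump, conjugated by `u` -/
def bump {G : Type} [Group G] (A B : G) (i : ℕ) (u : G) : G :=
  A ^ (i : ℤ) * u * B ^ ((i + 1 : ℕ) : ℤ) * (A ^ (i : ℤ) * u)⁻¹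

theorem bump_one (i : ℕ) (j : ℤ) (w : C) :
    bump a b i 1 (ph j w) = ph j (if j = i then (a ^ ((i + 1 : ℕ) : ℤ)) w else w) := by
  simp only [bump, mul_one, Perm.mul_apply, ← zpow_neg, az_ph, bz_ph, add_neg_cancel_left]
  congr 1
  split_ifs <;> first | rfl | omega

theorem bumps (k : ℕ) (u : ℕ → Perm C) (hV : ∀ i, u i ∈ V) (hM : ∀ i, u i ∈ M)
    (h : ((List.range k).map fun i => bump a b i (u i)).prod =
      ((List.range k).map fun i => bump a b i 1).prod) : ∀ i < k, Commute (u i) b := by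
  have vM : ∀ i : ℕ, a ^ (i : ℤ) * u i ∈ M := fun i => mul_mem (zpow_mem a_M _) (hM i)
  have mv : ∀ i x, bump a b i (u i) x ≠ x ↔ In ((a ^ (i : ℤ) * u i)⁻¹ x) := fun i x => by
    rw [← b_moves (n := ((i + 1 : ℕ) : ℤ)) (by omega), bump, Perm.mul_apply, Perm.mul_apply,
      ← (a ^ (i : ℤ) * u i)⁻¹.injective.ne_iff]
    simp only [Perm.coe_inv, symm_apply_apply]
  have oneK : ∀ i c, bump a b i 1 (K c) = K c := fun i c => by
    simp only [bump, mul_one, Perm.mul_apply, ← zpow_neg, az_K, bz_K]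
  have fx : ∀ x, (∀ i < k, bump a b i 1 x = x) → ∀ i < k, bump a b i (u i) x = x := by
    intro x hx i hi
    refine (prod_fix (l := (List.range k).map fun i => bump a b i (u i)) ?_).2 x ?_ _
      (List.mem_map_of_mem (List.mem_range.2 hi))
    · simp only [List.mem_map]
      rintro _ ⟨j, -, rfl⟩
      exact (b_pos _).conj (vM j)
    · rw [h]
      refine prod_fix' ?_
      simp only [List.mem_map, List.mem_range]
      rintro _ ⟨j, hj, rfl⟩
      exact hx j hj
  have hpi : ∀ i < k, ∃ j < k, ∀ x, bump a b i (u i) x ≠ x → ∃ w, x = ph j w := by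
    intro i hi
    have h0 := (mv i ((a ^ (i : ℤ) * u i) (ph 0 (ph 0 (K true))))).2 (by simpa using in_ph 0 (K true))
    generalize (a ^ (i : ℤ) * u i) (ph 0 (ph 0 (K true))) = y at h0
    obtain ⟨j, hj, hy⟩ : ∃ j < k, bump a b j 1 y ≠ y := by
      by_contra! hn
      exact h0 (fx y hn i hi)
    refine ⟨j, hj, fun x hx => ?_⟩
    rcases tri y with ⟨c, rfl⟩ | ⟨j', w, rfl⟩
    · exact absurd (oneK j c) hy
    obtain rfl : j' = j := by
      by_contra hn
      exact hy (by rw [bump_one, if_neg hn])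
    have hK : ∀ c, ¬ In ((a ^ (i : ℤ) * u i)⁻¹ (ph j (K c))) := fun c hc =>
      (mv i _).2 hc (fx _ (fun l _ => by rw [bump_one]; simp only [az_K, ite_self]) i hi)
    have h1 := (cone_iff (ph 0 w)).2 ⟨w, rfl⟩
    rw [← M_le (zpow_mem a_M (j : ℤ)), ← M_le (zpow_mem a_M (j : ℤ)) (x := ph 0 w)] at h1
    simp only [az_ph, add_zero] at h1
    rw [mv] at hx h0
    obtain ⟨w', hw'⟩ := (cone_iff ((a ^ (-j : ℤ)) x)).1 (by
      rw [← M_le (zpow_mem a_M (j : ℤ)), ← M_le (zpow_mem a_M (j : ℤ)) (y := ph 0 (K true))]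
      simp only [az_ph, add_zero, zpow_neg, Perm.coe_inv, apply_symm_apply]
      constructor <;> by_contra! h2
      · exact hK false ⟨hx.1.trans ((M_lt (inv_mem (vM i))).2 h2),
          lt_of_le_of_lt ((M_le (inv_mem (vM i))).2 h1.1) h0.2⟩
      · exact hK true ⟨lt_of_lt_of_le h0.1 ((M_le (inv_mem (vM i))).2 h1.2),
          ((M_lt (inv_mem (vM i))).2 h2).trans hx.2⟩)
    exact ⟨w', by rw [← add_zero (j : ℤ), ← az_ph, ← hw']; simp⟩
  choose! π hπ1 hπ2 using hpi
  have hone : ∀ j < k, ∀ w, ((List.range k).map fun i => bump a b i 1).prod (ph j w) =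
      bump a b j 1 (ph j w) := fun j hj w =>
    prod_one List.nodup_range _ (List.mem_range.2 hj) fun l _ hl => by
      simp only [bump_one, if_true, if_neg (show (j : ℤ) ≠ l by omega), and_self]
  have surj : Set.SurjOn π (Set.Iio k) (Set.Iio k) := fun j hj => by
    by_contra hn
    have h1 := hone j hj (ph 0 (K true))
    rw [← h, prod_fix', bump_one, if_pos rfl, az_ph] at h1
    · have := (ph_inj (ph_inj h1).2).1
      omega
    · simp only [List.mem_map, List.mem_range]
      rintro _ ⟨i, hi, rfl⟩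
      by_contra h2
      obtain ⟨w, hw⟩ := hπ2 i hi _ h2
      exact hn ⟨i, hi, by have := (ph_inj hw).1; omega⟩
  have inj : Set.InjOn π (Set.Iio k) :=
    ((Set.finite_Iio k).injOn_iff_bijOn_of_mapsTo hπ1).2
      (((Set.finite_Iio k).surjOn_iff_bijOn_of_mapsTo hπ1).1 surj)
  intro i hi
  have e : bump a b i (u i) = bump a b (π i) 1 := Equiv.ext fun x => by
    by_cases hx : ∃ w, x = ph (π i) w
    · obtain ⟨w, rfl⟩ := hx
      rw [← hone _ (hπ1 i hi), ← h, prod_one List.nodup_range _ (List.mem_range.2 hi)]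
      intro l hl hli
      have key : ∀ w, bump a b l (u l) (ph (π i) w) = ph (π i) w := fun w => by
        by_contra h2
        obtain ⟨w', hw⟩ := hπ2 l (List.mem_range.1 hl) _ h2
        exact hli (inj (List.mem_range.1 hl) hi (by have := (ph_inj hw).1; omega))
      refine ⟨key w, ?_⟩
      by_cases h3 : bump a b i (u i) (ph (π i) w) = ph (π i) w
      · rw [h3, key]
      · obtain ⟨w', hw⟩ := hπ2 i hi _ ((bump a b i (u i)).injective.ne h3)
        rw [hw, key]
    · have e1 : bump a b i (u i) x = x := by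
        by_contra h2
        exact hx (hπ2 i hi x h2)
      rw [e1]
      rcases tri x with ⟨c, rfl⟩ | ⟨j, w, rfl⟩
      · exact (oneK _ c).symm
      · rw [bump_one, if_neg fun e => hx ⟨w, by rw [e]⟩]
  obtain ⟨e1, e2⟩ := conj_b (v := (a ^ (π i : ℤ))⁻¹ * (a ^ (i : ℤ) * u i))
    (mul_mem (inv_mem (zpow_mem a_mem _)) (mul_mem (zpow_mem a_mem _) (hV i)))
    (mul_mem (inv_mem (zpow_mem a_M _)) (vM i)) (m := π i + 1) (n := i + 1) (by omega) (by omega) (by
      simp only [bump, mul_one] at e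
      calc _ = (a ^ (π i : ℤ))⁻¹ * (a ^ (π i : ℤ) * b ^ ((π i + 1 : ℕ) : ℤ) * (a ^ (π i : ℤ))⁻¹) *
            (a ^ (i : ℤ) * u i) := by group
        _ = _ := by rw [← e]; group)
  rwa [show π i = i by omega, inv_mul_cancel_left] at e2

end Pool.Agent.H65.Thom
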