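import Pool.Agent.H65.Thom2
import Pool.Agent.H65.Thom4
import Pool.Agent.H65.Thom5

/-! Single equations over Thompson's group `F` are undecidable. -/

namespace Pool.Agent.H65.Thom

open Equiv

theorem map_ev {G H : Type} [Group G] [Group H] (f : G →* H) (σ : ℕ → G) (A B : G) (w : Wd) :
    f (ev σ A B w) = ev (fun n => f (σ n)) (f A) (f B) w := by
  change (f.comp (ev σ A B)) w = _
  congr 1
  ext (n | _ | _) <;> simp [ev]

theorem ev_mem {G : Type} [Group G] (H : Subgroup G) {σ : ℕ → G} {A B : G} (h : ∀ n, σ n ∈ H)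
    (hA : A ∈ H) (hB : B ∈ H) (w : Wd) : ev σ A B w ∈ H := by
  have := map_ev H.subtype (fun n => ⟨σ n, h n⟩) ⟨A, hA⟩ ⟨B, hB⟩ w
  simp only [Subgroup.subtype_apply] at this
  rw [← this]
  exact Subtype.prop _

theorem ev_bound {G : Type} [Group G] (A B : G) (w : Wd) :
    ∃ N, ∀ σ σ' : ℕ → G, (∀ n < N, σ n = σ' n) → ev σ A B w = ev σ' A B w := by
  induction w using FreeGroup.induction_on with
  | C1 => exact ⟨0, by simp⟩
  | of x =>
    rcases x with n | c
    · exact ⟨n + 1, fun σ σ' h => by simpa [ev] using h n (by omega)⟩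
    · exact ⟨0, fun σ σ' h => by simp [ev]⟩
  | inv_of x ih => exact ih.imp fun N h σ σ' h' => by rw [map_inv, map_inv, h σ σ' h']
  | mul x y hx hy =>
    obtain ⟨N, h⟩ := hx
    obtain ⟨N', h'⟩ := hy
    exact ⟨N + N', fun σ σ' e => by
      rw [map_mul, map_mul, h σ σ' fun n hn => e n (by omega), h' σ σ' fun n hn => e n (by omega)]⟩

theorem ev_bound' {G : Type} [Group G] (A B : G) (S : List Wd) :
    ∃ N, ∀ σ σ' : ℕ → G, (∀ n < N, σ n = σ' n) → ∀ w ∈ S, ev σ A B w = ev σ' A B w := by
  induction S with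
  | nil => exact ⟨0, by simp⟩
  | cons w S ih =>
    obtain ⟨N, h⟩ := ev_bound A B w
    obtain ⟨N', h'⟩ := ih
    refine ⟨N + N', fun σ σ' e => ?_⟩
    simp only [List.mem_cons, forall_eq_or_imp]
    exact ⟨h σ σ' fun n hn => e n (by omega), h' σ σ' fun n hn => e n (by omega)⟩

theorem exists_word {G : Type} [Group G] {A B : G} (hg : Subgroup.closure {A, B} = ⊤) (g : G) :
    ∃ w : Wd, ∀ σ, ev σ A B w = g := by
  have hg' : g ∈ Subgroup.closure {A, B} := hg ▸ Subgroup.mem_top g
  induction hg' using Subgroup.closure_induction with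
  | mem x hx =>
    rcases hx with rfl | rfl
    exacts [⟨cA, by simp⟩, ⟨cB, by simp⟩]
  | one => exact ⟨1, by simp⟩
  | mul x y _ _ hx hy =>
    obtain ⟨v, hv⟩ := hx
    obtain ⟨w, hw⟩ := hy
    exact ⟨v * w, by simp [hv, hw]⟩
  | inv x _ hx => exact hx.elim fun v hv => ⟨v⁻¹, by simp [hv]⟩

theorem pow_list {G : Type} [Group G] {A B : G} (hg : Subgroup.closure {A, B} = ⊤) (g : G) :
    ∃ f : ℕ → List ((ℕ ⊕ Bool) × Bool), Primrec f ∧
      ∀ m σ, ev σ A B (FreeGroup.mk (f m)) = g ^ m := by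
  obtain ⟨⟨l⟩, h⟩ := exists_word hg g
  refine ⟨fun m => Nat.rec [] (fun _ l' => l ++ l') m, Primrec.nat_rec₁ []
    (Primrec.list_append.comp (Primrec.const l) Primrec.snd).to₂, fun m σ => ?_⟩
  induction m with
  | zero => simp [ev]
  | succ m ih => rw [← FreeGroup.mul_mk, map_mul, ih, pow_succ']; exact congrArg (· * g ^ m) (h σ)

theorem ev_mk {G : Type} [Group G] (σ : ℕ → G) (A B : G) (l : List ((ℕ ⊕ Bool) × Bool)) :
    ev σ A B (FreeGroup.mk l) = (l.map fun x => cond x.2 (Sum.elim σ (fun c => cond c B A) x.1)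
      (Sum.elim σ (fun c => cond c B A) x.1)⁻¹).prod := FreeGroup.lift_mk

theorem subst_list {G : Type} [Group G] {A B : G} (hg : Subgroup.closure {A, B} = ⊤) (g : G) (i : ℕ)
    (l : List ((ℕ ⊕ Bool) × Bool)) : ∃ f : ℕ → List ((ℕ ⊕ Bool) × Bool), Primrec f ∧
      ∀ m σ, ev σ A B (FreeGroup.mk (f m)) =
        ev (Function.update σ i (g ^ m)) A B (FreeGroup.mk l) := by
  induction l with
  | nil => exact ⟨fun _ => [], Primrec.const _, fun m σ => by simp only [ev_mk]; rfl⟩
  | cons x l ih =>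
    obtain ⟨f, h1, h2⟩ := ih
    obtain ⟨f', h3, h4⟩ : ∃ f : ℕ → List ((ℕ ⊕ Bool) × Bool), Primrec f ∧
        ∀ m σ, ev σ A B (FreeGroup.mk (f m)) =
          ev (Function.update σ i (g ^ m)) A B (FreeGroup.mk [x]) := by
      by_cases hx : x.1 = .inl i
      · obtain ⟨_, _ | _⟩ := x <;> obtain rfl := hx
        · obtain ⟨f, h1, h2⟩ := pow_list hg g⁻¹
          exact ⟨f, h1, fun m σ => by
            rw [h2, ev_mk]
            simp only [List.map_singleton, List.prod_singleton, cond, Sum.elim_inl,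
              Function.update_self, inv_pow]⟩
        · obtain ⟨f, h1, h2⟩ := pow_list hg g
          exact ⟨f, h1, fun m σ => by
            rw [h2, ev_mk]
            simp only [List.map_singleton, List.prod_singleton, cond, Sum.elim_inl,
              Function.update_self, inv_pow]⟩
      · refine ⟨fun _ => [x], Primrec.const _, fun m σ => ?_⟩
        obtain ⟨n | c, d⟩ := x
        · have : n ≠ i := fun e => hx (by rw [e])
          simp only [ev_mk, List.map_singleton, Sum.elim_inl, Function.update_of_ne this]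
        · simp only [ev_mk, List.map_singleton, Sum.elim_inr]
    exact ⟨fun m => f' m ++ f m, Primrec.list_append.comp h3 h1, fun m σ => by
      rw [← FreeGroup.mul_mk, map_mul, h2, h4, ← map_mul, FreeGroup.mul_mk]; rfl⟩

theorem a0_eq : sub [false] a = a⁻¹ * (sub [true] a)⁻¹ * a * a := by
  rw [mul_assoc, mul_assoc, eq_inv_mul_iff_mul_eq, eq_inv_mul_iff_mul_eq]
  ext1 x
  rcases cases1 x with ⟨x, rfl⟩ | ⟨x, rfl⟩
  · rcases cases1 x with ⟨x, rfl⟩ | ⟨x, rfl⟩
    · rcases cases1 x with ⟨x, rfl⟩ | ⟨x, rfl⟩ <;> rcases cases1 x with ⟨x, rfl⟩ | ⟨x, rfl⟩ <;> rfl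
    · rfl
  · rfl

theorem b_eq : b = a⁻¹ * ((sub [true] a)⁻¹ * (a * sub [true] a * a⁻¹)⁻¹ * sub [true] a *
    sub [true] a) * a := by
  have h1 := conj_sub (g := a) (s := [true]) (t := [true, true]) (fun w => rfl) a
  have h2 := conj_sub (g := a) (s := [false, true]) (t := [true, false]) (fun w => rfl) a
  have h3 := congrArg (sub [true]) a0_eq
  simp only [map_mul, map_inv, ← sub_append, List.cons_append, List.nil_append] at h3
  rw [h1, ← h3, ← h2, b]
  group

/-- pairs `(g, g')` where `g` acts on the cone `01` as `g'` -/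
def Res : Subgroup (Perm C × Perm C) where
  carrier := {p | ∀ w, p.1 (ph 0 w) = ph 0 (p.2 w)}
  one_mem' _ := rfl
  mul_mem' {p q} h h' w := by simp [h' w, h _]
  inv_mem' {p} h w := p.1.injective (by simp [h _])

theorem res_comm {g g' y y' : Perm C} (h : (y, y') ∈ Res) (h' : (g, g') ∈ Res) (e : Commute y g) :
    Commute y' g' := Equiv.ext fun w => by
  have := congrArg (fun u : Perm C => u (ph 0 w)) e.eq
  simp only [Perm.mul_apply] at this
  rw [h' w, h _, h w, h' _] at this
  exact (ph_inj this).2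

theorem res_sub (g : Perm C) : (sub [false, true] g, g) ∈ Res := fun w => sub_cat [false, true] g w

theorem res_of_comm {u : Perm C} (hV : u ∈ V) (hM : u ∈ M) (h1 : Commute (a * u * a⁻¹) b)
    (h2 : Commute (a⁻¹ * u * a) b) : ∃ u' ∈ V, (u, u') ∈ Res := by
  have e1 := ends_of_conj (mul_mem (mul_mem a_M hM) (inv_mem a_M)) one_ne_zero one_ne_zero
    (by simpa using h1.eq.symm) true
  have e2 := ends_of_conj (mul_mem (mul_mem (inv_mem a_M) hM) a_M) one_ne_zero one_ne_zero
    (by simpa using h2.eq.symm) false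
  have e3 : u (ph (-1) (K true)) = ph (-1) (K true) := a.injective (e1.trans (by rw [a_ph]; rfl))
  have e4 : u (ph 1 (K false)) = ph 1 (K false) := a⁻¹.injective (e2.trans rfl)
  refine restrict hV fun x => ?_
  rw [← cone_iff', ← cone_iff']
  conv_lhs => rw [← e3, ← e4, M_lt hM, M_lt hM]

theorem far_comm {g : Perm C} {s : List Bool} (h : ∀ w v, cat s w ≠ ph 0 v) (u : Perm C) :
    Commute (sub [false, true] u) (sub s g) :=
  mul_inv_eq_iff_eq_mul.1 (conj_sub (fun w => sub_out u (h w)) g)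

theorem f_undec {G : Type} [Group G] {A B : G} (hg : Subgroup.closure {A, B} = ⊤)
    (ρ : G →* Perm C) (hA : ρ A = a⁻¹) (hB : ρ B = (sub [true] a)⁻¹) (inj : Function.Injective ρ) :
    ¬ ComputablePred fun w : List ((ℕ ⊕ Bool) × Bool) =>
      ∃ σ : ℕ → G, ev σ A B (FreeGroup.mk w) = 1 := by
  classical
  have hVM : ∀ g, ρ g ∈ V ⊓ M := fun g => by
    have : Subgroup.closure {A, B} ≤ (V ⊓ M).comap ρ := (Subgroup.closure_le _).2 (by
      rintro _ (rfl | rfl)
      · exact show ρ _ ∈ V ⊓ M from hA ▸ inv_mem ⟨a_mem, a_M⟩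
      · exact show ρ _ ∈ V ⊓ M from hB ▸ inv_mem ⟨sub_mem a_mem _, sub_M a_M _⟩)
    exact this (hg ▸ Subgroup.mem_top g)
  obtain ⟨β, hβ⟩ : ∃ β, ρ β = b :=
    ⟨A * (B * (A⁻¹ * B⁻¹ * A)⁻¹ * B⁻¹ * B⁻¹) * A⁻¹, by rw [b_eq]; simp [hA, hB]⟩
  obtain ⟨γ, hγ⟩ : ∃ γ, ρ γ * sub [false, true] b * (ρ γ)⁻¹ = b :=
    ⟨A * A * B⁻¹ * B⁻¹ * A⁻¹, by
      rw [b, ← sub_append]
      refine conj_sub (fun w => ?_) a
      simp only [map_mul, map_inv, hA, hB, inv_inv]
      rfl⟩
  have hγ' : ρ (γ⁻¹ * β * γ) = sub [false, true] b := by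
    rw [map_mul, map_mul, map_inv, hβ]
    conv_lhs => rw [← hγ]
    group
  obtain ⟨wa, hwa⟩ := exists_word hg A⁻¹
  obtain ⟨wb, hwb⟩ := exists_word hg β
  obtain ⟨wg, hwg⟩ := exists_word hg γ
  obtain ⟨P, S, i, hP, hS⟩ := system
  obtain ⟨N0, hN⟩ := ev_bound' b (sub [false, true] b) S
  let x : ℕ → Wd := fun n => FreeGroup.of (.inl n)
  let θ : Wd →* Wd := ev x wb (wg⁻¹ * wb * wg)
  have hθ : ∀ σ w, ρ (ev σ A B (θ w)) = ev (fun n => ρ (σ n)) b (sub [false, true] b) w := by
    intro σ w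
    rw [show ev σ A B (θ w) = _ from map_ev _ _ _ _ _, map_ev]
    simp only [map_mul, map_inv, hwb, hwg, hβ, ← hγ']
    simp [x, ev]
  let U : List Wd := S.map θ ++ S.map (fun w => wg * θ w * wg⁻¹) ++
    (List.range (N0 + i + 1)).map (fun n => wa * x n * wa⁻¹) ++
    (List.range (N0 + i + 1)).map (fun n => wa⁻¹ * x n * wa)
  have hU : ∀ σ : ℕ → G, (∀ w ∈ U, Commute (ρ (ev σ A B w)) b) ↔
      (∀ w ∈ S, Commute (ev (fun n => ρ (σ n)) b (sub [false, true] b) w) b ∧
        Commute (ev (fun n => ρ (σ n)) b (sub [false, true] b) w) (sub [false, true] b)) ∧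
      ∀ n < N0 + i + 1, Commute (a * ρ (σ n) * a⁻¹) b ∧ Commute (a⁻¹ * ρ (σ n) * a) b := by
    intro σ
    have e : ∀ y, Commute (ρ γ * y * (ρ γ)⁻¹) b ↔ Commute y (sub [false, true] b) := fun y => by
      conv_lhs => rw [← hγ]
      exact Commute.conj_iff _
    simp only [U, List.mem_append, List.mem_map, List.mem_range, or_imp, forall_and,
      forall_exists_index, and_imp, forall_apply_eq_imp_iff₂, map_mul, map_inv, hθ, hwa, hwg, e,
      hA, inv_inv, and_assoc]
    simp [x, ev]
  obtain ⟨l0, hl0⟩ : ∃ l0, FreeGroup.mk l0 =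
      ((List.range U.length).map fun j => bump wa wb j (U.getD j 1)).prod *
        (((List.range U.length).map fun j => bump wa wb j 1).prod)⁻¹ := Quot.exists_rep _
  have hE : ∀ σ : ℕ → G, ev σ A B (FreeGroup.mk l0) = 1 ↔ ∀ w ∈ U, Commute (ρ (ev σ A B w)) b := by
    intro σ
    have e : ∀ j w, ρ (ev σ A B (bump wa wb j w)) = bump a b j (ρ (ev σ A B w)) := fun j w => by
      simp only [bump, map_mul, map_inv, map_zpow, hwa, hwb, hA, hβ, inv_inv]
    rw [← inj.eq_iff, hl0]
    simp only [map_mul, map_inv, map_one, map_list_prod, List.map_map, Function.comp_def, e,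
      mul_inv_eq_one]
    constructor
    · intro h w hw
      obtain ⟨j, hj, rfl⟩ := List.getElem_of_mem hw
      simpa [List.getElem?_eq_getElem hj] using bumps U.length (fun j => ρ (ev σ A B (U.getD j 1)))
        (fun j => (hVM _).1) (fun j => (hVM _).2) h j hj
    · intro h
      congr 1
      refine List.map_congr_left fun j hj => ?_
      have h1 := h (U.getD j 1) (by
        simp [List.getElem?_eq_getElem (List.mem_range.1 hj)])
      rw [bump, bump, mul_assoc (a ^ (j : ℤ)), (h1.zpow_right _).eq]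
      group
  obtain ⟨f, hf, hf2⟩ := subst_list hg β i l0
  rintro ⟨d, hd⟩
  refine hP (ComputablePred.of_eq ⟨fun m => d _, hd.comp hf.to_comp⟩ fun m => ⟨?_, fun hm => ?_⟩)
  · rintro ⟨σ0, h0⟩
    rw [hf2, hE, hU] at h0
    have hi : ρ (Function.update σ0 i (β ^ m) i) = sub [false, true] (a ^ m) := by
      simp [hβ, b]
    generalize Function.update σ0 i (β ^ m) = σ at h0 hi
    choose! τ h1 h2 using fun n hn => res_of_comm (hVM (σ n)).1 (hVM (σ n)).2 (h0.2 n hn).1
      (h0.2 n hn).2
    have hτ : ∀ n, (if n < N0 + i + 1 then τ n else 1) ∈ V := fun n => by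
      split_ifs with h
      exacts [h1 n h, one_mem _]
    refine (hS m).2 (fun n => if n < N0 + i + 1 then τ n else 1) hτ ?_ fun w hw => ?_
    · rw [if_pos (by omega)]
      refine Equiv.ext fun w => (ph_inj (i := 0) (j := 0) ?_).2
      rw [← h2 i (by omega) w, hi]
      exact res_sub _ w
    · have h3 := ev_mem Res (σ := fun n => if n < N0 + i + 1 then (ρ (σ n), τ n) else 1)
        (fun n => by
          split_ifs with h
          exacts [h2 n h, one_mem _]) (res_sub a) (res_sub b) w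
      have h4 := map_ev (MonoidHom.fst _ _) (fun n => if n < N0 + i + 1 then (ρ (σ n), τ n) else 1)
        (sub [false, true] a, a) (sub [false, true] b, b) w
      have h5 := map_ev (MonoidHom.snd _ _) (fun n => if n < N0 + i + 1 then (ρ (σ n), τ n) else 1)
        (sub [false, true] a, a) (sub [false, true] b, b) w
      simp only [MonoidHom.coe_fst, MonoidHom.coe_snd, apply_ite, Prod.snd_one] at h4 h5
      rw [← h5]
      have h6 := h0.1 w hw
      rw [hN _ (fun n => if n < N0 + i + 1 then ρ (σ n) else 1)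
        (fun n hn => (if_pos (by omega)).symm) w hw] at h6
      have h7 := ev_mem V hτ a_mem b_mem w
      rw [← h5] at h7
      obtain ⟨E, h8, h9⟩ := K3 h7 (P := 0)
        (by rw [be_zero, dl, mul_inv_eq_one, mul_inv_eq_iff_eq_mul]
            exact (res_comm h3 (res_sub a) (h4 ▸ h6.1)).eq.symm)
        (by rw [dl, mul_inv_eq_one, mul_inv_eq_iff_eq_mul]
            exact (res_comm h3 (res_sub b) (h4 ▸ h6.2)).eq)
      rw [h9, (mul_eq_zero.1 h8.symm).resolve_left fun e => absurd (T_ne e) one_ne_zero, be_zero]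
  · obtain ⟨σ, h1, h2, h3⟩ := (hS m).1 hm
    have h4 : W ≤ ρ.range.comap (sub [false, true]) := (Subgroup.closure_le _).2 (by
      rintro _ (rfl | rfl)
      exacts [⟨β, hβ⟩, ⟨_, hγ'⟩])
    choose σ' h5 using fun n => h4 (h1 n)
    refine ⟨σ', ?_⟩
    rw [hf2, Function.update_eq_self_iff.2 (inj (by rw [h5, h2, map_pow, map_pow, hβ, b])), hE, hU]
    simp only [h5]
    refine ⟨fun w hw => ?_, fun n _ => ⟨?_, ?_⟩⟩
    · have := map_ev (sub [false, true]) σ a b w
      rw [h3 w hw, map_one] at this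
      rw [show ev _ b _ w = 1 from this.symm]
      exact ⟨Commute.one_left _, Commute.one_left _⟩
    · rw [← conj_sub (g := a) (s := [false, false, true]) (t := [false, true]) (fun w => rfl) a |>.trans
        (show sub [false, true] a = b from rfl)]
      exact (far_comm (fun w v e => by simp [ph0] at e) _).conj a
    · rw [← conj_sub (g := a⁻¹) (s := [true, false]) (t := [false, true]) (fun w => rfl) a |>.trans
        (show sub [false, true] a = b from rfl)]
      exact (far_comm (fun w v e => by simp [ph0] at e) _).conj a⁻¹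

theorem pres_undec (rels : Set (FreeGroup Bool))
    (h : rels = {dl (FreeGroup.of false * (FreeGroup.of true)⁻¹)
        (X (FreeGroup.of false) (FreeGroup.of true) 2),
      dl (FreeGroup.of false * (FreeGroup.of true)⁻¹)
        (X (FreeGroup.of false) (FreeGroup.of true) 3)}) :
    ¬ ComputablePred fun w : List ((ℕ ⊕ Bool) × Bool) => ∃ σ : ℕ → PresentedGroup rels,
      ev σ (PresentedGroup.of false) (PresentedGroup.of true) (FreeGroup.mk w) = 1 := by
  have mX : ∀ {G H : Type} [Group G] [Group H] (f : G →* H) (A B : G) (n : ℕ),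
      f (X A B n) = X (f A) (f B) n := fun f A B n => by cases n <;> simp [X]
  have cm : ∀ {G : Type} [Group G] (x y : G), dl x y = 1 ↔ Commute x y := fun x y => by
    rw [dl, mul_inv_eq_one, mul_inv_eq_iff_eq_mul]; rfl
  have hg : Subgroup.closure {(PresentedGroup.of false : PresentedGroup rels),
      PresentedGroup.of true} = ⊤ := by
    rw [← PresentedGroup.closure_range_of rels]
    congr 1
    ext x
    simp [eq_comm]
  let f : Bool → Perm C := fun c => cond c (sub [true] a)⁻¹ a⁻¹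
  have hf : ∀ r ∈ rels, FreeGroup.lift f r = 1 := by
    rw [h]
    rintro _ (rfl | rfl) <;>
      simp only [map_dl, cm, mX, map_mul, map_inv, FreeGroup.lift_apply_of, f, cond]
    exacts [rels_hold 0, rels_hold 1]
  have hr : ∀ n, dl (FreeGroup.of false * (FreeGroup.of true)⁻¹)
      (X (FreeGroup.of false) (FreeGroup.of true) n) ∈ rels →
      Commute ((PresentedGroup.of false : PresentedGroup rels) * (PresentedGroup.of true)⁻¹)
        (X (PresentedGroup.of false) (PresentedGroup.of true) n) := fun n hn => by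
    have := PresentedGroup.one_of_mem hn
    rw [map_dl, cm, mX, map_mul, map_inv] at this
    exact this
  exact f_undec hg (PresentedGroup.toGroup hf) (PresentedGroup.toGroup.of hf)
    (PresentedGroup.toGroup.of hf)
    (rho_inj _ _ (hr 2 (by simp [h])) (hr 3 (by simp [h])) _ (PresentedGroup.toGroup.of hf)
      (PresentedGroup.toGroup.of hf) hg)

end Pool.Agent.H65.Thom
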