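import Mathlib

/-! Thompson's group `F` by its standard finite presentation. -/

namespace Pool.Agent.H65.Thom

open scoped commutatorElement

/-- The relators `[A B⁻¹, A⁻¹ B A]` and `[A B⁻¹, A⁻² B A²]`, where `A`, `B` are the two free
generators. -/
def relsF : Set (FreeGroup Bool) :=
  {⁅FreeGroup.of false * (FreeGroup.of true)⁻¹,
      (FreeGroup.of false)⁻¹ * FreeGroup.of true * FreeGroup.of false⁆,
    ⁅FreeGroup.of false * (FreeGroup.of true)⁻¹,
      (FreeGroup.of false ^ 2)⁻¹ * FreeGroup.of true * FreeGroup.of false ^ 2⁆}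

/-- Thompson's group `F = ⟨A, B ∣ [A B⁻¹, A⁻¹ B A], [A B⁻¹, A⁻² B A²]⟩`. -/
abbrev ThompsonF : Type := PresentedGroup relsF

end Pool.Agent.H65.Thom
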