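import Pool.Agent.H65.Thom6
import Pool.Agent.H65.ThomDefs

/-! A free abelian subgroup of rank three in Thompson's group `F`. -/

namespace Pool.Agent.H65.Thom

open Equiv

theorem exists_rho : ∃ ρ : ThompsonF →* Perm C, ρ (PresentedGroup.of false) = a⁻¹ ∧
    ρ (PresentedGroup.of true) = (sub [true] a)⁻¹ ∧ Function.Injective ρ := by
  have hg : Subgroup.closure {(PresentedGroup.of false : ThompsonF), PresentedGroup.of true} = ⊤ := by
    rw [← PresentedGroup.closure_range_of relsF]
    congr 1
    ext x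
    simp [eq_comm]
  let f : Bool → Perm C := fun c => cond c (sub [true] a)⁻¹ a⁻¹
  have hf : ∀ r ∈ relsF, FreeGroup.lift f r = 1 := by
    rintro _ (rfl | rfl) <;>
      simp only [map_commutatorElement, commutatorElement_eq_one_iff_commute, map_mul, map_inv,
        map_pow, FreeGroup.lift_apply_of, f, cond]
    exacts [by simpa only [X, pow_one] using rels_hold 0, rels_hold 1]
  refine ⟨PresentedGroup.toGroup hf, PresentedGroup.toGroup.of hf, PresentedGroup.toGroup.of hf,
    rho_inj _ _ ?_ ?_ _ (PresentedGroup.toGroup.of hf) (PresentedGroup.toGroup.of hf) hg⟩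
  · have := PresentedGroup.one_of_mem (rels := relsF) (.inl rfl)
    rw [map_commutatorElement, commutatorElement_eq_one_iff_commute] at this
    rw [X, pow_one]
    exact this
  · have := PresentedGroup.one_of_mem (rels := relsF) (.inr rfl)
    rw [map_commutatorElement, commutatorElement_eq_one_iff_commute] at this
    exact this

theorem F3 : ∃ x y z : ThompsonF, Commute x y ∧ Commute x z ∧ Commute y z ∧
    ∀ i j k : ℤ, x ^ i * y ^ j * z ^ k = 1 → i = 0 ∧ j = 0 ∧ k = 0 := by
  obtain ⟨ρ, hA, hB, inj⟩ := exists_rho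
  generalize (PresentedGroup.of false : ThompsonF) = A at hA
  generalize (PresentedGroup.of true : ThompsonF) = B at hB
  have h0 : ρ (A * B * A⁻¹ * A⁻¹) = sub [false] a := by rw [a0_eq]; simp [hA, hB]
  have h1 : ρ (B * (A⁻¹ * B⁻¹ * A)⁻¹ * B⁻¹ * B⁻¹) = sub [true, false] a := by
    rw [← conj_sub (g := a) (s := [false, true]) (t := [true, false]) (fun w => rfl) a]
    change _ = a * b * a⁻¹
    rw [b_eq]
    simp [hA, hB, mul_assoc]
  have h2 : ρ (A⁻¹ * B⁻¹ * A) = sub [true, true] a := by
    rw [← conj_sub (g := a) (s := [true]) (t := [true, true]) (fun w => rfl) a]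
    simp [hA, hB]
  have hc : ∀ s s' : List Bool, (∀ w v, cat s w ≠ cat s' v) → Commute (sub s' a) (sub s a) :=
    fun s s' h => mul_inv_eq_iff_eq_mul.1 (conj_sub (fun w => sub_out a (h w)) a)
  generalize A * B * A⁻¹ * A⁻¹ = x at h0
  generalize B * (A⁻¹ * B⁻¹ * A)⁻¹ * B⁻¹ * B⁻¹ = y at h1
  generalize A⁻¹ * B⁻¹ * A = z at h2
  refine ⟨x, y, z, .of_map inj (by rw [h0, h1]; exact hc _ _ (by simp)),
    .of_map inj (by rw [h0, h2]; exact hc _ _ (by simp)),
    .of_map inj (by rw [h1, h2]; exact hc _ _ (by simp)), fun i j k h => ?_⟩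
  have h3 := congrArg ρ h
  rw [map_mul, map_mul, map_zpow, map_zpow, map_zpow, h0, h1, h2, ← map_zpow, ← map_zpow,
    ← map_zpow, map_one] at h3
  have h4 := fun x => congrArg (fun g : Perm C => g x) h3
  refine ⟨az_inj (Equiv.ext fun w => ?_), az_inj (Equiv.ext fun w => ?_),
    az_inj (Equiv.ext fun w => ?_)⟩
  · simpa [sub, sub1_apply, -map_zpow] using h4 (cat [false] w)
  · simpa [sub, sub1_apply, -map_zpow] using h4 (cat [true, false] w)
  · simpa [sub, sub1_apply, -map_zpow] using h4 (cat [true, true] w)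

end Pool.Agent.H65.Thom
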