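import Pool.Agent.H65.Thom7

/-! A subgroup of Thompson's group `F` whose abelianisation has torsion. -/

namespace Pool.Agent.H65.Thom

open Equiv LaurentPolynomial
open scoped commutatorElement

noncomputable def ev4 : L →+* ZMod 4 := LaurentPolynomial.eval₂ (Int.castRingHom _) (-1)

theorem ev4_T (k : ℤ) {y : ZMod 4} (h : 2 * y = 0) : ev4 (T k) * y = y := by
  rw [ev4, eval₂_T]
  rcases Int.even_or_odd k with hk | hk
  · simp [hk.neg_one_zpow]
  · rw [hk.neg_one_zpow]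
    simp only [Units.val_neg, Units.val_one]
    linear_combination -h

theorem be_mul (P Q : L) (k l : ℤ) :
    be P * a ^ k * (be Q * a ^ l) = be (P + T k * Q) * a ^ (k + l) := by
  rw [be_add, ← be_conj, zpow_add]
  group

theorem be_uniq {P Q : L} {k l : ℤ} (h : be P * a ^ k = be Q * a ^ l) : P = Q := by
  have h1 := congrArg (fun g : Perm C => g (ph 0 (K false))) h
  simp only [Perm.mul_apply, az_ph, (be_dg _).2] at h1
  obtain rfl : k = l := by simpa using (ph_inj h1).1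
  exact be_inj (mul_right_cancel h)

def S4 : Subgroup (Perm C) where
  carrier := {g | ∃ (P : L) (k : ℤ), 2 * ev4 P = 0 ∧ g = be P * a ^ k}
  one_mem' := ⟨0, 0, by simp, by simp [be_zero]⟩
  mul_mem' := by
    rintro _ _ ⟨P, k, h, rfl⟩ ⟨Q, l, h', rfl⟩
    exact ⟨_, _, by rw [map_add, map_mul, ev4_T k h', mul_add, h, h', add_zero], be_mul P Q k l⟩
  inv_mem' := by
    rintro _ ⟨P, k, h, rfl⟩
    refine ⟨-(T (-k) * P), -k, by rw [map_neg, map_mul, ev4_T _ h, mul_neg, h, neg_zero], ?_⟩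
    rw [be_neg, ← be_conj]
    group

theorem exists_sub : ∃ (H : Subgroup ThompsonF) (ψ : H →* Multiplicative (ZMod 4)) (x : H),
    ψ x ≠ 1 ∧ x ^ 2 ∈ commutator H := by
  obtain ⟨ρ, hA, hB, inj⟩ := exists_rho
  generalize (PresentedGroup.of false : ThompsonF) = A at hA
  generalize (PresentedGroup.of true : ThompsonF) = B at hB
  obtain ⟨β, hβ⟩ : ∃ β, ρ β = b :=
    ⟨A * (B * (A⁻¹ * B⁻¹ * A)⁻¹ * B⁻¹ * B⁻¹) * A⁻¹, by rw [b_eq]; simp [hA, hB]⟩
  have H : ∀ h : S4.comap ρ, ∃ (P : L) (k : ℤ), 2 * ev4 P = 0 ∧ ρ h.1 = be P * a ^ k := fun h => h.2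
  choose P k h1 h2 using H
  have e1 : ρ (dl A⁻¹ β) = be (T 1 - 1) * a ^ (0 : ℤ) := by
    rw [map_dl, map_inv, hA, hβ, inv_inv, ← be_one, dl_be1]; simp
  have e2 : ev4 (T 1 - 1) = 2 := by simp [ev4, eval₂_T]; rfl
  have e3 : ρ (β ^ 2) = be 2 * a ^ (0 : ℤ) := by
    rw [map_pow, hβ, show (2 : L) = 1 + 1 by norm_num, be_add, be_one]; simp [sq]
  have hx : dl A⁻¹ β ∈ S4.comap ρ := ⟨_, _, by rw [e2]; rfl, e1⟩
  refine ⟨S4.comap ρ, MonoidHom.mk' (fun h => Multiplicative.ofAdd (ev4 (P h))) fun g h => ?_,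
    ⟨dl A⁻¹ β, hx⟩, fun h => ?_, ?_⟩
  · rw [be_uniq ((h2 (g * h)).symm.trans ((map_mul ρ g.1 h.1).trans (by rw [h2, h2, be_mul]))),
      map_add, map_mul, ev4_T _ (h1 h), ofAdd_add]
  · have := congrArg Multiplicative.toAdd h
    rw [MonoidHom.mk'_apply, toAdd_ofAdd, be_uniq ((h2 ⟨dl A⁻¹ β, hx⟩).symm.trans e1), e2] at this
    exact absurd this (by decide)
  · let u : S4.comap ρ := ⟨A⁻¹, 0, 1, by simp, by simp [hA, be_zero]⟩
    let v : S4.comap ρ := ⟨β ^ 2, _, _, by rw [map_ofNat]; rfl, e3⟩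
    refine (congrArg (· ∈ commutator _) (Subtype.ext (inj ?_))).mpr
      (Subgroup.commutator_mem_commutator (Subgroup.mem_top u) (Subgroup.mem_top v))
    change ρ (dl A⁻¹ β ^ 2) = ρ (dl A⁻¹ (β ^ 2))
    rw [map_pow, e1, map_dl, e3, map_inv, hA, inv_inv, zpow_zero, mul_one, mul_one, dl_be1, sq,
      ← be_add, mul_two]

end Pool.Agent.H65.Thom
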