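import Mathlib

set_option autoImplicit false

namespace Pool.Agent.H65.Tourn

def B : Matrix (Fin 10) (Fin 10) ℤ :=
  !![0, 1, -1, 1, 1, -1, 1, -1, -1, 1;
    -1, 0, -1, 1, -1, -1, 1, -1, 1, 1;
    1, 1, 0, 1, -1, 1, 1, 1, -1, -1;
    -1, -1, -1, 0, -1, 1, 1, 1, -1, -1;
    -1, 1, 1, 1, 0, 1, -1, 1, 1, 1;
    1, 1, -1, -1, -1, 0, -1, 1, 1, 1;
    -1, -1, -1, -1, 1, 1, 0, -1, 1, -1;
    1, 1, -1, -1, -1, -1, 1, 0, 1, -1;
    1, -1, 1, 1, -1, -1, -1, -1, 0, 1;
    -1, -1, 1, 1, -1, -1, 1, 1, -1, 0]

lemma core (x0 x1 x2 x3 x4 x5 x6 x7 x8 x9 : ℕ)
    (h035 : (x3 < x0 ∧ x5 < x3) ∨ (x5 < x3 ∧ x0 < x5) ∨ (x0 < x5 ∧ x3 < x0))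
    (h042 : (x4 < x0 ∧ x2 < x4) ∨ (x2 < x4 ∧ x0 < x2) ∨ (x0 < x2 ∧ x4 < x0))
    (h068 : (x6 < x0 ∧ x8 < x6) ∨ (x8 < x6 ∧ x0 < x8) ∨ (x0 < x8 ∧ x6 < x0))
    (h097 : (x9 < x0 ∧ x7 < x9) ∨ (x7 < x9 ∧ x0 < x7) ∨ (x0 < x7 ∧ x9 < x0))
    (h135 : (x3 < x1 ∧ x5 < x3) ∨ (x5 < x3 ∧ x1 < x5) ∨ (x1 < x5 ∧ x3 < x1))
    (h137 : (x3 < x1 ∧ x7 < x3) ∨ (x7 < x3 ∧ x1 < x7) ∨ (x1 < x7 ∧ x3 < x1))
    (h164 : (x6 < x1 ∧ x4 < x6) ∨ (x4 < x6 ∧ x1 < x4) ∨ (x1 < x4 ∧ x6 < x1))
    (h165 : (x6 < x1 ∧ x5 < x6) ∨ (x5 < x6 ∧ x1 < x5) ∨ (x1 < x5 ∧ x6 < x1))
    (h182 : (x8 < x1 ∧ x2 < x8) ∨ (x2 < x8 ∧ x1 < x2) ∨ (x1 < x2 ∧ x8 < x1))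
    (h192 : (x9 < x1 ∧ x2 < x9) ∨ (x2 < x9 ∧ x1 < x2) ∨ (x1 < x2 ∧ x9 < x1))
    (h197 : (x9 < x1 ∧ x7 < x9) ∨ (x7 < x9 ∧ x1 < x7) ∨ (x1 < x7 ∧ x9 < x1))
    (h258 : (x5 < x2 ∧ x8 < x5) ∨ (x8 < x5 ∧ x2 < x8) ∨ (x2 < x8 ∧ x5 < x2))
    (h259 : (x5 < x2 ∧ x9 < x5) ∨ (x9 < x5 ∧ x2 < x9) ∨ (x2 < x9 ∧ x5 < x2))
    (h268 : (x6 < x2 ∧ x8 < x6) ∨ (x8 < x6 ∧ x2 < x8) ∨ (x2 < x8 ∧ x6 < x2))
    (h358 : (x5 < x3 ∧ x8 < x5) ∨ (x8 < x5 ∧ x3 < x8) ∨ (x3 < x8 ∧ x5 < x3))
    (h378 : (x7 < x3 ∧ x8 < x7) ∨ (x8 < x7 ∧ x3 < x8) ∨ (x3 < x8 ∧ x7 < x3))
    (h596 : (x9 < x5 ∧ x6 < x9) ∨ (x6 < x9 ∧ x5 < x6) ∨ (x5 < x6 ∧ x9 < x5))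
    (h689 : (x8 < x6 ∧ x9 < x8) ∨ (x9 < x8 ∧ x6 < x9) ∨ (x6 < x9 ∧ x8 < x6))
    (h789 : (x8 < x7 ∧ x9 < x8) ∨ (x9 < x8 ∧ x7 < x9) ∨ (x7 < x9 ∧ x8 < x7)) : False := by
  rcases h035 with ⟨_, _⟩ | ⟨_, _⟩ | ⟨_, _⟩
  · rcases h135 with ⟨_, _⟩ | ⟨_, _⟩ | ⟨_, _⟩
    · rcases h165 with ⟨_, _⟩ | ⟨_, _⟩ | ⟨_, _⟩
      · rcases h137 with ⟨_, _⟩ | ⟨_, _⟩ | ⟨_, _⟩
        · rcases h097 with ⟨_, _⟩ | ⟨_, _⟩ | ⟨_, _⟩
          · rcases h197 with ⟨_, _⟩ | ⟨_, _⟩ | ⟨_, _⟩
            · rcases h192 with ⟨_, _⟩ | ⟨_, _⟩ | ⟨_, _⟩
              · rcases h042 with ⟨_, _⟩ | ⟨_, _⟩ | ⟨_, _⟩
                · rcases h182 with ⟨_, _⟩ | ⟨_, _⟩ | ⟨_, _⟩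
                  · rcases h258 with ⟨_, _⟩ | ⟨_, _⟩ | ⟨_, _⟩
                    · omega
                    · rcases h259 with ⟨_, _⟩ | ⟨_, _⟩ | ⟨_, _⟩
                      · omega
                      · rcases h378 with ⟨_, _⟩ | ⟨_, _⟩ | ⟨_, _⟩
                        · rcases h689 with ⟨_, _⟩ | ⟨_, _⟩ | ⟨_, _⟩
                          · omega
                          · omega
                          · omega
                        · omega
                        · omega
                      · omega
                    · rcases h358 with ⟨_, _⟩ | ⟨_, _⟩ | ⟨_, _⟩
                      · omega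
                      · omega
                      · rcases h596 with ⟨_, _⟩ | ⟨_, _⟩ | ⟨_, _⟩
                        · omega
                        · rcases h789 with ⟨_, _⟩ | ⟨_, _⟩ | ⟨_, _⟩
                          · omega
                          · rcases h068 with ⟨_, _⟩ | ⟨_, _⟩ | ⟨_, _⟩
                            · omega
                            · omega
                            · rcases h164 with ⟨_, _⟩ | ⟨_, _⟩ | ⟨_, _⟩
                              · rcases h268 with ⟨_, _⟩ | ⟨_, _⟩ | ⟨_, _⟩
                                · omega
                                · omega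
                                · omega
                              · omega
                              · omega
                          · omega
                        · omega
                  · omega
                  · omega
                · omega
                · omega
              · omega
              · rcases h259 with ⟨_, _⟩ | ⟨_, _⟩ | ⟨_, _⟩
                · rcases h689 with ⟨_, _⟩ | ⟨_, _⟩ | ⟨_, _⟩
                  · rcases h258 with ⟨_, _⟩ | ⟨_, _⟩ | ⟨_, _⟩
                    · rcases h378 with ⟨_, _⟩ | ⟨_, _⟩ | ⟨_, _⟩
                      · omega
                      · omega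
                      · omega
                    · omega
                    · omega
                  · omega
                  · omega
                · omega
                · omega
            · omega
            · omega
          · omega
          · omega
        · omega
        · rcases h378 with ⟨_, _⟩ | ⟨_, _⟩ | ⟨_, _⟩
          · omega
          · rcases h258 with ⟨_, _⟩ | ⟨_, _⟩ | ⟨_, _⟩
            · omega
            · omega
            · rcases h358 with ⟨_, _⟩ | ⟨_, _⟩ | ⟨_, _⟩
              · omega
              · omega
              · rcases h164 with ⟨_, _⟩ | ⟨_, _⟩ | ⟨_, _⟩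
                · rcases h268 with ⟨_, _⟩ | ⟨_, _⟩ | ⟨_, _⟩
                  · omega
                  · rcases h192 with ⟨_, _⟩ | ⟨_, _⟩ | ⟨_, _⟩
                    · rcases h596 with ⟨_, _⟩ | ⟨_, _⟩ | ⟨_, _⟩
                      · omega
                      · rcases h789 with ⟨_, _⟩ | ⟨_, _⟩ | ⟨_, _⟩
                        · omega
                        · omega
                        · omega
                      · omega
                    · omega
                    · omega
                  · rcases h042 with ⟨_, _⟩ | ⟨_, _⟩ | ⟨_, _⟩
                    · omega
                    · omega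
                    · rcases h689 with ⟨_, _⟩ | ⟨_, _⟩ | ⟨_, _⟩
                      · omega
                      · rcases h097 with ⟨_, _⟩ | ⟨_, _⟩ | ⟨_, _⟩
                        · omega
                        · omega
                        · rcases h259 with ⟨_, _⟩ | ⟨_, _⟩ | ⟨_, _⟩
                          · omega
                          · omega
                          · omega
                      · omega
                · omega
                · rcases h182 with ⟨_, _⟩ | ⟨_, _⟩ | ⟨_, _⟩
                  · rcases h192 with ⟨_, _⟩ | ⟨_, _⟩ | ⟨_, _⟩
                    · rcases h097 with ⟨_, _⟩ | ⟨_, _⟩ | ⟨_, _⟩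
                      · omega
                      · omega
                      · rcases h042 with ⟨_, _⟩ | ⟨_, _⟩ | ⟨_, _⟩
                        · rcases h068 with ⟨_, _⟩ | ⟨_, _⟩ | ⟨_, _⟩
                          · rcases h596 with ⟨_, _⟩ | ⟨_, _⟩ | ⟨_, _⟩
                            · omega
                            · rcases h789 with ⟨_, _⟩ | ⟨_, _⟩ | ⟨_, _⟩
                              · omega
                              · omega
                              · omega
                            · omega
                          · omega
                          · omega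
                        · omega
                        · omega
                    · omega
                    · omega
                  · rcases h689 with ⟨_, _⟩ | ⟨_, _⟩ | ⟨_, _⟩
                    · omega
                    · rcases h068 with ⟨_, _⟩ | ⟨_, _⟩ | ⟨_, _⟩
                      · omega
                      · omega
                      · rcases h197 with ⟨_, _⟩ | ⟨_, _⟩ | ⟨_, _⟩
                        · omega
                        · omega
                        · rcases h259 with ⟨_, _⟩ | ⟨_, _⟩ | ⟨_, _⟩
                          · omega
                          · omega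
                          · omega
                    · omega
                  · omega
          · omega
      · omega
      · omega
    · rcases h137 with ⟨_, _⟩ | ⟨_, _⟩ | ⟨_, _⟩
      · omega
      · rcases h097 with ⟨_, _⟩ | ⟨_, _⟩ | ⟨_, _⟩
        · rcases h192 with ⟨_, _⟩ | ⟨_, _⟩ | ⟨_, _⟩
          · omega
          · rcases h042 with ⟨_, _⟩ | ⟨_, _⟩ | ⟨_, _⟩
            · rcases h197 with ⟨_, _⟩ | ⟨_, _⟩ | ⟨_, _⟩
              · omega
              · rcases h378 with ⟨_, _⟩ | ⟨_, _⟩ | ⟨_, _⟩
                · rcases h689 with ⟨_, _⟩ | ⟨_, _⟩ | ⟨_, _⟩
                  · omega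
                  · omega
                  · rcases h358 with ⟨_, _⟩ | ⟨_, _⟩ | ⟨_, _⟩
                    · rcases h068 with ⟨_, _⟩ | ⟨_, _⟩ | ⟨_, _⟩
                      · rcases h789 with ⟨_, _⟩ | ⟨_, _⟩ | ⟨_, _⟩
                        · omega
                        · omega
                        · rcases h258 with ⟨_, _⟩ | ⟨_, _⟩ | ⟨_, _⟩
                          · rcases h268 with ⟨_, _⟩ | ⟨_, _⟩ | ⟨_, _⟩
                            · rcases h164 with ⟨_, _⟩ | ⟨_, _⟩ | ⟨_, _⟩
                              · omega
                              · omega
                              · rcases h596 with ⟨_, _⟩ | ⟨_, _⟩ | ⟨_, _⟩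
                                · omega
                                · omega
                                · omega
                            · omega
                            · omega
                          · rcases h259 with ⟨_, _⟩ | ⟨_, _⟩ | ⟨_, _⟩
                            · omega
                            · rcases h165 with ⟨_, _⟩ | ⟨_, _⟩ | ⟨_, _⟩
                              · omega
                              · omega
                              · omega
                            · omega
                          · omega
                      · omega
                      · omega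
                    · omega
                    · omega
                · omega
                · rcases h258 with ⟨_, _⟩ | ⟨_, _⟩ | ⟨_, _⟩
                  · omega
                  · omega
                  · rcases h596 with ⟨_, _⟩ | ⟨_, _⟩ | ⟨_, _⟩
                    · omega
                    · rcases h164 with ⟨_, _⟩ | ⟨_, _⟩ | ⟨_, _⟩
                      · omega
                      · rcases h268 with ⟨_, _⟩ | ⟨_, _⟩ | ⟨_, _⟩
                        · omega
                        · rcases h789 with ⟨_, _⟩ | ⟨_, _⟩ | ⟨_, _⟩
                          · omega
                          · omega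
                          · omega
                        · omega
                      · omega
                    · omega
              · omega
            · omega
            · omega
          · omega
        · omega
        · omega
      · omega
    · omega
  · rcases h135 with ⟨_, _⟩ | ⟨_, _⟩ | ⟨_, _⟩
    · rcases h165 with ⟨_, _⟩ | ⟨_, _⟩ | ⟨_, _⟩
      · rcases h068 with ⟨_, _⟩ | ⟨_, _⟩ | ⟨_, _⟩
        · omega
        · rcases h596 with ⟨_, _⟩ | ⟨_, _⟩ | ⟨_, _⟩
          · omega
          · rcases h259 with ⟨_, _⟩ | ⟨_, _⟩ | ⟨_, _⟩
            · omega
            · omega
            · rcases h789 with ⟨_, _⟩ | ⟨_, _⟩ | ⟨_, _⟩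
              · omega
              · omega
              · rcases h097 with ⟨_, _⟩ | ⟨_, _⟩ | ⟨_, _⟩
                · omega
                · rcases h689 with ⟨_, _⟩ | ⟨_, _⟩ | ⟨_, _⟩
                  · omega
                  · omega
                  · rcases h182 with ⟨_, _⟩ | ⟨_, _⟩ | ⟨_, _⟩
                    · rcases h358 with ⟨_, _⟩ | ⟨_, _⟩ | ⟨_, _⟩
                      · omega
                      · omega
                      · rcases h137 with ⟨_, _⟩ | ⟨_, _⟩ | ⟨_, _⟩
                        · omega
                        · omega
                        · rcases h192 with ⟨_, _⟩ | ⟨_, _⟩ | ⟨_, _⟩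
                          · omega
                          · omega
                          · omega
                    · omega
                    · rcases h197 with ⟨_, _⟩ | ⟨_, _⟩ | ⟨_, _⟩
                      · omega
                      · rcases h378 with ⟨_, _⟩ | ⟨_, _⟩ | ⟨_, _⟩
                        · omega
                        · rcases h258 with ⟨_, _⟩ | ⟨_, _⟩ | ⟨_, _⟩
                          · omega
                          · omega
                          · omega
                        · omega
                      · omega
                · omega
          · rcases h689 with ⟨_, _⟩ | ⟨_, _⟩ | ⟨_, _⟩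
            · rcases h192 with ⟨_, _⟩ | ⟨_, _⟩ | ⟨_, _⟩
              · rcases h258 with ⟨_, _⟩ | ⟨_, _⟩ | ⟨_, _⟩
                · omega
                · rcases h378 with ⟨_, _⟩ | ⟨_, _⟩ | ⟨_, _⟩
                  · rcases h197 with ⟨_, _⟩ | ⟨_, _⟩ | ⟨_, _⟩
                    · omega
                    · omega
                    · omega
                  · omega
                  · omega
                · omega
              · omega
              · rcases h258 with ⟨_, _⟩ | ⟨_, _⟩ | ⟨_, _⟩
                · rcases h378 with ⟨_, _⟩ | ⟨_, _⟩ | ⟨_, _⟩
                  · rcases h197 with ⟨_, _⟩ | ⟨_, _⟩ | ⟨_, _⟩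
                    · omega
                    · omega
                    · omega
                  · omega
                  · omega
                · omega
                · omega
            · omega
            · omega
        · omega
      · omega
      · omega
    · rcases h137 with ⟨_, _⟩ | ⟨_, _⟩ | ⟨_, _⟩
      · omega
      · rcases h165 with ⟨_, _⟩ | ⟨_, _⟩ | ⟨_, _⟩
        · omega
        · rcases h068 with ⟨_, _⟩ | ⟨_, _⟩ | ⟨_, _⟩
          · omega
          · rcases h164 with ⟨_, _⟩ | ⟨_, _⟩ | ⟨_, _⟩
            · omega
            · rcases h378 with ⟨_, _⟩ | ⟨_, _⟩ | ⟨_, _⟩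
              · rcases h358 with ⟨_, _⟩ | ⟨_, _⟩ | ⟨_, _⟩
                · rcases h268 with ⟨_, _⟩ | ⟨_, _⟩ | ⟨_, _⟩
                  · rcases h042 with ⟨_, _⟩ | ⟨_, _⟩ | ⟨_, _⟩
                    · omega
                    · omega
                    · rcases h182 with ⟨_, _⟩ | ⟨_, _⟩ | ⟨_, _⟩
                      · omega
                      · omega
                      · omega
                  · rcases h259 with ⟨_, _⟩ | ⟨_, _⟩ | ⟨_, _⟩
                    · omega
                    · rcases h689 with ⟨_, _⟩ | ⟨_, _⟩ | ⟨_, _⟩
                      · rcases h197 with ⟨_, _⟩ | ⟨_, _⟩ | ⟨_, _⟩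
                        · omega
                        · omega
                        · rcases h182 with ⟨_, _⟩ | ⟨_, _⟩ | ⟨_, _⟩
                          · rcases h042 with ⟨_, _⟩ | ⟨_, _⟩ | ⟨_, _⟩
                            · omega
                            · rcases h097 with ⟨_, _⟩ | ⟨_, _⟩ | ⟨_, _⟩
                              · omega
                              · omega
                              · omega
                            · omega
                          · omega
                          · omega
                      · omega
                      · omega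
                    · omega
                  · omega
                · omega
                · omega
              · omega
              · rcases h258 with ⟨_, _⟩ | ⟨_, _⟩ | ⟨_, _⟩
                · omega
                · omega
                · rcases h789 with ⟨_, _⟩ | ⟨_, _⟩ | ⟨_, _⟩
                  · omega
                  · rcases h596 with ⟨_, _⟩ | ⟨_, _⟩ | ⟨_, _⟩
                    · omega
                    · omega
                    · rcases h192 with ⟨_, _⟩ | ⟨_, _⟩ | ⟨_, _⟩
                      · omega
                      · omega
                      · omega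
                  · omega
            · omega
          · omega
        · rcases h596 with ⟨_, _⟩ | ⟨_, _⟩ | ⟨_, _⟩
          · rcases h259 with ⟨_, _⟩ | ⟨_, _⟩ | ⟨_, _⟩
            · rcases h192 with ⟨_, _⟩ | ⟨_, _⟩ | ⟨_, _⟩
              · omega
              · omega
              · rcases h789 with ⟨_, _⟩ | ⟨_, _⟩ | ⟨_, _⟩
                · rcases h268 with ⟨_, _⟩ | ⟨_, _⟩ | ⟨_, _⟩
                  · omega
                  · omega
                  · rcases h358 with ⟨_, _⟩ | ⟨_, _⟩ | ⟨_, _⟩
                    · omega
                    · omega
                    · omega
                · omega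
                · omega
            · rcases h258 with ⟨_, _⟩ | ⟨_, _⟩ | ⟨_, _⟩
              · omega
              · rcases h378 with ⟨_, _⟩ | ⟨_, _⟩ | ⟨_, _⟩
                · rcases h358 with ⟨_, _⟩ | ⟨_, _⟩ | ⟨_, _⟩
                  · rcases h192 with ⟨_, _⟩ | ⟨_, _⟩ | ⟨_, _⟩
                    · rcases h097 with ⟨_, _⟩ | ⟨_, _⟩ | ⟨_, _⟩
                      · omega
                      · omega
                      · rcases h042 with ⟨_, _⟩ | ⟨_, _⟩ | ⟨_, _⟩
                        · rcases h789 with ⟨_, _⟩ | ⟨_, _⟩ | ⟨_, _⟩
                          · rcases h068 with ⟨_, _⟩ | ⟨_, _⟩ | ⟨_, _⟩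
                            · omega
                            · omega
                            · rcases h182 with ⟨_, _⟩ | ⟨_, _⟩ | ⟨_, _⟩
                              · rcases h164 with ⟨_, _⟩ | ⟨_, _⟩ | ⟨_, _⟩
                                · rcases h268 with ⟨_, _⟩ | ⟨_, _⟩ | ⟨_, _⟩
                                  · omega
                                  · omega
                                  · omega
                                · omega
                                · omega
                              · omega
                              · omega
                          · omega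
                          · omega
                        · omega
                        · omega
                    · rcases h068 with ⟨_, _⟩ | ⟨_, _⟩ | ⟨_, _⟩
                      · omega
                      · omega
                      · rcases h197 with ⟨_, _⟩ | ⟨_, _⟩ | ⟨_, _⟩
                        · omega
                        · rcases h689 with ⟨_, _⟩ | ⟨_, _⟩ | ⟨_, _⟩
                          · omega
                          · omega
                          · omega
                        · omega
                    · omega
                  · omega
                  · omega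
                · omega
                · omega
              · omega
            · omega
          · omega
          · omega
      · omega
    · omega
  · rcases h135 with ⟨_, _⟩ | ⟨_, _⟩ | ⟨_, _⟩
    · omega
    · omega
    · rcases h358 with ⟨_, _⟩ | ⟨_, _⟩ | ⟨_, _⟩
      · omega
      · rcases h137 with ⟨_, _⟩ | ⟨_, _⟩ | ⟨_, _⟩
        · rcases h097 with ⟨_, _⟩ | ⟨_, _⟩ | ⟨_, _⟩
          · rcases h197 with ⟨_, _⟩ | ⟨_, _⟩ | ⟨_, _⟩
            · rcases h789 with ⟨_, _⟩ | ⟨_, _⟩ | ⟨_, _⟩
              · omega
              · rcases h378 with ⟨_, _⟩ | ⟨_, _⟩ | ⟨_, _⟩
                · omega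
                · omega
                · rcases h259 with ⟨_, _⟩ | ⟨_, _⟩ | ⟨_, _⟩
                  · rcases h268 with ⟨_, _⟩ | ⟨_, _⟩ | ⟨_, _⟩
                    · rcases h596 with ⟨_, _⟩ | ⟨_, _⟩ | ⟨_, _⟩
                      · omega
                      · omega
                      · rcases h164 with ⟨_, _⟩ | ⟨_, _⟩ | ⟨_, _⟩
                        · omega
                        · rcases h042 with ⟨_, _⟩ | ⟨_, _⟩ | ⟨_, _⟩
                          · omega
                          · omega
                          · rcases h068 with ⟨_, _⟩ | ⟨_, _⟩ | ⟨_, _⟩
                            · omega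
                            · rcases h182 with ⟨_, _⟩ | ⟨_, _⟩ | ⟨_, _⟩
                              · omega
                              · omega
                              · omega
                            · omega
                        · omega
                    · omega
                    · omega
                  · rcases h042 with ⟨_, _⟩ | ⟨_, _⟩ | ⟨_, _⟩
                    · rcases h182 with ⟨_, _⟩ | ⟨_, _⟩ | ⟨_, _⟩
                      · rcases h192 with ⟨_, _⟩ | ⟨_, _⟩ | ⟨_, _⟩
                        · rcases h258 with ⟨_, _⟩ | ⟨_, _⟩ | ⟨_, _⟩
                          · omega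
                          · rcases h268 with ⟨_, _⟩ | ⟨_, _⟩ | ⟨_, _⟩
                            · omega
                            · rcases h596 with ⟨_, _⟩ | ⟨_, _⟩ | ⟨_, _⟩
                              · omega
                              · omega
                              · rcases h164 with ⟨_, _⟩ | ⟨_, _⟩ | ⟨_, _⟩
                                · omega
                                · rcases h068 with ⟨_, _⟩ | ⟨_, _⟩ | ⟨_, _⟩
                                  · omega
                                  · omega
                                  · omega
                                · omega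
                            · rcases h164 with ⟨_, _⟩ | ⟨_, _⟩ | ⟨_, _⟩
                              · omega
                              · omega
                              · rcases h068 with ⟨_, _⟩ | ⟨_, _⟩ | ⟨_, _⟩
                                · omega
                                · omega
                                · omega
                          · omega
                        · omega
                        · omega
                      · omega
                      · omega
                    · omega
                    · omega
                  · omega
              · omega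
            · omega
            · omega
          · omega
          · omega
        · omega
        · rcases h378 with ⟨_, _⟩ | ⟨_, _⟩ | ⟨_, _⟩
          · omega
          · rcases h165 with ⟨_, _⟩ | ⟨_, _⟩ | ⟨_, _⟩
            · omega
            · rcases h164 with ⟨_, _⟩ | ⟨_, _⟩ | ⟨_, _⟩
              · omega
              · rcases h068 with ⟨_, _⟩ | ⟨_, _⟩ | ⟨_, _⟩
                · omega
                · rcases h097 with ⟨_, _⟩ | ⟨_, _⟩ | ⟨_, _⟩
                  · omega
                  · rcases h192 with ⟨_, _⟩ | ⟨_, _⟩ | ⟨_, _⟩
                    · omega
                    · rcases h689 with ⟨_, _⟩ | ⟨_, _⟩ | ⟨_, _⟩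
                      · omega
                      · omega
                      · rcases h259 with ⟨_, _⟩ | ⟨_, _⟩ | ⟨_, _⟩
                        · omega
                        · omega
                        · rcases h182 with ⟨_, _⟩ | ⟨_, _⟩ | ⟨_, _⟩
                          · omega
                          · omega
                          · rcases h042 with ⟨_, _⟩ | ⟨_, _⟩ | ⟨_, _⟩
                            · omega
                            · rcases h268 with ⟨_, _⟩ | ⟨_, _⟩ | ⟨_, _⟩
                              · omega
                              · omega
                              · omega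
                            · omega
                    · omega
                  · rcases h197 with ⟨_, _⟩ | ⟨_, _⟩ | ⟨_, _⟩
                    · omega
                    · omega
                    · rcases h596 with ⟨_, _⟩ | ⟨_, _⟩ | ⟨_, _⟩
                      · omega
                      · omega
                      · rcases h689 with ⟨_, _⟩ | ⟨_, _⟩ | ⟨_, _⟩
                        · rcases h789 with ⟨_, _⟩ | ⟨_, _⟩ | ⟨_, _⟩
                          · rcases h259 with ⟨_, _⟩ | ⟨_, _⟩ | ⟨_, _⟩
                            · rcases h182 with ⟨_, _⟩ | ⟨_, _⟩ | ⟨_, _⟩
                              · omega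
                              · omega
                              · rcases h042 with ⟨_, _⟩ | ⟨_, _⟩ | ⟨_, _⟩
                                · omega
                                · rcases h268 with ⟨_, _⟩ | ⟨_, _⟩ | ⟨_, _⟩
                                  · omega
                                  · omega
                                  · omega
                                · omega
                            · rcases h042 with ⟨_, _⟩ | ⟨_, _⟩ | ⟨_, _⟩
                              · rcases h182 with ⟨_, _⟩ | ⟨_, _⟩ | ⟨_, _⟩
                                · omega
                                · omega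
                                · omega
                              · omega
                              · omega
                            · omega
                          · omega
                          · omega
                        · omega
                        · omega
                · omega
              · omega
            · rcases h596 with ⟨_, _⟩ | ⟨_, _⟩ | ⟨_, _⟩
              · rcases h164 with ⟨_, _⟩ | ⟨_, _⟩ | ⟨_, _⟩
                · rcases h689 with ⟨_, _⟩ | ⟨_, _⟩ | ⟨_, _⟩
                  · omega
                  · rcases h268 with ⟨_, _⟩ | ⟨_, _⟩ | ⟨_, _⟩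
                    · omega
                    · omega
                    · rcases h042 with ⟨_, _⟩ | ⟨_, _⟩ | ⟨_, _⟩
                      · omega
                      · omega
                      · rcases h097 with ⟨_, _⟩ | ⟨_, _⟩ | ⟨_, _⟩
                        · omega
                        · omega
                        · rcases h259 with ⟨_, _⟩ | ⟨_, _⟩ | ⟨_, _⟩
                          · omega
                          · omega
                          · omega
                  · rcases h789 with ⟨_, _⟩ | ⟨_, _⟩ | ⟨_, _⟩
                    · omega
                    · omega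
                    · rcases h192 with ⟨_, _⟩ | ⟨_, _⟩ | ⟨_, _⟩
                      · omega
                      · rcases h258 with ⟨_, _⟩ | ⟨_, _⟩ | ⟨_, _⟩
                        · omega
                        · omega
                        · omega
                      · omega
                · omega
                · rcases h197 with ⟨_, _⟩ | ⟨_, _⟩ | ⟨_, _⟩
                  · omega
                  · rcases h192 with ⟨_, _⟩ | ⟨_, _⟩ | ⟨_, _⟩
                    · omega
                    · rcases h689 with ⟨_, _⟩ | ⟨_, _⟩ | ⟨_, _⟩
                      · omega
                      · omega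
                      · rcases h258 with ⟨_, _⟩ | ⟨_, _⟩ | ⟨_, _⟩
                        · omega
                        · omega
                        · omega
                    · omega
                  · rcases h097 with ⟨_, _⟩ | ⟨_, _⟩ | ⟨_, _⟩
                    · omega
                    · omega
                    · rcases h789 with ⟨_, _⟩ | ⟨_, _⟩ | ⟨_, _⟩
                      · rcases h268 with ⟨_, _⟩ | ⟨_, _⟩ | ⟨_, _⟩
                        · omega
                        · omega
                        · rcases h259 with ⟨_, _⟩ | ⟨_, _⟩ | ⟨_, _⟩
                          · omega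
                          · rcases h042 with ⟨_, _⟩ | ⟨_, _⟩ | ⟨_, _⟩
                            · rcases h068 with ⟨_, _⟩ | ⟨_, _⟩ | ⟨_, _⟩
                              · omega
                              · omega
                              · rcases h182 with ⟨_, _⟩ | ⟨_, _⟩ | ⟨_, _⟩
                                · omega
                                · omega
                                · omega
                            · omega
                            · omega
                          · omega
                      · omega
                      · omega
              · omega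
              · omega
          · omega
      · omega

open Classical in
theorem main : ∃ (n : ℕ) (B : Matrix (Fin n) (Fin n) ℤ), 1 ≤ n ∧
    (∃ d : Fin n → ℤ, (∀ i, 0 < d i) ∧ (B * Matrix.diagonal d).transpose = -(B * Matrix.diagonal d)) ∧
    ∀ r : Fin n → Fin n → Prop, IsStrictTotalOrder (Fin n) r →
      ∀ A : Matrix (Fin n) (Fin n) ℤ,
        (∀ i j, r i j → A i j = B i j) → (∀ i, A i i = 2) → (∀ i j, r j i → A i j = - B i j) →
        ∃ (m : ℕ) (c : Fin (m + 3) → Fin n), Function.Injective c ∧
          (∀ j k, j ≠ k → (B (c j) (c k) ≠ 0 ↔ j = k + 1 ∨ k = j + 1)) ∧
          ((∀ j, 0 < B (c j) (c (j + 1))) ∨ (∀ j, B (c j) (c (j + 1)) < 0)) ∧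
          Even (Finset.univ.filter fun j => 0 < A (c j) (c (j + 1))).card := by
  refine ⟨10, B, by norm_num, ⟨fun _ => 1, by simp, by decide⟩, fun r hr A h1 _ h3 => ?_⟩
  by_contra hc
  push Not at hc
  let σ : Fin 10 → ℕ := fun i => (Finset.univ.filter fun j => r j i).card
  have hσ : ∀ i j, r i j → σ i < σ j := by
    intro i j h
    apply Finset.card_lt_card
    refine ⟨fun k hk => ?_, fun hh => ?_⟩
    · simp only [Finset.mem_filter, Finset.mem_univ, true_and] at hk ⊢
      exact _root_.trans hk h
    · have := hh (show i ∈ _ by simpa using h)
      simp only [Finset.mem_filter, Finset.mem_univ, true_and] at this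
      exact irrefl_of r i this
  have key : ∀ i j k : Fin 10, B i j = 1 → B j k = 1 → B k i = 1 →
      (σ j < σ i ∧ σ k < σ j) ∨ (σ k < σ j ∧ σ i < σ k) ∨ (σ i < σ k ∧ σ j < σ i) := by
    intro i j k b1 b2 b3
    have sk : ∀ i j, B j i = - B i j := by decide
    have ne : ∀ i j, B i j = 1 → r i j ∨ r j i := by
      intro i j h
      rcases trichotomous_of r i j with e | e | e
      · exact Or.inl e
      · subst e; have := sk i i; omega
      · exact Or.inr e
    have ne' : ∀ i j, B i j = 1 → i ≠ j := by
      rintro i j h rfl; have := sk i i; omega
    have := hc 0 ![i, j, k] (by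
        have := ne' _ _ b1; have := ne' _ _ b2; have := ne' _ _ b3
        intro a b; fin_cases a <;> fin_cases b <;> simp <;> tauto)
      (by
        intro a b
        fin_cases a <;> fin_cases b <;> simp [b1, b2, b3, sk i j, sk j k, sk k i] <;> decide)
      (Or.inl (by intro a; fin_cases a <;> simp [b1, b2, b3]))
    rw [Finset.card_filter, Fin.sum_univ_three] at this
    have e1 : (0 : Fin 3) + 1 = 1 := rfl
    have e2 : (1 : Fin 3) + 1 = 2 := rfl
    have e3 : (2 : Fin 3) + 1 = 0 := rfl
    simp only [e1, e2, e3, Matrix.cons_val] at this
    rcases ne _ _ b1 with p | p <;> rcases ne _ _ b2 with q | q <;> rcases ne _ _ b3 with s | s <;>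
      have p' := hσ _ _ p <;> have q' := hσ _ _ q <;> have s' := hσ _ _ s <;>
      first
        | omega
        | (exfalso; apply this
           simp [h1 _ _ p, h1 _ _ q, h3 _ _ s, b1, b2, b3]; done)
        | (exfalso; apply this
           simp [h1 _ _ p, h3 _ _ q, h1 _ _ s, b1, b2, b3]; done)
        | (exfalso; apply this
           simp [h3 _ _ p, h1 _ _ q, h1 _ _ s, b1, b2, b3]; done)
  exact core (σ 0) (σ 1) (σ 2) (σ 3) (σ 4) (σ 5) (σ 6) (σ 7) (σ 8) (σ 9)
    (key 0 3 5 rfl rfl rfl)
    (key 0 4 2 rfl rfl rfl)
    (key 0 6 8 rfl rfl rfl)
    (key 0 9 7 rfl rfl rfl)
    (key 1 3 5 rfl rfl rfl)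
    (key 1 3 7 rfl rfl rfl)
    (key 1 6 4 rfl rfl rfl)
    (key 1 6 5 rfl rfl rfl)
    (key 1 8 2 rfl rfl rfl)
    (key 1 9 2 rfl rfl rfl)
    (key 1 9 7 rfl rfl rfl)
    (key 2 5 8 rfl rfl rfl)
    (key 2 5 9 rfl rfl rfl)
    (key 2 6 8 rfl rfl rfl)
    (key 3 5 8 rfl rfl rfl)
    (key 3 7 8 rfl rfl rfl)
    (key 5 9 6 rfl rfl rfl)
    (key 6 8 9 rfl rfl rfl)
    (key 7 8 9 rfl rfl rfl)

end Pool.Agent.H65.Tourn
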