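import Mathlib

set_option autoImplicit false

namespace Pool.Agent.H65.TwoSortDefs

/-- Terms of sort 1: the language of `R`-modules. -/
inductive T1 (R : Type) : Type
  | var : ℕ → T1 R
  | zero : T1 R
  | add : T1 R → T1 R → T1 R
  | neg : T1 R → T1 R
  | smul : R → T1 R → T1 R

/-- Terms of sort 2: the language of `S`-modules together with operation symbols `i : ι` of
arity `ar i` from sort 1 to sort 2. -/
inductive T2 (R S ι : Type) (ar : ι → ℕ) : Type
  | var : ℕ → T2 R S ι ar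
  | zero : T2 R S ι ar
  | add : T2 R S ι ar → T2 R S ι ar → T2 R S ι ar
  | neg : T2 R S ι ar → T2 R S ι ar
  | smul : S → T2 R S ι ar → T2 R S ι ar
  | app : (i : ι) → (Fin (ar i) → T1 R) → T2 R S ι ar

variable {R S ι : Type} {ar : ι → ℕ}

def T1.subst (σ : ℕ → T1 R) : T1 R → T1 R
  | var n => σ n
  | zero => zero
  | add s t => add (s.subst σ) (t.subst σ)
  | neg t => neg (t.subst σ)
  | smul r t => smul r (t.subst σ)

def T2.subst (σ : ℕ → T1 R) (τ : ℕ → T2 R S ι ar) : T2 R S ι ar → T2 R S ι ar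
  | var n => τ n
  | zero => zero
  | add s t => add (s.subst σ τ) (t.subst σ τ)
  | neg t => neg (t.subst σ τ)
  | smul r t => smul r (t.subst σ τ)
  | app i x => app i fun a => (x a).subst σ

def T1.eval [Ring R] {A : Type} [AddCommGroup A] [Module R A] (ρ : ℕ → A) : T1 R → A
  | var n => ρ n
  | zero => 0
  | add s t => s.eval ρ + t.eval ρ
  | neg t => - t.eval ρ
  | smul r t => r • t.eval ρ

def T2.eval [Ring R] [Ring S] {A B : Type} [AddCommGroup A] [Module R A] [AddCommGroup B]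
    [Module S B] (F : ∀ i, (Fin (ar i) → A) → B) (ρ : ℕ → A) (η : ℕ → B) : T2 R S ι ar → B
  | var n => η n
  | zero => 0
  | add s t => s.eval F ρ η + t.eval F ρ η
  | neg t => - t.eval F ρ η
  | smul r t => r • t.eval F ρ η
  | app i x => F i fun a => (x a).eval ρ

/-- Equational logic, sort 1. -/
inductive Der1 (E1 : Set (T1 R × T1 R)) : T1 R → T1 R → Prop
  | ax {s t} : (s, t) ∈ E1 → Der1 E1 s t
  | refl (t) : Der1 E1 t t
  | symm {s t} : Der1 E1 s t → Der1 E1 t s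
  | trans {s t u} : Der1 E1 s t → Der1 E1 t u → Der1 E1 s u
  | subst (σ) {s t} : Der1 E1 s t → Der1 E1 (s.subst σ) (t.subst σ)
  | add {s s' t t'} : Der1 E1 s s' → Der1 E1 t t' → Der1 E1 (.add s t) (.add s' t')
  | neg {t t'} : Der1 E1 t t' → Der1 E1 (.neg t) (.neg t')
  | smul (r) {t t'} : Der1 E1 t t' → Der1 E1 (.smul r t) (.smul r t')

/-- Equational logic, sort 2. -/
inductive Der2 (E1 : Set (T1 R × T1 R)) (E2 : Set (T2 R S ι ar × T2 R S ι ar)) :
    T2 R S ι ar → T2 R S ι ar → Prop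
  | ax {s t} : (s, t) ∈ E2 → Der2 E1 E2 s t
  | refl (t) : Der2 E1 E2 t t
  | symm {s t} : Der2 E1 E2 s t → Der2 E1 E2 t s
  | trans {s t u} : Der2 E1 E2 s t → Der2 E1 E2 t u → Der2 E1 E2 s u
  | subst (σ τ) {s t} : Der2 E1 E2 s t → Der2 E1 E2 (s.subst σ τ) (t.subst σ τ)
  | add {s s' t t'} : Der2 E1 E2 s s' → Der2 E1 E2 t t' → Der2 E1 E2 (.add s t) (.add s' t')
  | neg {t t'} : Der2 E1 E2 t t' → Der2 E1 E2 (.neg t) (.neg t')
  | smul (r) {t t'} : Der2 E1 E2 t t' → Der2 E1 E2 (.smul r t) (.smul r t')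
  | app (i) {x x'} : (∀ a, Der1 E1 (x a) (x' a)) → Der2 E1 E2 (.app i x) (.app i x')

end Pool.Agent.H65.TwoSortDefs
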