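import Pool.Agent.H65.WordNoeth
import Pool.Agent.H65.TwoSortDefs

set_option autoImplicit false

namespace Pool.Agent.H65.TwoSort
open WordNoeth TwoSortDefs

theorem fg {S B : Type*} [Finite S] [Finite B] [AddCommGroup B] (I : Fam S B) :
    ∃ N, ∀ J : Fam S B, Push J → (∀ k ≤ N, I k ≤ J k) → I ≤ J := by
  have w2 : WellFounded fun C D : {C : Fam S B // Push C} => D.1 < C.1 := by
    rw [wellFounded_iff_isEmpty_descending_chain]
    refine ⟨fun ⟨f, hf⟩ => ?_⟩
    obtain ⟨k, hk⟩ := acc (fun k => (f k).1) (fun k => (f k).2)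
      (monotone_nat_of_le_succ fun k => (hf k).le)
    exact (hf k).not_ge hk
  let K : ℕ → {C : Fam S B // Push C} := fun N =>
    ⟨fun n => ⨅ (J : Fam S B) (_ : Push J) (_ : ∀ k ≤ N, I k ≤ J k), J n, by
      intro l k π hπ c hc
      simp only [AddSubgroup.mem_iInf] at hc ⊢
      exact fun J h1 h2 => h1 l k π hπ c (hc J h1 h2)⟩
  obtain ⟨_, ⟨N, rfl⟩, hN⟩ := w2.has_min (Set.range K) (Set.range_nonempty _)
  refine ⟨N, fun J h1 h2 k c hc => ?_⟩
  have m : (K N).1 ≤ (K (max N k)).1 := by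
    intro n c hc
    simp only [K, AddSubgroup.mem_iInf] at hc ⊢
    exact fun J h1 h2 => hc J h1 fun k hk => h2 k (le_max_of_le_left hk)
  have e := (m.lt_or_eq.resolve_left (hN _ ⟨_, rfl⟩))
  have : c ∈ (K N).1 k := by
    rw [e]
    simp only [K, AddSubgroup.mem_iInf]
    exact fun J _ h2 => h2 k (le_max_right _ _) hc
  simp only [K, AddSubgroup.mem_iInf] at this
  exact this J h1 h2

variable {R S ι : Type} {ar : ι → ℕ} [Ring R] [Ring S]

section ax
open T1 in
def ax1 (R : Type) [Ring R] : Set (T1 R × T1 R) :=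
  {(add (add (var 0) (var 1)) (var 2), add (var 0) (add (var 1) (var 2))),
    (add (var 0) (var 1), add (var 1) (var 0)), (add zero (var 0), var 0),
    (add (neg (var 0)) (var 0), zero), (smul 1 (var 0), var 0)} ∪
  Set.range (fun r : R => (smul r (add (var 0) (var 1)), add (smul r (var 0)) (smul r (var 1)))) ∪
  Set.range (fun r : R × R => (smul (r.1 + r.2) (var 0), add (smul r.1 (var 0)) (smul r.2 (var 0)))) ∪
  Set.range (fun r : R × R => (smul (r.1 * r.2) (var 0), smul r.1 (smul r.2 (var 0))))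

open T2 in
def ax2 (R S ι : Type) (ar : ι → ℕ) [Ring S] : Set (T2 R S ι ar × T2 R S ι ar) :=
  {(add (add (var 0) (var 1)) (var 2), add (var 0) (add (var 1) (var 2))),
    (add (var 0) (var 1), add (var 1) (var 0)), (add zero (var 0), var 0),
    (add (neg (var 0)) (var 0), zero), (smul 1 (var 0), var 0)} ∪
  Set.range (fun r : S => (smul r (add (var 0) (var 1)), add (smul r (var 0)) (smul r (var 1)))) ∪
  Set.range (fun r : S × S => (smul (r.1 + r.2) (var 0), add (smul r.1 (var 0)) (smul r.2 (var 0)))) ∪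
  Set.range (fun r : S × S => (smul (r.1 * r.2) (var 0), smul r.1 (smul r.2 (var 0))))
end ax

def s1 (X : Set (T1 R × T1 R)) : Setoid (T1 R) :=
  ⟨Der1 (ax1 R ∪ X), .refl, .symm, .trans⟩
def s2 (X : Set (T1 R × T1 R)) (Y : Set (T2 R S ι ar × T2 R S ι ar)) : Setoid (T2 R S ι ar) :=
  ⟨Der2 (ax1 R ∪ X) (ax2 R S ι ar ∪ Y), .refl, .symm, .trans⟩

def Q1 (X : Set (T1 R × T1 R)) := Quotient (s1 X)
def Q2 (X : Set (T1 R × T1 R)) (Y : Set (T2 R S ι ar × T2 R S ι ar)) := Quotient (s2 X Y)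

variable (X : Set (T1 R × T1 R)) (Y : Set (T2 R S ι ar × T2 R S ι ar))

def m1 (t : T1 R) : Q1 X := Quotient.mk _ t
def m2 (t : T2 R S ι ar) : Q2 X Y := Quotient.mk _ t

lemma i1 {s t : T1 R} (h : (s, t) ∈ ax1 R ∪ X) (a b c : T1 R) :
    m1 X (s.subst fun n => [a, b].getD n c) = m1 X (t.subst fun n => [a, b].getD n c) :=
  Quotient.sound (Der1.subst _ (.ax h))
lemma i2 {s t : T2 R S ι ar} (h : (s, t) ∈ ax2 R S ι ar ∪ Y) (a b c : T2 R S ι ar) :
    m2 X Y (s.subst .var fun n => [a, b].getD n c) = m2 X Y (t.subst .var fun n => [a, b].getD n c) :=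
  Quotient.sound (Der2.subst _ _ (.ax h))

instance : Add (Q1 X) := ⟨Quotient.map₂ .add fun _ _ h _ _ k => Der1.add h k⟩
instance : Neg (Q1 X) := ⟨Quotient.map .neg fun _ _ h => Der1.neg h⟩
instance : Zero (Q1 X) := ⟨m1 X .zero⟩
instance : SMul R (Q1 X) := ⟨fun r => Quotient.map (.smul r) fun _ _ h => Der1.smul r h⟩
instance : Add (Q2 X Y) := ⟨Quotient.map₂ .add fun _ _ h _ _ k => Der2.add h k⟩
instance : Neg (Q2 X Y) := ⟨Quotient.map .neg fun _ _ h => Der2.neg h⟩
instance : Zero (Q2 X Y) := ⟨m2 X Y .zero⟩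
instance : SMul S (Q2 X Y) := ⟨fun r => Quotient.map (.smul r) fun _ _ h => Der2.smul r h⟩

instance : AddCommGroup (Q1 X) :=
  { AddGroup.ofLeftAxioms (G := Q1 X)
      (by rintro ⟨a⟩ ⟨b⟩ ⟨c⟩
          exact i1 X (s := .add (.add (.var 0) (.var 1)) (.var 2))
            (t := .add (.var 0) (.add (.var 1) (.var 2))) (by simp [ax1]) a b c)
      (by rintro ⟨a⟩; exact i1 X (s := .add .zero (.var 0)) (t := .var 0) (by simp [ax1]) a a a)
      (by rintro ⟨a⟩
          exact i1 X (s := .add (.neg (.var 0)) (.var 0)) (t := .zero) (by simp [ax1]) a a a) with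
    add_comm := by
      rintro ⟨a⟩ ⟨b⟩
      exact i1 X (s := .add (.var 0) (.var 1)) (t := .add (.var 1) (.var 0)) (by simp [ax1]) a b a }

instance : AddCommGroup (Q2 X Y) :=
  { AddGroup.ofLeftAxioms (G := Q2 X Y)
      (by rintro ⟨a⟩ ⟨b⟩ ⟨c⟩
          exact i2 X Y (s := .add (.add (.var 0) (.var 1)) (.var 2))
            (t := .add (.var 0) (.add (.var 1) (.var 2))) (by simp [ax2]) a b c)
      (by rintro ⟨a⟩; exact i2 X Y (s := .add .zero (.var 0)) (t := .var 0) (by simp [ax2]) a a a)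
      (by rintro ⟨a⟩
          exact i2 X Y (s := .add (.neg (.var 0)) (.var 0)) (t := .zero) (by simp [ax2]) a a a) with
    add_comm := by
      rintro ⟨a⟩ ⟨b⟩
      exact i2 X Y (s := .add (.var 0) (.var 1)) (t := .add (.var 1) (.var 0)) (by simp [ax2]) a b a }

instance : Module R (Q1 X) := Module.ofMinimalAxioms
  (by rintro r ⟨a⟩ ⟨b⟩; exact i1 X (Or.inl (Or.inl (Or.inl (Or.inr ⟨r, rfl⟩)))) a b a)
  (by rintro r s ⟨a⟩; exact i1 X (Or.inl (Or.inl (Or.inr ⟨(r, s), rfl⟩))) a a a)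
  (by rintro r s ⟨a⟩; exact i1 X (Or.inl (Or.inr ⟨(r, s), rfl⟩)) a a a)
  (by rintro ⟨a⟩; exact i1 X (s := .smul 1 (.var 0)) (t := .var 0) (by simp [ax1]) a a a)

instance : Module S (Q2 X Y) := Module.ofMinimalAxioms
  (by rintro r ⟨a⟩ ⟨b⟩; exact i2 X Y (Or.inl (Or.inl (Or.inl (Or.inr ⟨r, rfl⟩)))) a b a)
  (by rintro r s ⟨a⟩; exact i2 X Y (Or.inl (Or.inl (Or.inr ⟨(r, s), rfl⟩))) a a a)
  (by rintro r s ⟨a⟩; exact i2 X Y (Or.inl (Or.inr ⟨(r, s), rfl⟩)) a a a)
  (by rintro ⟨a⟩; exact i2 X Y (s := .smul 1 (.var 0)) (t := .var 0) (by simp [ax2]) a a a)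

noncomputable def GQ (i : ι) (x : Fin (ar i) → Q1 X) : Q2 X Y :=
  m2 X Y (.app i fun a => (x a).out)

lemma GQ_mk (i : ι) (x : Fin (ar i) → T1 R) : GQ X Y i (fun a => m1 X (x a)) = m2 X Y (.app i x) :=
  Quotient.sound (Der2.app i fun a => Quotient.mk_out (s := s1 X) (x a))

lemma ev1 (σ : ℕ → T1 R) (t : T1 R) : t.eval (fun n => m1 X (σ n)) = m1 X (t.subst σ) := by
  induction t with
  | var n => rfl
  | zero => rfl
  | add s t h1 h2 => rw [T1.eval, h1, h2]; rfl
  | neg t h => rw [T1.eval, h]; rfl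
  | smul r t h => rw [T1.eval, h]; rfl

lemma ev2 (σ : ℕ → T1 R) (τ : ℕ → T2 R S ι ar) (t : T2 R S ι ar) :
    t.eval (GQ X Y) (fun n => m1 X (σ n)) (fun n => m2 X Y (τ n)) = m2 X Y (t.subst σ τ) := by
  induction t with
  | var n => rfl
  | zero => rfl
  | add s t h1 h2 => rw [T2.eval, h1, h2]; rfl
  | neg t h => rw [T2.eval, h]; rfl
  | smul r t h => rw [T2.eval, h]; rfl
  | app i x => rw [T2.eval]; simp only [ev1]; exact GQ_mk X Y i _

omit [Ring R] in
lemma sv1 (t : T1 R) : t.subst .var = t := by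
  induction t <;> simp_all [T1.subst]
omit [Ring R] [Ring S] in
lemma sv2 (t : T2 R S ι ar) : t.subst .var .var = t := by
  induction t <;> simp_all [T2.subst, sv1]

lemma nf1 (t : T1 R) : ∃ k0, ∀ k ≥ k0, ∃ r : Fin k → R, ∀ (A : Type) [AddCommGroup A] [Module R A]
    (ρ : ℕ → A), t.eval ρ = ∑ j, r j • ρ j := by
  induction t with
  | var n =>
    refine ⟨n + 1, fun k hk => ⟨Pi.single ⟨n, hk⟩ 1, fun A _ _ ρ => ?_⟩⟩
    simp [T1.eval, Pi.single_apply]
  | zero => exact ⟨0, fun k _ => ⟨0, fun A _ _ ρ => by simp [T1.eval]⟩⟩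
  | add s t h1 h2 =>
    obtain ⟨k1, h1⟩ := h1
    obtain ⟨k2, h2⟩ := h2
    refine ⟨max k1 k2, fun k hk => ?_⟩
    obtain ⟨r1, h1⟩ := h1 k (le_of_max_le_left hk)
    obtain ⟨r2, h2⟩ := h2 k (le_of_max_le_right hk)
    exact ⟨r1 + r2, fun A _ _ ρ => by simp [T1.eval, h1, h2, add_smul, Finset.sum_add_distrib]⟩
  | neg t h =>
    obtain ⟨k1, h1⟩ := h
    refine ⟨k1, fun k hk => ?_⟩
    obtain ⟨r1, h1⟩ := h1 k hk
    exact ⟨-r1, fun A _ _ ρ => by simp [T1.eval, h1]⟩
  | smul r t h =>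
    obtain ⟨k1, h1⟩ := h
    refine ⟨k1, fun k hk => ?_⟩
    obtain ⟨r1, h1⟩ := h1 k hk
    exact ⟨r • r1, fun A _ _ ρ => by simp [T1.eval, h1, Finset.smul_sum, mul_smul]⟩

variable [Fintype R] [Fintype ι] [DecidableEq ι]

def val {A B : Type} [AddCommGroup A] [Module R A] [AddCommGroup B] [Module S B]
    (F : ∀ i, (Fin (ar i) → A) → B) {k : ℕ} (c : (Fin k → ∀ i, Fin (ar i) → R) → ι → S)
    (ρ : Fin k → A) : B := ∑ w, ∑ i, c w i • F i fun a => ∑ j, w j i a • ρ j

lemma nf2 (t : T2 R S ι ar) : ∃ k0, ∀ k ≥ k0, ∃ (e : Fin k → S)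
    (c : (Fin k → ∀ i, Fin (ar i) → R) → ι → S), ∀ (A B : Type) [AddCommGroup A] [Module R A]
    [AddCommGroup B] [Module S B] (F : ∀ i, (Fin (ar i) → A) → B) (ρ : ℕ → A) (η : ℕ → B),
    t.eval F ρ η = ∑ j, e j • η j + val F c fun j => ρ j := by
  classical
  induction t with
  | var n =>
    refine ⟨n + 1, fun k hk => ⟨Pi.single ⟨n, hk⟩ 1, 0, fun A B _ _ _ _ F ρ η => ?_⟩⟩
    simp [T2.eval, Pi.single_apply, val]
  | zero => exact ⟨0, fun k _ => ⟨0, 0, fun A B _ _ _ _ F ρ η => by simp [T2.eval, val]⟩⟩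
  | add s t h1 h2 =>
    obtain ⟨k1, h1⟩ := h1
    obtain ⟨k2, h2⟩ := h2
    refine ⟨max k1 k2, fun k hk => ?_⟩
    obtain ⟨r1, c1, h1⟩ := h1 k (le_of_max_le_left hk)
    obtain ⟨r2, c2, h2⟩ := h2 k (le_of_max_le_right hk)
    refine ⟨r1 + r2, c1 + c2, fun A B _ _ _ _ F ρ η => ?_⟩
    simp only [T2.eval, h1, h2, add_smul, Finset.sum_add_distrib, val, Pi.add_apply]
    abel
  | neg t h =>
    obtain ⟨k1, h1⟩ := h
    refine ⟨k1, fun k hk => ?_⟩
    obtain ⟨r1, c1, h1⟩ := h1 k hk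
    exact ⟨-r1, -c1, fun A B _ _ _ _ F ρ η => by simp [T2.eval, h1, val, add_comm]⟩
  | smul r t h =>
    obtain ⟨k1, h1⟩ := h
    refine ⟨k1, fun k hk => ?_⟩
    obtain ⟨r1, c1, h1⟩ := h1 k hk
    exact ⟨r • r1, r • c1, fun A B _ _ _ _ F ρ η => by
      simp [T2.eval, h1, Finset.smul_sum, mul_smul, val]⟩
  | app i x =>
    choose k0 h using fun a => nf1 (x a)
    refine ⟨Finset.univ.sup k0, fun k hk => ?_⟩
    choose r hr using fun a => h a k ((Finset.le_sup (Finset.mem_univ a)).trans hk)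
    refine ⟨0, Pi.single (fun j => Pi.single i fun a => r a j) (Pi.single i 1),
      fun A B _ _ _ _ F ρ η => ?_⟩
    rw [val, Finset.sum_eq_single (fun j => Pi.single i fun a => r a j)
      (fun w _ h => by simp [Pi.single_eq_of_ne h]) (by simp),
      Finset.sum_eq_single i (fun w _ h => by simp [Pi.single_eq_of_ne h]) (by simp)]
    simp [T2.eval, hr]

lemma term (k : ℕ) (c : (Fin k → ∀ i, Fin (ar i) → R) → ι → S) : ∃ t : T2 R S ι ar,
    ∀ (A B : Type) [AddCommGroup A] [Module R A]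
    [AddCommGroup B] [Module S B] (F : ∀ i, (Fin (ar i) → A) → B) (ρ : ℕ → A) (η : ℕ → B),
    t.eval F ρ η = val F c fun j => ρ j := by
  have h1 : ∀ (r : Fin k → R) (s : Finset (Fin k)), ∃ t : T1 R, ∀ (A : Type) [AddCommGroup A]
      [Module R A] (ρ : ℕ → A), t.eval ρ = ∑ j ∈ s, r j • ρ j := by
    intro r s
    induction s using Finset.cons_induction with
    | empty => exact ⟨.zero, fun _ _ _ _ => rfl⟩
    | cons j s hj ih =>
      obtain ⟨t, ht⟩ := ih
      exact ⟨.add (.smul (r j) (.var j)) t, fun _ _ _ _ => by rw [Finset.sum_cons, ← ht]; rfl⟩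
  choose u hu using fun r => h1 r Finset.univ
  have h2 : ∀ (s : Finset ((Fin k → ∀ i, Fin (ar i) → R) × ι)), ∃ t : T2 R S ι ar,
      ∀ (A B : Type) [AddCommGroup A] [Module R A]
      [AddCommGroup B] [Module S B] (F : ∀ i, (Fin (ar i) → A) → B) (ρ : ℕ → A) (η : ℕ → B),
      t.eval F ρ η = ∑ p ∈ s, c p.1 p.2 • F p.2 fun a => ∑ j, p.1 j p.2 a • ρ j := by
    intro s
    induction s using Finset.cons_induction with
    | empty => exact ⟨.zero, fun _ _ _ _ _ _ _ _ _ => rfl⟩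
    | cons p s hj ih =>
      obtain ⟨t, ht⟩ := ih
      refine ⟨.add (.smul (c p.1 p.2) (.app p.2 fun a => u fun j => p.1 j p.2 a)) t,
        fun _ _ _ _ _ _ _ _ _ => ?_⟩
      rw [Finset.sum_cons]; simp only [T2.eval, hu, ht]
  obtain ⟨t, ht⟩ := h2 Finset.univ
  exact ⟨t, fun _ _ _ _ _ _ _ _ _ => by rw [ht, Fintype.sum_prod_type]; rfl⟩

def Id {A B : Type} [AddCommGroup A] [Module R A] [AddCommGroup B] [Module S B]
    (F : ∀ i, (Fin (ar i) → A) → B) : Fam (∀ i, Fin (ar i) → R) (ι → S) := fun k =>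
  { carrier := {c | ∀ ρ : Fin k → A, val F c ρ = 0}
    zero_mem' := fun ρ => by simp [val]
    add_mem' := fun {c d} hc hd ρ => by
      have := congrArg₂ (· + ·) (hc ρ) (hd ρ)
      simpa [val, add_smul, Finset.sum_add_distrib] using this
    neg_mem' := fun {c} hc ρ => by
      have := hc ρ
      simpa [val] using this }

lemma Id_push {A B : Type} [AddCommGroup A] [Module R A] [AddCommGroup B] [Module S B]
    (F : ∀ i, (Fin (ar i) → A) → B) : Push (Id (R := R) (S := S) F) := by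
  classical
  intro l k π hπ c hc ρ
  have inj : Function.Injective fun v : Fin k → ∀ i, Fin (ar i) → R => v ∘ π :=
    hπ.injective_comp_right
  rw [← hc fun i => ∑ j, if π j = i then ρ j else 0]
  symm
  refine Finset.sum_of_injOn (fun v => v ∘ π) inj.injOn (by simp) (fun χ _ h => ?_) (fun χ _ => ?_)
  · rw [Function.extend_apply' _ _ _ (by simpa using h)]; simp
  · rw [inj.extend_apply]
    refine Finset.sum_congr rfl fun i _ => ?_
    congr 2
    funext a
    simp only [Finset.smul_sum]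
    rw [Finset.sum_comm]
    simp

theorem main [Finite S] {A B : Type} [AddCommGroup A] [Module R A] [AddCommGroup B] [Module S B]
    (F : ∀ i, (Fin (ar i) → A) → B) :
    ∃ (E1 : Set (T1 R × T1 R)) (E2 : Set (T2 R S ι ar × T2 R S ι ar)), E1.Finite ∧ E2.Finite ∧
      (∀ p ∈ E1, ∀ ρ : ℕ → A, p.1.eval ρ = p.2.eval ρ) ∧
      (∀ p ∈ E2, ∀ ρ η, p.1.eval F ρ η = p.2.eval F ρ η) ∧
      (∀ s t : T1 R, (∀ ρ : ℕ → A, s.eval ρ = t.eval ρ) → Der1 E1 s t) ∧
      (∀ s t : T2 R S ι ar, (∀ ρ η, s.eval F ρ η = t.eval F ρ η) → Der2 E1 E2 s t) := by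
  classical
  obtain ⟨N, hN⟩ := fg (Id (R := R) (S := S) F)
  choose tm htm using term (R := R) (S := S) (ar := ar)
  let X : Set (T1 R × T1 R) := (fun r => (.smul r (.var 0), .zero)) '' {r | ∀ a : A, r • a = 0}
  let Y : Set (T2 R S ι ar × T2 R S ι ar) :=
    (fun r => (.smul r (.var 0), .zero)) '' {r | ∀ a : B, r • a = 0} ∪
    ⋃ k ∈ Set.Iic N, (fun c => (tm k c, .zero)) '' (Id (R := R) (S := S) F k)
  refine ⟨ax1 R ∪ X, ax2 R S ι ar ∪ Y, ?_, ?_, ?_, ?_, ?_, ?_⟩
  · refine Set.Finite.union ?_ (Set.toFinite _ |>.image _)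
    exact ((Set.Finite.union (Set.toFinite _) (Set.finite_range _)).union
      (Set.finite_range _)).union (Set.finite_range _)
  · refine Set.Finite.union ?_ ((Set.toFinite _ |>.image _).union
      ((Set.finite_Iic N).biUnion fun k _ => (Set.toFinite _).image _))
    exact ((Set.Finite.union (Set.toFinite _) (Set.finite_range _)).union
      (Set.finite_range _)).union (Set.finite_range _)
  · rintro _ (((((rfl | rfl | rfl | rfl | rfl) | ⟨r, rfl⟩) | ⟨r, rfl⟩) | ⟨r, rfl⟩) | ⟨r, hr, rfl⟩) ρ <;>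
      simp [T1.eval, add_assoc, add_smul, mul_smul]
    · exact add_comm _ _
    · exact hr _
  · rintro _ (((((rfl | rfl | rfl | rfl | rfl) | ⟨r, rfl⟩) | ⟨r, rfl⟩) | ⟨r, rfl⟩) | ⟨r, hr, rfl⟩ | h) ρ η
    iterate 8 simp [T2.eval, add_assoc, add_smul, mul_smul, add_comm (η 1) (η 0)]
    · exact hr _
    · simp only [Set.mem_iUnion] at h
      obtain ⟨k, _, c, hc, rfl⟩ := h
      rw [htm]; exact hc _
  · intro s t h
    obtain ⟨k, hk⟩ := nf1 (.add s (.neg t))
    obtain ⟨r, hr⟩ := hk k le_rfl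
    have h1 : ∀ j, ∀ x : Q1 X, r j • x = 0 := by
      rintro j ⟨x⟩
      refine i1 X (Or.inr ⟨r j, fun a => ?_, rfl⟩) x x x
      have := hr A (Pi.single j a)
      simp only [T1.eval, h, add_neg_cancel, Pi.single_apply, Fin.val_inj] at this
      simpa using this.symm
    have := hr (Q1 X) fun n => m1 X (.var n)
    simp only [T1.eval, ev1, sv1, h1, Finset.sum_const_zero, add_neg_eq_zero] at this
    exact Quotient.exact this
  · intro s t h
    obtain ⟨k, hk⟩ := nf2 (.add s (.neg t))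
    obtain ⟨e, c, hr⟩ := hk k le_rfl
    have h0 : c ∈ Id (R := R) (S := S) F k := by
      intro ρ
      have := hr A B F (fun n => if h : n < k then ρ ⟨n, h⟩ else 0) 0
      simp only [T2.eval, h, add_neg_cancel] at this
      simpa using this.symm
    have h1 : ∀ j, ∀ x : Q2 X Y, e j • x = 0 := by
      rintro j ⟨x⟩
      refine i2 X Y (Or.inr (Or.inl ⟨e j, fun a => ?_, rfl⟩)) x x x
      have := hr A B F 0 (Pi.single j a)
      rw [h0] at this
      simp only [T2.eval, h, add_neg_cancel, Pi.single_apply, Fin.val_inj] at this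
      simpa using this.symm
    have h2 := hN (Id (GQ X Y)) (Id_push _) (fun m hm d hd ρ => by
      have := htm m d _ _ (GQ X Y)
        (fun n => m1 X (if h : n < m then (ρ ⟨n, h⟩).out else .zero)) (fun n => m2 X Y (.var n))
      rw [ev2] at this
      simp only [Fin.is_lt, dite_true, Fin.eta, m1, Quotient.out_eq] at this
      rw [← this]
      refine Quotient.sound (Der2.subst _ _ (t := .zero) (.ax (Or.inr (Or.inr ?_))))
      simp only [Set.mem_iUnion]
      exact ⟨m, hm, d, hd, rfl⟩) k h0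
    have := hr _ _ (GQ X Y) (fun n => m1 X (.var n)) fun n => m2 X Y (.var n)
    rw [h2] at this
    simp only [T2.eval, ev2, sv2, h1, Finset.sum_const_zero, add_zero, add_neg_eq_zero] at this
    exact Quotient.exact this

end Pool.Agent.H65.TwoSort
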