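import Mathlib

set_option autoImplicit false
open PowerSeries TensorProduct

namespace Pool.Agent.H65.Vas

abbrev V := PowerSeries ℚ

theorem c1 (f g : V) : coeff 1 (f * g) = coeff 0 f * coeff 1 g + coeff 1 f * coeff 0 g := by
  simp [coeff_mul, Finset.Nat.antidiagonal_succ]

theorem c2 (f g : V) : coeff 2 (f * g) =
    coeff 0 f * coeff 2 g + coeff 1 f * coeff 1 g + coeff 2 f * coeff 0 g := by
  simp [coeff_mul, Finset.Nat.antidiagonal_succ, add_assoc]

theorem c0 (f g : V) : coeff 0 (f * g) = coeff 0 f * coeff 0 g := by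
  simp [coeff_mul]

/-- The ring of power series with no terms of degree one or two. -/
def Rs : Subring V where
  carrier := {f | coeff 1 f = 0 ∧ coeff 2 f = 0}
  mul_mem' := by
    rintro f g ⟨h1, h2⟩ ⟨h3, h4⟩
    refine ⟨?_, ?_⟩
    · rw [c1, h1, h3]; ring
    · rw [c2, h1, h2, h4]; ring
  one_mem' := by constructor <;> simp [coeff_one]
  add_mem' := by
    rintro f g ⟨h1, h2⟩ ⟨h3, h4⟩
    constructor <;> simp [*]
  zero_mem' := by constructor <;> simp
  neg_mem' := by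
    rintro f ⟨h1, h2⟩
    constructor <;> simp [*]

theorem mem_Rs (f : V) : f ∈ Rs ↔ coeff 1 f = 0 ∧ coeff 2 f = 0 := Iff.rfl

theorem cX3 (v : V) (n : ℕ) (hn : n < 3) : coeff n (X ^ 3 * v) = 0 :=
  (X_pow_dvd_iff.1 (Dvd.intro v rfl)) n hn

noncomputable def rho (v : V) : Rs := ⟨X ^ 3 * v, cX3 v 1 (by norm_num), cX3 v 2 (by norm_num)⟩

theorem rho_val (v : V) : (rho v : V) = X ^ 3 * v := rfl

theorem exists_rho (r : Rs) (h : coeff 0 (r : V) = 0) : ∃ v, r = rho v := by
  have : (X : V) ^ 3 ∣ (r : V) := by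
    rw [X_pow_dvd_iff]
    intro m hm
    interval_cases m
    · exact h
    · exact r.2.1
    · exact r.2.2
  obtain ⟨v, hv⟩ := this
  exact ⟨v, Subtype.ext hv⟩

theorem isUnit_iff (r : Rs) : IsUnit r ↔ coeff 0 (r : V) ≠ 0 := by
  constructor
  · rintro ⟨u, rfl⟩ h
    have h1 : ((u : Rs) : V) * ((u⁻¹ : Rsˣ) : Rs) = 1 := by
      rw [← Subring.coe_mul]; simp
    have := congrArg (coeff 0) h1
    rw [c0, h] at this
    simp at this
  · intro h
    have hu : IsUnit (r : V) := by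
      rw [PowerSeries.isUnit_iff_constantCoeff]
      simpa using h
    obtain ⟨g, hg⟩ := hu.exists_right_inv
    have e1 := congrArg (coeff 1) hg
    have e2 := congrArg (coeff 2) hg
    rw [c1, r.2.1] at e1
    rw [c2, r.2.1, r.2.2] at e2
    simp only [coeff_one] at e1 e2
    have g1 : coeff 1 g = 0 := by
      have : coeff 0 (r : V) * coeff 1 g = 0 := by simpa using e1
      exact (mul_eq_zero.1 this).resolve_left h
    have g2 : coeff 2 g = 0 := by
      have : coeff 0 (r : V) * coeff 2 g = 0 := by simpa using e2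
      exact (mul_eq_zero.1 this).resolve_left h
    exact IsUnit.of_mul_eq_one (⟨g, g1, g2⟩ : Rs) (Subtype.ext hg)

theorem isLocal : IsLocalRing Rs := by
  refine IsLocalRing.of_isUnit_or_isUnit_one_sub_self fun a => ?_
  by_cases h : coeff 0 (a : V) = 0
  · right
    rw [isUnit_iff]
    simp only [AddSubgroupClass.coe_sub, OneMemClass.coe_one, map_sub, h]
    simp
  · left
    exact (isUnit_iff a).2 h

/-- A power of every nonunit is a multiple of a given nonzero element. -/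
theorem pow_dvd (x : Rs) (hx : x ≠ 0) (g : Rs) (hg : coeff 0 (g : V) = 0) :
    ∃ n : ℕ, x ∣ g ^ n := by
  obtain ⟨v, rfl⟩ := exists_rho g hg
  have hx' : (x : V) ≠ 0 := fun h => hx (Subtype.ext h)
  obtain ⟨n, u, hu⟩ := IsDiscreteValuationRing.eq_unit_mul_pow_irreducible hx'
    (PowerSeries.X_irreducible (R := ℚ))
  refine ⟨n + 1, rho (((u⁻¹ : Vˣ) : V) * X ^ (2 * n) * v ^ (n + 1)), Subtype.ext ?_⟩
  simp only [SubmonoidClass.coe_pow, rho_val, Subring.coe_mul, hu]
  have : ((u : V) * ((u⁻¹ : Vˣ) : V)) = 1 := by simp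
  calc (X ^ 3 * v) ^ (n + 1) = ((u : V) * ((u⁻¹ : Vˣ) : V)) * (X ^ 3 * v) ^ (n + 1) := by
        rw [this, one_mul]
    _ = _ := by ring

theorem dim_one : ringKrullDim Rs = 1 := by
  have := isLocal
  rw [ringKrullDim_eq_one_iff_of_isLocalRing_isDomain]
  constructor
  · intro h
    have h0 : rho 1 ≠ 0 := by
      intro h
      have := congrArg (fun r : Rs => (r : V)) h
      simp [rho_val] at this
    obtain ⟨b, hb⟩ := h.mul_inv_cancel h0
    have := (isUnit_iff _).1 (IsUnit.of_mul_eq_one b hb)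
    exact this (cX3 1 0 (by norm_num))
  · intro x hx g hg
    rw [IsLocalRing.mem_maximalIdeal, mem_nonunits_iff, isUnit_iff, not_not] at hg
    obtain ⟨n, hn⟩ := pow_dvd x hx g hg
    exact ⟨n, Ideal.mem_span_singleton.2 hn⟩

theorem noeth : IsNoetherianRing Rs := by
  classical
  refine IsNoetherianRing.of_prime_ne_bot fun P hP h0 => ?_
  obtain ⟨x, hxP, hx⟩ := Submodule.exists_mem_ne_zero_of_ne_bot h0
  have key : ∀ g : Rs, coeff 0 (g : V) = 0 → g ∈ P := by
    intro g hg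
    obtain ⟨n, hn⟩ := pow_dvd x hx g hg
    exact hP.mem_of_pow_mem n (Ideal.mem_of_dvd P hn hxP)
  refine ⟨{rho 1, rho X, rho (X ^ 2)}, le_antisymm ?_ ?_⟩
  · rw [Ideal.span_le]
    intro g hg
    simp only [Finset.coe_insert, Finset.coe_singleton, Set.mem_insert_iff,
      Set.mem_singleton_iff] at hg
    rcases hg with rfl | rfl | rfl <;> exact key _ (cX3 _ 0 (by norm_num))
  · intro g hg
    have hg0 : coeff 0 (g : V) = 0 := by
      by_contra h
      exact hP.ne_top (Ideal.eq_top_of_isUnit_mem P hg ((isUnit_iff g).2 h))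
    obtain ⟨v, rfl⟩ := exists_rho g hg0
    have hm : v - C (coeff 1 v) * X - C (coeff 2 v) * X ^ 2 ∈ Rs := by
      constructor <;> simp [coeff_X, coeff_X_pow]
    have hc : ∀ a : ℚ, (C a : V) ∈ Rs := fun a => by constructor <;> simp [coeff_C]
    have : rho v = (⟨_, hm⟩ : Rs) * rho 1 + (⟨_, hc (coeff 1 v)⟩ : Rs) * rho X
        + (⟨_, hc (coeff 2 v)⟩ : Rs) * rho (X ^ 2) := by
      apply Subtype.ext
      simp only [rho_val, Subring.coe_add, Subring.coe_mul]
      ring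
    rw [this]
    refine Ideal.add_mem _ (Ideal.add_mem _ ?_ ?_) ?_ <;>
      exact Ideal.mul_mem_left _ _ (Ideal.subset_span (by simp))

noncomputable def w : Fin 3 → Fin 2 → V := ![![X, X ^ 2], ![1, 0], ![0, 1]]

/-- The rank two module with three generators. -/
noncomputable def Mm : Submodule Rs (Fin 2 → V) := Submodule.span Rs (Set.range w)

noncomputable def W (a : Fin 3) : Mm := ⟨w a, Submodule.subset_span ⟨a, rfl⟩⟩

theorem exists_coef (m : Mm) : ∃ r : Fin 3 → Rs, m = ∑ a, r a • W a := by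
  obtain ⟨r, hr⟩ := (Submodule.mem_span_range_iff_exists_fun Rs).1 m.2
  refine ⟨r, Subtype.ext ?_⟩
  rw [← hr]
  simp [W]

noncomputable def pr (i : Fin 2) : Mm →ₗ[Rs] V := (LinearMap.proj i) ∘ₗ Mm.subtype

noncomputable def Phi (i j : Fin 2) : Mm ⊗[Rs] Mm →ₗ[Rs] V :=
  LinearMap.mul' Rs V ∘ₗ TensorProduct.map (pr i) (pr j)

theorem Phi_W (i j : Fin 2) (r : Rs) (a b : Fin 3) :
    Phi i j (r • (W a ⊗ₜ[Rs] W b)) = (r : V) * (w a i * w b j) := by
  rw [map_smul]
  simp [Phi, pr, W, Subring.smul_def]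

theorem rho_W0 (v : V) : rho v • W 0 = rho (X * v) • W 1 + rho (X ^ 2 * v) • W 2 := by
  apply Subtype.ext
  funext i
  fin_cases i <;> simp [W, w, Subring.smul_def, rho_val] <;> ring

theorem rho_add (v v' : V) : rho (v + v') = rho v + rho v' := by
  apply Subtype.ext
  simp [rho_val, mul_add]

theorem rho_zero : rho 0 = 0 := by
  apply Subtype.ext
  simp [rho_val]

def G (z : Mm ⊗[Rs] Mm) : Prop :=
  ∃ y11 y12 y21 y22 : V, z = rho y11 • (W 1 ⊗ₜ[Rs] W 1) + rho y12 • (W 1 ⊗ₜ[Rs] W 2)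
    + rho y21 • (W 2 ⊗ₜ[Rs] W 1) + rho y22 • (W 2 ⊗ₜ[Rs] W 2)

theorem G_add {z z' : Mm ⊗[Rs] Mm} (h : G z) (h' : G z') : G (z + z') := by
  obtain ⟨a, b, c, d, rfl⟩ := h
  obtain ⟨a', b', c', d', rfl⟩ := h'
  refine ⟨a + a', b + b', c + c', d + d', ?_⟩
  simp only [rho_add, add_smul]
  abel

theorem G_right (v : V) (a : Fin 3) (h1 : ∀ v, G (rho v • (W a ⊗ₜ[Rs] W 1)))
    (h2 : ∀ v, G (rho v • (W a ⊗ₜ[Rs] W 2))) (b : Fin 3) : G (rho v • (W a ⊗ₜ[Rs] W b)) := by
  fin_cases b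
  · show G (rho v • (W a ⊗ₜ[Rs] W 0))
    rw [← tmul_smul, rho_W0, tmul_add, tmul_smul, tmul_smul]
    exact G_add (h1 _) (h2 _)
  · exact h1 v
  · exact h2 v

theorem G_W (v : V) (a b : Fin 3) : G (rho v • (W a ⊗ₜ[Rs] W b)) := by
  have g1 : ∀ v b, G (rho v • (W 1 ⊗ₜ[Rs] W b)) := fun v b =>
    G_right v 1 (fun v => ⟨v, 0, 0, 0, by simp [rho_zero]⟩)
      (fun v => ⟨0, v, 0, 0, by simp [rho_zero]⟩) b
  have g2 : ∀ v b, G (rho v • (W 2 ⊗ₜ[Rs] W b)) := fun v b =>
    G_right v 2 (fun v => ⟨0, 0, v, 0, by simp [rho_zero]⟩)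
      (fun v => ⟨0, 0, 0, v, by simp [rho_zero]⟩) b
  fin_cases a
  · show G (rho v • (W 0 ⊗ₜ[Rs] W b))
    rw [smul_tmul', rho_W0, add_tmul, ← smul_tmul', ← smul_tmul']
    exact G_add (g1 _ _) (g2 _ _)
  · exact g1 v b
  · exact g2 v b

theorem exists_coef2 (z : Mm ⊗[Rs] Mm) :
    ∃ r : Fin 3 → Fin 3 → Rs, z = ∑ a, ∑ b, r a b • (W a ⊗ₜ[Rs] W b) := by
  induction z using TensorProduct.induction_on with
  | zero => exact ⟨0, by simp⟩
  | tmul m m' =>
    obtain ⟨r, rfl⟩ := exists_coef m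
    obtain ⟨s, rfl⟩ := exists_coef m'
    refine ⟨fun a b => r a * s b, ?_⟩
    rw [sum_tmul]
    refine Finset.sum_congr rfl fun a _ => ?_
    rw [tmul_sum]
    refine Finset.sum_congr rfl fun b _ => ?_
    rw [smul_tmul_smul]
  | add z z' h h' =>
    obtain ⟨r, rfl⟩ := h
    obtain ⟨s, rfl⟩ := h'
    exact ⟨r + s, by simp [add_smul, Finset.sum_add_distrib]⟩

theorem cR (r : Rs) (f : V) (n : ℕ) (hn : n < 3) :
    coeff n ((r : V) * f) = coeff 0 (r : V) * coeff n f := by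
  interval_cases n
  · exact c0 _ _
  · rw [c1, r.2.1]; ring
  · rw [c2, r.2.1, r.2.2]; ring

theorem Phi_inj (z : Mm ⊗[Rs] Mm) (h : ∀ i j, Phi i j z = 0) : z = 0 := by
  obtain ⟨r, hr⟩ := exists_coef2 z
  have e : ∀ i j (n : ℕ), n < 3 →
      ∑ a, ∑ b, coeff 0 (r a b : V) * coeff n (w a i * w b j) = 0 := by
    intro i j n hn
    have := congrArg (coeff n) (h i j)
    rw [hr] at this
    simpa only [map_sum, Phi_W, cR _ _ n hn, map_zero] using this
  have hX : ∀ n, n < 3 → ∀ k, coeff n ((X : V) ^ k) = if n = k then 1 else 0 :=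
    fun n _ k => coeff_X_pow n k
  have e000 := e 0 0 0 (by norm_num)
  have e002 := e 0 0 2 (by norm_num)
  have e010 := e 0 1 0 (by norm_num)
  have e011 := e 0 1 1 (by norm_num)
  have e012 := e 0 1 2 (by norm_num)
  have e100 := e 1 0 0 (by norm_num)
  have e101 := e 1 0 1 (by norm_num)
  have e102 := e 1 0 2 (by norm_num)
  have e110 := e 1 1 0 (by norm_num)
  simp [Fin.sum_univ_three, w, ← pow_succ, ← pow_succ', ← pow_add, ← pow_two, coeff_X_pow,
    coeff_X, coeff_one] at e000 e002 e010 e011 e012 e100 e101 e102 e110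
  have hc : ∀ a b, coeff 0 (r a b : V) = 0 := by
    intro a b
    fin_cases a <;> fin_cases b <;> simp <;> assumption
  have hG : G z := by
    rw [hr]
    refine Finset.sum_induction _ G (fun _ _ => G_add) ⟨0, 0, 0, 0, by simp [rho_zero]⟩
      fun a _ => ?_
    refine Finset.sum_induction _ G (fun _ _ => G_add) ⟨0, 0, 0, 0, by simp [rho_zero]⟩
      fun b _ => ?_
    obtain ⟨v, hv⟩ := exists_rho _ (hc a b)
    rw [hv]
    exact G_W v a b
  obtain ⟨a, b, c, d, hz⟩ := hG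
  have h00 := h 0 0
  have h01 := h 0 1
  have h10 := h 1 0
  have h11 := h 1 1
  simp only [hz, map_add, Phi_W] at h00 h01 h10 h11
  simp [w, rho_val] at h00 h01 h10 h11
  rw [hz, h00, h01, h10, h11]
  simp [rho_zero]

theorem tors_V (r : Rs) (hr : r ∈ nonZeroDivisors Rs) (v : V) (h : r • v = 0) : v = 0 := by
  have hr' : (r : V) ≠ 0 := fun h0 => nonZeroDivisors.ne_zero hr (Subtype.ext h0)
  rw [Subring.smul_def, smul_eq_mul] at h
  exact (mul_eq_zero.1 h).resolve_left hr'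

theorem tors_MM : Submodule.torsion Rs (Mm ⊗[Rs] Mm) = ⊥ := by
  rw [eq_bot_iff]
  rintro z ⟨⟨r, hr⟩, hz⟩
  refine Phi_inj z fun i j => tors_V r hr _ ?_
  rw [← map_smul]
  have : r • z = 0 := hz
  rw [this, map_zero]

theorem tors_M : Submodule.torsion Rs Mm = ⊥ := by
  rw [eq_bot_iff]
  rintro z ⟨⟨r, hr⟩, hz⟩
  have hz' : r • z = 0 := hz
  have : ∀ i, pr i z = 0 := fun i => tors_V r hr _ (by rw [← map_smul, hz', map_zero])
  apply Subtype.ext
  funext i
  exact this i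

theorem fin_M : Module.Finite Rs Mm :=
  Module.Finite.span_of_finite Rs (Set.finite_range w)

theorem form_W0 (φ : Mm →ₗ[Rs] Rs) : coeff 0 (φ (W 0) : V) = 0 := by
  have h := congrArg (fun m => (φ m : V)) (rho_W0 1)
  simp only [map_add, map_smul, smul_eq_mul, Subring.coe_add, Subring.coe_mul, rho_val] at h
  have h3 : (X : V) ^ 3 ≠ 0 := pow_ne_zero _ X_ne_zero
  have : (φ (W 0) : V) = X * ((φ (W 1) : V) + X * (φ (W 2) : V)) := by
    apply mul_left_cancel₀ h3
    linear_combination h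
  rw [this]
  simp

theorem not_free : ¬ Module.Free Rs Mm := by
  intro h
  let b := Module.Free.chooseBasis Rs Mm
  have h1 := b.linearCombination_repr (W 0)
  rw [Finsupp.linearCombination_apply, Finsupp.sum] at h1
  have h2 := congrArg (fun m => coeff 1 (pr 0 m)) h1
  simp only [map_sum, map_smul] at h2
  have h3 : ∀ i, coeff 1 ((b.repr (W 0) i) • pr 0 (b i)) = 0 := by
    intro i
    rw [Subring.smul_def, smul_eq_mul, cR _ _ 1 (by norm_num)]
    have := form_W0 (b.coord i)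
    rw [Module.Basis.coord_apply] at this
    rw [this, zero_mul]
  simp only [h3, Finset.sum_const_zero] at h2
  simp [pr, W, w] at h2

end Pool.Agent.H65.Vas
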