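import Mathlib

set_option autoImplicit false

namespace Pool.Agent.H65.Vas

/-- The Hilbert-Samuel multiplicity of a one-dimensional Noetherian local ring: the growth rate
`lim length (R / m ^ n) / n`, written as the lower limit rounded up to a natural number
(in dimension one `length (R / m ^ n) = μ n + c` for large `n`, so this is `μ`). -/
noncomputable def mult (R : Type) [CommRing R] [IsLocalRing R] : ℕ :=
  ⌈Filter.liminf (fun n : ℕ =>
    ((Module.length R (R ⧸ IsLocalRing.maximalIdeal R ^ n)).toNat : ℝ) / n) Filter.atTop⌉₊

end Pool.Agent.H65.Vas
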