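import Mathlib
import Pool.Agent.H65.VasDefs

set_option autoImplicit false
set_option maxHeartbeats 400000
open TensorProduct IsLocalRing Order Filter Pointwise

namespace Pool.Agent.H65.Vas

section A
variable {R : Type} [CommRing R] [IsDomain R] {M : Type} [AddCommGroup M] [Module R M]

/-- The determinant trick. -/
theorem lemA {K : Type} [CommRing K] [Nontrivial K] [Algebra R K] {ι : Type} [Fintype ι]
    [DecidableEq ι] (m : ι → M) (lam : ι → M →ₗ[R] K)
    (hlam : ∀ a b, lam a (m b) = if a = b then 1 else 0)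
    (u : ι → R) (hu : ∑ k, u k • m k = 0) (e : ℕ) (l : Fin e → R) (κ : Fin e → ι)
    (hsp : ∀ i k, l i * u k ∈ Ideal.span (Set.range fun j => l j * u (κ j)))
    (j0 : Fin e) (hj0 : l j0 * u (κ j0) ≠ 0) :
    Submodule.torsion R (TensorPower R e M) ≠ ⊥ := by
  classical
  set β : Fin e → R := fun j => l j * u (κ j) with hβ
  have hc : ∀ i k, ∃ c : Fin e → R, ∑ j, c j * β j = l i * u k ∧
      (k = κ i → c = Pi.single i 1) := by
    intro i k
    by_cases h : k = κ i
    · refine ⟨Pi.single i 1, ?_, fun _ => rfl⟩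
      rw [Finset.sum_eq_single i (fun j _ hj => by simp [Pi.single_eq_of_ne hj]) (by simp)]
      simp [hβ, h]
    · obtain ⟨c, hc⟩ := (Submodule.mem_span_range_iff_exists_fun R).1 (hsp i k)
      exact ⟨c, by simpa [smul_eq_mul] using hc, fun h' => absurd h' h⟩
  choose c hc1 hc2 using hc
  let col : Fin e → Fin e → M := fun j i => ∑ k, c i k j • m k
  have hrel : ∑ j, β j • col j = 0 := by
    funext i
    simp only [Finset.sum_apply, Pi.smul_apply, Pi.zero_apply, col, Finset.smul_sum, smul_smul]
    rw [Finset.sum_comm]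
    have : ∀ k, ∑ j, (β j * c i k j) • m k = l i • (u k • m k) := by
      intro k
      rw [← Finset.sum_smul, smul_smul, ← hc1 i k]
      congr 1
      exact Finset.sum_congr rfl fun j _ => mul_comm _ _
    simp only [this, ← Finset.smul_sum, hu, smul_zero]
  let g : MultilinearMap R (fun _ : Fin e => (Fin e → M)) (TensorPower R e M) :=
    (PiTensorProduct.tprod R).compLinearMap fun i => LinearMap.proj i
  let A := MultilinearMap.alternatization g
  have hT : β j0 • A col = 0 := by
    have h1 : A (Function.update col j0 (∑ j, β j • col j)) = 0 := by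
      rw [hrel, AlternatingMap.map_update_zero]
    rw [AlternatingMap.map_update_sum, Finset.sum_eq_single j0] at h1
    · rwa [AlternatingMap.map_update_smul, Function.update_eq_self] at h1
    · intro j _ hj
      rw [AlternatingMap.map_update_smul, AlternatingMap.map_update_self _ _ (Ne.symm hj),
        smul_zero]
    · simp
  let Ψ : TensorPower R e M →ₗ[R] K := PiTensorProduct.lift
    ((MultilinearMap.mkPiAlgebra R (Fin e) K).compLinearMap fun i => lam (κ i))
  have hl : ∀ i j, lam (κ i) (col j i) = if j = i then 1 else 0 := by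
    intro i j
    simp only [col, map_sum, map_smul, hlam]
    rw [Finset.sum_eq_single (κ i) (fun k _ hk => by simp [Ne.symm hk]) (by simp)]
    rw [hc2 i (κ i) rfl]
    by_cases h : j = i
    · simp [h]
    · simp [h]
  have hΨ : Ψ (A col) = 1 := by
    simp only [A, MultilinearMap.alternatization_apply, map_sum]
    rw [Finset.sum_eq_single 1]
    · simp [Ψ, g, hl]
    · intro σ _ hσ
      obtain ⟨i, hi⟩ : ∃ i, σ i ≠ i := by
        by_contra h
        push Not at h
        exact hσ (Equiv.ext h)
      have : Ψ (g.domDomCongr σ col) = 0 := by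
        simp only [Ψ, g, MultilinearMap.domDomCongr_apply, MultilinearMap.compLinearMap_apply,
          PiTensorProduct.lift.tprod, MultilinearMap.mkPiAlgebra_apply, LinearMap.proj_apply, hl]
        exact Finset.prod_eq_zero (Finset.mem_univ i) (by simp [hi])
      rw [Units.smul_def, map_zsmul, this, smul_zero]
    · simp
  intro h
  have : A col ∈ Submodule.torsion R (TensorPower R e M) :=
    ⟨⟨β j0, mem_nonZeroDivisors_of_ne_zero hj0⟩, hT⟩
  rw [h, Submodule.mem_bot] at this
  rw [this, map_zero] at hΨ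
  exact zero_ne_one hΨ

end A

section B
variable {R : Type} [CommRing R]

theorem lemB (S : Set R) (s0 : R) (hs0 : s0 ∈ S) (hfin : coheight (Ideal.span S) < ⊤) (e : ℕ) :
    ∀ P : Ideal R, P ≤ Ideal.span S → coheight P ≤ coheight (Ideal.span S) + e →
      ∃ f : Fin e → R, (∀ i, f i ∈ S) ∧ Ideal.span S ≤ Ideal.span (Set.range f) ⊔ P := by
  induction e with
  | zero =>
    intro P hP h
    refine ⟨fun _ => s0, fun _ => hs0, ?_⟩
    rcases hP.eq_or_lt with h1 | h1
    · rw [h1]; exact le_sup_right
    · exact absurd (coheight_strictAnti h1 hfin) (by simpa using h)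
  | succ e ih =>
    intro P hP h
    by_cases hL : Ideal.span S ≤ P
    · exact ⟨fun _ => s0, fun _ => hs0, hL.trans le_sup_right⟩
    · rw [Ideal.span_le] at hL
      obtain ⟨s, hs, hsP⟩ := Set.not_subset.1 hL
      have hlt : P < Ideal.span {s} ⊔ P := by
        refine lt_of_le_of_ne le_sup_right fun h' => hsP ?_
        have : s ∈ Ideal.span {s} ⊔ P := Ideal.mem_sup_left (Ideal.mem_span_singleton_self s)
        rwa [← h'] at this
      have h1 := coheight_add_one_le hlt
      have h2 : coheight (Ideal.span {s} ⊔ P) ≤ coheight (Ideal.span S) + e := by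
        have h3 := h1.trans h
        rw [Nat.cast_succ, ← add_assoc] at h3
        exact (ENat.add_le_add_iff_right (by simp)).1 h3
      obtain ⟨f, hf, hle⟩ := ih (Ideal.span {s} ⊔ P)
        (sup_le (Ideal.span_mono (by simpa using hs)) hP) h2
      refine ⟨Fin.cons s f, fun i => Fin.cases hs hf i, hle.trans ?_⟩
      refine sup_le (le_sup_of_le_left (Ideal.span_mono ?_))
        (sup_le (le_sup_of_le_left (Ideal.span_mono ?_)) le_sup_right)
      · rintro _ ⟨i, rfl⟩
        exact ⟨i.succ, rfl⟩
      · rintro _ rfl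
        exact ⟨0, rfl⟩

end B

section C
variable {R : Type} [CommRing R] [IsDomain R] [IsNoetherianRing R] [IsLocalRing R]

theorem ch_eq (I : Ideal R) : coheight I = Module.length R (R ⧸ I) :=
  (Module.length_quotient (R := R) (M := R) (N := I)).symm

theorem ch_fin [Ring.KrullDimLE 1 R] {I : Ideal R} (hI : I ≠ ⊥) : coheight I < ⊤ := by
  obtain ⟨x, hx, hx0⟩ := Submodule.exists_mem_ne_zero_of_ne_bot hI
  have h1 : coheight I ≤ coheight (Ideal.span {x}) :=
    coheight_anti ((Ideal.span_singleton_le_iff_mem I).2 hx)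
  refine h1.trans_lt ?_
  rw [ch_eq]
  exact Ring.ord_lt_top (mem_nonZeroDivisors_of_ne_zero hx0)

theorem lemC [Ring.KrullDimLE 1 R] (hm : maximalIdeal R ≠ ⊥) {I : Ideal R} (hI : I ≠ ⊥) :
    ∃ s : ℕ, coheight (maximalIdeal R * (maximalIdeal R ^ s * I)) ≤
      coheight (maximalIdeal R ^ s * I) + mult R := by
  by_contra hcon
  push Not at hcon
  have hne : ∀ s : ℕ, maximalIdeal R ^ s * I ≠ ⊥ := fun s =>
    mul_ne_zero (pow_ne_zero s hm) hI
  have h1 : ∀ n : ℕ, ((mult R + 1) * n : ℕ) ≤ coheight (maximalIdeal R ^ n * I) := by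
    intro n
    induction n with
    | zero => simp
    | succ n ih =>
      have h := hcon n
      rw [← mul_assoc, ← pow_succ'] at h
      have h' := Order.add_one_le_of_lt h
      refine le_trans ?_ h'
      have : (((mult R + 1) * (n + 1) : ℕ) : ℕ∞) = ((mult R + 1) * n : ℕ) + mult R + 1 := by
        push_cast; ring
      rw [this]
      gcongr
  obtain ⟨x, hx, hx0⟩ := Submodule.exists_mem_ne_zero_of_ne_bot hI
  obtain ⟨y, hy, hy0⟩ := Submodule.exists_mem_ne_zero_of_ne_bot hm
  have hx' := mem_nonZeroDivisors_of_ne_zero hx0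
  have hy' := mem_nonZeroDivisors_of_ne_zero hy0
  set a : ℕ → ℕ := fun n => (Module.length R (R ⧸ maximalIdeal R ^ n)).toNat with ha
  have hac : ∀ n, (a n : ℕ∞) = Module.length R (R ⧸ maximalIdeal R ^ n) := by
    intro n
    refine ENat.natCast_toNat ?_
    rw [← ch_eq]
    exact (ch_fin (pow_ne_zero n hm)).ne
  obtain ⟨cx, hcx⟩ := ENat.ne_top_iff_exists.1 (Ring.ord_ne_top hx')
  obtain ⟨cy, hcy⟩ := ENat.ne_top_iff_exists.1 (Ring.ord_ne_top hy')
  have h2 : ∀ n, (mult R + 1) * n ≤ a n + cx := by
    intro n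
    have e1 := Module.length_eq_add_of_exact (Ideal.mulQuot x (maximalIdeal R ^ n))
      (Ideal.quotOfMul x (maximalIdeal R ^ n)) (Ideal.mulQuot_injective _ hx')
      (Ideal.quotOfMul_surjective _) (Ideal.exact_mulQuot_quotOfMul _)
    have e2 : coheight (maximalIdeal R ^ n * I) ≤ coheight (x • maximalIdeal R ^ n) := by
      apply coheight_anti
      intro z hz
      obtain ⟨w, hw, rfl⟩ := (Submodule.mem_smul_pointwise_iff_exists z x _).1 hz
      rw [smul_eq_mul, mul_comm x w]
      exact Ideal.mul_mem_mul hw hx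
    rw [ch_eq (x • maximalIdeal R ^ n), e1, ← hac] at e2
    have e3 := (h1 n).trans e2
    change _ ≤ _ + Ring.ord R x at e3
    rw [← hcx] at e3
    exact_mod_cast e3
  have h3 : ∀ n, a n ≤ n * cy := by
    intro n
    have e2 : coheight (maximalIdeal R ^ n) ≤ coheight (Ideal.span {y ^ n}) :=
      coheight_anti ((Ideal.span_singleton_le_iff_mem _).2 (Ideal.pow_mem_pow hy n))
    rw [ch_eq, ch_eq, ← hac] at e2
    change _ ≤ Ring.ord R (y ^ n) at e2
    rw [Ring.ord_pow hy', ← hcy, nsmul_eq_mul] at e2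
    exact_mod_cast e2
  have h4 : ((mult R : ℝ) + 1 / 2) ≤ liminf (fun n : ℕ => (a n : ℝ) / n) atTop := by
    apply le_liminf_of_le
    · apply isCoboundedUnder_ge_of_le atTop (x := (cy : ℝ))
      intro n
      rcases Nat.eq_zero_or_pos n with rfl | hn
      · simp
      · rw [div_le_iff₀ (by exact_mod_cast hn), mul_comm]
        exact_mod_cast h3 n
    · filter_upwards [eventually_ge_atTop (2 * cx + 1)] with n hn
      have hn' : (0 : ℝ) < n := by exact_mod_cast (by omega : 0 < n)
      rw [le_div_iff₀ hn']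
      have e1 : ((mult R : ℝ) + 1) * n ≤ a n + cx := by exact_mod_cast h2 n
      have e2 : (2 * cx + 1 : ℝ) ≤ n := by exact_mod_cast hn
      nlinarith
  have h5 : liminf (fun n : ℕ => (a n : ℝ) / n) atTop ≤ mult R := Nat.le_ceil _
  linarith

theorem lemD [Ring.KrullDimLE 1 R] (hm : maximalIdeal R ≠ ⊥) {ι : Type} (u : ι → R) (k0 : ι)
    (hu : u k0 ≠ 0) :
    ∃ (l : Fin (mult R) → R) (κ : Fin (mult R) → ι),
      (∀ i k, l i * u k ∈ Ideal.span (Set.range fun j => l j * u (κ j))) ∧
      ∃ j, l j * u (κ j) ≠ 0 := by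
  have hI : Ideal.span (Set.range u) ≠ ⊥ := by
    intro h
    have h1 : u k0 ∈ Ideal.span (Set.range u) := Ideal.subset_span ⟨k0, rfl⟩
    rw [h] at h1
    exact hu h1
  obtain ⟨s, hs⟩ := lemC hm hI
  obtain ⟨S, hS⟩ : ∃ S : Set R, ∀ z, z ∈ S ↔ ∃ l ∈ maximalIdeal R ^ s, ∃ k, z = l * u k :=
    ⟨{z | ∃ l ∈ maximalIdeal R ^ s, ∃ k, z = l * u k}, fun _ => Iff.rfl⟩
  have hSp : Ideal.span S = maximalIdeal R ^ s * Ideal.span (Set.range u) := by
    apply le_antisymm
    · rw [Ideal.span_le]
      intro z hz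
      obtain ⟨l, hl, k, rfl⟩ := (hS z).1 hz
      exact Ideal.mul_mem_mul hl (Ideal.subset_span ⟨k, rfl⟩)
    · rw [Ideal.mul_le]
      intro l hl z hz
      induction hz using Submodule.span_induction with
      | mem z hz =>
        obtain ⟨k, rfl⟩ := hz
        exact Ideal.subset_span ((hS _).2 ⟨l, hl, k, rfl⟩)
      | zero => simp
      | add z z' _ _ h h' => rw [mul_add]; exact Ideal.add_mem _ h h'
      | smul r z _ h => rw [smul_eq_mul, mul_left_comm]; exact Ideal.mul_mem_left _ _ h
  have hne : Ideal.span S ≠ ⊥ := by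
    rw [hSp]; exact mul_ne_zero (pow_ne_zero s hm) hI
  rw [← hSp] at hs
  obtain ⟨f, hf, hle⟩ := lemB S 0 ((hS _).2 ⟨0, zero_mem _, k0, by simp⟩) (ch_fin hne) (mult R)
    (maximalIdeal R * Ideal.span S) Ideal.mul_le_right hs
  have hle' : Ideal.span S ≤ Ideal.span (Set.range f) :=
    Submodule.le_of_le_smul_of_le_jacobson_bot (I := maximalIdeal R)
      (IsNoetherian.noetherian _) (maximalIdeal_le_jacobson _) (by rwa [smul_eq_mul])
  choose l hl κ hκ using fun i => (hS _).1 (hf i)
  have hf' : f = fun j => l j * u (κ j) := funext hκ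
  refine ⟨l, κ, fun i k => ?_, ?_⟩
  · rw [← hf']
    exact hle' (Ideal.subset_span ((hS _).2 ⟨l i, hl i, k, rfl⟩))
  · by_contra h
    push Not at h
    apply hne
    rw [eq_bot_iff]
    refine hle'.trans ?_
    rw [Ideal.span_le]
    rintro _ ⟨j, rfl⟩
    rw [hκ j, h j]
    exact zero_mem _

theorem main (hd : ringKrullDim R = 1) :
    1 ≤ mult R ∧ ∀ (M : Type) [AddCommGroup M] [Module R M], Module.Finite R M →
      ¬ Module.Free R M → Submodule.torsion R (TensorPower R (mult R) M) ≠ ⊥ := by
  classical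
  have : Ring.KrullDimLE 1 R := by
    rw [Ring.krullDimLE_iff, hd]; simp
  have hm : maximalIdeal R ≠ ⊥ := by
    intro h
    exact (ringKrullDim_eq_one_iff_of_isLocalRing_isDomain.1 hd).1
      (isField_iff_maximalIdeal_eq.2 h)
  constructor
  · obtain ⟨_, _, _, j, _⟩ := lemD hm (fun _ : Unit => (1 : R)) () one_ne_zero
    exact j.pos
  · intro M _ _ hM hfree
    let w := Module.Free.chooseBasis (ResidueField R) (ResidueField R ⊗[R] M)
    obtain ⟨v, hv⟩ := (TensorProduct.mk_surjective R M (ResidueField R)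
      Ideal.Quotient.mk_surjective).comp_left w
    have hsp := span_eq_top_of_tmul_eq_basis v w (congr_fun hv)
    have hli : ¬ LinearIndependent R v := fun h => hfree (.of_basis (.mk h hsp.ge))
    rw [Fintype.not_linearIndependent_iff] at hli
    obtain ⟨u, hu, k0, hk0⟩ := hli
    obtain ⟨l, κ, h1, j0, hj0⟩ := lemD hm u k0 hk0
    refine lemA (K := ResidueField R) v
      (fun a => (w.coord a).restrictScalars R ∘ₗ TensorProduct.mk R (ResidueField R) M 1)
      ?_ u hu _ l κ h1 j0 hj0
    intro a b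
    have : TensorProduct.mk R (ResidueField R) M 1 (v b) = w b := congr_fun hv b
    simp only [LinearMap.comp_apply, this, LinearMap.restrictScalars_apply,
      Module.Basis.coord_apply, Module.Basis.repr_self, Finsupp.single_apply, eq_comm]

end C

end Pool.Agent.H65.Vas
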