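import Pool.Agent.H65.Sanov

set_option autoImplicit false

namespace Pool.Agent.H65.VirtEnd
open Matrix MatrixGroups FreeGroup Pool.Agent.H65.Sanov

abbrev F := FreeGroup (Fin 2)
abbrev M2 := Matrix (Fin 2) (Fin 2) ℤ

def g : M2 := !![-2,-2;4,3]
def r (x : F) : M2 := (rho x : SL(2,ℤ))

lemma r_mul (x y : F) : r (x * y) = r x * r y := by simp [r]
lemma r_one : r 1 = 1 := by simp [r]
lemma r_inj {x y : F} (h : r x = r y) : x = y := rho_injective (Subtype.ext h)

lemma g_cancel_right {X Y : M2} (h : X * g = Y * g) : X = Y := by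
  have h2 : X * g * adjugate g = Y * g * adjugate g := by rw [h]
  rw [Matrix.mul_assoc, Matrix.mul_assoc, Matrix.mul_adjugate] at h2
  have hd : g.det = 2 := by simp [g, Matrix.det_fin_two]
  rw [hd, Matrix.mul_smul, Matrix.mul_smul, Matrix.mul_one, Matrix.mul_one] at h2
  ext i j
  have := congrFun (congrFun h2 i) j
  simp only [Matrix.smul_apply, smul_eq_mul] at this
  omega

lemma g_cancel_left {X Y : M2} (h : g * X = g * Y) : X = Y := by
  have h2 : adjugate g * (g * X) = adjugate g * (g * Y) := by rw [h]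
  rw [← Matrix.mul_assoc, ← Matrix.mul_assoc, Matrix.adjugate_mul] at h2
  have hd : g.det = 2 := by simp [g, Matrix.det_fin_two]
  rw [hd, Matrix.smul_mul, Matrix.smul_mul, Matrix.one_mul, Matrix.one_mul] at h2
  ext i j
  have := congrFun (congrFun h2 i) j
  simp only [Matrix.smul_apply, smul_eq_mul] at this
  omega

def T : Subgroup F where
  carrier := {s | ∃ h, r h * g = g * r s}
  mul_mem' := by
    rintro x y ⟨h, hh⟩ ⟨k, hk⟩
    exact ⟨h * k, by rw [r_mul, r_mul, Matrix.mul_assoc, hk, ← Matrix.mul_assoc, hh,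
      Matrix.mul_assoc]⟩
  one_mem' := ⟨1, by simp [r_one]⟩
  inv_mem' := by
    rintro x ⟨h, hh⟩
    refine ⟨h⁻¹, ?_⟩
    have e1 : r h⁻¹ * r h = 1 := by rw [← r_mul]; simp [r_one]
    have e2 : r x * r x⁻¹ = 1 := by rw [← r_mul]; simp [r_one]
    calc r h⁻¹ * g = r h⁻¹ * g * (r x * r x⁻¹) := by rw [e2, Matrix.mul_one]
      _ = r h⁻¹ * (g * r x) * r x⁻¹ := by simp only [Matrix.mul_assoc]
      _ = (r h⁻¹ * r h) * g * r x⁻¹ := by rw [← hh]; simp only [Matrix.mul_assoc]
      _ = g * r x⁻¹ := by rw [e1, Matrix.one_mul]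

def a : F := of 0
def b : F := of 1

lemma r_a : r a = !![1,2;0,1] := by simp [r, a, rho, A]
lemma r_b : r b = !![1,0;2,1] := by simp [r, b, rho, B]
lemma r_a' : r a⁻¹ = !![1,-2;0,1] := by
  simp [r, a, rho, A, Matrix.SpecialLinearGroup.coe_inv, Matrix.adjugate_fin_two]
lemma r_b' : r b⁻¹ = !![1,0;-2,1] := by
  simp [r, b, rho, B, Matrix.SpecialLinearGroup.coe_inv, Matrix.adjugate_fin_two]

lemma a_mem : a ∈ T := ⟨b⁻¹ * a * a * b, by
  simp only [r_mul, r_a, r_b, r_b', g]; decide⟩
lemma bb_mem : b * b ∈ T := ⟨b⁻¹ * a * b * a⁻¹ * b, by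
  simp only [r_mul, r_a, r_b, r_b', r_a', g]; decide⟩
lemma bab_mem : b * a * b⁻¹ ∈ T := ⟨b⁻¹ * a * b * a⁻¹ * b * a⁻¹ * a⁻¹ * b, by
  simp only [r_mul, r_a, r_b, r_b', r_a', g]; decide⟩

lemma b_not_mem : b ∉ T := by
  rintro ⟨h, hh⟩
  rw [r_b] at hh
  have h1 := congrFun (congrFun hh 1) 0
  have h2 := congrFun (congrFun hh 1) 1
  simp only [g, Matrix.mul_apply, Fin.sum_univ_two] at h1 h2
  simp at h1 h2
  have := (parity h).2.2.1
  have e : r h 1 0 = rho h 1 0 := rfl
  have h3 : r h 1 0 = (9 : ℤ) := by linarith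
  omega

lemma cover (x : F) : x ∈ T ∨ x * b⁻¹ ∈ T := by
  rw [← mk_toWord (x := x)]
  induction x.toWord using List.reverseRecOn with
  | nil => left; exact T.one_mem
  | append_singleton L l ih =>
    rw [← mul_mk]
    obtain ⟨i, c⟩ := l
    have ha : (mk [((0 : Fin 2), true)] : F) = a := rfl
    have ha' : (mk [((0 : Fin 2), false)] : F) = a⁻¹ := rfl
    have hb : (mk [((1 : Fin 2), true)] : F) = b := rfl
    have hb' : (mk [((1 : Fin 2), false)] : F) = b⁻¹ := rfl
    generalize mk L = y at *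
    fin_cases i <;> cases c <;> simp only [Fin.zero_eta, Fin.mk_one, Fin.isValue, ha, ha', hb, hb']
    · rcases ih with h | h
      · left; exact T.mul_mem h (T.inv_mem a_mem)
      · right
        have := T.mul_mem h (T.inv_mem bab_mem)
        convert this using 1; group
    · rcases ih with h | h
      · left; exact T.mul_mem h a_mem
      · right
        have := T.mul_mem h bab_mem
        convert this using 1; group
    · rcases ih with h | h
      · right
        have := T.mul_mem h (T.inv_mem bb_mem)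
        convert this using 1; group
      · left; exact h
    · rcases ih with h | h
      · right; simpa using h
      · left
        have := T.mul_mem h bb_mem
        convert this using 1; group

lemma index_T : T.index = 2 := by
  rw [Subgroup.index_eq_two_iff]
  refine ⟨b⁻¹, fun x => ?_⟩
  have h2 : ¬ (x * b⁻¹ ∈ T ∧ x ∈ T) := by
    rintro ⟨h1, h2⟩
    apply b_not_mem
    have := T.mul_mem (T.inv_mem h1) h2
    convert this using 1; group
  rcases cover x with h | h
  · right; exact ⟨h, fun h' => h2 ⟨h', h⟩⟩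
  · left; exact ⟨h, fun h' => h2 ⟨h, h'⟩⟩

noncomputable def f0 (s : T) : F := Classical.choose s.2
lemma f0_spec (s : T) : r (f0 s) * g = g * r s := Classical.choose_spec s.2

noncomputable def f : T →* F := MonoidHom.mk' f0 (by
  intro x y
  apply r_inj
  apply g_cancel_right
  rw [f0_spec, r_mul, Matrix.mul_assoc, f0_spec, ← Matrix.mul_assoc, f0_spec, Subgroup.coe_mul,
    r_mul, Matrix.mul_assoc])

lemma f_spec (s : T) : r (f s) * g = g * r s := f0_spec s

lemma f_inj : Function.Injective f := by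
  intro x y h
  apply Subtype.ext
  apply r_inj
  apply g_cancel_left
  rw [← f_spec, ← f_spec, h]

lemma seq_zero (x : ℕ → ℤ) (h : ∀ n, 2 * x (n+2) + 3 * x (n+1) + 2 * x n = 0) : x 0 = 0 := by
  have inv : ∀ n, 2 * x (n+1) ^ 2 + 3 * x n * x (n+1) + 2 * x n ^ 2 =
      2 * x 1 ^ 2 + 3 * x 0 * x 1 + 2 * x 0 ^ 2 := by
    intro n
    induction n with
    | zero => rfl
    | succ n ih =>
      rw [← ih]
      have := h n
      linear_combination (x (n+2) - x n) * this
  have dv : ∀ k n, (2:ℤ) ^ k ∣ x (n + k) := by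
    intro k
    induction k with
    | zero => intro n; simp
    | succ k ih =>
      intro n
      obtain ⟨u, hu⟩ := ih n
      obtain ⟨v, hv⟩ := ih (n+1)
      obtain ⟨w, hw⟩ := ih (n+2)
      have := h (n + k)
      rw [show n + k + 2 = n + 2 + k by ring, show n + k + 1 = n + 1 + k by ring, hu, hv, hw] at this
      have h3 : 2 * w + 3 * v + 2 * u = 0 := by
        have hp : (2:ℤ) ^ k ≠ 0 := by positivity
        apply mul_left_cancel₀ hp
        linear_combination this
      rw [show n + (k+1) = n + 1 + k by ring, hv, pow_succ]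
      exact mul_dvd_mul_left _ ⟨-(w + u) - v, by omega⟩
  set C := 2 * x 1 ^ 2 + 3 * x 0 * x 1 + 2 * x 0 ^ 2 with hC
  have hd : ∀ k, (2:ℤ) ^ k ∣ C := by
    intro k
    rw [← inv k]
    have h1 := dv k 0
    have h2 := dv k 1
    rw [zero_add] at h1
    rw [add_comm] at h2
    refine dvd_add (dvd_add ?_ ?_) ?_
    · exact Dvd.dvd.mul_left (Dvd.dvd.pow h2 two_ne_zero) _
    · exact Dvd.dvd.mul_left h2 _
    · exact Dvd.dvd.mul_left (Dvd.dvd.pow h1 two_ne_zero) _
  have hC0 : C = 0 := by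
    by_contra hne
    have := Int.le_of_dvd (abs_pos.mpr hne) ((dvd_abs _ _).mpr (hd C.natAbs))
    have h2 : (C.natAbs : ℤ) < 2 ^ C.natAbs := by exact_mod_cast Nat.lt_two_pow_self
    rw [Int.natCast_natAbs] at h2
    omega
  nlinarith [sq_nonneg (4 * x 1 + 3 * x 0), sq_nonneg (x 0)]

lemma conj_rec (M0 M1 M2' M3 : M2) (h0 : M1 * g = g * M0) (h1 : M2' * g = g * M1)
    (h2 : M3 * g = g * M2') (i j : Fin 2) :
    2 * (M3 i j - M2' i j) + 3 * (M2' i j - M1 i j) + 2 * (M1 i j - M0 i j) = 0 := by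
  have a00 := congrFun (congrFun h0 0) 0
  have a01 := congrFun (congrFun h0 0) 1
  have a10 := congrFun (congrFun h0 1) 0
  have a11 := congrFun (congrFun h0 1) 1
  have b00 := congrFun (congrFun h1 0) 0
  have b01 := congrFun (congrFun h1 0) 1
  have b10 := congrFun (congrFun h1 1) 0
  have b11 := congrFun (congrFun h1 1) 1
  have c00 := congrFun (congrFun h2 0) 0
  have c01 := congrFun (congrFun h2 0) 1
  have c10 := congrFun (congrFun h2 1) 0
  have c11 := congrFun (congrFun h2 1) 1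
  simp [g, Matrix.mul_apply, Fin.sum_univ_two] at a00 a01 a10 a11 b00 b01 b10 b11 c00 c01 c10 c11
  fin_cases i <;> fin_cases j <;> simp <;> linarith

lemma eq_one_of_comm (x : F) (h : r x * g = g * r x) : x = 1 := by
  have a00 := congrFun (congrFun h 0) 0
  have a01 := congrFun (congrFun h 0) 1
  simp [g, Matrix.mul_apply, Fin.sum_univ_two] at a00 a01
  have hd := det_eq (rho x)
  obtain ⟨p1, p2, p3, p4⟩ := parity x
  have e00 : r x 0 0 = rho x 0 0 := rfl
  have e01 : r x 0 1 = rho x 0 1 := rfl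
  have e10 : r x 1 0 = rho x 1 0 := rfl
  have e11 : r x 1 1 = rho x 1 1 := rfl
  rw [e01, e10] at a00
  rw [e00, e01, e11] at a01
  obtain ⟨k, hk⟩ : ∃ k, rho x 0 1 = 2 * k := ⟨rho x 0 1 / 2, by omega⟩
  have h10 : rho x 1 0 = -4 * k := by omega
  have h11 : rho x 1 1 = rho x 0 0 - 5 * k := by omega
  rw [hk, h10, h11] at hd
  have hk0 : k = 0 := by
    by_contra hne
    have : 1 ≤ k ^ 2 := by
      have := sq_pos_of_ne_zero hne
      omega
    nlinarith [sq_nonneg (2 * rho x 0 0 - 5 * k)]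
  apply eq_one_of_offdiag <;> omega

theorem no_invariant (H : Subgroup F) (hH : H ≤ T)
    (hf : ∀ x : T, (x : F) ∈ H → f x ∈ H) : H = ⊥ := by
  rw [Subgroup.eq_bot_iff_forall]
  intro x hx
  let step : H → H := fun y => ⟨f ⟨y, hH y.2⟩, hf _ y.2⟩
  let s : ℕ → H := fun n => step^[n] ⟨x, hx⟩
  have hs : ∀ n, r (s (n+1)) * g = g * r (s n) := by
    intro n
    have : s (n+1) = step (s n) := Function.iterate_succ_apply' _ _ _
    rw [this]
    exact f_spec ⟨s n, hH (s n).2⟩
  have h10 : r (s 1) = r (s 0) := by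
    ext i j
    have := seq_zero (fun n => r (s (n+1)) i j - r (s n) i j) (fun n =>
      conj_rec _ _ _ _ (hs n) (hs (n+1)) (hs (n+2)) i j)
    simpa [sub_eq_zero] using this
  have := hs 0
  rw [h10] at this
  exact eq_one_of_comm x this

end Pool.Agent.H65.VirtEnd
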