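import Mathlib

set_option autoImplicit false

namespace Pool.Agent.H65.WordNoeth

def Ord {l k : ℕ} (π : Fin l → Fin k) : Prop := ∀ i, ∃ p, π p = i ∧ ∀ q < p, π q < i

lemma Ord.surj {l k : ℕ} {π : Fin l → Fin k} (h : Ord π) : Function.Surjective π :=
  fun i => (h i).imp fun _ hp => hp.1

lemma Ord.lex {l k : ℕ} {π : Fin l → Fin k} (h : Ord π) {S : Type*} [LinearOrder S]
    {v v' : Fin k → S} (hv : toLex v < toLex v') : toLex (v ∘ π) < toLex (v' ∘ π) := by
  obtain ⟨i, h1, h2⟩ := hv
  obtain ⟨p, rfl, hp⟩ := h i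
  exact ⟨p, fun q hq => h1 _ (hp q hq), h2⟩

lemma wqo {S Λ : Type*} [Finite S] [Finite Λ] (n : ℕ → ℕ) (w : ∀ k, Fin (n k) → S) (c : ℕ → Λ) :
    ∃ i j, i < j ∧ c i = c j ∧ ∃ π : Fin (n j) → Fin (n i), Ord π ∧ w j = w i ∘ π := by
  classical
  have h1 : WellQuasiOrdered (List.SublistForall₂ (fun a b : S × Prop => a = b)) := by
    rw [← Set.partiallyWellOrderedOn_univ_iff]
    have := Set.PartiallyWellOrderedOn.partiallyWellOrderedOn_sublistForall₂
      (fun a b : S × Prop => a = b) (s := Set.univ)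
      (Set.partiallyWellOrderedOn_univ_iff.2 (Finite.wellQuasiOrdered _))
    simpa using this
  have h2 := (Finite.wellQuasiOrdered (fun a b : Λ × Set S => a = b)).prod h1
  obtain ⟨i, j, hij, e1, e2⟩ := h2 fun k => ((c k, Set.range (w k)),
    List.ofFn fun p => (w k p, ∀ q < p, w k q ≠ w k p))
  simp only [Prod.mk.injEq] at e1 e2
  obtain ⟨l, l1, l2⟩ := List.sublistForall₂_iff.1 e2
  rw [List.forall₂_eq_eq_eq] at l1
  subst l1
  obtain ⟨f, hf⟩ := List.sublist_iff_exists_orderEmbedding_getElem?_eq.1 l2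
  have hf' : ∀ p : Fin (n i), ∃ q : Fin (n j), q.val = f p ∧ w j q = w i p ∧
      ((∀ r < p, w i r ≠ w i p) → ∀ r < q, w j r ≠ w j q) := by
    intro p
    have := hf p
    simp only [List.getElem?_ofFn, p.2, dite_true] at this
    split_ifs at this with h
    simp only [Option.some.injEq, Prod.mk.injEq, Fin.eta] at this
    exact ⟨⟨f p, h⟩, rfl, this.1.symm, fun hh => this.2 ▸ hh⟩
  choose e e3 e4 e5 using hf'
  have mono : ∀ p p', e p < e p' ↔ p < p' := by
    intro p p'
    rw [Fin.lt_def, e3, e3, f.lt_iff_lt, Fin.lt_def]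
  have first : ∀ q : Fin (n j), ∃ p, w i p = w j q ∧ ∀ r < p, w i r ≠ w i p := by
    intro q
    have : w j q ∈ Set.range (w i) := by rw [e1.2]; exact ⟨q, rfl⟩
    obtain ⟨p, hp, hm⟩ := (wellFounded_lt (α := Fin (n i))).has_min {p | w i p = w j q} this
    exact ⟨p, hp, fun r hr e => hm r (e.trans hp) hr⟩
  choose g g1 g2 using first
  refine ⟨i, j, hij, e1.1, fun q => if h : ∃ p, e p = q then h.choose else g q, ?_, ?_⟩
  · intro p
    have inj : ∀ p p', e p = e p' → p = p' := by
      intro p p' h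
      rcases lt_trichotomy p p' with k | k | k
      · exact absurd ((mono _ _).2 k) (by simp [h])
      · exact k
      · exact absurd ((mono _ _).2 k) (by simp [h])
    refine ⟨e p, ?_, fun q hq => ?_⟩
    · have h : ∃ p', e p' = e p := ⟨p, rfl⟩
      simp only [h, dite_true]
      exact inj _ _ h.choose_spec
    · by_cases h : ∃ p', e p' = q
      · simp only [h, dite_true]
        rw [← mono, h.choose_spec]; exact hq
      · simp only [h, dite_false]
        rw [← mono]
        refine lt_of_le_of_lt (not_lt.1 fun k => ?_) hq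
        exact e5 _ (g2 q) q k (by rw [e4, g1])
  · funext q
    by_cases h : ∃ p', e p' = q
    · simp only [Function.comp, h, dite_true]
      rw [← e4, h.choose_spec]
    · simp only [Function.comp, h, dite_false]
      exact (g1 q).symm

lemma fork {X B : Type*} [Finite X] [LinearOrder X] [AddCommGroup B]
    (C D : AddSubgroup (X → B)) (hCD : C ≤ D)
    (h : ∀ x, ∀ f ∈ D, (∀ y < x, f y = 0) → ∃ g ∈ C, (∀ y < x, g y = 0) ∧ g x = f x) : D ≤ C := by
  have key0 : ∀ f : X → B, f ≠ 0 → ∃ x, f x ≠ 0 ∧ ∀ y < x, f y = 0 := by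
    intro f hf
    obtain ⟨x, hx, hm⟩ := (wellFounded_lt (α := X)).has_min {x | f x ≠ 0} (Function.ne_iff.1 hf)
    exact ⟨x, hx, fun y hy => by_contra fun k => hm y k hy⟩
  have key : ∀ x, ∀ f ∈ D, (∀ y < x, f y = 0) → f ∈ C := by
    intro x
    induction x using WellFoundedGT.induction with
    | ind x ih =>
      intro f hf h0
      obtain ⟨g, hg, g1, g2⟩ := h x f hf h0
      have : f - g ∈ C := by
        by_cases e : f - g = 0
        · rw [e]; exact zero_mem _
        · obtain ⟨z, z1, z2⟩ := key0 _ e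
          refine ih z (not_le.1 fun k => z1 ?_) _ (sub_mem hf (hCD hg)) z2
          rcases k.lt_or_eq with k | rfl
          · simp [h0 z k, g1 z k]
          · simp [g2]
      simpa using add_mem this hg
  intro f hf
  by_cases e : f = 0
  · rw [e]; exact zero_mem _
  · obtain ⟨z, _, z2⟩ := key0 _ e
    exact key z f hf z2

variable {S B : Type*} [Finite S] [Finite B] [AddCommGroup B]

abbrev Fam (S B : Type*) [AddCommGroup B] := ∀ n : ℕ, AddSubgroup ((Fin n → S) → B)

def Minor (C : Fam S B) : Prop :=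
  ∀ (l k : ℕ) (π : Fin l → Fin k), Function.Surjective π → ∀ f ∈ C l, (fun v => f (v ∘ π)) ∈ C k

def Push (I : Fam S B) : Prop :=
  ∀ (l k : ℕ) (π : Fin l → Fin k), Function.Surjective π → ∀ c ∈ I k,
    Function.extend (fun v : Fin k → S => v ∘ π) c 0 ∈ I l

theorem dcc (C : ℕ → Fam S B) (hC : ∀ k, Minor (C k)) (ha : Antitone C) : ∃ k, C k ≤ C (k + 1) := by
  classical
  have : Fintype S := Fintype.ofFinite S
  let _ : LinearOrder S := LinearOrder.lift' _ (Fintype.equivFin S).injective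
  by_contra hn
  push Not at hn
  have : ∀ k, ∃ (n : ℕ) (x : Fin n → S), ∃ f ∈ C k n, (∀ y, toLex y < toLex x → f y = 0) ∧
      ∀ g ∈ C (k + 1) n, (∀ y, toLex y < toLex x → g y = 0) → g x ≠ f x := by
    intro k
    by_contra h
    push Not at h
    exact hn k fun n => fork (X := Lex (Fin n → S)) _ _ (ha (Nat.le_succ k) n) (h n)
  choose n x f f1 f2 f3 using this
  obtain ⟨i, j, hij, e, π, p1, p2⟩ := wqo n x fun k => f k (x k)
  refine f3 i _ (hC _ _ _ π p1.surj (f j) (ha hij _ (f1 j))) (fun y hy => f2 j _ ?_) ?_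
  · rw [p2]; exact p1.lex hy
  · rw [e, p2]

theorem acc (I : ℕ → Fam S B) (hI : ∀ k, Push (I k)) (ha : Monotone I) : ∃ k, I (k + 1) ≤ I k := by
  classical
  have : Fintype S := Fintype.ofFinite S
  let _ : LinearOrder S := LinearOrder.lift' _ (Fintype.equivFin S).injective
  by_contra hn
  push Not at hn
  have : ∀ k, ∃ (n : ℕ) (x : Fin n → S), ∃ f ∈ I (k + 1) n, (∀ y, toLex x < toLex y → f y = 0) ∧
      ∀ g ∈ I k n, (∀ y, toLex x < toLex y → g y = 0) → g x ≠ f x := by
    intro k
    by_contra h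
    push Not at h
    exact hn k fun n => fork (X := (Lex (Fin n → S))ᵒᵈ) _ _ (ha (Nat.le_succ k) n) (h n)
  choose n x f f1 f2 f3 using this
  obtain ⟨i, j, hij, e, π, p1, p2⟩ := wqo n x fun k => f k (x k)
  have inj : Function.Injective fun v : Fin (n i) → S => v ∘ π := p1.surj.injective_comp_right
  refine f3 j _ (hI _ _ _ π p1.surj (f i) (ha hij _ (f1 i))) (fun y hy => ?_) ?_
  · by_cases h : ∃ v : Fin (n i) → S, v ∘ π = y
    · obtain ⟨v, rfl⟩ := h
      rw [inj.extend_apply]
      apply f2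
      by_contra k
      rcases (not_lt.1 k).lt_or_eq with k | k
      · exact lt_asymm hy (p2 ▸ p1.lex k)
      · rw [show v = x i from k, ← p2] at hy
        exact lt_irrefl _ hy
    · rw [Function.extend_apply' _ _ _ h]; rfl
  · rw [← e, p2, inj.extend_apply]

end Pool.Agent.H65.WordNoeth
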