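import Mathlib

set_option autoImplicit false

namespace Pool.Agent.H65.Words
open FreeGroup hiding map_mul map_one map_inv IsReduced

variable {α : Type*}

/-- inverse letter -/
def linv (l : α × Bool) : α × Bool := (l.1, !l.2)

@[simp] lemma linv_linv (l : α × Bool) : linv (linv l) = l := by simp [linv]
lemma linv_ne (l : α × Bool) : linv l ≠ l := by
  obtain ⟨a, b⟩ := l; cases b <;> simp [linv]
lemma linv_inj {l m : α × Bool} (h : linv l = linv m) : l = m := by
  rw [← linv_linv l, h, linv_linv]
lemma invRev_singleton (l : α × Bool) : invRev [l] = [linv l] := rfl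
lemma invRev_cons' (l : α × Bool) (L : List (α × Bool)) :
    invRev (l :: L) = invRev L ++ [linv l] := by rw [invRev_cons]; rfl
lemma mk_linv (l : α × Bool) : (mk [linv l] : FreeGroup α) = (mk [l])⁻¹ := rfl
lemma mk_cons (l : α × Bool) (L : List (α × Bool)) : mk (l :: L) = mk [l] * mk L := rfl
lemma mk_nil : (mk [] : FreeGroup α) = 1 := rfl

lemma rel_iff (a b : α × Bool) : (a.1 = b.1 → a.2 = b.2) ↔ b ≠ linv a := by
  obtain ⟨a, s⟩ := a
  obtain ⟨b, t⟩ := b
  cases s <;> cases t <;> simp [linv, eq_comm]

lemma isReduced_cons_iff (l : α × Bool) (L : List (α × Bool)) :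
    FreeGroup.IsReduced (l :: L) ↔ FreeGroup.IsReduced L ∧ L.head? ≠ some (linv l) := by
  cases L with
  | nil => simp
  | cons m L => rw [isReduced_cons_cons, rel_iff, and_comm]; simp

lemma isReduced_append_iff (L M : List (α × Bool)) :
    FreeGroup.IsReduced (L ++ M) ↔ FreeGroup.IsReduced L ∧ FreeGroup.IsReduced M ∧
      ∀ x ∈ L.getLast?, ∀ y ∈ M.head?, y ≠ linv x := by
  unfold FreeGroup.IsReduced
  rw [List.isChain_append]
  simp only [rel_iff]

lemma isReduced_invRev {L : List (α × Bool)} (h : FreeGroup.IsReduced L) :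
    FreeGroup.IsReduced (invRev L) := by
  rw [isReduced_iff_not_step] at *
  intro M hM
  apply h (invRev M)
  have := hM.invRev
  rwa [invRev_invRev] at this

lemma getLast?_invRev (L : List (α × Bool)) : (invRev L).getLast? = L.head?.map linv := by
  cases L with
  | nil => rfl
  | cons l L => rw [invRev_cons']; simp

lemma head?_invRev (L : List (α × Bool)) : (invRev L).head? = L.getLast?.map linv := by
  have := getLast?_invRev (invRev L)
  rw [invRev_invRev] at this
  rw [this, Option.map_map]
  have : (linv ∘ linv : α × Bool → α × Bool) = id := by funext x; simp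
  simp [this]

variable [DecidableEq α]

lemma toWord_mk_red {L : List (α × Bool)} (h : FreeGroup.IsReduced L) : (mk L).toWord = L := by
  rw [toWord_mk, h.reduce_eq]

lemma norm_mk_red {L : List (α × Bool)} (h : FreeGroup.IsReduced L) :
    (mk L).norm = L.length := by
  unfold FreeGroup.norm; rw [toWord_mk_red h]

lemma mk_inj_red {L M : List (α × Bool)} (h : FreeGroup.IsReduced L) (h' : FreeGroup.IsReduced M)
    (e : mk L = mk M) : L = M := by
  rw [← toWord_mk_red h, e, toWord_mk_red h']

lemma toWord_letter_mul_of_ne (l : α × Bool) (g : FreeGroup α)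
    (h : g.toWord.head? ≠ some (linv l)) : (mk [l] * g).toWord = l :: g.toWord := by
  conv_lhs => rw [← mk_toWord (x := g), ← mk_cons]
  exact toWord_mk_red ((isReduced_cons_iff _ _).2 ⟨isReduced_toWord, h⟩)

lemma toWord_letter_mul_of_eq (l : α × Bool) (g : FreeGroup α)
    (h : g.toWord.head? = some (linv l)) : (mk [l] * g).toWord = g.toWord.tail := by
  obtain ⟨L, hL⟩ : ∃ L, g.toWord = linv l :: L := by
    cases hg : g.toWord with
    | nil => simp [hg] at h
    | cons m L => simp [hg] at h; exact ⟨L, by rw [h]⟩
  have hr : FreeGroup.IsReduced (linv l :: L) := hL ▸ isReduced_toWord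
  conv_lhs => rw [← mk_toWord (x := g), hL, mk_cons (linv l), mk_linv, mul_inv_cancel_left]
  rw [hL, toWord_mk_red ((isReduced_cons_iff _ _).1 hr).1]; rfl

/-- if `g` does not begin with the inverse of `l :: q`, then `(l :: q) * g` begins with `l`. -/
lemma head_mul (l : α × Bool) (q : List (α × Bool)) (hq : FreeGroup.IsReduced (l :: q))
    (g : FreeGroup α) (hg : ¬ invRev (l :: q) <+: g.toWord) :
    (mk (l :: q) * g).toWord.head? = some l := by
  induction q generalizing l with
  | nil =>
    rw [toWord_letter_mul_of_ne]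
    · rfl
    · intro h
      apply hg
      rw [invRev_singleton]
      cases hw : g.toWord with
      | nil => simp [hw] at h
      | cons m L => simp [hw] at h; simp [h]
  | cons m q ih =>
    rw [isReduced_cons_iff] at hq
    rw [mk_cons, mul_assoc, toWord_letter_mul_of_ne]
    · rfl
    by_cases hp : invRev (m :: q) <+: g.toWord
    · obtain ⟨w, hw⟩ := hp
      have hr : FreeGroup.IsReduced (invRev (m :: q) ++ w) := hw ▸ isReduced_toWord
      have hr' : FreeGroup.IsReduced w := ((isReduced_append_iff _ _).1 hr).2.1
      have : mk (m :: q) * g = mk w := by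
        rw [← mk_toWord (x := g), ← hw, ← mul_mk, ← inv_mk, mul_inv_cancel_left]
      rw [this, toWord_mk_red hr']
      intro h
      apply hg
      rw [invRev_cons' l, ← hw]
      cases w with
      | nil => simp at h
      | cons x w => simp at h; rw [h]; simp
    · rw [ih m hq.1 hp]
      simpa using hq.2

lemma toWord_mk_mul_of_head (p : List (α × Bool)) (g : FreeGroup α)
    (hp : FreeGroup.IsReduced p) (h : ∀ x ∈ p.getLast?, g.toWord.head? ≠ some (linv x)) :
    (mk p * g).toWord = p ++ g.toWord := by
  conv_lhs => rw [← mk_toWord (x := g), mul_mk]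
  apply toWord_mk_red
  rw [isReduced_append_iff]
  refine ⟨hp, isReduced_toWord, fun x hx y hy e => h x hx ?_⟩
  rw [← e]; exact hy

omit [DecidableEq α] in
/-- ping-pong with a base point -/
lemma pingpong {ι G X : Type*} [Group G] [MulAction G X] (a : ι → G) (Z : ι × Bool → Set X)
    (x0 : X) (h0 : ∀ l, x0 ∉ Z l) (hd : ∀ l m, l ≠ m → Disjoint (Z l) (Z m))
    (ha : ∀ l x, x ∉ Z (linv l) → FreeGroup.lift a (mk [l]) • x ∈ Z l) :
    Function.Injective (FreeGroup.lift a) := by
  classical
  have key : ∀ (L : List (ι × Bool)) (l : ι × Bool), FreeGroup.IsReduced (l :: L) →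
      FreeGroup.lift a (mk (l :: L)) • x0 ∈ Z l := by
    intro L
    induction L with
    | nil => intro l _; exact ha l x0 (h0 _)
    | cons m L ih =>
      intro l hl
      rw [isReduced_cons_iff] at hl
      rw [mk_cons, map_mul, mul_smul]
      apply ha
      have h1 := ih m hl.1
      have h2 : m ≠ linv l := by simpa using hl.2
      exact Set.disjoint_left.1 (hd _ _ h2) h1
  rw [injective_iff_map_eq_one]
  intro g hg
  by_contra hne
  have h1 : g.toWord ≠ [] := by simpa using hne
  obtain ⟨l, L, hl⟩ := List.exists_cons_of_ne_nil h1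
  have := key L l (hl ▸ isReduced_toWord)
  rw [← hl, mk_toWord, hg, one_smul] at this
  exact h0 l this

section count
variable [Fintype α]

/-- reduced words of length `k+1` starting with `l` -/
def T : ℕ → α × Bool → Finset (List (α × Bool))
  | 0, l => {[l]}
  | k+1, l => ((Finset.univ.erase (linv l)).biUnion (T k)).image (List.cons l)

lemma mem_T (k : ℕ) (l : α × Bool) (L : List (α × Bool)) :
    L ∈ T k l ↔ FreeGroup.IsReduced L ∧ L.length = k + 1 ∧ L.head? = some l := by
  induction k generalizing l L with
  | zero =>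
    simp only [T, Finset.mem_singleton]
    constructor
    · rintro rfl; simp
    · rintro ⟨_, h2, h3⟩
      match L, h2, h3 with
      | [x], _, h3 => simpa using h3
  | succ k ih =>
    simp only [T, Finset.mem_image, Finset.mem_biUnion, Finset.mem_erase, Finset.mem_univ,
      and_true, ih]
    constructor
    · rintro ⟨M, ⟨m, hm, h1, h2, h3⟩, rfl⟩
      refine ⟨(isReduced_cons_iff _ _).2 ⟨h1, by rw [h3]; simpa using hm⟩, by simp [h2], rfl⟩
    · rintro ⟨h1, h2, h3⟩
      match L, h1, h2, h3 with
      | x :: y :: M, h1, h2, h3 =>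
        simp at h3
        subst h3
        rw [isReduced_cons_iff] at h1
        exact ⟨y :: M, ⟨y, by simpa using h1.2, h1.1, by simpa using h2, rfl⟩, rfl⟩

lemma card_T (k : ℕ) (l : α × Bool) : (T k l).card = (2 * Fintype.card α - 1) ^ k := by
  induction k generalizing l with
  | zero => simp [T]
  | succ k ih =>
    rw [T, Finset.card_image_of_injective _ List.cons_injective, Finset.card_biUnion]
    · simp [ih, Finset.card_erase_of_mem, pow_succ, mul_comm]
    · intro x _ y _ hxy
      rw [Function.onFun, Finset.disjoint_left]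
      intro L h1 h2
      rw [mem_T] at h1 h2
      apply hxy
      have := h1.2.2.symm.trans h2.2.2
      simpa using this

/-- the ball of radius `k` -/
def ball : ℕ → Finset (FreeGroup α)
  | 0 => {1}
  | k+1 => ball k ∪ (Finset.univ.biUnion (T k)).image mk

lemma mem_ball (k : ℕ) (g : FreeGroup α) : g ∈ ball k ↔ g.norm ≤ k := by
  induction k with
  | zero => simp [ball]
  | succ k ih =>
    simp only [ball, Finset.mem_union, ih, Finset.mem_image, Finset.mem_biUnion, Finset.mem_univ,
      true_and, mem_T]
    constructor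
    · rintro (h | ⟨L, ⟨l, h1, h2, _⟩, rfl⟩)
      · omega
      · rw [norm_mk_red h1]; omega
    · intro h
      by_cases h' : g.norm ≤ k
      · exact Or.inl h'
      · right
        have h2 : g.toWord.length = k + 1 := by unfold FreeGroup.norm at *; omega
        refine ⟨g.toWord, ?_, mk_toWord⟩
        cases hw : g.toWord with
        | nil => simp [hw] at h2
        | cons l L => exact ⟨l, hw ▸ isReduced_toWord, hw ▸ h2, rfl⟩

lemma card_ball_le (hα : 1 ≤ Fintype.card α) (k : ℕ) :
    (Fintype.card α - 1) * (ball (α := α) k).card + 1 ≤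
      Fintype.card α * (2 * Fintype.card α - 1) ^ k := by
  obtain ⟨s, hs⟩ : ∃ s, Fintype.card α = s + 1 := ⟨Fintype.card α - 1, by omega⟩
  have e : 2 * Fintype.card α - 1 = 2 * s + 1 := by omega
  rw [e, hs, Nat.add_sub_cancel]
  induction k with
  | zero => simp [ball]
  | succ k ih =>
    have h1 : (ball (α := α) (k+1)).card ≤ (ball (α := α) k).card + (2 * s + 2) * (2 * s + 1) ^ k := by
      rw [ball]
      refine (Finset.card_union_le _ _).trans (Nat.add_le_add_left ?_ _)
      refine Finset.card_image_le.trans (Finset.card_biUnion_le.trans ?_)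
      simp only [card_T, e]
      simp [hs]
      exact le_of_eq (by ring)
    rw [pow_succ]
    nlinarith

end count

end Pool.Agent.H65.Words
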