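import Pool.Agent.H65.SquierU
import Pool.Agent.H65.RaagRF

/-! The diagram group of `⟨a,c,b,d,p | a=ap, a=c, c=ap, b=pb, b=d, d=pb⟩` at `ab` embeds in a
semidirect product of free groups. Letters: `a=0, c=1, b=2, d=3, p=4`. -/

namespace Pool.Agent.H65.ZZ

open Squier Raag SemidirectProduct

abbrev Wd : Type := List (Fin 5)

def R : Set (Wd × Wd) :=
  {([0], [0, 4]), ([0], [1]), ([1], [0, 4]), ([2], [4, 2]), ([2], [3]), ([3], [4, 2])}

abbrev F2 : Type := FreeGroup Bool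
def t : F2 := FreeGroup.of true
def bb : F2 := FreeGroup.of false
def H : Subgroup F2 := Subgroup.closure (Set.range fun n : ℕ => (t ^ n)⁻¹ * bb * t ^ n)
abbrev E : Type := FreeGroup (F2 ⧸ H) ⋊[pact F2 (F2 ⧸ H)] F2

def PL (u : Wd) : Prop := (u.head? = some 0 ∨ u.head? = some 1) ∧ ∀ z ∈ u.tail, z = 4
def PR (v : Wd) : Prop := (v.getLast? = some 2 ∨ v.getLast? = some 3) ∧ ∀ z ∈ v.dropLast, z = 4
def RA (r : Wd × Wd) : Prop := r = ([0], [0, 4]) ∨ r = ([0], [1]) ∨ r = ([1], [0, 4])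
def RB (r : Wd × Wd) : Prop := r = ([2], [4, 2]) ∨ r = ([2], [3]) ∨ r = ([3], [4, 2])

theorem pl {r : Wd × Wd} (hr : r ∈ R) (a b : Wd) :
    (PL (a ++ r.1 ++ b) ↔ a = [] ∧ RA r ∧ ∀ z ∈ b, z = 4) ∧
    (PL (a ++ r.2 ++ b) ↔ a = [] ∧ RA r ∧ ∀ z ∈ b, z = 4) := by
  rcases hr with rfl | rfl | rfl | rfl | rfl | rfl <;> cases a <;>
    simp [PL, RA, or_imp, forall_and]

theorem pr {r : Wd × Wd} (hr : r ∈ R) (a b : Wd) :
    (PR (a ++ r.1 ++ b) ↔ b = [] ∧ RB r ∧ ∀ z ∈ a, z = 4) ∧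
    (PR (a ++ r.2 ++ b) ↔ b = [] ∧ RB r ∧ ∀ z ∈ a, z = 4) := by
  rcases List.eq_nil_or_concat' b with rfl | ⟨b, y, rfl⟩
  · rcases hr with rfl | rfl | rfl | rfl | rfl | rfl <;> simp [PR, RB, or_imp, forall_and]
  · simp only [← List.append_assoc, PR, List.dropLast_concat]
    rcases hr with rfl | rfl | rfl | rfl | rfl | rfl <;> simp [or_imp, forall_and]

def gr (r : Wd × Wd) : F2 := if r = ([2], [4, 2]) then t else if r = ([3], [4, 2]) then t * bb else 1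

open Classical in
noncomputable def γ (x : Tr (Fin 5)) : E :=
  if x.1 = [] ∧ x.2.1 = ([1], [0, 4]) ∧ PR x.2.2 then
    inl (FreeGroup.of ((t ^ (x.2.2.length - 1) : F2) : F2 ⧸ H))
  else if x.2.2 = [] ∧ PL x.1 then inr (gr x.2.1) else 1

theorem ne1 {r : Wd × Wd} (hr : r ∈ R) : r.1 ≠ [] ∧ r.2 ≠ [] := by
  rcases hr with rfl | rfl | rfl | rfl | rfl | rfl <;> simp

theorem conj_of (g x y : F2) (h : (g * x)⁻¹ * y ∈ H) :
    (inr g : E) * inl (FreeGroup.of (x : F2 ⧸ H)) = inl (FreeGroup.of (y : F2 ⧸ H)) * inr g := by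
  rw [← QuotientGroup.eq.2 h, ← mul_inv_eq_iff_eq_mul, ← map_inv, ← inl_aut, pact_of]
  rfl

theorem mem_H (n : ℕ) : (t ^ n)⁻¹ * bb * t ^ n ∈ H := Subgroup.subset_closure ⟨n, rfl⟩

noncomputable def Φ : U R →* E := ulift γ fun a b c r hr s hs => by
  have h1 : γ (a ++ r.2 ++ b, s, c) = γ (a ++ r.1 ++ b, s, c) := by
    classical
    unfold γ
    rw [if_neg (by simp [(ne1 hr).2]), if_neg (c := _ ∧ _ ∧ _) (by simp [(ne1 hr).1])]
    exact if_congr (and_congr_right' ((pl hr a b).2.trans (pl hr a b).1.symm)) rfl rfl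
  rw [h1]
  by_cases h : a = [] ∧ r = ([1], [0, 4]) ∧ c = [] ∧ RB s ∧ ∀ z ∈ b, z = 4
  · obtain ⟨rfl, rfl, rfl, h2, h3⟩ := h
    have h4 := (pl hr [] b).1.2 ⟨rfl, .inr (.inr rfl), h3⟩
    have h5 := (pr hs b []).1.2 ⟨rfl, h2, h3⟩
    have h6 := (pr hs b []).2.2 ⟨rfl, h2, h3⟩
    simp only [γ, h4, h5, h6, and_self, if_true]
    rw [if_neg (by simp)]
    refine conj_of _ _ _ ?_
    rcases h2 with rfl | rfl | rfl
    · simp [gr, pow_succ']
    · simp [gr]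
    · refine inv_mem_iff.1 ?_
      convert mem_H b.length using 1
      simp [gr, pow_succ', mul_assoc]
  · have h2 : γ (a, r, b ++ s.1 ++ c) = 1 := by
      unfold γ
      rw [if_neg fun h' => h ⟨h'.1, h'.2.1, (pr hs b c).1.1 h'.2.2⟩, if_neg (by simp [(ne1 hs).1])]
    have h3 : γ (a, r, b ++ s.2 ++ c) = 1 := by
      unfold γ
      rw [if_neg fun h' => h ⟨h'.1, h'.2.1, (pr hs b c).2.1 h'.2.2⟩, if_neg (by simp [(ne1 hs).2])]
    rw [h2, h3, mul_one, one_mul]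

def A0 : U R := e R ([], ([0], [0, 4]), [])
def A1 : U R := e R ([], ([0], [1]), [])
def A2 : U R := e R ([], ([1], [0, 4]), [])
def B0 : U R := e R ([], ([2], [4, 2]), [])
def B1 : U R := e R ([], ([2], [3]), [])
def B2 : U R := e R ([], ([3], [4, 2]), [])

theorem pA0 : Pth R [0] [0, 4] A0 := Pth.edge [] [] (r := ([0], [0, 4])) (by simp [R])
theorem pA1 : Pth R [0] [1] A1 := Pth.edge [] [] (r := ([0], [1])) (by simp [R])
theorem pA2 : Pth R [1] [0, 4] A2 := Pth.edge [] [] (r := ([1], [0, 4])) (by simp [R])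
theorem pB0 : Pth R [2] [4, 2] B0 := Pth.edge [] [] (r := ([2], [4, 2])) (by simp [R])
theorem pB1 : Pth R [2] [3] B1 := Pth.edge [] [] (r := ([2], [3])) (by simp [R])
theorem pB2 : Pth R [3] [4, 2] B2 := Pth.edge [] [] (r := ([3], [4, 2])) (by simp [R])

def α0 : U R := A0⁻¹ * (A2 * A1)
def β0 : U R := B0⁻¹ * (B2 * B1)
theorem pα0 : Pth R [0] [0] α0 := pA0.inv.mul (pA2.mul pA1)
theorem pβ0 : Pth R [2] [2] β0 := pB0.inv.mul (pB2.mul pB1)

def α : U R := Rw [2] α0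
def β : U R := Lw [0] β0
def T : U R := (Rw [2] A0)⁻¹ * Lw [0] B0
theorem pα : Pth R [0, 2] [0, 2] α := pα0.R' [2]
theorem pβ : Pth R [0, 2] [0, 2] β := pβ0.L [0]
theorem pT : Pth R [0, 2] [0, 2] T := (pA0.R' [2]).inv.mul (pB0.L [0])

abbrev P (n : ℕ) : Wd := List.replicate n 4

theorem P4 (n : ℕ) (v : Wd) : P n ++ 4 :: v = P (n + 1) ++ v := by
  rw [← List.singleton_append, ← List.append_assoc, ← List.replicate_succ']

def lam : ℕ → U R
  | 0 => 1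
  | n + 1 => Rw (P n) A0 * lam n

def mu : ℕ → U R
  | 0 => 1
  | n + 1 => Lw [4] (mu n) * B0

theorem plam : ∀ n, Pth R [0] (0 :: P n) (lam n)
  | 0 => .one _
  | n + 1 => (pA0.R' (P n)).mul (plam n)

theorem pmu : ∀ n, Pth R [2] (P n ++ [2]) (mu n)
  | 0 => .one _
  | n + 1 => ((pmu n).L [4]).mul pB0

theorem lam_succ : ∀ n, lam (n + 1) = Rw [4] (lam n) * A0
  | 0 => by simp [lam, A0]
  | n + 1 => by
    conv_rhs => rw [lam, map_mul, Rw_Rw, mul_assoc, ← List.replicate_succ', ← lam_succ n]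
    rfl

theorem T_pow (n : ℕ) : T ^ n = (Rw [2] (lam n))⁻¹ * Lw [0] (mu n) := by
  induction n with
  | zero => simp [lam, mu]
  | succ n ih =>
    have := inter pA0 (pmu n)
    rw [pow_succ, ih, lam, mu, T, map_mul, map_mul, Rw_Rw, Lw_Lw]
    rw [← eq_inv_mul_iff_mul_eq] at this
    rw [this]
    simp [mul_assoc]

theorem T_conj (n : ℕ) : T ^ n * α * (T ^ n)⁻¹ =
    (Rw [2] (lam n))⁻¹ * Rw (P n ++ [2]) α0 * Rw [2] (lam n) := by
  rw [T_pow, mul_assoc _ _ α, α, ← inter pα0 (pmu n)]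
  group

theorem comm_n (n : ℕ) : Commute (T ^ n * α * (T ^ n)⁻¹) β := by
  rw [T_conj, ← Rw_Rw, ← map_inv, ← map_mul, ← map_mul]
  exact inter (((plam n).inv.mul (pα0.R' (P n))).mul (plam n)) pβ0

def ψ : F2 →* U R := FreeGroup.lift fun x => bif x then T else β

@[simp] theorem ψt : ψ t = T := FreeGroup.lift_apply_of
@[simp] theorem ψb : ψ bb = β := FreeGroup.lift_apply_of

theorem comm_H {x : F2} (h : x ∈ H) : Commute α (ψ x) := by
  induction h using Subgroup.closure_induction with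
  | mem x hx =>
    obtain ⟨n, rfl⟩ := hx
    have := (comm_n n).conj (T ^ n)⁻¹
    simpa [mul_assoc] using this
  | one => simp
  | mul x y _ _ hx hy => simpa using hx.mul_right hy
  | inv x _ hx => simpa using hx.inv_right

def ω : F2 ⧸ H → U R := Quotient.lift (fun x => ψ x * α * (ψ x)⁻¹) fun x y h => by
  have := (comm_H (QuotientGroup.leftRel_apply.1 h)).eq
  rw [map_mul, map_inv] at this
  calc _ = ψ x * (α * ((ψ x)⁻¹ * ψ y)) * (ψ y)⁻¹ := by group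
    _ = _ := by rw [this]; group

def Ψ : E →* U R := SemidirectProduct.lift (FreeGroup.lift ω) ψ fun g => by
  ext ⟨x⟩
  simp only [MulEquiv.toMonoidHom_eq_coe, MonoidHom.comp_apply, MonoidHom.coe_coe, pact_of,
    FreeGroup.lift_apply_of, MulAut.conj_apply]
  change ψ (g * x) * _ * (ψ (g * x))⁻¹ = ψ g * (ψ x * _ * (ψ x)⁻¹) * (ψ g)⁻¹
  simp [mul_assoc]

def σ (x : Fin 5) : U R := if x = 1 then A1 else 1
def σ' (y : Fin 5) : U R := if y = 3 then B1 else 1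
def gx (x : Fin 5) (n : ℕ) : U R := Rw (P n) (σ x) * lam n
def τ (w : Wd) : U R := Lw w.dropLast (σ' (w.getLastD 0)) * Rw [2] (gx (w.headD 0) (w.length - 2))

theorem τ_eq (x y : Fin 5) (n : ℕ) :
    τ (x :: (P n ++ [y])) = Lw (x :: P n) (σ' y) * Rw [2] (gx x n) := by
  rw [τ, ← List.cons_append, List.dropLast_concat, List.getLastD_concat]
  simp

theorem pσ' {y : Fin 5} (h : y = 2 ∨ y = 3) : Pth R [2] [y] (σ' y) := by
  rcases h with rfl | rfl
  exacts [.one _, pB1]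

theorem pgx {x : Fin 5} (h : x = 0 ∨ x = 1) (n : ℕ) : Pth R [0] (x :: P n) (gx x n) := by
  refine Pth.mul (Pth.R' (x := [0]) (y := [x]) ?_ _) (plam n)
  rcases h with rfl | rfl
  exacts [.one _, pA1]

theorem left_edge {r : Wd × Wd} (hr : RA r) {y : Fin 5} (h : y = 2 ∨ y = 3) (n : ℕ) :
    e R ([], r, P n ++ [y]) * τ (r.1 ++ (P n ++ [y])) =
      τ (r.2 ++ (P n ++ [y])) * Ψ (γ ([], r, P n ++ [y])) := by
  have hp : PR (P n ++ [y]) := by simpa [PR] using h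
  have key : ∀ {x x' : Wd} {g : U R}, Pth R x x' g → Rw (P n ++ [y]) g * Lw (x ++ P n) (σ' y) =
      Lw (x' ++ P n) (σ' y) * Rw (P n ++ [2]) g := fun hg => by
    simpa only [Rw_Rw] using inter (hg.R' (P n)) (pσ' h)
  rcases hr with rfl | rfl | rfl
  · have := key pA0
    change Rw (P n ++ [y]) A0 * τ (0 :: (P n ++ [y])) = τ (0 :: (P (n + 1) ++ [y])) * _
    rw [τ_eq, τ_eq, ← mul_assoc]
    simp_all [γ, gx, σ, lam, Rw_Rw, mul_assoc, List.replicate_succ]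
  · have := key pA1
    change Rw (P n ++ [y]) A1 * τ (0 :: (P n ++ [y])) = τ (1 :: (P n ++ [y])) * _
    rw [τ_eq, τ_eq, ← mul_assoc]
    simp_all [γ, gx, σ, lam, Rw_Rw, mul_assoc]
  · have := key pA2
    change Rw (P n ++ [y]) A2 * τ (1 :: (P n ++ [y])) = τ (0 :: (P (n + 1) ++ [y])) * _
    have h2 : Ψ (γ ([], ([1], [0, 4]), P n ++ [y])) = T ^ n * α * (T ^ n)⁻¹ := by
      simp [γ, hp, Ψ, ω]
    rw [τ_eq, τ_eq, ← mul_assoc, h2, T_conj]
    simp_all [gx, σ, lam, Rw_Rw, mul_assoc, List.replicate_succ, α0]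

theorem right_edge {r : Wd × Wd} (hr : RB r) {x : Fin 5} (h : x = 0 ∨ x = 1) (n : ℕ) :
    e R (x :: P n, r, []) * τ (x :: (P n ++ r.1)) =
      τ (x :: (P n ++ r.2)) * Ψ (γ (x :: P n, r, [])) := by
  have hp : PL (x :: P n) := by simpa [PL] using h
  have h1 : γ (x :: P n, r, []) = inr (gr r) := by simp [γ, hp]
  have h2 : gx x (n + 1) = Rw [4] (gx x n) * A0 := by
    rw [gx, gx, lam_succ, map_mul, Rw_Rw, ← List.replicate_succ', mul_assoc]
  have h3 : ∀ s, e R (x :: P n, s, []) = Lw (x :: P n) (e R ([], s, [])) := fun s => by simp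
  rw [h1, h3, Ψ, lift_inr]
  rcases hr with rfl | rfl | rfl
  · have := inter (pgx h n) pB0
    change Lw _ B0 * τ (x :: (P n ++ [2])) = τ (x :: (P n ++ 4 :: [2])) * _
    rw [P4, τ_eq, τ_eq, h2]
    simp [σ', ← this, gr, T, Rw_Rw]
  · change Lw _ B1 * τ (x :: (P n ++ [2])) = τ (x :: (P n ++ [3])) * _
    rw [τ_eq, τ_eq]
    simp [σ', gr]
  · have := inter (pgx h n) (pB2.mul pB1)
    change Lw _ B2 * τ (x :: (P n ++ [3])) = τ (x :: (P n ++ 4 :: [2])) * _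
    rw [P4, τ_eq, τ_eq, h2, ← mul_assoc, σ', if_pos rfl,
      ← map_mul, ← this]
    simp [σ', gr, T, Rw_Rw, β, β0, mul_assoc]

def C (w : Wd) : Prop := PL w.dropLast ∧ (w.getLast? = some 2 ∨ w.getLast? = some 3)

theorem edge {r : Wd × Wd} (hr : r ∈ R) {a b : Wd} (h : C (a ++ r.1 ++ b) ∨ C (a ++ r.2 ++ b)) :
    (C (a ++ r.1 ++ b) ∧ C (a ++ r.2 ++ b)) ∧
      e R (a, r, b) * τ (a ++ r.1 ++ b) = τ (a ++ r.2 ++ b) * Ψ (Φ (e R (a, r, b))) := by
  rw [Φ, ulift_e]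
  rcases List.eq_nil_or_concat' b with rfl | ⟨b, y, rfl⟩
  · have h0 : PL (a ++ [4]) ↔ PL a := by cases a <;> simp [PL, or_imp, forall_and]
    have h1 : (C (a ++ r.1 ++ []) ↔ RB r ∧ PL a) ∧ (C (a ++ r.2 ++ []) ↔ RB r ∧ PL a) := by
      rcases hr with rfl | rfl | rfl | rfl | rfl | rfl <;> simp [C, RB, h0]
    rw [h1.1, h1.2, or_self] at h
    refine ⟨⟨h1.1.2 h, h1.2.2 h⟩, ?_⟩
    rcases a with _ | ⟨x, a⟩
    · simp [PL] at h
    obtain ⟨n, rfl⟩ : ∃ n, a = P n := ⟨_, List.eq_replicate_iff.2 ⟨rfl, h.2.2⟩⟩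
    simpa using right_edge h.1 (by simpa using h.2.1) n
  · simp only [← List.append_assoc, C, List.dropLast_concat, List.getLast?_concat, (pl hr a b).1,
      (pl hr a b).2, or_self, and_self] at h ⊢
    refine ⟨h, ?_⟩
    obtain ⟨⟨rfl, h1, h2⟩, h3⟩ := h
    obtain ⟨n, rfl⟩ : ∃ n, b = P n := ⟨_, List.eq_replicate_iff.2 ⟨rfl, h2⟩⟩
    simpa using left_edge h1 (by simpa using h3) n

theorem key {z : Wd} {g : U R} (h : Pth R [0, 2] z g) : C z ∧ g = τ z * Ψ (Φ g) := by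
  induction h with
  | one => exact ⟨by simp [C, PL], by simp [τ, σ, σ', gx, lam]⟩
  | pos a r b hr _ ih =>
    obtain ⟨h1, h2⟩ := edge hr (.inl ih.1)
    refine ⟨h1.2, ?_⟩
    rw [map_mul, map_mul, ← mul_assoc, ← h2, mul_assoc, ← ih.2]
  | neg a r b hr _ ih =>
    obtain ⟨h1, h2⟩ := edge hr (.inr ih.1)
    refine ⟨h1.1, ?_⟩
    rw [map_mul, map_mul, map_inv, map_inv, inv_mul_eq_iff_eq_mul, ← mul_assoc, ← mul_assoc, h2,
      mul_inv_cancel_right, ← ih.2]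

theorem Φ_inj {g : U R} (h : Pth R [0, 2] [0, 2] g) (h1 : Φ g = 1) : g = 1 := by
  rw [(key h).2, h1]
  simp [τ, σ, σ', gx, lam]

end Pool.Agent.H65.ZZ
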