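import Pool.Agent.H65.ZZ1
import Pool.Agent.H65.FreeBasic

/-! Group theoretic properties of the example. -/

namespace Pool.Agent.H65.ZZ

open Squier Raag SemidirectProduct

theorem dep2 {G : Type} [Group G] [IsFreeGroup G] {x y : G} (h : Commute x y) :
    ∃ m n : ℤ, ¬ (m = 0 ∧ n = 0) ∧ x ^ m * y ^ n = 1 := by
  obtain ⟨s, p, q, rfl, rfl⟩ := FreeBasic.comm_root h.eq
  by_cases hp : p = 0
  · exact ⟨1, 0, by simp, by simp [hp]⟩
  · exact ⟨q, -p, by simp [hp], by rw [← zpow_mul, ← zpow_mul, ← zpow_add]; simp [mul_comm]⟩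

theorem dep3' {x y z : E} (hxy : Commute x y) (hxz : Commute x z) (hyz : Commute y z) {m n : ℤ}
    (hm : m ≠ 0) (h : rightHom (x ^ m * y ^ n) = 1) :
    ∃ a b c : ℤ, ¬ (a = 0 ∧ b = 0 ∧ c = 0) ∧ x ^ a * y ^ b * z ^ c = 1 := by
  obtain ⟨p, q, h1, h2⟩ := dep2 (hyz.map rightHom)
  rw [← map_zpow, ← map_zpow, ← map_mul] at h2
  rw [← MonoidHom.mem_ker, ← range_inl_eq_ker_rightHom] at h h2
  obtain ⟨u, hu⟩ := h
  obtain ⟨v, hv⟩ := h2
  have hc : Commute (x ^ m * y ^ n) (y ^ p * z ^ q) :=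
    ((hxy.zpow_zpow _ _).mul_right (hxz.zpow_zpow _ _)).mul_left
      (((Commute.refl y).zpow_zpow _ _).mul_right (hyz.zpow_zpow _ _))
  rw [← hu, ← hv] at hc
  obtain ⟨a, b, h3, h4⟩ := dep2 (Commute.of_map inl_injective hc)
  refine ⟨m * a, n * a + p * b, q * b, fun ⟨e1, e2, e3⟩ => ?_, ?_⟩
  · obtain rfl : a = 0 := (mul_eq_zero.1 e1).resolve_left hm
    have hb : b ≠ 0 := fun e => h3 ⟨rfl, e⟩
    exact h1 ⟨by simpa [hb] using e2, by simpa [hb] using e3⟩
  · have := congrArg (inl (φ := pact F2 (F2 ⧸ H))) h4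
    rw [map_mul, map_zpow, map_zpow, hu, hv, (hxy.zpow_zpow _ _).mul_zpow,
      (hyz.zpow_zpow _ _).mul_zpow, map_one] at this
    simpa only [zpow_add, zpow_mul, mul_assoc] using this

theorem dep3 {x y z : E} (hxy : Commute x y) (hxz : Commute x z) (hyz : Commute y z) :
    ∃ a b c : ℤ, ¬ (a = 0 ∧ b = 0 ∧ c = 0) ∧ x ^ a * y ^ b * z ^ c = 1 := by
  obtain ⟨m, n, h1, h2⟩ := dep2 (hxy.map rightHom)
  rw [← map_zpow, ← map_zpow, ← map_mul] at h2
  by_cases hm : m = 0
  · obtain ⟨a, b, c, h3, h4⟩ := dep3' hxy.symm hyz hxz (fun e => h1 ⟨hm, e⟩)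
      ((hxy.zpow_zpow m n).eq ▸ h2)
    exact ⟨b, a, c, by tauto, by rw [(hxy.zpow_zpow b a).eq, h4]⟩
  · exact dep3' hxy hxz hyz hm h2

def sh : Equiv.Perm (ℤ × Bool) := (Equiv.addRight 1).prodCongr (Equiv.refl _)
def χ : F2 →* Equiv.Perm (ℤ × Bool) :=
  FreeGroup.lift fun x => bif x then sh else Equiv.swap (0, false) (0, true)

theorem not_H : t * bb⁻¹ * t⁻¹ ∉ H := fun h => by
  have h1 : ∀ n : ℕ, (sh ^ n) (1, false) = ((1 + n : ℤ), false) := fun n => by
    induction n with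
    | zero => simp
    | succ n ih => rw [pow_succ', Equiv.Perm.mul_apply, ih]; simp [sh, add_assoc]
  have h2 : H ≤ (MulAction.stabilizer _ ((1 : ℤ), false)).comap χ := (Subgroup.closure_le _).2 (by
    rintro _ ⟨n, rfl⟩
    have : (1 + n : ℤ) ≠ 0 := by omega
    simp [χ, t, bb, h1, Equiv.symm_apply_eq, Equiv.swap_apply_def, this])
  have := h2 h
  simp [χ, t, bb, sh] at this

theorem not_comm : ¬ Commute (T⁻¹ * α * T) β := fun h => by
  have h1 : Φ T = inr t := by simp [T, A0, B0, Φ, γ, PL, gr]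
  have h2 : Φ β = inr bb := by simp [β, β0, B0, B1, B2, Φ, γ, PL, gr]
  have h3 : Φ α = inl (FreeGroup.of ((1 : F2) : F2 ⧸ H)) := by
    simp [α, α0, A0, A1, A2, Φ, γ, PR]
  have h4 := (h.map Φ).eq
  rw [map_mul, map_mul, map_inv, h1, h2, h3, ← map_inv, conj_of t⁻¹ 1 t⁻¹ (by simp), mul_assoc _ _ (inr t),
    ← map_mul, inv_mul_cancel, map_one, mul_one, conj_of bb t⁻¹ (bb * t⁻¹) (by simp),
    mul_left_inj, inl_inj, FreeGroup.of_injective.eq_iff, eq_comm, QuotientGroup.eq] at h4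
  exact not_H (by simpa [mul_assoc] using h4)

section
variable {G : Type} [Group G] {T α β : G} (h1 : ∀ n : ℕ, Commute (T ^ n * α * (T ^ n)⁻¹) β)
  (h2 : ¬ Commute (T⁻¹ * α * T) β)

include h1 h2 in
theorem not_rf : ¬ Group.ResiduallyFinite G := fun _ => by
  refine h2 (commutatorElement_eq_one_iff_commute.1
    (Group.eq_one_iff_forall_finiteIndexNormalSubroup _ fun K => ?_))
  have := K.isNormal'
  have := K.isFiniteIndex'
  let f := QuotientGroup.mk' K.toSubgroup
  obtain ⟨n, hn⟩ := Nat.exists_eq_add_one_of_ne_zero (orderOf_pos (f T)).ne'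
  have h3 : f T ^ n = (f T)⁻¹ := eq_inv_of_mul_eq_one_left (by rw [← pow_succ, ← hn, pow_orderOf_eq_one])
  have h4 := (h1 n).map f
  refine (QuotientGroup.eq_one_iff _).1 (show f _ = 1 from ?_)
  rw [map_commutatorElement, commutatorElement_eq_one_iff_commute]
  simpa only [map_mul, map_inv, map_pow, h3, inv_inv] using h4

include h1 h2 in
theorem not_lin {K : Type} [Field K] {n : ℕ} (f : G →* GL (Fin n) K) :
    ¬ Function.Injective f := fun hf => by
  let m : G →* Matrix (Fin n) (Fin n) K := (Units.coeHom _).comp f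
  have hm : Function.Injective m := Units.val_injective.comp hf
  let S : Submodule K (Matrix (Fin n) (Fin n) K) :=
    { carrier := {X | ∀ k : ℕ, Commute (m (T ^ k) * X * m (T ^ k)⁻¹) (m β)}
      add_mem' := fun hx hy k => by simpa only [mul_add, add_mul] using (hx k).add_left (hy k)
      zero_mem' := fun k => by simp
      smul_mem' := fun c x hx k => by
        simpa only [mul_smul_comm, smul_mul_assoc] using (hx k).smul_left c }
  let c : S →ₗ[K] S := ((LinearMap.mulRight K (m T⁻¹) ∘ₗ LinearMap.mulLeft K (m T)).restrict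
    fun X hX k => by simpa [pow_succ, mul_assoc] using hX (k + 1))
  have hc : Function.Injective c := fun X Y e => by
    have e2 : m T * X.1 * m T⁻¹ = m T * Y.1 * m T⁻¹ := congrArg Subtype.val e
    have e3 := congrArg (fun Z => m T⁻¹ * Z * m T) e2
    simpa [mul_assoc, ← map_mul, ← mul_assoc (m T⁻¹)] using e3
  obtain ⟨X, hX⟩ := LinearMap.injective_iff_surjective.1 hc
    ⟨m α, fun k => by simpa only [map_mul] using (h1 k).map m⟩
  have e2 : m T * X.1 * m T⁻¹ = m α := congrArg Subtype.val hX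
  refine h2 (Commute.of_map hm ?_)
  have := X.2 0
  rw [map_mul, map_mul, ← e2]
  simpa [mul_assoc, ← map_mul, ← mul_assoc (m T⁻¹)] using this

end

def w0 : Vtx R := ⟨[0, 2], by simp⟩

noncomputable def Θ : DiagramGroup R w0 →* E := Φ.comp (iota w0)

theorem Θ_inj : Function.Injective Θ := (injective_iff_map_eq_one _).2 fun g hg =>
  iota_inj (fun _ => ne1) w0 ((Φ_inj (iota_pth g) hg).trans (map_one _).symm)

theorem exists_elts : ∃ T α β : DiagramGroup R w0,
    (∀ n : ℕ, Commute (T ^ n * α * (T ^ n)⁻¹) β) ∧ ¬ Commute (T⁻¹ * α * T) β := by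
  obtain ⟨x, hx⟩ := exists_iota (w := w0) (fun _ => ne1) pT
  obtain ⟨y, hy⟩ := exists_iota (w := w0) (fun _ => ne1) pα
  obtain ⟨z, hz⟩ := exists_iota (w := w0) (fun _ => ne1) pβ
  refine ⟨x, y, z, fun n => Commute.of_map (iota_inj (fun _ => ne1) w0) ?_, fun h => not_comm ?_⟩
  · simpa [hx, hy, hz] using comm_n n
  · simpa [hx, hy, hz] using h.map (iota w0)

end Pool.Agent.H65.ZZ
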